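import Mathlib

/-! The closed subgroup theorem for closed groups of units of a finite-dimensional real algebra. -/

namespace Pool.Agent.H71.Lie

open Filter Topology NormedSpace

variable {A : Type} [NormedRing A] [NormedAlgebra ℝ A] [CompleteSpace A]

lemma exp_add' {x y : A} (h : Commute x y) : exp (x + y) = exp x * exp y := by
  let +nondep : NormedAlgebra ℚ A := .restrictScalars ℚ ℝ A
  exact exp_add_of_commute h

lemma exp_cont : Continuous (exp : A → A) := by
  let +nondep : NormedAlgebra ℚ A := .restrictScalars ℚ ℝ A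
  exact exp_continuous

lemma exp_nsmul' (n : ℕ) (x : A) : exp (n • x) = exp x ^ n := by
  let +nondep : NormedAlgebra ℚ A := .restrictScalars ℚ ℝ A
  exact exp_nsmul n x

lemma exp_mul_neg (x : A) : exp x * exp (-x) = 1 := by
  rw [← exp_add' (Commute.refl x).neg_right, add_neg_cancel, exp_zero]

lemma exp_neg_mul (x : A) : exp (-x) * exp x = 1 := by
  rw [← exp_add' (Commute.refl x).neg_left, neg_add_cancel, exp_zero]

lemma exp_conj' {a b : A} (h1 : a * b = 1) (h2 : b * a = 1) (x : A) :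
    exp (a * x * b) = a * exp x * b := by
  let +nondep : NormedAlgebra ℚ A := .restrictScalars ℚ ℝ A
  exact exp_units_conj ⟨a, b, h1, h2⟩ x

lemma exp_smul_add (s t : ℝ) (x : A) : exp ((s + t) • x) = exp (s • x) * exp (t • x) := by
  rw [add_smul, exp_add' (((Commute.refl x).smul_left s).smul_right t)]

lemma hasDeriv_exp0 (x : A) : HasStrictDerivAt (fun t : ℝ => exp (t • x)) x 0 := by
  simpa using hasStrictDerivAt_exp_smul_const (𝕂 := ℝ) x (0 : ℝ)

lemma exp_strict : HasStrictFDerivAt (exp : A → A)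
    ((ContinuousLinearEquiv.refl ℝ A : A ≃L[ℝ] A) : A →L[ℝ] A) 0 :=
  hasStrictFDerivAt_exp_zero

/-- a local logarithm -/
noncomputable def lg : A → A := (exp_strict (A := A)).localInverse _ _ _

lemma lg_exp : ∀ᶠ x in 𝓝 (0 : A), lg (exp x) = x := exp_strict.eventually_left_inverse

lemma exp_lg : ∀ᶠ y in 𝓝 (1 : A), exp (lg y) = y := by
  have := (exp_strict (A := A)).eventually_right_inverse
  rwa [exp_zero] at this

lemma lg_one : lg (1 : A) = 0 := by
  have := (exp_strict (A := A)).localInverse_apply_image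
  rwa [exp_zero] at this

lemma lg_strict : HasStrictFDerivAt (lg : A → A) (ContinuousLinearMap.id ℝ A) 1 := by
  have := (exp_strict (A := A)).to_localInverse
  rwa [exp_zero] at this

lemma lg_tendsto : Tendsto (lg : A → A) (𝓝 1) (𝓝 0) := by
  have := (lg_strict (A := A)).continuousAt
  rwa [ContinuousAt, lg_one] at this

/-- closed groups of units -/
structure CG (S : Set A) : Prop where
  closed : IsClosed S
  one : (1 : A) ∈ S
  mul : ∀ x ∈ S, ∀ y ∈ S, x * y ∈ S
  inv : ∀ x ∈ S, ∃ y ∈ S, x * y = 1 ∧ y * x = 1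

omit [NormedAlgebra ℝ A] [CompleteSpace A] in
lemma CG.pow {S : Set A} (h : CG S) {x : A} (hx : x ∈ S) (n : ℕ) : x ^ n ∈ S := by
  induction n with
  | zero => simpa using h.one
  | succ n ih => rw [pow_succ]; exact h.mul _ ih _ hx

lemma CG.exp_neg {S : Set A} (h : CG S) {x : A} (hx : exp x ∈ S) : exp (-x) ∈ S := by
  obtain ⟨y, hy, h1, -⟩ := h.inv _ hx
  have : exp (-x) = y := by rw [← mul_one (exp (-x)), ← h1, ← mul_assoc, exp_neg_mul, one_mul]
  rwa [this]

lemma CG.exp_int {S : Set A} (h : CG S) {x : A} (hx : exp x ∈ S) (m : ℤ) :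
    exp ((m : ℝ) • x) ∈ S := by
  obtain ⟨n, rfl | rfl⟩ := Int.eq_nat_or_neg m
  · rw [Int.cast_natCast, Nat.cast_smul_eq_nsmul, exp_nsmul']; exact h.pow hx n
  · rw [Int.cast_neg, neg_smul, Int.cast_natCast, Nat.cast_smul_eq_nsmul]
    refine h.exp_neg ?_
    rw [exp_nsmul']; exact h.pow hx n

lemma CG.limit {S : Set A} (h : CG S) {ι : Type*} {F : Filter ι} [F.NeBot] {z : ι → A} {c : ι → ℝ}
    {X : A} (hz : ∀ᶠ i in F, exp (z i) ∈ S) (hc : ∀ᶠ i in F, 0 < c i) (hc0 : Tendsto c F (𝓝 0))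
    (hX : Tendsto (fun i => (c i)⁻¹ • z i) F (𝓝 X)) (t : ℝ) : exp (t • X) ∈ S := by
  have h1 : Tendsto (fun i => (⌊t / c i⌋ : ℝ) * c i) F (𝓝 t) := by
    have lo : Tendsto (fun i => t - c i) F (𝓝 t) := by simpa using hc0.const_sub t
    refine tendsto_of_tendsto_of_tendsto_of_le_of_le' lo tendsto_const_nhds ?_ ?_
    · filter_upwards [hc] with i hi
      have := Int.lt_floor_add_one (t / c i)
      rw [div_lt_iff₀ hi] at this
      linarith
    · filter_upwards [hc] with i hi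
      have := Int.floor_le (t / c i)
      rwa [le_div_iff₀ hi] at this
  have h2 := (exp_cont.tendsto _).comp (h1.smul hX)
  refine h.closed.mem_of_tendsto h2 ?_
  filter_upwards [hz, hc] with i hi hci
  simp only [Function.comp, smul_smul, mul_assoc, mul_inv_cancel₀ hci.ne', mul_one]
  exact h.exp_int hi _

lemma CG.curve {S : Set A} (h : CG S) {γ : ℝ → A} {X : A} (hγ : ∀ t, γ t ∈ S) (h0 : γ 0 = 1)
    (hd : HasDerivAt γ X 0) (t : ℝ) : exp (t • X) ∈ S := by
  have h1 : HasDerivAt (fun s => lg (γ s)) X 0 := by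
    have := (lg_strict (A := A)).hasFDerivAt
    rw [← h0] at this
    exact this.comp_hasDerivAt 0 hd
  have h2 := h1.tendsto_slope_zero_right
  simp only [zero_add, h0, lg_one, sub_zero] at h2
  refine h.limit (F := 𝓝[>] (0 : ℝ)) (c := id) ?_ self_mem_nhdsWithin
    (tendsto_id.mono_left nhdsWithin_le_nhds) h2 t
  have h3 : Tendsto γ (𝓝 0) (𝓝 1) := h0 ▸ hd.continuousAt
  filter_upwards [(h3.mono_left nhdsWithin_le_nhds).eventually exp_lg] with s hs
  rw [hs]; exact hγ s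

/-- the Lie algebra -/
def CG.lie {S : Set A} (h : CG S) : Submodule ℝ A where
  carrier := {X | ∀ t : ℝ, exp (t • X) ∈ S}
  zero_mem' := fun t => by simpa using h.one
  smul_mem' := fun c X hX t => by rw [smul_smul]; exact hX _
  add_mem' := fun {X Y} hX hY => by
    refine h.curve (γ := fun t => exp (t • X) * exp (t • Y)) (fun t => h.mul _ (hX t) _ (hY t))
      (by simp) ?_
    refine ((hasDeriv_exp0 X).hasDerivAt.fun_mul (hasDeriv_exp0 Y).hasDerivAt).congr_deriv ?_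
    simp

lemma CG.mem_lie {S : Set A} (h : CG S) {X : A} : X ∈ h.lie ↔ ∀ t : ℝ, exp (t • X) ∈ S := Iff.rfl

lemma CG.exp_mem {S : Set A} (h : CG S) {X : A} (hX : X ∈ h.lie) : exp X ∈ S := by
  simpa using hX 1

lemma CG.transv [FiniteDimensional ℝ A] {S : Set A} (h : CG S) (W : Submodule ℝ A)
    (hW : Disjoint h.lie W) : ∀ᶠ y in 𝓝 (0 : A), y ∈ W → exp y ∈ S → y = 0 := by
  by_contra hcon
  rw [not_eventually, frequently_iff_neBot] at hcon
  set F := 𝓝 (0 : A) ⊓ 𝓟 {y | ¬(y ∈ W → exp y ∈ S → y = 0)}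
  let U := Ultrafilter.of F
  have hU : (U : Filter A) ≤ F := Ultrafilter.of_le F
  have hm : ∀ᶠ y in (U : Filter A), y ∈ W ∧ exp y ∈ S ∧ y ≠ 0 := by
    have : ∀ᶠ y in F, ¬(y ∈ W → exp y ∈ S → y = 0) := mem_inf_of_right (mem_principal_self _)
    filter_upwards [hU this] with y hy
    push Not at hy
    exact hy
  have hcomp : IsCompact (Metric.sphere (0 : A) 1 ∩ W) :=
    (isCompact_sphere _ _).inter_right W.closed_of_finiteDimensional
  obtain ⟨Y, hY, hlim⟩ := hcomp.ultrafilter_le_nhds (U.map fun y => ‖y‖⁻¹ • y) (by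
    rw [le_principal_iff, Ultrafilter.coe_map, mem_map]
    filter_upwards [hm] with y hy
    refine ⟨?_, W.smul_mem _ hy.1⟩
    simp [norm_smul, hy.2.2])
  have hYl : Y ∈ h.lie := h.limit (F := (U : Filter A)) (z := fun y => y) (c := fun y => ‖y‖) (hm.mono fun y hy => hy.2.1)
    (hm.mono fun y hy => norm_pos_iff.2 hy.2.2)
    ((Continuous.tendsto' continuous_norm 0 0 norm_zero).mono_left (hU.trans inf_le_left)) hlim
  have := (Submodule.disjoint_def.1 hW) Y hYl hY.2
  simpa [this] using hY.1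

/-- If a map into `S₀ ⊆ S` has derivative onto the Lie algebra, then `S₀` is a neighbourhood
of `1` in `S`, even locally. -/
lemma CG.openMap [FiniteDimensional ℝ A] {S : Set A} (h : CG S) {E : Type} [NormedAddCommGroup E]
    [NormedSpace ℝ E] [CompleteSpace E] {Φ : E → A} {Φ' : E →L[ℝ] A}
    (hΦ : HasStrictFDerivAt Φ Φ' 0) (h0 : Φ 0 = 1) (hS : ∀ e, Φ e ∈ S)
    (hr : h.lie ≤ Φ'.range) {U : Set E} (hU : U ∈ 𝓝 (0 : E)) :
    ∀ᶠ s in 𝓝 (1 : A), s ∈ S → s ∈ Φ '' U := by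
  obtain ⟨W, hW⟩ := h.lie.exists_isCompl
  have : CompleteSpace W := FiniteDimensional.complete ℝ W
  let Ψ : E × W → A := fun p => Φ p.1 * exp (p.2 : A)
  have h1 : HasStrictFDerivAt (fun p : E × W => Φ p.1) (Φ' ∘L ContinuousLinearMap.fst ℝ E W) 0 :=
    HasStrictFDerivAt.comp (g := Φ) (f := Prod.fst) (0 : E × W) hΦ hasStrictFDerivAt_fst
  have h2 : HasStrictFDerivAt (fun p : E × W => exp (p.2 : A))
      (W.subtypeL ∘L ContinuousLinearMap.snd ℝ E W) 0 := by
    have := HasStrictFDerivAt.comp (g := (exp : A → A)) (f := fun p : E × W => (p.2 : A))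
      (0 : E × W) (hasStrictFDerivAt_exp_zero (𝕂 := ℝ))
      (W.subtypeL ∘L ContinuousLinearMap.snd ℝ E W).hasStrictFDerivAt
    exact this
  have h3 : HasStrictFDerivAt Ψ (Φ' ∘L ContinuousLinearMap.fst ℝ E W +
      W.subtypeL ∘L ContinuousLinearMap.snd ℝ E W) 0 := by
    refine (h1.mul' h2).congr_fderiv ?_
    ext <;> simp [h0]
  have h4 := h3.map_nhds_eq_of_surj (by
    rw [eq_top_iff, ← hW.sup_eq_top, sup_le_iff]
    constructor
    · intro X hX
      obtain ⟨e, he⟩ := hr hX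
      exact ⟨(e, 0), by simpa using he⟩
    · intro X hX
      exact ⟨(0, ⟨X, hX⟩), by simp⟩)
  have h5 : Ψ 0 = 1 := by simp [Ψ, h0]
  rw [h5] at h4
  have h6 : ∀ᶠ p : E × W in 𝓝 0, p.1 ∈ U ∧ (exp (p.2 : A) ∈ S → (p.2 : A) = 0) := by
    refine Eventually.and (continuous_fst.tendsto' (0 : E × W) 0 rfl hU) ?_
    have := (Continuous.tendsto' (f := fun p : E × W => (p.2 : A)) (by fun_prop) 0 0 rfl).eventually
      (h.transv W hW.disjoint)
    exact this.mono fun p hp => hp p.2.2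
  rw [← h4, eventually_map]
  filter_upwards [h6] with p hp hs
  obtain ⟨y, hy, -, hy2⟩ := h.inv _ (hS p.1)
  have : exp (p.2 : A) ∈ S := by
    have := h.mul _ hy _ hs
    simp only [Ψ] at this
    rwa [← mul_assoc, hy2, one_mul] at this
  exact ⟨p.1, hp.1, by simp [Ψ, hp.2 this]⟩

/-- closed subgroup theorem -/
lemma CG.cst [FiniteDimensional ℝ A] {S : Set A} (h : CG S) {U : Set A} (hU : U ∈ 𝓝 (0 : A)) :
    ∀ᶠ s in 𝓝 (1 : A), s ∈ S → ∃ X ∈ h.lie, X ∈ U ∧ exp X = s := by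
  have : CompleteSpace h.lie := FiniteDimensional.complete ℝ _
  have h2 : HasStrictFDerivAt (fun p : h.lie => exp (p : A)) h.lie.subtypeL 0 :=
    HasStrictFDerivAt.comp (g := (exp : A → A)) (f := fun p : h.lie => (p : A))
      (0 : h.lie) (hasStrictFDerivAt_exp_zero (𝕂 := ℝ)) h.lie.subtypeL.hasStrictFDerivAt
  have := h.openMap h2 (by simp) (fun e => h.exp_mem e.2) (fun X hX => ⟨⟨X, hX⟩, rfl⟩)
    (U := Subtype.val ⁻¹' U) (continuous_subtype_val.tendsto' 0 0 rfl hU)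
  filter_upwards [this] with s hs hs'
  obtain ⟨X, hX, rfl⟩ := hs hs'
  exact ⟨X, X.2, hX, rfl⟩

lemma exists_inj_nhds : ∃ U ∈ 𝓝 (0 : A), Set.InjOn (exp : A → A) U :=
  ⟨_, lg_exp, fun x hx y hy hxy => by
    rw [← (show lg (exp x) = x from hx), hxy]; exact hy⟩

lemma CG.cst' [FiniteDimensional ℝ A] {S : Set A} (h : CG S) :
    ∀ᶠ z in 𝓝 (0 : A), exp z ∈ S → z ∈ h.lie := by
  obtain ⟨U, hU, hi⟩ := exists_inj_nhds (A := A)
  have := (exp_cont.tendsto' (0 : A) 1 exp_zero).eventually (h.cst hU)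
  filter_upwards [this, hU] with z hz hzU hs
  obtain ⟨X, hX, hXU, he⟩ := hz hs
  rwa [← hi hXU hzU he]

/-- spanning version: a submonoid containing enough curves is a neighbourhood of `1` in `S`. -/
lemma CG.yamabe [FiniteDimensional ℝ A] {S : Set A} (h : CG S) {S₀ : Set A} (hs : S₀ ⊆ S)
    (h1 : (1 : A) ∈ S₀) (hm : ∀ x ∈ S₀, ∀ y ∈ S₀, x * y ∈ S₀)
    (hsp : h.lie ≤ Submodule.span ℝ {Y | ∃ γ : ℝ → A, (∀ t, γ t ∈ S₀) ∧ γ 0 = 1 ∧
      HasStrictDerivAt γ Y 0}) : ∀ᶠ s in 𝓝 (1 : A), s ∈ S → s ∈ S₀ := by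
  let R : Set (Submodule ℝ A) := {V | ∃ (E : Type) (_ : NormedAddCommGroup E)
    (_ : NormedSpace ℝ E) (_ : CompleteSpace E) (Φ : E → A) (Φ' : E →L[ℝ] A),
    HasStrictFDerivAt Φ Φ' 0 ∧ Φ 0 = 1 ∧ (∀ e, Φ e ∈ S₀) ∧ V ≤ Φ'.range}
  have hne : R.Nonempty := ⟨⊥, ℝ, inferInstance, inferInstance, inferInstance, fun _ => 1, 0,
    hasStrictFDerivAt_const _ _, rfl, fun _ => h1, bot_le⟩
  obtain ⟨V, ⟨E, _, _, _, Φ, Φ', a1, a2, a3, a4⟩, hmax⟩ :=
    (set_has_maximal_iff_noetherian.2 (inferInstance : IsNoetherian ℝ A)) R hne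
  have key : h.lie ≤ V := by
    refine hsp.trans (Submodule.span_le.2 ?_)
    rintro Y ⟨γ, b1, b2, b3⟩
    have c1 : HasStrictFDerivAt (fun p : E × ℝ => Φ p.1) (Φ' ∘L ContinuousLinearMap.fst ℝ E ℝ) 0 :=
      HasStrictFDerivAt.comp (g := Φ) (f := Prod.fst) (0 : E × ℝ) a1 hasStrictFDerivAt_fst
    have c2 := HasStrictFDerivAt.comp (g := γ) (f := Prod.snd) (0 : E × ℝ) b3.hasStrictFDerivAt
      hasStrictFDerivAt_snd
    have c3 : V ⊔ Submodule.span ℝ {Y} ∈ R := by
      refine ⟨E × ℝ, inferInstance, inferInstance, inferInstance, _, _, c1.mul' c2,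
        by simp [a2, b2], fun e => hm _ (a3 _) _ (b1 _), sup_le ?_ ?_⟩
      · intro X hX
        obtain ⟨e, he⟩ := a4 hX
        exact ⟨(e, 0), by simpa [b2] using he⟩
      · rw [Submodule.span_singleton_le_iff_mem]
        exact ⟨(0, 1), by simp [a2]⟩
    have := hmax _ c3
    have h2 : V ⊔ Submodule.span ℝ {Y} = V := by
      by_contra hne
      exact this (lt_of_le_of_ne le_sup_left (Ne.symm hne))
    change Y ∈ V
    rw [← h2]
    exact Submodule.mem_sup_right (Submodule.mem_span_singleton_self Y)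
  filter_upwards [h.openMap a1 a2 (fun e => hs (a3 e)) (key.trans a4) univ_mem] with s hs hs'
  obtain ⟨e, -, rfl⟩ := hs hs'
  exact a3 e

lemma eq_zero_of_exp {X : A} (h : ∀ t : ℝ, exp (t • X) = 1) : X = 0 := by
  have h1 := (hasDeriv_exp0 X).hasDerivAt
  simp only [h] at h1
  exact h1.unique (hasDerivAt_const _ _)

lemma commute_of_exp {X a : A} (h : ∀ t : ℝ, a * exp (t • X) = exp (t • X) * a) :
    a * X = X * a := by
  have h1 := (hasDeriv_exp0 X).hasDerivAt.const_mul a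
  have h2 := (hasDeriv_exp0 X).hasDerivAt.mul_const a
  simp only [h] at h1
  exact h1.unique h2

omit [CompleteSpace A] in
/-- no small subgroups -/
lemma nss {S : Set A} (hS : ∀ x ∈ S, x * x ∈ S) (h : ∀ x ∈ S, ‖x - 1‖ ≤ 1 / 2) {x : A}
    (hx : x ∈ S) : x = 1 := by
  have key : ∀ n : ℕ, ∀ x ∈ S, ‖x - 1‖ ≤ (2 / 3) ^ n := by
    intro n
    induction n with
    | zero => intro x hx; have := h x hx; simp only [pow_zero]; linarith
    | succ n ih =>
      intro x hx
      have h1 := ih _ (hS x hx)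
      have h2 : (2 : ℝ) • (x - 1) = (x * x - 1) - (x - 1) * (x - 1) := by
        rw [two_smul]; noncomm_ring
      have h3 := congrArg norm h2
      rw [norm_smul, Real.norm_two] at h3
      have h4 := norm_sub_le (x * x - 1) ((x - 1) * (x - 1))
      have h5 := norm_mul_le (x - 1) (x - 1)
      have h6 := h x hx
      have h7 := norm_nonneg (x - 1)
      rw [pow_succ]
      nlinarith
  have := ge_of_tendsto' (tendsto_pow_atTop_nhds_zero_of_lt_one (r := (2 / 3 : ℝ)) (by norm_num)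
    (by norm_num)) (fun n => key n x hx)
  exact sub_eq_zero.1 (norm_le_zero_iff.1 this)

end Pool.Agent.H71.Lie
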