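import Mathlib

/-! Peter-Weyl: finite-dimensional unitary representations separate the points of a compact group. -/

namespace Pool.Agent.H71.PW

open MeasureTheory Filter Topology
open scoped InnerProductSpace

/-- a finite-dimensional unitary representation nontrivial at `x` -/
def SepAt (K : Type) [Group K] [TopologicalSpace K] (x : K) : Prop :=
  ∃ (E : Type) (_ : NormedAddCommGroup E) (_ : InnerProductSpace ℂ E) (_ : FiniteDimensional ℂ E)
    (ρ : K →* (E →L[ℂ] E)), Continuous ρ ∧ (∀ g v w, ⟪ρ g v, ρ g w⟫_ℂ = ⟪v, w⟫_ℂ) ∧ ρ x ≠ 1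

theorem hilb {K : Type} [Group K] [TopologicalSpace K] {H : Type} [NormedAddCommGroup H]
    [InnerProductSpace ℂ H] [CompleteSpace H] (l : K →* (H →L[ℂ] H))
    (hl : ∀ g v w, ⟪l g v, l g w⟫_ℂ = ⟪v, w⟫_ℂ) (T : H →L[ℂ] H) (hT : IsCompactOperator T)
    (hc : ∀ g h, l g (T h) = T (l g h)) (hcont : ∀ h, Continuous fun g => l g (T h)) (x : K)
    (hx : ∃ h, l x (T h) ≠ T h) : SepAt K x := by
  have linv : ∀ g v, l g (l g⁻¹ v) = v := fun g v => by
    rw [← mul_apply_eq_comp, ← map_mul, mul_inv_cancel, map_one]; rfl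
  have ladj : ∀ g v w, ⟪l g v, w⟫_ℂ = ⟪v, l g⁻¹ w⟫_ℂ := fun g v w => by
    conv_lhs => rw [← linv g w, hl]
  let A := ContinuousLinearMap.adjoint T
  have hA : ∀ g h, l g (A h) = A (l g h) := fun g h => by
    apply ext_inner_right ℂ
    intro w
    rw [ladj, ContinuousLinearMap.adjoint_inner_left, ContinuousLinearMap.adjoint_inner_left,
      ladj, hc]
  let P : H →L[ℂ] H := T ∘L A
  have hP : IsCompactOperator P := hT.comp_clm A
  have hPs : (P : H →ₗ[ℂ] H).IsSymmetric := fun v w => by
    change ⟪T (A v), w⟫_ℂ = ⟪v, T (A w)⟫_ℂ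
    rw [← ContinuousLinearMap.adjoint_inner_right]
    exact ContinuousLinearMap.adjoint_inner_left _ _ _
  have hPl : ∀ g h, l g (P h) = P (l g h) := fun g h => by
    change l g (T (A h)) = T (A (l g h))
    rw [hc, hA]
  by_contra hcon
  have key : ∀ μ : ℂ, ∀ v ∈ Module.End.eigenspace (P : H →ₗ[ℂ] H) μ, l x (P v) = P v := by
    intro μ v hv
    by_cases hμ : μ = 0
    · subst hμ
      rw [Module.End.mem_eigenspace_iff, zero_smul] at hv
      change P v = 0 at hv
      rw [hv, map_zero]
    by_contra hne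
    apply hcon
    let E := Module.End.eigenspace (P : H →ₗ[ℂ] H) μ
    have hE : FiniteDimensional ℂ E := ContinuousLinearMap.finite_dimensional_eigenspace hP μ hμ
    have hinv : ∀ g, ∀ w ∈ E, l g w ∈ E := fun g w hw => by
      rw [Module.End.mem_eigenspace_iff] at hw ⊢
      change P (l g w) = _
      change P w = _ at hw
      rw [← hPl, hw, map_smul]
    let ρ : K →* (E →L[ℂ] E) :=
      { toFun := fun g => (l g).restrict (hinv g)
        map_one' := by ext w; simp
        map_mul' := fun a b => by ext w; simp }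
    refine ⟨E, inferInstance, inferInstance, hE, ρ, ?_, fun g v w => hl g v w, fun h => hne ?_⟩
    · rw [continuous_clm_apply]
      intro w
      refine continuous_induced_rng.2 ?_
      have hw : (w : H) = T (A (μ⁻¹ • (w : H))) := by
        have := Module.End.mem_eigenspace_iff.1 w.2
        change P w = _ at this
        change _ = P _
        rw [map_smul, this, smul_smul, inv_mul_cancel₀ hμ, one_smul]
      have := hcont (A (μ⁻¹ • (w : H)))
      rw [← hw] at this
      exact this
    · have hv' : P v ∈ E := by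
        have := Module.End.mem_eigenspace_iff.1 hv
        change P v = _ at this
        rw [this]; exact E.smul_mem _ hv
      exact congrArg Subtype.val (congrArg (fun f : E →L[ℂ] E => f ⟨_, hv'⟩) h)
  have hall : ∀ v, l x (P v) = P v := by
    have h1 := ContinuousLinearMap.orthogonalComplement_iSup_eigenspaces_eq_bot hP hPs
    rw [← Submodule.topologicalClosure_eq_top_iff] at h1
    have h2 : (⨆ μ, Module.End.eigenspace (P : H →ₗ[ℂ] H) μ) ≤
        LinearMap.ker ((l x ∘L P - P : H →L[ℂ] H) : H →ₗ[ℂ] H) :=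
      iSup_le fun μ v hv => by simpa [sub_eq_zero] using key μ v hv
    have h3 := Submodule.topologicalClosure_minimal _ h2 (ContinuousLinearMap.isClosed_ker _)
    rw [h1] at h3
    intro v
    simpa [sub_eq_zero] using h3 (Submodule.mem_top (x := v))
  obtain ⟨h, hh⟩ := hx
  apply hh
  have z : ∀ w, A (l x⁻¹ w - w) = 0 := fun w => by
    rw [← inner_self_eq_zero (𝕜 := ℂ), ContinuousLinearMap.adjoint_inner_left]
    change ⟪l x⁻¹ w - w, P _⟫_ℂ = 0
    rw [inner_sub_left, ladj, inv_inv, hall, sub_self]
  apply ext_inner_right ℂ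
  intro w
  rw [ladj, ← sub_eq_zero, ← inner_sub_right, ← ContinuousLinearMap.adjoint_inner_right, z,
    inner_zero_right]

theorem peterWeyl (K : Type) [Group K] [TopologicalSpace K] [IsTopologicalGroup K] [CompactSpace K]
    [T2Space K] (x : K) (hx : x ≠ 1) : SepAt K x := by
  borelize K
  let μ : Measure K := Measure.haar
  let H := Lp ℂ 2 μ
  let l : K →* (H →L[ℂ] H) :=
    { toFun := fun g => (Lp.compMeasurePreservingₗᵢ ℂ (fun z => g⁻¹ * z)
        (measurePreserving_mul_left μ g⁻¹)).toContinuousLinearMap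
      map_one' := by
        ext1 h
        have : (fun z : K => (1 : K)⁻¹ * z) = id := by ext; simp
        change Lp.compMeasurePreserving _ _ h = h
        simp only [this]
        exact Lp.compMeasurePreserving_id_apply h
      map_mul' := fun a b => by
        ext1 h
        change Lp.compMeasurePreserving _ _ h =
          Lp.compMeasurePreserving _ _ (Lp.compMeasurePreserving _ _ h)
        rw [← Lp.compMeasurePreserving_comp_apply]
        congr 2
        ext z; simp [mul_assoc] }
  have hl : ∀ g v w, ⟪l g v, l g w⟫_ℂ = ⟪v, w⟫_ℂ := fun g v w =>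
    LinearIsometry.inner_map_map _ v w
  let Λ : C(K, ℂ) → C(K, C(K, ℂ)) := fun u =>
    ContinuousMap.curry ⟨fun p : K × K => u (p.1⁻¹ * p.2), by fun_prop⟩
  let j : C(K, ℂ) →L[ℂ] H := ContinuousMap.toLp 2 μ ℂ
  have hj : ∀ g u, l g (j u) = j (Λ u g) := fun g u => by
    apply Lp.ext
    refine (Lp.coeFn_compMeasurePreserving _ (measurePreserving_mul_left μ g⁻¹)).trans ?_
    refine EventuallyEq.trans ?_ (ContinuousMap.coeFn_toLp μ (Λ u g)).symm
    exact (measurePreserving_mul_left μ g⁻¹).quasiMeasurePreserving.ae_eq_comp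
      (ContinuousMap.coeFn_toLp μ u)
  obtain ⟨f0, hf0, hf1, -⟩ := exists_continuous_zero_one_of_isClosed (X := K)
    (isClosed_singleton (x := 1)) (isClosed_singleton (x := x)) (by simpa using hx.symm)
  let f : C(K, ℂ) := ⟨fun z => (f0 z : ℂ), by fun_prop⟩
  let v : C(K, H) := ⟨fun z => j (Λ f z), by fun_prop⟩
  have hv : ∀ g z, l g (v z) = v (g * z) := fun g z => by
    change l g (j _) = j _
    rw [hj]
    congr 1
    ext y
    simp [Λ, mul_assoc]
  let S : H →L[ℂ] C(K, ℂ) := LinearMap.mkContinuous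
    { toFun := fun h => ⟨fun z => ⟪v z, h⟫_ℂ, by fun_prop⟩
      map_add' := fun a b => by ext z; exact inner_add_right (𝕜 := ℂ) (v z) a b
      map_smul' := fun c a => by ext z; exact inner_smul_right (𝕜 := ℂ) (v z) a c } ‖v‖ (fun h => by
        refine (ContinuousMap.norm_le _ (by positivity)).2 fun z => ?_
        exact (norm_inner_le_norm _ _).trans
          (mul_le_mul_of_nonneg_right (v.norm_coe_le_norm z) (norm_nonneg _)))
  have hS : ∀ h z, S h z = ⟪v z, h⟫_ℂ := fun h z => rfl
  have hSl : ∀ g h, S (l g h) = Λ (S h) g := fun g h => by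
    ext z
    change ⟪v z, l g h⟫_ℂ = ⟪v (g⁻¹ * z), h⟫_ℂ
    rw [← hl g (v _) h, hv, mul_inv_cancel_left]
  have hSc : IsCompactOperator S := by
    let e := ContinuousMap.isometryEquivBoundedOfCompact K ℂ
    let B := (fun h => e (S h)) '' Metric.closedBall 0 1
    have hB : IsCompact (closure B) := by
      refine BoundedContinuousFunction.arzela_ascoli (Metric.closedBall 0 ‖v‖)
        (isCompact_closedBall _ _) B ?_ ?_
      · rintro _ z ⟨h, hh, rfl⟩
        rw [mem_closedBall_zero_iff] at hh ⊢
        change ‖⟪v z, h⟫_ℂ‖ ≤ _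
        calc _ ≤ ‖v z‖ * ‖h‖ := norm_inner_le_norm _ _
          _ ≤ ‖v‖ * 1 := by gcongr; exact v.norm_coe_le_norm z
          _ = _ := mul_one _
      · intro z0
        refine Metric.equicontinuousAt_of_continuity_modulus (fun z => ‖v z0 - v z‖) ?_ _
          (Eventually.of_forall ?_)
        · exact Continuous.tendsto' (f := fun z => ‖v z0 - v z‖) (by fun_prop) _ _ (by simp)
        · rintro z ⟨_, h, hh, rfl⟩
          rw [mem_closedBall_zero_iff] at hh
          change dist ⟪v z0, h⟫_ℂ ⟪v z, h⟫_ℂ ≤ _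
          rw [dist_eq_norm, ← inner_sub_left]
          calc _ ≤ ‖v z0 - v z‖ * ‖h‖ := norm_inner_le_norm _ _
            _ ≤ ‖v z0 - v z‖ * 1 := by gcongr
            _ = _ := mul_one _
    refine ⟨e.symm '' closure B, hB.image e.symm.continuous, ?_⟩
    refine mem_of_superset (Metric.closedBall_mem_nhds 0 one_pos) fun h hh => ?_
    exact ⟨e (S h), subset_closure ⟨h, hh, rfl⟩, e.symm_apply_apply _⟩
  refine hilb l hl (j ∘L S) (hSc.clm_comp j) (fun g h => ?_) (fun h => ?_) x ?_
  · change l g (j (S h)) = j (S (l g h))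
    rw [hj, hSl]
  · change Continuous fun g => l g (j _)
    simp only [hj]
    fun_prop
  · by_contra hcon
    push Not at hcon
    have h1 : v (x⁻¹ * 1) = v 1 := by
      apply ext_inner_right ℂ
      intro h
      have := hcon h
      change l x (j _) = j _ at this
      rw [hj] at this
      exact congrArg (fun u : C(K, ℂ) => u 1) (ContinuousMap.toLp_injective μ this)
    have h2 := congrArg (fun u : C(K, ℂ) => u 1) (ContinuousMap.toLp_injective μ h1)
    have a := hf0 (Set.mem_singleton (1 : K))
    have b := hf1 (Set.mem_singleton x)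
    simp [Λ, f, a, b] at h2

end Pool.Agent.H71.PW
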