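import Mathlib
import Pool.Agent.H71.PW
import Pool.Agent.H71.Lie1

/-! Compact groups: representations, chains of normal subgroups, completions of precompact groups. -/

namespace Pool.Agent.H71.Lie

open Filter Topology NormedSpace

/-- a continuous homomorphism into a finite-dimensional real normed algebra -/
structure Rep (K : Type) [Group K] [TopologicalSpace K] where
  A : Type
  [r : NormedRing A]
  [a : NormedAlgebra ℝ A]
  [c : CompleteSpace A]
  [f : FiniteDimensional ℝ A]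
  ρ : K →* A
  cont : Continuous ρ

attribute [instance] Rep.r Rep.a Rep.c Rep.f

variable {K : Type} [Group K] [TopologicalSpace K]

noncomputable def Rep.prod (R S : Rep K) : Rep K where
  A := R.A × S.A
  ρ := R.ρ.prod S.ρ
  cont := R.cont.prodMk S.cont

lemma Rep.prod_eq (R S : Rep K) {x y : K} :
    (R.prod S).ρ x = (R.prod S).ρ y ↔ R.ρ x = R.ρ y ∧ S.ρ x = S.ρ y := Prod.ext_iff

lemma Rep.prod_one (R S : Rep K) {x : K} : (R.prod S).ρ x = 1 ↔ R.ρ x = 1 ∧ S.ρ x = 1 :=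
  Prod.ext_iff

noncomputable def Rep.triv : Rep K where
  A := ℝ
  ρ := 1
  cont := continuous_const

instance : Nonempty (Rep K) := ⟨Rep.triv⟩

lemma Rep.mul_inv (R : Rep K) (x : K) : R.ρ x * R.ρ x⁻¹ = 1 := by rw [← map_mul]; simp
lemma Rep.inv_mul (R : Rep K) (x : K) : R.ρ x⁻¹ * R.ρ x = 1 := by rw [← map_mul]; simp

lemma Rep.eq_iff (R : Rep K) {x y : K} : R.ρ x = R.ρ y ↔ R.ρ (x⁻¹ * y) = 1 := by
  constructor
  · intro h; rw [map_mul, ← h, R.inv_mul]
  · intro h
    have : y = x * (x⁻¹ * y) := by group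
    rw [this, map_mul, h, mul_one]

lemma Rep.ker_closed (R : Rep K) : IsClosed (R.ρ.ker : Set K) :=
  isClosed_singleton.preimage R.cont

variable [IsTopologicalGroup K] [CompactSpace K] [T2Space K]

theorem exists_rep {x : K} (hx : x ≠ 1) : ∃ R : Rep K, R.ρ x ≠ 1 := by
  obtain ⟨E, _, _, _, ρ, h1, -, h2⟩ := PW.peterWeyl K x hx
  have := FiniteDimensional.complete ℂ E
  exact ⟨{ A := E →L[ℂ] E, ρ := ρ, cont := h1 }, h2⟩

omit [IsTopologicalGroup K] [T2Space K] in
lemma Rep.cg (R : Rep K) {H : Subgroup K} (hH : IsClosed (H : Set K)) : CG (R.ρ '' H) where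
  closed := (hH.isCompact.image R.cont).isClosed
  one := ⟨1, H.one_mem, map_one _⟩
  mul := by
    rintro _ ⟨x, hx, rfl⟩ _ ⟨y, hy, rfl⟩
    exact ⟨x * y, H.mul_mem hx hy, map_mul _ _ _⟩
  inv := by
    rintro _ ⟨x, hx, rfl⟩
    exact ⟨_, ⟨x⁻¹, H.inv_mem hx, rfl⟩, R.mul_inv x, R.inv_mul x⟩

omit [CompactSpace K] [T2Space K] in
lemma Rep.closed_diff (R : Rep K) {H H' : Subgroup K} (hH : IsClosed (H : Set K))
    (h : ∀ᶠ s in 𝓝 (1 : R.A), s ∈ R.ρ '' H → s ∈ R.ρ '' H') :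
    IsClosed {k | k ∈ H ∧ R.ρ k ∉ R.ρ '' H'} := by
  rw [← isOpen_compl_iff, isOpen_iff_mem_nhds]
  intro k hk
  by_cases hkH : k ∈ H
  swap
  · exact mem_of_superset (hH.isOpen_compl.mem_nhds hkH) fun y hy h' => hy h'.1
  have hk' : R.ρ k ∈ R.ρ '' H' := by
    by_contra h'; exact hk ⟨hkH, h'⟩
  obtain ⟨a, ha, hak⟩ := hk'
  have t : Tendsto (fun y => R.ρ (k⁻¹ * y)) (𝓝 k) (𝓝 1) :=
    Continuous.tendsto' (f := fun y => R.ρ (k⁻¹ * y)) (R.cont.comp (by fun_prop)) _ _ (by simp)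
  filter_upwards [t.eventually h] with y hy
  rintro ⟨h1, h2⟩
  obtain ⟨b, hb, hb'⟩ := hy ⟨_, H.mul_mem (H.inv_mem hkH) h1, rfl⟩
  exact h2 ⟨a * b, H'.mul_mem ha hb, by rw [map_mul, hak, hb', ← map_mul]; simp⟩

omit [IsTopologicalGroup K] [T2Space K] in
lemma Rep.nbhd (R : Rep K) {H H' : Subgroup K} (hH : IsClosed (H : Set K))
    (hH' : IsClosed (H' : Set K)) (h : (R.cg hH).lie ≤ (R.cg hH').lie) :
    ∀ᶠ s in 𝓝 (1 : R.A), s ∈ R.ρ '' H → s ∈ R.ρ '' H' := by
  filter_upwards [(R.cg hH).cst univ_mem] with s hs hs'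
  obtain ⟨X, hX, -, rfl⟩ := hs hs'
  exact (R.cg hH').exp_mem (h hX)

omit [T2Space K] in
/-- descending chain condition -/
lemma Rep.dcc (R : Rep K) (N : ℕ → Subgroup K) (hN : Antitone N) (hc : ∀ n, IsClosed (N n : Set K)) :
    ∃ n₀, ∀ n, n₀ ≤ n → ∀ x ∈ N n, ∃ m ∈ ⨅ n, N n, R.ρ m = R.ρ x := by
  have hM : IsClosed ((⨅ n, N n : Subgroup K) : Set K) := by
    rw [Subgroup.coe_iInf]; exact isClosed_iInter hc
  have anti : Antitone fun n => (R.cg (hc n)).lie := fun a b hab X hX t =>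
    Set.image_mono (hN hab) (hX t)
  obtain ⟨n₀, h0⟩ := IsArtinian.monotone_stabilizes (R := ℝ) (M := R.A)
    ⟨fun n => OrderDual.toDual (R.cg (hc n)).lie, anti⟩
  have hle : (R.cg (hc n₀)).lie ≤ (R.cg hM).lie := by
    intro X hX t
    obtain ⟨x, hx⟩ := IsCompact.nonempty_iInter_of_sequence_nonempty_isCompact_isClosed
      (fun n => (N n : Set K) ∩ {x | R.ρ x = exp (t • X)})
      (fun n => Set.inter_subset_inter_left _ (hN (Nat.le_succ n)))
      (fun n => by
        have : X ∈ (R.cg (hc (max n n₀))).lie := by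
          have := h0 (max n n₀) (le_max_right _ _)
          exact (show (R.cg (hc n₀)).lie = (R.cg (hc (max n n₀))).lie from this) ▸ hX
        obtain ⟨x, hx, hx'⟩ := this t
        exact ⟨x, hN (le_max_left _ _) hx, hx'⟩)
      ((hc 0).inter (isClosed_eq R.cont continuous_const)).isCompact
      (fun n => (hc n).inter (isClosed_eq R.cont continuous_const))
    rw [Set.mem_iInter] at hx
    exact ⟨x, Subgroup.mem_iInf.2 fun n => (hx n).1, (hx 0).2⟩
  have hcl := R.closed_diff (hc n₀) (R.nbhd (hc n₀) hM hle)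
  by_contra hcon
  push Not at hcon
  obtain ⟨x, hx⟩ := IsCompact.nonempty_iInter_of_sequence_nonempty_isCompact_isClosed
    (fun n => (N n : Set K) ∩ {k | k ∈ N n₀ ∧ R.ρ k ∉ R.ρ '' (⨅ n, N n : Subgroup K)})
    (fun n => Set.inter_subset_inter_left _ (hN (Nat.le_succ n)))
    (fun n => by
      obtain ⟨m, hm, x, hx, hx'⟩ := hcon (max n n₀)
      refine ⟨x, hN (le_of_max_le_left hm) hx, hN (le_of_max_le_right hm) hx, ?_⟩
      rintro ⟨y, hy, hy'⟩
      exact hx' y hy hy')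
    ((hc 0).inter hcl).isCompact (fun n => (hc n).inter hcl)
  rw [Set.mem_iInter] at hx
  exact (hx 0).2.2 ⟨x, Subgroup.mem_iInf.2 fun n => (hx n).1, rfl⟩

/-- closed normal -/
def CN (N : Subgroup K) : Prop := IsClosed (N : Set K) ∧ N.Normal

/-- A chain of nontrivial closed normal subgroups with trivial intersection inside `D`. -/
theorem exists_chain {D : Subgroup K} (hD : CN D)
    (hnl : ∀ R : Rep K, ∃ x ∈ D, x ≠ 1 ∧ R.ρ x = 1) :
    ∃ N : ℕ → Subgroup K, Antitone N ∧ (∀ n, CN (N n)) ∧ (∀ n, N n ≤ D) ∧ (∀ n, N n ≠ ⊥) ∧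
      ⨅ n, N n = ⊥ := by
  choose xx hxD hx1 hxR using hnl
  have ex : ∀ R : Rep K, ∃ S : Rep K, S.ρ (xx R) ≠ 1 := fun R => exists_rep (hx1 R)
  choose sp hsp using ex
  obtain ⟨Rn, hRn⟩ : ∃ Rn : ℕ → Rep K, ∀ n, Rn (n + 1) = (Rn n).prod (sp (Rn n)) :=
    ⟨fun n => Nat.rec Rep.triv (fun _ R => R.prod (sp R)) n, fun n => rfl⟩
  let L : ℕ → Subgroup K := fun n => D ⊓ (Rn n).ρ.ker
  have hk : ∀ n x, (Rn (n + 1)).ρ x = 1 → (Rn n).ρ x = 1 ∧ (sp (Rn n)).ρ x = 1 := fun n x => by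
    rw [hRn]; exact ((Rn n).prod_one _).1
  have hL : Antitone L := antitone_nat_of_succ_le fun n x hx => ⟨hx.1, (hk n x hx.2).1⟩
  have cL : ∀ n, CN (L n) := fun n => ⟨hD.1.inter (Rn n).ker_closed, by
    have := hD.2; infer_instance⟩
  let N0 : Subgroup K := ⨅ n, L n
  have cN0 : IsClosed (N0 : Set K) := by
    rw [Subgroup.coe_iInf]; exact isClosed_iInter fun n => (cL n).1
  let S : Set (ℕ → Subgroup K)ᵒᵈ := {N | Antitone (OrderDual.ofDual N) ∧
    (∀ n, CN (OrderDual.ofDual N n)) ∧ (∀ n, OrderDual.ofDual N n ≤ L n) ∧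
    ∀ n, ∀ x ∈ L n, ∃ y ∈ OrderDual.ofDual N n, y⁻¹ * x ∈ N0}
  obtain ⟨N', -, hN', hmax⟩ := zorn_le_nonempty₀ S (fun c hc hch y hy => by
    refine ⟨OrderDual.toDual fun n => ⨅ N : c, OrderDual.ofDual N.1 n, ⟨?_, ?_, ?_, ?_⟩, ?_⟩
    · intro a b hab
      exact iInf_mono fun N => (hc N.2).1 hab
    · intro n
      refine ⟨?_, Subgroup.normal_iInf_normal fun N => ((hc N.2).2.1 n).2⟩
      change IsClosed ((⨅ N : c, OrderDual.ofDual N.1 n : Subgroup K) : Set K)
      rw [Subgroup.coe_iInf]; exact isClosed_iInter fun N => ((hc N.2).2.1 n).1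
    · intro n
      exact (iInf_le _ ⟨y, hy⟩).trans ((hc hy).2.2.1 n)
    · intro n x hx
      have : Nonempty c := ⟨⟨y, hy⟩⟩
      have cl : ∀ N : c, IsClosed ((OrderDual.ofDual N.1 n : Set K) ∩ {y | y⁻¹ * x ∈ N0}) :=
        fun N => ((hc N.2).2.1 n).1.inter (cN0.preimage (by fun_prop))
      obtain ⟨z, hz⟩ := IsCompact.nonempty_iInter_of_directed_nonempty_isCompact_isClosed
        (fun N : c => (OrderDual.ofDual N.1 n : Set K) ∩ {y | y⁻¹ * x ∈ N0})
        (fun a b => by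
          rcases hch.total a.2 b.2 with h | h
          · exact ⟨b, Set.inter_subset_inter_left _ (h n), subset_rfl⟩
          · exact ⟨a, subset_rfl, Set.inter_subset_inter_left _ (h n)⟩)
        (fun N => (hc N.2).2.2.2 n x hx) (fun N => (cl N).isCompact) cl
      rw [Set.mem_iInter] at hz
      exact ⟨z, Subgroup.mem_iInf.2 fun N => (hz N).1, (hz ⟨y, hy⟩).2⟩
    · intro z hz n
      exact iInf_le (fun N : c => OrderDual.ofDual N.1 n) ⟨z, hz⟩)
    (OrderDual.toDual L) ⟨hL, cL, fun n => le_rfl, fun n x hx => ⟨x, hx, by simp⟩⟩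
  set N : ℕ → Subgroup K := OrderDual.ofDual N'
  obtain ⟨h1, h2, h3, h4⟩ := hN'
  refine ⟨N, h1, h2, fun n => (h3 n).trans inf_le_left, fun n hn => ?_, ?_⟩
  · obtain ⟨y, hy, hy'⟩ := h4 n (xx (Rn n)) ⟨hxD _, hxR _⟩
    change y ∈ N n at hy
    rw [hn, Subgroup.mem_bot] at hy
    subst hy
    have := (Subgroup.mem_iInf.1 hy' (n + 1)).2
    simp only [inv_one, one_mul] at this
    exact hsp _ (hk n _ this).2
  · rw [eq_bot_iff]
    intro x hx
    by_contra hx1'
    obtain ⟨R, hR⟩ := exists_rep hx1'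
    obtain ⟨n₀, h0⟩ := R.dcc N h1 fun n => (h2 n).1
    let M : ℕ → Subgroup K := fun n => if n₀ ≤ n then N n ⊓ R.ρ.ker else N n
    have hMN : ∀ n, M n ≤ N n := fun n => by
      simp only [M]; split_ifs
      · exact inf_le_left
      · exact le_rfl
    have hM : OrderDual.toDual M ∈ S := by
      refine ⟨?_, fun n => ?_, fun n => (hMN n).trans (h3 n), fun n x hx => ?_⟩
      · intro a b hab
        change M b ≤ M a
        by_cases ha : n₀ ≤ a
        · simp only [M, if_pos ha, if_pos (ha.trans hab)]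
          exact inf_le_inf_right _ (h1 hab)
        · simp only [M, if_neg ha]
          exact (hMN b).trans (h1 hab)
      · change CN (M n)
        simp only [M]; split_ifs
        · exact ⟨(h2 n).1.inter R.ker_closed, by have := (h2 n).2; infer_instance⟩
        · exact h2 n
      · change ∃ y ∈ M n, _
        obtain ⟨y, hy, hy'⟩ := h4 n x hx
        simp only [M]; split_ifs with hn
        · obtain ⟨m, hm, hm'⟩ := h0 n hn y hy
          refine ⟨y * m⁻¹, ⟨(N n).mul_mem hy ((N n).inv_mem (Subgroup.mem_iInf.1 hm n)), ?_⟩, ?_⟩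
          · change R.ρ _ = 1
            rw [map_mul, ← hm', R.mul_inv]
          · have : m ∈ N0 := Subgroup.mem_iInf.2 fun k => h3 k (Subgroup.mem_iInf.1 hm k)
            simpa [mul_assoc] using N0.mul_mem this hy'
        · exact ⟨y, hy, hy'⟩
    have := hmax hM hMN n₀ (Subgroup.mem_iInf.1 hx n₀)
    change x ∈ M n₀ at this
    simp only [M, if_pos le_rfl] at this
    exact hR this.2

omit [IsTopologicalGroup K] [T2Space K] in
lemma chain_tendsto {N : ℕ → Subgroup K} (h1 : Antitone N) (hc : ∀ n, IsClosed (N n : Set K))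
    (h0 : ⨅ n, N n = ⊥) {U : Set K} (hU : U ∈ 𝓝 (1 : K)) : ∀ᶠ n in atTop, (N n : Set K) ⊆ U := by
  obtain ⟨V, hVU, hV, h1V⟩ := mem_nhds_iff.1 hU
  by_contra hcon
  rw [not_eventually, frequently_atTop] at hcon
  obtain ⟨x, hx⟩ := IsCompact.nonempty_iInter_of_sequence_nonempty_isCompact_isClosed
    (fun n => (N n : Set K) ∩ Vᶜ) (fun n => Set.inter_subset_inter_left _ (h1 (Nat.le_succ n)))
    (fun n => by
      obtain ⟨m, hm, hx⟩ := hcon n
      obtain ⟨x, hx, hx'⟩ := Set.not_subset.1 hx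
      exact ⟨x, h1 hm hx, fun h => hx' (hVU h)⟩)
    ((hc 0).inter hV.isClosed_compl).isCompact (fun n => (hc n).inter hV.isClosed_compl)
  rw [Set.mem_iInter] at hx
  have : x ∈ ⨅ n, N n := Subgroup.mem_iInf.2 fun n => (hx n).1
  rw [h0, Subgroup.mem_bot] at this
  exact (hx 0).2 (this ▸ h1V)

omit [IsTopologicalGroup K] [T2Space K] in
lemma Rep.isClosedEmbedding (R : Rep K) (h : ∀ x, R.ρ x = 1 → x = 1) : IsClosedEmbedding R.ρ :=
  R.cont.isClosedEmbedding ((injective_iff_map_eq_one _).2 h)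

/-- A dense essential embedding of `G` in the compact group `K`. -/
structure Ess {G : Type} [Group G] [TopologicalSpace G] (j : G →* K) : Prop where
  emb : IsEmbedding j
  dense : DenseRange j
  ess : ∀ N : Subgroup K, CN N → N ≠ ⊥ → ∃ g, g ≠ 1 ∧ j g ∈ N

lemma inj_of_null {G : Type} [Group G] [TopologicalSpace G] [T2Space G] {u : ℕ → G}
    (h1 : ∀ n, u n ≠ 1) (h : Tendsto u atTop (𝓝 1)) :
    ∃ v : ℕ → G, Function.Injective v ∧ Tendsto v atTop (𝓝 1) := by
  have key : ∀ n, ∃ m, n < m ∧ ∀ k, m ≤ k → u k ≠ u n := fun n => by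
    obtain ⟨m, hm⟩ := eventually_atTop.1 (h.eventually (isOpen_ne.mem_nhds (h1 n).symm))
    exact ⟨max m (n + 1), by omega, fun k hk => hm k (le_of_max_le_left hk)⟩
  choose f hf hf' using key
  let φ : ℕ → ℕ := fun n => Nat.rec 0 (fun _ a => f a) n
  have hφ : StrictMono φ := strictMono_nat_of_lt_succ fun n => hf _
  refine ⟨u ∘ φ, ?_, h.comp hφ.tendsto_atTop⟩
  have : ∀ a b, a < b → u (φ b) ≠ u (φ a) := fun a b hab => hf' _ _ (hφ.monotone hab)
  intro a b hab
  rcases lt_trichotomy a b with h | h | h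
  · exact absurd hab.symm (this a b h)
  · exact h
  · exact absurd hab (this b a h)

theorem Ess.null {G : Type} [Group G] [TopologicalSpace G] [Infinite G] {j : G →* K} (h : Ess j) :
    ∃ v : ℕ → G, Function.Injective v ∧ Tendsto v atTop (𝓝 1) := by
  have : T2Space G := h.emb.t2Space
  suffices ∃ u : ℕ → G, (∀ n, u n ≠ 1) ∧ Tendsto (fun n => j (u n)) atTop (𝓝 1) by
    obtain ⟨u, h1, h2⟩ := this
    refine inj_of_null h1 ?_
    rw [h.emb.tendsto_nhds_iff, map_one]; exact h2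
  by_cases hl : ∃ R : Rep K, ∀ x, R.ρ x = 1 → x = 1
  · obtain ⟨R, hR⟩ := hl
    have := (R.isClosedEmbedding hR).isEmbedding.firstCountableTopology
    obtain ⟨a, φ, hφ, ha⟩ := CompactSpace.tendsto_subseq fun n => j (Infinite.natEmbedding G n)
    refine ⟨fun n => (Infinite.natEmbedding G (φ n))⁻¹ * Infinite.natEmbedding G (φ (n + 1)),
      fun n hn => ?_, ?_⟩
    · have := (Infinite.natEmbedding G).injective (inv_mul_eq_one.1 hn)
      exact absurd (hφ.injective this) (by omega)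
    · have := ha.inv.mul (ha.comp (tendsto_add_atTop_nat 1))
      simpa [Function.comp_def] using this
  · push Not at hl
    obtain ⟨N, h1, h2, -, h3, h4⟩ := exists_chain (D := (⊤ : Subgroup K))
      ⟨isClosed_univ, inferInstance⟩ fun R => by
        obtain ⟨x, a, b⟩ := hl R
        exact ⟨x, trivial, b, a⟩
    choose u hu hu' using fun n => h.ess (N n) (h2 n) (h3 n)
    refine ⟨u, hu, fun U hU => ?_⟩
    rw [mem_map]
    filter_upwards [chain_tendsto h1 (fun n => (h2 n).1) h4 hU] with n hn using hn (hu' n)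

end Pool.Agent.H71.Lie
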