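import Mathlib
import Pool.Agent.H71.Lie2

/-! Compact completions of precompact groups; minimal groups are essential in the completion. -/

namespace Pool.Agent.H71.Lie

open Filter Topology
open scoped Pointwise Uniformity

variable {G : Type} [Group G] [t : TopologicalSpace G] [IsTopologicalGroup G]

/-- precompact -/
def Precompact (G : Type) [Group G] [TopologicalSpace G] : Prop :=
  ∀ U ∈ 𝓝 (1 : G), ∃ F : Finset G, ∀ x : G, ∃ g ∈ F, g⁻¹ * x ∈ U

lemma Precompact.sin (h : Precompact G) {U : Set G} (hU : U ∈ 𝓝 (1 : G)) :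
    ∀ᶠ w in 𝓝 (1 : G), ∀ g, g⁻¹ * w * g ∈ U := by
  have t3 : Tendsto (fun p : G × G => p.1⁻¹ * p.2 * p.1) (𝓝 (1, 1)) (𝓝 1) :=
    Continuous.tendsto' (f := fun p : G × G => p.1⁻¹ * p.2 * p.1) (by fun_prop) _ _ (by simp)
  have h2 := t3 hU
  rw [nhds_prod_eq, mem_map, mem_prod_self_iff] at h2
  obtain ⟨V, hV, hVU⟩ := h2
  obtain ⟨F, hF⟩ := h V hV
  have : ∀ᶠ w in 𝓝 (1 : G), ∀ f ∈ F, f⁻¹ * w * f ∈ V := by
    rw [eventually_all_finset]
    intro f _
    exact Continuous.tendsto' (f := fun w : G => f⁻¹ * w * f) (by fun_prop) _ _ (by simp) hV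
  filter_upwards [this] with w hw g
  obtain ⟨f, hf, hg⟩ := hF g
  have := hVU (Set.mk_mem_prod hg (hw f hf))
  simpa [mul_assoc] using this

theorem exists_completion [T2Space G] (h : Precompact G) :
    ∃ (K : Type) (_ : Group K) (_ : TopologicalSpace K) (_ : IsTopologicalGroup K)
      (_ : CompactSpace K) (_ : T2Space K) (j : G →* K), IsEmbedding j ∧ DenseRange j := by
  let u : UniformSpace G := IsTopologicalGroup.leftUniformSpace G
  have hl : IsLeftUniformGroup G := ⟨rfl⟩
  have hr : IsRightUniformGroup G := ⟨by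
    rw [uniformity_eq_comap_inv_mul_nhds_one]
    apply le_antisymm
    · rw [← tendsto_iff_comap]
      intro U hU
      rw [mem_map]
      refine mem_of_superset (preimage_mem_comap (h.sin hU)) fun p hp => ?_
      simpa [mul_assoc] using hp p.1⁻¹
    · rw [← tendsto_iff_comap]
      intro U hU
      rw [mem_map]
      refine mem_of_superset (preimage_mem_comap (h.sin hU)) fun p hp => ?_
      simpa [mul_assoc] using hp p.1⟩
  have hu : IsUniformGroup G := IsUniformGroup.of_left_right
  have hu' : IsUniformAddGroup (Additive G) := ⟨hu.uniformContinuous_div⟩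
  have tb : TotallyBounded (Set.univ : Set (Additive G)) := by
    intro d hd
    change d ∈ 𝓤 G at hd
    have hd' : Prod.swap ⁻¹' d ∈ 𝓤 G := symm_le_uniformity hd
    rw [uniformity_eq_comap_inv_mul_nhds_one] at hd'
    obtain ⟨U, hU, hUd⟩ := hd'
    obtain ⟨F, hF⟩ := h U hU
    refine ⟨(F : Set G), F.finite_toSet, fun x _ => ?_⟩
    obtain ⟨g, hg, hx⟩ := hF x
    exact Set.mem_biUnion hg (hUd (a := (g, x)) hx)
  let C := UniformSpace.Completion (Additive G)
  have hc : CompactSpace C := by
    refine ⟨?_⟩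
    have := (tb.image (UniformSpace.Completion.uniformContinuous_coe (Additive G))).closure
    rw [Set.image_univ, UniformSpace.Completion.denseRange_coe.closure_range] at this
    exact this.isCompact_of_isClosed isClosed_univ
  refine ⟨Multiplicative C, inferInstance, inferInstance, inferInstance, hc,
    (inferInstance : T2Space C), AddMonoidHom.toMultiplicativeRight UniformSpace.Completion.toCompl,
    ?_, UniformSpace.Completion.denseRange_coe (α := Additive G)⟩
  have : T0Space (Additive G) := (inferInstance : T0Space G)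
  exact (UniformSpace.Completion.isUniformEmbedding_coe (Additive G)).isEmbedding

theorem ess_of_minimal {K : Type} [Group K] [TopologicalSpace K] [IsTopologicalGroup K] [T2Space K]
    (hmin : ∀ τ' : TopologicalSpace G, @IsTopologicalGroup G τ' _ → @T2Space G τ' → t ≤ τ' → τ' = t)
    {j : G →* K} (h1 : IsEmbedding j) (h2 : DenseRange j) : Ess j := by
  refine ⟨h1, h2, fun N hN hne => ?_⟩
  by_contra hcon
  push Not at hcon
  apply hne
  have := hN.1
  have := hN.2
  let φ : G →* K ⧸ N := (QuotientGroup.mk' N).comp j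
  have hφ : Function.Injective φ := (injective_iff_map_eq_one _).2 fun g hg => by
    by_contra h; exact hcon g h ((QuotientGroup.eq_one_iff _).1 hg)
  have hc : Continuous φ := QuotientGroup.continuous_mk.comp h1.continuous
  have he := hmin (TopologicalSpace.induced φ inferInstance) (topologicalGroup_induced φ)
    (@IsEmbedding.t2Space G _ (TopologicalSpace.induced φ inferInstance) _ _ φ
      (@IsEmbedding.mk G _ (TopologicalSpace.induced φ inferInstance) _ φ
        (@IsInducing.mk G _ (TopologicalSpace.induced φ inferInstance) _ φ rfl) hφ))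
    (continuous_iff_le_induced.1 hc)
  have hi : IsInducing φ := ⟨he.symm⟩
  rw [eq_bot_iff]
  intro x hx
  have hF : (comap j (𝓝 x)).NeBot := (IsDenseInducing.mk h1.isInducing h2).comap_nhds_neBot x
  have a1 : Tendsto j (comap j (𝓝 x)) (𝓝 x) := tendsto_comap
  have a2 : Tendsto φ (comap j (𝓝 x)) (𝓝 (φ 1)) := by
    have := (QuotientGroup.continuous_mk (N := N)).continuousAt.tendsto.comp a1
    rw [(QuotientGroup.eq_one_iff _).2 hx] at this
    rw [map_one]; exact this
  have a3 : Tendsto id (comap j (𝓝 x)) (𝓝 (1 : G)) := hi.tendsto_nhds_iff.2 a2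
  have a4 := h1.continuous.continuousAt.tendsto.comp a3
  rw [map_one] at a4
  exact tendsto_nhds_unique a1 a4

theorem exists_ess [T2Space G] (h : Precompact G)
    (hmin : ∀ τ' : TopologicalSpace G, @IsTopologicalGroup G τ' _ → @T2Space G τ' → t ≤ τ' → τ' = t) :
    ∃ (K : Type) (_ : Group K) (_ : TopologicalSpace K) (_ : IsTopologicalGroup K)
      (_ : CompactSpace K) (_ : T2Space K) (j : G →* K), Ess j := by
  obtain ⟨K, _, _, _, _, _, j, h1, h2⟩ := exists_completion h
  exact ⟨K, inferInstance, inferInstance, inferInstance, inferInstance, inferInstance, j,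
    ess_of_minimal hmin h1 h2⟩

lemma sep_seq {U : Set G} (h : ∀ F : Finset G, ∃ x : G, ∀ g ∈ F, g⁻¹ * x ∉ U) :
    ∃ u : ℕ → G, ∀ m n, m < n → (u m)⁻¹ * u n ∉ U := by
  classical
  choose f hf using h
  let F : ℕ → Finset G := fun n => Nat.rec ∅ (fun _ S => insert (f S) S) n
  have hF : Monotone F := monotone_nat_of_le_succ fun n => Finset.subset_insert _ _
  exact ⟨fun n => f (F n), fun m n hmn => hf _ _ (hF hmn (Finset.mem_insert_self _ _))⟩

lemma precompact_of_cc (h : ∀ u : ℕ → G, ∃ x : G, MapClusterPt x atTop u) : Precompact G := by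
  intro U hU
  by_contra hcon
  push Not at hcon
  obtain ⟨u, hu⟩ := sep_seq hcon
  obtain ⟨x, hx⟩ := h u
  have t3 : Tendsto (fun p : G × G => p.1⁻¹ * p.2) (𝓝 (x, x)) (𝓝 1) :=
    Continuous.tendsto' (f := fun p : G × G => p.1⁻¹ * p.2) (by fun_prop) _ _ (by simp)
  have h2 := t3 hU
  rw [nhds_prod_eq, mem_map, mem_prod_self_iff] at h2
  obtain ⟨V, hV, hVU⟩ := h2
  have := frequently_atTop.1 (mapClusterPt_iff_frequently.1 hx V hV)
  obtain ⟨m, -, hm⟩ := this 0
  obtain ⟨n, hn, hn'⟩ := this (m + 1)
  exact hu m n hn (hVU (Set.mk_mem_prod hm hn'))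

theorem null_of_minimal [T2Space G] [Infinite G] (h : Precompact G)
    (hmin : ∀ τ' : TopologicalSpace G, @IsTopologicalGroup G τ' _ → @T2Space G τ' → t ≤ τ' → τ' = t) :
    ∃ v : ℕ → G, Function.Injective v ∧ Tendsto v atTop (𝓝 1) := by
  obtain ⟨K, _, _, _, _, _, j, hj⟩ := exists_ess h hmin
  exact hj.null

end Pool.Agent.H71.Lie
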