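import Mathlib
import Pool.Agent.H71.PW

/-! Half of Pontryagin duality for compact abelian groups. -/

namespace Pool.Agent.H71.Dual

open Filter Topology MeasureTheory
open scoped InnerProductSpace

variable {C : Type} [CommGroup C] [TopologicalSpace C] [IsTopologicalGroup C] [CompactSpace C]
  [T2Space C]

theorem sepChar {x : C} (hx : x ≠ 1) : ∃ χ : C →ₜ* Circle, χ x ≠ 1 := by
  obtain ⟨E, _, _, _, ρ, hc, hu, h1⟩ := PW.peterWeyl C x hx
  have adj : ∀ g v w, ⟪ρ g v, w⟫_ℂ = ⟪v, ρ g⁻¹ w⟫_ℂ := fun g v w => by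
    rw [← hu g v (ρ g⁻¹ w), ← mul_apply_eq_comp, ← map_mul, mul_inv_cancel, map_one,
      one_apply_eq_self]
  let r : C →* (E →ₗ[ℂ] E) := (ContinuousLinearMap.toLinearMapRingHom : (E →L[ℂ] E) →+* _).toMonoidHom.comp ρ
  have rr : ∀ g v, r g v = ρ g v := fun _ _ => rfl
  let T : C × Bool → E →ₗ[ℂ] E := fun q =>
    if q.2 then r q.1 + r q.1⁻¹ else Complex.I • (r q.1 - r q.1⁻¹)
  have cm : ∀ a b, Commute (r a) (r b) := fun a b => (Commute.all a b).map r
  have top := LinearMap.IsSymmetric.iSup_iInf_eq_top_of_commute (T := T) (by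
    rintro ⟨g, _ | _⟩ v w
    · simp [T, rr, inner_sub_left, inner_sub_right, inner_smul_left, inner_smul_right, adj]
      ring
    · simp [T, rr, inner_add_left, inner_add_right, adj, add_comm]) (by
    rintro ⟨g, _ | _⟩ ⟨g', _ | _⟩ - <;> simp only [T, Function.onFun, if_true, Bool.false_eq_true, if_false] <;>
      repeat' first
        | apply cm
        | apply Commute.smul_left
        | apply Commute.smul_right
        | apply Commute.add_left
        | apply Commute.add_right
        | apply Commute.sub_left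
        | apply Commute.sub_right)
  by_contra hcon
  push Not at hcon
  apply h1
  have : (⊤ : Submodule ℂ E) ≤ LinearMap.ker (r x - 1) := by
    rw [← top, iSup_le_iff]
    intro c v hv
    by_cases h0 : v = 0
    · simp [h0]
    rw [Submodule.mem_iInf] at hv
    let l : C → ℂ := fun g => (c (g, true) - Complex.I * c (g, false)) / 2
    have ev : ∀ g, ρ g v = l g • v := fun g => by
      have e1 := Module.End.mem_eigenspace_iff.1 (hv (g, true))
      have e2 := Module.End.mem_eigenspace_iff.1 (hv (g, false))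
      simp only [T, if_true, Bool.false_eq_true, if_false, LinearMap.add_apply, LinearMap.smul_apply,
        LinearMap.sub_apply, rr] at e1 e2
      have e3 : (2 : ℂ) • ρ g v = (ρ g v + ρ g⁻¹ v) - Complex.I • (Complex.I • (ρ g v - ρ g⁻¹ v)) := by
        rw [smul_smul, Complex.I_mul_I]; module
      rw [e1, e2, smul_smul, ← sub_smul] at e3
      rw [← one_smul ℂ (ρ g v), ← inv_mul_cancel₀ (two_ne_zero (α := ℂ)), mul_smul, e3, smul_smul]
      congr 1
      simp only [l]; ring
    have n0 : ⟪v, v⟫_ℂ ≠ 0 := inner_self_ne_zero.2 h0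
    have lf : l = fun g => ⟪v, ρ g v⟫_ℂ / ⟪v, v⟫_ℂ := funext fun g => by
      rw [ev, inner_smul_right, mul_div_cancel_right₀ _ n0]
    have nl : ∀ g, ‖l g‖ = 1 := fun g => by
      have := hu g v v
      rw [ev, inner_smul_left, inner_smul_right, ← mul_assoc, mul_eq_right₀ n0, mul_comm,
        Complex.mul_conj, Complex.normSq_eq_norm_sq] at this
      have h2 : ‖l g‖ ^ 2 = 1 := by exact_mod_cast this
      exact (pow_eq_one_iff_of_nonneg (norm_nonneg _) two_ne_zero).1 h2
    let χ : C →ₜ* Circle :=
      { toFun := fun g => ⟨l g, mem_sphere_zero_iff_norm.2 (nl g)⟩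
        map_one' := Subtype.ext (smul_left_injective ℂ h0 (by
          change l 1 • v = (1 : ℂ) • v
          rw [← ev, map_one, one_smul]; rfl))
        map_mul' := fun a b => Subtype.ext (smul_left_injective ℂ h0 (by
          change l (a * b) • v = (l a * l b) • v
          rw [← ev, map_mul, mul_apply_eq_comp, ev b, map_smul, ev a, smul_smul, mul_comm]))
        continuous_toFun := Continuous.subtype_mk (by rw [lf]; fun_prop) _ }
    have : l x = 1 := congrArg Subtype.val (hcon χ)
    rw [LinearMap.mem_ker, LinearMap.sub_apply, rr, ev, this]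
    simp
  ext v
  have := LinearMap.mem_ker.1 (this (Submodule.mem_top (x := v)))
  rw [LinearMap.sub_apply, rr, sub_eq_zero] at this
  exact this

omit [T2Space C] in
theorem mem_of_sep (B : Subgroup (C →ₜ* Circle)) (hB : ∀ x : C, x ≠ 1 → ∃ b ∈ B, b x ≠ 1)
    (ψ : C →ₜ* Circle) : ψ ∈ B := by
  by_contra hψ
  borelize C
  let μ : Measure C := Measure.haar
  let i : (C →ₜ* Circle) →* C(C, ℂ) :=
    { toFun := fun a => ⟨fun x => a x, by fun_prop⟩
      map_one' := by ext; simp
      map_mul' := fun a b => by ext; simp [ContinuousMonoidHom.mul_apply] }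
  have ii : ∀ a x, i a x = a x := fun _ _ => rfl
  have int : ∀ f : C(C, ℂ), Integrable f μ := fun f =>
    f.continuous.integrable_of_hasCompactSupport (HasCompactSupport.of_compactSpace _)
  have z : ∀ a : C →ₜ* Circle, a ≠ 1 → ∫ x, i a x ∂μ = 0 := fun a ha => by
    obtain ⟨g, hg⟩ : ∃ g, a g ≠ 1 := by
      by_contra h; push Not at h; exact ha (ContinuousMonoidHom.ext h)
    have := integral_mul_left_eq_self (μ := μ) (fun x => i a x) g
    simp only [ii, map_mul, Circle.coe_mul, integral_const_mul] at this ⊢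
    by_contra h0
    exact hg (Subtype.ext ((mul_eq_right₀ h0).1 this))
  let S : StarSubalgebra ℂ C(C, ℂ) :=
    { toSubalgebra := Algebra.adjoin ℂ (B.toSubmonoid.map i)
      star_mem' := fun {f} hf => by
        change star f ∈ Algebra.adjoin ℂ _
        induction hf using Algebra.adjoin_induction with
        | mem f hf =>
          obtain ⟨a, ha, rfl⟩ := hf
          refine Algebra.subset_adjoin ⟨a⁻¹, B.inv_mem ha, ?_⟩
          ext x
          exact Circle.coe_inv_eq_conj (a x)
        | algebraMap r => rw [← algebraMap_star_comm]; exact Subalgebra.algebraMap_mem _ _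
        | add f g _ _ h1 h2 => rw [star_add]; exact add_mem h1 h2
        | mul f g _ _ h1 h2 => rw [star_mul]; exact mul_mem h2 h1 }
  have top := ContinuousMap.starSubalgebra_topologicalClosure_eq_top_of_separatesPoints S (by
    intro x y hxy
    obtain ⟨b, hb, h⟩ := hB (x⁻¹ * y) fun e => hxy (inv_mul_eq_one.1 e)
    refine ⟨_, ⟨i b, Algebra.subset_adjoin ⟨b, hb, rfl⟩, rfl⟩, fun e => h ?_⟩
    have : b x = b y := Subtype.ext e
    rw [map_mul, map_inv, this, inv_mul_cancel])
  let Λ : C(C, ℂ) →ₗ[ℂ] ℂ :=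
    { toFun := fun f => ∫ x, (f * i ψ⁻¹) x ∂μ
      map_add' := fun f g => by
        simp only [add_mul, ContinuousMap.add_apply]; exact integral_add (int _) (int _)
      map_smul' := fun c f => by
        simp only [smul_mul_assoc, ContinuousMap.smul_apply, RingHom.id_apply]; exact integral_smul _ _ }
  have cΛ : Continuous Λ := by
    refine AddMonoidHomClass.continuous_of_bound Λ (μ.real Set.univ) fun f => ?_
    rw [mul_comm]
    refine norm_integral_le_of_norm_le_const (Eventually.of_forall fun x => ?_)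
    rw [ContinuousMap.mul_apply, norm_mul, ii, Circle.norm_coe, mul_one]
    exact f.norm_coe_le_norm x
  have h0 : ∀ f ∈ S, Λ f = 0 := fun f hf => by
    have : f ∈ Submodule.span ℂ ((B.toSubmonoid.map i : Submonoid _) : Set C(C, ℂ)) := by
      have h : f ∈ Subalgebra.toSubmodule (Algebra.adjoin ℂ (B.toSubmonoid.map i : Set C(C, ℂ))) := hf
      rwa [Algebra.adjoin_eq_span, Submonoid.closure_eq] at h
    refine (Submodule.span_le (p := LinearMap.ker Λ)).2 ?_ this
    rintro _ ⟨a, ha, rfl⟩
    change ∫ x, (i a * i ψ⁻¹) x ∂μ = 0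
    rw [← map_mul]
    exact z _ fun e => hψ (mul_inv_eq_one.1 e ▸ ha)
  have h1 : Λ (i ψ) = 0 := by
    have : i ψ ∈ closure (S : Set C(C, ℂ)) := by
      have : i ψ ∈ S.topologicalClosure := top ▸ StarSubalgebra.mem_top
      exact this
    exact closure_minimal (t := {f | Λ f = 0}) h0 (isClosed_eq cΛ continuous_const) this
  change ∫ x, (i ψ * i ψ⁻¹) x ∂μ = 0 at h1
  rw [← map_mul, mul_inv_cancel, map_one] at h1
  simp only [ContinuousMap.one_apply, integral_const, smul_eq_zero, one_ne_zero, or_false] at h1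
  exact (measureReal_univ_pos (μ := μ)).ne' h1

theorem duality (φ : (C →ₜ* Circle) →* Circle) : ∃ c : C, ∀ a : C →ₜ* Circle, a c = φ a := by
  let Γ : Subgroup ((C →ₜ* Circle) → Circle) :=
    { carrier := {f | ∀ a b, f (a * b) = f a * f b}
      one_mem' := fun _ _ => by simp
      mul_mem' := fun {f g} hf hg a b => by simp only [Pi.mul_apply, hf a b, hg a b, mul_mul_mul_comm]
      inv_mem' := fun {f} hf a b => by simp only [Pi.inv_apply, hf a b, mul_inv] }
  have cΓ : IsClosed (Γ : Set ((C →ₜ* Circle) → Circle)) := by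
    change IsClosed {f : (C →ₜ* Circle) → Circle | ∀ a b, f (a * b) = f a * f b}
    simp only [Set.ofPred_forall]
    exact isClosed_iInter fun a => isClosed_iInter fun b => isClosed_eq (by fun_prop) (by fun_prop)
  have : CompactSpace Γ := isCompact_iff_compactSpace.1 cΓ.isCompact
  let ev : C →* Γ :=
    { toFun := fun c => ⟨fun a => a c, fun a b => rfl⟩
      map_one' := Subtype.ext (funext fun a => map_one a)
      map_mul' := fun x y => Subtype.ext (funext fun a => map_mul a x y) }
  have cev : Continuous ev := Continuous.subtype_mk (continuous_pi fun a => map_continuous a) _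
  have cS : IsClosed (ev.range : Set Γ) := (isCompact_range cev).isClosed
  let φ' : Γ := ⟨φ, φ.map_mul⟩
  by_contra hcon
  have hne : (φ' : Γ ⧸ ev.range) ≠ 1 := fun e => by
    obtain ⟨c, hc⟩ := (QuotientGroup.eq_one_iff _).1 e
    exact hcon ⟨c, fun a => congrFun (congrArg Subtype.val hc) a⟩
  obtain ⟨ψ, hψ⟩ := sepChar hne
  have one : ∀ f : Γ, f.1 1 = 1 := fun f => by
    have := f.2 1 1
    rw [mul_one] at this
    exact left_eq_mul.1 this
  let e : (C →ₜ* Circle) →* (Γ →ₜ* Circle) :=
    { toFun := fun a => ⟨⟨⟨fun f => f.1 a, rfl⟩, fun _ _ => rfl⟩,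
        (continuous_apply a).comp continuous_subtype_val⟩
      map_one' := ContinuousMonoidHom.ext one
      map_mul' := fun a b => ContinuousMonoidHom.ext fun f => f.2 a b }
  obtain ⟨a, ha⟩ := mem_of_sep e.range (fun f hf => by
    by_contra h
    push Not at h
    exact hf (Subtype.ext (funext fun a => h _ ⟨a, rfl⟩)))
    (ψ.comp ⟨QuotientGroup.mk' _, QuotientGroup.continuous_mk⟩)
  have a1 : a = 1 := ContinuousMonoidHom.ext fun c => by
    have : a c = ψ (ev c : Γ ⧸ ev.range) := DFunLike.congr_fun ha (ev c)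
    rw [this, (QuotientGroup.eq_one_iff (N := ev.range) _).2 ⟨c, rfl⟩, map_one]; rfl
  have : φ'.1 a = ψ (φ' : Γ ⧸ ev.range) := DFunLike.congr_fun ha φ'
  exact hψ (by rw [← this, a1, one])

end Pool.Agent.H71.Dual
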