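import Pool.Agent.H71.Hag1

set_option autoImplicit false

namespace Pool.Agent.H71.Atr

open Set Filter Topology Metric Relation Pool.Agent.H71.Fug Pool.Agent.H71.Hag

variable {X : Type} [MetricSpace X]

def G1 (𝒰 : Set (Set X)) (S O : Set X) : Prop :=
  ∃ (ι : Type) (_ : Finite ι) (V : ι → Set X), (∀ j, IsOpen (V j)) ∧ S ⊆ (⋃ j, V j) ∧
    (∀ j, ∃ U ∈ 𝒰, V j ⊆ U) ∧
    (∀ x ∈ S, ∀ a b c, x ∈ V a → x ∈ V b → x ∈ V c → a = b ∨ a = c ∨ b = c) ∧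
    ∀ x ∈ S, x ∈ O → ∀ a b, x ∈ V a → x ∈ V b → a = b

variable {𝒰 : Set (Set X)}

theorem G1.mono {S S' O O' : Set X} (h : G1 𝒰 S O) (h1 : S' ⊆ S) (h2 : O' ⊆ O) : G1 𝒰 S' O' := by
  obtain ⟨ι, i, V, a, b, c, d, e⟩ := h
  exact ⟨ι, i, V, a, h1.trans b, c, fun x hx => d x (h1 hx), fun x hx ho => e x (h1 hx) (h2 ho)⟩

theorem G1.step {S O : Set X} (h : G1 𝒰 S O) {z : X} (hz : z ∈ S) :
    ∃ r > 0, G1 𝒰 S (O ∪ ball z r) := by
  classical
  obtain ⟨ι, i, V, a, b, c, d, e⟩ := h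
  obtain ⟨j0, h1⟩ := mem_iUnion.1 (b hz)
  obtain ⟨r, hr, h2⟩ := Metric.nhds_basis_closedBall.mem_iff.1 ((a j0).mem_nhds h1)
  let V' : ι → Set X := fun j => V j ∩ {x | j = j0 ∨ x ∉ closedBall z r}
  refine ⟨r, hr, ι, i, V', fun j => (a j).inter ?_, fun x hx => ?_,
    fun j => (c j).imp fun U hU => ⟨hU.1, inter_subset_left.trans hU.2⟩,
    fun x hx p q s h3 h4 h5 => d x hx p q s h3.1 h4.1 h5.1, fun x hx ho p q h3 h4 => ?_⟩
  · by_cases h : j = j0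
    · simp [h]
    · simp only [h, false_or]; exact isClosed_closedBall.isOpen_compl
  · by_cases h : x ∈ closedBall z r
    · exact mem_iUnion.2 ⟨j0, h2 h, Or.inl rfl⟩
    · obtain ⟨j, hj⟩ := mem_iUnion.1 (b hx)
      exact mem_iUnion.2 ⟨j, hj, Or.inr h⟩
  · rcases ho with ho | ho
    · exact e x hx ho p q h3.1 h4.1
    · have := ball_subset_closedBall ho
      rw [h3.2.resolve_right (not_not.2 this), h4.2.resolve_right (not_not.2 this)]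

theorem G1.fin {S W : Set X} (h : G1 𝒰 S ∅) (hW : W.Finite) (hS : W ⊆ S) :
    ∃ r > 0, G1 𝒰 S (thickening r W) := by
  induction W, hW using Set.Finite.induction_on with
  | empty => exact ⟨1, one_pos, by simpa using h⟩
  | @insert z W _ _ ih =>
    obtain ⟨r, hr, h1⟩ := ih ((subset_insert _ _).trans hS)
    obtain ⟨r', hr', h2⟩ := h1.step (hS (mem_insert _ _))
    refine ⟨min r r', lt_min hr hr', h2.mono subset_rfl fun x hx => ?_⟩
    obtain ⟨y, rfl | h3, h4⟩ := mem_thickening_iff.1 hx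
    · exact Or.inr (h4.trans_le (min_le_right _ _))
    · exact Or.inl (mem_thickening_iff.2 ⟨y, h3, h4.trans_le (min_le_left _ _)⟩)

theorem glue {K K' W : Set X} (h : G1 𝒰 K ∅) (h' : G1 𝒰 K' ∅) (hW : W.Finite) (hK : W ⊆ K)
    (hK' : W ⊆ K') : ∃ r > 0, ∀ P Q : Set X, IsClosed P → IsClosed Q → (∀ x ∈ P, x ∉ Q) → P ⊆ K →
      Q ⊆ K' → G1 𝒰 (P ∪ Q ∪ thickening r W) ∅ := by
  obtain ⟨r1, hr1, ι, i, V, a, b, c, d, e⟩ := h.fin hW hK
  obtain ⟨r2, hr2, ι', i', V', a', b', c', d', e'⟩ := h'.fin hW hK'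
  have h1 : ∀ᶠ r in 𝓝[>] (0 : ℝ), ∀ z ∈ W, (∃ U ∈ 𝒰, ball z r ⊆ U) ∧
      ∀ z' ∈ W, z ≠ z' → r < dist z z' / 2 := by
    refine (eventually_all_finite hW).2 fun z hz => Eventually.and ?_
      ((eventually_all_finite hW).2 fun z' _ => ?_)
    · obtain ⟨j, hj⟩ := mem_iUnion.1 (b (hK hz))
      obtain ⟨U, h1, h2⟩ := c j
      obtain ⟨r, hr, h3⟩ := Metric.isOpen_iff.1 (a j) z hj
      filter_upwards [nhdsWithin_le_nhds (gt_mem_nhds hr)] with s hs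
      exact ⟨U, h1, ((ball_subset_ball hs.le).trans h3).trans h2⟩
    · by_cases h : z = z'
      · simp [h]
      · filter_upwards [nhdsWithin_le_nhds (gt_mem_nhds (half_pos (dist_pos.2 h)))] with s hs _
        exact hs
  obtain ⟨r, h2, h3, h4, h5⟩ := (h1.and (((gt_mem_nhds hr1).filter_mono nhdsWithin_le_nhds).and
    (((gt_mem_nhds hr2).filter_mono nhdsWithin_le_nhds).and self_mem_nhdsWithin))).exists
  have hr : 0 < r := h5
  refine ⟨r / 2, half_pos hr, fun P Q hP hQ hPQ hPK hQK => ?_⟩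
  have := hW.to_subtype
  let N := ⋃ z ∈ W, closedBall z (r / 2)
  have hN : IsClosed N := hW.isClosed_biUnion fun _ _ => isClosed_closedBall
  let T : ι ⊕ ι' ⊕ W → Set X := Sum.elim (fun j => V j ∩ (Q ∪ N)ᶜ)
    (Sum.elim (fun j => V' j ∩ (P ∪ N)ᶜ) fun z => ball z r)
  have hin : ∀ x ∈ P ∪ Q ∪ thickening (r / 2) W, x ∉ N → x ∈ P ∨ x ∈ Q := by
    rintro x (h | h) hx
    · exact h
    · obtain ⟨z, h6, h7⟩ := mem_thickening_iff.1 h
      exact (hx (mem_iUnion₂.2 ⟨z, h6, h7.le⟩)).elim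
  refine ⟨_, inferInstance, T, ?_, fun x hx => ?_, ?_, fun x hx => ?_, fun x _ h => h.elim⟩
  · rintro (j | j | z)
    exacts [(a j).inter (hQ.union hN).isOpen_compl, (a' j).inter (hP.union hN).isOpen_compl,
      isOpen_ball]
  · by_cases hxN : x ∈ N
    · obtain ⟨z, h6, h7⟩ := mem_iUnion₂.1 hxN
      exact mem_iUnion.2 ⟨.inr (.inr ⟨z, h6⟩), closedBall_subset_ball (by linarith) h7⟩
    rcases hin x hx hxN with h | h
    · obtain ⟨j, hj⟩ := mem_iUnion.1 (b (hPK h))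
      exact mem_iUnion.2 ⟨.inl j, hj, fun h' => h'.elim (hPQ x h) hxN⟩
    · obtain ⟨j, hj⟩ := mem_iUnion.1 (b' (hQK h))
      exact mem_iUnion.2 ⟨.inr (.inl j), hj, fun h' => h'.elim (fun h' => hPQ x h' h) hxN⟩
  · rintro (j | j | z)
    exacts [(c j).imp fun U hU => ⟨hU.1, inter_subset_left.trans hU.2⟩,
      (c' j).imp fun U hU => ⟨hU.1, inter_subset_left.trans hU.2⟩, (h2 z z.2).1]
  · have f1 : ∀ j, x ∈ T (.inl j) → x ∈ P ∧ x ∈ V j := fun j h =>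
      ⟨(hin x hx fun h' => h.2 (Or.inr h')).resolve_right fun h' => h.2 (Or.inl h'), h.1⟩
    have f2 : ∀ j, x ∈ T (.inr (.inl j)) → x ∈ Q ∧ x ∈ V' j := fun j h =>
      ⟨(hin x hx fun h' => h.2 (Or.inr h')).resolve_left fun h' => h.2 (Or.inl h'), h.1⟩
    have g1 : ∀ p q s, x ∈ T (.inl p) → x ∈ T (.inl q) → x ∈ T (.inl s) → p = q ∨ p = s ∨ q = s :=
      fun p q s u v w => d x (hPK (f1 _ u).1) p q s u.1 v.1 w.1
    have g2 : ∀ p q s, x ∈ T (.inr (.inl p)) → x ∈ T (.inr (.inl q)) → x ∈ T (.inr (.inl s)) →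
        p = q ∨ p = s ∨ q = s := fun p q s u v w => d' x (hQK (f2 _ u).1) p q s u.1 v.1 w.1
    have g3 : ∀ p q, x ∈ T (.inl p) → x ∈ T (.inr (.inl q)) → False :=
      fun p q u v => hPQ x (f1 _ u).1 (f2 _ v).1
    have g4 : ∀ p q, x ∈ T (.inr (.inr p)) → x ∈ T (.inr (.inr q)) → p = q := by
      intro p q u v
      by_contra hne
      have := (h2 p p.2).2 q q.2 fun h => hne (Subtype.ext h)
      have u' : dist x p < r := u
      have v' : dist x q < r := v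
      linarith [dist_triangle_left (p : X) q x]
    have g5 : ∀ p q z, x ∈ T (.inl p) → x ∈ T (.inl q) → x ∈ T (.inr (.inr z)) → p = q :=
      fun p q z u v w => e x (hPK (f1 _ u).1)
        (mem_thickening_iff.2 ⟨z, z.2, (show dist x z < r from w).trans h3⟩) p q u.1 v.1
    have g6 : ∀ p q z, x ∈ T (.inr (.inl p)) → x ∈ T (.inr (.inl q)) → x ∈ T (.inr (.inr z)) →
        p = q := fun p q z u v w => e' x (hQK (f2 _ u).1)
        (mem_thickening_iff.2 ⟨z, z.2, (show dist x z < r from w).trans h4⟩) p q u.1 v.1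
    clear_value T
    rintro (p | p | p) (q | q | q) (s | s | s) u v w <;>
      simp only [Sum.inl.injEq, Sum.inr.injEq, reduceCtorEq, false_or, or_false] <;>
      first
        | exact g1 _ _ _ u v w | exact g2 _ _ _ u v w | exact (g3 _ _ u v).elim
        | exact (g3 _ _ v u).elim | exact (g3 _ _ u w).elim | exact (g3 _ _ w u).elim
        | exact (g3 _ _ v w).elim | exact (g3 _ _ w v).elim | exact Or.inl (g4 _ _ u v)
        | exact g4 _ _ u v | exact g4 _ _ u w | exact g4 _ _ v w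
        | exact g5 _ _ _ u v w | exact g5 _ _ _ u w v | exact g5 _ _ _ v w u
        | exact g6 _ _ _ u v w | exact g6 _ _ _ u w v | exact g6 _ _ _ v w u

theorem G1.nhd {S : Set X} (h : G1 𝒰 S ∅) (hS : IsClosed S) :
    ∃ O, IsOpen O ∧ S ⊆ O ∧ G1 𝒰 O ∅ := by
  obtain ⟨ι, i, V, a, b, c, d, -⟩ := h
  obtain ⟨V', h1, h2, h3⟩ := exists_subset_iUnion_closure_subset hS a (fun _ _ => toFinite _) b
  let B := ⋃ p : {p : ι × ι × ι // ¬ (p.1 = p.2.1 ∨ p.1 = p.2.2 ∨ p.2.1 = p.2.2)},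
    closure (V' p.1.1) ∩ closure (V' p.1.2.1) ∩ closure (V' p.1.2.2)
  have hB : IsClosed B := isClosed_iUnion_of_finite fun p =>
    (isClosed_closure.inter isClosed_closure).inter isClosed_closure
  refine ⟨(⋃ j, V' j) ∩ Bᶜ, (isOpen_iUnion h2).inter hB.isOpen_compl, fun x hx => ⟨h1 hx, ?_⟩,
    ι, i, V', h2, inter_subset_left, fun j => (c j).imp fun U hU =>
      ⟨hU.1, (subset_closure.trans (h3 j)).trans hU.2⟩, fun x hx p q s u v w => ?_,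
      fun x _ h => h.elim⟩
  · intro h
    obtain ⟨p, hp⟩ := mem_iUnion.1 h
    exact p.2 (d x hx _ _ _ (h3 _ hp.1.1) (h3 _ hp.1.2) (h3 _ hp.2))
  · by_contra hc
    exact hx.2 (mem_iUnion.2 ⟨⟨(p, q, s), hc⟩, ⟨subset_closure u, subset_closure v⟩,
      subset_closure w⟩)

variable [CompactSpace X]

theorem sepcc {Y F A : Set X} (hY : IsClosed Y) (hF : IsClosed F) (hA : Ct A) {v : X} (hv : v ∈ A)
    (hAY : A ⊆ Y) (h : ¬ (cc Y v ∩ F).Nonempty) : ∃ P Q : Set X, IsClosed P ∧ IsClosed Q ∧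
      (∀ x ∈ P, x ∉ Q) ∧ P ∪ Q = Y ∧ (∀ x ∈ P, x ∉ F) ∧ ∀ x ∈ Q, x ∉ A := by
  have : Nonempty X := ⟨v⟩
  let C : ℕ → Set X := fun m =>
    {y | ReflTransGen (fun u v => v ∈ Y ∧ dist u v < 1 / ((m : ℝ) + 1)) v y}
  have hCY : ∀ m, C m ⊆ Y := by
    intro m y hy
    induction hy with
    | refl => exact hAY hv
    | tail _ h _ => exact h.1
  have hpos : ∀ m : ℕ, (0 : ℝ) < 1 / ((m : ℝ) + 1) := fun m => by positivity
  have hL : Ct (Lim C) := by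
    refine ⟨lim_closed C, lim_conn fun m => ec_of_rtg (hpos m) (x := v) .refl ?_⟩
    intro y hy
    induction hy with
    | refl => rfl
    | tail h1 h ih => exact ih.tail ⟨h1.tail h, h.2⟩
  have hdL : v ∈ Lim C :=
    mem_lim (a := fun _ => v) (Eventually.of_forall fun m => .refl) tendsto_const_nhds
  obtain ⟨m, hm⟩ : ∃ m, ∀ x ∈ C m, x ∉ F := by
    by_contra hc
    push Not at hc
    choose c h1 h2 using hc
    obtain ⟨x, hx⟩ := ulim c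
    exact h ⟨x, hL.sub_cc hdL (lim_in hY hCY) (mem_lim (Eventually.of_forall h1) hx),
      hF.mem_of_tendsto hx (Eventually.of_forall h2)⟩
  refine ⟨C m, Y \ C m, isClosed_of_closure_subset fun x hx => ?_,
    isClosed_of_closure_subset fun x hx => ?_, fun x h1 h2 => h2.2 h1,
    union_sdiff_cancel (hCY m), hm, fun x hx hxA => hx.2 ?_⟩
  · obtain ⟨y, h1, h2⟩ := Metric.mem_closure_iff.1 hx _ (hpos m)
    exact ReflTransGen.tail h1 ⟨closure_minimal (hCY m) hY hx, by rwa [dist_comm]⟩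
  · obtain ⟨y, h1, h2⟩ := Metric.mem_closure_iff.1 hx _ (hpos m)
    exact ⟨closure_minimal sdiff_subset hY hx, fun h => h1.2 (ReflTransGen.tail h ⟨h1.1, h2⟩)⟩
  · have := (ec_of_pre (hpos m) hA.2).rtg hv hxA
    clear hxA hx
    induction this with
    | refl => exact .refl
    | tail _ h ih => exact ReflTransGen.tail ih ⟨hAY h.1, h.2⟩

theorem based (hT : NoTri (univ : Set X)) {A F : Set X} (hA : Ct A) {v : X} (hv : v ∈ A)
    (hF : IsClosed F) (hAF : ∀ x ∈ A, x ∉ F)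
    (hC : ∀ W : Set X, W.Finite → (∀ z ∈ W, z ∉ A ∧ z ∉ F) →
      ∃ H, Ct H ∧ A ⊆ H ∧ (H ∩ F).Nonempty ∧ ∀ z ∈ W, z ∉ H) : False := by
  have sg : ∀ {P Q R : Set X}, Ct P → Ct Q → Ct R → v ∈ P → v ∈ Q → v ∈ R →
      P ⊆ Q ∪ R ∨ Q ⊆ P ∪ R ∨ R ⊆ P ∪ Q := fun a b c d e f =>
    sorg a b c d e f fun T _ => hT T (subset_univ _)
  have ub : ∀ {P E : Set X}, Ct P → A ⊆ P → (P ∩ F).Nonempty → IsClosed E → A ⊆ E →
      (∀ x ∈ E, x ∉ F) → ∃ L, Ct L ∧ A ⊆ L ∧ L ⊆ P ∧ (∀ x ∈ L, x ∉ F) ∧ ¬ L ⊆ E := by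
    rintro P E h1 h2 ⟨y, hy⟩ h4 h5 h6
    obtain ⟨L, b1, b2, b3, b4, b5⟩ := ub0 h1 h4 hF.isOpen_compl h6 (h2 hv) (h5 hv)
      fun h => h6 y (h hy.1) hy.2
    exact ⟨A ∪ L, hA.un b1 hv b2, subset_union_left, union_subset h2 b3,
      fun x hx => hx.elim (hAF x) (@b4 x), fun h => b5 (subset_union_right.trans h)⟩
  have uc : ∀ {L L' : Set X}, Ct L → Ct L' → A ⊆ L → A ⊆ L' → (∀ x ∈ L, x ∉ F) →
      (∀ x ∈ L', x ∉ F) → ∀ a ∈ L, a ∈ L' → a ∈ cc (L ∩ L') v := by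
    intro L L' h1 h2 h3 h4 h5 h6 a ha ha'
    obtain ⟨M, m1, m2, ⟨m3, m4⟩, m5⟩ := exmin (fun M => A ⊆ M ∧ a ∈ M)
      (fun c _ _ h => ⟨subset_sInter fun M hM => (h M hM).2.1, fun M hM => (h M hM).2.2⟩) h1 ⟨h3, ha⟩
    refine m2.sub_cc (m3 hv) (subset_inter m1 fun x hx => by_contra fun hx' => ?_) m4
    obtain ⟨P, p1, p2, p3, p4⟩ := hC {x} (toFinite _) (by
      rintro _ rfl; exact ⟨fun h => hx' (h4 h), h5 _ (m1 hx)⟩)
    obtain ⟨C, c1, c2, c3, -, c5⟩ := ub p1 p2 p3 (h1.1.union h2.1) (h3.trans subset_union_left)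
      fun x hx => hx.elim (h5 x) (h6 x)
    obtain ⟨r, hr, hr'⟩ := Metric.isOpen_iff.1 (h2.1.union c1.1).isOpen_compl x
      (fun h => h.elim hx' fun h => p4 x rfl (c3 h))
    have hG : IsClosed (M ∩ (ball x (r / 2))ᶜ) := m2.1.inter isOpen_ball.isClosed_compl
    have hn : ∀ z ∈ L', z ∉ ball x (r / 2) := fun z hz h =>
      hr' (ball_subset_ball (by linarith) h) (Or.inl hz)
    have v1 := m3 hv
    have v2 := h4 hv
    obtain ⟨y, y1, y2⟩ := bb' m2 (half_pos hr) v1 (hn v v2) hx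
    obtain ⟨y', y3, y4⟩ := bb' m2 (half_pos hr) m4 (hn a ha') hx
    have y5 := hr' (show y ∈ ball x r by rw [mem_ball]; linarith)
    have y6 := hr' (show y' ∈ ball x r by rw [mem_ball]; linarith)
    have hs : ∀ z, cc (M ∩ (ball x (r / 2))ᶜ) z ⊆ L := fun z u hu => m1 (cc_sub _ _ hu).1
    have hd : cc (M ∩ (ball x (r / 2))ᶜ) v ≠ cc (M ∩ (ball x (r / 2))ᶜ) a := fun h => by
      have := m5 _ (fun u hu => (cc_sub _ _ hu).1) (cc_ct hG v)
        ⟨hA.sub_cc hv fun u hu => ⟨m3 hu, hn u (h4 hu)⟩, h ▸ mem_cc ⟨m4, hn a ha'⟩⟩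
      exact (cc_sub _ v (this ▸ hx)).2 (mem_ball_self (half_pos hr))
    rcases sg (cc_ct hG v) (h2.un (cc_ct hG a) ha' (mem_cc ⟨m4, hn a ha'⟩)) c1
      (mem_cc ⟨v1, hn v v2⟩) (Or.inl v2) (c2 hv) with h | h | h
    · rcases h y1 with (h | h) | h
      exacts [y5 (Or.inl h), hd (cc_eq y1 h), y5 (Or.inr h)]
    · rcases h (Or.inr y3) with h | h
      exacts [hd (cc_eq h y3), y6 (Or.inr h)]
    · exact c5 (h.trans (union_subset ((hs v).trans subset_union_left)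
        (union_subset subset_union_right ((hs a).trans subset_union_left))))
  let Mn : Set X → Prop := fun P => Ct P ∧ (A ⊆ P ∧ (P ∩ F).Nonempty) ∧
    ∀ M ⊆ P, Ct M → A ⊆ M ∧ (M ∩ F).Nonempty → M = P
  have k0 : ∀ P Q, Mn P → Mn Q → P ≠ Q →
      Ct (cc (P ∩ Q) v) ∧ A ⊆ cc (P ∩ Q) v ∧ ∀ x ∈ cc (P ∩ Q) v, x ∉ F := by
    intro P Q hP hQ hne
    have h1 := cc_ct (hP.1.1.inter hQ.1.1) v
    have h2 : A ⊆ cc (P ∩ Q) v := hA.sub_cc hv (subset_inter hP.2.1.1 hQ.2.1.1)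
    refine ⟨h1, h2, fun x a b => hne ?_⟩
    rw [← hP.2.2 _ (fun x hx => (cc_sub _ _ hx).1) h1 ⟨h2, x, a, b⟩]
    exact hQ.2.2 _ (fun x hx => (cc_sub _ _ hx).2) h1 ⟨h2, x, a, b⟩
  have k1 : ∀ P Q R, Mn P → Mn Q → Mn R → P = Q ∨ P = R ∨ Q = R := by
    intro P Q R hP hQ hR
    by_contra hn
    push Not at hn
    obtain ⟨a1, a2, a3⟩ := k0 P Q hP hQ hn.1
    obtain ⟨b1, b2, b3⟩ := k0 P R hP hR hn.2.1
    obtain ⟨c1, c2, c3⟩ := k0 Q R hQ hR hn.2.2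
    have e1 := (a1.1.union b1.1).union c1.1
    have e2 : ∀ x ∈ cc (P ∩ Q) v ∪ cc (P ∩ R) v ∪ cc (Q ∩ R) v, x ∉ F := fun x hx =>
      hx.elim (fun h => h.elim (a3 x) (b3 x)) (c3 x)
    have e3 := c2.trans (subset_union_right (s := cc (P ∩ Q) v ∪ cc (P ∩ R) v))
    obtain ⟨A', p1, p2, p3, p4, p5⟩ := ub hP.1 hP.2.1.1 hP.2.1.2 e1 e3 e2
    obtain ⟨B, q1, q2, q3, q4, q5⟩ := ub hQ.1 hQ.2.1.1 hQ.2.1.2 e1 e3 e2
    obtain ⟨C, r1, r2, r3, r4, r5⟩ := ub hR.1 hR.2.1.1 hR.2.1.2 e1 e3 e2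
    have f1 : ∀ x ∈ A', x ∈ B → x ∈ cc (P ∩ Q) v := fun x h h' => connectedComponentIn_mono v
      (inter_subset_inter p3 q3) (uc p1 q1 p2 q2 p4 q4 x h h')
    have f2 : ∀ x ∈ A', x ∈ C → x ∈ cc (P ∩ R) v := fun x h h' => connectedComponentIn_mono v
      (inter_subset_inter p3 r3) (uc p1 r1 p2 r2 p4 r4 x h h')
    have f3 : ∀ x ∈ B, x ∈ C → x ∈ cc (Q ∩ R) v := fun x h h' => connectedComponentIn_mono v
      (inter_subset_inter q3 r3) (uc q1 r1 q2 r2 q4 r4 x h h')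
    rcases sg p1 q1 r1 (p2 hv) (q2 hv) (r2 hv) with h | h | h
    · exact p5 fun x hx => Or.inl ((h hx).imp (f1 x hx) (f2 x hx))
    · exact q5 fun x hx => (h hx).elim (fun h => Or.inl (Or.inl (f1 x h hx))) fun h =>
        Or.inr (f3 x hx h)
    · exact r5 fun x hx => (h hx).elim (fun h => Or.inl (Or.inr (f2 x h hx))) fun h =>
        Or.inr (f3 x h hx)
  have k2 : ∀ W : Set X, W.Finite → (∀ z ∈ W, z ∉ A ∧ z ∉ F) →
      ∃ P, Mn P ∧ (∀ z ∈ W, z ∉ P) ∧ ∃ z ∈ P, z ∉ A ∧ z ∉ F := by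
    intro W h1 h2
    obtain ⟨H, a1, a2, a3, a4⟩ := hC W h1 h2
    obtain ⟨P, b1, b2⟩ := exmin (fun M => A ⊆ M ∧ (M ∩ F).Nonempty) (fun c a b h =>
      ⟨subset_sInter fun M hM => (h M hM).2.1, by
        by_contra hc
        obtain ⟨M, h7, h8⟩ := chain_sub a b (fun M hM => (h M hM).1.1) hF.isOpen_compl
          fun x hx hx' => hc ⟨x, hx, hx'⟩
        obtain ⟨y, h9⟩ := (h M h7).2.2
        exact h8 h9.1 h9.2⟩) a1 ⟨a2, a3⟩
    refine ⟨P, b2, fun z hz h => a4 z hz (b1 h), ?_⟩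
    by_contra hc
    obtain ⟨x, -, h3⟩ := isPreconnected_closed_iff.1 b2.1.2 A F hA.1 hF (fun x hx => by
      by_contra h; exact hc ⟨x, hx, fun h' => h (Or.inl h'), fun h' => h (Or.inr h')⟩)
      ⟨v, b2.2.1.1 hv, hv⟩ b2.2.1.2
    exact hAF x h3.1 h3.2
  obtain ⟨P, p1, -, z, p2, p3⟩ := k2 ∅ finite_empty (by simp)
  obtain ⟨Q, q1, q4, z', q2, q3⟩ := k2 {z} (toFinite _) (by rintro _ rfl; exact p3)
  obtain ⟨R, r1, r4, -⟩ := k2 {z, z'} (toFinite _) (by rintro _ (rfl | rfl); exacts [p3, q3])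
  rcases k1 P Q R p1 q1 r1 with rfl | rfl | rfl
  exacts [q4 z rfl p2, r4 z (Or.inl rfl) p2, r4 z' (Or.inr rfl) q2]

theorem main (hT : NoTri (univ : Set X)) (h : ¬ G1 𝒰 univ ∅) : ∃ K, Ct K ∧ K.Nonempty ∧
    ¬ G1 𝒰 K ∅ ∧ ∀ P Q, Ct P → P.Nonempty → Ct Q → P ∪ Q = K → P = K ∨ Q = K := by
  obtain ⟨K, -, ⟨k1, k2⟩, k3⟩ := zorn_superset_nonempty {K | IsClosed K ∧ ¬ G1 𝒰 K ∅}
    (fun c h1 h2 h3 => ⟨⋂₀ c, ⟨isClosed_sInter fun L hL => (h1 hL).1, fun h => by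
      obtain ⟨O, a1, a2, a3⟩ := h.nhd (isClosed_sInter fun L hL => (h1 hL).1)
      obtain ⟨L, b1, b2⟩ := chain_sub h2 h3 (fun L hL => (h1 hL).1) a1 a2
      exact (h1 b1).2 (a3.mono b2 subset_rfl)⟩, fun s hs => sInter_subset_of_mem hs⟩) univ
    ⟨isClosed_univ, h⟩
  have k4 : ∀ L, IsClosed L → L ⊆ K → ∀ x ∈ K, x ∉ L → G1 𝒰 L ∅ := fun L a b x c d =>
    by_contra fun e => d (k3 ⟨a, e⟩ b c)
  refine ⟨K, ⟨k1, isPreconnected_closed_iff.2 ?_⟩, nonempty_iff_ne_empty.2 ?_, k2, ?_⟩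
  · rintro F F' hF hF' hc ⟨x, hx⟩ ⟨y, hy⟩
    by_contra hn
    obtain ⟨r, -, h1⟩ := glue (k4 _ (k1.inter hF) inter_subset_left y hy.1
      fun h => hn ⟨y, hy.1, h.2, hy.2⟩) (k4 _ (k1.inter hF') inter_subset_left x hx.1
      fun h => hn ⟨x, hx.1, hx.2, h.2⟩) finite_empty (empty_subset _) (empty_subset _)
    exact k2 ((h1 _ _ (k1.inter hF) (k1.inter hF') (fun z a b => hn ⟨z, a.1, a.2, b.2⟩) subset_rfl
      subset_rfl).mono (fun z hz => Or.inl ((hc hz).imp (fun h => ⟨hz, h⟩) fun h => ⟨hz, h⟩))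
      subset_rfl)
  · rintro rfl
    exact k2 ⟨Empty, inferInstance, fun _ => ∅, by simp, by simp, by simp, by simp, by simp⟩
  · rintro A B hA ⟨v, hv⟩ hB hK
    by_contra hn
    push Not at hn
    have hAK : A ⊆ K := hK ▸ subset_union_left
    have hBK : B ⊆ K := hK ▸ subset_union_right
    obtain ⟨y, y1, y2⟩ := not_subset.1 fun h => hn.1 (hAK.antisymm h)
    obtain ⟨x, x1, x2⟩ := not_subset.1 fun h => hn.2 (hBK.antisymm h)
    obtain ⟨s, hs, hs'⟩ := Metric.nhds_basis_closedBall.mem_iff.1 (hA.1.isOpen_compl.mem_nhds y2)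
    refine based hT hA hv (isClosed_closedBall (x := y) (ε := s)) (fun x a b => hs' b a)
      fun W w1 w2 => ?_
    obtain ⟨r, hr, h1⟩ := glue (k4 _ (k1.inter (isOpen_ball (x := y) (ε := s)).isClosed_compl)
      inter_subset_left y y1 fun h => h.2 (mem_ball_self hs)) (k4 B hB.1 hBK x x1 x2)
      (w1.inter_of_left K) (fun z hz => ⟨hz.2, fun h => (w2 z hz.1).2 (ball_subset_closedBall h)⟩)
      fun z hz => (hK ▸ hz.2 : z ∈ A ∪ B).resolve_left (w2 z hz.1).1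
    obtain ⟨δ, hδ, h2⟩ := (w1.inter_of_left K).isCompact.exists_thickening_subset_open
      hA.1.isOpen_compl fun z hz => (w2 z hz.1).1
    have hY : IsClosed (K ∩ (thickening (min r δ) (W ∩ K))ᶜ) :=
      k1.inter isOpen_thickening.isClosed_compl
    have hAY : A ⊆ K ∩ (thickening (min r δ) (W ∩ K))ᶜ := fun z hz =>
      ⟨hAK hz, fun h => h2 (thickening_mono (min_le_right _ _) _ h) hz⟩
    refine ⟨_, cc_ct hY v, hA.sub_cc hv hAY, by_contra fun hc => ?_, fun z hz h =>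
      (cc_sub _ _ h).2 (self_subset_thickening (lt_min hr hδ) _ ⟨hz, (cc_sub _ _ h).1⟩)⟩
    obtain ⟨P, Q, a1, a2, a3, a4, a5, a6⟩ := sepcc hY isClosed_closedBall hA hv hAY hc
    refine k2 ((h1 P Q a1 a2 a3 (fun z hz => ⟨(a4.subset (Or.inl hz)).1,
      fun h => a5 z hz (ball_subset_closedBall h)⟩) fun z hz =>
        (hK ▸ (a4.subset (Or.inr hz)).1 : z ∈ A ∪ B).resolve_left (a6 z hz)).mono
        (fun z hz => ?_) subset_rfl)
    by_cases h : z ∈ thickening (min r δ) (W ∩ K)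
    · exact Or.inr (thickening_mono (min_le_left _ _) _ h)
    · exact Or.inl (a4.superset ⟨hz, h⟩)

theorem g1_iff {m : ℕ} {U : Fin m → Set X} {S : Set X} : G1 (range U) S ∅ ↔
    ∃ (k : ℕ) (V : Fin k → Set X), (∀ j, IsOpen (V j)) ∧ S ⊆ ⋃ j, V j ∧
      (∀ j, ∃ i, V j ⊆ U i) ∧ ∀ x ∈ S, {j : Fin k | x ∈ V j}.ncard ≤ 1 + 1 := by
  constructor
  · rintro ⟨ι, i, V, a, b, c, d, -⟩
    obtain ⟨k, ⟨e⟩⟩ := Finite.exists_equiv_fin ι
    refine ⟨k, fun j => V (e.symm j), fun j => a _, by rwa [e.symm.surjective.iUnion_comp V],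
      fun j => ?_, fun x hx => not_lt.1 fun h => ?_⟩
    · obtain ⟨_, ⟨i, rfl⟩, h⟩ := c (e.symm j)
      exact ⟨i, h⟩
    · obtain ⟨p, q, s, h1, h2, h3, h4, h5, h6⟩ := (two_lt_ncard_iff (toFinite _)).1 h
      rcases d x hx _ _ _ h1 h2 h3 with h | h | h
      exacts [h4 (e.symm.injective h), h5 (e.symm.injective h), h6 (e.symm.injective h)]
  · rintro ⟨k, V, a, b, c, d⟩
    refine ⟨_, inferInstance, V, a, b, fun j => ?_, fun x hx p q s h1 h2 h3 => ?_,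
      fun x _ h => h.elim⟩
    · obtain ⟨i, h⟩ := c j
      exact ⟨_, ⟨i, rfl⟩, h⟩
    · by_contra hc
      push Not at hc
      exact not_lt.2 (d x hx) ((two_lt_ncard_iff (toFinite _)).2 ⟨p, q, s, h1, h2, h3, hc⟩)

end Pool.Agent.H71.Atr
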