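import Mathlib

set_option autoImplicit false

namespace Pool.Agent.H71.Bel

open Set Filter Topology Function

abbrev C : Type := ℕ → Bool

def car (x : C) : ℕ → Bool
  | 0 => true
  | n + 1 => car x n && x n

/-- the odometer -/
def ph (x : C) : C := fun n => xor (x n) (car x n)

theorem car_cont (n : ℕ) : Continuous fun x : C => car x n := by
  induction n with
  | zero => exact continuous_const
  | succ n ih =>
    exact (continuous_of_discreteTopology (f := fun q : Bool × Bool => (q.1 && q.2))).comp
      (ih.prodMk (continuous_apply n))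

theorem ph_cont : Continuous ph := continuous_pi fun n =>
  (continuous_of_discreteTopology (f := fun q : Bool × Bool => xor q.1 q.2)).comp
    ((continuous_apply n).prodMk (car_cont n))

theorem car_false {x : C} {m n : ℕ} (h : car x m = false) (hn : m ≤ n) : car x n = false := by
  induction n, hn using Nat.le_induction with
  | base => exact h
  | succ n _ ih => simp [car, ih]

theorem ph_eq {x : C} {m n : ℕ} (h : car x m = false) (hn : m ≤ n) : ph x n = x n := by
  simp [ph, car_false h hn]

theorem ph_inj : Injective ph := by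
  intro x y h
  have k : ∀ n, car x n = car y n := by
    intro n
    induction n with
    | zero => rfl
    | succ n ih =>
      have := congrFun h n
      simp only [ph, ih] at this
      have e : x n = y n := by
        revert this
        cases x n <;> cases y n <;> cases car y n <;> simp
      simp [car, ih, e]
  funext n
  have := congrFun h n
  simp only [ph, k n] at this
  revert this
  cases x n <;> cases y n <;> cases car y n <;> simp

def val (x : C) : ℕ → ℕ
  | 0 => 0
  | n + 1 => val x n + 2 ^ n * (x n).toNat

theorem val_lt (x : C) (n : ℕ) : val x n < 2 ^ n := by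
  induction n with
  | zero => simp [val]
  | succ n ih =>
    rw [val, pow_succ]
    cases x n <;> simp <;> omega

theorem val_ph (x : C) (n : ℕ) : val (ph x) n + 2 ^ n * (car x n).toNat = val x n + 1 := by
  induction n with
  | zero => simp [val, car]
  | succ n ih =>
    rw [val, val, car, pow_succ, ph]
    revert ih
    cases x n <;> cases car x n <;> simp <;> omega

theorem val_inj {x y : C} {n : ℕ} (h : val x n = val y n) : ∀ i < n, x i = y i := by
  induction n with
  | zero => simp
  | succ n ih =>
    have h1 := val_lt x n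
    have h2 := val_lt y n
    rw [val, val] at h
    have : x n = y n ∧ val x n = val y n := by
      revert h
      cases x n <;> cases y n <;> simp <;> omega
    intro i hi
    rcases Nat.lt_succ_iff_lt_or_eq.1 hi with k | rfl
    · exact ih this.2 i k
    · exact this.1

def Ev (x y : C) : Prop := ∀ᶠ n in atTop, x n = y n

def Z (x : C) : Prop := ∃ᶠ n in atTop, x n = false

theorem Ev.symm {x y : C} (h : Ev x y) : Ev y x := h.mono fun _ k => k.symm

theorem Ev.trans {x y z : C} (h : Ev x y) (h' : Ev y z) : Ev x z :=
  (h.and h').mono fun _ k => k.1.trans k.2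

theorem ev_ph {x : C} (h : Z x) : Ev (ph x) x := by
  obtain ⟨n, hn⟩ := h.exists
  exact eventually_atTop.2 ⟨n + 1, fun m hm => ph_eq (by simp [car, hn]) hm⟩

theorem ev_it {x : C} (h : Z x) (j : ℕ) : Ev (ph^[j] x) x := by
  induction j with
  | zero => exact Eventually.of_forall fun _ => rfl
  | succ j ih =>
    rw [iterate_succ_apply']
    exact (ev_ph ((h.and_eventually ih).mono fun n k => k.2.trans k.1)).trans ih

theorem cyl {k : Set C} (hk : IsOpen k) {w : C} (hw : w ∈ k) :
    ∃ m, ∀ y : C, (∀ i < m, y i = w i) → y ∈ k := by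
  obtain ⟨I, u, h1, h2⟩ := isOpen_pi_iff.1 hk w hw
  refine ⟨I.sup id + 1, fun y hy => h2 fun i hi => ?_⟩
  rw [hy i (Nat.lt_succ_of_le (Finset.le_sup (f := id) hi))]
  exact (h1 i hi).2

theorem val_it (x : C) (m j : ℕ) : val (ph^[j] x) m ≡ val x m + j [MOD 2 ^ m] := by
  induction j with
  | zero => rfl
  | succ j ih =>
    rw [iterate_succ_apply', ← add_assoc]
    refine Nat.ModEq.trans ?_ (ih.add_right 1)
    rw [← val_ph]
    simp [Nat.ModEq]

theorem reach {k : Set C} (hk : IsOpen k) (hne : k.Nonempty) (x : C) : ∃ j, ph^[j] x ∈ k := by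
  obtain ⟨w, hw⟩ := hne
  obtain ⟨m, hm⟩ := cyl hk hw
  refine ⟨2 ^ m - val x m + val w m, hm _ (val_inj ?_)⟩
  have h := val_it x m (2 ^ m - val x m + val w m)
  have h1 := val_lt x m
  rw [show val x m + (2 ^ m - val x m + val w m) = val w m + 2 ^ m by omega] at h
  exact Nat.ModEq.eq_of_lt_of_lt (h.trans (by simp [Nat.ModEq])) (val_lt _ _) (val_lt _ _)

theorem blk {a : Set C} {m : ℕ} {z z' : C} (hz : ∀ i ≥ m, z' i = z i)
    (H : ∀ w : C, (∀ i ≥ m, ph w i = z i) → (w ∈ a ↔ ph w ∈ a)) : z ∈ a ↔ z' ∈ a := by
  have key : ∀ d, ∀ w w' : C, (∀ i ≥ m, w i = z i) → (∀ i ≥ m, w' i = z i) →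
      val w' m = val w m + d → (w ∈ a ↔ w' ∈ a) := by
    intro d
    induction d with
    | zero =>
      intro w w' h1 h2 h3
      have : w' = w := funext fun i => by
        rcases lt_or_ge i m with k | k
        · exact val_inj h3 i k
        · rw [h1 i k, h2 i k]
      rw [this]
    | succ d ih =>
      intro w w' h1 h2 h3
      have h4 := val_ph w m
      have h5 := val_lt w' m
      have h6 : car w m = false := by
        revert h4
        cases car w m <;> simp
        omega
      have h7 : ∀ i ≥ m, ph w i = z i := fun i hi => (ph_eq h6 hi).trans (h1 i hi)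
      rw [h6] at h4
      exact (H w h7).trans (ih _ _ h7 h2 (by simp at h4; omega))
  rcases le_total (val z m) (val z' m) with k | k
  · exact key (val z' m - val z m) z z' (fun _ _ => rfl) hz (by omega)
  · exact (key (val z m - val z' m) z' z hz (fun _ _ => rfl) (by omega)).symm

def cd (s : Bool) (y : C) : C := fun i =>
  if i % 3 = 0 then (s && y (i + 1)) else if i % 3 = 1 then false else y (Nat.unpair (i / 3)).1

def ps (x : C) (s : Bool) : C := cond s (ph x) x

/-- the end point on the next level of the arc `(x, s)` -/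
def en (q : C × Bool) : C := cd q.2 (ps q.1 q.2)

theorem cd_cont (s : Bool) : Continuous (cd s) := continuous_pi fun i => by
  unfold cd
  split_ifs
  · exact (continuous_of_discreteTopology (f := fun q : Bool => (s && q))).comp
      (continuous_apply _)
  · exact continuous_const
  · exact continuous_apply _

theorem en_cont : Continuous en := by
  rw [continuous_prod_of_discrete_right]
  intro s
  cases s
  · exact cd_cont false
  · exact (cd_cont true).comp ph_cont

theorem cd_ctl (s : Bool) (y : C) (k : ℕ) : cd s y (3 * k + 1) = false := by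
  have : (3 * k + 1) % 3 = 1 := by omega
  simp [cd, this]

theorem cd_Z (s : Bool) (y : C) : Z (cd s y) :=
  frequently_atTop.2 fun n => ⟨3 * n + 1, by omega, cd_ctl s y n⟩

theorem cd_ev {s s' : Bool} {y y' : C} (h : Ev (cd s y) (cd s' y')) : y = y' := by
  obtain ⟨n, hn⟩ := eventually_atTop.1 h
  funext j
  have := hn (3 * Nat.pair j n + 2) (by have := Nat.right_le_pair j n; omega)
  have e1 : (3 * Nat.pair j n + 2) % 3 = 2 := by omega
  have e2 : (3 * Nat.pair j n + 2) / 3 = Nat.pair j n := by omega
  simpa [cd, e1, e2] using this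

theorem cd_agree {y : C} {m : ℕ} (h : ∀ k ≥ m, y (3 * k + 1) = false) (i : ℕ)
    (hi : 3 * m ≤ i + 2) : cd true y i = cd false y i := by
  unfold cd
  split_ifs with h1
  · have : i = 3 * (i / 3) := by omega
    rw [this, h (i / 3) (by omega)]
    rfl
  · rfl
  · rfl

/-- no nontrivial coherent sequence of clopen sets -/
theorem triv {a : ℕ → Set C} {n : ℕ} (hc : ∀ t ≥ n, IsClopen (a t))
    (h : ∀ t ≥ n, ∀ q : C × Bool, q.1 ∈ a t ↔ en q ∈ a (t + 1)) :
    ∀ t ≥ n, ∀ x y, x ∈ a t ↔ y ∈ a n := by
  have c1 : ∀ m, ∀ t ≥ n, ∀ x : C, (∀ k ≥ m, ph x (3 * k + 1) = false) →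
      (x ∈ a t ↔ ph x ∈ a t) := by
    intro m
    induction m with
    | zero =>
      intro t ht x hx
      rw [h t ht (x, true), h t ht (ph x, false)]
      have : cd true (ph x) = cd false (ph x) := funext fun i => cd_agree hx i (by omega)
      simp only [en, ps, cond, this]
    | succ m ih =>
      intro t ht x hx
      rw [h t ht (x, true), h t ht (ph x, false)]
      simp only [en, ps, cond]
      refine (blk (m := 3 * m + 1) (fun i hi => cd_agree hx i (by omega)) fun w hw => ?_).symm
      exact ih (t + 1) (by omega) w fun k hk => (hw _ (by omega)).trans (cd_ctl _ _ _)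
  have c2 : ∀ t ≥ n, ∀ x : C, (fun _ => false) ∈ a t ↔ x ∈ a t := by
    intro t ht x
    have c3 : ∀ m, (fun _ => false) ∈ a t ↔ (fun i => if i < m then x i else false) ∈ a t :=
      fun m => blk (m := m) (fun i hi => by simp [not_lt.2 hi])
        fun w hw => c1 m t ht w fun k hk => hw _ (by omega)
    by_cases hx : x ∈ a t
    · obtain ⟨m, hm⟩ := cyl (hc t ht).2 hx
      exact iff_of_true ((c3 m).2 (hm _ fun i hi => by simp [hi])) hx
    · obtain ⟨m, hm⟩ := cyl (hc t ht).1.isOpen_compl hx
      exact iff_of_false (fun k => hm _ (fun i hi => by simp [hi]) ((c3 m).1 k)) hx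
  intro t ht
  induction t, ht using Nat.le_induction with
  | base => exact fun x y => (c2 n le_rfl x).symm.trans (c2 n le_rfl y)
  | succ t ht ih =>
    intro x y
    rw [← ih y y, h t ht (y, false)]
    exact (c2 (t + 1) (by omega) _).symm.trans (c2 (t + 1) (by omega) _)

end Pool.Agent.H71.Bel
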