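import Pool.Agent.H71.Bel1

set_option autoImplicit false

namespace Pool.Agent.H71.Bel

open Set Filter Topology Function

def Rho (k : Set C) (r : C → C) : Prop :=
  Continuous r ∧ (∀ x, x ∉ k → r (ph x) = r x) ∧ ∀ x, Z x → Ev (r x) x

theorem ex_rho {k : Set C} (hk : IsClopen k) (hne : k.Nonempty) : ∃ r, Rho k r := by
  classical
  have H := reach hk.2 hne
  refine ⟨fun x => ph^[Nat.find (H x)] x, continuous_iff_continuousAt.2 fun x => ?_,
    fun x hx => ?_, fun x hx => ev_it hx _⟩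
  · have hx := (Nat.find_eq_iff (H x)).1 rfl
    refine (ph_cont.iterate (Nat.find (H x))).continuousAt.congr ?_
    have h1 : ∀ᶠ y in 𝓝 x, ph^[Nat.find (H x)] y ∈ k :=
      (ph_cont.iterate _).continuousAt.eventually (hk.2.mem_nhds hx.1)
    have h2 : ∀ᶠ y in 𝓝 x, ∀ i ∈ Finset.range (Nat.find (H x)), ph^[i] y ∉ k :=
      (Finset.eventually_all _).2 fun i hi => (ph_cont.iterate i).continuousAt.eventually
        (hk.1.isOpen_compl.mem_nhds (hx.2 i (Finset.mem_range.1 hi)))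
    filter_upwards [h1, h2] with y k1 k2
    have : Nat.find (H y) = Nat.find (H x) :=
      (Nat.find_eq_iff (H y)).2 ⟨k1, fun i hi => k2 i (Finset.mem_range.2 hi)⟩
    simp only [this]
  · have h1 := (Nat.find_eq_iff (H (ph x))).1 rfl
    have : Nat.find (H x) = Nat.find (H (ph x)) + 1 := by
      refine (Nat.find_eq_iff (H x)).2 ⟨h1.1, fun i hi => ?_⟩
      cases i with
      | zero => exact hx
      | succ i => exact h1.2 i (by omega)
    simp only [this, iterate_succ_apply]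

def pt (w : C) (m : ℕ) (b : Bool) : C := fun i =>
  if i < m then w i else if i % 3 = 0 then false else if i % 3 = 1 then true else b

theorem pt_Z (w : C) (m : ℕ) (b : Bool) : Z (pt w m b) :=
  frequently_atTop.2 fun n => ⟨3 * (n + m), by omega, by
    have h1 : ¬ 3 * (n + m) < m := by omega
    simp [pt, h1]⟩

theorem pt_cd (w : C) (m : ℕ) (b s : Bool) (y : C) : ¬ Ev (pt w m b) (cd s y) := by
  intro h
  obtain ⟨n, hn⟩ := eventually_atTop.1 h
  have := hn (3 * (n + m) + 1) (by omega)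
  rw [cd_ctl] at this
  have h1 : ¬ 3 * (n + m) + 1 < m := by omega
  have h2 : (3 * (n + m) + 1) % 3 = 1 := by omega
  simp [pt, h1, h2] at this

theorem pt_pt (w : C) (m : ℕ) : ¬ Ev (pt w m false) (pt w m true) := by
  intro h
  obtain ⟨n, hn⟩ := eventually_atTop.1 h
  have := hn (3 * (n + m) + 2) (by omega)
  have h1 : ¬ 3 * (n + m) + 2 < m := by omega
  have h2 : (3 * (n + m) + 2) % 3 = 2 := by omega
  simp [pt, h1, h2] at this

theorem pt_mem {u : Set C} (hu : IsOpen u) (hne : u.Nonempty) :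
    ∃ w m, ∀ b, pt w m b ∈ u := by
  obtain ⟨w, hw⟩ := hne
  obtain ⟨m, hm⟩ := cyl hu hw
  exact ⟨w, m, fun b => hm _ fun i hi => by simp [pt, hi]⟩

theorem Rho.ev {k : Set C} {r : C → C} (h : Rho k r) {x y : C} (hx : Z x) (hy : Z y)
    (e : r x = r y) : Ev x y := (h.2.2 x hx).symm.trans (e ▸ h.2.2 y hy)

theorem step {a k k' u : Set C} {J : Set (C × Bool)} {r : C → C} (ha : IsClopen a)
    (hk : ∀ x, x ∉ k → (x ∈ a ↔ ph x ∈ a)) (hJ : IsOpen J) (hr : Rho k' r)
    (hc : ∀ x ∈ k, (x, true) ∈ J ∨ (ph x, false) ∈ J ∨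
      r (cd false (ph x)) ≠ r (cd true (ph x))) (hu : IsOpen u) (hne : u.Nonempty) :
    ∃ a' : Set C, IsClopen a' ∧ (∀ x, x ∉ k' → (x ∈ a' ↔ ph x ∈ a')) ∧
      (∀ q, q ∉ J → (q.1 ∈ a ↔ en q ∈ a')) ∧ (u ∩ a').Nonempty ∧ (u \ a').Nonempty := by
  obtain ⟨w, m, hw⟩ := pt_mem hu hne
  have cl : ∀ b : Set C, IsClosed b → IsClosed ((r ∘ en) '' (Jᶜ ∩ Prod.fst ⁻¹' b)) := fun b hb =>
    ((hJ.isClosed_compl.inter (hb.preimage continuous_fst)).isCompact.image
      (hr.1.comp en_cont)).isClosed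
  have eZ : ∀ q, Z (en q) := fun q => cd_Z _ _
  have d1 : ∀ x x' : C, (x, false) ∉ J → (x', true) ∉ J → r (en (x, false)) = r (en (x', true)) →
      (x' ∈ a ↔ x ∈ a) := by
    intro x x' h1 h2 h3
    have e : x = ph x' := cd_ev (hr.ev (eZ (x, false)) (eZ (x', true)) h3)
    subst e
    refine hk x' fun h => ?_
    rcases hc x' h with t | t | t
    · exact h2 t
    · exact h1 t
    · exact t h3
  obtain ⟨c, hc1, hc2, hc3⟩ := exists_clopen_of_closed_subset_open
    (Z := insert (r (pt w m false)) ((r ∘ en) '' (Jᶜ ∩ Prod.fst ⁻¹' a)))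
    (U := (insert (r (pt w m true)) ((r ∘ en) '' (Jᶜ ∩ Prod.fst ⁻¹' aᶜ)))ᶜ)
    (isClosed_singleton.union (cl a ha.1))
    (isClosed_singleton.union (cl _ ha.2.isClosed_compl)).isOpen_compl (by
      rintro z (rfl | ⟨q, hq, rfl⟩) (h | ⟨q', hq', h⟩)
      · exact pt_pt w m (hr.ev (pt_Z _ _ _) (pt_Z _ _ _) h)
      · exact pt_cd w m _ _ _ (hr.ev (pt_Z _ _ _) (eZ _) h.symm)
      · exact pt_cd w m _ _ _ (hr.ev (pt_Z _ _ _) (eZ _) h.symm)
      · obtain ⟨x, s⟩ := q
        obtain ⟨x', s'⟩ := q'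
        have e := cd_ev (hr.ev (eZ _) (eZ _) h)
        cases s <;> cases s'
        · have e' : x' = x := e
          exact hq'.2 (e' ▸ hq.2)
        · exact hq'.2 ((d1 x x' hq.1 hq'.1 h.symm).2 hq.2)
        · exact hq'.2 ((d1 x' x hq'.1 hq.1 h).1 hq.2)
        · have e' : x' = x := ph_inj e
          exact hq'.2 (e' ▸ hq.2))
  refine ⟨r ⁻¹' c, hc1.preimage hr.1, fun x hx => by simp [hr.2.1 x hx], fun q hq => ?_,
    ⟨_, hw false, hc2 (Or.inl rfl)⟩, ⟨_, hw true, fun h => hc3 h (Or.inl rfl)⟩⟩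
  by_cases h : q.1 ∈ a
  · exact iff_of_true h (hc2 (Or.inr ⟨q, ⟨hq, h⟩, rfl⟩))
  · exact iff_of_false h fun t => hc3 t (Or.inr ⟨q, ⟨hq, h⟩, rfl⟩)

theorem exA {J : Set (C × Bool)} (hJ : IsOpen J) (hne : J.Nonempty) :
    ∃ k : Set C, IsClopen k ∧ k.Nonempty ∧ ∀ x ∈ k, (x, true) ∈ J ∨ (ph x, false) ∈ J := by
  obtain ⟨⟨x, s⟩, hx⟩ := hne
  have ho : IsOpen {y : C | (y, s) ∈ J} := hJ.preimage (continuous_id.prodMk continuous_const)
  cases s
  · obtain ⟨j, hj⟩ := reach ho ⟨x, hx⟩ (ph x)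
    rw [← iterate_succ_apply, iterate_succ_apply'] at hj
    obtain ⟨V, h1, h2, h3⟩ := compact_exists_isClopen_in_isOpen (ho.preimage ph_cont) hj
    exact ⟨V, h1, ⟨_, h2⟩, fun y hy => Or.inr (h3 hy)⟩
  · obtain ⟨V, h1, h2, h3⟩ := compact_exists_isClopen_in_isOpen ho hx
    exact ⟨V, h1, ⟨_, h2⟩, fun y hy => Or.inl (h3 hy)⟩

theorem exB {k' : Set C} {r : C → C} (hr : Rho k' r) :
    ∃ k : Set C, IsClopen k ∧ k.Nonempty ∧
      ∀ x ∈ k, r (cd false (ph x)) ≠ r (cd true (ph x)) := by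
  have ho : IsOpen {x : C | r (cd false (ph x)) ≠ r (cd true (ph x))} :=
    isOpen_ne_fun (hr.1.comp ((cd_cont _).comp ph_cont)) (hr.1.comp ((cd_cont _).comp ph_cont))
  have hx : (fun i => decide (i ≠ 0)) ∈ {x : C | r (cd false (ph x)) ≠ r (cd true (ph x))} := by
    intro h
    obtain ⟨n, hn⟩ := eventually_atTop.1 (hr.ev (cd_Z _ _) (cd_Z _ _) h)
    have := hn (3 * n) (by omega)
    have e : ph (fun i => decide (i ≠ 0)) (3 * n + 1) = true := by
      rw [ph_eq (m := 1) (by simp [car]) (by omega)]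
      simp
    simp only [cd, Nat.mul_mod_right, if_true, e] at this
    simp at this
  obtain ⟨V, h1, h2, h3⟩ := compact_exists_isClopen_in_isOpen ho hx
  exact ⟨V, h1, ⟨_, h2⟩, h3⟩

/-- after cutting open sets of arcs at infinitely many levels there are many partitions -/
theorem frag {J : ℕ → Set (C × Bool)} {u : ℕ → Set C} (hJ : ∀ t, IsOpen (J t))
    (hi : ∀ t, ∃ j, (J (t + j)).Nonempty) (hu : ∀ t, IsOpen (u t)) (hne : ∀ t, (u t).Nonempty) :
    ∃ a : ℕ → Set C, (∀ t, IsClopen (a t)) ∧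
      (∀ t q, q ∉ J t → (q.1 ∈ a t ↔ en q ∈ a (t + 1))) ∧
      ∀ t, (u (t + 1) ∩ a (t + 1)).Nonempty ∧ (u (t + 1) \ a (t + 1)).Nonempty := by
  classical
  choose! rho hrho using fun (k : Set C) (h : IsClopen k ∧ k.Nonempty) => ex_rho h.1 h.2
  choose! kA hA using fun (t : ℕ) (h : (J t).Nonempty) => exA (hJ t) h
  choose! kB hB using fun (k : Set C) (h : IsClopen k ∧ k.Nonempty) => exB (hrho k h)
  let K : ℕ → ℕ → Set C := fun d => Nat.rec kA (fun _ f t => kB (f (t + 1))) d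
  have hK : ∀ d t, (J (t + d)).Nonempty → IsClopen (K d t) ∧ (K d t).Nonempty := by
    intro d
    induction d with
    | zero => exact fun t h => ⟨(hA t h).1, (hA t h).2.1⟩
    | succ d ih =>
      intro t h
      have := hB _ (ih (t + 1) (by rwa [add_assoc, add_comm 1]))
      exact ⟨this.1, this.2.1⟩
  let k : ℕ → Set C := fun t => K (Nat.find (hi t)) t
  have k1 : ∀ t, IsClopen (k t) ∧ (k t).Nonempty := fun t => hK _ t (Nat.find_spec (hi t))
  have k2 : ∀ t, ∀ x ∈ k t, (x, true) ∈ J t ∨ (ph x, false) ∈ J t ∨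
      rho (k (t + 1)) (cd false (ph x)) ≠ rho (k (t + 1)) (cd true (ph x)) := by
    intro t x hx
    by_cases h : (J t).Nonempty
    · have e : Nat.find (hi t) = 0 := (Nat.find_eq_zero _).2 h
      simp only [k, e] at hx
      rcases (hA t h).2.2 x hx with h' | h'
      · exact Or.inl h'
      · exact Or.inr (Or.inl h')
    · have h1 := (Nat.find_eq_iff (hi (t + 1))).1 rfl
      have e : Nat.find (hi t) = Nat.find (hi (t + 1)) + 1 := by
        refine (Nat.find_eq_iff (hi t)).2 ⟨by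
          have := h1.1
          rwa [add_assoc, add_comm 1] at this, fun i hi' => ?_⟩
        cases i with
        | zero => exact h
        | succ i =>
          have := h1.2 i (by omega)
          rwa [add_assoc, add_comm 1] at this
      simp only [k, e] at hx
      exact Or.inr (Or.inr ((hB _ (k1 (t + 1))).2.2 x hx))
  choose! nx hnx using fun (t : ℕ) (a : Set C)
    (h : IsClopen a ∧ ∀ x, x ∉ k t → (x ∈ a ↔ ph x ∈ a)) =>
      step h.1 h.2 (hJ t) (hrho _ (k1 (t + 1))) (k2 t) (hu (t + 1)) (hne (t + 1))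
  let a : ℕ → Set C := fun t => Nat.rec ∅ (fun t b => nx t b) t
  have ha : ∀ t, IsClopen (a t) ∧ ∀ x, x ∉ k t → (x ∈ a t ↔ ph x ∈ a t) := by
    intro t
    induction t with
    | zero => exact ⟨isClopen_empty, fun _ _ => Iff.rfl⟩
    | succ t ih => exact ⟨(hnx t _ ih).1, (hnx t _ ih).2.1⟩
  exact ⟨a, fun t => (ha t).1, fun t => (hnx t _ (ha t)).2.2.1, fun t => (hnx t _ (ha t)).2.2.2⟩

end Pool.Agent.H71.Bel
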