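import Pool.Agent.H71.Bel2

set_option autoImplicit false

namespace Pool.Agent.H71.Bel

open Set Filter Topology Function unitInterval

abbrev Om : Type := (C × Bool) × I

theorem lf {E : Type} [TopologicalSpace E] {τ : E → ℝ} (hτ : Continuous τ) {K : ℕ → Set E}
    (hK : ∀ t, IsClosed (K t)) (h : ∀ t, ∀ z ∈ K t, τ z ≤ 1 / (t + 1)) {z : E}
    (hz : z ∈ closure (⋃ t, K t)) (h0 : 0 < τ z) : z ∈ ⋃ t, K t := by
  obtain ⟨N, hN⟩ := exists_nat_one_div_lt h0
  have : (⋃ t, K t) ⊆ (⋃ t ∈ Finset.range N, K t) ∪ {w | τ w ≤ 1 / (N + 1)} := by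
    intro w hw
    obtain ⟨t, ht⟩ := mem_iUnion.1 hw
    rcases lt_or_ge t N with k | k
    · exact Or.inl (mem_iUnion₂.2 ⟨t, Finset.mem_range.2 k, ht⟩)
    · exact Or.inr ((h t w ht).trans (Nat.one_div_le_one_div k))
  rcases closure_minimal this (((Finset.range N).finite_toSet.isClosed_biUnion
    fun t _ => hK t).union (isClosed_le hτ continuous_const)) hz with k | k
  · obtain ⟨t, -, ht⟩ := mem_iUnion₂.1 k
    exact mem_iUnion.2 ⟨t, ht⟩
  · exact absurd k (not_le.2 hN)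

structure Mod {X : Type} [TopologicalSpace X] (p : X) (g : ℕ → Om → X) (τ : X → ℝ) : Prop where
  gc : ∀ t, Continuous (g t)
  tc : Continuous τ
  tp : τ p = 0
  tg : ∀ t ω, τ (g t ω) = 1 / (t + ω.2 + 1)
  cov : ∀ z, z ≠ p → ∃ t ω, z = g t ω
  z0 : ∀ t x s s', g t ((x, s), 0) = g t ((x, s'), 0)
  z1 : ∀ t q s, g t (q, 1) = g (t + 1) ((en q, s), 0)
  inj : ∀ t q q' s, g t (q, s) = g t (q', s) →
    (s < 1 → q.1 = q'.1) ∧ (0 < s → en q = en q') ∧ (0 < s → s < 1 → q = q')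

variable {X : Type} [MetricSpace X] [CompactSpace X] {p : X} {g : ℕ → Om → X} {τ : X → ℝ}

theorem Mod.pos (m : Mod p g τ) (t : ℕ) (ω : Om) : 0 < τ (g t ω) := by
  rw [m.tg]
  have := ω.2.2.1
  positivity

theorem Mod.ne (m : Mod p g τ) (t : ℕ) (ω : Om) : g t ω ≠ p := fun h => by
  have := m.pos t ω
  rw [h, m.tp] at this
  exact lt_irrefl _ this

theorem Mod.pos' (m : Mod p g τ) {z : X} (h : z ≠ p) : 0 < τ z := by
  obtain ⟨t, ω, rfl⟩ := m.cov z h
  exact m.pos t ω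

theorem Mod.le_iff (m : Mod p g τ) (t : ℕ) (ω : Om) (n : ℕ) :
    τ (g t ω) ≤ 1 / (n + 1) ↔ (n : ℝ) ≤ t + ω.2 := by
  have := ω.2.2.1
  rw [m.tg, one_div_le_one_div (by positivity) (by positivity)]
  simp

theorem Mod.ge_iff (m : Mod p g τ) (t : ℕ) (ω : Om) (n : ℕ) :
    1 / (n + 1) ≤ τ (g t ω) ↔ (t : ℝ) + ω.2 ≤ n := by
  have := ω.2.2.1
  rw [m.tg, one_div_le_one_div (by positivity) (by positivity)]
  simp

theorem Mod.le (m : Mod p g τ) {t n : ℕ} (h : n ≤ t) (ω : Om) : τ (g t ω) ≤ 1 / (n + 1) := by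
  have := ω.2.2.1
  have h' : (n : ℝ) ≤ t := by exact_mod_cast h
  exact (m.le_iff t ω n).2 (by linarith)

theorem Mod.time (m : Mod p g τ) {t t' : ℕ} {ω ω' : Om} (h : g t ω = g t' ω') :
    (t : ℝ) + ω.2 = t' + ω'.2 := by
  have := congrArg τ h
  rw [m.tg, m.tg, one_div, one_div, inv_inj] at this
  linarith

theorem Mod.mem (m : Mod p g τ) {z : X} (h : z ≠ p) {n : ℕ} (hz : τ z ≤ 1 / (n + 1)) :
    ∃ t ≥ n, ∃ ω, z = g t ω := by
  obtain ⟨t, ⟨q, s⟩, rfl⟩ := m.cov z h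
  rw [m.le_iff] at hz
  rcases le_or_gt n t with k | k
  · exact ⟨t, k, _, rfl⟩
  · have h1 : (t : ℝ) + 1 ≤ n := by exact_mod_cast k
    have h2 := s.2.2
    have h3 : s = 1 := Subtype.ext (show (s : ℝ) = 1 by simp only at hz; linarith)
    subst h3
    refine ⟨t + 1, ?_, _, m.z1 t q false⟩
    have : (n : ℝ) ≤ t + 1 := by simpa using hz
    exact_mod_cast this

theorem Mod.nb (m : Mod p g τ) {O : Set X} (hO : IsOpen O) (hp : p ∈ O) :
    ∃ n : ℕ, ∀ z, τ z ≤ 1 / (n + 1) → z ∈ O := by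
  rcases Oᶜ.eq_empty_or_nonempty with h | h
  · exact ⟨0, fun z _ => by_contra fun k => (h ▸ k : z ∈ (∅ : Set X))⟩
  · obtain ⟨w, hw, hm⟩ := hO.isClosed_compl.isCompact.exists_isMinOn h m.tc.continuousOn
    obtain ⟨n, hn⟩ := exists_nat_one_div_lt (m.pos' (z := w) fun e => hw (e ▸ hp))
    exact ⟨n, fun z hz => by_contra fun k => absurd (hm k) (not_le.2 (hz.trans_lt hn))⟩

theorem Mod.arc (m : Mod p g τ) (t : ℕ) (q : C × Bool) :
    IsPreconnected (range fun s => g t (q, s)) :=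
  isPreconnected_range ((m.gc t).comp (continuous_const.prodMk continuous_id))

theorem Mod.conn (m : Mod p g τ) (n : ℕ) :
    IsPreconnected {z | z ≠ p ∧ τ z ≤ 1 / (n + 1)} := by
  rw [isPreconnected_iff_subset_of_disjoint_closed]
  intro u v hu hv h1 h2
  rw [eq_empty_iff_forall_notMem] at h2
  have k1 : ∀ t ≥ n, ∀ ω, g t ω ∈ u ∨ g t ω ∈ v := fun t ht ω => h1 ⟨m.ne t ω, m.le ht ω⟩
  have k2 : ∀ t ≥ n, ∀ ω, g t ω ∈ u → g t ω ∉ v := fun t ht ω a b =>
    h2 _ ⟨⟨m.ne t ω, m.le ht ω⟩, a, b⟩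
  have k3 : ∀ (t : ℕ), t ≥ n → ∀ {A : Type} [TopologicalSpace A] {f : A → Om}, Continuous f →
      IsClopen {x | g t (f x) ∈ u} := by
    intro t ht A _ f hf
    refine ⟨hu.preimage ((m.gc t).comp hf), isClosed_compl_iff.1 ?_⟩
    have : {x | g t (f x) ∈ u}ᶜ = {x | g t (f x) ∈ v} := Set.ext fun x =>
      ⟨fun a => (k1 t ht _).resolve_left a, fun a b => k2 t ht _ b a⟩
    rw [this]
    exact hv.preimage ((m.gc t).comp hf)
  have k4 : ∀ t ≥ n, ∀ q s, g t (q, s) ∈ u ↔ g t ((q.1, false), 0) ∈ u := by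
    intro t ht q s
    rw [m.z0 t q.1 false q.2]
    rcases isClopen_iff.1 (k3 t ht (f := fun s : I => (q, s)) (by fun_prop)) with e | e
    · exact iff_of_false (eq_empty_iff_forall_notMem.1 e s) (eq_empty_iff_forall_notMem.1 e 0)
    · exact iff_of_true (eq_univ_iff_forall.1 e s) (eq_univ_iff_forall.1 e 0)
  have k5 := triv (a := fun t => {x | g t ((x, false), 0) ∈ u}) (n := n)
    (fun t ht => k3 t ht (f := fun x : C => ((x, false), 0)) (by fun_prop))
    fun t ht q => by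
      have := k4 t ht q 1
      rw [m.z1 t q false] at this
      exact this.symm
  by_cases h : g n ((fun _ => false, false), 0) ∈ u
  · refine Or.inl fun z hz => ?_
    obtain ⟨t, ht, ⟨q, s⟩, rfl⟩ := m.mem hz.1 hz.2
    exact (k4 t ht q s).2 ((k5 t ht _ _).2 h)
  · refine Or.inr fun z hz => ?_
    obtain ⟨t, ht, ⟨q, s⟩, rfl⟩ := m.mem hz.1 hz.2
    exact (k1 t ht _).resolve_left fun k => h ((k5 t ht _ _).1 ((k4 t ht q s).1 k))

theorem Mod.conn' (m : Mod p g τ) (n : ℕ) : IsPreconnected {z | τ z ≤ 1 / (n + 1)} := by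
  refine (m.conn n).subset_closure (fun z hz => hz.2) fun z hz => ?_
  by_cases h : z = p
  · subst h
    refine mem_closure_iff.2 fun O hO hp => ?_
    obtain ⟨k, hk⟩ := m.nb hO hp
    exact ⟨g (n + k) ((fun _ => false, false), 0), hk _ (m.le (by omega) _), m.ne _ _,
      m.le (by omega) _⟩
  · exact subset_closure ⟨h, hz⟩

theorem Mod.connected (m : Mod p g τ) : ConnectedSpace X := by
  have := m.conn' 0
  have e : {z | τ z ≤ 1 / (((0 : ℕ) : ℝ) + 1)} = univ := eq_univ_of_forall fun z => by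
    by_cases h : z = p
    · simp [h, m.tp]
    · obtain ⟨t, ω, rfl⟩ := m.cov z h
      exact m.le (Nat.zero_le t) ω
  rw [e] at this
  exact connectedSpace_iff_univ.2 ⟨⟨p, trivial⟩, this⟩

theorem Mod.noirr (m : Mod p g τ) {M K : Set X} {q : X} (hM : IsCompact M) (hp : p ∉ M)
    (hK : IsCompact K) (hc : IsConnected K) (hq : q ∈ K) (hpK : p ∈ K)
    (hi : ∀ L, IsCompact L → IsConnected L → L ⊆ K → q ∈ L → p ∈ L → L = K)
    (hMK : M ∪ K = univ) : False := by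
  obtain ⟨n, hn1, hn2⟩ : ∃ n : ℕ, (∀ z, τ z ≤ 1 / (n + 1) → z ∈ K) ∧
      (q = p ∨ 1 / (n + 1) ≤ τ q) := by
    obtain ⟨n, hn⟩ := m.nb hM.isClosed.isOpen_compl hp
    have h1 : ∀ k : ℕ, ∀ z, τ z ≤ 1 / ((n + k : ℕ) + 1) → z ∈ K := fun k z hz =>
      (eq_univ_iff_forall.1 hMK z).resolve_left
        (hn z (hz.trans (Nat.one_div_le_one_div (by omega))))
    by_cases h : q = p
    · exact ⟨n + 0, h1 0, Or.inl h⟩
    · obtain ⟨k, hk⟩ := exists_nat_one_div_lt (m.pos' h)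
      exact ⟨n + k, h1 k, Or.inr ((Nat.one_div_le_one_div (by omega)).trans hk.le)⟩
  set D : Set X := range (g n) ∪ g (n + 1) '' {ω | ω.1.1 ∈ range en} ∪
    {z | τ z ≤ 1 / ((n + 2 : ℕ) + 1)} with hD
  have pD : p ∈ {z | τ z ≤ 1 / (((n + 2 : ℕ) : ℝ) + 1)} := by
    simp only [mem_ofPred_eq, m.tp]
    positivity
  have Dc : IsClosed D := ((isCompact_range (m.gc n)).isClosed.union
    (((isCompact_range en_cont).isClosed.preimage (by fun_prop)).isCompact.image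
      (m.gc _)).isClosed).union (isClosed_le m.tc continuous_const)
  have Dn : ∀ z ∈ D, τ z ≤ 1 / (n + 1) := by
    rintro z ((⟨ω, rfl⟩ | ⟨ω, -, rfl⟩) | h)
    · exact m.le le_rfl ω
    · exact m.le (by omega) ω
    · exact le_trans h (Nat.one_div_le_one_div (by omega))
  have a2 : ∀ q : C × Bool, IsPreconnected ((range fun s => g (n + 1) (q, s)) ∪
      {z | τ z ≤ 1 / ((n + 2 : ℕ) + 1)}) := fun q =>
    (m.arc (n + 1) q).union (g (n + 1) (q, 1)) ⟨1, rfl⟩
      (by rw [m.z1 _ _ false]; exact m.le le_rfl _) (m.conn' (n + 2))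
  have a3 : ∀ q : C × Bool, q.1 ∈ range en → ((range fun s => g (n + 1) (q, s)) ∪
      {z | τ z ≤ 1 / ((n + 2 : ℕ) + 1)}) ⊆ D := by
    rintro q hq z (⟨s, rfl⟩ | h)
    · exact Or.inl (Or.inr ⟨_, hq, rfl⟩)
    · exact Or.inr h
  have Dp : IsPreconnected D := by
    refine isPreconnected_of_forall p ?_
    rintro z ((⟨⟨q, s⟩, rfl⟩ | ⟨⟨q, s⟩, hq, rfl⟩) | h)
    · refine ⟨(range fun s => g n (q, s)) ∪ _, union_subset ?_ (a3 (en q, false) ⟨q, rfl⟩),
        Or.inr (Or.inr pD), Or.inl ⟨s, rfl⟩, (m.arc n q).union (g n (q, 1)) ⟨1, rfl⟩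
          (Or.inl ⟨0, (m.z1 n q false).symm⟩) (a2 _)⟩
      rintro _ ⟨s, rfl⟩
      exact Or.inl (Or.inl ⟨_, rfl⟩)
    · exact ⟨_, a3 q hq, Or.inr pD, Or.inl ⟨s, rfl⟩, a2 q⟩
    · exact ⟨_, subset_union_right, pD, h, m.conn' (n + 2)⟩
  have bd : ∀ z, τ z ≤ 1 / (n + 1) → 1 / (n + 1) ≤ τ z → z ∈ D := by
    intro z h1 h2
    have hz : z ≠ p := by
      rintro rfl
      rw [m.tp] at h2
      exact absurd h2 (not_le.2 (by positivity))
    obtain ⟨t, ht, ω, rfl⟩ := m.mem hz h1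
    rw [m.ge_iff] at h2
    have h3 := ω.2.2.1
    have h4 : (t : ℝ) ≤ n := by linarith
    obtain rfl : t = n := le_antisymm (by exact_mod_cast h4) ht
    exact Or.inl (Or.inl ⟨_, rfl⟩)
  set L : Set X := (K ∩ {z | 1 / (n + 1) ≤ τ z}) ∪ D with hL
  have Lc : IsClosed L := (hK.isClosed.inter (isClosed_le continuous_const m.tc)).union Dc
  have Lp : IsPreconnected L := by
    rw [isPreconnected_iff_subset_of_disjoint_closed]
    have key : ∀ u v : Set X, IsClosed u → IsClosed v → L ⊆ u ∪ v → L ∩ (u ∩ v) = ∅ → D ⊆ u →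
        L ⊆ u := by
      intro u v hu hv h1 h2 h3
      rw [eq_empty_iff_forall_notMem] at h2
      have h4 : ∀ z ∈ L, τ z ≤ 1 / (n + 1) → z ∈ u := by
        rintro z (hz | hz) h
        · exact h3 (bd z h hz.2)
        · exact h3 hz
      rcases isPreconnected_iff_subset_of_disjoint_closed.1 hc.2
        (u ∪ {z | τ z ≤ 1 / (n + 1)}) (v ∩ L) (hu.union (isClosed_le m.tc continuous_const))
        (hv.inter Lc) (fun z hz => by
          rcases le_total (τ z) (1 / (n + 1)) with k | k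
          · exact Or.inl (Or.inr k)
          · rcases h1 (Or.inl ⟨hz, k⟩) with k' | k'
            · exact Or.inl (Or.inl k')
            · exact Or.inr ⟨k', Or.inl ⟨hz, k⟩⟩) (eq_empty_iff_forall_notMem.2 (by
          rintro z ⟨-, k | k, k1, k2⟩
          · exact h2 z ⟨k2, k, k1⟩
          · exact h2 z ⟨k2, h4 z k2 k, k1⟩)) with h | h
      · rintro z (hz | hz)
        · exact (h hz.1).elim id (h4 z (Or.inl hz))
        · exact h3 hz
      · exact (h2 p ⟨(h hpK).2, h3 (Or.inr pD), (h hpK).1⟩).elim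
    intro u v hu hv h1 h2
    rcases isPreconnected_iff_subset_of_disjoint_closed.1 Dp u v hu hv
      (subset_union_right.trans h1) (by
        rw [eq_empty_iff_forall_notMem] at h2 ⊢
        exact fun z hz => h2 z ⟨Or.inr hz.1, hz.2⟩) with h | h
    · exact Or.inl (key u v hu hv h1 h2 h)
    · exact Or.inr (key v u hv hu (by rwa [union_comm v]) (by rwa [inter_comm v]) h)
  have e := hi L Lc.isCompact ⟨⟨p, Or.inr (Or.inr pD)⟩, Lp⟩
    (union_subset inter_subset_left fun z hz => hn1 z (Dn z hz))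
    (hn2.elim (fun h => h ▸ Or.inr (Or.inr pD)) fun h => Or.inl ⟨hq, h⟩) (Or.inr (Or.inr pD))
  have hv : pt (fun _ => false) 0 false ∉ range en := by
    rintro ⟨q, h⟩
    exact pt_cd (fun _ => false) 0 false q.2 (ps q.1 q.2)
      (Eventually.of_forall fun i => congrFun h.symm i)
  have hz : g (n + 1) ((pt (fun _ => false) 0 false, false), 0) ∈ L :=
    e ▸ hn1 _ (m.le (by omega) _)
  rcases hz with h | (⟨⟨q, s⟩, h⟩ | ⟨⟨q, s⟩, hq, h⟩) | h
  · have := (m.ge_iff _ _ _).1 h.2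
    simp at this
    linarith
  · have := m.time h
    obtain rfl : s = 1 := Subtype.ext (by simpa using this)
    rw [m.z1 n q false] at h
    exact hv ⟨q, (m.inj _ _ _ _ h).1 zero_lt_one⟩
  · have := m.time h
    obtain rfl : s = 0 := Subtype.ext (by simpa using this)
    have e' : q.1 = pt (fun _ => false) 0 false := (m.inj _ _ _ _ h).1 zero_lt_one
    exact hv (e' ▸ hq)
  · have := (m.le_iff _ _ _).1 h
    simp at this

end Pool.Agent.H71.Bel
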