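import Pool.Agent.H71.Bel3

set_option autoImplicit false

namespace Pool.Agent.H71.Bel

open Set Filter Topology Function unitInterval

theorem inter_conn {E : Type} [TopologicalSpace E] [CompactSpace E] [T2Space E] {S : ℕ → Set E}
    (ha : Antitone S) (hc : ∀ n, IsClosed (S n)) (hp : ∀ n, IsPreconnected (S n)) :
    IsPreconnected (⋂ n, S n) := by
  rw [isPreconnected_iff_subset_of_disjoint_closed]
  intro u v hu hv h1 h2
  have hR := isClosed_iInter hc
  obtain ⟨U, V, hU, hV, k1, k2, k3⟩ := normal_separation (hR.inter hu) (hR.inter hv)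
    (disjoint_left.2 fun z a b => eq_empty_iff_forall_notMem.1 h2 z ⟨a.1, a.2, b.2⟩)
  obtain ⟨n, hn⟩ := exists_subset_nhds_of_compactSpace (V := S) (U := U ∪ V)
    (directed_of_isDirected_le ha) hc fun z hz => (hU.union hV).mem_nhds
      ((h1 hz).elim (fun a => Or.inl (k1 ⟨hz, a⟩)) fun a => Or.inr (k2 ⟨hz, a⟩))
  rcases (hp n).subset_or_subset hU hV k3 hn with h | h
  · exact Or.inl fun z hz => (h1 hz).resolve_right fun a =>
      disjoint_left.1 k3 (h (mem_iInter.1 hz n)) (k2 ⟨hz, a⟩)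
  · exact Or.inr fun z hz => (h1 hz).resolve_left fun a =>
      disjoint_left.1 k3 (k1 ⟨hz, a⟩) (h (mem_iInter.1 hz n))

theorem pick {W U : Set Om} (hW : IsOpen W) (hU : IsOpen U) :
    ∃ (J : Set (C × Bool)) (u : Set C) (l r : ℝ) (b : Bool) (s : I), IsOpen J ∧ IsOpen u ∧
      u.Nonempty ∧ l < r ∧ l < 1 ∧ 0 < r ∧
      (∀ q ∈ J, ∀ s' : I, l < s' → s' < r → (q, s') ∈ W) ∧ (W.Nonempty → J.Nonempty) ∧
      (U.Nonempty → ∀ x ∈ u, ((x, b), s) ∈ U) ∧ ∀ x ∈ u, (x, b) ∉ J := by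
  obtain ⟨u, b, s, u1, u2, u3⟩ : ∃ (u : Set C) (b : Bool) (s : I), IsOpen u ∧ u.Nonempty ∧
      (U.Nonempty → ∀ x ∈ u, ((x, b), s) ∈ U) := by
    rcases U.eq_empty_or_nonempty with rfl | ⟨⟨⟨x, b⟩, s⟩, h⟩
    · exact ⟨univ, false, 0, isOpen_univ, univ_nonempty, fun h => h.ne_empty rfl |>.elim⟩
    · exact ⟨{x | ((x, b), s) ∈ U}, b, s, hU.preimage (by fun_prop), ⟨x, h⟩, fun _ _ k => k⟩
  rcases W.eq_empty_or_nonempty with rfl | ⟨⟨q, s0⟩, h⟩
  · exact ⟨∅, u, 0, 1, b, s, isOpen_empty, u1, u2, one_pos, one_pos, one_pos,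
      fun _ h => h.elim, fun h => h.ne_empty rfl |>.elim, u3, fun _ _ h => h⟩
  · obtain ⟨J, V, hJ, hV, hq, hs, hJV⟩ := isOpen_prod_iff.1 hW q s0 h
    obtain ⟨ε, hε, hb⟩ := Metric.isOpen_iff.1 hV s0 hs
    obtain ⟨y, hy, hyq⟩ : ∃ y ∈ u, q.1 ≠ y := by
      obtain ⟨w, m, hw⟩ := pt_mem u1 u2
      by_contra hn
      push Not at hn
      exact pt_pt w m (Eventually.of_forall fun i =>
        congrFun ((hn _ (hw false)).symm.trans (hn _ (hw true))) i)
    obtain ⟨V1, V2, v1, v2, v3, v4, v5⟩ := t2_separation hyq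
    have h0 := s0.2.1
    have h1 := s0.2.2
    refine ⟨J ∩ Prod.fst ⁻¹' V1, u ∩ V2, s0 - ε, s0 + ε, b, s,
      hJ.inter (v1.preimage continuous_fst), u1.inter v2, ⟨y, hy, v4⟩, by linarith, by linarith,
      by linarith, fun q' hq' s' a c => hJV ⟨hq'.1, hb ?_⟩, fun _ => ⟨q, hq, v3⟩,
      fun k x hx => u3 k x hx.1, fun x hx k => disjoint_left.1 v5 k.2 hx.2⟩
    rw [Metric.mem_ball, Subtype.dist_eq, Real.dist_eq, abs_lt]
    constructor <;> linarith

def SS (a : ℕ → Set C) (l r : ℕ → ℝ) (t : ℕ) : Set Om :=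
  {ω | ((ω.2 : ℝ) ≤ l t ∧ ω.1.1 ∈ a t) ∨ (r t ≤ ω.2 ∧ en ω.1 ∈ a (t + 1)) ∨
    (ω.1.1 ∈ a t ∧ en ω.1 ∈ a (t + 1))}

theorem SS_closed {a : ℕ → Set C} (ha : ∀ t, IsClosed (a t)) (l r : ℕ → ℝ) (t : ℕ) :
    IsClosed (SS a l r t) := by
  have h1 : IsClosed {ω : Om | ω.1.1 ∈ a t} := (ha t).preimage (by fun_prop)
  have h2 : IsClosed {ω : Om | en ω.1 ∈ a (t + 1)} :=
    (ha _).preimage (en_cont.comp continuous_fst)
  have h3 : Continuous fun ω : Om => (ω.2 : ℝ) := by fun_prop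
  exact ((isClosed_le h3 continuous_const).inter h1).union
    (((isClosed_le continuous_const h3).inter h2).union (h1.inter h2))

variable {X : Type} [MetricSpace X] [CompactSpace X] {p : X} {g : ℕ → Om → X} {τ : X → ℝ}

theorem Mod.dis (m : Mod p g τ) {a b : ℕ → Set C} {l r : ℕ → ℝ} (hab : ∀ t x, x ∈ a t → x ∉ b t)
    (h1 : ∀ t, l t < r t) (h2 : ∀ t, l t < 1) (h3 : ∀ t, 0 < r t) {t t' : ℕ} {ω ω' : Om}
    (ha : ω ∈ SS a l r t) (hb : ω' ∈ SS b l r t') (ht : t' ≤ t) : g t ω ≠ g t' ω' := by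
  have z : ∀ (a : ℕ → Set C) t q, (q, 0) ∈ SS a l r t → q.1 ∈ a t := by
    rintro a t q (h | h | h)
    · exact h.2
    · exact absurd h.1 (not_le.2 (h3 t))
    · exact h.1
  have o : ∀ (a : ℕ → Set C) t q, (q, 1) ∈ SS a l r t → en q ∈ a (t + 1) := by
    rintro a t q (h | h | h)
    · exact absurd h.1 (not_le.2 (h2 t))
    · exact h.2
    · exact h.2
  intro h
  obtain ⟨q, s⟩ := ω
  obtain ⟨q', s'⟩ := ω'
  have e := m.time h
  simp only at e
  rcases ht.eq_or_lt with rfl | ht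
  · obtain rfl : s = s' := Subtype.ext (by linarith)
    obtain ⟨i1, i2, i3⟩ := m.inj _ _ _ _ h
    by_cases k0 : s = 0
    · subst k0
      exact hab _ _ (z a _ _ ha) (i1 zero_lt_one ▸ z b _ _ hb)
    by_cases k1 : s = 1
    · subst k1
      exact hab _ _ (o a _ _ ha) (i2 zero_lt_one ▸ o b _ _ hb)
    obtain rfl := i3 (unitInterval.pos_iff_ne_zero.2 k0) (unitInterval.lt_one_iff_ne_one.2 k1)
    have := h1 t'
    rcases ha with ha | ha | ha <;> rcases hb with hb | hb | hb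
    all_goals first
      | exact hab _ _ ha.2 hb.2
      | exact hab _ _ ha.2 hb.1
      | exact hab _ _ ha.1 hb.2
      | linarith [ha.1, hb.1]
  · have k : (t' : ℝ) + 1 ≤ t := by exact_mod_cast ht
    have k1 := s.2.1
    have k2 := s'.2.2
    obtain rfl : s = 0 := Subtype.ext (show (s : ℝ) = 0 by linarith)
    obtain rfl : s' = 1 := Subtype.ext (show (s' : ℝ) = 1 by linarith)
    obtain rfl : t = t' + 1 := by
      have : (t : ℝ) = t' + 1 := by simpa using e
      exact_mod_cast this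
    rw [m.z1 t' q' false] at h
    have e' : q.1 = en q' := (m.inj _ _ _ _ h).1 zero_lt_one
    exact hab _ _ (z a _ _ ha) (e' ▸ o b _ _ hb)

theorem Mod.rem (m : Mod p g τ) :
    let R := (range (stoneCechUnit : {x // x ≠ p} → StoneCech {x // x ≠ p}))ᶜ
    IsCompact R ∧ IsConnected R ∧ ¬ ∃ A B, IsCompact A ∧ IsConnected A ∧ A ⊂ R ∧
      IsCompact B ∧ IsConnected B ∧ B ⊂ R ∧ A ∪ B = R := by
  intro R
  set υ : {x // x ≠ p} → StoneCech {x // x ≠ p} := stoneCechUnit with hυ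
  have uc : Continuous υ := continuous_stoneCechUnit
  have ud : DenseRange υ := denseRange_stoneCechUnit
  have dens : ∀ O, IsOpen O → O ⊆ closure (υ '' (υ ⁻¹' O)) := fun O hO => by
    rw [image_preimage_eq_inter_range]
    exact Dense.open_subset_closure_inter ud hO
  let π : StoneCech {x // x ≠ p} → X := stoneCechExtend continuous_subtype_val
  have πc : Continuous π := continuous_stoneCechExtend _
  have πu : ∀ y, π (υ y) = y := fun y => stoneCechExtend_stoneCechUnit _ y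
  let Y : ℕ → Set {x // x ≠ p} := fun n => {y | τ y ≤ 1 / (n + 1)}
  let S : ℕ → Set (StoneCech {x // x ≠ p}) := fun n => closure (υ '' Y n)
  have Ya : Antitone Y := fun i j h y hy =>
    show τ y ≤ 1 / (i + 1) from le_trans (show τ y ≤ 1 / (j + 1) from hy) (Nat.one_div_le_one_div h)
  have r1 : ∀ z ∈ R, π z = p := by
    intro z hz
    by_contra h
    have h0 := m.pos' h
    have k : IsCompact {y : {x // x ≠ p} | τ (π z) / 2 ≤ τ y} := by
      rw [Subtype.isCompact_iff]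
      refine IsClosed.isCompact ?_
      have : Subtype.val '' {y : {x // x ≠ p} | τ (π z) / 2 ≤ τ y} = {y | τ (π z) / 2 ≤ τ y} := by
        ext y
        constructor
        · rintro ⟨y, hy, rfl⟩
          exact hy
        · intro hy
          refine ⟨⟨y, ?_⟩, hy, rfl⟩
          rintro rfl
          simp only [mem_ofPred_eq, m.tp] at hy
          linarith
      rw [this]
      exact isClosed_le continuous_const m.tc
    obtain ⟨y, -, hy⟩ := closure_minimal (image_mono fun y hy => by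
        simp only [mem_preimage, mem_ofPred_eq, πu] at hy
        exact hy.le) (k.image uc).isClosed
      (dens {w | τ (π z) / 2 < τ (π w)} (isOpen_lt continuous_const (m.tc.comp πc))
        (show τ (π z) / 2 < τ (π z) by linarith))
    exact hz ⟨y, hy⟩
  have RS : R = ⋂ n, S n := by
    refine Subset.antisymm (fun z hz => mem_iInter.2 fun n => ?_) ?_
    · refine closure_mono (image_mono fun y hy => ?_) (dens {w | τ (π w) < 1 / (n + 1)}
        (isOpen_lt (m.tc.comp πc) continuous_const) (show τ (π z) < _ by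
          rw [r1 z hz, m.tp]; positivity))
      simp only [mem_preimage, mem_ofPred_eq, πu] at hy
      exact hy.le
    · rintro z hz ⟨y, rfl⟩
      obtain ⟨n, hn⟩ := exists_nat_one_div_lt (m.pos' y.2)
      have : υ y ∈ {w | τ (π w) ≤ 1 / (n + 1)} :=
        closure_minimal (by
          rintro _ ⟨w, hw, rfl⟩
          show τ (π (υ w)) ≤ _
          rw [πu]
          exact hw)
          (isClosed_le (m.tc.comp πc) continuous_const) (mem_iInter.1 hz n)
      simp only [mem_ofPred_eq, πu] at this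
      linarith
  let G : ℕ → Om → {x // x ≠ p} := fun t ω => ⟨g t ω, m.ne t ω⟩
  have Gc : ∀ t, Continuous (G t) := fun t => (m.gc t).subtype_mk _
  have clus : ∀ F : Set {x // x ≠ p}, (∀ n, (F ∩ Y n).Nonempty) →
      ∃ z ∈ R, z ∈ closure (υ '' F) := by
    intro F hF
    obtain ⟨z, hz⟩ := IsCompact.nonempty_iInter_of_sequence_nonempty_isCompact_isClosed
      (fun n => closure (υ '' (F ∩ Y n)))
      (fun n => closure_mono (image_mono (inter_subset_inter_right _ (Ya (Nat.le_succ n)))))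
      (fun n => ((hF n).image _).closure) isClosed_closure.isCompact fun _ => isClosed_closure
    rw [mem_iInter] at hz
    exact ⟨z, RS ▸ mem_iInter.2 fun n => closure_mono (image_mono inter_subset_right) (hz n),
      closure_mono (image_mono inter_subset_left) (hz 0)⟩
  have hit : ∀ O, IsOpen O → ∀ z ∈ R, z ∈ O → ∀ n, ∃ j, ((υ ∘ G (n + j)) ⁻¹' O).Nonempty := by
    intro O hO z hz hzO n
    obtain ⟨_, h1, y, h2, rfl⟩ := mem_closure_iff.1 (mem_iInter.1 (RS ▸ hz) n) O hO hzO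
    obtain ⟨t, ht, ω, e⟩ := m.mem y.2 h2
    obtain ⟨j, rfl⟩ := Nat.exists_eq_add_of_le ht
    exact ⟨j, ω, by
      have : G (n + j) ω = y := Subtype.ext e.symm
      simpa only [mem_preimage, comp, this] using h1⟩
  have Rc : IsClosed R := RS ▸ isClosed_iInter fun _ => isClosed_closure
  refine ⟨Rc.isCompact, ⟨?_, ?_⟩, ?_⟩
  · obtain ⟨z, hz, -⟩ := clus univ fun n =>
      ⟨G n ((fun _ => false, false), 0), trivial, m.le le_rfl _⟩
    exact ⟨z, hz⟩
  · rw [RS]
    refine inter_conn (fun i j h => closure_mono (image_mono (Ya h)))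
      (fun _ => isClosed_closure) fun n => (IsPreconnected.image ?_ _ uc.continuousOn).closure
    rw [← IsInducing.subtypeVal.isPreconnected_image]
    convert m.conn n using 1
    ext y
    exact ⟨by rintro ⟨y, hy, rfl⟩; exact ⟨y.2, hy⟩, fun hy => ⟨⟨y, hy.1⟩, hy.2, rfl⟩⟩
  rintro ⟨A, B, hA, hAc, hAR, hB, -, hBR, hAB⟩
  obtain ⟨zW, w1, w2⟩ := exists_of_ssubset hAR
  obtain ⟨zU, u1, u2⟩ := exists_of_ssubset hBR
  obtain ⟨OW, w3, w4, w5⟩ := normal_exists_closure_subset isClosed_singleton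
    hA.isClosed.isOpen_compl (singleton_subset_iff.2 w2)
  obtain ⟨OU, u3, u4, u5⟩ := normal_exists_closure_subset isClosed_singleton
    hB.isClosed.isOpen_compl (singleton_subset_iff.2 u2)
  choose J u l r b s j1 j2 j3 j4 j5 j6 j7 j8 j9 j10 using fun t =>
    pick (w3.preimage (uc.comp (Gc t))) (u3.preimage (uc.comp (Gc t)))
  obtain ⟨a, a1, a2, a3⟩ := frag j1 (fun t => by
    obtain ⟨j, hj⟩ := hit OW w3 zW w1 (w4 rfl) t
    exact ⟨j, j8 _ hj⟩) j2 j3
  let F : (ℕ → Set C) → Set {x // x ≠ p} := fun c => Subtype.val ⁻¹' ⋃ t, g t '' SS c l r t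
  have Fc : ∀ c : ℕ → Set C, (∀ t, IsClosed (c t)) → IsClosed (F c) := by
    intro c hc
    refine isClosed_of_closure_subset fun y hy => lf m.tc
      (fun t => ((SS_closed hc l r t).isCompact.image (m.gc t)).isClosed) ?_
      (map_mem_closure continuous_subtype_val hy fun _ h => h) (m.pos' y.2)
    rintro t _ ⟨ω, -, rfl⟩
    exact m.le le_rfl ω
  have Fm : ∀ (c : ℕ → Set C) t ω, ω ∈ SS c l r t → G t ω ∈ F c := fun c t ω h =>
    mem_iUnion.2 ⟨t, ω, h, rfl⟩
  have Fd : Disjoint (F a) (F fun t => (a t)ᶜ) := by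
    rw [disjoint_left]
    intro y h1 h2
    obtain ⟨t, ω, k1, e1⟩ := mem_iUnion.1 h1
    obtain ⟨t', ω', k2, e2⟩ := mem_iUnion.1 h2
    rcases le_total t' t with k | k
    · exact m.dis (a := a) (b := fun t => (a t)ᶜ) (fun _ _ h h' => h' h) j4 j5 j6 k1 k2 k
        (e1.trans e2.symm)
    · exact m.dis (b := a) (a := fun t => (a t)ᶜ) (fun _ _ h h' => h h') j4 j5 j6 k2 k1 k
        (e2.trans e1.symm)
  obtain ⟨f, f0, f1, f2⟩ := exists_continuous_zero_one_of_isClosed (Fc a fun t => (a1 t).1)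
    (Fc _ fun t => (a1 t).2.isClosed_compl) Fd
  have fc : Continuous fun y => (⟨f y, f2 y⟩ : I) := f.continuous.subtype_mk _
  have e0 : ∀ (T : Set {x // x ≠ p}) (c : ℝ), (∀ y ∈ T, f y = c) →
      ∀ z ∈ closure (υ '' T), ((stoneCechExtend fc z : I) : ℝ) = c := by
    intro T c hT
    refine closure_minimal ?_ (isClosed_eq (continuous_subtype_val.comp
      (continuous_stoneCechExtend fc)) continuous_const)
    rintro _ ⟨y, hy, rfl⟩
    show ((stoneCechExtend fc (stoneCechUnit y) : I) : ℝ) = c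
    rw [stoneCechExtend_stoneCechUnit]
    exact hT y hy
  have meet : ∀ c : ℕ → Set C, (∀ t q, q ∉ J t → (q.1 ∈ c t ↔ en q ∈ c (t + 1))) →
      (∀ t, (u (t + 1) ∩ c (t + 1)).Nonempty) → (A ∩ closure (υ '' F c)).Nonempty := by
    intro c h1 h2
    obtain ⟨z, z1, z2⟩ := clus (F c ∩ υ ⁻¹' OU) fun n => by
      obtain ⟨j, hj⟩ := hit OU u3 zU u1 (u4 rfl) (n + 1)
      obtain ⟨x, x1, x2⟩ := h2 (n + j)
      rw [show n + 1 + j = n + j + 1 by omega] at hj
      exact ⟨G (n + j + 1) ((x, b _), s _), ⟨Fm c _ _ (Or.inr (Or.inr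
        ⟨x2, (h1 _ _ (j10 _ x x1)).1 x2⟩)), j9 _ hj x x1⟩, m.le (by omega) _⟩
    refine ⟨z, ((hAB ▸ z1 : z ∈ A ∪ B)).resolve_right (u5 ?_),
      closure_mono (image_mono inter_subset_left) z2⟩
    exact closure_mono ((image_mono inter_subset_right).trans (image_preimage_subset _ _)) z2
  obtain ⟨z, -, z1, z2⟩ := isPreconnected_closed_iff.1 hAc.2 (closure (υ '' F a))
    (closure (υ '' F fun t => (a t)ᶜ)) isClosed_closure isClosed_closure (by
      intro z hz
      rw [← closure_union, ← image_union]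
      refine closure_mono (image_mono fun y hy => ?_) (dens (closure OW)ᶜ
        isClosed_closure.isOpen_compl fun k => w5 k hz)
      obtain ⟨t, ⟨q, s'⟩, e⟩ := m.cov y y.2
      obtain rfl : y = G t (q, s') := Subtype.ext e
      by_cases hq : q ∈ J t
      · rcases le_or_gt (s' : ℝ) (l t) with k | k
        · by_cases h : q.1 ∈ a t
          · exact Or.inl (Fm _ _ _ (Or.inl ⟨k, h⟩))
          · exact Or.inr (Fm _ _ _ (Or.inl ⟨k, h⟩))
        rcases le_or_gt (r t) (s' : ℝ) with k' | k'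
        · by_cases h : en q ∈ a (t + 1)
          · exact Or.inl (Fm _ _ _ (Or.inr (Or.inl ⟨k', h⟩)))
          · exact Or.inr (Fm _ _ _ (Or.inr (Or.inl ⟨k', h⟩)))
        exact (hy (subset_closure (j7 t q hq s' k k'))).elim
      · by_cases h : q.1 ∈ a t
        · exact Or.inl (Fm _ _ _ (Or.inr (Or.inr ⟨h, (a2 t q hq).1 h⟩)))
        · exact Or.inr (Fm _ _ _ (Or.inr (Or.inr ⟨h, fun k => h ((a2 t q hq).2 k)⟩))))
    (meet a a2 fun t => (a3 t).1) (meet _ (fun t q hq => (a2 t q hq).not) fun t => (a3 t).2)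
  exact zero_ne_one ((e0 _ 0 f0 z z1).symm.trans (e0 _ 1 f1 z z2))

end Pool.Agent.H71.Bel
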