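import Pool.Agent.H71.Bel4

set_option autoImplicit false

namespace Pool.Agent.H71.Bel

open Set Filter Topology Function unitInterval

noncomputable def io (x : C) : ℝ := (cantorSetHomeomorphNatToBool.symm x : ℝ)

theorem io_cont : Continuous io :=
  continuous_subtype_val.comp cantorSetHomeomorphNatToBool.symm.continuous

theorem io_inj : Injective io :=
  Subtype.val_injective.comp cantorSetHomeomorphNatToBool.symm.injective

theorem io_mem (x : C) : io x ∈ Icc (0 : ℝ) 1 :=
  cantorSet_subset_unitInterval (cantorSetHomeomorphNatToBool.symm x).2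

def sw (t : ℕ) (a b : ℝ) : ℝ × ℝ := if t % 2 = 0 then (a, b) else (b, a)

theorem sw_succ (t : ℕ) (a b : ℝ) : sw (t + 1) a b = sw t b a := by
  unfold sw
  split_ifs <;> first | rfl | omega

theorem sw_inj {t : ℕ} {a b c d : ℝ} (h : sw t a b = sw t c d) : a = c ∧ b = d := by
  unfold sw at h
  split_ifs at h <;> simp_all

abbrev E4 : Type := ℝ × (ℝ × ℝ) × ℝ

noncomputable def G0 (t : ℕ) (ω : Om) : E4 :=
  (1, sw t ((1 - ω.2) * io ω.1.1) (ω.2 * io (en ω.1)), ω.2 * (1 - ω.2) * cond ω.1.2 1 0)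

noncomputable def G (t : ℕ) (ω : Om) : E4 := (1 / ((t : ℝ) + ω.2 + 1)) • G0 t ω

theorem G_pos (t : ℕ) (ω : Om) : 0 < (t : ℝ) + ω.2 + 1 := by
  have := ω.2.2.1
  positivity

theorem G_cont (t : ℕ) : Continuous (G t) := by
  have h1 := io_cont
  have h2 := en_cont
  have h3 : Continuous fun b : Bool => (cond b 1 0 : ℝ) := continuous_of_discreteTopology
  refine Continuous.smul (continuous_const.div (by fun_prop) fun ω => (G_pos t ω).ne') ?_
  unfold G0 sw
  refine continuous_const.prodMk (Continuous.prodMk ?_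
    (Continuous.mul (by fun_prop) (h3.comp (by fun_prop))))
  split_ifs <;> fun_prop

theorem G_fst (t : ℕ) (ω : Om) : (G t ω).1 = 1 / (t + ω.2 + 1) := by simp [G, G0]

theorem G_norm (t : ℕ) (ω : Om) : ‖G t ω‖ ≤ (G t ω).1 := by
  have h0 := G_pos t ω
  rw [G_fst, G, norm_smul, Real.norm_of_nonneg (by positivity)]
  refine mul_le_of_le_one_right (by positivity) ?_
  obtain ⟨s0, s1⟩ := ω.2.2
  obtain ⟨a0, a1⟩ := io_mem ω.1.1
  obtain ⟨b0, b1⟩ := io_mem (en ω.1)
  have e1 : ‖(1 - (ω.2 : ℝ)) * io ω.1.1‖ ≤ 1 := by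
    rw [Real.norm_of_nonneg (mul_nonneg (by linarith) a0)]
    nlinarith
  have e2 : ‖(ω.2 : ℝ) * io (en ω.1)‖ ≤ 1 := by
    rw [Real.norm_of_nonneg (mul_nonneg s0 b0)]
    nlinarith
  have e3 : ‖(ω.2 : ℝ) * (1 - ω.2) * cond ω.1.2 1 0‖ ≤ 1 := by
    cases ω.1.2
    · simp
    · simp only [cond, mul_one]
      rw [Real.norm_of_nonneg (mul_nonneg s0 (by linarith))]
      nlinarith
  unfold G0 sw
  split_ifs <;> simp only [Prod.norm_def, max_le_iff] <;> exact ⟨by simp, ⟨‹_›, ‹_›⟩, e3⟩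

def XS : Set E4 := insert 0 (⋃ t, range (G t))

theorem XS_norm : closure XS ⊆ {z | ‖z‖ ≤ z.1} := closure_minimal (by
  rintro z (rfl | hz)
  · simp
  · obtain ⟨t, ω, rfl⟩ := mem_iUnion.1 hz
    exact G_norm t ω) (isClosed_le continuous_norm continuous_fst)

theorem G_le (t : ℕ) (ω : Om) : (G t ω).1 ≤ 1 / (t + 1) := by
  have := ω.2.2.1
  rw [G_fst]
  exact one_div_le_one_div_of_le (by positivity) (by linarith)

theorem XS_compact : IsCompact XS := by
  refine (isCompact_closedBall (0 : E4) 1).of_isClosed_subset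
    (isClosed_of_closure_subset fun z hz => ?_) fun z hz => ?_
  · have h1 : ‖z‖ ≤ z.1 := XS_norm hz
    rw [XS, insert_eq, closure_union, closure_singleton] at hz
    rcases hz with hz | hz
    · exact Or.inl hz
    · by_cases h : z = 0
      · exact Or.inl h
      · refine Or.inr (lf continuous_fst (fun t => (isCompact_range (G_cont t)).isClosed) ?_ hz
          ((norm_pos_iff.2 h).trans_le h1))
        rintro t _ ⟨ω, rfl⟩
        exact G_le t ω
  · rw [mem_closedBall_zero_iff]
    refine le_trans (XS_norm (subset_closure hz)) ?_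
    rcases hz with rfl | hz
    · simp
    · obtain ⟨t, ω, rfl⟩ := mem_iUnion.1 hz
      refine (G_le t ω).trans ?_
      rw [div_le_one (by positivity)]
      have : (0 : ℝ) ≤ t := by positivity
      linarith

theorem model : Mod (X := XS) ⟨0, Or.inl rfl⟩
    (fun t ω => ⟨G t ω, Or.inr (mem_iUnion.2 ⟨t, ω, rfl⟩)⟩) fun z => z.1.1 where
  gc t := (G_cont t).subtype_mk _
  tc := by fun_prop
  tp := rfl
  tg := G_fst
  cov := by
    rintro ⟨z, rfl | hz⟩ h
    · exact (h rfl).elim
    · obtain ⟨t, ω, rfl⟩ := mem_iUnion.1 hz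
      exact ⟨t, ω, rfl⟩
  z0 t x s s' := Subtype.ext (by simp [G, G0])
  z1 t q s := Subtype.ext (by simp [G, G0, sw_succ])
  inj t q q' s h := by
    have h1 : G t (q, s) = G t (q', s) := congrArg Subtype.val h
    have h2 : G0 t (q, s) = G0 t (q', s) :=
      smul_right_injective E4 (one_div_ne_zero (G_pos t (q, s)).ne') h1
    simp only [G0, Prod.mk.injEq, true_and] at h2
    obtain ⟨h3, h4⟩ := sw_inj h2.1
    have k1 : s < 1 → q.1 = q'.1 := fun k => io_inj (mul_left_cancel₀
      (sub_ne_zero.2 (ne_of_gt (show (s : ℝ) < 1 from k))) h3)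
    refine ⟨k1, fun k => io_inj (mul_left_cancel₀ (ne_of_gt (show (0 : ℝ) < s from k)) h4),
      fun k k' => Prod.ext (k1 k') ?_⟩
    have h5 := mul_left_cancel₀ (mul_ne_zero (ne_of_gt (show (0 : ℝ) < s from k))
      (sub_ne_zero.2 (ne_of_gt (show (s : ℝ) < 1 from k')))) h2.2
    revert h5
    cases q.2 <;> cases q'.2 <;> simp

end Pool.Agent.H71.Bel
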