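import Mathlib

set_option autoImplicit false
set_option linter.unusedSectionVars false

open scoped commutatorElement

namespace Pool.Agent.H71.BiOrd

section
variable {G : Type} [Group G] [LinearOrder G] [MulLeftMono G] [MulRightMono G]

theorem swap_pow {g h : G} (hgh : g * h ≤ h * g) (n : ℕ) : g * h ^ n ≤ h ^ n * g := by
  induction n with
  | zero => simp
  | succ n ih =>
    calc g * h ^ (n+1) = (g * h ^ n) * h := by rw [pow_succ, mul_assoc]
      _ ≤ (h ^ n * g) * h := mul_le_mul_left ih _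
      _ = h ^ n * (g * h) := by rw [mul_assoc]
      _ ≤ h ^ n * (h * g) := mul_le_mul_right hgh _
      _ = h ^ (n+1) * g := by rw [pow_succ, mul_assoc]

theorem swap_pow' {g h : G} (hgh : h * g ≤ g * h) (n : ℕ) : h ^ n * g ≤ g * h ^ n := by
  induction n with
  | zero => simp
  | succ n ih =>
    calc h ^ (n+1) * g = h ^ n * (h * g) := by rw [pow_succ, mul_assoc]
      _ ≤ h ^ n * (g * h) := mul_le_mul_right hgh _
      _ = (h ^ n * g) * h := by rw [mul_assoc]
      _ ≤ (g * h ^ n) * h := mul_le_mul_left ih _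
      _ = g * h ^ (n+1) := by rw [pow_succ, mul_assoc]

theorem mul_pow_upper (g h : G) (n : ℕ) :
    (g * h) ^ n ≤ h ^ n * g ^ n ∨ (g * h) ^ n ≤ g ^ n * h ^ n := by
  rcases le_total (g * h) (h * g) with hgh | hgh
  · left
    induction n with
    | zero => simp
    | succ n ih =>
      calc (g * h) ^ (n+1) = g * h * (g * h) ^ n := pow_succ' _ _
        _ ≤ g * h * (h ^ n * g ^ n) := mul_le_mul_right ih _
        _ = (g * h ^ (n+1)) * g ^ n := by rw [pow_succ' h]; simp only [mul_assoc]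
        _ ≤ (h ^ (n+1) * g) * g ^ n := mul_le_mul_left (swap_pow hgh _) _
        _ = _ := by rw [pow_succ' g]; simp only [mul_assoc]
  · right
    induction n with
    | zero => simp
    | succ n ih =>
      calc (g * h) ^ (n+1) = (g * h) ^ n * (g * h) := pow_succ _ _
        _ ≤ (g ^ n * h ^ n) * (g * h) := mul_le_mul_left ih _
        _ = g ^ n * (h ^ n * g) * h := by simp only [mul_assoc]
        _ ≤ g ^ n * (g * h ^ n) * h := mul_le_mul_left (mul_le_mul_right (swap_pow' hgh _) _) _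
        _ = _ := by rw [pow_succ g, pow_succ h]; simp only [mul_assoc]

theorem upper_mul {a g h : G} {n : ℕ} {p q : ℤ} (hg : g ^ n ≤ a ^ p) (hh : h ^ n ≤ a ^ q) :
    (g * h) ^ n ≤ a ^ (p + q) := by
  rcases mul_pow_upper g h n with h1 | h1
  · exact h1.trans (by rw [add_comm, zpow_add]; exact mul_le_mul' hh hg)
  · exact h1.trans (by rw [zpow_add]; exact mul_le_mul' hg hh)

theorem zpow_mono {a : G} (ha : 1 < a) {p q : ℤ} (h : p ≤ q) : a ^ p ≤ a ^ q := by
  obtain ⟨k, rfl⟩ := Int.le.dest h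
  rw [zpow_add, zpow_natCast]
  exact le_mul_of_one_le_right' (one_le_pow_of_one_le' ha.le _)

theorem zpow_smono {a : G} (ha : 1 < a) (p : ℤ) : a ^ p < a ^ (p + 1) := by
  rw [zpow_add_one]
  exact lt_mul_of_one_lt_right' _ ha

/-- the convex subgroup generated by `a` -/
def conv (a : G) : Subgroup G where
  carrier := {g | ∃ p : ℤ, g ≤ a ^ p ∧ g⁻¹ ≤ a ^ p}
  mul_mem' := by
    rintro g h ⟨p, h1, h2⟩ ⟨q, h3, h4⟩
    refine ⟨p + q, ?_, ?_⟩
    · rw [zpow_add]; exact mul_le_mul' h1 h3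
    · rw [mul_inv_rev, add_comm, zpow_add]; exact mul_le_mul' h4 h2
  one_mem' := ⟨0, by simp, by simp⟩
  inv_mem' := by
    rintro g ⟨p, h1, h2⟩
    exact ⟨p, h2, by simpa using h1⟩

/-- elements all of whose powers are uniformly bounded by a power of `a` -/
def small (a : G) : Subgroup G where
  carrier := {g | ∃ p : ℤ, ∀ n : ℕ, g ^ n ≤ a ^ p ∧ g⁻¹ ^ n ≤ a ^ p}
  mul_mem' := by
    rintro g h ⟨p, h1⟩ ⟨q, h2⟩
    refine ⟨p + q, fun n => ⟨upper_mul (h1 n).1 (h2 n).1, ?_⟩⟩
    rw [mul_inv_rev, add_comm]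
    exact upper_mul (h2 n).2 (h1 n).2
  one_mem' := ⟨0, by simp⟩
  inv_mem' := by
    rintro g ⟨p, h1⟩
    exact ⟨p, fun n => ⟨(h1 n).2, by simpa using (h1 n).1⟩⟩

theorem locate {a : G} (ha : 1 < a) {g : G} (hg : g ∈ conv a) :
    ∃ m : ℤ, g ≤ a ^ (m + 1) ∧ g⁻¹ ≤ a ^ (-m) := by
  obtain ⟨p, h1, h2⟩ := hg
  obtain ⟨m, hm, hm'⟩ := Int.exists_greatest_of_bdd (P := fun m => a ^ m ≤ g)
    ⟨p, fun z hz => by
      by_contra hc
      push Not at hc
      exact absurd (hz.trans h1) (not_le.2 ((zpow_smono ha p).trans_le (zpow_mono ha hc)))⟩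
    ⟨-p, by rw [zpow_neg]; exact inv_le'.1 h2 |> fun h => h⟩
  refine ⟨m, ?_, by rw [zpow_neg]; exact inv_le_inv_iff.2 hm⟩
  by_contra hc
  push Not at hc
  have := hm' _ hc.le
  omega

theorem comm_small {a : G} (ha : 1 < a) {g h : G} (hg : g ∈ conv a) (hh : h ∈ conv a) (n : ℕ) :
    ⁅g, h⁆ ^ n ≤ a ^ (2 : ℤ) := by
  obtain ⟨m, h1, h2⟩ := locate ha ((conv a).pow_mem hg n)
  obtain ⟨m', h3, h4⟩ := locate ha ((conv a).pow_mem hh n)
  rw [← inv_pow] at h2 h4
  have := upper_mul (upper_mul (upper_mul h1 h3) h2) h4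
  rw [commutatorElement_def]
  convert this using 2
  ring

theorem not_mem_comm {a : G} (ha : 1 < a) : a ∉ ⁅conv a, conv a⁆ := by
  intro h
  have : ⁅conv a, conv a⁆ ≤ small a := by
    rw [Subgroup.commutator_le]
    intro g hg k hk
    exact ⟨2, fun n => ⟨comm_small ha hg hk n, by
      rw [commutatorElement_inv]; exact comm_small ha hk hg n⟩⟩
  obtain ⟨p, hp⟩ := this h
  have h1 := (hp (p.toNat + 1)).1
  rw [← zpow_natCast] at h1
  refine absurd h1 (not_le.2 ((zpow_smono ha p).trans_le (zpow_mono ha ?_)))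
  push_cast
  omega

theorem main {Q ι : Type} [Group Q] [Finite ι] (π : G →* Q) (hπ : Function.Surjective π)
    (hker : ∀ m ∈ π.ker, ∀ m' ∈ π.ker, m * m' = m' * m) (s : ι → Q)
    (hs : Subgroup.closure (Set.range s) = ⊤) (hperf : commutator Q = ⊤) : Subsingleton Q := by
  classical
  have h1 : (commutator G).map π = ⊤ := by
    rw [commutator, Subgroup.map_commutator, ← MonoidHom.range_eq_map,
      MonoidHom.range_eq_top.2 hπ]
    exact hperf
  have h2 : (⁅commutator G, commutator G⁆ : Subgroup G).map π = ⊤ := by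
    rw [Subgroup.map_commutator, h1]; exact hperf
  have h3 : ∀ i, ∃ y ∈ (⁅commutator G, commutator G⁆ : Subgroup G), π y = s i := by
    intro i
    have : s i ∈ (⁅commutator G, commutator G⁆ : Subgroup G).map π := by rw [h2]; trivial
    exact this
  choose y hy hy' using h3
  have hmax : ∃ a ∈ (⁅commutator G, commutator G⁆ : Subgroup G), 1 ≤ a ∧
      ∀ i, y i ≤ a ∧ (y i)⁻¹ ≤ a := by
    have := Fintype.ofFinite ι
    suffices ∀ t : Finset ι, ∃ a ∈ (⁅commutator G, commutator G⁆ : Subgroup G), 1 ≤ a ∧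
        ∀ i ∈ t, y i ≤ a ∧ (y i)⁻¹ ≤ a by
      obtain ⟨a, ha, ha1, ha2⟩ := this Finset.univ
      exact ⟨a, ha, ha1, fun i => ha2 i (Finset.mem_univ i)⟩
    intro t
    induction t using Finset.induction_on with
    | empty => exact ⟨1, one_mem _, le_rfl, by simp⟩
    | insert j t _ ih =>
      obtain ⟨a, ha, ha1, ha2⟩ := ih
      refine ⟨max a (max (y j) (y j)⁻¹), ?_, le_max_of_le_left ha1, fun i hi => ?_⟩
      · rcases max_choice a (max (y j) (y j)⁻¹) with h | h <;> rw [h]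
        · exact ha
        · rcases max_choice (y j) (y j)⁻¹ with h | h <;> rw [h]
          · exact hy j
          · exact inv_mem (hy j)
      · rcases Finset.mem_insert.1 hi with rfl | hi
        · simp
        · exact ⟨le_max_of_le_left (ha2 i hi).1, le_max_of_le_left (ha2 i hi).2⟩
  obtain ⟨a, ha, ha1, ha2⟩ := hmax
  rcases ha1.eq_or_lt with rfl | ha1
  · have : ∀ i, s i = 1 := by
      intro i
      rw [← hy' i, le_antisymm (ha2 i).1 (by simpa using (ha2 i).2), map_one]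
    have h4 : (⊤ : Subgroup Q) ≤ ⊥ := by
      rw [← hs, Subgroup.closure_le]
      rintro _ ⟨i, rfl⟩
      simp [this i]
    exact ⟨fun p q => by
      rw [Subgroup.mem_bot.1 (h4 (Subgroup.mem_top p)), Subgroup.mem_bot.1 (h4 (Subgroup.mem_top q))]⟩
  exfalso
  have hdec : ∀ g : G, ∃ c ∈ conv a, ∃ m ∈ π.ker, g = c * m := by
    intro g
    have : π g ∈ (conv a).map π := by
      have h4 : Subgroup.closure (Set.range s) ≤ (conv a).map π := by
        rw [Subgroup.closure_le]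
        rintro _ ⟨i, rfl⟩
        exact ⟨y i, ⟨1, by simpa using ha2 i⟩, hy' i⟩
      exact h4 (by rw [hs]; trivial)
    obtain ⟨c, hc, hcg⟩ := this
    exact ⟨c, hc, c⁻¹ * g, by simp [MonoidHom.mem_ker, hcg], by simp⟩
  have hconj : ∀ m ∈ π.ker, m * a * m⁻¹ ≤ a ^ (2:ℤ) := by
    intro m hm
    have hm' : a * m * a⁻¹ ∈ π.ker := (MonoidHom.normal_ker π).conj_mem _ hm _
    have e : m⁻¹ * a * m = (m * a * m⁻¹ * a⁻¹)⁻¹ * a := by
      have := hker _ (inv_mem hm) _ hm'
      calc m⁻¹ * a * m = m⁻¹ * (a * m * a⁻¹) * a := by group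
        _ = (a * m * a⁻¹) * m⁻¹ * a := by rw [this]
        _ = _ := by group
    have h5 : 1 ≤ m⁻¹ * a * m := by
      calc 1 = m⁻¹ * 1 * m := by simp
        _ ≤ _ := mul_le_mul_left (mul_le_mul_right ha1.le _) _
    rw [e, le_inv_mul_iff_mul_le, mul_one] at h5
    calc m * a * m⁻¹ = (m * a * m⁻¹ * a⁻¹) * a := by group
      _ ≤ a * a := mul_le_mul_left h5 _
      _ = _ := by rw [zpow_two]
  have hconj2 : ∀ m ∈ π.ker, ∀ (c : G) (p : ℤ), c ≤ a ^ p → m * c * m⁻¹ ≤ a ^ (2 * (p.toNat : ℤ)) := by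
    intro m hm c p hc
    have h5 : c ≤ a ^ p.toNat := by
      rw [← zpow_natCast]; exact hc.trans (zpow_mono ha1 (by omega))
    calc m * c * m⁻¹ ≤ m * a ^ p.toNat * m⁻¹ := mul_le_mul_left (mul_le_mul_right h5 _) _
      _ = (m * a * m⁻¹) ^ p.toNat := by rw [conj_pow]
      _ ≤ (a ^ (2:ℤ)) ^ p.toNat := pow_le_pow_left' (hconj m hm) _
      _ = _ := by rw [zpow_mul, zpow_natCast]
  have hnorm : (conv a).Normal := by
    refine ⟨fun c hc g => ?_⟩
    obtain ⟨d, hd, m, hm, rfl⟩ := hdec g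
    have : m * c * m⁻¹ ∈ conv a := by
      obtain ⟨p, h5, h6⟩ := hc
      exact ⟨_, hconj2 m hm c p h5, by
        have := hconj2 m hm _ p h6
        simpa [mul_assoc] using this⟩
    have h7 := mul_mem (mul_mem hd this) (inv_mem hd)
    simpa [mul_assoc] using h7
  have hP : commutator G ≤ conv a := by
    rw [commutator, Subgroup.commutator_le]
    intro g _ h _
    obtain ⟨c, hc, m, hm, rfl⟩ := hdec g
    obtain ⟨d, hd, m', hm', rfl⟩ := hdec h
    rw [← QuotientGroup.eq_one_iff]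
    have e1 : ((c : G) : G ⧸ conv a) = 1 := (QuotientGroup.eq_one_iff c).2 hc
    have e2 : ((d : G) : G ⧸ conv a) = 1 := (QuotientGroup.eq_one_iff d).2 hd
    have e3 : ((m : G) : G ⧸ conv a) * (m' : G) = (m' : G) * (m : G) := by
      rw [← QuotientGroup.mk_mul, ← QuotientGroup.mk_mul, hker m hm m' hm']
    simp only [commutatorElement_def, QuotientGroup.mk_mul, QuotientGroup.mk_inv, e1, e2, one_mul]
    rw [e3]; group
  exact not_mem_comm ha1 (Subgroup.commutator_mono hP hP ha)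

end

end Pool.Agent.H71.BiOrd
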