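import Mathlib

/-! Finite pieces of Schreier graphs of the free group of rank 6 with a paradoxical loop pattern. -/

namespace Pool.Agent.H71.Boom

open Set

abbrev I := ZMod 6
abbrev Lt := I × Bool
def bar (l : Lt) : Lt := (l.1, !l.2)
@[simp] lemma bar_bar (l : Lt) : bar (bar l) = l := by simp [bar]
lemma bar_ne (l : Lt) : bar l ≠ l := by
  rcases l with ⟨i, b⟩; cases b <;> simp [bar]
@[simp] lemma bar_fst (l : Lt) : (bar l).1 = l.1 := rfl

abbrev Ed := Set (Lt × ℕ × ℕ)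

structure Base (E : Ed) : Prop where
  fin : E.Finite
  symm : ∀ l u v, (l, u, v) ∈ E → (bar l, v, u) ∈ E
  func : ∀ l u v w, (l, u, v) ∈ E → (l, u, w) ∈ E → v = w
  loops : ∀ l l' v, (l, v, v) ∈ E → (l', v, v) ∈ E → l.1 = l'.1

def Free (E : Ed) (l : Lt) (u : ℕ) : Prop := ∀ w, (l, u, w) ∉ E

def Good (E : Ed) (v : ℕ) (i : I) : Prop := ∃ w, ((i, true), v, w) ∈ E ∧ ((i + 1, true), w, w) ∈ E

def Sat (E : Ed) (v : ℕ) : Prop := ∃ i j, i ≠ j ∧ Good E v i ∧ Good E v j

open Classical in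
noncomputable def fr (E : Ed) (v : ℕ) : Finset I := Finset.univ.filter fun i => Free E (i, true) v

lemma mem_fr {E : Ed} {v : ℕ} {i : I} : i ∈ fr E v ↔ ∀ w, ((i, true), v, w) ∉ E := by
  classical
  unfold fr
  rw [Finset.mem_filter]
  exact ⟨fun h => h.2, fun h => ⟨Finset.mem_univ _, h⟩⟩

def Rm (E : Ed) (k : ℕ) (v : ℕ) : Prop := Sat E v ∨ k ≤ (fr E v).card

def add (E : Ed) (l : Lt) (u v : ℕ) : Ed := insert (l, u, v) (insert (bar l, v, u) E)

def Fresh (E : Ed) (c : ℕ) : Prop := ∀ l w, (l, c, w) ∉ E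

lemma sub_add (E : Ed) (l : Lt) (u v : ℕ) : E ⊆ add E l u v :=
  fun _ h => Or.inr (Or.inr h)

lemma mem_add_self (E : Ed) (l : Lt) (u v : ℕ) : (l, u, v) ∈ add E l u v := Or.inl rfl

lemma mem_add {E : Ed} {l l' : Lt} {u v a b : ℕ} :
    (l', a, b) ∈ add E l u v ↔
      (l' = l ∧ a = u ∧ b = v) ∨ (l' = bar l ∧ a = v ∧ b = u) ∨ (l', a, b) ∈ E := by
  simp [add]

lemma Sat.mono {E E' : Ed} (h : E ⊆ E') {v : ℕ} : Sat E v → Sat E' v := by
  rintro ⟨i, j, hij, ⟨a, ha, ha'⟩, ⟨b, hb, hb'⟩⟩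
  exact ⟨i, j, hij, ⟨a, h ha, h ha'⟩, ⟨b, h hb, h hb'⟩⟩

lemma Rm.weak {E : Ed} {k k' v : ℕ} (h : Rm E k v) (hk : k' ≤ k) : Rm E k' v :=
  h.imp id (le_trans hk)

lemma Base.add {E : Ed} (hE : Base E) {l : Lt} {u v : ℕ} (hu : Free E l u)
    (hv : Free E (bar l) v) (hl : u ≠ v ∨ ∀ l', (l', u, u) ∉ E) : Base (add E l u v) := by
  refine ⟨(hE.fin.insert _).insert _, ?_, ?_, ?_⟩
  · intro l' a b h
    rw [mem_add] at h ⊢
    rcases h with ⟨rfl, rfl, rfl⟩ | ⟨rfl, rfl, rfl⟩ | h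
    · exact Or.inr (Or.inl ⟨rfl, rfl, rfl⟩)
    · exact Or.inl ⟨bar_bar _, rfl, rfl⟩
    · exact Or.inr (Or.inr (hE.symm _ _ _ h))
  · intro l' a b c h h'
    rw [mem_add] at h h'
    rcases h with ⟨rfl, rfl, rfl⟩ | ⟨rfl, rfl, rfl⟩ | h
    · rcases h' with ⟨-, -, rfl⟩ | ⟨h1, -, -⟩ | h'
      · rfl
      · exact absurd h1.symm (bar_ne _)
      · exact absurd h' (hu _)
    · rcases h' with ⟨h1, -, -⟩ | ⟨-, -, rfl⟩ | h'
      · exact absurd h1 (bar_ne _)
      · rfl
      · exact absurd h' (hv _)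
    · rcases h' with ⟨rfl, rfl, rfl⟩ | ⟨rfl, rfl, rfl⟩ | h'
      · exact absurd h (hu _)
      · exact absurd h (hv _)
      · exact hE.func _ _ _ _ h h'
  · intro l1 l2 a h h'
    rw [mem_add] at h h'
    rcases hl with hl | hl
    · rcases h with ⟨-, rfl, rfl⟩ | ⟨-, rfl, rfl⟩ | h
      · exact absurd rfl hl
      · exact absurd rfl hl
      · rcases h' with ⟨-, rfl, rfl⟩ | ⟨-, rfl, rfl⟩ | h'
        · exact absurd rfl hl
        · exact absurd rfl hl
        · exact hE.loops _ _ _ h h'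
    · rcases h with ⟨rfl, rfl, rfl⟩ | ⟨rfl, rfl, rfl⟩ | h
      · rcases h' with ⟨rfl, -, -⟩ | ⟨rfl, -, -⟩ | h'
        · rfl
        · rfl
        · exact absurd h' (hl _)
      · rcases h' with ⟨rfl, -, -⟩ | ⟨rfl, -, -⟩ | h'
        · rfl
        · rfl
        · exact absurd h' (hl _)
      · rcases h' with ⟨-, rfl, rfl⟩ | ⟨-, rfl, rfl⟩ | h'
        · exact absurd h (hl _)
        · exact absurd h (hl _)
        · exact hE.loops _ _ _ h h'

lemma fr_add_other (E : Ed) (l : Lt) {u v a : ℕ} (hu : a ≠ u) (hv : a ≠ v) :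
    fr (add E l u v) a = fr E a := by
  ext i
  simp [mem_fr, mem_add, hu, hv]

lemma fr_add (E : Ed) (l : Lt) (u v a : ℕ) :
    (fr E a).card ≤ (fr (add E l u v) a).card + 1 := by
  have : (fr E a).erase l.1 ⊆ fr (add E l u v) a := by
    intro i hi
    simp only [mem_fr, Finset.mem_erase] at hi ⊢
    intro w hw
    rw [mem_add] at hw
    rcases hw with ⟨h, -, -⟩ | ⟨h, -, -⟩ | h
    · exact hi.1 (congrArg Prod.fst h)
    · exact hi.1 (congrArg Prod.fst h)
    · exact hi.2 _ h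
  have h1 := Finset.card_le_card this
  have h2 := Finset.pred_card_le_card_erase (s := fr E a) (a := l.1)
  omega

lemma Rm.add_any {E : Ed} {k a : ℕ} (h : Rm E (k + 1) a) (l : Lt) (u v : ℕ) :
    Rm (add E l u v) k a := by
  rcases h with h | h
  · exact Or.inl (h.mono (sub_add _ _ _ _))
  · have := fr_add E l u v a
    exact Or.inr (by omega)

lemma Rm.add_other {E : Ed} {k a : ℕ} (h : Rm E k a) (l : Lt) {u v : ℕ} (hu : a ≠ u)
    (hv : a ≠ v) : Rm (add E l u v) k a := by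
  rcases h with h | h
  · exact Or.inl (h.mono (sub_add _ _ _ _))
  · exact Or.inr (by rwa [fr_add_other E l hu hv])

lemma Fresh.rm {E : Ed} {c : ℕ} (h : Fresh E c) : Rm E 6 c := by
  right
  have : fr E c = Finset.univ := by
    ext i; simp only [mem_fr, Finset.mem_univ, iff_true]
    exact fun w => h _ w
  rw [this]; simp

lemma exists_fresh {E : Ed} (hE : E.Finite) (a b : ℕ) : ∃ c, c ≠ a ∧ c ≠ b ∧ Fresh E c := by
  have : (insert a (insert b ((fun e : Lt × ℕ × ℕ => e.2.1) '' E))).Finite :=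
    ((hE.image _).insert _).insert _
  obtain ⟨c, hc⟩ := this.exists_notMem
  simp only [mem_insert_iff, not_or] at hc
  exact ⟨c, hc.1, hc.2.1, fun l w h => hc.2.2 ⟨_, h, rfl⟩⟩

/-- conditions -/
def Cond (E : Ed) (k : ℕ) : Prop := Base E ∧ ∀ v, Rm E k v

/-- attach a fresh vertex -/
lemma attach {E : Ed} (hE : Base E) {l : Lt} {u c : ℕ} (hu : Free E l u) (hc : Fresh E c)
    (hcu : c ≠ u) : Base (add E l u c) :=
  hE.add hu (fun w => hc _ w) (Or.inl hcu.symm)

/-- attach a good child -/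
lemma child {E : Ed} (hE : Base E) {i : I} {v : ℕ} (hv : Free E (i, true) v) :
    ∃ E', E ⊆ E' ∧ Base E' ∧ Good E' v i ∧ (∀ j, j ≠ i → Free E (j, true) v → Free E' (j, true) v) ∧
      ∀ a k, k ≤ 4 → a ≠ v → Rm E k a → Rm E' k a := by
  obtain ⟨c, hcv, -, hc⟩ := exists_fresh hE.fin v v
  have h1 := attach hE hv hc hcv
  have hii : i + 1 ≠ i := (by decide : ∀ i : ZMod 6, i + 1 ≠ i) i
  have h2 : Base (add (add E (i, true) v c) (i + 1, true) c c) := by
    refine h1.add ?_ ?_ (Or.inr ?_)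
    · intro w hw
      rw [mem_add] at hw
      rcases hw with ⟨-, h, -⟩ | ⟨h, -, -⟩ | h
      · exact hcv h
      · exact hii (congrArg Prod.fst h)
      · exact hc _ _ h
    · intro w hw
      rw [mem_add] at hw
      rcases hw with ⟨-, h, -⟩ | ⟨h, -, -⟩ | h
      · exact hcv h
      · exact hii (congrArg Prod.fst h)
      · exact hc _ _ h
    · intro l' hw
      rw [mem_add] at hw
      rcases hw with ⟨-, h, -⟩ | ⟨-, -, h⟩ | h
      · exact hcv h
      · exact hcv h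
      · exact hc _ _ h
  refine ⟨_, (sub_add _ _ _ _).trans (sub_add _ _ _ _), h2,
    ⟨c, sub_add _ _ _ _ (mem_add_self _ _ _ _), mem_add_self _ _ _ _⟩, ?_, ?_⟩
  · intro j hj hf w hw
    rw [mem_add, mem_add] at hw
    rcases hw with ⟨-, h, -⟩ | ⟨-, h, -⟩ | ⟨h, -, -⟩ | ⟨-, h, -⟩ | h
    · exact hcv h.symm
    · exact hcv h.symm
    · exact hj (congrArg Prod.fst h)
    · exact hcv h.symm
    · exact hf _ h
  · intro a k hk hav ha
    by_cases hac : a = c
    · subst hac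
      exact ((hc.rm.add_any _ _ _).add_any _ _ _).weak hk
    · exact (ha.add_other _ hav hac).add_other _ hac hac

lemma saturate {E : Ed} (hE : Base E) {v : ℕ} (hv : Rm E 2 v) :
    ∃ E', E ⊆ E' ∧ Base E' ∧ Sat E' v ∧ ∀ a k, k ≤ 4 → a ≠ v → Rm E k a → Rm E' k a := by
  rcases hv with hv | hv
  · exact ⟨E, subset_rfl, hE, hv, fun _ _ _ _ h => h⟩
  · obtain ⟨i, hi, j, hj, hij⟩ := Finset.one_lt_card.1 hv
    rw [mem_fr] at hi hj
    obtain ⟨E1, s1, b1, g1, f1, r1⟩ := child hE hi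
    obtain ⟨E2, s2, b2, g2, -, r2⟩ := child b1 (f1 j hij.symm hj)
    refine ⟨E2, s1.trans s2, b2, ⟨i, j, hij, ?_, g2⟩, fun a k hk ha h => r2 a k hk ha (r1 a k hk ha h)⟩
    obtain ⟨w, h1, h2⟩ := g1
    exact ⟨w, s2 h1, s2 h2⟩

lemma room_aux (K : Finset ℕ) : ∀ E : Ed, Cond E 2 → (∀ v, v ∉ K → Rm E 4 v) →
    ∃ E', E ⊆ E' ∧ Cond E' 4 := by
  induction K using Finset.induction_on with
  | empty => exact fun E h h' => ⟨E, subset_rfl, h.1, fun v => h' v (by simp)⟩
  | insert a K ha ih =>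
    intro E h h'
    obtain ⟨E1, s1, b1, t1, r1⟩ := saturate h.1 (h.2 a)
    obtain ⟨E2, s2, c2⟩ := ih E1 ⟨b1, fun v => by
      by_cases hv : v = a
      · exact Or.inl (hv ▸ t1)
      · exact r1 v 2 (by norm_num) hv (h.2 v)⟩ (fun v hv' => by
      by_cases hv : v = a
      · exact Or.inl (hv ▸ t1)
      · exact r1 v 4 le_rfl hv (h' v (by simp [hv, hv'])))
    exact ⟨E2, s1.trans s2, c2⟩

lemma room {E : Ed} (h : Cond E 2) : ∃ E', E ⊆ E' ∧ Cond E' 4 := by
  refine room_aux (h.1.fin.image (fun e : Lt × ℕ × ℕ => e.2.1)).toFinset E h fun v hv => ?_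
  have : Fresh E v := fun l w hw => hv (by
    rw [Finite.mem_toFinset]; exact ⟨_, hw, rfl⟩)
  exact this.rm.weak (by norm_num)

lemma ext_edge {E : Ed} (h : Cond E 2) (l : Lt) (u : ℕ) :
    ∃ E', E ⊆ E' ∧ Cond E' 2 ∧ ∃ w, (l, u, w) ∈ E' := by
  obtain ⟨E1, s1, c1⟩ := room h
  by_cases hf : Free E1 l u
  · obtain ⟨c, hcu, -, hc⟩ := exists_fresh c1.1.fin u u
    exact ⟨_, s1.trans (sub_add _ l u c), ⟨attach c1.1 hf hc hcu,
      fun v => ((c1.2 v).weak (by norm_num)).add_any _ _ _⟩, c, mem_add_self _ _ _ _⟩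
  · simp only [Free, not_forall, not_not] at hf
    exact ⟨E1, s1, ⟨c1.1, fun v => (c1.2 v).weak (by norm_num)⟩, hf⟩

lemma ext_sat {E : Ed} (h : Cond E 2) (v : ℕ) :
    ∃ E', E ⊆ E' ∧ Cond E' 2 ∧ Sat E' v := by
  obtain ⟨E1, s1, b1, t1, r1⟩ := saturate h.1 (h.2 v)
  refine ⟨E1, s1, ⟨b1, fun a => ?_⟩, t1⟩
  by_cases ha : a = v
  · exact Or.inl (ha ▸ t1)
  · exact r1 a 2 (by norm_num) ha (h.2 a)

/-- walks -/
def W (E : Ed) (f : ℕ → Lt) (o : ℕ) : ℕ → ℕ → Prop
  | 0, u => u = o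
  | n + 1, u => ∃ v, W E f o n v ∧ (f n, v, u) ∈ E

lemma W.mono {E E' : Ed} (h : E ⊆ E') {f : ℕ → Lt} {o : ℕ} : ∀ {n u}, W E f o n u → W E' f o n u
  | 0, _, hw => hw
  | _ + 1, _, ⟨v, h1, h2⟩ => ⟨v, W.mono h h1, h h2⟩

lemma W.back {E : Ed} (hE : Base E) {f : ℕ → Lt} {o d : ℕ} (hd : ∀ t, f (t + d) = f t) :
    ∀ j a, W E f o j a → W E f o (j + d) a → W E f o d o := by
  intro j
  induction j with
  | zero => intro a h1 h2; rw [zero_add] at h2; exact (show a = o from h1) ▸ h2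
  | succ j ih =>
    intro a h1 h2
    rw [show j + 1 + d = (j + d) + 1 by ring] at h2
    obtain ⟨v, h1, h1'⟩ := h1
    obtain ⟨v', h2, h2'⟩ := h2
    rw [hd] at h2'
    have := hE.func _ _ _ _ (hE.symm _ _ _ h1') (hE.symm _ _ _ h2')
    subst this
    exact ih v h1 h2

lemma stuck_or {E : Ed} (hE : Base E) {f : ℕ → Lt} {m : ℕ} (hm : 0 < m)
    (hf : ∀ t q, f (t + m * q) = f t) (o : ℕ) :
    (∃ T u, W E f o T u ∧ Free E (f T) u) ∨ ∃ q, 0 < q ∧ W E f o (m * q) o := by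
  by_contra hcon
  push Not at hcon
  obtain ⟨h1, h2⟩ := hcon
  have ex : ∀ T, ∃ u, W E f o T u := by
    intro T
    induction T with
    | zero => exact ⟨o, rfl⟩
    | succ T ih =>
      obtain ⟨u, hu⟩ := ih
      have := h1 T u hu
      simp only [Free, not_forall, not_not] at this
      obtain ⟨w, hw⟩ := this
      exact ⟨w, u, hu, hw⟩
  choose g hg using ex
  have hfin : ((fun e : Lt × ℕ × ℕ => e.2.1) '' E).Finite := hE.fin.image _
  have hmem : ∀ T, g (m * T) ∈ ((fun e : Lt × ℕ × ℕ => e.2.1) '' E) := by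
    intro T
    have := h1 _ _ (hg (m * T))
    simp only [Free, not_forall, not_not] at this
    obtain ⟨w, hw⟩ := this
    exact ⟨_, hw, rfl⟩
  obtain ⟨a, b, hab, he⟩ := hfin.exists_lt_map_eq_of_forall_mem hmem
  obtain ⟨d, rfl⟩ := Nat.exists_eq_add_of_lt hab
  refine h2 (d + 1) (by omega) (W.back hE (fun t => hf t _) (m * a) (g (m * a)) (hg _) ?_)
  have := hg (m * (a + d + 1))
  rw [← he] at this
  convert this using 1
  ring

lemma W.join {E : Ed} (hE : Base E) {f g : ℕ → Lt} {m o : ℕ}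
    (hfg : ∀ T S, m ∣ T + S + 1 → f T = bar (g S)) :
    ∀ S T w, W E f o T w → W E g o S w → m ∣ T + S → W E f o (T + S) o := by
  intro S
  induction S with
  | zero => intro T w h1 h2 _; exact (show w = o from h2) ▸ h1
  | succ S ih =>
    intro T w h1 h2 hd
    obtain ⟨v, h2, h2'⟩ := h2
    have := ih (T + 1) v ⟨w, h1, by rw [hfg T S (by rwa [add_assoc])]; exact hE.symm _ _ _ h2'⟩ h2
      (by convert hd using 1; ring)
    convert this using 1
    ring

section close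
variable {f g : ℕ → Lt} {m o : ℕ} (hm : 0 < m)
  (hfg : ∀ T S, m ∣ T + S + 1 → f T = bar (g S))
  (hf : ∀ t, f (t + 1) ≠ bar (f t)) (hg : ∀ t, g (t + 1) ≠ bar (g t))
include hm hfg hf

omit hm hfg in
lemma free_next {E : Ed} {c u T : ℕ} (hc : Fresh E c) (hcu : c ≠ u) :
    Free (add E (f T) u c) (f (T + 1)) c := by
  intro w hw
  rw [mem_add] at hw
  rcases hw with ⟨-, h, -⟩ | ⟨h, -, -⟩ | h
  · exact hcu h
  · exact hf T h
  · exact hc _ _ h

lemma phase2 (k : ℕ) : ∀ (E : Ed) (T S u w : ℕ), Cond E 2 → W E f o T u → Free E (f T) u →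
    W E g o S w → Free E (g S) w → u ≠ w → Rm E 3 u → Rm E 3 w → m ∣ T + S + 1 + k →
    ∃ E', E ⊆ E' ∧ Cond E' 2 ∧ ∃ q, 0 < q ∧ W E' f o (m * q) o := by
  induction k with
  | zero =>
    intro E T S u w hE h1 h2 h3 h4 huw ru rw' hd
    have e := hfg T S hd
    have b : Base (add E (f T) u w) := hE.1.add h2 (by rw [e, bar_bar]; exact h4) (Or.inl huw)
    refine ⟨_, sub_add E (f T) u w, ⟨b, fun v => ?_⟩, ?_⟩
    · by_cases hu : v = u
      · subst hu; exact ru.add_any _ _ _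
      by_cases hw : v = w
      · subst hw; exact rw'.add_any _ _ _
      exact (hE.2 v).add_other _ hu hw
    · have := W.join b hfg S (T + 1) w ⟨u, h1.mono (sub_add _ _ _ _), mem_add_self _ _ _ _⟩
        (h3.mono (sub_add _ _ _ _)) (by convert hd using 1; ring)
      obtain ⟨q, hq⟩ := hd
      refine ⟨q, ?_, by convert this using 1; omega⟩
      rcases Nat.eq_zero_or_pos q with rfl | h
      · omega
      · exact h
  | succ k ih =>
    intro E T S u w hE h1 h2 h3 h4 huw ru rw' hd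
    obtain ⟨c, hcu, hcw, hc⟩ := exists_fresh hE.1.fin u w
    obtain ⟨E', s, r⟩ := ih (add E (f T) u c) (T + 1) S c w ⟨attach hE.1 h2 hc hcu, fun v => by
        by_cases hu : v = u
        · subst hu; exact ru.add_any _ _ _
        by_cases hw : v = c
        · subst hw; exact (hc.rm.add_any _ _ _).weak (by norm_num)
        exact (hE.2 v).add_other _ hu hw⟩
      ⟨u, h1.mono (sub_add _ _ _ _), mem_add_self _ _ _ _⟩ (free_next hf hc hcu)
      (h3.mono (sub_add _ _ _ _)) (by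
        intro a ha
        rw [mem_add] at ha
        rcases ha with ⟨-, h, -⟩ | ⟨-, h, -⟩ | h
        · exact huw h.symm
        · exact hcw h.symm
        · exact h4 _ h) hcw ((hc.rm.add_any _ _ _).weak (by norm_num))
      (rw'.add_other _ huw.symm hcw.symm) (by convert hd using 1; ring)
    exact ⟨E', (sub_add _ _ _ _).trans s, r⟩

lemma exists_k (n : ℕ) : ∃ k, m ∣ n + k := ⟨(m - 1) * n, n, by
  obtain ⟨m', rfl⟩ := Nat.exists_eq_add_of_lt hm
  simp; ring⟩

include hg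
lemma phase1 (k : ℕ) : ∀ (E : Ed) (T S u : ℕ), Cond E 2 → W E f o T u → Free E (f T) u →
    W E g o S u → Free E (g S) u → Rm E 4 u → (m ∣ T + S + 1 + 2 * k ∨ m ∣ T + S + 2 + 2 * k) →
    ∃ E', E ⊆ E' ∧ Cond E' 2 ∧ ∃ q, 0 < q ∧ W E' f o (m * q) o := by
  have nc : ∀ (E : Ed) (T S u : ℕ), Cond E 2 → W E f o T u → Free E (f T) u →
      W E g o S u → Free E (g S) u → Rm E 4 u → f T ≠ g S →
      ∃ E', E ⊆ E' ∧ Cond E' 2 ∧ ∃ q, 0 < q ∧ W E' f o (m * q) o := by
    intro E T S u hE h1 h2 h3 h4 ru hne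
    obtain ⟨c, hcu, -, hc⟩ := exists_fresh hE.1.fin u u
    obtain ⟨k, hk⟩ := exists_k hm hfg hf (T + 1 + S + 1)
    obtain ⟨E', s, r⟩ := phase2 hm hfg hf k (add E (f T) u c) (T + 1) S c u
      ⟨attach hE.1 h2 hc hcu, fun v => by
        by_cases hu : v = u
        · subst hu; exact (ru.add_any _ _ _).weak (by norm_num)
        by_cases hw : v = c
        · subst hw; exact (hc.rm.add_any _ _ _).weak (by norm_num)
        exact (hE.2 v).add_other _ hu hw⟩
      ⟨u, h1.mono (sub_add _ _ _ _), mem_add_self _ _ _ _⟩ (free_next hf hc hcu)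
      (h3.mono (sub_add _ _ _ _)) (by
        intro a ha
        rw [mem_add] at ha
        rcases ha with ⟨h, -, -⟩ | ⟨-, h, -⟩ | h
        · exact hne h.symm
        · exact hcu h.symm
        · exact h4 _ h) hcu ((hc.rm.add_any _ _ _).weak (by norm_num))
      (ru.add_any _ _ _) hk
    exact ⟨E', (sub_add _ _ _ _).trans s, r⟩
  induction k with
  | zero =>
    intro E T S u hE h1 h2 h3 h4 ru hd
    refine nc E T S u hE h1 h2 h3 h4 ru fun he => ?_
    rcases hd with hd | hd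
    · have := hfg T S hd
      rw [he] at this
      exact bar_ne _ this.symm
    · have := hfg (T + 1) S (by convert hd using 1; ring)
      rw [← he] at this
      exact hf T this
  | succ k ih =>
    intro E T S u hE h1 h2 h3 h4 ru hd
    by_cases he : f T = g S
    swap
    · exact nc E T S u hE h1 h2 h3 h4 ru he
    obtain ⟨c, hcu, -, hc⟩ := exists_fresh hE.1.fin u u
    obtain ⟨E', s, r⟩ := ih (add E (f T) u c) (T + 1) (S + 1) c
      ⟨attach hE.1 h2 hc hcu, fun v => by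
        by_cases hu : v = u
        · subst hu; exact (ru.add_any _ _ _).weak (by norm_num)
        by_cases hw : v = c
        · subst hw; exact (hc.rm.add_any _ _ _).weak (by norm_num)
        exact (hE.2 v).add_other _ hu hw⟩
      ⟨u, h1.mono (sub_add _ _ _ _), mem_add_self _ _ _ _⟩ (free_next hf hc hcu)
      ⟨u, h3.mono (sub_add _ _ _ _), he ▸ mem_add_self _ _ _ _⟩
      (by rw [he]; exact free_next hg hc hcu) ((hc.rm.add_any _ _ _).weak (by norm_num))
      (by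
        rcases hd with hd | hd
        · left; convert hd using 1; ring
        · right; convert hd using 1; ring)
    exact ⟨E', (sub_add _ _ _ _).trans s, r⟩

lemma ext_close (pf : ∀ t q, f (t + m * q) = f t) (pg : ∀ t q, g (t + m * q) = g t)
    {E : Ed} (h : Cond E 2) :
    ∃ E', E ⊆ E' ∧ Cond E' 2 ∧ ∃ q, 0 < q ∧ W E' f o (m * q) o := by
  obtain ⟨E1, s1, c1⟩ := room h
  have c2 : Cond E1 2 := ⟨c1.1, fun v => (c1.2 v).weak (by norm_num)⟩
  rcases stuck_or c1.1 hm pf o with ⟨T, u, h1, h2⟩ | hq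
  swap
  · exact ⟨E1, s1, c2, hq⟩
  rcases stuck_or c1.1 hm pg o with ⟨S, w, h3, h4⟩ | ⟨q, hq, hw⟩
  swap
  · refine ⟨E1, s1, c2, q, hq, ?_⟩
    have := W.join c1.1 hfg (m * q) 0 o rfl hw (by simp)
    rwa [zero_add] at this
  by_cases huw : u = w
  · subst huw
    obtain ⟨k, hk⟩ := exists_k hm hfg hf (T + S + 2)
    have : ∃ k', m ∣ T + S + 1 + 2 * k' ∨ m ∣ T + S + 2 + 2 * k' := by
      rcases Nat.even_or_odd' k with ⟨j, rfl | rfl⟩
      · exact ⟨j, Or.inr hk⟩
      · exact ⟨j + 1, Or.inl (by convert hk using 1; ring)⟩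
    obtain ⟨k', hk'⟩ := this
    obtain ⟨E', s, r⟩ := phase1 hm hfg hf hg k' E1 T S u c2 h1 h2 h3 h4 (c1.2 u) hk'
    exact ⟨E', s1.trans s, r⟩
  · obtain ⟨k, hk⟩ := exists_k hm hfg hf (T + S + 1)
    obtain ⟨E', s, r⟩ := phase2 hm hfg hf k E1 T S u w c2 h1 h2 h3 h4 huw
      ((c1.2 u).weak (by norm_num)) ((c1.2 w).weak (by norm_num)) hk
    exact ⟨E', s1.trans s, r⟩

end close

/-- the poset of conditions -/
abbrev P := {E : Ed // Cond E 2}

def fw (L : List Lt) (t : ℕ) : Lt := bar (L.getD (t % L.length) (0, true))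

lemma ext_word (L : List Lt) (hL : FreeGroup.IsCyclicallyReduced L) (hne : L ≠ []) (o : ℕ)
    {E : Ed} (h : Cond E 2) :
    ∃ E', E ⊆ E' ∧ Cond E' 2 ∧ ∃ q, 0 < q ∧ W E' (fw L) o (L.length * q) o := by
  have hm : 0 < L.length := List.length_pos_iff.2 hne
  have pf : ∀ t q, fw L (t + L.length * q) = fw L t := fun t q => by simp [fw]
  have cong : ∀ a b, a % L.length = b % L.length → fw L a = fw L b := fun a b hab => by
    simp only [fw, hab]
  have hf : ∀ t, fw L (t + 1) ≠ bar (fw L t) := by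
    intro t ht
    have key : ∀ a b : Lt, bar b = bar (bar a) → ¬ (a.1 = b.1 → a.2 = b.2) := by
      rintro ⟨a, x⟩ ⟨b, y⟩ h1 h2
      simp only [bar, Prod.mk.injEq] at h1
      have := h2 h1.1.symm
      simp only at this
      subst this
      cases x <;> simp at h1
    refine key _ _ ht ?_
    have h0 : t % L.length < L.length := Nat.mod_lt _ hm
    by_cases h1 : t % L.length + 1 < L.length
    · have e : (t + 1) % L.length = t % L.length + 1 := by
        rw [← Nat.mod_add_mod, Nat.mod_eq_of_lt h1]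
      rw [e, List.getD_eq_getElem _ _ h0, List.getD_eq_getElem _ _ h1]
      exact List.isChain_iff_getElem.1 hL.1 _ h1
    · have e' : t % L.length = L.length - 1 := by omega
      have e : (t + 1) % L.length = 0 := by
        rw [← Nat.mod_add_mod, e', Nat.sub_add_cancel hm, Nat.mod_self]
      rw [e, List.getD_eq_getElem _ _ h0, List.getD_eq_getElem _ _ hm]
      refine hL.2 _ ?_ _ ?_
      · rw [List.getLast?_eq_getElem?, ← e']; simp
      · rw [List.head?_eq_getElem?]; simp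
  obtain ⟨m', hm'⟩ := Nat.exists_eq_add_of_lt hm
  rw [zero_add] at hm'
  refine ext_close (g := fun S => bar (fw L (m' * (S + 1)))) hm ?_ hf ?_ pf ?_ h
  · rintro T S ⟨c, hc⟩
    rw [bar_bar, ← pf T (S + 1), ← pf (m' * (S + 1)) c]
    congr 1
    rw [← hc, hm']; ring
  · intro t ht
    apply hf (m' * (t + 1 + 1))
    rw [bar_bar] at ht
    rw [ht, ← pf (m' * (t + 1)) 1]
    congr 1
    rw [hm']; ring
  · intro t q
    rw [← pf (m' * (t + 1)) (m' * q)]
    congr 2
    ring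

def pm (s : I → Equiv.Perm ℕ) (l : Lt) : Equiv.Perm ℕ := cond l.2 (s l.1) (s l.1)⁻¹

lemma prod_fw (s : I → Equiv.Perm ℕ) (L : List Lt) (q : ℕ) :
    ((List.range (L.length * q)).map fun t => pm s (bar (fw L t))).prod =
      (L.map (pm s)).prod ^ q := by
  induction q with
  | zero => simp
  | succ q ih =>
    rw [Nat.mul_succ, List.range_add, List.map_append, List.prod_append, ih, pow_succ]
    congr 2
    apply List.ext_getElem
    · simp
    · intro i h1 h2
      have hi : i < L.length := by simpa using h2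
      simp [fw, Nat.mod_eq_of_lt hi, hi]

theorem exists_action : ∃ s : I → Equiv.Perm ℕ,
    (∀ v i j, s i v = v → s j v = v → i = j) ∧
    (∀ v, ∃ i j, i ≠ j ∧ s (i + 1) (s i v) = s i v ∧ s (j + 1) (s j v) = s j v) ∧
    ∀ (g : FreeGroup I) (v : ℕ), ∃ q, 0 < q ∧ (FreeGroup.lift s g ^ q) v = v := by
  classical
  let D : (Lt × ℕ) ⊕ ℕ ⊕ (List Lt × ℕ) → Order.Cofinal P := fun x =>
    match x with
    | Sum.inl (l, u) => ⟨{E | ∃ w, (l, u, w) ∈ E.1}, fun E => by
        obtain ⟨E', h1, h2, h3⟩ := ext_edge E.2 l u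
        exact ⟨⟨E', h2⟩, h3, h1⟩⟩
    | Sum.inr (Sum.inl v) => ⟨{E | Sat E.1 v}, fun E => by
        obtain ⟨E', h1, h2, h3⟩ := ext_sat E.2 v
        exact ⟨⟨E', h2⟩, h3, h1⟩⟩
    | Sum.inr (Sum.inr (L, o)) => ⟨{E | FreeGroup.IsCyclicallyReduced L → L ≠ [] →
        ∃ q, 0 < q ∧ W E.1 (fw L) o (L.length * q) o}, fun E => by
        by_cases h : FreeGroup.IsCyclicallyReduced L ∧ L ≠ []
        · obtain ⟨E', h1, h2, h3⟩ := ext_word L h.1 h.2 o E.2
          exact ⟨⟨E', h2⟩, fun _ _ => h3, h1⟩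
        · exact ⟨E, fun a b => absurd ⟨a, b⟩ h, le_rfl⟩⟩
  have c0 : Cond ∅ 2 := ⟨⟨finite_empty, by simp, by simp, by simp⟩, fun v =>
    (Fresh.rm (E := ∅) (c := v) (fun _ _ h => h)).weak (by norm_num)⟩
  letI : Encodable ((Lt × ℕ) ⊕ ℕ ⊕ (List Lt × ℕ)) := Encodable.ofCountable _
  let e : ℕ → P := Order.sequenceOfCofinals ⟨∅, c0⟩ D
  have emono : Monotone e := Order.sequenceOfCofinals.monotone _ _
  have emem : ∀ x, ∃ n, e n ∈ D x := fun x => ⟨_, Order.sequenceOfCofinals.encode_mem _ D x⟩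
  let R : Lt → ℕ → ℕ → Prop := fun l u v => ∃ n, (l, u, v) ∈ (e n).1
  have both : ∀ {x y : Lt × ℕ × ℕ}, (∃ n, x ∈ (e n).1) → (∃ n, y ∈ (e n).1) →
      ∃ n, x ∈ (e n).1 ∧ y ∈ (e n).1 := by
    rintro x y ⟨a, ha⟩ ⟨b, hb⟩
    exact ⟨max a b, emono (le_max_left a b) ha, emono (le_max_right a b) hb⟩
  have tot : ∀ l u, ∃ v, R l u v := fun l u => by
    obtain ⟨n, w, hw⟩ := emem (Sum.inl (l, u))
    exact ⟨w, n, hw⟩
  choose σ hσ using tot
  have uniq : ∀ {l u v}, R l u v → σ l u = v := fun {l u v} h => by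
    obtain ⟨n, h1, h2⟩ := both (hσ l u) h
    exact (e n).2.1.func _ _ _ _ h1 h2
  have inv : ∀ l u, σ (bar l) (σ l u) = u := fun l u => by
    obtain ⟨n, hn⟩ := hσ l u
    exact uniq ⟨n, (e n).2.1.symm _ _ _ hn⟩
  let s : I → Equiv.Perm ℕ := fun i =>
    ⟨σ (i, true), σ (i, false), inv (i, true), inv (i, false)⟩
  have hpm : ∀ l u, pm s l u = σ l u := by
    rintro ⟨i, b⟩ u
    cases b <;> rfl
  refine ⟨s, ?_, ?_, ?_⟩
  · intro v i j hi hj
    have h1 := hσ (i, true) v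
    have h2 := hσ (j, true) v
    rw [show σ (i, true) v = v from hi] at h1
    rw [show σ (j, true) v = v from hj] at h2
    obtain ⟨n, h1, h2⟩ := both h1 h2
    exact (e n).2.1.loops _ _ _ h1 h2
  · intro v
    obtain ⟨n, i, j, hij, ⟨a, ha, ha'⟩, ⟨b, hb, hb'⟩⟩ := emem (Sum.inr (Sum.inl v))
    refine ⟨i, j, hij, ?_, ?_⟩
    · rw [show s i v = a from uniq ⟨n, ha⟩]; exact uniq ⟨n, ha'⟩
    · rw [show s j v = b from uniq ⟨n, hb⟩]; exact uniq ⟨n, hb'⟩
  · have walk : ∀ n f o k u, W (e n).1 f o k u →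
        ((List.range k).map fun t => pm s (bar (f t))).prod u = o := by
      intro n f o k
      induction k with
      | zero => intro u h; exact h
      | succ k ih =>
        rintro u ⟨v, h1, h2⟩
        rw [List.range_succ, List.map_append, List.prod_append, Equiv.Perm.mul_apply]
        simp only [List.map_cons, List.map_nil, List.prod_cons, List.prod_nil, mul_one]
        rw [hpm, uniq ⟨n, (e n).2.1.symm _ _ _ h2⟩]
        exact ih v h1
    have cyc : ∀ (L : List Lt), FreeGroup.IsCyclicallyReduced L → ∀ o,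
        ∃ q, 0 < q ∧ (FreeGroup.lift s (FreeGroup.mk L) ^ q) o = o := by
      intro L hL o
      by_cases hne : L = []
      · subst hne; exact ⟨1, one_pos, rfl⟩
      obtain ⟨n, hn⟩ := emem (Sum.inr (Sum.inr (L, o)))
      obtain ⟨q, hq, hw⟩ := hn hL hne
      refine ⟨q, hq, ?_⟩
      have := walk _ _ _ _ _ hw
      rw [prod_fw] at this
      exact this
    intro g v
    have hg : g = FreeGroup.mk (FreeGroup.reduceCyclically.conjugator g.toWord) *
        FreeGroup.mk (FreeGroup.reduceCyclically g.toWord) *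
        (FreeGroup.mk (FreeGroup.reduceCyclically.conjugator g.toWord))⁻¹ := by
      rw [FreeGroup.inv_mk, FreeGroup.mul_mk, FreeGroup.mul_mk,
        FreeGroup.reduceCyclically.conj_conjugator_reduceCyclically, FreeGroup.mk_toWord]
    set c := FreeGroup.mk (FreeGroup.reduceCyclically.conjugator g.toWord)
    obtain ⟨q, hq, h⟩ := cyc _
      (FreeGroup.reduceCyclically.isCyclicallyReduced (L := g.toWord) FreeGroup.isReduced_toWord)
      ((FreeGroup.lift s c)⁻¹ v)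
    refine ⟨q, hq, ?_⟩
    rw [hg, map_mul, map_mul, map_inv, conj_pow, Equiv.Perm.mul_apply, Equiv.Perm.mul_apply, h]
    simp

end Pool.Agent.H71.Boom
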