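import Mathlib

set_option autoImplicit false

namespace Pool.Agent.H71.Br

open scoped commutatorElement
open Subgroup Function Equiv

/-- position of the rooted part -/
def sN (k : ℕ) : ℕ := (k + 1) * 5 ^ k
/-- valency -/
def n (k : ℕ) : ℕ := 3 * sN k

theorem sN_pos (k : ℕ) : 0 < sN k := by unfold sN; positivity
instance (k : ℕ) : NeZero (n k) := ⟨by have := sN_pos k; unfold n; omega⟩

/-- alphabets -/
abbrev X (k : ℕ) : Type := ZMod (n k)
/-- boundary -/
abbrev Ω : Type := (k : ℕ) → X k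
/-- position of the rooted part -/
def s (k : ℕ) : X k := (sN k : ℤ)

theorem small {k : ℕ} {d : ℤ} (h : (d : X k) = 0) (h' : |d| < 3 * sN k) : d = 0 :=
  Int.eq_zero_of_abs_lt_dvd ((ZMod.intCast_zmod_eq_zero_iff_dvd d _).1 h) (by simpa [n] using h')

theorem s_ne (k : ℕ) : s k ≠ 0 := fun h => by
  have := sN_pos k
  have := small h (by rw [abs_of_nonneg] <;> omega)
  omega

theorem s2_ne (k : ℕ) : s k + s k ≠ 0 := fun h => by
  have := sN_pos k
  have := small (d := sN k + sN k) (by rw [Int.cast_add]; exact h)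
    (by rw [abs_of_nonneg] <;> omega)
  omega

/-- agreement below level `k` -/
def Ag (k : ℕ) (ω ω' : Ω) : Prop := ∀ j < k, ω j = ω' j

theorem Ag.rf (k : ℕ) (ω : Ω) : Ag k ω ω := fun _ _ => rfl
theorem Ag.sy {k : ℕ} {ω ω' : Ω} (h : Ag k ω ω') : Ag k ω' ω := fun j hj => (h j hj).symm
theorem Ag.tr {k : ℕ} {ω ω' ω'' : Ω} (h : Ag k ω ω') (h' : Ag k ω' ω'') : Ag k ω ω'' :=
  fun j hj => (h j hj).trans (h' j hj)
theorem Ag.mono {k l : ℕ} {ω ω' : Ω} (h : Ag k ω ω') (hl : l ≤ k) : Ag l ω ω' :=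
  fun j hj => h j (hj.trans_le hl)
theorem ag_succ {k : ℕ} {ω ω' : Ω} : Ag (k + 1) ω ω' ↔ Ag k ω ω' ∧ ω k = ω' k :=
  ⟨fun h => ⟨h.mono k.le_succ, h k k.lt_succ_self⟩, fun h j hj =>
    (Nat.lt_succ_iff_lt_or_eq.1 hj).elim (h.1 j) fun e => e ▸ h.2⟩

/-- label functions depending only on earlier coordinates -/
def Tri (t : Ω → Ω) : Prop := ∀ k ω ω', Ag k ω ω' → t ω k = t ω' k

theorem Tri.bij {t : Ω → Ω} (h : Tri t) : Bijective fun ω => ω + t ω := by
  constructor
  · intro ω ω' e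
    have : ∀ k, Ag k ω ω' := fun k => by
      induction k with
      | zero => exact fun j hj => absurd hj (Nat.not_lt_zero j)
      | succ k ih =>
        refine ag_succ.2 ⟨ih, ?_⟩
        have : ω k + t ω k = ω' k + t ω' k := congrFun e k
        rw [h k _ _ ih] at this
        exact add_right_cancel this
    exact funext fun k => this (k + 1) k k.lt_succ_self
  · intro η
    let f : ℕ → Ω := fun k => (fun ω => η - t ω)^[k] 0
    have h1 : ∀ k, Ag k (f k) (f (k + 1)) := fun k => by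
      induction k with
      | zero => exact fun j hj => absurd hj (Nat.not_lt_zero j)
      | succ k ih =>
        intro j hj
        simp only [f, iterate_succ_apply', Pi.sub_apply] at ih ⊢
        rw [h j _ _ (ih.mono (Nat.lt_succ_iff.1 hj))]
    have h2 : ∀ k l, k ≤ l → Ag k (f k) (f l) := fun k l hl => by
      induction hl with
      | refl => exact Ag.rf _ _
      | step hl ih => exact ih.tr ((h1 _).mono hl)
    refine ⟨fun k => f (k + 1) k, funext fun k => ?_⟩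
    have : t (fun k => f (k + 1) k) k = t (f k) k :=
      h k _ _ fun j hj => h2 (j + 1) k hj j j.lt_succ_self
    simp only [Pi.add_apply, this]
    simp [f, iterate_succ_apply']

/-- rooted generator -/
def a (k : ℕ) : Perm Ω := Equiv.addRight (Pi.single k 1)

open Classical in
/-- labels of the directed generator -/
noncomputable def tb (k : ℕ) (ω : Ω) : Ω
  | 0 => 0
  | j + 1 => if k ≤ j ∧ ω j = s j ∧ ∀ i < j, k ≤ i → ω i = 0 then 1 else 0

theorem tb_tri (k : ℕ) : Tri (tb k) := by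
  rintro (_ | j) ω ω' h
  · rfl
  · simp only [tb, h j j.lt_succ_self]
    refine if_congr (and_congr_right fun _ => and_congr_right fun _ =>
      forall₂_congr fun i hi => ?_) rfl rfl
    rw [h i (hi.trans j.lt_succ_self)]

/-- directed generator -/
noncomputable def b (k : ℕ) : Perm Ω := Equiv.ofBijective _ (tb_tri k).bij

theorem a_ap (k : ℕ) (ω : Ω) : a k ω = ω + Pi.single k 1 := rfl
theorem b_ap (k : ℕ) (ω : Ω) : b k ω = ω + tb k ω := rfl

theorem a_zpow (k : ℕ) (i : ℤ) (ω : Ω) : (a k ^ i) ω = ω + Pi.single k (i : X k) := by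
  induction i using Int.induction_on with
  | zero => simp
  | succ i ih =>
    rw [add_comm, zpow_one_add, Perm.mul_apply, ih, a_ap]
    simp [Pi.single_add, add_comm, add_left_comm]
  | pred i ih =>
    rw [sub_eq_neg_add, zpow_add, Perm.mul_apply, ih, zpow_neg_one, Perm.inv_eq_iff_eq, a_ap]
    simp [add_assoc, ← Pi.single_add]

theorem tb_low {k j : ℕ} (h : j ≤ k) (ω : Ω) : tb k ω j = 0 := by
  rcases j with _ | j
  · rfl
  · exact if_neg fun e => by omega

theorem b_rec (k : ℕ) (ω : Ω) :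
    b k ω = if ω k = 0 then b (k + 1) ω else if ω k = s k then a (k + 1) ω else ω := by
  have key : ∀ j, tb k ω j = if ω k = 0 then tb (k + 1) ω j else if ω k = s k then
      (Pi.single (k + 1) 1 : Ω) j else 0 := fun j => by
    rcases lt_trichotomy j (k + 1) with h | rfl | h
    · simp [tb_low (Nat.lt_succ_iff.1 h), tb_low h.le, Pi.single_eq_of_ne h.ne]
    · rw [tb_low le_rfl, Pi.single_eq_same]
      have : ∀ i < k, k ≤ i → ω i = 0 := fun i h h' => absurd h h'.not_gt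
      by_cases h0 : ω k = 0
      · simp [tb, h0, (s_ne k).symm]
      · simp only [tb, le_refl, true_and, if_neg h0]
        exact if_congr (and_iff_left this) rfl rfl
    · obtain ⟨j, rfl⟩ : ∃ i, j = i + 1 := ⟨j - 1, by omega⟩
      rw [Pi.single_eq_of_ne h.ne', ite_self]
      by_cases h0 : ω k = 0
      · simp only [tb, if_pos h0]
        refine if_congr (and_congr (by omega) (and_congr_right fun _ => forall₂_congr fun i hi =>
          ⟨fun e e' => e (by omega), fun e e' => ?_⟩)) rfl rfl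
        rcases e'.eq_or_lt with rfl | e'
        exacts [h0, e e']
      · rw [if_neg h0]
        exact if_neg fun e => h0 (e.2.2 k (by omega) le_rfl)
  funext j
  rw [b_ap, Pi.add_apply, key]
  split_ifs <;> simp [a_ap, b_ap]

/-- permutations acting by triangular translations only on coordinates from `k` on -/
def U (k : ℕ) : Subgroup (Perm Ω) where
  carrier := {g | (∀ ω, Ag k (g ω) ω) ∧
    ∀ j ω ω', (∀ i < j, k ≤ i → ω i = ω' i) → g ω j - ω j = g ω' j - ω' j}
  one_mem' := ⟨fun _ => Ag.rf _ _, fun _ _ _ _ => by simp⟩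
  mul_mem' := by
    rintro g h ⟨h1, h2⟩ ⟨h3, h4⟩
    refine ⟨fun ω => (h1 _).tr (h3 _), fun j ω ω' e => ?_⟩
    have := h2 j (h ω) (h ω') fun i hi hk => by
      linear_combination h4 i ω ω' (fun l hl => e l (hl.trans hi)) + e i hi hk
    simp only [Perm.mul_apply]
    linear_combination this + h4 j ω ω' e
  inv_mem' := by
    rintro g ⟨h1, h2⟩
    refine ⟨fun ω => by simpa using (h1 (g⁻¹ ω)).sy, fun j ω ω' e => ?_⟩
    have : ∀ i ≤ j, ∀ l < i, k ≤ l → g⁻¹ ω l = g⁻¹ ω' l := fun i => by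
      induction i with
      | zero => exact fun _ l hl => absurd hl (Nat.not_lt_zero l)
      | succ i ih =>
        intro hi l hl hk
        rcases (Nat.lt_succ_iff_lt_or_eq.1 hl) with hl | rfl
        · exact ih (by omega) l hl hk
        · have := h2 l _ _ (ih (by omega))
          simp only [Perm.coe_inv, apply_symm_apply] at this ⊢
          linear_combination e l hi hk - this
    have := h2 j _ _ (this j le_rfl)
    simp only [Perm.coe_inv, apply_symm_apply] at this ⊢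
    linear_combination -this

theorem U.up {k : ℕ} {g : Perm Ω} (h : g ∈ U k) {ω ω' : Ω} (e : ∀ i, k ≤ i → ω i = ω' i) (j : ℕ)
    (hj : k ≤ j) : g ω j = g ω' j := by
  linear_combination h.2 j ω ω' (fun i _ => e i) + e j hj

theorem U.ag {k l : ℕ} {g : Perm Ω} (h : g ∈ U k) {ω ω' : Ω} (e : Ag l ω ω') :
    Ag l (g ω) (g ω') := fun j hj => by
  linear_combination h.2 j ω ω' (fun i hi _ => e i (hi.trans hj)) + e j hj

theorem a_U (k : ℕ) : a k ∈ U k :=
  ⟨fun ω j hj => by simp [a_ap, Pi.single_eq_of_ne hj.ne], fun j ω ω' _ => by simp [a_ap]⟩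

theorem b_low {k j : ℕ} (h : j ≤ k) (ω : Ω) : b k ω j = ω j := by simp [b_ap, tb_low h]

theorem b_U (k : ℕ) : b k ∈ U k := by
  refine ⟨fun ω j hj => b_low hj.le ω, fun j ω ω' e => ?_⟩
  simp only [b_ap, Pi.add_apply, add_sub_cancel_left]
  rcases j with _ | j
  · rfl
  · refine if_congr (and_congr_right fun hj => and_congr (by rw [e j j.lt_succ_self hj])
      (forall₂_congr fun i hi => forall_congr' fun hk => ?_)) rfl rfl
    rw [e i (hi.trans j.lt_succ_self) hk]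

/-- the group at level `k` -/
def G (k : ℕ) : Subgroup (Perm Ω) := closure {a k, b k}

theorem a_G (k : ℕ) : a k ∈ G k := subset_closure (Or.inl rfl)
theorem b_G (k : ℕ) : b k ∈ G k := subset_closure (Or.inr rfl)
theorem G_le {k : ℕ} {H : Subgroup (Perm Ω)} (ha : a k ∈ H) (hb : b k ∈ H) : G k ≤ H :=
  (closure_le _).2 (by rintro _ (rfl | rfl); exacts [ha, hb])
theorem G_U (k : ℕ) : G k ≤ U k := G_le (a_U k) (b_U k)

/-- words of bounded length -/
inductive Wd (k : ℕ) : ℕ → Perm Ω → Prop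
  | one (L : ℕ) : Wd k L 1
  | mul (L : ℕ) (c g : Perm Ω) : c = a k ∨ c = b k ∨ c = (a k)⁻¹ ∨ c = (b k)⁻¹ → Wd k L g →
      Wd k (L + 1) (c * g)

theorem Wd.mem {k L : ℕ} {g : Perm Ω} (h : Wd k L g) : g ∈ G k := by
  induction h with
  | one => exact one_mem _
  | mul L c g hc _ ih =>
    refine mul_mem ?_ ih
    rcases hc with rfl | rfl | rfl | rfl
    exacts [a_G k, b_G k, inv_mem (a_G k), inv_mem (b_G k)]

theorem Wd.mono {k L L' : ℕ} {g : Perm Ω} (h : Wd k L g) (hL : L ≤ L') : Wd k L' g := by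
  induction h generalizing L' with
  | one => exact .one _
  | mul L c g hc _ ih =>
    obtain ⟨M, rfl⟩ : ∃ M, L' = M + 1 := ⟨L' - 1, by omega⟩
    exact .mul _ _ _ hc (ih (by omega))

theorem Wd.mul' {k L L' : ℕ} {g g' : Perm Ω} (h : Wd k L g) (h' : Wd k L' g') :
    Wd k (L' + L) (g * g') := by
  induction h with
  | one => simpa using h'.mono (Nat.le_add_right _ _)
  | mul L c g hc _ ih => rw [mul_assoc]; exact .mul _ _ _ hc ih

theorem Wd.inv {k L : ℕ} {g : Perm Ω} (h : Wd k L g) : Wd k L g⁻¹ := by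
  induction h with
  | one => exact .one _
  | mul L c g hc _ ih =>
    have : Wd k 1 (c⁻¹ * 1) := .mul _ _ _ (by rcases hc with rfl | rfl | rfl | rfl <;> simp) (.one 0)
    simpa [add_comm] using ih.mul' this

theorem ex_Wd {k : ℕ} {g : Perm Ω} (h : g ∈ G k) : ∃ L, Wd k L g := by
  induction h using closure_induction with
  | mem x hx => exact ⟨1, mul_one x ▸ .mul _ _ _ (by rcases hx with rfl | rfl <;> simp) (.one 0)⟩
  | one => exact ⟨0, .one 0⟩
  | mul x y _ _ hx hy => exact ⟨_, hx.choose_spec.mul' hy.choose_spec⟩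
  | inv x _ hx => exact ⟨_, hx.choose_spec.inv⟩

/-- `h` is the section of `g` at the vertex of level `k` on `ω` -/
def Sec (k : ℕ) (g : Perm Ω) (ω : Ω) (h : Perm Ω) : Prop :=
  ∀ ω', Ag k ω ω' → ∀ j, k ≤ j → g ω' j = h ω' j

theorem b_inv_rec (k : ℕ) (ω : Ω) : (b k)⁻¹ ω =
    if ω k = 0 then (b (k + 1))⁻¹ ω else if ω k = s k then (a (k + 1))⁻¹ ω else ω := by
  rw [Perm.inv_eq_iff_eq, b_rec]
  have h1 : (b (k + 1))⁻¹ ω k = ω k := (inv_mem (b_U _)).1 ω k k.lt_succ_self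
  have h2 : (a (k + 1))⁻¹ ω k = ω k := (inv_mem (a_U _)).1 ω k k.lt_succ_self
  by_cases h0 : ω k = 0
  · simp only [if_pos h0, if_pos (h1.trans h0)]
    simp
  · by_cases hs : ω k = s k
    · simp only [if_neg h0, if_pos hs, h2]
      simp
    · simp only [if_neg h0, if_neg hs]

/-- description of a first-level section -/
def Stp (k L : ℕ) (g : Perm Ω) (ω : Ω) : Prop := ∃ (d : ℤ) (u : Perm Ω),
    |d| ≤ L ∧ g ω k = ω k + d ∧ Wd (k + 1) L u ∧ Sec (k + 1) g ω u ∧
    ((∀ e : ℤ, |e| ≤ L → ω k + e ≠ s k) → u ∈ zpowers (b (k + 1))) ∧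
    ((∀ e : ℤ, |e| ≤ L → ω k + e ≠ 0) → u ∈ zpowers (a (k + 1)))

theorem step {k L : ℕ} {g : Perm Ω} (h : Wd k L g) (ω : Ω) : Stp k L g ω := by
  induction h with
  | one L => exact ⟨0, 1, by simp, by simp, .one _, fun _ _ _ _ => rfl, fun _ => one_mem _,
      fun _ => one_mem _⟩
  | mul L c g hc hg ih =>
    obtain ⟨d, u, h1, h2, h3, h4, h5, h6⟩ := ih
    have h7 : ∀ ω', Ag (k + 1) ω ω' → g ω' k = ω k + d := fun ω' e =>
      (U.ag (G_U k hg.mem) e k k.lt_succ_self).symm.trans h2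
    have A : ∀ i : ℤ, |i| ≤ 1 → c = a k ^ i → Stp k (L + 1) (c * g) ω := fun i hi e =>
      ⟨d + i, u, by have := abs_add_le d i; omega, by simp [e, a_zpow, h2, add_assoc],
        h3.mono L.le_succ, fun ω' e' j hj => by
          simp [e, a_zpow, Pi.single_eq_of_ne (show j ≠ k by omega), h4 ω' e' j hj],
        fun H => h5 fun e he => H e (by omega), fun H => h6 fun e he => H e (by omega)⟩
    have B : ∀ x y : Perm Ω,
        (x = b (k + 1) ∧ y = a (k + 1) ∨ x = (b (k + 1))⁻¹ ∧ y = (a (k + 1))⁻¹) →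
        (∀ ω, c ω = if ω k = 0 then x ω else if ω k = s k then y ω else ω) →
        (∀ ω, c ω k = ω k) → Stp k (L + 1) (c * g) ω := by
      intro x y hxy hc hk
      have hx : x ∈ zpowers (b (k + 1)) := by rcases hxy with ⟨rfl, -⟩ | ⟨rfl, -⟩ <;> simp
      have hy : y ∈ zpowers (a (k + 1)) := by rcases hxy with ⟨-, rfl⟩ | ⟨-, rfl⟩ <;> simp
      have hx' := G_U _ ((zpowers_le_of_mem (b_G _)) hx)
      have hy' := G_U _ ((zpowers_le_of_mem (a_G _)) hy)
      have hd : |d| ≤ (L + 1 : ℕ) := by omega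
      refine ⟨d, ?_⟩
      by_cases h0 : ω k + d = 0
      · refine ⟨x * u, hd, (hk _).trans h2, .mul _ _ _ (by tauto) h3, fun ω' e j hj => ?_,
          fun H => mul_mem hx (h5 fun e he => H e (by omega)), fun H => absurd h0 (H d hd)⟩
        rw [Perm.mul_apply, hc, h7 _ e, if_pos h0]
        exact U.up hx' (h4 ω' e) j hj
      · by_cases hs : ω k + d = s k
        · refine ⟨y * u, hd, (hk _).trans h2, .mul _ _ _ (by tauto) h3, fun ω' e j hj => ?_,
            fun H => absurd hs (H d hd), fun H => mul_mem hy (h6 fun e he => H e (by omega))⟩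
          rw [Perm.mul_apply, hc, h7 _ e, if_neg h0, if_pos hs]
          exact U.up hy' (h4 ω' e) j hj
        · refine ⟨u, hd, (hk _).trans h2, h3.mono L.le_succ, fun ω' e j hj => ?_,
            fun H => h5 fun e he => H e (by omega), fun H => h6 fun e he => H e (by omega)⟩
          rw [Perm.mul_apply, hc, h7 _ e, if_neg h0, if_neg hs]
          exact h4 ω' e j hj
    rcases hc with rfl | rfl | rfl | rfl
    · exact A 1 (by simp) (by simp)
    · exact B _ _ (Or.inl ⟨rfl, rfl⟩) (b_rec k) (b_low le_rfl)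
    · exact A (-1) (by simp) (by simp)
    · exact B _ _ (Or.inr ⟨rfl, rfl⟩) (b_inv_rec k) fun ω => by
        simpa using (b_low (k := k) le_rfl ((b k)⁻¹ ω)).symm

theorem sec {L : ℕ} {g : Perm Ω} (h : Wd 0 L g) (k : ℕ) (ω : Ω) :
    ∃ u, Wd k L u ∧ Sec k g ω u := by
  induction k with
  | zero => exact ⟨g, h, fun _ _ _ _ => rfl⟩
  | succ k ih =>
    obtain ⟨u, h1, h2⟩ := ih
    obtain ⟨-, v, -, -, h3, h4, -⟩ := step h1 ω
    exact ⟨v, h3, fun ω' e j hj => (h2 ω' (e.mono k.le_succ) j (by omega)).trans (h4 ω' e j hj)⟩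

/-- level stabiliser -/
def St (k : ℕ) : Subgroup (Perm Ω) where
  carrier := {g | ∀ ω, Ag k (g ω) ω}
  one_mem' := fun _ => Ag.rf _ _
  mul_mem' := fun h h' ω => (h _).tr (h' ω)
  inv_mem' := fun {g} h ω => by simpa using (h (g⁻¹ ω)).sy

theorem Sec.eq {k : ℕ} {g u : Perm Ω} {ω : Ω} (h : Sec k g ω u) (hg : g ∈ St k) (hu : u ∈ U k)
    {ω' : Ω} (e : Ag k ω ω') : g ω' = u ω' := funext fun j =>
  (lt_or_ge j k).elim (fun hj => (hg _ j hj).trans (hu.1 _ j hj).symm) (h ω' e j)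

theorem comm {k L : ℕ} (hL : 2 * L < sN k) {g h : Perm Ω} (hg : Wd 0 L g) (hh : Wd 0 L h)
    (sg : g ∈ St (k + 1)) (sh : h ∈ St (k + 1)) : g * h = h * g := by
  ext1 ω
  have key : ∀ {g}, Wd 0 L g → g ∈ St (k + 1) → ∃ u, u ∈ U (k + 1) ∧
      (∀ ω', Ag (k + 1) ω ω' → g ω' = u ω') ∧
      ((∀ e : ℤ, |e| ≤ L → ω k + e ≠ s k) → u ∈ zpowers (b (k + 1))) ∧
      ((∀ e : ℤ, |e| ≤ L → ω k + e ≠ 0) → u ∈ zpowers (a (k + 1))) := fun hg sg => by
    obtain ⟨u, h1, h2⟩ := sec hg k ω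
    obtain ⟨-, v, -, -, h3, h4, h5⟩ := step h1 ω
    exact ⟨v, G_U _ h3.mem, fun ω' e => Sec.eq (fun ω' e j hj =>
      (h2 ω' (e.mono k.le_succ) j (by omega)).trans (h4 ω' e j hj)) sg (G_U _ h3.mem) e, h5⟩
  obtain ⟨u, hu, h1, h2, h3⟩ := key hg sg
  obtain ⟨v, hv, h4, h5, h6⟩ := key hh sh
  have : u * v = v * u := by
    by_cases H : ∀ e : ℤ, |e| ≤ L → ω k + e ≠ s k
    · obtain ⟨i, rfl⟩ := h2 H
      obtain ⟨j, rfl⟩ := h5 H
      exact zpow_mul_comm _ _ _
    · have H' : ∀ e : ℤ, |e| ≤ L → ω k + e ≠ 0 := fun e he h0 => H fun e' he' hs => by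
        have := small (k := k) (d := sN k + e - e') (by
          rw [Int.cast_sub, Int.cast_add]
          change s k + _ - _ = 0
          linear_combination h0 - hs) (by rw [abs_le] at he he'; rw [abs_lt]; omega)
        rw [abs_le] at he he'; omega
      obtain ⟨i, rfl⟩ := h3 H'
      obtain ⟨j, rfl⟩ := h6 H'
      exact zpow_mul_comm _ _ _
  rw [Perm.mul_apply, Perm.mul_apply, h1 _ (sh ω).sy, h4 _ (sg ω).sy, h1 _ (Ag.rf _ _),
    h4 _ (Ag.rf _ _), ← Perm.mul_apply, this, Perm.mul_apply]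

theorem St_comm {k : ℕ} {g h : Perm Ω} (hg : g ∈ U 0) (hh : h ∈ U 0) (sg : g ∈ St k)
    (sh : h ∈ St k) : g⁻¹ * h⁻¹ * g * h ∈ St (k + 1) := fun ω => by
  have : Ag (k + 1) ((g * h) ω) ((h * g) ω) := ag_succ.2 ⟨(mul_mem sg sh ω).tr (mul_mem sh sg ω).sy,
    by
      simp only [Perm.mul_apply]
      linear_combination hg.2 k (h ω) ω (fun i hi _ => sh ω i hi) -
        hh.2 k (g ω) ω (fun i hi _ => sg ω i hi)⟩
  simpa [mul_assoc] using U.ag (inv_mem (mul_mem hh hg)) this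

theorem St_conj {k : ℕ} {g y : Perm Ω} (hy : y ∈ U 0) (sg : g ∈ St k) : y⁻¹ * g * y ∈ St k :=
  fun ω => by simpa using U.ag (inv_mem hy) (sg (y ω))

theorem iter {x y : Perm Ω} (hx : x ∈ G 0) (hy : y ∈ G 0) (e : ℕ → Perm Ω) (h0 : e 0 = x)
    (h : ∀ k, e (k + 1) = (e k)⁻¹ * (y⁻¹ * e k * y)⁻¹ * e k * (y⁻¹ * e k * y)) : ∃ m, e m = 1 := by
  obtain ⟨L, hL⟩ := ex_Wd hx
  obtain ⟨M, hM⟩ := ex_Wd hy
  have cj : ∀ {K g}, Wd 0 K g → Wd 0 (K + 2 * M) (y⁻¹ * g * y) := fun hg =>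
    ((hM.inv.mul' hg).mul' hM).mono (by omega)
  have key : ∀ k, e k ∈ St k ∧ Wd 0 (5 ^ k * (L + 4 * M)) (e k) := fun k => by
    induction k with
    | zero => exact ⟨fun _ j hj => absurd hj (Nat.not_lt_zero j), h0 ▸ hL.mono (by omega)⟩
    | succ k ih =>
      rw [h]
      refine ⟨St_comm (G_U 0 ih.2.mem) (G_U 0 (cj ih.2).mem) ih.1 (St_conj (G_U 0 hy) ih.1),
        (((ih.2.inv.mul' (cj ih.2).inv).mul' ih.2).mul' (cj ih.2)).mono ?_⟩
      have : L + 4 * M ≤ 5 ^ k * (L + 4 * M) := Nat.le_mul_of_pos_left _ (by positivity)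
      rw [pow_succ, mul_right_comm]
      omega
  set k := 12 * (L + 4 * M)
  have : 2 * (5 ^ (k + 1) * (L + 4 * M) + 2 * M) < sN k := by
    have h1 : 0 < 5 ^ k := by positivity
    have h2 : L + 4 * M ≤ 5 ^ k * (L + 4 * M) := Nat.le_mul_of_pos_left _ h1
    have h3 : sN k = 12 * (5 ^ k * (L + 4 * M)) + 5 ^ k := by
      rw [sN, add_mul, one_mul, mul_comm (5 ^ k), ← mul_assoc]
    rw [h3, pow_succ, mul_right_comm]
    omega
  have := comm this ((key (k + 1)).2.mono (Nat.le_add_right _ _)) (cj (key _).2) (key _).1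
    (St_conj (G_U 0 hy) (key _).1)
  exact ⟨k + 2, by rw [h, mul_assoc, this]; group⟩

theorem b_inf {m : ℕ} (hm : 0 < m) : b 0 ^ m ≠ 1 := fun h => by
  classical
  let ω : Ω := Pi.single m (s m)
  have key : ∀ i : ℕ, Ag (m + 1) ((b 0 ^ i) ω) ω ∧ (b 0 ^ i) ω (m + 1) = i := fun i => by
    induction i with
    | zero => exact ⟨Ag.rf _ _, by simp [ω]⟩
    | succ i ih =>
      have h0 : ∀ j < m, (b 0 ^ i) ω j = 0 := fun j hj =>
        (ih.1 j (by omega)).trans (Pi.single_eq_of_ne hj.ne _)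
      rw [pow_succ', Perm.mul_apply, b_ap]
      refine ⟨fun j hj => ?_, ?_⟩
      · rw [Pi.add_apply, ih.1 j hj, add_eq_left]
        rcases j with _ | j
        · rfl
        · exact if_neg fun e => s_ne j (e.2.1.symm.trans (h0 j (by omega)))
      · rw [Pi.add_apply, ih.2, tb, if_pos, Nat.cast_succ]
        exact ⟨m.zero_le, (ih.1 m m.lt_succ_self).trans (Pi.single_eq_same _ _),
          fun j hj _ => h0 j hj⟩
  have := (key m).2
  rw [h, Perm.one_apply, show ω (m + 1) = 0 from Pi.single_eq_of_ne m.succ_ne_self _] at this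
  have := small (k := m + 1) (d := m) (by simpa using this.symm) (by
    have : m + 1 + 1 ≤ sN (m + 1) := Nat.le_mul_of_pos_right _ (by positivity)
    rw [abs_of_nonneg] <;> omega)
  omega

/-- conjugates of the directed generator -/
noncomputable def cc (k : ℕ) (x : X k) : Perm Ω := a k ^ (x.val : ℤ) * b k * (a k ^ (x.val : ℤ))⁻¹

theorem cc_G (k : ℕ) (x : X k) : cc k x ∈ G k :=
  mul_mem (mul_mem (zpow_mem (a_G k) _) (b_G k)) (inv_mem (zpow_mem (a_G k) _))

theorem U.sh {k : ℕ} {u : Perm Ω} (hu : u ∈ U (k + 1)) (ω : Ω) (x : X k) :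
    u (ω + Pi.single k x) = u ω + Pi.single k x := funext fun j => by
  have := hu.2 j (ω + Pi.single k x) ω fun i _ hi => by
    simp [Pi.single_eq_of_ne (show i ≠ k by omega)]
  simp only [Pi.add_apply] at this ⊢
  linear_combination this

theorem cc_ap (k : ℕ) (x : X k) (ω : Ω) : cc k x ω =
    if ω k = x then b (k + 1) ω else if ω k = x + s k then a (k + 1) ω else ω := by
  rw [cc, ← zpow_neg, Perm.mul_apply, Perm.mul_apply, a_zpow, a_zpow, b_rec, U.sh (b_U _),
    U.sh (a_U _)]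
  simp only [Int.cast_neg, Int.cast_natCast, ZMod.natCast_zmod_val, Pi.add_apply,
    Pi.single_eq_same, zero_add, add_neg_eq_iff_eq_add, add_comm (s k)]
  split_ifs <;> simp [add_assoc, ← Pi.single_add]

/-- elements induced on a cone -/
def On (k : ℕ) (ω : Ω) : Subgroup (Perm Ω) where
  carrier := {h | h ∈ U k ∧ ∃ g ∈ G 0, ∀ ω', Ag k ω ω' → g ω' = h ω'}
  one_mem' := ⟨one_mem _, 1, one_mem _, fun _ _ => rfl⟩
  mul_mem' := by
    rintro h h' ⟨hu, g, hg, e⟩ ⟨hu', g', hg', e'⟩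
    exact ⟨mul_mem hu hu', g * g', mul_mem hg hg', fun ω' H => by
      rw [Perm.mul_apply, e' _ H, e _ (H.tr (hu'.1 _).sy), Perm.mul_apply]⟩
  inv_mem' := by
    rintro h ⟨hu, g, hg, e⟩
    exact ⟨inv_mem hu, g⁻¹, inv_mem hg, fun ω' H => by
      rw [Perm.inv_eq_iff_eq, e _ (H.tr ((inv_mem hu).1 _).sy)]; simp⟩

theorem G_On (k : ℕ) (ω : Ω) : G k ≤ On k ω := by
  induction k with
  | zero => exact fun g hg => ⟨G_U 0 hg, g, hg, fun _ _ => rfl⟩
  | succ k ih =>
    refine G_le ⟨a_U _, ?_⟩ ⟨b_U _, ?_⟩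
    · obtain ⟨-, g, hg, e⟩ := ih (cc_G k (ω k - s k))
      refine ⟨g, hg, fun ω' H => ?_⟩
      rw [e _ (ag_succ.1 H).1, cc_ap, ← (ag_succ.1 H).2, if_neg, if_pos (sub_add_cancel _ _).symm]
      exact fun e => s_ne k (by linear_combination e)
    · obtain ⟨-, g, hg, e⟩ := ih (cc_G k (ω k))
      exact ⟨g, hg, fun ω' H => by rw [e _ (ag_succ.1 H).1, cc_ap, if_pos (ag_succ.1 H).2.symm]⟩

theorem trans (k : ℕ) (ω ω' : Ω) : ∃ g ∈ G 0, Ag k (g ω) ω' := by
  induction k with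
  | zero => exact ⟨1, one_mem _, fun j hj => absurd hj (Nat.not_lt_zero j)⟩
  | succ k ih =>
    obtain ⟨g, hg, e⟩ := ih
    obtain ⟨hu, g', hg', e'⟩ := G_On k ω' (zpow_mem (a_G k) ((ω' k - g ω k).val : ℤ))
    refine ⟨g' * g, mul_mem hg' hg, ?_⟩
    rw [Perm.mul_apply, e' _ e.sy]
    exact ag_succ.2 ⟨(hu.1 _).tr e, by simp [a_zpow]⟩

/-- `g` acts as `h` on the cone and trivially outside -/
def At (k : ℕ) (ω : Ω) (g h : Perm Ω) : Prop :=
  ∀ ω', (Ag k ω ω' → g ω' = h ω') ∧ (¬ Ag k ω ω' → g ω' = ω')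

/-- sections of the rigid stabiliser -/
def R (k : ℕ) (ω : Ω) : Subgroup (Perm Ω) where
  carrier := {h | h ∈ U k ∧ ∃ g ∈ G 0, At k ω g h}
  one_mem' := ⟨one_mem _, 1, one_mem _, fun _ => ⟨fun _ => rfl, fun _ => rfl⟩⟩
  mul_mem' := by
    rintro h h' ⟨hu, g, hg, e⟩ ⟨hu', g', hg', e'⟩
    exact ⟨mul_mem hu hu', g * g', mul_mem hg hg', fun ω' => ⟨fun H => by
      rw [Perm.mul_apply, (e' _).1 H, (e _).1 (H.tr (hu'.1 _).sy), Perm.mul_apply], fun H => by
      rw [Perm.mul_apply, (e' _).2 H, (e _).2 H]⟩⟩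
  inv_mem' := by
    rintro h ⟨hu, g, hg, e⟩
    exact ⟨inv_mem hu, g⁻¹, inv_mem hg, fun ω' => ⟨fun H => by
      rw [Perm.inv_eq_iff_eq, (e _).1 (H.tr ((inv_mem hu).1 _).sy)]; simp, fun H => by
      rw [Perm.inv_eq_iff_eq, (e _).2 H]⟩⟩

theorem R_conj {k : ℕ} {ω : Ω} {h u : Perm Ω} (hh : h ∈ R k ω) (hu : u ∈ G k) :
    u * h * u⁻¹ ∈ R k ω := by
  obtain ⟨h1, g, hg, e⟩ := hh
  obtain ⟨h2, v, hv, e'⟩ := G_On k ω hu
  refine ⟨mul_mem (mul_mem h2 h1) (inv_mem h2), v * g * v⁻¹,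
    mul_mem (mul_mem hv hg) (inv_mem hv), fun ω' => ⟨fun H => ?_, fun H => ?_⟩⟩
  · have H' := H.tr ((inv_mem h2).1 _).sy
    have : v⁻¹ ω' = u⁻¹ ω' := by rw [Perm.inv_eq_iff_eq, e' _ H']; simp
    simp only [Perm.mul_apply]
    rw [this, (e _).1 H', e' _ (H'.tr (h1.1 _).sy)]
  · rw [Perm.mul_apply, Perm.mul_apply, (e _).2 fun H' => H ?_]
    · simp
    · have := H'.tr (h2.1 _).sy
      rwa [← e' _ H', Perm.coe_inv, apply_symm_apply] at this

theorem R_succ {k : ℕ} {ω : Ω} {h u : Perm Ω} (hh : h ∈ R k ω) (hu : u ∈ U (k + 1))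
    (e : ∀ ω', h ω' = if ω' k = ω k then u ω' else ω') : u ∈ R (k + 1) ω := by
  obtain ⟨-, g, hg, e'⟩ := hh
  refine ⟨hu, g, hg, fun ω' => ⟨fun H => ?_, fun H => ?_⟩⟩
  · rw [(e' _).1 (ag_succ.1 H).1, e, if_pos (ag_succ.1 H).2.symm]
  · by_cases H' : Ag k ω ω'
    · rw [(e' _).1 H', e, if_neg fun h => H (ag_succ.2 ⟨H', h.symm⟩)]
    · exact (e' _).2 H'

/-- action by first-level sections -/
def Lv (k : ℕ) (g : Perm Ω) (f : X k → Perm Ω) : Prop :=
  (∀ x, f x ∈ U (k + 1)) ∧ ∀ ω, g ω = f (ω k) ω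

theorem Lv.mul {k : ℕ} {g g' : Perm Ω} {f f' : X k → Perm Ω} (h : Lv k g f) (h' : Lv k g' f') :
    Lv k (g * g') (f * f') := ⟨fun x => mul_mem (h.1 x) (h'.1 x), fun ω => by
  rw [Perm.mul_apply, h'.2, h.2, (h'.1 _).1 ω k k.lt_succ_self]; rfl⟩

theorem Lv.inv {k : ℕ} {g : Perm Ω} {f : X k → Perm Ω} (h : Lv k g f) : Lv k g⁻¹ f⁻¹ :=
  ⟨fun x => inv_mem (h.1 x), fun ω => by
    rw [Perm.inv_eq_iff_eq, h.2, Pi.inv_apply, (inv_mem (h.1 _)).1 ω k k.lt_succ_self]; simp⟩

theorem Lv.pow {k : ℕ} {g : Perm Ω} {f : X k → Perm Ω} (h : Lv k g f) (m : ℕ) :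
    Lv k (g ^ m) (f ^ m) := by
  induction m with
  | zero => exact ⟨fun x => one_mem _, fun _ => rfl⟩
  | succ m ih => rw [pow_succ, pow_succ]; exact ih.mul h

theorem cc_Lv (k : ℕ) (x : X k) :
    Lv k (cc k x) fun y => if y = x then b (k + 1) else if y = x + s k then a (k + 1) else 1 :=
  ⟨fun y => by dsimp only; split_ifs; exacts [b_U _, a_U _, one_mem _], fun ω => by
    rw [cc_ap]; dsimp only; split_ifs <;> rfl⟩

theorem a_pow (k : ℕ) : a k ^ n k = 1 := Equiv.ext fun ω => by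
  rw [← zpow_natCast, a_zpow]; simp

/-- evaluation of words -/
noncomputable def ev (k : ℕ) : FreeGroup Bool →* Perm Ω :=
  FreeGroup.lift fun i => if i then a k else b k

theorem ev_range (k : ℕ) : (ev k).range = G k := by
  rw [ev, FreeGroup.range_lift_eq_closure, G]
  congr 1
  ext; simp [or_comm]

theorem ev_G (k : ℕ) (w : FreeGroup Bool) : ev k w ∈ G k := ev_range k ▸ ⟨w, rfl⟩

theorem two_gen (N : Subgroup (FreeGroup Bool)) [N.Normal]
    (h : ⁅FreeGroup.of false, FreeGroup.of true⁆ ∈ N) :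
    commutator _ ≤ N := by
  have h1 := (commutatorElement_eq_one_iff_commute.1
    ((map_commutatorElement (QuotientGroup.mk' N) _ _).symm.trans
      ((QuotientGroup.eq_one_iff _).2 h)))
  have h2 : ∀ i j, Commute (QuotientGroup.mk' N (.of i)) (QuotientGroup.mk' N (.of j)) := by
    rintro (_ | _) (_ | _)
    exacts [rfl, h1, h1.symm, rfl]
  refine commutator_le.2 fun x _ y _ => (QuotientGroup.eq_one_iff _).1
    ((map_commutatorElement (QuotientGroup.mk' N) _ _).trans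
      (commutatorElement_eq_one_iff_commute.2 ?_))
  induction x using FreeGroup.induction_on with
  | C1 => simp
  | of i =>
    induction y using FreeGroup.induction_on with
    | C1 => simp
    | of j => exact h2 i j
    | inv_of j _ => simpa using h2 i j
    | mul u v hu hv => rw [map_mul]; exact (hu trivial).mul_right (hv trivial)
  | inv_of i ih => rw [map_inv]; exact (ih trivial).inv_left
  | mul u v hu hv => rw [map_mul]; exact (hu trivial).mul_left (hv trivial)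

instance (k : ℕ) (ω : Ω) : ((R k ω).comap (ev k)).Normal :=
  ⟨fun w hw g => by simpa using R_conj hw (ev_G k g)⟩

theorem R_big (k : ℕ) : ∃ M, 0 < M ∧ ∀ ω, b k ^ M ∈ R k ω ∧ ⁅b k, a k⁆ ∈ R k ω := by
  induction k with
  | zero =>
    have : ∀ ω, G 0 ≤ R 0 ω := fun ω g hg => ⟨G_U 0 hg, g, hg, fun _ => ⟨fun _ => rfl,
      fun h => (h fun j hj => absurd hj (Nat.not_lt_zero j)).elim⟩⟩
    exact ⟨1, one_pos, fun ω => ⟨this ω (pow_mem (b_G 0) 1), this ω
      (mul_mem (mul_mem (mul_mem (b_G 0) (a_G 0)) (inv_mem (b_G 0))) (inv_mem (a_G 0)))⟩⟩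
  | succ k ih =>
    obtain ⟨M, hM, h⟩ := ih
    refine ⟨M * n (k + 1), Nat.mul_pos hM (NeZero.pos _), fun ω => ⟨?_, ?_⟩⟩
    · refine R_succ (h := cc k (ω k) ^ (M * n (k + 1))) ?_ (pow_mem (b_U _) _) fun ω' => ?_
      · rw [cc, conj_pow, pow_mul]
        exact R_conj (pow_mem (h ω).1 _) (zpow_mem (a_G k) _)
      · rw [((cc_Lv k (ω k)).pow _).2, Pi.pow_apply]
        split_ifs
        · rfl
        · rw [mul_comm, pow_mul, a_pow, one_pow]; rfl
        · rw [one_pow]; rfl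
    · refine R_succ (h := ⁅cc k (ω k), cc k (ω k - s k)⁆) ?_
        (mul_mem (mul_mem (mul_mem (b_U _) (a_U _)) (inv_mem (b_U _))) (inv_mem (a_U _)))
        fun ω' => ?_
      · obtain ⟨u, hu⟩ : cc k (ω k) ∈ (ev k).range := ev_range k ▸ cc_G k _
        obtain ⟨v, hv⟩ : cc k (ω k - s k) ∈ (ev k).range := ev_range k ▸ cc_G k _
        rw [← hu, ← hv, ← map_commutatorElement]
        exact two_gen ((R k ω).comap (ev k)) (by simpa [ev] using (h ω).2)
          (commutator_mem_commutator (mem_top u) (mem_top v))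
      · rw [commutatorElement_def, ((((cc_Lv k _).mul (cc_Lv k _)).mul (cc_Lv k _).inv).mul
          (cc_Lv k _).inv).2]
        simp only [Pi.mul_apply, Pi.inv_apply, sub_add_cancel]
        by_cases h1 : ω' k = ω k
        · have : ω k ≠ ω k - s k := fun e => s_ne k (by linear_combination e)
          simp [h1, this, commutatorElement_def]
        · by_cases h2 : ω' k = ω k + s k
          · have : ω' k ≠ ω k - s k := fun e => s2_ne k (by linear_combination e - h2)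
            simp [if_neg h1, if_neg this]
          · simp [if_neg h1, if_neg h2]

theorem R_fin (k : ℕ) : ∃ N : Subgroup (FreeGroup Bool), N.FiniteIndex ∧
    ∀ ω, N ≤ (R k ω).comap (ev k) := by
  obtain ⟨M, hM, h⟩ := R_big k
  let N := ⨅ ω, (R k ω).comap (ev k)
  have : N.Normal := normal_iInf_normal fun _ => inferInstance
  have hc : commutator _ ≤ N := two_gen N (mem_iInf.2 fun ω => by simpa [ev] using (h ω).2)
  refine ⟨N, ?_, fun ω => iInf_le _ ω⟩
  let : CommGroup (FreeGroup Bool ⧸ N) := { QuotientGroup.Quotient.group N with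
    mul_comm := (Normal.quotient_commutative_iff_commutator_le.2 hc).is_comm.comm }
  have : Finite (FreeGroup Bool ⧸ N) := CommGroup.finite_of_fg_isMulTorsion _ fun g => by
    obtain ⟨g, rfl⟩ := QuotientGroup.mk'_surjective N g
    have H : ∀ i, IsOfFinOrder (QuotientGroup.mk' N (.of i)) := by
      rintro (_ | _)
      · exact isOfFinOrder_iff_pow_eq_one.2 ⟨M, hM, (QuotientGroup.eq_one_iff (_ ^ M)).2
          (mem_iInf.2 fun ω => by simpa [ev] using (h ω).1)⟩
      · exact isOfFinOrder_iff_pow_eq_one.2 ⟨n k, NeZero.pos _,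
          (QuotientGroup.eq_one_iff (_ ^ n k)).2 (mem_iInf.2 fun ω => by simp [ev, a_pow])⟩
    induction g using FreeGroup.induction_on with
    | C1 => simp
    | of i => exact H i
    | inv_of i _ => rw [map_inv]; exact (H i).inv
    | mul u v hu hv => rw [map_mul]; exact hu.mul hv
  exact finiteIndex_of_finite_quotient

/-- extension of a finite word by zeros -/
def ex {l : ℕ} (v : (i : Fin l) → X i) : Ω := fun j => if h : j < l then v ⟨j, h⟩ else 0

theorem ex_res (l : ℕ) (ω : Ω) : Ag l (ex fun i : Fin l => ω i) ω := fun _ hj => dif_pos hj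

/-- the rigid level stabiliser on the boundary -/
def Ri (l : ℕ) : Subgroup (G 0) := closure {g | ∃ ω h, h ∈ U l ∧ At l ω g.1 h}

theorem mem_Ri (l : ℕ) (S : Finset ((i : Fin l) → X i)) (g : G 0)
    (h1 : ∀ ω, ∃ h ∈ R l ω, ∀ ω', Ag l ω ω' → g.1 ω' = h ω')
    (h2 : ∀ ω, (fun i : Fin l => ω i) ∉ S → g.1 ω = ω) : g ∈ Ri l := by
  classical
  induction S using Finset.induction_on generalizing g with
  | empty => exact (show g = 1 from Subtype.ext (Equiv.ext fun ω => h2 ω (by simp))) ▸ one_mem _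
  | insert v S _ ih =>
    obtain ⟨h, ⟨hu, g₀, hg₀, e⟩, e'⟩ := h1 (ex v)
    have H : ∀ ω, Ag l (ex v) ω → (g₀⁻¹ * g.1) ω = ω := fun ω H => by
      rw [Perm.mul_apply, Perm.inv_eq_iff_eq, e' _ H, (e _).1 H]
    have H' : ∀ ω, ¬ Ag l (ex v) ω → (g₀⁻¹ * g.1) ω = g.1 ω := fun ω H => by
      obtain ⟨u, hu, e⟩ := h1 ω
      rw [Perm.mul_apply, Perm.inv_eq_iff_eq, (‹At l (ex v) g₀ h› _).2 fun H' => H ?_]
      rw [e _ (Ag.rf _ _)] at H'
      exact H'.tr (hu.1.1 _)
    have := ih ((⟨g₀, hg₀⟩ : G 0)⁻¹ * g) (fun ω => ?_) fun ω hω => ?_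
    · have h0 : (⟨g₀, hg₀⟩ : G 0) ∈ Ri l := subset_closure ⟨_, _, hu, e⟩
      simpa using mul_mem h0 this
    · by_cases c : Ag l (ex v) ω
      · exact ⟨1, one_mem _, fun ω' c' => H _ (c.tr c')⟩
      · obtain ⟨u, hu, e⟩ := h1 ω
        exact ⟨u, hu, fun ω' c' => (H' _ fun c'' => c (c''.tr c'.sy)).trans (e _ c')⟩
    · by_cases c : Ag l (ex v) ω
      · exact H _ c
      · refine (H' _ c).trans (h2 ω fun m => (Finset.mem_insert.1 m).elim (fun m => c ?_) hω)
        exact m ▸ ex_res l ω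

theorem Ri_fin (l : ℕ) : (Ri l).FiniteIndex := by
  obtain ⟨N, hN, h⟩ := R_fin l
  have H : ∀ (g : G 0) (v : (i : Fin l) → X i), ∃ w, Sec l g.1 (ex v) (ev l w) := fun g v => by
    obtain ⟨u, h1, h2⟩ := sec (ex_Wd g.2).choose_spec l (ex v)
    obtain ⟨w, rfl⟩ : u ∈ (ev l).range := ev_range l ▸ h1.mem
    exact ⟨w, h2⟩
  choose w hw using H
  let Φ : G 0 → ((i : Fin l) → X i) → ((i : Fin l) → X i) × (FreeGroup Bool ⧸ N) :=
    fun g v => (fun i => g.1 (ex v) i, w g v)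
  have key : ∀ g g', Φ g = Φ g' → (g : G 0 ⧸ Ri l) = g' := fun g g' e => by
    refine QuotientGroup.eq.2 (mem_Ri l Finset.univ _ (fun ω => ?_) (by simp))
    set v := fun i : Fin l => ω i
    have e1 : Ag l (g.1 (ex v)) (g'.1 (ex v)) := fun j hj =>
      congrFun (congrArg Prod.fst (congrFun e v)) ⟨j, hj⟩
    have e2 := h ω (QuotientGroup.eq.1 (congrArg Prod.snd (congrFun e v)))
    refine ⟨_, e2, fun ω' c => ?_⟩
    have c1 := (ex_res l ω).tr c
    have c2 := c1.tr (e2.1.1 ω').sy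
    refine Perm.inv_eq_iff_eq.2 (funext fun j => (lt_or_ge j l).elim (fun hj => ?_) fun hj => ?_)
    · exact ((U.ag (G_U 0 g'.2) c1).sy.tr (e1.sy.tr (U.ag (G_U 0 g.2) c2))) j hj
    · rw [hw g v _ c2 j hj, ← Perm.mul_apply, ← map_mul, mul_inv_cancel_left]
      exact hw g' v _ c1 j hj
  have : Finite (G 0 ⧸ Ri l) := Finite.of_surjective (fun y : Set.range Φ => y.2.choose)
    fun q => by
      obtain ⟨g, rfl⟩ := QuotientGroup.mk_surjective q
      exact ⟨⟨_, g, rfl⟩, key _ _ (Set.mem_range_self g).choose_spec⟩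
  exact finiteIndex_of_finite_quotient

/-- action on vertices -/
@[reducible] def act : MulAction (G 0) (Σ l : ℕ, (i : Fin l) → X i) where
  smul g v := ⟨v.1, fun i => g.1 (ex v.2) i⟩
  one_smul := fun ⟨l, _⟩ => congrArg (Sigma.mk l) (funext fun i => dif_pos i.2)
  mul_smul := fun g h ⟨l, v⟩ => congrArg (Sigma.mk l) (funext fun i =>
    U.ag (G_U 0 g.2) (ex_res l (h.1 (ex v))).sy i i.2)

end Pool.Agent.H71.Br
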