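import Mathlib

set_option autoImplicit false

namespace Pool.Agent.H71.Cjc

open Set

def JSD (L : Type) [Lattice L] : Prop := ∀ x y z : L, x ⊔ y = x ⊔ z → x ⊔ (y ⊓ z) = x ⊔ y
def MSD (L : Type) [Lattice L] : Prop := ∀ x y z : L, x ⊓ y = x ⊓ z → x ⊓ (y ⊔ z) = x ⊓ y

def Face {L : Type} [Lattice L] (A : Set L) : Prop :=
  ∃ w, IsLUB A w ∧ (∀ B, B ⊂ A → ¬ IsLUB B w) ∧ ∀ B, IsLUB B w → ∀ a ∈ A, ∃ b ∈ B, a ≤ b

variable {L : Type} [Lattice L] [Finite L]

def D (a j : L) : Prop := ∃ b, b < j ∧ j ≤ a ⊔ b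

lemma star {j : L} (hj : SupIrred j) : ∃ s, s < j ∧ ∀ b, b < j → b ≤ s := by
  obtain ⟨b0, hb0⟩ := not_isMin_iff.1 hj.1
  obtain ⟨s, hs⟩ := exists_maximal_of_wellFoundedGT (fun b => b < j) ⟨b0, hb0⟩
  refine ⟨s, hs.1, fun b hb => ?_⟩
  have : s ⊔ b < j := lt_of_le_of_ne (sup_le hs.1.le hb.le) fun h =>
    (hj.2 h).elim hs.1.ne hb.ne
  exact le_sup_right.trans (hs.2 this le_sup_left)

omit [Finite L] in
lemma D_mono {a a' j : L} (h : a ≤ a') (hd : D a j) : D a' j := by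
  obtain ⟨b, h1, h2⟩ := hd
  exact ⟨b, h1, h2.trans (sup_le_sup_right h _)⟩

omit [Finite L] in
lemma D_of_le {a j : L} (hj : SupIrred j) (h : j ≤ a) : D a j := by
  obtain ⟨b0, hb0⟩ := not_isMin_iff.1 hj.1
  exact ⟨b0, hb0, h.trans le_sup_left⟩

lemma not_D_lt {a j : L} (hj : SupIrred j) (h : a < j) : ¬ D a j := by
  obtain ⟨s, h1, h2⟩ := star hj
  rintro ⟨b, h3, h4⟩
  exact h1.not_ge (h4.trans (sup_le (h2 _ h) (h2 _ h3)))

lemma prime (hm : MSD L) {a b j : L} (hj : SupIrred j) (h : D (a ⊔ b) j) : D a j ∨ D b j := by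
  obtain ⟨s, h1, h2⟩ := star hj
  by_contra hn
  rw [not_or] at hn
  have k : ∀ c, ¬ D c j → j ⊓ (c ⊔ s) = s := fun c hc =>
    le_antisymm (h2 _ (lt_of_le_of_ne inf_le_left fun e => hc ⟨s, h1, inf_eq_left.1 e⟩))
      (le_inf h1.le le_sup_right)
  have := hm j (a ⊔ s) (b ⊔ s) (by rw [k a hn.1, k b hn.2])
  rw [k a hn.1] at this
  obtain ⟨c, h3, h4⟩ := h
  have h5 : j ≤ a ⊔ s ⊔ (b ⊔ s) := h4.trans (sup_le (sup_le_sup le_sup_left le_sup_left)
    ((h2 _ h3).trans (le_sup_right.trans le_sup_left)))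
  exact h1.ne' ((inf_eq_left.2 h5).symm.trans this)

def Into (i j : L) : Prop := ∀ a, D a i → D a j

lemma factor (hm : MSD L) {i j : L} (hj : SupIrred j) (h : D i j) :
    ∃ k, SupIrred k ∧ k ≤ i ∧ Into k j := by
  obtain ⟨k, hk⟩ := exists_minimal_of_wellFoundedLT (fun k => k ≤ i ∧ D k j) ⟨i, le_rfl, h⟩
  have hlt : ∀ c, c < k → ¬ D c j := fun c hc hd => hc.not_ge (hk.2 ⟨hc.le.trans hk.1.1, hd⟩ hc.le)
  refine ⟨k, ⟨fun hmin => ?_, fun b c e => ?_⟩, hk.1.1, fun a ha => ?_⟩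
  · obtain ⟨b, h1, h2⟩ := hk.1.2
    have : k ≤ b := le_trans (hmin inf_le_left) inf_le_right
    exact h1.not_ge (h2.trans (sup_le this le_rfl))
  · by_contra hn
    rw [not_or] at hn
    have := hk.1.2
    rw [← e] at this
    rcases prime hm hj this with h1 | h1
    · exact hlt _ (lt_of_le_of_ne (e ▸ le_sup_left) hn.1) h1
    · exact hlt _ (lt_of_le_of_ne (e ▸ le_sup_right) hn.2) h1
  · obtain ⟨b, h1, h2⟩ := ha
    exact (prime hm hj (D_mono h2 hk.1.2)).resolve_right (hlt b h1)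

lemma into_antisymm (hs : JSD L) (hm : MSD L) {i j : L} (hi : SupIrred i) (hj : SupIrred j)
    (h1 : Into i j) (h2 : Into j i) : i = j := by
  obtain ⟨s, s1, -⟩ := star hi
  obtain ⟨m, hmx⟩ := exists_maximal_of_wellFoundedGT (fun a => ¬ D a i) ⟨s, not_D_lt hi s1⟩
  have top : ∀ a, ¬ D a i → a ≤ m := fun a ha =>
    le_sup_right.trans (hmx.2 (y := m ⊔ a) (fun h => (prime hm hi h).elim hmx.1 ha) le_sup_left)
  have li : ∀ b, b < i → b ≤ m := fun b hb => top b (not_D_lt hi hb)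
  have lj : ∀ b, b < j → b ≤ m := fun b hb => top b (fun h => not_D_lt hj hb (h1 b h))
  have e : m ⊔ i = m ⊔ j := by
    apply le_antisymm
    · obtain ⟨b, b1, b2⟩ := h2 (m ⊔ j) (D_of_le hj le_sup_right)
      exact sup_le le_sup_left (b2.trans (sup_le le_rfl ((li b b1).trans le_sup_left)))
    · obtain ⟨b, b1, b2⟩ := h1 (m ⊔ i) (D_of_le hi le_sup_right)
      exact sup_le le_sup_left (b2.trans (sup_le le_rfl ((lj b b1).trans le_sup_left)))
  have f := hs m i j e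
  by_contra hne
  have : i ⊓ j ≤ m := by
    rcases eq_or_lt_of_le (inf_le_left : i ⊓ j ≤ i) with h | h
    · rcases eq_or_lt_of_le (inf_le_right : i ⊓ j ≤ j) with h' | h'
      · exact absurd (h.symm.trans h') hne
      · exact lj _ h'
    · exact li _ h
  rw [sup_eq_left.2 this] at f
  exact hmx.1 (D_of_le hi (sup_eq_left.1 f.symm))

lemma half (hs : JSD L) {x y : L} (hx : SupIrred x) (h : ¬ D y x) (B : Set L)
    (hB : IsLUB B (x ⊔ y)) : ∃ b ∈ B, x ≤ b := by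
  obtain ⟨s, s1, s2⟩ := star hx
  have p : y ⊔ s < x ⊔ y := lt_of_le_of_ne (sup_le le_sup_right (s1.le.trans le_sup_left))
    fun e => h ⟨s, s1, e ▸ le_sup_left⟩
  obtain ⟨q, q1, q2⟩ := exists_le_covBy_of_lt p
  obtain ⟨b, hb, hbq⟩ : ∃ b ∈ B, ¬ b ≤ q := by
    by_contra hn
    push Not at hn
    exact q2.lt.not_ge (hB.2 hn)
  have e1 : q ⊔ b = x ⊔ y := by
    rcases q2.eq_or_eq (c := q ⊔ b) le_sup_left (sup_le q2.le (hB.1 hb)) with e | e
    · exact absurd (sup_eq_left.1 e) hbq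
    · exact e
  have e2 : q ⊔ x = x ⊔ y := le_antisymm (sup_le q2.le le_sup_left)
    (sup_le le_sup_right ((le_sup_left.trans q1).trans le_sup_left))
  have f := hs q x b (e2.trans e1.symm)
  refine ⟨b, hb, ?_⟩
  by_contra hn
  have : x ⊓ b ≤ q := (s2 _ (lt_of_le_of_ne inf_le_left fun e => hn (inf_eq_left.1 e))).trans
    (le_sup_right.trans q1)
  rw [sup_eq_left.2 this, e2] at f
  exact q2.lt.ne f

omit [Finite L] in
lemma face_half {x y : L} (hne : x ≠ y) (h : Face ({x, y} : Set L)) : ¬ D x y := by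
  obtain ⟨w, h1, h2, h3⟩ := h
  obtain rfl : w = x ⊔ y := h1.unique isLUB_pair
  rintro ⟨b, b1, b2⟩
  have e : x ⊔ b = x ⊔ y := le_antisymm (sup_le_sup_left b1.le _) (sup_le le_sup_left b2)
  obtain ⟨c, hc, hyc⟩ := h3 {x, b} (e ▸ isLUB_pair) y (by simp)
  rcases hc with rfl | rfl
  · refine h2 {c} ?_ ?_
    · refine ⟨by simp, fun hh => hne ?_⟩
      have : y ∈ ({c} : Set L) := hh (by simp)
      exact this.symm
    · rw [sup_eq_left.2 hyc]; exact isLUB_singleton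
  · exact b1.not_ge hyc

lemma face_pair (hs : JSD L) {x y : L} (hx : SupIrred x) (hy : SupIrred y) (hne : x ≠ y) :
    Face ({x, y} : Set L) ↔ ¬ D x y ∧ ¬ D y x := by
  refine ⟨fun h => ⟨face_half hne h, face_half hne.symm (by rwa [pair_comm])⟩, fun h => ?_⟩
  have k : ∀ B, IsLUB B (x ⊔ y) → ∀ a ∈ ({x, y} : Set L), ∃ b ∈ B, a ≤ b := by
    rintro B hB a (rfl | rfl)
    · exact half hs hx h.2 B hB
    · exact half hs hy h.1 B (by rwa [sup_comm])
  refine ⟨x ⊔ y, isLUB_pair, fun B hB hl => hB.2 ?_, k⟩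
  intro a ha
  obtain ⟨b, hb, hab⟩ := k B hl a ha
  rcases ha with rfl | rfl <;> rcases hB.1 hb with rfl | rfl
  · exact hb
  · exact absurd (D_of_le hx hab) h.2
  · exact absurd (D_of_le hy hab) h.1
  · exact hb

/-- If the non-faces form a triangle-free graph, it is 3-colourable. -/
theorem colour (hs : JSD L) (hm : MSD L)
    (tri : ∀ x y z : L, SupIrred x → SupIrred y → SupIrred z → x ≠ y → y ≠ z → x ≠ z →
      D x y → D y z → D x z → False) :
    ∃ c : L → Fin 3, ∀ x y, SupIrred x → SupIrred y → x ≠ y → D x y → c x ≠ c y := by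
  classical
  have ty : ∀ x y : L, SupIrred x → SupIrred y → x ≠ y → D x y → y ≤ x ∨ Into x y := by
    intro x y hx hy hne h
    obtain ⟨k, k1, k2, k3⟩ := factor hm hy h
    by_cases e1 : k = y
    · exact Or.inl (e1 ▸ k2)
    by_cases e2 : x = k
    · exact Or.inr (e2 ▸ k3)
    exact (tri x k y hx k1 hy e2 e1 hne (D_of_le k1 k2) (k3 _ (D_of_le k1 le_rfl)) h).elim
  have snk : ∀ u v z : L, SupIrred u → SupIrred v → SupIrred z → v < u → v ≠ z → ¬ D v z := by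
    intro u v z hu hv hz h hne hd
    by_cases e : u = z
    · subst e
      exact not_D_lt hu h hd
    · exact tri u v z hu hv hz h.ne' hne e (D_of_le hv h.le) hd (D_mono h.le hd)
  have src : ∀ x v w : L, SupIrred x → SupIrred v → SupIrred w → v ≠ w → Into v w → x ≠ v →
      ¬ D x v := by
    intro x v w hx hv hw hne hi hxv hd
    by_cases e : x = w
    · subst e
      rcases ty x v hx hv hxv hd with h | h
      · exact not_D_lt hx (lt_of_le_of_ne h hne) (hi _ (D_of_le hv le_rfl))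
      · exact hxv (into_antisymm hs hm hx hv h hi)
    · exact tri x v w hx hv hw hxv hne e hd (hi _ (D_of_le hv le_rfl)) (hi _ hd)
  refine ⟨fun v => if ∃ u, SupIrred u ∧ v < u then 0 else
    if ∃ w, SupIrred w ∧ v ≠ w ∧ Into v w then 1 else 2, fun x y hx hy hne hd => ?_⟩
  have a1 : ¬ ∃ u, SupIrred u ∧ x < u := fun ⟨u, h1, h2⟩ => snk u x y h1 hx hy h2 hne hd
  have a2 : ¬ ∃ w, SupIrred w ∧ y ≠ w ∧ Into y w := fun ⟨w, h1, h2, h3⟩ =>
    src x y w hx hy h1 h2 h3 hne hd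
  dsimp only
  rw [if_neg a1, if_neg a2]
  rcases ty x y hx hy hne hd with h | h
  · rw [if_pos (⟨x, hx, lt_of_le_of_ne h hne.symm⟩ : ∃ u, SupIrred u ∧ y < u)]
    split_ifs <;> decide
  · rw [if_pos ⟨y, hy, hne, h⟩]
    split_ifs <;> decide

end Pool.Agent.H71.Cjc
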