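import Pool.Agent.H71.Cjc1

set_option autoImplicit false

namespace Pool.Agent.H71.Cjc

open Set

/-- factorization system without 2-cycles -/
structure FS {S : Type} (r : S → S → Prop) : Prop where
  rfl' : ∀ x, r x x
  anti : ∀ x y, r x y → r y x → x = y
  fac : ∀ x z, r x z → ∃ y, (∀ w, r y w → r x w) ∧ (∀ w, r w y → r w z)

abbrev CL {S : Type} (r : S → S → Prop) : Type := Concept S S (fun a b => ¬ r a b)

variable {S : Type} {r : S → S → Prop}

instance [Finite S] : Finite (CL r) := Finite.of_injective _ Concept.extent_injective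

lemma mem_ext (X : CL r) (a : S) : a ∈ X.extent ↔ ∀ b ∈ X.intent, ¬ r a b := by
  rw [← X.lowerPolar_intent]; rfl

lemma mem_int (X : CL r) (b : S) : b ∈ X.intent ↔ ∀ a ∈ X.extent, ¬ r a b := by
  rw [← X.upperPolar_extent]; rfl

lemma up (h : FS r) (Y : CL r) (c : S) (h1 : ∀ d, (∀ w, r d w → r c w) → d ≠ c → d ∈ Y.extent)
    (h2 : c ∉ Y.extent) : c ∈ Y.intent := by
  rw [mem_ext] at h2
  push Not at h2
  obtain ⟨z, hz, hcz⟩ := h2
  obtain ⟨d, d1, d2⟩ := h.fac c z hcz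
  have hd : d ∈ Y.intent := (mem_int _ _).2 fun a ha hr => (mem_int _ _).1 hz a ha (d2 a hr)
  by_cases e : d = c
  · exact e ▸ hd
  · exact absurd (h.rfl' d) ((mem_int _ _).1 hd d (h1 d d1 e))

lemma down (h : FS r) (Y : CL r) (c : S) (h1 : ∀ d, (∀ w, r w d → r w c) → d ≠ c → d ∈ Y.intent)
    (h2 : c ∉ Y.intent) : c ∈ Y.extent := by
  rw [mem_int] at h2
  push Not at h2
  obtain ⟨z, hz, hcz⟩ := h2
  obtain ⟨d, d1, d2⟩ := h.fac z c hcz
  have hd : d ∈ Y.extent := (mem_ext _ _).2 fun a ha hr => (mem_ext _ _).1 hz a ha (d1 a hr)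
  by_cases e : d = c
  · exact e ▸ hd
  · exact absurd (h.rfl' d) ((mem_ext _ _).1 hd d (h1 d d2 e))

lemma msd [Finite S] (h : FS r) : MSD (CL r) := by
  intro X Y Z e
  apply le_antisymm _ (inf_le_inf_left _ le_sup_left)
  by_contra hn
  rw [← Concept.extent_subset_extent_iff, not_subset] at hn
  obtain ⟨c, ⟨c1, c2⟩, c3⟩ := exists_minimalFor_of_wellFoundedLT
    (fun c => c ∈ (X ⊓ (Y ⊔ Z)).extent ∧ c ∉ (X ⊓ Y).extent) (fun c => {w | r c w}) hn
  have k : ∀ d, (∀ w, r d w → r c w) → d ≠ c → d ∈ (X ⊓ Y).extent := by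
    intro d d1 d2
    by_contra d3
    have d4 : d ∈ (X ⊓ (Y ⊔ Z)).extent :=
      (mem_ext _ _).2 fun b hb hr => (mem_ext _ _).1 c1 b hb (d1 b hr)
    exact d2 (h.anti _ _ (c3 ⟨d4, d3⟩ d1 (h.rfl' c)) (d1 _ (h.rfl' d)))
  have hY : c ∈ Y.intent := up h Y c (fun d a b => (k d a b).2) fun hc => c2 ⟨c1.1, hc⟩
  have hZ : c ∈ Z.intent := up h Z c (fun d a b => (e ▸ k d a b : d ∈ (X ⊓ Z).extent).2)
    fun hc => c2 (e ▸ (⟨c1.1, hc⟩ : c ∈ (X ⊓ Z).extent))
  exact (mem_ext _ _).1 c1.2 c ⟨hY, hZ⟩ (h.rfl' c)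

lemma jsd [Finite S] (h : FS r) : JSD (CL r) := by
  intro X Y Z e
  apply le_antisymm (sup_le_sup_left inf_le_left _)
  by_contra hn
  rw [← Concept.intent_subset_intent_iff, not_subset] at hn
  obtain ⟨c, ⟨c1, c2⟩, c3⟩ := exists_minimalFor_of_wellFoundedLT
    (fun c => c ∈ (X ⊔ (Y ⊓ Z)).intent ∧ c ∉ (X ⊔ Y).intent) (fun c => {w | r w c}) hn
  have k : ∀ d, (∀ w, r w d → r w c) → d ≠ c → d ∈ (X ⊔ Y).intent := by
    intro d d1 d2
    by_contra d3
    have d4 : d ∈ (X ⊔ (Y ⊓ Z)).intent :=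
      (mem_int _ _).2 fun b hb hr => (mem_int _ _).1 c1 b hb (d1 b hr)
    exact d2 (h.anti _ _ (d1 _ (h.rfl' d)) (c3 ⟨d4, d3⟩ d1 (h.rfl' c)))
  have hY : c ∈ Y.extent := down h Y c (fun d a b => (k d a b).2) fun hc => c2 ⟨c1.1, hc⟩
  have hZ : c ∈ Z.extent := down h Z c (fun d a b => (e ▸ k d a b : d ∈ (X ⊔ Z).intent).2)
    fun hc => c2 (e ▸ (⟨c1.1, hc⟩ : c ∈ (X ⊔ Z).intent))
  exact (mem_int _ _).1 c1.2 c ⟨hY, hZ⟩ (h.rfl' c)

def T (r : S → S → Prop) (x : S) : CL r := Concept.ofObject _ x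

lemma T_le (x : S) (X : CL r) : T r x ≤ X ↔ x ∈ X.extent := by
  unfold T
  rw [Concept.ofObjects_le_iff, singleton_subset_iff]

lemma T_int (x b : S) : b ∈ (T r x).intent ↔ ¬ r x b :=
  mem_upperPolar_singleton (fun a b => ¬ r a b)

lemma T_ext (x a : S) : a ∈ (T r x).extent ↔ ∀ w, r a w → r x w := by
  rw [mem_ext]
  exact forall_congr' fun w => by rw [T_int]; tauto

lemma T_inj (h : FS r) : Function.Injective (T r) := by
  intro x y e
  have h1 : x ∈ (T r y).extent := (T_le _ _).1 e.le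
  have h2 : y ∈ (T r x).extent := (T_le _ _).1 e.ge
  exact h.anti _ _ ((T_ext _ _).1 h2 _ (h.rfl' _)) ((T_ext _ _).1 h1 _ (h.rfl' _))

lemma T_key (h : FS r) (y : S) (A : CL r) (h1 : A ≤ T r y) (h2 : y ∉ A.intent) : T r y ≤ A := by
  rw [mem_int] at h2
  push Not at h2
  obtain ⟨a, ha, hr⟩ := h2
  have := (T_ext _ _).1 (h1 ha) _ (h.rfl' a)
  rw [T_le, h.anti _ _ this hr]
  exact ha

lemma T_irr (h : FS r) (x : S) : SupIrred (T r x) := by
  have hx : x ∈ (T r x).extent := (T_le _ _).1 le_rfl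
  refine ⟨fun hm => ?_, fun A B e => ?_⟩
  · have : x ∈ (⊥ : CL r).extent := (T_le _ _).1 (hm bot_le)
    exact (mem_ext _ _).1 this x (mem_univ x) (h.rfl' x)
  · by_cases h1 : x ∈ A.intent
    · by_cases h2 : x ∈ B.intent
      · rw [← e] at hx
        exact absurd (h.rfl' x) ((mem_ext _ _).1 hx x ⟨h1, h2⟩)
      · exact Or.inr (le_antisymm (e ▸ le_sup_right) (T_key h x B (e ▸ le_sup_right) h2))
    · exact Or.inl (le_antisymm (e ▸ le_sup_left) (T_key h x A (e ▸ le_sup_left) h1))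

lemma D_T [Finite S] (h : FS r) (x y : S) : D (T r x) (T r y) ↔ r x y := by
  constructor
  · rintro ⟨B, b1, b2⟩
    by_contra hn
    have h1 : y ∈ B.intent := by
      by_contra h2
      exact b1.not_ge (T_key h y B b1.le h2)
    exact (mem_ext _ _).1 ((T_le _ _).1 b2) y ⟨(T_int _ _).2 hn, h1⟩ (h.rfl' y)
  · intro hr
    obtain ⟨s, s1, s2⟩ := star (T_irr h y)
    refine ⟨s, s1, (T_le _ _).2 ?_⟩
    by_contra hn
    have := up h (T r x ⊔ s) y (fun d d1 d2 => ?_) hn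
    · exact (T_int _ _).1 this.1 hr
    · rw [← T_le]
      refine (s2 _ (lt_of_le_of_ne ((T_le _ _).2 ((T_ext _ _).2 d1)) fun e => d2 (T_inj h e))).trans
        le_sup_right

def rel {V : Type} (o : V → V → Prop) : V ⊕ {p : V × V // o p.1 p.2} →
    V ⊕ {p : V × V // o p.1 p.2} → Prop
  | .inl x, .inl z => x = z ∨ o x z
  | .inl x, .inr e => x = e.1.1
  | .inr e, .inl z => z = e.1.2
  | .inr e, .inr e' => e = e'

lemma rel_fs {V : Type} (o : V → V → Prop) (ho : ∀ x y, o x y → ¬ o y x) : FS (rel o) where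
  rfl' := by rintro (x | e) <;> simp [rel]
  anti := by
    rintro (x | e) (y | f) h1 h2 <;> simp only [rel] at h1 h2
    · rcases h1 with rfl | h1
      · rfl
      · rcases h2 with rfl | h2
        · rfl
        · exact absurd h2 (ho _ _ h1)
    · have := f.2
      rw [← h1, ← h2] at this
      exact absurd this (ho _ _ this)
    · have := e.2
      rw [← h1, ← h2] at this
      exact absurd this (ho _ _ this)
    · rw [h1]
  fac := by
    have k1 : ∀ (e : {p : V × V // o p.1 p.2}) w, rel o (.inr e) w → rel o (.inl e.1.1) w := by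
      rintro e (z | f) h <;> simp only [rel] at h ⊢
      · exact Or.inr (h ▸ e.2)
      · rw [h]
    have k2 : ∀ (e : {p : V × V // o p.1 p.2}) w, rel o w (.inr e) → rel o w (.inl e.1.2) := by
      rintro e (z | f) h <;> simp only [rel] at h ⊢
      · exact Or.inr (h ▸ e.2)
      · rw [h]
    rintro (x | e) (z | f) h <;> simp only [rel] at h
    · rcases h with rfl | h
      · exact ⟨_, fun _ h => h, fun _ h => h⟩
      · exact ⟨.inr ⟨(x, z), h⟩, k1 _, k2 _⟩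
    · subst h
      exact ⟨.inr f, k1 _, fun _ h => h⟩
    · subst h
      exact ⟨.inr e, fun _ h => h, k2 _⟩
    · subst h
      exact ⟨_, fun _ h => h, fun _ h => h⟩

def gE : List (Fin 11 × Fin 11) :=
  [(0,1),(1,2),(2,3),(3,4),(0,4),(1,5),(4,5),(0,6),(2,6),(1,7),(3,7),(2,8),(4,8),(0,9),(3,9),
   (5,10),(6,10),(7,10),(8,10),(9,10)]

def go (x y : Fin 11) : Prop := (x, y) ∈ gE

instance : DecidableRel go := fun x y => inferInstanceAs (Decidable ((x, y) ∈ gE))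

lemma go_asymm : ∀ x y, go x y → ¬ go y x := by decide +kernel

lemma go_tri : ∀ x y z, (go x y ∨ go y x) → (go y z ∨ go z y) → (go x z ∨ go z x) → False := by
  decide +kernel

lemma go_col0 : ∀ a0 a1 : Fin 3, a0 ≠ a1 → ∀ a2, a1 ≠ a2 → ∀ a3, a2 ≠ a3 → ∀ a4, a3 ≠ a4 →
    a0 ≠ a4 → ∀ a10 a5, a1 ≠ a5 → a4 ≠ a5 → a5 ≠ a10 → ∀ a6, a0 ≠ a6 → a2 ≠ a6 → a6 ≠ a10 →
    ∀ a7, a1 ≠ a7 → a3 ≠ a7 → a7 ≠ a10 → ∀ a8, a2 ≠ a8 → a4 ≠ a8 → a8 ≠ a10 →
    ∀ a9, a0 ≠ a9 → a3 ≠ a9 → a9 ≠ a10 → False := by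
  decide +kernel

lemma go_col (c : Fin 11 → Fin 3) (h : ∀ x y, go x y → c x ≠ c y) : False :=
  go_col0 (c 0) (c 1) (h _ _ (by decide)) (c 2) (h _ _ (by decide)) (c 3) (h _ _ (by decide))
    (c 4) (h _ _ (by decide)) (h _ _ (by decide)) (c 10) (c 5) (h _ _ (by decide))
    (h _ _ (by decide)) (h _ _ (by decide)) (c 6) (h _ _ (by decide)) (h _ _ (by decide))
    (h _ _ (by decide)) (c 7) (h _ _ (by decide)) (h _ _ (by decide)) (h _ _ (by decide))
    (c 8) (h _ _ (by decide)) (h _ _ (by decide)) (h _ _ (by decide))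
    (c 9) (h _ _ (by decide)) (h _ _ (by decide)) (h _ _ (by decide))

theorem main : ∃ (L : Type) (_ : Lattice L) (_ : Finite L), JSD L ∧ MSD L ∧
    ∃ W : Set L, (∀ j ∈ W, SupIrred j) ∧
      ∀ (L' : Type) (_ : Lattice L') (_ : Finite L'), JSD L' → MSD L' →
        ¬ ∃ e : {j : L' // SupIrred j} ≃ W, ∀ A : Set {j : L' // SupIrred j},
          Face (Subtype.val '' A) ↔ Face (Subtype.val '' (e '' A)) := by
  have h := rel_fs go go_asymm
  let t : Fin 11 → CL (rel go) := fun x => T _ (.inl x)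
  have ti : Function.Injective t := fun x y e => Sum.inl_injective (T_inj h e)
  refine ⟨CL (rel go), inferInstance, inferInstance, jsd h, msd h, range t, ?_, ?_⟩
  · rintro _ ⟨x, rfl⟩
    exact T_irr h _
  rintro L' _ _ hs hm ⟨e, he⟩
  let f : {j : L' // SupIrred j} ≃ Fin 11 := e.trans (Equiv.ofInjective t ti).symm
  have hf : ∀ j, (e j).1 = t (f j) := fun j => by
    simp only [f, Equiv.trans_apply]
    exact (Equiv.apply_ofInjective_symm ti _).symm
  have key : ∀ i j : {j : L' // SupIrred j}, i.1 ≠ j.1 →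
      ((D i.1 j.1 ∨ D j.1 i.1) ↔ (go (f i) (f j) ∨ go (f j) (f i))) := by
    intro i j hne
    have h1 := he {i, j}
    have h2 : f i ≠ f j := fun e => hne (congrArg _ (f.injective e))
    rw [image_pair, image_pair, image_pair, hf, hf, face_pair hs i.2 j.2 hne,
      face_pair (jsd h) (T_irr h _) (T_irr h _) (fun e => h2 (ti e)), D_T h, D_T h] at h1
    simp only [rel, h2, h2.symm, false_or] at h1
    tauto
  obtain ⟨c, hc⟩ := colour hs hm fun x y z hx hy hz a1 a2 a3 d1 d2 d3 =>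
    go_tri _ _ _ ((key ⟨x, hx⟩ ⟨y, hy⟩ a1).1 (Or.inl d1)) ((key ⟨y, hy⟩ ⟨z, hz⟩ a2).1 (Or.inl d2))
      ((key ⟨x, hx⟩ ⟨z, hz⟩ a3).1 (Or.inl d3))
  refine go_col (fun x => c (f.symm x).1) fun x y hxy => ?_
  have hne : (f.symm x).1 ≠ (f.symm y).1 := fun e => by
    have := f.symm.injective (Subtype.ext e)
    subst this
    exact go_asymm _ _ hxy hxy
  rcases (key _ _ hne).2 (Or.inl (by simpa using hxy)) with d | d
  · exact hc _ _ (f.symm x).2 (f.symm y).2 hne d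
  · exact (hc _ _ (f.symm y).2 (f.symm x).2 hne.symm d).symm

end Pool.Agent.H71.Cjc
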