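import Mathlib

/-! Cones of (partially conjugation invariant) total preorders on groups; the property that all
left-invariant total preorders are Conradian. -/

namespace Pool.Agent.H71.Con

universe u
variable {G H : Type u} [Group G] [Group H]

structure IsCone (Γ M N : Subgroup G) (B : Submonoid G) : Prop where
  le : ∀ g ∈ B, g ∈ M
  tot : ∀ g ∈ M, g ∈ B ∨ g⁻¹ ∈ B
  conj : ∀ h ∈ Γ, ∀ g ∈ B, h * g * h⁻¹ ∈ B
  ker : ∀ g, g ∈ N ↔ g ∈ B ∧ g⁻¹ ∈ B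

/-- `M / N` carries a total order invariant under `M` and under conjugation by `Γ` -/
def Cone (Γ M N : Subgroup G) : Prop := ∃ B, IsCone Γ M N B

def Inv (Γ M : Subgroup G) : Prop := ∀ h ∈ Γ, ∀ g ∈ M, h * g * h⁻¹ ∈ M

abbrev RC (S : Subgroup G) : Prop := Cone ⊥ ⊤ S
abbrev BC (S : Subgroup G) : Prop := Cone ⊤ ⊤ S
abbrev Bi (G : Type u) [Group G] : Prop := BC (⊥ : Subgroup G)

variable {Γ M N : Subgroup G} {B : Submonoid G}

lemma inv_top : Inv Γ ⊤ := fun _ _ _ _ => trivial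

lemma inv_normal [h : M.Normal] : Inv Γ M := fun a _ g hg => h.conj_mem g hg a

lemma IsCone.mul (h : IsCone Γ M N B) {x y : G} (hx : x ∈ B) (hy : y ∈ B) (hn : x ∉ N ∨ y ∉ N) :
    x * y ∉ N := fun e => by
  have e' := ((h.ker _).1 e).2
  rcases hn with hn | hn
  · exact hn ((h.ker _).2 ⟨hx, by simpa using B.mul_mem hy e'⟩)
  · exact hn ((h.ker _).2 ⟨hy, by simpa using B.mul_mem e' hx⟩)

lemma Cone.invN (h : Cone Γ M N) : Inv Γ N := by
  obtain ⟨B, h⟩ := h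
  intro a ha g hg
  exact (h.ker _).2 ⟨h.conj a ha _ ((h.ker _).1 hg).1, by
    simpa [mul_assoc] using h.conj a ha _ ((h.ker _).1 hg).2⟩

lemma Cone.le (h : Cone Γ M N) : N ≤ M := fun g hg => h.elim fun _ h => h.le g ((h.ker g).1 hg).1

lemma BC.normal (h : BC N) : N.Normal := ⟨fun g hg a => h.invN a trivial g hg⟩

lemma Cone.isolated (h : Cone Γ M N) {g : G} (hg : g ∈ M) {n : ℕ} (hn : n ≠ 0) (e : g ^ n ∈ N) :
    g ∈ N := by
  obtain ⟨B, h⟩ := h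
  have k : ∀ g ∈ B, g ^ n ∈ N → g ∈ N := fun g hg e => by
    by_contra c
    obtain ⟨m, rfl⟩ := Nat.exists_eq_succ_of_ne_zero hn
    exact h.mul (B.pow_mem hg m) hg (.inr c) (pow_succ g m ▸ e)
  rcases h.tot g hg with a | a
  · exact k g a e
  · exact N.inv_mem_iff.1 (k _ a (by rw [inv_pow]; exact N.inv_mem e))

lemma Cone.mono {Γ' : Subgroup G} (h : Cone Γ M N) (le : Γ' ≤ Γ) : Cone Γ' M N :=
  h.imp fun _ h => ⟨h.le, h.tot, fun a ha => h.conj a (le ha), h.ker⟩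

lemma BC.rc (h : BC N) : RC N := h.mono le_top

lemma Cone.restrict {M' : Subgroup G} (h : Cone Γ M N) (le : M' ≤ M) (i : Inv Γ M') :
    Cone Γ M' (M' ⊓ N) := by
  obtain ⟨B, h⟩ := h
  refine ⟨M'.toSubmonoid ⊓ B, fun g hg => hg.1, fun g hg => (h.tot g (le hg)).imp
    (fun a => ⟨hg, a⟩) fun a => ⟨M'.inv_mem hg, a⟩,
    fun a ha g hg => ⟨i a ha g hg.1, h.conj a ha g hg.2⟩, fun g => ⟨fun hg =>
      ⟨⟨hg.1, ((h.ker g).1 hg.2).1⟩, M'.inv_mem hg.1, ((h.ker g).1 hg.2).2⟩,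
      fun hg => ⟨hg.1.1, (h.ker g).2 ⟨hg.1.2, hg.2.2⟩⟩⟩⟩

theorem glue {ι : Type*} {M₀ N₀ : Subgroup G} (M N : ι → Subgroup G)
    (h : ∀ i, Cone Γ (M i) (N i))
    (cmp : ∀ i j, (M i = M j ∧ N i = N j) ∨ M i ≤ N j ∨ M j ≤ N i) (hN : ∀ i, N₀ ≤ N i)
    (hM : ∀ i, M i ≤ M₀) (le : N₀ ≤ M₀) (cov : ∀ x ∈ M₀, x ∉ N₀ → ∃ i, x ∈ M i ∧ x ∉ N i)
    (inv : Inv Γ N₀) : Cone Γ M₀ N₀ := by
  have : ∀ M N : Subgroup G, ∃ B, Cone Γ M N → IsCone Γ M N B := fun M N => by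
    by_cases c : Cone Γ M N
    · exact c.imp fun _ h _ => h
    · exact ⟨⊥, fun h => (c h).elim⟩
  choose B hB using this
  have hB := fun i => hB _ _ (h i)
  have nb : ∀ i, ∀ x ∈ N i, x ∈ B (M i) (N i) := fun i x hx => (((hB i).ker x).1 hx).1
  let Q : Submonoid G :=
    { carrier := {x | x ∈ N₀ ∨ ∃ i, x ∈ B (M i) (N i) ∧ x ∉ N i}
      one_mem' := .inl N₀.one_mem
      mul_mem' := by
        have a : ∀ i x y, x ∈ B (M i) (N i) → y ∈ B (M i) (N i) → x ∉ N i ∨ y ∉ N i →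
            x * y ∈ N₀ ∨ ∃ i, x * y ∈ B (M i) (N i) ∧ x * y ∉ N i := fun i x y hx hy hn =>
          .inr ⟨i, mul_mem hx hy, (hB i).mul hx hy hn⟩
        rintro x y (hx | ⟨i, hx, nx⟩) (hy | ⟨j, hy, ny⟩)
        · exact .inl (mul_mem hx hy)
        · exact a j x y (nb j x (hN j hx)) hy (.inr ny)
        · exact a i x y hx (nb i y (hN i hy)) (.inl nx)
        · rcases cmp i j with ⟨e1, e2⟩ | e | e
          · exact a i x y hx (e1 ▸ e2 ▸ hy) (.inl nx)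
          · exact a j x y (nb j x (e ((hB i).le x hx))) hy (.inr ny)
          · exact a i x y hx (nb i y (e ((hB j).le y hy))) (.inl nx) }
  refine ⟨Q, ?_, fun g hg => ?_, ?_, fun g => ⟨fun hg => ⟨.inl hg, .inl (inv_mem hg)⟩, ?_⟩⟩
  · rintro g (hg | ⟨i, hg, -⟩)
    exacts [le hg, hM i ((hB i).le g hg)]
  · by_cases c : g ∈ N₀
    · exact .inl (.inl c)
    obtain ⟨i, h1, h2⟩ := cov g hg c
    exact ((hB i).tot g h1).imp (fun a => .inr ⟨i, a, h2⟩)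
      fun a => .inr ⟨i, a, fun e => h2 (inv_mem_iff.1 e)⟩
  · rintro a ha g (hg | ⟨i, hg, ng⟩)
    · exact .inl (inv a ha g hg)
    · exact .inr ⟨i, (hB i).conj a ha g hg, fun e => ng (by
        simpa [mul_assoc] using (h i).invN a⁻¹ (inv_mem ha) _ e)⟩
  · rintro ⟨hg | ⟨i, hg, ng⟩, hg' | ⟨j, hg', ng'⟩⟩
    · exact hg
    · exact hg
    · exact inv_mem_iff.1 hg'
    · rcases cmp i j with ⟨e1, e2⟩ | e | e
      · exact (ng (((hB i).ker g).2 ⟨hg, e1 ▸ e2 ▸ hg'⟩)).elim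
      · exact (ng' (inv_mem (e ((hB i).le g hg)))).elim
      · exact (ng (inv_mem_iff.1 (e ((hB j).le _ hg')))).elim

theorem Cone.trans {L : Subgroup G} (h : Cone Γ M N) (h' : Cone Γ N L) : Cone Γ M L := by
  refine glue (fun b => cond b M N) (fun b => cond b N L) (fun b => by cases b <;> assumption)
    (fun i j => by cases i <;> cases j <;> simp) (fun b => by cases b <;> simp [h'.le])
    (fun b => by cases b <;> simp [h.le]) (h'.le.trans h.le) (fun x hx nx => ?_) h'.invN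
  by_cases c : x ∈ N
  exacts [⟨false, c, nx⟩, ⟨true, hx, c⟩]

theorem cone_iInf {ι : Type*} (hM : Inv Γ M) (N : ι → Subgroup G) (h : ∀ i, Cone Γ M (N i))
    {N₀ : Subgroup G} (e : ∀ x, x ∈ N₀ ↔ x ∈ M ∧ ∀ i, x ∈ N i) : Cone Γ M N₀ := by
  obtain ⟨_, wf⟩ := exists_wellFoundedLT ι
  let M' : ι → Subgroup G := fun i => M ⊓ ⨅ j < i, N j
  have m : ∀ i x, x ∈ M' i ↔ x ∈ M ∧ ∀ j < i, x ∈ N j := fun i x => by
    simp [M', Subgroup.mem_iInf]
  have lt : ∀ i j, j < i → M' i ≤ M' j ⊓ N j := fun i j hj x hx =>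
    ⟨(m j x).2 ⟨((m i x).1 hx).1, fun k hk => ((m i x).1 hx).2 k (hk.trans hj)⟩,
      ((m i x).1 hx).2 j hj⟩
  refine glue M' (fun i => M' i ⊓ N i) (fun i => (h i).restrict inf_le_left fun a ha g hg =>
    (m i _).2 ⟨hM a ha g ((m i g).1 hg).1, fun j hj => (h j).invN a ha g (((m i g).1 hg).2 j hj)⟩)
    (fun i j => ?_) (fun i x hx => ⟨(m i x).2 ⟨((e x).1 hx).1, fun j _ => ((e x).1 hx).2 j⟩,
      ((e x).1 hx).2 i⟩) (fun i => inf_le_left) (fun x hx => ((e x).1 hx).1) (fun x hx nx => ?_)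
    fun a ha g hg => (e _).2 ⟨hM a ha g ((e g).1 hg).1, fun j => (h j).invN a ha g (((e g).1 hg).2 j)⟩
  · rcases lt_trichotomy i j with c | rfl | c
    exacts [.inr (.inr (lt j i c)), .inl ⟨rfl, rfl⟩, .inr (.inl (lt i j c))]
  · have : {i | x ∉ N i}.Nonempty := by
      by_contra c
      exact nx ((e x).2 ⟨hx, fun i => by_contra fun hi => c ⟨i, hi⟩⟩)
    obtain ⟨i, hi, mi⟩ := wf.wf.has_min _ this
    exact ⟨i, (m i x).2 ⟨hx, fun j hj => by_contra fun c => mi j c hj⟩, fun c => hi c.2⟩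

lemma Cone.comap {Γ M N : Subgroup H} (h : Cone Γ M N) (f : G →* H) :
    Cone (Γ.comap f) (M.comap f) (N.comap f) := by
  obtain ⟨B, h⟩ := h
  exact ⟨B.comap f, fun g hg => h.le _ hg, fun g hg => by simpa using h.tot _ hg,
    fun a ha g hg => by simpa using h.conj _ ha _ hg, fun g => by simpa using h.ker (f g)⟩

lemma RC.comap {N : Subgroup H} (h : RC N) (f : G →* H) : RC (N.comap f) :=
  (Cone.comap h f).mono bot_le

lemma BC.comap {N : Subgroup H} (h : BC N) (f : G →* H) : BC (N.comap f) := Cone.comap h f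

lemma RC.trans {S : Subgroup G} (h : RC S) {T : Subgroup S} (h' : RC T) : RC (T.map S.subtype) := by
  refine Cone.trans h ?_
  obtain ⟨B, h'⟩ := h'
  refine ⟨B.map S.subtype, ?_, fun g hg => (h'.tot ⟨g, hg⟩ trivial).imp (fun a => ⟨_, a, rfl⟩)
    fun a => ⟨_, a, rfl⟩, fun a ha g hg => by simpa [Subgroup.mem_bot.1 ha] using hg, fun g =>
      ⟨?_, ?_⟩⟩
  · rintro _ ⟨g, -, rfl⟩; exact g.2
  · rintro ⟨g, hg, rfl⟩
    exact ⟨⟨g, ((h'.ker g).1 hg).1, rfl⟩, _, ((h'.ker g).1 hg).2, rfl⟩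
  · rintro ⟨⟨g, hg, rfl⟩, g', hg', e⟩
    exact ⟨g, (h'.ker g).2 ⟨hg, (Subtype.ext e : g' = g⁻¹) ▸ hg'⟩, rfl⟩

lemma BC.map (h : BC N) (f : G →* H) (hf : Function.Surjective f) (le : f.ker ≤ N) :
    BC (N.map f) := by
  obtain ⟨B, h⟩ := h
  refine ⟨B.map f, fun _ _ => trivial, fun g _ => ?_, ?_, fun g => ⟨?_, ?_⟩⟩
  · obtain ⟨g, rfl⟩ := hf g
    exact (h.tot g trivial).imp (fun a => ⟨_, a, rfl⟩) fun a => ⟨_, a, map_inv f g⟩
  · rintro a - _ ⟨g, hg, rfl⟩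
    obtain ⟨a, rfl⟩ := hf a
    exact ⟨_, h.conj a trivial g hg, by simp⟩
  · rintro ⟨g, hg, rfl⟩
    exact ⟨⟨g, ((h.ker g).1 hg).1, rfl⟩, _, ((h.ker g).1 hg).2, map_inv f g⟩
  · rintro ⟨⟨g, hg, rfl⟩, g', hg', e⟩
    refine ⟨g, by_contra fun c => h.mul hg hg' (.inl c) (le ?_), rfl⟩
    rw [MonoidHom.mem_ker, map_mul, e, mul_inv_cancel]

lemma BC.quot [N.Normal] (h : BC N) : Bi (G ⧸ N) := by
  have := h.map (QuotientGroup.mk' N) QuotientGroup.mk_surjective (by simp)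
  rwa [QuotientGroup.map_mk'_self] at this

lemma Bi.of_quot [N.Normal] (h : Bi (G ⧸ N)) : BC N := by
  simpa using h.comap (QuotientGroup.mk' N)

lemma Bi.sub (h : Bi G) (S : Subgroup G) : Bi S := by
  simpa using h.comap S.subtype

lemma Bi.centralizer (h : Bi G) (T : Set G) : RC (Subgroup.centralizer T) := by
  obtain ⟨B, h⟩ := h
  refine cone_iInf inv_top (fun t : T => Subgroup.centralizer {t.1}) (fun t => ⟨
    { carrier := {g | t.1⁻¹ * (g * t * g⁻¹) ∈ B}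
      one_mem' := by simp [B.one_mem]
      mul_mem' := fun {a b} ha hb => by
        have := B.mul_mem ha (h.conj a trivial _ hb)
        simpa [mul_assoc] using this }, fun _ _ => trivial, fun g _ => ?_,
    fun a ha g hg => by simpa [Subgroup.mem_bot.1 ha] using hg, fun g => ?_⟩)
    fun x => by simp [Subgroup.mem_centralizer_iff]
  · refine (h.tot (t.1⁻¹ * (g * t * g⁻¹)) trivial).imp id fun a => ?_
    have := h.conj g⁻¹ trivial _ a
    simpa [mul_assoc] using this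
  · rw [Subgroup.mem_centralizer_singleton_iff]
    refine ⟨fun e => ⟨?_, ?_⟩, fun ⟨a, b⟩ => ?_⟩
    · change _ * _ ∈ B
      simp [e, B.one_mem]
    · change _ * _ ∈ B
      simp [mul_assoc, ← e, B.one_mem]
    · have := (h.ker _).2 ⟨a, by simpa [mul_assoc] using h.conj g trivial _ b⟩
      rw [Subgroup.mem_bot, inv_mul_eq_one, eq_mul_inv_iff_mul_eq] at this
      exact this.symm

/-- all left-invariant total preorders are (weakly) Conradian -/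
def P (G : Type u) [Group G] : Prop := ∀ Q : Submonoid G, (∀ g, g ∈ Q ∨ g⁻¹ ∈ Q) →
  ∀ φ γ : G, φ⁻¹ ∉ Q → γ⁻¹ * φ ∉ Q → ∃ m, 0 < m ∧ (φ * γ)⁻¹ * (γ ^ m * φ) ∈ Q

lemma P.map (h : P G) (f : G →* H) (hf : Function.Surjective f) : P H := fun Q t φ γ => by
  obtain ⟨φ, rfl⟩ := hf φ
  obtain ⟨γ, rfl⟩ := hf γ
  simpa using h (Q.comap f) (fun g => by simpa using t (f g)) φ γ

lemma P.quot (h : P G) (N : Subgroup G) [N.Normal] : P (G ⧸ N) :=
  h.map (QuotientGroup.mk' N) QuotientGroup.mk_surjective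

lemma P.sub (h : P G) {S : Subgroup G} (hS : RC S) : P S := fun Q t φ γ => by
  obtain ⟨B, hB⟩ := hS
  have nb : ∀ x ∈ S, x ∈ B := fun x hx => ((hB.ker x).1 hx).1
  let Q' : Submonoid G :=
    { carrier := {x | (x ∈ B ∧ x ∉ S) ∨ x ∈ Q.map S.subtype}
      one_mem' := .inr (one_mem _)
      mul_mem' := by
        rintro x y (hx | hx) (hy | hy)
        · exact .inl ⟨mul_mem hx.1 hy.1, hB.mul hx.1 hy.1 (.inl hx.2)⟩
        · obtain ⟨y, -, rfl⟩ := hy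
          exact .inl ⟨mul_mem hx.1 (nb _ y.2), hB.mul hx.1 (nb _ y.2) (.inl hx.2)⟩
        · obtain ⟨x, -, rfl⟩ := hx
          exact .inl ⟨mul_mem (nb _ x.2) hy.1, hB.mul (nb _ x.2) hy.1 (.inr hy.2)⟩
        · exact .inr (mul_mem hx hy) }
  have e : ∀ x : S, (x : G) ∈ Q' ↔ x ∈ Q := fun x => ⟨fun a => a.elim (fun a => (a.2 x.2).elim)
    fun ⟨y, hy, e⟩ => (Subtype.ext e : y = x) ▸ hy, fun a => .inr ⟨x, a, rfl⟩⟩
  simp only [← e]
  refine h Q' (fun g => ?_) φ γ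
  by_cases c : g ∈ S
  · exact (t ⟨g, c⟩).imp (e _).2 (e _).2
  · exact (hB.tot g trivial).imp (fun a => .inl ⟨a, c⟩)
      fun a => .inl ⟨a, fun e => c (inv_mem_iff.1 e)⟩

lemma P.act (h : P G) {X : Type*} (a : G → X → X) (le : X → X → Prop)
    (tr : ∀ x y z, le x y → le y z → le x z) (tot : ∀ x y, le x y ∨ le y x)
    (a1 : ∀ x, a 1 x = x) (am : ∀ g h x, a (g * h) x = a g (a h x))
    (mono : ∀ g x y, le x y → le (a g x) (a g y)) (p : X) (φ γ : G) (h1 : ¬ le (a φ p) p)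
    (h2 : ¬ le (a γ p) (a φ p)) : ∃ m, 0 < m ∧ le (a φ (a γ p)) (a (γ ^ m) (a φ p)) := by
  let Q : Submonoid G :=
    { carrier := {g | le p (a g p)}
      one_mem' := by change le _ _; rw [a1]; exact (tot p p).elim id id
      mul_mem' := fun {x y} hx hy => by
        change le _ _; rw [am]; exact tr _ _ _ hx (mono x _ _ hy) }
  have e : ∀ x y, x⁻¹ * y ∈ Q ↔ le (a x p) (a y p) := fun x y => ⟨fun c => by
    have := mono x _ _ c
    rwa [← am, mul_inv_cancel_left] at this, fun c => by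
      have := mono x⁻¹ _ _ c
      rwa [← am, ← am, inv_mul_cancel, a1] at this⟩
  have e' : ∀ x, x⁻¹ ∈ Q ↔ le (a x p) p := fun x => by simpa [a1] using e x 1
  obtain ⟨m, m1, m2⟩ := h Q (fun g => (tot _ _).imp id (e' g).2) φ γ (mt (e' _).1 h1)
    (mt (e _ _).1 h2)
  exact ⟨m, m1, by simpa [am] using (e _ _).1 m2⟩

end Pool.Agent.H71.Con
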