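import Mathlib
import Pool.Agent.H71.Con1

/-! Bi-orders on groups with property `P` are central; nilpotency criteria. -/

namespace Pool.Agent.H71.Con

open scoped commutatorElement

universe u
variable {G H : Type u} [Group G] [Group H]

lemma Bi.order (h : Bi G) : ∃ _ : LinearOrder G, MulLeftMono G ∧ MulRightMono G := by
  classical
  obtain ⟨B, h⟩ := h
  let o : LinearOrder G :=
    { le := fun x y => x⁻¹ * y ∈ B
      le_refl := fun x => by simp [B.one_mem]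
      le_trans := fun x y z a b => by simpa [mul_assoc] using B.mul_mem a b
      le_antisymm := fun x y a b =>
        inv_mul_eq_one.1 (Subgroup.mem_bot.1 ((h.ker _).2 ⟨a, by simpa using b⟩))
      le_total := fun x y => by simpa using h.tot (x⁻¹ * y) trivial
      toDecidableLE := inferInstance }
  refine ⟨o, ⟨fun a x y (e : x⁻¹ * y ∈ B) => show (a * x)⁻¹ * (a * y) ∈ B by
    simpa [mul_assoc] using e⟩, ⟨fun a x y (e : x⁻¹ * y ∈ B) => show (x * a)⁻¹ * (y * a) ∈ B by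
      simpa [mul_assoc] using h.conj a⁻¹ trivial _ e⟩⟩

lemma cone_of_map {Γ M : Subgroup G} (hM : Inv Γ M) (hH : Bi H) (ψ : G → H)
    (mul : ∀ x ∈ M, ∀ y ∈ M, ψ (x * y) = ψ x * ψ y)
    (cj : ∀ h ∈ Γ, ∀ x ∈ M, ∃ k, ψ (h * x * h⁻¹) = k * ψ x * k⁻¹) :
    ∃ N, Cone Γ M N ∧ ∀ x, x ∈ N ↔ x ∈ M ∧ ψ x = 1 := by
  obtain ⟨B, h⟩ := hH
  have o : ψ 1 = 1 := by simpa using mul 1 (one_mem _) 1 (one_mem _)
  have i : ∀ x ∈ M, ψ x⁻¹ = (ψ x)⁻¹ := fun x hx =>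
    eq_inv_of_mul_eq_one_left (by rw [← mul _ (inv_mem hx) _ hx, inv_mul_cancel, o])
  refine ⟨{ carrier := {x | x ∈ M ∧ ψ x = 1}
            one_mem' := ⟨one_mem _, o⟩
            mul_mem' := fun a b => ⟨mul_mem a.1 b.1, by rw [mul _ a.1 _ b.1, a.2, b.2, one_mul]⟩
            inv_mem' := fun a => ⟨inv_mem a.1, by rw [i _ a.1, a.2, inv_one]⟩ },
    ⟨{ carrier := {x | x ∈ M ∧ ψ x ∈ B}
       one_mem' := ⟨one_mem _, o ▸ one_mem _⟩
       mul_mem' := fun a b => ⟨mul_mem a.1 b.1, mul _ a.1 _ b.1 ▸ mul_mem a.2 b.2⟩ },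
    fun g hg => hg.1, fun g hg => (h.tot (ψ g) trivial).imp (fun a => ⟨hg, a⟩)
      fun a => ⟨inv_mem hg, i g hg ▸ a⟩, fun a ha g hg => ⟨hM a ha g hg.1, ?_⟩,
    fun g => ⟨fun hg => ⟨⟨hg.1, hg.2 ▸ one_mem _⟩, inv_mem hg.1, ?_⟩,
      fun hg => ⟨hg.1.1, (h.ker _).2 ⟨hg.1.2, i g hg.1.1 ▸ hg.2.2⟩⟩⟩⟩, fun _ => Iff.rfl⟩
  · obtain ⟨k, e⟩ := cj a ha g hg.1
    exact e ▸ h.conj k trivial _ hg.2
  · rw [i g hg.1, hg.2, inv_one]; exact one_mem _

/-- `S` is contained in no proper relatively convex subgroup -/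
def Gen (S : Set G) : Prop := ∀ T : Subgroup G, RC T → S ⊆ T → T = ⊤

lemma Gen.map {S : Set G} (h : Gen S) (f : G →* H) (hf : Function.Surjective f) : Gen (f '' S) :=
  fun T hT le => by
    have := h _ (hT.comap f) fun s hs => le ⟨s, hs, rfl⟩
    exact Subgroup.comap_injective hf (by simpa using this)

lemma Gen.comm {S : Set G} (h : Gen S) {C : Subgroup G} (hC : BC C) {x : G}
    (hx : ∀ s ∈ S, ⁅x, s⁆ ∈ C) (g : G) : ⁅x, g⁆ ∈ C := by
  have := hC.normal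
  have e : ∀ g, ⁅x, g⁆ ∈ C ↔ g ∈ (Subgroup.centralizer {(x : G ⧸ C)}).comap
      (QuotientGroup.mk' C) := fun g => by
    rw [← QuotientGroup.eq_one_iff, Subgroup.mem_comap, Subgroup.mem_centralizer_singleton_iff,
      ← QuotientGroup.mk'_apply, map_commutatorElement, commutatorElement_eq_one_iff_mul_comm,
      eq_comm]
    rfl
  rw [e, h _ ((hC.quot.centralizer _).comap _) fun s hs => (e s).1 (hx s hs)]
  trivial

lemma mem_center {x : G} : x ∈ Subgroup.center G ↔ ∀ g, ⁅x, g⁆ ∈ (⊥ : Subgroup G) := by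
  simp [Subgroup.mem_center_iff, commutatorElement_eq_one_iff_mul_comm, eq_comm]

section
variable [LinearOrder G] [MulLeftMono G] [MulRightMono G]

lemma conj_le {a x y : G} (h : x ≤ y) : a * x * a⁻¹ ≤ a * y * a⁻¹ := by gcongr

lemma conj_lt {a x y : G} (h : x < y) : a * x * a⁻¹ < a * y * a⁻¹ := by gcongr

lemma P.conj_le_sq (hP : P G) (h : G) {g : G} (hg : 1 < g) : h * g * h⁻¹ ≤ g ^ 2 := by
  by_contra c
  let s : ℕ → G := fun j => h ^ j * g * (h ^ j)⁻¹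
  have p : ∀ j, 1 < s j := fun j => lt_of_eq_of_lt (by simp) (conj_lt (a := h ^ j) hg)
  have q : ∀ j, s j * s j < s (j + 1) := fun j => by
    convert conj_lt (a := h ^ j) (not_le.1 c) using 1 <;> simp only [s, pow_two] <;> group
  have q' : ∀ j, s j < (s j)⁻¹ * s (j + 1) := fun j => lt_inv_mul_iff_mul_lt.2 (q j)
  have r : ∀ j, s j < s (j + 1) := fun j => (lt_mul_of_one_lt_right' _ (p j)).trans (q j)
  have i : ∀ j x, (s j)⁻¹ * x < x := fun j x => mul_lt_of_lt_one_left' _ (inv_lt_one'.2 (p j))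
  let a : G → G → G := fun u c => u * c * (h * u * h⁻¹)⁻¹
  have e1 : ∀ c, a ((s 0)⁻¹ * h ^ 3) c = (s 0)⁻¹ * (h ^ 3 * c * (h ^ 3)⁻¹) * s 1 := fun c => by
    simp only [a, s]; group
  have e2 : ∀ c, a ((s 1)⁻¹ * h⁻¹) c = (s 1)⁻¹ * (h⁻¹ * c * h⁻¹⁻¹) * s 2 := fun c => by
    simp only [a, s]; group
  have am : ∀ g h x, a (g * h) x = a g (a h x) := fun _ _ _ => by simp only [a]; group
  obtain ⟨m, -, hm⟩ := hP.act a (· ≤ ·) (fun _ _ _ => le_trans) le_total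
    (fun _ => by simp [a]) am (fun _ _ _ e => by simp only [a]; gcongr) 1 ((s 0)⁻¹ * h ^ 3)
    ((s 1)⁻¹ * h⁻¹) (by simpa [e1] using (r 0)) (by
      rw [e1, e2, not_le]
      simpa only [mul_one, mul_inv_cancel] using (i 0 _).trans (q' 1))
  have b : ∀ m, a (((s 1)⁻¹ * h⁻¹) ^ m) (a ((s 0)⁻¹ * h ^ 3) 1) ≤ s 3 := fun m => by
    induction m with
    | zero => simpa [a, e1] using (e1 1 ▸ (by
        simpa using ((i 0 _).trans ((r 1).trans (r 2))).le) : a ((s 0)⁻¹ * h ^ 3) 1 ≤ s 3)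
    | succ m ih =>
      rw [pow_succ', am, e2, mul_assoc]
      refine ((i 1 _).trans_le ?_).le.trans (q 2).le
      gcongr
      convert conj_le (a := h⁻¹) ih using 1
      simp only [s]; group
  refine (hm.trans (b m)).not_gt ?_
  rw [e1, e2, show h ^ 3 * ((s 1)⁻¹ * (h⁻¹ * 1 * h⁻¹⁻¹) * s 2) * (h ^ 3)⁻¹ = (s 4)⁻¹ * s 5 by
    simp only [s]; group]
  refine lt_trans ?_ (lt_mul_of_one_lt_right' _ (p 1))
  rw [lt_inv_mul_iff_mul_lt]
  refine lt_trans ?_ ((q 3).trans (q' 4))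
  gcongr
  exact (r 0).trans ((r 1).trans (r 2))

lemma P.core (hP : P G) {x : G} (hx : 1 < x) (f : G) (hd : 1 ≤ ⁅f, x⁆) (n : ℕ) :
    ⁅f, x⁆ ^ n < x := by
  by_contra c
  have a : ∀ k : ℕ, ∃ c : G, (c * ⁅f, x⁆ * c⁻¹) ^ k * x ≤ f ^ k * x * (f ^ k)⁻¹ := fun k => by
    induction k with
    | zero => exact ⟨1, by simp⟩
    | succ k ih =>
      obtain ⟨c, ih⟩ := ih
      have e : f ^ (k + 1) * x * (f ^ (k + 1))⁻¹ =
          (f ^ k * ⁅f, x⁆ * (f ^ k)⁻¹) * (f ^ k * x * (f ^ k)⁻¹) := by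
        rw [commutatorElement_def]; group
      rcases le_total (c * ⁅f, x⁆ * c⁻¹) (f ^ k * ⁅f, x⁆ * (f ^ k)⁻¹) with l | l
      · exact ⟨c, by rw [e, pow_succ', mul_assoc]; exact mul_le_mul' l ih⟩
      · refine ⟨f ^ k, ?_⟩
        rw [e, pow_succ', mul_assoc]
        refine mul_le_mul' le_rfl (le_trans ?_ ih)
        exact mul_le_mul' (pow_le_pow_left' l k) le_rfl
  obtain ⟨b, hb⟩ := a (2 * n + 1)
  rcases hd.eq_or_lt with e | l
  · exact c (by simpa [← e] using hx)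
  have l' : 1 < b * ⁅f, x⁆ * b⁻¹ := by simpa using conj_lt (a := b) l
  have := hP.conj_le_sq b⁻¹ l'
  have h1 : x ≤ (b * ⁅f, x⁆ * b⁻¹) ^ (2 * n) := by
    rw [pow_mul]
    exact (not_lt.1 c).trans (pow_le_pow_left' (by simpa [mul_assoc] using this) n)
  refine (hb.trans (hP.conj_le_sq _ hx)).not_gt ?_
  rw [pow_two, pow_succ]
  gcongr
  exact h1.trans_lt (lt_mul_of_one_lt_right' _ l')

def Cvx (C : Subgroup G) : Prop := ∀ x y, 1 ≤ x → x ≤ y → y ∈ C → x ∈ C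

lemma pos_rep (x : G) : ∃ y, 1 ≤ y ∧ (y = x ∨ y = x⁻¹) ∧ ∀ C : Subgroup G, y ∈ C ↔ x ∈ C :=
  (le_total 1 x).elim (fun h => ⟨x, h, .inl rfl, fun _ => Iff.rfl⟩)
    fun h => ⟨x⁻¹, one_le_inv'.2 h, .inr rfl, fun _ => inv_mem_iff⟩

lemma Cvx.total {C D : Subgroup G} (hC : Cvx C) (hD : Cvx D) : C ≤ D ∨ D ≤ C := by
  by_contra c
  push Not at c
  obtain ⟨x, x1, x2⟩ := SetLike.not_le_iff_exists.1 c.1
  obtain ⟨y, y1, y2⟩ := SetLike.not_le_iff_exists.1 c.2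
  obtain ⟨x', a, -, e⟩ := pos_rep x
  obtain ⟨y', b, -, e'⟩ := pos_rep y
  rcases le_total x' y' with l | l
  · exact x2 ((e D).1 (hD _ _ a l ((e' D).2 y1)))
  · exact y2 ((e' C).1 (hC _ _ b l ((e C).2 x1)))

lemma Cvx.normal (hP : P G) {C : Subgroup G} (hC : Cvx C) : C.Normal := ⟨fun x hx a => by
  obtain ⟨y, h1, h2, h3⟩ := pos_rep x
  have : a * y * a⁻¹ ∈ C := by
    rcases h1.eq_or_lt with e | l
    · simp [← e]
    · exact hC _ _ (by simpa using conj_le (a := a) h1) (hP.conj_le_sq a l)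
        (pow_mem ((h3 C).2 hx) 2)
  rcases h2 with rfl | rfl
  · exact this
  · simpa [mul_assoc] using inv_mem this⟩

lemma Cvx.bc (hP : P G) {C : Subgroup G} (hC : Cvx C) : BC C := by
  have := hC.normal hP
  have k : ∀ x y, 1 ≤ x → y ∈ C → 1 ≤ x * y ∨ x * y ∈ C := fun x y hx hy =>
    (le_total 1 (x * y)).imp id fun l => mul_mem (hC _ _ hx (by simpa using mul_le_mul' l (le_refl y⁻¹)) (inv_mem hy)) hy
  refine ⟨{ carrier := {x | 1 ≤ x ∨ x ∈ C}, one_mem' := .inl le_rfl, mul_mem' := ?_ },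
    fun _ _ => trivial, fun g _ => (le_total 1 g).imp .inl fun a => .inl (one_le_inv'.2 a),
    fun a _ g hg => hg.imp (fun l => by simpa using conj_le (a := a) l) fun l => this.conj_mem g l a,
    fun g => ⟨fun hg => ⟨.inr hg, .inr (inv_mem hg)⟩, ?_⟩⟩
  · rintro x y (hx | hx) (hy | hy)
    · exact .inl (one_le_mul hx hy)
    · exact k x y hx hy
    · simpa [mul_assoc] using k y _ hy (this.conj_mem x hx y⁻¹)
    · exact .inr (mul_mem hx hy)
  · rintro ⟨a | a, b | b⟩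
    · rw [le_antisymm (one_le_inv'.1 b) a]; exact one_mem _
    exacts [inv_mem_iff.1 b, a, a]

lemma cvx_bot : Cvx (⊥ : Subgroup G) := fun _ _ a b c =>
  Subgroup.mem_bot.2 (le_antisymm (Subgroup.mem_bot.1 c ▸ b) a)

def gen (d : G) : Subgroup G where
  carrier := {c | ∃ n : ℕ, c ≤ d ^ n ∧ c⁻¹ ≤ d ^ n}
  one_mem' := ⟨0, by simp⟩
  inv_mem' := fun ⟨n, a, b⟩ => ⟨n, b, by simpa using a⟩
  mul_mem' := fun ⟨n, a, b⟩ ⟨m, c, e⟩ => ⟨n + m, pow_add d n m ▸ mul_le_mul' a c, by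
    rw [mul_inv_rev, add_comm, pow_add]; exact mul_le_mul' e b⟩

lemma P.small (hP : P G) {x : G} (hx : x ≠ 1) (f : G) : ∃ C, Cvx C ∧ ⁅f, x⁆ ∈ C ∧ x ∉ C := by
  have cv : ∀ d : G, 1 ≤ d → Cvx (gen d) := fun d hd x y a b ⟨n, c, _⟩ =>
    ⟨n, b.trans c, (inv_le_one'.2 a).trans (one_le_pow_of_one_le' hd n)⟩
  have m : ∀ d : G, 1 ≤ d → d ∈ gen d := fun d hd =>
    ⟨1, by simp, by simpa using (inv_le_one'.2 hd).trans hd⟩
  have k : ∀ x : G, 1 < x → ∃ C : Subgroup G, Cvx C ∧ ⁅f, x⁆ ∈ C ∧ x ∉ C := fun x hx => by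
    rcases le_total 1 ⁅f, x⁆ with l | l
    · exact ⟨_, cv _ l, m _ l, fun ⟨n, a, _⟩ => (hP.core hx f l n).not_ge a⟩
    · have e : ⁅f⁻¹, f * x * f⁻¹⁆ = ⁅f, x⁆⁻¹ := by simp only [commutatorElement_def]; group
      have l' := one_le_inv'.2 l
      refine ⟨_, cv _ l', inv_mem_iff.1 (m _ l'), fun ⟨n, a, _⟩ => ?_⟩
      have := hP.core (x := f * x * f⁻¹) (by simpa using conj_lt (a := f) hx) f⁻¹ (e ▸ l') n
      rw [e] at this
      exact (a.trans_lt this).not_ge (by simpa [commutatorElement_def] using l)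
  rcases hx.lt_or_gt with l | l
  · obtain ⟨C, a, b, c⟩ := k x⁻¹ (one_lt_inv'.2 l)
    refine ⟨C, a, ?_, fun e => c (inv_mem e)⟩
    convert (a.normal hP).conj_mem _ (inv_mem b) x using 1
    simp only [commutatorElement_def]; group
  · exact k x l

def Dp (x : G) : Subgroup G := sInf {C | Cvx C ∧ x ∈ C}

def Dm (x : G) : Subgroup G where
  carrier := {g | g = 1 ∨ ∃ C, Cvx C ∧ g ∈ C ∧ x ∉ C}
  one_mem' := .inl rfl
  inv_mem' := fun h => h.imp (fun e => by simp [e]) fun ⟨C, a, b, c⟩ => ⟨C, a, inv_mem b, c⟩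
  mul_mem' := by
    rintro a b (rfl | ⟨C, a1, a2, a3⟩) hb
    · simpa using hb
    rcases hb with rfl | ⟨D, b1, b2, b3⟩
    · exact .inr ⟨C, a1, by simpa using a2, a3⟩
    · exact .inr ((a1.total b1).elim (fun l => ⟨D, b1, mul_mem (l a2) b2, b3⟩)
        fun l => ⟨C, a1, mul_mem a2 (l b2), a3⟩)

lemma cvx_sInf {𝒞 : Set (Subgroup G)} (h : ∀ C ∈ 𝒞, Cvx C) : Cvx (sInf 𝒞) :=
  fun x y a b c => Subgroup.mem_sInf.2 fun C hC => h C hC x y a b (Subgroup.mem_sInf.1 c C hC)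

lemma cvx_Dp (x : G) : Cvx (Dp x) := cvx_sInf fun _ h => h.1

lemma mem_Dp (x : G) : x ∈ Dp x := Subgroup.mem_sInf.2 fun _ h => h.2

lemma Dp_le {x : G} {C : Subgroup G} (h : Cvx C) (hx : x ∈ C) : Dp x ≤ C := sInf_le ⟨h, hx⟩

lemma cvx_Dm (x : G) : Cvx (Dm x) := fun _ _ a b c =>
  c.imp (fun e => le_antisymm (e ▸ b) a) fun ⟨C, h1, h2, h3⟩ => ⟨C, h1, h1 _ _ a b h2, h3⟩

lemma notMem_Dm {x : G} (hx : x ≠ 1) : x ∉ Dm x := fun h => h.elim hx fun ⟨_, _, a, b⟩ => b a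

lemma le_Dm {x : G} {C : Subgroup G} (h : Cvx C) (hx : x ∉ C) : C ≤ Dm x :=
  fun _ hg => .inr ⟨C, h, hg, hx⟩

lemma P.comm_Dm (hP : P G) {x y : G} (hy : y ∈ Dp x) (f : G) : ⁅f, y⁆ ∈ Dm x := by
  by_cases e : y = 1
  · simp [e, one_mem]
  obtain ⟨C, a, b, c⟩ := hP.small e f
  exact .inr ⟨C, a, b, fun h => c (Dp_le a h hy)⟩

lemma D_cmp (x y : G) : (Dp x = Dp y ∧ Dm x = Dm y) ∨ Dp x ≤ Dm y ∨ Dp y ≤ Dm x := by
  by_cases a : y ∈ Dp x
  · by_cases b : x ∈ Dp y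
    · exact .inl ⟨le_antisymm (Dp_le (cvx_Dp y) b) (Dp_le (cvx_Dp x) a), le_antisymm
        (fun g hg => hg.imp id fun ⟨C, c, d, e⟩ => ⟨C, c, d, fun f => e (Dp_le c f b)⟩)
        fun g hg => hg.imp id fun ⟨C, c, d, e⟩ => ⟨C, c, d, fun f => e (Dp_le c f a)⟩⟩
    · exact .inr (.inr (le_Dm (cvx_Dp y) b))
  · exact .inr (.inl (le_Dm (cvx_Dp x) a))

lemma exists_max {T : Set G} (hT : T.Finite) : (∀ y ∈ T, y = 1) ∨
    ∃ x ∈ T, x ≠ 1 ∧ ∀ y ∈ T, y ∈ Dp x := by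
  rcases T.eq_empty_or_nonempty with rfl | ne
  · simp
  obtain ⟨x, hx⟩ := hT.exists_maximalFor Dp T ne
  have : ∀ y ∈ T, y ∈ Dp x := fun y hy =>
    ((cvx_Dp y).total (cvx_Dp x)).elim id (hx.2 hy) (mem_Dp y)
  by_cases e : x = 1
  · exact .inl fun y hy => Dp_le cvx_bot (Subgroup.mem_bot.2 e) (this y hy)
  · exact .inr ⟨x, hx.1, e, this⟩

lemma bc_center' (hP : P G) {S : Set G} (hS : S.Finite) (hg : Gen S) : BC (Subgroup.center G) := by
  have n1 := fun c : G => (cvx_Dp c).normal hP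
  have n2 := fun c : G => (cvx_Dm c).normal hP
  have mo : ∀ (C D : Subgroup G) [C.Normal] [D.Normal], C ≤ D →
    C.upperCentralSeriesStep ≤ D.upperCentralSeriesStep := fun C D _ _ l x hx g => l (hx g)
  refine glue (fun c : G => (Dp c).upperCentralSeriesStep) (fun c => (Dm c).upperCentralSeriesStep)
    (fun c => ?_) (fun x y => (D_cmp x y).imp (fun e => ⟨le_antisymm (mo _ _ e.1.le) (mo _ _ e.1.ge),
      le_antisymm (mo _ _ e.2.le) (mo _ _ e.2.ge)⟩) (.imp (mo _ _) (mo _ _)))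
    (fun c x hx g => Subgroup.mem_bot.1 (mem_center.1 hx g) ▸ one_mem _) (fun _ => le_top) le_top
    (fun x _ hx => ?_) inv_normal
  · have nm : (Dp c).upperCentralSeriesStep.Normal := by
      rw [Subgroup.upperCentralSeriesStep_eq_comap_center]; infer_instance
    have ce : ∀ y ∈ Dp c, ∀ z : G, (z : G ⧸ Dm c) * y = y * z := fun y hy z => by
      rw [← commutatorElement_eq_one_iff_mul_comm]
      exact (QuotientGroup.eq_one_iff _).2 (hP.comm_Dm hy z)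
    have mu : ∀ g : G, ∀ x ∈ (Dp c).upperCentralSeriesStep, ∀ y ∈ (Dp c).upperCentralSeriesStep,
        ((⁅x * y, g⁆ : G) : G ⧸ Dm c) = (⁅x, g⁆ : G) * (⁅y, g⁆ : G) := fun g x hx y hy => by
      rw [show ⁅x * y, g⁆ = x * ⁅y, g⁆ * x⁻¹ * ⁅x, g⁆ by simp only [commutatorElement_def]; group,
        QuotientGroup.mk_mul, QuotientGroup.mk_mul, QuotientGroup.mk_mul, ce _ (hy g),
        QuotientGroup.mk_inv, mul_inv_cancel_right, ce _ (hy g)]
    have := fun g : G => cone_of_map (Γ := ⊤) (M := (Dp c).upperCentralSeriesStep) inv_normal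
      ((cvx_Dm c).bc hP).quot (fun x => ((⁅x, g⁆ : G) : G ⧸ Dm c)) (mu g) fun h _ x hx => ⟨1, by
        have e : h * x * h⁻¹ = ⁅x, h⁆⁻¹ * x := by simp only [commutatorElement_def]; group
        have m : ⁅x, h⁆⁻¹ ∈ (Dp c).upperCentralSeriesStep := fun z =>
          Subgroup.commutator_le_left _ ⊤
            (Subgroup.commutator_mem_commutator (inv_mem (hx h)) trivial)
        have : ((⁅⁅x, h⁆⁻¹, g⁆ : G) : G ⧸ Dm c) = 1 := (QuotientGroup.eq_one_iff _).2 (by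
          rw [← commutatorElement_inv]; exact inv_mem (hP.comm_Dm (inv_mem (hx h)) g))
        simp only [e, mu g _ m _ hx, this, one_mul, inv_one, mul_one]⟩
    choose N h1 h2 using this
    refine cone_iInf inv_normal N h1 fun x => ⟨fun hx => ?_, fun hx g => ?_⟩
    · have : x ∈ (Dp c).upperCentralSeriesStep := fun g => by
        rcases hx g with e | ⟨C, a, b, d⟩
        · exact e ▸ one_mem _
        · exact (a.total (cvx_Dp c)).resolve_right (fun l => d (l (mem_Dp c))) b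
      exact ⟨this, fun g => (h2 g x).2 ⟨this, (QuotientGroup.eq_one_iff _).2 (hx g)⟩⟩
    · exact (QuotientGroup.eq_one_iff _).1 ((h2 g x).1 (hx.2 g)).2
  · rcases exists_max (hS.image fun s => ⁅x, s⁆) with h | ⟨_, ⟨s, -, rfl⟩, ne, h⟩
    · exact (hx (mem_center.2 (hg.comm (cvx_bot.bc hP) fun s hs => h _ ⟨s, hs, rfl⟩))).elim
    · exact ⟨_, hg.comm ((cvx_Dp _).bc hP) fun s hs => h _ ⟨s, hs, rfl⟩,
        fun e => notMem_Dm ne (e s)⟩

end

lemma bc_center (hB : Bi G) (hP : P G) {S : Set G} (hS : S.Finite) (hg : Gen S) :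
    BC (Subgroup.center G) := by
  obtain ⟨_, _, _⟩ := hB.order
  exact bc_center' hP hS hg

/-- left-normed commutators of weight `n + 1` in `S` -/
def W (S : Set G) : ℕ → Set G
  | 0 => S
  | n + 1 => Set.image2 (fun x s => ⁅x, s⁆) (W S n) S

lemma W_fin {S : Set G} (hS : S.Finite) : ∀ n, (W S n).Finite
  | 0 => hS
  | n + 1 => (W_fin hS n).image2 _ hS

lemma W_map (S : Set G) (f : G →* H) : ∀ n, W (f '' S) n = f '' W S n
  | 0 => rfl
  | n + 1 => by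
    rw [W, W, W_map S f n]
    exact (Set.image_image2_distrib fun a b => map_commutatorElement f a b).symm

lemma W_lcs (S : Set G) : ∀ n, W S n ⊆ (⊤ : Subgroup G).lowerCentralSeries n
  | 0 => fun _ _ => trivial
  | n + 1 => by
    rintro _ ⟨x, hx, s, -, rfl⟩
    exact Subgroup.commutator_mem_commutator (W_lcs S n hx) trivial

theorem nil_of_W (n : ℕ) : ∀ (G : Type u) [Group G] (S : Set G), Bi G → P G → S.Finite → Gen S →
    W S n ⊆ (⊥ : Subgroup G) → Group.IsNilpotent G := by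
  induction n with
  | zero =>
    intro G _ S hB _ _ hg h
    exact Subgroup.nilpotent_iff_lowerCentralSeries.2 ⟨0, (hg _ hB.rc h).symm⟩
  | succ n ih =>
    intro G _ S hB hP hS hg h
    refine Group.of_quotient_center_nilpotent (ih _ (QuotientGroup.mk' _ '' S)
      (bc_center hB hP hS hg).quot (hP.quot _) (hS.image _)
      (hg.map _ QuotientGroup.mk_surjective) ?_)
    rw [W_map]
    rintro _ ⟨x, hx, rfl⟩
    exact (QuotientGroup.eq_one_iff _).2 (mem_center.2 (hg.comm hB fun s hs => h ⟨x, hx, s, hs, rfl⟩))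

/-- `G / C` is nilpotent -/
def NilMod (C : Subgroup G) : Prop := ∃ n, (⊤ : Subgroup G).lowerCentralSeries n ≤ C

lemma nilMod_iff {C : Subgroup G} [C.Normal] : NilMod C ↔ Group.IsNilpotent (G ⧸ C) := by
  rw [Subgroup.nilpotent_iff_lowerCentralSeries]
  refine exists_congr fun n => ?_
  rw [← Subgroup.map_top_of_surjective (QuotientGroup.mk' C) QuotientGroup.mk_surjective,
    ← Subgroup.map_lowerCentralSeries, Subgroup.map_eq_bot_iff, QuotientGroup.ker_mk']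

lemma nilMod_of_W {C : Subgroup G} (hC : BC C) (hP : P G) {S : Set G} (hS : S.Finite) (hg : Gen S)
    {n : ℕ} (h : W S n ⊆ C) : NilMod C := by
  have := hC.normal
  refine nilMod_iff.2 (nil_of_W n _ (QuotientGroup.mk' _ '' S) hC.quot (hP.quot _) (hS.image _)
    (hg.map _ QuotientGroup.mk_surjective) ?_)
  rw [W_map]
  rintro _ ⟨x, hx, rfl⟩
  exact (QuotientGroup.eq_one_iff _).2 (h hx)

/-- reduction to the residually nilpotent case -/
theorem exists_res (hB : Bi G) (hP : P G) {S : Set G} (hS : S.Finite) (hg : Gen S) :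
    ∃ C : Subgroup G, BC C ∧ (∀ x ∉ C, ∃ N, C ≤ N ∧ BC N ∧ NilMod N ∧ x ∉ N) ∧
      (NilMod C → Group.IsNilpotent G) := by
  obtain ⟨_, _, _⟩ := hB.order
  refine ⟨sInf {C | Cvx C ∧ NilMod C}, (cvx_sInf fun _ h => h.1).bc hP, fun x hx => ?_,
    fun ⟨n, hn⟩ => ?_⟩
  · obtain ⟨N, h1, h2⟩ : ∃ N ∈ {C : Subgroup G | Cvx C ∧ NilMod C}, x ∉ N := by
      simpa [Subgroup.mem_sInf, and_assoc] using hx
    exact ⟨N, sInf_le h1, h1.1.bc hP, h1.2, h2⟩
  rcases exists_max (W_fin hS n) with h | ⟨x, hx, ne, h⟩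
  · exact nil_of_W n G S hB hP hS hg h
  · refine (notMem_Dm ne (Subgroup.mem_sInf.1 (hn (W_lcs S n hx)) _ ⟨cvx_Dm x,
      nilMod_of_W ((cvx_Dm x).bc hP) hP hS hg (n := n + 1) ?_⟩)).elim
    rintro _ ⟨y, hy, s, -, rfl⟩
    exact (commutatorElement_inv s y ▸ inv_mem (hP.comm_Dm (h y hy) s) : ⁅y, s⁆ ∈ Dm x)

/-- residual centrality -/
theorem res_central (hB : Bi G) (hP : P G) {b : G} (hb : b ≠ 1) :
    ∃ D : Subgroup G, BC D ∧ b ∉ D ∧ ∀ g : G, ⁅g, b⁆ ∈ D := by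
  obtain ⟨_, _, _⟩ := hB.order
  exact ⟨Dm b, (cvx_Dm b).bc hP, notMem_Dm hb, hP.comm_Dm (mem_Dp b)⟩

end Pool.Agent.H71.Con
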