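import Mathlib
import Pool.Agent.H71.Con2

/-! Invariant cones on abelian groups, torsion-free nilpotent groups, and local unipotency. -/

namespace Pool.Agent.H71.Con

open scoped commutatorElement
open Polynomial Filter

universe u
variable {G H : Type u} [Group G] [Group H]

theorem exists_cone {V : Type u} [AddCommGroup V] (E : Submonoid (Module.End ℤ V))
    (comm : ∀ e ∈ E, ∀ e' ∈ E, Commute e e') (W : AddSubsemigroup V)
    (inv : ∀ e ∈ E, ∀ w ∈ W, e w ∈ W) (h0 : (0 : V) ∉ W) :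
    ∃ C : AddSubmonoid V, (∀ x, x ∈ C ∨ -x ∈ C) ∧ (∀ e ∈ E, ∀ x ∈ C, e x ∈ C) ∧ ∀ w ∈ W, -w ∉ C := by
  obtain ⟨C, -, hC⟩ := zorn_le_nonempty₀
    {C : AddSubmonoid V | (∀ e ∈ E, ∀ x ∈ C, e x ∈ C) ∧ ∀ w ∈ W, -w ∉ C} (fun c hc ch y hy => by
      have m := fun x => AddSubmonoid.mem_sSup_of_directedOn (x := x) ⟨y, hy⟩ ch.directedOn
      exact ⟨sSup c, ⟨fun e he x hx => ((m x).1 hx).elim fun D hD =>
        (m _).2 ⟨D, hD.1, (hc hD.1).1 e he x hD.2⟩,
        fun w hw hx => ((m _).1 hx).elim fun D hD => (hc hD.1).2 w hw hD.2⟩,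
        fun z hz => le_sSup hz⟩) ⊥ ⟨fun e _ x hx => by simp [AddSubmonoid.mem_bot.1 hx],
      fun w hw e => h0 (by simpa [neg_eq_zero.1 (AddSubmonoid.mem_bot.1 e)] using hw)⟩
  refine ⟨C, fun x => ?_, hC.1⟩
  let R := AddSubmonoid.closure (E : Set (Module.End ℤ V))
  have r1 : ∀ f ∈ R, ∀ x ∈ C, f x ∈ C := fun f hf x hx => by
    induction hf using AddSubmonoid.closure_induction with
    | mem e he => exact hC.1.1 e he x hx
    | zero => exact zero_mem _
    | add f g _ _ a b => exact add_mem a b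
  have r2 : ∀ f ∈ R, f = 0 ∨ ∀ w ∈ W, f w ∈ W := fun f hf => by
    induction hf using AddSubmonoid.closure_induction with
    | mem e he => exact .inr (inv e he)
    | zero => exact .inl rfl
    | add f g _ _ a b =>
      rcases a with rfl | a
      · simpa using b
      rcases b with rfl | b
      · simpa using .inr a
      · exact .inr fun w hw => add_mem (a w hw) (b w hw)
  have r3 : ∀ e ∈ E, ∀ f ∈ R, e * f ∈ R ∧ Commute e f := fun e he f hf => by
    induction hf using AddSubmonoid.closure_induction with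
    | mem e' he' => exact ⟨AddSubmonoid.subset_closure (mul_mem he he'), comm e he e' he'⟩
    | zero => exact ⟨by simp, Commute.zero_right _⟩
    | add f g _ _ a b => exact ⟨mul_add e f g ▸ add_mem a.1 b.1, a.2.add_right b.2⟩
  have r4 : ∀ f ∈ R, ∀ g ∈ R, Commute f g := fun f hf g hg => by
    induction hf using AddSubmonoid.closure_induction with
    | mem e he => exact (r3 e he g hg).2
    | zero => exact Commute.zero_left _
    | add f f' _ _ a b => exact a.add_left b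
  have key : ∀ x ∉ C, ∃ π ∈ C, ∃ f ∈ R, ∃ w ∈ W, (∀ w ∈ W, f w ∈ W) ∧ -w = π + f x := fun x hx => by
    let D : AddSubmonoid V :=
      { carrier := {y | ∃ π ∈ C, ∃ f ∈ R, y = π + f x}
        zero_mem' := ⟨0, zero_mem _, 0, zero_mem _, by simp⟩
        add_mem' := by
          rintro _ _ ⟨a, ha, f, hf, rfl⟩ ⟨b, hb, g, hg, rfl⟩
          exact ⟨a + b, add_mem ha hb, f + g, add_mem hf hg, by simp; abel⟩ }
    by_contra c
    refine hx (hC.2 (y := D) ⟨?_, ?_⟩ (fun y hy => ⟨y, hy, 0, zero_mem _, by simp⟩)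
      ⟨0, zero_mem _, 1, AddSubmonoid.subset_closure (one_mem E), by simp⟩)
    · rintro e he _ ⟨a, ha, f, hf, rfl⟩
      exact ⟨e a, hC.1.1 e he a ha, e * f, (r3 e he f hf).1, by simp⟩
    · rintro w hw ⟨a, ha, f, hf, e⟩
      rcases r2 f hf with rfl | h
      · exact hC.1.2 w hw (by simpa [e] using ha)
      · exact c ⟨a, ha, f, hf, w, hw, h, e⟩
  by_contra c
  obtain ⟨a, ha, f, hf, w, hw, h1, e1⟩ := key x fun h => c (.inl h)
  obtain ⟨b, hb, g, hg, v, hv, h2, e2⟩ := key (-x) fun h => c (.inr h)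
  refine hC.1.2 _ (add_mem (h2 w hw) (h1 v hv)) ?_
  have e : f (g x) = g (f x) := LinearMap.congr_fun (r4 f hf g hg) x
  rw [neg_add, ← map_neg, ← map_neg, e1, e2]
  convert add_mem (r1 g hg a ha) (r1 f hf b hb) using 1
  simp only [map_add, map_neg, e]; abel

lemma bi_comm (A : Type u) [CommGroup A] (tf : ∀ (g : A) (n : ℕ), n ≠ 0 → g ^ n = 1 → g = 1) :
    Bi A := by
  have : ∀ x : {x : A // x ≠ 1}, ∃ N : Subgroup A, BC N ∧ x.1 ∉ N := fun x => by
    obtain ⟨C, h1, -, h2⟩ := exists_cone (V := Additive A) ⊥ (fun e he e' _ => by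
      rw [Submonoid.mem_bot.1 he]; exact Commute.one_left _)
      { carrier := {y | ∃ n : ℕ, n ≠ 0 ∧ y = n • Additive.ofMul x.1}
        add_mem' := by
          rintro _ _ ⟨n, a, rfl⟩ ⟨m, -, rfl⟩
          exact ⟨n + m, by omega, (add_nsmul _ _ _).symm⟩ }
      (fun e he w hw => by rw [Submonoid.mem_bot.1 he]; exact hw)
      fun ⟨n, a, b⟩ => x.2 (tf _ n a b.symm)
    exact ⟨{ carrier := {g | Additive.ofMul g ∈ C ∧ -Additive.ofMul g ∈ C}
             one_mem' := ⟨zero_mem C, by simp⟩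
             mul_mem' := fun a b => ⟨add_mem a.1 b.1, by
               simpa [add_comm] using add_mem a.2 b.2⟩
             inv_mem' := fun a => ⟨a.2, by simpa using a.1⟩ },
      ⟨C.toSubmonoid, fun _ _ => trivial, fun g _ => h1 _,
        fun a _ g hg => by simpa using hg, fun _ => Iff.rfl⟩,
      fun h => h2 _ ⟨1, one_ne_zero, (one_nsmul _).symm⟩ h.2⟩
  choose N h1 h2 using this
  exact cone_iInf inv_top N h1 fun x => ⟨fun e => by simp [Subgroup.mem_bot.1 e],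
    fun e => by_contra fun c => h2 ⟨x, c⟩ (e.2 _)⟩

theorem bi_of_nil (G : Type u) [Group G] [Group.IsNilpotent G] :
    (∀ g ∈ Subgroup.center G, ∀ n : ℕ, n ≠ 0 → g ^ n = 1 → g = 1) → Bi G := by
  classical
  refine Group.nilpotent_center_quotient_ind (P := fun G _ _ =>
    (∀ g ∈ Subgroup.center G, ∀ n : ℕ, n ≠ 0 → g ^ n = 1 → g = 1) → Bi G) G ?_ ?_
  · intro G _ _ _
    exact ⟨⊤, fun _ _ => trivial, fun _ _ => .inl trivial, fun _ _ _ _ => trivial,
      fun g => by simp [Subsingleton.elim g 1]⟩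
  intro G _ _ ih tf
  refine Cone.trans (Bi.of_quot (ih fun y hy n hn e => ?_)) ?_
  · obtain ⟨y, rfl⟩ := QuotientGroup.mk_surjective y
    refine (QuotientGroup.eq_one_iff _).2 (mem_center.2 fun g => ?_)
    have c : ⁅y, g⁆ ∈ Subgroup.center G := (QuotientGroup.eq_one_iff _).1 (mem_center.1 hy g)
    have p : ∀ n : ℕ, ⁅y ^ n, g⁆ = ⁅y, g⁆ ^ n := fun n => by
      induction n with
      | zero => simp
      | succ n ih =>
        rw [pow_succ', show ⁅y * y ^ n, g⁆ = y * ⁅y ^ n, g⁆ * y⁻¹ * ⁅y, g⁆ by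
          simp only [commutatorElement_def]; group, ih,
          Subgroup.mem_center_iff.1 (pow_mem c n), mul_inv_cancel_right, pow_succ]
    exact tf _ c n hn (p n ▸ mem_center.1 ((QuotientGroup.eq_one_iff _).1 e) g)
  · let _ : CommGroup (Subgroup.center G) :=
      { mul_comm := fun a b => Subtype.ext (Subgroup.mem_center_iff.1 b.2 a) }
    obtain ⟨N, h1, h2⟩ := cone_of_map (Γ := ⊤) (M := Subgroup.center G) inv_normal
      (bi_comm (Subgroup.center G) fun g n hn e => Subtype.ext (tf g g.2 n hn (congrArg Subtype.val e)))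
      (fun x => if h : x ∈ Subgroup.center G then ⟨x, h⟩ else 1)
      (fun x hx y hy => by simp [hx, hy, mul_mem hx hy])
      fun h _ x hx => ⟨1, by simp [Subgroup.mem_center_iff.1 hx h]⟩
    convert h1
    refine (eq_bot_iff.2 fun x hx => ?_).symm
    have := (h2 x).1 hx
    simpa [this.1] using this.2

lemma bc_of_nil {M : Subgroup G} [M.Normal] (h : NilMod M)
    (i : ∀ g (n : ℕ), n ≠ 0 → g ^ n ∈ M → g ∈ M) : BC M := by
  have := nilMod_iff.1 h
  refine Bi.of_quot (bi_of_nil _ fun g _ n hn e => ?_)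
  obtain ⟨g, rfl⟩ := QuotientGroup.mk_surjective g
  exact (QuotientGroup.eq_one_iff _).2 (i g n hn ((QuotientGroup.eq_one_iff _).1 e))

lemma unip_of_poly {V : Type u} [AddCommGroup V] (U : Module.End ℤ V)
    (cen : ∀ b : V, b ≠ 0 → ∃ D : Submodule ℤ V, (∀ x ∈ D, U x ∈ D) ∧ U b - b ∈ D ∧
      ∀ n : ℤ, n ≠ 0 → n • b ∉ D) {p : ℤ[X]} (hp : p ≠ 0) {t : V} (h : aeval U p t = 0) (k : ℕ) :
    ∃ m : ℕ, ((U ^ k - 1) ^ m) t = 0 := by
  obtain ⟨q, e, hq⟩ := exists_eq_pow_rootMultiplicity_mul_and_not_dvd p hp 1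
  generalize rootMultiplicity 1 p = m at e
  have b0 : ((U - 1) ^ m) t = 0 := by
    by_contra c
    obtain ⟨D, d1, d2, d3⟩ := cen _ c
    have a : ∀ r : ℤ[X], ∀ x ∈ D, aeval U r x ∈ D := fun r => by
      induction r using Polynomial.induction_on with
      | C a => intro x hx; simpa using D.smul_mem a hx
      | add p q a b => intro x hx; simpa using add_mem (a x hx) (b x hx)
      | monomial n a ih => intro x hx; simpa [pow_succ] using ih _ (d1 x hx)
    obtain ⟨r, hr⟩ := X_sub_C_dvd_sub_C_eval (p := q) (a := 1)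
    refine d3 (q.eval 1) (fun e => hq (dvd_iff_isRoot.2 e)) ?_
    have e1 : aeval U q (((U - 1) ^ m) t) = 0 := by simpa [e, mul_comm _ q] using h
    have e2 := congrArg (fun f => aeval U f (((U - 1) ^ m) t)) (hr.trans (mul_comm _ _))
    simp only [map_sub, map_mul, aeval_C, aeval_X, LinearMap.sub_apply, e1, Module.End.mul_apply,
      Module.algebraMap_end_apply, one_smul, zero_sub] at e2
    rw [← neg_mem_iff, e2, ← map_sub]
    exact a r _ d2
  obtain ⟨r, hr⟩ := sub_dvd_pow_sub_pow (X : ℤ[X]) 1 k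
  refine ⟨m, ?_⟩
  have := congrArg (fun f => aeval U (f ^ m) t) (hr.trans (mul_comm _ _))
  simpa [mul_pow, b0] using this

theorem unip_abs (hP : P G) {V : Type u} [AddCommGroup V] (ρ : G →* Module.End ℤ V) (c : G → V)
    (hc : ∀ s s', c (s * s') = c s + ρ s (c s')) (z : G) (cz : c z = 0) (cz' : c z⁻¹ = 0)
    (τ : V → G) (t1 : ∀ v, ρ (τ v) = 1) (t2 : ∀ v, c (τ v) = v - ρ z v)
    (comm : ∀ s s', Commute (ρ s) (ρ s'))
    (rank : ∀ T : Set G, T.Finite → ∃ (u : G) (k : ℕ), 0 < k ∧ ρ z = ρ u ^ k ∧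
      ∀ s ∈ T, ∃ i j : ℕ, ρ u ^ i * ρ s = ρ u ^ j)
    (cen : ∀ b : V, b ≠ 0 → ∃ D : Submodule ℤ V, (∀ s, ∀ x ∈ D, ρ s x ∈ D) ∧ (∀ s, ρ s b - b ∈ D) ∧
      ∀ n : ℤ, n ≠ 0 → n • b ∉ D) (a : V) : ∃ n : ℕ, ((ρ z - 1) ^ n) a = 0 := by
  by_contra ne
  let t := ρ z a - a
  let W := AddSubsemigroup.closure {w | ∃ (s : G) (n : ℕ), w = ρ s (ρ z t - n • t)}
  have m : ∀ s (n : ℕ), ρ s (ρ z t - n • t) ∈ W := fun s n =>
    AddSubsemigroup.subset_closure ⟨s, n, rfl⟩
  have inv : ∀ s, ∀ w ∈ W, ρ s w ∈ W := fun s w hw => by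
    induction hw using AddSubsemigroup.closure_induction with
    | mem w hw =>
      obtain ⟨s', n, rfl⟩ := hw
      simpa using m (s * s') n
    | add x y _ _ a b => exact map_add (ρ s) x y ▸ add_mem a b
  have key : ∀ w ∈ W, ∃ T : Set G, T.Finite ∧ ∀ (u : G) (k : ℕ), 0 < k → ρ z = ρ u ^ k →
      (∀ s ∈ T, ∃ i j : ℕ, ρ u ^ i * ρ s = ρ u ^ j) → ∃ (j : ℕ) (p : ℤ[X]),
        (∀ᶠ x : ℤ in atTop, 0 < p.eval x) ∧ (ρ u ^ j) w = aeval (ρ u) p t := fun w hw => by
    induction hw using AddSubsemigroup.closure_induction with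
    | mem w hw =>
      obtain ⟨s, n, rfl⟩ := hw
      refine ⟨{s}, Set.finite_singleton s, fun u k hk e h => ?_⟩
      obtain ⟨i, j, h⟩ := h s rfl
      refine ⟨i, X ^ j * (X ^ k - C (n : ℤ)), (eventually_gt_atTop (n : ℤ)).mono fun x hx => ?_, ?_⟩
      · have : 1 ≤ x := by omega
        have := le_self_pow₀ this hk.ne'
        simp only [eval_mul, eval_pow, eval_X, eval_sub, eval_C]
        exact mul_pos (by positivity) (by omega)
      · rw [← Module.End.mul_apply, h, e]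
        simp
    | add x y _ _ a b =>
      obtain ⟨T, a1, a⟩ := a
      obtain ⟨T', b1, b⟩ := b
      refine ⟨T ∪ T', a1.union b1, fun u k hk e h => ?_⟩
      obtain ⟨i, p, p1, p2⟩ := a u k hk e fun s hs => h s (.inl hs)
      obtain ⟨j, q, q1, q2⟩ := b u k hk e fun s hs => h s (.inr hs)
      refine ⟨i + j, X ^ j * p + X ^ i * q, ((p1.and q1).and (eventually_gt_atTop 0)).mono
        fun x ⟨⟨h1, h2⟩, h3⟩ => ?_, ?_⟩
      · simp only [eval_add, eval_mul, eval_pow, eval_X]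
        positivity
      · simp only [map_add, map_mul, map_pow, aeval_X, LinearMap.add_apply, Module.End.mul_apply,
          ← p2, ← q2]
        rw [← Module.End.mul_apply, ← Module.End.mul_apply, ← pow_add, ← pow_add, add_comm j]
  have h0 : (0 : V) ∉ W := fun h => by
    obtain ⟨T, a1, a2⟩ := key 0 h
    obtain ⟨u, k, hk, e, h⟩ := rank T a1
    obtain ⟨j, p, p1, p2⟩ := a2 u k hk e h
    obtain ⟨n, hn⟩ := unip_of_poly (ρ u) (fun b hb => (cen b hb).imp fun D hD =>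
      ⟨hD.1 u, hD.2.1 u, hD.2.2⟩) (p := p) (fun e => by simpa [e] using p1.exists)
      (t := t) (by simpa using p2.symm) k
    exact ne ⟨n + 1, by rw [← e] at hn; exact pow_succ (ρ z - 1) n ▸ hn⟩
  obtain ⟨C, c1, c2, c3⟩ := exists_cone (MonoidHom.mrange ρ) (by
    rintro _ ⟨s, rfl⟩ _ ⟨s', rfl⟩; exact comm s s') W (by rintro _ ⟨s, rfl⟩; exact inv s) h0
  have zz : ∀ v, ρ z⁻¹ (ρ z v) = v := fun v => by
    rw [← Module.End.mul_apply, ← map_mul]; simp
  have o : c 1 = 0 := by simpa using hc 1 1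
  have am : ∀ g h x, c (g * h) + ρ (g * h) x = c g + ρ g (c h + ρ h x) := fun g h x => by
    simp [hc, add_assoc]
  have e1 : ∀ v, c (τ (-a) * z) + ρ (τ (-a) * z) v = t + ρ z v := fun v => by
    simp only [hc, cz, t1, t2, map_mul, t, map_neg, map_zero, one_mul]; abel
  have e2 : ∀ v, c (τ (-ρ z a) * z⁻¹) + ρ (τ (-ρ z a) * z⁻¹) v = ρ z t + ρ z⁻¹ v := fun v => by
    simp only [hc, cz', t1, t2, map_mul, t, map_neg, map_zero, one_mul, map_sub]; abel
  have mt : t ∈ W := by simpa [zz] using m z⁻¹ 0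
  obtain ⟨n, -, hn⟩ := hP.act (fun s v => c s + ρ s v) (fun x y => y - x ∈ C)
    (fun x y w a b => by simpa using add_mem b a) (fun x y => by simpa using c1 (y - x))
    (fun x => by simp [o]) am (fun g x y h => by simpa using c2 _ ⟨g, rfl⟩ _ h) 0
    (τ (-a) * z) (τ (-ρ z a) * z⁻¹) (by rw [e1]; simpa using c3 t mt)
    (by rw [e1, e2]; simpa using c3 _ (m 1 1))
  have b : ∀ n : ℕ, 2 • ρ z t - (c ((τ (-ρ z a) * z⁻¹) ^ n) + ρ ((τ (-ρ z a) * z⁻¹) ^ n) t) ∈ W :=
    fun n => by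
      induction n with
      | zero =>
        convert add_mem (m 1 0) (m 1 1) using 1
        simp [o, two_smul, add_sub_assoc]
      | succ n ih =>
        rw [pow_succ', am, e2]
        convert add_mem (m 1 2) (inv z⁻¹ _ ih) using 1
        simp only [map_one, Module.End.one_apply, map_sub, map_nsmul, zz]; abel
  refine c3 _ (add_mem (add_mem mt (m z 2)) (b n)) ?_
  rw [e1, e1, e2] at hn
  convert hn using 1
  simp only [map_zero, add_zero, map_sub, map_nsmul]; abel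

lemma rank_one {C : Type u} [CommGroup C] (tf : ∀ (g : C) (n : ℕ), n ≠ 0 → g ^ n = 1 → g = 1)
    (z : C) {T : Set C} (hT : T.Finite) (h : ∀ s ∈ T, ∃ (n : ℕ) (m : ℤ), n ≠ 0 ∧ s ^ n = z ^ m) :
    ∃ (u : C) (k : ℕ), 0 < k ∧ z = u ^ k ∧ ∀ s ∈ T, ∃ j : ℤ, s = u ^ j := by
  obtain ⟨N, hN, h⟩ : ∃ N : ℕ, N ≠ 0 ∧ ∀ s ∈ T, ∃ m : ℤ, s ^ N = z ^ m := by
    induction T, hT using Set.Finite.induction_on with
    | empty => exact ⟨1, one_ne_zero, by simp⟩
    | @insert a T _ _ ih =>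
      obtain ⟨N, hN, h1⟩ := ih fun s hs => h s (.inr hs)
      obtain ⟨n, m, hn, h2⟩ := h a (.inl rfl)
      refine ⟨n * N, mul_ne_zero hn hN, ?_⟩
      rintro s (rfl | hs)
      · exact ⟨m * N, by rw [pow_mul, h2, zpow_mul, zpow_natCast]⟩
      · obtain ⟨m, h3⟩ := h1 s hs
        exact ⟨m * n, by rw [mul_comm, pow_mul, h3, zpow_mul, zpow_natCast]⟩
  let M : AddSubgroup ℤ :=
    { carrier := {m | ∃ h : C, h ^ N = z ^ m}
      zero_mem' := ⟨1, by simp⟩
      add_mem' := fun ⟨a, ha⟩ ⟨b, hb⟩ => ⟨a * b, by rw [mul_pow, ha, hb, zpow_add]⟩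
      neg_mem' := fun ⟨a, ha⟩ => ⟨a⁻¹, by rw [inv_pow, ha, zpow_neg]⟩ }
  obtain ⟨g, hg⟩ := Int.subgroup_cyclic M
  obtain ⟨u, hu⟩ : g ∈ M := hg ▸ AddSubgroup.subset_closure rfl
  have k : ∀ (h : C) (m : ℤ), h ^ N = z ^ m → ∃ j : ℤ, j * g = m ∧ h = u ^ j := fun h m e => by
    obtain ⟨j, rfl⟩ := AddSubgroup.mem_closure_singleton.1 (hg.le (⟨h, e⟩ : m ∈ M))
    refine ⟨j, rfl, mul_inv_eq_one.1 (tf _ N hN ?_)⟩
    rw [mul_pow, e, inv_pow, ← zpow_natCast, ← zpow_mul, mul_comm j, zpow_mul, zpow_natCast, hu,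
      ← zpow_mul, smul_eq_mul, mul_comm j, mul_inv_cancel]
  obtain ⟨j, j1, j2⟩ := k z N (zpow_natCast z N).symm
  have j0 : 0 < j.natAbs := Int.natAbs_pos.2 fun e => hN (by simpa [e] using j1.symm)
  rcases Int.natAbs_eq j with e | e
  · exact ⟨u, _, j0, by rw [← zpow_natCast, ← e, j2], fun s hs => (h s hs).elim fun m hm =>
      (k s m hm).imp fun _ h => h.2⟩
  · exact ⟨u⁻¹, _, j0, by rw [← zpow_natCast, inv_zpow', ← e, j2], fun s hs =>
      (h s hs).elim fun m hm => (k s m hm).elim fun i h => ⟨-i, by simpa using h.2⟩⟩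

end Pool.Agent.H71.Con
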