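import Mathlib
import Pool.Agent.H71.Con3

/-! Soluble orderable groups all of whose right orders are Conradian are locally nilpotent. -/

namespace Pool.Agent.H71.Con

open scoped commutatorElement

universe u
variable {G H : Type u} [Group G] [Group H]

lemma Bi.tf (h : Bi G) (g : G) (n : ℕ) (hn : n ≠ 0) (e : g ^ n = 1) : g = 1 :=
  h.isolated trivial hn e

lemma unip_sub (hB : Bi G) (hP : P G) {A : Subgroup G} [A.Normal]
    (ab : ∀ a ∈ A, ∀ b ∈ A, a * b = b * a) {C : Type u} [CommGroup C] (hC : Bi C) (f : G →* C)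
    (hf : Function.Surjective f) (hk : f.ker = A) (z : G)
    (h : ∀ s : C, ∃ (n : ℕ) (m : ℤ), n ≠ 0 ∧ s ^ n = f z ^ m) {a : G} (ha : a ∈ A) :
    ∃ n, (fun x => ⁅z, x⁆)^[n] a = 1 := by
  let _ : CommGroup A := { mul_comm := fun a b => Subtype.ext (ab _ a.2 _ b.2) }
  let ρ : G →* Module.End ℤ (Additive A) :=
    { toFun := fun g => (MonoidHom.toAdditive (MulAut.conjNormal g).toMonoidHom).toIntLinearMap
      map_one' := by ext; simp
      map_mul' := fun _ _ => by ext; simp }
  have r : ∀ g (v : Additive A), ((ρ g v).toMul : G) = g * v.toMul * g⁻¹ := fun _ _ => rfl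
  have ext : ∀ v w : Additive A, (v.toMul : G) = w.toMul → v = w := fun v w e =>
    Additive.toMul.injective (Subtype.ext e)
  have cm : ∀ s t : G, ⁅s, t⁆ ∈ A := fun s t => hk ▸ MonoidHom.mem_ker.2 (by
    rw [map_commutatorElement, commutatorElement_eq_one_iff_mul_comm, mul_comm])
  have r1 : ∀ a ∈ A, ρ a = 1 := fun a ha => LinearMap.ext fun v => ext _ _ (by
    rw [r, ab a ha _ v.toMul.2]; simp)
  have r2 : ∀ s t, f s = f t → ρ s = ρ t := fun s t e => by
    rw [← mul_inv_cancel_left t s, map_mul, r1 (t⁻¹ * s) (hk ▸ MonoidHom.mem_ker.2 (by simp [e])),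
      mul_one]
  obtain ⟨n, hn⟩ := unip_abs hP ρ (fun s => Additive.ofMul ⟨⁅s, z⁆, cm s z⟩)
    (fun s s' => by
      rw [add_comm]
      refine ext _ _ ?_
      change _ = s * ⁅s', z⁆ * s⁻¹ * ⁅s, z⁆
      simp only [toMul_ofMul, commutatorElement_def]; group) z (ext _ _ (by simp))
    (ext _ _ (by simp [commutatorElement_def])) (fun v => v.toMul) (fun v => r1 _ v.toMul.2)
    (fun v => ext _ _ (by
      rw [sub_eq_add_neg]
      change _ = v.toMul * (z * v.toMul * z⁻¹)⁻¹
      simp only [toMul_ofMul, commutatorElement_def]; group))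
    (fun s t => by rw [Commute, SemiconjBy, ← map_mul, ← map_mul]; exact r2 _ _ (by simp [mul_comm]))
    (fun T hT => by
      obtain ⟨u, k, h1, h2, h3⟩ := rank_one hC.tf (f z) (hT.image f) fun s _ => h s
      obtain ⟨u, rfl⟩ := hf u
      refine ⟨u, k, h1, by rw [← map_pow]; exact r2 _ _ (by simp [h2]), fun s hs => ?_⟩
      obtain ⟨j, hj⟩ := h3 _ ⟨s, hs, rfl⟩
      refine ⟨(-j).toNat, j.toNat, ?_⟩
      rw [← map_pow, ← map_pow, ← map_mul]
      refine r2 _ _ ?_
      rw [map_mul, map_pow, map_pow, hj, ← zpow_natCast, ← zpow_natCast, ← zpow_add]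
      congr 1; omega)
    (fun b hb => by
      obtain ⟨D, d1, d2, d3⟩ := res_central hB hP (b := b.toMul) fun e => hb (ext _ _ e)
      refine ⟨AddSubgroup.toIntSubmodule (Subgroup.toAddSubgroup (D.subgroupOf A)),
        fun s x hx => d1.normal.conj_mem _ hx s, fun s => ?_, fun n hn e => d2 ?_⟩
      · rw [sub_eq_add_neg]; exact d3 s
      · have e : (b.toMul : G) ^ n ∈ D := e
        exact d1.isolated trivial (Int.natAbs_ne_zero.2 hn) (by
          rcases Int.natAbs_eq n with c | c <;> rw [c] at e <;>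
            simpa only [zpow_natCast, zpow_neg, inv_mem_iff] using e))
    (Additive.ofMul ⟨a, ha⟩)
  have : ∀ n : ℕ, (fun x => ⁅z, x⁆)^[n] a = (((ρ z - 1) ^ n) (Additive.ofMul ⟨a, ha⟩)).toMul :=
    fun n => by
      induction n with
      | zero => rfl
      | succ n ih =>
        rw [Function.iterate_succ_apply', ih, pow_succ', Module.End.mul_apply,
          LinearMap.sub_apply]
        exact (div_eq_mul_inv _ _).symm
  exact ⟨n, by rw [this, hn]; rfl⟩

theorem unip (hB : Bi G) (hP : P G) {A : Subgroup G} (hA : BC A)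
    (ab : ∀ a ∈ A, ∀ b ∈ A, a * b = b * a) (z : G) {a : G} (ha : a ∈ A) :
    ∃ n, (fun x => ⁅z, x⁆)^[n] a = 1 := by
  have := hA.normal
  let π := QuotientGroup.mk' A
  let C := Subgroup.centralizer (Subgroup.centralizer {π z} : Set (G ⧸ A))
  have zC : π z ∈ C := fun h hh => (hh _ rfl).symm
  let _ : CommGroup C := { mul_comm := fun a b => Subtype.ext (b.2 a (by
    rintro _ rfl; exact a.2 _ (by rintro _ rfl; rfl))) }
  let E : Subgroup C :=
    { carrier := {s | ∃ (n : ℕ) (m : ℤ), n ≠ 0 ∧ s ^ n = (⟨π z, zC⟩ : C) ^ m}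
      one_mem' := ⟨1, 0, one_ne_zero, by simp⟩
      inv_mem' := fun ⟨n, m, a, b⟩ => ⟨n, -m, a, by rw [inv_pow, b, zpow_neg]⟩
      mul_mem' := fun ⟨n, m, a, b⟩ ⟨n', m', a', b'⟩ => ⟨n * n', m * n' + m' * n, mul_ne_zero a a', by
        rw [mul_pow, pow_mul, mul_comm n, pow_mul, b, b', zpow_add, zpow_mul, zpow_mul,
          zpow_natCast, zpow_natCast]⟩ }
  have hE : BC E := bc_of_nil (nilMod_iff.2 inferInstance) fun g k hk ⟨n, m, a, b⟩ =>
    ⟨k * n, m, mul_ne_zero hk a, by rw [pow_mul, b]⟩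
  let S := (E.map C.subtype).comap π
  have hS : RC S := ((hA.quot.centralizer _).trans hE.rc).comap π
  have s1 : ∀ s : S, π s ∈ C := fun s => s.2.elim fun x hx => hx.2 ▸ x.2
  have s2 : ∀ s : S, (⟨π s, s1 s⟩ : C) ∈ E := fun s => s.2.elim fun x hx =>
    (Subtype.ext hx.2 : x = ⟨π s, s1 s⟩) ▸ hx.1
  let f : S →* E := ((π.comp S.subtype).codRestrict C s1).codRestrict E s2
  have zS : z ∈ S := ⟨⟨π z, zC⟩, ⟨1, 1, one_ne_zero, by simp⟩, rfl⟩
  have aS : a ∈ S := ⟨1, one_mem _, ((QuotientGroup.eq_one_iff _).2 ha).symm⟩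
  obtain ⟨n, hn⟩ := unip_sub (hB.sub S) (hP.sub hS) (A := A.subgroupOf S)
    (fun a ha b hb => Subtype.ext (ab _ ha _ hb)) ((hA.quot.sub C).sub E) f (fun e => by
      obtain ⟨g, hg⟩ := QuotientGroup.mk_surjective e.1.1
      exact ⟨⟨g, e.1, e.2, hg.symm⟩, Subtype.ext (Subtype.ext hg)⟩)
    (Subgroup.ext fun s => by
      rw [MonoidHom.mem_ker, Subtype.ext_iff, Subtype.ext_iff]
      exact QuotientGroup.eq_one_iff _) ⟨z, zS⟩
    (fun s => s.2.imp fun n => .imp fun m h => ⟨h.1, Subtype.ext h.2⟩) (a := ⟨a, aS⟩) ha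
  refine ⟨n, ?_⟩
  have := Function.Semiconj.iterate_right (f := S.subtype) (ga := fun x => ⁅(⟨z, zS⟩ : S), x⁆)
    (gb := fun x => ⁅z, x⁆) (fun x => map_commutatorElement _ _ _) n ⟨a, aS⟩
  exact this.symm.trans (by rw [hn, map_one])

structure Hyp (S : Set G) (A : Subgroup G) : Prop where
  bi : Bi G
  p : P G
  fin : S.Finite
  gen : Gen S
  bc : BC A
  ab : ∀ a ∈ A, ∀ b ∈ A, a * b = b * a
  nil : NilMod A

/-- the statement proved by induction on the length of the list `l` -/
def St (c k : ℕ) : Prop := ∀ (G : Type u) [Group G] (S : Set G) (A : Subgroup G) (l : List G),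
  Hyp S A → l.length = k → (∀ t ∈ l, ∀ g, ⁅t, g⁆ ∈ Subgroup.centralizer (A : Set G)) →
  (∀ x ∈ W S c, x ∈ Subgroup.centralizer (A : Set G) ∨ x ∈ l) → Group.IsNilpotent G

lemma St.succ {c k : ℕ} (ih : St.{u} c k) : St.{u} c (k + 1) := by
  suffices ∀ n, ∀ (G : Type u) [Group G] (S : Set G) (A : Subgroup G) (t : G) (l : List G),
      Hyp S A → l.length = k → (∀ s ∈ t :: l, ∀ g, ⁅s, g⁆ ∈ Subgroup.centralizer (A : Set G)) →
      (∀ x ∈ W S c, x ∈ Subgroup.centralizer (A : Set G) ∨ x ∈ t :: l) →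
      (∃ m, ∀ x ∈ W S m, x ∈ A ∧ (fun x => ⁅t, x⁆)^[n] x = 1) → Group.IsNilpotent G by
    intro G _ S A l h e h1 h2
    obtain ⟨t, l, rfl⟩ := List.exists_cons_of_length_eq_add_one e
    obtain ⟨m, hm⟩ := h.nil
    choose! n hn using fun x hx => unip h.bi h.p h.bc h.ab t (a := x) hx
    obtain ⟨N, hN⟩ := ((W_fin h.fin m).image n).bddAbove
    refine this N G S A t l h (by simpa using e) h1 h2 ⟨m, fun x hx => ⟨hm (W_lcs S m hx), ?_⟩⟩
    obtain ⟨j, rfl⟩ := Nat.exists_eq_add_of_le' (hN ⟨x, hx, rfl⟩)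
    rw [Function.iterate_add_apply, hn x (hm (W_lcs S m hx))]
    exact Function.iterate_fixed (by simp) j
  intro n
  induction n with
  | zero =>
    intro G _ S A t l h _ _ _ ⟨m, hm⟩
    exact nil_of_W m G S h.bi h.p h.fin h.gen fun x hx => (hm x hx).2
  | succ n ihn =>
    intro G _ S A t l h e h1 h2 ⟨m, hm⟩
    have nA := h.bc.normal
    have cA : ∀ a ∈ A, ⁅t, a⁆ ∈ A := fun a ha => mul_mem (nA.conj_mem a ha t) (inv_mem ha)
    obtain ⟨A', a1, a2⟩ := cone_of_map (Γ := ⊤) (M := A) inv_normal h.bi (fun x => ⁅t, x⁆)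
      (fun x hx y hy => by
        rw [show ⁅t, x * y⁆ = ⁅t, x⁆ * (x * ⁅t, y⁆) * x⁻¹ by
          simp only [commutatorElement_def]; group, h.ab x hx _ (cA y hy)]; group)
      fun g _ x hx => ⟨g, by
        have := h1 t (by simp) g _ (nA.conj_mem x hx (g * t))
        calc _ = ⁅t, g⁆ * (g * t * x * (g * t)⁻¹) * ⁅t, g⁆⁻¹ * (g * x⁻¹ * g⁻¹) := by
              simp only [commutatorElement_def]; group
          _ = _ := by rw [← this, mul_inv_cancel_right, commutatorElement_def]; group⟩
    have b := h.bc.trans a1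
    have := BC.normal b
    let π := QuotientGroup.mk' A'
    have sj : Function.Surjective π := QuotientGroup.mk_surjective
    have mc : ∀ x ∈ Subgroup.centralizer (A : Set G),
        π x ∈ Subgroup.centralizer (A.map π : Set (G ⧸ A')) := by
      rintro x hx _ ⟨a, ha, rfl⟩
      rw [← map_mul, hx a ha, map_mul]
    have le : Subgroup.centralizer (A : Set G) ≤ Subgroup.centralizer (A' : Set G) :=
      Subgroup.centralizer_le a1.le
    refine ih G S A' l ⟨h.bi, h.p, h.fin, h.gen, b, fun x hx y hy => h.ab x (a1.le hx) y (a1.le hy),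
      nilMod_iff.2 (ihn _ (π '' S) (A.map π) (π t) (l.map π) ⟨BC.quot b, h.p.quot _, h.fin.image _,
        h.gen.map π sj, h.bc.map π sj (by simpa [π] using a1.le), fun x hx y hy => ?_, ?_⟩
        (by simpa using e) ?_ ?_ ⟨m, ?_⟩)⟩ e (fun s hs g => le (h1 s (.tail _ hs) g)) fun x hx => ?_
    · obtain ⟨y, hy, rfl⟩ := hy
      exact mc y (fun a ha => h.ab a ha y hy) x hx
    · refine h.nil.imp fun n hn => ?_
      rw [← Subgroup.map_top_of_surjective π sj, ← Subgroup.map_lowerCentralSeries]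
      exact Subgroup.map_mono hn
    · intro s hs g
      obtain ⟨s', hs', rfl⟩ := List.mem_map.1 (show s ∈ (t :: l).map π from hs)
      obtain ⟨g, rfl⟩ := sj g
      exact map_commutatorElement π s' g ▸ mc _ (h1 s' hs' g)
    · rw [W_map]
      rintro _ ⟨x, hx, rfl⟩
      exact (h2 x hx).imp (mc x) fun a => List.mem_map_of_mem (f := π) a
    · rw [W_map]
      rintro _ ⟨x, hx, rfl⟩
      refine ⟨⟨x, (hm x hx).1, rfl⟩, ?_⟩
      rw [← Function.Semiconj.iterate_right (f := π) (ga := fun x => ⁅t, x⁆)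
        (gb := fun x => ⁅π t, x⁆) (fun x => map_commutatorElement _ _ _) n x]
      refine (QuotientGroup.eq_one_iff _).2 ((a2 _).2 ⟨?_, ?_⟩)
      · exact Function.Iterate.rec (· ∈ A) (hm x hx).1 cA n
      · exact (Function.iterate_succ_apply' _ n x).symm.trans (hm x hx).2
    · rcases h2 x hx with a | a
      · exact .inl (le a)
      rcases List.mem_cons.1 a with rfl | a
      · exact .inl fun y hy => (commutatorElement_eq_one_iff_mul_comm.1 ((a2 y).1 hy).2).symm
      · exact .inr a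

theorem St.zero (c : ℕ) : St.{u} c 0 := by
  induction c with
  | zero =>
    intro G _ S A l h e _ h2
    have := h.bc.normal
    have := nilMod_iff.1 h.nil
    have t := h.gen _ (h.bi.centralizer A) fun x hx => (h2 x hx).resolve_right (by
      simp [List.length_eq_zero_iff.1 e])
    refine Subgroup.isNilpotent_of_ker_le_center (QuotientGroup.mk' A) fun a ha => ?_
    exact Subgroup.mem_center_iff.2 fun g => (t.ge trivial a (by simpa using ha)).symm
  | succ c ih =>
    intro G _ S A l h e _ h2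
    have a : ∀ k, St.{u} c k := fun k => by
      induction k with
      | zero => exact ih
      | succ k ih => exact ih.succ
    have := h.bc.normal
    refine a _ G S A (W_fin h.fin c).toFinset.toList h rfl (fun t ht => ?_)
      fun x hx => .inr (by simpa using hx)
    refine h.gen.comm (bc_of_nil (h.nil.imp fun n hn => hn.trans fun a ha b hb => h.ab b hb a ha)
      fun g n hn => (h.bi.centralizer A).isolated trivial hn) fun s hs =>
        (h2 _ ⟨t, by simpa using ht, s, hs, rfl⟩).resolve_right (by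
          simp [List.length_eq_zero_iff.1 e])

theorem Hyp.nilpotent {S : Set G} {A : Subgroup G} (h : Hyp S A) : Group.IsNilpotent G := by
  obtain ⟨n, hn⟩ := h.nil
  exact St.zero n G S A [] h rfl (by simp) fun x hx => .inl fun b hb =>
    h.ab b hb x (hn (W_lcs S n hx))

theorem nil_of_solv (d : ℕ) : ∀ (G : Type u) [Group G] (S : Set G), Bi G → P G → S.Finite → Gen S →
    derivedSeries G d = ⊥ → Group.IsNilpotent G := by
  induction d with
  | zero => exact fun G _ S _ _ _ _ e => Subgroup.nilpotent_iff_lowerCentralSeries.2 ⟨0, e⟩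
  | succ d ih =>
    suffices ∀ (G : Type u) [Group G] (S : Set G), Bi G → P G → S.Finite → Gen S →
        derivedSeries G (d + 1) = ⊥ → (∀ x : G, x ≠ 1 → ∃ N, BC N ∧ NilMod N ∧ x ∉ N) →
        Group.IsNilpotent G by
      intro G _ S hB hP hS hg e
      obtain ⟨C, c1, c2, c3⟩ := exists_res hB hP hS hg
      have nC := c1.normal
      have sj : Function.Surjective (QuotientGroup.mk' C) := QuotientGroup.mk_surjective
      refine c3 (nilMod_iff.2 (this _ (QuotientGroup.mk' C '' S) c1.quot (hP.quot _) (hS.image _)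
        (hg.map _ sj) (by rw [← map_derivedSeries_eq sj, e, Subgroup.map_bot]) fun x hx => ?_))
      obtain ⟨x, rfl⟩ := sj x
      obtain ⟨N, n1, n2, n3, n4⟩ := c2 x fun e => hx ((QuotientGroup.eq_one_iff _).2 e)
      refine ⟨N.map (QuotientGroup.mk' C), n2.map _ sj (by simpa using n1),
        n3.imp fun n hn => ?_, fun e => n4 ?_⟩
      · rw [← Subgroup.map_top_of_surjective _ sj, ← Subgroup.map_lowerCentralSeries]
        exact Subgroup.map_mono hn
      · exact (Subgroup.comap_map_eq_self (by simpa using n1)).le e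
    intro G _ S hB hP hS hg e res
    have : ∀ N : {N : Subgroup G // BC N ∧ NilMod N}, ∃ A : Subgroup G, BC A ∧
        derivedSeries G d ≤ A ∧ ∀ a ∈ A, ∀ b ∈ A, ⁅a, b⁆ ∈ N.1 := fun ⟨N, n1, n2⟩ => by
      have := n1.normal
      let π := QuotientGroup.mk' N
      have nB : ((derivedSeries G d).map π).Normal :=
        (derivedSeries_normal G d).map π QuotientGroup.mk_surjective
      have ab : (derivedSeries G d).map π ≤ Subgroup.centralizer ((derivedSeries G d).map π) := by
        rw [← Subgroup.commutator_eq_bot_iff_le_centralizer, ← Subgroup.map_commutator,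
          ← derivedSeries_succ, e, Subgroup.map_bot]
      refine ⟨(Subgroup.centralizer (Subgroup.centralizer
        ((derivedSeries G d).map π : Set (G ⧸ N)) : Set (G ⧸ N))).comap π,
        bc_of_nil (n2.imp fun n hn x hx => ?_) fun g n hn c => ?_, fun x hx y hy =>
          (hy _ ⟨x, hx, rfl⟩).symm, fun a ha b hb => ?_⟩
      · rw [Subgroup.mem_comap, show π x = 1 from (QuotientGroup.eq_one_iff _).2 (hn hx)]
        exact one_mem _
      · exact (n1.quot.centralizer _).isolated trivial hn (map_pow π g n ▸ c)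
      · refine (QuotientGroup.eq_one_iff _).1 ((map_commutatorElement π a b).trans ?_)
        exact commutatorElement_eq_one_iff_mul_comm.2 (hb _ (Subgroup.centralizer_le ab ha))
    choose A a1 a2 a3 using this
    have b : BC (⨅ N, A N) := cone_iInf inv_top A a1 fun x => by simp [Subgroup.mem_iInf]
    have := b.normal
    have sj : Function.Surjective (QuotientGroup.mk' (⨅ N, A N)) := QuotientGroup.mk_surjective
    refine Hyp.nilpotent ⟨hB, hP, hS, hg, b, fun x hx y hy => ?_, nilMod_iff.2 (ih _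
      (QuotientGroup.mk' _ '' S) b.quot (hP.quot _) (hS.image _) (hg.map _ sj) ?_)⟩
    · by_contra c
      obtain ⟨N, n1, n2, n3⟩ := res ⁅x, y⁆ (mt commutatorElement_eq_one_iff_mul_comm.1 c)
      exact n3 (a3 ⟨N, n1, n2⟩ x (Subgroup.mem_iInf.1 hx _) y (Subgroup.mem_iInf.1 hy _))
    · rw [← map_derivedSeries_eq sj, Subgroup.map_eq_bot_iff, QuotientGroup.ker_mk']
      exact le_iInf a2

/-- every finite subset lies in a nilpotent subgroup -/
theorem loc_nil (hB : Bi G) (hP : P G) [hs : Group.IsSolvable G] {S : Set G} (hS : S.Finite) :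
    ∃ K : Subgroup G, S ⊆ K ∧ Group.IsNilpotent K := by
  let K := ⨅ T : {T : Subgroup G // RC T ∧ S ⊆ T}, T.1
  have hK : RC K := cone_iInf inv_top (fun T : {T : Subgroup G // RC T ∧ S ⊆ T} => T.1)
    (fun T => T.2.1) fun x => by simp [K, Subgroup.mem_iInf]
  have sK : S ⊆ K := fun x hx => Subgroup.mem_iInf.2 fun T => T.2.2 hx
  obtain ⟨d, hd⟩ := (inferInstance : Group.IsSolvable K)
  refine ⟨K, sK, nil_of_solv d K (K.subtype ⁻¹' S) (hB.sub K) (hP.sub hK)
    (hS.preimage Subtype.val_injective.injOn) (fun T hT le => eq_top_iff.2 fun x _ => ?_) hd⟩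
  obtain ⟨y, hy, e⟩ := Subgroup.mem_iInf.1 x.2
    ⟨_, hK.trans hT, fun s hs => ⟨⟨s, sK hs⟩, le hs, rfl⟩⟩
  exact (Subtype.ext e : y = x) ▸ hy

end Pool.Agent.H71.Con
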