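import Mathlib
import Pool.Agent.H71.Con4

/-! Translation between right orders and cones; right orders on locally nilpotent groups. -/

namespace Pool.Agent.H71.Con

universe u
variable {G : Type u} [Group G]

lemma bi_of_order {r : G → G → Prop} (hr : IsStrictTotalOrder G r)
    (h : ∀ f g h, r f g → r (h * f) (h * g) ∧ r (f * h) (g * h)) : Bi G := by
  refine ⟨{ carrier := {g | g = 1 ∨ r 1 g}, one_mem' := .inl rfl, mul_mem' := ?_ },
    fun _ _ => trivial, fun g _ => ?_, fun a _ g hg => hg.imp (fun e => by simp [e]) fun e => by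
      simpa using (h _ _ a⁻¹ (h _ _ a e).1).2, fun g => ⟨fun e => ?_, ?_⟩⟩
  · rintro x y (rfl | hx) hy
    · simpa using hy
    rcases hy with rfl | hy
    · exact .inr (by simpa using hx)
    · exact .inr (trans_of r hy (by simpa using (h _ _ y hx).2))
  · rcases trichotomous_of r 1 g with a | a | a
    exacts [.inl (.inr a), .inl (.inl a.symm), .inr (.inr (by simpa using (h _ _ g⁻¹ a).2))]
  · rw [Subgroup.mem_bot.1 e]; exact ⟨.inl rfl, .inl inv_one⟩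
  · rintro ⟨a | a, b | b⟩
    exacts [a, a, inv_eq_one.1 b,
      (irrefl_of r 1 (trans_of r a (by simpa using (h _ _ g b).2))).elim]

lemma P_of (hB : Bi G) (h : ∀ r : G → G → Prop, IsStrictTotalOrder G r →
    (∀ f g h, r f g → r (f * h) (g * h)) → ∀ f g, r 1 f → r f g →
      ∃ m : ℕ, 0 < m ∧ r g (f * g ^ m * f⁻¹)) : P G := fun Q t φ γ h1 h2 => by
  obtain ⟨B, hB⟩ := hB
  have k : ∀ x ∈ B, x⁻¹ ∈ B → x = 1 := fun x a b => (hB.ker x).2 ⟨a, b⟩
  let p : G → Prop := fun x => x ∈ Q ∧ (x⁻¹ ∈ Q → x ∈ B ∧ x ≠ 1)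
  have mu : ∀ x y, p x → p y → p (x * y) := fun x y a b => ⟨mul_mem a.1 b.1, fun c => by
    have a' := a.2 (by simpa using mul_mem b.1 c)
    have b' := b.2 (by simpa using mul_mem c a.1)
    exact ⟨mul_mem a'.1 b'.1, hB.mul a'.1 b'.1 (.inl a'.2)⟩⟩
  have tri : ∀ x, p x ∨ x = 1 ∨ p x⁻¹ := fun x => by
    by_cases e : x = 1
    · exact .inr (.inl e)
    by_cases a : x ∈ Q <;> by_cases b : x⁻¹ ∈ Q
    · exact (hB.tot x trivial).imp (fun c => ⟨a, fun _ => ⟨c, e⟩⟩)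
        fun c => .inr ⟨b, fun _ => ⟨c, inv_ne_one.2 e⟩⟩
    · exact .inl ⟨a, fun c => (b c).elim⟩
    · exact .inr (.inr ⟨b, fun c => (a (by simpa using c)).elim⟩)
    · exact ((t x).elim a b).elim
  have : Std.Irrefl fun a b : G => p (a * b⁻¹) := ⟨fun a c => (c.2 (by simp)).2 (by simp)⟩
  have : IsTrans G fun a b : G => p (a * b⁻¹) := ⟨fun a b c d e => by
    simpa [mul_assoc] using mu _ _ d e⟩
  have : Std.Trichotomous fun a b : G => p (a * b⁻¹) := ⟨fun a b c d =>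
    mul_inv_eq_one.1 (((tri _).resolve_left c).resolve_right (by simpa using d))⟩
  obtain ⟨m, m1, m2⟩ := h (fun a b => p (a * b⁻¹)) {} (fun f g h => by simp [mul_assoc]) φ⁻¹ γ⁻¹
    (by simpa using (⟨(t φ).resolve_right h1, fun c => (h1 c).elim⟩ : p φ))
    ⟨by simpa using (t _).resolve_left h2, fun c => (h2 (by simpa using c)).elim⟩
  exact ⟨m, m1, by simpa [mul_assoc] using m2.1⟩

/-- Malcev's semigroup words -/
def mal (a b : G) : ℕ → G × G
  | 0 => (a, b)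
  | n + 1 => ((mal a b n).1 * (mal a b n).2, (mal a b n).2 * (mal a b n).1)

lemma mal_map {H : Type u} [Group H] (f : G →* H) (a b : G) (n : ℕ) :
    mal (f a) (f b) n = (f (mal a b n).1, f (mal a b n).2) := by
  induction n with
  | zero => rfl
  | succ n ih => simp [mal, ih]

lemma mal_eq (G : Type u) [Group G] [Group.IsNilpotent G] :
    ∃ n, ∀ a b : G, (mal a b n).1 = (mal a b n).2 := by
  refine Group.nilpotent_center_quotient_ind
    (P := fun G _ _ => ∃ n, ∀ a b : G, (mal a b n).1 = (mal a b n).2) G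
    (fun G _ _ => ⟨0, fun _ _ => Subsingleton.elim _ _⟩) fun G _ _ ⟨n, h⟩ => ⟨n + 1, fun a b => ?_⟩
  have := h (QuotientGroup.mk' _ a) (QuotientGroup.mk' _ b)
  rw [mal_map] at this
  have := Subgroup.mem_center_iff.1 (QuotientGroup.eq.1 this) (mal a b n).1
  rw [mul_inv_cancel_left, mul_assoc, eq_inv_mul_iff_mul_eq] at this
  exact this

theorem conrad_of_nil {r : G → G → Prop} (hr : IsStrictTotalOrder G r)
    (h : ∀ f g h, r f g → r (f * h) (g * h)) {f g : G} (K : Subgroup G) [Group.IsNilpotent K]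
    (hf : f ∈ K) (hg : g ∈ K) (h1 : r 1 f) (h2 : r f g) :
    ∃ m : ℕ, 0 < m ∧ r g (f * g ^ m * f⁻¹) := by
  by_contra c
  have g1 := trans_of r h1 h2
  let W : Set G := {x | ¬ r x 1 ∧ ∃ m : ℕ, r x (g ^ m)}
  have lt : ∀ {x y z}, r x y → ¬ r z y → r x z := fun {x y z} a b =>
    (trichotomous_of r y z).elim (trans_of r a) fun e => e.elim (· ▸ a) fun e => (b e).elim
  have h' : ∀ {x y} z, ¬ r (x * z⁻¹) (y * z⁻¹) → ¬ r x y := fun z a b => a (h _ _ _ b)
  have h'' : ∀ {x y} z, ¬ r x y → ¬ r (x * z) (y * z) := fun z a b => a (by simpa using h _ _ z⁻¹ b)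
  have a : ∀ x ∈ W, x * g ∈ W ∧ ¬ r (x * g) g := fun x ⟨x1, m, x2⟩ =>
    have : ¬ r (x * g) g := by simpa using h'' g x1
    ⟨⟨fun e => this (trans_of r e g1), m + 1, pow_succ g m ▸ h _ _ _ x2⟩, this⟩
  have b : ∀ x ∈ W, x * (g * f⁻¹) ∈ W ∧ r (x * (g * f⁻¹)) g := fun x hx => by
    obtain ⟨⟨-, m, x2⟩, x1⟩ := a x hx
    have : r (x * (g * f⁻¹)) g := by
      refine lt (y := f * g ^ (m + 1) * f⁻¹) ?_ fun e => c ⟨m + 1, by omega, e⟩
      rw [← mul_assoc]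
      refine h _ _ _ (trans_of r x2 (trans_of r ?_ (by simpa using h _ _ (g ^ (m + 1)) h1)))
      simpa [pow_succ'] using h _ _ (g ^ m) g1
    refine ⟨⟨fun e => x1 (trans_of r ?_ h2), 1, by simpa using this⟩, this⟩
    simpa [mul_assoc] using h _ _ f e
  have key : ∀ n, (∀ x ∈ W, x * (mal g (g * f⁻¹) n).1 ∈ W ∧ x * (mal g (g * f⁻¹) n).2 ∈ W ∧
      (r (x * (mal g (g * f⁻¹) n).1) g ↔ ¬ r (x * (mal g (g * f⁻¹) n).2) g)) ∧ ∀ x ∈ W, ∀ y ∈ W,
      (r (x * (mal g (g * f⁻¹) n).1) g ↔ r (y * (mal g (g * f⁻¹) n).1) g) := fun n => by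
    induction n with
    | zero => exact ⟨fun x hx => ⟨(a x hx).1, (b x hx).1, iff_of_false (a x hx).2 fun e => e (b x hx).2⟩,
        fun x hx y hy => iff_of_false (a x hx).2 (a y hy).2⟩
    | succ n ih =>
      simp only [mal, ← mul_assoc]
      refine ⟨fun x hx => ⟨(ih.1 _ (ih.1 x hx).1).2.1, (ih.1 _ (ih.1 x hx).2.1).1, ?_⟩,
        fun x hx y hy => ?_⟩
      · rw [← ih.2 _ (ih.1 x hx).1 _ (ih.1 x hx).2.1, (ih.1 _ (ih.1 x hx).1).2.2, not_not]
      · rw [← not_iff_not, ← (ih.1 _ (ih.1 x hx).1).2.2, ← (ih.1 _ (ih.1 y hy).1).2.2]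
        exact ih.2 _ (ih.1 x hx).1 _ (ih.1 y hy).1
  obtain ⟨n, hn⟩ := mal_eq K
  have e := congrArg K.subtype (hn ⟨g, hg⟩ (⟨g, hg⟩ * ⟨f, hf⟩⁻¹))
  have e' := mal_map K.subtype ⟨g, hg⟩ (⟨g, hg⟩ * ⟨f, hf⟩⁻¹) n
  have := ((key n).1 1 ⟨irrefl_of r 1, 1, by simpa using g1⟩).2.2
  rw [show mal g (g * f⁻¹) n = _ from e', e] at this
  exact iff_not_self this

theorem main [Group.IsSolvable G] {r : G → G → Prop} (hr : IsStrictTotalOrder G r)
    (h : ∀ f g h, r f g → r (h * f) (h * g) ∧ r (f * h) (g * h))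
    (hc : ∀ r : G → G → Prop, IsStrictTotalOrder G r →
      (∀ f g h, r f g → r (f * h) (g * h)) → ∀ f g, r 1 f → r f g →
        ∃ m : ℕ, 0 < m ∧ r g (f * g ^ m * f⁻¹)) {S : Set G} (hS : S.Finite) :
    ∃ K : Subgroup G, S ⊆ K ∧ Group.IsNilpotent K :=
  loc_nil (bi_of_order hr h) (P_of (bi_of_order hr h) hc) hS

end Pool.Agent.H71.Con
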