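import Mathlib
import Pool.Agent.H71.Con4
import Pool.Agent.H71.BiOrd

/-! Orderable groups of derived length three have at least two proper normal relatively convex
subgroups. -/

namespace Pool.Agent.H71.Con

open scoped commutatorElement

variable {G : Type} [Group G]

lemma order_cvx (hB : Bi G) {N : Subgroup G} (hN : BC N) :
    ∃ _ : LinearOrder G, ∃ _ : MulLeftMono G, ∃ _ : MulRightMono G, Cvx N := by
  classical
  obtain ⟨B, h⟩ := hB
  have nN := hN.normal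
  obtain ⟨C, k⟩ := hN
  have nc : ∀ x ∈ N, x ∈ C := fun x hx => ((k.ker x).1 hx).1
  let p : G → Prop := fun x => x ∈ C ∧ (x ∈ N → x ∈ B)
  have p1 : p 1 := ⟨one_mem _, fun _ => one_mem _⟩
  have pc : ∀ a x, p x → p (a * x * a⁻¹) := fun a x e => ⟨k.conj a trivial x e.1, fun c =>
    h.conj a trivial x (e.2 (by simpa [mul_assoc] using nN.conj_mem _ c a⁻¹))⟩
  let o : LinearOrder G :=
    { le := fun x y => p (x⁻¹ * y)
      le_refl := fun x => by simpa using p1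
      le_trans := fun x y z a b => by
        have : p (x⁻¹ * y * (y⁻¹ * z)) := ⟨mul_mem a.1 b.1, fun c => mul_mem
          (a.2 (by_contra fun e => k.mul a.1 b.1 (.inl e) c))
          (b.2 (by_contra fun e => k.mul a.1 b.1 (.inr e) c))⟩
        simpa [mul_assoc] using this
      le_antisymm := fun x y a b => by
        have n : x⁻¹ * y ∈ N := (k.ker _).2 ⟨a.1, by simpa using b.1⟩
        exact inv_mul_eq_one.1 (Subgroup.mem_bot.1 ((h.ker _).2
          ⟨a.2 n, by simpa using b.2 (by simpa using inv_mem n)⟩))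
      le_total := fun x y => by
        by_cases c : x⁻¹ * y ∈ N
        · have c' : y⁻¹ * x ∈ N := by simpa using inv_mem c
          exact (h.tot (x⁻¹ * y) trivial).imp (fun a => ⟨nc _ c, fun _ => a⟩)
            fun a => ⟨nc _ c', fun _ => by simpa using a⟩
        · exact (k.tot (x⁻¹ * y) trivial).imp (fun a => ⟨a, fun e => (c e).elim⟩)
            fun a => ⟨by simpa using a, fun e => (c (by simpa using inv_mem e)).elim⟩
      toDecidableLE := inferInstance }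
  refine ⟨o, ⟨fun a x y (e : p (x⁻¹ * y)) => show p ((a * x)⁻¹ * (a * y)) by
    simpa [mul_assoc] using e⟩, ⟨fun a x y (e : p (x⁻¹ * y)) => show p ((x * a)⁻¹ * (y * a)) by
      simpa [mul_assoc] using pc a⁻¹ _ e⟩, fun x y (a : p (1⁻¹ * x)) (b : p (x⁻¹ * y)) c => ?_⟩
  by_contra e
  exact k.mul (x := x) (by simpa using a.1) b.1 (.inl e) (by simpa using c)

theorem cone_ab {A : Subgroup G} [A.Normal] (ab : ∀ a ∈ A, ∀ b ∈ A, a * b = b * a)
    (cm : ∀ s t : G, ⁅s, t⁆ ∈ A) (W : Set G) (w1 : ∀ x ∈ W, ∀ y ∈ W, x * y ∈ W)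
    (w2 : ∀ g, ∀ x ∈ W, g * x * g⁻¹ ∈ W) (w3 : (1 : G) ∉ W) :
    ∃ N, Cone ⊤ A N ∧ ∀ w ∈ W, w ∉ N := by
  let _ : CommGroup A := { mul_comm := fun a b => Subtype.ext (ab _ a.2 _ b.2) }
  let ρ : G →* Module.End ℤ (Additive A) :=
    { toFun := fun g => (MonoidHom.toAdditive (MulAut.conjNormal g).toMonoidHom).toIntLinearMap
      map_one' := by ext; simp
      map_mul' := fun _ _ => by ext; simp }
  have r1 : ∀ a ∈ A, ρ a = 1 := fun a ha => LinearMap.ext fun v =>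
    Additive.toMul.injective (Subtype.ext (by
      change a * v.toMul * a⁻¹ = _
      rw [ab a ha _ v.toMul.2]; simp))
  obtain ⟨C, c1, c2, c3⟩ := exists_cone (MonoidHom.mrange ρ) (by
    rintro _ ⟨s, rfl⟩ _ ⟨t, rfl⟩
    rw [Commute, SemiconjBy, ← map_mul, ← map_mul, show s * t = ⁅s, t⁆ * (t * s) by
      simp [commutatorElement_def, mul_assoc], map_mul, r1 _ (cm s t), one_mul])
    { carrier := {v | (v.toMul : G) ∈ W}, add_mem' := fun a b => w1 _ a _ b }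
    (by rintro _ ⟨s, rfl⟩ w hw; exact w2 s _ hw) w3
  let B : Submonoid G := (AddSubmonoid.toSubmonoid C).map A.subtype
  have e : ∀ x : A, (x : G) ∈ B ↔ Additive.ofMul x ∈ C := fun x =>
    ⟨fun ⟨y, hy, e⟩ => (Subtype.ext e : y = x) ▸ hy, fun h => ⟨x, h, rfl⟩⟩
  refine ⟨{ carrier := {g | g ∈ B ∧ g⁻¹ ∈ B}
            one_mem' := ⟨one_mem B, by simp⟩
            mul_mem' := fun a b => ⟨mul_mem a.1 b.1, by simpa using mul_mem b.2 a.2⟩
            inv_mem' := fun a => ⟨a.2, by simpa using a.1⟩ }, ⟨B, ?_, fun g hg =>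
    (c1 (Additive.ofMul ⟨g, hg⟩)).imp (e _).2 (e (⟨g, hg⟩ : A)⁻¹).2, ?_, fun _ => Iff.rfl⟩, ?_⟩
  · rintro _ ⟨x, -, rfl⟩; exact x.2
  · rintro h - _ ⟨x, hx, rfl⟩
    exact ⟨_, c2 _ ⟨h, rfl⟩ _ hx, rfl⟩
  · rintro w hw ⟨⟨x, -, rfl⟩, b⟩
    exact c3 (Additive.ofMul x) hw ((e x⁻¹).1 b)

def CK (K : Subgroup G) : Subgroup G := K ⊓ Subgroup.centralizer (⁅K, K⁆ : Subgroup G)
def AK (K : Subgroup G) : Subgroup G := CK K ⊓ Subgroup.centralizer (CK K)

instance (K : Subgroup G) [K.Normal] : (CK K).Normal := by unfold CK; infer_instance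
instance (K : Subgroup G) [K.Normal] : (AK K).Normal := by unfold AK; infer_instance

lemma AK_ab {K : Subgroup G} : ∀ a ∈ AK K, ∀ b ∈ AK K, a * b = b * a := fun a ha _ hb => hb.2 a ha.1

lemma le_CK {K : Subgroup G} (h : ∀ a ∈ ⁅K, K⁆, ∀ b ∈ ⁅K, K⁆, a * b = b * a) : ⁅K, K⁆ ≤ CK K :=
  fun b hb => ⟨Subgroup.commutator_le_self K hb, fun a ha => h a ha b hb⟩

lemma le_AK {K : Subgroup G} (h : ∀ a ∈ ⁅K, K⁆, ∀ b ∈ ⁅K, K⁆, a * b = b * a) : ⁅K, K⁆ ≤ AK K :=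
  fun b hb => ⟨le_CK h hb, fun _ ha => (ha.2 b hb).symm⟩

section
variable [LinearOrder G] [MulLeftMono G] [MulRightMono G]

lemma Cvx.bc' {C : Subgroup G} (hC : Cvx C) (this : C.Normal) : BC C := by
  have k : ∀ x y, 1 ≤ x → y ∈ C → 1 ≤ x * y ∨ x * y ∈ C := fun x y hx hy =>
    (le_total 1 (x * y)).imp id fun l => mul_mem (hC _ _ hx
      (by simpa using mul_le_mul' l (le_refl y⁻¹)) (inv_mem hy)) hy
  refine ⟨{ carrier := {x | 1 ≤ x ∨ x ∈ C}, one_mem' := .inl le_rfl, mul_mem' := ?_ },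
    fun _ _ => trivial, fun g _ => (le_total 1 g).imp .inl fun a => .inl (one_le_inv'.2 a),
    fun a _ g hg => hg.imp (fun l => by simpa using conj_le (a := a) l) fun l => this.conj_mem g l a,
    fun g => ⟨fun hg => ⟨.inr hg, .inr (inv_mem hg)⟩, ?_⟩⟩
  · rintro x y (hx | hx) (hy | hy)
    · exact .inl (one_le_mul hx hy)
    · exact k x y hx hy
    · simpa [mul_assoc] using k y _ hy (this.conj_mem x hx y⁻¹)
    · exact .inr (mul_mem hx hy)
  · rintro ⟨a | a, b | b⟩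
    · rw [le_antisymm (one_le_inv'.1 b) a]; exact one_mem _
    exacts [inv_mem_iff.1 b, a, a]

/-- `g D g⁻¹` -/
def cj (g : G) (D : Subgroup G) : Subgroup G := D.comap (MulAut.conj g⁻¹).toMonoidHom

omit [LinearOrder G] [MulLeftMono G] [MulRightMono G] in
lemma mem_cj {g x : G} {D : Subgroup G} : x ∈ cj g D ↔ g⁻¹ * x * g ∈ D := by simp [cj]

lemma Cvx.cj {D : Subgroup G} (h : Cvx D) (g : G) : Cvx (cj g D) := fun x y a b c =>
  mem_cj.2 (h _ _ (by simpa using conj_le (a := g⁻¹) a) (by gcongr) (mem_cj.1 c))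

lemma Cvx.comm {D : Subgroup G} (h : Cvx D) {d : G} (hd : d ∈ D) (w : G) :
    ⁅w, d⁆ ∈ D ∨ w⁻¹ * ⁅w, d⁆ * w ∈ D := by
  have : w * d * w⁻¹ ∈ Con.cj w D := mem_cj.2 (by simpa [mul_assoc] using hd)
  exact ((h.cj w).total h).imp (fun l => mul_mem (l this) (inv_mem hd))
    fun l => mem_cj.1 (mul_mem this (inv_mem (l hd)))

lemma Cvx.root {D : Subgroup G} (h : Cvx D) {w v : G} {n : ℕ} (hn : n ≠ 0) (e : ⁅w, v ^ n⁆ ∈ D) :
    ⁅w, v⁆ ∈ D := by
  obtain ⟨m, rfl⟩ := Nat.exists_eq_succ_of_ne_zero hn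
  have e1 : ⁅w, v ^ (m + 1)⁆ = w * v * w⁻¹ * (w * v * w⁻¹) ^ m * (v ^ m)⁻¹ * v⁻¹ := by
    rw [conj_pow, commutatorElement_def]; group
  have e2 : ⁅w, v⁆ = w * v * w⁻¹ * v ^ m * (v ^ m)⁻¹ * v⁻¹ := by
    rw [commutatorElement_def]; group
  rcases le_total v (w * v * w⁻¹) with l | l
  · refine h _ _ (by simpa [commutatorElement_def] using l) ?_ e
    rw [e1, e2]; gcongr
  · refine inv_mem_iff.1 (h _ _ (one_le_inv'.2 (by simpa [commutatorElement_def] using l)) ?_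
      (inv_mem e))
    rw [inv_le_inv_iff, e1, e2]; gcongr

lemma mem_AK (sep : ∀ c : G, (∀ D, Cvx D → D ≠ ⊥ → c ∈ D) → c = 1) {K : Subgroup G}
    (hK : ∀ a ∈ ⁅K, K⁆, ∀ b ∈ ⁅K, K⁆, a * b = b * a) {v : G} (hv : v ∈ K)
    (h : ∀ D, Cvx D → D ≠ ⊥ → ∃ n : ℕ, n ≠ 0 ∧ ∃ d ∈ D, d ∈ K ∧ v ^ n * d⁻¹ ∈ AK K) : v ∈ AK K := by
  have : ∀ w ∈ CK K, w * v = v * w := fun w hw =>
    commutatorElement_eq_one_iff_mul_comm.1 (sep _ fun D hD ne => by
      obtain ⟨n, hn, d, h1, h2, h3⟩ := h D hD ne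
      have c := Subgroup.commutator_mem_commutator hw.1 h2
      refine hD.root hn ?_
      rw [show ⁅w, v ^ n⁆ = w * (v ^ n * d⁻¹) * w⁻¹ * ⁅w, d⁆ * (v ^ n * d⁻¹)⁻¹ by
        simp only [commutatorElement_def]; group, h3.2 w hw, mul_inv_cancel_right, ← h3.1.2 _ c,
        mul_inv_cancel_right]
      exact (hD.comm h1 w).elim id fun e => by rwa [mul_assoc, hw.2 _ c, inv_mul_cancel_left] at e)
  exact ⟨⟨hv, fun b hb => this b (le_CK hK hb)⟩, this⟩

theorem lemY {M : Subgroup G} (nM : M.Normal) (cM : Cvx M)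
    (hM : ∀ N : Subgroup G, BC N → N = ⊥ ∨ N = M ∨ N = ⊤) (le : commutator G ≤ M)
    (h3 : ∀ a ∈ ⁅commutator G, commutator G⁆, ∀ b ∈ ⁅commutator G, commutator G⁆, a * b = b * a) :
    ⁅M, M⁆ = ⊥ := by
  by_contra ne
  have hM' : ∀ N : Subgroup G, Cvx N → N.Normal → N ≠ ⊥ → M ≤ N := fun N a b c =>
    ((hM N (a.bc' b)).resolve_left c).elim (·.ge) fun e => e ▸ le_top
  have star : ∀ h ∈ M, ∀ D, Cvx D → D ≠ ⊥ → ∃ g, g * h * g⁻¹ ∈ D := fun h hh D hD nD => by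
    by_contra c
    refine notMem_Dm (x := h) (fun e => c ⟨1, by simp [e]⟩) ((Dm h).normalCore_le (hM' (Dm h).normalCore
      (fun x y a b e g => cvx_Dm h _ _ (by simpa using conj_le (a := g) a) (conj_le b) (e g))
      inferInstance (fun e => nD (eq_bot_iff.2 fun x hx => e.le fun g => ?_)) hh))
    exact le_Dm (hD.cj g) (fun e => c ⟨g⁻¹, by simpa using mem_cj.1 e⟩)
      (mem_cj.2 (by simpa [mul_assoc] using hx))
  have sep : ∀ c : G, (∀ D, Cvx D → D ≠ ⊥ → c ∈ D) → c = 1 := fun c hc => by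
    by_contra e
    obtain ⟨⟨x, hx⟩, x1⟩ := Subgroup.ne_bot_iff_exists_ne_one.1 ne
    obtain ⟨a, a1, a2, a3⟩ := pos_rep x
    have a1' : 1 < a := a1.lt_of_ne fun e => x1 (Subtype.ext ((a3 ⊥).1 e.symm))
    have := hM' (sInf {D | Cvx D ∧ D ≠ ⊥}) (cvx_sInf fun _ h => h.1) ⟨fun x hx g =>
      Subgroup.mem_sInf.2 fun D hD => by
        simpa using mem_cj.1 (Subgroup.mem_sInf.1 hx (cj g⁻¹ D) ⟨hD.1.cj _, fun e => hD.2
          (eq_bot_iff.2 fun y hy => by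
            exact conj_eq_one_iff.1 (e.le (mem_cj.2 (by simpa [mul_assoc] using hy) :
              g⁻¹ * y * g⁻¹⁻¹ ∈ _)))⟩)⟩
      fun e' => e (e'.le (Subgroup.mem_sInf.2 fun D hD => hc D hD.1 hD.2))
    have m : a ∈ BiOrd.conv a := ⟨1, by simp, by simpa using (inv_le_one'.2 a1).trans a1⟩
    have l : M ≤ BiOrd.conv a := this.trans (sInf_le ⟨fun x y b c ⟨p, d, _⟩ =>
      ⟨p, c.trans d, (inv_le_one'.2 b).trans (b.trans (c.trans d))⟩, fun e => a1'.ne' (e.le m)⟩)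
    exact BiOrd.not_mem_comm a1' (Subgroup.commutator_mono l l ((a3 _).2 hx))
  have cm : ∀ s t : G, ⁅s, t⁆ ∈ commutator G := fun s t =>
    Subgroup.commutator_mem_commutator trivial trivial
  have d : ∀ y, (∀ x ∈ commutator G, ⁅x, y⁆ ∈ AK (commutator G)) → ∀ h ∈ M,
      ⁅h, y⁆ ∈ AK (commutator G) := fun y hy h hh => mem_AK sep h3 (cm h y) fun D hD nD => by
    let π := QuotientGroup.mk' (AK (commutator G))
    have c : ∀ x y, ⁅x, y⁆ ∈ AK (commutator G) → π x * π y = π y * π x := fun x y e =>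
      commutatorElement_eq_one_iff_mul_comm.1 ((QuotientGroup.eq_one_iff _).2 e)
    obtain ⟨g, hg⟩ := star h hh D hD nD
    have e : π ⁅y, g * h * g⁻¹⁆ = (π ⁅h, y⁆)⁻¹ := by
      rw [show ⁅y, g * h * g⁻¹⁆ = ⁅⁅g, h⁆, y⁆⁻¹ * (⁅g, h⁆ * ⁅h, y⁆⁻¹ * ⁅g, h⁆⁻¹) by
        simp only [commutatorElement_def]; group, map_mul, map_mul, map_mul, c _ _ (le_AK h3
          (Subgroup.commutator_mem_commutator (cm g h) (inv_mem (cm h y)))), map_inv π ⁅g, h⁆,
        mul_inv_cancel_right, map_inv, show π ⁅⁅g, h⁆, y⁆ = 1 from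
          (QuotientGroup.eq_one_iff _).2 (hy _ (cm g h)), inv_one, one_mul, map_inv]
    refine ⟨1, one_ne_zero, ?_⟩
    rcases hD.comm hg y with a | a
    · refine ⟨_, inv_mem a, inv_mem (cm _ _), (QuotientGroup.eq_one_iff _).1 ?_⟩
      change π _ = 1
      rw [pow_one, inv_inv, map_mul, e, mul_inv_cancel]
    · refine ⟨_, inv_mem a, inv_mem (Subgroup.Normal.conj_mem' inferInstance _ (cm _ _) y),
        (QuotientGroup.eq_one_iff _).1 ?_⟩
      change π _ = 1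
      rw [pow_one, inv_inv, map_mul, map_mul, map_mul, mul_assoc (π y⁻¹), c _ _ (hy _ (cm _ _)),
        map_inv, inv_mul_cancel_left, e, mul_inv_cancel]
  have mA : ⁅M, M⁆ ≤ AK (commutator G) := Subgroup.commutator_le.2 fun h hh y hy => d y
    (fun x hx => commutatorElement_inv y x ▸ inv_mem (d x (fun z hz => le_AK h3
      (Subgroup.commutator_mem_commutator hz hx)) y hy)) h hh
  have h2 : ∀ a ∈ ⁅M, M⁆, ∀ b ∈ ⁅M, M⁆, a * b = b * a := fun a ha b hb => AK_ab a (mA ha) b (mA hb)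
  clear d mA
  let π := QuotientGroup.mk' (AK M)
  have ab : ∀ a ∈ M.map π, ∀ b ∈ M.map π, a * b = b * a := by
    rintro _ ⟨a, ha, rfl⟩ _ ⟨b, hb, rfl⟩
    exact commutatorElement_eq_one_iff_mul_comm.1 ((QuotientGroup.eq_one_iff _).2
      (le_AK h2 (Subgroup.commutator_mem_commutator ha hb)))
  have nMm := nM.map π QuotientGroup.mk_surjective
  obtain ⟨v, hv, nv⟩ : ∃ v ∈ M, v ∉ AK M := by
    by_contra c
    push Not at c
    exact ne (Subgroup.commutator_eq_bot_iff_le_centralizer.2 fun a ha b hb =>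
      AK_ab b (c b hb) a (c a ha))
  let L : Subgroup G → Subgroup (G ⧸ AK M) := fun D =>
    { carrier := {y | y ∈ M.map π ∧ ∃ n : ℕ, n ≠ 0 ∧ ∃ d ∈ D, d ∈ M ∧ y ^ n = π d}
      one_mem' := ⟨one_mem _, 1, one_ne_zero, 1, one_mem _, one_mem _, by simp⟩
      inv_mem' := fun ⟨a, n, b, d, c, e, f⟩ =>
        ⟨inv_mem a, n, b, d⁻¹, inv_mem c, inv_mem e, by rw [inv_pow, f, map_inv]⟩
      mul_mem' := fun ⟨a, n, b, d, c, e, f⟩ ⟨a', n', b', d', c', e', f'⟩ =>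
        ⟨mul_mem a a', n * n', mul_ne_zero b b', d ^ n' * d' ^ n,
          mul_mem (pow_mem c _) (pow_mem c' _), mul_mem (pow_mem e _) (pow_mem e' _), by
            rw [Commute.mul_pow (ab _ a _ a'), pow_mul, mul_comm n, pow_mul, f, f']; simp⟩ }
  have Lm : ∀ D D', D ≤ D' → L D ≤ L D' := fun D D' l y ⟨a, n, b, d, c, e⟩ => ⟨a, n, b, d, l c, e⟩
  have Lc : ∀ g D, ∀ y ∈ L D, π g * y * (π g)⁻¹ ∈ L (cj g D) := fun g D y ⟨a, n, b, d, c, e, f⟩ =>
    ⟨nMm.conj_mem _ a _, n, b, g * d * g⁻¹, mem_cj.2 (by simpa [mul_assoc] using c),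
      nM.conj_mem d e g, by rw [conj_pow, f]; simp⟩
  let u : G → G ⧸ AK M := fun g => π g * π v * (π g)⁻¹
  have um : ∀ g, u g ∈ M.map π := fun g => nMm.conj_mem _ ⟨v, hv, rfl⟩ _
  have uu : ∀ g g', π g * u g' * (π g)⁻¹ = u (g * g') := fun g g' => by simp [u, mul_assoc]
  have uc : ∀ g g' D, u (g * g') ∈ L D ↔ u g' ∈ L (cj g⁻¹ D) := fun g g' D =>
    ⟨fun h => by simpa only [uu, inv_mul_cancel_left] using Lc g⁻¹ D _ h, fun h => uu g g' ▸ Lm _ _
      (fun x hx => by simpa [mul_assoc] using mem_cj.1 (mem_cj.1 hx)) (Lc g _ _ h)⟩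
  have uM : ∀ g, ∀ m ∈ M, u (g * m) = u g := fun g m hm => by
    rw [← uu]
    simp only [u]
    rw [ab _ ⟨m, hm, rfl⟩ _ ⟨v, hv, rfl⟩, mul_inv_cancel_right]
  obtain ⟨D₀, d1, d2, d3⟩ : ∃ D, Cvx D ∧ D ≠ ⊥ ∧ u 1 ∉ L D := by
    by_contra c
    push Not at c
    refine nv (mem_AK sep h2 hv fun D a b => ?_)
    obtain ⟨-, n, hn, d, e1, e2, e3⟩ := c D a b
    refine ⟨n, hn, d, e1, e2, (QuotientGroup.eq_one_iff _).1 ?_⟩
    change π _ = 1
    rw [map_mul, map_inv, ← e3]; simp [u]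
  let Q : Submonoid G :=
    { carrier := {g | ∀ D, Cvx D → u 1 ∈ L D → u g ∈ L D}
      one_mem' := fun _ _ h => h
      mul_mem' := fun {g g'} a b D hD h =>
        (uc g g' D).2 (b _ (hD.cj _) ((uc g 1 D).1 (by simpa using a D hD h))) }
  have hS : ∀ g ∈ Q, g⁻¹ ∈ Q → g ∈ M := by
    let S : Subgroup G :=
      { carrier := {g | g ∈ Q ∧ g⁻¹ ∈ Q}
        one_mem' := ⟨one_mem Q, by simp⟩
        mul_mem' := fun a b => ⟨mul_mem a.1 b.1, by simpa using mul_mem b.2 a.2⟩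
        inv_mem' := fun a => ⟨a.2, by simpa using a.1⟩ }
    have : BC S := ⟨Q, fun _ _ => trivial, fun g _ => by
      by_contra c
      simp only [Q, Submonoid.mem_mk, Subsemigroup.mem_mk, Set.mem_ofPred_eq, not_or, not_forall] at c
      obtain ⟨⟨D, a1, a2, a3⟩, D', b1, b2, b3⟩ := c
      rcases a1.total (b1.cj g) with l | l
      · exact b3 (by simpa using (uc g⁻¹ 1 D').2 (by simpa using Lm _ _ l a2))
      · exact a3 (Lm _ _ l (by simpa using (uc g⁻¹ g D').1 (by simpa using b2))),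
      fun h _ g hg => by
        rw [show h * g * h⁻¹ = g * ⁅g⁻¹, h⁆ by simp [commutatorElement_def, mul_assoc]]
        exact fun D hD e => uM g _ (le (cm _ _)) ▸ hg D hD e, fun _ => Iff.rfl⟩
    rcases hM S this with e | e | e
    · exact fun g a b => (e.le (⟨a, b⟩ : g ∈ S) : g = 1) ▸ one_mem _
    · exact fun g a b => e.le ⟨a, b⟩
    · obtain ⟨g, hg⟩ := star v hv D₀ d1 d2
      have : u 1 ∈ L (cj g⁻¹ D₀) := (uc g 1 D₀).1 ⟨um _, 1, one_ne_zero, _, hg,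
        nM.conj_mem v hv g, by simp [u]⟩
      exact (d3 (by simpa using (uc g g⁻¹ D₀).2 ((e.ge trivial : g ∈ S).2 _ (d1.cj _) this))).elim
  obtain ⟨N, n1, n2⟩ := cone_ab ab (fun s t => by
    obtain ⟨s, rfl⟩ := QuotientGroup.mk_surjective s
    obtain ⟨t, rfl⟩ := QuotientGroup.mk_surjective t
    exact ⟨_, le (cm s t), map_commutatorElement π s t⟩)
    {y | ∃ (g : G) (k : ℕ) (D : Subgroup G), k ≠ 0 ∧ Cvx D ∧ u g ∉ L D ∧ y * (u g ^ k)⁻¹ ∈ L D} (by
      have key : ∀ g D D' x y (k : ℕ), Cvx D → Cvx D' → u g ∉ L D → u g ∉ L D' → x ∈ L D →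
          y ∈ L D' → ∃ D, Cvx D ∧ u g ∉ L D ∧ x ∈ L D ∧ y ∈ L D := fun g D D' x y k a b c d e f =>
        (a.total b).elim (fun l => ⟨D', b, d, Lm _ _ l e, f⟩) fun l => ⟨D, a, c, e, Lm _ _ l f⟩
      rintro x ⟨g, k, D, k0, a1, a2, a3⟩ y ⟨g', k', D', k0', b1, b2, b3⟩
      have yM : y ∈ M.map π := (mul_mem_cancel_right (inv_mem (pow_mem (um g') k'))).1 b3.1
      have low : ∀ {g' y} {k' : ℕ} {D' D₁}, Cvx D' → u g' ∉ L D' → y * (u g' ^ k')⁻¹ ∈ L D' → Cvx D₁ →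
          u g' ∈ L D₁ → y ∈ L D₁ := fun b1 b2 b3 c1 c2 => (mul_mem_cancel_right
            (inv_mem (pow_mem c2 _))).1 (Lm _ _ ((b1.total c1).resolve_right
              fun l => b2 (Lm _ _ l c2)) b3)
      by_cases c : ∃ D₁, Cvx D₁ ∧ u g' ∈ L D₁ ∧ u g ∉ L D₁
      · obtain ⟨D₁, c1, c2, c3⟩ := c
        obtain ⟨E, e1, e2, e3, e4⟩ := key g D D₁ _ _ k a1 c1 a2 c3 a3 (low b1 b2 b3 c1 c2)
        refine ⟨g, k, E, k0, e1, e2, ?_⟩
        rw [mul_assoc, ab _ yM _ (inv_mem (pow_mem (um g) k)), ← mul_assoc]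
        exact mul_mem e3 e4
      by_cases c' : ∃ D₁, Cvx D₁ ∧ u g ∈ L D₁ ∧ u g' ∉ L D₁
      · obtain ⟨D₁, c1, c2, c3⟩ := c'
        obtain ⟨E, e1, e2, e3, e4⟩ := key g' D' D₁ _ _ k b1 c1 b2 c3 b3 (low a1 a2 a3 c1 c2)
        exact ⟨g', k', E, k0', e1, e2, mul_assoc x _ _ ▸ mul_mem e4 e3⟩
      push Not at c c'
      have q : ∀ g g', (∀ D, Cvx D → u g ∈ L D → u g' ∈ L D) → g⁻¹ * g' ∈ Q := fun g g' h D hD e =>
        (uc _ _ _).2 (h _ (hD.cj _) ((uc g⁻¹ g D).1 (by simpa using e)))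
      have e : u g' = u g := by
        simpa using uM g _ (hS _ (q g g' c') (by simpa using q g' g c))
      rw [e] at b2 b3
      obtain ⟨E, e1, e2, e3, e4⟩ := key g D D' _ _ k a1 b1 a2 b2 a3 b3
      refine ⟨g, k + k', E, by omega, e1, e2, ?_⟩
      convert mul_mem e3 e4 using 1
      rw [add_comm, pow_add, mul_inv_rev, mul_assoc, mul_assoc, ← mul_assoc y,
        ab _ yM _ (inv_mem (pow_mem (um g) k)), mul_assoc]) (by
      rintro s x ⟨g, k, D, k0, a1, a2, a3⟩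
      obtain ⟨s, rfl⟩ := QuotientGroup.mk'_surjective _ s
      refine ⟨s * g, k, cj s D, k0, a1.cj s, fun e => a2 (Lm _ _
        (fun x hx => by simpa [mul_assoc] using mem_cj.1 (mem_cj.1 hx)) ((uc _ _ _).1 e)), ?_⟩
      convert Lc s D _ a3 using 1
      rw [← uu, conj_pow]; simp [π, mul_assoc]) (by
      rintro ⟨g, k, D, k0, -, a2, a3⟩
      obtain ⟨-, n, b, d, c, e, f⟩ := inv_mem a3
      exact a2 ⟨um g, k * n, mul_ne_zero k0 b, d, c, e, by simpa [pow_mul] using f⟩)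
  have c := n1.comap π
  rw [Subgroup.comap_top, Subgroup.comap_map_eq_self (by
    rw [QuotientGroup.ker_mk']; exact fun x hx => hx.1.1)] at c
  have vN : v ∉ N.comap π := n2 (π v) ⟨1, 1, D₀, one_ne_zero, d1, d3, by simp [u]⟩
  rcases hM _ ((cM.bc' nM).trans c) with e | e | e
  · refine ne (eq_bot_iff.2 (e ▸ fun x hx => ?_))
    rw [Subgroup.mem_comap, show π x = 1 from (QuotientGroup.eq_one_iff _).2 (le_AK h2 hx)]
    exact one_mem _
  · exact vN (e.ge hv)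
  · exact vN (e.ge trivial)

end

lemma lemY' (hB : Bi G) {M : Subgroup G} (bM : BC M)
    (hM : ∀ N : Subgroup G, BC N → N = ⊥ ∨ N = M ∨ N = ⊤) (le : commutator G ≤ M)
    (h3 : derivedSeries G 3 = ⊥) : ⁅M, M⁆ = ⊥ := by
  obtain ⟨_, _, _, c⟩ := order_cvx hB bM
  exact lemY bM.normal c hM le fun a ha b hb =>
    Subgroup.commutator_eq_bot_iff_le_centralizer.1 h3 hb a ha

theorem len_three (hB : Bi G) {M : Subgroup G} (bM : BC M)
    (hM : ∀ N : Subgroup G, BC N → N = ⊥ ∨ N = M ∨ N = ⊤) (h3 : derivedSeries G 3 = ⊥) :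
    derivedSeries G 2 = ⊥ := by
  have := bM.normal
  have sj : Function.Surjective (QuotientGroup.mk' M) := QuotientGroup.mk_surjective
  have le : commutator G ≤ M := by
    have := lemY' bM.quot (M := ⊤) ⟨⊤, fun _ _ => trivial, fun _ _ => .inl trivial,
      fun _ _ _ _ => trivial, fun _ => by simp⟩ (fun N hN => by
        rcases hM _ (hN.comap (QuotientGroup.mk' M)) with e | e | e
        · exact .inl (Subgroup.comap_injective sj (by simp [e, eq_bot_iff.2 (e ▸ (by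
            simpa using Subgroup.ker_le_comap (QuotientGroup.mk' M) N) : M ≤ ⊥)]))
        · exact .inl (Subgroup.comap_injective sj (by simp [e]))
        · exact .inr (.inl (Subgroup.comap_injective sj (by simp [e])))) le_top
      (by rw [← map_derivedSeries_eq sj, h3, Subgroup.map_bot])
    rwa [← Subgroup.map_top_of_surjective _ sj, ← Subgroup.map_commutator, Subgroup.map_eq_bot_iff,
      QuotientGroup.ker_mk'] at this
  exact eq_bot_iff.2 (lemY' hB bM hM le h3 ▸ Subgroup.commutator_mono le le)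

end Pool.Agent.H71.Con
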