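import Mathlib

set_option autoImplicit false

namespace Pool.Agent.H71.Cook

open Set Topology TopologicalSpace Relation

theorem metrizable_of_network {X : Type} [TopologicalSpace X] [CompactSpace X] [T2Space X]
    (S : Set (Set X)) (hS : S.Countable)
    (hn : ∀ x, ∀ U : Set X, IsOpen U → x ∈ U → ∃ N ∈ S, x ∈ N ∧ N ⊆ U) :
    MetrizableSpace X := by
  have hf : ∀ N M : Set X, ∃ f : C(X, ℝ), Disjoint (closure N) (closure M) →
      EqOn f 0 (closure N) ∧ EqOn f 1 (closure M) := by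
    intro N M
    by_cases h : Disjoint (closure N) (closure M)
    · obtain ⟨f, h1, h2, -⟩ := exists_continuous_zero_one_of_isClosed isClosed_closure
        isClosed_closure h
      exact ⟨f, fun _ => ⟨h1, h2⟩⟩
    · exact ⟨0, fun h' => absurd h' h⟩
  choose f hf using hf
  have := hS.to_subtype
  let : Encodable (S × S) := Encodable.ofCountable _
  refine Metric.PiNatEmbed.TopologicalSpace.MetrizableSpace.of_countable_separating
    (ι := S × S) (Y := fun _ => ℝ) (fun i => f i.1 i.2) (fun i => (f _ _).continuous) ?_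
  intro x y hxy
  obtain ⟨U, V, hU, hV, hx, hy, hUV⟩ := t2_separation hxy
  obtain ⟨U', hU'x, hU'c, hU'U⟩ := exists_mem_nhds_isClosed_subset (hU.mem_nhds hx)
  obtain ⟨V', hV'x, hV'c, hV'U⟩ := exists_mem_nhds_isClosed_subset (hV.mem_nhds hy)
  obtain ⟨N, hN, hxN, hNU⟩ := hn x _ isOpen_interior (mem_interior_iff_mem_nhds.2 hU'x)
  obtain ⟨M, hM, hyM, hMV⟩ := hn y _ isOpen_interior (mem_interior_iff_mem_nhds.2 hV'x)
  have := hf N M (hUV.mono ((closure_minimal (hNU.trans interior_subset) hU'c).trans hU'U)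
    ((closure_minimal (hMV.trans interior_subset) hV'c).trans hV'U))
  refine ⟨(⟨N, hN⟩, ⟨M, hM⟩), ?_⟩
  simp only
  rw [this.1 (subset_closure hxN), this.2 (subset_closure hyM)]
  simp

section quot
variable {X : Type} [TopologicalSpace X] [CompactSpace X] [T2Space X] (r : Setoid X)

theorem quot_closedMap (hr : IsClosed {q : X × X | r q.1 q.2}) :
    IsClosedMap (Quotient.mk r) := by
  intro F hF
  rw [← (isQuotientMap_quotient_mk' (s := r)).isClosed_preimage]
  have : Quotient.mk' ⁻¹' (Quotient.mk r '' F) =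
      Prod.fst '' ({q : X × X | r q.1 q.2} ∩ Prod.snd ⁻¹' F) := by
    ext x
    constructor
    · rintro ⟨y, hy, hyx⟩
      exact ⟨(x, y), ⟨r.symm (Quotient.exact hyx), hy⟩, rfl⟩
    · rintro ⟨⟨x, y⟩, ⟨h1, h2⟩, rfl⟩
      exact ⟨y, h2, Quotient.sound (r.symm h1)⟩
  rw [this]
  exact ((hr.inter (hF.preimage continuous_snd)).isCompact.image continuous_fst).isClosed

theorem quot_t2 (hr : IsClosed {q : X × X | r q.1 q.2}) : T2Space (Quotient r) := by
  have hc := quot_closedMap r hr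
  have hq : Continuous (Quotient.mk r) := continuous_quotient_mk'
  have hs : ∀ a : Quotient r, IsClosed (Quotient.mk r ⁻¹' {a}) := by
    intro a
    obtain ⟨x, rfl⟩ := Quotient.exists_rep a
    have := hc {x} isClosed_singleton
    rw [image_singleton] at this
    exact this.preimage hq
  refine ⟨fun a b hab => ?_⟩
  have hd : Disjoint (Quotient.mk r ⁻¹' {a}) (Quotient.mk r ⁻¹' {b}) :=
    (disjoint_singleton.2 hab).preimage _
  obtain ⟨U, V, hU, hV, haU, hbV, hUV⟩ := normal_separation (hs a) (hs b) hd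
  refine ⟨(Quotient.mk r '' Uᶜ)ᶜ, (Quotient.mk r '' Vᶜ)ᶜ, (hc _ hU.isClosed_compl).isOpen_compl,
    (hc _ hV.isClosed_compl).isOpen_compl, ?_, ?_, ?_⟩
  · rintro ⟨x, hx, rfl⟩; exact hx (haU rfl)
  · rintro ⟨x, hx, rfl⟩; exact hx (hbV rfl)
  · rw [disjoint_left]
    intro c h1 h2
    obtain ⟨x, rfl⟩ := Quotient.exists_rep c
    by_cases hx : x ∈ U
    · exact h2 ⟨x, fun h => disjoint_left.1 hUV hx h, rfl⟩
    · exact h1 ⟨x, hx, rfl⟩

theorem quot_metrizable [SecondCountableTopology X] (hr : IsClosed {q : X × X | r q.1 q.2}) :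
    MetrizableSpace (Quotient r) := by
  have := quot_t2 r hr
  have hq : Continuous (Quotient.mk r) := continuous_quotient_mk'
  refine metrizable_of_network ((fun U => Quotient.mk r '' U) '' countableBasis X)
    ((countable_countableBasis X).image _) ?_
  intro a U hU ha
  obtain ⟨x, rfl⟩ := Quotient.exists_rep a
  obtain ⟨B, hB, hxB, hBU⟩ := (isBasis_countableBasis X).exists_subset_of_mem_open
    (show x ∈ Quotient.mk r ⁻¹' U from ha) (hU.preimage hq)
  exact ⟨_, ⟨B, hB, rfl⟩, ⟨x, hxB, rfl⟩, image_subset_iff.2 hBU⟩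

end quot

theorem pigeon {α : Type} {F : Set α} (hF : F.Finite) (Φ : ℕ → α → Prop)
    (hm : ∀ r a, a ∈ F → Φ (r + 1) a → Φ r a) (h : ∀ r, ∃ a ∈ F, Φ r a) :
    ∃ a ∈ F, ∀ r, Φ r a := by
  by_contra hc
  push Not at hc
  choose! g hg using hc
  obtain ⟨N, hN⟩ := (hF.image g).bddAbove
  obtain ⟨a, ha, hΦ⟩ := h N
  have h1 : g a ≤ N := hN ⟨a, ha, rfl⟩
  have : ∀ d, Φ (g a + d) a → Φ (g a) a := by
    intro d
    induction d with
    | zero => exact id
    | succ d ih => exact fun h => ih (hm _ _ ha h)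
  obtain ⟨d, rfl⟩ := Nat.exists_eq_add_of_le h1
  exact hg a ha (this d hΦ)

section walk
variable {α : Type} (R : α → α → Prop) (A : Set α)

def Wk (u v : α) (T : Set α) : Prop :=
  ∃ (L : ℕ) (g : ℕ → α), g 0 = u ∧ g L = v ∧ (∀ i < L, R (g i) (g (i + 1))) ∧
    (∀ i ≤ L, g i ∈ A) ∧ ∀ t ∈ T, ∃ i ≤ L, g i = t

variable {R A}

theorem Wk.step {u v w : α} {T : Set α} (h : Wk R A u v T) (hw : w ∈ A) (hR : R v w) :
    Wk R A u w T := by
  obtain ⟨L, g, h0, hL, hs, hA, hT⟩ := h
  refine ⟨L + 1, fun i => if i ≤ L then g i else w, by simpa using h0, by simp, ?_, ?_, ?_⟩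
  · intro i hi
    by_cases h1 : i < L
    · simp only [if_pos h1.le, if_pos (Nat.succ_le_of_lt h1)]; exact hs i h1
    · obtain rfl : i = L := by omega
      simp only [le_refl, if_true, Nat.not_succ_le_self, if_false, hL]; exact hR
  · intro i _
    by_cases h1 : i ≤ L
    · simp only [if_pos h1]; exact hA i h1
    · simp only [if_neg h1]; exact hw
  · intro t ht
    obtain ⟨i, hi, rfl⟩ := hT t ht
    exact ⟨i, by omega, by simp only [if_pos hi]⟩

theorem Wk.ins {u v : α} {T : Set α} (h : Wk R A u v T) : Wk R A u v (insert v T) := by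
  obtain ⟨L, g, h0, hL, hs, hA, hT⟩ := h
  refine ⟨L, g, h0, hL, hs, hA, ?_⟩
  rintro t (rfl | ht)
  · exact ⟨L, le_rfl, hL⟩
  · exact hT t ht

theorem Wk.rtg {u v w : α} {T : Set α} (h : Wk R A u v T)
    (hw : ReflTransGen (fun x y => R x y ∧ y ∈ A) v w) : Wk R A u w T := by
  induction hw with
  | refl => exact h
  | tail _ h2 ih => exact ih.step h2.2 h2.1

theorem exists_wk (hA : A.Finite)
    (hc : ∀ u ∈ A, ∀ v ∈ A, ReflTransGen (fun x y => R x y ∧ y ∈ A) u v) {u v : α}
    (hu : u ∈ A) (hv : v ∈ A) : Wk R A u v A := by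
  have : ∀ T : Set α, T.Finite → T ⊆ A → Wk R A u u T := by
    intro T hT
    induction T, hT using Set.Finite.induction_on with
    | empty =>
      intro _
      exact ⟨0, fun _ => u, rfl, rfl, by simp, fun _ _ => hu, by simp⟩
    | @insert t T _ _ ih =>
      intro hs
      have ht : t ∈ A := hs (mem_insert _ _)
      exact ((ih ((subset_insert _ _).trans hs)).rtg (hc u hu t ht)).ins.rtg (hc t ht u hu)
  exact (this A hA subset_rfl).rtg (hc u hu v hv)

theorem exists_wk2 (hr : ∀ x, R x x) (hA : A.Finite)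
    (hc : ∀ u ∈ A, ∀ v ∈ A, ReflTransGen (fun x y => R x y ∧ y ∈ A) u v) {u v : α}
    (hu : u ∈ A) (hv : v ∈ A) :
    ∃ (L : ℕ) (g : ℕ → α), g 0 = u ∧ g L = v ∧ (∀ i < L, R (g i) (g (i + 1))) ∧
      (∀ i, g i = g (i + 1) ∨ g (i + 1) = g (i + 2)) ∧
      (∀ i ≤ L, g i ∈ A) ∧ ∀ t ∈ A, ∃ i ≤ L, g i = t := by
  obtain ⟨L, g, h0, hL, hs, hA, hT⟩ := exists_wk hA hc hu hv
  refine ⟨2 * L, fun i => g (i / 2), by simpa using h0, by simpa using hL, ?_, ?_, ?_, ?_⟩
  · intro i hi
    rcases Nat.even_or_odd' i with ⟨k, rfl | rfl⟩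
    · have h1 : (2 * k + 1) / 2 = 2 * k / 2 := by omega
      simp only [h1]; exact hr _
    · have h1 : (2 * k + 1) / 2 = k := by omega
      have h2 : (2 * k + 1 + 1) / 2 = k + 1 := by omega
      simp only [h1, h2]; exact hs k (by omega)
  · intro i
    rcases Nat.even_or_odd' i with ⟨k, rfl | rfl⟩
    · left
      have h1 : (2 * k + 1) / 2 = 2 * k / 2 := by omega
      simp only [h1]
    · right
      have h1 : (2 * k + 1 + 1) / 2 = (2 * k + 1 + 2) / 2 := by omega
      simp only [h1]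
  · intro i hi; exact hA _ (by omega)
  · intro t ht
    obtain ⟨i, hi, rfl⟩ := hT t ht
    exact ⟨2 * i, by omega, by simp⟩

end walk

end Pool.Agent.H71.Cook
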