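import Pool.Agent.H71.Cook1

set_option autoImplicit false

namespace Pool.Agent.H71.Cook

open Set Relation

inductive Cell : Type
  | root : Cell
  | main (b : Cell) (j : ℕ) : Cell
  | path (e : Cell) (j i : ℕ) : Cell
  | clq (b : Cell) (j j' : ℕ) : Cell
  | int (e : Cell) (j i : ℕ) : Cell
  | fin (e : Cell) (j : ℕ) (s : Bool) (w L : ℕ) : Cell

open Cell

def code : Cell → ℕ
  | root => Nat.pair 0 0
  | main b j => Nat.pair 1 (Nat.pair (code b) j)
  | path e j i => Nat.pair 2 (Nat.pair (code e) (Nat.pair j i))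
  | clq e j i => Nat.pair 3 (Nat.pair (code e) (Nat.pair j i))
  | int e j i => Nat.pair 4 (Nat.pair (code e) (Nat.pair j i))
  | fin e j s w L => Nat.pair 5 (Nat.pair (code e) (Nat.pair j (Nat.pair s.toNat (Nat.pair w L))))

theorem code_inj : Function.Injective code := by
  intro c
  induction c with
  | root => intro d h; cases d <;> simp_all [code, Nat.pair_eq_pair]
  | main b j ih =>
    intro d h
    cases d <;> simp only [code, Nat.pair_eq_pair] at h <;> try omega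
    rw [ih h.2.1, h.2.2]
  | path b j i ih =>
    intro d h
    cases d <;> simp only [code, Nat.pair_eq_pair] at h <;> try omega
    rw [ih h.2.1, h.2.2.1, h.2.2.2]
  | clq b j i ih =>
    intro d h
    cases d <;> simp only [code, Nat.pair_eq_pair] at h <;> try omega
    rw [ih h.2.1, h.2.2.1, h.2.2.2]
  | int b j i ih =>
    intro d h
    cases d <;> simp only [code, Nat.pair_eq_pair] at h <;> try omega
    rw [ih h.2.1, h.2.2.1, h.2.2.2]
  | fin b j s w L ih =>
    intro d h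
    cases d <;> simp only [code, Nat.pair_eq_pair] at h <;> try omega
    rename_i e j' s' w' L'
    have hs : s = s' := by cases s <;> cases s' <;> simp_all
    rw [ih h.2.1, h.2.2.1, hs, h.2.2.2.2.1, h.2.2.2.2.2]

instance : Countable Cell := code_inj.countable

noncomputable instance : DecidableEq Cell := Classical.decEq _

abbrev Om := Finset (Cell × ℕ)

noncomputable def enc (ω : Om) : ℕ := @Encodable.encode Om (Encodable.ofCountable Om) ω

noncomputable def dec (n : ℕ) : Om := (@Encodable.decode Om (Encodable.ofCountable Om) n).getD ∅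

@[simp] theorem dec_enc (ω : Om) : dec (enc ω) = ω := by
  simp [dec, enc]

def isE : Cell → Prop
  | clq _ _ _ => True
  | int _ _ _ => True
  | fin _ _ _ _ _ => True
  | _ => False

def lev : Cell → ℕ
  | root => 0
  | main b _ => lev b + 1
  | path b _ _ => lev b + 1
  | clq b _ _ => lev b + 1
  | int b _ _ => lev b + 1
  | fin b _ _ _ _ => lev b + 1

def par : Cell → Cell
  | root => root
  | main b _ => b
  | path b _ _ => b
  | clq b _ _ => b
  | int b _ _ => b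
  | fin b _ _ _ _ => b

def k : Cell → ℕ
  | root => 1
  | main b _ => 2 ^ (lev b + 1)
  | path b _ _ => 2 ^ (lev b + 1)
  | clq b _ _ => 2 ^ lev b
  | int b _ _ => k b
  | fin b _ _ _ _ => k b

noncomputable def fr (c : Cell) (ω : Om) : ℕ := sInf {j | (c, j) ∉ ω}

noncomputable def a : Cell → Bool → Cell
  | clq b j j', s => main b (cond s j' j)
  | int e j i, s => path e j (cond s (i + 1) i)
  | fin e j t w L, s => cond s (path e j (cond t L 0)) (main (a e t) (fr (a e t) (dec w)))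
  | c, _ => c

def surv (ω : Om) : Cell → Prop
  | root => False
  | main b j => (b, j) ∉ ω
  | path e j _ => (e, j) ∉ ω
  | clq b j j' => (b, j) ∉ ω ∧ (b, j') ∉ ω
  | int e j _ => (e, j) ∉ ω
  | fin e j _ w _ => (e, j) ∉ ω ∧ ω ⊆ dec w

def Exp (S : Set Cell) (ω : Om) : Set Cell := {c | par c ∈ S ∧ surv ω c}

noncomputable def lab : Cell → Bool → Set Cell
  | clq b j j', s => {main b (cond s j' j)}
  | int e j i, s => {path e j (cond s (i + 1) i)}
  | fin e j t w L, s => cond s {path e j (cond t L 0)} (Exp (lab e t) (dec w))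
  | c, _ => {c}

def sh (c : Cell) : Set Cell := lab c false ∪ lab c true

def adjR (Val : Set Cell) (u v : Cell) : Prop :=
  u = v ∨ ∃ e ∈ Val, isE e ∧ ∃ s, a e s = u ∧ a e (!s) = v

def WSpec (Val : Set Cell) (e : Cell) (L : ℕ) (g : ℕ → Cell) : Prop :=
  g 0 = a e false ∧ g L = a e true ∧ (∀ i < L, adjR Val (g i) (g (i + 1))) ∧
    (∀ i, g i = g (i + 1) ∨ g (i + 1) = g (i + 2)) ∧
    (∀ i ≤ L, g i ∈ {v | v ∈ sh e ∧ v ∈ Val ∧ ¬ isE v}) ∧
    ∀ v ∈ {v | v ∈ sh e ∧ v ∈ Val ∧ ¬ isE v}, ∃ i ≤ L, g i = v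

noncomputable def wk (Val : Set Cell) (e : Cell) : ℕ × (ℕ → Cell) :=
  @Classical.epsilon _ ⟨(0, fun _ => root)⟩ (fun q => WSpec Val e q.1 q.2)

def Bdd (κ : ℕ) (ω : Om) : Prop := ∀ c, (ω.filter (fun q => q.1 = c)).card ≤ κ

def sz (m : ℕ) : ℕ := 2 ^ m + 2

def OmOk (Val : Set Cell) (m κ : ℕ) (ω : Om) : Prop :=
  (∀ q ∈ ω, q.1 ∈ Val ∧ q.2 < sz m) ∧ Bdd κ ω

def step (Val : Set Cell) (m : ℕ) : Cell → Prop
  | root => False
  | main b j => b ∈ Val ∧ ¬ isE b ∧ j < sz m
  | path e j i => e ∈ Val ∧ isE e ∧ j < sz m ∧ i ≤ (wk Val e).1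
  | clq b j j' => b ∈ Val ∧ ¬ isE b ∧ j < sz m ∧ j' < sz m
  | int e j i => e ∈ Val ∧ isE e ∧ j < sz m ∧ i < (wk Val e).1
  | fin e j _ w L => e ∈ Val ∧ isE e ∧ j < sz m ∧ L = (wk Val e).1 ∧
      ∃ ω, OmOk Val m (k e) ω ∧ w = enc ω

def val : ℕ → Set Cell
  | 0 => {root}
  | m + 1 => {c | step (val m) m c}

theorem lev_of_val : ∀ (m : ℕ) (c : Cell), c ∈ val m → lev c = m
  | 0, c, h => by obtain rfl : c = root := h; rfl
  | m + 1, c, h => by
    cases c <;> simp only [val, mem_ofPred_eq, step] at h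
    all_goals simp only [lev, lev_of_val m _ h.1]

def ok (c : Cell) : Prop := c ∈ val (lev c)

theorem mem_val {m : ℕ} {c : Cell} : c ∈ val m ↔ ok c ∧ lev c = m :=
  ⟨fun h => ⟨by rw [ok, lev_of_val m c h]; exact h, lev_of_val m c h⟩, fun h => h.2 ▸ h.1⟩

noncomputable def P (e : Cell) : ℕ := (wk (val (lev e)) e).1
noncomputable def γ (e : Cell) : ℕ → Cell := (wk (val (lev e)) e).2

theorem ok_root : ok root := rfl
theorem ok_main {b : Cell} {j : ℕ} : ok (main b j) ↔ ok b ∧ ¬ isE b ∧ j < sz (lev b) := Iff.rfl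
theorem ok_path {e : Cell} {j i : ℕ} :
    ok (path e j i) ↔ ok e ∧ isE e ∧ j < sz (lev e) ∧ i ≤ P e := Iff.rfl
theorem ok_clq {b : Cell} {j j' : ℕ} :
    ok (clq b j j') ↔ ok b ∧ ¬ isE b ∧ j < sz (lev b) ∧ j' < sz (lev b) := Iff.rfl
theorem ok_int {e : Cell} {j i : ℕ} :
    ok (int e j i) ↔ ok e ∧ isE e ∧ j < sz (lev e) ∧ i < P e := Iff.rfl
theorem ok_fin {e : Cell} {j w L : ℕ} {t : Bool} :
    ok (fin e j t w L) ↔ ok e ∧ isE e ∧ j < sz (lev e) ∧ L = P e ∧
      ∃ ω, OmOk (val (lev e)) (lev e) (k e) ω ∧ w = enc ω := Iff.rfl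

theorem ok_par {c : Cell} (h : ok c) : ok (par c) := by
  cases c with
  | root => exact h
  | _ => exact h.1

theorem fin_om {Val : Set Cell} (hV : Val.Finite) (m κ : ℕ) : {ω | OmOk Val m κ ω}.Finite := by
  have h1 : (Val ×ˢ (Set.Iio (sz m))).Finite := hV.prod (finite_Iio _)
  refine (h1.toFinset.powerset.finite_toSet).subset ?_
  intro ω hω
  simp only [Finset.coe_powerset, mem_preimage, mem_powerset_iff, Finite.coe_toFinset]
  intro q hq
  exact hω.1 q hq

theorem val_finite : ∀ m, (val m).Finite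
  | 0 => finite_singleton _
  | m + 1 => by
    have h := val_finite m
    have hI := finite_Iio (sz m)
    have h1 : ((fun q : Cell × ℕ => main q.1 q.2) '' (val m ×ˢ Iio (sz m))).Finite :=
      (h.prod hI).image _
    have h2 : ((fun q : Cell × ℕ × ℕ => clq q.1 q.2.1 q.2.2) ''
        (val m ×ˢ Iio (sz m) ×ˢ Iio (sz m))).Finite := (h.prod (hI.prod hI)).image _
    have h3 : (⋃ e ∈ val m, (fun q : ℕ × ℕ => path e q.1 q.2) ''
        (Iio (sz m) ×ˢ Iic (wk (val m) e).1)).Finite :=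
      h.biUnion fun e _ => (hI.prod (finite_Iic _)).image _
    have h4 : (⋃ e ∈ val m, (fun q : ℕ × ℕ => int e q.1 q.2) ''
        (Iio (sz m) ×ˢ Iic (wk (val m) e).1)).Finite :=
      h.biUnion fun e _ => (hI.prod (finite_Iic _)).image _
    have h5 : (⋃ e ∈ val m, (fun q : ℕ × Bool × Om => fin e q.1 q.2.1 (enc q.2.2) (wk (val m) e).1) ''
        (Iio (sz m) ×ˢ univ ×ˢ {ω | OmOk (val m) m (k e) ω})).Finite :=
      h.biUnion fun e _ => (hI.prod (finite_univ.prod (fin_om h _ _))).image _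
    refine ((((h1.union h2).union h3).union h4).union h5).subset ?_
    intro c hc
    cases c <;> simp only [val, mem_ofPred_eq, step] at hc
    · rename_i b j
      exact Or.inl (Or.inl (Or.inl (Or.inl ⟨(b, j), ⟨hc.1, hc.2.2⟩, rfl⟩)))
    · rename_i e j i
      exact Or.inl (Or.inl (Or.inr (mem_biUnion hc.1 ⟨(j, i), ⟨hc.2.2.1, hc.2.2.2⟩, rfl⟩)))
    · rename_i b j j'
      exact Or.inl (Or.inl (Or.inl (Or.inr ⟨(b, j, j'), ⟨hc.1, hc.2.2.1, hc.2.2.2⟩, rfl⟩)))
    · rename_i e j i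
      exact Or.inl (Or.inr (mem_biUnion hc.1 ⟨(j, i), ⟨hc.2.2.1, hc.2.2.2.le⟩, rfl⟩))
    · rename_i e j t w L
      obtain ⟨h1, -, h2, rfl, ω, hω, rfl⟩ := hc
      exact Or.inr (mem_biUnion h1 ⟨(j, t, ω), ⟨h2, trivial, hω⟩, rfl⟩)

theorem k_pos : ∀ c, 1 ≤ k c
  | root => le_rfl
  | main _ _ => Nat.one_le_two_pow
  | path _ _ _ => Nat.one_le_two_pow
  | clq _ _ _ => Nat.one_le_two_pow
  | int e _ _ => k_pos e
  | fin e _ _ _ _ => k_pos e

theorem k_le : ∀ c, k c ≤ 2 ^ lev c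
  | root => le_rfl
  | main _ _ => le_rfl
  | path _ _ _ => le_rfl
  | clq _ _ _ => by simp only [k, lev, pow_succ]; omega
  | int e _ _ => by have := k_le e; simp only [k, lev, pow_succ]; omega
  | fin e _ _ _ _ => by have := k_le e; simp only [k, lev, pow_succ]; omega

theorem k_le_edge {e : Cell} (h : isE e) : 2 * k e ≤ 2 ^ lev e := by
  cases e <;> simp only [isE] at h
  · simp only [k, lev, pow_succ]; omega
  · rename_i e _ _; have := k_le e; simp only [k, lev, pow_succ]; omega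
  · rename_i e _ _ _ _; have := k_le e; simp only [k, lev, pow_succ]; omega

theorem k_vert {v : Cell} (h : ¬ isE v) : k v = 2 ^ lev v := by
  cases v <;> simp only [isE, not_true] at h <;> rfl

theorem fr_notMem (c : Cell) (ω : Om) : (c, fr c ω) ∉ ω := by
  have : {j | (c, j) ∉ ω}.Nonempty := by
    by_contra h
    rw [not_nonempty_iff_eq_empty] at h
    have h2 : (range (fun j : ℕ => (c, j))).Finite := ω.finite_toSet.subset (by
      rintro _ ⟨j, rfl⟩
      by_contra hj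
      have : j ∈ {j | (c, j) ∉ ω} := hj
      rw [h] at this; exact this)
    exact infinite_range_of_injective (fun i j hij => (Prod.mk.inj hij).2) h2
  exact Nat.sInf_mem this

theorem fr_le {κ : ℕ} {ω : Om} (h : Bdd κ ω) (c : Cell) : fr c ω ≤ κ := by
  refine le_trans ?_ (h c)
  have : (Finset.range (fr c ω)).image (fun j => (c, j)) ⊆ ω.filter (fun q => q.1 = c) := by
    intro q hq
    obtain ⟨j, hj, rfl⟩ := Finset.mem_image.1 hq
    refine Finset.mem_filter.2 ⟨?_, rfl⟩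
    by_contra h
    exact Nat.notMem_of_lt_sInf (Finset.mem_range.1 hj) h
  have h2 := Finset.card_le_card this
  rwa [Finset.card_image_of_injective _ (fun i j hij => (Prod.mk.inj hij).2),
    Finset.card_range] at h2

theorem Bdd.mono {κ κ' : ℕ} {ω : Om} (h : Bdd κ ω) (hk : κ ≤ κ') : Bdd κ' ω :=
  fun c => (h c).trans hk

theorem Bdd.union {κ κ' : ℕ} {ω ω' : Om} (h : Bdd κ ω) (h' : Bdd κ' ω') :
    Bdd (κ + κ') (ω ∪ ω') := by
  intro c
  rw [Finset.filter_union]
  exact (Finset.card_union_le _ _).trans (add_le_add (h c) (h' c))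

theorem bdd_single (q : Cell × ℕ) : Bdd 1 {q} := fun _ =>
  (Finset.card_filter_le _ _).trans (by simp)

theorem fr_lt {κ m : ℕ} {ω : Om} (h : Bdd κ ω) (hk : κ ≤ 2 ^ m) (c : Cell) : fr c ω < sz m := by
  have := fr_le h c; unfold sz; omega

theorem lev_a : ∀ (e : Cell) (s : Bool), lev (a e s) = lev e
  | root, _ => rfl
  | main _ _, _ => rfl
  | path _ _ _, _ => rfl
  | clq _ _ _, _ => rfl
  | int _ _ _, _ => rfl
  | fin _ _ _ _ _, true => rfl
  | fin e _ t _ _, false => by simp only [a, cond, lev, lev_a e t]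

theorem a_vert (e : Cell) (s : Bool) : ¬ isE (a e s) := by
  cases e <;> cases s <;> simp [a, isE]

theorem a_mem_lab : ∀ (e : Cell) (s : Bool), a e s ∈ lab e s
  | root, _ => rfl
  | main _ _, _ => rfl
  | path _ _ _, _ => rfl
  | clq _ _ _, _ => rfl
  | int _ _ _, _ => rfl
  | fin _ _ _ _ _, true => rfl
  | fin e _ t _ _, false => ⟨a_mem_lab e t, fr_notMem _ _⟩

theorem lab_sub_sh (e : Cell) (s : Bool) : lab e s ⊆ sh e := by
  cases s
  · exact subset_union_left
  · exact subset_union_right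

theorem ok_a : ∀ (e : Cell) (s : Bool), ok e → ok (a e s)
  | root, _, h => h
  | main _ _, _, h => h
  | path _ _ _, _, h => h
  | clq _ _ _, false, h => ⟨h.1, h.2.1, h.2.2.1⟩
  | clq _ _ _, true, h => ⟨h.1, h.2.1, h.2.2.2⟩
  | int _ _ _, false, h => ⟨h.1, h.2.1, h.2.2.1, h.2.2.2.le⟩
  | int _ _ _, true, h => ⟨h.1, h.2.1, h.2.2.1, h.2.2.2⟩
  | fin _ _ false _ _, true, h => ⟨h.1, h.2.1, h.2.2.1, Nat.zero_le _⟩
  | fin _ _ true _ _, true, h => ⟨h.1, h.2.1, h.2.2.1, h.2.2.2.1.le⟩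
  | fin e _ t _ _, false, h => by
    obtain ⟨h1, -, -, -, ω, hω, rfl⟩ := ok_fin.1 h
    refine ok_main.2 ⟨ok_a e t h1, a_vert _ _, ?_⟩
    rw [dec_enc, lev_a]
    exact fr_lt hω.2 (k_le e) _

theorem surv_mono {ω ω' : Om} (h : ω ⊆ ω') {c : Cell} (hc : surv ω' c) : surv ω c := by
  cases c <;> simp only [surv] at hc ⊢
  · exact fun h' => hc (h h')
  · exact fun h' => hc (h h')
  · exact ⟨fun h' => hc.1 (h h'), fun h' => hc.2 (h h')⟩
  · exact fun h' => hc (h h')
  · exact ⟨fun h' => hc.1 (h h'), h.trans hc.2⟩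

theorem Exp_mono {S S' : Set Cell} {ω ω' : Om} (hS : S ⊆ S') (h : ω' ⊆ ω) :
    Exp S ω ⊆ Exp S' ω' := fun _ hc => ⟨hS hc.1, surv_mono h hc.2⟩

def eR (S : Set Cell) (u v : Cell) : Prop :=
  ∃ e ∈ S, ok e ∧ isE e ∧ ∃ s, a e s = u ∧ a e (!s) = v

theorem eR.symm {S : Set Cell} {u v : Cell} (h : eR S u v) : eR S v u := by
  obtain ⟨e, h1, h2, h3, s, h4, h5⟩ := h
  exact ⟨e, h1, h2, h3, !s, h5, by rwa [Bool.not_not]⟩

theorem rtg_symm {S : Set Cell} {u v : Cell} (h : ReflTransGen (eR S) u v) :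
    ReflTransGen (eR S) v u := by
  induction h with
  | refl => rfl
  | tail _ h2 ih => exact .head h2.symm ih

structure Good (m κ : ℕ) (S : Set Cell) : Prop where
  lv : ∀ c ∈ S, lev c = m
  cl : ∀ e ∈ S, ∀ s, lab e s ⊆ S
  ty : ∀ c ∈ S, κ ≤ k c
  cn : ∀ u ∈ S, ∀ v ∈ S, ok u → ok v → ¬ isE u → ¬ isE v → ReflTransGen (eR S) u v
  ne : ∃ v ∈ S, ok v ∧ ¬ isE v

theorem good_single {v : Cell} {κ : ℕ} (h : ok v) (hv : ¬ isE v) (hk : κ ≤ 2 ^ lev v) :
    Good (lev v) κ {v} where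
  lv := by rintro _ rfl; rfl
  cl := by
    rintro w rfl s
    cases w <;> simp only [isE, not_true] at hv <;> exact subset_rfl
  ty := by rintro _ rfl; rwa [k_vert hv]
  cn := by rintro _ rfl _ rfl _ _ _ _; rfl
  ne := ⟨v, rfl, h, hv⟩

theorem Good.exp {m κ : ℕ} {S : Set Cell} (h : Good m κ S) (hk : κ ≤ 2 ^ m) {ω : Om}
    (hω : OmOk (val m) m κ ω) : Good (m + 1) κ (Exp S ω) := by
  have hfr : ∀ c ∈ S, fr c ω < sz (lev c) := fun c hc => by
    rw [h.lv c hc]; exact fr_lt hω.2 hk c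
  have hA : ∀ e ∈ S, ∀ s, a e s ∈ S := fun e he s => h.cl e he s (a_mem_lab e s)
  have hend : ∀ e ∈ S, ok e → isE e → ∀ j < sz (lev e), (e, j) ∉ ω → ∀ t,
      eR (Exp S ω) (main (a e t) (fr (a e t) ω)) (path e j (cond t (P e) 0)) := by
    intro e he h1 h2 j hj hjω t
    refine ⟨fin e j t (enc ω) (P e), ⟨he, hjω, by rw [dec_enc]⟩, ok_fin.2 ⟨h1, h2, hj, rfl, ω, ?_, rfl⟩,
      trivial, false, by simp only [a, cond, dec_enc], rfl⟩
    rw [h.lv e he]
    exact ⟨hω.1, hω.2.mono (h.ty e he)⟩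
  have hpath : ∀ e ∈ S, ok e → isE e → ∀ j < sz (lev e), (e, j) ∉ ω → ∀ i ≤ P e,
      ReflTransGen (eR (Exp S ω)) (main (a e false) (fr (a e false) ω)) (path e j i) := by
    intro e he h1 h2 j hj hjω i
    induction i with
    | zero => exact fun _ => .single (hend e he h1 h2 j hj hjω false)
    | succ i ih =>
      intro hi
      exact (ih (by omega)).tail ⟨int e j i, ⟨he, hjω⟩, ok_int.2 ⟨h1, h2, hj, hi⟩, trivial, false,
        rfl, rfl⟩
  have hlift : ∀ u v, ReflTransGen (eR S) u v →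
      ReflTransGen (eR (Exp S ω)) (main u (fr u ω)) (main v (fr v ω)) := by
    intro u v huv
    induction huv with
    | refl => rfl
    | tail _ h2 ih =>
      refine ih.trans ?_
      obtain ⟨e, he, h1, h2, s, rfl, rfl⟩ := h2
      have := (hpath e he h1 h2 _ (hfr e he) (fr_notMem e ω) _ le_rfl).tail
        (hend e he h1 h2 _ (hfr e he) (fr_notMem e ω) true).symm
      cases s
      · exact this
      · exact rtg_symm this
  have hto : ∀ z ∈ Exp S ω, ok z → ¬ isE z → ∃ b ∈ S, ok b ∧ ¬ isE b ∧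
      ReflTransGen (eR (Exp S ω)) (main b (fr b ω)) z := by
    intro z hz h1 h2
    cases z <;> simp only [isE, not_true] at h2
    · exact hz.2.elim
    · rename_i b j
      exact ⟨b, hz.1, h1.1, h1.2.1, .single ⟨clq b (fr b ω) j, ⟨hz.1, fr_notMem _ _, hz.2⟩,
        ok_clq.2 ⟨h1.1, h1.2.1, hfr b hz.1, h1.2.2⟩, trivial, false, rfl, rfl⟩⟩
    · rename_i e j i
      exact ⟨a e false, hA e hz.1 _, ok_a _ _ h1.1, a_vert _ _,
        hpath e hz.1 h1.1 h1.2.1 j h1.2.2.1 hz.2 i h1.2.2.2⟩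
  refine ⟨?_, ?_, ?_, ?_, ?_⟩
  · intro c hc
    cases c
    · exact hc.2.elim
    all_goals exact congrArg (· + 1) (h.lv _ hc.1)
  · intro e he s
    cases e with
    | clq b j j' =>
      rintro _ rfl
      cases s
      · exact ⟨he.1, he.2.1⟩
      · exact ⟨he.1, he.2.2⟩
    | int e j i => rintro _ rfl; exact ⟨he.1, he.2⟩
    | fin e j t w L =>
      cases s
      · exact Exp_mono (h.cl e he.1 t) he.2.2
      · rintro _ rfl; exact ⟨he.1, he.2.1⟩
    | _ => rintro _ rfl; exact he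
  · intro c hc
    have h1 := h.lv _ hc.1
    have h2 := h.ty _ hc.1
    cases c <;> simp only [par, k] at h1 h2 ⊢
    · exact hc.2.elim
    · rw [h1, pow_succ]; omega
    · rw [h1, pow_succ]; omega
    · rwa [h1]
    · exact h2
    · exact h2
  · intro u hu v hv h1 h2 h3 h4
    obtain ⟨b, hb, b1, b2, b3⟩ := hto u hu h1 h3
    obtain ⟨c, hc, c1, c2, c3⟩ := hto v hv h2 h4
    exact ((rtg_symm b3).trans (hlift _ _ (h.cn b hb c hc b1 c1 b2 c2))).trans c3
  · obtain ⟨v, hv, h1, h2⟩ := h.ne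
    exact ⟨main v (fr v ω), ⟨hv, fr_notMem _ _⟩, ok_main.2 ⟨h1, h2, hfr v hv⟩, fun h => h⟩

theorem good_lab : ∀ (e : Cell) (s : Bool), ok e → isE e → Good (lev e) (2 * k e) (lab e s)
  | root, _, _, h => h.elim
  | main _ _, _, _, h => h.elim
  | path _ _ _, _, _, h => h.elim
  | clq b j j', s, h, h' => good_single (ok_a _ s h) (a_vert (clq b j j') s) (k_le_edge h')
  | int e j i, s, h, h' => good_single (ok_a _ s h) (a_vert (int e j i) s) (k_le_edge h')
  | fin e j t w L, true, h, h' =>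
    good_single (ok_a _ true h) (a_vert (fin e j t w L) true) (k_le_edge h')
  | fin e j t w L, false, h, _ => by
    obtain ⟨h1, h2, -, -, ω, hω, rfl⟩ := ok_fin.1 h
    have := (good_lab e t h1 h2).exp (k_le_edge h2) (ω := ω) ⟨hω.1, hω.2.mono (by omega)⟩
    simpa only [lab, cond, dec_enc, lev, k] using this

end Pool.Agent.H71.Cook
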