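import Pool.Agent.H71.Cook2

set_option autoImplicit false

namespace Pool.Agent.H71.Cook

open Set Relation Cell

theorem wspec {e : Cell} (h : ok e) (he : isE e) : WSpec (val (lev e)) e (P e) (γ e) := by
  have hex : ∃ q : ℕ × (ℕ → Cell), WSpec (val (lev e)) e q.1 q.2 := by
    set A := {v | v ∈ sh e ∧ v ∈ val (lev e) ∧ ¬ isE v} with hA
    have hA1 : ∀ s, a e s ∈ A := fun s =>
      ⟨lab_sub_sh e s (a_mem_lab e s), mem_val.2 ⟨ok_a e s h, lev_a e s⟩, a_vert e s⟩
    have h1 : ∀ s u v, ReflTransGen (eR (lab e s)) u v →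
        ReflTransGen (fun x y => adjR (val (lev e)) x y ∧ y ∈ A) u v := by
      intro s u v huv
      have G := good_lab e s h he
      induction huv with
      | refl => rfl
      | tail _ h2 ih =>
        refine ih.tail ?_
        obtain ⟨f, hf, f1, f2, t, rfl, rfl⟩ := h2
        exact ⟨Or.inr ⟨f, mem_val.2 ⟨f1, G.lv f hf⟩, f2, t, rfl, rfl⟩,
          lab_sub_sh e s (G.cl f hf _ (a_mem_lab f _)),
          mem_val.2 ⟨ok_a f _ f1, (lev_a f _).trans (G.lv f hf)⟩, a_vert f _⟩
    have h2 : ∀ s t, ReflTransGen (fun x y => adjR (val (lev e)) x y ∧ y ∈ A) (a e s) (a e t) := by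
      intro s t
      by_cases hst : s = t
      · rw [hst]
      · have : t = !s := by cases s <;> cases t <;> simp_all
        subst this
        exact .single ⟨Or.inr ⟨e, h, he, s, rfl, rfl⟩, hA1 _⟩
    have h3 : ∀ u ∈ A, ∃ s, u ∈ lab e s := by
      rintro u ⟨hu | hu, -⟩
      · exact ⟨_, hu⟩
      · exact ⟨_, hu⟩
    obtain ⟨L, g, H⟩ := exists_wk2 (R := adjR (val (lev e))) (A := A) (fun _ => Or.inl rfl)
      ((val_finite (lev e)).subset fun v hv => hv.2.1) (by
        intro u hu v hv
        obtain ⟨s, hs⟩ := h3 u hu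
        obtain ⟨t, ht⟩ := h3 v hv
        exact ((h1 s _ _ ((good_lab e s h he).cn u hs _ (a_mem_lab e s) (mem_val.1 hu.2.1).1
          (ok_a e s h) hu.2.2 (a_vert e s))).trans (h2 s t)).trans
          (h1 t _ _ ((good_lab e t h he).cn _ (a_mem_lab e t) v ht (ok_a e t h)
            (mem_val.1 hv.2.1).1 (a_vert e t) hv.2.2))) (hA1 false) (hA1 true)
    exact ⟨(L, g), H⟩
  exact Classical.epsilon_spec hex

noncomputable def p : Cell → Cell
  | main b _ => b
  | path e _ i => γ e i
  | c => par c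

theorem a_of_vert {v : Cell} (h : ¬ isE v) (s : Bool) : a v s = v := by
  cases v <;> simp only [isE, not_true] at h <;> rfl

theorem sh_of_vert {v : Cell} (h : ¬ isE v) : sh v = {v} := by
  cases v <;> simp only [isE, not_true] at h <;> exact union_self _

theorem p_spec {z : Cell} (h : ok z) (hz : ¬ isE z) :
    p z ∈ sh (par z) ∧ ok (p z) ∧ ¬ isE (p z) ∧ lev (p z) = lev (par z) := by
  cases z <;> simp only [isE, not_true] at hz
  · exact ⟨Or.inl rfl, h, fun h => h, rfl⟩
  · exact ⟨by rw [par, sh_of_vert h.2.1]; rfl, h.1, h.2.1, rfl⟩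
  · rename_i e j i
    obtain ⟨h1, h2, h3⟩ := (wspec h.1 h.2.1).2.2.2.2.1 i h.2.2.2
    exact ⟨h1, (mem_val.1 h2).1, h3, (mem_val.1 h2).2⟩

def adj (u v : Cell) : Prop := u = v ∨ eR univ u v

theorem adj.symm {u v : Cell} (h : adj u v) : adj v u := h.imp Eq.symm eR.symm

theorem adj_of_adjR {m : ℕ} {u v : Cell} (h : adjR (val m) u v) : adj u v := by
  rcases h with h | ⟨e, h1, h2, h3⟩
  · exact Or.inl h
  · exact Or.inr ⟨e, trivial, (mem_val.1 h1).1, h2, h3⟩

theorem γ_end {e : Cell} (h : ok e) (he : isE e) (t : Bool) : γ e (cond t (P e) 0) = a e t := by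
  cases t
  · exact (wspec h he).1
  · exact (wspec h he).2.1

theorem edge_p {e : Cell} (h : ok e) (he : isE e) :
    p (a e false) = p (a e true) ∨ ∃ f j i, e = int f j i := by
  cases e <;> simp only [isE] at he
  · exact Or.inl rfl
  · exact Or.inr ⟨_, _, _, rfl⟩
  · obtain ⟨h1, h2, -, rfl, -⟩ := ok_fin.1 h
    exact Or.inl (γ_end h1 h2 _).symm

theorem adj_p {u v : Cell} (h : adj u v) : adj (p u) (p v) := by
  rcases h with rfl | ⟨e, -, h1, h2, s, rfl, rfl⟩
  · exact Or.inl rfl
  have : adj (p (a e false)) (p (a e true)) := by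
    rcases edge_p h1 h2 with h | ⟨f, j, i, rfl⟩
    · exact Or.inl h
    · exact adj_of_adjR ((wspec h1.1 h1.2.1).2.2.1 i h1.2.2.2)
  cases s
  · exact this
  · exact this.symm

theorem adj_iter {u v : Cell} (h : adj u v) : ∀ d, adj (p^[d] u) (p^[d] v)
  | 0 => h
  | d + 1 => by simp only [Function.iterate_succ_apply']; exact adj_p (adj_iter h d)

theorem uniq {z u v : Cell} (h1 : adj z u) (h2 : adj z v) (hu : p u ≠ p z) (hv : p v ≠ p z) :
    u = v := by
  have key : ∀ u, adj z u → p u ≠ p z → ∃ e j i, ok e ∧ isE e ∧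
      ((z = path e j i ∧ u = path e j (i + 1)) ∨ (z = path e j (i + 1) ∧ u = path e j i)) := by
    rintro u (rfl | ⟨e, -, e1, e2, s, rfl, rfl⟩) hu
    · exact (hu rfl).elim
    rcases edge_p e1 e2 with h | ⟨f, j, i, rfl⟩
    · cases s
      · exact (hu h.symm).elim
      · exact (hu h).elim
    · refine ⟨f, j, i, e1.1, e1.2.1, ?_⟩
      cases s
      · exact Or.inl ⟨rfl, rfl⟩
      · exact Or.inr ⟨rfl, rfl⟩
  obtain ⟨e, j, i, e1, e2, H⟩ := key u h1 hu
  obtain ⟨e', j', i', -, -, H'⟩ := key v h2 hv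
  have hd := (wspec e1 e2).2.2.2.1
  rcases H with ⟨rfl, rfl⟩ | ⟨rfl, rfl⟩ <;> rcases H' with ⟨h, rfl⟩ | ⟨h, rfl⟩ <;>
    simp only [path.injEq] at h <;> obtain ⟨rfl, rfl, h⟩ := h
  · rw [h]
  · subst h
    rcases hd i' with h | h
    · exact (hv h).elim
    · exact (hu h.symm).elim
  · subst h
    rcases hd i with h | h
    · exact (hu h).elim
    · exact (hv h.symm).elim
  · obtain rfl : i = i' := by omega
    rfl

theorem two_step {w u v : Cell} (h1 : adj w u) (h2 : adj w v) : adj (p u) (p v) := by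
  by_cases hu : p u = p w
  · rw [hu]; exact adj_p h2
  by_cases hv : p v = p w
  · rw [hv]; exact (adj_p h1).symm
  rw [uniq h1 h2 hu hv]; exact Or.inl rfl

def dom (c d : Cell) : Prop := d = c ∨ d ∈ sh c

theorem sh_sub {c d : Cell} (hc : ok c) (h : d ∈ sh c) : sh d ⊆ sh c := by
  by_cases he : isE c
  · rcases h with h | h
    · exact union_subset (((good_lab c _ hc he).cl d h _).trans subset_union_left)
        (((good_lab c _ hc he).cl d h _).trans subset_union_left)
    · exact union_subset (((good_lab c _ hc he).cl d h _).trans subset_union_right)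
        (((good_lab c _ hc he).cl d h _).trans subset_union_right)
  · rw [sh_of_vert he] at h
    obtain rfl : d = c := h
    exact subset_rfl

theorem dom.trans {c d f : Cell} (hc : ok c) (h : dom c d) (h' : dom d f) : dom c f := by
  rcases h with rfl | h
  · exact h'
  rcases h' with rfl | h'
  · exact Or.inr h
  · exact Or.inr (sh_sub hc h h')

theorem dom.par {c d : Cell} (h : dom c d) : dom (par c) (par d) := by
  rcases h with rfl | h
  · exact Or.inl rfl
  cases c with
  | fin e j t w L =>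
    rcases h with h | h
    · exact Or.inr (lab_sub_sh e t h.1)
    · obtain rfl : d = _ := h
      exact Or.inl rfl
  | _ => rcases h with h | h <;> obtain rfl : d = _ := h <;> exact Or.inl rfl

theorem dom.iter {c d : Cell} (h : dom c d) : ∀ r, dom (Cook.par^[r] c) (Cook.par^[r] d)
  | 0 => h
  | r + 1 => by simp only [Function.iterate_succ_apply']; exact (h.iter r).par

theorem dom.vert {c d : Cell} (h : dom c d) (hd : ¬ isE d) : d ∈ sh c := by
  rcases h with rfl | h
  · rw [sh_of_vert hd]; rfl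
  · exact h

theorem dom.rank {c d : Cell} (hc : ok c) (h : dom c d) (hne : d ≠ c) : k c < k d := by
  rcases h with rfl | h
  · exact (hne rfl).elim
  by_cases he : isE c
  · have := k_pos c
    rcases h with h | h
    · have := (good_lab c _ hc he).ty d h; omega
    · have := (good_lab c _ hc he).ty d h; omega
  · rw [sh_of_vert he] at h; exact (hne h).elim

theorem ok_iter {c : Cell} (h : ok c) : ∀ r, ok (par^[r] c)
  | 0 => h
  | r + 1 => by simp only [Function.iterate_succ_apply']; exact ok_par (ok_iter h r)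

theorem lev_par (c : Cell) : lev (par c) = lev c - 1 := by cases c <;> rfl

theorem lev_iter (c : Cell) : ∀ r, lev (par^[r] c) = lev c - r
  | 0 => rfl
  | r + 1 => by rw [Function.iterate_succ_apply', lev_par, lev_iter c r]; omega

def Thr (x : ℕ → Cell) : Prop :=
  ∀ n, ok (x n) ∧ ¬ isE (x n) ∧ lev (x n) = n ∧ p (x (n + 1)) = x n

theorem Thr.iter {x : ℕ → Cell} (hx : Thr x) (n : ℕ) : ∀ d, p^[d] (x (n + d)) = x n
  | 0 => rfl
  | d + 1 => by
    rw [Function.iterate_succ_apply, ← add_assoc, (hx (n + d)).2.2.2, hx.iter n d]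

def cell (x : ℕ → Cell) (m r : ℕ) : Cell := par^[r] (x (m + r))

theorem cell_succ {x : ℕ → Cell} (hx : Thr x) (m r : ℕ) : dom (cell x m (r + 1)) (cell x m r) := by
  have h := hx (m + r + 1)
  have : dom (par (x (m + r + 1))) (x (m + r)) := by
    rw [← (hx (m + r)).2.2.2]; exact Or.inr (p_spec h.1 h.2.1).1
  exact this.iter r

theorem ok_cell {x : ℕ → Cell} (hx : Thr x) (m r : ℕ) : ok (cell x m r) := ok_iter (hx _).1 r

theorem cell_dom {x : ℕ → Cell} (hx : Thr x) (m : ℕ) : ∀ r, dom (cell x m r) (x m)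
  | 0 => Or.inl rfl
  | r + 1 => (cell_succ hx m r).trans (ok_cell hx _ _) (cell_dom hx m r)

theorem cell_stab {x : ℕ → Cell} (hx : Thr x) (m : ℕ) :
    ∃ c r0, ∀ r, r0 ≤ r → cell x m r = c := by
  obtain ⟨r0, hr0⟩ : ∃ r0, ∀ r, k (cell x m r0) ≤ k (cell x m r) :=
    ⟨Function.argmin (fun r => k (cell x m r)), fun r => Function.argmin_le (fun r => k (cell x m r)) r⟩
  refine ⟨cell x m r0, r0, fun r hr => ?_⟩
  induction r, hr using Nat.le_induction with
  | base => rfl
  | succ r _ ih =>
    by_contra hne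
    have h1 := (cell_succ hx m r).rank (ok_cell hx _ _) (by rw [ih]; exact fun h => hne h.symm)
    have h2 := hr0 (r + 1)
    rw [ih] at h1
    omega

def small (d : ℕ) (c : Cell) : Prop :=
  ∀ u ∈ sh c, ∀ v ∈ sh c, ok u → ok v → ¬ isE u → ¬ isE v → adj (p^[d] u) (p^[d] v)

theorem small_succ {d : ℕ} {c : Cell} (hc : ok c) (h : small d (par c)) : small (d + 1) c := by
  have key : ∀ u ∈ sh c, ok u → ¬ isE u → p u ∈ sh (par c) := fun u hu h1 h2 =>
    ((dom.par (Or.inr hu)).trans (ok_par hc) (Or.inr (p_spec h1 h2).1)).vert (p_spec h1 h2).2.2.1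
  intro u hu v hv u1 v1 u2 v2
  simp only [Function.iterate_succ_apply]
  exact h _ (key u hu u1 u2) _ (key v hv v1 v2) (p_spec u1 u2).2.1 (p_spec v1 v2).2.1
    (p_spec u1 u2).2.2.1 (p_spec v1 v2).2.2.1

theorem small_or_fin {c : Cell} (hc : ok c) (d : ℕ) :
    small d c ∨ ∃ e j t w L, c = fin e j t w L := by
  have key : (∀ s, lab c s = {a c s}) → small d c := by
    intro h
    have h2 : ∀ s t, adj (a c s) (a c t) := by
      intro s t
      by_cases he : isE c
      · by_cases hst : s = t
        · exact Or.inl (by rw [hst])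
        · have : t = !s := by cases s <;> cases t <;> simp_all
          subst this
          exact Or.inr ⟨c, trivial, hc, he, s, rfl, rfl⟩
      · exact Or.inl (by rw [a_of_vert he, a_of_vert he])
    intro u hu v hv _ _ _ _
    simp only [sh, h] at hu hv
    rcases hu with rfl | rfl <;> rcases hv with rfl | rfl <;> exact adj_iter (h2 _ _) d
  cases c with
  | fin e j t w L => exact Or.inr ⟨_, _, _, _, _, rfl⟩
  | _ => exact Or.inl (key fun _ => rfl)

theorem exists_small {x : ℕ → Cell} (hx : Thr x) (n : ℕ) :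
    ∃ d0, ∀ d, d0 ≤ d → ∃ c r0, (∀ r, r0 ≤ r → cell x (n + d) r = c) ∧ small d c := by
  choose sc r0 hsc using cell_stab hx
  have hok : ∀ m, ok (sc m) := fun m => hsc m _ le_rfl ▸ ok_cell hx _ _
  have hpar : ∀ m, par (sc (m + 1)) = sc m := by
    intro m
    rw [← hsc (m + 1) (r0 (m + 1) + r0 m) (by omega), ← hsc m (r0 (m + 1) + r0 m + 1) (by omega)]
    simp only [cell, Function.iterate_succ_apply']
    rw [show m + 1 + (r0 (m + 1) + r0 m) = m + (r0 (m + 1) + r0 m + 1) by omega]
  have hsh : ∀ m, x m ∈ sh (sc m) := fun m =>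
    (hsc m _ le_rfl ▸ cell_dom hx m (r0 m)).vert (hx m).2.1
  suffices h : ∃ d, small d (sc (n + d)) by
    obtain ⟨d0, h⟩ := h
    refine ⟨d0, fun d hd => ⟨sc (n + d), r0 _, hsc _, ?_⟩⟩
    induction d, hd using Nat.le_induction with
    | base => exact h
    | succ d _ ih => exact small_succ (hok _) (by rw [← add_assoc, hpar]; exact ih)
  by_contra hns
  push Not at hns
  have hfin : ∀ d, ∃ e j t w L, sc (n + d) = fin e j t w L := fun d =>
    (small_or_fin (hok _) d).resolve_left (hns d)
  have hE : ∀ d, isE (sc (n + d)) := fun d => by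
    obtain ⟨e, j, t, w, L, h⟩ := hfin d; rw [h]; trivial
  have hfalse : ∀ d, ∃ j w, sc (n + (d + 1)) = fin (sc (n + d)) j false w (P (sc (n + d))) := by
    intro d
    obtain ⟨e, j, t, w, L, h⟩ := hfin (d + 1)
    have h1 := hpar (n + d)
    have h2 := hok (n + (d + 1))
    rw [add_assoc, h] at h1
    rw [h] at h2
    obtain rfl : e = sc (n + d) := h1
    obtain ⟨e1, e2, -, rfl, -⟩ := ok_fin.1 h2
    cases t
    · exact ⟨j, w, h⟩
    exfalso
    apply hns (d + 1)
    obtain ⟨e', j', t', w', L', h'⟩ := hfin d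
    have key : ∀ u ∈ sh (sc (n + (d + 1))), ok u → ¬ isE u → p u = a (sc (n + d)) true := by
      rw [h]
      rintro u (hu | hu) u1 u2
      · have h3 : par u = a (sc (n + d)) true := by
          have := hu.1
          rw [h'] at this ⊢
          exact this
        have h4 := (p_spec u1 u2).1
        rw [h3, sh_of_vert (a_vert _ _)] at h4
        exact h4
      · obtain rfl : u = _ := hu
        exact γ_end e1 e2 true
    intro u hu v hv u1 v1 u2 v2
    simp only [Function.iterate_succ_apply]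
    rw [key u hu u1 u2, key v hv v1 v2]
    exact Or.inl rfl
  have hdown : ∀ d, ∀ z ∈ lab (sc (n + d)) false, par^[d] z ∈ lab (sc n) false := by
    intro d
    induction d with
    | zero => exact fun z hz => hz
    | succ d ih =>
      intro z hz
      obtain ⟨j, w, h⟩ := hfalse d
      rw [h] at hz
      rw [Function.iterate_succ_apply]
      exact ih _ hz.1
  have hself : sc n ∈ lab (sc n) false := by
    obtain ⟨j, w, h⟩ := hfalse (r0 n)
    rcases hsh (n + (r0 n + 1)) with h1 | h1
    · have := hdown _ _ h1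
      rwa [show par^[r0 n + 1] (x (n + (r0 n + 1))) = sc n from hsc n _ (by omega)] at this
    · rw [h] at h1
      have h2 : x (n + (r0 n + 1)) = path (sc (n + r0 n)) j 0 := h1
      have h3 : x (n + r0 n) = a (sc (n + r0 n)) false := by
        rw [← (hx (n + r0 n)).2.2.2, add_assoc, h2]
        exact γ_end (hok _) (hE _) false
      have := hdown _ _ (h3 ▸ a_mem_lab (sc (n + r0 n)) false)
      rwa [show par^[r0 n] (x (n + r0 n)) = sc n from hsc n _ le_rfl] at this
  have h1 := (good_lab _ false (hok n) (hE 0)).ty _ hself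
  have h2 := k_pos (sc n)
  omega

end Pool.Agent.H71.Cook
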