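import Pool.Agent.H71.Cook3

set_option autoImplicit false

namespace Pool.Agent.H71.Cook

open Set Relation Cell

structure KSet (K : Set Cell) : Prop where
  okv : ∀ c ∈ K, ok c ∧ ¬ isE c
  pc : ∀ c ∈ K, p c ∈ K
  cn : ∀ u ∈ K, ∀ v ∈ K, lev u = lev v → ReflTransGen (fun u v => eR univ u v ∧ v ∈ K) u v

def crossed (K : Set Cell) : ℕ → Cell → Prop
  | 0, e => ∀ s, a e s ∈ K
  | r + 1, e => ∃ j < sz (lev e), (∀ i < P e, crossed K r (int e j i)) ∧
      ∀ t, ∃ ω, OmOk (val (lev e)) (lev e) (k e) ω ∧ crossed K r (fin e j t (enc ω) (P e))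

variable {K : Set Cell}

theorem crossed_mono (hK : KSet K) : ∀ r e, crossed K (r + 1) e → crossed K r e
  | 0, e, ⟨_, _, _, h⟩ => fun s => by
    obtain ⟨ω, -, h2⟩ := h s
    exact hK.pc _ (h2 false)
  | r + 1, e, ⟨j, hj, h1, h2⟩ => ⟨j, hj, fun i hi => crossed_mono hK r _ (h1 i hi), fun t => by
    obtain ⟨ω, h3, h4⟩ := h2 t
    exact ⟨ω, h3, crossed_mono hK r _ h4⟩⟩

theorem crossed_le (hK : KSet K) {r R : ℕ} (h : r ≤ R) {e : Cell} (hc : crossed K R e) :
    crossed K r e := by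
  induction R, h using Nat.le_induction with
  | base => exact hc
  | succ R _ ih => exact ih (crossed_mono hK _ _ hc)

def touched (K : Set Cell) (r : ℕ) (b : Cell) : Prop :=
  ∃ z ∈ K, par^[r] z = b ∧ lev z = lev b + r

def bdc (c d : Cell) : Prop := d = c ∨ ∃ s, d = a c s

theorem bdc.par {c d : Cell} (h : bdc c d) : bdc (par c) (par d) := by
  rcases h with rfl | ⟨s, rfl⟩
  · exact Or.inl rfl
  cases c with
  | fin e j t w L =>
    cases s
    · exact Or.inr ⟨t, rfl⟩
    · exact Or.inl rfl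
  | _ => exact Or.inl rfl

theorem bdc_iter (g : Cell) (s : Bool) : ∀ r, bdc (par^[r] g) (par^[r] (a g s))
  | 0 => Or.inr ⟨s, rfl⟩
  | r + 1 => by simp only [Function.iterate_succ_apply']; exact (bdc_iter g s r).par

theorem exit (hK : KSet K) {u v e : Cell} {r : ℕ} (hu : u ∈ K) (hv : v ∈ K) (hl : lev u = lev v)
    (hue : par^[r] u = e) (he : isE e) (hve : par^[r] v ≠ e) (hle : lev u = lev e + r) :
    ∃ s, touched K r (a e s) := by
  have key : ∀ w, ReflTransGen (fun u v => eR univ u v ∧ v ∈ K) u w →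
      lev w = lev u ∧ (par^[r] w = e ∨ ∃ s, touched K r (a e s)) := by
    intro w hw
    induction hw with
    | refl => exact ⟨rfl, Or.inl hue⟩
    | tail _ h2 ih =>
      obtain ⟨⟨g, -, -, -, s, rfl, rfl⟩, h3⟩ := h2
      have hl2 : lev (a g (!s)) = lev u := by rw [← ih.1, lev_a, lev_a]
      refine ⟨hl2, ?_⟩
      rcases ih.2 with h | h
      · have h4 : par^[r] g = e := by
          rcases bdc_iter g s r with h5 | ⟨t, h5⟩
          · rw [← h5, h]
          · rw [h] at h5; exact (a_vert _ _ (h5 ▸ he)).elim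
        rcases bdc_iter g (!s) r with h5 | ⟨t, h5⟩
        · exact Or.inl (h5.trans h4)
        · exact Or.inr ⟨t, _, h3, by rw [h5, h4], by rw [hl2, lev_a, hle]⟩
      · exact Or.inr h
  exact (key v (hK.cn u hu v hv hl)).2.resolve_left hve

def cR (K : Set Cell) (r : ℕ) (u v : Cell) : Prop :=
  ∃ e, ok e ∧ isE e ∧ crossed K r e ∧ ∃ s, a e s = u ∧ a e (!s) = v

theorem conn_up {r : ℕ} {u : Cell} {j0 : ℕ} {z : Cell}
    (h : ReflTransGen (cR K r) (main u j0) z) :
    (∃ b j, z = main b j ∧ ReflTransGen (cR K (r + 1)) u b) ∨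
    (∃ e j i, z = path e j i ∧
      ((ReflTransGen (cR K (r + 1)) u (a e false) ∧ (∃ ω, OmOk (val (lev e)) (lev e) (k e) ω ∧
        crossed K r (fin e j false (enc ω) (P e))) ∧ ∀ i' < i, crossed K r (int e j i')) ∨
      (ReflTransGen (cR K (r + 1)) u (a e true) ∧ (∃ ω, OmOk (val (lev e)) (lev e) (k e) ω ∧
        crossed K r (fin e j true (enc ω) (P e))) ∧
        ∀ i', i ≤ i' → i' < P e → crossed K r (int e j i')))) := by
  induction h with
  | refl => exact Or.inl ⟨u, j0, rfl, .refl⟩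
  | tail _ h2 ih =>
    obtain ⟨g, g1, g2, g3, s, rfl, rfl⟩ := h2
    cases g with
    | root => exact g2.elim
    | main _ _ => exact g2.elim
    | path _ _ _ => exact g2.elim
    | clq b j j' =>
      rcases ih with ⟨b', _, h, h'⟩ | ⟨_, _, _, h, -⟩
      · simp only [a, main.injEq] at h
        exact Or.inl ⟨b, _, rfl, h.1 ▸ h'⟩
      · simp [a] at h
    | int e j i =>
      rcases ih with ⟨b', _, h, -⟩ | ⟨e', j', i', h, H⟩
      · simp [a] at h
      simp only [a, path.injEq] at h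
      obtain ⟨rfl, rfl, rfl⟩ := h
      refine Or.inr ⟨e, j, _, rfl, ?_⟩
      cases s <;> simp only [cond, Bool.not_false, Bool.not_true] at H ⊢
      · rcases H with ⟨h1, h2, h3⟩ | ⟨h1, h2, h3⟩
        · refine Or.inl ⟨h1, h2, fun i' hi' => ?_⟩
          rcases Nat.lt_succ_iff_lt_or_eq.1 hi' with h | rfl
          · exact h3 _ h
          · exact g3
        · exact Or.inr ⟨h1, h2, fun i' h h' => h3 i' (by omega) h'⟩
      · rcases H with ⟨h1, h2, h3⟩ | ⟨h1, h2, h3⟩
        · exact Or.inl ⟨h1, h2, fun i' h => h3 i' (by omega)⟩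
        · refine Or.inr ⟨h1, h2, fun i' h h' => ?_⟩
          rcases h.eq_or_lt with rfl | h
          · exact g3
          · exact h3 _ h h'
    | fin e j t w L =>
      obtain ⟨e1, e2, e3, rfl, ω, hω, rfl⟩ := ok_fin.1 g1
      cases s
      · rcases ih with ⟨b', _, h, h'⟩ | ⟨_, _, _, h, -⟩
        · simp only [a, cond, main.injEq] at h
          rw [← h.1] at h'
          refine Or.inr ⟨e, j, _, rfl, ?_⟩
          cases t
          · exact Or.inl ⟨h', ⟨ω, hω, g3⟩, fun i' h => absurd h (Nat.not_lt_zero _)⟩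
          · exact Or.inr ⟨h', ⟨ω, hω, g3⟩, fun i' h h' => absurd h (not_le.2 h')⟩
        · simp [a] at h
      · rcases ih with ⟨b', _, h, -⟩ | ⟨e', j', i', h, H⟩
        · simp [a] at h
        simp only [a, cond, path.injEq] at h
        obtain ⟨rfl, rfl, rfl⟩ := h
        refine Or.inl ⟨a e t, _, rfl, ?_⟩
        cases t
        · rcases H with ⟨h1, -, -⟩ | ⟨h1, h2, h3⟩
          · exact h1
          · refine h1.tail ⟨e, e1, e2, ⟨j, e3, fun i hi => h3 i (Nat.zero_le _) hi, fun t => ?_⟩,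
              true, rfl, rfl⟩
            cases t
            · exact ⟨ω, hω, g3⟩
            · exact h2
        · rcases H with ⟨h1, h2, h3⟩ | ⟨h1, -, -⟩
          · refine h1.tail ⟨e, e1, e2, ⟨j, e3, h3, fun t => ?_⟩, false, rfl, rfl⟩
            cases t
            · exact h2
            · exact ⟨ω, hω, g3⟩
          · exact h1

theorem conn (hK : KSet K) : ∀ r u v, ¬ isE u → ¬ isE v → lev u = lev v → touched K r u →
    touched K r v → ReflTransGen (cR K r) u v
  | 0, u, v, _, _, hl, ⟨z, hz, h1, _⟩, ⟨z', hz', h1', _⟩ => by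
    obtain rfl : z = u := h1
    obtain rfl : z' = v := h1'
    have key : ∀ w, ReflTransGen (fun u v => eR univ u v ∧ v ∈ K) z w →
        w ∈ K ∧ ReflTransGen (cR K 0) z w := by
      intro w hw
      induction hw with
      | refl => exact ⟨hz, .refl⟩
      | tail _ h2 ih =>
        obtain ⟨⟨g, -, g1, g2, s, rfl, rfl⟩, h3⟩ := h2
        refine ⟨h3, ih.2.tail ⟨g, g1, g2, fun t => ?_, s, rfl, rfl⟩⟩
        by_cases hst : t = s
        · rw [hst]; exact ih.1
        · have : t = !s := by revert hst; cases s <;> cases t <;> decide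
          rw [this]; exact h3
    exact (key _ (hK.cn _ hz _ hz' hl)).2
  | r + 1, u, v, hu, hv, hl, hu', hv' => by
    by_cases huv : u = v
    · rw [huv]
    have key : ∀ u v, ¬ isE u → lev u = lev v → u ≠ v → touched K (r + 1) u →
        touched K (r + 1) v → ∃ j, touched K r (main u j) := by
      rintro u v hu hl huv ⟨z, hz, h1, h2⟩ ⟨z', hz', h1', h2'⟩
      rw [Function.iterate_succ_apply'] at h1 h1'
      have h3 := ok_iter (hK.okv z hz).1 r
      have h4 := lev_iter z r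
      generalize hc : par^[r] z = c at h1 h3 h4
      cases c with
      | root => simp only [lev] at h4; omega
      | main b j =>
        obtain rfl : b = u := h1
        exact ⟨j, z, hz, hc, by simp only [lev]; omega⟩
      | clq b j j' =>
        obtain rfl : b = u := h1
        obtain ⟨s, hs⟩ := exit hK hz hz' (by omega) hc trivial
          (fun h => huv (by rw [h] at h1'; exact h1')) (by simp only [lev]; omega)
        exact ⟨_, hs⟩
      | path b j j' => obtain rfl : b = u := h1; exact (hu h3.2.1).elim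
      | int b j j' => obtain rfl : b = u := h1; exact (hu h3.2.1).elim
      | fin b j t w L => obtain rfl : b = u := h1; exact (hu h3.2.1).elim
    obtain ⟨j, hj⟩ := key u v hu hl huv hu' hv'
    obtain ⟨j', hj'⟩ := key v u hv hl.symm (Ne.symm huv) hv' hu'
    have := conn hK r (main u j) (main v j') (fun h => h) (fun h => h)
      (by simp only [lev, hl]) hj hj'
    rcases conn_up this with ⟨b, _, h, h'⟩ | ⟨_, _, _, h, -⟩
    · simp only [main.injEq] at h
      rwa [h.1]
    · simp at h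

theorem exists_crossed (hK : KSet K) {x y : ℕ → Cell} (hx : Thr x) (hy : Thr y)
    (hxK : ∀ n, x n ∈ K) (hyK : ∀ n, y n ∈ K) {n : ℕ} (hn : ¬ adj (x n) (y n)) :
    ∃ e, ok e ∧ isE e ∧ ∀ r, crossed K r e := by
  obtain ⟨dx, hdx⟩ := exists_small hx (n + 1)
  obtain ⟨dy, hdy⟩ := exists_small hy (n + 1)
  obtain ⟨cx, rx, hcx, hsx⟩ := hdx (dx + dy) (by omega)
  obtain ⟨cy, ry, hcy, hsy⟩ := hdy (dx + dy) (by omega)
  set d := dx + dy
  set m := n + 1 + d with hm
  have hn1 : ¬ adj (x (n + 1)) (y (n + 1)) := fun h => hn (by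
    have := adj_p h
    rwa [(hx n).2.2.2, (hy n).2.2.2] at this)
  have key : ∀ (x y : ℕ → Cell) (cx cy : Cell) (R : ℕ), Thr x → Thr y → (∀ n, x n ∈ K) →
      (∀ n, y n ∈ K) → ¬ adj (x (n + 1)) (y (n + 1)) → cell x m R = cx → cell y m R = cy →
      small d cx → ∃ u, ¬ isE u ∧ lev u = m ∧ touched K R u ∧ adj (p^[d] u) (x (n + 1)) := by
    intro x y cx cy R hx hy hxK hyK hn1 hcx hcy hsx
    have h1 : x m ∈ sh cx := (hcx ▸ cell_dom hx m R).vert (hx m).2.1
    have h2 : y m ∈ sh cy := (hcy ▸ cell_dom hy m R).vert (hy m).2.1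
    have h3 : lev cx = m := by
      rw [← hcx, cell, lev_iter, (hx _).2.2.1]; omega
    have h4 : ok cx := hcx ▸ ok_cell hx m R
    by_cases he : isE cx
    · have h5 : cy ≠ cx := by
        rintro rfl
        have := hsx _ h1 _ h2 (hx m).1 (hy m).1 (hx m).2.1 (hy m).2.1
        rw [hx.iter, hy.iter] at this
        exact hn1 this
      obtain ⟨s, hs⟩ := exit hK (hxK (m + R)) (hyK (m + R))
        (by rw [(hx _).2.2.1, (hy _).2.2.1]) hcx he (by rw [← hcy] at h5; exact h5)
        (by rw [(hx _).2.2.1, h3])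
      refine ⟨_, a_vert _ _, by rw [lev_a, h3], hs, ?_⟩
      have := hsx _ (lab_sub_sh cx s (a_mem_lab cx s)) _ h1 (ok_a _ _ h4) (hx m).1 (a_vert _ _)
        (hx m).2.1
      rwa [hx.iter] at this
    · refine ⟨cx, he, h3, ⟨_, hxK (m + R), hcx, by rw [(hx _).2.2.1, h3]⟩, ?_⟩
      rw [sh_of_vert he] at h1
      obtain rfl : x m = cx := h1
      rw [hx.iter]; exact Or.inl rfl
  obtain ⟨e, he, H⟩ := pigeon (val_finite m) (fun r e => isE e ∧ crossed K r e)
    (fun r e _ h => ⟨h.1, crossed_mono hK _ _ h.2⟩) (by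
      intro r
      obtain ⟨u, u1, u2, u3, u4⟩ := key x y cx cy (r + rx + ry) hx hy hxK hyK hn1
        (hcx _ (by omega)) (hcy _ (by omega)) hsx
      obtain ⟨v, v1, v2, v3, v4⟩ := key y x cy cx (r + rx + ry) hy hx hyK hxK
        (fun h => hn1 h.symm) (hcy _ (by omega)) (hcx _ (by omega)) hsy
      have huv : u ≠ v := by
        rintro rfl
        have := two_step u4 v4
        rw [(hx n).2.2.2, (hy n).2.2.2] at this
        exact hn this
      rcases (conn hK _ u v u1 v1 (u2.trans v2.symm) u3 v3).cases_head with h | ⟨w, h, -⟩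
      · exact (huv h).elim
      · obtain ⟨e, e1, e2, e3, s, rfl, -⟩ := h
        exact ⟨e, mem_val.2 ⟨e1, (lev_a e s).symm.trans u2⟩, e2, crossed_le hK (by omega) e3⟩)
  exact ⟨e, (mem_val.1 he).1, (H 0).1, fun r => (H r).2⟩

def W (S : Set Cell) (σ : ℕ → Om) : ℕ → Set Cell
  | 0 => S
  | t + 1 => Exp (W S σ t) (σ t)

theorem crossed_step (hK : KSet K) {e : Cell} (h1 : ok e) (h2 : isE e) (h : ∀ r, crossed K r e) :
    (∀ v ∈ lab e false, ok v → ¬ isE v → v ∈ K) ∧ ∃ j ω, OmOk (val (lev e)) (lev e) (k e) ω ∧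
      ok (fin e j false (enc ω) (P e)) ∧ ∀ r, crossed K r (fin e j false (enc ω) (P e)) := by
  obtain ⟨⟨j, ω⟩, ⟨hj, hω⟩, H⟩ := pigeon
    ((finite_Iio (sz (lev e))).prod (fin_om (val_finite (lev e)) (lev e) (k e)))
    (fun r q => (∀ i < P e, crossed K 0 (int e q.1 i)) ∧
      crossed K r (fin e q.1 false (enc q.2) (P e)))
    (fun r q _ h => ⟨h.1, crossed_mono hK _ _ h.2⟩) (by
      intro r
      obtain ⟨j, hj, h3, h4⟩ := h (r + 1)
      obtain ⟨ω, h5, h6⟩ := h4 false
      exact ⟨(j, ω), ⟨hj, h5⟩, fun i hi => crossed_le hK (Nat.zero_le _) (h3 i hi), h6⟩)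
  refine ⟨?_, j, ω, hω, ok_fin.2 ⟨h1, h2, hj, rfl, ω, hω, rfl⟩, fun r => (H r).2⟩
  intro v hv v1 v2
  obtain ⟨i, hi, rfl⟩ := (wspec h1 h2).2.2.2.2.2 v ⟨Or.inl hv,
    mem_val.2 ⟨v1, (good_lab e false h1 h2).lv v hv⟩, v2⟩
  refine hK.pc (path e j i) ?_
  cases i with
  | zero => exact (H 0).2 true
  | succ i => exact (H 0).1 i hi true

theorem crossed_W (hK : KSet K) {e : Cell} (h1 : ok e) (h2 : isE e) (h : ∀ r, crossed K r e) :
    ∃ σ : ℕ → Om, (∀ t, OmOk (val (lev e + t)) (lev e + t) (k e) (σ t)) ∧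
      ∀ t, ∀ v ∈ W (lab e false) σ t, ok v → ¬ isE v → v ∈ K := by
  let Q := {e : Cell // ok e ∧ isE e ∧ ∀ r, crossed K r e}
  have hs : ∀ q : Q, ∃ (q' : Q) (ω : Om), OmOk (val (lev q.1)) (lev q.1) (k q.1) ω ∧
      lev q'.1 = lev q.1 + 1 ∧ k q'.1 = k q.1 ∧ lab q'.1 false = Exp (lab q.1 false) ω := by
    rintro ⟨e, e1, e2, e3⟩
    obtain ⟨-, j, ω, h3, h4, h5⟩ := crossed_step hK e1 e2 e3
    exact ⟨⟨_, h4, trivial, h5⟩, ω, h3, rfl, rfl, by simp only [lab, cond, dec_enc]⟩
  choose f g hfg using hs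
  let q0 : Q := ⟨e, h1, h2, h⟩
  have key : ∀ t, lev (f^[t] q0).1 = lev e + t ∧ k (f^[t] q0).1 = k e ∧
      lab (f^[t] q0).1 false = W (lab e false) (fun t => g (f^[t] q0)) t := by
    intro t
    induction t with
    | zero => exact ⟨rfl, rfl, rfl⟩
    | succ t ih =>
      rw [Function.iterate_succ_apply']
      obtain ⟨-, h3, h4, h5⟩ := hfg (f^[t] q0)
      exact ⟨by rw [h3, ih.1, add_assoc], h4.trans ih.2.1, by rw [h5, ih.2.2]; rfl⟩
  refine ⟨fun t => g (f^[t] q0), fun t => ?_, fun t => ?_⟩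
  · have := (hfg (f^[t] q0)).1
    rwa [(key t).1, (key t).2.1] at this
  · rw [← (key t).2.2]
    exact (crossed_step hK (f^[t] q0).2.1 (f^[t] q0).2.2.1 (f^[t] q0).2.2.2).1

end Pool.Agent.H71.Cook
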