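import Pool.Agent.H71.Cook4

set_option autoImplicit false

namespace Pool.Agent.H71.Cook

open Set Relation Cell Filter Topology

instance : TopologicalSpace Cell := ⊥
instance : DiscreteTopology Cell := ⟨rfl⟩

abbrev X : Type := {x : ℕ → Cell // Thr x}

theorem cont_co (n : ℕ) : Continuous (fun x : X => x.1 n) :=
  (continuous_apply n).comp continuous_subtype_val

instance : CompactSpace X := by
  refine (isCompact_iff_compactSpace (s := {x | Thr x})).1 ?_
  refine (isCompact_univ_pi fun n => (val_finite n).isCompact).of_isClosed_subset ?_ ?_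
  · have : {x | Thr x} = ⋂ n, (fun x : ℕ → Cell => (x n, x (n + 1))) ⁻¹'
        {q | ok q.1 ∧ ¬ isE q.1 ∧ lev q.1 = n ∧ p q.2 = q.1} := by
      ext x; simp [Thr]
    rw [this]
    exact isClosed_iInter fun n => (isClosed_discrete _).preimage (by fun_prop)
  · intro x hx n _
    exact mem_val.2 ⟨(hx n).1, (hx n).2.2.1⟩

def rel : Setoid X where
  r x y := ∀ n, adj (x.1 n) (y.1 n)
  iseqv := ⟨fun _ _ => Or.inl rfl, fun h n => (h n).symm, fun {x y z} h h' n => by
    have := two_step (h (n + 1)).symm (h' (n + 1))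
    rwa [(x.2 n).2.2.2, (z.2 n).2.2.2] at this⟩

theorem closed_adj (n : ℕ) : IsClosed {q : X × X | adj (q.1.1 n) (q.2.1 n)} :=
  (isClosed_discrete {q : Cell × Cell | adj q.1 q.2}).preimage
    (((cont_co n).comp continuous_fst).prodMk ((cont_co n).comp continuous_snd))

theorem rel_closed : IsClosed {q : X × X | rel q.1 q.2} := by
  have : {q : X × X | rel q.1 q.2} = ⋂ n, {q : X × X | adj (q.1.1 n) (q.2.1 n)} := by
    ext q; simp only [mem_iInter]; rfl
  rw [this]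
  exact isClosed_iInter closed_adj

abbrev M : Type := Quotient rel

def q : X → M := Quotient.mk rel

theorem q_cont : Continuous q := continuous_quotient_mk'

instance : T2Space M := quot_t2 rel rel_closed

theorem p_iter {z : Cell} (h : ok z) (hz : ¬ isE z) :
    ∀ d, ok (p^[d] z) ∧ ¬ isE (p^[d] z) ∧ lev (p^[d] z) = lev z - d
  | 0 => ⟨h, hz, rfl⟩
  | d + 1 => by
    obtain ⟨h1, h2, h3⟩ := p_iter h hz d
    rw [Function.iterate_succ_apply']
    obtain ⟨-, h4, h5, h6⟩ := p_spec h1 h2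
    exact ⟨h4, h5, by rw [h6, lev_par, h3]; omega⟩

def Wt (S : Set Cell) (σ : ℕ → Om) (m : ℕ) : Set X := {x | ∀ t, x.1 (m + t) ∈ W S σ t}

theorem Wt_closed (S : Set Cell) (σ : ℕ → Om) (m : ℕ) : IsClosed (Wt S σ m) := by
  have : Wt S σ m = ⋂ t, (fun x : X => x.1 (m + t)) ⁻¹' W S σ t := by
    ext x; simp [Wt]
  rw [this]
  exact isClosed_iInter fun t => (isClosed_discrete _).preimage (cont_co _)

section cont
variable {m κ : ℕ} {S : Set Cell} {σ : ℕ → Om} (hS : Good m κ S) (hk : κ ≤ 2 ^ m)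
  (hσ : ∀ t, OmOk (val (m + t)) (m + t) κ (σ t))
include hS hk hσ

theorem good_W : ∀ t, Good (m + t) κ (W S σ t)
  | 0 => hS
  | t + 1 => (good_W t).exp (hk.trans (Nat.pow_le_pow_right (by norm_num) (by omega))) (hσ t)

theorem W_up {t : ℕ} {v : Cell} (hv : v ∈ W S σ t) (h1 : ok v) (h2 : ¬ isE v) :
    main v (fr v (σ t)) ∈ W S σ (t + 1) ∧ ok (main v (fr v (σ t))) := by
  refine ⟨⟨hv, fr_notMem _ _⟩, ok_main.2 ⟨h1, h2, ?_⟩⟩
  rw [(good_W hS hk hσ t).lv v hv]
  exact fr_lt (hσ t).2 (hk.trans (Nat.pow_le_pow_right (by norm_num) (by omega))) _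

theorem W_down {s : ℕ} : ∀ (d : ℕ) {z : Cell}, z ∈ W S σ (s + d) → ok z → ¬ isE z →
    p^[d] z ∈ W S σ s
  | 0, _, h, _, _ => h
  | d + 1, z, h, h1, h2 => by
    rw [Function.iterate_succ_apply]
    obtain ⟨h3, h4, h5, -⟩ := p_spec h1 h2
    refine W_down d ?_ h4 h5
    rcases h3 with h3 | h3 <;> exact (good_W hS hk hσ _).cl _ h.1 _ h3

theorem exists_thread {t : ℕ} {v : Cell} (hv : v ∈ W S σ t) (h1 : ok v) (h2 : ¬ isE v) :
    ∃ x ∈ Wt S σ m, x.1 (m + t) = v := by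
  let u : Cell → Cell := fun v => main v (fr v (σ (lev v - m)))
  have hl := (good_W hS hk hσ t).lv v hv
  have hu : ∀ i, u^[i] v ∈ W S σ (t + i) ∧ ok (u^[i] v) ∧ ¬ isE (u^[i] v) := by
    intro i
    induction i with
    | zero => exact ⟨hv, h1, h2⟩
    | succ i ih =>
      rw [Function.iterate_succ_apply']
      have := W_up hS hk hσ ih.1 ih.2.1 ih.2.2
      have h3 : lev (u^[i] v) - m = t + i := by
        rw [(good_W hS hk hσ _).lv _ ih.1]; omega
      simp only [u] at h3 this ⊢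
      rw [h3]
      exact ⟨this.1, this.2, fun h => h⟩
  have hpu : ∀ n, p^[n] (u^[n] v) = v := by
    intro n
    induction n with
    | zero => rfl
    | succ n ih => rw [Function.iterate_succ_apply, Function.iterate_succ_apply']; exact ih
  refine ⟨⟨fun i => p^[m + t] (u^[i] v), fun i => ?_⟩, fun t' => ?_, hpu _⟩
  · obtain ⟨h3, h4, h5⟩ := p_iter (hu i).2.1 (hu i).2.2 (m + t)
    refine ⟨h3, h4, ?_, ?_⟩
    · rw [h5, (good_W hS hk hσ _).lv _ (hu i).1]; omega
    · show p (p^[m + t] (u^[i + 1] v)) = p^[m + t] (u^[i] v)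
      rw [← Function.iterate_succ_apply' p, Function.iterate_succ_apply p,
        Function.iterate_succ_apply' u]
      rfl
  · refine W_down hS hk hσ (m + t) ?_ (hu _).2.1 (hu _).2.2
    rw [show t' + (m + t) = t + (m + t') by omega]
    exact (hu _).1

theorem Wt_cont : IsCompact (q '' Wt S σ m) ∧ IsConnected (q '' Wt S σ m) ∧
    (q '' Wt S σ m).Nontrivial := by
  have hnt : (q '' Wt S σ m).Nontrivial := by
    obtain ⟨v, hv, v1, v2⟩ := hS.ne
    have hl := hS.lv v hv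
    have hb : Bdd (1 + κ) ({(v, fr v (σ 0))} ∪ σ 0) := (bdd_single _).union (hσ 0).2
    set j2 := fr v ({(v, fr v (σ 0))} ∪ σ 0) with hj2
    have hj := fr_notMem v ({(v, fr v (σ 0))} ∪ σ 0)
    rw [← hj2, Finset.mem_union, not_or] at hj
    have b1 := W_up hS hk hσ (t := 0) hv v1 v2
    have b2 : main v j2 ∈ W S σ 1 ∧ ok (main v j2) := ⟨⟨hv, hj.2⟩, ok_main.2 ⟨v1, v2, by
      have := fr_le hb v
      rw [hl, sz]; omega⟩⟩
    have c1 := W_up hS hk hσ b1.1 b1.2 (fun h => h)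
    have c2 := W_up hS hk hσ b2.1 b2.2 (fun h => h)
    obtain ⟨x, hx, hx'⟩ := exists_thread hS hk hσ c1.1 c1.2 (fun h => h)
    obtain ⟨y, hy, hy'⟩ := exists_thread hS hk hσ c2.1 c2.2 (fun h => h)
    refine ⟨q x, ⟨x, hx, rfl⟩, q y, ⟨y, hy, rfl⟩, fun h => ?_⟩
    have h2 : adj (x.1 (m + 2)) (y.1 (m + 2)) := Quotient.exact h (m + 2)
    rw [hx', hy'] at h2
    have h3 : fr v (σ 0) ≠ j2 := fun h => hj.1 (by rw [h]; exact Finset.mem_singleton_self _)
    rcases h2 with h2 | ⟨e, -, -, e2, s, e3, e4⟩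
    · simp only [main.injEq] at h2; exact h3 h2.1.2
    · cases e <;> simp only [isE] at e2
      · simp only [a, main.injEq] at e3 e4
        have := e3.1.symm.trans e4.1
        simp only [main.injEq] at this
        exact h3 this.2
      · simp [a] at e3
      · cases s
        · simp [a] at e4
        · simp [a] at e3
  refine ⟨(Wt_closed S σ m).isCompact.image q_cont, ⟨hnt.nonempty, ?_⟩, hnt⟩
  rw [isPreconnected_closed_iff]
  rintro F F' hF hF' hcov ⟨_, ⟨x0, hx0, rfl⟩, hx0F⟩ ⟨_, ⟨y0, hy0, rfl⟩, hy0F⟩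
  let Z : ℕ → Set (X × X) := fun t => ((Wt S σ m ∩ q ⁻¹' F) ×ˢ (Wt S σ m ∩ q ⁻¹' F')) ∩
    {w | adj (w.1.1 (m + t)) (w.2.1 (m + t))}
  have hZc : ∀ t, IsClosed (Z t) := fun t =>
    (((Wt_closed S σ m).inter (hF.preimage q_cont)).prod
      ((Wt_closed S σ m).inter (hF'.preimage q_cont))).inter (closed_adj _)
  have hZn : ∀ t, (Z t).Nonempty := by
    intro t
    have G := good_W hS hk hσ t
    have key : ∀ w, ReflTransGen (eR (W S σ t)) (x0.1 (m + t)) w →
        (Z t).Nonempty ∨ ∃ x ∈ Wt S σ m ∩ q ⁻¹' F, x.1 (m + t) = w := by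
      intro w hw
      induction hw with
      | refl => exact Or.inr ⟨x0, ⟨hx0, hx0F⟩, rfl⟩
      | tail _ h2 ih =>
        rcases ih with h | ⟨x, hx, hx'⟩
        · exact Or.inl h
        obtain ⟨e, e0, e1, e2, s, e3, rfl⟩ := h2
        obtain ⟨y, hy, hy'⟩ := exists_thread hS hk hσ (G.cl e e0 _ (a_mem_lab e (!s)))
          (ok_a e _ e1) (a_vert _ _)
        rcases hcov ⟨y, hy, rfl⟩ with h | h
        · exact Or.inr ⟨y, ⟨hy, h⟩, hy'⟩
        · refine Or.inl ⟨(x, y), ⟨hx, hy, h⟩, Or.inr ⟨e, trivial, e1, e2, s, ?_, hy'.symm⟩⟩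
          rw [e3, ← hx']
    rcases key _ (G.cn _ (hx0 t) _ (hy0 t) (x0.2 _).1 (y0.2 _).1 (x0.2 _).2.1 (y0.2 _).2.1) with
      h | ⟨x, hx, hx'⟩
    · exact h
    · exact ⟨(x, y0), ⟨hx, hy0, hy0F⟩, Or.inl hx'⟩
  obtain ⟨⟨x, y⟩, hxy⟩ := IsCompact.nonempty_iInter_of_sequence_nonempty_isCompact_isClosed Z
    (fun t w hw => ⟨hw.1, by
      have := adj_p hw.2
      rwa [← add_assoc, (w.1.2 _).2.2.2, (w.2.2 _).2.2.2] at this⟩) hZn (hZc 0).isCompact hZc
  rw [mem_iInter] at hxy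
  have hq : q x = q y := Quotient.sound (fun n => by
    have := adj_iter (hxy n).2 m
    rwa [add_comm m n, x.2.iter, y.2.iter] at this)
  exact ⟨q x, ⟨x, (hxy 0).1.1.1, rfl⟩, (hxy 0).1.1.2, hq ▸ (hxy 0).1.2.2⟩

end cont

theorem good_root : Good 0 1 {root} := good_single ok_root (fun h => h) le_rfl

theorem mem_W_root : ∀ c, ok c → c ∈ W {root} (fun _ => ∅) (lev c)
  | root, _ => rfl
  | main b _, h => ⟨mem_W_root b h.1, Finset.notMem_empty _⟩
  | path b _ _, h => ⟨mem_W_root b h.1, Finset.notMem_empty _⟩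
  | clq b _ _, h => ⟨mem_W_root b h.1, Finset.notMem_empty _, Finset.notMem_empty _⟩
  | int b _ _, h => ⟨mem_W_root b h.1, Finset.notMem_empty _⟩
  | fin b _ _ _ _, h => ⟨mem_W_root b h.1, Finset.notMem_empty _, Finset.empty_subset _⟩

theorem M_conn : IsConnected (univ : Set M) := by
  have h := (Wt_cont (σ := fun _ => ∅) good_root le_rfl
    (fun t => ⟨by simp, fun c => by simp⟩)).2.1
  have : q '' Wt {root} (fun _ => ∅) 0 = univ := by
    refine eq_univ_of_forall fun c => ?_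
    obtain ⟨x, rfl⟩ := Quotient.exists_rep c
    refine ⟨x, fun t => ?_, rfl⟩
    have := mem_W_root _ (x.2 (0 + t)).1
    rw [(x.2 _).2.2.1] at this
    rw [zero_add t] at this ⊢
    exact this
  rwa [this] at h

instance : ConnectedSpace M := connectedSpace_iff_univ.2 M_conn

theorem fiber_countable (c : M) : (q ⁻¹' {c}).Countable := by
  obtain ⟨x, rfl⟩ := Quotient.exists_rep c
  have hs : {y | rel x y ∧ y ≠ x}.Subsingleton := by
    rintro y ⟨hy, hy'⟩ z ⟨hz, hz'⟩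
    have key : ∀ y : X, y ≠ x → ∃ n0, ∀ n, n0 ≤ n → y.1 n ≠ x.1 n := by
      intro y hy
      obtain ⟨n0, h⟩ : ∃ n0, y.1 n0 ≠ x.1 n0 := by
        by_contra h
        push Not at h
        exact hy (Subtype.ext (funext h))
      refine ⟨n0, fun n hn h' => h ?_⟩
      obtain ⟨d, rfl⟩ := Nat.exists_eq_add_of_le hn
      rw [← y.2.iter n0 d, h', x.2.iter]
    obtain ⟨n1, h1⟩ := key y hy'
    obtain ⟨n2, h2⟩ := key z hz'
    refine Subtype.ext (funext fun n => ?_)
    have := uniq (hy (n + (n1 + n2) + 1)) (hz (n + (n1 + n2) + 1))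
      (by rw [(y.2 _).2.2.2, (x.2 _).2.2.2]; exact h1 _ (by omega))
      (by rw [(z.2 _).2.2.2, (x.2 _).2.2.2]; exact h2 _ (by omega))
    rw [← y.2.iter n (n1 + n2 + 1), ← z.2.iter n (n1 + n2 + 1), ← add_assoc, this]
  refine (hs.finite.insert x).countable.mono fun y hy => ?_
  by_cases h : y = x
  · exact Or.inl h
  · exact Or.inr ⟨rel.symm (Quotient.exact hy), h⟩

def mb : Cell → Cell × ℕ
  | main b j => (b, j)
  | path e j _ => (e, j)
  | c => (c, 0)

theorem avoid {C : Set M} (hC : C.Countable) :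
    ∃ K : Set M, IsCompact K ∧ IsConnected K ∧ K.Nontrivial ∧ ¬ (C ∩ K).Nonempty := by
  have h1 : (q ⁻¹' C).Countable := by
    have : q ⁻¹' C = ⋃ c ∈ C, q ⁻¹' {c} := by ext x; simp
    rw [this]; exact hC.biUnion fun c _ => fiber_countable c
  have : Nonempty X := by
    obtain ⟨c, -⟩ := M_conn.nonempty
    obtain ⟨x, -⟩ := Quotient.exists_rep c
    exact ⟨x⟩
  obtain ⟨f, hf⟩ := countable_iff_exists_subset_range.1 h1
  have key : ∀ z i, ok z → ¬ isE z → lev z = i + 1 →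
      ((mb z).1 ∈ val i ∧ (mb z).2 < sz i) ∧ ¬ surv {mb z} z := by
    intro z i h1 h2 h3
    cases z <;> simp only [isE, not_true] at h2 <;> simp only [lev] at h3
    · omega
    · obtain rfl : lev _ = i := Nat.succ.inj h3
      exact ⟨⟨h1.1, h1.2.2⟩, fun h => h (Finset.mem_singleton_self _)⟩
    · obtain rfl : lev _ = i := Nat.succ.inj h3
      exact ⟨⟨h1.1, h1.2.2.1⟩, fun h => h (Finset.mem_singleton_self _)⟩
  obtain ⟨h2, h3, h4⟩ := Wt_cont (σ := fun i => {mb ((f i).1 (i + 1))}) good_root le_rfl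
    (fun t => ⟨fun w hw => by
      rw [Finset.mem_singleton.1 hw, zero_add]
      exact (key _ t ((f t).2 _).1 ((f t).2 _).2.1 ((f t).2 _).2.2.1).1, bdd_single _⟩)
  refine ⟨_, h2, h3, h4, ?_⟩
  rintro ⟨_, hc, x, hx, rfl⟩
  obtain ⟨i, rfl⟩ := hf hc
  have := (hx (i + 1)).2
  rw [zero_add] at this
  exact (key _ i ((f i).2 _).1 ((f i).2 _).2.1 ((f i).2 _).2.2.1).2 this

theorem contains {K : Set M} (h1 : IsCompact K) (h2 : IsConnected K) (h3 : K.Nontrivial) :
    ∃ e, ok e ∧ isE e ∧ ∃ σ : ℕ → Om, (∀ t, OmOk (val (lev e + t)) (lev e + t) (k e) (σ t)) ∧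
      q '' Wt (lab e false) σ (lev e) ⊆ K := by
  let Kv : Set Cell := {c | ∃ x : X, q x ∈ K ∧ ∃ n, x.1 n = c}
  have hcl : IsClosed (q ⁻¹' K) := h1.isClosed.preimage q_cont
  have hK : KSet Kv := by
    refine ⟨?_, ?_, ?_⟩
    · rintro _ ⟨x, -, n, rfl⟩; exact ⟨(x.2 n).1, (x.2 n).2.1⟩
    · rintro _ ⟨x, hx, n, rfl⟩
      cases n with
      | zero =>
        have : x.1 0 = root := mem_val.2 ⟨(x.2 0).1, (x.2 0).2.2.1⟩
        exact ⟨x, hx, 0, by rw [this]; rfl⟩
      | succ n => exact ⟨x, hx, n, (x.2 n).2.2.2.symm⟩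
    · rintro _ ⟨x, hx, n, rfl⟩ _ ⟨y, hy, n', rfl⟩ hl
      rw [(x.2 _).2.2.1, (y.2 _).2.2.1] at hl
      subst hl
      by_contra hc
      let A : Set Cell := {w | ReflTransGen (fun u v => eR univ u v ∧ v ∈ Kv) (x.1 n) w}
      have hA : ∀ B : Set Cell, IsClosed (q '' (q ⁻¹' K ∩ (fun z : X => z.1 n) ⁻¹' B)) := fun B =>
        ((hcl.inter ((isClosed_discrete B).preimage (cont_co n))).isCompact.image q_cont).isClosed
      obtain ⟨_, -, ⟨x', hx', rfl⟩, y', hy', hq⟩ := isPreconnected_closed_iff.1 h2.2 _ _ (hA A) (hA Aᶜ)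
        (by
          intro c hc
          obtain ⟨z, rfl⟩ := Quotient.exists_rep c
          by_cases hz : z.1 n ∈ A
          · exact Or.inl ⟨z, ⟨hc, hz⟩, rfl⟩
          · exact Or.inr ⟨z, ⟨hc, hz⟩, rfl⟩)
        ⟨q x, hx, x, ⟨hx, ReflTransGen.refl⟩, rfl⟩ ⟨q y, hy, y, ⟨hy, hc⟩, rfl⟩
      apply hy'.2
      rcases (Quotient.exact hq n).symm with h | h
      · show y'.1 n ∈ A
        rw [← h]; exact hx'.2
      · exact ReflTransGen.tail hx'.2 ⟨h, y', hy'.1, n, rfl⟩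
  obtain ⟨c, hc, c', hc', hne⟩ := h3
  obtain ⟨x, rfl⟩ := Quotient.exists_rep c
  obtain ⟨y, rfl⟩ := Quotient.exists_rep c'
  obtain ⟨n, hn⟩ : ∃ n, ¬ adj (x.1 n) (y.1 n) := by
    by_contra h
    push Not at h
    exact hne (Quotient.sound h)
  obtain ⟨e, e1, e2, e3⟩ := exists_crossed hK x.2 y.2 (fun n => ⟨x, hc, n, rfl⟩)
    (fun n => ⟨y, hc', n, rfl⟩) hn
  obtain ⟨σ, hσ, hW⟩ := crossed_W hK e1 e2 e3
  refine ⟨e, e1, e2, σ, hσ, ?_⟩
  rintro _ ⟨z, hz, rfl⟩
  have : ∀ t, ∃ w : X, q w ∈ K ∧ w.1 (lev e + t) = z.1 (lev e + t) := by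
    intro t
    obtain ⟨w, hw, n, hn⟩ := hW t _ (hz t) (z.2 _).1 (z.2 _).2.1
    have h4 := congrArg lev hn
    rw [(w.2 _).2.2.1, (z.2 _).2.2.1] at h4
    subst h4
    exact ⟨w, hw, hn⟩
  choose w hw hw' using this
  show z ∈ q ⁻¹' K
  refine hcl.mem_of_tendsto (f := w) (b := atTop) ?_ (Eventually.of_forall hw)
  rw [tendsto_subtype_rng, tendsto_pi_nhds]
  intro i
  refine tendsto_const_nhds.congr' ?_
  filter_upwards [eventually_ge_atTop i] with t ht
  obtain ⟨d, hd⟩ : ∃ d, lev e + t = i + d := ⟨lev e + t - i, by omega⟩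
  rw [← z.2.iter i d, ← (w t).2.iter i d, ← hd, hw']

theorem W_mono (S : Set Cell) {σ τ : ℕ → Om} (h : ∀ t, σ t ⊆ τ t) : ∀ t, W S τ t ⊆ W S σ t
  | 0 => subset_rfl
  | t + 1 => Exp_mono (W_mono S h t) (h t)

theorem propU (G : Set (Set M)) (hG : ¬ G.Countable)
    (h : ∀ K ∈ G, IsCompact K ∧ IsConnected K ∧ K.Nontrivial) :
    ∃ A ∈ G, ∃ B ∈ G, A ≠ B ∧
      ∃ C : Set M, C ⊆ A ∩ B ∧ IsCompact C ∧ IsConnected C ∧ C.Nontrivial := by
  have : Nonempty Cell := ⟨root⟩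
  choose! e he using fun K hK => contains (h K hK).1 (h K hK).2.1 (h K hK).2.2
  have : ¬ InjOn e G := fun hi => hG (countable_of_injective_of_countable_image hi (to_countable _))
  simp only [InjOn, not_forall] at this
  obtain ⟨A, hA, B, hB, hAB, hne⟩ := this
  obtain ⟨e1, e2, σ, hσ, hσ'⟩ := he A hA
  obtain ⟨-, -, τ, hτ, hτ'⟩ := he B hB
  rw [← hAB] at hτ hτ'
  refine ⟨A, hA, B, hB, hne, q '' Wt (lab (e A) false) (fun t => σ t ∪ τ t) (lev (e A)), ?_,
    Wt_cont (good_lab _ false e1 e2) (k_le_edge e2) fun t => ⟨fun w hw => ?_, ?_⟩⟩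
  · refine subset_inter (Subset.trans (image_mono ?_) hσ')
      (Subset.trans (image_mono ?_) hτ') <;> intro x hx t
    · exact W_mono _ (fun t => Finset.subset_union_left) t (hx t)
    · exact W_mono _ (fun t => Finset.subset_union_right) t (hx t)
  · rcases Finset.mem_union.1 hw with hw | hw
    · exact (hσ t).1 w hw
    · exact (hτ t).1 w hw
  · rw [two_mul]; exact (hσ t).2.union (hτ t).2

instance : SecondCountableTopology Cell := DiscreteTopology.secondCountableTopology_of_countable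

instance : SecondCountableTopology X :=
  TopologicalSpace.Subtype.secondCountableTopology {x | Thr x}

theorem M_metr : TopologicalSpace.MetrizableSpace M := quot_metrizable rel rel_closed

end Pool.Agent.H71.Cook
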