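import Mathlib

/-! A generic pairing with infinitely many independent separating subspaces: back and forth. -/

namespace Pool.Agent.H71.Cos

open Function

abbrev F := ZMod 2
abbrev V := ℕ × ℕ →₀ F
abbrev D := ℕ →₀ F
abbrev A := D →ₗ[F] F

lemma solve {X Y : Type} [AddCommGroup X] [Module F X] [AddCommGroup Y] [Module F Y] [Finite X]
    [Infinite Y] (B : X →ₗ[F] Y →ₗ[F] F) (hB : Injective B) (φ : X →ₗ[F] F) {T : Set Y}
    (hT : T.Finite) : ∃ y ∉ T, ∀ x, B x y = φ x := by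
  have : Module.Finite F X := Module.Finite.of_finite
  have : Finite (X →ₗ[F] F) := Module.finite_of_finite F
  obtain ⟨y0, h0⟩ := LinearMap.flip_surjective_iff₁.2 hB φ
  obtain ⟨a, ha⟩ := Finite.exists_infinite_fiber B.flip
  have ha := Set.infinite_coe_iff.1 ha
  obtain ⟨y1, h1⟩ := ha.nonempty
  obtain ⟨_, ⟨y, hy, rfl⟩, h2⟩ := (ha.image (f := fun y => y - y1 + y0)
    fun _ _ _ _ h => by simpa using h).exists_notMem_finite hT
  refine ⟨_, h2, fun x => ?_⟩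
  have : B.flip (y - y1 + y0) = φ := by
    rw [map_add, map_sub, show B.flip y = a from hy, show B.flip y1 = a from h1, h0]; simp
  exact LinearMap.congr_fun this x

/-- the embedding of `V` in the dual of `D` -/
noncomputable def ι : V →ₗ[F] A := Finsupp.linearCombination F fun p =>
  Finsupp.linearCombination F fun k =>
    if k = p.2 ∨ (p.2 < k ∧ k.unpair.1 = Nat.pair p.1 p.2) then 1 else 0

/-- the base point -/
noncomputable def e : A := Finsupp.linearCombination F fun _ => 1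

lemma ι_ev (x : V) (p : ℕ × ℕ) : ∃ k, ι x (Finsupp.single k 1) = x p := by
  classical
  obtain ⟨N, hN⟩ := ((insert p x.support).image Prod.snd).bddAbove
  refine ⟨Nat.pair (Nat.pair p.1 p.2) (N + 1), ?_⟩
  rw [ι, Finsupp.linearCombination_apply, Finsupp.sum_of_support_subset _
    (Finset.subset_insert p _) _ (by simp), LinearMap.sum_apply, Finset.sum_eq_single_of_mem p
    (by simp)]
  · have := hN (Finset.mem_image_of_mem _ (Finset.mem_insert_self _ _))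
    have := Nat.right_le_pair (Nat.pair p.1 p.2) (N + 1)
    simp only [LinearMap.smul_apply, Finsupp.linearCombination_single, Nat.unpair_pair]
    rw [if_pos (Or.inr ⟨by omega, trivial⟩)]; simp
  · intro q hq hne
    have := hN (Finset.mem_image_of_mem _ hq)
    have := Nat.right_le_pair (Nat.pair p.1 p.2) (N + 1)
    simp only [LinearMap.smul_apply, Finsupp.linearCombination_single, Nat.unpair_pair]
    rw [if_neg]; · simp
    rintro (h | ⟨-, h⟩)
    · omega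
    · exact hne (Prod.ext (Nat.pair_eq_pair.1 h).1.symm (Nat.pair_eq_pair.1 h).2.symm)

lemma ι_inj : Injective ι := (injective_iff_map_eq_zero _).2 fun x hx => Finsupp.ext fun p => by
  obtain ⟨k, hk⟩ := ι_ev x p
  rw [← hk, hx]; rfl

lemma e_ne (x : V) : ι x ≠ e := fun h => by
  obtain ⟨p, hp⟩ := Infinite.exists_notMem_finset x.support
  obtain ⟨k, hk⟩ := ι_ev x p
  rw [h, Finsupp.notMem_support_iff.1 hp] at hk
  simp [e] at hk

lemma ι_sep {d : D} (hd : d ≠ 0) (i : ℕ) : ∃ n, ι (Finsupp.single (i, n) 1) d ≠ 0 := by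
  have ne := Finsupp.support_nonempty_iff.2 hd
  refine ⟨d.support.max' ne, ?_⟩
  rw [ι, Finsupp.linearCombination_single, one_smul, Finsupp.linearCombination_apply, Finsupp.sum,
    Finset.sum_eq_single_of_mem _ (d.support.max'_mem ne)]
  · simpa using Finsupp.mem_support_iff.1 (d.support.max'_mem ne)
  · intro k hk hne
    have := d.support.le_max' k hk
    rw [if_neg]; · simp
    rintro (h | ⟨h, -⟩)
    · exact hne h
    · exact absurd h (not_lt.2 this)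

/-- the homogeneous components -/
def M (i : ℕ) : Submodule F V := Finsupp.supported F F {p | p.1 = i}

/-- projections -/
noncomputable def π (i : ℕ) (x : V) : V := x.filter (·.1 = i)

lemma π_add (i : ℕ) (x y : V) : π i (x + y) = π i x + π i y := Finsupp.filter_add

lemma π_of {i : ℕ} {x : V} (hx : x ∈ M i) (j : ℕ) : π j x = if j = i then x else 0 := by
  ext p
  have := (Finsupp.mem_supported' _ _).1 hx p
  rw [π, Finsupp.filter_apply]
  split_ifs with h1 h2 h2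
  · rfl
  · exact this fun h => h2 (h1.symm.trans h)
  · exact (this fun h => h1 (h.trans h2.symm)).symm
  · rfl

lemma mem_M {i : ℕ} {x : V} (h : ∀ j, j ≠ i → π j x = 0) : x ∈ M i :=
  (Finsupp.mem_supported' _ _).2 fun p hp => by
    simpa [π] using DFunLike.congr_fun (h p.1 hp) p

lemma single_mem (i n : ℕ) : Finsupp.single (i, n) (1 : F) ∈ M i :=
  Finsupp.single_mem_supported _ _ rfl

instance (i : ℕ) : Infinite (M i) := Infinite.of_injective (fun n => ⟨_, single_mem i n⟩)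
  fun a b h => by simpa [Finsupp.single_left_inj] using congrArg Subtype.val h

lemma two (c : F) : c = 0 ∨ c = 1 := by revert c; decide

lemma mem_ext {X : Type} [AddCommGroup X] [Module F X] {S : Submodule F X} {z q : X}
    (h : q ∈ S ⊔ F ∙ z) : q ∈ S ∨ ∃ s ∈ S, q = s + z := by
  obtain ⟨s, hs, _, h', rfl⟩ := Submodule.mem_sup.1 h
  obtain ⟨c, rfl⟩ := Submodule.mem_span_singleton.1 h'
  rcases two c with rfl | rfl
  · exact Or.inl (by simpa using hs)
  · exact Or.inr ⟨s, hs, by simp⟩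

lemma fin_ext {X : Type} [AddCommGroup X] [Module F X] {S : Submodule F X}
    (h : (S : Set X).Finite) (z : X) : ((S ⊔ F ∙ z : Submodule F X) : Set X).Finite :=
  (h.union (h.image (· + z))).subset fun _ hq => (mem_ext hq).imp id fun ⟨s, a, b⟩ => ⟨s, a, b.symm⟩

lemma inj_ext {X : Type} [AddCommGroup X] [Module F X] {S : Submodule F (X × X)}
    (h : ∀ p ∈ S, p.1 = 0 ↔ p.2 = 0) {z : X × X} (h1 : ∀ y, (z.1, y) ∉ S) (h2 : ∀ y, (y, z.2) ∉ S) :
    ∀ p ∈ S ⊔ F ∙ z, p.1 = 0 ↔ p.2 = 0 := fun p hp => by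
  rcases mem_ext hp with hp | ⟨s, hs, rfl⟩
  · exact h p hp
  · refine iff_of_false (fun e => h1 (-s.2) ?_) fun e => h2 (-s.1) ?_
    · rw [← neg_eq_of_add_eq_zero_right e]; exact neg_mem hs
    · rw [← neg_eq_of_add_eq_zero_right e]; exact neg_mem hs

/-- finite partial isomorphisms -/
structure PI where
  R : Submodule F (D × D)
  S : Submodule F (A × A)
  fR : (R : Set (D × D)).Finite
  fS : (S : Set (A × A)).Finite
  iR : ∀ p ∈ R, p.1 = 0 ↔ p.2 = 0
  iS : ∀ p ∈ S, p.1 = 0 ↔ p.2 = 0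
  pair : ∀ p ∈ R, ∀ q ∈ S, q.1 p.1 = q.2 p.2
  gr : ∀ x y, (ι x, y) ∈ S → ∃ x', y = ι x' ∧ ∀ i, (ι (π i x), ι (π i x')) ∈ S
  gr' : ∀ x y, (y, ι x) ∈ S → ∃ x', y = ι x' ∧ ∀ i, (ι (π i x'), ι (π i x)) ∈ S

instance : Preorder PI where
  le P Q := P.R ≤ Q.R ∧ P.S ≤ Q.S
  le_refl _ := ⟨le_rfl, le_rfl⟩
  le_trans _ _ _ h h' := ⟨h.1.trans h'.1, h.2.trans h'.2⟩

/-- the inverse partial isomorphism -/
noncomputable def PI.swap (P : PI) : PI where
  R := P.R.comap (LinearEquiv.prodComm F D D : D × D →ₗ[F] D × D)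
  S := P.S.comap (LinearEquiv.prodComm F A A : A × A →ₗ[F] A × A)
  fR := (P.fR.preimage Prod.swap_injective.injOn :)
  fS := (P.fS.preimage Prod.swap_injective.injOn :)
  iR _ hp := (P.iR _ hp).symm
  iS _ hp := (P.iS _ hp).symm
  pair _ hp _ hq := (P.pair _ hp _ hq).symm
  gr := P.gr'
  gr' := P.gr

lemma PI.back {P Q : PI} (h : P.swap ≤ Q) : P ≤ Q.swap :=
  ⟨fun p hp => h.1 (show p.swap ∈ P.swap.R from hp), fun p hp => h.2 (show p.swap ∈ P.swap.S from hp)⟩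

lemma PI.extD (P : PI) {z : D × D} (h1 : ∀ y, (z.1, y) ∉ P.R) (h2 : ∀ y, (y, z.2) ∉ P.R)
    (h3 : ∀ q ∈ P.S, q.1 z.1 = q.2 z.2) : ∃ Q : PI, Q.R = P.R ⊔ F ∙ z ∧ Q.S = P.S :=
  ⟨{ P with
    R := P.R ⊔ F ∙ z
    fR := fin_ext P.fR z
    iR := inj_ext P.iR h1 h2
    pair := fun p hp q hq => by
      rcases mem_ext hp with hp | ⟨s, hs, rfl⟩
      · exact P.pair p hp q hq
      · simp [P.pair s hs q hq, h3 q hq] }, rfl, rfl⟩

lemma PI.extS (P : PI) {z : A × A} (h1 : ∀ y, (z.1, y) ∉ P.S) (h2 : ∀ y, (y, z.2) ∉ P.S)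
    (h3 : ∀ p ∈ P.R, z.1 p.1 = z.2 p.2)
    (h4 : (∃ i, ∃ m ∈ M i, ∃ m' ∈ M i, z = (ι m, ι m')) ∨
      ∀ s ∈ P.S, ∀ x, s.1 + z.1 ≠ ι x ∧ s.2 + z.2 ≠ ι x) :
    ∃ Q : PI, Q.R = P.R ∧ Q.S = P.S ⊔ F ∙ z := by
  have mz : z ∈ P.S ⊔ F ∙ z := Submodule.mem_sup_right (Submodule.mem_span_singleton_self z)
  have key : ∀ i, ∀ m ∈ M i, ∀ m' ∈ M i, z = (ι m, ι m') → ∀ x x' : V,
      (∀ j, (ι (π j x), ι (π j x')) ∈ P.S) →
      ∀ j, (ι (π j (x + m)), ι (π j (x' + m'))) ∈ P.S ⊔ F ∙ z := fun i m hm m' hm' e x x' h j => by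
    rw [π_add, π_add, π_of hm, π_of hm', map_add, map_add]
    split_ifs
    · rw [e] at mz ⊢
      exact add_mem (Submodule.mem_sup_left (h j)) mz
    · simpa using Submodule.mem_sup_left (h j)
  refine ⟨{ P with
    S := P.S ⊔ F ∙ z
    fS := fin_ext P.fS z
    iS := inj_ext P.iS h1 h2
    pair := fun p hp q hq => ?_
    gr := fun x y hq => ?_
    gr' := fun x y hq => ?_ }, rfl, rfl⟩
  · rcases mem_ext hq with hq | ⟨s, hs, rfl⟩
    · exact P.pair p hp q hq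
    · simp [P.pair p hp s hs, h3 p hp]
  · rcases mem_ext hq with hq | ⟨s, hs, e⟩
    · exact (P.gr x y hq).imp fun _ h => ⟨h.1, fun i => Submodule.mem_sup_left (h.2 i)⟩
    · rcases h4 with ⟨i, m, hm, m', hm', rfl⟩ | h4
      · obtain ⟨e1, e2⟩ := Prod.ext_iff.1 e
        obtain ⟨x', a, b⟩ := P.gr (x - m) s.2 (by
          rw [map_sub, show ι x = s.1 + ι m from e1, add_sub_cancel_right]; exact hs)
        exact ⟨x' + m', by rw [map_add, ← a]; exact e2, by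
          simpa using key i m hm m' hm' rfl _ _ b⟩
      · exact absurd (congrArg Prod.fst e).symm (h4 s hs x).1
  · rcases mem_ext hq with hq | ⟨s, hs, e⟩
    · exact (P.gr' x y hq).imp fun _ h => ⟨h.1, fun i => Submodule.mem_sup_left (h.2 i)⟩
    · rcases h4 with ⟨i, m, hm, m', hm', rfl⟩ | h4
      · obtain ⟨e1, e2⟩ := Prod.ext_iff.1 e
        obtain ⟨x', a, b⟩ := P.gr' (x - m') s.1 (by
          rw [map_sub, show ι x = s.2 + ι m' from e2, add_sub_cancel_right]; exact hs)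
        exact ⟨x' + m, by rw [map_add, ← a]; exact e1, by
          simpa using key i m hm m' hm' rfl _ _ b⟩
      · exact absurd (congrArg Prod.snd e).symm (h4 s hs x).2

lemma PI.forthD (P : PI) (d : D) : ∃ Q, P ≤ Q ∧ ∃ d', (d, d') ∈ Q.R := by
  by_cases h : ∃ d', (d, d') ∈ P.R
  · exact ⟨P, le_rfl, h⟩
  have := P.fS.to_subtype
  obtain ⟨d', h1, h2⟩ := solve (X := P.S) (Y := D) ((LinearMap.snd F A A) ∘ₗ P.S.subtype)
    ((injective_iff_map_eq_zero _).2 fun q hq => by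
      exact Subtype.ext (Prod.ext ((P.iS _ q.2).2 hq) hq))
    (LinearMap.flip ((LinearMap.fst F A A) ∘ₗ P.S.subtype) d) (P.fR.image Prod.snd)
  obtain ⟨Q, e1, e2⟩ := P.extD (z := (d, d')) (not_exists.1 h) (fun y hy => h1 ⟨_, hy, rfl⟩)
    fun q hq => (h2 ⟨q, hq⟩).symm
  exact ⟨Q, ⟨e1 ▸ le_sup_left, e2.ge⟩, d', e1 ▸
    Submodule.mem_sup_right (Submodule.mem_span_singleton_self _)⟩

lemma PI.forthM (P : PI) (i : ℕ) (m : M i) : ∃ Q, P ≤ Q ∧ ∃ m' ∈ M i, (ι m, ι m') ∈ Q.S := by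
  by_cases h : ∃ y, (ι m, y) ∈ P.S
  · obtain ⟨y, hy⟩ := h
    obtain ⟨x', rfl, h⟩ := P.gr _ _ hy
    refine ⟨P, le_rfl, x', mem_M fun j hj => ι_inj ?_, hy⟩
    rw [map_zero]
    exact (P.iS _ (h j)).1 (by rw [π_of m.2, if_neg hj, map_zero])
  have := P.fR.to_subtype
  obtain ⟨m', h1, h2⟩ := solve (X := P.R) (Y := M i)
    ((ι.comp (M i).subtype).flip.comp ((LinearMap.snd F D D).comp P.R.subtype))
    ((injective_iff_map_eq_zero _).2 fun q hq => by
      have : q.1.2 = 0 := by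
        by_contra hne
        obtain ⟨n, hn⟩ := ι_sep hne i
        exact hn (LinearMap.congr_fun hq ⟨_, single_mem i n⟩)
      exact Subtype.ext (Prod.ext ((P.iR _ q.2).2 this) this))
    ((ι m).comp ((LinearMap.fst F D D).comp P.R.subtype))
    ((P.fS.image Prod.snd).preimage (f := fun y : M i => ι y)
      (ι_inj.comp Subtype.val_injective).injOn)
  obtain ⟨Q, e1, e2⟩ := P.extS (z := (ι m, ι m')) (not_exists.1 h) (fun y hy => h1 ⟨_, hy, rfl⟩)
    (fun q hq => (h2 ⟨q, hq⟩).symm) (Or.inl ⟨i, m, m.2, m', m'.2, rfl⟩)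
  exact ⟨Q, ⟨e1.ge, e2 ▸ le_sup_left⟩, m', m'.2, e2 ▸
    Submodule.mem_sup_right (Submodule.mem_span_singleton_self _)⟩

theorem PI.bf (P : PI) : ∃ (β : Equiv.Perm D) (α : Equiv.Perm V),
    (∀ a b, β (a + b) = β a + β b) ∧ (∀ x d, ι (α x) (β d) = ι x d) ∧
    (∀ i x, α x ∈ M i ↔ x ∈ M i) ∧ (∀ p ∈ P.R, β p.1 = p.2) ∧
    ∀ q ∈ P.S, ∀ d, q.2 (β d) = q.1 d := by
  let 𝒟 : (D ⊕ D) ⊕ ((Σ i, M i) ⊕ (Σ i, M i)) → Order.Cofinal PI := fun t => match t with
    | .inl (.inl d) => ⟨{Q | ∃ d', (d, d') ∈ Q.R}, fun P => by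
        obtain ⟨Q, a, b⟩ := P.forthD d; exact ⟨Q, b, a⟩⟩
    | .inl (.inr d) => ⟨{Q | ∃ d', (d', d) ∈ Q.R}, fun P => by
        obtain ⟨Q, a, b⟩ := P.swap.forthD d; exact ⟨Q.swap, b, PI.back a⟩⟩
    | .inr (.inl m) => ⟨{Q | ∃ m' ∈ M m.1, (ι m.2, ι m') ∈ Q.S}, fun P => by
        obtain ⟨Q, a, b⟩ := P.forthM _ m.2; exact ⟨Q, b, a⟩⟩
    | .inr (.inr m) => ⟨{Q | ∃ m' ∈ M m.1, (ι m', ι m.2) ∈ Q.S}, fun P => by
        obtain ⟨Q, a, b⟩ := P.swap.forthM _ m.2; exact ⟨Q.swap, b, PI.back a⟩⟩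
  let := Encodable.ofCountable ((D ⊕ D) ⊕ ((Σ i, M i) ⊕ (Σ i, M i)))
  let Q := Order.sequenceOfCofinals P 𝒟
  have mono : Monotone Q := Order.sequenceOfCofinals.monotone P 𝒟
  have hQ : ∀ t, ∃ n, Q n ∈ 𝒟 t := fun t => ⟨_, Order.sequenceOfCofinals.encode_mem P 𝒟 t⟩
  have up : ∀ {p p' a b}, p ∈ (Q a).R → p' ∈ (Q b).R → p ∈ (Q (max a b)).R ∧ p' ∈ (Q (max a b)).R :=
    fun h h' => ⟨(mono (le_max_left _ _)).1 h, (mono (le_max_right _ _)).1 h'⟩
  choose n b hb using fun d => hQ (.inl (.inl d))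
  have uq : ∀ {p k}, p ∈ (Q k).R → b p.1 = p.2 := fun {p k} hp => by
    obtain ⟨h1, h2⟩ := up hp (hb p.1)
    exact (sub_eq_zero.1 (((Q _).iR _ (sub_mem h1 h2)).1 (sub_self _))).symm
  have badd : ∀ x y, b (x + y) = b x + b y := fun x y => by
    obtain ⟨h1, h2⟩ := up (hb x) (hb y)
    exact uq (add_mem h1 h2)
  have bij : Bijective b := ⟨fun x y h => by
    obtain ⟨h1, h2⟩ := up (hb x) (hb y)
    exact sub_eq_zero.1 (((Q _).iR _ (sub_mem h1 h2)).2 (sub_eq_zero.2 h)), fun d => by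
    obtain ⟨k, d', h⟩ := hQ (.inl (.inr d))
    exact ⟨d', uq h⟩⟩
  have pr : ∀ {q k}, q ∈ (Q k).S → ∀ d, q.2 (b d) = q.1 d := fun {q k} hq d =>
    ((Q (max k (n d))).pair _ ((mono (le_max_right _ _)).1 (hb d)) _
      ((mono (le_max_left _ _)).2 hq)).symm
  have f1 : ∀ i, ∀ m ∈ M i, ∃ m' ∈ M i, ∀ d, ι m' (b d) = ι m d := fun i m hm => by
    obtain ⟨k, m', h1, h2⟩ := hQ (.inr (.inl ⟨i, m, hm⟩))
    exact ⟨m', h1, pr h2⟩
  have f2 : ∀ i, ∀ m ∈ M i, ∃ m' ∈ M i, ∀ d, ι m (b d) = ι m' d := fun i m hm => by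
    obtain ⟨k, m', h1, h2⟩ := hQ (.inr (.inr ⟨i, m, hm⟩))
    exact ⟨m', h1, pr h2⟩
  have g1 : ∀ x, ∃ x', ∀ d, ι x' (b d) = ι x d := fun x => by
    induction x using Finsupp.induction_linear with
    | zero => exact ⟨0, by simp⟩
    | add x y hx hy => exact ⟨hx.choose + hy.choose, by simp [hx.choose_spec, hy.choose_spec]⟩
    | single p c => exact (f1 p.1 _ (Finsupp.single_mem_supported _ _ rfl)).imp fun _ h => h.2
  have g2 : ∀ x, ∃ x', ∀ d, ι x (b d) = ι x' d := fun x => by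
    induction x using Finsupp.induction_linear with
    | zero => exact ⟨0, by simp⟩
    | add x y hx hy => exact ⟨hx.choose + hy.choose, by simp [← hx.choose_spec, ← hy.choose_spec]⟩
    | single p c => exact (f2 p.1 _ (Finsupp.single_mem_supported _ _ rfl)).imp fun _ h => h.2
  choose a ha using g1
  have u1 : ∀ {x x'}, (∀ d, ι x' (b d) = ι x d) → a x = x' := fun h => ι_inj (LinearMap.ext
    fun d => by obtain ⟨d, rfl⟩ := bij.2 d; rw [ha, h])
  have ai : Injective a := fun x y h => ι_inj (LinearMap.ext fun d => by rw [← ha, h, ha])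
  refine ⟨.ofBijective b bij, .ofBijective a ⟨ai, fun x => (g2 x).imp fun _ h => u1 h⟩, badd, ha,
    fun i x => ⟨fun h => ?_, fun h => ?_⟩, fun p hp => uq (k := 0) hp, fun q hq => pr (k := 0) hq⟩
  · obtain ⟨m, h1, h2⟩ := f2 i _ h
    exact ai (u1 h2) ▸ h1
  · obtain ⟨m, h1, h2⟩ := f1 i _ h
    exact (u1 h2).symm ▸ h1 |> fun h : a x ∈ M i => h

/-- the identity on finite coordinate subspaces -/
noncomputable def diag (n : ℕ) : PI where
  R := (Finsupp.supported F F (Set.Iio n)).map (LinearMap.id.prod LinearMap.id)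
  S := (Finsupp.supported F F (Set.Iio n ×ˢ Set.Iio n)).map (ι.prod ι)
  fR := by
    have := (Set.finite_Iio n).to_subtype
    exact Set.Finite.image _ (Finite.of_equiv _
      (Finsupp.supportedEquivFinsupp (M := F) (R := F) (Set.Iio n)).symm.toEquiv)
  fS := by
    have := ((Set.finite_Iio n).prod (Set.finite_Iio n)).to_subtype
    exact Set.Finite.image _ (Finite.of_equiv _ (Finsupp.supportedEquivFinsupp (M := F) (R := F)
      (Set.Iio n ×ˢ Set.Iio n)).symm.toEquiv)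
  iR := by rintro _ ⟨x, -, rfl⟩; rfl
  iS := by rintro _ ⟨x, -, rfl⟩; rfl
  pair := by rintro _ ⟨x, -, rfl⟩ _ ⟨y, -, rfl⟩; rfl
  gr := by
    rintro x y ⟨z, hz, e⟩
    obtain ⟨e1, rfl⟩ := Prod.ext_iff.1 e
    obtain rfl : z = x := ι_inj e1
    exact ⟨z, rfl, fun i => ⟨π i z, fun p hp => hz (Finset.mem_filter.1 hp).1, rfl⟩⟩
  gr' := by
    rintro x y ⟨z, hz, e⟩
    obtain ⟨rfl, e1⟩ := Prod.ext_iff.1 e
    obtain rfl : z = x := ι_inj e1
    exact ⟨z, rfl, fun i => ⟨π i z, fun p hp => hz (Finset.mem_filter.1 hp).1, rfl⟩⟩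

end Pool.Agent.H71.Cos
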