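import Mathlib
import Pool.Agent.H71.Cos1

/-! An irreducible coset space of a Polish group with infinitely many abelian minimal closed
normal subgroups. -/

namespace Pool.Agent.H71.Cos

open Function Filter Topology Equiv

section perm
variable {Y : Type} [TopologicalSpace Y] [DiscreteTopology Y]

scoped instance tP : TopologicalSpace (Perm Y) :=
  .induced (fun g => ((g : Y → Y), (g.symm : Y → Y))) inferInstance

lemma embP : IsClosedEmbedding fun g : Perm Y => ((g : Y → Y), (g.symm : Y → Y)) := by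
  refine ⟨⟨⟨rfl⟩, fun g h e => Equiv.ext (congrFun (congrArg Prod.fst e))⟩, ?_⟩
  have ev : Continuous fun p : (Y → Y) × Y => p.1 p.2 :=
    continuous_prod_of_discrete_right.2 fun y => continuous_apply y
  have : Set.range (fun g : Perm Y => ((g : Y → Y), (g.symm : Y → Y))) =
      ⋂ y, {p | p.2 (p.1 y) = y} ∩ {p | p.1 (p.2 y) = y} := by
    ext p
    refine ⟨by rintro ⟨g, rfl⟩; simp, fun h => ⟨⟨p.1, p.2, fun y => (Set.mem_iInter.1 h y).1,
      fun y => (Set.mem_iInter.1 h y).2⟩, rfl⟩⟩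
  rw [this]
  exact isClosed_iInter fun y => (isClosed_eq (ev.comp (continuous_snd.prodMk (by fun_prop)))
    continuous_const).inter (isClosed_eq (ev.comp (continuous_fst.prodMk (by fun_prop)))
    continuous_const)

omit [DiscreteTopology Y] in
lemma cP (y : Y) : Continuous fun g : Perm Y => g y :=
  (continuous_apply y).comp (continuous_fst.comp (continuous_induced_dom
    (f := fun g : Perm Y => ((g : Y → Y), (g.symm : Y → Y)))))

scoped instance : IsTopologicalGroup (Perm Y) := by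
  have ev : Continuous fun p : (Y → Y) × Y => p.1 p.2 :=
    continuous_prod_of_discrete_right.2 fun y => continuous_apply y
  have c1 : Continuous fun g : Perm Y => (g : Y → Y) := continuous_pi cP
  have c2 : Continuous fun g : Perm Y => (g.symm : Y → Y) :=
    continuous_snd.comp (continuous_induced_dom
      (f := fun g : Perm Y => ((g : Y → Y), (g.symm : Y → Y))))
  exact
    { continuous_mul := continuous_induced_rng.2 ((continuous_pi fun y => ev.comp
        ((c1.comp continuous_fst).prodMk ((cP y).comp continuous_snd))).prodMk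
        (continuous_pi fun y => ev.comp ((c2.comp continuous_snd).prodMk
          (((continuous_apply y).comp c2).comp continuous_fst))))
      continuous_inv := continuous_induced_rng.2 (c2.prodMk c1) }

scoped instance [Countable Y] : PolishSpace (Perm Y) := by
  have : SecondCountableTopology Y := DiscreteTopology.secondCountableTopology_of_countable
  have : PolishSpace ((Y → Y) × (Y → Y)) := ⟨⟩
  exact embP.polishSpace

lemma tend {g : ℕ → Perm Y} (h : ∀ y, ∀ᶠ n in atTop, g n y = y) : Tendsto g atTop (𝓝 1) := by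
  rw [embP.isInducing.tendsto_nhds_iff]
  refine Tendsto.prodMk_nhds (tendsto_pi_nhds.2 fun y => tendsto_const_nhds.congr'
    ((h y).mono fun n hn => hn.symm)) (tendsto_pi_nhds.2 fun y => tendsto_const_nhds.congr'
    ((h y).mono fun n hn => (g n).eq_symm_apply.2 hn))

end perm

scoped instance : TopologicalSpace V := ⊥
scoped instance : DiscreteTopology V := ⟨rfl⟩
scoped instance : TopologicalSpace D := ⊥
scoped instance : DiscreteTopology D := ⟨rfl⟩

/-- the invariants -/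
noncomputable def I (t : (V × V × V × V) × D × D × D) : Prop × (ℕ → Prop) × Prop × F :=
  (t.1.1 - t.1.2.1 = t.1.2.2.1 - t.1.2.2.2, fun i => t.1.1 - t.1.2.1 ∈ M i,
    t.2.1 + t.2.2.1 = t.2.2.2, ι (t.1.1 - t.1.2.1) t.2.1)

/-- the diagonal action -/
def ac (g : Perm V × Perm D) (t : (V × V × V × V) × D × D × D) : (V × V × V × V) × D × D × D :=
  ((g.1 t.1.1, g.1 t.1.2.1, g.1 t.1.2.2.1, g.1 t.1.2.2.2), g.2 t.2.1, g.2 t.2.2.1, g.2 t.2.2.2)

/-- the group -/
def G : Subgroup (Perm V × Perm D) where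
  carrier := {g | ∀ t, I (ac g t) = I t}
  one_mem' _ := rfl
  mul_mem' {_ b} ha hb t := (ha (ac b t)).trans (hb t)
  inv_mem' {a} ha t := (ha (ac a⁻¹ t)).symm.trans (by simp [ac])

lemma G_closed : IsClosed (G : Set (Perm V × Perm D)) := by
  rw [show (G : Set (Perm V × Perm D)) = ⋂ t, (ac · t) ⁻¹' {s | I s = I t} from
    Set.ext fun _ => by rw [Set.mem_iInter]; rfl]
  have c1 : ∀ x, Continuous fun g : Perm V × Perm D => g.1 x := fun x => (cP x).comp continuous_fst
  have c2 : ∀ x, Continuous fun g : Perm V × Perm D => g.2 x := fun x => (cP x).comp continuous_snd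
  exact isClosed_iInter fun t => (isClosed_discrete _).preimage
    (((c1 _).prodMk ((c1 _).prodMk ((c1 _).prodMk (c1 _)))).prodMk
      ((c2 _).prodMk ((c2 _).prodMk (c2 _))))

lemma add1 (g : G) (x y : V) : g.1.1 (x + y) = g.1.1 x - g.1.1 0 + g.1.1 y :=
  sub_eq_iff_eq_add.1 ((congrArg Prod.fst (g.2 ((x + y, y, x, 0), 0))).mpr (by simp [I]))

lemma memM (g : G) (i : ℕ) (x y : V) : g.1.1 x - g.1.1 y ∈ M i ↔ x - y ∈ M i :=
  (congrFun (congrArg (·.2.1) (g.2 ((x, y, 0), 0))) i).to_iff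

lemma add2 (g : G) (x y : D) : g.1.2 (x + y) = g.1.2 x + g.1.2 y :=
  ((congrArg (fun s : Prop × (ℕ → Prop) × Prop × F => s.2.2.1)
    (g.2 (0, x, y, x + y))).mpr rfl).symm

lemma pr (g : G) (x y : V) (d : D) : ι (g.1.1 x - g.1.1 y) (g.1.2 d) = ι (x - y) d :=
  congrArg (·.2.2.2) (g.2 ((x, y, 0), d, 0))

noncomputable instance : SMul G A := ⟨fun g p =>
  p ∘ₗ AddMonoidHom.toZModLinearMap 2 (AddMonoidHom.mk' _ (add2 g⁻¹)) + ι (g.1.1 0)⟩

lemma smul_ev' (g : G) (p : A) (d : D) : (g • p) d = p (g⁻¹.1.2 d) + ι (g.1.1 0) d := rfl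

lemma smul_ev (g : G) (p : A) (d : D) : (g • p) (g.1.2 d) = p d + ι (g.1.1 0) (g.1.2 d) := by
  simp [smul_ev']

lemma extg (g : G) {p q : A} (h : ∀ d, p (g.1.2 d) = q (g.1.2 d)) : p = q :=
  LinearMap.ext fun d => by simpa using h (g.1.2.symm d)

noncomputable instance : MulAction G A where
  one_smul p := LinearMap.ext fun d => by simp [smul_ev']
  mul_smul g h p := extg (g * h) fun d => by
    have := pr g (h.1.1 0) 0 (h.1.2 d)
    rw [smul_ev]
    change p d + ι (g.1.1 (h.1.1 0)) (g.1.2 (h.1.2 d)) = (g • h • p) (g.1.2 (h.1.2 d))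
    rw [sub_zero] at this
    rw [smul_ev, smul_ev, ← this, map_sub, LinearMap.sub_apply, add_assoc, sub_add_cancel]

lemma smul_add' (g : G) (p : A) (x : V) : g • (p + ι x) = g • p + ι (g.1.1 x - g.1.1 0) :=
  extg g fun d => by
    rw [LinearMap.add_apply, pr, smul_ev, smul_ev]; simp [add_right_comm]

lemma smul_ι (g : G) (x : V) : g • ι x = ι (g.1.1 x) := extg g fun d => by
  rw [smul_ev, ← sub_zero x, ← pr g]; simp

/-- translations -/
noncomputable def t (v : V) : G := ⟨(Equiv.addRight v, 1), fun s => by simp [I, ac]⟩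

lemma t_smul (v : V) (p : A) : t v • p = p + ι v := LinearMap.ext fun d => by
  simp [smul_ev', t]

lemma faith {g h : G} (e : ∀ x, g.1.1 x = h.1.1 x) : g = h :=
  Subtype.ext (Prod.ext (Equiv.ext e) (Equiv.ext fun d => by
    by_contra hne
    obtain ⟨n, hn⟩ := ι_sep (sub_ne_zero.2 hne) 0
    obtain ⟨x, hx⟩ := g.1.1.surjective (Finsupp.single (0, n) 1 + g.1.1 0)
    have h1 := pr g x 0 d
    have h2 := pr h x 0 d
    rw [← e, ← e] at h2
    rw [hx, add_sub_cancel_right] at h1 h2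
    exact hn (by rw [map_sub, h1, h2, sub_self])))

lemma eq_t {g : G} (h : ∀ d, g.1.2 d = d) : g = t (g.1.1 0) := faith fun x =>
  sub_eq_iff_eq_add.1 (ι_inj (LinearMap.ext fun d => by simpa [h] using pr g x 0 d))

lemma t_add (v w : V) : t (v + w) = t v * t w := faith fun x => by
  simp [t, add_right_comm, add_assoc]

lemma t_zero : t 0 = 1 := faith fun x => by simp [t]

lemma conj_t (g : G) (v : V) : g * t v * g⁻¹ = t (g.1.1 v - g.1.1 0) := faith fun x => by
  simp [t, add_comm _ v, add1, add_comm]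

lemma exL (P : PI) : ∃ g : G, g.1.1 0 = 0 ∧ (∀ p ∈ P.R, g.1.2 p.1 = p.2) ∧
    ∀ q ∈ P.S, g • q.1 = q.2 := by
  obtain ⟨β, α, h1, h2, h3, h4, h5⟩ := P.bf
  let a : V →+ V := AddMonoidHom.mk' α fun x y => ι_inj (LinearMap.ext fun d => by
    obtain ⟨d, rfl⟩ := β.surjective d
    simp [h2])
  have hs : ∀ x y, α x - α y = α (x - y) := fun x y => (map_sub a x y).symm
  have h0 : α 0 = 0 := map_zero a
  have : (α, β) ∈ G := fun s => by simp [I, ac, hs, h2, h3, ← h1]
  refine ⟨⟨_, this⟩, h0, h4, fun q hq => extg ⟨_, this⟩ fun d => ?_⟩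
  rw [smul_ev]
  simp [h0, h5 q hq]

/-- the stabilizer of the base point -/
noncomputable def H : Subgroup G := MulAction.stabilizer G e

lemma c1 (x : V) : Continuous fun g : G => g.1.1 x :=
  (cP x).comp (continuous_fst.comp continuous_subtype_val)

lemma c2 (x : D) : Continuous fun g : G => g.1.2 x :=
  (cP x).comp (continuous_snd.comp continuous_subtype_val)

lemma H_closed : IsClosed (H : Set G) := by
  rw [show (H : Set G) = ⋂ d, (fun g : G => (g⁻¹.1.2 d, g.1.1 0)) ⁻¹' {s | e s.1 + ι s.2 d = e d}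
    from Set.ext fun _ => by rw [Set.mem_iInter]; exact LinearMap.ext_iff]
  exact isClosed_iInter fun d => (isClosed_discrete _).preimage
    (((c2 d).comp continuous_inv).prodMk (c1 0))

lemma t_H {v : V} (h : t v ∈ H) : v = 0 := ι_inj (by
  have : t v • e = e := h
  simpa [t_smul] using this)

lemma ne_e (g : G) (x : V) : g • e ≠ ι x := fun h => e_ne (g⁻¹.1.1 x) (by
  rw [← smul_ι, ← h, inv_smul_smul])

lemma extE (n : ℕ) {p : A} (hp : ∀ x, p ≠ ι x)
    (h : ∀ d ∈ Finsupp.supported F F (Set.Iio n), e d = p d) :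
    ∃ Q : PI, Q.R = (diag n).R ∧ Q.S = (diag n).S ⊔ F ∙ (e, p) := by
  refine (diag n).extS (fun y ⟨x, _, hx⟩ => e_ne x (congrArg Prod.fst hx))
    (fun y ⟨x, _, hx⟩ => hp x (congrArg Prod.snd hx).symm) (by rintro _ ⟨x, hx, rfl⟩; exact h x hx)
    (Or.inr ?_)
  rintro _ ⟨y, -, rfl⟩ x
  exact ⟨fun h => e_ne (x - y) (by rw [map_sub, ← h]; simp), fun h => hp (x - y) (by
    rw [map_sub, ← h]; simp)⟩

lemma zero_of {X : Type} {x : X →₀ F} {s : Set X} (h : x ∈ Finsupp.supported F F s)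
    (hs : s = ∅) : x = 0 := Finsupp.ext fun a => (Finsupp.mem_supported' _ _).1 h a (by simp [hs])

lemma msup {X : Type} [AddCommGroup X] [Module F X] (S : Submodule F X) (z : X) :
    z ∈ S ⊔ F ∙ z := Submodule.mem_sup_right (Submodule.mem_span_singleton_self _)

/-- translations in a subgroup -/
def W (K : Subgroup G) : Submodule F V where
  carrier := {v | t v ∈ K}
  zero_mem' := (t_zero ▸ one_mem K : t 0 ∈ K)
  add_mem' {a b} ha hb := (t_add a b ▸ mul_mem ha hb : t (a + b) ∈ K)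
  smul_mem' c x hx := by
    rcases two c with rfl | rfl
    · rw [zero_smul]; exact (t_zero ▸ one_mem K : t 0 ∈ K)
    · rwa [one_smul]

lemma sepW {K : Subgroup G} (hK : H ≤ K) {w : V} (w0 : w ≠ 0) (hw : t w ∈ K) (f : D)
    (hf : f ≠ 0) : ∃ v : W K, ι v f ≠ 0 := by
  obtain ⟨f', h0, h1⟩ := solve (X := F × F) (Y := D)
    ((LinearMap.toSpanSingleton F A (ι w)).coprod (LinearMap.toSpanSingleton F A e))
    ((injective_iff_map_eq_zero _).2 fun q hq => by
      obtain ⟨a, b⟩ := q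
      rcases two b with rfl | rfl
      · rcases two a with rfl | rfl
        · rfl
        · exact absurd (ι_inj (by simpa using hq)) w0
      · exact absurd (by simpa [neg_eq_iff_add_eq_zero] using hq) (e_ne (-(a • w))))
    ((LinearMap.id).coprod (e f • LinearMap.id)) (Set.finite_singleton 0)
  obtain ⟨Q, e1, e2⟩ := extE 0 (fun x => (e_ne x).symm) fun _ _ => rfl
  obtain ⟨Q', e3, e4⟩ := Q.extD (z := (f', f)) (fun y hy => by
    obtain ⟨x, hx, e⟩ := e1 ▸ hy
    exact h0 ((congrArg Prod.fst e).symm.trans (zero_of hx (by simp)))) (fun y hy => by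
    obtain ⟨x, hx, e⟩ := e1 ▸ hy
    exact hf ((congrArg Prod.snd e).symm.trans (zero_of hx (by simp)))) fun q hq => by
    rcases mem_ext (e2 ▸ hq) with ⟨x, hx, rfl⟩ | ⟨_, ⟨x, hx, rfl⟩, rfl⟩ <;>
      rw [zero_of hx (by simp)]
    · simp
    · simpa using h1 (0, 1)
  obtain ⟨g, g0, g1, g2⟩ := exL Q'
  have gH : g ∈ K := hK (g2 (e, e) (e4 ▸ e2 ▸ msup _ _))
  have hm : t (g.1.1 w - g.1.1 0) ∈ K := conj_t g w ▸ mul_mem (mul_mem gH hw) (inv_mem gH)
  refine ⟨⟨_, hm⟩, ?_⟩
  have h2 : g.1.2 f' = f := g1 (f', f) (e3 ▸ msup _ _)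
  have h3 : ι w f' = 1 := by simpa using h1 (1, 0)
  change ι (g.1.1 w - g.1.1 0) f ≠ 0
  rw [← h2, pr, sub_zero, h3]
  exact one_ne_zero

lemma approx {K : Subgroup G} (hK : H ≤ K) (sep : ∀ f : D, f ≠ 0 → ∃ v : W K, ι v f ≠ 0) (g : G)
    (n : ℕ) : ∃ j : G, g * j ∈ K ∧ (∀ p ∈ (diag n).R, j.1.2 p.1 = p.2) ∧
      ∀ q ∈ (diag n).S, j • q.1 = q.2 := by
  have : Infinite (W K) := not_finite_iff_infinite.1 fun _ => by
    obtain ⟨a, b, hne, h⟩ := Finite.exists_ne_map_eq_of_infinite fun (d : D) (v : W K) => ι v d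
    obtain ⟨v, hv⟩ := sep _ (sub_ne_zero.2 hne)
    exact hv (by rw [map_sub, congrFun h v, sub_self])
  have := (diag n).fR.to_subtype
  let β : D →ₗ[F] D := AddMonoidHom.toZModLinearMap 2 (AddMonoidHom.mk' _ (add2 g))
  obtain ⟨v, -, hv⟩ := solve (X := (diag n).R) (Y := W K)
    ((ι ∘ₗ (W K).subtype).flip ∘ₗ β ∘ₗ LinearMap.fst F D D ∘ₗ (diag n).R.subtype)
    ((injective_iff_map_eq_zero _).2 fun q hq => by
      have : q.1.1 = 0 := by
        by_contra hne
        obtain ⟨v, hv⟩ := sep (β q.1.1) fun h => hne (g.1.2.injective (h.trans (map_zero β).symm))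
        exact hv (LinearMap.congr_fun hq v)
      exact Subtype.ext (Prod.ext this (((diag n).iR _ q.2).1 this)))
    ((g • e - e) ∘ₗ β ∘ₗ LinearMap.fst F D D ∘ₗ (diag n).R.subtype) Set.finite_empty
  obtain ⟨Q, e1, e2⟩ := extE n (p := g⁻¹ • t v • e) (by rw [smul_smul]; exact ne_e _)
    fun d hd => by
      have : ι v (g.1.2 d) = (g • e - e) (g.1.2 d) := hv ⟨(d, d), d, hd, rfl⟩
      have h2 := smul_ev g (g⁻¹ • t v • e) d
      rw [smul_inv_smul, t_smul, LinearMap.add_apply, this, LinearMap.sub_apply, smul_ev,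
        add_sub_cancel] at h2
      rw [t_smul]
      exact add_right_cancel h2
  obtain ⟨j, -, j1, j2⟩ := exL Q
  refine ⟨j, ?_, e1 ▸ j1, fun q hq => j2 q (e2 ▸ Submodule.mem_sup_left hq)⟩
  have h3 : j • e = g⁻¹ • t v • e := j2 (e, _) (e2 ▸ msup _ _)
  have : (t v)⁻¹ * (g * j) ∈ H := by
    change _ • e = e
    rw [mul_smul, mul_smul, h3, smul_inv_smul, inv_smul_smul]
  have := mul_mem (show t v ∈ K from v.2) (hK this)
  rwa [mul_inv_cancel_left] at this

lemma top_of {K : Subgroup G} (cK : IsClosed (K : Set G)) (hK : H ≤ K) {w : V} (w0 : w ≠ 0)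
    (hw : t w ∈ K) : K = ⊤ := by
  refine top_unique fun g _ => ?_
  choose j j0 j1 j2 using approx hK (sepW hK w0 hw) g
  have a1 : Tendsto (fun n => (j n).1.1) atTop (𝓝 1) := tend fun x => by
    obtain ⟨a, ha⟩ := (x.support.image Prod.fst).bddAbove
    obtain ⟨b, hb⟩ := (x.support.image Prod.snd).bddAbove
    filter_upwards [eventually_gt_atTop a, eventually_gt_atTop b] with n hn hn'
    exact ι_inj ((smul_ι _ _).symm.trans (j2 n (ι x, ι x) ⟨x, fun p hp =>
      ⟨(ha (Finset.mem_image_of_mem _ hp)).trans_lt hn,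
        (hb (Finset.mem_image_of_mem _ hp)).trans_lt hn'⟩, rfl⟩))
  have a2 : Tendsto (fun n => (j n).1.2) atTop (𝓝 1) := tend fun d => by
    obtain ⟨a, ha⟩ := d.support.bddAbove
    filter_upwards [eventually_gt_atTop a] with n hn
    exact j1 n (d, d) ⟨d, fun p hp => (ha hp).trans_lt hn, rfl⟩
  have : Tendsto j atTop (𝓝 1) := tendsto_subtype_rng.2 (a1.prodMk_nhds a2)
  exact cK.mem_of_tendsto (by simpa using this.const_mul g) (Eventually.of_forall j0)

theorem maximal {K : Subgroup G} (cK : IsClosed (K : Set G)) (hK : H ≤ K) : K = H ∨ K = ⊤ := by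
  refine or_iff_not_imp_left.2 fun hne => ?_
  obtain ⟨k, hk, kH⟩ := SetLike.exists_of_lt (lt_of_le_of_ne hK (Ne.symm hne))
  by_cases h : ∃ v, k • e = e + ι v
  · obtain ⟨v, hv⟩ := h
    refine top_of cK hK (w := v) (fun h => kH (show k • e = e by simpa [h] using hv)) ?_
    have : k⁻¹ * t v ∈ H := by
      change _ • e = e
      rw [mul_smul, t_smul, ← hv, inv_smul_smul]
    simpa using mul_mem hk (hK this)
  push Not at h
  let v : V := Finsupp.single 0 1
  obtain ⟨Q, e1, e2⟩ := extE 0 (fun x => (e_ne x).symm) fun _ _ => rfl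
  have key : ∀ s ∈ Q.S, ∀ x, s.1 + k • e ≠ ι x ∧ s.2 + k • e ≠ ι x := fun s hs x => by
    rcases mem_ext (e2 ▸ hs) with ⟨y, hy, rfl⟩ | ⟨_, ⟨y, hy, rfl⟩, rfl⟩ <;>
      rw [zero_of hy (by simp)]
    · simpa using ne_e k x
    · have : e + k • e ≠ ι x := fun h' => h x (by
        rw [← h', ← add_assoc, ← two_smul F, show (2 : F) = 0 from rfl]; simp)
      simpa using this
  obtain ⟨Q', e3, e4⟩ := Q.extS (z := (k • e, k • e + ι v))
    (fun y hy => (key _ (neg_mem hy) 0).1 (by simp))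
    (fun y hy => (key _ (neg_mem hy) (-v)).2 (by simp)) (fun p hp => by
      obtain ⟨x, hx, rfl⟩ := e1 ▸ hp
      simp [zero_of hx (by simp)]) (Or.inr fun s hs x => ⟨(key s hs x).1, fun h =>
        (key s hs (x - v)).2 (by rw [map_sub, ← h]; simp [← add_assoc])⟩)
  obtain ⟨g, -, -, g2⟩ := exL Q'
  have gH : g ∈ K := hK (g2 (e, e) (e4 ▸ Submodule.mem_sup_left (e2 ▸ msup _ _)))
  have h3 : g • k • e = k • e + ι v := g2 (_, _) (e4 ▸ msup _ _)
  have : k⁻¹ * (g⁻¹ * t v) * k ∈ H := by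
    change _ • e = e
    rw [mul_smul, mul_smul, mul_smul, t_smul, ← h3, inv_smul_smul, inv_smul_smul]
  refine top_of cK hK (w := v) (by simp [v]) ?_
  simpa [mul_assoc] using mul_mem gH (mul_mem (mul_mem hk (hK this)) (inv_mem hk))

lemma core {g : G} (h : ∀ k : G, k * g * k⁻¹ ∈ H) : g = 1 := by
  have h0 : g • e = e := show g ∈ H by simpa using h 1
  have h1 : ∀ v, g.1.1 v = v + g.1.1 0 := fun v => by
    have : ((t v)⁻¹ * g * (t v)⁻¹⁻¹) • e = e := h _
    rw [inv_inv, mul_smul, mul_smul, inv_smul_eq_iff, t_smul, smul_add', h0] at this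
    exact sub_eq_iff_eq_add.1 (ι_inj (add_left_cancel this))
  have : g = t (g.1.1 0) := faith h1
  have h2 : g.1.1 0 = 0 := t_H (this ▸ h0 : t (g.1.1 0) • e = e)
  rw [this, h2, t_zero]

/-- the translation subgroups -/
def N (i : ℕ) : Subgroup G where
  carrier := {g | ∃ m ∈ M i, g = t m}
  one_mem' := ⟨0, zero_mem _, t_zero.symm⟩
  mul_mem' := by
    rintro _ _ ⟨a, ha, rfl⟩ ⟨b, hb, rfl⟩
    exact ⟨_, add_mem ha hb, (t_add _ _).symm⟩
  inv_mem' := by
    rintro _ ⟨a, ha, rfl⟩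
    exact ⟨_, neg_mem ha, inv_eq_of_mul_eq_one_right (by rw [← t_add, add_neg_cancel, t_zero])⟩

lemma t_inj : Injective t := fun a b h => by
  simpa [t] using congrArg (fun g : G => g.1.1 0) h

theorem main : ∃ (G : Type) (_ : Group G) (_ : TopologicalSpace G), IsTopologicalGroup G ∧
    PolishSpace G ∧ ∃ H : Subgroup G, IsClosed (H : Set G) ∧ H ≠ ⊤ ∧
      (∀ K : Subgroup G, IsClosed (K : Set G) → H ≤ K → K = H ∨ K = ⊤) ∧
      (∀ g : G, (∀ k : G, k * g * k⁻¹ ∈ H) → g = 1) ∧ ∃ N : ℕ → Subgroup G,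
        (∀ i, IsClosed (N i : Set G) ∧ (N i).Normal ∧ N i ≠ ⊥ ∧ ∀ K : Subgroup G, K.Normal →
          K ≤ N i → K = ⊥ ∨ K = N i) ∧ (∀ i j, i ≠ j → N i ⊓ N j = ⊥) ∧
        ∀ i j, ∀ x ∈ N i, ∀ y ∈ N j, x * y = y * x := by
  refine ⟨G, inferInstance, inferInstance, inferInstance, G_closed.polishSpace, H, H_closed,
    fun h => by simpa using t_H (v := Finsupp.single 0 1) (h ▸ trivial), fun K => maximal,
    fun g => core, N, fun i => ⟨?_, ⟨?_⟩, fun h => ?_, fun K nK le => ?_⟩, fun i j hij => ?_, ?_⟩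
  · rw [show (N i : Set G) = (⋂ d, {g : G | g.1.2 d = d}) ∩ (fun g => g.1.1 0) ⁻¹' (M i) from
      Set.ext fun g => ⟨by rintro ⟨m, hm, rfl⟩; simpa [t] using hm,
        fun h => ⟨_, h.2, eq_t (Set.mem_iInter.1 h.1)⟩⟩]
    exact (isClosed_iInter fun d => isClosed_eq (c2 d) continuous_const).inter
      ((isClosed_discrete _).preimage (c1 0))
  · rintro _ ⟨m, hm, rfl⟩ g
    exact ⟨_, (memM g i m 0).2 (by simpa using hm), conj_t g m⟩
  · have : t (Finsupp.single (i, 0) 1) ∈ N i := ⟨_, single_mem i 0, rfl⟩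
    rw [h, Subgroup.mem_bot, ← t_zero] at this
    simpa using t_inj this
  · refine or_iff_not_imp_left.2 fun hne => le_antisymm le ?_
    obtain ⟨⟨k, hk⟩, k1⟩ := Subgroup.ne_bot_iff_exists_ne_one.1 hne
    obtain ⟨m, hm, rfl⟩ := le hk
    rintro _ ⟨m', hm', rfl⟩
    by_cases h0 : m' = 0
    · rw [h0, t_zero]; exact one_mem _
    obtain ⟨Q, -, e2⟩ := (diag 0).extS (z := (ι m, ι m')) (fun y ⟨x, hx, e⟩ => k1 (Subtype.ext
        ((congrArg t ((ι_inj (congrArg Prod.fst e)).symm.trans (zero_of hx (by simp)))).trans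
          t_zero)))
      (fun y ⟨x, hx, e⟩ => h0 ((ι_inj (congrArg Prod.snd e)).symm.trans (zero_of hx (by simp))))
      (by rintro _ ⟨x, hx, rfl⟩; simp [zero_of hx (by simp)]) (Or.inl ⟨i, m, hm, m', hm', rfl⟩)
    obtain ⟨g, g0, -, g2⟩ := exL Q
    have := nK.conj_mem _ hk g
    rwa [conj_t, g0, sub_zero, show g.1.1 m = m' from
      ι_inj ((smul_ι _ _).symm.trans (g2 (_, _) (e2 ▸ msup _ _)))] at this
  · refine bot_unique ?_
    rintro _ ⟨⟨m, hm, rfl⟩, m', hm', e⟩
    have := (π_of hm i).symm.trans (t_inj e ▸ π_of hm' i)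
    rw [if_pos rfl, if_neg hij] at this
    rw [this, t_zero]; exact one_mem _
  · rintro i j _ ⟨a, -, rfl⟩ _ ⟨b, -, rfl⟩
    rw [← t_add, ← t_add, add_comm]

end Pool.Agent.H71.Cos
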