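import Mathlib

set_option autoImplicit false

namespace Pool.Agent.H71.Cover

open scoped commutatorElement
open Subgroup

variable {G : Type} [Group G]

variable (G) in
/-- lower central series -/
abbrev γ (j : ℕ) : Subgroup G := (⊤ : Subgroup G).lowerCentralSeries j

theorem comm_mem {j : ℕ} {a : G} (ha : a ∈ γ G j) (g : G) : ⁅a, g⁆ ∈ γ G (j + 1) :=
  commutator_mem_commutator ha (mem_top g)

theorem γ_le (j : ℕ) : γ G (j + 1) ≤ γ G j :=
  Subgroup.lowerCentralSeries_antitone _ (Nat.le_succ j)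

theorem γ_map {K : Type} [Group K] (f : G →* K) {j : ℕ} {a : G} (ha : a ∈ γ G j) :
    f a ∈ γ K j :=
  lowerCentralSeries_mono j le_top (map_lowerCentralSeries ⊤ f j ▸ mem_map_of_mem f ha)

theorem normal_of {j : ℕ} {B : Subgroup G} (h1 : γ G (j + 1) ≤ B) (h2 : B ≤ γ G j) : B.Normal :=
  ⟨fun b hb g => by
    have := mul_mem (inv_mem (h1 (comm_mem (h2 hb) g))) hb
    simpa [commutatorElement_def, mul_assoc] using this⟩

theorem comm_of {B : Subgroup G} [B.Normal] {a g : G} (h : ⁅a, g⁆ ∈ B) :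
    Commute (QuotientGroup.mk' B a) (QuotientGroup.mk' B g) := by
  rw [← commutatorElement_eq_one_iff_commute, ← map_commutatorElement]
  exact (QuotientGroup.eq_one_iff _).2 h

theorem gen (X : Set G) (Y : ℕ → Set G) (hX : closure X = ⊤) (h0 : X ⊆ Y 0)
    (hY : ∀ j, Y j ⊆ γ G j) (hs : ∀ j, ∀ a ∈ Y j, ∀ x ∈ X, ⁅a, x⁆ ∈ Y (j + 1)) (j : ℕ) :
    γ G j ≤ closure (Y j) ⊔ γ G (j + 1) := by
  induction j with
  | zero => exact le_sup_of_le_left (hX.ge.trans (closure_mono h0))
  | succ j ih =>
    set B := closure (Y (j + 1)) ⊔ γ G (j + 1 + 1)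
    have : B.Normal := normal_of le_sup_right (sup_le ((closure_le _).2 (hY _)) (γ_le _))
    have h1 : γ G j ≤ (center _).comap (QuotientGroup.mk' B) := by
      refine ih.trans (sup_le ((closure_le _).2 fun a ha => ?_) fun a ha => ?_)
      · have : ⊤ ≤ (centralizer {QuotientGroup.mk' B a}).comap (QuotientGroup.mk' B) := by
          rw [← hX, closure_le]
          intro x hx
          exact mem_centralizer_singleton_iff.2
            (comm_of (mem_sup_left (subset_closure (hs j a ha x hx)))).symm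
        refine mem_center_iff.2 fun g => ?_
        obtain ⟨g, rfl⟩ := QuotientGroup.mk'_surjective B g
        exact mem_centralizer_singleton_iff.1 (this (mem_top g))
      · refine mem_center_iff.2 fun g => ?_
        obtain ⟨g, rfl⟩ := QuotientGroup.mk'_surjective B g
        exact (comm_of (mem_sup_right (comm_mem ha g))).symm
    refine commutator_le.2 fun a ha g _ => (QuotientGroup.eq_one_iff _).1 ?_
    change QuotientGroup.mk' B _ = 1
    rw [map_commutatorElement, commutatorElement_eq_one_iff_commute]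
    exact (mem_center_iff.1 (h1 ha) _).symm

theorem killed {ι : Type} [Fintype ι] (δ : ι → G →* G) (X : Set G) (hX : closure X = ⊤)
    (hδ : ∀ x ∈ X, ∃ T : Finset ι, T.card ≤ 1 ∧ (∀ i ∈ T, δ i x = 1) ∧ ∀ i ∉ T, δ i x = x)
    (w : G) (hw : ∀ i, δ i w = 1) (j : ℕ) (hj : j < Fintype.card ι) : w ∈ γ G j := by
  classical
  let Y : Finset ι → ℕ → Set G := fun S j => {g | g ∈ γ G j ∧ ∃ T : Finset ι, S ⊆ T ∧
    T.card ≤ j + 1 ∧ (∀ i ∈ T, δ i g = 1) ∧ ∀ i ∉ T, δ i g = g}
  have hg := gen X (Y ∅) hX (fun x hx => ⟨mem_top x, (hδ x hx).imp fun T h => ⟨by simp, h⟩⟩)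
    (fun j g h => h.1) (by
      rintro j a ⟨ha, T, -, hT, h1, h2⟩ x hx
      obtain ⟨T', hT', h3, h4⟩ := hδ x hx
      refine ⟨comm_mem ha x, T ∪ T', by simp, (Finset.card_union_le _ _).trans (by omega),
        fun i hi => ?_, fun i hi => ?_⟩
      · rw [map_commutatorElement]
        rcases Finset.mem_union.1 hi with h | h
        · rw [h1 i h, commutatorElement_one_left]
        · rw [h3 i h, commutatorElement_one_right]
      · rw [Finset.mem_union, not_or] at hi
        rw [map_commutatorElement, h2 i hi.1, h4 i hi.2])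
  induction j with
  | zero => exact mem_top w
  | succ j ih =>
    have h1 : ∀ S, w ∈ closure (Y S j) ⊔ γ G (j + 1) := by
      intro S
      induction S using Finset.induction_on with
      | empty => exact hg j (ih (by omega))
      | insert i S _ ihS =>
        set B := closure (Y (insert i S) j) ⊔ γ G (j + 1)
        have : B.Normal :=
          normal_of le_sup_right (sup_le ((closure_le _).2 fun g h => h.1) (γ_le _))
        have h2 : closure (Y S j) ⊔ γ G (j + 1) ≤
            (QuotientGroup.mk' B).eqLocus ((QuotientGroup.mk' B).comp (δ i)) := by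
          refine sup_le ((closure_le _).2 ?_) fun g hg => ?_
          · rintro g ⟨h, T, hS, hT, h3, h4⟩
            change QuotientGroup.mk' B g = QuotientGroup.mk' B (δ i g)
            by_cases hi : i ∈ T
            · rw [h3 i hi, map_one]
              exact (QuotientGroup.eq_one_iff _).2 (mem_sup_left (subset_closure
                ⟨h, T, Finset.insert_subset hi hS, hT, h3, h4⟩))
            · rw [h4 i hi]
          · exact ((QuotientGroup.eq_one_iff _).2 (mem_sup_right hg)).trans
              ((QuotientGroup.eq_one_iff _).2 (mem_sup_right (γ_map (δ i) hg))).symm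
        have h3 : QuotientGroup.mk' B w = QuotientGroup.mk' B (δ i w) := h2 ihS
        rw [hw, map_one] at h3
        exact (QuotientGroup.eq_one_iff _).1 h3
    refine (sup_le ((closure_le _).2 ?_) le_rfl : _ ≤ γ G (j + 1)) (h1 Finset.univ)
    rintro g ⟨-, T, hS, hT, -⟩
    have := Finset.card_le_card hS
    rw [Finset.card_univ] at this
    omega

theorem comm_pow_right {a x : G} (h : ⁅a, x⁆ ∈ center G) (l : ℕ) : ⁅a, x ^ l⁆ = ⁅a, x⁆ ^ l := by
  induction l with
  | zero => simp
  | succ l ih =>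
    rw [pow_succ, commutatorElement_mul_right_eq_mul_conj, ih, mul_assoc (_ ^ l),
      mem_center_iff.1 h, pow_succ]
    group

theorem comm_pow {a x z : G} (h : ⁅a, x⁆ ∈ center G) (hz : z ∈ center G) (m l : ℕ) :
    ⁅a ^ m * z, x ^ l⁆ = ⁅a, x⁆ ^ (m * l) := by
  have h1 : ⁅x, a⁆ ∈ center G := by rw [← commutatorElement_inv]; exact inv_mem h
  have h2 : ⁅a ^ m, x⁆ = ⁅a, x⁆ ^ m := by
    rw [← commutatorElement_inv, comm_pow_right h1, ← inv_pow, commutatorElement_inv]
  rw [commutatorElement_mul_left_eq_conj_mul,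
    commutatorElement_eq_one_iff_commute.2 (mem_center_iff.1 hz _).symm, mul_one, mul_inv_cancel,
    one_mul, comm_pow_right (h2 ▸ pow_mem h m), h2, pow_mul]

theorem central {j : ℕ} {a : G} (ha : a ∈ γ G j) :
    QuotientGroup.mk' (γ G (j + 1)) a ∈ center _ := by
  refine mem_center_iff.2 fun g => ?_
  obtain ⟨g, rfl⟩ := QuotientGroup.mk'_surjective _ g
  exact (comm_of (comm_mem ha g)).symm

theorem scal (σ : G →* G) (t : ℕ) (X : Set G) (hX : closure X = ⊤) (hσ : ∀ x ∈ X, σ x = x ^ t)
    (j : ℕ) (g : G) (hg : g ∈ γ G j) :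
    QuotientGroup.mk' (γ G (j + 1)) (σ g) = QuotientGroup.mk' (γ G (j + 1)) g ^ t ^ (j + 1) := by
  let Y : ℕ → Subgroup G := fun j =>
    { carrier := {g | g ∈ γ G j ∧ QuotientGroup.mk' (γ G (j + 1)) (σ g) =
        QuotientGroup.mk' (γ G (j + 1)) g ^ t ^ (j + 1)}
      mul_mem' := fun {a b} ha hb => ⟨mul_mem ha.1 hb.1, by
        rw [map_mul, map_mul, map_mul, ha.2, hb.2,
          Commute.mul_pow (mem_center_iff.1 (central hb.1) _)]⟩
      one_mem' := ⟨one_mem _, by rw [map_one, map_one, one_pow]⟩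
      inv_mem' := fun {a} ha => ⟨inv_mem ha.1, by rw [map_inv, map_inv, map_inv, ha.2, inv_pow]⟩ }
  have h := gen X (fun j => Y j) hX (fun x hx => ⟨mem_top x, by rw [hσ x hx, map_pow]; simp⟩)
    (fun j g h => h.1) (by
      rintro j a ⟨ha, h⟩ x hx
      refine ⟨comm_mem ha x, ?_⟩
      rw [← map_pow] at h
      have h1 := QuotientGroup.eq.1 h.symm
      have h2 : σ a = a ^ t ^ (j + 1) * ((a ^ t ^ (j + 1))⁻¹ * σ a) := by group
      rw [map_commutatorElement σ, hσ x hx, h2, map_commutatorElement, map_mul, map_pow, map_pow,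
        comm_pow (by rw [← map_commutatorElement]; exact central (comm_mem ha x)) (central h1),
        map_commutatorElement, ← pow_succ]) j
  refine ((sup_le ((closure_le _).2 le_rfl) fun g hg => ⟨γ_le j hg, ?_⟩ : _ ≤ Y j) (h hg)).2
  rw [QuotientGroup.mk'_apply, QuotientGroup.mk'_apply, (QuotientGroup.eq_one_iff _).2 hg,
    (QuotientGroup.eq_one_iff _).2 (γ_map σ hg), one_pow]

theorem sep (σ : G →* G) (X : Set G) (hX : closure X = ⊤) (hσ : ∀ x ∈ X, σ x = x ^ 2)
    {p n : ℕ} (hp : p.Prime) (hn : 2 ^ n < p) (z : G) (hz : z ∈ X) (hq : z ^ p ^ n = 1)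
    (h1 : z ∈ γ G 1) (j : ℕ) (hj : j ≤ n) : z ∈ γ G (j + 1) := by
  induction j with
  | zero => exact h1
  | succ j ih =>
    have h := scal σ 2 X hX hσ _ z (ih (by omega))
    set y := QuotientGroup.mk' (γ G (j + 1 + 1)) z with hy
    rw [hσ z hz, map_pow, ← hy] at h
    have h2 : 1 < 2 ^ (j + 1) := Nat.one_lt_two_pow (by omega)
    have h3 : 2 ^ (j + 1) ≤ 2 ^ n := Nat.pow_le_pow_right two_pos hj
    have h4 : y ^ (2 * (2 ^ (j + 1) - 1)) = 1 := by
      apply mul_right_cancel (b := y ^ 2)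
      rw [← pow_add, one_mul, h]
      congr 1
      omega
    have h5 : y ^ p ^ n = 1 := by rw [hy, ← map_pow, hq, map_one]
    have h6 : (2 * (2 ^ (j + 1) - 1)).Coprime (p ^ n) :=
      (Nat.Coprime.mul_left (Nat.coprime_of_lt_prime (by omega) (by omega) hp).symm
        (Nat.coprime_of_lt_prime (by omega) (by omega) hp).symm).pow_right n
    have h7 := pow_gcd_eq_one.2 ⟨h4, h5⟩
    rw [h6, pow_one] at h7
    exact (QuotientGroup.eq_one_iff _).1 h7

/-- iterated differences -/
def D {Γ : Type} [Group Γ] : List G → (G → Γ) → G → Γ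
  | [], f => f
  | a :: l, f => D l fun g => f (a * g) * (f g)⁻¹

theorem D_nat {G' Γ Γ' : Type} [Group G'] [Group Γ] [Group Γ'] (φ : G →* G') (ψ : Γ →* Γ')
    (l : List G) (f : G → Γ) (f' : G' → Γ') (h : ∀ g, ψ (f g) = f' (φ g)) (g : G) :
    ψ (D l f g) = D (l.map φ) f' (φ g) := by
  induction l generalizing f f' with
  | nil => exact h g
  | cons a l ih => exact ih _ _ fun g => by rw [map_mul, map_inv, h, h, map_mul]

theorem D_one {Γ : Type} [Group Γ] (l : List G) : D l (fun _ => (1 : Γ)) = fun _ => 1 := by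
  induction l with
  | nil => rfl
  | cons a l ih => simpa [D] using ih

theorem D_mem {Γ : Type} [Group Γ] (l : List G) (h : 1 ∈ l) (f : G → Γ) : D l f = fun _ => 1 := by
  induction l generalizing f with
  | nil => simp at h
  | cons a l ih =>
    rcases List.mem_cons.1 h with rfl | h
    · simpa [D] using D_one l
    · exact ih h _

theorem D_pow (n : ℕ) (hn : γ G n = ⊥) (l : List G) (hl : l.length = n + 1) (m : ℕ) (g : G) :
    D l (fun x => x ^ m) g = 1 := by
  let F := FreeGroup (Option (Fin l.length))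
  let δ : Fin l.length → F →* F := fun i =>
    FreeGroup.lift fun j => if j = some i then 1 else FreeGroup.of j
  let ev : F →* G := FreeGroup.lift fun j => j.elim g l.get
  let l' : List F := List.ofFn fun i => FreeGroup.of (some i)
  have h1 := D_nat ev ev l' (fun x => x ^ m) (fun x => x ^ m) (fun x => map_pow ev x m)
    (FreeGroup.of none)
  have h2 : l'.map ev = l := by
    rw [List.map_ofFn]
    conv_rhs => rw [← List.ofFn_get l]
    congr 1
    ext i
    exact FreeGroup.lift_apply_of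
  rw [h2, show ev (FreeGroup.of none) = g from FreeGroup.lift_apply_of] at h1
  rw [← h1, ← mem_bot, ← hn]
  refine γ_map ev (killed δ _ (FreeGroup.closure_range_of _) ?_ _ (fun i => ?_) n (by simp [hl]))
  · rintro _ ⟨_ | j, rfl⟩
    · exact ⟨∅, by simp, by simp, fun i _ => FreeGroup.lift_apply_of.trans (by simp)⟩
    · refine ⟨{j}, by simp, fun i hi => FreeGroup.lift_apply_of.trans ?_,
        fun i hi => FreeGroup.lift_apply_of.trans ?_⟩
      · rw [Finset.mem_singleton.1 hi, if_pos rfl]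
      · rw [if_neg fun e => hi (Finset.mem_singleton.2 (Option.some.inj e).symm)]
  · rw [D_nat (δ i) (δ i) l' _ (fun x => x ^ m) (fun x => map_pow _ x m), D_mem]
    refine List.mem_map.2 ⟨_, List.mem_ofFn.2 ⟨i, rfl⟩, FreeGroup.lift_apply_of.trans ?_⟩
    rw [if_pos rfl]

theorem step {p n : ℕ} (hp : p.Prime) (hG : Nat.card G = p ^ n) {K L : Subgroup G} (h : K < L) :
    p * Nat.card K ≤ Nat.card L := by
  have : Finite G := Nat.finite_of_card_ne_zero (hG ▸ pow_ne_zero n hp.ne_zero)
  obtain ⟨a, -, ha⟩ := (Nat.dvd_prime_pow hp).1 (hG ▸ K.card_subgroup_dvd_card)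
  obtain ⟨b, -, hb⟩ := (Nat.dvd_prime_pow hp).1 (hG ▸ L.card_subgroup_dvd_card)
  have h1 : Nat.card K < Nat.card L :=
    lt_of_not_ge fun h' => h.ne (eq_of_le_of_card_ge h.le h')
  rw [ha, hb] at h1 ⊢
  rw [← pow_succ']
  exact Nat.pow_le_pow_right hp.pos ((Nat.pow_lt_pow_iff_right hp.one_lt).1 h1)

theorem γ_bot {p n : ℕ} (hp : p.Prime) (hG : Nat.card G = p ^ n) : γ G n = ⊥ := by
  have : Finite G := Nat.finite_of_card_ne_zero (hG ▸ pow_ne_zero n hp.ne_zero)
  have := Fact.mk hp
  obtain ⟨N, hN⟩ := Subgroup.nilpotent_iff_lowerCentralSeries.1 (IsPGroup.of_card hG).isNilpotent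
  have h : ∀ j, γ G j = ⊥ ∨ p ^ j * Nat.card (γ G j) ≤ p ^ n := by
    intro j
    induction j with
    | zero => right; simp [hG]
    | succ j ih =>
      rcases ih with h | h
      · exact Or.inl (eq_bot_iff.2 (h ▸ γ_le j))
      rcases (γ_le (G := G) j).eq_or_lt with e | e
      · left
        have h1 : ∀ m, γ G (j + m) = γ G j := by
          intro m
          induction m with
          | zero => rfl
          | succ m ih => exact (congrArg (⁅·, ⊤⁆) ih).trans e
        rw [e, ← h1 N, eq_bot_iff, ← hN]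
        exact Subgroup.lowerCentralSeries_antitone _ (Nat.le_add_left _ _)
      · right
        rw [pow_succ, mul_assoc]
        exact (Nat.mul_le_mul_left _ (step hp hG e)).trans h
  refine (h n).elim id fun h => card_le_one_iff_eq_bot _ |>.1 ?_
  exact Nat.le_of_mul_le_mul_left (h.trans (mul_one _).ge) (pow_pos hp.pos n)

theorem rank {p n : ℕ} (hp : p.Prime) (hG : Nat.card G = p ^ n) :
    ∃ s : Finset G, s.card ≤ n ∧ closure (s : Set G) = ⊤ := by
  classical
  have : Finite G := Nat.finite_of_card_ne_zero (hG ▸ pow_ne_zero n hp.ne_zero)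
  have h : ∀ m, ∃ s : Finset G, s.card ≤ m ∧
      (closure (s : Set G) = ⊤ ∨ p ^ m ≤ Nat.card (closure (s : Set G))) := by
    intro m
    induction m with
    | zero => exact ⟨∅, le_rfl, Or.inr (by simp)⟩
    | succ m ih =>
      obtain ⟨s, hs, h⟩ := ih
      by_cases e : closure (s : Set G) = ⊤
      · exact ⟨s, by omega, Or.inl e⟩
      obtain ⟨x, hx⟩ := not_forall.1 (mt (eq_top_iff' _).2 e)
      refine ⟨insert x s, (Finset.card_insert_le _ _).trans (by omega), Or.inr ?_⟩
      rw [pow_succ']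
      refine (Nat.mul_le_mul_left _ (h.resolve_left e)).trans (step hp hG ?_)
      exact ⟨closure_mono (by simp), fun h => hx (h (subset_closure (by simp)))⟩
  obtain ⟨s, hs, h⟩ := h n
  exact ⟨s, hs, h.elim id fun h => eq_top_of_le_card _ (hG.trans_le h)⟩

theorem exists_poly {p n : ℕ} (hp : p.Prime) (hG : Nat.card G = p ^ n) (hn : 2 ^ n < p)
    (z : G) (hz : z ≠ 1) : ∃ f : G → rootsOfUnity (p ^ n) ℂ, f 1 = 1 ∧ f z ≠ 1 ∧
      ∀ l : List G, l.length = n + 1 → D l f = fun _ => 1 := by
  have hq : 1 < p ^ n ∨ n = 0 := by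
    rcases n with _ | n
    · exact Or.inr rfl
    · exact Or.inl (Nat.one_lt_pow (by omega) hp.one_lt)
  have : Finite G := Nat.finite_of_card_ne_zero (hG ▸ pow_ne_zero n hp.ne_zero)
  rcases hq with hq | rfl
  swap
  · exact (hz ((Nat.card_eq_one_iff_unique.1 hG).1.elim _ _)).elim
  have := Fact.mk hq
  have hc : ∀ x : G, x ^ p ^ n = 1 := fun x => hG ▸ pow_card_eq_one'
  let e : G → ZMod (p ^ n) → G := fun x m => x ^ m.val
  let H := closure (Set.range e)
  let e' : G → H := fun x => ⟨e x, subset_closure ⟨x, rfl⟩⟩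
  have hX : closure (Set.range e') = ⊤ := by
    refine Eq.trans ?_ (closure_closure_coe_preimage (k := Set.range e))
    congr 1
    ext v
    exact ⟨fun ⟨x, h⟩ => ⟨x, congrArg Subtype.val h⟩, fun ⟨x, h⟩ => ⟨x, Subtype.ext h⟩⟩
  let σ0 : (ZMod (p ^ n) → G) →* (ZMod (p ^ n) → G) :=
    { toFun := fun f m => f (m + m), map_one' := rfl, map_mul' := fun _ _ => rfl }
  have hσ0 : ∀ x, σ0 (e x) = e x ^ 2 := by
    intro x
    ext m
    change x ^ (m + m).val = (x ^ m.val) ^ 2
    rw [ZMod.val_add, ← pow_eq_pow_mod _ (hc x), pow_add, pow_two]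
  have hH : H ≤ H.comap σ0 := by
    refine (closure_le _).2 ?_
    rintro _ ⟨x, rfl⟩
    change σ0 (e x) ∈ H
    rw [hσ0]
    exact pow_mem (e' x).2 2
  let σ : H →* H := (σ0.comp H.subtype).codRestrict H fun v => hH v.2
  have hpow : ∀ v : H, v ^ p ^ n = 1 := fun v => Subtype.ext (funext fun m => hc _)
  have hγ : ∀ v : H, v ∈ γ H (n + 1) → v = 1 := fun v hv => Subtype.ext (funext fun m => by
    have := γ_le n (γ_map ((Pi.evalMonoidHom (fun _ => G) m).comp H.subtype) hv)
    rwa [γ_bot hp hG] at this)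
  have h1 : Abelianization.of (e' z) ≠ 1 := fun h => hz <| by
    have := hγ _ (sep σ _ hX (by rintro _ ⟨x, rfl⟩; exact Subtype.ext (hσ0 x)) hp hn (e' z)
      ⟨z, rfl⟩ (hpow _) ((QuotientGroup.eq_one_iff _).1 h) n le_rfl)
    have h2 : z ^ (1 : ZMod (p ^ n)).val = 1 := congrFun (congrArg Subtype.val this) 1
    rwa [ZMod.val_one, pow_one] at h2
  obtain ⟨χ, hχ⟩ := CommGroup.exists_apply_ne_one_of_hasEnoughRootsOfUnity (Abelianization H) ℂ h1
  let ψ : H →* rootsOfUnity (p ^ n) ℂ := (χ.comp Abelianization.of).codRestrict _ fun v => by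
    rw [mem_rootsOfUnity, ← map_pow, hpow, map_one]
  refine ⟨fun x => ψ (e' x), ?_, fun h => hχ (congrArg Subtype.val h), fun l hl => ?_⟩
  · exact (congrArg ψ (show e' 1 = 1 from Subtype.ext (funext fun m => one_pow _))).trans ψ.map_one
  · ext1 g
    have h2 := D_nat (MonoidHom.id G) ψ l e' (fun x => ψ (e' x)) (fun _ => rfl) g
    have h3 : D l e' g = 1 := Subtype.ext (funext fun m => by
      have := D_nat (MonoidHom.id G) ((Pi.evalMonoidHom (fun _ => G) m).comp H.subtype) l e'
        (fun x => x ^ m.val) (fun _ => rfl) g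
      refine this.trans (D_pow n (γ_bot hp hG) _ (by simp [hl]) _ _))
    rw [h3, map_one] at h2
    simpa using h2.symm

section
variable {A : Type} [CommGroup A]

/-- difference operator -/
def Δ (a : G) : (G → A) →* (G → A) where
  toFun f g := f (a * g) * (f g)⁻¹
  map_one' := funext fun g => by simp
  map_mul' f f' := funext fun g => by simp [mul_mul_mul_comm, mul_comm]

variable (G A) in
/-- polynomial functions -/
def P : ℕ → Subgroup (G → A)
  | 0 => ⊥
  | k + 1 => ⨅ a : G, (P k).comap (Δ a)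

theorem mem_P (k : ℕ) (f : G → A) (h : ∀ l : List G, l.length = k → D l f = fun _ => 1) :
    f ∈ P G A k := by
  induction k generalizing f with
  | zero => exact h [] rfl
  | succ k ih => exact mem_iInf.2 fun a => ih _ fun l hl => h (a :: l) (by simp [hl])

theorem tr_mem (k : ℕ) (b : G) (f : G → A) (h : f ∈ P G A k) : (fun g => f (g * b)) ∈ P G A k := by
  induction k generalizing f with
  | zero => rw [mem_bot.1 h]; exact one_mem _
  | succ k ih =>
    refine mem_iInf.2 fun a => ?_
    have := ih _ (mem_iInf.1 h a)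
    simpa only [mem_comap, Δ, MonoidHom.coe_mk, OneHom.coe_mk, mul_assoc] using this

/-- the translation action -/
def ρ (k : ℕ) : G →* MulAut (P G A k) where
  toFun b :=
    { toFun := fun f => ⟨fun g => f.1 (g * b), tr_mem k b _ f.2⟩
      invFun := fun f => ⟨fun g => f.1 (g * b⁻¹), tr_mem k _ _ f.2⟩
      left_inv := fun f => Subtype.ext (funext fun g => by simp)
      right_inv := fun f => Subtype.ext (funext fun g => by simp)
      map_mul' := fun _ _ => rfl }
  map_one' := MulEquiv.ext fun f => Subtype.ext (funext fun g => by simp)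
  map_mul' b c := MulEquiv.ext fun f => Subtype.ext (funext fun g => by simp [mul_assoc])

/-- size bound -/
def bd (n : ℕ) : ℕ → ℕ
  | 0 => 0
  | k + 1 => 1 + bd n k * n

theorem card_P [Finite G] [Finite A] {n : ℕ} (s : Finset G) (hs : s.card ≤ n)
    (h : closure (s : Set G) = ⊤) (k : ℕ) : Nat.card (P G A k) ≤ Nat.card A ^ bd n k := by
  induction k with
  | zero => exact (card_bot (G := G → A)).le
  | succ k ih =>
    let φ : P G A (k + 1) →* A × (s → P G A k) :=
      { toFun := fun f => (f.1 1, fun a => ⟨Δ a.1 f.1, mem_iInf.1 f.2 a.1⟩)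
        map_one' := Prod.ext rfl (funext fun a => Subtype.ext (map_one (Δ a.1)))
        map_mul' := fun f f' => Prod.ext rfl (funext fun a => Subtype.ext (map_mul (Δ a.1) _ _)) }
    have hφ : Function.Injective φ := (injective_iff_map_eq_one _).2 fun f hf => by
      have h1 : f.1 1 = 1 := congrArg Prod.fst hf
      have h2 : ∀ a ∈ s, ∀ g, f.1 (a * g) = f.1 g := fun a ha g =>
        mul_inv_eq_one.1 (congrFun (congrArg Subtype.val (congrFun (congrArg Prod.snd hf) ⟨a, ha⟩)) g)
      have h3 : ∀ a ∈ closure (s : Set G), ∀ g, f.1 (a * g) = f.1 g := by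
        intro a ha
        induction ha using closure_induction with
        | mem a ha => exact h2 a ha
        | one => simp
        | mul a b _ _ ha hb => intro g; rw [mul_assoc, ha, hb]
        | inv a _ ha => intro g; rw [← ha, mul_inv_cancel_left]
      exact Subtype.ext (funext fun g => by simpa [h1] using h3 g (h ▸ mem_top g) 1)
    refine (Nat.card_le_card_of_injective _ hφ).trans ?_
    rw [Nat.card_prod, Nat.card_fun, bd, pow_add, pow_one, pow_mul]
    refine Nat.mul_le_mul_left _ ((Nat.pow_le_pow_left ih _).trans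
      (Nat.pow_le_pow_right (pow_pos Nat.card_pos _) (by simpa using hs)))

end

theorem faithful {p n : ℕ} (hp : p.Prime) (hG : Nat.card G = p ^ n) (hn : 2 ^ n < p) :
    ∃ (M : Type) (_ : CommGroup M) (e : ℕ), Nat.card M = p ^ e ∧ e ≤ n * bd n (n + 1) ∧
      ∃ φ : G →* MulAut M, Function.Injective φ := by
  have : Finite G := Nat.finite_of_card_ne_zero (hG ▸ pow_ne_zero n hp.ne_zero)
  have := Fact.mk hp
  obtain ⟨s, hs, h⟩ := rank hp hG
  have hA : Nat.card (rootsOfUnity (p ^ n) ℂ) = p ^ n := Complex.card_rootsOfUnity _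
  have hP : IsPGroup p (P G (rootsOfUnity (p ^ n) ℂ) (n + 1)) := fun f =>
    ⟨n, Subtype.ext (funext fun g => Subtype.ext (f.1 g).2)⟩
  obtain ⟨e, he⟩ := IsPGroup.iff_card.1 hP
  refine ⟨P G (rootsOfUnity (p ^ n) ℂ) (n + 1), inferInstance, e, he, ?_, ρ _,
    (injective_iff_map_eq_one _).2 fun z hz => ?_⟩
  · have := card_P (A := rootsOfUnity (p ^ n) ℂ) s hs h (n + 1)
    rwa [he, hA, ← pow_mul, Nat.pow_le_pow_iff_right hp.one_lt] at this
  · by_contra hz'
    obtain ⟨f, h1, h2, h3⟩ := exists_poly hp hG hn z hz'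
    have : f (1 * z) = f 1 :=
      congrFun (congrArg Subtype.val (MulEquiv.congr_fun hz ⟨f, mem_P _ f h3⟩)) 1
    rw [one_mul, h1] at this
    exact h2 this

theorem card_aut {p e : ℕ} (hp : p.Prime) (hG : Nat.card G = p ^ e) :
    Nat.card (MulAut G) ≤ p ^ (e * e) := by
  have : Finite G := Nat.finite_of_card_ne_zero (hG ▸ pow_ne_zero e hp.ne_zero)
  obtain ⟨s, hs, h⟩ := rank hp hG
  have : Function.Injective fun (φ : MulAut G) (a : s) => φ a := fun φ ψ e =>
    MulEquiv.toMonoidHom_injective (MonoidHom.eq_of_eqOn_dense h fun a ha => congrFun e ⟨a, ha⟩)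
  refine (Nat.card_le_card_of_injective _ this).trans ?_
  rw [Nat.card_fun, hG, pow_mul]
  exact Nat.pow_le_pow_right (pow_pos hp.pos _) (by simpa using hs)

/-- types of abelian groups -/
abbrev T (B : ℕ) : Type := Σ r : Fin (B + 1), Fin r → Fin (B + 1)

/-- the abelian group of a type -/
abbrev W (p : ℕ) {B : ℕ} (τ : T B) : Type := ∀ i : Fin τ.1, Multiplicative (ZMod (p ^ (τ.2 i : ℕ)))

theorem card_U {p : ℕ} (hp : p.Prime) (B : ℕ) :
    Nat.card (∀ τ : T B, MulAut (W p τ)) ≤ p ^ (B * B * (B * B) * Fintype.card (T B)) := by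
  rw [Nat.card_pi, pow_mul]
  refine Finset.prod_le_pow_card _ _ _ fun τ _ => ?_
  have h1 : Nat.card (W p τ) = p ^ ∑ i, (τ.2 i : ℕ) := by
    rw [Nat.card_pi, ← Finset.prod_pow_eq_pow_sum]
    exact Finset.prod_congr rfl fun _ _ => Nat.card_zmod _
  have h2 : ∑ i, (τ.2 i : ℕ) ≤ B * B := by
    refine (Finset.sum_le_card_nsmul _ _ B fun i _ => Nat.lt_succ_iff.1 (τ.2 i).2).trans ?_
    simpa using Nat.mul_le_mul_right B (Nat.lt_succ_iff.1 τ.1.2)
  exact (card_aut hp h1).trans (Nat.pow_le_pow_right hp.pos (Nat.mul_le_mul h2 h2))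

theorem embed {p e B : ℕ} (hp : p.Prime) {M : Type} [CommGroup M] (hM : Nat.card M = p ^ e)
    (he : e ≤ B) : ∃ φ : MulAut M →* ∀ τ : T B, MulAut (W p τ), Function.Injective φ := by
  have : Finite M := Nat.finite_of_card_ne_zero (hM ▸ pow_ne_zero e hp.ne_zero)
  obtain ⟨ι, _, m, hm, ⟨f⟩⟩ := CommGroup.equiv_prod_multiplicative_zmod_of_finite M
  have h1 : ∏ i, m i = p ^ e := by
    rw [← hM, Nat.card_congr f.toEquiv, Nat.card_pi]
    exact Finset.prod_congr rfl fun _ _ => (Nat.card_zmod _).symm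
  choose a ha hm' using fun i =>
    (Nat.dvd_prime_pow hp).1 (h1 ▸ Finset.dvd_prod_of_mem m (Finset.mem_univ i))
  obtain rfl : m = fun i => p ^ a i := funext hm'
  have h2 : Fintype.card ι ≤ e := by
    rw [Finset.prod_pow_eq_pow_sum] at h1
    rw [← Nat.pow_right_injective hp.two_le h1]
    refine Finset.card_nsmul_le_sum Finset.univ a 1 (fun i _ => ?_) |>.trans' (by simp)
    exact Nat.pos_of_ne_zero fun h => by simpa [h] using hm i
  let c := Fintype.equivFin ι
  let τ : T B := ⟨⟨Fintype.card ι, by omega⟩, fun i => ⟨a (c.symm i), by have := ha (c.symm i); omega⟩⟩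
  let g : M ≃* W p τ := f.trans
    { Equiv.piCongrLeft' (fun i => Multiplicative (ZMod (p ^ a i))) c with
      map_mul' := fun _ _ => rfl }
  exact ⟨(MonoidHom.mulSingle _ τ).comp (MulAut.congr g).toMonoidHom,
    (Pi.mulSingle_injective τ).comp (MulAut.congr g).injective⟩

theorem main : ∃ F : ℕ → ℕ, ∀ p : ℕ, p.Prime → ∀ n : ℕ,
    ∃ (U : Type) (_ : Group U), Finite U ∧ Nat.card U ≤ p ^ F n ∧
      ∀ (H : Type) [Group H], Nat.card H = p ^ n → ∃ f : H →* U, Function.Injective f := by
  let B : ℕ → ℕ := fun n => n * bd n (n + 1)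
  refine ⟨fun n => B n * B n * (B n * B n) * Fintype.card (T (B n)) + ((2 ^ n) ^ n).factorial,
    fun p hp n => ?_⟩
  by_cases hn : 2 ^ n < p
  · have := Fact.mk hp
    refine ⟨∀ τ : T (B n), MulAut (W p τ), inferInstance, inferInstance,
      (card_U hp _).trans (Nat.pow_le_pow_right hp.pos (Nat.le_add_right _ _)), fun H _ hH => ?_⟩
    obtain ⟨M, _, e, hM, he, φ, hφ⟩ := faithful hp hH hn
    obtain ⟨ψ, hψ⟩ := embed hp hM he
    exact ⟨ψ.comp φ, hψ.comp hφ⟩
  · refine ⟨Equiv.Perm (Fin (p ^ n)), inferInstance, inferInstance, ?_, fun H _ hH => ?_⟩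
    · rw [Nat.card_perm, Nat.card_fin]
      refine (Nat.factorial_le (Nat.pow_le_pow_left (not_lt.1 hn) n)).trans ?_
      exact (Nat.lt_pow_self hp.one_lt).le.trans (Nat.pow_le_pow_right hp.pos (Nat.le_add_left _ _))
    · have : Finite H := Nat.finite_of_card_ne_zero (hH ▸ pow_ne_zero n hp.ne_zero)
      let c := Finite.equivFinOfCardEq hH
      exact ⟨c.permCongrHom.toMonoidHom.comp (MulAction.toPermHom H H),
        c.permCongrHom.injective.comp MulAction.toPerm_injective⟩

end Pool.Agent.H71.Cover
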