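import Mathlib

set_option autoImplicit false

namespace Pool.Agent.H71.CtblPerm

open Equiv
open scoped commutatorElement

variable {Ω : Type}

/-- moved points -/
def supp (σ : Perm Ω) : Set Ω := {x | σ x ≠ x}

theorem supp_mul (σ τ : Perm Ω) : supp (σ * τ) ⊆ supp σ ∪ supp τ := by
  intro x hx
  by_contra h
  simp only [supp, Set.mem_union, Set.mem_ofPred_eq, not_or, not_not] at h hx
  exact hx (by rw [Perm.mul_apply, h.2, h.1])

theorem supp_inv (σ : Perm Ω) : supp σ⁻¹ = supp σ := by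
  ext x
  simp only [supp, Set.mem_ofPred_eq, ne_eq, Perm.inv_eq_iff_eq]
  exact not_congr eq_comm

theorem supp_conj (k σ : Perm Ω) : supp (k * σ * k⁻¹) = k '' supp σ := by
  ext x
  obtain ⟨y, rfl⟩ := k.surjective x
  rw [k.injective.mem_set_image]
  simp [supp]

/-- countably supported permutations -/
def P (Ω : Type) : Subgroup (Perm Ω) where
  carrier := {σ | (supp σ).Countable}
  mul_mem' := fun {σ τ} hσ hτ => (Set.Countable.union hσ hτ).mono (supp_mul σ τ)
  one_mem' := by simp [supp]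
  inv_mem' := fun {σ} hσ => by
    change (supp σ⁻¹).Countable
    rw [supp_inv]; exact hσ

theorem via_mem {J : Type} [Countable J] (ι : J ↪ Ω) (e : Perm J) :
    Perm.viaEmbeddingHom ι e ∈ P Ω := by
  refine (Set.countable_range ι).mono fun x hx => ?_
  by_contra h
  exact hx (Perm.viaEmbedding_apply_of_notMem e ι x h)

theorem emb (D : Set Ω) {I : Type} (i0 : I) (j : D × I → Ω) (hj : Function.Injective j)
    (hD : ∀ x, j x ∉ D) :
    ∃ ι : D × I ↪ Ω, (∀ d, ι (d, i0) = d) ∧ ∀ d i, i ≠ i0 → ι (d, i) = j (d, i) := by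
  classical
  refine ⟨⟨fun x => if x.2 = i0 then x.1.1 else j x, ?_⟩, fun d => if_pos rfl,
    fun d i hi => if_neg hi⟩
  rintro ⟨d, i⟩ ⟨d', i'⟩ h
  dsimp only at h
  by_cases hi : i = i0 <;> by_cases hi' : i' = i0
  · rw [if_pos hi, if_pos hi'] at h
    rw [hi, hi', Subtype.ext h]
  · rw [if_pos hi, if_neg hi'] at h
    exact absurd (h ▸ d.2) (hD _)
  · rw [if_neg hi, if_pos hi'] at h
    exact absurd (h ▸ d'.2) (hD _)
  · rw [if_neg hi, if_neg hi'] at h
    exact hj h

theorem exists_inj {J : Type} [Countable J] (U : Set Ω) (hU : U.Infinite) :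
    ∃ j : J → Ω, Function.Injective j ∧ ∀ x, j x ∈ U := by
  obtain ⟨f, hf⟩ := Countable.exists_injective_nat J
  exact ⟨fun x => hU.natEmbedding U (f x), Subtype.val_injective.comp
    ((hU.natEmbedding U).injective.comp hf), fun x => (hU.natEmbedding U (f x)).2⟩

theorem move (D U : Set Ω) (hD : D.Countable) (hU : U.Infinite) (hDU : Disjoint D U) :
    ∃ k ∈ P Ω, k '' D ⊆ U := by
  have := hD.to_subtype
  obtain ⟨j, hj, hjU⟩ := exists_inj (J := D × Bool) U hU
  obtain ⟨ι, h0, h1⟩ := emb D false j hj (fun x hx => Set.disjoint_left.1 hDU hx (hjU x))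
  refine ⟨_, via_mem ι (Equiv.prodCongr (Equiv.refl D) Equiv.boolNot), ?_⟩
  rintro _ ⟨d, hd, rfl⟩
  have := Perm.viaEmbedding_apply (Equiv.prodCongr (Equiv.refl D) Equiv.boolNot) ι (⟨d, hd⟩, false)
  rw [h0] at this
  rw [Perm.viaEmbeddingHom_apply, this]
  simp only [Equiv.prodCongr_apply, Equiv.coe_refl, Prod.map, id, Equiv.boolNot_apply, Bool.not_false]
  rw [h1 _ _ (by simp)]
  exact hjU _

theorem displaced (f : Perm Ω) (hf : (supp f).Infinite) :
    ∃ U : Set Ω, U.Infinite ∧ ∀ x ∈ U, f x ∉ U := by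
  obtain ⟨U, hU⟩ := zorn_subset {U : Set Ω | ∀ x ∈ U, f x ∉ U} (by
    intro c hc hch
    refine ⟨⋃₀ c, ?_, fun s hs => Set.subset_sUnion_of_mem hs⟩
    rintro x ⟨s, hs, hx⟩ ⟨t, ht, hy⟩
    rcases hch.total hs ht with h | h
    · exact hc ht x (h hx) hy
    · exact hc hs x hx (h hy))
  refine ⟨U, fun hfin => hf ?_, hU.prop⟩
  refine ((hfin.union (hfin.image f)).union (hfin.preimage f.injective.injOn)).subset ?_
  intro x hx
  by_contra h
  simp only [Set.mem_union, Set.mem_image, Set.mem_preimage, not_or] at h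
  apply h.1.1
  refine hU.le_of_ge (y := insert x U) ?_ (Set.subset_insert _ _) (Set.mem_insert _ _)
  rintro y (rfl | hy) (h' | h')
  · exact hx h'
  · exact h.2 h'
  · exact h.1.2 ⟨y, hy, h'⟩
  · exact hU.prop y hy h'

theorem commute_of_disjoint {g h : Perm Ω} (hd : Disjoint (supp g) (supp h)) : Commute g h := by
  apply Perm.Disjoint.commute
  intro x
  by_contra hx
  push Not at hx
  exact Set.disjoint_left.1 hd hx.1 hx.2

variable [Uncountable Ω]

theorem compl_inf {D : Set Ω} (hD : D.Countable) : Dᶜ.Infinite := by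
  intro h
  have := hD.union h.countable
  rw [Set.union_compl_self] at this
  exact Set.not_countable_univ this

theorem comm_mem (M : Subgroup (Perm Ω)) (hM : ∀ p ∈ P Ω, ∀ m ∈ M, p * m * p⁻¹ ∈ M)
    (f : Perm Ω) (hfM : f ∈ M) (hfP : f ∈ P Ω) (hf : (supp f).Infinite) :
    ∀ g ∈ P Ω, ∀ h ∈ P Ω, ⁅g, h⁆ ∈ M := by
  let R : Set Ω → Prop := fun U => ∀ g ∈ P Ω, ∀ h ∈ P Ω, supp g ⊆ U → supp h ⊆ U → ⁅g, h⁆ ∈ M
  have step : ∀ U W : Set Ω, U.Infinite → R U → Disjoint W U → R W := by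
    intro U W hU hR hd g hg h hh hgW hhW
    obtain ⟨k, hk, hkU⟩ := move (supp g ∪ supp h) U (Set.Countable.union hg hh) hU
      (hd.mono_left (Set.union_subset hgW hhW))
    have := hR (k * g * k⁻¹) (mul_mem (mul_mem hk hg) (inv_mem hk))
      (k * h * k⁻¹) (mul_mem (mul_mem hk hh) (inv_mem hk))
      (by rw [supp_conj]; exact (Set.image_mono Set.subset_union_left).trans hkU)
      (by rw [supp_conj]; exact (Set.image_mono Set.subset_union_right).trans hkU)
    have h2 := hM k⁻¹ (inv_mem hk) _ this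
    have e : k⁻¹ * ⁅k * g * k⁻¹, k * h * k⁻¹⁆ * k⁻¹⁻¹ = ⁅g, h⁆ := by
      simp only [commutatorElement_def]; group
    rwa [e] at h2
  obtain ⟨U, hU, hfU⟩ := displaced f hf
  have hUc : U.Countable := Set.Countable.mono (s₂ := supp f)
    (fun x hx (e : f x = x) => hfU x hx (by rw [e]; exact hx)) hfP
  have R0 : R U := by
    intro g hg h hh hgU hhU
    have hd : Disjoint (supp (f * g⁻¹ * f⁻¹)) U := by
      rw [supp_conj, supp_inv, Set.disjoint_left]
      rintro _ ⟨x, hx, rfl⟩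
      exact hfU x (hgU hx)
    have c2 : Commute (f * g⁻¹ * f⁻¹) h := commute_of_disjoint (hd.mono_right hhU)
    have m1 : g * (f * g⁻¹ * f⁻¹) ∈ M := by
      have := mul_mem (hM g hg f hfM) (inv_mem hfM)
      simpa only [mul_assoc] using this
    have m2 := mul_mem m1 (hM h hh _ (inv_mem m1))
    have e : g * (f * g⁻¹ * f⁻¹) * (h * (g * (f * g⁻¹ * f⁻¹))⁻¹ * h⁻¹) = ⁅g, h⁆ := by
      rw [← mul_assoc, ← mul_assoc, mul_assoc g, c2.eq, commutatorElement_def]
      group
    rwa [e] at m2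
  intro g hg h hh
  have hD : (supp g ∪ supp h).Countable := Set.Countable.union hg hh
  have R1 : R (supp g ∪ supp h ∪ U)ᶜ := step U _ hU R0
    (Set.disjoint_left.2 fun x hx hx' => hx (Or.inr hx'))
  exact step _ (supp g ∪ supp h) (compl_inf (hD.union hUc)) R1
    (Set.disjoint_left.2 fun x hx hx' => hx' (Or.inl hx)) g hg h hh
    Set.subset_union_left Set.subset_union_right

theorem swindle (σ : Perm Ω) (hσ : σ ∈ P Ω) : ∃ g ∈ P Ω, ∃ h ∈ P Ω, σ = ⁅g, h⁆ := by
  classical
  have hD : (supp σ).Countable := hσ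
  have := hD.to_subtype
  obtain ⟨j, hj, hjU⟩ := exists_inj (J := supp σ × ℤ) _ (compl_inf hD)
  obtain ⟨ι, h0, h1⟩ := emb (supp σ) (0 : ℤ) j hj hjU
  let s : Perm (supp σ) := σ.subtypePerm (fun x => by simp [supp])
  let a : Perm (supp σ × ℤ) := Equiv.prodCongrLeft (fun n => if 0 ≤ n then s else 1)
  let t : Perm (supp σ × ℤ) := Equiv.prodCongr (Equiv.refl _) (Equiv.addRight 1)
  refine ⟨_, via_mem ι a, _, via_mem ι t, ?_⟩
  rw [← map_commutatorElement]
  have e : ∀ d n, ⁅a, t⁆ (d, n) = ((if n = 0 then s d else d), n) := by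
    intro d n
    have e1 : ∀ d n, a (d, n) = ((if 0 ≤ n then s else 1) d, n) := fun d n => rfl
    have e2 : ∀ d n, a⁻¹ (d, n) = ((if 0 ≤ n then s else 1)⁻¹ d, n) := fun d n => rfl
    have e3 : ∀ d n, t (d, n) = (d, n + 1) := fun d n => rfl
    have e4 : ∀ d n, t⁻¹ (d, n) = (d, n + -1) := fun d n => rfl
    rw [commutatorElement_def]
    simp only [Perm.mul_apply, e1, e2, e3, e4, neg_add_cancel_right]
    by_cases hn : n = 0
    · subst hn; simp
    · by_cases hn' : 0 ≤ n
      · have : 0 ≤ n + -1 := by omega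
        simp [hn, hn', this]
      · have : ¬ 0 ≤ n + -1 := by omega
        simp [hn, hn', this]
  ext x
  rw [Perm.viaEmbeddingHom_apply]
  by_cases hx : x ∈ Set.range ι
  · obtain ⟨⟨d, n⟩, rfl⟩ := hx
    rw [Perm.viaEmbedding_apply, e]
    by_cases hn : n = 0
    · subst hn
      rw [if_pos rfl, h0, h0]
      rfl
    · rw [if_neg hn]
      by_contra hne
      have := hjU (d, n)
      rw [← h1 _ _ hn] at this
      exact this hne
  · rw [Perm.viaEmbedding_apply_of_notMem _ _ _ hx]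
    by_contra hne
    exact hx ⟨(⟨x, hne⟩, 0), h0 _⟩

theorem simple_range {G : Type} [Group G] (ψ : P Ω →* G)
    (hψ : ∀ σ, ψ σ = 1 ↔ (supp σ.1).Finite) : IsSimpleGroup ψ.range := by
  have hnt : Nontrivial ψ.range := by
    obtain ⟨j, hj, -⟩ := exists_inj (J := ℤ) _ (Set.infinite_univ (α := Ω))
    refine ⟨⟨ψ.rangeRestrict ⟨_, via_mem ⟨j, hj⟩ (Equiv.addRight 1)⟩, 1, fun h => ?_⟩⟩
    have := (hψ _).1 (congrArg Subtype.val h)
    refine Set.infinite_range_of_injective hj (this.subset ?_)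
    rintro _ ⟨n, rfl⟩ e
    have e' := Perm.viaEmbedding_apply (Equiv.addRight (1 : ℤ)) ⟨j, hj⟩ n
    have := hj (e'.symm.trans e)
    simp at this
  refine ⟨fun M hM => ?_⟩
  by_cases hb : M = ⊥
  · exact Or.inl hb
  right
  obtain ⟨⟨m, hm⟩, hm1⟩ := Subgroup.ne_bot_iff_exists_ne_one.1 hb
  obtain ⟨f, rfl⟩ := ψ.rangeRestrict_surjective m
  have hf : (supp f.1).Infinite := fun h => hm1 (Subtype.ext (Subtype.ext ((hψ f).2 h)))
  have key := comm_mem ((M.comap ψ.rangeRestrict).map (P Ω).subtype) (by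
    rintro p hp _ ⟨m, hm, rfl⟩
    exact ⟨_, (hM.comap _).conj_mem m hm ⟨p, hp⟩, rfl⟩) f.1 ⟨f, hm, rfl⟩ f.2 hf
  rw [eq_top_iff]
  intro x _
  obtain ⟨σ, rfl⟩ := ψ.rangeRestrict_surjective x
  obtain ⟨g, hg, h, hh, e⟩ := swindle σ.1 σ.2
  obtain ⟨y, hy, e'⟩ := key g hg h hh
  rw [← e] at e'
  rw [← Subtype.ext e']
  exact hy

theorem colour {C : Type} [Countable C] (f : C × Ω → C) (hf : {x | f x ≠ x.1}.Countable) :
    ∃ τ ∈ P (C × Ω), ∀ x, (τ x).1 = f x := by
  classical
  set D := {x | f x ≠ x.1} with hD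
  have := hf.to_subtype
  obtain ⟨j, hj, hjU⟩ := exists_inj (J := D × ℤ) _ (compl_inf (hf.image Prod.snd))
  obtain ⟨ι, h0, h1⟩ := emb D (0 : ℤ) (fun x => (if 0 < x.2 then f x.1 else x.1.1.1, j x))
    (fun x y h => hj (congrArg Prod.snd h)) (fun x hx => hjU x ⟨_, hx, rfl⟩)
  let t : Perm (D × ℤ) := Equiv.prodCongr (Equiv.refl _) (Equiv.addRight 1)
  have e3 : ∀ d n, t (d, n) = (d, n + 1) := fun d n => rfl
  have col : ∀ d n, (ι (d, n)).1 = if 0 < n then f d else d.1.1 := by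
    intro d n
    by_cases hn : n = 0
    · subst hn; rw [h0]; simp
    · rw [h1 _ _ hn]
  refine ⟨_, via_mem ι t, fun x => ?_⟩
  rw [Perm.viaEmbeddingHom_apply]
  by_cases hx : x ∈ Set.range ι
  · obtain ⟨⟨d, n⟩, rfl⟩ := hx
    rw [Perm.viaEmbedding_apply, e3, col]
    by_cases hn : n = 0
    · subst hn
      rw [h0]; simp
    · have : ι (d, n) ∉ D := by
        rw [h1 _ _ hn]
        exact fun hx => hjU _ ⟨_, hx, rfl⟩
      have this : f (ι (d, n)) = (ι (d, n)).1 := not_not.1 this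
      rw [this, col]
      have : 0 < n + 1 ↔ 0 < n := by omega
      simp only [this]
  · rw [Perm.viaEmbedding_apply_of_notMem _ _ _ hx]
    by_contra hne
    exact hx ⟨(⟨x, Ne.symm hne⟩, 0), h0 _⟩

theorem no_series {G : Type} [Group G] (V : Subgroup G) [hV : V.Normal]
    (hc : ∀ x ∈ V, ∀ y ∈ V, x * y = y * x) (H K : Subgroup G)
    (hn : (H.subgroupOf K).Normal)
    (hmax : ∀ M : Subgroup K, M.Normal → H.subgroupOf K ≤ M → M = H.subgroupOf K ∨ M = ⊤)
    (hfin : Finite (V ⊓ H : Subgroup G)) : Finite (V ⊓ K : Subgroup G) := by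
  set N := H.subgroupOf K
  let φ : (V ⊓ K : Subgroup G) →* K ⧸ N :=
    (QuotientGroup.mk' N).comp (Subgroup.inclusion inf_le_right)
  have hker : Finite φ.ker := by
    refine Finite.of_injective (fun x => (⟨x.1.1, x.1.2.1, ?_⟩ : (V ⊓ H : Subgroup G))) ?_
    · exact (QuotientGroup.eq_one_iff (N := N) _).1 x.2
    · intro x y h
      exact Subtype.ext (Subtype.ext (Subtype.mk.inj h))
  have hran : Finite φ.range := by
    have hr : φ.range = (V.subgroupOf K).map (QuotientGroup.mk' N) := by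
      ext x
      constructor
      · rintro ⟨y, rfl⟩
        exact ⟨⟨y.1, y.2.2⟩, y.2.1, rfl⟩
      · rintro ⟨y, hy, rfl⟩
        exact ⟨⟨y.1, hy, y.2⟩, rfl⟩
    have hall : ∀ M : Subgroup (K ⧸ N), M.Normal → M = ⊥ ∨ M = ⊤ := by
      intro M hM
      rcases hmax (M.comap (QuotientGroup.mk' N)) (hM.comap _) (by
        intro x hx
        rw [Subgroup.mem_comap, QuotientGroup.mk'_apply, (QuotientGroup.eq_one_iff x).2 hx]
        exact one_mem _) with h | h
      · left
        rw [eq_bot_iff]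
        intro x hx
        obtain ⟨y, rfl⟩ := QuotientGroup.mk'_surjective N x
        have : y ∈ N := h ▸ hx
        exact (QuotientGroup.eq_one_iff y).2 this
      · right
        rw [eq_top_iff]
        intro x _
        obtain ⟨y, rfl⟩ := QuotientGroup.mk'_surjective N x
        exact (h ▸ Subgroup.mem_top y : y ∈ M.comap (QuotientGroup.mk' N))
    rcases subsingleton_or_nontrivial (K ⧸ N) with hs | hs
    · infer_instance
    have : IsSimpleGroup (K ⧸ N) := ⟨hall⟩
    rcases hall φ.range (by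
      rw [hr]
      exact Subgroup.Normal.map inferInstance _ (QuotientGroup.mk'_surjective N)) with h | h
    · rw [h]; infer_instance
    · have : IsMulCommutative (K ⧸ N) := ⟨⟨fun x y => by
        obtain ⟨x, rfl⟩ : x ∈ φ.range := h ▸ Subgroup.mem_top x
        obtain ⟨y, rfl⟩ : y ∈ φ.range := h ▸ Subgroup.mem_top y
        rw [← map_mul, ← map_mul]
        congr 1
        exact Subtype.ext (hc _ x.2.1 _ y.2.1)⟩⟩
      have hp := Group.is_simple_iff_prime_card.1 ‹IsSimpleGroup (K ⧸ N)›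
      have : Finite (K ⧸ N) := Nat.finite_of_card_ne_zero hp.ne_zero
      infer_instance
  have := Finite.of_equiv _ (QuotientGroup.quotientKerEquivRange φ).symm.toEquiv
  exact Finite.of_equiv _ (Subgroup.groupEquivQuotientProdSubgroup (s := φ.ker)).symm

end Pool.Agent.H71.CtblPerm
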