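import Mathlib
import Pool.Agent.H71.CtblPerm

set_option autoImplicit false

namespace Pool.Agent.H71.CtblPerm

open Equiv

abbrev C : Type := Multiplicative ℤ
abbrev X : Type := C × ℝ
abbrev Γ : Type := (X → C) ⋊[mulAutArrow] Perm X

theorem act (σ : Perm X) (v : X → C) (x : X) : (mulAutArrow σ v : X → C) x = v (σ⁻¹ x) := rfl

theorem supp_act (σ : Perm X) (v : X → C) :
    Function.mulSupport (mulAutArrow σ v : X → C) = σ '' Function.mulSupport v := by
  ext x
  obtain ⟨y, rfl⟩ := σ.surjective x
  rw [σ.injective.mem_set_image, Function.mem_mulSupport, act]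
  simp

/-- pairs with countable support -/
def G0 : Subgroup Γ where
  carrier := {g | (Function.mulSupport g.left).Countable ∧ (supp g.right).Countable}
  mul_mem' := fun {g h} hg hh => ⟨by
    rw [SemidirectProduct.mul_left]
    refine Set.Countable.mono (Function.mulSupport_mul _ _) (hg.1.union ?_)
    rw [supp_act]
    exact hh.1.image _, (hg.2.union hh.2).mono (supp_mul _ _)⟩
  one_mem' := ⟨by simp, by simp [supp]⟩
  inv_mem' := fun {g} hg => ⟨by
    rw [SemidirectProduct.inv_left, supp_act, Function.mulSupport_inv]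
    exact hg.1.image _, by
    rw [SemidirectProduct.inv_right, supp_inv]
    exact hg.2⟩

/-- pairs with finite support -/
def N0 : Subgroup Γ where
  carrier := {g | (Function.mulSupport g.left).Finite ∧ (supp g.right).Finite}
  mul_mem' := fun {g h} hg hh => ⟨by
    rw [SemidirectProduct.mul_left]
    refine Set.Finite.subset (hg.1.union ?_) (Function.mulSupport_mul _ _)
    rw [supp_act]
    exact hh.1.image _, (hg.2.union hh.2).subset (supp_mul _ _)⟩
  one_mem' := ⟨by simp, by simp [supp]⟩
  inv_mem' := fun {g} hg => ⟨by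
    rw [SemidirectProduct.inv_left, supp_act, Function.mulSupport_inv]
    exact hg.1.image _, by
    rw [SemidirectProduct.inv_right, supp_inv]
    exact hg.2⟩

theorem conj_left (g n : Γ) (x : X) : (g * n * g⁻¹).left x =
    g.left x * n.left (g.right⁻¹ x) * (g.left ((g.right * n.right * g.right⁻¹)⁻¹ x))⁻¹ := rfl

theorem conj_supp (g n : Γ) : Function.mulSupport (g * n * g⁻¹).left ⊆
    g.right '' Function.mulSupport n.left ∪ g.right '' supp n.right := by
  intro x hx
  by_contra h
  apply hx
  rw [Set.mem_union, not_or, ← supp_conj, ← supp_inv] at h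
  have h1 : n.left (g.right⁻¹ x) = 1 := by
    by_contra e
    exact h.1 ⟨_, e, by simp⟩
  have h2 : (g.right * n.right * g.right⁻¹)⁻¹ x = x := not_not.1 h.2
  rw [conj_left, h1, h2, mul_one, mul_inv_cancel]

instance N0_normal : N0.Normal := ⟨fun n hn g =>
  ⟨((hn.1.image _).union (hn.2.image _)).subset (conj_supp g n), by
    simp only [SemidirectProduct.mul_right, SemidirectProduct.inv_right, supp_conj]
    exact hn.2.image _⟩⟩

instance G0_normal : G0.Normal := ⟨fun n hn g =>
  ⟨((hn.1.image _).union (hn.2.image _)).mono (conj_supp g n), by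
    simp only [SemidirectProduct.mul_right, SemidirectProduct.inv_right, supp_conj]
    exact hn.2.image _⟩⟩

abbrev G : Type := G0 ⧸ N0.subgroupOf G0

/-- conjugates of the permutation group -/
noncomputable def ψ (w : Γ) : P X →* G :=
  (QuotientGroup.mk' _).comp
    (((MulAut.conj w).toMonoidHom.comp (SemidirectProduct.inr.comp (P X).subtype)).codRestrict G0
      fun σ => G0_normal.conj_mem (SemidirectProduct.inr σ.1) ⟨by simp, σ.2⟩ w)

theorem ψ_ker (w : Γ) (σ : P X) : ψ w σ = 1 ↔ (supp σ.1).Finite := by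
  rw [ψ, MonoidHom.comp_apply, QuotientGroup.mk'_apply, QuotientGroup.eq_one_iff,
    Subgroup.mem_subgroupOf]
  change w * SemidirectProduct.inr σ.1 * w⁻¹ ∈ N0 ↔ _
  rw [N0_normal.mem_comm_iff, inv_mul_cancel_left]
  exact ⟨fun h => h.2, fun h => ⟨by simp, h⟩⟩

theorem factor (g : G) : ∃ a ∈ (ψ 1).range, ∃ b ∈ (ψ (SemidirectProduct.inl Prod.fst)).range,
    g = a * b := by
  obtain ⟨⟨g, hg⟩, rfl⟩ := QuotientGroup.mk_surjective g
  obtain ⟨τ, hτ, e⟩ := colour (fun x : X => g.left x * (g.right⁻¹ x).1) (by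
    refine (hg.1.union hg.2).mono fun x hx => ?_
    by_contra h
    apply hx
    rw [Set.mem_union, not_or, ← supp_inv] at h
    have h1 : g.left x = 1 := not_not.1 h.1
    have h2 : g.right⁻¹ x = x := not_not.1 h.2
    rw [h1, h2, one_mul])
  refine ⟨_, ⟨⟨τ⁻¹, inv_mem hτ⟩, rfl⟩, _, ⟨⟨τ * g.right, mul_mem hτ hg.2⟩, rfl⟩, ?_⟩
  rw [ψ, ψ, MonoidHom.comp_apply, MonoidHom.comp_apply, ← map_mul, QuotientGroup.mk'_apply]
  congr 1
  apply Subtype.ext
  change g = (1 * SemidirectProduct.inr τ⁻¹ * 1⁻¹) * (SemidirectProduct.inl Prod.fst *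
    SemidirectProduct.inr (τ * g.right) * (SemidirectProduct.inl Prod.fst)⁻¹)
  apply SemidirectProduct.ext
  · funext x
    simp only [SemidirectProduct.mul_left, SemidirectProduct.inv_left, SemidirectProduct.mul_right,
      SemidirectProduct.inv_right, Pi.mul_apply, act, Pi.inv_apply]
    simp [e]
  · simp

/-- the abelian normal subgroup -/
def V : Subgroup G :=
  ((SemidirectProduct.rightHom.ker : Subgroup Γ).subgroupOf G0).map (QuotientGroup.mk' _)

instance V_normal : V.Normal :=
  Subgroup.Normal.map inferInstance _ (QuotientGroup.mk'_surjective _)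

theorem V_comm : ∀ x ∈ V, ∀ y ∈ V, x * y = y * x := by
  rintro _ ⟨x, hx, rfl⟩ _ ⟨y, hy, rfl⟩
  rw [← map_mul, ← map_mul]
  congr 1
  apply Subtype.ext
  have hx' : x.1.right = 1 := hx
  have hy' : y.1.right = 1 := hy
  apply SemidirectProduct.ext
  · simp [hx', hy', mul_comm]
  · simp [hx', hy']

theorem V_inf : Infinite V := by
  classical
  obtain ⟨j, hj, -⟩ := exists_inj (J := ℕ) _ (Set.infinite_univ (α := X))
  let v : ℤ → X → C := fun n x => if x ∈ Set.range j then Multiplicative.ofAdd n else 1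
  have hv : ∀ n, SemidirectProduct.inl (v n) ∈ G0 := fun n => ⟨(Set.countable_range j).mono
    (fun x hx => by
      by_contra h
      exact hx (if_neg h)), by simp [supp]⟩
  refine Infinite.of_injective (fun n : ℤ => (⟨QuotientGroup.mk ⟨_, hv n⟩, ⟨_, hv n⟩,
    by simp [Subgroup.mem_subgroupOf], rfl⟩ : V)) fun n m h => ?_
  have h' := QuotientGroup.eq.1 (Subtype.mk.inj h)
  by_contra hne
  refine Set.infinite_range_of_injective hj (h'.1.subset fun x hx => ?_)
  simp only [Function.mem_mulSupport]
  change ((SemidirectProduct.inl (v n) : Γ)⁻¹ * SemidirectProduct.inl (v m)).left x ≠ 1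
  rw [← map_inv, ← map_mul, SemidirectProduct.left_inl]
  simp only [v, Pi.mul_apply, Pi.inv_apply, if_pos hx]
  rw [ne_eq, inv_mul_eq_one]
  exact fun e => hne (Multiplicative.ofAdd.injective e)

end Pool.Agent.H71.CtblPerm
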