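import Mathlib

/-! Uncountable abelian groups map onto large direct sums. -/

namespace Pool.Agent.H71.Dual

open Finsupp

variable {M : Type} [AddCommGroup M]

lemma countable_span {s : Set M} (hs : s.Countable) : (Submodule.span ℤ s : Set M).Countable := by
  have := hs.to_subtype
  refine (Set.countable_range (linearCombination ℤ (Subtype.val : s → M))).mono fun x hx => ?_
  exact (mem_span_iff_linearCombination ℤ s x).1 hx

/-- `p`-independence -/
def PInd (p : ℕ) (s : Set M) : Prop :=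
  ∀ l : M →₀ ℤ, (l.support : Set M) ⊆ s → linearCombination ℤ id l = 0 → ∀ a, (p : ℤ) ∣ l a

lemma exists_max (p : ℕ) (hp : p.Prime) : ∃ s : Set M, PInd p s ∧
    (∀ a, ∃ n : ℕ, n ≠ 0 ∧ n • a ∈ Submodule.span ℤ s) ∧
      ∀ a, p • a = 0 → a ∈ Submodule.span ℤ s := by
  classical
  obtain ⟨s, -, hs⟩ := Order.IsOfFiniteCharacter.exists_maximal (F := {s : Set M | PInd p s})
    (fun x => ⟨fun h y hy _ l hl => h l (hl.trans hy),
      fun h l hl => h _ hl (Finset.finite_toSet _) l le_rfl⟩) (x := ∅) (fun l hl _ a => by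
        have : l = 0 := by simpa using hl
        simp [this])
  have key : ∀ a, a ∉ s → ∃ n : ℤ, n • a ∈ Submodule.span ℤ s ∧ (n • a = 0 → ¬ (p : ℤ) ∣ n) := by
    intro a ha
    have : ¬ PInd p (insert a s) := fun h =>
      ha (hs.le_of_ge (y := insert a s) h (Set.subset_insert _ _) (Set.mem_insert _ _))
    simp only [PInd, not_forall] at this
    obtain ⟨l, hl, h0, b, hb⟩ := this
    have sup : ((l.erase a).support : Set M) ⊆ s := fun c hc => by
      rw [support_erase, Finset.mem_coe, Finset.mem_erase] at hc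
      exact (hl hc.2).resolve_left hc.1
    have e : l a • a + linearCombination ℤ id (l.erase a) = 0 := by
      rw [← h0]
      conv_rhs => rw [← single_add_erase a l, map_add, linearCombination_single, id]
    refine ⟨l a, ?_, fun hz hd => hb ?_⟩
    · rw [eq_neg_of_add_eq_zero_left e]
      refine Submodule.neg_mem _ ?_
      have := (mem_span_image_iff_linearCombination ℤ (v := id) (s := s)).2 ⟨_, sup, rfl⟩
      simpa using this
    · rw [hz, zero_add] at e
      have := hs.prop _ sup e b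
      by_cases hba : b = a
      · rwa [hba]
      · rwa [erase_ne hba] at this
  refine ⟨s, hs.prop, fun a => ?_, fun a hpa => ?_⟩
  · by_cases ha : a ∈ s
    · exact ⟨1, one_ne_zero, by simpa using Submodule.subset_span ha⟩
    obtain ⟨n, h1, h2⟩ := key a ha
    have hn : n ≠ 0 := by rintro rfl; exact h2 (zero_smul _ _) (dvd_zero _)
    refine ⟨n.natAbs, Int.natAbs_ne_zero.2 hn, ?_⟩
    rcases Int.natAbs_eq n with h | h
    · rwa [h, natCast_zsmul] at h1
    · rwa [h, neg_smul, neg_mem_iff, natCast_zsmul] at h1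
  · by_cases ha : a ∈ s
    · exact Submodule.subset_span ha
    obtain ⟨n, h1, h2⟩ := key a ha
    have hn : ¬ (p : ℤ) ∣ n := fun hd => by
      refine h2 ?_ hd
      obtain ⟨m, rfl⟩ := hd
      rw [mul_comm, mul_smul, natCast_zsmul, hpa, smul_zero]
    obtain ⟨u, v, huv⟩ := (Nat.prime_iff_prime_int.1 hp).irreducible.coprime_iff_not_dvd.2 hn
    have : a = v • n • a := by
      conv_lhs => rw [← one_smul ℤ a, ← huv, add_smul, mul_smul, natCast_zsmul, hpa, smul_zero,
        zero_add, mul_smul]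
    rw [this]
    exact Submodule.smul_mem _ _ h1

lemma exists_pind [Uncountable M] : ∃ p : ℕ, p.Prime ∧ ∃ s : Set M, ¬ s.Countable ∧ PInd p s := by
  by_contra hcon
  push Not at hcon
  choose s h1 h2 h3 using fun p : Nat.Primes => exists_max (M := M) p p.2
  have hc : ∀ p : Nat.Primes, (s p).Countable := fun p => by
    by_contra h; exact hcon p p.2 _ h (h1 p)
  have key : ∀ n : ℕ, n ≠ 0 → ∀ S : Set M, S.Countable → {a | n • a ∈ S}.Countable := by
    intro n
    induction n using induction_on_primes with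
    | zero => simp
    | one => intro _ S hS; simpa using hS
    | prime_mul p n hp ih =>
      intro hn S hS
      have hT := ih (right_ne_zero_of_mul hn) S hS
      have fib : ∀ b : M, {a | p • a = b}.Countable := fun b => by
        rcases Set.eq_empty_or_nonempty {a | p • a = b} with h | ⟨a₀, h⟩
        · rw [h]; exact Set.countable_empty
        · refine ((countable_span (hc ⟨p, hp⟩)).image (· + a₀)).mono fun a ha => ?_
          exact ⟨a - a₀, h3 ⟨p, hp⟩ _ (by
            change p • _ = 0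
            rw [smul_sub, show p • a = b from ha, show p • a₀ = b from h, sub_self]), by simp⟩
      refine (hT.biUnion fun b _ => fib b).mono fun a ha => ?_
      refine Set.mem_biUnion (x := p • a) ?_ rfl
      change n • p • a ∈ S
      rw [← mul_smul, mul_comm]; exact ha
  refine Set.not_countable_univ (α := M) ?_
  refine (Set.countable_iUnion fun n : ℕ => key (n + 1) n.succ_ne_zero _
    (countable_span (hc ⟨2, Nat.prime_two⟩))).mono fun a _ => ?_
  obtain ⟨n, hn, h⟩ := h2 ⟨2, Nat.prime_two⟩ a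
  exact Set.mem_iUnion.2 ⟨n - 1, by rwa [Nat.sub_add_cancel (Nat.pos_of_ne_zero hn)]⟩

/-- the Pruefer group -/
def Pr (p : ℕ) : AddSubgroup (AddCircle (1 : ℝ)) where
  carrier := {x | ∃ k, p ^ k • x = 0}
  zero_mem' := ⟨0, smul_zero _⟩
  add_mem' := fun ⟨k, hk⟩ ⟨l, hl⟩ => ⟨k + l, by
    rw [smul_add, pow_add, mul_smul _ _ _, mul_smul, hl, smul_comm, hk]; simp⟩
  neg_mem' := fun ⟨k, hk⟩ => ⟨k, by rw [smul_neg, hk, neg_zero]⟩

lemma Pr.div {p : ℕ} (hp : p.Prime) (n : ℕ) : n ≠ 0 → ∀ x : Pr p, ∃ y : Pr p, n • y = x := by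
  induction n using induction_on_primes with
  | zero => simp
  | one => intro _ x; exact ⟨x, one_smul _ _⟩
  | prime_mul q n hq ih =>
    intro hn x
    obtain ⟨k, hk⟩ := x.2
    obtain ⟨y, hy⟩ : ∃ y : Pr p, q • y = x := by
      by_cases hqp : q = p
      · subst hqp
        have := DivisibleBy.div_cancel (x : AddCircle (1 : ℝ)) (n := (q : ℤ)) (by exact_mod_cast hq.ne_zero)
        rw [natCast_zsmul] at this
        exact ⟨⟨_, k + 1, by rw [pow_succ, mul_smul, this, hk]⟩, Subtype.ext this⟩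
      · obtain ⟨u, v, huv⟩ := Nat.isCoprime_iff_coprime.2
          (((Nat.coprime_primes hq hp).2 hqp).pow_right k)
        have hk' : p ^ k • x = 0 := Subtype.ext hk
        refine ⟨u • x, ?_⟩
        conv_rhs => rw [← one_smul ℤ x, ← huv, add_smul, mul_smul v, natCast_zsmul, hk', smul_zero,
          add_zero, mul_comm, mul_smul, natCast_zsmul]
    obtain ⟨z, hz⟩ := ih (right_ne_zero_of_mul hn) y
    exact ⟨z, by rw [mul_smul, hz, hy]⟩

lemma Pr.socle {p : ℕ} (hp : p.Prime) :
    ∃ d : Pr p, d ≠ 0 ∧ p • d = 0 ∧ ∀ x : Pr p, p • x = 0 → ∃ m : ℕ, x = m • d := by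
  have h0 : p • (((1 : ℕ) / p * 1 : ℝ) : AddCircle (1 : ℝ)) = 0 :=
    (AddCircle.nsmul_eq_zero_iff hp.pos).2 ⟨1, hp.one_lt, rfl⟩
  refine ⟨⟨_, 1, by rw [pow_one]; exact h0⟩, fun h => ?_, Subtype.ext h0, fun x hx => ?_⟩
  · have := congrArg Subtype.val h
    have hp1 : (1 : ℝ) < p := by exact_mod_cast hp.one_lt
    have : Fact ((0 : ℝ) < 1) := ⟨one_pos⟩
    have h2 := (AddCircle.coe_eq_zero_iff_of_mem_Ico (p := (1 : ℝ)) (a := (1 : ℕ) / p * 1)
      ⟨by positivity, by rw [mul_one, div_lt_one (by positivity)]; simpa using hp1⟩).1 ‹_›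
    have : (0 : ℝ) < (1 : ℕ) / p * 1 := by positivity
    exact this.ne' h2
  · obtain ⟨m, -, hm⟩ := (AddCircle.nsmul_eq_zero_iff hp.pos).1 (congrArg Subtype.val hx)
    refine ⟨m, Subtype.ext ?_⟩
    change _ = m • (((1 : ℕ) / p * 1 : ℝ) : AddCircle (1 : ℝ))
    rw [← hm, ← AddCircle.coe_nsmul]
    congr 1
    simp [div_eq_mul_inv]

theorem exists_struct [Uncountable M]
    (hE : ∀ q : ℕ, q.Prime → (∀ a : M, q • a = 0) ∨ ∀ a : M, ∃ b, q • b = a) :
    ∃ p : ℕ, p.Prime ∧ ∃ (I : Type) (_ : Uncountable I) (f : M →+ (I →₀ Pr p)) (d : Pr p), d ≠ 0 ∧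
      (∀ i, ∃ a, f a = single i d) ∧ (∀ a i, ∃ b, f b = single i (f a i)) ∧
      ∀ a, ∃ k, p ^ (k + 1) • f a = 0 ∧ ∀ i b₀ x₀, f b₀ = single i x₀ →
        ∃ b' x, f b' = single i x ∧ p ^ k • f b' = f b₀ := by
  obtain ⟨p, hp, s, hs, hi⟩ := exists_pind (M := M)
  obtain ⟨d, d0, dp, hd⟩ := Pr.socle hp
  have dv : ∀ n : ℕ, n ≠ 0 → ∀ v : s →₀ Pr p, ∃ w, n • w = v := fun n hn v => by
    induction v using Finsupp.induction_linear with
    | zero => exact ⟨0, smul_zero _⟩
    | add f g hf hg =>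
      obtain ⟨a, rfl⟩ := hf
      obtain ⟨b, rfl⟩ := hg
      exact ⟨a + b, smul_add _ _ _⟩
    | single i x =>
      obtain ⟨y, rfl⟩ := Pr.div hp n hn x
      exact ⟨single i y, smul_single _ _ _⟩
  have tors : ∀ v : s →₀ Pr p, ∃ k, p ^ k • v = 0 := fun v => by
    induction v using Finsupp.induction_linear with
    | zero => exact ⟨0, smul_zero _⟩
    | add f g hf hg =>
      obtain ⟨k, hk⟩ := hf
      obtain ⟨l, hl⟩ := hg
      exact ⟨k + l, by rw [smul_add, pow_add, mul_smul _ _ _, mul_smul, hl, smul_comm, hk]; simp⟩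
    | single i x =>
      obtain ⟨k, hk⟩ := x.2
      exact ⟨k, by rw [smul_single, show p ^ k • x = 0 from Subtype.ext hk, single_zero]⟩
  let dN : DivisibleBy (s →₀ Pr p) ℕ :=
    divisibleByOfSMulRightSurj _ _ fun {n} hn v => dv n hn v
  let dZ : DivisibleBy (s →₀ Pr p) ℤ := AddGroup.divisibleByIntOfDivisibleByNat _
  let L : (s →₀ ℤ) →ₗ[ℤ] M := linearCombination ℤ Subtype.val
  let g : (s →₀ ℤ) →ₗ[ℤ] (s →₀ Pr p) := mapRange.linearMap (LinearMap.toSpanSingleton ℤ _ d)
  have hker : LinearMap.ker L ≤ LinearMap.ker g := fun l hl => by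
    classical
    have := hi (l.mapDomain Subtype.val) (fun a ha => by
      obtain ⟨b, -, rfl⟩ := Finset.mem_image.1 (mapDomain_support ha)
      exact b.2) (by rw [linearCombination_mapDomain]; exact hl)
    ext i : 1
    obtain ⟨m, hm⟩ := this i
    rw [mapDomain_apply Subtype.val_injective] at hm
    change l i • d = 0
    rw [hm, mul_comm, mul_smul, natCast_zsmul, dp, smul_zero]
  obtain ⟨f, hf⟩ := (Module.Baer.of_divisible (s →₀ Pr p)).extension_property
    ((LinearMap.ker L).liftQ L le_rfl)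
    (LinearMap.ker_eq_bot.1 (Submodule.ker_liftQ_eq_bot _ _ _ le_rfl)) ((LinearMap.ker L).liftQ g hker)
  have fa : ∀ i : s, f i = single i d := fun i => by
    have := LinearMap.congr_fun hf (Submodule.Quotient.mk (single i 1))
    simpa [L, g] using this
  have soc : ∀ (i : s) (x : Pr p), p • x = 0 → ∃ b, f b = single i x := fun i x hx => by
    obtain ⟨m, rfl⟩ := hd x hx
    exact ⟨m • (i : M), by rw [map_nsmul, fa, smul_single]⟩
  refine ⟨p, hp, s, not_countable_iff.1 fun h => hs (Set.countable_coe_iff.1 h), f.toAddMonoidHom, d, d0,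
    fun i => ⟨i, fa i⟩, ?_⟩
  rcases hE p hp with h | h
  · have z : ∀ a, p • f a = 0 := fun a => by rw [← map_nsmul, h, map_zero]
    exact ⟨fun a i => soc i _ (DFunLike.congr_fun (z a) i), fun a => ⟨0, by simpa using z a,
      fun i b₀ x hx => ⟨b₀, x, hx, by simp⟩⟩⟩
  · have socle : ∀ v : s →₀ Pr p, p • v = 0 → ∃ b, f b = v := fun v hv => by
      choose b hb using fun i => soc i (v i) (DFunLike.congr_fun hv i)
      exact ⟨∑ i ∈ v.support, b i, by rw [map_sum]; simp only [hb]; exact sum_single v⟩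
    have sur : ∀ k, ∀ v : s →₀ Pr p, p ^ k • v = 0 → ∃ b, f b = v := fun k => by
      induction k with
      | zero => intro v hv; exact ⟨0, by rw [map_zero, ← hv, pow_zero, one_smul]⟩
      | succ k ih =>
        intro v hv
        obtain ⟨a, ha⟩ := ih (p • v) (by rw [← mul_smul, ← pow_succ, hv])
        obtain ⟨b, rfl⟩ := h a
        obtain ⟨c, hc⟩ := socle (v - f b) (by rw [smul_sub, ← ha, map_nsmul, sub_self])
        exact ⟨c + b, by rw [map_add, hc, sub_add_cancel]⟩
    have sur' : ∀ v, ∃ b, f b = v := fun v => by obtain ⟨k, hk⟩ := tors v; exact sur k v hk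
    refine ⟨fun a i => sur' _, fun a => ?_⟩
    obtain ⟨k, hk⟩ := tors (f a)
    refine ⟨k, ?_, fun i b₀ x hx => ?_⟩
    · rw [pow_succ', mul_smul]
      exact (congrArg _ hk).trans (smul_zero _)
    · obtain ⟨y, rfl⟩ := Pr.div hp (p ^ k) (pow_ne_zero _ hp.ne_zero) x
      obtain ⟨b, hb⟩ := sur' (single i y)
      exact ⟨b, y, hb, by rw [hx, ← smul_single]; exact congrArg _ hb⟩

end Pool.Agent.H71.Dual
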