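import Mathlib
import Pool.Agent.H71.Dual
import Pool.Agent.H71.Dual2

/-! Essential countably tight subgroups of compact abelian groups. -/

namespace Pool.Agent.H71.Dual

open Filter Topology Finsupp

/-- the subspace `H` is countably tight -/
def Tight {X : Type} [TopologicalSpace X] (H : Set X) : Prop :=
  ∀ S ⊆ H, ∀ x ∈ H, x ∈ closure S → ∃ T ⊆ S, T.Countable ∧ x ∈ closure T

lemma Tight.preimage {X Y : Type} [TopologicalSpace X] [TopologicalSpace Y] {H : Set X}
    (h : Tight H) {e : Y → X} (he : IsEmbedding e) : Tight (e ⁻¹' H) := by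
  intro S hS y hy hc
  rw [he.closure_eq_preimage_closure_image] at hc
  obtain ⟨T, hT, c, hx⟩ := h _ (Set.image_subset_iff.2 hS) _ hy hc
  obtain ⟨T', hT', rfl⟩ := Set.subset_image_iff.1 hT
  exact ⟨T', hT', (Set.countable_of_injective_of_countable_image he.injective.injOn c),
    by rwa [he.closure_eq_preimage_closure_image]⟩

lemma Tight.image {X Y : Type} [TopologicalSpace X] [TopologicalSpace Y] {H : Set Y}
    (h : Tight H) {e : Y → X} (he : IsEmbedding e) : Tight (e '' H) := by
  rintro S hS _ ⟨y, hy, rfl⟩ hc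
  obtain ⟨S', hS', rfl⟩ := Set.subset_image_iff.1 hS
  obtain ⟨T, hT, c, hx⟩ := h _ hS' y hy (by rwa [he.closure_eq_preimage_closure_image])
  exact ⟨_, Set.image_mono hT, c.image e, by rwa [he.closure_eq_preimage_closure_image] at hx⟩

lemma Tight.mono {X : Type} [TopologicalSpace X] {H H' : Set X} (h : Tight H) (hh : H' ⊆ H) :
    Tight H' := fun S hS x hx => h S (hS.trans hh) x (hh hx)

variable {C : Type} [CommGroup C] [TopologicalSpace C] [IsTopologicalGroup C] [CompactSpace C]
  [T2Space C]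

/-- essential -/
def Essn (H : Subgroup C) : Prop :=
  ∀ N : Subgroup C, IsClosed (N : Set C) → N ≠ ⊥ → ∃ h ∈ H, h ≠ 1 ∧ h ∈ N

theorem thmB {H : Subgroup C} (he : Essn H) (ht : Tight (H : Set C))
    (hE : ∀ q : ℕ, q.Prime → (∀ a : C →ₜ* Circle, a ^ q = 1) ∨ ∀ a : C →ₜ* Circle, ∃ b, b ^ q = a) :
    Countable (C →ₜ* Circle) := by
  classical
  by_contra hcon
  have : Uncountable (Additive (C →ₜ* Circle)) := not_countable_iff.1 hcon
  obtain ⟨p, hp, I, _, f, d, d0, h1, h2, h3⟩ := exists_struct (M := Additive (C →ₜ* Circle)) hE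
  let ev : C → Additive (C →ₜ* Circle) →+ Additive Circle := fun c =>
    { toFun := fun a => Additive.ofMul (a.toMul c), map_zero' := rfl, map_add' := fun _ _ => rfl }
  -- annihilator of a set of characters
  let ann : Set (Additive (C →ₜ* Circle)) → Subgroup C := fun S => ⨅ a ∈ S, (a.toMul : C →* Circle).ker
  have mann : ∀ S c, c ∈ ann S ↔ ∀ a ∈ S, ev c a = 0 := fun S c => by
    simp only [ann, Subgroup.mem_iInf]; rfl
  have cev : ∀ a, Continuous fun c => (ev c a).toMul := fun a => map_continuous a.toMul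
  have cann : ∀ S, IsClosed (ann S : Set C) := fun S => by
    have : (ann S : Set C) = ⋂ a ∈ S, {c | (ev c a).toMul = 1} := by
      ext c; simp only [SetLike.mem_coe, mann, Set.mem_iInter]; rfl
    rw [this]
    exact isClosed_biInter fun a _ => isClosed_eq (cev a) continuous_const
  let K : Set (Additive (C →ₜ* Circle)) := {a | f a = 0}
  let A : I → Set (Additive (C →ₜ* Circle)) := fun i => {a | ∃ x, f a = single i x}
  have cg : ∀ c ∈ ann K, ∀ a b, f a = f b → ev c a = ev c b := fun c hc a b h => by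
    rw [← sub_eq_zero, ← map_sub]
    exact (mann _ _).1 hc _ (by change f _ = 0; rw [map_sub, h, sub_self])
  have sep : ∀ c ∈ ann K, (∀ i, c ∈ ann (A i)) → c = 1 := fun c hc h => by
    by_contra hne
    obtain ⟨χ, hχ⟩ := sepChar hne
    choose b hb using h2 (Additive.ofMul χ)
    have := cg c hc (Additive.ofMul χ) (∑ i ∈ (f (Additive.ofMul χ)).support, b i) (by
      rw [map_sum]; simp only [hb]; exact (sum_single _).symm)
    rw [map_sum, Finset.sum_eq_zero fun i _ => (mann _ _).1 (h i) _ ⟨_, hb i⟩] at this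
    exact hχ this
  have ex : ∀ i, ∃ h ∈ H, h ≠ 1 ∧ h ∈ ann K ⊓ ⨅ j ∈ {j | j ≠ i}, ann (A j) := fun i => by
    refine he _ ?_ ?_
    · rw [Subgroup.coe_inf]
      refine (cann _).inter ?_
      simp only [Subgroup.coe_iInf]
      exact isClosed_iInter fun j => isClosed_iInter fun _ => cann _
    obtain ⟨c, hc⟩ := duality (C := C)
      { toFun := fun a => AddCircle.toCircle (f (Additive.ofMul a) i : AddCircle (1 : ℝ))
        map_one' := by simp
        map_mul' := fun a b => by simp [AddCircle.toCircle_add] }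
    have hc' : ∀ a, (ev c a).toMul = AddCircle.toCircle (f a i : AddCircle (1 : ℝ)) := fun a => hc _
    refine Subgroup.ne_bot_iff_exists_ne_one.2 ⟨⟨c, (mann _ _).2 fun a ha => ?_, ?_⟩, fun e => ?_⟩
    · change (ev c a).toMul = 1
      rw [hc', show f a = 0 from ha]; simp
    · refine Subgroup.mem_iInf.2 fun j => Subgroup.mem_iInf.2 fun hj =>
        (mann _ _).2 fun a ⟨x, hx⟩ => ?_
      change (ev c a).toMul = 1
      rw [hc', hx, single_eq_of_ne' hj]; simp
    · obtain ⟨a, ha⟩ := h1 i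
      have := hc' a
      rw [show c = 1 from congrArg Subtype.val e, ha, single_eq_same] at this
      refine d0 (Subtype.ext (AddCircle.injective_toCircle one_ne_zero ?_))
      rw [← this]
      exact (map_one a.toMul).trans AddCircle.toCircle_zero.symm
  choose h hH hne hm using ex
  have hm2 : ∀ i j, j ≠ i → h i ∈ ann (A j) := fun i j hj =>
    Subgroup.mem_iInf.1 (Subgroup.mem_iInf.1 (hm i).2 j) hj
  have ex2 : ∀ i, ∃ b ∈ A i, ev (h i) b ≠ 0 := fun i => by
    by_contra hc
    push Not at hc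
    exact hne i (sep _ (hm i).1 fun j => by
      by_cases hj : j = i
      · rw [hj]; exact (mann _ _).2 hc
      · exact hm2 i j hj)
  choose b hbA hb using ex2
  let Sg : Subgroup C :=
    { carrier := {c | {i | c ∉ ann (A i)}.Countable}
      one_mem' := by simp
      mul_mem' := fun {x y} hx hy => (Set.Countable.union hx hy).mono fun i hi => by
        by_contra hc
        simp only [Set.mem_union, Set.mem_ofPred_eq, not_or, not_not] at hc
        exact hi (mul_mem hc.1 hc.2)
      inv_mem' := fun {x} hx => by simpa using hx }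
  let L := (H ⊓ ann K ⊓ Sg).topologicalClosure
  have cL : IsClosed (L : Set C) := Subgroup.isClosed_topologicalClosure _
  have LK : L ≤ ann K := Subgroup.topologicalClosure_minimal _ (inf_le_left.trans inf_le_right) (cann _)
  obtain ⟨x, hxL, hx⟩ := cL.isCompact.inter_iInter_nonempty
    (fun i => {c | (ev c (b i)).toMul = (ev (h i) (b i)).toMul})
    (fun i => isClosed_eq (cev _) continuous_const) (fun u => ⟨∏ i ∈ u, h i,
      prod_mem fun i _ => Subgroup.le_topologicalClosure _ ⟨⟨hH i, (hm i).1⟩,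
        (Set.countable_singleton i).mono fun j hj => by
          by_contra hc; exact hj (hm2 i j hc)⟩, Set.mem_iInter₂.2 fun i hi => by
      change (b i).toMul (∏ i ∈ u, h i) = _
      rw [map_prod, Finset.prod_eq_single_of_mem i hi fun j _ hj =>
        (mann _ _).1 (hm2 j i hj.symm) _ (hbA i)]
      rfl⟩)
  have hx' : ∀ i, ev x (b i) ≠ 0 := fun i e => hb i (by
    have : ev x (b i) = ev (h i) (b i) := Set.mem_iInter.1 hx i
    rw [← this, e])
  let N := (Subgroup.zpowers x).topologicalClosure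
  have NL : N ≤ L := Subgroup.topologicalClosure_minimal _ (Subgroup.zpowers_le.2 hxL) cL
  have xN : x ∈ N := Subgroup.le_topologicalClosure _ (Subgroup.mem_zpowers x)
  obtain ⟨y, hyH, hy1, hyN⟩ := he N (Subgroup.isClosed_topologicalClosure _)
    (Subgroup.ne_bot_iff_exists_ne_one.2 ⟨⟨x, xN⟩, fun e => hx' (Classical.arbitrary I) (by
      rw [show x = 1 from congrArg Subtype.val e]; exact map_one (b _).toMul)⟩)
  obtain ⟨T, hT, cT, hyT⟩ := ht _ (fun c hc => hc.1.1) y hyH (NL hyN)
  obtain ⟨i, hi⟩ : ∃ i, i ∉ ⋃ c ∈ T, {i | c ∉ ann (A i)} := by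
    by_contra hc
    push Not at hc
    exact Set.not_countable_univ ((cT.biUnion fun c hc => (hT hc).2).mono fun i _ => hc i)
  have hyi : y ∈ ann (A i) := closure_minimal (fun c hc => by
    by_contra h; exact hi (Set.mem_biUnion hc h)) (cann _) hyT
  obtain ⟨χ, hχ⟩ := sepChar hy1
  obtain ⟨k, hk, hk'⟩ := h3 (Additive.ofMul χ)
  obtain ⟨x₀, hx₀⟩ := hbA i
  obtain ⟨b', x', hb', hb''⟩ := hk' i (b i) x₀ hx₀
  obtain ⟨m, hm', -⟩ := h3 b'
  have pw : ∀ a n, n • f a = 0 → a.toMul x ^ n = 1 := fun a n h => by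
    have := (mann _ _).1 (LK hxL) (n • a) (by change f _ = 0; rw [map_nsmul, h])
    rw [map_nsmul] at this
    exact this
  have o1 := pw _ _ hk
  have o2 := pw _ _ hm'
  have o3 : b'.toMul x ^ p ^ k ≠ 1 := fun e => hx' i (by
    rw [← cg x (LK hxL) (p ^ k • b') (b i) (by rw [map_nsmul, hb'']), map_nsmul]; exact e)
  have dv : p ^ (k + 1) ∣ orderOf (b'.toMul x) := by
    obtain ⟨r, -, hr⟩ := (Nat.dvd_prime_pow hp).1 (orderOf_dvd_of_pow_eq_one o2)
    rw [hr]
    refine pow_dvd_pow _ (not_lt.1 fun hlt => o3 ?_)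
    rw [← orderOf_dvd_iff_pow_eq_one, hr]
    exact pow_dvd_pow _ (Nat.lt_succ_iff.1 hlt)
  let w : C →* Circle × Circle := (b'.toMul : C →* Circle).prod (χ : C →* Circle)
  have fin : IsOfFinOrder (w x) := IsOfFinOrder.prod_iff.2
    ⟨isOfFinOrder_iff_pow_eq_one.2 ⟨_, pow_pos hp.pos _, o2⟩,
      isOfFinOrder_iff_pow_eq_one.2 ⟨_, pow_pos hp.pos _, o1⟩⟩
  have : N ≤ (Subgroup.zpowers (w x)).comap w := Subgroup.topologicalClosure_minimal _
    (Subgroup.zpowers_le.2 (Subgroup.mem_zpowers _))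
    ((finite_zpowers.2 fin).isClosed.preimage ((map_continuous b'.toMul).prodMk (map_continuous χ)))
  obtain ⟨n, hn⟩ := this hyN
  have e1 : b'.toMul x ^ n = b'.toMul y := congrArg Prod.fst hn
  have e2 : χ x ^ n = χ y := congrArg Prod.snd hn
  rw [show b'.toMul y = 1 from (mann _ _).1 hyi _ ⟨_, hb'⟩, ← orderOf_dvd_iff_zpow_eq_one] at e1
  refine hχ ?_
  rw [← e2, ← orderOf_dvd_iff_zpow_eq_one]
  exact (Int.natCast_dvd_natCast.2 ((orderOf_dvd_of_pow_eq_one o1).trans dv)).trans e1

theorem thmB' {H : Subgroup C} (he : Essn H) (ht : Tight (H : Set C)) {N : Subgroup C}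
    (hN : IsClosed (N : Set C))
    (hE : ∀ q : ℕ, q.Prime → (∀ x ∈ N, x ^ q = 1) ∨ ∀ x ∈ N, x ^ q = 1 → x = 1) :
    ∃ S : Set (C →ₜ* Circle), S.Countable ∧ ∀ x ∈ N, (∀ a ∈ S, a x = 1) → x = 1 := by
  have : CompactSpace N := isCompact_iff_compactSpace.1 hN.isCompact
  have := thmB (C := N) (H := H.comap N.subtype) (fun M hM hne => by
    obtain ⟨h, h1, h2, y, hy, rfl⟩ := he (M.map N.subtype)
      (hM.isCompact.image continuous_subtype_val).isClosed
      (fun e => hne ((Subgroup.map_eq_bot_iff_of_injective _ N.subtype_injective).1 e))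
    exact ⟨y, h1, fun e => h2 (by simp [e]), hy⟩) (ht.preimage IsEmbedding.subtypeVal) (fun q hq => by
    refine (hE q hq).imp (fun h a => ContinuousMonoidHom.ext fun x => ?_) fun h a => ?_
    · rw [ContinuousMonoidHom.pow_apply, ← map_pow, show x ^ q = 1 from Subtype.ext (h x x.2), map_one]
      rfl
    · refine mem_of_sep (powMonoidHom q).range (fun x hx => ?_) a
      obtain ⟨χ, hχ⟩ := sepChar (x := x ^ q) fun e => hx (Subtype.ext (h x x.2 (congrArg Subtype.val e)))
      exact ⟨χ ^ q, ⟨χ, rfl⟩, by rwa [ContinuousMonoidHom.pow_apply, ← map_pow]⟩)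
  let r : (C →ₜ* Circle) → (N →ₜ* Circle) := fun a => a.comp ⟨N.subtype, continuous_subtype_val⟩
  refine ⟨Set.range (Function.invFun r), Set.countable_range _, fun x hx h => ?_⟩
  by_contra hne
  obtain ⟨χ, hχ⟩ := sepChar hne
  have e : r (Function.invFun r (r χ)) = r χ := Function.invFun_eq ⟨χ, rfl⟩
  exact hχ ((DFunLike.congr_fun e ⟨x, hx⟩).symm.trans (h _ ⟨_, rfl⟩))

theorem thmA {H : Subgroup C} (he : Essn H) (ht : Tight (H : Set C)) :
    ∃ S : Set (C →ₜ* Circle), S.Countable ∧ ∀ x, (∀ a ∈ S, a x = 1) → x = 1 := by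
  have h1 : ∀ p : Nat.Primes, _ := fun p => thmB' he ht (N := (powMonoidHom (p : ℕ)).ker)
    (isClosed_eq (continuous_pow (p : ℕ)) continuous_const) fun q hq => by
      by_cases h : q = p
      · exact Or.inl fun x hx => h ▸ hx
      · exact Or.inr fun x hx hx' => by
          have := Nat.dvd_gcd (orderOf_dvd_of_pow_eq_one hx') (orderOf_dvd_of_pow_eq_one hx)
          rwa [(Nat.coprime_primes hq p.2).2 h, Nat.dvd_one, orderOf_eq_one_iff] at this
  choose S hS1 hS2 using h1
  let N : Subgroup C := ⨅ a ∈ ⋃ p, S p, (a : C →* Circle).ker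
  have mN : ∀ x, x ∈ N ↔ ∀ a ∈ ⋃ p, S p, a x = 1 := fun x => by
    simp only [N, Subgroup.mem_iInf]; rfl
  obtain ⟨S', c', h'⟩ := thmB' he ht (N := N) (by
    simp only [N, Subgroup.coe_iInf]
    exact isClosed_iInter fun a => isClosed_iInter fun _ =>
      isClosed_singleton.preimage (map_continuous a)) fun q hq => Or.inr fun x hx hx' =>
        hS2 ⟨q, hq⟩ x hx' fun a ha => (mN x).1 hx a (Set.mem_iUnion.2 ⟨_, ha⟩)
  exact ⟨(⋃ p, S p) ∪ S', (Set.countable_iUnion hS1).union c', fun x hx =>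
    h' x ((mN x).2 fun a ha => hx a (Or.inl ha)) fun a ha => hx a (Or.inr ha)⟩

theorem thmA' {H : Subgroup C} (he : Essn H) (ht : Tight (H : Set C)) :
    TopologicalSpace.MetrizableSpace C := by
  obtain ⟨S, hS, h⟩ := thmA he ht
  have := hS.to_subtype
  refine (Continuous.isClosedEmbedding (f := fun (x : C) (a : S) => a.1 x)
    (continuous_pi fun a => map_continuous a.1) fun x y hxy => ?_).isEmbedding.metrizableSpace
  refine inv_mul_eq_one.1 (h _ fun a ha => ?_)
  rw [map_mul, map_inv, show a x = a y from congrFun hxy ⟨a, ha⟩, inv_mul_cancel]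

end Pool.Agent.H71.Dual
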