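import Mathlib
import Pool.Agent.H71.Dual3

/-! G-delta identity in compact groups. -/

namespace Pool.Agent.H71.Dual

open Filter Topology

variable {K : Type} [Group K] [TopologicalSpace K] [IsTopologicalGroup K] [CompactSpace K]
  [T2Space K]

/-- `1` is a G-delta point of `N` -/
def GD (N : Set K) : Prop :=
  ∃ U : ℕ → Set K, (∀ m, U m ∈ 𝓝 (1 : K)) ∧ ∀ x ∈ N, (∀ m, x ∈ U m) → x = 1

theorem metrizable_of_GD (h : GD (Set.univ : Set K)) : TopologicalSpace.MetrizableSpace K := by
  obtain ⟨U, hU, h⟩ := h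
  choose C hC cC sC using fun m => exists_mem_nhds_isClosed_subset (hU m)
  let D : ℕ → Set K := fun n => ⋂ i ∈ Finset.range (n + 1), C i
  have hb : (𝓝 (1 : K)).HasBasis (fun _ => True) D := ⟨fun t => ⟨fun ht => ?_, fun ⟨n, _, hn⟩ =>
    mem_of_superset ((biInter_finset_mem _).2 fun i _ => hC i) hn⟩⟩
  · have : (𝓝 (1 : K)).IsCountablyGenerated := HasCountableBasis.isCountablyGenerated ⟨hb, Set.to_countable _⟩
    let u := IsTopologicalGroup.rightUniformSpace K
    have : (uniformity K).IsCountablyGenerated := Filter.comap.isCountablyGenerated _ _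
    exact UniformSpace.metrizableSpace
  · obtain ⟨n, hn⟩ := exists_subset_nhds_of_compactSpace (V := D) (U := t)
      (Antitone.directed_ge fun a b hab => Set.biInter_subset_biInter_left
        (by simpa using Set.Iio_subset_Iio (Nat.succ_le_succ hab)))
      (fun n => isClosed_biInter fun i _ => cC i) fun x hx => by
        rw [h x trivial fun m => sC m (Set.mem_iInter₂.1 (Set.mem_iInter.1 hx m) m (by simp))]
        exact ht
    exact ⟨n, trivial, hn⟩

omit [IsTopologicalGroup K] [CompactSpace K] in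
theorem GD_of_metrizable (N : Subgroup K) (h : TopologicalSpace.MetrizableSpace N) :
    GD (N : Set K) := by
  obtain ⟨s, hs⟩ := (𝓝 (1 : N)).exists_antitone_basis
  have : ∀ m, ∃ V ∈ 𝓝 (1 : K), Subtype.val ⁻¹' V ⊆ s m := fun m => by
    have := hs.mem m
    rw [nhds_subtype] at this
    exact this
  choose V hV hVs using this
  refine ⟨V, hV, fun x hx h => ?_⟩
  by_contra hne
  obtain ⟨m, -, hm⟩ := hs.toHasBasis.mem_iff.1 (compl_singleton_mem_nhds
    (show (1 : N) ≠ ⟨x, hx⟩ from fun e => hne (congrArg Subtype.val e).symm))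
  exact hm (hVs m (h m)) rfl

end Pool.Agent.H71.Dual
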