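import Mathlib
import Pool.Agent.H71.Dual3

/-! Tightness and weight of essential subgroups of compact abelian groups. -/

namespace Pool.Agent.H71.DualK

open Filter Topology Finsupp Cardinal _root_.Pool.Agent.H71.Dual

/-- sets of size at most `κ` -/
def Sm (κ : Cardinal.{0}) {X : Type} (S : Set X) : Prop := #S ≤ κ

variable {κ : Cardinal.{0}}

section
variable {X Y : Type} {S T : Set X}

lemma Sm.mono (h : Sm κ T) (hST : S ⊆ T) : Sm κ S := (mk_le_mk_of_subset hST).trans h
lemma Sm.image (h : Sm κ S) (f : X → Y) : Sm κ (f '' S) := mk_image_le.trans h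
lemma Sm.univ : Sm κ (Set.univ : Set X) ↔ #X ≤ κ := by rw [Sm, mk_univ]
lemma Sm.range (h : #X ≤ κ) (f : X → Y) : Sm κ (Set.range f) := mk_range_le.trans h
lemma Sm.of_image {f : X → Y} (hf : Function.Injective f) (h : Sm κ (f '' S)) : Sm κ S := by
  rwa [Sm, mk_image_eq hf] at h

variable (hκ : ℵ₀ ≤ κ)
include hκ

lemma Sm.of_countable (h : S.Countable) : Sm κ S := (le_aleph0_iff_set_countable.2 h).trans hκ
lemma Sm.union (h : Sm κ S) (h' : Sm κ T) : Sm κ (S ∪ T) :=
  (mk_union_le _ _).trans (add_le_of_le hκ h h')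
lemma Sm.biUnion (h : Sm κ S) {A : X → Set Y} (h' : ∀ x ∈ S, Sm κ (A x)) : Sm κ (⋃ x ∈ S, A x) :=
  (mk_biUnion_le _ _).trans (mul_le_of_le hκ h (ciSup_le' fun x => h' x x.2))
lemma Sm.iUnion [Countable X] {A : X → Set Y} (h' : ∀ x, Sm κ (A x)) : Sm κ (⋃ x, A x) :=
  (mk_iUnion_le _).trans (mul_le_of_le hκ (mk_le_aleph0.trans hκ) (ciSup_le' h'))

end

variable (hκ : ℵ₀ ≤ κ)
include hκ

section
variable {M : Type} [AddCommGroup M]

lemma sm_span {s : Set M} (hs : Sm κ s) : Sm κ (Submodule.span ℤ s : Set M) := by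
  refine (Sm.range ?_ (linearCombination ℤ (Subtype.val : s → M))).mono fun x hx =>
    (mem_span_iff_linearCombination ℤ s x).1 hx
  rcases isEmpty_or_nonempty s with h | h
  · exact mk_le_aleph0.trans hκ
  · rw [mk_finsupp_of_infinite']; exact max_le hs (mk_le_aleph0.trans hκ)

lemma exists_pind (hM : ¬ #M ≤ κ) : ∃ p : ℕ, p.Prime ∧ ∃ s : Set M, ¬ Sm κ s ∧ PInd p s := by
  by_contra hcon
  push Not at hcon
  choose s h1 h2 h3 using fun p : Nat.Primes => exists_max (M := M) p p.2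
  have hc : ∀ p : Nat.Primes, Sm κ (s p) := fun p => by
    by_contra h; exact hcon p p.2 _ h (h1 p)
  have key : ∀ n : ℕ, n ≠ 0 → ∀ S : Set M, Sm κ S → Sm κ {a | n • a ∈ S} := by
    intro n
    induction n using induction_on_primes with
    | zero => simp
    | one => intro _ S hS; simpa using hS
    | prime_mul p n hp ih =>
      intro hn S hS
      have hT := ih (right_ne_zero_of_mul hn) S hS
      have fib : ∀ b : M, Sm κ {a | p • a = b} := fun b => by
        rcases Set.eq_empty_or_nonempty {a | p • a = b} with h | ⟨a₀, h⟩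
        · rw [h]; exact Sm.of_countable hκ Set.countable_empty
        · refine ((sm_span hκ (hc ⟨p, hp⟩)).image (· + a₀)).mono fun a ha => ?_
          exact ⟨a - a₀, h3 ⟨p, hp⟩ _ (by
            change p • _ = 0
            rw [smul_sub, show p • a = b from ha, show p • a₀ = b from h, sub_self]), by simp⟩
      refine (Sm.biUnion hκ hT fun b _ => fib b).mono fun a ha => ?_
      refine Set.mem_biUnion (x := p • a) ?_ rfl
      change n • p • a ∈ S
      rw [← mul_smul, mul_comm]; exact ha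
  refine hM (Sm.univ.1 ?_)
  refine (Sm.iUnion hκ fun n : ℕ => key (n + 1) n.succ_ne_zero _
    (sm_span hκ (hc ⟨2, Nat.prime_two⟩))).mono fun a _ => ?_
  obtain ⟨n, hn, h⟩ := h2 ⟨2, Nat.prime_two⟩ a
  exact Set.mem_iUnion.2 ⟨n - 1, by rwa [Nat.sub_add_cancel (Nat.pos_of_ne_zero hn)]⟩

theorem exists_struct (hM : ¬ #M ≤ κ)
    (hE : ∀ q : ℕ, q.Prime → (∀ a : M, q • a = 0) ∨ ∀ a : M, ∃ b, q • b = a) :
    ∃ p : ℕ, p.Prime ∧ ∃ (I : Type) (_ : ¬ #I ≤ κ) (f : M →+ (I →₀ Pr p)) (d : Pr p), d ≠ 0 ∧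
      (∀ i, ∃ a, f a = single i d) ∧ (∀ a i, ∃ b, f b = single i (f a i)) ∧
      ∀ a, ∃ k, p ^ (k + 1) • f a = 0 ∧ ∀ i b₀ x₀, f b₀ = single i x₀ →
        ∃ b' x, f b' = single i x ∧ p ^ k • f b' = f b₀ := by
  obtain ⟨p, hp, s, hs, hi⟩ := exists_pind hκ hM
  obtain ⟨d, d0, dp, hd⟩ := Pr.socle hp
  have dv : ∀ n : ℕ, n ≠ 0 → ∀ v : s →₀ Pr p, ∃ w, n • w = v := fun n hn v => by
    induction v using Finsupp.induction_linear with
    | zero => exact ⟨0, smul_zero _⟩
    | add f g hf hg =>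
      obtain ⟨a, rfl⟩ := hf
      obtain ⟨b, rfl⟩ := hg
      exact ⟨a + b, smul_add _ _ _⟩
    | single i x =>
      obtain ⟨y, rfl⟩ := Pr.div hp n hn x
      exact ⟨single i y, smul_single _ _ _⟩
  have tors : ∀ v : s →₀ Pr p, ∃ k, p ^ k • v = 0 := fun v => by
    induction v using Finsupp.induction_linear with
    | zero => exact ⟨0, smul_zero _⟩
    | add f g hf hg =>
      obtain ⟨k, hk⟩ := hf
      obtain ⟨l, hl⟩ := hg
      exact ⟨k + l, by rw [smul_add, pow_add, mul_smul _ _ _, mul_smul, hl, smul_comm, hk]; simp⟩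
    | single i x =>
      obtain ⟨k, hk⟩ := x.2
      exact ⟨k, by rw [smul_single, show p ^ k • x = 0 from Subtype.ext hk, single_zero]⟩
  let dN : DivisibleBy (s →₀ Pr p) ℕ :=
    divisibleByOfSMulRightSurj _ _ fun {n} hn v => dv n hn v
  let dZ : DivisibleBy (s →₀ Pr p) ℤ := AddGroup.divisibleByIntOfDivisibleByNat _
  let L : (s →₀ ℤ) →ₗ[ℤ] M := linearCombination ℤ Subtype.val
  let g : (s →₀ ℤ) →ₗ[ℤ] (s →₀ Pr p) := mapRange.linearMap (LinearMap.toSpanSingleton ℤ _ d)
  have hker : LinearMap.ker L ≤ LinearMap.ker g := fun l hl => by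
    classical
    have := hi (l.mapDomain Subtype.val) (fun a ha => by
      obtain ⟨b, -, rfl⟩ := Finset.mem_image.1 (mapDomain_support ha)
      exact b.2) (by rw [linearCombination_mapDomain]; exact hl)
    ext i : 1
    obtain ⟨m, hm⟩ := this i
    rw [mapDomain_apply Subtype.val_injective] at hm
    change l i • d = 0
    rw [hm, mul_comm, mul_smul, natCast_zsmul, dp, smul_zero]
  obtain ⟨f, hf⟩ := (Module.Baer.of_divisible (s →₀ Pr p)).extension_property
    ((LinearMap.ker L).liftQ L le_rfl)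
    (LinearMap.ker_eq_bot.1 (Submodule.ker_liftQ_eq_bot _ _ _ le_rfl)) ((LinearMap.ker L).liftQ g hker)
  have fa : ∀ i : s, f i = single i d := fun i => by
    have := LinearMap.congr_fun hf (Submodule.Quotient.mk (single i 1))
    simpa [L, g] using this
  have soc : ∀ (i : s) (x : Pr p), p • x = 0 → ∃ b, f b = single i x := fun i x hx => by
    obtain ⟨m, rfl⟩ := hd x hx
    exact ⟨m • (i : M), by rw [map_nsmul, fa, smul_single]⟩
  refine ⟨p, hp, s, hs, f.toAddMonoidHom, d, d0,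
    fun i => ⟨i, fa i⟩, ?_⟩
  rcases hE p hp with h | h
  · have z : ∀ a, p • f a = 0 := fun a => by rw [← map_nsmul, h, map_zero]
    exact ⟨fun a i => soc i _ (DFunLike.congr_fun (z a) i), fun a => ⟨0, by simpa using z a,
      fun i b₀ x hx => ⟨b₀, x, hx, by simp⟩⟩⟩
  · have socle : ∀ v : s →₀ Pr p, p • v = 0 → ∃ b, f b = v := fun v hv => by
      choose b hb using fun i => soc i (v i) (DFunLike.congr_fun hv i)
      exact ⟨∑ i ∈ v.support, b i, by rw [map_sum]; simp only [hb]; exact sum_single v⟩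
    have sur : ∀ k, ∀ v : s →₀ Pr p, p ^ k • v = 0 → ∃ b, f b = v := fun k => by
      induction k with
      | zero => intro v hv; exact ⟨0, by rw [map_zero, ← hv, pow_zero, one_smul]⟩
      | succ k ih =>
        intro v hv
        obtain ⟨a, ha⟩ := ih (p • v) (by rw [← mul_smul, ← pow_succ, hv])
        obtain ⟨b, rfl⟩ := h a
        obtain ⟨c, hc⟩ := socle (v - f b) (by rw [smul_sub, ← ha, map_nsmul, sub_self])
        exact ⟨c + b, by rw [map_add, hc, sub_add_cancel]⟩
    have sur' : ∀ v, ∃ b, f b = v := fun v => by obtain ⟨k, hk⟩ := tors v; exact sur k v hk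
    refine ⟨fun a i => sur' _, fun a => ?_⟩
    obtain ⟨k, hk⟩ := tors (f a)
    refine ⟨k, ?_, fun i b₀ x hx => ?_⟩
    · rw [pow_succ', mul_smul]
      exact (congrArg _ hk).trans (smul_zero _)
    · obtain ⟨y, rfl⟩ := Pr.div hp (p ^ k) (pow_ne_zero _ hp.ne_zero) x
      obtain ⟨b, hb⟩ := sur' (single i y)
      exact ⟨b, y, hb, by rw [hx, ← smul_single]; exact congrArg _ hb⟩

end

omit hκ in
/-- the subspace `H` is of tightness at most `κ` -/
def Tight (κ : Cardinal.{0}) {X : Type} [TopologicalSpace X] (H : Set X) : Prop :=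
  ∀ S ⊆ H, ∀ x ∈ H, x ∈ closure S → ∃ T ⊆ S, Sm κ T ∧ x ∈ closure T

omit hκ in
lemma Tight.preimage {X Y : Type} [TopologicalSpace X] [TopologicalSpace Y] {H : Set X}
    (h : Tight κ H) {e : Y → X} (he : IsEmbedding e) : Tight κ (e ⁻¹' H) := by
  intro S hS y hy hc
  rw [he.closure_eq_preimage_closure_image] at hc
  obtain ⟨T, hT, c, hx⟩ := h _ (Set.image_subset_iff.2 hS) _ hy hc
  obtain ⟨T', hT', rfl⟩ := Set.subset_image_iff.1 hT
  exact ⟨T', hT', Sm.of_image he.injective c,
    by rwa [he.closure_eq_preimage_closure_image]⟩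

omit hκ in
lemma Tight.image {X Y : Type} [TopologicalSpace X] [TopologicalSpace Y] {H : Set Y}
    (h : Tight κ H) {e : Y → X} (he : IsEmbedding e) : Tight κ (e '' H) := by
  rintro S hS _ ⟨y, hy, rfl⟩ hc
  obtain ⟨S', hS', rfl⟩ := Set.subset_image_iff.1 hS
  obtain ⟨T, hT, c, hx⟩ := h _ hS' y hy (by rwa [he.closure_eq_preimage_closure_image])
  exact ⟨_, Set.image_mono hT, c.image e, by rwa [he.closure_eq_preimage_closure_image] at hx⟩

omit hκ in
lemma Tight.mono {X : Type} [TopologicalSpace X] {H H' : Set X} (h : Tight κ H) (hh : H' ⊆ H) :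
    Tight κ H' := fun S hS x hx => h S (hS.trans hh) x (hh hx)

variable {C : Type} [CommGroup C] [TopologicalSpace C] [IsTopologicalGroup C] [CompactSpace C]
  [T2Space C]

theorem thmB {H : Subgroup C} (he : Essn H) (ht : Tight κ (H : Set C))
    (hE : ∀ q : ℕ, q.Prime → (∀ a : C →ₜ* Circle, a ^ q = 1) ∨ ∀ a : C →ₜ* Circle, ∃ b, b ^ q = a) :
    #(C →ₜ* Circle) ≤ κ := by
  classical
  by_contra hcon
  obtain ⟨p, hp, I, hI, f, d, d0, h1, h2, h3⟩ :=
    exists_struct hκ (M := Additive (C →ₜ* Circle)) hcon hE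
  have : Nonempty I := by
    by_contra h
    rw [not_nonempty_iff] at h
    exact hI (mk_le_aleph0.trans hκ)
  let ev : C → Additive (C →ₜ* Circle) →+ Additive Circle := fun c =>
    { toFun := fun a => Additive.ofMul (a.toMul c), map_zero' := rfl, map_add' := fun _ _ => rfl }
  -- annihilator of a set of characters
  let ann : Set (Additive (C →ₜ* Circle)) → Subgroup C := fun S => ⨅ a ∈ S, (a.toMul : C →* Circle).ker
  have mann : ∀ S c, c ∈ ann S ↔ ∀ a ∈ S, ev c a = 0 := fun S c => by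
    simp only [ann, Subgroup.mem_iInf]; rfl
  have cev : ∀ a, Continuous fun c => (ev c a).toMul := fun a => map_continuous a.toMul
  have cann : ∀ S, IsClosed (ann S : Set C) := fun S => by
    have : (ann S : Set C) = ⋂ a ∈ S, {c | (ev c a).toMul = 1} := by
      ext c; simp only [SetLike.mem_coe, mann, Set.mem_iInter]; rfl
    rw [this]
    exact isClosed_biInter fun a _ => isClosed_eq (cev a) continuous_const
  let K : Set (Additive (C →ₜ* Circle)) := {a | f a = 0}
  let A : I → Set (Additive (C →ₜ* Circle)) := fun i => {a | ∃ x, f a = single i x}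
  have cg : ∀ c ∈ ann K, ∀ a b, f a = f b → ev c a = ev c b := fun c hc a b h => by
    rw [← sub_eq_zero, ← map_sub]
    exact (mann _ _).1 hc _ (by change f _ = 0; rw [map_sub, h, sub_self])
  have sep : ∀ c ∈ ann K, (∀ i, c ∈ ann (A i)) → c = 1 := fun c hc h => by
    by_contra hne
    obtain ⟨χ, hχ⟩ := sepChar hne
    choose b hb using h2 (Additive.ofMul χ)
    have := cg c hc (Additive.ofMul χ) (∑ i ∈ (f (Additive.ofMul χ)).support, b i) (by
      rw [map_sum]; simp only [hb]; exact (sum_single _).symm)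
    rw [map_sum, Finset.sum_eq_zero fun i _ => (mann _ _).1 (h i) _ ⟨_, hb i⟩] at this
    exact hχ this
  have ex : ∀ i, ∃ h ∈ H, h ≠ 1 ∧ h ∈ ann K ⊓ ⨅ j ∈ {j | j ≠ i}, ann (A j) := fun i => by
    refine he _ ?_ ?_
    · rw [Subgroup.coe_inf]
      refine (cann _).inter ?_
      simp only [Subgroup.coe_iInf]
      exact isClosed_iInter fun j => isClosed_iInter fun _ => cann _
    obtain ⟨c, hc⟩ := duality (C := C)
      { toFun := fun a => AddCircle.toCircle (f (Additive.ofMul a) i : AddCircle (1 : ℝ))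
        map_one' := by simp
        map_mul' := fun a b => by simp [AddCircle.toCircle_add] }
    have hc' : ∀ a, (ev c a).toMul = AddCircle.toCircle (f a i : AddCircle (1 : ℝ)) := fun a => hc _
    refine Subgroup.ne_bot_iff_exists_ne_one.2 ⟨⟨c, (mann _ _).2 fun a ha => ?_, ?_⟩, fun e => ?_⟩
    · change (ev c a).toMul = 1
      rw [hc', show f a = 0 from ha]; simp
    · refine Subgroup.mem_iInf.2 fun j => Subgroup.mem_iInf.2 fun hj =>
        (mann _ _).2 fun a ⟨x, hx⟩ => ?_
      change (ev c a).toMul = 1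
      rw [hc', hx, single_eq_of_ne' hj]; simp
    · obtain ⟨a, ha⟩ := h1 i
      have := hc' a
      rw [show c = 1 from congrArg Subtype.val e, ha, single_eq_same] at this
      refine d0 (Subtype.ext (AddCircle.injective_toCircle one_ne_zero ?_))
      rw [← this]
      exact (map_one a.toMul).trans AddCircle.toCircle_zero.symm
  choose h hH hne hm using ex
  have hm2 : ∀ i j, j ≠ i → h i ∈ ann (A j) := fun i j hj =>
    Subgroup.mem_iInf.1 (Subgroup.mem_iInf.1 (hm i).2 j) hj
  have ex2 : ∀ i, ∃ b ∈ A i, ev (h i) b ≠ 0 := fun i => by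
    by_contra hc
    push Not at hc
    exact hne i (sep _ (hm i).1 fun j => by
      by_cases hj : j = i
      · rw [hj]; exact (mann _ _).2 hc
      · exact hm2 i j hj)
  choose b hbA hb using ex2
  let Sg : Subgroup C :=
    { carrier := {c | Sm κ {i | c ∉ ann (A i)}}
      one_mem' := Sm.of_countable hκ (by simp)
      mul_mem' := fun {x y} hx hy => (Sm.union hκ hx hy).mono fun i hi => by
        by_contra hc
        simp only [Set.mem_union, Set.mem_ofPred_eq, not_or, not_not] at hc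
        exact hi (mul_mem hc.1 hc.2)
      inv_mem' := fun {x} hx => by simpa using hx }
  let L := (H ⊓ ann K ⊓ Sg).topologicalClosure
  have cL : IsClosed (L : Set C) := Subgroup.isClosed_topologicalClosure _
  have LK : L ≤ ann K := Subgroup.topologicalClosure_minimal _ (inf_le_left.trans inf_le_right) (cann _)
  obtain ⟨x, hxL, hx⟩ := cL.isCompact.inter_iInter_nonempty
    (fun i => {c | (ev c (b i)).toMul = (ev (h i) (b i)).toMul})
    (fun i => isClosed_eq (cev _) continuous_const) (fun u => ⟨∏ i ∈ u, h i,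
      prod_mem fun i _ => Subgroup.le_topologicalClosure _ ⟨⟨hH i, (hm i).1⟩,
        (Sm.of_countable hκ (Set.countable_singleton i)).mono fun j hj => by
          by_contra hc; exact hj (hm2 i j hc)⟩, Set.mem_iInter₂.2 fun i hi => by
      change (b i).toMul (∏ i ∈ u, h i) = _
      rw [map_prod, Finset.prod_eq_single_of_mem i hi fun j _ hj =>
        (mann _ _).1 (hm2 j i hj.symm) _ (hbA i)]
      rfl⟩)
  have hx' : ∀ i, ev x (b i) ≠ 0 := fun i e => hb i (by
    have : ev x (b i) = ev (h i) (b i) := Set.mem_iInter.1 hx i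
    rw [← this, e])
  let N := (Subgroup.zpowers x).topologicalClosure
  have NL : N ≤ L := Subgroup.topologicalClosure_minimal _ (Subgroup.zpowers_le.2 hxL) cL
  have xN : x ∈ N := Subgroup.le_topologicalClosure _ (Subgroup.mem_zpowers x)
  obtain ⟨y, hyH, hy1, hyN⟩ := he N (Subgroup.isClosed_topologicalClosure _)
    (Subgroup.ne_bot_iff_exists_ne_one.2 ⟨⟨x, xN⟩, fun e => hx' (Classical.arbitrary I) (by
      rw [show x = 1 from congrArg Subtype.val e]; exact map_one (b _).toMul)⟩)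
  obtain ⟨T, hT, cT, hyT⟩ := ht _ (fun c hc => hc.1.1) y hyH (NL hyN)
  obtain ⟨i, hi⟩ : ∃ i, i ∉ ⋃ c ∈ T, {i | c ∉ ann (A i)} := by
    by_contra hc
    push Not at hc
    exact hI (Sm.univ.1 ((Sm.biUnion hκ cT fun c hc => (hT hc).2).mono fun i _ => hc i))
  have hyi : y ∈ ann (A i) := closure_minimal (fun c hc => by
    by_contra h; exact hi (Set.mem_biUnion hc h)) (cann _) hyT
  obtain ⟨χ, hχ⟩ := sepChar hy1
  obtain ⟨k, hk, hk'⟩ := h3 (Additive.ofMul χ)
  obtain ⟨x₀, hx₀⟩ := hbA i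
  obtain ⟨b', x', hb', hb''⟩ := hk' i (b i) x₀ hx₀
  obtain ⟨m, hm', -⟩ := h3 b'
  have pw : ∀ a n, n • f a = 0 → a.toMul x ^ n = 1 := fun a n h => by
    have := (mann _ _).1 (LK hxL) (n • a) (by change f _ = 0; rw [map_nsmul, h])
    rw [map_nsmul] at this
    exact this
  have o1 := pw _ _ hk
  have o2 := pw _ _ hm'
  have o3 : b'.toMul x ^ p ^ k ≠ 1 := fun e => hx' i (by
    rw [← cg x (LK hxL) (p ^ k • b') (b i) (by rw [map_nsmul, hb'']), map_nsmul]; exact e)
  have dv : p ^ (k + 1) ∣ orderOf (b'.toMul x) := by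
    obtain ⟨r, -, hr⟩ := (Nat.dvd_prime_pow hp).1 (orderOf_dvd_of_pow_eq_one o2)
    rw [hr]
    refine pow_dvd_pow _ (not_lt.1 fun hlt => o3 ?_)
    rw [← orderOf_dvd_iff_pow_eq_one, hr]
    exact pow_dvd_pow _ (Nat.lt_succ_iff.1 hlt)
  let w : C →* Circle × Circle := (b'.toMul : C →* Circle).prod (χ : C →* Circle)
  have fin : IsOfFinOrder (w x) := IsOfFinOrder.prod_iff.2
    ⟨isOfFinOrder_iff_pow_eq_one.2 ⟨_, pow_pos hp.pos _, o2⟩,
      isOfFinOrder_iff_pow_eq_one.2 ⟨_, pow_pos hp.pos _, o1⟩⟩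
  have : N ≤ (Subgroup.zpowers (w x)).comap w := Subgroup.topologicalClosure_minimal _
    (Subgroup.zpowers_le.2 (Subgroup.mem_zpowers _))
    ((finite_zpowers.2 fin).isClosed.preimage ((map_continuous b'.toMul).prodMk (map_continuous χ)))
  obtain ⟨n, hn⟩ := this hyN
  have e1 : b'.toMul x ^ n = b'.toMul y := congrArg Prod.fst hn
  have e2 : χ x ^ n = χ y := congrArg Prod.snd hn
  rw [show b'.toMul y = 1 from (mann _ _).1 hyi _ ⟨_, hb'⟩, ← orderOf_dvd_iff_zpow_eq_one] at e1
  refine hχ ?_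
  rw [← e2, ← orderOf_dvd_iff_zpow_eq_one]
  exact (Int.natCast_dvd_natCast.2 ((orderOf_dvd_of_pow_eq_one o1).trans dv)).trans e1

theorem thmB' {H : Subgroup C} (he : Essn H) (ht : Tight κ (H : Set C)) {N : Subgroup C}
    (hN : IsClosed (N : Set C))
    (hE : ∀ q : ℕ, q.Prime → (∀ x ∈ N, x ^ q = 1) ∨ ∀ x ∈ N, x ^ q = 1 → x = 1) :
    ∃ S : Set (C →ₜ* Circle), Sm κ S ∧ ∀ x ∈ N, (∀ a ∈ S, a x = 1) → x = 1 := by
  have : CompactSpace N := isCompact_iff_compactSpace.1 hN.isCompact
  have := thmB hκ (C := N) (H := H.comap N.subtype) (fun M hM hne => by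
    obtain ⟨h, h1, h2, y, hy, rfl⟩ := he (M.map N.subtype)
      (hM.isCompact.image continuous_subtype_val).isClosed
      (fun e => hne ((Subgroup.map_eq_bot_iff_of_injective _ N.subtype_injective).1 e))
    exact ⟨y, h1, fun e => h2 (by simp [e]), hy⟩) (ht.preimage IsEmbedding.subtypeVal) (fun q hq => by
    refine (hE q hq).imp (fun h a => ContinuousMonoidHom.ext fun x => ?_) fun h a => ?_
    · rw [ContinuousMonoidHom.pow_apply, ← map_pow, show x ^ q = 1 from Subtype.ext (h x x.2), map_one]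
      rfl
    · refine mem_of_sep (powMonoidHom q).range (fun x hx => ?_) a
      obtain ⟨χ, hχ⟩ := sepChar (x := x ^ q) fun e => hx (Subtype.ext (h x x.2 (congrArg Subtype.val e)))
      exact ⟨χ ^ q, ⟨χ, rfl⟩, by rwa [ContinuousMonoidHom.pow_apply, ← map_pow]⟩)
  let r : (C →ₜ* Circle) → (N →ₜ* Circle) := fun a => a.comp ⟨N.subtype, continuous_subtype_val⟩
  refine ⟨Set.range (Function.invFun r), Sm.range this _, fun x hx h => ?_⟩
  by_contra hne
  obtain ⟨χ, hχ⟩ := sepChar hne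
  have e : r (Function.invFun r (r χ)) = r χ := Function.invFun_eq ⟨χ, rfl⟩
  exact hχ ((DFunLike.congr_fun e ⟨x, hx⟩).symm.trans (h _ ⟨_, rfl⟩))

theorem thmA {H : Subgroup C} (he : Essn H) (ht : Tight κ (H : Set C)) :
    ∃ S : Set (C →ₜ* Circle), Sm κ S ∧ ∀ x, (∀ a ∈ S, a x = 1) → x = 1 := by
  have h1 : ∀ p : Nat.Primes, _ := fun p => thmB' hκ he ht (N := (powMonoidHom (p : ℕ)).ker)
    (isClosed_eq (continuous_pow (p : ℕ)) continuous_const) fun q hq => by
      by_cases h : q = p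
      · exact Or.inl fun x hx => h ▸ hx
      · exact Or.inr fun x hx hx' => by
          have := Nat.dvd_gcd (orderOf_dvd_of_pow_eq_one hx') (orderOf_dvd_of_pow_eq_one hx)
          rwa [(Nat.coprime_primes hq p.2).2 h, Nat.dvd_one, orderOf_eq_one_iff] at this
  choose S hS1 hS2 using h1
  let N : Subgroup C := ⨅ a ∈ ⋃ p, S p, (a : C →* Circle).ker
  have mN : ∀ x, x ∈ N ↔ ∀ a ∈ ⋃ p, S p, a x = 1 := fun x => by
    simp only [N, Subgroup.mem_iInf]; rfl
  obtain ⟨S', c', h'⟩ := thmB' hκ he ht (N := N) (by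
    simp only [N, Subgroup.coe_iInf]
    exact isClosed_iInter fun a => isClosed_iInter fun _ =>
      isClosed_singleton.preimage (map_continuous a)) fun q hq => Or.inr fun x hx hx' =>
        hS2 ⟨q, hq⟩ x hx' fun a ha => (mN x).1 hx a (Set.mem_iUnion.2 ⟨_, ha⟩)
  exact ⟨(⋃ p, S p) ∪ S', Sm.union hκ (Sm.iUnion hκ hS1) c', fun x hx =>
    h' x ((mN x).2 fun a ha => hx a (Or.inl ha)) fun a ha => hx a (Or.inr ha)⟩

end Pool.Agent.H71.DualK
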