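import Mathlib
import Pool.Agent.H71.Cover

set_option autoImplicit false

namespace Pool.Agent.H71.Form

open scoped commutatorElement
open Subgroup Function

theorem rank {L : Type*} [Lattice L] [IsModularLattice L] (c : ℕ → L) (t : ℕ)
    (h1 : ∀ i < t, c i ≤ c (i + 1))
    (h2 : ∀ i < t, ∀ K, c i ≤ K → K ≤ c (i + 1) → K ≤ c i ∨ c (i + 1) ≤ K) (h0 : ∀ x, c 0 ≤ x) :
    ∃ r : L → ℕ, (∀ x, r x ≤ t) ∧ (∀ x y, x ≤ y → r x ≤ r y) ∧
      ∀ x y, x ≤ y → ¬ y ≤ x → y ≤ c t → r x < r y := by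
  classical
  let S : L → Finset ℕ := fun x => (Finset.range t).filter fun i => ¬ x ⊓ c (i + 1) ≤ c i
  have hS : ∀ x y, x ≤ y → S x ⊆ S y := fun x y h i hi => by
    simp only [S, Finset.mem_filter] at hi ⊢
    exact ⟨hi.1, fun e => hi.2 ((inf_le_inf_right _ h).trans e)⟩
  refine ⟨fun x => (S x).card, fun x => (Finset.card_filter_le _ _).trans (by simp),
    fun x y h => Finset.card_le_card (hS x y h), fun x y h h' hy => ?_⟩
  refine Finset.card_lt_card ⟨hS x y h, fun e => h' ?_⟩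
  have : ∀ i ≤ t, y ⊓ c i ≤ x := by
    intro i
    induction i with
    | zero => exact fun _ => inf_le_right.trans (h0 x)
    | succ i ih =>
      intro hi
      by_cases h3 : y ⊓ c (i + 1) ≤ c i
      · exact (le_inf inf_le_left h3).trans (ih (by omega))
      have h4 : i ∈ S x := e (Finset.mem_filter.2 ⟨Finset.mem_range.2 hi, h3⟩)
      have h5 := (h2 i hi (x ⊓ c (i + 1) ⊔ c i) le_sup_right
        (sup_le inf_le_right (h1 i hi))).resolve_left
        fun e => (Finset.mem_filter.1 h4).2 (le_sup_left.trans e)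
      refine (inf_le_inf_left y h5).trans ?_
      rw [inf_comm, sup_inf_assoc_of_le _ (inf_le_left.trans h), inf_comm (c i)]
      exact sup_le inf_le_left (ih (by omega))
  exact (le_inf le_rfl hy).trans (this t le_rfl)

/-- formations -/
@[ext] structure Fm where
  mem : ∀ (G : Type) [Group G], Prop
  fin : ∀ (G : Type) [Group G], mem G → Finite G
  quot : ∀ (G H : Type) [Group G] [Group H] (f : G →* H), Surjective f → mem G → mem H
  res : ∀ (G : Type) [Group G] (N₁ N₂ : Subgroup G) [N₁.Normal] [N₂.Normal],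
    N₁ ⊓ N₂ = ⊥ → mem (G ⧸ N₁) → mem (G ⧸ N₂) → mem G

theorem inj2 {G : Type} [Group G] {N₁ N₂ : Subgroup G} [N₁.Normal] [N₂.Normal] (h : N₁ ⊓ N₂ = ⊥)
    {a b : G} (h1 : QuotientGroup.mk' N₁ a = QuotientGroup.mk' N₁ b)
    (h2 : QuotientGroup.mk' N₂ a = QuotientGroup.mk' N₂ b) : a = b :=
  inv_mul_eq_one.1 (mem_bot.1 (h ▸ ⟨QuotientGroup.eq.1 h1, QuotientGroup.eq.1 h2⟩))

theorem fin2 {G : Type} [Group G] {N₁ N₂ : Subgroup G} [N₁.Normal] [N₂.Normal] (h : N₁ ⊓ N₂ = ⊥)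
    (h1 : Finite (G ⧸ N₁)) (h2 : Finite (G ⧸ N₂)) : Finite G :=
  Finite.of_injective (fun a => (QuotientGroup.mk' N₁ a, QuotientGroup.mk' N₂ a))
    fun _ _ e => inj2 h (congrArg Prod.fst e) (congrArg Prod.snd e)

instance : PartialOrder Fm where
  le A B := ∀ (G : Type) [Group G], A.mem G → B.mem G
  le_refl _ _ _ h := h
  le_trans _ _ _ h h' G _ e := h' G (h G e)
  le_antisymm _ _ h h' := Fm.ext (funext fun G => funext fun _ => propext ⟨h G, h' G⟩)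

/-- all finite groups -/
def all : Fm := ⟨fun G _ => Finite G, fun _ _ h => h, fun _ _ _ _ f hf _ => Finite.of_surjective f hf,
  fun _ _ _ _ _ _ => fin2⟩

instance : Lattice Fm where
  inf A B := ⟨fun G _ => A.mem G ∧ B.mem G, fun G _ h => A.fin G h.1,
    fun G H _ _ f hf h => ⟨A.quot G H f hf h.1, B.quot G H f hf h.2⟩,
    fun G _ N₁ N₂ _ _ e h h' => ⟨A.res G N₁ N₂ e h.1 h'.1, B.res G N₁ N₂ e h.2 h'.2⟩⟩
  inf_le_left _ _ _ _ h := h.1
  inf_le_right _ _ _ _ h := h.2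
  le_inf _ _ _ h h' G _ e := ⟨h G e, h' G e⟩
  sup A B := ⟨fun G _ => ∀ K, A ≤ K → B ≤ K → K.mem G, fun G _ h => h all A.fin B.fin,
    fun G H _ _ f hf h K a b => K.quot G H f hf (h K a b),
    fun G _ N₁ N₂ _ _ e h h' K a b => K.res G N₁ N₂ e (h K a b) (h' K a b)⟩
  le_sup_left _ _ G _ h _ a _ := a G h
  le_sup_right _ _ G _ h _ _ b := b G h
  sup_le _ _ K a b _ _ h := h K a b

variable {G H : Type} [Group G] [Group H] {X Y Z : Fm}

/-- some quotient by a subgroup of `N` lies in `X` -/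
def R (X : Fm) (N : Subgroup H) : Prop :=
  ∃ (Q : Type) (_ : Group Q) (f : H →* Q), Surjective f ∧ X.mem Q ∧ f.ker ≤ N

theorem R.of (h : X.mem G) (f : H →* G) (hf : Surjective f) : R X f.ker :=
  ⟨G, _, f, hf, h, le_rfl⟩

theorem R.mem {f : H →* G} (h : R X f.ker) (hf : Surjective f) : X.mem G := by
  obtain ⟨Q, _, g, hg, h1, h2⟩ := h
  refine X.quot Q G (g.liftOfSurjective hg ⟨f, h2⟩) (fun y => ?_) h1
  obtain ⟨x, rfl⟩ := hf y
  exact ⟨g x, g.liftOfRightInverse_comp_apply _ _ _ _⟩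

theorem R.mono {N M : Subgroup H} (h : R X N) (e : N ≤ M) : R X M := by
  obtain ⟨Q, _, g, hg, h1, h2⟩ := h
  exact ⟨Q, _, g, hg, h1, h2.trans e⟩

theorem R.le {N : Subgroup H} (h : R X N) (e : X ≤ Y) : R Y N := by
  obtain ⟨Q, _, g, hg, h1, h2⟩ := h
  exact ⟨Q, _, g, hg, e Q h1, h2⟩

theorem R.quot {N : Subgroup H} [N.Normal] (h : R X N) : X.mem (H ⧸ N) :=
  R.mem (f := QuotientGroup.mk' N) (by rwa [QuotientGroup.ker_mk']) (QuotientGroup.mk'_surjective N)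

theorem R.of_quot {N : Subgroup H} [N.Normal] (h : X.mem (H ⧸ N)) : R X N :=
  (R.of h _ (QuotientGroup.mk'_surjective N)).mono (QuotientGroup.ker_mk' N).le

theorem R.comap {N : Subgroup H} (h : R X N) (φ : G →* H) (hφ : Surjective φ) :
    R X (N.comap φ) := by
  obtain ⟨Q, _, g, hg, h1, h2⟩ := h
  exact ⟨Q, _, g.comp φ, hg.comp hφ, h1, fun x hx => h2 hx⟩

theorem R.inf {N M : Subgroup H} (h : R X N) (h' : R X M) : R X (N ⊓ M) := by
  obtain ⟨Q, _, g, hg, h1, h2⟩ := h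
  obtain ⟨Q', _, g', hg', h1', h2'⟩ := h'
  refine (R.of_quot (N := g.ker ⊓ g'.ker) ?_).mono (inf_le_inf h2 h2')
  have hs := QuotientGroup.mk'_surjective (g.ker ⊓ g'.ker)
  have key : ∀ K : Subgroup H, R X K → ∀ [(K.map (QuotientGroup.mk' (g.ker ⊓ g'.ker))).Normal],
      X.mem (_ ⧸ K.map (QuotientGroup.mk' (g.ker ⊓ g'.ker))) := fun K hK _ =>
    R.mem (f := (QuotientGroup.mk' _).comp (QuotientGroup.mk' (g.ker ⊓ g'.ker)))
      (hK.mono fun x hx => (QuotientGroup.eq_one_iff _).2 (mem_map_of_mem _ hx))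
      ((QuotientGroup.mk'_surjective _).comp hs)
  have := Normal.map (inferInstance : g.ker.Normal) _ hs
  have := Normal.map (inferInstance : g'.ker.Normal) _ hs
  refine X.res _ _ _ ?_ (key _ (R.of h1 g hg)) (key _ (R.of h1' g' hg'))
  rw [eq_bot_iff]
  rintro _ ⟨⟨a, ha, rfl⟩, b, hb, e⟩
  have e' := QuotientGroup.eq.1 e
  exact (QuotientGroup.eq_one_iff a).2 ⟨ha, (Subgroup.mul_mem_cancel_left _ (inv_mem hb)).1 e'.2⟩

theorem R.both {N : Subgroup H} (h : R X N) (h' : R Y N) : R (X ⊓ Y) N := by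
  have key : ∀ W : Fm, R W N → W.mem (H ⧸ N.normalCore) := by
    rintro W ⟨Q, _, g, hg, h1, h2⟩
    exact ((R.of h1 g hg).mono (normal_le_normalCore.2 h2)).quot
  exact (R.of_quot (X := X ⊓ Y) ⟨key X h, key Y h'⟩).mono N.normalCore_le

theorem triv (h : X.mem G) [Subsingleton H] : X.mem H :=
  X.quot G H 1 (fun _ => ⟨1, Subsingleton.elim _ _⟩) h

theorem R.top (h : X.mem Unit) : R X (⊤ : Subgroup H) :=
  ⟨Unit, _, 1, fun _ => ⟨1, rfl⟩, h, le_top⟩

theorem join (hY : Y.mem Unit) (hZ : Z.mem Unit) (h : (Y ⊔ Z).mem G) :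
    ∃ (H : Type) (_ : Group H) (f : H →* G) (M₁ M₂ : Subgroup H), M₁.Normal ∧ M₂.Normal ∧
      Surjective f ∧ R Y M₁ ∧ R Z M₂ ∧ M₁ ⊓ M₂ ≤ f.ker := by
  let J : Fm :=
    { mem := fun G _ => Finite G ∧ ∃ (H : Type) (_ : Group H) (f : H →* G) (M₁ M₂ : Subgroup H),
        Surjective f ∧ R Y M₁ ∧ R Z M₂ ∧ M₁ ⊓ M₂ ≤ f.ker
      fin := fun _ _ h => h.1
      quot := by
        rintro G G' _ _ φ hφ ⟨_, H, _, f, M₁, M₂, hf, h1, h2, h3⟩
        refine ⟨Finite.of_surjective φ hφ, H, _, φ.comp f, M₁, M₂, hφ.comp hf, h1, h2,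
          fun x hx => ?_⟩
        rw [MonoidHom.mem_ker, MonoidHom.comp_apply, h3 hx, map_one]
      res := by
        rintro G _ N N' _ _ e ⟨a, H, _, f, M₁, M₂, hf, h1, h2, h3⟩
          ⟨a', H', _, f', M₁', M₂', hf', h1', h2', h3'⟩
        let p0 := MonoidHom.fst G (H × H')
        let p1 := (MonoidHom.fst H H').comp (MonoidHom.snd G (H × H'))
        let p2 := (MonoidHom.snd H H').comp (MonoidHom.snd G (H × H'))
        let P := ((QuotientGroup.mk' N).comp p0).eqLocus (f.comp p1) ⊓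
          ((QuotientGroup.mk' N').comp p0).eqLocus (f'.comp p2)
        have s1 : Surjective (p1.comp P.subtype) := fun x => by
          obtain ⟨g, hg⟩ := QuotientGroup.mk'_surjective N (f x)
          obtain ⟨y, hy⟩ := hf' (QuotientGroup.mk' N' g)
          exact ⟨⟨(g, x, y), hg, hy.symm⟩, rfl⟩
        have s2 : Surjective (p2.comp P.subtype) := fun y => by
          obtain ⟨g, hg⟩ := QuotientGroup.mk'_surjective N' (f' y)
          obtain ⟨x, hx⟩ := hf (QuotientGroup.mk' N g)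
          exact ⟨⟨(g, x, y), hx.symm, hg⟩, rfl⟩
        refine ⟨fin2 e a a', P, _, p0.comp P.subtype, _, _, fun g => ?_,
          (h1.comap _ s1).inf (h1'.comap _ s2), (h2.comap _ s1).inf (h2'.comap _ s2), ?_⟩
        · obtain ⟨x, hx⟩ := hf (QuotientGroup.mk' N g)
          obtain ⟨y, hy⟩ := hf' (QuotientGroup.mk' N' g)
          exact ⟨⟨(g, x, y), hx.symm, hy.symm⟩, rfl⟩
        · rintro ⟨⟨g, x, y⟩, e1, e2⟩ ⟨⟨b1, b2⟩, b3, b4⟩
          exact inj2 e (Eq.trans e1 ((h3 ⟨b1, b3⟩).trans (map_one _).symm))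
            (Eq.trans e2 ((h3' ⟨b2, b4⟩).trans (map_one _).symm)) }
  obtain ⟨-, H, _, f, M₁, M₂, hf, ⟨Q, _, g, hg, h1, h2⟩, ⟨Q', _, g', hg', h1', h2'⟩, h3⟩ := h J
    (fun G _ hG => ⟨Y.fin G hG, G, _, MonoidHom.id G, _, ⊤, surjective_id,
      R.of hG (MonoidHom.id G) surjective_id, R.top hZ, inf_le_left⟩)
    (fun G _ hG => ⟨Z.fin G hG, G, _, MonoidHom.id G, ⊤, _, surjective_id, R.top hY,
      R.of hG (MonoidHom.id G) surjective_id, inf_le_right⟩)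
  exact ⟨H, _, f, g.ker, g'.ker, inferInstance, inferInstance, hf, R.of h1 g hg, R.of h1' g' hg',
    (inf_le_inf h2 h2').trans h3⟩

theorem le_of_empty (h : ¬ X.mem Unit) : X ≤ Y := fun _ _ e => (h (triv e)).elim

instance : IsModularLattice Fm where
  sup_inf_le_assoc_of_le := by
    intro Y Z X hYX G _ hG
    by_cases hY : Y.mem Unit
    swap
    · exact (le_sup_right : Z ⊓ X ≤ _) G ⟨sup_le (le_of_empty hY) le_rfl G hG.1, hG.2⟩
    by_cases hZ : Z.mem Unit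
    swap
    · exact (le_sup_left : Y ≤ _) G (sup_le le_rfl (le_of_empty hZ) G hG.1)
    obtain ⟨H, _, f, M₁, M₂, _, _, hf, h1, h2, h3⟩ := join hY hZ hG.1
    have h4 := (R.of hG.2 f hf).inf (h1.le hYX)
    have h5 := ((h2.mono le_sup_left).both (h4.mono le_sup_right)).le
      (le_sup_right : _ ≤ Y ⊔ Z ⊓ X)
    refine R.mem ((h5.inf (h1.le le_sup_left)).mono ?_) hf
    rintro x ⟨hx, hx'⟩
    obtain ⟨a, ha, b, hb, rfl⟩ := mem_sup_of_normal_left.1 hx
    exact mul_mem (h3 ⟨(Subgroup.mul_mem_cancel_right _ hb.2).1 hx', ha⟩) hb.1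

theorem exists_min (h : ¬ X ≤ Y) (hY : Y.mem Unit) :
    ∃ (G : Type) (_ : Group G) (N : Subgroup G), X.mem G ∧ ¬ Y.mem G ∧ N.Normal ∧ N ≠ ⊥ ∧ R Y N ∧
      ∀ M : Subgroup G, M.Normal → M ≠ ⊥ → N ≤ M := by
  classical
  have h0 : ∃ n, ∃ (G : Type) (_ : Group G), X.mem G ∧ ¬ Y.mem G ∧ Nat.card G = n := by
    by_contra! h'
    exact h fun G _ hG => by_contra fun e => h' _ G _ hG e rfl
  obtain ⟨G, _, h1, h2, h3⟩ := Nat.find_spec h0
  have := X.fin G h1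
  have h4 : ∀ M : Subgroup G, M.Normal → M ≠ ⊥ → R Y M := fun M _ hM => R.of_quot <| by
    by_contra e
    refine Nat.find_min h0 ?_ ⟨_, _, X.quot G _ _ (QuotientGroup.mk'_surjective M) h1, e, rfl⟩
    rw [← h3, card_eq_card_quotient_mul_card_subgroup M]
    exact lt_mul_of_one_lt_right Nat.card_pos ((one_lt_card_iff_ne_bot M).2 hM)
  have h5 : (⊤ : Subgroup G) ≠ ⊥ := fun e =>
    have : Subsingleton G := (Subgroup.subsingleton_iff).1 (subsingleton_of_bot_eq_top e.symm)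
    h2 (triv hY)
  obtain ⟨N, hN, hm⟩ := (wellFounded_lt (α := Subgroup G)).has_min
    {M | M.Normal ∧ M ≠ ⊥} ⟨⊤, inferInstance, h5⟩
  refine ⟨G, _, N, h1, h2, hN.1, hN.2, h4 N hN.1 hN.2, fun M hM hM' => ?_⟩
  have := hN.1
  by_contra e
  refine hm (N ⊓ M) ⟨inferInstance, fun e' => h2 ?_⟩ ⟨inf_le_left, fun e' => e (e'.trans inf_le_right)⟩
  exact R.mem (f := MonoidHom.id G) (((h4 N hN.1 hN.2).inf (h4 M hM hM')).mono (e' ▸ bot_le))
    surjective_id

/-- fibre product over `G / N` -/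
def PP (N : Subgroup G) [N.Normal] : Subgroup (G × G) :=
  ((QuotientGroup.mk' N).comp (MonoidHom.fst G G)).eqLocus
    ((QuotientGroup.mk' N).comp (MonoidHom.snd G G))

theorem mem_PP {N : Subgroup G} [N.Normal] {a b : G} : (a, b) ∈ PP N ↔ a⁻¹ * b ∈ N :=
  QuotientGroup.eq

/-- diagonal of the centralizer -/
def DD (N : Subgroup G) [N.Normal] : Subgroup (PP N) :=
  ((MonoidHom.fst G G).eqLocus (MonoidHom.snd G G) ⊓
    (centralizer N).comap (MonoidHom.snd G G)).subgroupOf _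

theorem BK {f : H →* G} (hf : Surjective f) (N : Subgroup G) [N.Normal] (M₁ M₂ : Subgroup H)
    [M₁.Normal] [M₂.Normal] (h : M₁ ⊓ M₂ ≤ f.ker) (hN : N ≤ M₂.map f) (h1 : R X M₁) :
    R X (DD N) := by
  have hU : (M₂ ⊓ N.comap f).Normal := inferInstance
  let φ : PP (M₂ ⊓ N.comap f) →* PP N := ((f.prodMap f).comp (Subgroup.subtype _)).codRestrict _
    fun x => mem_PP.2 (by simpa using (mem_PP.1 x.2).2)
  have hφ : Surjective φ := by
    rintro ⟨⟨a, b⟩, e⟩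
    obtain ⟨x, rfl⟩ := hf a
    obtain ⟨y, hy, e'⟩ := hN (mem_PP.1 e)
    refine ⟨⟨(x, x * y), mem_PP.2 ?_⟩, Subtype.ext (Prod.ext rfl ?_)⟩
    · rw [inv_mul_cancel_left]
      exact ⟨hy, show f y ∈ N from e' ▸ mem_PP.1 e⟩
    · change f (x * y) = b
      rw [map_mul, e', mul_inv_cancel_left]
  have s1 : Surjective ((MonoidHom.fst H H).comp (PP (M₂ ⊓ N.comap f)).subtype) :=
    fun x => ⟨⟨(x, x), rfl⟩, rfl⟩
  have s2 : Surjective ((MonoidHom.snd H H).comp (PP (M₂ ⊓ N.comap f)).subtype) :=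
    fun x => ⟨⟨(x, x), rfl⟩, rfl⟩
  have hs := (QuotientGroup.mk'_surjective (DD N).normalCore).comp hφ
  refine (R.of_quot (R.mem (f := (QuotientGroup.mk' (DD N).normalCore).comp φ)
    (((h1.comap _ s1).inf (h1.comap _ s2)).mono ?_) hs)).mono (DD N).normalCore_le
  intro x hx
  refine (QuotientGroup.eq_one_iff _).2 fun z => ?_
  obtain ⟨z, rfl⟩ := hφ z
  rw [← map_mul, ← map_inv, ← map_mul]
  have hw : z * x * z⁻¹ ∈ _ := Normal.conj_mem inferInstance x hx z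
  generalize z * x * z⁻¹ = w at hw
  obtain ⟨⟨a, b⟩, e⟩ := w
  have ha : a ∈ M₁ := hw.1
  have hb : b ∈ M₁ := hw.2
  refine ⟨?_, fun n hn => ?_⟩
  · change f a = f b
    rw [← inv_mul_eq_one, ← map_inv, ← map_mul]
    exact h ⟨M₁.mul_mem (M₁.inv_mem ha) hb, (mem_PP.1 e).1⟩
  · obtain ⟨y, hy, rfl⟩ := hN hn
    change f y * f b = f b * f y
    rw [← commutatorElement_eq_one_iff_mul_comm, ← map_commutatorElement]
    exact h (inf_comm M₂ M₁ ▸ commutator_le_inf _ _ (commutator_mem_commutator hy hb))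

theorem R.iInf {ι : Type} (hX : X.mem Unit) (s : Finset ι) (N : ι → Subgroup H)
    (h : ∀ i ∈ s, R X (N i)) : R X (⨅ i ∈ s, N i) := by
  classical
  induction s using Finset.induction_on with
  | empty => simpa using R.top hX
  | insert i s _ ih =>
    rw [Finset.iInf_insert]
    exact (h i (by simp)).inf (ih fun j hj => h j (by simp [hj]))

theorem sub (h : X.mem G) (c : ℕ) (hc : Cover.γ G c = ⊥) (φ : H →* G) : R X φ.ker := by
  classical
  let ι := Fin (c + 1)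
  let d : G → Finset ι → G := fun g _ => g
  let u : ι → G → Finset ι → G := fun i g T => if i ∈ T then 1 else g
  let S : Set (Finset ι → G) := Set.range d ∪ Set.range fun q : ι × G => u q.1 q.2
  let L := closure S
  have hd : ∀ g, d g ∈ L := fun g => subset_closure (Or.inl ⟨g, rfl⟩)
  have hu : ∀ i g, u i g ∈ L := fun i g => subset_closure (Or.inr ⟨(i, g), rfl⟩)
  let δ0 : ι → (Finset ι → G) →* (Finset ι → G) := fun i =>
    { toFun := fun v T => v (insert i T), map_one' := rfl, map_mul' := fun _ _ => rfl }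
  have e1 : ∀ i g, δ0 i (u i g) = 1 := fun i g => funext fun T => if_pos (by simp)
  have e2 : ∀ i j g, i ≠ j → δ0 i (u j g) = u j g := fun i j g e => funext fun T =>
    if_congr (by simp [e.symm]) rfl rfl
  have hL : ∀ i, L ≤ L.comap (δ0 i) := fun i => (closure_le _).2 <| by
    rintro _ (⟨g, rfl⟩ | ⟨⟨j, g⟩, rfl⟩)
    · exact hd g
    · change δ0 i (u j g) ∈ L
      by_cases e : i = j
      · rw [← e, e1]; exact one_mem _
      · rw [e2 i j g e]; exact hu j g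
  let δ : ι → L →* L := fun i => ((δ0 i).comp L.subtype).codRestrict L fun v => hL i v.2
  have key : ∀ w : L, (∀ T, T ≠ ∅ → w.1 T = 1) → w.1 ∅ = 1 := by
    intro w hw
    have := Cover.killed δ _ (closure_closure_coe_preimage (k := S)) (by
      rintro ⟨_, _⟩ (⟨g, rfl⟩ | ⟨⟨j, g⟩, rfl⟩)
      · exact ⟨∅, by simp, by simp, fun i _ => rfl⟩
      · exact ⟨{j}, by simp, fun i hi => Subtype.ext (Finset.mem_singleton.1 hi ▸ e1 i g),
          fun i hi => Subtype.ext (e2 i j g (by simpa using hi))⟩) w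
      (fun i => Subtype.ext (funext fun T => hw _ (Finset.insert_ne_empty i T))) c (by simp [ι])
    have := Cover.γ_map ((Pi.evalMonoidHom (fun _ => G) ∅).comp L.subtype) this
    rwa [hc] at this
  let L' := L ⊓ φ.range.comap (Pi.evalMonoidHom (fun _ => G) ∅)
  let ev : Finset ι → L' →* G := fun T => (Pi.evalMonoidHom (fun _ => G) T).comp L'.subtype
  have h1 : R X (⨅ T ∈ Finset.univ.erase ∅, (ev T).ker) :=
    R.iInf (triv h) _ _ fun T hT => R.of h _ fun g => by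
      obtain ⟨i, hi⟩ := Finset.nonempty_iff_ne_empty.2 (Finset.ne_of_mem_erase hT)
      exact ⟨⟨d g * (u i g)⁻¹, L.mul_mem (hd g) (L.inv_mem (hu i g)), 1, by simp [d, u]⟩,
        by simp [ev, d, u, hi]⟩
  have h2 : X.mem φ.range := R.mem (f := (ev ∅).codRestrict φ.range fun v => v.2.2)
    (h1.mono fun w hw => Subtype.ext (key ⟨w.1, w.2.1⟩ fun T hT =>
      mem_iInf.1 (mem_iInf.1 hw T) (by simp [hT])))
    fun g => ⟨⟨d g, hd g, g.2⟩, rfl⟩
  exact (R.of h2 _ φ.rangeRestrict_surjective).mono (MonoidHom.ker_rangeRestrict φ).le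

/-- Heisenberg group -/
@[ext] structure He where
  a : ℤ
  b : ℤ
  c : ℤ

instance : Mul He := ⟨fun g h => ⟨g.a + h.a, g.b + h.b, g.c + h.c - g.b * h.a⟩⟩
instance : One He := ⟨⟨0, 0, 0⟩⟩
instance : Inv He := ⟨fun g => ⟨-g.a, -g.b, -g.c - g.a * g.b⟩⟩
@[simp] theorem mul_a (g h : He) : (g * h).a = g.a + h.a := rfl
@[simp] theorem mul_b (g h : He) : (g * h).b = g.b + h.b := rfl
@[simp] theorem mul_c (g h : He) : (g * h).c = g.c + h.c - g.b * h.a := rfl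
@[simp] theorem one_a : (1 : He).a = 0 := rfl
@[simp] theorem one_b : (1 : He).b = 0 := rfl
@[simp] theorem one_c : (1 : He).c = 0 := rfl
@[simp] theorem inv_a (g : He) : g⁻¹.a = -g.a := rfl
@[simp] theorem inv_b (g : He) : g⁻¹.b = -g.b := rfl
@[simp] theorem inv_c (g : He) : g⁻¹.c = -g.c - g.a * g.b := rfl

instance : Group He where
  mul_assoc g h k := by ext <;> simp <;> ring
  one_mul g := by ext <;> simp
  mul_one g := by ext <;> simp
  inv_mul_cancel g := by ext <;> simp <;> ring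

theorem pow_a (g : He) (n : ℕ) : (g ^ n).a = n * g.a := by
  induction n with
  | zero => simp
  | succ n ih => rw [pow_succ, mul_a, ih]; push_cast; ring

section
variable (hG : ∀ a b : G, ⁅a, b⁆ ∈ center G)
include hG

/-- commutator map -/
def κ (x : G) : G →* G := MonoidHom.mk' (fun g => ⁅x, g⁆) fun a b => by
  rw [commutatorElement_mul_right_eq_mul_conj, mul_assoc ⁅x, a⁆, mem_center_iff.1 (hG x b),
    ← mul_assoc, mul_inv_cancel_right]

theorem czr (x y : G) (n : ℤ) : ⁅x, y ^ n⁆ = ⁅x, y⁆ ^ n := map_zpow (κ hG x) y n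

theorem czl (x y : G) (n : ℤ) : ⁅x ^ n, y⁆ = ⁅x, y⁆ ^ n := by
  rw [← commutatorElement_inv, czr hG, ← inv_zpow, commutatorElement_inv]

/-- map from the Heisenberg group -/
def φ (x y : G) : He →* G := MonoidHom.mk' (fun g => x ^ g.a * y ^ g.b * ⁅x, y⁆ ^ g.c) fun g h => by
  have h1 : y ^ g.b * x ^ h.a = x ^ h.a * y ^ g.b * ⁅x, y⁆ ^ (-(g.b * h.a)) := by
    rw [mem_center_iff.1 (zpow_mem (hG x y) _), zpow_neg, mul_comm g.b, zpow_mul, ← czl hG,
      ← czr hG, commutatorElement_def]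
    group
  have h2 : ∀ (n : ℤ) g, ⁅x, y⁆ ^ n * g = g * ⁅x, y⁆ ^ n := fun n g =>
    (mem_center_iff.1 (zpow_mem (hG x y) n) g).symm
  calc x ^ (g.a + h.a) * y ^ (g.b + h.b) * ⁅x, y⁆ ^ (g.c + h.c - g.b * h.a)
      = x ^ g.a * (x ^ h.a * y ^ g.b) * (y ^ h.b * ⁅x, y⁆ ^ (-(g.b * h.a))) *
        ⁅x, y⁆ ^ h.c * ⁅x, y⁆ ^ g.c := by group
    _ = x ^ g.a * (x ^ h.a * y ^ g.b * ⁅x, y⁆ ^ (-(g.b * h.a))) * y ^ h.b *
        ⁅x, y⁆ ^ h.c * ⁅x, y⁆ ^ g.c := by rw [← h2 _ (y ^ h.b)]; simp only [mul_assoc]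
    _ = _ := by
      rw [← h1, mul_assoc _ (_ ^ g.c), h2 g.c]
      simp only [mul_assoc]

theorem φ_apply (x y : G) (g : He) : φ hG x y g = x ^ g.a * y ^ g.b * ⁅x, y⁆ ^ g.c := rfl

theorem γ2 : Cover.γ G 2 = ⊥ := by
  have : Cover.γ G 1 ≤ center G := commutator_le.2 fun a _ b _ => hG a b
  exact eq_bot_iff.2 (commutator_le.2 fun a ha b _ =>
    commutatorElement_eq_one_iff_mul_comm.2 (mem_center_iff.1 (this ha) b).symm)

end

/-- first kernel -/
def N1 (m : ℕ) : Subgroup He where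
  carrier := {g | (m : ℤ) ∣ g.a}
  mul_mem' := fun a b => dvd_add a b
  one_mem' := dvd_zero _
  inv_mem' := fun a => (dvd_neg).2 a

/-- second kernel -/
def N2 (m : ℕ) : Subgroup He where
  carrier := {g | (m : ℤ) ∣ g.a ∧ (m : ℤ) ∣ g.b ∧ (m : ℤ) ∣ g.c}
  mul_mem' := fun a b => ⟨dvd_add a.1 b.1, dvd_add a.2.1 b.2.1,
    dvd_sub (dvd_add a.2.2 b.2.2) (b.1.mul_left _)⟩
  one_mem' := ⟨dvd_zero _, dvd_zero _, dvd_zero _⟩
  inv_mem' := fun a => ⟨dvd_neg.2 a.1, dvd_neg.2 a.2.1, dvd_sub (dvd_neg.2 a.2.2) (a.1.mul_right _)⟩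

theorem R_N1 (h : X.mem G) (hG : ∀ a b : G, ⁅a, b⁆ ∈ center G) (x : G) : R X (N1 (orderOf x)) :=
  (sub h 2 (γ2 hG) (φ hG x 1)).mono fun g hg =>
    orderOf_dvd_iff_zpow_eq_one.2 (by simpa [φ_apply] using hg)

theorem R_N2 (h : X.mem G) (hG : ∀ a b : G, ⁅a, b⁆ ∈ center G) {p : ℕ} (hp : p.Prime)
    (he : ∀ a : G, a ^ p = 1) (x y : G) (hxy : ⁅x, y⁆ ≠ 1) : R X (N2 p) := by
  refine (sub h 2 (γ2 hG) (φ hG x y)).mono fun g hg => ?_
  have := Fact.mk hp
  have hz : ∀ n : ℤ, ⁅x, y⁆ ^ n = 1 → (p : ℤ) ∣ n := fun n e =>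
    orderOf_eq_prime (he _) hxy ▸ orderOf_dvd_iff_zpow_eq_one.2 e
  have hd : ∀ (a : G) (n : ℤ), (p : ℤ) ∣ n → a ^ n = 1 := by
    rintro a _ ⟨k, rfl⟩
    rw [zpow_mul, zpow_natCast, he, one_zpow]
  have hc : ∀ a : G, κ hG a ⁅x, y⁆ = 1 := fun a =>
    commutatorElement_eq_one_iff_mul_comm.2 (mem_center_iff.1 (hG x y) a)
  have hs : ∀ a : G, κ hG a a = 1 := fun a => commutatorElement_self a
  rw [MonoidHom.mem_ker, φ_apply] at hg
  have h1 := congrArg (κ hG x) hg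
  have h2 := congrArg (κ hG y) hg
  simp only [map_mul, map_zpow, hc, hs, one_zpow, one_mul, mul_one, map_one] at h1 h2
  have ha : (p : ℤ) ∣ g.a := hz _ (by
    rw [← commutatorElement_inv, inv_zpow, inv_eq_one]; exact h2)
  have hb := hz _ h1
  rw [hd x _ ha, hd y _ hb, one_mul, one_mul] at hg
  exact ⟨ha, hb, hz _ hg⟩

/-- elementary abelian groups -/
def El (p : ℕ) : Fm where
  mem G _ := Finite G ∧ (∀ a b : G, ⁅a, b⁆ = 1) ∧ ∀ a : G, a ^ p = 1
  fin _ _ h := h.1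
  quot := by
    rintro G H _ _ f hf ⟨_, h1, h2⟩
    refine ⟨Finite.of_surjective f hf, hf.forall₂.2 fun a b => ?_, hf.forall.2 fun a => ?_⟩
    · rw [← map_commutatorElement, h1, map_one]
    · rw [← map_pow, h2, map_one]
  res _ _ _ _ _ _ e h h' := ⟨fin2 e h.1 h'.1, fun a b => inj2 e
    (by rw [map_commutatorElement, h.2.1, map_one]) (by rw [map_commutatorElement, h'.2.1, map_one]),
    fun a => inj2 e (by rw [map_pow, h.2.2, map_one]) (by rw [map_pow, h'.2.2, map_one])⟩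

/-- trivial groups -/
def one : Fm where
  mem G _ := Subsingleton G
  fin _ _ _ := inferInstance
  quot _ _ _ _ _ hf _ := hf.subsingleton
  res _ _ _ _ _ _ e h h' := ⟨fun _ _ => inj2 e (h.elim _ _) (h'.elim _ _)⟩

theorem R.el {p : ℕ} {N : Subgroup H} (h : R (El p) N) : 
    (∀ a b : H, ⁅a, b⁆ ∈ N) ∧ ∀ a, a ^ p ∈ N := by
  obtain ⟨Q, _, g, -, h1, h2⟩ := h
  exact ⟨fun a b => h2 ((map_commutatorElement g a b).trans (h1.2.1 _ _)),
    fun a => h2 ((map_pow g a p).trans (h1.2.2 _))⟩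

theorem R.one {N : Subgroup H} (h : R one N) (a : H) : a ∈ N := by
  obtain ⟨Q, _, g, -, h1, h2⟩ := h
  exact h2 (h1.elim _ _)

theorem el_le {p : ℕ} (hp : p.Prime) (h1 : X ≤ El p) (h2 : ¬ X ≤ one) : El p ≤ X := by
  have := Fact.mk hp
  obtain ⟨S, _, -, hS, hS', -⟩ := exists_min h2 (inferInstanceAs (Subsingleton Unit))
  have : Nontrivial S := not_subsingleton_iff_nontrivial.1 hS'
  obtain ⟨s, hs⟩ := exists_ne (1 : S)
  have h3 := R_N1 hS (fun a b => (h1 S hS).2.1 a b ▸ one_mem _) s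
  rw [orderOf_eq_prime ((h1 S hS).2.2 s) hs] at h3
  by_contra h
  obtain ⟨G, _, N, ⟨_, a1, a2⟩, hG, -, hN, -, hm⟩ := exists_min h (triv hS)
  have hz : ∀ x : G, x ≠ 1 → N = zpowers x := fun x hx => by
    have h4 := hm (zpowers x) ⟨fun n hn g => by
      rwa [commutatorElement_eq_one_iff_mul_comm.1 (a1 g n), mul_inv_cancel_right]⟩
      (by simpa using hx)
    refine eq_of_le_of_card_ge h4 ?_
    have h5 := card_dvd_of_le h4
    rw [Nat.card_zpowers, orderOf_eq_prime (a2 x) hx] at h5 ⊢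
    exact ((hp.eq_one_or_self_of_dvd _ h5).resolve_left fun e => hN (card_eq_one.1 e)).ge
  obtain ⟨x, -, hx⟩ := (N.bot_or_exists_ne_one).resolve_left hN
  have hc : ∀ a b : G, ⁅a, b⁆ ∈ center G := fun a b => a1 a b ▸ one_mem _
  refine hG (R.mem (f := φ hc x 1) (h3.mono ?_) fun g => ?_)
  · rintro g ⟨k, hk⟩
    rw [MonoidHom.mem_ker, φ_apply, hk, zpow_mul, zpow_natCast, a2]
    simp
  · by_cases e : g = 1
    · exact ⟨1, (map_one _).trans e.symm⟩
    obtain ⟨k, hk⟩ : g ∈ zpowers x := hz x hx ▸ hz g e ▸ mem_zpowers g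
    exact ⟨⟨k, 0, 0⟩, by simpa [φ_apply] using hk⟩

theorem step {W : Fm} (hY : Y.mem Unit) (hZ : Z.mem Unit) (h : X ≤ Y ⊔ Z) (hW : W.mem Unit)
    (h1 : X ⊓ Y ≤ W) (h2 : X ⊓ Z ≤ W) (h3 : ¬ X ≤ W) :
    ∃ (G : Type) (_ : Group G) (N : Subgroup G) (_ : N.Normal), X.mem G ∧ ¬ W.mem G ∧ N ≠ ⊥ ∧
      R W N ∧ R (X ⊓ Y ⊓ Z) (DD N) := by
  obtain ⟨G, _, N, a1, a2, a3, a4, a5, a6⟩ := exists_min h3 hW
  obtain ⟨H, _, f, M₁, M₂, b1, b2, hf, b3, b4, b5⟩ := join hY hZ (h G a1)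
  have key : ∀ (V : Fm) (M : Subgroup H), M.Normal → R V M → X ⊓ V ≤ W → N ≤ M.map f :=
    fun V M hM e e' => a6 _ (hM.map f hf) fun e'' =>
      a2 (e' G ⟨a1, R.mem (e.mono ((Subgroup.map_eq_bot_iff _).1 e'')) hf⟩)
  exact ⟨G, _, N, a3, a1, a2, a4, a5,
    ((BK surjective_id (f := MonoidHom.id G) N _ ⊤ inf_le_left (by simp)
      (R.of a1 _ surjective_id)).both (BK hf N M₁ M₂ b5 (key Z M₂ b2 b4 h2) b3)).both
      (BK hf N M₂ M₁ (inf_comm M₁ M₂ ▸ b5) (key Y M₁ b1 b3 h1) b4)⟩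

theorem typ {p : ℕ} (hp : p.Prime) (hY : Y.mem Unit) (hZ : Z.mem Unit) (h : X ≤ Y ⊔ Z)
    (h1 : X ⊓ Y ≤ El p) (h2 : X ⊓ Z ≤ El p) (h3 : ¬ X ≤ El p) :
    R X (N1 (p ^ 2)) ∨ R X (N2 p) := by
  have := Fact.mk hp
  obtain ⟨G, _, N, _, a1, a2, -, a3, a4⟩ := step (W := El p) hY hZ h
    ⟨inferInstance, fun _ _ => rfl, fun _ => rfl⟩ h1 h2 h3
  obtain ⟨b1, b2⟩ := (a4.le (inf_le_left.trans h1)).el
  have c1 : N ≤ center G := fun n hn => mem_center_iff.2 fun g => by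
    have : ⁅g, n⁆ = ⁅g, (1 : G)⁆ :=
      (b1 ⟨(g, g), rfl⟩ ⟨(n, 1), mem_PP.2 (by simpa using hn)⟩).1
    rwa [commutatorElement_one_right, commutatorElement_eq_one_iff_mul_comm] at this
  have c2 : ∀ n ∈ N, n ^ p = 1 := fun n hn => by
    have : n ^ p = 1 ^ p := (b2 ⟨(n, 1), mem_PP.2 (by simpa using hn)⟩).1
    rwa [one_pow] at this
  have hG : ∀ a b : G, ⁅a, b⁆ ∈ center G := fun a b => c1 (a3.el.1 a b)
  by_cases e : ∀ a : G, a ^ p = 1
  · obtain ⟨x, y, hxy⟩ : ∃ x y : G, ⁅x, y⁆ ≠ 1 := by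
      by_contra! e'
      exact a2 ⟨X.fin G a1, e', e⟩
    exact Or.inr (R_N2 a1 hG hp e x y hxy)
  · obtain ⟨x, hx⟩ := not_forall.1 e
    have := R_N1 a1 hG x
    rw [orderOf_eq_prime_pow (p := p) (n := 1) (by simpa using hx)
      (by rw [pow_succ, pow_one, pow_mul]; exact c2 _ (a3.el.2 x))] at this
    exact Or.inl this

theorem clash {p : ℕ} (hp : p.Prime) (h : X ⊓ Y ≤ El p) :
    ¬ (R X (N1 (p ^ 2)) ∧ R Y (N1 (p ^ 2))) ∧ ¬ (R X (N2 p) ∧ R Y (N2 p)) := by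
  refine ⟨fun e => ?_, fun e => ?_⟩
  · have h1 : ((p ^ 2 : ℕ) : ℤ) ∣ _ := ((e.1.both e.2).le h).el.2 ⟨1, 0, 0⟩
    rw [pow_a, mul_one, Int.natCast_dvd_natCast] at h1
    have := Nat.le_of_dvd hp.pos h1
    nlinarith [hp.one_lt]
  · have h1 := (((e.1.both e.2).le h).el.1 ⟨1, 0, 0⟩ ⟨0, 1, 0⟩).2.2
    have : (⁅(⟨1, 0, 0⟩ : He), (⟨0, 1, 0⟩ : He)⁆).c = 1 := rfl
    rw [this] at h1
    exact hp.one_lt.ne' (by exact_mod_cast Int.eq_one_of_dvd_one (by positivity) h1)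

theorem exists_el (h : ¬ X ≤ one) (hs : ∀ (G : Type) [Group G], X.mem G → Group.IsSolvable G) :
    ∃ p : ℕ, p.Prime ∧ ¬ X ⊓ El p ≤ one := by
  obtain ⟨G, _, N, a1, a2, -, a3, a4, a5⟩ := exists_min h (inferInstanceAs (Subsingleton Unit))
  have : Nontrivial G := not_subsingleton_iff_nontrivial.1 a2
  have : IsSimpleGroup G := ⟨fun M hM => or_iff_not_imp_left.2 fun e =>
    (eq_top_iff' _).2 fun x => a5 M hM e (a4.one x)⟩
  have := X.fin G a1
  have hc := IsSimpleGroup.comm_iff_isSolvable.2 (hs G a1)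
  let _ : CommGroup G := { ‹Group G› with mul_comm := hc }
  exact ⟨_, IsSimpleGroup.prime_card (α := G), fun e => a2 (e G ⟨a1, this,
    fun a b => commutatorElement_eq_one_iff_mul_comm.2 (hc a b), fun _ => pow_card_eq_one'⟩)⟩

theorem main (F : Fm) (hs : ∀ (G : Type) [Group G], F.mem G → Group.IsSolvable G)
    (r : Fm → ℕ) (r0 : ∀ x, r x ≤ 4) (r1 : ∀ x y, x ≤ y → r x ≤ r y)
    (r2 : ∀ x y, x ≤ y → ¬ y ≤ x → y ≤ F → r x < r y) (E : Fm) (hE : ¬ E.mem Unit)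
    (A B C : Fm) (hB : B ≤ F) (hC : C ≤ F) (hA : A ≤ B ⊔ C) : A ≤ A ⊓ B ⊔ A ⊓ C := by
  by_contra h
  have hF := sup_le hB hC
  have n1 : ¬ A ≤ B := fun e => h ((le_inf le_rfl e).trans le_sup_left)
  have n2 : ¬ A ≤ C := fun e => h ((le_inf le_rfl e).trans le_sup_right)
  have n3 : ¬ B ≤ C := fun e => n2 (hA.trans (sup_le e le_rfl))
  have n4 : ¬ C ≤ B := fun e => n1 (hA.trans (sup_le le_rfl e))
  have uA : A.mem Unit := by_contra fun e => n1 (le_of_empty e)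
  have uB : B.mem Unit := by_contra fun e => n3 (le_of_empty e)
  have uC : C.mem Unit := by_contra fun e => n4 (le_of_empty e)
  have n5 : ¬ A ⊓ B ⊓ C ≤ one := fun e => by
    obtain ⟨G, _, N, _, -, -, a1, -, a2⟩ := step uB uC hA
      ((le_sup_left : A ⊓ B ≤ A ⊓ B ⊔ A ⊓ C) Unit ⟨uA, uB⟩) le_sup_left le_sup_right h
    exact a1 (eq_bot_iff.2 fun n hn =>
      ((a2.le e).one ⟨(n, 1), mem_PP.2 (by simpa using hn)⟩).1)
  have dF : A ⊓ B ⊓ C ≤ F := inf_le_right.trans hC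
  obtain ⟨p, hp, n6⟩ := exists_el n5 fun G _ e => hs G (dF G e)
  have o1 : one ≤ A ⊓ B ⊓ C ⊓ El p := fun G _ (e : Subsingleton G) => triv (G := Unit)
    ⟨⟨⟨uA, uB⟩, uC⟩, inferInstance, fun _ _ => rfl, fun _ => rfl⟩
  have q1 := r2 E one (le_of_empty hE) (fun e => hE (e Unit (inferInstanceAs (Subsingleton Unit))))
    (o1.trans (inf_le_left.trans dF))
  have q2 := r2 _ _ o1 n6 (inf_le_left.trans dF)
  set D := A ⊓ B ⊓ C ⊓ El p
  have dA : D ≤ A := inf_le_left.trans (inf_le_left.trans inf_le_left)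
  have dB : D ≤ B := inf_le_left.trans (inf_le_left.trans inf_le_right)
  have dC : D ≤ C := inf_le_left.trans inf_le_right
  have n7 : ¬ B ⊔ C ≤ A := fun e => h (hA.trans (sup_le_sup
    (le_inf (le_sup_left.trans e) le_rfl) (le_inf (le_sup_right.trans e) le_rfl)))
  have q3 := r2 _ _ hA n7 hF
  have q4 := r2 _ _ le_sup_left (fun e => n4 (le_sup_right.trans e)) hF
  have q5 := r2 _ _ le_sup_right (fun e => n3 (le_sup_left.trans e)) hF
  have q6 := r0 (B ⊔ C)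
  have key : ∀ U V : Fm, D ≤ U → D ≤ V → ¬ U ≤ V → U ≤ F → r U ≤ 3 → U ⊓ V ≤ El p := by
    intro U V a b c d e
    refine le_trans (by_contra fun e' => ?_) (inf_le_right : D ≤ _)
    have := r2 _ _ (le_inf a b) e' (inf_le_left.trans d)
    have := r2 _ _ inf_le_left (fun e => c (e.trans inf_le_right)) d
    omega
  have k1 := key A B dA dB n1 (hA.trans hF) (by omega)
  have k2 := key A C dA dC n2 (hA.trans hF) (by omega)
  have k3 := key B C dB dC n3 hB (by omega)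
  have key2 : ∀ U : Fm, D ≤ U → U ≤ B ⊔ C → ¬ A ≤ U → ¬ U ≤ D → B ⊔ C ≤ A ⊔ U := by
    intro U a b c d
    by_contra e
    have := r2 _ _ a d (b.trans hF)
    have := r2 _ _ (sup_le hA b) e hF
    have := r2 _ _ (le_sup_right : U ≤ A ⊔ U) (fun e => c (le_sup_left.trans e))
      ((sup_le hA b).trans hF)
    omega
  have hD := el_le hp inf_le_right n6
  have t1 := typ hp uB uC hA k1 k2 fun e => n1 (e.trans (hD.trans dB))
  have t2 := typ hp uA uC (le_sup_left.trans (key2 C dC le_sup_right n2 fun e => n4 (e.trans dB)))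
    (inf_comm A B ▸ k1) k3 fun e => n3 (e.trans (hD.trans dC))
  have t3 := typ hp uA uB (le_sup_right.trans (key2 B dB le_sup_left n1 fun e => n3 (e.trans dC)))
    (inf_comm A C ▸ k2) (inf_comm B C ▸ k3) fun e => n4 (e.trans (hD.trans dB))
  rcases t1 with a | a <;> rcases t2 with b | b <;> rcases t3 with c | c
  exacts [(clash hp k1).1 ⟨a, b⟩, (clash hp k1).1 ⟨a, b⟩, (clash hp k2).1 ⟨a, c⟩,
    (clash hp k3).2 ⟨b, c⟩, (clash hp k3).1 ⟨b, c⟩, (clash hp k2).2 ⟨a, c⟩,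
    (clash hp k1).2 ⟨a, b⟩, (clash hp k1).2 ⟨a, b⟩]

end Pool.Agent.H71.Form
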