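import Mathlib

set_option autoImplicit false

namespace Pool.Agent.H71.Fox

open scoped commutatorElement
open Subgroup Function

/-- affine group of a ring -/
@[ext] structure Af (R : Type) [Ring R] where
  r : R
  u : Rˣ

section
variable {R : Type} [Ring R]

instance : Mul (Af R) := ⟨fun g h => ⟨g.r + g.u * h.r, g.u * h.u⟩⟩
instance : One (Af R) := ⟨⟨0, 1⟩⟩
instance : Inv (Af R) := ⟨fun g => ⟨-(↑g.u⁻¹ * g.r), g.u⁻¹⟩⟩
@[simp] theorem mul_r (g h : Af R) : (g * h).r = g.r + g.u * h.r := rfl
@[simp] theorem mul_u (g h : Af R) : (g * h).u = g.u * h.u := rfl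
@[simp] theorem one_r : (1 : Af R).r = 0 := rfl
@[simp] theorem one_u : (1 : Af R).u = 1 := rfl
@[simp] theorem inv_r (g : Af R) : g⁻¹.r = -(↑g.u⁻¹ * g.r) := rfl
@[simp] theorem inv_u (g : Af R) : g⁻¹.u = g.u⁻¹ := rfl

instance : Group (Af R) where
  mul_assoc g h k := by ext <;> simp [mul_assoc, add_assoc, mul_add]
  one_mul g := by ext <;> simp
  mul_one g := by ext <;> simp
  inv_mul_cancel g := by ext <;> simp

instance [Finite R] : Finite (Af R) :=
  Finite.of_injective (fun g : Af R => (g.r, g.u)) fun _ _ e =>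
    Af.ext (congrArg Prod.fst e) (congrArg Prod.snd e)

end

/-- free group of rank three -/
abbrev F : Type := FreeGroup (Fin 3)

section
variable {R : Type} [Ring R] (χ : F →* R)

/-- Magnus map -/
def θ (i : Fin 3) : F →* Af R :=
  FreeGroup.lift fun j => ⟨if j = i then 1 else 0, χ.toHomUnits (.of j)⟩

theorem θ_u (i : Fin 3) (w : F) : ((θ χ i w).u : R) = χ w := by
  have : (MonoidHom.mk' Af.u fun _ _ => rfl).comp (θ χ i) = χ.toHomUnits :=
    FreeGroup.ext_hom _ _ fun j => by simp [θ]
  exact congrArg Units.val (DFunLike.congr_fun this w)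

/-- Fox derivative -/
def d (i : Fin 3) (w : F) : R := (θ χ i w).r

theorem d_mul (i : Fin 3) (v w : F) : d χ i (v * w) = d χ i v + χ v * d χ i w := by
  rw [d, map_mul, mul_r, θ_u]; rfl

theorem d_one (i : Fin 3) : d χ i 1 = 0 := by rw [d, map_one]; rfl

theorem d_of (i j : Fin 3) : d χ i (.of j) = if j = i then 1 else 0 := by simp [d, θ]

theorem χ_inv (w : F) : χ w⁻¹ * χ w = 1 := by rw [← map_mul, inv_mul_cancel, map_one]

theorem d_inv (i : Fin 3) (w : F) : d χ i w⁻¹ = -(χ w⁻¹ * d χ i w) := by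
  have := d_mul χ i w⁻¹ w
  rw [inv_mul_cancel, d_one] at this
  exact eq_neg_of_add_eq_zero_left this.symm

theorem d_conj (i : Fin 3) (g : F) {w : F} (h : χ w = 1) :
    d χ i (g * w * g⁻¹) = χ g * d χ i w := by
  have := d_mul χ i g g⁻¹
  rw [mul_inv_cancel, d_one] at this
  rw [d_mul, d_mul, map_mul, h, mul_one, add_right_comm, ← this, zero_add]

theorem d_pow (i : Fin 3) {w : F} (h : χ w = 1) (n : ℕ) : d χ i (w ^ n) = n * d χ i w := by
  induction n with
  | zero => simp [d_one]
  | succ n ih => rw [pow_succ', d_mul, ih, h]; push_cast; noncomm_ring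

theorem d_map {R' : Type} [Ring R'] (φ : R →+* R') (i : Fin 3) (w : F) :
    d (φ.toMonoidHom.comp χ) i w = φ (d χ i w) := by
  induction w using FreeGroup.induction_on with
  | C1 => simp [d_one]
  | of j => rw [d_of, d_of]; split_ifs <;> simp
  | inv_of j ih => rw [d_inv, d_inv, ih]; simp
  | mul v w hv hw => rw [d_mul, d_mul, hv, hw]; simp

theorem univ {M : Type} [AddCommGroup M] [Module R M] (δ : F → M)
    (h : ∀ v w, δ (v * w) = δ v + χ v • δ w) (w : F) : δ w = ∑ i, d χ i w • δ (.of i) := by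
  have h1 : δ 1 = 0 := by simpa using h 1 1
  induction w using FreeGroup.induction_on with
  | C1 => simp [d_one, h1]
  | of j => simp [d_of]
  | inv_of j ih =>
    have := h (.of j)⁻¹ (.of j)
    rw [inv_mul_cancel, h1, ih] at this
    simp only [d_inv, neg_smul, mul_smul, Finset.sum_neg_distrib, ← Finset.smul_sum]
    exact eq_neg_of_add_eq_zero_left this.symm
  | mul v w hv hw =>
    rw [h, hv, hw]
    simp only [d_mul, add_smul, mul_smul, Finset.sum_add_distrib, Finset.smul_sum]

variable (r : F)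

/-- words whose Fox derivative is a left multiple of that of `r` -/
def J : Subgroup F where
  carrier := {w | χ w = 1 ∧ ∃ l, ∀ i, d χ i w = l * d χ i r}
  one_mem' := ⟨map_one χ, 0, fun i => by simp [d_one]⟩
  mul_mem' := by
    rintro v w ⟨hv, l, hl⟩ ⟨hw, m, hm⟩
    exact ⟨by simp [hv, hw], l + m, fun i => by rw [d_mul, hl, hm, hv, one_mul, add_mul]⟩
  inv_mem' := by
    rintro v ⟨hv, l, hl⟩
    have : χ v⁻¹ = 1 := by simpa [hv] using χ_inv χ v
    exact ⟨this, -l, fun i => by rw [d_inv, this, hl, one_mul, neg_mul]⟩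

instance J_normal : (J χ r).Normal := ⟨by
  rintro v ⟨hv, l, hl⟩ g
  refine ⟨?_, χ g * l, fun i => by rw [d_conj χ i g hv, hl, mul_assoc]⟩
  rw [map_mul, map_mul, hv, mul_one, ← map_mul, mul_inv_cancel, map_one]⟩

theorem r_mem (h : χ r = 1) : r ∈ J χ r := ⟨h, 1, fun _ => (one_mul _).symm⟩

theorem J_mono {R' : Type} [Ring R'] (φ : R →+* R') : J χ r ≤ J (φ.toMonoidHom.comp χ) r := by
  rintro v ⟨hv, l, hl⟩
  exact ⟨by simp [hv], φ l, fun i => by rw [d_map, d_map, hl, map_mul]⟩

end

variable (r : F)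

/-- preimage of the derived subgroup of the image of `K` in the one-relator group -/
def L (K : Subgroup F) : Subgroup F := ⁅K, K⁆ ⊔ normalClosure {r}

instance (K : Subgroup F) [K.Normal] : (L r K).Normal := by unfold L; infer_instance

theorem L_mono {K K' : Subgroup F} (h : K ≤ K') : L r K ≤ L r K' :=
  sup_le_sup_right (commutator_mono h h) _

theorem L_le (K : Subgroup F) [K.Normal] (h : r ∈ K) : L r K ≤ K :=
  sup_le (commutator_le_left _ _) (normalClosure_le_normal (Set.singleton_subset_iff.2 h))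

theorem L_le_J {R : Type} [Ring R] (χ : F →* R) (K : Subgroup F) (hK : ∀ w ∈ K, χ w = 1)
    (h : χ r = 1) : L r K ≤ J χ r := by
  refine sup_le (commutator_le.2 fun u hu v hv => ⟨hK _ ?_, 0, fun i => ?_⟩)
    (normalClosure_le_normal (Set.singleton_subset_iff.2 (r_mem χ r h)))
  · exact mul_mem (mul_mem (mul_mem hu hv) (inv_mem hu)) (inv_mem hv)
  · rw [commutatorElement_def, d_mul, d_conj χ i u (hK _ hv), d_inv, hK _ hu, hK _ (inv_mem hv),
      hK _ (mul_mem (mul_mem hu hv) (inv_mem hu))]
    simp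

/-- abelian section -/
abbrev Ab (K : Subgroup F) [K.Normal] : Type := K ⧸ (L r K).subgroupOf K

instance (K : Subgroup F) [K.Normal] : CommGroup (Ab r K) :=
  { QuotientGroup.Quotient.group _ with
    mul_comm := fun a b => by
      obtain ⟨a, rfl⟩ := QuotientGroup.mk_surjective a
      obtain ⟨b, rfl⟩ := QuotientGroup.mk_surjective b
      rw [← QuotientGroup.mk_mul, ← QuotientGroup.mk_mul, QuotientGroup.eq]
      refine mem_sup_left ?_
      have := commutator_mem_commutator (inv_mem b.2) (inv_mem a.2)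
      simpa [commutatorElement_def, mul_assoc] using this }

/-- translation action -/
def ρ (Q A : Type) [Group Q] [AddCommGroup A] : Q →* Module.End ℤ (Q → A) where
  toFun s := LinearMap.funLeft ℤ A (· * s)
  map_one' := by ext; simp
  map_mul' s t := by ext; simp [mul_assoc]

/-- Fox derivatives in the integral group ring -/
noncomputable abbrev ch {Q : Type} [Group Q] (S : Type) [CommRing S] (f : F →* Q) :
    F →* MonoidAlgebra S Q := (MonoidAlgebra.of S Q).comp f

theorem crowell {Q : Type} [Group Q] (f : F →* Q) (hf : Surjective f) (h : f r = 1) :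
    J (ch ℤ f) r = L r f.ker := by
  refine le_antisymm (fun w hw => ?_) (L_le_J r _ _ (fun w hw => ?_) ?_)
  · have hw1 : f w = 1 := MonoidAlgebra.of_injective (hw.1.trans (map_one _).symm)
    let τ := surjInv hf
    have hτ : ∀ q, f (τ q) = q := surjInv_eq hf
    let δ : F → Q → Additive (Ab r f.ker) := fun w q =>
      .ofMul (QuotientGroup.mk ⟨τ q * w * (τ (q * f w))⁻¹, by simp [MonoidHom.mem_ker, hτ]⟩)
    let φ := (MonoidAlgebra.lift ℤ _ Q (ρ Q (Additive (Ab r f.ker)))).toRingHom
    obtain ⟨-, l, hl⟩ := J_mono _ r φ hw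
    have hδ := univ (φ.toMonoidHom.comp (ch ℤ f)) δ fun v w => by
      ext q
      simp only [δ, φ, ρ, ch]
      simp [← QuotientGroup.mk_mul, mul_assoc]
    have key : ∀ w, f w = 1 → (δ w = 0 ↔ w ∈ L r f.ker) := fun w hw => by
      have : ∀ q, δ w q = 0 ↔ w ∈ L r f.ker := fun q => by
        refine (QuotientGroup.eq_one_iff _).trans ?_
        rw [mem_subgroupOf]
        simp only [hw, mul_one]
        exact Normal.mem_comm_iff inferInstance |>.trans (by simp)
      exact ⟨fun e => (this 1).1 (congrFun e 1), fun e => funext fun q => (this q).2 e⟩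
    rw [← key w hw1, hδ w]
    simp only [hl, mul_smul, ← Finset.smul_sum]
    rw [← hδ r, (key r h).2 (mem_sup_right (subset_normalClosure rfl)), smul_zero]
  · simp only [MonoidHom.comp_apply, show f w = 1 from hw, map_one]
  · simp only [MonoidHom.comp_apply, h, map_one]

end Pool.Agent.H71.Fox
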