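import Mathlib

set_option autoImplicit false

namespace Pool.Agent.H71.Fug

open Set Filter Topology Metric Relation

variable {X : Type} [MetricSpace X]

def EC (μ : ℝ) (A : Set X) : Prop :=
  ∀ P Q : Set X, A ⊆ P ∪ Q → (A ∩ P).Nonempty → (A ∩ Q).Nonempty →
    ∃ p ∈ A ∩ P, ∃ q ∈ A ∩ Q, dist p q < μ

theorem EC.mono {μ ν : ℝ} {A : Set X} (h : EC μ A) (hμ : μ ≤ ν) : EC ν A := fun P Q h1 h2 h3 => by
  obtain ⟨p, hp, q, hq, h4⟩ := h P Q h1 h2 h3
  exact ⟨p, hp, q, hq, h4.trans_le hμ⟩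

theorem ec_of_pre {μ : ℝ} (hμ : 0 < μ) {A : Set X} (h : IsPreconnected A) : EC μ A := by
  intro P Q h1 h2 h3
  obtain ⟨x, -, hx1, hx2⟩ := isPreconnected_closed_iff.1 h (closure (A ∩ P)) (closure (A ∩ Q))
    isClosed_closure isClosed_closure (fun x hx => (h1 hx).imp (fun h => subset_closure ⟨hx, h⟩)
      (fun h => subset_closure ⟨hx, h⟩))
    (h2.mono fun x hx => ⟨hx.1, subset_closure hx⟩) (h3.mono fun x hx => ⟨hx.1, subset_closure hx⟩)
  obtain ⟨p, hp, h4⟩ := Metric.mem_closure_iff.1 hx1 (μ / 2) (by linarith)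
  obtain ⟨q, hq, h5⟩ := Metric.mem_closure_iff.1 hx2 (μ / 2) (by linarith)
  exact ⟨p, hp, q, hq, by linarith [dist_triangle_left p q x]⟩

theorem EC.rtg {μ : ℝ} {A : Set X} (h : EC μ A) {x y : X} (hx : x ∈ A) (hy : y ∈ A) :
    ReflTransGen (fun u v => v ∈ A ∧ dist u v < μ) x y := by
  by_contra hc
  obtain ⟨p, hp, q, hq, h1⟩ := h {z | ReflTransGen (fun u v => v ∈ A ∧ dist u v < μ) x z}
    {z | ¬ ReflTransGen (fun u v => v ∈ A ∧ dist u v < μ) x z} (fun z _ => em _)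
    ⟨x, hx, ReflTransGen.refl⟩ ⟨y, hy, hc⟩
  exact hq.2 (ReflTransGen.tail hp.2 ⟨hq.1, h1⟩)

theorem ec_of_rtg {μ : ℝ} (hμ : 0 < μ) {A : Set X} {x : X} (hx : x ∈ A)
    (h : ∀ y ∈ A, ReflTransGen (fun u v => v ∈ A ∧ dist u v < μ) x y) : EC μ A := by
  have key : ∀ P Q : Set X, A ⊆ P ∪ Q → x ∈ P → (A ∩ Q).Nonempty →
      ∃ p ∈ A ∩ P, ∃ q ∈ A ∩ Q, dist p q < μ := by
    rintro P Q h1 h2 ⟨y, hy, hyQ⟩
    by_contra hc
    have : ∀ z, ReflTransGen (fun u v => v ∈ A ∧ dist u v < μ) x z → z ∈ A ∩ P := by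
      intro z hz
      induction hz with
      | refl => exact ⟨hx, h2⟩
      | tail _ h3 ih =>
        rcases h1 h3.1 with h4 | h4
        · exact ⟨h3.1, h4⟩
        · exact (hc ⟨_, ih, _, ⟨h3.1, h4⟩, h3.2⟩).elim
    exact hc ⟨y, this y (h y hy), y, ⟨hy, hyQ⟩, by simpa⟩
  intro P Q h1 h2 h3
  rcases h1 hx with h4 | h4
  · exact key P Q h1 h4 h3
  · obtain ⟨p, hp, q, hq, h5⟩ := key Q P (by rwa [union_comm]) h4 h2
    exact ⟨q, hq, p, hp, by rwa [dist_comm]⟩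

def Dn (δ : ℝ) (A : Set X) : Prop := ∀ x, ∃ a ∈ A, dist x a < δ

noncomputable abbrev UF : Filter ℕ := hyperfilter ℕ

theorem ev_small {r : ℝ} (hr : 0 < r) : ∀ᶠ m : ℕ in UF, 1 / ((m : ℝ) + 1) < r :=
  Nat.hyperfilter_le_atTop (tendsto_one_div_add_atTop_nhds_zero_nat.eventually (gt_mem_nhds hr))

def Lim (A : ℕ → Set X) : Set X := {x | ∀ r > 0, ∀ᶠ m in UF, ∃ a ∈ A m, dist x a < r}

theorem lim_closed (A : ℕ → Set X) : IsClosed (Lim A) := by
  refine isClosed_of_closure_subset fun x hx r hr => ?_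
  obtain ⟨y, hy, h1⟩ := Metric.mem_closure_iff.1 hx (r / 2) (by linarith)
  filter_upwards [hy (r / 2) (by linarith)] with m ⟨a, ha, h2⟩
  exact ⟨a, ha, by linarith [dist_triangle x y a]⟩

theorem mem_lim {A : ℕ → Set X} {a : ℕ → X} {x : X} (h : ∀ᶠ m in UF, a m ∈ A m)
    (ht : Tendsto a UF (𝓝 x)) : x ∈ Lim A := fun r hr => by
  filter_upwards [h, Metric.tendsto_nhds.1 ht r hr] with m h1 h2
  exact ⟨_, h1, by rwa [dist_comm]⟩

theorem lim_union {A B : ℕ → Set X} {x : X} (h : x ∈ Lim fun m => A m ∪ B m) :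
    x ∈ Lim A ∨ x ∈ Lim B := by
  by_contra hc
  simp only [Lim, mem_ofPred_eq, not_or, not_forall] at hc
  obtain ⟨⟨r, hr, h1⟩, r', hr', h2⟩ := hc
  rw [← Ultrafilter.eventually_not] at h1 h2
  obtain ⟨m, ⟨a, ha, h3⟩, h4, h5⟩ := ((h (min r r') (lt_min hr hr')).and (h1.and h2)).exists
  rcases ha with ha | ha
  · exact h4 ⟨a, ha, h3.trans_le (min_le_left _ _)⟩
  · exact h5 ⟨a, ha, h3.trans_le (min_le_right _ _)⟩

variable [CompactSpace X]

theorem ulim (a : ℕ → X) : ∃ x, Tendsto a UF (𝓝 x) := by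
  obtain ⟨x, -, hx⟩ := isCompact_univ.ultrafilter_le_nhds ((hyperfilter ℕ).map a) (by simp)
  exact ⟨x, hx⟩

theorem ev_forall {p : ℕ → X → Prop} [Nonempty X]
    (h : ∀ a : ℕ → X, ∀ x, Tendsto a UF (𝓝 x) → ¬ ∀ᶠ m in UF, ¬ p m (a m)) :
    ∀ᶠ m in UF, ∀ x, p m x := by
  by_contra hc
  rw [← Ultrafilter.eventually_not] at hc
  have : ∀ m, ∃ x, (¬ ∀ x, p m x) → ¬ p m x := by
    intro m
    by_cases h1 : ∀ x, p m x
    · exact ⟨Classical.arbitrary X, fun h => absurd h1 h⟩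
    · obtain ⟨x, hx⟩ := not_forall.1 h1
      exact ⟨x, fun _ => hx⟩
  choose a ha using this
  obtain ⟨x, hx⟩ := ulim a
  exact h a x hx (hc.mono ha)

theorem lim_sub [Nonempty X] (A : ℕ → Set X) {r : ℝ} (hr : 0 < r) :
    ∀ᶠ m in UF, ∀ a, a ∈ A m → ∃ x ∈ Lim A, dist a x < r := by
  refine ev_forall fun a x hx h => ?_
  have h1 : x ∈ Lim A := mem_lim (h.mono fun m hm => (Classical.not_imp.1 hm).1) hx
  obtain ⟨m, h2, h3⟩ := (h.and (Metric.tendsto_nhds.1 hx r hr)).exists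
  exact h2 fun _ => ⟨x, h1, h3⟩

theorem sub_lim [Nonempty X] (A : ℕ → Set X) {r : ℝ} (hr : 0 < r) :
    ∀ᶠ m in UF, ∀ x, x ∈ Lim A → ∃ a ∈ A m, dist x a < r := by
  refine ev_forall fun a x hx h => ?_
  have h1 : x ∈ Lim A := (lim_closed A).mem_of_tendsto hx
    (h.mono fun m hm => (Classical.not_imp.1 hm).1)
  obtain ⟨m, h2, h3, b, hb, h4⟩ := (h.and ((Metric.tendsto_nhds.1 hx (r / 2) (by linarith)).and
    (h1 (r / 2) (by linarith)))).exists
  exact h2 fun _ => ⟨b, hb, by linarith [dist_triangle (a m) x b]⟩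

theorem lim_conn [Nonempty X] {A : ℕ → Set X} (h : ∀ m : ℕ, EC (1 / ((m : ℝ) + 1)) (A m)) :
    IsPreconnected (Lim A) := by
  rw [isPreconnected_closed_iff]
  rintro F F' hF hF' hcov ⟨x, hx, hxF⟩ ⟨y, hy, hyF⟩
  by_contra hc
  have hd : Disjoint (Lim A ∩ F) (Lim A ∩ F') :=
    disjoint_left.2 fun z h1 h2 => hc ⟨z, h1.1, h1.2, h2.2⟩
  obtain ⟨δ, hδ, hd⟩ := hd.exists_thickenings ((lim_closed A).inter hF).isCompact
    ((lim_closed A).inter hF')
  have hr : 0 < δ / 3 := by linarith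
  obtain ⟨m, h1, h2, ⟨a, ha, h3⟩, b, hb, h4⟩ := ((ev_small hr).and ((lim_sub A hr).and
    ((hx _ hr).and (hy _ hr)))).exists
  obtain ⟨p, ⟨-, p', hp', hp⟩, q, ⟨-, q', hq', hq⟩, h5⟩ := h m
    {a | ∃ z ∈ Lim A ∩ F, dist a z < δ / 3} {a | ∃ z ∈ Lim A ∩ F', dist a z < δ / 3} (by
      intro c hc
      obtain ⟨z, hz, h5⟩ := h2 c hc
      exact (hcov hz).imp (fun h => ⟨z, ⟨hz, h⟩, h5⟩) (fun h => ⟨z, ⟨hz, h⟩, h5⟩))
    ⟨a, ha, x, ⟨hx, hxF⟩, by rwa [dist_comm]⟩ ⟨b, hb, y, ⟨hy, hyF⟩, by rwa [dist_comm]⟩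
  exact disjoint_left.1 hd (mem_thickening_iff.2 ⟨p', hp', by linarith⟩)
    (mem_thickening_iff.2 ⟨q', hq', by linarith [dist_triangle p q q']⟩)

def Ind (X : Type) [MetricSpace X] : Prop := ∀ A B : Set X, IsClosed A → IsClosed B →
  IsPreconnected A → IsPreconnected B → A ∪ B = univ → A = univ ∨ B = univ

theorem ind_unif [Nonempty X] (hI : Ind X) {δ : ℝ} (hδ : 0 < δ) :
    ∃ δ' > 0, ∀ A B : Set X, EC δ' A → EC δ' B → Dn δ' (A ∪ B) → Dn δ A ∨ Dn δ B := by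
  by_contra hc
  push Not at hc
  choose A B h1 h2 h3 h4 h5 using fun m : ℕ => hc (1 / ((m : ℝ) + 1)) (by positivity)
  have key : ∀ A : ℕ → Set X, (∀ m, ¬ Dn δ (A m)) → Lim A ≠ univ := by
    intro A h h'
    obtain ⟨m, hm⟩ := (sub_lim A hδ).exists
    exact h m fun x => hm x (h' ▸ trivial)
  refine (hI _ _ (lim_closed A) (lim_closed B) (lim_conn h1) (lim_conn h2)
    (eq_univ_of_forall fun x => lim_union fun r hr => ?_)).elim (key A h4) (key B h5)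
  filter_upwards [ev_small hr] with m hm
  obtain ⟨a, ha, h6⟩ := h3 m x
  exact ⟨a, ha, h6.trans hm⟩

theorem bump {B D : Set X} (hBc : IsClosed B) (hB : IsPreconnected B) (hD : IsPreconnected D)
    (hDB : D ⊆ B) {d b : X} (hd : d ∈ D) (hb : b ∈ B) {r : ℝ} (hr : 0 < r)
    (hfar : ∀ x ∈ D, r ≤ dist x b) : ∃ B' : Set X, IsClosed B' ∧ IsPreconnected B' ∧ D ⊆ B' ∧
      B' ⊆ B ∧ b ∉ B' ∧ ∃ b' ∈ B', dist b' b ≤ r := by
  have : Nonempty X := ⟨d⟩
  let Y := {x ∈ B | r ≤ dist x b}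
  have hY : IsClosed Y := hBc.inter (isClosed_le continuous_const (continuous_id.dist continuous_const))
  let C : ℕ → Set X := fun m =>
    {y | ReflTransGen (fun u v => v ∈ Y ∧ dist u v < 1 / ((m : ℝ) + 1)) d y}
  have hCY : ∀ m, C m ⊆ Y := by
    intro m y hy
    induction hy with
    | refl => exact ⟨hDB hd, hfar d hd⟩
    | tail _ h _ => exact h.1
  have hpos : ∀ m : ℕ, (0 : ℝ) < 1 / ((m : ℝ) + 1) := fun m => by positivity
  have hLY : Lim C ⊆ Y := by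
    intro x hx
    refine hY.closure_subset (Metric.mem_closure_iff.2 fun r hr => ?_)
    obtain ⟨m, a, ha, h⟩ := (hx r hr).exists
    exact ⟨a, hCY m ha, h⟩
  refine ⟨Lim C, lim_closed C, lim_conn fun m => ec_of_rtg (hpos m) (x := d) .refl ?_, ?_,
    fun x hx => (hLY hx).1, fun h => ?_, ?_⟩
  · intro y hy
    induction hy with
    | refl => rfl
    | tail h1 h ih => exact ih.tail ⟨h1.tail h, h.2⟩
  · intro x hx
    refine mem_lim (a := fun _ => x) (Eventually.of_forall fun m => ?_) tendsto_const_nhds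
    have := (ec_of_pre (hpos m) hD).rtg hd hx
    clear hx
    induction this with
    | refl => exact .refl
    | tail _ h ih => exact ReflTransGen.tail ih ⟨⟨hDB h.1, hfar _ h.1⟩, h.2⟩
  · have := (hLY h).2
    simp at this; linarith
  · have : ∀ m, ∃ c ∈ C m, dist c b < r + 1 / ((m : ℝ) + 1) := by
      intro m
      have key : ∀ z, ReflTransGen (fun u v => v ∈ B ∧ dist u v < 1 / ((m : ℝ) + 1)) d z →
          z ∈ C m ∨ ∃ c ∈ C m, dist c b < r + 1 / ((m : ℝ) + 1) := by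
        intro z hz
        induction hz with
        | refl => exact Or.inl .refl
        | @tail u v _ h ih =>
          rcases ih with ih | ih
          · by_cases h2 : r ≤ dist v b
            · exact Or.inl (ReflTransGen.tail ih ⟨⟨h.1, h2⟩, h.2⟩)
            · exact Or.inr ⟨u, ih, by linarith [dist_triangle u v b, h.2, not_le.1 h2]⟩
          · exact Or.inr ih
      rcases key b ((ec_of_pre (hpos m) hB).rtg (hDB hd) hb) with h | h
      · exact ⟨b, h, by simpa using add_pos hr (hpos m)⟩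
      · exact h
    choose c hc hc' using this
    obtain ⟨x, hx⟩ := ulim c
    refine ⟨x, mem_lim (Eventually.of_forall hc) hx, le_of_forall_pos_le_add fun s hs => ?_⟩
    refine le_of_tendsto (hx.dist tendsto_const_nhds) ?_
    filter_upwards [ev_small hs] with m hm
    linarith [hc' m]

def EP (f : X → ℝ) (N : Set X) (η ε : ℝ) : Prop :=
  ∀ x ∈ N, ∀ y ∈ N, |f x - f y| ≤ η → dist x y < ε

def Chn (K : Set X) : Prop := ∀ ε : ℝ, ε > 0 → ∃ (n : ℕ) (U : Fin n → Set X),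
  (∀ i, IsOpen (U i)) ∧ (∀ i, Metric.diam (U i ∩ K) < ε) ∧ K ⊆ (⋃ i, U i) ∧
  (∀ i j : Fin n, (U i ∩ U j ∩ K).Nonempty ↔ ((i : ℕ) ≤ (j : ℕ) + 1 ∧ (j : ℕ) ≤ (i : ℕ) + 1))

theorem unif {f : X → ℝ} (hf : Continuous f) {η : ℝ} (hη : 0 < η) :
    ∃ ω > 0, ∀ x y, dist x y < ω → |f x - f y| < η := by
  obtain ⟨ω, h1, h2⟩ := Metric.uniformContinuous_iff.1
    (CompactSpace.uniformContinuous_of_continuous hf) η hη
  exact ⟨ω, h1, fun x y h => by simpa only [Real.dist_eq] using h2 h⟩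

theorem fn {K : Set X} (hK : IsClosed K) (h : Chn K) {ε : ℝ} (hε : 0 < ε) :
    ∃ f : X → ℝ, Continuous f ∧ ∃ r > 0, EP f (thickening r K) 10 ε := by
  obtain ⟨n, U, h1, h2, h3, h4⟩ := h (ε / 4) (by linarith)
  obtain ⟨ρ, hρ⟩ := PartitionOfUnity.exists_isSubordinate hK U h1 h3
  let g : X → ℝ := fun x => ∑ i, ρ i x * (i : ℕ)
  have hg : Continuous g := by fun_prop
  have hga : ∀ x ∈ K, ∀ a, x ∈ U a → |g x - (a : ℕ)| ≤ 1 := by
    intro x hx a ha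
    have hs : ∑ i, ρ i x = 1 := by rw [← finsum_eq_sum_of_fintype]; exact ρ.sum_eq_one hx
    have : g x - (a : ℕ) = ∑ i, ρ i x * (((i : ℕ) : ℝ) - (a : ℕ)) := by
      simp only [mul_sub, Finset.sum_sub_distrib, ← Finset.sum_mul, hs, one_mul, g]
    rw [this, ← hs]
    refine (Finset.abs_sum_le_sum_abs _ _).trans (Finset.sum_le_sum fun i _ => ?_)
    rw [abs_mul, abs_of_nonneg (ρ.nonneg i x)]
    by_cases h0 : ρ i x = 0
    · simp [h0]
    · have := (h4 i a).1 ⟨x, ⟨hρ i (subset_tsupport _ h0), ha⟩, hx⟩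
      refine mul_le_of_le_one_right (ρ.nonneg i x) (abs_le.2 ⟨?_, ?_⟩)
      · have : ((a : ℕ) : ℝ) ≤ (i : ℕ) + 1 := by exact_mod_cast this.2
        linarith
      · have : ((i : ℕ) : ℝ) ≤ (a : ℕ) + 1 := by exact_mod_cast this.1
        linarith
  have hd : ∀ a, ∀ x ∈ U a ∩ K, ∀ y ∈ U a ∩ K, dist x y < ε / 4 := fun a x hx y hy =>
    (dist_le_diam_of_mem isBounded_of_compactSpace hx hy).trans_lt (h2 a)
  have hK1 : ∀ x ∈ K, ∀ y ∈ K, |g x - g y| < 1 → dist x y < 3 * (ε / 4) := by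
    intro x hx y hy hxy
    obtain ⟨a, ha⟩ := mem_iUnion.1 (h3 hx)
    obtain ⟨b, hb⟩ := mem_iUnion.1 (h3 hy)
    have e1 := abs_le.1 (hga x hx a ha)
    have e2 := abs_le.1 (hga y hy b hb)
    have e3 := abs_lt.1 hxy
    have e4 : (a : ℕ) < b + 3 := by
      have : ((a : ℕ) : ℝ) < (b : ℕ) + 3 := by linarith
      exact_mod_cast this
    have e5 : (b : ℕ) < a + 3 := by
      have : ((b : ℕ) : ℝ) < (a : ℕ) + 3 := by linarith
      exact_mod_cast this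
    let c : Fin n := ⟨(a + b) / 2, by omega⟩
    obtain ⟨u, hu⟩ := (h4 a c).2 ⟨by simp only [c]; omega, by simp only [c]; omega⟩
    obtain ⟨v, hv⟩ := (h4 c b).2 ⟨by simp only [c]; omega, by simp only [c]; omega⟩
    linarith [dist_triangle4 x u v y, hd a x ⟨ha, hx⟩ u ⟨hu.1.1, hu.2⟩,
      hd c u ⟨hu.1.2, hu.2⟩ v ⟨hv.1.1, hv.2⟩, hd b v ⟨hv.1.2, hv.2⟩ y ⟨hb, hy⟩]
  obtain ⟨ω, hω, hω'⟩ := unif hg (show (0 : ℝ) < 1 / 4 by norm_num)
  refine ⟨fun x => 40 * g x, by fun_prop, min ω (ε / 8), by positivity, ?_⟩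
  intro x hx y hy hxy
  obtain ⟨x', hx', e1⟩ := mem_thickening_iff.1 hx
  obtain ⟨y', hy', e2⟩ := mem_thickening_iff.1 hy
  have e3 := abs_lt.1 (hω' _ _ (e1.trans_le (min_le_left _ _)))
  have e4 := abs_lt.1 (hω' _ _ (e2.trans_le (min_le_left _ _)))
  have e5 := abs_le.1 hxy
  have := hK1 x' hx' y' hy' (abs_lt.2 ⟨by linarith, by linarith⟩)
  linarith [dist_triangle4 x x' y' y, dist_comm y y', min_le_right ω (ε / 8)]

def Goal (X : Type) [MetricSpace X] (ε : ℝ) : Prop :=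
  ∃ (m n : ℕ) (D : Fin m → Set X) (c : Fin (n + 1) → Fin m),
    (∀ k, IsOpen (D k)) ∧ (∀ k, Metric.diam (D k) < ε) ∧ (⋃ k, D k) = Set.univ ∧
    Function.Injective c ∧
    (∀ i j : Fin (n + 1), (D (c i) ∩ D (c j)).Nonempty ↔
        ((i : ℕ) ≤ (j : ℕ) + 1 ∧ (j : ℕ) ≤ (i : ℕ) + 1)) ∧
    (∀ k, k ∉ Set.range c → ∀ i : Fin (n + 1), i ≠ 0 → D k ∩ D (c i) = ∅) ∧
    (∀ x : X, ∃ i, Metric.infDist x (D (c i)) < ε)

theorem goal_of {ε : ℝ} (hε : 0 < ε) (n : ℕ) (V : Fin (n + 1) → Set X) (h1 : ∀ i, IsOpen (V i))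
    (h2 : ∀ i, diam (V i) < ε)
    (h3 : ∀ i j : Fin (n + 1), (V i ∩ V j).Nonempty ↔ ((i : ℕ) ≤ (j : ℕ) + 1 ∧ (j : ℕ) ≤ (i : ℕ) + 1))
    {F : Set X} (hF : IsClosed F) (h4 : ∀ i, i ≠ 0 → V i ⊆ F) (h5 : F ⊆ ⋃ i, V i)
    (h6 : ∀ x, ∃ i, infDist x (V i) < ε) : Goal X ε := by
  obtain ⟨t, ht⟩ := isCompact_univ.elim_finite_subcover (fun x : X => ball x (ε / 3))
    (fun _ => isOpen_ball) (fun x _ => mem_iUnion.2 ⟨x, mem_ball_self (by linarith)⟩)
  let e := t.equivFin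
  refine ⟨n + 1 + t.card, n, Fin.append V (fun k => ball (e.symm k).1 (ε / 3) ∩ Fᶜ),
    Fin.castAdd _, ?_, ?_, ?_, Fin.castAdd_injective _ _, by simpa using h3, ?_, by simpa using h6⟩
  · intro k
    refine Fin.addCases (fun i => ?_) (fun i => ?_) k
    · simpa using h1 i
    · simpa using isOpen_ball.inter hF.isOpen_compl
  · intro k
    refine Fin.addCases (fun i => ?_) (fun i => ?_) k
    · simpa using h2 i
    · rw [Fin.append_right]
      exact ((diam_mono inter_subset_left isBounded_ball).trans (diam_ball (by linarith))).trans_lt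
        (by linarith)
  · refine eq_univ_of_forall fun x => ?_
    by_cases hx : x ∈ F
    · obtain ⟨i, hi⟩ := mem_iUnion.1 (h5 hx)
      exact mem_iUnion.2 ⟨Fin.castAdd _ i, by simpa using hi⟩
    · obtain ⟨y, hy, h⟩ := mem_iUnion₂.1 (ht (mem_univ x))
      exact mem_iUnion.2 ⟨Fin.natAdd _ (e ⟨y, hy⟩), by simpa using ⟨h, hx⟩⟩
  · intro k
    refine Fin.addCases (fun i hi => (hi ⟨i, rfl⟩).elim) (fun k _ i hi => ?_) k
    rw [Fin.append_right, Fin.append_left]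
    exact eq_empty_of_forall_notMem fun x hx => hx.1.2 (h4 i hi hx.2)

theorem ch {ε ε' : ℝ} (hε' : 0 ≤ ε') (hε : ε' < ε) {f : X → ℝ} (hf : Continuous f) {N O A : Set X}
    (hN : IsOpen N) (hO : IsOpen O) (hEP : EP f N 2 ε') (hAN : A ⊆ N) (hcl : closure O ⊆ N)
    (hfr : ∀ x ∈ closure O, x ∉ O → f x ≤ 0) (hA : ∀ x ∈ A, x ∉ O → f x ≤ 0) (hOA : O ⊆ A)
    {p : X} (hp : p ∈ A) (hp1 : -1 < f p) (hp2 : f p ≤ 0)
    (gap : ∀ s : ℝ, (∃ x ∈ A, f x ≤ s) → (∃ y ∈ A, s + 1 ≤ f y) → ∃ z ∈ A, s < f z ∧ f z < s + 1)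
    (hD : Dn ε (A ∩ {x | -1 < f x})) : Goal X ε := by
  classical
  obtain ⟨M, hM⟩ := (isCompact_range hf).bddAbove
  obtain ⟨M', hM'⟩ := exists_nat_gt M
  let n := Nat.findGreatest (fun k => ∃ y ∈ A, (k : ℝ) ≤ f y) M'
  have hn1 : ∀ y ∈ A, f y < n + 1 := by
    intro y hy
    by_contra hc
    have h1 : n + 1 ≤ M' := by
      have : ((n + 1 : ℕ) : ℝ) ≤ M' := by
        push_cast; linarith [hM ⟨y, rfl⟩, not_lt.1 hc]
      exact_mod_cast this
    exact Nat.findGreatest_is_greatest (Nat.lt_succ_self n) h1 ⟨y, hy, by push_cast; linarith⟩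
  have hn2 : ∀ i : ℕ, i < n → ∃ z ∈ O, (i : ℝ) < f z ∧ f z < i + 1 := by
    intro i hi
    obtain ⟨y, hy, h1⟩ := Nat.findGreatest_of_ne_zero (P := fun k => ∃ y ∈ A, (k : ℝ) ≤ f y)
      (rfl : Nat.findGreatest _ M' = n) (by omega)
    have h2 : (i : ℝ) + 1 ≤ n := by exact_mod_cast hi
    obtain ⟨z, hz, h3⟩ := gap i ⟨p, hp, hp2.trans (Nat.cast_nonneg _)⟩ ⟨y, hy, h2.trans h1⟩
    refine ⟨z, by_contra fun h => ?_, h3⟩
    linarith [hA z hz h, h3.1, (Nat.cast_nonneg i : (0 : ℝ) ≤ i)]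
  let V : Fin (n + 1) → Set X := fun i =>
    (if i = 0 then N else O) ∩ {x | ((i : ℕ) : ℝ) - 1 < f x ∧ f x < (i : ℕ) + 1}
  have hOV : ∀ i : Fin (n + 1), O ⊆ (if i = 0 then N else O) := fun i => by
    split_ifs
    · exact hOA.trans hAN
    · exact subset_rfl
  have hVN : ∀ i, V i ⊆ N := fun i x hx => by
    have := hx.1
    split_ifs at this
    · exact this
    · exact hAN (hOA this)
  have hin : ∀ x ∈ N, -1 < f x → f x < n + 1 → (0 < f x → x ∈ O) → ∃ i, x ∈ V i := by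
    intro x hx h1 h2 h3
    by_cases h4 : f x < 1
    · exact ⟨0, by simpa using hx, by simpa using h1, by simpa using h4⟩
    · have h5 := Nat.floor_le (show 0 ≤ f x by linarith)
      have h6 := Nat.lt_floor_add_one (f x)
      have h7 : ⌊f x⌋₊ < n + 1 := by
        have : (⌊f x⌋₊ : ℝ) < (n + 1 : ℕ) := by push_cast; linarith
        exact_mod_cast this
      exact ⟨⟨_, h7⟩, hOV _ (h3 (by linarith)), by simp only; linarith, by simp only; linarith⟩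
  refine goal_of (hε'.trans_lt hε) n V (fun i => ?_) (fun i => ?_) (fun i j => ⟨?_, ?_⟩)
    (F := closure O ∩ {x | 0 ≤ f x}) (isClosed_closure.inter (isClosed_le continuous_const hf))
    (fun i hi x hx => ?_) (fun x hx => ?_) (fun x => ?_)
  · refine IsOpen.inter ?_ ((isOpen_lt continuous_const hf).inter (isOpen_lt hf continuous_const))
    split_ifs
    · exact hN
    · exact hO
  · refine (diam_le_of_forall_dist_le hε' fun x hx y hy => (hEP x (hVN i hx) y (hVN i hy) ?_).le).trans_lt hε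
    exact abs_le.2 ⟨by linarith [hx.2.1, hy.2.2], by linarith [hx.2.2, hy.2.1]⟩
  · rintro ⟨x, hx, hy⟩
    have e1 : ((i : ℕ) : ℝ) < (j : ℕ) + 2 := by linarith [hx.2.1, hy.2.2]
    have e2 : ((j : ℕ) : ℝ) < (i : ℕ) + 2 := by linarith [hx.2.2, hy.2.1]
    have e3 : (i : ℕ) < j + 2 := by exact_mod_cast e1
    have e4 : (j : ℕ) < i + 2 := by exact_mod_cast e2
    omega
  · have key : ∀ i j : Fin (n + 1), (j : ℕ) = i + 1 → (V i ∩ V j).Nonempty := by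
      intro i j h
      obtain ⟨z, hz, h1, h2⟩ := hn2 i (by omega)
      have : ((j : ℕ) : ℝ) = (i : ℕ) + 1 := by exact_mod_cast h
      exact ⟨z, ⟨hOV _ hz, by linarith, h2⟩, hOV _ hz, by linarith, by linarith⟩
    intro h
    rcases lt_trichotomy (i : ℕ) j with h1 | h1 | h1
    · exact key i j (by omega)
    · obtain rfl : i = j := Fin.ext h1
      by_cases h0 : i = 0
      · subst h0
        exact ⟨p, by simpa [V] using ⟨hAN hp, hp1, by linarith⟩⟩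
      · have h2 : (i : ℕ) ≠ 0 := fun h => h0 (Fin.ext h)
        obtain ⟨z, -, hz⟩ := key ⟨i - 1, by omega⟩ i (by simp only; omega)
        exact ⟨z, hz, hz⟩
    · rw [inter_comm]; exact key j i (by omega)
  · have h1 := hx.1
    rw [if_neg hi] at h1
    have h2 : (1 : ℝ) ≤ (i : ℕ) := by
      have : (i : ℕ) ≠ 0 := fun h => hi (Fin.ext h)
      exact_mod_cast Nat.one_le_iff_ne_zero.2 this
    exact ⟨subset_closure h1, by have := hx.2.1; simp only [mem_ofPred_eq]; linarith⟩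
  · have h0 : 0 ≤ f x := hx.2
    have h1 : 0 < f x → x ∈ O := fun h => by_contra fun h' => by linarith [hfr x hx.1 h']
    refine mem_iUnion.2 (hin x (hcl hx.1) (by linarith) ?_ h1)
    rcases h0.eq_or_lt with h | h
    · rw [← h]; positivity
    · exact hn1 x (hOA (h1 h))
  · obtain ⟨a, ha, h⟩ := hD x
    obtain ⟨i, hi⟩ := hin a (hAN ha.1) ha.2 (hn1 a ha.1) fun h => by_contra fun h' => by
      linarith [hA a ha.1 h']
    exact ⟨i, (infDist_le_dist_of_mem hi).trans_lt h⟩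

theorem gap_of_ec {μ : ℝ} {A : Set X} (h : EC μ A) {f : X → ℝ}
    (hf : ∀ x y, dist x y < μ → |f x - f y| < 1) (s : ℝ) (h1 : ∃ x ∈ A, f x ≤ s)
    (h2 : ∃ y ∈ A, s + 1 ≤ f y) : ∃ z ∈ A, s < f z ∧ f z < s + 1 := by
  by_contra hc
  push Not at hc
  obtain ⟨p, hp, q, hq, h3⟩ := h {x | f x ≤ s} {x | s + 1 ≤ f x}
    (fun z hz => (le_or_gt (f z) s).imp id (hc z hz)) h1 h2
  have := abs_lt.1 (hf p q h3)
  have h4 : f p ≤ s := hp.2
  have h5 : s + 1 ≤ f q := hq.2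
  linarith

theorem half {A : Set X} {f : X → ℝ} {ε : ℝ} (hEP : EP f A 2 ε)
    (gap : ∀ s : ℝ, (∃ x ∈ A, f x ≤ s) → (∃ y ∈ A, s + 1 ≤ f y) → ∃ z ∈ A, s < f z ∧ f z < s + 1)
    (t : ℝ) : EC ε (A ∩ {x | t < f x}) := by
  have key : ∀ P Q : Set X, A ∩ {x | t < f x} ⊆ P ∪ Q → ∀ k : ℕ, ∀ p ∈ A ∩ {x | t < f x} ∩ P,
      ∀ q ∈ A ∩ {x | t < f x} ∩ Q, f p ≤ f q → f q ≤ f p + k →
      ∃ p ∈ A ∩ {x | t < f x} ∩ P, ∃ q ∈ A ∩ {x | t < f x} ∩ Q, dist p q < ε := by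
    intro P Q hc k
    induction k with
    | zero =>
      intro p hp q hq h1 h2
      exact ⟨p, hp, q, hq, hEP p hp.1.1 q hq.1.1 (abs_le.2 ⟨by simp at h2; linarith, by linarith⟩)⟩
    | succ k ih =>
      intro p hp q hq h1 h2
      by_cases h3 : f q ≤ f p + 2
      · exact ⟨p, hp, q, hq, hEP p hp.1.1 q hq.1.1 (abs_le.2 ⟨by linarith, by linarith⟩)⟩
      obtain ⟨z, hz, h4, h5⟩ := gap (f p + 1) ⟨p, hp.1.1, by linarith⟩ ⟨q, hq.1.1, by linarith⟩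
      have hz' : z ∈ A ∩ {x | t < f x} := ⟨hz, by have : t < f p := hp.1.2; simp; linarith⟩
      rcases hc hz' with h6 | h6
      · exact ih z ⟨hz', h6⟩ q hq (by linarith) (by push_cast at h2; linarith)
      · exact ⟨p, hp, z, ⟨hz', h6⟩, hEP p hp.1.1 z hz (abs_le.2 ⟨by linarith, by linarith⟩)⟩
  rintro P Q hc ⟨p, hp⟩ ⟨q, hq⟩
  rcases le_total (f p) (f q) with h | h
  · obtain ⟨k, hk⟩ := exists_nat_ge (f q - f p)
    exact key P Q hc k p hp q hq h (by linarith)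
  · obtain ⟨k, hk⟩ := exists_nat_ge (f p - f q)
    obtain ⟨q', hq', p', hp', h1⟩ := key Q P (by rwa [union_comm]) k q hq p hp h (by linarith)
    exact ⟨p', hp', q', hq', by rwa [dist_comm]⟩

end Pool.Agent.H71.Fug
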