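import Pool.Agent.H71.Fug1

set_option autoImplicit false

namespace Pool.Agent.H71.Fug

open Set Filter Topology Metric Relation

section tree
variable {ι : Type} {G : SimpleGraph ι}

theorem exists_path {T : Set ι} {u v : ι} (hu : u ∈ T)
    (h : ReflTransGen (fun x y => G.Adj x y ∧ y ∈ T) u v) :
    ∃ p : G.Path u v, ∀ x ∈ p.1.support, x ∈ T := by
  classical
  have : ∃ p : G.Walk u v, ∀ x ∈ p.support, x ∈ T := by
    induction h with
    | refl => exact ⟨.nil, by simpa⟩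
    | tail _ h ih =>
      obtain ⟨p, hp⟩ := ih
      refine ⟨p.concat h.1, fun x hx => ?_⟩
      rw [SimpleGraph.Walk.support_concat] at hx
      simp only [List.concat_eq_append, List.mem_append, List.mem_singleton] at hx
      rcases hx with hx | rfl
      · exact hp x hx
      · exact h.2
  obtain ⟨p, hp⟩ := this
  exact ⟨p.toPath, fun x hx => hp x (p.support_toPath_subset hx)⟩

theorem walk_ind {T : Set ι} {φ : ι → Prop} (h : ∀ x ∈ T, ∀ y ∈ T, G.Adj x y → φ x → φ y)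
    {u v : ι} (p : G.Walk u v) (hp : ∀ x ∈ p.support, x ∈ T) (hu : φ u) : φ v := by
  induction p with
  | nil => exact hu
  | cons ha p ih =>
    exact ih (fun x hx => hp x (by simp [hx])) (h _ (hp _ (by simp)) _ (hp _ (by simp)) ha hu)

structure Good (G : SimpleGraph ι) (T : Set ι) (b : ι) : Prop where
  mem : b ∈ T
  cn : ∀ v ∈ T, ReflTransGen (fun x y => G.Adj x y ∧ y ∈ T) b v
  cl : ∀ v ∈ T, v ≠ b → ∀ w, G.Adj v w → w ∈ T

theorem Good.split (hG : G.IsAcyclic) {T : Set ι} {b : ι} (h : Good G T b) (hne : T ≠ {b}) :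
    ∃ T1 b1 T2 b2, Good G T1 b1 ∧ Good G T2 b2 ∧ T1 ⊂ T ∧ T2 ⊂ T ∧ T ⊆ T1 ∪ T2 := by
  obtain ⟨v, hv, hvb⟩ : ∃ v ∈ T, v ≠ b := by
    by_contra hc
    push Not at hc
    exact hne (eq_singleton_iff_unique_mem.2 ⟨h.mem, hc⟩)
  obtain ⟨c, ⟨hbc, hc⟩, -⟩ := (h.cn v hv).cases_head.resolve_left hvb.symm
  let S := {w | ReflTransGen (fun x y => G.Adj x y ∧ y ∈ T \ {b}) c w}
  have hS : ∀ w ∈ S, w ∈ T \ {b} := by
    intro w hw
    induction hw with
    | refl => exact ⟨hc, hbc.ne.symm⟩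
    | tail _ h _ => exact h.2
  have hS2 : ∀ T' : Set ι, S ⊆ T' → ∀ w ∈ S, ReflTransGen (fun x y => G.Adj x y ∧ y ∈ T') c w := by
    intro T' hT w hw
    induction hw with
    | refl => rfl
    | tail h1 h2 ih => exact ih.tail ⟨h2.1, hT (h1.tail h2)⟩
  by_cases hall : T \ {b} ⊆ S
  · refine ⟨{b}, b, S, c, ⟨rfl, by rintro _ rfl; rfl, fun v h1 h2 => absurd h1 h2⟩,
      ⟨.refl, hS2 S subset_rfl, fun v hv hvc w hw => hall ⟨h.cl v (hS v hv).1 (hS v hv).2 w hw, ?_⟩⟩,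
      ⟨singleton_subset_iff.2 h.mem, fun h => hvb (h hv)⟩,
      ⟨fun w hw => (hS w hw).1, fun h' => (hS b (h' h.mem)).2 rfl⟩, fun w hw => ?_⟩
    · rintro rfl
      obtain ⟨p, hp⟩ := exists_path (T := S) .refl (hS2 S subset_rfl v hv)
      have := hG.path_unique p ⟨.cons hbc.symm (.cons hw.symm .nil), by
        simp [SimpleGraph.Walk.cons_isPath_iff, hbc.ne.symm, hvc.symm, hw.ne.symm]⟩
      exact (hS w (hp w (by rw [this]; simp))).2 rfl
    · by_cases h1 : w = b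
      · exact Or.inl h1
      · exact Or.inr (hall ⟨hw, h1⟩)
  · refine ⟨insert b S, b, T \ S, b, ⟨Or.inl rfl, ?_, ?_⟩, ⟨⟨h.mem, fun h => (hS b h).2 rfl⟩, ?_, ?_⟩,
      ⟨insert_subset h.mem fun w hw => (hS w hw).1, fun h' => hall fun w hw =>
        (h' hw.1).resolve_left hw.2⟩, ⟨diff_subset, fun h' => (h' hc).2 .refl⟩, fun w hw => ?_⟩
    · rintro w (rfl | hw)
      · rfl
      · exact .head ⟨hbc, Or.inr .refl⟩ (hS2 _ (subset_insert _ _) w hw)
    · rintro v (rfl | hv) h1 w hw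
      · exact absurd rfl h1
      by_cases h2 : w = b
      · exact Or.inl h2
      · exact Or.inr (ReflTransGen.tail hv ⟨hw, h.cl v (hS v hv).1 h1 w hw, h2⟩)
    · have key : ∀ w, ReflTransGen (fun x y => G.Adj x y ∧ y ∈ T) b w →
          w ∈ S ∨ ReflTransGen (fun x y => G.Adj x y ∧ y ∈ T \ S) b w := by
        intro w hw
        induction hw with
        | refl => exact Or.inr .refl
        | @tail x y _ h2 ih =>
          by_cases h3 : y ∈ S
          · exact Or.inl h3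
          by_cases h4 : y = b
          · exact Or.inr (h4 ▸ .refl)
          rcases ih with ih | ih
          · exact (h3 (ReflTransGen.tail ih ⟨h2.1, h2.2, h4⟩)).elim
          · exact Or.inr (ih.tail ⟨h2.1, h2.2, h3⟩)
      exact fun w hw => (key w (h.cn w hw.1)).resolve_left hw.2
    · exact fun v hv h1 w hw => ⟨h.cl v hv.1 h1 w hw, fun h2 =>
        hv.2 (ReflTransGen.tail h2 ⟨hw.symm, hv.1, h1⟩)⟩
    · by_cases h1 : w ∈ S
      · exact Or.inl (Or.inr h1)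
      · exact Or.inr ⟨hw, h1⟩

end tree

variable {X : Type} [MetricSpace X] [CompactSpace X]

def TL (X : Type) [MetricSpace X] : Prop := ∀ ε : ℝ, ε > 0 → ∃ (n : ℕ) (U : Fin n → Set X),
  (∀ i, IsOpen (U i)) ∧ (∀ i, Metric.diam (U i) < ε) ∧ (⋃ i, U i) = Set.univ ∧
  (SimpleGraph.fromRel (fun i j => (U i ∩ U j).Nonempty)).IsTree

theorem adj_of {n : ℕ} {U : Fin n → Set X} {i j : Fin n} (h : i ≠ j) (h' : (U i ∩ U j).Nonempty) :
    (SimpleGraph.fromRel (fun i j => (U i ∩ U j).Nonempty)).Adj i j :=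
  (SimpleGraph.fromRel_adj _ _ _).2 ⟨h, Or.inl h'⟩

theorem of_adj {n : ℕ} {U : Fin n → Set X} {i j : Fin n}
    (h : (SimpleGraph.fromRel (fun i j => (U i ∩ U j).Nonempty)).Adj i j) :
    (U i ∩ U j).Nonempty := by
  rcases ((SimpleGraph.fromRel_adj _ _ _).1 h).2 with h | h
  · exact h
  · rwa [inter_comm]

theorem unicoh (hT : TL X) {A B : Set X} (hAc : IsClosed A) (hBc : IsClosed B)
    (hA : IsPreconnected A) (hB : IsPreconnected B) : IsPreconnected (A ∩ B) := by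
  rw [isPreconnected_closed_iff]
  rintro F F' hF hF' hcov ⟨x, hx, hxF⟩ ⟨y, hy, hyF⟩
  by_contra hc
  have hD := hAc.inter hBc
  have hd : Disjoint (A ∩ B ∩ F) (A ∩ B ∩ F') :=
    disjoint_left.2 fun z h1 h2 => hc ⟨z, h1.1, h1.2, h2.2⟩
  obtain ⟨δ, hδ, hd⟩ := hd.exists_thickenings (hD.inter hF).isCompact (hD.inter hF')
  have hd2 : Disjoint (A \ thickening (δ / 4) (A ∩ B)) B := disjoint_left.2 fun z h1 h2 =>
    h1.2 (self_subset_thickening (by linarith) _ ⟨h1.1, h2⟩)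
  obtain ⟨μ, hμ, hd2⟩ := hd2.exists_thickenings (hAc.sdiff isOpen_thickening).isCompact hBc
  obtain ⟨n, U, h1, h2, h3, h4⟩ := hT (min μ (δ / 4)) (by positivity)
  have hU : ∀ i, ∀ u ∈ U i, ∀ v ∈ U i, dist u v < min μ (δ / 4) := fun i u hu v hv =>
    (dist_le_diam_of_mem isBounded_of_compactSpace hu hv).trans_lt (h2 i)
  have key : ∀ A : Set X, IsPreconnected A → ∀ i j, (U i ∩ A).Nonempty → (U j ∩ A).Nonempty →
      ReflTransGen (fun x y => (SimpleGraph.fromRel (fun i j => (U i ∩ U j).Nonempty)).Adj x y ∧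
        y ∈ {i | (U i ∩ A).Nonempty}) i j := by
    intro A hA i j hi hj
    by_contra hc
    set R := {j | ReflTransGen (fun x y => (SimpleGraph.fromRel
      (fun i j => (U i ∩ U j).Nonempty)).Adj x y ∧ y ∈ {i | (U i ∩ A).Nonempty}) i j}
    obtain ⟨z, hz, hz1, hz2⟩ := hA (⋃ k ∈ R, U k) (⋃ k ∈ Rᶜ, U k) (isOpen_biUnion fun k _ => h1 k)
      (isOpen_biUnion fun k _ => h1 k) (by
        intro z _
        obtain ⟨k, hk⟩ := mem_iUnion.1 (h3 ▸ mem_univ z)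
        by_cases h : k ∈ R
        · exact Or.inl (mem_biUnion h hk)
        · exact Or.inr (mem_biUnion h hk))
      (hi.mono fun z hz => ⟨hz.2, mem_biUnion (show i ∈ R from .refl) hz.1⟩)
      (hj.mono fun z hz => ⟨hz.2, mem_biUnion (show j ∈ Rᶜ from hc) hz.1⟩)
    obtain ⟨k, hk, hk'⟩ := mem_iUnion₂.1 hz1
    obtain ⟨l, hl, hl'⟩ := mem_iUnion₂.1 hz2
    exact hl (ReflTransGen.tail hk ⟨adj_of (by rintro rfl; exact hl hk) ⟨z, hk', hl'⟩, z, hl', hz⟩)
  obtain ⟨i, hi⟩ := mem_iUnion.1 (h3 ▸ mem_univ x)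
  obtain ⟨j, hj⟩ := mem_iUnion.1 (h3 ▸ mem_univ y)
  obtain ⟨p, hp⟩ := exists_path (show i ∈ {i | (U i ∩ A).Nonempty} from ⟨x, hi, hx.1⟩)
    (key A hA i j ⟨x, hi, hx.1⟩ ⟨y, hj, hy.1⟩)
  obtain ⟨q, hq⟩ := exists_path (show i ∈ {i | (U i ∩ B).Nonempty} from ⟨x, hi, hx.2⟩)
    (key B hB i j ⟨x, hi, hx.2⟩ ⟨y, hj, hy.2⟩)
  obtain rfl := h4.isAcyclic.path_unique p q
  have := walk_ind (T := {i | (U i ∩ A).Nonempty ∧ (U i ∩ B).Nonempty})
    (φ := fun i => U i ⊆ thickening δ (A ∩ B ∩ F)) (by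
      rintro k - l ⟨⟨a, ha, ha'⟩, b, hb, hb'⟩ hkl hk
      obtain ⟨z, hz, hz'⟩ := of_adj hkl
      have : a ∈ thickening (δ / 4) (A ∩ B) := by
        by_contra h
        exact disjoint_left.1 hd2 (self_subset_thickening hμ _ ⟨ha', h⟩)
          (mem_thickening_iff.2 ⟨b, hb', (hU l a ha b hb).trans_le (min_le_left _ _)⟩)
      obtain ⟨d, hd1, hd3⟩ := mem_thickening_iff.1 this
      have h5 : ∀ u ∈ U l, dist u d < δ := fun u hu => by
        linarith [dist_triangle u a d, hU l u hu a ha, min_le_right μ (δ / 4)]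
      rcases hcov hd1 with h | h
      · exact fun u hu => mem_thickening_iff.2 ⟨d, ⟨hd1, h⟩, h5 u hu⟩
      · exact (disjoint_left.1 hd (hk hz) (mem_thickening_iff.2 ⟨d, ⟨hd1, h⟩, h5 z hz'⟩)).elim)
    p.1 (fun k hk => ⟨hp k hk, hq k hk⟩) (fun u hu => mem_thickening_iff.2 ⟨x, ⟨hx, hxF⟩, by
      linarith [hU i u hu x hi, min_le_right μ (δ / 4)]⟩)
  exact disjoint_left.1 hd (this hj) (self_subset_thickening hδ _ ⟨hy, hyF⟩)

theorem select (hT : TL X) {δ1 δ2 μ : ℝ} (hμ : 0 < μ) (hμ2 : μ ≤ δ2) {x0 x1 : X}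
    (hx : 3 * δ2 ≤ dist x0 x1)
    (hI : ∀ A B : Set X, EC δ2 A → EC δ2 B → Dn δ2 (A ∪ B) → Dn δ1 A ∨ Dn δ1 B) :
    ∃ (A O : Set X) (p : X), IsOpen O ∧ O ⊆ A ∧ p ∈ A ∧ EC μ A ∧ Dn δ1 A ∧ ¬ Dn δ2 A ∧
      (∀ x ∈ closure O, x ∉ O → dist x p < μ) ∧ ∀ x ∈ A, x ∉ O → dist x p < μ := by
  obtain ⟨n, U, h1, h2, h3, h4⟩ := hT μ hμ
  set G := SimpleGraph.fromRel (fun i j => (U i ∩ U j).Nonempty)
  have hU : ∀ i, ∀ u ∈ U i, ∀ v ∈ U i, dist u v < μ := fun i u hu v hv =>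
    (dist_le_diam_of_mem isBounded_of_compactSpace hu hv).trans_lt (h2 i)
  have hb : ∀ T b, Good G T b → (⋃ i ∈ T, U i).Nonempty → (U b).Nonempty := by
    rintro T b h ⟨x, hx⟩
    obtain ⟨v, hv, hx⟩ := mem_iUnion₂.1 hx
    rcases (h.cn v hv).cases_head with rfl | ⟨w, hw, -⟩
    · exact ⟨x, hx⟩
    · exact (of_adj hw.1).mono inter_subset_left
  have hec : ∀ T b, Good G T b → EC μ (⋃ i ∈ T, U i) := by
    intro T b h
    rcases (⋃ i ∈ T, U i).eq_empty_or_nonempty with h0 | h0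
    · rw [h0]; intro P Q _ h; simp at h
    obtain ⟨p, hp⟩ := hb T b h h0
    refine ec_of_rtg hμ (mem_biUnion h.mem hp) fun y hy => ?_
    obtain ⟨v, hv, hy⟩ := mem_iUnion₂.1 hy
    have := h.cn v hv
    induction this generalizing y with
    | refl => exact .single ⟨mem_biUnion hv hy, hU _ _ hp _ hy⟩
    | @tail u v hu h2 ih =>
      obtain ⟨z, hz, hz'⟩ := of_adj h2.1
      have hu' : u ∈ T := by
        rcases hu.cases_tail with rfl | ⟨_, _, h⟩
        · exact h.mem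
        · exact h.2
      exact (ih z (mem_biUnion hu' hz) hu' hz).tail ⟨mem_biUnion hv hy, hU _ _ hz' _ hy⟩
  have main : ∀ k, ∀ T b, T.ncard = k → Good G T b → Dn δ2 (⋃ i ∈ T, U i) →
      ∃ T b, Good G T b ∧ Dn δ1 (⋃ i ∈ T, U i) ∧ ¬ Dn δ2 (⋃ i ∈ T, U i) := by
    intro k
    induction k using Nat.strong_induction_on with
    | _ k ih =>
      rintro T b rfl h hd
      obtain ⟨T1, b1, T2, b2, g1, g2, s1, s2, s3⟩ := h.split h4.isAcyclic (by
        rintro rfl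
        obtain ⟨a, ha, e1⟩ := hd x0
        obtain ⟨c, hc, e2⟩ := hd x1
        simp only [mem_singleton_iff, iUnion_iUnion_eq_left] at ha hc
        linarith [dist_triangle4 x0 a c x1, hU b a ha c hc, dist_comm x1 c])
      by_cases d1 : Dn δ2 (⋃ i ∈ T1, U i)
      · exact ih _ (ncard_lt_ncard s1) T1 b1 rfl g1 d1
      by_cases d2 : Dn δ2 (⋃ i ∈ T2, U i)
      · exact ih _ (ncard_lt_ncard s2) T2 b2 rfl g2 d2
      rcases hI _ _ ((hec _ _ g1).mono hμ2) ((hec _ _ g2).mono hμ2) (fun x => by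
        obtain ⟨a, ha, e⟩ := hd x
        obtain ⟨i, hi, ha⟩ := mem_iUnion₂.1 ha
        exact ⟨a, (s3 hi).imp (fun h => mem_biUnion h ha) (fun h => mem_biUnion h ha), e⟩) with h | h
      · exact ⟨T1, b1, g1, h, d1⟩
      · exact ⟨T2, b2, g2, h, d2⟩
  obtain ⟨b0, hb0⟩ := mem_iUnion.1 (h3 ▸ mem_univ x0)
  obtain ⟨T, b, g, d1, d2⟩ := main _ univ b0 rfl ⟨trivial, fun v _ => by
    have := (SimpleGraph.reachable_iff_reflTransGen _ _).1 (h4.connected.preconnected b0 v)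
    simpa using this, fun _ _ _ _ _ => trivial⟩ (fun x => ⟨x, by simp [h3], by
      simpa using hμ.trans_le hμ2⟩)
  obtain ⟨p, hp⟩ := hb T b g (by obtain ⟨a, ha, -⟩ := d1 x0; exact ⟨a, ha⟩)
  refine ⟨_, ⋃ i ∈ T \ {b}, U i, p, isOpen_biUnion fun i _ => h1 i,
    biUnion_subset_biUnion_left diff_subset, mem_biUnion g.mem hp, hec _ _ g, d1, d2, ?_, ?_⟩
  · intro x hx hxO
    obtain ⟨j, hj⟩ := mem_iUnion.1 (h3 ▸ mem_univ x)
    obtain ⟨z, hz, hz'⟩ := mem_closure_iff.1 hx _ (h1 j) hj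
    obtain ⟨i, hi, hz'⟩ := mem_iUnion₂.1 hz'
    by_cases hjb : j = b
    · exact hU b x (hjb ▸ hj) p hp
    by_cases hij : i = j
    · exact (hxO (mem_biUnion hi (hij ▸ hj))).elim
    · exact (hxO (mem_biUnion ⟨g.cl i hi.1 hi.2 j (adj_of hij ⟨z, hz', hz⟩), hjb⟩ hj)).elim
  · intro x hx hxO
    obtain ⟨j, hj, hx⟩ := mem_iUnion₂.1 hx
    by_cases hjb : j = b
    · exact hU b x (hjb ▸ hx) p hp
    · exact (hxO (mem_biUnion ⟨hj, hjb⟩ hx)).elim

theorem case_ind (hT : TL X) (hC : ∀ K : Set X, IsClosed K → IsConnected K → K ≠ univ → Chn K)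
    (hI : Ind X) {x0 x1 : X} (hx : x0 ≠ x1) {ε : ℝ} (hε : 0 < ε) : Goal X ε := by
  have : Nonempty X := ⟨x0⟩
  obtain ⟨δ1, hδ1, H1⟩ := ind_unif hI hε
  obtain ⟨δ2', hδ2', H2⟩ := ind_unif hI hδ1
  have hd := dist_pos.2 hx
  set δ2 := min δ2' (dist x0 x1 / 3)
  have hδ2 : 0 < δ2 := by positivity
  have hsel : ∀ m : ℕ, ∃ (A O : Set X) (p : X), IsOpen O ∧ O ⊆ A ∧ p ∈ A ∧
      EC (min (1 / ((m : ℝ) + 1)) δ2) A ∧ Dn δ1 A ∧ ¬ Dn δ2 A ∧
      (∀ x ∈ closure O, x ∉ O → dist x p < min (1 / ((m : ℝ) + 1)) δ2) ∧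
      ∀ x ∈ A, x ∉ O → dist x p < min (1 / ((m : ℝ) + 1)) δ2 := fun m =>
    select hT (by positivity) (min_le_right _ _) (by linarith [min_le_right δ2' (dist x0 x1 / 3)])
      fun A B h1 h2 h3 => H2 A B (h1.mono (min_le_left _ _)) (h2.mono (min_le_left _ _))
        fun x => (h3 x).imp fun a ha => ⟨ha.1, ha.2.trans_le (min_le_left _ _)⟩
  choose A O p h1 h2 h3 h4 h5 h6 h7 h8 using hsel
  obtain ⟨q, hq⟩ := ulim p
  obtain ⟨f, hf, r, hr, hEP⟩ := fn (lim_closed A) (hC _ (lim_closed A)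
    ⟨⟨q, mem_lim (Eventually.of_forall h3) hq⟩, lim_conn fun m => (h4 m).mono (min_le_left _ _)⟩ (by
      intro h'
      obtain ⟨m, hm⟩ := (sub_lim A hδ2).exists
      exact h6 m fun x => hm x (h' ▸ trivial))) (show 0 < min δ1 (ε / 2) by positivity)
  obtain ⟨ω, hω, hω'⟩ := unif hf (show (0 : ℝ) < 1 / 4 by norm_num)
  obtain ⟨m, e1, e2⟩ := ((ev_small hω).and (lim_sub A (half_pos hr))).exists
  have hAN : A m ⊆ thickening (r / 2) (Lim A) := fun a ha => mem_thickening_iff.2 (e2 a ha)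
  have hAN' : closure (A m) ⊆ thickening r (Lim A) := (closure_mono hAN).trans
    ((closure_thickening_subset_cthickening _ _).trans
      (cthickening_subset_thickening' hr (by linarith) _))
  have hsm : ∀ x y, dist x y < min (1 / ((m : ℝ) + 1)) δ2 → |f x - f y| < 1 / 4 := fun x y h =>
    hω' x y (h.trans_le ((min_le_left _ _).trans e1.le))
  have key : ∀ f : X → ℝ, Continuous f → EP f (thickening r (Lim A)) 10 (min δ1 (ε / 2)) →
      (∀ x y, dist x y < min (1 / ((m : ℝ) + 1)) δ2 → |f x - f y| < 1 / 4) →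
      EC δ1 (A m ∩ {x | f (p m) - 1 / 2 < f x}) ∧
        (Dn ε (A m ∩ {x | f (p m) - 1 / 2 < f x}) → Goal X ε) := by
    intro f hf hEP hsm
    refine ⟨half (fun x hx y hy h => (hEP x (hAN' (subset_closure hx)) y (hAN' (subset_closure hy))
      (by linarith)).trans_le (min_le_left _ _))
      (gap_of_ec (h4 m) fun x y h => by linarith [hsm x y h]) _, fun hD => ?_⟩
    refine ch (ε' := min δ1 (ε / 2)) (by positivity) (by linarith [min_le_right δ1 (ε / 2)])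
      (f := fun x => f x - f (p m) - 1 / 2) (by fun_prop) isOpen_thickening (h1 m)
      (fun x hx y hy h => hEP x hx y hy (by
        have := abs_le.1 h; exact abs_le.2 ⟨by linarith, by linarith⟩))
      (subset_closure.trans hAN') ((closure_mono (h2 m)).trans hAN')
      (fun x hx hx' => by linarith [(abs_lt.1 (hsm _ _ (h7 m x hx hx'))).2])
      (fun x hx hx' => by linarith [(abs_lt.1 (hsm _ _ (h8 m x hx hx'))).2]) (h2 m) (h3 m)
      (by norm_num) (by norm_num) (gap_of_ec (h4 m) fun x y h => by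
        have := abs_lt.1 (hsm x y h); exact abs_lt.2 ⟨by linarith, by linarith⟩) fun x => ?_
    obtain ⟨a, ha, h⟩ := hD x
    exact ⟨a, ⟨ha.1, by have : _ < f a := ha.2; simp only [mem_ofPred_eq]; linarith⟩, h⟩
  obtain ⟨k1, k2⟩ := key f hf hEP hsm
  obtain ⟨k3, k4⟩ := key (fun x => -f x) hf.neg (fun x hx y hy h => hEP x hx y hy (by
    have := abs_le.1 h; exact abs_le.2 ⟨by linarith, by linarith⟩)) (fun x y h => by
    have := abs_lt.1 (hsm x y h); exact abs_lt.2 ⟨by linarith, by linarith⟩)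
  refine (H1 _ _ k1 k3 fun x => ?_).elim k2 k4
  obtain ⟨a, ha, h⟩ := h5 m x
  refine ⟨a, ?_, h⟩
  rcases le_total (f (p m)) (f a) with h | h
  · exact Or.inl ⟨ha, by simp only [mem_ofPred_eq]; linarith⟩
  · exact Or.inr ⟨ha, by simp only [mem_ofPred_eq]; linarith⟩

theorem ivt {S : Set X} (hS : IsPreconnected S) {f : X → ℝ} (hf : Continuous f) {a b : X}
    (ha : a ∈ S) (hb : b ∈ S) {t : ℝ} (h1 : f a ≤ t) (h2 : t ≤ f b) : ∃ z ∈ S, f z = t :=
  hS.intermediate_value ha hb hf.continuousOn ⟨h1, h2⟩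

theorem side {A A' B' : Set X} (hA : IsPreconnected A) (hA' : IsPreconnected A')
    (hB' : IsPreconnected B') (hAA : A' ⊆ A) {d b x0 : X} (hd1 : d ∈ A') (hd2 : d ∈ B')
    (hb : b ∈ B') (hx0 : x0 ∈ A') (hc : IsClosed (A ∪ B')) (hC : Chn (A ∪ B')) {ε : ℝ} (hε : 0 < ε)
    (h1 : ∀ a ∈ A, ε ≤ dist a b) (h2 : ∀ y ∈ B', ε ≤ dist x0 y) :
    ∃ h : X → ℝ, Continuous h ∧ h x0 = 0 ∧ EP h A 10 ε ∧ (∀ y ∈ B', 0 < h y) ∧
      ∀ x ∈ A, 0 ≤ h x → ∃ z ∈ A' ∪ B', dist x z < ε := by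
  obtain ⟨f, hf, r, hr, hEP⟩ := fn hc hC hε
  have key : ∀ f : X → ℝ, Continuous f → EP f (A ∪ B') 10 ε → f x0 ≤ f b →
      ∃ h : X → ℝ, Continuous h ∧ h x0 = 0 ∧ EP h A 10 ε ∧ (∀ y ∈ B', 0 < h y) ∧
      ∀ x ∈ A, 0 ≤ h x → ∃ z ∈ A' ∪ B', dist x z < ε := by
    intro f hf hEP hle
    have hq : ∀ x ∈ A ∪ B', ∀ y ∈ A ∪ B', f x = f y → dist x y < ε := fun x hx y hy h =>
      hEP x hx y hy (by rw [h]; simp)
    refine ⟨fun x => f x - f x0, by fun_prop, sub_self _, fun x hx y hy h =>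
      hEP x (Or.inl hx) y (Or.inl hy) (by simpa using h), fun y hy => ?_, fun x hx h => ?_⟩
    · by_contra h
      obtain ⟨z, hz, h3⟩ := ivt hB' hf hy hb (t := f x0) (by simp at h; linarith) hle
      linarith [hq x0 (Or.inl (hAA hx0)) z (Or.inr hz) h3.symm, h2 z hz]
    · have h3 : f x0 ≤ f x := by linarith
      rcases le_total (f x) (f d) with h4 | h4
      · obtain ⟨z, hz, h5⟩ := ivt hA' hf hx0 hd1 h3 h4
        exact ⟨z, Or.inl hz, hq x (Or.inl hx) z (Or.inl (hAA hz)) h5.symm⟩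
      rcases le_total (f x) (f b) with h5 | h5
      · obtain ⟨z, hz, h6⟩ := ivt hB' hf hd2 hb h4 h5
        exact ⟨z, Or.inr hz, hq x (Or.inl hx) z (Or.inr hz) h6.symm⟩
      · obtain ⟨z, hz, h6⟩ := ivt hA hf (hAA hx0) hx hle h5
        linarith [hq z (Or.inl hz) b (Or.inr hb) h6, h1 z hz]
  have hEP' : EP f (A ∪ B') 10 ε := fun x hx y hy =>
    hEP x (self_subset_thickening hr _ hx) y (self_subset_thickening hr _ hy)
  rcases le_total (f x0) (f b) with h | h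
  · exact key f hf hEP' h
  · exact key (fun x => -f x) hf.neg (fun x hx y hy h => hEP' x hx y hy (by
      have := abs_le.1 h; exact abs_le.2 ⟨by linarith, by linarith⟩)) (by simpa using h)

theorem far {A : Set X} (hA : IsClosed A) {b : X} (hb : b ∉ A) : ∃ r > 0, ∀ a ∈ A, r ≤ dist a b := by
  obtain ⟨r, hr, h⟩ := Metric.isOpen_iff.1 hA.isOpen_compl b hb
  exact ⟨r, hr, fun a ha => not_lt.1 fun h' => h h' ha⟩

theorem case_dec [ConnectedSpace X] (hT : TL X)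
    (hC : ∀ K : Set X, IsClosed K → IsConnected K → K ≠ univ → Chn K) (hI : ¬ Ind X)
    {ε : ℝ} (hε : 0 < ε) : Goal X ε := by
  classical
  simp only [Ind, not_forall, not_or] at hI
  obtain ⟨A, B, hAc, hBc, hA, hB, hAB, hA1, hB1⟩ := hI
  have hcov : ∀ x, x ∈ A ∨ x ∈ B := fun x => (hAB ▸ mem_univ x : x ∈ A ∪ B)
  obtain ⟨b0, hb0⟩ := (ne_univ_iff_exists_notMem _).1 hA1
  obtain ⟨a0, ha0⟩ := (ne_univ_iff_exists_notMem _).1 hB1
  have hb0B := (hcov b0).resolve_left hb0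
  have ha0A := (hcov a0).resolve_right ha0
  obtain ⟨d, -, hd⟩ := isPreconnected_closed_iff.1 isPreconnected_univ A B hAc hBc hAB.ge
    ⟨a0, trivial, ha0A⟩ ⟨b0, trivial, hb0B⟩
  have hD := unicoh hT hAc hBc hA hB
  obtain ⟨r1, hr1, e1⟩ := far hAc hb0
  obtain ⟨r2, hr2, e2⟩ := far hBc ha0
  obtain ⟨B', B1, B2, B3, B4, B5, b, hb, hb'⟩ := bump hBc hB hD inter_subset_right hd hb0B
    (half_pos hr1) fun x hx => by linarith [e1 x hx.1]
  obtain ⟨A', A1, A2, A3, A4, A5, a, ha, ha'⟩ := bump hAc hA hD inter_subset_left hd ha0A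
    (half_pos hr2) fun x hx => by linarith [e2 x hx.2]
  have e3 : ∀ x ∈ A, r1 / 2 ≤ dist x b := fun x hx => by linarith [e1 x hx, dist_triangle x b b0]
  have e4 : ∀ x ∈ B, r2 / 2 ≤ dist x a := fun x hx => by linarith [e2 x hx, dist_triangle x a a0]
  have hK : ∀ S S' : Set X, IsClosed S → IsClosed S' → IsPreconnected S → IsPreconnected S' →
      d ∈ S → d ∈ S' → ∀ z, z ∉ S → z ∉ S' → Chn (S ∪ S') := fun S S' h1 h2 h3 h4 h5 h6 z h7 h8 =>
    hC _ (h1.union h2) ⟨⟨d, Or.inl h5⟩, h3.union d h5 h6 h4⟩ fun h =>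
      (h ▸ mem_univ z : z ∈ S ∪ S').elim h7 h8
  set ε0 := min (ε / 4) (min (r1 / 2) (r2 / 2)) with hε0
  have p0 : 0 < ε0 := by positivity
  have p1 : ε0 ≤ ε / 4 := min_le_left _ _
  have p2 : ε0 ≤ r1 / 2 := (min_le_right _ _).trans (min_le_left _ _)
  have p3 : ε0 ≤ r2 / 2 := (min_le_right _ _).trans (min_le_right _ _)
  obtain ⟨f, hf, r, hr, hEP⟩ := fn (A1.union B1) (hK A' B' A1 B1 A2 B2 (A3 hd) (B3 hd) b0
    (fun h => hb0 (A4 h)) B5) p0
  have hin : ∀ z ∈ A' ∪ B', z ∈ thickening r (A' ∪ B') := self_subset_thickening hr _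
  wlog hlt : f a ≤ f d generalizing f
  · exact this (fun x => -f x) hf.neg (fun x hx y hy h => hEP x hx y hy (by
      have := abs_le.1 h; exact abs_le.2 ⟨by linarith, by linarith⟩)) (by simp; linarith)
  have m1 : ∀ y ∈ B', f a + 10 < f y := by
    have h1 : ∀ y ∈ B', ¬ |f y - f a| ≤ 10 := fun y hy h => by
      linarith [hEP y (hin y (Or.inr hy)) a (hin a (Or.inl ha)) h, e4 y (B4 hy)]
    intro y hy
    by_contra h
    rcases le_total (f y) (f a) with h2 | h2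
    · obtain ⟨z, hz, h3⟩ := ivt B2 hf hy (B3 hd) h2 hlt
      exact h1 z hz (by simp [h3])
    · exact h1 y hy (abs_le.2 ⟨by linarith, by linarith⟩)
  have m2 : ∀ x ∈ A', f x + 10 < f b := by
    have h1 : ∀ x ∈ A', ¬ |f x - f b| ≤ 10 := fun x hx h => by
      linarith [hEP x (hin x (Or.inl hx)) b (hin b (Or.inr hb)) h, e3 x (A4 hx)]
    intro x hx
    by_contra h
    rcases le_total (f b) (f x) with h2 | h2
    · obtain ⟨z, hz, h3⟩ := ivt A2 hf ha hx (by linarith [m1 b hb]) h2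
      exact h1 z hz (by simp [h3])
    · exact h1 x hx (abs_le.2 ⟨by linarith, by linarith⟩)
  obtain ⟨x0, hx0, hx0'⟩ := A1.isCompact.exists_isMinOn ⟨a, ha⟩ hf.continuousOn
  obtain ⟨y0, hy0, hy0'⟩ := B1.isCompact.exists_isMaxOn ⟨b, hb⟩ hf.continuousOn
  have q1 : f x0 ≤ f a := hx0' ha
  have q2 : f b ≤ f y0 := hy0' hb
  have q3 := m1 b hb
  have q4 : ∀ z ∈ A' ∪ B', f x0 ≤ f z ∧ f z ≤ f y0 := by
    rintro z (hz | hz)
    · exact ⟨hx0' hz, by linarith [m2 z hz]⟩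
    · exact ⟨by linarith [m1 z hz], hy0' hz⟩
  obtain ⟨ω, hω, hω'⟩ := unif hf one_pos
  set ε1 := min ε0 (min ω r)
  have s0 : 0 < ε1 := by positivity
  have s1 : ε1 ≤ ε0 := min_le_left _ _
  have s2 : ε1 ≤ ω := (min_le_right _ _).trans (min_le_left _ _)
  have s3 : ε1 ≤ r := (min_le_right _ _).trans (min_le_right _ _)
  obtain ⟨h, c1, c2, c3, c4, c5⟩ := side hA A2 B2 A4 (A3 hd) (B3 hd) hb hx0 (hAc.union B1)
    (hK A B' hAc B1 hA B2 hd.1 (B3 hd) b0 hb0 B5) s0 (fun x hx => by linarith [e3 x hx])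
    (fun y hy => not_lt.1 fun h => by
      linarith [(abs_lt.1 (hω' _ _ (h.trans_le s2))).1, m1 y hy])
  obtain ⟨g, g1, g2, g3, g4, g5⟩ := side hB B2 A2 B4 (B3 hd) (A3 hd) ha hy0 (hBc.union A1)
    (hK B A' hBc A1 hB A2 hd.2 (A3 hd) a0 ha0 A5) s0 (fun x hx => by linarith [e4 x hx])
    (fun y hy => not_lt.1 fun h => by
      linarith [(abs_lt.1 (hω' _ _ (h.trans_le s2))).2, m2 y hy])
  let G : X → ℝ := fun x => min (max (f x) (f x0 + 1)) (f y0 - 1)
  let F : X → ℝ := fun x => if x ∈ A ∧ h x ≤ 0 then f x0 + 1 + h x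
    else if x ∈ B ∧ g x ≤ 0 then f y0 - 1 - g x else G x
  let Mid := (A ∩ {x | 0 ≤ h x}) ∪ (B ∩ {x | 0 ≤ g x})
  have n1 : ∀ x, x ∈ A → x ∈ B → 0 < h x ∧ 0 < g x := fun x h1 h2 =>
    ⟨c4 x (B3 ⟨h1, h2⟩), g4 x (A3 ⟨h1, h2⟩)⟩
  have F1 : ∀ x ∈ A, h x ≤ 0 → F x = f x0 + 1 + h x := fun x h1 h2 => if_pos ⟨h1, h2⟩
  have F2 : ∀ x ∈ B, g x ≤ 0 → F x = f y0 - 1 - g x := fun x h1 h2 =>
    (if_neg fun h => by linarith [(n1 x h.1 h1).2]).trans (if_pos ⟨h1, h2⟩)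
  have F3 : ∀ x ∈ Mid, F x = G x := by
    intro x hx
    by_cases h1 : x ∈ A ∧ h x ≤ 0
    · have h2 : 0 ≤ h x := hx.elim (fun h => h.2) fun h' => (n1 x h1.1 h'.1).1.le
      have h3 := abs_lt.1 (hω' _ _ ((c3 x h1.1 x0 (A4 hx0) (by
        rw [c2, le_antisymm h1.2 h2]; simp)).trans_le s2))
      rw [F1 x h1.1 h1.2, le_antisymm h1.2 h2]
      simp only [G]
      rw [max_eq_right (by linarith), min_eq_left (by linarith), add_zero]
    by_cases h4 : x ∈ B ∧ g x ≤ 0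
    · have h2 : 0 ≤ g x := hx.elim (fun h' => (n1 x h'.1 h4.1).2.le) fun h => h.2
      have h3 := abs_lt.1 (hω' _ _ ((g3 x h4.1 y0 (B4 hy0) (by
        rw [g2, le_antisymm h4.2 h2]; simp)).trans_le s2))
      rw [F2 x h4.1 h4.2, le_antisymm h4.2 h2]
      simp only [G]
      rw [min_eq_right (le_max_of_le_left (by linarith)), sub_zero]
    · exact (if_neg h1).trans (if_neg h4)
  have F4 : ∀ x ∈ Mid, x ∈ thickening r (A' ∪ B') ∧ |f x - F x| ≤ 2 ∧ f x0 + 1 ≤ F x ∧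
      F x ≤ f y0 - 1 := by
    intro x hx
    obtain ⟨z, hz, h1⟩ : ∃ z ∈ A' ∪ B', dist x z < ε1 := by
      rcases hx with hx | hx
      · exact c5 x hx.1 hx.2
      · rw [union_comm]; exact g5 x hx.1 hx.2
    have h2 := abs_lt.1 (hω' _ _ (h1.trans_le s2))
    have h3 := q4 z hz
    rw [F3 x hx]
    refine ⟨mem_thickening_iff.2 ⟨z, hz, h1.trans_le s3⟩, ?_, le_min (le_max_right _ _) (by linarith),
      min_le_right _ _⟩
    simp only [G, max_def, min_def]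
    split_ifs <;> exact abs_le.2 ⟨by linarith, by linarith⟩
  have tri : ∀ x, x ∈ A ∩ {x | h x ≤ 0} ∪ (B ∩ {x | g x ≤ 0} ∪ Mid) := by
    intro x
    rcases hcov x with hx | hx
    · rcases le_total (h x) 0 with h1 | h1
      · exact Or.inl ⟨hx, h1⟩
      · exact Or.inr (Or.inr (Or.inl ⟨hx, h1⟩))
    · rcases le_total (g x) 0 with h1 | h1
      · exact Or.inr (Or.inl ⟨hx, h1⟩)
      · exact Or.inr (Or.inr (Or.inr ⟨hx, h1⟩))
  have cl1 : IsClosed (A ∩ {x | h x ≤ 0}) := hAc.inter (isClosed_le c1 continuous_const)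
  have cl2 : IsClosed (B ∩ {x | g x ≤ 0}) := hBc.inter (isClosed_le g1 continuous_const)
  have cl3 : IsClosed Mid := (hAc.inter (isClosed_le continuous_const c1)).union
    (hBc.inter (isClosed_le continuous_const g1))
  have hF : Continuous F := by
    rw [← continuousOn_univ, ← eq_univ_of_forall tri]
    refine ContinuousOn.union_of_isClosed ?_ (ContinuousOn.union_of_isClosed ?_ ?_ cl2 cl3) cl1
      (cl2.union cl3)
    · exact (by fun_prop : Continuous fun x => f x0 + 1 + h x).continuousOn.congr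
        fun x hx => F1 x hx.1 hx.2
    · exact (by fun_prop : Continuous fun x => f y0 - 1 - g x).continuousOn.congr
        fun x hx => F2 x hx.1 hx.2
    · exact (by fun_prop : Continuous G).continuousOn.congr F3
  have hx0t := hin x0 (Or.inl hx0)
  have hy0t := hin y0 (Or.inr hy0)
  have k1 : ∀ x ∈ A ∩ {x | h x ≤ 0}, ∀ y ∈ Mid, |F x - F y| ≤ 2 → dist x y < ε / 2 := by
    intro x hx y hy hxy
    have h0 : h x ≤ 0 := hx.2
    obtain ⟨u1, u2, u3, u4⟩ := F4 y hy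
    rw [F1 x hx.1 hx.2] at hxy
    have h1 := abs_le.1 hxy
    have h2 := abs_le.1 u2
    linarith [c3 x hx.1 x0 (A4 hx0) (by rw [c2]; exact abs_le.2 ⟨by linarith, by linarith⟩),
      hEP x0 hx0t y u1 (abs_le.2 ⟨by linarith, by linarith⟩), dist_triangle x x0 y]
  have k2 : ∀ x ∈ B ∩ {x | g x ≤ 0}, ∀ y ∈ Mid, |F x - F y| ≤ 2 → dist x y < ε / 2 := by
    intro x hx y hy hxy
    have h0 : g x ≤ 0 := hx.2
    obtain ⟨u1, u2, u3, u4⟩ := F4 y hy
    rw [F2 x hx.1 hx.2] at hxy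
    have h1 := abs_le.1 hxy
    have h2 := abs_le.1 u2
    linarith [g3 x hx.1 y0 (B4 hy0) (by rw [g2]; exact abs_le.2 ⟨by linarith, by linarith⟩),
      hEP y0 hy0t y u1 (abs_le.2 ⟨by linarith, by linarith⟩), dist_triangle x y0 y]
  have k3 : ∀ x ∈ A ∩ {x | h x ≤ 0}, ∀ y ∈ B ∩ {x | g x ≤ 0}, ¬ |F x - F y| ≤ 2 := by
    intro x hx y hy hxy
    have h0 : h x ≤ 0 := hx.2
    have h0' : g y ≤ 0 := hy.2
    rw [F1 x hx.1 hx.2, F2 y hy.1 hy.2] at hxy
    linarith [(abs_le.1 hxy).1]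
  have hFE : EP F univ 2 (ε / 2) := by
    intro x _ y _ hxy
    have hyx : |F y - F x| ≤ 2 := by rwa [abs_sub_comm]
    rcases tri x with hx | hx | hx <;> rcases tri y with hy | hy | hy
    · rw [F1 x hx.1 hx.2, F1 y hy.1 hy.2] at hxy
      have := abs_le.1 hxy
      linarith [c3 x hx.1 y hy.1 (abs_le.2 ⟨by linarith, by linarith⟩)]
    · exact (k3 x hx y hy hxy).elim
    · exact k1 x hx y hy hxy
    · exact (k3 y hy x hx hyx).elim
    · rw [F2 x hx.1 hx.2, F2 y hy.1 hy.2] at hxy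
      have := abs_le.1 hxy
      linarith [g3 x hx.1 y hy.1 (abs_le.2 ⟨by linarith, by linarith⟩)]
    · exact k2 x hx y hy hxy
    · rw [dist_comm]; exact k1 y hy x hx hyx
    · rw [dist_comm]; exact k2 y hy x hx hyx
    · obtain ⟨u1, u2, -⟩ := F4 x hx
      obtain ⟨v1, v2, -⟩ := F4 y hy
      have h1 := abs_le.1 hxy
      have h2 := abs_le.1 u2
      have h3 := abs_le.1 v2
      linarith [hEP x u1 y v1 (abs_le.2 ⟨by linarith, by linarith⟩)]
  obtain ⟨p, -, hp⟩ := isCompact_univ.exists_isMinOn ⟨d, trivial⟩ hF.continuousOn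
  refine ch (ε' := ε / 2) (by linarith) (by linarith) (f := fun x => F x - F p) (by fun_prop)
    isOpen_univ isOpen_univ (fun x hx y hy h => hFE x hx y hy (by simpa using h)) subset_rfl
    (subset_univ _) (fun x _ h => absurd trivial h) (fun x _ h => absurd trivial h) subset_rfl
    (mem_univ p) (by simp) (by simp) ?_ fun x => ⟨x, ⟨trivial, ?_⟩, by simpa⟩
  · rintro s ⟨x, -, hx⟩ ⟨y, -, hy⟩
    obtain ⟨z, -, hz⟩ := ivt isPreconnected_univ hF (mem_univ x) (mem_univ y)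
      (t := F p + s + 1 / 2) (by linarith) (by linarith)
    exact ⟨z, trivial, by linarith, by linarith⟩
  · have : F p ≤ F x := hp (mem_univ x)
    simp only [mem_ofPred_eq]; linarith

theorem final [ConnectedSpace X] (hT : TL X)
    (hC : ∀ K : Set X, IsClosed K → IsConnected K → K ≠ univ → Chn K) {ε : ℝ} (hε : 0 < ε) :
    Goal X ε := by
  by_cases hI : Ind X
  · rcases subsingleton_or_nontrivial X with h | ⟨x, y, h⟩
    · obtain ⟨x⟩ : Nonempty X := inferInstance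
      refine goal_of hε 0 (fun _ => univ) (fun _ => isOpen_univ)
        (fun _ => by rwa [diam_subsingleton (subsingleton_of_subsingleton)])
        (fun i j => by simp) isClosed_univ (fun _ _ => subset_rfl) (subset_iUnion (fun _ : Fin 1 => (univ : Set X)) 0)
        fun y => ⟨0, by rwa [infDist_zero_of_mem (mem_univ y)]⟩
    · exact case_ind hT hC hI h hε
  · exact case_dec hT hC hI hε

end Pool.Agent.H71.Fug
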