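import Mathlib

set_option autoImplicit false

namespace Pool.Agent.H71.GLComm

open Cardinal

theorem trec {ι X : Type} [Infinite ι] (Good : Set X → Prop) (Task : ι → Set X → Prop)
    (hmono : ∀ i s t, s ⊆ t → Task i s → Task i t) (h0 : Good ∅)
    (hdir : ∀ (J : Type) [Nonempty J] (s : J → Set X), Directed (· ⊆ ·) s → (∀ j, Good (s j)) →
      Good (⋃ j, s j))
    (hext : ∀ s, Good s → #s < #ι → ∀ i, ∃ F : Set X, F.Finite ∧ Good (s ∪ F) ∧ Task i (s ∪ F)) :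
    ∃ s, Good s ∧ ∀ i, Task i s := by
  obtain ⟨_, _, hord⟩ := exists_ord_eq_type_lt ι
  have h1 : ∀ i s, ∃ F : Set X, F.Finite ∧
      (Good s → #s < #ι → Good (s ∪ F) ∧ Task i (s ∪ F)) := by
    intro i s
    by_cases h : Good s ∧ #s < #ι
    · obtain ⟨F, hF, h'⟩ := hext s h.1 h.2 i
      exact ⟨F, hF, fun _ _ => h'⟩
    · exact ⟨∅, Set.finite_empty, fun a b => absurd ⟨a, b⟩ h⟩
  choose G hG1 hG2 using h1
  let F : ι → Set X := (wellFounded_lt (α := ι)).fix fun i f => G i (⋃ j : Set.Iio i, f j j.2)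
  have hF : ∀ i, F i = G i (⋃ j : Set.Iio i, F j) := fun i => WellFounded.fix_eq _ _ i
  have hfin : ∀ i, (F i).Finite := fun i => hF i ▸ hG1 _ _
  let s : ι → Set X := fun i => (⋃ j : Set.Iio i, F j) ∪ F i
  have hs : ∀ i x, x ∈ s i ↔ ∃ j ≤ i, x ∈ F j := by
    intro i x
    simp only [s, Set.mem_union, Set.mem_iUnion, Subtype.exists, Set.mem_Iio, exists_prop,
      le_iff_lt_or_eq]
    constructor
    · rintro (⟨j, hj, h⟩ | h)
      · exact ⟨j, Or.inl hj, h⟩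
      · exact ⟨i, Or.inr rfl, h⟩
    · rintro ⟨j, hj | rfl, h⟩
      · exact Or.inl ⟨j, hj, h⟩
      · exact Or.inr h
  have smono : ∀ i j, i ≤ j → s i ⊆ s j := by
    intro i j hij x hx
    obtain ⟨k, hk, h⟩ := (hs i x).1 hx
    exact (hs j x).2 ⟨k, hk.trans hij, h⟩
  have un : ∀ T : Set ι, (∀ j ∈ T, Good (s j)) → Good (⋃ j : T, s j) := by
    intro T hT
    rcases isEmpty_or_nonempty T with h | h
    · rwa [Set.iUnion_of_empty]
    · refine hdir T _ (fun a b => ?_) fun j => hT j j.2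
      rcases le_total a.1 b.1 with h | h
      · exact ⟨b, smono _ _ h, subset_rfl⟩
      · exact ⟨a, subset_rfl, smono _ _ h⟩
  have key : ∀ i, Good (s i) ∧ Task i (s i) := by
    intro i
    induction i using WellFoundedLT.induction with
    | ind i ih =>
      have e : (⋃ j : Set.Iio i, s j) = ⋃ j : Set.Iio i, F j := by
        ext x
        simp only [Set.mem_iUnion, hs]
        exact ⟨fun ⟨j, k, hk, h⟩ => ⟨⟨k, hk.trans_lt j.2⟩, h⟩, fun ⟨j, h⟩ => ⟨j, j, le_rfl, h⟩⟩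
      have hg := un (Set.Iio i) fun j hj => (ih j hj).1
      rw [e] at hg
      have hlt := mk_Iio_lt i hord
      have := hG2 i _ hg (by
        rcases (aleph0_le_mk ι).eq_or_lt with h | h
        · rw [← h] at hlt ⊢
          rw [lt_aleph0_iff_finite] at hlt
          rw [lt_aleph0_iff_set_finite]
          exact Set.finite_iUnion fun j => hfin j
        · refine (mk_iUnion_le _).trans_lt (mul_lt_of_lt h.le hlt (lt_of_le_of_lt ?_ h))
          exact ciSup_le' fun j => (hfin j).lt_aleph0.le)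
      rwa [← hF] at this
  refine ⟨⋃ j : (Set.univ : Set ι), s j, un _ fun j _ => (key j).1, fun i => ?_⟩
  exact hmono i _ _ (Set.subset_iUnion (fun j : (Set.univ : Set ι) => s j) ⟨i, trivial⟩) (key i).2

variable {D : Type} [DivisionRing D] {V : Type} [AddCommGroup V] [Module D V] {ι : Type}

theorem mem_add {W : Type} [AddCommGroup W] [Module D W] {Γ : Submodule D W} {y z : W} :
    z ∈ Γ ⊔ D ∙ y ↔ ∃ a : D, z - a • y ∈ Γ := by
  rw [Submodule.mem_sup]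
  constructor
  · rintro ⟨u, hu, w, hw, rfl⟩
    obtain ⟨a, rfl⟩ := Submodule.mem_span_singleton.1 hw
    exact ⟨a, by simpa using hu⟩
  · rintro ⟨a, h⟩
    exact ⟨_, h, a • y, Submodule.mem_span_singleton.2 ⟨a, rfl⟩, by simp⟩

variable (D ι) in
abbrev M : Type := (ι × ℤ) →₀ D

variable (D ι) in
/-- the shift -/
noncomputable def t : M D ι ≃ₗ[D] M D ι :=
  Finsupp.domLCongr (Equiv.prodCongr (Equiv.refl ι) (Equiv.addRight 1))

theorem t_apply (m : M D ι) (j : ι) (n : ℤ) : t D ι m (j, n) = m (j, n - 1) := rfl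
theorem t_symm_apply (m : M D ι) (j : ι) (n : ℤ) : (t D ι).symm m (j, n) = m (j, n + 1) := rfl

theorem t_single (j : ι) (n : ℤ) (a : D) :
    t D ι (Finsupp.single (j, n) a) = Finsupp.single (j, n + 1) a := by
  simp [t]

/-- elements vanishing on the line `j` -/
def K (j : ι) : Submodule D (M D ι) where
  carrier := {m | ∀ n, m (j, n) = 0}
  add_mem' := fun {a b} ha hb n => by simp [ha n, hb n]
  zero_mem' := fun n => rfl
  smul_mem' := fun c {a} ha n => by simp [ha n]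

/-- elements supported on the nonpositive half of the line `j` -/
def N (j : ι) : Submodule D (M D ι) where
  carrier := {m | ∀ i n, (i ≠ j ∨ 0 < n) → m (i, n) = 0}
  add_mem' := fun {a b} ha hb i n h => by simp [ha i n h, hb i n h]
  zero_mem' := fun i n h => rfl
  smul_mem' := fun c {a} ha i n h => by simp [ha i n h]

/-- closure under the inverse shift -/
noncomputable def Q (P : Submodule D (M D ι)) : Submodule D (M D ι) :=
  sInf {R | P ≤ R ∧ ∀ m ∈ R, (t D ι).symm m ∈ R}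

theorem le_Q (P : Submodule D (M D ι)) : P ≤ Q P := le_sInf fun _ h => h.1
theorem Q_le {P R : Submodule D (M D ι)} (h : P ≤ R) (h' : ∀ m ∈ R, (t D ι).symm m ∈ R) :
    Q P ≤ R := sInf_le ⟨h, h'⟩
theorem Q_symm {P : Submodule D (M D ι)} {m : M D ι} (h : m ∈ Q P) : (t D ι).symm m ∈ Q P := by
  rw [Q, Submodule.mem_sInf] at h ⊢
  exact fun R hR => hR.2 _ (h R hR)
theorem Q_mono {P R : Submodule D (M D ι)} (h : P ≤ R) : Q P ≤ Q R :=
  Q_le (h.trans (le_Q R)) fun _ => Q_symm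

noncomputable abbrev P (Γ : Submodule D (V × M D ι)) : Submodule D (M D ι) := Γ.map (LinearMap.snd D _ _)
noncomputable abbrev U (Γ : Submodule D (V × M D ι)) : Submodule D V := Γ.map (LinearMap.fst D _ _)

theorem mem_P {Γ : Submodule D (V × M D ι)} {m : M D ι} : m ∈ P Γ ↔ ∃ v, (v, m) ∈ Γ :=
  ⟨fun ⟨⟨v, _⟩, h, rfl⟩ => ⟨v, h⟩, fun ⟨v, h⟩ => ⟨(v, m), h, rfl⟩⟩
theorem mem_U {Γ : Submodule D (V × M D ι)} {v : V} : v ∈ U Γ ↔ ∃ m, (v, m) ∈ Γ :=
  ⟨fun ⟨⟨_, m⟩, h, rfl⟩ => ⟨m, h⟩, fun ⟨m, h⟩ => ⟨(v, m), h, rfl⟩⟩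

/-- the partial map transported from the shift -/
def β (Γ : Submodule D (V × M D ι)) (v x : V) : Prop := ∃ m, (v, m) ∈ Γ ∧ (x, t D ι m) ∈ Γ

/-- invariants of a partial identification with the free module -/
structure Str (Γ : Submodule D (V × M D ι)) : Prop where
  inj : ∀ v m, (v, m) ∈ Γ → (v = 0 ↔ m = 0)
  fr : ∀ m ∈ P Γ, t D ι m ∈ Q (P Γ) → t D ι m ∈ P Γ
  idx : ∀ j, Finsupp.single (j, 0) 1 ∈ P Γ ∨ P Γ ≤ K j

theorem inj_add {Γ : Submodule D (V × M D ι)} (h : Str Γ) {x : V} {y : M D ι} (hx : x ∉ U Γ)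
    (hy : y ∉ P Γ) : ∀ v m, (v, m) ∈ Γ ⊔ D ∙ (x, y) → (v = 0 ↔ m = 0) := by
  intro v m hm
  obtain ⟨a, ha⟩ := mem_add.1 hm
  by_cases ha0 : a = 0
  · rw [ha0, zero_smul, sub_zero] at ha
    exact h.inj v m ha
  have := Γ.smul_mem (-a⁻¹) ha
  constructor
  · rintro rfl
    exact absurd ⟨_, this, by simp [smul_smul, inv_mul_cancel₀ ha0]⟩ hx
  · rintro rfl
    exact absurd ⟨_, this, by simp [smul_smul, inv_mul_cancel₀ ha0]⟩ hy

theorem P_add (Γ : Submodule D (V × M D ι)) (x : V) (y : M D ι) :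
    P (Γ ⊔ D ∙ (x, y)) = P Γ ⊔ D ∙ y := by
  rw [P, Submodule.map_sup, Submodule.map_span, Set.image_singleton]; rfl

theorem idx_add {Γ : Submodule D (V × M D ι)} (h : Str Γ) (x : V) {y : M D ι} (j : ι)
    (hy : P Γ ≤ K j → y ∈ K j) :
    Finsupp.single (j, 0) 1 ∈ P (Γ ⊔ D ∙ (x, y)) ∨ P (Γ ⊔ D ∙ (x, y)) ≤ K j := by
  rw [P_add]
  exact (h.idx j).imp (fun h => Submodule.mem_sup_left h) fun h =>
    sup_le h ((Submodule.span_singleton_le_iff_mem _ _).2 (hy h))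

theorem cancel {W : Type} [AddCommGroup W] [Module D W] {R : Submodule D W} {y : W} {a : D}
    (h : a • y ∈ R) (hy : y ∉ R) : a = 0 := by
  by_contra ha
  exact hy ((R.smul_mem_iff ha).1 h)

theorem gen {Γ : Submodule D (V × M D ι)} (h : Str Γ) {x : V} (hx : x ∉ U Γ) {j : ι}
    (hj : Finsupp.single (j, 0) 1 ∉ P Γ) :
    Str (Γ ⊔ D ∙ (x, Finsupp.single (j, 0) 1)) ∧
      ∀ v y, β (Γ ⊔ D ∙ (x, Finsupp.single (j, 0) 1)) v y ↔ β Γ v y := by
  have hK := (h.idx j).resolve_left hj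
  have hQ : Q (P Γ) ≤ K j := Q_le hK fun m hm n => hm _
  have key : ∀ (m : M D ι) (a : D), m - a • Finsupp.single (j, 0) 1 ∈ P Γ →
      t D ι m ∈ Q (P Γ) ⊔ N j → m ∈ P Γ ∧ t D ι m ∈ P Γ := by
    intro m a hm ht
    obtain ⟨q, hq, y, hy, e⟩ := Submodule.mem_sup.1 ht
    have h1 : m (j, 0) = 0 := by
      have := congrArg (fun f : M D ι => f (j, 1)) e
      simp only [Finsupp.add_apply, t_apply, sub_self] at this
      rw [← this, hQ hq, hy j 1 (Or.inr one_pos), add_zero]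
    have h2 : a = 0 := by
      have := hK hm 0
      simpa [h1] using this
    rw [h2, zero_smul, sub_zero] at hm
    have h3 : y = 0 := by
      ext ⟨i, n⟩
      by_cases hi : i = j
      · subst hi
        have := congrArg (fun f : M D ι => f (i, n)) e
        simp only [Finsupp.add_apply, t_apply] at this
        rwa [hQ hq, hK hm, zero_add] at this
      · exact hy i n (Or.inl hi)
    rw [h3, add_zero] at e
    exact ⟨hm, h.fr m hm (e ▸ hq)⟩
  have hN : Finsupp.single (j, 0) 1 ∈ (N j : Submodule D (M D ι)) := by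
    intro i n hin
    rw [Finsupp.single_eq_of_ne]
    intro e
    obtain ⟨rfl, rfl⟩ := Prod.mk.inj e
    simp at hin
  have hle : Q (P Γ ⊔ D ∙ Finsupp.single (j, 0) 1) ≤ Q (P Γ) ⊔ N j := by
    refine Q_le (sup_le_sup (le_Q _) ((Submodule.span_singleton_le_iff_mem _ _).2 hN)) ?_
    intro m hm
    obtain ⟨q, hq, y, hy, rfl⟩ := Submodule.mem_sup.1 hm
    rw [map_add]
    refine Submodule.add_mem_sup (Q_symm hq) fun i n hin => hy i (n + 1) ?_
    exact hin.imp id fun h => by omega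
  refine ⟨⟨inj_add h hx hj, ?_, fun i => ?_⟩, fun v y => ⟨?_, ?_⟩⟩
  · rw [P_add]
    intro m hm ht
    obtain ⟨a, ha⟩ := mem_add.1 hm
    exact Submodule.mem_sup_left (key m a ha (hle ht)).2
  · by_cases hi : i = j
    · left
      rw [P_add, hi]
      exact Submodule.mem_sup_right (Submodule.mem_span_singleton_self _)
    · refine idx_add h x i fun _ n => Finsupp.single_eq_of_ne fun e => hi (Prod.mk.inj e).1
  · rintro ⟨m, h1, h2⟩
    obtain ⟨a, ha⟩ := mem_add.1 h1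
    obtain ⟨b, hb⟩ := mem_add.1 h2
    have := key m a ⟨_, ha, rfl⟩ (hle (le_Q _ (P_add Γ x _ ▸ mem_P.2 ⟨_, h2⟩)))
    have ha0 : a = 0 := cancel (by simpa using sub_mem this.1 (mem_P.2 ⟨_, ha⟩)) hj
    have hb0 : b = 0 := cancel (by simpa using sub_mem this.2 (mem_P.2 ⟨_, hb⟩)) hj
    rw [ha0, zero_smul, sub_zero] at ha
    rw [hb0, zero_smul, sub_zero] at hb
    exact ⟨m, ha, hb⟩
  · rintro ⟨m, h1, h2⟩
    exact ⟨m, Submodule.mem_sup_left h1, Submodule.mem_sup_left h2⟩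

theorem β_add {Γ : Submodule D (V × M D ι)} {v x : V} {m : M D ι} {z : V × M D ι}
    (h1 : (v, m) ∈ Γ ⊔ D ∙ z) (h2 : (x, t D ι m) ∈ Γ ⊔ D ∙ z) {u y : V} {a : D}
    (h : β Γ (u - a • v) (y - a • x)) : β (Γ ⊔ D ∙ z) u y := by
  obtain ⟨m', h3, h4⟩ := h
  refine ⟨m' + a • m, ?_, ?_⟩
  · simpa using add_mem (Submodule.mem_sup_left h3) (Submodule.smul_mem _ a h1)
  · simpa using add_mem (Submodule.mem_sup_left h4) (Submodule.smul_mem _ a h2)

theorem fwd {Γ : Submodule D (V × M D ι)} (h : Str Γ) {v x : V} {m : M D ι} (hv : (v, m) ∈ Γ)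
    (hd : ∀ y, ¬ β Γ v y) (hx : x ∉ U Γ) :
    Str (Γ ⊔ D ∙ (x, t D ι m)) ∧
      ∀ u y, β (Γ ⊔ D ∙ (x, t D ι m)) u y ↔ ∃ a : D, β Γ (u - a • v) (y - a • x) := by
  have hm : m ∈ P Γ := mem_P.2 ⟨v, hv⟩
  have hP : t D ι m ∉ P Γ := fun h' => by
    obtain ⟨y, hy⟩ := mem_P.1 h'
    exact hd y ⟨m, hv, hy⟩
  have hQ : t D ι m ∉ Q (P Γ) := fun h' => hP (h.fr m hm h')
  have key : ∀ (q : M D ι) (a b : D), q - a • t D ι m ∈ P Γ →
      t D ι q - b • t D ι m ∈ Q (P Γ) → a = 0 := by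
    intro q a b h1 h2
    refine cancel ?_ hQ
    have h3 := Q_symm h2
    rw [map_sub, map_smul, LinearEquiv.symm_apply_apply, LinearEquiv.symm_apply_apply] at h3
    have := sub_mem (add_mem h3 (le_Q _ (Submodule.smul_mem _ b hm))) (le_Q _ h1)
    simpa using this
  have hle : Q (P Γ ⊔ D ∙ t D ι m) ≤ Q (P Γ) ⊔ D ∙ t D ι m := by
    refine Q_le (sup_le_sup_right (le_Q _) _) fun q hq => ?_
    obtain ⟨a, ha⟩ := mem_add.1 hq
    have h3 := Q_symm ha
    rw [map_sub, map_smul, LinearEquiv.symm_apply_apply] at h3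
    have := add_mem h3 (le_Q _ (Submodule.smul_mem _ a hm))
    exact Submodule.mem_sup_left (by simpa using this)
  refine ⟨⟨inj_add h hx hP, ?_, fun j => idx_add h x j fun hK n => hK hm _⟩, fun u y => ⟨?_, ?_⟩⟩
  · rw [P_add]
    intro q hq ht
    obtain ⟨a, ha⟩ := mem_add.1 hq
    obtain ⟨b, hb⟩ := mem_add.1 (hle ht)
    rw [key q a b ha hb, zero_smul, sub_zero] at ha
    refine mem_add.2 ⟨b, ?_⟩
    rw [← map_smul, ← map_sub] at hb ⊢
    exact h.fr _ (sub_mem ha (Submodule.smul_mem _ b hm)) hb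
  · rintro ⟨q, h1, h2⟩
    obtain ⟨a, ha⟩ := mem_add.1 h1
    obtain ⟨b, hb⟩ := mem_add.1 h2
    rw [key q a b ⟨_, ha, rfl⟩ (le_Q _ ⟨_, hb, rfl⟩), zero_smul, sub_zero] at ha
    refine ⟨b, q - b • m, ?_, ?_⟩
    · simpa using sub_mem ha (Submodule.smul_mem _ b hv)
    · simpa using hb
  · rintro ⟨a, ha⟩
    exact β_add (Submodule.mem_sup_left hv)
      (Submodule.mem_sup_right (Submodule.mem_span_singleton_self _)) ha

theorem bwd {Γ : Submodule D (V × M D ι)} (h : Str Γ) {v x : V} {m : M D ι}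
    (hv : (x, t D ι m) ∈ Γ) (hd : ∀ y, ¬ β Γ y x) (hx : v ∉ U Γ) :
    Str (Γ ⊔ D ∙ (v, m)) ∧
      ∀ u y, β (Γ ⊔ D ∙ (v, m)) u y ↔ ∃ a : D, β Γ (u - a • v) (y - a • x) := by
  have hm : t D ι m ∈ P Γ := mem_P.2 ⟨x, hv⟩
  have hP : m ∉ P Γ := fun h' => by
    obtain ⟨y, hy⟩ := mem_P.1 h'
    exact hd y ⟨m, hy, hv⟩
  have hmQ : m ∈ Q (P Γ) := by simpa using Q_symm (le_Q _ hm)
  have hle : Q (P Γ ⊔ D ∙ m) ≤ Q (P Γ) :=
    Q_le (sup_le (le_Q _) ((Submodule.span_singleton_le_iff_mem _ _).2 hmQ)) fun _ => Q_symm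
  have key : ∀ (q : M D ι) (a : D), q - a • m ∈ P Γ → t D ι q ∈ Q (P Γ) → t D ι q ∈ P Γ := by
    intro q a h1 h2
    have := h.fr _ h1 (by
      rw [map_sub, map_smul]
      exact sub_mem h2 (Submodule.smul_mem _ a (le_Q _ hm)))
    rw [map_sub, map_smul] at this
    simpa using add_mem this (Submodule.smul_mem _ a hm)
  refine ⟨⟨inj_add h hx hP, ?_, fun j => idx_add h v j fun hK n => ?_⟩, fun u y => ⟨?_, ?_⟩⟩
  · rw [P_add]
    intro q hq ht
    obtain ⟨a, ha⟩ := mem_add.1 hq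
    exact Submodule.mem_sup_left (key q a ha (hle ht))
  · have := hK hm (n + 1)
    rwa [t_apply, add_sub_cancel_right] at this
  · rintro ⟨q, h1, h2⟩
    obtain ⟨a, ha⟩ := mem_add.1 h1
    obtain ⟨b, hb⟩ := mem_add.1 h2
    have := key q a ⟨_, ha, rfl⟩ (hle (le_Q _ (P_add Γ v _ ▸ mem_P.2 ⟨_, h2⟩)))
    have hb0 : b = 0 := cancel (by simpa using sub_mem this (mem_P.2 ⟨_, hb⟩)) hP
    rw [hb0, zero_smul, sub_zero] at hb
    refine ⟨a, q - a • m, ?_, ?_⟩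
    · simpa using ha
    · simpa using sub_mem hb (Submodule.smul_mem _ a hv)
  · rintro ⟨a, ha⟩
    exact β_add (Submodule.mem_sup_right (Submodule.mem_span_singleton_self _))
      (Submodule.mem_sup_left hv) ha

theorem str_bot : Str (⊥ : Submodule D (V × M D ι)) := by
  refine ⟨fun v m h => ?_, fun m hm _ => ?_, fun j => Or.inr (by simp)⟩
  · obtain ⟨rfl, rfl⟩ := Prod.mk.inj (Submodule.mem_bot _ |>.1 h)
    exact ⟨fun _ => rfl, fun _ => rfl⟩
  · rw [P, Submodule.map_bot, Submodule.mem_bot] at hm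
    rw [hm, map_zero]
    exact zero_mem _

theorem β_sup {J : Type} [Nonempty J] {Γ : J → Submodule D (V × M D ι)}
    (hd : Directed (· ≤ ·) Γ) (v x : V) : β (⨆ j, Γ j) v x ↔ ∃ j, β (Γ j) v x := by
  constructor
  · rintro ⟨m, h1, h2⟩
    obtain ⟨i, hi⟩ := (Submodule.mem_iSup_of_directed _ hd).1 h1
    obtain ⟨j, hj⟩ := (Submodule.mem_iSup_of_directed _ hd).1 h2
    obtain ⟨k, hik, hjk⟩ := hd i j
    exact ⟨k, m, hik hi, hjk hj⟩
  · rintro ⟨j, m, h1, h2⟩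
    exact ⟨m, le_iSup Γ j h1, le_iSup Γ j h2⟩

theorem str_sup {J : Type} [Nonempty J] {Γ : J → Submodule D (V × M D ι)}
    (hd : Directed (· ≤ ·) Γ) (h : ∀ j, Str (Γ j)) : Str (⨆ j, Γ j) := by
  have hdP : Directed (· ≤ ·) fun j => P (Γ j) := hd.mono_comp _ fun _ _ h => Submodule.map_mono h
  have hdQ : Directed (· ≤ ·) fun j => Q (P (Γ j)) := hdP.mono_comp (g := Q) _ fun _ _ h => Q_mono h
  have e : P (⨆ j, Γ j) = ⨆ j, P (Γ j) := Submodule.map_iSup _ _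
  refine ⟨fun v m hm => ?_, ?_, fun i => ?_⟩
  · obtain ⟨i, hi⟩ := (Submodule.mem_iSup_of_directed _ hd).1 hm
    exact (h i).inj v m hi
  · rw [e]
    intro m hm ht
    have : Q (⨆ j, P (Γ j)) ≤ ⨆ j, Q (P (Γ j)) := Q_le (iSup_mono fun j => le_Q _) fun q hq => by
      obtain ⟨i, hi⟩ := (Submodule.mem_iSup_of_directed _ hdQ).1 hq
      exact le_iSup (fun j => Q (P (Γ j))) i (Q_symm hi)
    obtain ⟨i, hi⟩ := (Submodule.mem_iSup_of_directed _ hdP).1 hm
    obtain ⟨j, hj⟩ := (Submodule.mem_iSup_of_directed _ hdQ).1 (this ht)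
    obtain ⟨k, hik, hjk⟩ := hdP i j
    exact le_iSup (fun j => P (Γ j)) k ((h k).fr m (hik hi) (Q_mono hjk hj))
  · rw [e]
    by_cases hi : ∃ j, Finsupp.single (i, 0) 1 ∈ P (Γ j)
    · obtain ⟨j, hj⟩ := hi
      exact Or.inl (le_iSup (fun j => P (Γ j)) j hj)
    · push Not at hi
      exact Or.inr (iSup_le fun j => ((h j).idx i).resolve_left (hi j))

theorem final {Γ : Submodule D (V × M D ι)} (h : Str Γ) (h1 : ∀ v, ∃ x, β Γ v x)
    (h2 : ∀ x, ∃ v, β Γ v x) (h3 : ∀ j, Finsupp.single (j, 0) 1 ∈ P Γ) :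
    ∃ Φ : V ≃ₗ[D] M D ι, ∀ v x, β Γ v x → Φ x = t D ι (Φ v) := by
  have uniq : ∀ v m m', (v, m) ∈ Γ → (v, m') ∈ Γ → m = m' := fun v m m' a b =>
    sub_eq_zero.1 ((h.inj _ _ (sub_mem a b)).1 (sub_self v))
  have top : ∀ m, m ∈ P Γ := by
    have up : ∀ m ∈ P Γ, t D ι m ∈ P Γ := by
      intro m hm
      obtain ⟨v, hv⟩ := mem_P.1 hm
      obtain ⟨x, m', a, b⟩ := h1 v
      rw [uniq v m m' hv a]
      exact mem_P.2 ⟨x, b⟩
    have down : ∀ m, t D ι m ∈ P Γ → m ∈ P Γ := by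
      intro m hm
      obtain ⟨x, hx⟩ := mem_P.1 hm
      obtain ⟨v, m', a, b⟩ := h2 x
      rw [(t D ι).injective (uniq x _ _ hx b)]
      exact mem_P.2 ⟨v, a⟩
    have sing : ∀ j (n : ℤ), Finsupp.single (j, n) 1 ∈ P Γ := by
      intro j n
      induction n with
      | zero => exact h3 j
      | succ n ih => rw [← t_single]; exact up _ ih
      | pred n ih =>
        apply down
        rwa [t_single, sub_add_cancel]
    intro m
    induction m using Finsupp.induction_linear with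
    | zero => exact zero_mem _
    | add f g hf hg => exact add_mem hf hg
    | single p a =>
      have := Submodule.smul_mem _ a (sing p.1 p.2)
      simpa using this
  obtain ⟨Φ, hΦ⟩ := Submodule.exists_equiv_eq_graph (G := Γ) ⟨by
      rintro ⟨⟨v, m⟩, a⟩ ⟨⟨v', m'⟩, b⟩ (e : v = v')
      subst e
      exact Subtype.ext (Prod.ext rfl (uniq v m m' a b)), fun v => by
      obtain ⟨x, m, a, -⟩ := h1 v
      exact ⟨⟨_, a⟩, rfl⟩⟩ ⟨by
      rintro ⟨⟨v, m⟩, a⟩ ⟨⟨v', m'⟩, b⟩ (e : m = m')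
      subst e
      exact Subtype.ext (Prod.ext (sub_eq_zero.1 ((h.inj _ _ (sub_mem a b)).2 (sub_self m))) rfl),
      fun m => by
      obtain ⟨v, a⟩ := mem_P.1 (top m)
      exact ⟨⟨_, a⟩, rfl⟩⟩
  refine ⟨Φ, ?_⟩
  rintro v x ⟨m, a, b⟩
  rw [hΦ, LinearMap.mem_graph_iff] at a b
  exact b.symm.trans (congrArg (t D ι) a)

end Pool.Agent.H71.GLComm
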