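import Mathlib
import Pool.Agent.H71.GLComm

set_option autoImplicit false

namespace Pool.Agent.H71.GLComm

open Cardinal

variable {D : Type} [DivisionRing D] {V : Type} [AddCommGroup V] [Module D V] {ι : Type}

/-- finite extension -/
def FE {W : Type} [AddCommGroup W] [Module D W] (A B : Submodule D W) : Prop :=
  ∃ F : Set W, F.Finite ∧ B = A ⊔ Submodule.span D F

section
variable {W : Type} [AddCommGroup W] [Module D W]

theorem FE.refl (A : Submodule D W) : FE A A := ⟨∅, Set.finite_empty, by simp⟩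
theorem FE.one (A : Submodule D W) (y : W) : FE A (A ⊔ D ∙ y) := ⟨{y}, Set.finite_singleton _, rfl⟩
theorem FE.le {A B : Submodule D W} (h : FE A B) : A ≤ B := by
  obtain ⟨F, -, rfl⟩ := h
  exact le_sup_left
theorem FE.trans {A B C : Submodule D W} (h : FE A B) (h' : FE B C) : FE A C := by
  obtain ⟨F, hF, rfl⟩ := h
  obtain ⟨F', hF', rfl⟩ := h'
  exact ⟨F ∪ F', hF.union hF', by rw [Submodule.span_union, sup_assoc]⟩
theorem FE.small [Infinite ι] {A B : Submodule D W} (h : FE A B) (hA : Module.rank D A < #ι) :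
    Module.rank D B < #ι := by
  obtain ⟨F, hF, rfl⟩ := h
  refine (Submodule.rank_add_le_rank_add_rank _ _).trans_lt
    (add_lt_of_lt (aleph0_le_mk ι) hA ((rank_span_le _).trans_lt ?_))
  exact hF.lt_aleph0.trans_le (aleph0_le_mk ι)

theorem two_sub (A B : Submodule D W) (hA : ∃ x, x ∉ A) (hB : ∃ x, x ∉ B) : ∃ x, x ∉ A ∧ x ∉ B := by
  obtain ⟨x, hx⟩ := hA
  obtain ⟨y, hy⟩ := hB
  by_cases h1 : x ∈ B
  · by_cases h2 : y ∈ A
    · exact ⟨x + y, fun h => hx (by simpa using sub_mem h h2),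
        fun h => hy (by simpa using sub_mem h h1)⟩
    · exact ⟨y, h2, hy⟩
  · exact ⟨x, hx, h1⟩

end

theorem β_mono {Γ Γ' : Submodule D (V × M D ι)} (h : Γ ≤ Γ') {v x : V} (hb : β Γ v x) :
    β Γ' v x := by
  obtain ⟨m, a, b⟩ := hb
  exact ⟨m, h a, h b⟩

section
variable [Infinite ι] (hV : Module.rank D V = #ι)
include hV

theorem fresh_V {Γ : Submodule D (V × M D ι)} (h : Module.rank D Γ < #ι) : ∃ x, x ∉ U Γ := by
  by_contra hx
  push Not at hx
  have : U Γ = ⊤ := eq_top_iff.2 fun x _ => hx x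
  have h2 := (rank_map_le (LinearMap.fst D V (M D ι)) Γ).trans_lt h
  rw [show Γ.map (LinearMap.fst D V (M D ι)) = ⊤ from this, rank_top, hV] at h2
  exact lt_irrefl _ h2

omit hV in
theorem fresh_j {Γ : Submodule D (V × M D ι)} (h : Module.rank D Γ < #ι) :
    ∃ j, Finsupp.single (j, 0) 1 ∉ P Γ := by
  by_contra hx
  push Not at hx
  have h2 := (rank_map_le (LinearMap.snd D V (M D ι)) Γ).trans_lt h
  have h3 : LinearIndependent D fun j : ι => (Finsupp.single (j, 0) 1 : M D ι) :=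
    (Finsupp.linearIndependent_single_one D (ι × ℤ)).comp (fun j : ι => (j, (0 : ℤ)))
      fun a b e => (Prod.mk.inj e).1
  have h4 : LinearIndependent D fun j : ι => (⟨_, hx j⟩ : P Γ) :=
    LinearIndependent.of_comp (P Γ).subtype h3
  exact (h4.cardinal_le_rank.trans_lt h2).false

omit hV in
theorem ensU {Γ : Submodule D (V × M D ι)} (h : Str Γ) (hs : Module.rank D Γ < #ι) (v : V) :
    ∃ Γ', FE Γ Γ' ∧ Str Γ' ∧ (∀ u y, β Γ' u y ↔ β Γ u y) ∧ v ∈ U Γ' := by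
  by_cases hv : v ∈ U Γ
  · exact ⟨Γ, FE.refl _, h, fun _ _ => Iff.rfl, hv⟩
  obtain ⟨j, hj⟩ := fresh_j hs
  exact ⟨_, FE.one _ _, (gen h hv hj).1, (gen h hv hj).2,
    mem_U.2 ⟨_, Submodule.mem_sup_right (Submodule.mem_span_singleton_self _)⟩⟩

theorem ensP {Γ : Submodule D (V × M D ι)} (h : Str Γ) (hs : Module.rank D Γ < #ι) (j : ι) :
    ∃ Γ', FE Γ Γ' ∧ Str Γ' ∧ (∀ u y, β Γ' u y ↔ β Γ u y) ∧ Finsupp.single (j, 0) 1 ∈ P Γ' := by
  by_cases hj : Finsupp.single (j, 0) 1 ∈ P Γ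
  · exact ⟨Γ, FE.refl _, h, fun _ _ => Iff.rfl, hj⟩
  obtain ⟨v, hv⟩ := fresh_V hV hs
  exact ⟨_, FE.one _ _, (gen h hv hj).1, (gen h hv hj).2,
    mem_P.2 ⟨_, Submodule.mem_sup_right (Submodule.mem_span_singleton_self _)⟩⟩

omit hV [Infinite ι] in
/-- joint invariant -/
def Inv (g : V ≃ₗ[D] V) (A B : Submodule D (V × M D ι)) : Prop :=
  Str A ∧ Str B ∧ ∀ v x, β A v x ↔ β B v (g x)

omit hV [Infinite ι] in
theorem β_zero (A : Submodule D (V × M D ι)) : β A 0 0 := ⟨0, zero_mem _, by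
  rw [map_zero]; exact zero_mem _⟩

theorem ensF (g : V ≃ₗ[D] V) {A B : Submodule D (V × M D ι)} (h : Inv g A B)
    (hA : Module.rank D A < #ι) (hB : Module.rank D B < #ι) (v : V) :
    ∃ A' B', FE A A' ∧ FE B B' ∧ Inv g A' B' ∧ ∃ x, β A' v x := by
  obtain ⟨A1, fA, sA, bA, vA⟩ := ensU h.1 hA v
  obtain ⟨B1, fB, sB, bB, vB⟩ := ensU h.2.1 hB v
  have l : ∀ v x, β A1 v x ↔ β B1 v (g x) := fun v x => by rw [bA, bB, h.2.2]
  by_cases hd : ∃ x, β A1 v x
  · exact ⟨A1, B1, fA, fB, ⟨sA, sB, l⟩, hd⟩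
  push Not at hd
  obtain ⟨x, hx1, hx2⟩ := two_sub (U A1) ((U B1).comap g.toLinearMap)
    (fresh_V hV (fA.small hA)) (by
      obtain ⟨y, hy⟩ := fresh_V hV (fB.small hB)
      exact ⟨g.symm y, by simpa using hy⟩)
  obtain ⟨m, hm⟩ := mem_U.1 vA
  obtain ⟨m', hm'⟩ := mem_U.1 vB
  obtain ⟨s1, b1⟩ := fwd sA hm hd hx1
  obtain ⟨s2, b2⟩ := fwd (x := g x) sB hm' (fun y hy => hd (g.symm y) (by
    rwa [l, LinearEquiv.apply_symm_apply])) hx2
  refine ⟨_, _, fA.trans (FE.one _ _), fB.trans (FE.one _ _), ⟨s1, s2, fun u y => ?_⟩, x, ?_⟩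
  · simp only [b1, b2, l, map_sub, map_smul]
  · rw [b1]
    exact ⟨1, by simpa using β_zero A1⟩

theorem ensB (g : V ≃ₗ[D] V) {A B : Submodule D (V × M D ι)} (h : Inv g A B)
    (hA : Module.rank D A < #ι) (hB : Module.rank D B < #ι) (x : V) :
    ∃ A' B', FE A A' ∧ FE B B' ∧ Inv g A' B' ∧ ∃ v, β A' v x := by
  obtain ⟨A1, fA, sA, bA, vA⟩ := ensU h.1 hA x
  obtain ⟨B1, fB, sB, bB, vB⟩ := ensU h.2.1 hB (g x)
  have l : ∀ v x, β A1 v x ↔ β B1 v (g x) := fun v x => by rw [bA, bB, h.2.2]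
  by_cases hd : ∃ v, β A1 v x
  · exact ⟨A1, B1, fA, fB, ⟨sA, sB, l⟩, hd⟩
  push Not at hd
  obtain ⟨v, hx1, hx2⟩ := two_sub (U A1) (U B1)
    (fresh_V hV (fA.small hA)) (fresh_V hV (fB.small hB))
  obtain ⟨m, hm⟩ := mem_U.1 vA
  obtain ⟨m', hm'⟩ := mem_U.1 vB
  rw [← (t D ι).apply_symm_apply m] at hm
  rw [← (t D ι).apply_symm_apply m'] at hm'
  obtain ⟨s1, b1⟩ := bwd sA hm hd hx1
  obtain ⟨s2, b2⟩ := bwd sB hm' (fun y hy => hd y ((l _ _).2 hy)) hx2
  refine ⟨_, _, fA.trans (FE.one _ _), fB.trans (FE.one _ _), ⟨s1, s2, fun u y => ?_⟩, v, ?_⟩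
  · simp only [b1, b2, l, map_sub, map_smul]
  · rw [b1]
    exact ⟨1, by simpa using β_zero A1⟩

theorem ensAll (g : V ≃ₗ[D] V) {A B : Submodule D (V × M D ι)} (h : Inv g A B)
    (hA : Module.rank D A < #ι) (hB : Module.rank D B < #ι) (v : V) (j : ι) :
    ∃ A' B', FE A A' ∧ FE B B' ∧ Inv g A' B' ∧ (∃ x, β A' v x) ∧ (∃ x, β A' x v) ∧
      Finsupp.single (j, 0) 1 ∈ P A' ∧ Finsupp.single (j, 0) 1 ∈ P B' := by
  obtain ⟨A1, B1, a1, b1, i1, x, hx⟩ := ensF hV g h hA hB v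
  obtain ⟨A2, B2, a2, b2, i2, y, hy⟩ := ensB hV g i1 (a1.small hA) (b1.small hB) v
  obtain ⟨A3, a3, sA, bA, pA⟩ := ensP hV i2.1 ((a1.trans a2).small hA) j
  obtain ⟨B3, b3, sB, bB, pB⟩ := ensP hV i2.2.1 ((b1.trans b2).small hB) j
  exact ⟨A3, B3, (a1.trans a2).trans a3, (b1.trans b2).trans b3,
    ⟨sA, sB, fun v x => by rw [bA, bB, i2.2.2]⟩, ⟨x, β_mono (a2.trans a3).le hx⟩,
    ⟨y, β_mono a3.le hy⟩, pA, pB⟩

end

theorem main (hV : ¬ Module.Finite D V) (g : V ≃ₗ[D] V) :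
    ∃ a b : V ≃ₗ[D] V, ∀ v, g (b v) = a (b (a.symm v)) := by
  let bs := Module.Free.chooseBasis D V
  set ι := Module.Free.ChooseBasisIndex D V
  have : Infinite ι := by
    rw [← not_finite_iff_infinite]
    intro h
    exact hV (Module.Finite.of_basis bs)
  have hr : Module.rank D V = #ι := bs.mk_eq_rank''.symm
  let L : Set ((V × M D ι) ⊕ (V × M D ι)) → Submodule D (V × M D ι) :=
    fun s => Submodule.span D (Sum.inl ⁻¹' s)
  let R : Set ((V × M D ι) ⊕ (V × M D ι)) → Submodule D (V × M D ι) :=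
    fun s => Submodule.span D (Sum.inr ⁻¹' s)
  have mL : ∀ s s', s ⊆ s' → L s ≤ L s' := fun s s' h => Submodule.span_mono (Set.preimage_mono h)
  have mR : ∀ s s', s ⊆ s' → R s ≤ R s' := fun s s' h => Submodule.span_mono (Set.preimage_mono h)
  obtain ⟨s, ⟨sA, sB, l⟩, hT⟩ := trec (ι := ι) (fun s => Inv g (L s) (R s))
    (fun i s => (∃ x, β (L s) (bs i) x) ∧ (∃ x, β (L s) x (bs i)) ∧
      Finsupp.single (i, 0) 1 ∈ P (L s) ∧ Finsupp.single (i, 0) 1 ∈ P (R s))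
    (fun i s s' h ⟨⟨x, hx⟩, ⟨y, hy⟩, h3, h4⟩ => ⟨⟨x, β_mono (mL _ _ h) hx⟩,
      ⟨y, β_mono (mL _ _ h) hy⟩, Submodule.map_mono (mL _ _ h) h3,
      Submodule.map_mono (mR _ _ h) h4⟩)
    (by
      simp only [L, R, Set.preimage_empty, Submodule.span_empty]
      refine ⟨str_bot, str_bot, fun v x => ?_⟩
      simp [β, Prod.ext_iff])
    (fun J _ s hd hs => by
      have dL : Directed (· ≤ ·) fun j => L (s j) := hd.mono_comp (g := L) _ fun _ _ h => mL _ _ h
      have dR : Directed (· ≤ ·) fun j => R (s j) := hd.mono_comp (g := R) _ fun _ _ h => mR _ _ h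
      have eL : L (⋃ j, s j) = ⨆ j, L (s j) := by
        simp only [L, Set.preimage_iUnion, Submodule.span_iUnion]
      have eR : R (⋃ j, s j) = ⨆ j, R (s j) := by
        simp only [R, Set.preimage_iUnion, Submodule.span_iUnion]
      rw [eL, eR]
      refine ⟨str_sup dL fun j => (hs j).1, str_sup dR fun j => (hs j).2.1, fun v x => ?_⟩
      rw [β_sup dL, β_sup dR]
      exact exists_congr fun j => (hs j).2.2 v x)
    (fun s hs hc i => by
      obtain ⟨A', B', ⟨F, hF, eA⟩, ⟨F', hF', eB⟩, h⟩ := ensAll hr g hs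
        ((rank_span_le _).trans_lt ((mk_preimage_of_injective _ _ Sum.inl_injective).trans_lt hc))
        ((rank_span_le _).trans_lt ((mk_preimage_of_injective _ _ Sum.inr_injective).trans_lt hc))
        (bs i) i
      have e1 : L (s ∪ (Sum.inl '' F ∪ Sum.inr '' F')) = A' := by
        rw [eA]
        simp only [L, Set.preimage_union, Submodule.span_union, Set.preimage_inl_image_inr,
          Set.preimage_image_eq _ Sum.inl_injective, Submodule.span_empty, sup_bot_eq]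
      have e2 : R (s ∪ (Sum.inl '' F ∪ Sum.inr '' F')) = B' := by
        rw [eB]
        simp only [R, Set.preimage_union, Submodule.span_union, Set.preimage_inr_image_inl,
          Set.preimage_image_eq _ Sum.inr_injective, Submodule.span_empty, bot_sup_eq]
      refine ⟨_, (hF.image Sum.inl).union (hF'.image Sum.inr), ?_⟩
      rw [e1, e2]
      exact h)
  have βadd : ∀ v x v' x', β (L s) v x → β (L s) v' x' → β (L s) (v + v') (x + x') := by
    rintro v x v' x' ⟨m, a, b⟩ ⟨m', a', b'⟩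
    exact ⟨m + m', add_mem a a', by rw [map_add]; exact add_mem b b'⟩
  have βsmul : ∀ (c : D) v x, β (L s) v x → β (L s) (c • v) (c • x) := by
    rintro c v x ⟨m, a, b⟩
    exact ⟨c • m, Submodule.smul_mem _ c a, by rw [map_smul]; exact Submodule.smul_mem _ c b⟩
  have h1 : ∀ v, ∃ x, β (L s) v x := by
    intro v
    have hv : v ∈ Submodule.span D (Set.range bs) := bs.span_eq ▸ Submodule.mem_top
    induction hv using Submodule.span_induction with
    | mem _ h => obtain ⟨i, rfl⟩ := h; exact (hT i).1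
    | zero => exact ⟨0, β_zero _⟩
    | add v v' _ _ h h' =>
      obtain ⟨x, h⟩ := h
      obtain ⟨x', h'⟩ := h'
      exact ⟨_, βadd _ _ _ _ h h'⟩
    | smul c v _ h =>
      obtain ⟨x, h⟩ := h
      exact ⟨_, βsmul c _ _ h⟩
  have h2 : ∀ v, ∃ x, β (L s) x v := by
    intro v
    have hv : v ∈ Submodule.span D (Set.range bs) := bs.span_eq ▸ Submodule.mem_top
    induction hv using Submodule.span_induction with
    | mem _ h => obtain ⟨i, rfl⟩ := h; exact (hT i).2.1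
    | zero => exact ⟨0, β_zero _⟩
    | add v v' _ _ h h' =>
      obtain ⟨x, h⟩ := h
      obtain ⟨x', h'⟩ := h'
      exact ⟨_, βadd _ _ _ _ h h'⟩
    | smul c v _ h =>
      obtain ⟨x, h⟩ := h
      exact ⟨_, βsmul c _ _ h⟩
  obtain ⟨Φ, hΦ⟩ := final sA h1 h2 fun j => (hT j).2.2.1
  obtain ⟨Ψ, hΨ⟩ := final sB (fun v => (h1 v).elim fun x h => ⟨_, (l _ _).1 h⟩)
    (fun x => (h2 (g.symm x)).elim fun v h => ⟨v, by simpa using (l _ _).1 h⟩)
    fun j => (hT j).2.2.2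
  refine ⟨Φ.trans Ψ.symm, (Φ.trans (t D ι)).trans Φ.symm, fun v => ?_⟩
  obtain ⟨x, hx⟩ := h1 v
  simp only [LinearEquiv.trans_apply, LinearEquiv.symm_trans_apply, LinearEquiv.symm_symm,
    LinearEquiv.apply_symm_apply]
  rw [← hΦ v x hx, ← hΨ v _ ((l _ _).1 hx)]
  simp

end Pool.Agent.H71.GLComm
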