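import Mathlib
import Pool.Agent.H64.Golod
import Pool.Agent.H71.Con3

/-! Golod-Shafarevich in the filtered quotients; unitriangular groups are orderable; affine
extensions of Engel groups. -/

namespace Pool.Agent.H71.Gol

open Module Pool.Agent.H64.Golod Pool.Agent.H71.Con

section
variable {F : Type} [Field F] (r : ℕ → A F) (hr : ∀ k, r k ∈ J F (k + 2))

include hr in
lemma gs' (hf : ∀ m, FiniteDimensional F (A F ⧸ K r m)) (n : ℕ) :
    3 * c r (n + 1) ≤ c r (n + 2) + ∑ k ∈ Finset.range n, c r (n - k) := by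
  choose d hd1 hd2 using fun k => mem_J_succ.1 (hr k)
  have hK : ∀ (j : Fin 3) a, a ∈ K r (n + 1) → x F j * a ∈ K r (n + 2) := by
    intro j a ha
    obtain ⟨y, hy, z, hz, rfl⟩ := Submodule.mem_sup.1 ha
    rw [mul_add]
    exact Submodule.add_mem_sup (I_left r _ _ hy) (J_mul 1 (n + 1) _ _ (x_mem j) hz)
  let α : (Fin 3 → A F ⧸ K r (n + 1)) →ₗ[F] A F ⧸ K r (n + 2) :=
    ∑ j, ((K r (n + 1)).mapQ (K r (n + 2)) (LinearMap.mulLeft F (x F j)) (hK j)).comp
      (LinearMap.proj j)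
  have hα : ∀ u : Fin 3 → A F, α (fun j => (K r (n + 1)).mkQ (u j)) = (K r (n + 2)).mkQ (D F u) := by
    intro u
    simp [α, D_apply]
  have hK' : ∀ (k : Fin n) (j : Fin 3) a, a ∈ K r (n - k) → d k j * a ∈ K r (n + 1) := by
    intro k j a ha
    obtain ⟨y, hy, z, hz, rfl⟩ := Submodule.mem_sup.1 ha
    rw [mul_add]
    refine Submodule.add_mem_sup (I_left r _ _ hy) ?_
    have := J_mul _ _ _ _ (hd1 k j) hz
    rwa [show n - k + (k + 1) = n + 1 by omega] at this
  let β : ((k : Fin n) → A F ⧸ K r (n - k)) →ₗ[F] (Fin 3 → A F ⧸ K r (n + 1)) :=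
    ∑ k : Fin n, (LinearMap.pi fun j => (K r (n - k)).mapQ (K r (n + 1))
      (LinearMap.mulLeft F (d k j)) (hK' k j)).comp (LinearMap.proj k)
  let π : (Fin 3 → A F) →ₗ[F] (Fin 3 → A F ⧸ K r (n + 1)) :=
    LinearMap.pi fun j => (K r (n + 1)).mkQ.comp (LinearMap.proj j)
  let W : Submodule F (Fin 3 → A F) := (LinearMap.range β).comap π
  have hW0 : ∀ u : Fin 3 → A F, (∀ j, u j ∈ K r (n + 1)) → u ∈ W := by
    intro u hu
    have : π u = 0 := funext fun j => (Submodule.Quotient.mk_eq_zero _).2 (hu j)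
    show π u ∈ LinearMap.range β
    rw [this]; exact Submodule.zero_mem _
  have hJ : J F (n + 2) ≤ W.map (D F) := by
    intro a ha
    obtain ⟨u, hu, rfl⟩ := mem_J_succ.1 ha
    exact ⟨u, hW0 u fun j => Submodule.mem_sup_right (hu j), rfl⟩
  have hsub : K r (n + 2) ≤ W.map (D F) := by
    refine sup_le (Submodule.span_le.2 ?_) hJ
    rintro _ ⟨a, k, b, rfl⟩
    obtain ⟨e, v, rfl⟩ := decomp a
    rw [mul_assoc, add_mul, smul_mul_assoc, one_mul, D_mul]
    refine Submodule.add_mem _ (Submodule.smul_mem _ _ ?_) ⟨_, hW0 _ fun j =>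
      Submodule.mem_sup_left (Submodule.subset_span ⟨v j, k, b, (mul_assoc _ _ _).symm⟩), rfl⟩
    by_cases hk : k < n
    · refine ⟨fun j => d k j * b, ⟨Pi.single ⟨k, hk⟩ ((K r _).mkQ b), ?_⟩, by rw [← D_mul, hd2]⟩
      simp only [β, LinearMap.coe_sum, Finset.sum_apply]
      rw [Finset.sum_eq_single ⟨k, hk⟩]
      · funext j; simp [π]
      · intro i _ hi; simp [hi]
      · simp
    · exact hJ (J_right _ _ _ (J_anti' (by omega) (hr k)))
  have hker : LinearMap.ker α ≤ LinearMap.range β := by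
    intro y hy
    choose u hu using fun j => (K r (n + 1)).mkQ_surjective (y j)
    obtain rfl : y = fun j => (K r (n + 1)).mkQ (u j) := funext fun j => (hu j).symm
    rw [LinearMap.mem_ker, hα, Submodule.mkQ_apply, Submodule.Quotient.mk_eq_zero] at hy
    obtain ⟨w, hw, he⟩ := hsub hy
    rw [D_inj he] at hw
    exact hw
  have h1 := LinearMap.finrank_range_add_finrank_ker α
  have h2 := Submodule.finrank_le (LinearMap.range α)
  have h3 := Submodule.finrank_mono hker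
  have h4 := LinearMap.finrank_range_le β
  rw [Module.finrank_pi_fintype, Finset.sum_const, Finset.card_univ, Fintype.card_fin,
    smul_eq_mul] at h1
  rw [Module.finrank_pi_fintype] at h4
  rw [← Fin.sum_univ_eq_sum_range (fun k => c r (n - k))]
  unfold c
  omega

include hr in
theorem exists_ne_top (U : Submodule F (A F)) [FiniteDimensional F U] : ∃ n, K r n ⊔ U ≠ ⊤ := by
  by_contra h
  push Not at h
  have sj : ∀ n, Function.Surjective ((K r n).mkQ.comp U.subtype) := fun n y => by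
    obtain ⟨y, rfl⟩ := (K r n).mkQ_surjective y
    obtain ⟨a, ha, b, hb, rfl⟩ := Submodule.mem_sup.1 ((h n).ge trivial : y ∈ _)
    exact ⟨⟨b, hb⟩, by simp [(Submodule.Quotient.mk_eq_zero _).2 ha]⟩
  have hf : ∀ m, FiniteDimensional F (A F ⧸ K r m) := fun m => Module.Finite.of_surjective _ (sj m)
  have c1 : 1 ≤ c r 1 := by
    have : K r 1 ≠ ⊤ := fun h => one_not_mem (F := F) ((sup_le (Submodule.span_le.2 (by
      rintro _ ⟨a, k, b, rfl⟩
      exact J_right _ _ _ (J_left _ _ _ (J_anti' (by omega) (hr k))))) le_rfl : K r 1 ≤ J F 1)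
        (h.ge trivial))
    have := Submodule.Quotient.nontrivial_iff.2 this
    exact Module.finrank_pos
  have key : ∀ n, ∑ k ∈ Finset.range n, c r (n - k) ≤ c r (n + 1) ∧ n + 1 ≤ c r (n + 1) := by
    intro n
    induction n with
    | zero => exact ⟨by simp, c1⟩
    | succ n ih =>
      have := gs' r hr hf n
      rw [Finset.sum_range_succ']
      simp only [Nat.add_sub_add_right, Nat.sub_zero, add_assoc, Nat.reduceAdd]
      omega
  have h1 := (key (finrank F U)).2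
  have h2 : c r (finrank F U + 1) ≤ finrank F U := LinearMap.finrank_le_finrank_of_surjective (sj _)
  omega

end

theorem bi_unitri {S G : Type} [Ring S] [Algebra ℚ S] [Group G] (f : G →* S)
    (𝔞 : ℕ → Submodule ℚ S) (anti : Antitone 𝔞)
    (mul : ∀ m n, ∀ x ∈ 𝔞 m, ∀ y ∈ 𝔞 n, x * y ∈ 𝔞 (m + n)) (h1 : ∀ g, f g - 1 ∈ 𝔞 1)
    (sep : ∀ g, (∀ n, f g - 1 ∈ 𝔞 n) → g = 1) : Bi G := by
  have cj : ∀ n h g, f g - 1 ∈ 𝔞 n → f (h * g * h⁻¹) - f g ∈ 𝔞 (n + 1) := fun n h g hg => by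
    have a := mul _ _ _ (h1 h) _ hg
    have e : f h * f h⁻¹ = 1 := by rw [← map_mul]; simp
    convert add_mem (add_mem (add_comm 1 n ▸ a) (anti (by omega) (mul _ _ _ a _ (h1 h⁻¹))))
      (mul _ _ _ hg _ (h1 h⁻¹)) using 1
    rw [map_mul, map_mul]
    linear_combination (norm := noncomm_ring) e
  let Γ : ℕ → Subgroup G := fun n =>
    { carrier := {g | f g - 1 ∈ 𝔞 n}
      one_mem' := by simp
      mul_mem' := fun {a b} ha hb => by
        change f _ - 1 ∈ 𝔞 n
        convert add_mem (add_mem ha hb) (anti (by omega) (mul _ _ _ ha _ (h1 b))) using 1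
        rw [map_mul]; noncomm_ring
      inv_mem' := fun {a} ha => by
        have e : f a * f a⁻¹ = 1 := by rw [← map_mul]; simp
        change f _ - 1 ∈ 𝔞 n
        convert neg_mem (add_mem ha (anti (by omega) (mul _ _ _ ha _ (h1 a⁻¹)))) using 1
        linear_combination (norm := noncomm_ring) e }
  have inv : ∀ n, Inv ⊤ (Γ n) := fun n h _ g hg => by
    change f _ - 1 ∈ 𝔞 n
    simpa using add_mem (anti (by omega) (cj n h g hg)) hg
  refine glue (fun n => Γ (n + 1)) (fun n => Γ (n + 2)) (fun n => ?_) (fun i j => ?_)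
    (fun _ => bot_le) (fun _ => le_top) bot_le (fun x _ hx => ?_) inv_normal
  · obtain ⟨N, n1, n2⟩ := cone_of_map (inv (n + 1)) (bi_comm (Multiplicative (S ⧸ 𝔞 (n + 2)))
      fun g k hk e => by
        have : (k : ℚ) • g.toAdd = 0 := by rw [Nat.cast_smul_eq_nsmul]; exact e
        exact (smul_eq_zero.1 this).resolve_left (by exact_mod_cast hk))
      (fun g => Multiplicative.ofAdd ((𝔞 (n + 2)).mkQ (f g - 1))) (fun x hx y _ => by
        rw [← ofAdd_add, ← map_add]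
        refine congrArg _ ((Submodule.Quotient.eq _).2 ?_)
        convert mul _ _ _ hx _ (h1 y) using 1
        rw [map_mul]; noncomm_ring) fun h _ x hx => ⟨1, by
          rw [one_mul, inv_one, mul_one]
          exact congrArg _ ((Submodule.Quotient.eq _).2 (by simpa using cj _ h x hx))⟩
    convert n1
    ext x
    rw [n2]
    exact ⟨fun h => ⟨anti (by omega) h, (Submodule.Quotient.mk_eq_zero _).2 h⟩,
      fun h => (Submodule.Quotient.mk_eq_zero _).1 h.2⟩
  · rcases lt_trichotomy i j with c | rfl | c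
    exacts [.inr (.inr fun x hx => anti (by omega) hx), .inl ⟨rfl, rfl⟩,
      .inr (.inl fun x hx => anti (by omega) hx)]
  · classical
    have : ∃ n, x ∉ Γ (n + 2) := by
      by_contra c
      push Not at c
      exact hx (sep x fun n => anti (by omega) (c n))
    refine ⟨Nat.find this, ?_, Nat.find_spec this⟩
    rcases e : Nat.find this with _ | m
    · exact h1 x
    · exact not_not.1 (Nat.find_min this (m := m) (by omega))

/-- iterated commutator -/
def en {G : Type} [Group G] (y : G) (n : ℕ) (x : G) : G := (fun z : G => z⁻¹ * y⁻¹ * z * y)^[n] x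

theorem affine {Q B : Type} [Group Q] [AddCommGroup B] [Module ℚ B] (τ : Q →* End ℚ B)
    (Φ : ℕ → Submodule ℚ B) (mono : Monotone Φ) (z : Φ 0 = ⊥) (un : ∀ b, ∃ k, b ∈ Φ k)
    (tri : ∀ q k, ∀ b ∈ Φ (k + 1), τ q b - b ∈ Φ k) (nil : ∀ q, IsNilpotent (τ q - 1))
    (eng : ∀ x y, ∃ n, τ (en y n x) = 1) (a : Dual ℚ B) (ρ σ : List Q) (hρ : ρ ≠ []) (hσ : σ ≠ [])
    (pos : ∀ T : Set Q, T.Finite → ∃ b, ∀ q ∈ T, 0 < (ρ.map fun r => a (τ (r * q) b)).sum ∧
      (σ.map fun r => a (τ (r * q) b)).sum < 0) :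
    ∃ (G : Type) (_ : Group G), (∀ x y : G, ∃ n, en y n x = 1) ∧ Bi G ∧ ∃ P : Set G,
      (∀ a ∈ P, ∀ b ∈ P, a * b ∈ P) ∧ (∀ a ∈ P, ∀ g : G, g * a * g⁻¹ ∈ P) ∧ (1 : G) ∉ P ∧
      ∀ Q : Set G, P ⊆ Q → (∀ a ∈ Q, ∀ b ∈ Q, a * b ∈ Q) → (∀ a ∈ Q, ∀ g : G, g * a * g⁻¹ ∈ Q) →
        (∀ a : G, a ≠ 1 → a ∈ Q ∨ a⁻¹ ∈ Q) → (1 : G) ∈ Q := by
  let Rep : (End ℚ (B × ℚ))ˣ → Q → Dual ℚ B → Prop := fun g q v =>
    ∀ b t, g.1 (b, t) = (τ q b, t + v b)
  have tt : ∀ q b, τ q (τ q⁻¹ b) = b := fun q b => by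
    rw [← End.mul_apply, ← map_mul]; simp
  have rm : ∀ {g g' q q' v v'}, Rep g q v → Rep g' q' v' → Rep (g * g') (q * q') (v' + v ∘ₗ τ q') :=
    fun h h' b t => by simp [h' b t, h _ _, add_assoc]
  have ri : ∀ {g q v}, Rep g q v → Rep g⁻¹ q⁻¹ (-v ∘ₗ τ q⁻¹) := fun {g q v} h b t => by
    have : g.1 (τ q⁻¹ b, t + (-v ∘ₗ τ q⁻¹) b) = (b, t) := by rw [h, tt]; simp
    rw [← this, ← End.mul_apply, Units.inv_mul, End.one_apply]
  have r1 : ∀ {g q}, τ q = 1 → Rep g q 0 → g = 1 := fun e h =>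
    Units.ext (LinearMap.ext fun ⟨b, t⟩ => by simp [h b t, e])
  let G : Subgroup (End ℚ (B × ℚ))ˣ :=
    { carrier := {g | ∃ q v, Rep g q v}
      one_mem' := ⟨1, 0, fun b t => by simp⟩
      mul_mem' := fun ⟨_, _, h⟩ ⟨_, _, h'⟩ => ⟨_, _, rm h h'⟩
      inv_mem' := fun ⟨_, _, h⟩ => ⟨_, _, ri h⟩ }
  have ex : ∀ q v, ∃ g : G, Rep g q v := fun q v => by
    let m : Q → Dual ℚ B → End ℚ (B × ℚ) := fun q v =>
      (τ q ∘ₗ LinearMap.fst ℚ B ℚ).prod (LinearMap.snd ℚ B ℚ + v ∘ₗ LinearMap.fst ℚ B ℚ)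
    exact ⟨⟨⟨m q v, m q⁻¹ (-v ∘ₗ τ q⁻¹), LinearMap.ext fun ⟨b, t⟩ => by simp [m, tt],
      LinearMap.ext fun ⟨b, t⟩ => by simp [m]⟩,
      q, v, fun _ _ => rfl⟩, fun _ _ => rfl⟩
  have rc : ∀ {g h q v w}, Rep g 1 w → Rep h q v → Rep (h * g * h⁻¹) 1 (w ∘ₗ τ q⁻¹) :=
    fun hg hh b t => by simpa using rm (rm hh hg) (ri hh) b t
  let W := AddSubsemigroup.closure {w : Dual ℚ B | ∃ q, w = (ρ.map fun r => a ∘ₗ τ (r * q)).sum ∨
    w = -(σ.map fun r => a ∘ₗ τ (r * q)).sum}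
  have ev : ∀ (l : List Q) q b, (l.map fun r => a ∘ₗ τ (r * q)).sum b =
      (l.map fun r => a (τ (r * q) b)).sum := fun l q b => by induction l <;> simp_all
  refine ⟨G, inferInstance, fun x y => ?_, ?_, {g | ∃ w ∈ W, Rep g.1 1 w}, ?_, ?_, ?_, ?_⟩
  · obtain ⟨q, v, hx⟩ := x.2
    obtain ⟨q', v', hy⟩ := y.2
    obtain ⟨n, hn⟩ := eng q q'
    obtain ⟨m, hm⟩ := nil q'
    have a1 : ∀ n, ∃ w, Rep (en y n x).1 (en q' n q) w := fun n => by
      induction n with
      | zero => exact ⟨v, hx⟩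
      | succ n ih =>
        simp only [en, Function.iterate_succ_apply']
        exact ih.elim fun w h => ⟨_, rm (rm (rm (ri h) (ri hy)) h) hy⟩
    obtain ⟨w, hw⟩ := a1 n
    have a2 : ∀ m, Rep (en y (m + n) x).1 1 (w ∘ₗ (τ q' - 1) ^ m) := fun m => by
      induction m with
      | zero => simpa [Rep, hn] using hw
      | succ m ih =>
        simp only [en, Nat.succ_add, Function.iterate_succ_apply'] at ih ⊢
        have := rm (ri ih) (rc ih (ri hy))
        intro b t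
        simpa [mul_assoc, pow_succ, sub_eq_add_neg] using this b t
    exact ⟨m + n, Subtype.ext (r1 (map_one τ) (by simpa [hm] using a2 m))⟩
  · let Ψ : ℕ → Submodule ℚ (B × ℚ) := fun k => Nat.casesOn k ⊥ fun k => (Φ k).prod ⊤
    have mΨ : Monotone Ψ := monotone_nat_of_le_succ fun k => by
      cases k
      exacts [bot_le, Submodule.prod_mono (mono (by omega)) le_rfl]
    refine bi_unitri ((Units.coeHom _).comp G.subtype) (fun n =>
      { carrier := {f | ∀ k, ∀ x ∈ Ψ (k + n), f x ∈ Ψ k}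
        zero_mem' := fun _ _ _ => zero_mem _
        add_mem' := fun a b k x hx => add_mem (a k x hx) (b k x hx)
        smul_mem' := fun c _ a k x hx => Submodule.smul_mem _ c (a k x hx) })
      (fun m n h f hf k x hx => hf k x (mΨ (by omega) hx))
      (fun m n f hf g hg k x hx => hf k _ (hg _ x (add_assoc k m n ▸ hx))) ?_ fun g h => ?_
    · rintro ⟨g, q, v, h⟩ k ⟨b, t⟩ hx
      have : (g.1 - 1) (b, t) = (τ q b - b, v b) := by simp [h b t]
      refine this ▸ ?_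
      cases k with
      | zero => simp [(Submodule.mem_bot ℚ).1 (z ▸ hx.1 : b ∈ ⊥)]; exact zero_mem _
      | succ k => exact ⟨tri q k b hx.1, trivial⟩
    · refine Subtype.ext (Units.ext (sub_eq_zero.1 (LinearMap.ext fun ⟨b, t⟩ => ?_)))
      obtain ⟨k, hk⟩ := un b
      exact h (k + 1) 0 _ (by rw [zero_add]; exact ⟨hk, trivial⟩)
  · rintro x ⟨w, hw, h⟩ y ⟨w', hw', h'⟩
    exact ⟨_, add_mem hw' hw, fun b t => by simpa using rm h h' b t⟩
  · rintro x ⟨w, hw, h⟩ ⟨g, q, v, hg⟩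
    refine ⟨_, ?_, rc h hg⟩
    clear h
    induction hw using AddSubsemigroup.closure_induction with
    | mem w hw =>
      obtain ⟨s, hw⟩ := hw
      refine AddSubsemigroup.subset_closure ⟨s * q⁻¹, hw.imp ?_ ?_⟩ <;> rintro rfl <;> ext b <;>
        simp only [LinearMap.comp_apply, LinearMap.neg_apply, ev] <;> simp [← mul_assoc]
    | add x y _ _ a b => rw [LinearMap.add_comp]; exact add_mem a b
  · rintro ⟨w, hw, h⟩
    have : ∃ T : Set Q, T.Finite ∧ ∀ b, (∀ q ∈ T, 0 < (ρ.map fun r => a (τ (r * q) b)).sum ∧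
        (σ.map fun r => a (τ (r * q) b)).sum < 0) → 0 < w b := by
      clear h
      induction hw using AddSubsemigroup.closure_induction with
      | mem w hw =>
        obtain ⟨s, rfl | rfl⟩ := hw
        · exact ⟨{s}, Set.finite_singleton s, fun b h => ev ρ s b ▸ (h s rfl).1⟩
        · exact ⟨{s}, Set.finite_singleton s, fun b h => by
            rw [LinearMap.neg_apply, ev, neg_pos]; exact (h s rfl).2⟩
      | add x y _ _ a b =>
        obtain ⟨T, a1, a⟩ := a
        obtain ⟨T', b1, b⟩ := b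
        exact ⟨_, a1.union b1, fun c h =>
          add_pos (a c fun q hq => h q (.inl hq)) (b c fun q hq => h q (.inr hq))⟩
    obtain ⟨T, t1, t2⟩ := this
    obtain ⟨b, hb⟩ := pos T t1
    exact (t2 b hb).ne (by simpa using h b 0)
  intro C c1 c2 c3 c4
  have key : ∀ (g : G) w, g ∈ C → Rep g 1 w → ∀ l : List Q, l ≠ [] →
      ∃ h ∈ C, Rep h.1 1 (l.map fun r => w ∘ₗ τ (r * 1)).sum := fun g w hg h l hl => by
    have one : ∀ r, ∃ h ∈ C, Rep h.1 1 (w ∘ₗ τ (r * 1)) := fun r => (ex r⁻¹ 0).elim fun s hs =>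
      ⟨_, c3 g hg s, by simpa using rc h hs⟩
    induction l with
    | nil => exact (hl rfl).elim
    | cons r l ih =>
      obtain ⟨x, x1, x2⟩ := one r
      by_cases e : l = []
      · exact ⟨x, x1, by simpa [e] using x2⟩
      · obtain ⟨y, y1, y2⟩ := ih e
        exact ⟨_, c2 _ y1 _ x1, fun b t => by simpa using rm y2 x2 b t⟩
  have fin : ∀ (g : G) w, g ∈ C → Rep g 1 w → -w ∈ W → (1 : G) ∈ C := fun g w hg h hw => by
    simpa using c2 _ hg _ (c1 (a := g⁻¹) ⟨_, hw, fun b t => by simpa using ri h b t⟩)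
  obtain ⟨g, hg⟩ := ex 1 a
  have s1 : g ∈ C → (1 : G) ∈ C := fun c => (key g a c hg σ hσ).elim fun h e =>
    fin h _ e.1 e.2 (AddSubsemigroup.subset_closure ⟨1, .inr rfl⟩)
  by_cases e : g = 1
  · obtain ⟨b, hb⟩ := pos {1} (Set.finite_singleton 1)
    have : a = 0 := LinearMap.ext fun b => by simpa [e] using (hg b 0).symm
    simpa [this] using (hb 1 rfl).1
  rcases c4 g e with c | c
  · exact s1 c
  · obtain ⟨h, e1, e2⟩ := key g⁻¹ (-a) c (fun b t => by simpa using ri hg b t) ρ hρ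
    refine fin h _ e1 e2 (AddSubsemigroup.subset_closure ⟨1, .inl ?_⟩)
    ext b
    clear hρ pos W c1 fin s1 e2 key
    induction ρ <;> simp_all [add_comm]

end Pool.Agent.H71.Gol
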