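import Mathlib
import Pool.Agent.H71.Gol1

/-! An orderable Engel group with a partial order that does not extend to a total order. -/

namespace Pool.Agent.H71.Gol

open Module Pool.Agent.H64.Golod Pool.Agent.H71.Con

def Concl : Prop :=
  ∃ (G : Type) (_ : Group G), (∀ x y : G, ∃ n, en y n x = 1) ∧ Bi G ∧ ∃ P : Set G,
    (∀ a ∈ P, ∀ b ∈ P, a * b ∈ P) ∧ (∀ a ∈ P, ∀ g : G, g * a * g⁻¹ ∈ P) ∧ (1 : G) ∉ P ∧
    ∀ Q : Set G, P ⊆ Q → (∀ a ∈ Q, ∀ b ∈ Q, a * b ∈ Q) → (∀ a ∈ Q, ∀ g : G, g * a * g⁻¹ ∈ Q) →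
      (∀ a : G, a ≠ 1 → a ∈ Q ∨ a⁻¹ ∈ Q) → (1 : G) ∈ Q

theorem quad {Q R : Type} [Group Q] [Ring R] [Algebra ℚ R] (f : Q →* R) (L : ℕ → Submodule ℚ R)
    (L0 : ∀ u, u ∈ L 0) (left : ∀ p i, ∀ u ∈ L i, p * u ∈ L i)
    (tri : ∀ q i, ∀ u ∈ L i, (f q - 1) * u ∈ L (i + 1))
    (nil : ∀ q, ∃ n, ∀ k u, (f q - 1) ^ n * u ∈ L k)
    (eng : ∀ x y, ∃ n, ∀ k u, (f (en y n x) - 1) * u ∈ L k) (ρ σ : List Q) (hρ : ρ ≠ [])
    (hσ : σ ≠ []) (pos : ∀ T : Set Q, T.Finite → ∃ (β : R →ₗ[ℚ] R →ₗ[ℚ] ℚ) (k : ℕ),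
      (∀ i j, k ≤ i + j → ∀ u ∈ L i, ∀ v ∈ L j, β u v = 0) ∧ ∀ q ∈ T,
        0 < (ρ.map fun r => β (f q⁻¹ * f r⁻¹) (f q⁻¹ * f r⁻¹)).sum ∧
        (σ.map fun r => β (f q⁻¹ * f r⁻¹) (f q⁻¹ * f r⁻¹)).sum < 0) : Concl := by
  let B : Submodule ℚ (R → R → ℚ) :=
    { carrier := {β | (∀ u u' v, β (u - u') v = β u v - β u' v) ∧
        (∀ u v v', β u (v - v') = β u v - β u v') ∧
        ∃ k, ∀ i j, k ≤ i + j → ∀ u ∈ L i, ∀ v ∈ L j, β u v = 0}
      zero_mem' := ⟨by simp, by simp, 0, fun _ _ _ _ _ _ _ => rfl⟩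
      add_mem' := fun ⟨a1, a2, k, a⟩ ⟨b1, b2, l, b⟩ => ⟨fun _ _ _ => by simp [a1, b1]; ring,
        fun _ _ _ => by simp [a2, b2]; ring, k + l, fun i j h u hu v hv => by
        simp [a i j (by omega) u hu v hv, b i j (by omega) u hu v hv]⟩
      smul_mem' := fun c _ ⟨a1, a2, k, a⟩ => ⟨fun _ _ _ => by simp [a1]; ring,
        fun _ _ _ => by simp [a2]; ring, k, fun i j h u hu v hv => by simp [a i j h u hu v hv]⟩ }
  let Φ : ℕ → Submodule ℚ B := fun k =>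
    { carrier := {β | ∀ i j, k ≤ i + j → ∀ u ∈ L i, ∀ v ∈ L j, β.1 u v = 0}
      zero_mem' := fun _ _ _ _ _ _ _ => rfl
      add_mem' := fun a b i j h u hu v hv => by simp [a i j h u hu v hv, b i j h u hu v hv]
      smul_mem' := fun c _ a i j h u hu v hv => by simp [a i j h u hu v hv] }
  let op : R → R → End ℚ B := fun p p' =>
    { toFun := fun β => ⟨fun u v => β.1 (p * u) (p' * v), fun _ _ _ => by simp only [mul_sub, β.2.1],
        fun _ _ _ => by simp only [mul_sub, β.2.2.1],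
        β.2.2.2.imp fun k a i j h u hu v hv => a i j h _ (left _ _ _ hu) _ (left _ _ _ hv)⟩
      map_add' := fun _ _ => rfl
      map_smul' := fun _ _ => rfl }
  have ev : ∀ p p' β u v, (op p p' β).1 u v = β.1 (p * u) (p' * v) := fun _ _ _ _ _ => rfl
  have xt : ∀ {a b : End ℚ B}, (∀ β u v, (a β).1 u v = (b β).1 u v) → a = b := fun h =>
    LinearMap.ext fun β => Subtype.ext (funext₂ (h β))
  have om : ∀ p p' s s', op p p' * op s s' = op (s * p) (s' * p') := fun p p' s s' =>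
    xt fun β u v => by simp [ev, mul_assoc]
  have o1 : op 1 1 = 1 := xt fun β u v => by simp [ev]
  let τ : Q →* End ℚ B :=
    { toFun := fun q => op (f q⁻¹) (f q⁻¹)
      map_one' := by simpa using o1
      map_mul' := fun a b => by rw [om, mul_inv_rev, map_mul] }
  have df : ∀ q β u v, (τ q β - β).1 u v =
      β.1 ((f q⁻¹ - 1) * u) (f q⁻¹ * v) + β.1 u ((f q⁻¹ - 1) * v) := fun q β u v => by
    simp [τ, ev, sub_mul, β.2.1, β.2.2.1]
  refine affine τ Φ (fun a b h β hβ i j e => hβ i j (h.trans e)) ?_ (fun β => β.2.2.2)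
    (fun q k β hβ i j h u hu v hv => ?_) (fun q => ?_) (fun x y => ?_)
    { toFun := fun β => β.1 1 1, map_add' := fun _ _ => rfl, map_smul' := fun _ _ => rfl }
    ρ σ hρ hσ fun T hT => ?_
  · exact eq_bot_iff.2 fun β h => Subtype.ext (funext₂ fun u v => h 0 0 le_rfl u (L0 u) v (L0 v))
  · rw [df, hβ (i + 1) j (by omega) _ (tri _ _ _ hu) _ (left _ _ _ hv),
      hβ i (j + 1) (by omega) _ hu _ (tri _ _ _ hv), add_zero]
  · obtain ⟨n, hn⟩ := nil q⁻¹
    have e : τ q - 1 = op (f q⁻¹ - 1) 1 * op 1 (f q⁻¹) + op 1 (f q⁻¹ - 1) := xt fun β u v =>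
      (df q β u v).trans (by simp [ev])
    have pw : ∀ p p' n, op p p' ^ n = op (p ^ n) (p' ^ n) := fun p p' n => by
      induction n with
      | zero => simp [o1]
      | succ n ih => rw [pow_succ, ih, om, pow_succ', pow_succ']
    rw [e]
    refine Commute.isNilpotent_add ?_ (Commute.isNilpotent_mul_right ?_ ⟨n, xt fun β u v => ?_⟩)
      ⟨n, xt fun β u v => ?_⟩
    · simp [Commute, SemiconjBy, om, mul_sub, sub_mul]
    · simp [Commute, SemiconjBy, om]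
    · obtain ⟨k, hk⟩ := β.2.2.2
      rw [pw, ev]
      exact hk k 0 le_rfl _ (hn _ _) _ (L0 _)
    · obtain ⟨k, hk⟩ := β.2.2.2
      rw [pw, ev]
      exact hk 0 k (by omega) _ (L0 _) _ (hn _ _)
  · obtain ⟨n, hn⟩ := eng x y
    refine ⟨n, xt fun β u v => sub_eq_zero.1 ?_⟩
    obtain ⟨k, hk⟩ := β.2.2.2
    have : ∀ u, (f (en y n x)⁻¹ - 1) * u ∈ L k := fun u => by
      convert neg_mem (hn k (f (en y n x)⁻¹ * u)) using 1
      simp [sub_mul, ← mul_assoc, ← map_mul]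
    have e := df (en y n x) β u v
    rw [hk k 0 le_rfl _ (this _) _ (L0 _), hk 0 k (by omega) _ (L0 _) _ (this _)] at e
    simpa using e
  · obtain ⟨β, k, h1, h2⟩ := pos T hT
    exact ⟨⟨fun u v => β u v, by simp, by simp, k, h1⟩, fun q hq => by simpa [τ, ev] using h2 q hq⟩

noncomputable def H (φ : Dual ℚ (A ℚ)) : ℕ → A ℚ →ₗ[ℚ] A ℚ →ₗ[ℚ] ℚ
  | 0 => 0
  | m + 1 => (LinearMap.mul ℚ ℚ).compl₁₂ φ φ + (1 / 4 : ℚ) • ∑ i, (H φ m).compl₁₂
      (LinearMap.mulRight ℚ (x ℚ i)) (LinearMap.mulRight ℚ (x ℚ i))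

variable (φ : Dual ℚ (A ℚ))

lemma H_succ (m : ℕ) (u v : A ℚ) :
    H φ (m + 1) u v = φ u * φ v + 1 / 4 * ∑ i, H φ m (u * x ℚ i) (v * x ℚ i) := by
  simp [H, LinearMap.sum_apply]

lemma H_nonneg (m : ℕ) (u : A ℚ) : 0 ≤ H φ m u u := by
  induction m generalizing u with
  | zero => simp [H]
  | succ m ih =>
    rw [H_succ]
    exact add_nonneg (mul_self_nonneg _) (mul_nonneg (by norm_num) (Finset.sum_nonneg fun _ _ => ih _))

lemma H_mono (m : ℕ) (u : A ℚ) : H φ m u u ≤ H φ (m + 1) u u := by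
  induction m generalizing u with
  | zero => exact H_nonneg φ 1 u
  | succ m ih =>
    rw [H_succ, H_succ φ (m + 1)]
    gcongr
    exact ih _

lemma H_kill (m : ℕ) (u v : A ℚ) (h : (∀ a, φ (u * a) = 0) ∨ ∀ a, φ (v * a) = 0) :
    H φ m u v = 0 := by
  induction m generalizing u v with
  | zero => simp [H]
  | succ m ih =>
    rw [H_succ, Finset.sum_eq_zero fun i _ => ih _ _ (h.imp (fun h a => by rw [mul_assoc, h])
      fun h a => by rw [mul_assoc, h])]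
    rcases h with h | h <;> simp [show φ _ = 0 by simpa using h 1]

lemma H_zero (m : ℕ) (u : A ℚ) (h : H φ m u u = 0) (h' : ∀ a ∈ J ℚ m, φ (u * a) = 0) (a : A ℚ) :
    φ (u * a) = 0 := by
  induction m generalizing u a with
  | zero => exact h' a trivial
  | succ m ih =>
    obtain ⟨c, v, rfl⟩ := decomp a
    have a1 := mul_self_nonneg (φ u)
    have a2 := fun i => H_nonneg φ m (u * x ℚ i)
    have a3 := Finset.sum_nonneg (s := Finset.univ) fun i _ => a2 i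
    rw [H_succ] at h
    have a4 := (Finset.sum_eq_zero_iff_of_nonneg fun i _ => a2 i).1 (le_antisymm (by linarith) a3)
    have a5 : φ u = 0 := mul_self_eq_zero.1 (by linarith)
    rw [mul_add, D_apply, Finset.mul_sum, map_add, map_sum, Finset.sum_eq_zero fun i _ => by
      rw [← mul_assoc]
      exact ih _ (a4 i (Finset.mem_univ i)) (fun b hb => by
        rw [mul_assoc]; exact h' _ (J_mul 1 m _ _ (x_mem i) hb)) _]
    simp [a5]

lemma H_ineq (m : ℕ) (u v : A ℚ) (h : φ v = 0) : 6 * H φ m u u + 8 * H φ m v v ≤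
    ∑ i, (H φ m (u + v * x ℚ i) (u + v * x ℚ i) + H φ m (u - v * x ℚ i) (u - v * x ℚ i)) := by
  have a := H_mono φ m v
  rw [H_succ, h] at a
  simp only [map_add, map_sub, LinearMap.add_apply, LinearMap.sub_apply, Fin.sum_univ_three] at a ⊢
  linarith

abbrev R := Matrix (Fin 2) (Fin 2) (A ℚ)

lemma mm {S T U : Submodule ℚ (A ℚ)} (h : ∀ a ∈ S, ∀ b ∈ T, a * b ∈ U) {m m' : R}
    (hm : m ∈ S.matrix) (hm' : m' ∈ T.matrix) : m * m' ∈ U.matrix := fun i j =>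
  Matrix.mul_apply (M := m) ▸ sum_mem fun k _ => h _ (hm i k) _ (hm' k j)

lemma mJ {m n : ℕ} {a b : R} (ha : a ∈ (J ℚ m).matrix) (hb : b ∈ (J ℚ n).matrix) :
    a * b ∈ (J ℚ (n + m)).matrix := mm (fun _ ha _ hb => J_mul m n _ _ ha hb) ha hb

lemma m0 (a : R) : a ∈ (J ℚ 0).matrix := fun _ _ => trivial

noncomputable def Q : Subgroup Rˣ where
  carrier := {q | q.1 - 1 ∈ (J ℚ 1).matrix}
  one_mem' := by simp
  mul_mem' := fun {a b} ha hb => by
    change (a * b).1 - 1 ∈ (J ℚ 1).matrix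
    convert add_mem (mJ (m0 a.1) hb) ha using 1
    simp [mul_sub]
  inv_mem' := fun {a} ha => by
    change (a⁻¹).1 - 1 ∈ (J ℚ 1).matrix
    convert neg_mem (mJ (m0 (a⁻¹).1) ha) using 1
    simp [mul_sub]

noncomputable def el (i j : Fin 2) (h : j ≠ i) (k : Fin 3) : Q :=
  ⟨⟨1 + Matrix.single i j (x ℚ k), 1 - Matrix.single i j (x ℚ k),
    by simp [mul_sub, add_mul, h],
    by simp [mul_add, sub_mul, h]⟩, by
      change _ - 1 ∈ (J ℚ 1).matrix
      rw [add_sub_cancel_left]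
      exact (Matrix.single_mem_matrix (zero_mem (J ℚ 1))).2 (x_mem k)⟩

theorem concl : Concl := by
  have : Countable (A ℚ) := MonoidAlgebra.coeff_injective.countable
  have : Countable R := inferInstanceAs (Countable (Fin 2 → Fin 2 → A ℚ))
  have : Countable Rˣ := Units.val_injective.countable
  obtain ⟨e, he⟩ := exists_surjective_nat (Q × Q × Bool)
  let f : Q →* R := (Units.coeHom R).comp Q.subtype
  have h1 : ∀ q, f q - 1 ∈ (J ℚ 1).matrix := fun q => q.2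
  let M : ℕ → R := fun s => if (e s).2.2 then (f (e s).1 - 1) ^ (4 * s + 5)
    else f (en (e s).2.1 (4 * s + 5) (e s).1) - 1
  have hM : ∀ s, M s ∈ (J ℚ (4 * s + 5)).matrix := fun s => by
    simp only [M]
    generalize 4 * s + 5 = n
    split_ifs
    · induction n with
      | zero => exact m0 _
      | succ n ih => rw [pow_succ']; exact mJ (h1 _) ih
    · induction n with
      | zero => exact m0 _
      | succ n ih =>
        simp only [en, Function.iterate_succ_apply'] at ih ⊢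
        generalize (fun z : Q => z⁻¹ * (e s).2.1⁻¹ * z * (e s).2.1)^[n] (e s).1 = z at ih
        generalize (e s).2.1 = y
        convert mJ (m0 (f (z⁻¹ * y⁻¹))) (sub_mem (add_comm 1 n ▸ mJ ih (h1 y)) (mJ (h1 y) ih)) using 1
        have : f (z⁻¹ * y⁻¹) * (f y * f z) = 1 := by simp [← map_mul]
        rw [map_mul _ _ y, map_mul _ _ z]
        linear_combination (norm := noncomm_ring) this
  let r : ℕ → A ℚ := fun k => M (k / 4) ⟨k % 2, by omega⟩ ⟨k % 4 / 2, by omega⟩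
  have hr : ∀ k, r k ∈ J ℚ (k + 2) := fun k => J_anti' (by omega) (hM _ _ _)
  have hI : ∀ s, M s ∈ (I r).matrix := fun s i j => Submodule.subset_span
    ⟨1, 4 * s + 2 * j + i, 1, by
      simp only [r, one_mul, mul_one]
      congr 1
      · omega
      all_goals exact Fin.ext (by simp only; omega)⟩
  have hK : ∀ s k u, M s * u ∈ (K r k).matrix := fun s k u =>
    mm (T := ⊤) (fun a ha b _ => Submodule.mem_sup_left (I_right r a b ha)) (hI s) fun _ _ => trivial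
  have KJ : ∀ m i, ∀ a ∈ J ℚ m, ∀ b ∈ K r i, a * b ∈ K r (i + m) := fun m i a ha b hb => by
    obtain ⟨y, hy, z, hz, rfl⟩ := Submodule.mem_sup.1 hb
    rw [mul_add]
    exact Submodule.add_mem_sup (I_left r _ _ hy) (J_mul _ _ _ _ ha hz)
  refine quad f (fun k => (K r k).matrix) (fun u i j => Submodule.mem_sup_right trivial)
    (fun p i u hu => mm (KJ 0 i) (m0 p) hu) (fun q i u hu => mm (KJ 1 i) (h1 q) hu)
    (fun q => (he (q, q, true)).elim fun s hs => ⟨4 * s + 5, by simpa [M, hs] using hK s⟩)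
    (fun q y => (he (q, y, false)).elim fun s hs => ⟨4 * s + 5, by simpa [M, hs] using hK s⟩)
    [el 1 0 (by simp) 0, (el 1 0 (by simp) 0)⁻¹, el 1 0 (by simp) 1, (el 1 0 (by simp) 1)⁻¹,
      el 1 0 (by simp) 2, (el 1 0 (by simp) 2)⁻¹]
    [el 0 1 (by simp) 0, (el 0 1 (by simp) 0)⁻¹, el 0 1 (by simp) 1, (el 0 1 (by simp) 1)⁻¹,
      el 0 1 (by simp) 2, (el 0 1 (by simp) 2)⁻¹] (by simp) (by simp) fun T hT => ?_
  let U := Submodule.span ℚ ((fun q => f q⁻¹ 0 0) '' T ∪ (fun q => f q⁻¹ 0 1) '' T)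
  have : FiniteDimensional ℚ U :=
    FiniteDimensional.span_of_finite ℚ ((hT.image _).union (hT.image _))
  obtain ⟨n, hn⟩ := exists_ne_top r hr U
  obtain ⟨φ, φ0, hφ⟩ := Submodule.exists_le_ker_of_lt_top _ hn.lt_top
  have kK : ∀ i, n ≤ i → ∀ u ∈ K r i, ∀ a, φ (u * a) = 0 := fun i hi u hu a => by
    obtain ⟨y, hy, z, hz, rfl⟩ := Submodule.mem_sup.1 hu
    refine hφ (Submodule.mem_sup_left ?_)
    rw [add_mul]
    exact Submodule.add_mem_sup (I_right r _ _ hy) (J_right _ _ _ (J_anti' hi hz))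
  refine ⟨(H φ n).compl₁₂ (Matrix.entryLinearMap ℚ _ 0 0) (Matrix.entryLinearMap ℚ _ 0 0) -
    (H φ n).compl₁₂ (Matrix.entryLinearMap ℚ _ 0 1) (Matrix.entryLinearMap ℚ _ 0 1), 2 * n,
    fun i j hij u hu v hv => ?_, fun q hq => ?_⟩
  · have : ∀ k, H φ n (u 0 k) (v 0 k) = 0 := fun k => H_kill _ _ _ _
      ((show n ≤ i ∨ n ≤ j by omega).imp (fun h => kK i h _ (hu 0 k)) fun h => kK j h _ (hv 0 k))
    simp [this]
  have a1 : ∀ i j h k, f (el i j h k)⁻¹ = 1 - Matrix.single i j (x ℚ k) := fun _ _ _ _ => rfl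
  have a2 : ∀ i j h k, f (el i j h k) = 1 + Matrix.single i j (x ℚ k) := fun _ _ _ _ => rfl
  have x0 : φ (f q⁻¹ 0 0) = 0 :=
    hφ (Submodule.mem_sup_right (Submodule.subset_span (.inl ⟨q, hq, rfl⟩)))
  have y0 : φ (f q⁻¹ 0 1) = 0 :=
    hφ (Submodule.mem_sup_right (Submodule.subset_span (.inr ⟨q, hq, rfl⟩)))
  have b1 := H_ineq φ n (f q⁻¹ 0 0) _ y0
  have b2 := H_ineq φ n (f q⁻¹ 0 1) _ x0
  have b3 := H_nonneg φ n (f q⁻¹ 0 0)
  have b4 := H_nonneg φ n (f q⁻¹ 0 1)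
  have b5 : 0 < H φ n (f q⁻¹ 0 0) (f q⁻¹ 0 0) + H φ n (f q⁻¹ 0 1) (f q⁻¹ 0 1) := by
    refine (add_nonneg b3 b4).lt_of_ne fun c => φ0 (LinearMap.ext fun a => ?_)
    have z : ∀ u, H φ n u u = 0 → ∀ a, φ (u * a) = 0 := fun u h => H_zero φ n u h fun a ha =>
      hφ (Submodule.mem_sup_left (Submodule.mem_sup_right (J_left _ _ _ ha)))
    have : (f q⁻¹ * f q) 0 0 = 1 := by simp [← map_mul]
    rw [← one_mul a, ← this, Matrix.mul_apply, Fin.sum_univ_two, add_mul, map_add, mul_assoc,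
      mul_assoc, z _ (by linarith), z _ (by linarith)]
    simp
  generalize f q⁻¹ = m at *
  simp only [Fin.sum_univ_three] at b1 b2
  simp [a1, a2, mul_add, mul_sub, -map_add, -map_sub]
  constructor <;> linarith

end Pool.Agent.H71.Gol
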