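import Mathlib
import Pool.Agent.H71.Lie2

/-! Structure of compact groups: invariant forms, profinite and semisimple normal subgroups. -/

namespace Pool.Agent.H71.Lie

open Filter Topology NormedSpace MeasureTheory

variable {K : Type} [Group K] [TopologicalSpace K]

/-- adjoint action -/
noncomputable def Rep.Ad (R : Rep K) (k : K) : R.A →ₗ[ℝ] R.A where
  toFun X := R.ρ k * X * R.ρ k⁻¹
  map_add' X Y := by simp [mul_add, add_mul]
  map_smul' c X := by simp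

lemma Rep.Ad_apply (R : Rep K) (k : K) (X : R.A) : R.Ad k X = R.ρ k * X * R.ρ k⁻¹ := rfl

lemma Rep.Ad_mul (R : Rep K) (k l : K) (X : R.A) : R.Ad (k * l) X = R.Ad k (R.Ad l X) := by
  simp [Rep.Ad_apply, mul_assoc]

lemma Rep.Ad_one (R : Rep K) (X : R.A) : R.Ad 1 X = X := by simp [Rep.Ad_apply]

lemma Rep.Ad_inv (R : Rep K) (k : K) (X : R.A) : R.Ad k (R.Ad k⁻¹ X) = X := by
  rw [← R.Ad_mul, mul_inv_cancel, R.Ad_one]

lemma Rep.exp_Ad (R : Rep K) (k : K) (X : R.A) : exp (R.Ad k X) = R.Ad k (exp X) :=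
  exp_conj' (R.mul_inv k) (R.inv_mul k) X

lemma Rep.Ad_rho (R : Rep K) (k x : K) : R.Ad k (R.ρ x) = R.ρ (k * x * k⁻¹) := by
  simp [Rep.Ad_apply]

lemma Rep.inv_eq_one (R : Rep K) {x : K} (h : R.ρ x = 1) : R.ρ x⁻¹ = 1 := by
  have := R.mul_inv x
  rwa [h, one_mul] at this

lemma Rep.exp_neg (R : Rep K) {x : K} {X : R.A} (h : R.ρ x = exp X) : R.ρ x⁻¹ = exp (-X) := by
  rw [← mul_one (R.ρ x⁻¹), ← exp_mul_neg X, ← mul_assoc, ← h, R.inv_mul, one_mul]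

lemma fst_exp' {A B : Type} [NormedRing A] [NormedAlgebra ℝ A] [CompleteSpace A]
    [NormedRing B] [NormedAlgebra ℝ B] [CompleteSpace B] (x : A × B) : (exp x).1 = exp x.1 := by
  let +nondep : NormedAlgebra ℚ A := .restrictScalars ℚ ℝ A
  let +nondep : NormedAlgebra ℚ B := .restrictScalars ℚ ℝ B
  exact Prod.fst_exp x

lemma snd_exp' {A B : Type} [NormedRing A] [NormedAlgebra ℝ A] [CompleteSpace A]
    [NormedRing B] [NormedAlgebra ℝ B] [CompleteSpace B] (x : A × B) : (exp x).2 = exp x.2 := by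
  let +nondep : NormedAlgebra ℚ A := .restrictScalars ℚ ℝ A
  let +nondep : NormedAlgebra ℚ B := .restrictScalars ℚ ℝ B
  exact Prod.snd_exp x

lemma Rep.ad_curve (R : Rep K) {Γ : Subgroup K} (hΓ : Γ.Normal) {p : K} (hp : p ∈ Γ) {Y : R.A}
    (hY : ∀ t : ℝ, ∃ n, R.ρ n = exp (t • Y)) :
    ∃ γ : ℝ → R.A, (∀ t, γ t ∈ R.ρ '' Γ) ∧ γ 0 = 1 ∧ HasStrictDerivAt γ (Y - R.Ad p Y) 0 := by
  refine ⟨fun t => exp (t • Y) * exp (t • (-R.Ad p Y)), fun t => ?_, by simp, ?_⟩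
  · obtain ⟨n, hn⟩ := hY t
    refine ⟨n * p * n⁻¹ * p⁻¹, Γ.mul_mem (hΓ.conj_mem p hp n) (Γ.inv_mem hp), ?_⟩
    have : t • (-R.Ad p Y) = R.Ad p (-(t • Y)) := by simp
    beta_reduce
    rw [this, R.exp_Ad, ← R.exp_neg hn, R.Ad_rho, ← hn, ← map_mul]
    simp [mul_assoc]
  · refine ((hasDeriv_exp0 Y).fun_mul (hasDeriv_exp0 (-R.Ad p Y))).congr_deriv ?_
    simp [sub_eq_add_neg]

/-- an invariant anisotropic symmetric form -/
structure Rep.Form (R : Rep K) (B : R.A →ₗ[ℝ] R.A →ₗ[ℝ] ℝ) : Prop where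
  symm : ∀ X Y, B X Y = B Y X
  nonneg : ∀ X, 0 ≤ B X X
  aniso : ∀ X, B X X = 0 → X = 0
  inv : ∀ k X Y, B (R.Ad k X) (R.Ad k Y) = B X Y

lemma Rep.Form.decomp {R : Rep K} {B : R.A →ₗ[ℝ] R.A →ₗ[ℝ] ℝ} (h : R.Form B)
    (P : Submodule ℝ R.A) (Z : R.A) : ∃ W ∈ P, ∀ W' ∈ P, B W' (Z - W) = 0 := by
  have hr : LinearMap.BilinForm.IsRefl B := fun X Y hXY => by rw [h.symm]; exact hXY
  have := LinearMap.BilinForm.isCompl_orthogonal_of_restrict_nondegenerate (W := P) hr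
    (LinearMap.BilinForm.nondegenerate_restrict_of_disjoint_orthogonal B hr
      (Submodule.disjoint_def.2 fun X h1 h2 => h.aniso X (h2 X h1)))
  have hz : Z ∈ P ⊔ LinearMap.BilinForm.orthogonal B P := by rw [this.sup_eq_top]; trivial
  obtain ⟨W, hW, Y, hY, rfl⟩ := Submodule.mem_sup.1 hz
  exact ⟨W, hW, fun W' hW' => by rw [add_sub_cancel_left]; exact hY W' hW'⟩

lemma Rep.Form.adj {R : Rep K} {B : R.A →ₗ[ℝ] R.A →ₗ[ℝ] ℝ} (h : R.Form B) (k : K) (X Y : R.A) :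
    B X (R.Ad k Y) = B (R.Ad k⁻¹ X) Y := by
  rw [← h.inv k (R.Ad k⁻¹ X), R.Ad_inv]

variable [IsTopologicalGroup K] [CompactSpace K]

lemma Rep.exists_form (R : Rep K) : ∃ B, R.Form B := by
  borelize K
  let μ : Measure K := Measure.haar
  let e := toEuclidean (E := R.A)
  have hc : ∀ X, Continuous fun k : K => e (R.Ad k⁻¹ X) := fun X =>
    e.continuous.comp ((((R.cont.comp continuous_inv).mul continuous_const)).mul
      (R.cont.comp (continuous_inv.comp continuous_inv)))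
  have hi : ∀ X Y, Integrable (fun k : K => inner ℝ (e (R.Ad k⁻¹ X)) (e (R.Ad k⁻¹ Y))) μ :=
    fun X Y => ((hc X).inner (hc Y)).integrable_of_hasCompactSupport
      (HasCompactSupport.of_compactSpace _)
  refine ⟨LinearMap.mk₂ ℝ (fun X Y => ∫ k, inner ℝ (e (R.Ad k⁻¹ X)) (e (R.Ad k⁻¹ Y)) ∂μ)
    (fun X X' Y => by simp only [map_add, inner_add_left]; exact integral_add (hi _ _) (hi _ _))
    (fun c X Y => by simp only [map_smul, real_inner_smul_left, integral_const_mul, smul_eq_mul])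
    (fun X Y Y' => by simp only [map_add, inner_add_right]; exact integral_add (hi _ _) (hi _ _))
    (fun c X Y => by simp only [map_smul, real_inner_smul_right, integral_const_mul, smul_eq_mul]),
    fun X Y => ?_, fun X => ?_, fun X hX => ?_, fun g X Y => ?_⟩
  · simp only [LinearMap.mk₂_apply, real_inner_comm]
  · exact integral_nonneg fun k => real_inner_self_nonneg
  · by_contra hne
    have := ((hc X).inner (𝕜 := ℝ) (hc X)).integral_pos_of_hasCompactSupport_nonneg_nonzero (μ := μ)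
      (x := 1) (HasCompactSupport.of_compactSpace _) (fun k => real_inner_self_nonneg)
      (by simpa [R.Ad_one] using hne)
    exact this.ne' hX
  · simp only [LinearMap.mk₂_apply, ← R.Ad_mul]
    rw [← integral_mul_left_eq_self _ g]
    simp

omit [IsTopologicalGroup K] in
lemma Rep.Ad_mem (R : Rep K) {H : Subgroup K} (hH : IsClosed (H : Set K)) {k : K}
    (hk : ∀ h ∈ H, k * h * k⁻¹ ∈ H) {X : R.A} (hX : X ∈ (R.cg hH).lie) :
    R.Ad k X ∈ (R.cg hH).lie := fun t => by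
  obtain ⟨h, hh, he⟩ := hX t
  exact ⟨_, hk h hh, by rw [← map_smul, R.exp_Ad, ← he, R.Ad_rho]⟩

lemma Rep.openImage (R : Rep K) {H : Subgroup K} (hH : IsClosed (H : Set K)) {O : Set K}
    (hO : O ∈ 𝓝 (1 : K)) : ∀ᶠ s in 𝓝 (1 : R.A), s ∈ R.ρ '' H → ∃ h ∈ H, h ∈ O ∧ R.ρ h = s := by
  obtain ⟨V, hVO, hV, h1⟩ := mem_nhds_iff.1 hO
  let C : Set K := (H : Set K) ∩ ⋂ n ∈ {n | n ∈ H ∧ R.ρ n = 1}, {h | h * n ∉ V}
  have hC : IsClosed C := hH.inter (isClosed_biInter fun n _ =>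
    hV.isClosed_compl.preimage (continuous_mul_const n))
  have h2 : (1 : R.A) ∈ (R.ρ '' C)ᶜ := by
    rintro ⟨h, ⟨hh, hh'⟩, he⟩
    simp only [Set.mem_iInter] at hh'
    exact hh' h⁻¹ ⟨H.inv_mem hh, R.inv_eq_one he⟩ (by simpa using h1)
  filter_upwards [(hC.isCompact.image R.cont).isClosed.isOpen_compl.mem_nhds h2] with s hs
  rintro ⟨h, hh, rfl⟩
  by_contra hcon
  refine hs ⟨h, ⟨hh, ?_⟩, rfl⟩
  simp only [Set.mem_iInter]
  rintro n ⟨hn, hn'⟩ hv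
  exact hcon ⟨h * n, H.mul_mem hh hn, hVO hv, by rw [map_mul, hn', mul_one]⟩

lemma Rep.lie_surj (R S : Rep K) {H : Subgroup K} (hH : IsClosed (H : Set K)) {X : R.A}
    (hX : X ∈ (R.cg hH).lie) : ∃ Z : (R.prod S).A, Z ∈ ((R.prod S).cg hH).lie ∧ Z.1 = X := by
  obtain ⟨U, hU, hi⟩ := exists_inj_nhds (A := R.A)
  have h1 := ((R.prod S).cg hH).cst (U := Prod.fst ⁻¹' U)
    (continuous_fst.tendsto' (0 : R.A × S.A) 0 rfl hU)
  have h2 := ((R.prod S).cont.tendsto' 1 1 (map_one _)).eventually h1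
  have h3 := R.openImage hH h2
  have t1 : Tendsto (fun t : ℝ => t • X) (𝓝 0) (𝓝 0) :=
    Continuous.tendsto' (f := fun t : ℝ => t • X) (by fun_prop) _ _ (by simp)
  have t2 := (exp_cont.tendsto' (0 : R.A) 1 exp_zero).comp t1
  have h4 : ∀ᶠ t in 𝓝[≠] (0 : ℝ), _ :=
    ((t2.eventually h3).and (t1.eventually hU)).filter_mono nhdsWithin_le_nhds
  obtain ⟨t, ⟨h5, h6⟩, ht⟩ := (h4.and self_mem_nhdsWithin).exists
  obtain ⟨h, hh, hO, he⟩ := h5 (hX t)
  obtain ⟨Z, hZ, hZU, hZe⟩ := hO ⟨h, hh, rfl⟩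
  have : exp Z.1 = exp (t • X) := (fst_exp' _).symm.trans ((congrArg Prod.fst hZe).trans he)
  have h7 := hi hZU h6 this
  refine ⟨t⁻¹ • Z, Submodule.smul_mem _ _ hZ, ?_⟩
  change t⁻¹ • Z.1 = X
  rw [h7, smul_smul, inv_mul_cancel₀ ht, one_smul]

lemma Rep.finite_of_lie (R : Rep K) {H : Subgroup K} (hH : IsClosed (H : Set K))
    (h : ∀ X ∈ (R.cg hH).lie, X = 0) : (R.ρ '' H).Finite := by
  have h1 : ∀ᶠ k in 𝓝 (1 : K), k ∈ H → R.ρ k = 1 := by
    filter_upwards [(R.cont.tendsto' 1 1 (map_one _)).eventually ((R.cg hH).cst univ_mem)] with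
      k hk hkH
    obtain ⟨X, hX, -, he⟩ := hk ⟨k, hkH, rfl⟩
    rw [← he, h X hX, exp_zero]
  obtain ⟨t, ht, hc⟩ := hH.isCompact.elim_nhds_subcover
    (fun x => {y | x⁻¹ * y ∈ H → R.ρ (x⁻¹ * y) = 1}) (fun x _ =>
      (Continuous.tendsto' (f := fun y => x⁻¹ * y) (by fun_prop) x 1 (by simp)).eventually h1)
  refine (t.finite_toSet.image R.ρ).subset ?_
  rintro _ ⟨y, hy, rfl⟩
  obtain ⟨x, hx, hxy⟩ := Set.mem_iUnion₂.1 (hc hy)
  exact ⟨x, hx, R.eq_iff.2 (hxy (H.mul_mem (H.inv_mem (ht x hx)) hy))⟩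

lemma Rep.tors_finite (R : Rep K) {H : Subgroup K} (hH : IsClosed (H : Set K)) {m : ℕ}
    (hm : 0 < m) (h : ∀ x ∈ H, R.ρ (x ^ m) = 1) : (R.ρ '' H).Finite := by
  refine R.finite_of_lie hH fun X hX => eq_zero_of_exp fun t => ?_
  obtain ⟨x, hx, he⟩ := hX (t / m)
  have := h x hx
  rw [map_pow, he, ← exp_nsmul', ← Nat.cast_smul_eq_nsmul ℝ, smul_smul,
    mul_div_cancel₀ _ (by exact_mod_cast hm.ne')] at this
  exact this

lemma Rep.pow_exp (R : Rep K) {H : Subgroup K} (hH : IsClosed (H : Set K)) {U : Set R.A}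
    (hU : U ∈ 𝓝 (0 : R.A)) {y : K} (hy : y ∈ H) :
    ∃ m, 0 < m ∧ ∃ Z ∈ (R.cg hH).lie, Z ∈ U ∧ exp Z = R.ρ (y ^ m) := by
  have := mapClusterPt_iff_frequently.1 (mapClusterPt_one_atTop_pow y) _
    ((R.cont.tendsto' 1 1 (map_one _)).eventually ((R.cg hH).cst hU))
  obtain ⟨m, hm, h⟩ := frequently_atTop.1 this 1
  exact ⟨m, hm, h ⟨_, H.pow_mem hy m, rfl⟩⟩

/-- commutative subgroup -/
def Comm (M : Subgroup K) : Prop := ∀ a ∈ M, ∀ b ∈ M, a * b = b * a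

omit [IsTopologicalGroup K] in
lemma Rep.lie_comm (R : Rep K) {H : Subgroup K} (hH : IsClosed (H : Set K)) (hc : Comm H)
    {X Y : R.A} (hX : X ∈ (R.cg hH).lie) (hY : Y ∈ (R.cg hH).lie) : Commute X Y := by
  refine (commute_of_exp fun s => (commute_of_exp fun t => ?_).symm)
  obtain ⟨a, ha, ha'⟩ := hX t
  obtain ⟨b, hb, hb'⟩ := hY s
  rw [← ha', ← hb', ← map_mul, ← map_mul, hc a ha b hb]

lemma Rep.exists_tors (R : Rep K) {H : Subgroup K} (hH : IsClosed (H : Set K)) (hc : Comm H)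
    {x : K} (hx : x ∈ H) (hx1 : R.ρ x ≠ 1) :
    ∃ h ∈ H, R.ρ h ≠ 1 ∧ ∃ m, 0 < m ∧ R.ρ (h ^ m) = 1 := by
  by_cases h0 : ∀ X ∈ (R.cg hH).lie, X = 0
  · obtain ⟨m, hm, Z, hZ, -, he⟩ := R.pow_exp hH univ_mem hx
    exact ⟨x, hx, hx1, m, hm, by rw [← he, h0 Z hZ, exp_zero]⟩
  push Not at h0
  obtain ⟨X, hX, hX0⟩ := h0
  obtain ⟨y, hy, hye⟩ := (R.cg hH).exp_mem hX
  obtain ⟨m, hm, Z, hZ, hZU, he⟩ := R.pow_exp hH (Metric.ball_mem_nhds 0 (norm_pos_iff.2 hX0)) hy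
  set W := (m : ℝ) • X - Z with hW
  have hWl : W ∈ (R.cg hH).lie := Submodule.sub_mem _ (Submodule.smul_mem _ _ hX) hZ
  have hW1 : exp W = 1 := by
    rw [hW, sub_eq_add_neg, exp_add' (R.lie_comm hH hc (Submodule.smul_mem _ _ hX)
      (Submodule.neg_mem _ hZ)), Nat.cast_smul_eq_nsmul, exp_nsmul', ← hye, ← map_pow, ← he,
      exp_mul_neg]
  have hW0 : W ≠ 0 := by
    intro h
    rw [hW, sub_eq_zero] at h
    rw [← h, mem_ball_zero_iff, norm_smul, Real.norm_natCast] at hZU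
    have : (1 : ℝ) ≤ m := by exact_mod_cast hm
    nlinarith [norm_nonneg X]
  obtain ⟨U, hU, hi⟩ := exists_inj_nhds (A := R.A)
  have t1 : Tendsto (fun n : ℕ => (n : ℝ)⁻¹ • W) atTop (𝓝 0) := by
    simpa using (tendsto_inv_atTop_nhds_zero_nat (𝕜 := ℝ)).smul_const W
  obtain ⟨n, hn, hn0⟩ := ((t1.eventually hU).and (eventually_gt_atTop 0)).exists
  obtain ⟨h, hh, hhe⟩ := hWl (n : ℝ)⁻¹
  have hn' : (n : ℝ) ≠ 0 := by exact_mod_cast hn0.ne'
  refine ⟨h, hh, fun h1 => hW0 ?_, n, hn0, ?_⟩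
  · have := hi hn (mem_of_mem_nhds hU) (by rw [← hhe, h1, exp_zero])
    simpa [hn'] using this
  · rw [map_pow, hhe, ← exp_nsmul', ← Nat.cast_smul_eq_nsmul ℝ, smul_smul, mul_inv_cancel₀ hn',
      one_smul, hW1]

/-- every representation has finite image on `D` -/
def Prof (D : Subgroup K) : Prop := ∀ R : Rep K, (R.ρ '' D).Finite

/-- elements whose `m`-th power is killed -/
def torsSub (M : Subgroup K) (hM : Comm M) (R : Rep K) (m : ℕ) : Subgroup K where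
  carrier := {k | k ∈ M ∧ R.ρ (k ^ m) = 1}
  one_mem' := ⟨M.one_mem, by simp⟩
  mul_mem' := fun {a b} ha hb => ⟨M.mul_mem ha.1 hb.1, by
    rw [Commute.mul_pow (hM a ha.1 b hb.1), map_mul, ha.2, hb.2, mul_one]⟩
  inv_mem' := fun {a} ha => ⟨M.inv_mem ha.1, by
    rw [inv_pow]; exact R.inv_eq_one ha.2⟩

omit [CompactSpace K] in
lemma torsSub_closed {M : Subgroup K} (hc : IsClosed (M : Set K)) (hM : Comm M) (R : Rep K)
    (m : ℕ) : IsClosed (torsSub M hM R m : Set K) :=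
  hc.inter (isClosed_eq (R.cont.comp (continuous_pow m)) continuous_const)

omit [IsTopologicalGroup K] [CompactSpace K] in
lemma torsSub_normal {M : Subgroup K} (hn : M.Normal) (hM : Comm M) (R : Rep K)
    (m : ℕ) : (torsSub M hM R m).Normal :=
  ⟨fun a ha g => ⟨hn.conj_mem a ha.1 g, by rw [conj_pow, map_mul, map_mul, ha.2, mul_one, R.mul_inv]⟩⟩

lemma prof_iInf {M : Subgroup K} (hc : IsClosed (M : Set K)) (hM : Comm M) (m : Rep K → ℕ)
    (hm : ∀ R, 0 < m R) :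
    IsClosed ((⨅ R, torsSub M hM R (m R) : Subgroup K) : Set K) ∧ Prof (⨅ R, torsSub M hM R (m R)) := by
  refine ⟨?_, fun R => ?_⟩
  · rw [Subgroup.coe_iInf]; exact isClosed_iInter fun R => torsSub_closed hc hM R _
  · exact (R.tors_finite (torsSub_closed hc hM R _) (hm R) fun x hx => hx.2).subset
      (Set.image_mono (iInf_le (fun R => torsSub M hM R (m R)) R))

variable [T2Space K]

theorem exists_prof_of_comm {M : Subgroup K} (hM : CN M) (hc : Comm M) (hne : M ≠ ⊥) :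
    ∃ D ≤ M, CN D ∧ D ≠ ⊥ ∧ Prof D := by
  obtain ⟨⟨x, hx⟩, hx1⟩ := Subgroup.ne_bot_iff_exists_ne_one.1 hne
  obtain ⟨R₀, hR₀⟩ := exists_rep (x := x) fun h => hx1 (Subtype.ext h)
  obtain ⟨h, hh, hw1, r, hr, hwr⟩ := R₀.exists_tors hM.1 hc hx hR₀
  let S : Set (Subgroup K)ᵒᵈ := {Y | IsClosed ((OrderDual.ofDual Y : Subgroup K) : Set K) ∧
    OrderDual.ofDual Y ≤ M ∧ ∃ y ∈ OrderDual.ofDual Y, R₀.ρ y = R₀.ρ h}
  obtain ⟨Y', -, hY', hmax⟩ := zorn_le_nonempty₀ S (fun c hc' hch y hy => by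
    refine ⟨OrderDual.toDual (⨅ N : c, OrderDual.ofDual N.1), ⟨?_, ?_, ?_⟩, ?_⟩
    · change IsClosed ((⨅ N : c, OrderDual.ofDual N.1 : Subgroup K) : Set K)
      rw [Subgroup.coe_iInf]; exact isClosed_iInter fun N => (hc' N.2).1
    · exact (iInf_le (fun N : c => OrderDual.ofDual N.1) ⟨y, hy⟩).trans (hc' hy).2.1
    · have : Nonempty c := ⟨⟨y, hy⟩⟩
      have cl : ∀ N : c, IsClosed (((OrderDual.ofDual N.1 : Subgroup K) : Set K) ∩
          {y | R₀.ρ y = R₀.ρ h}) :=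
        fun N => (hc' N.2).1.inter (isClosed_eq R₀.cont continuous_const)
      obtain ⟨z, hz⟩ := IsCompact.nonempty_iInter_of_directed_nonempty_isCompact_isClosed
        (fun N : c => ((OrderDual.ofDual N.1 : Subgroup K) : Set K) ∩ {y | R₀.ρ y = R₀.ρ h})
        (fun a b => by
          rcases hch.total a.2 b.2 with h | h
          · exact ⟨b, Set.inter_subset_inter_left _ h, subset_rfl⟩
          · exact ⟨a, subset_rfl, Set.inter_subset_inter_left _ h⟩)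
        (fun N => (hc' N.2).2.2) (fun N => (cl N).isCompact) cl
      rw [Set.mem_iInter] at hz
      exact ⟨z, Subgroup.mem_iInf.2 fun N => (hz N).1, (hz ⟨y, hy⟩).2⟩
    · intro z hz
      exact iInf_le (fun N : c => OrderDual.ofDual N.1) ⟨z, hz⟩)
    (OrderDual.toDual M) ⟨hM.1, le_rfl, h, hh, rfl⟩
  let Y : Subgroup K := OrderDual.ofDual Y'
  obtain ⟨c1, c2, y₀, hy₀, hy₀e⟩ : IsClosed (Y : Set K) ∧ Y ≤ M ∧ ∃ y ∈ Y, R₀.ρ y = R₀.ρ h := hY'
  have mini : ∀ (R : Rep K) (m : ℕ), ∀ y ∈ Y, R₀.ρ y = R₀.ρ h → R.ρ (y ^ m) = 1 →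
      Y ≤ torsSub M hc R m := fun R m y hy h1 h2 => by
    have := hmax (y := OrderDual.toDual (Y ⊓ torsSub M hc R m))
      ⟨c1.inter (torsSub_closed hM.1 hc R m), inf_le_left.trans c2, y, ⟨hy, c2 hy, h2⟩, h1⟩
      (inf_le_left (a := Y))
    exact le_trans (show Y ≤ Y ⊓ torsSub M hc R m from this) inf_le_right
  have hY0 := mini R₀ r y₀ hy₀ hy₀e (by rw [map_pow, hy₀e, ← map_pow, hwr])
  have key : ∀ R : Rep K, ∃ m, 0 < m ∧ Y ≤ torsSub M hc R m := fun R => by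
    obtain ⟨m, hm, Z, hZ, -, he⟩ := (R₀.prod R).pow_exp c1 univ_mem hy₀
    have hZ1 : Z.1 = 0 := eq_zero_of_exp fun t => by
      obtain ⟨a, ha, hae⟩ := hZ (t / r)
      have h1 := (hY0 ha).2
      have h2 : R₀.ρ a = exp ((t / r) • Z.1) := (congrArg Prod.fst hae).trans (fst_exp' _)
      rw [map_pow, h2, ← exp_nsmul', ← Nat.cast_smul_eq_nsmul ℝ, smul_smul,
        mul_div_cancel₀ _ (by exact_mod_cast hr.ne')] at h1
      exact h1
    obtain ⟨y₁, hy₁, hy₁e⟩ := hZ (-(m : ℝ)⁻¹)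
    have hm' : (m : ℝ) ≠ 0 := by exact_mod_cast hm.ne'
    refine ⟨m, hm, mini R m (y₀ * y₁) (Y.mul_mem hy₀ hy₁) ?_ ?_⟩
    · have h2 : R₀.ρ y₁ = exp ((-(m : ℝ)⁻¹) • Z.1) := (congrArg Prod.fst hy₁e).trans (fst_exp' _)
      rw [map_mul, hy₀e, h2, hZ1, smul_zero, exp_zero, mul_one]
    · refine ((R₀.prod_one R).1 ?_).2
      rw [Commute.mul_pow (hc _ (c2 hy₀) _ (c2 hy₁)), map_mul, ← he, map_pow, hy₁e, ← exp_nsmul',
        ← Nat.cast_smul_eq_nsmul ℝ, smul_smul, mul_neg, mul_inv_cancel₀ hm', neg_smul, one_smul,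
        exp_mul_neg]
  choose m hm hm' using key
  obtain ⟨d1, d2⟩ := prof_iInf hM.1 hc m hm
  refine ⟨⨅ R, torsSub M hc R (m R), fun k hk => (Subgroup.mem_iInf.1 hk R₀).1,
    ⟨d1, Subgroup.normal_iInf_normal fun R => torsSub_normal hM.2 hc R _⟩, fun h0 => hw1 ?_, d2⟩
  have : y₀ ∈ ⨅ R, torsSub M hc R (m R) := Subgroup.mem_iInf.2 fun R => hm' R hy₀
  rw [h0, Subgroup.mem_bot] at this
  rw [← hy₀e, this, map_one]

/-- no nontrivial commutative closed normal subgroup inside `N` -/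
def NoAb (N : Subgroup K) : Prop := ∀ M ≤ N, CN M → Comm M → M = ⊥

theorem exists_faithful {N : Subgroup K} (hN : CN N) (hab : NoAb N) (hp : ¬ Prof N) :
    ∃ C ≤ N, CN C ∧ C ≠ ⊥ ∧ ∃ R : Rep K, ∀ x ∈ C, R.ρ x = 1 → x = 1 := by
  have := hN.2
  obtain ⟨R, X, hX, hX1⟩ : ∃ (R : Rep K), ∃ X ∈ (R.cg hN.1).lie, exp X ≠ 1 := by
    by_contra hcon
    push Not at hcon
    exact hp fun R => R.finite_of_lie hN.1 fun X hX =>
      eq_zero_of_exp fun t => hcon R _ (Submodule.smul_mem _ _ hX)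
  let P : Subgroup K := N ⊓ R.ρ.ker
  have hP : CN P := ⟨hN.1.inter R.ker_closed, inferInstance⟩
  have := hP.2
  let C : Subgroup K := N ⊓ Subgroup.centralizer P
  have hC : CN C := ⟨hN.1.inter (Set.isClosed_centralizer _), inferInstance⟩
  refine ⟨C, inf_le_left, hC, fun h0 => hX1 ?_, R, fun x hx hx1 => ?_⟩
  swap
  · have := hab (P ⊓ Subgroup.centralizer P) (inf_le_left.trans inf_le_left)
      ⟨hP.1.inter (Set.isClosed_centralizer _), inferInstance⟩ (fun a ha b hb => hb.2 a ha.1)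
    have h1 : x ∈ P ⊓ Subgroup.centralizer (P : Set K) := ⟨⟨hx.1, hx1⟩, hx.2⟩
    rwa [this, Subgroup.mem_bot] at h1
  let F : Rep K → Set K := fun S =>
    (N : Set K) ∩ ({x | R.ρ x = exp X} ∩ ⋂ p ∈ P, {x | S.ρ (p * x * p⁻¹) = S.ρ x})
  have cl : ∀ S, IsClosed (F S) := fun S => hN.1.inter ((isClosed_eq R.cont continuous_const).inter
    (isClosed_biInter fun p _ => isClosed_eq (S.cont.comp (by fun_prop)) S.cont))
  have ne : ∀ S, (F S).Nonempty := fun S => by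
    obtain ⟨B, hB⟩ := (R.prod S).exists_form
    obtain ⟨Z, hZ, hZX⟩ := R.lie_surj S hN.1 hX
    obtain ⟨W, hW, hW'⟩ := hB.decomp ((R.prod S).cg hP.1).lie Z
    have hW1 : W.1 = 0 := eq_zero_of_exp fun t => by
      obtain ⟨a, ha, hae⟩ := hW t
      have h2 : R.ρ a = exp (t • W.1) := (congrArg Prod.fst hae).trans (fst_exp' _)
      rw [← h2]; exact ha.2
    set Y : (R.prod S).A := Z - W with hYd
    have hY : Y ∈ ((R.prod S).cg hN.1).lie := Submodule.sub_mem _ hZ fun t =>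
      Set.image_mono (inf_le_left : P ≤ N) (hW t)
    have fix : ∀ p ∈ P, (R.prod S).Ad p Y = Y := fun p hp => by
      obtain ⟨γ, g1, g2, g3⟩ := (R.prod S).ad_curve hP.2 hp (Y := Y) fun t => by
        obtain ⟨n, -, hn⟩ := hY t; exact ⟨n, hn⟩
      have m1 : Y - (R.prod S).Ad p Y ∈ ((R.prod S).cg hP.1).lie :=
        ((R.prod S).cg hP.1).curve g1 g2 g3.hasDerivAt
      have := hB.aniso (Y - (R.prod S).Ad p Y) (by
        conv_lhs => rw [LinearMap.map_sub (B _)]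
        rw [hW' _ m1, hB.adj, hW' _ ((R.prod S).Ad_mem hP.1
          (fun h hh => hP.2.conj_mem h hh _) m1), sub_zero])
      exact (sub_eq_zero.1 this).symm
    obtain ⟨x, hx, hxe⟩ := ((R.prod S).cg hN.1).exp_mem hY
    refine ⟨x, hx, ?_, Set.mem_iInter₂.2 fun p hp => ?_⟩
    · have h2 : R.ρ x = exp Y.1 := (congrArg Prod.fst hxe).trans (fst_exp' _)
      have h3 : Y.1 = X := by
        change Z.1 - W.1 = X
        rw [hW1, hZX, sub_zero]
      exact h3 ▸ h2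
    · refine ((R.prod_eq S).1 ?_).2
      rw [← Rep.Ad_rho, hxe, ← Rep.exp_Ad, fix p hp]
  obtain ⟨x, hx⟩ := IsCompact.nonempty_iInter_of_directed_nonempty_isCompact_isClosed F
    (fun S S' => ⟨S.prod S', fun x hx => ⟨hx.1, hx.2.1, Set.mem_iInter₂.2 fun p hp =>
      ((S.prod_eq S').1 (Set.mem_iInter₂.1 hx.2.2 p hp)).1⟩, fun x hx => ⟨hx.1, hx.2.1,
      Set.mem_iInter₂.2 fun p hp => ((S.prod_eq S').1 (Set.mem_iInter₂.1 hx.2.2 p hp)).2⟩⟩)
    ne (fun S => (cl S).isCompact) cl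
  rw [Set.mem_iInter] at hx
  have hxC : x ∈ C := ⟨(hx R).1, fun p hp => by
    by_contra hne
    have h1 : (p * x * p⁻¹)⁻¹ * x ≠ 1 := fun h => hne (by
      rw [inv_mul_eq_one] at h
      conv_rhs => rw [← h]
      simp)
    obtain ⟨S, hS⟩ := exists_rep h1
    exact hS (S.eq_iff.1 (Set.mem_iInter₂.1 (hx S).2.2 p hp))⟩
  rw [h0, Subgroup.mem_bot] at hxC
  rw [← (hx R).2.1, hxC, map_one]

theorem closed_of_normal {C Γ : Subgroup K} (hC : CN C) (hab : NoAb C) {R : Rep K}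
    (hR : ∀ x ∈ C, R.ρ x = 1 → x = 1) (hΓ : Γ.Normal) (hle : Γ ≤ C) : IsClosed (Γ : Set K) := by
  have inj : ∀ x ∈ C, ∀ y ∈ C, R.ρ x = R.ρ y → x = y := fun x hx y hy h =>
    inv_mul_eq_one.1 (hR _ (C.mul_mem (C.inv_mem hx) hy) (R.eq_iff.1 h))
  let G' := Γ.topologicalClosure
  have c1 : IsClosed (G' : Set K) := Γ.isClosed_topologicalClosure
  have n1 : G'.Normal := Γ.is_normal_topologicalClosure
  have l1 : G' ≤ C := Γ.topologicalClosure_minimal hle hC.1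
  have l2 : Γ ≤ G' := Γ.le_topologicalClosure
  obtain ⟨B, hB⟩ := R.exists_form
  have hsp : (R.cg c1).lie ≤ Submodule.span ℝ {Y | ∃ γ : ℝ → R.A, (∀ t, γ t ∈ R.ρ '' Γ) ∧ γ 0 = 1 ∧
      HasStrictDerivAt γ Y 0} := by
    intro Z hZ
    set I := Submodule.span ℝ {Y | ∃ γ : ℝ → R.A, (∀ t, γ t ∈ R.ρ '' Γ) ∧ γ 0 = 1 ∧
      HasStrictDerivAt γ Y 0}
    have hI : I ≤ (R.cg c1).lie := Submodule.span_le.2 fun Y ⟨γ, g1, g2, g3⟩ =>
      (R.cg c1).curve (fun t => Set.image_mono l2 (g1 t)) g2 g3.hasDerivAt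
    obtain ⟨W, hW, hW'⟩ := hB.decomp I Z
    set Z' := Z - W with hZd
    have hZ' : Z' ∈ (R.cg c1).lie := Submodule.sub_mem _ hZ (hI hW)
    have fix : ∀ p ∈ Γ, R.Ad p Z' = Z' := fun p hp => by
      have hY : Z' - R.Ad p Z' ∈ (R.cg c1).lie := Submodule.sub_mem _ hZ'
        (R.Ad_mem c1 (fun h hh => n1.conj_mem h hh _) hZ')
      have m1 := hW' _ (Submodule.subset_span (R.ad_curve hΓ (Γ.inv_mem hp) (Y := Z' - R.Ad p Z')
        fun t => by obtain ⟨n, -, hn⟩ := hY t; exact ⟨n, hn⟩))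
      rw [LinearMap.map_sub₂, ← hB.adj, ← LinearMap.map_sub] at m1
      exact (sub_eq_zero.1 (hB.aniso _ m1)).symm
    have hM := hab (G' ⊓ Subgroup.centralizer Γ) (inf_le_left.trans l1)
      ⟨c1.inter (Set.isClosed_centralizer _), inferInstance⟩ (fun a ha b hb => by
        have : G' ≤ Subgroup.centralizer {a} := Γ.topologicalClosure_minimal
          (fun g hg => Subgroup.mem_centralizer_singleton_iff.2 (ha.2 g hg))
          (Set.isClosed_centralizer _)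
        exact (Subgroup.mem_centralizer_singleton_iff.1 (this hb.1)).symm)
    have : Z' = 0 := eq_zero_of_exp fun t => by
      obtain ⟨c, hc, hce⟩ := hZ' t
      have : c ∈ G' ⊓ Subgroup.centralizer (Γ : Set K) := ⟨hc, fun p hp => by
        have := inj _ (l1 (n1.conj_mem c hc p)) _ (l1 hc)
          (by rw [← R.Ad_rho, hce, ← R.exp_Ad, map_smul, fix p hp])
        conv_rhs => rw [← this]
        simp⟩
      rw [hM, Subgroup.mem_bot] at this
      rw [← hce, this, map_one]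
    rw [hZd, sub_eq_zero] at this
    rwa [this]
  have h1 := (R.cg c1).yamabe (Set.image_mono l2) ⟨1, Γ.one_mem, map_one _⟩ (by
    rintro _ ⟨x, hx, rfl⟩ _ ⟨y, hy, rfl⟩
    exact ⟨x * y, Γ.mul_mem hx hy, map_mul _ _ _⟩) hsp
  have h2 := (R.cont.tendsto' 1 1 (map_one _)).eventually h1
  refine isClosed_of_closure_subset fun k hk => ?_
  have h3 := (Continuous.tendsto' (f := fun y => y⁻¹ * k) (by fun_prop) k 1 (by simp)).eventually h2
  obtain ⟨γ, hγ, hγΓ⟩ := mem_closure_iff_nhds.1 hk _ h3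
  have hm : γ⁻¹ * k ∈ G' := G'.mul_mem (G'.inv_mem (l2 hγΓ)) hk
  obtain ⟨δ, hδ, he⟩ := hγ ⟨_, hm, rfl⟩
  have := inj _ (hle hδ) _ (l1 hm) he
  have h4 : k = γ * δ := by rw [this]; simp
  rw [h4]
  exact Γ.mul_mem hγΓ hδ

omit [TopologicalSpace K] [IsTopologicalGroup K] [CompactSpace K] [T2Space K] in
lemma comm_cc {S : Set K} (h : ∀ a ∈ S, ∀ b ∈ S, a * b = b * a) :
    Comm (Subgroup.centralizer (Subgroup.centralizer S : Set K)) ∧
      S ⊆ Subgroup.centralizer (Subgroup.centralizer S : Set K) := by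
  refine ⟨fun a ha b hb => ?_, fun a ha c hc => (hc a ha).symm⟩
  refine (ha b fun s hs => ?_).symm
  exact hb s fun s' hs' => h s' hs' s hs

theorem exists_tors_closed {Γ : Subgroup K} (hΓ : IsClosed (Γ : Set K)) {R : Rep K}
    (hR : ∀ x ∈ Γ, R.ρ x = 1 → x = 1) {x : K} (hx : x ∈ Γ) (hx1 : x ≠ 1) :
    ∃ h ∈ Γ, h ≠ 1 ∧ ∃ m, 0 < m ∧ h ^ m = 1 := by
  obtain ⟨c1, c2⟩ := comm_cc (S := {x}) (by rintro _ rfl _ rfl; rfl)
  obtain ⟨h, hh, h1, m, hm, h2⟩ := R.exists_tors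
    (H := Γ ⊓ Subgroup.centralizer (Subgroup.centralizer {x} : Set K))
    (hΓ.inter (Set.isClosed_centralizer _)) (fun a ha b hb => c1 a ha.2 b hb.2) (x := x)
    ⟨hx, c2 rfl⟩ (fun h => hx1 (hR x hx h))
  exact ⟨h, hh.1, fun h0 => h1 (by rw [h0, map_one]), m, hm, hR _ (Γ.pow_mem hh.1 m) h2⟩

end Pool.Agent.H71.Lie
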