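import Mathlib
import Pool.Agent.H71.Lie3
import Pool.Agent.H71.Compl

/-! Pseudocompact minimal groups whose closed zero-dimensional metrizable subgroups are discrete
are compact linear groups. -/

namespace Pool.Agent.H71.Lie

open Filter Topology NormedSpace TopologicalSpace

variable {K : Type} [Group K] [TopologicalSpace K] [IsTopologicalGroup K] [CompactSpace K]
  [T2Space K]

omit [IsTopologicalGroup K] [CompactSpace K] [T2Space K] in
lemma exists_perm (R : Rep K) (φ : FreeGroup ℕ →* K) (hfin : (Set.range fun w => R.ρ (φ w)).Finite)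
    (hev : ∀ᶠ n in atTop, R.ρ (φ (FreeGroup.of n)) = 1) :
    ∃ i : Σ k : ℕ, List (Equiv.Perm (Fin k)), ∀ w, R.ρ (φ w) = 1 ↔
      FreeGroup.lift (fun n => i.2.getD n 1) w = 1 := by
  let J := (R.ρ.comp φ).ker
  let Q := FreeGroup ℕ ⧸ J
  have : Finite Q := by
    have := hfin.to_subtype
    refine Finite.of_injective (fun q : Q =>
      (⟨R.ρ (φ q.out), q.out, rfl⟩ : Set.range fun w => R.ρ (φ w))) fun a b hab => ?_
    have h1 : R.ρ (φ a.out) = R.ρ (φ b.out) := congrArg Subtype.val hab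
    rw [R.eq_iff, ← map_inv, ← map_mul] at h1
    rw [← a.out_eq, ← b.out_eq]
    exact QuotientGroup.eq.2 h1
  let e := Finite.equivFin Q
  let ψ : FreeGroup ℕ →* Equiv.Perm (Fin (Nat.card Q)) :=
    (e.permCongrHom.toMonoidHom.comp (MulAction.toPermHom Q Q)).comp (QuotientGroup.mk' J)
  have hψ : ∀ w, ψ w = 1 ↔ R.ρ (φ w) = 1 := fun w => by
    change e.permCongrHom (MulAction.toPermHom Q Q (w : Q)) = 1 ↔ _
    rw [map_eq_one_iff _ e.permCongrHom.injective, map_eq_one_iff _ MulAction.toPerm_injective,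
      QuotientGroup.eq_one_iff]
    rfl
  obtain ⟨m, hm⟩ := eventually_atTop.1 hev
  refine ⟨⟨_, (List.range m).map fun n => ψ (FreeGroup.of n)⟩, fun w => ?_⟩
  rw [← hψ]
  have : FreeGroup.lift (fun n => ((List.range m).map fun n => ψ (FreeGroup.of n)).getD n 1) = ψ := by
    ext1 n
    rw [FreeGroup.lift_apply_of]
    by_cases hn : n < m
    · simp [hn]
    · rw [(hψ _).2 (hm n (not_lt.1 hn))]
      simp [hn]
  rw [this]

lemma Prof.totDisc {D : Subgroup K} (h : Prof D) : TotallyDisconnectedSpace D := by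
  refine ⟨fun s _ hs x hx y hy => ?_⟩
  by_contra hne
  obtain ⟨R, hR⟩ := exists_rep (x := (x : K)⁻¹ * y) fun h' => hne (Subtype.ext (inv_mul_eq_one.1 h'))
  have h1 : IsPreconnected ((fun z : D => R.ρ z) '' s) :=
    hs.image _ (R.cont.comp continuous_subtype_val).continuousOn
  have h2 : IsTotallyDisconnected (R.ρ '' D) := (h R).countable.isTotallyDisconnected
  exact hR (R.eq_iff.1 (h2 _ (by rintro _ ⟨z, -, rfl⟩; exact ⟨z, z.2, rfl⟩) h1
    ⟨x, hx, rfl⟩ ⟨y, hy, rfl⟩))

/-- a closed zero-dimensional metrizable non-discrete subgroup -/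
def Bad (G : Type) [Group G] [TopologicalSpace G] : Prop :=
  ∃ T : Subgroup G, IsClosed (T : Set G) ∧ IsTopologicalBasis {s : Set T | IsClopen s} ∧
    MetrizableSpace T ∧ ¬ DiscreteTopology T

theorem bad_of_null {G : Type} [Group G] [TopologicalSpace G] {j : G →* K} (hj : IsEmbedding j)
    {u : ℕ → G} (h1 : ∀ n, u n ≠ 1) (h2 : Tendsto (fun n => j (u n)) atTop (𝓝 1))
    {D : Subgroup K} (hD : IsClosed (D : Set K)) (hp : Prof D) (hu : ∀ n, j (u n) ∈ D) : Bad G := by
  classical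
  let φ : FreeGroup ℕ →* K := FreeGroup.lift fun n => j (u n)
  let T := φ.range.topologicalClosure
  have cT : IsClosed (T : Set K) := Subgroup.isClosed_topologicalClosure _
  have lT : T ≤ D := Subgroup.topologicalClosure_minimal _ (by
    rw [FreeGroup.range_lift_eq_closure, Subgroup.closure_le]
    rintro _ ⟨n, rfl⟩; exact hu n) hD
  have pT : Prof T := fun R => (hp R).subset (Set.image_mono lT)
  have mT : ∀ w, φ w ∈ T := fun w => Subgroup.le_topologicalClosure _ ⟨w, rfl⟩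
  have isol : ∀ (R : Rep K) (x : K), ∀ᶠ y in 𝓝 x, y ∈ T → R.ρ y = R.ρ x := fun R x => by
    have : IsOpen (R.ρ '' T \ {R.ρ x})ᶜ := ((pT R).subset Set.sdiff_subset).isClosed.isOpen_compl
    filter_upwards [R.cont.continuousAt.eventually (this.mem_nhds fun h => h.2 rfl)] with y hy hyT
    by_contra hne
    exact hy ⟨⟨y, hyT, rfl⟩, hne⟩
  let ι := Σ k : ℕ, List (Equiv.Perm (Fin k))
  let P : ι → Rep K → Prop := fun i R => ∀ w, R.ρ (φ w) = 1 ↔
      FreeGroup.lift (fun n => i.2.getD n 1) w = 1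
  let Ri : ι → Rep K := fun i => if h : ∃ R, P i R then h.choose else Rep.triv
  have sep : ∀ x ∈ T, (∀ i, (Ri i).ρ x = 1) → x = 1 := fun x hx hi => by
    by_contra hne
    obtain ⟨R, hR⟩ := exists_rep hne
    obtain ⟨i, hi'⟩ := exists_perm R φ ((pT R).subset (by
      rintro _ ⟨w, rfl⟩; exact ⟨_, mT w, rfl⟩)) (by
        filter_upwards [h2.eventually (isol R 1)] with n hn
        rw [FreeGroup.lift_apply_of, hn (by simpa [φ] using mT (FreeGroup.of n)), map_one])
    have ex : ∃ R, P i R := ⟨R, hi'⟩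
    have hP : P i (Ri i) := by
      simp only [Ri, dif_pos ex]; exact ex.choose_spec
    obtain ⟨_, ⟨a, b⟩, w, rfl⟩ := mem_closure_iff_nhds.1 hx _ ((isol R x).and (isol (Ri i) x))
    refine hR ?_
    rw [← a (mT w), hi', ← hP, b (mT w), hi]
  have : CompactSpace T := isCompact_iff_compactSpace.1 cT.isCompact
  have met : MetrizableSpace T := by
    let e : T → ∀ i, (Ri i).A := fun x i => (Ri i).ρ x
    have ec : Continuous e := continuous_pi fun i => (Ri i).cont.comp continuous_subtype_val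
    have ei : Function.Injective e := fun x y hxy => Subtype.ext (inv_mul_eq_one.1
      (sep _ (T.mul_mem (T.inv_mem x.2) y.2) fun i => (Ri i).eq_iff.1 (congrFun hxy i)))
    exact (ec.isClosedEmbedding ei).isEmbedding.metrizableSpace
  have := pT.totDisc
  let f : T.comap j → T := fun x => ⟨j x, x.2⟩
  have hf : IsEmbedding f := by
    refine IsEmbedding.of_comp ?_ continuous_subtype_val (hj.comp IsEmbedding.subtypeVal)
    exact (hj.continuous.comp continuous_subtype_val).subtype_mk _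
  refine ⟨T.comap j, cT.preimage hj.continuous, ?_, hf.metrizableSpace, fun hd => ?_⟩
  · refine ((isTopologicalBasis_isClopen (X := T)).isInducing hf.isInducing).of_isOpen_of_subset
      (fun s hs => hs.2) ?_
    rintro _ ⟨s, hs, rfl⟩
    exact hs.preimage hf.continuous
  · have mu : ∀ n, u n ∈ T.comap j := fun n => by simpa [φ] using mT (FreeGroup.of n)
    have t : Tendsto (fun n => (⟨u n, mu n⟩ : T.comap j)) atTop (𝓝 1) := by
      rw [(hj.comp IsEmbedding.subtypeVal).tendsto_nhds_iff]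
      simpa [Function.comp_def] using h2
    rw [nhds_discrete, tendsto_pure] at t
    obtain ⟨n, hn⟩ := t.exists
    exact h1 n (congrArg Subtype.val hn)

lemma faithful_finite {s : Set K} (hs : s.Finite) : ∃ R : Rep K, ∀ x ∈ s, R.ρ x = 1 → x = 1 := by
  induction s, hs using Set.Finite.induction_on with
  | empty => exact ⟨Rep.triv, by simp⟩
  | @insert a s _ _ ih =>
    obtain ⟨R, hR⟩ := ih
    by_cases ha : a = 1
    · exact ⟨R, by rintro x (rfl | hx); exacts [fun _ => ha, hR x hx]⟩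
    obtain ⟨S, hS⟩ := exists_rep ha
    refine ⟨R.prod S, ?_⟩
    rintro x (rfl | hx) h
    · exact absurd ((R.prod_one S).1 h).2 hS
    · exact hR x hx ((R.prod_one S).1 h).1

theorem Ess.linear_or_bad {G : Type} [Group G] [TopologicalSpace G] {j : G →* K} (h : Ess j)
    (sur : ∀ (R : Rep K) (k : K), ∃ g, R.ρ (j g) = R.ρ k) :
    (∃ R : Rep K, ∀ x, R.ρ x = 1 → x = 1) ∨ Bad G := by
  by_cases hl : ∃ R : Rep K, ∀ x, R.ρ x = 1 → x = 1
  · exact Or.inl hl
  right
  by_cases hA : ∃ D : Subgroup K, CN D ∧ Prof D ∧ (D : Set K).Infinite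
  · obtain ⟨D, hD, hp, hinf⟩ := hA
    obtain ⟨N, h1, h2, h3, h4, h5⟩ := exists_chain hD fun R => by
      by_contra hcon
      push Not at hcon
      refine hinf ((hp R).of_finite_image fun x hx y hy hxy => ?_)
      by_contra hne
      exact hcon _ (D.mul_mem (D.inv_mem hx) hy) (fun h => hne (inv_mul_eq_one.1 h)) (R.eq_iff.1 hxy)
    choose u hu hu' using fun n => h.ess (N n) (h2 n) (h4 n)
    refine bad_of_null h.emb hu (fun U hU => ?_) hD.1 hp fun n => h3 n (hu' n)
    rw [mem_map]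
    filter_upwards [chain_tendsto h1 (fun n => (h2 n).1) h5 hU] with n hn using hn (hu' n)
  push Not at hl hA
  have B1 : ∀ N : Subgroup K, CN N → N ≠ ⊥ → ∃ C ≤ N, CN C ∧
      (∃ R : Rep K, ∀ x ∈ C, R.ρ x = 1 → x = 1) ∧
      ∃ g, g ≠ 1 ∧ j g ∈ C ∧ ∃ m, 0 < m ∧ j g ^ m = 1 := fun N hN hne => by
    by_cases hD : ∃ D ≤ N, CN D ∧ D ≠ ⊥ ∧ Prof D
    · obtain ⟨D, d1, d2, d3, d4⟩ := hD
      have fin := hA D d2 d4
      obtain ⟨g, g1, g2⟩ := h.ess D d2 d3
      have := fin.to_subtype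
      obtain ⟨m, hm, hm'⟩ := isOfFinOrder_iff_pow_eq_one.1
        (isOfFinOrder_of_finite (⟨j g, g2⟩ : D))
      exact ⟨D, d1, d2, faithful_finite fin, g, g1, g2, m, hm, congrArg Subtype.val hm'⟩
    have hab : NoAb N := fun M hM cM hc => by
      by_contra hne'
      obtain ⟨D, d1, d2⟩ := exists_prof_of_comm cM hc hne'
      exact hD ⟨D, d1.trans hM, d2⟩
    obtain ⟨C, c1, c2, c3, R, hR⟩ := exists_faithful hN hab fun hp => hD ⟨N, le_rfl, hN, hne, hp⟩
    have nΓ : (C ⊓ j.range).Normal := ⟨fun c hc k => by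
      obtain ⟨g, hg⟩ := sur R k
      have a1 := c2.2.conj_mem c hc.1 k
      have a2 := c2.2.conj_mem c hc.1 (j g)
      have : j g * c * (j g)⁻¹ = k * c * k⁻¹ := by
        refine inv_mul_eq_one.1 (hR _ (C.mul_mem (C.inv_mem a2) a1) (R.eq_iff.1 ?_))
        have hg' : R.ρ (j g)⁻¹ = R.ρ k⁻¹ := by
          rw [← mul_one (R.ρ (j g)⁻¹), ← R.mul_inv k, ← mul_assoc, ← hg, R.inv_mul, one_mul]
        simp only [map_mul, hg, hg']
      refine ⟨a1, this ▸ ?_⟩
      exact j.range.mul_mem (j.range.mul_mem ⟨g, rfl⟩ hc.2) (j.range.inv_mem ⟨g, rfl⟩)⟩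
    have cΓ := closed_of_normal c2 (fun M hM => hab M (hM.trans c1)) hR nΓ inf_le_left
    obtain ⟨g, g1, g2⟩ := h.ess C c2 c3
    obtain ⟨x, ⟨x1, g', rfl⟩, x2, x3⟩ := exists_tors_closed cΓ (fun x hx => hR x hx.1)
      (x := j g) ⟨g2, g, rfl⟩ (fun h' => g1 (h.emb.injective (by rw [h', map_one])))
    exact ⟨C, c1, c2, ⟨R, hR⟩, g', fun h' => x2 (by rw [h', map_one]), x1, x3⟩
  obtain ⟨N, h1, h2, -, h4, h5⟩ := exists_chain (D := (⊤ : Subgroup K))
    ⟨isClosed_univ, inferInstance⟩ fun R => by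
      obtain ⟨x, a, b⟩ := hl R
      exact ⟨x, trivial, b, a⟩
  have evk : ∀ R : Rep K, ∃ n₀, ∀ n, n₀ ≤ n → ∀ x ∈ N n, R.ρ x = 1 := fun R => by
    obtain ⟨n₀, h0⟩ := R.dcc N h1 fun n => (h2 n).1
    refine ⟨n₀, fun n hn x hx => ?_⟩
    obtain ⟨m, hm, hm'⟩ := h0 n hn x hx
    rw [h5, Subgroup.mem_bot] at hm
    rw [← hm', hm, map_one]
  choose C c1 c2 c3 g g1 g2 m m1 m2 using fun n => B1 (N n) (h2 n) (h4 n)
  choose R hR using c3
  choose f hf using evk
  let φ : ℕ → ℕ := fun n => Nat.rec 0 (fun _ a => max (a + 1) (f (R a))) n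
  have hφ : StrictMono φ := strictMono_nat_of_lt_succ fun n =>
    lt_of_lt_of_le (Nat.lt_succ_self _) (le_max_left _ _)
  have com : ∀ a b, a < b → Commute (j (g (φ a))) (j (g (φ b))) := fun a b hab =>
    Subgroup.commute_of_normal_of_disjoint _ _ (c2 _).2 (c2 _).2 (Subgroup.disjoint_def.2
      fun {x} hx hx' => hR _ x hx (hf _ (φ b)
        ((le_max_right _ _).trans (hφ.monotone (Nat.succ_le_of_lt hab))) x (c1 _ hx'))) _ _
      (g2 _) (g2 _)
  obtain ⟨z1, z2⟩ := comm_cc (S := Set.range fun n => j (g (φ n))) (by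
    rintro _ ⟨a, rfl⟩ _ ⟨b, rfl⟩
    rcases lt_trichotomy a b with h | rfl | h
    · exact com a b h
    · rfl
    · exact (com b a h).symm)
  obtain ⟨d1, d2⟩ := prof_iInf (Set.isClosed_centralizer _) z1
    (fun S => ∏ i ∈ Finset.range (f S), m (φ i)) fun S => Finset.prod_pos fun i _ => m1 _
  refine bad_of_null h.emb (u := fun n => g (φ n)) (fun n => g1 _) (fun U hU => ?_) d1 d2
    fun n => Subgroup.mem_iInf.2 fun S => ⟨z2 ⟨n, rfl⟩, ?_⟩
  · rw [mem_map]
    filter_upwards [hφ.tendsto_atTop.eventually (chain_tendsto h1 (fun n => (h2 n).1) h5 hU)]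
      with n hn using hn (c1 _ (g2 _))
  · by_cases hn : n < f S
    · obtain ⟨c, hc⟩ := Finset.dvd_prod_of_mem (fun i => m (φ i)) (Finset.mem_range.2 hn)
      rw [hc, pow_mul, m2, one_pow, map_one]
    · rw [map_pow, hf S (φ n) ((not_lt.1 hn).trans (hφ.id_le n)) _ (c1 _ (g2 _)), one_pow]

end Pool.Agent.H71.Lie
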