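import Mathlib
import Pool.Agent.H71.Dual4
import Pool.Agent.H71.Lie4
import Pool.Agent.H71.Compl

/-! Hereditarily minimal locally compact groups are metrizable. -/

namespace Pool.Agent.H71.HM

open Filter Topology NormedSpace TopologicalSpace _root_.Pool.Agent.H71.Lie _root_.Pool.Agent.H71.Dual
open scoped Pointwise

/-- every subgroup is essential in its closure -/
def HE (K : Type) [Group K] [TopologicalSpace K] [IsTopologicalGroup K] : Prop :=
  ∀ H N : Subgroup K, IsClosed (N : Set K) → N ≤ H.topologicalClosure →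
    (∀ k ∈ H.topologicalClosure, ∀ n ∈ N, k * n * k⁻¹ ∈ N) → N ≠ ⊥ → ∃ h ∈ H, h ≠ 1 ∧ h ∈ N

variable {K : Type} [Group K] [t : TopologicalSpace K] [IsTopologicalGroup K] [T2Space K]

theorem he_of_hm (hm : ∀ (H : Subgroup K) (τ : TopologicalSpace H),
    TopologicalSpace.induced (Subtype.val : H → K) t ≤ τ → @IsTopologicalGroup H τ _ →
      @T2Space H τ → τ = TopologicalSpace.induced (Subtype.val : H → K) t) : HE K := by
  intro H N cN le nn hne
  have e := ess_of_minimal (G := H) (K := H.topologicalClosure) (fun τ a b c => hm H τ c a b)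
    (j := Subgroup.inclusion H.le_topologicalClosure)
    (IsEmbedding.inclusion H.le_topologicalClosure) ((denseRange_inclusion_iff H.le_topologicalClosure).2 le_rfl)
  obtain ⟨g, h1, h2⟩ := e.ess (N.comap (Subgroup.subtype _))
    ⟨cN.preimage continuous_subtype_val, ⟨fun n hn k => nn k k.2 n hn⟩⟩ (fun h => hne (by
      rw [eq_bot_iff]
      intro x hx
      have : (⟨x, le hx⟩ : H.topologicalClosure) ∈ N.comap (Subgroup.subtype _) := hx
      rw [h] at this
      exact congrArg Subtype.val (Subgroup.mem_bot.1 this)))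
  exact ⟨g, g.2, fun e => h1 (Subtype.ext e), h2⟩

omit [T2Space K] in
theorem HE.sub (h : HE K) {L : Subgroup K} (hL : IsClosed (L : Set K)) : HE L := by
  intro H N cN le nn hne
  have ce := hL.isClosedEmbedding_subtypeVal
  have e : ((H.map L.subtype).topologicalClosure : Set K) = Subtype.val '' (H.topologicalClosure : Set L) :=
    ce.closure_image_eq _
  obtain ⟨_, ⟨y, hy, rfl⟩, h1, z, hz, e'⟩ := h (H.map L.subtype) (N.map L.subtype)
    (ce.isClosedMap _ cN) (by
      rintro _ ⟨y, hy, rfl⟩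
      exact (e ▸ ⟨y, le hy, rfl⟩ : (y : K) ∈ ((H.map L.subtype).topologicalClosure : Set K))) (by
      rintro k hk _ ⟨y, hy, rfl⟩
      obtain ⟨k', hk', rfl⟩ : k ∈ Subtype.val '' (H.topologicalClosure : Set L) := e ▸ hk
      exact ⟨_, nn k' hk' y hy, rfl⟩)
    (fun e => hne ((Subgroup.map_eq_bot_iff_of_injective _ L.subtype_injective).1 e))
  exact ⟨y, hy, fun e => h1 (by simp [e]), L.subtype_injective e' ▸ hz⟩

theorem metrizable_of_GD' {W : Set K} (hW : W ∈ 𝓝 (1 : K)) (cW : IsCompact W)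
    (h : GD (Set.univ : Set K)) : MetrizableSpace K := by
  obtain ⟨U, hU, h⟩ := h
  choose C hC cC sC using fun m => exists_mem_nhds_isClosed_subset (hU m)
  let D : ℕ → Set K := fun n => W ∩ ⋂ i ∈ Finset.range (n + 1), C i
  have hb : (𝓝 (1 : K)).HasBasis (fun _ => True) D := ⟨fun t => ⟨fun ht => ?_, fun ⟨n, _, hn⟩ =>
    mem_of_superset (inter_mem hW ((biInter_finset_mem _).2 fun i _ => hC i)) hn⟩⟩
  · have : (𝓝 (1 : K)).IsCountablyGenerated :=
      HasCountableBasis.isCountablyGenerated ⟨hb, Set.to_countable _⟩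
    let u := IsTopologicalGroup.rightUniformSpace K
    have : (uniformity K).IsCountablyGenerated := Filter.comap.isCountablyGenerated _ _
    exact UniformSpace.metrizableSpace
  · obtain ⟨n, hn⟩ := exists_subset_nhds_of_isCompact' (V := D) (U := t)
      (Antitone.directed_ge fun a b hab => Set.inter_subset_inter_right _
        (Set.biInter_subset_biInter_left (by simpa using Set.Iio_subset_Iio (Nat.succ_le_succ hab))))
      (fun n => cW.inter_right (isClosed_biInter fun i _ => cC i))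
      (fun n => cW.isClosed.inter (isClosed_biInter fun i _ => cC i)) fun x hx => by
        rw [h x trivial fun m => sC m (Set.mem_iInter₂.1 (Set.mem_iInter.1 hx m).2 m (by simp))]
        exact ht
    exact ⟨n, trivial, hn⟩

variable [CompactSpace K]

theorem HE.tors (h : HE K) (R : Rep K) (c : K) : ∃ k, 0 < k ∧ R.ρ (c ^ k) = 1 := by
  by_cases hc : c = 1
  · exact ⟨1, one_pos, by simp [hc]⟩
  let C := (Subgroup.zpowers c).topologicalClosure
  have cC : IsClosed (C : Set K) := Subgroup.isClosed_topologicalClosure _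
  have : CompactSpace C := isCompact_iff_compactSpace.1 cC.isCompact
  have cm : ∀ a ∈ C, ∀ b ∈ C, a * b = b * a := by
    obtain ⟨c1, c2⟩ := comm_cc (S := {c}) (by rintro _ rfl _ rfl; rfl)
    have : C ≤ _ := Subgroup.topologicalClosure_minimal _ (Subgroup.zpowers_le.2 (c2 rfl))
      (Set.isClosed_centralizer _)
    exact fun a ha b hb => c1 a (this ha) b (this hb)
  have cmem : c ∈ C := Subgroup.le_topologicalClosure _ (Subgroup.mem_zpowers c)
  obtain ⟨D, -, hD, hne, hp⟩ := exists_prof_of_comm (K := C) (M := ⊤) ⟨isClosed_univ, inferInstance⟩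
    (fun a _ b _ => Subtype.ext (cm a a.2 b b.2)) (Subgroup.ne_bot_iff_exists_ne_one.2
      ⟨⟨⟨c, cmem⟩, trivial⟩, fun e => hc (congrArg (fun x => x.1.1) e)⟩)
  obtain ⟨_, ⟨m, rfl⟩, h1, h2⟩ := h (Subgroup.zpowers c) (D.map C.subtype)
    (hD.1.isCompact.image continuous_subtype_val).isClosed (Subgroup.map_subtype_le _) (by
      rintro k hk _ ⟨y, hy, rfl⟩
      exact ⟨_, hD.2.conj_mem y hy ⟨k, hk⟩, rfl⟩)
    (fun e => hne ((Subgroup.map_eq_bot_iff_of_injective _ C.subtype_injective).1 e))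
  have hm : m ≠ 0 := by rintro rfl; exact h1 (zpow_zero _)
  have h3 : c ^ m.natAbs ∈ D.map C.subtype := by
    rcases Int.natAbs_eq m with e | e
    · rw [e] at h2; simpa only [zpow_natCast] using h2
    · rw [e] at h2; simpa only [zpow_neg, zpow_natCast, inv_mem_iff] using h2
  obtain ⟨a, b, hab, e⟩ := (hp ⟨R.A, R.ρ.comp C.subtype, R.cont.comp continuous_subtype_val⟩
    ).exists_lt_map_eq_of_forall_mem (f := fun n : ℕ => R.ρ ((c ^ m.natAbs) ^ n)) fun n => by
      obtain ⟨y, hy, e⟩ := pow_mem h3 n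
      exact ⟨y, hy, congrArg R.ρ e⟩
  refine ⟨m.natAbs * (b - a), mul_pos (Int.natAbs_pos.2 hm) (Nat.sub_pos_of_lt hab), ?_⟩
  rw [pow_mul, pow_sub _ hab.le, (Commute.pow_pow_self _ _ _).inv_right.eq]
  exact R.eq_iff.1 e

theorem HE.prof (h : HE K) : Prof (⊤ : Subgroup K) := fun R => by
  have cT : IsClosed ((⊤ : Subgroup K) : Set K) := isClosed_univ
  refine R.finite_of_lie cT fun X hX => ?_
  let S : AddSubgroup ℝ :=
    { carrier := {s | exp (s • X) = 1}
      zero_mem' := by simp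
      add_mem' := fun {a b} ha hb => by
        change exp _ = 1
        rw [exp_smul_add, ha, hb, mul_one]
      neg_mem' := fun {a} ha => by
        have := exp_mul_neg (a • X)
        rwa [ha, one_mul, ← neg_smul] at this }
  rcases S.dense_or_cyclic with hd | ⟨a, ha⟩
  · exact eq_zero_of_exp fun s => closure_minimal (t := {s : ℝ | exp (s • X) = 1}) le_rfl
      (isClosed_eq (exp_cont.comp (by fun_prop)) continuous_const) (hd s)
  · refine absurd ((Set.countable_range fun p : ℤ × ℕ => p.1 * a / p.2).mono fun s _ => ?_)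
      Cardinal.not_countable_real
    obtain ⟨c, -, hc⟩ := hX s
    obtain ⟨k, hk, e⟩ := h.tors R c
    have : (k : ℝ) * s ∈ S := by
      change exp _ = 1
      rw [mul_smul, Nat.cast_smul_eq_nsmul, exp_nsmul', ← hc, ← map_pow, e]
    rw [ha, AddSubgroup.mem_closure_singleton] at this
    obtain ⟨n, hn⟩ := this
    refine ⟨(n, k), ?_⟩
    have : (k : ℝ) ≠ 0 := by positivity
    rw [zsmul_eq_mul] at hn
    simp only [hn]
    field_simp

theorem HE.clopens (h : HE K) (x : ℕ → K) :
    ∃ L : Set K, (∀ n, x n ∈ L) ∧ Countable (Clopens L) := by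
  let φ : FreeGroup ℕ →* K := FreeGroup.lift x
  let L := φ.range.topologicalClosure
  have cL : IsClosed (L : Set K) := Subgroup.isClosed_topologicalClosure _
  have : CompactSpace L := isCompact_iff_compactSpace.1 cL.isCompact
  obtain ⟨w, hw⟩ := exists_surjective_nat (FreeGroup ℕ)
  have : ∀ n, ∃ R : Rep K, R.ρ (φ (w n)) = 1 → φ (w n) = 1 := fun n => by
    by_cases e : φ (w n) = 1
    · exact ⟨Rep.triv, fun _ => e⟩
    · obtain ⟨R, hR⟩ := exists_rep e
      exact ⟨R, fun e' => absurd e' hR⟩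
  choose R hR using this
  have hN : L ⊓ ⨅ n, (R n).ρ.ker = ⊥ := by
    by_contra hne
    obtain ⟨_, ⟨v, rfl⟩, h1, h2⟩ := h φ.range _ (by
      rw [Subgroup.coe_inf, Subgroup.coe_iInf]
      exact cL.inter (isClosed_iInter fun n => (R n).ker_closed)) inf_le_left
      (fun k hk n hn => ⟨L.mul_mem (L.mul_mem hk hn.1) (L.inv_mem hk), Subgroup.mem_iInf.2 fun i =>
        (MonoidHom.normal_ker _).conj_mem _ (Subgroup.mem_iInf.1 hn.2 i) k⟩) hne
    obtain ⟨n, rfl⟩ := hw v
    exact h1 (hR n (Subgroup.mem_iInf.1 h2.2 n))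
  have := metrizable_of_GD (K := L) ⟨fun n => Subtype.val ⁻¹' (R n).ρ.ker, fun n => by
    refine continuous_subtype_val.tendsto' (1 : L) 1 rfl (IsOpen.mem_nhds ?_ (one_mem _))
    have e : ((R n).ρ.ker : Set K) = (R n).ρ ⁻¹' ((R n).ρ '' (⊤ : Subgroup K) \ {1})ᶜ := by
      ext y; simp
    rw [e]
    exact (h.prof (R n)).sdiff.isClosed.isOpen_compl.preimage (R n).cont,
    fun y _ hy => Subtype.ext (Subgroup.mem_bot.1 (hN ▸ ⟨y.2, Subgroup.mem_iInf.2 hy⟩ : y.1 ∈ (⊥ : Subgroup K)))⟩
  have : TotallyDisconnectedSpace L :=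
    Prof.totDisc fun R => (h.prof R).subset (Set.image_mono (Set.subset_univ _))
  exact ⟨L, fun n => Subgroup.le_topologicalClosure _ ⟨FreeGroup.of n, by simp [φ]⟩,
    Clopens.countable_iff_secondCountable.2 inferInstance⟩

theorem HE.gd (h : HE K) : GD (Set.univ : Set K) := by
  classical
  have : TotallyDisconnectedSpace K := by
    have := h.prof.totDisc
    exact ⟨isTotallyDisconnected_of_image (f := fun x : K => (⟨x, trivial⟩ : (⊤ : Subgroup K)))
      (by fun_prop) (fun x y e => congrArg Subtype.val e)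
      (isTotallyDisconnected_of_totallyDisconnectedSpace _)⟩
  obtain ⟨F, -, hF⟩ := Order.IsOfFiniteCharacter.exists_maximal
    (F := {F : Set (Set K) | (∀ A ∈ F, IsClopen A) ∧ ∀ (f : Set K → Prop) (u : Finset (Set K)),
      ↑u ⊆ F → ∃ x, ∀ A ∈ u, (x ∈ A ↔ f A)})
    (fun F => ⟨fun h G hG _ => ⟨fun A hA => h.1 A (hG hA), fun f u hu => h.2 f u (hu.trans hG)⟩,
      fun h => ⟨fun A hA => (h {A} (by simpa) (by simp)).1 A rfl,
        fun f u hu => (h u hu u.finite_toSet).2 f u le_rfl⟩⟩) (x := ∅)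
    ⟨by simp, fun f u hu => ⟨1, fun A hA => absurd (hu hA) (by simp)⟩⟩
  obtain ⟨F1, F2⟩ := hF.prop
  by_cases hc : F.Countable
  · have : ∀ A : Set K, ∃ U : OpenNormalSubgroup K, A ∈ F → ∀ x ∈ A, ∀ u ∈ U, x * u ∈ A := fun A => by
      by_cases hA : A ∈ F
      · obtain ⟨T, hT, hAT⟩ := IsTopologicalGroup.exist_mul_closure_nhds (F1 A hA)
        obtain ⟨U, hU⟩ := ProfiniteGrp.exist_openNormalSubgroup_sub_open_nhds_of_one
          isOpen_interior (mem_interior_iff_mem_nhds.2 hT)
        exact ⟨U, fun _ x hx u hu => hAT (Set.mul_mem_mul hx (interior_subset (hU hu)))⟩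
      · exact ⟨⟨⊤, ⟨fun _ _ _ => trivial⟩⟩, fun h => absurd h hA⟩
    choose U hU using this
    obtain ⟨a, ha⟩ := (hc.insert ∅).exists_eq_range (Set.insert_nonempty _ _)
    refine ⟨fun m => U (a m), fun m => (U (a m)).toOpenSubgroup.mem_nhds_one, fun n _ hn => ?_⟩
    by_contra hn1
    let N : Subgroup K := ⨅ m, (U (a m)).toSubgroup
    have inv : ∀ A ∈ F, ∀ x, ∀ y ∈ N, x * y ∈ A ↔ x ∈ A := fun A hA x y hy => by
      obtain ⟨m, rfl⟩ : A ∈ Set.range a := ha ▸ Set.mem_insert_of_mem _ hA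
      have := Subgroup.mem_iInf.1 hy m
      exact ⟨fun h => by simpa using hU _ hA _ h _ (inv_mem this), fun h => hU _ hA _ h _ this⟩
    obtain ⟨V, hV⟩ := ProfiniteGrp.exist_openNormalSubgroup_sub_open_nhds_of_one
      (isOpen_compl_singleton (x := n)) (Ne.symm hn1)
    let r : K → K := fun x => (x : K ⧸ N ⊔ V.toSubgroup).out
    have rr : ∀ x, ∀ y ∈ N ⊔ V.toSubgroup, r (x * y) = r x := fun x y hy => by
      simp only [r, QuotientGroup.mk_mul_of_mem x hy]
    let A : Set K := {x | x⁻¹ * r x ∈ V.toSubgroup}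
    have iA : ∀ x, ∀ y ∈ V.toSubgroup, x * y ∈ A ↔ x ∈ A := fun x y hy => by
      change _ ∈ V.toSubgroup ↔ _ ∈ V.toSubgroup
      rw [rr x y (Subgroup.mem_sup_right hy), mul_inv_rev, mul_assoc,
        Subgroup.mul_mem_cancel_left _ (inv_mem hy)]
    have nb : ∀ x, ∀ᶠ y in 𝓝 x, y ∈ A ↔ x ∈ A := fun x => by
      filter_upwards [(Continuous.tendsto' (f := fun y => x⁻¹ * y) (by fun_prop) x 1 (by simp))
        V.toOpenSubgroup.mem_nhds_one] with y hy
      simpa using iA x _ hy
    have cA : IsClopen A := ⟨isOpen_compl_iff.1 (isOpen_iff_mem_nhds.2 fun x hx =>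
      (nb x).mono fun y hy h => hx (hy.1 h)), isOpen_iff_mem_nhds.2 fun x hx =>
        (nb x).mono fun y hy => hy.2 hx⟩
    have both : ∀ x (p : Prop), ∃ y ∈ N, (x * y ∈ A ↔ p) := fun x p => by
      obtain ⟨y, hy, v, hv, e⟩ := Subgroup.mem_sup_of_normal_right.1
        (QuotientGroup.eq.1 (QuotientGroup.out_eq' (x : K ⧸ N ⊔ V.toSubgroup)).symm)
      have hnN : n ∈ N := Subgroup.mem_iInf.2 hn
      by_cases hp : p
      · refine ⟨y, hy, iff_of_true ?_ hp⟩
        change _ ∈ V.toSubgroup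
        rw [rr x y (Subgroup.mem_sup_left hy), mul_inv_rev, mul_assoc, ← e]
        simpa using hv
      · refine ⟨y * n, mul_mem hy hnN, iff_of_false (fun h => ?_) hp⟩
        change _ ∈ V.toSubgroup at h
        rw [rr x _ (Subgroup.mem_sup_left (mul_mem hy hnN)), mul_inv_rev, mul_assoc, ← e,
          mul_inv_rev, mul_assoc, inv_mul_cancel_left, Subgroup.mul_mem_cancel_right _ hv,
          inv_mem_iff] at h
        exact hV h rfl
    have hAF : A ∈ F := hF.le_of_ge (y := insert A F) ⟨fun B hB => hB.elim (· ▸ cA) (F1 B),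
      fun f u hu => by
        obtain ⟨x, hx⟩ := F2 f (u.erase A) fun B hB =>
          (hu (Finset.mem_erase.1 hB).2).resolve_left (Finset.mem_erase.1 hB).1
        obtain ⟨y, hy, e⟩ := both x (f A)
        refine ⟨x * y, fun B hB => ?_⟩
        by_cases hBA : B = A
        · rwa [hBA]
        · rw [inv B ((hu hB).resolve_left hBA) x y hy]
          exact hx B (Finset.mem_erase.2 ⟨hBA, hB⟩)⟩ (Set.subset_insert _ _) (Set.mem_insert _ _)
    obtain ⟨y, hy, e⟩ := both 1 (1 ∉ A)
    rw [inv A hAF 1 y hy] at e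
    exact iff_not_self e
  · exfalso
    let J := (Cardinal.aleph.{0} 1).out
    have hJ : Cardinal.mk J = Cardinal.aleph 1 := Cardinal.mk_out _
    obtain ⟨ι⟩ : Nonempty (J ↪ F) := by
      rw [← Cardinal.le_def, hJ, ← Cardinal.succ_aleph0, Order.succ_le_iff, ← not_le,
        Cardinal.le_aleph0_iff_set_countable]; exact hc
    obtain ⟨e⟩ : Nonempty (J ↪ Set ℕ) := by
      rw [← Cardinal.le_def, hJ, Cardinal.mk_set_nat]; exact Cardinal.aleph_one_le_continuum
    have : ∀ n : ℕ, ∃ x, ∀ A : F, (x ∈ A.1 ↔ ∃ j, (ι j).1 = A ∧ n ∈ e j) := fun n => by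
      obtain ⟨x, -, hx⟩ := isCompact_univ.inter_iInter_nonempty
        (fun A : F => {x | x ∈ A.1 ↔ ∃ j, (ι j).1 = A ∧ n ∈ e j}) (fun A => by
          by_cases hp : ∃ j, (ι j).1 = A ∧ n ∈ e j
          · simp only [hp, iff_true]; exact (F1 A A.2).1
          · simp only [hp, iff_false]; exact (F1 A A.2).compl.1) fun u => by
          obtain ⟨x, hx⟩ := F2 (fun A => ∃ j, (ι j).1 = A ∧ n ∈ e j) (u.image Subtype.val)
            (by rintro B hB; obtain ⟨A, -, rfl⟩ := Finset.mem_image.1 hB; exact A.2)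
          exact ⟨x, trivial, Set.mem_iInter₂.2 fun A hA => hx A (Finset.mem_image_of_mem _ hA)⟩
      exact ⟨x, fun A => Set.mem_iInter.1 hx A⟩
    choose x hx using this
    have hx' : ∀ n j, x n ∈ (ι j).1 ↔ n ∈ e j := fun n j => (hx n (ι j)).trans
      ⟨fun ⟨i, h1, h2⟩ => ι.injective (Subtype.ext h1) ▸ h2, fun h => ⟨j, rfl, h⟩⟩
    obtain ⟨L, hL, c⟩ := h.clopens x
    have : Countable J := Function.Injective.countable
      (f := fun j => (⟨Subtype.val ⁻¹' (ι j).1, (F1 _ (ι j).2).preimage continuous_subtype_val⟩ : Clopens L))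
      fun i j hij => e.injective (Set.ext fun n => by
        rw [← hx', ← hx']
        exact Set.ext_iff.1 (congrArg Clopens.carrier hij) ⟨x n, hL n⟩)
    have := Cardinal.mk_le_aleph0_iff.2 this
    rw [hJ] at this
    exact absurd this (not_le.2 Cardinal.aleph0_lt_aleph_one)

omit [CompactSpace K] in
theorem main [LocallyCompactSpace K] (h : HE K) : MetrizableSpace K := by
  obtain ⟨W, cW, hW⟩ := exists_compact_mem_nhds (1 : K)
  choose f f1 f2 f3 f4 using fun U : {U // U ∈ 𝓝 (1 : K)} =>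
    exists_closed_nhds_one_inv_eq_mul_subset U.2
  let V : ℕ → {U // U ∈ 𝓝 (1 : K)} := fun n => Nat.rec ⟨W, hW⟩ (fun _ U => ⟨f U, f1 U⟩) n
  have sub : ∀ n, f (V n) ⊆ (V n).1 := fun n x hx => by
    simpa using f4 _ (Set.mul_mem_mul hx (mem_of_mem_nhds (f1 _)))
  let L : Subgroup K :=
    { carrier := ⋂ n, f (V n)
      one_mem' := Set.mem_iInter.2 fun n => mem_of_mem_nhds (f1 _)
      mul_mem' := fun ha hb => Set.mem_iInter.2 fun n =>
        f4 (V (n + 1)) (Set.mul_mem_mul (Set.mem_iInter.1 ha (n + 1)) (Set.mem_iInter.1 hb (n + 1)))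
      inv_mem' := fun ha => Set.mem_iInter.2 fun n => by
        rw [← f3, Set.inv_mem_inv]; exact Set.mem_iInter.1 ha n }
  have cL : IsClosed (L : Set K) := isClosed_iInter fun n => f2 _
  have : CompactSpace L := isCompact_iff_compactSpace.1
    (cW.of_isClosed_subset cL ((Set.iInter_subset _ 0).trans (sub 0)))
  obtain ⟨U, hU, hU'⟩ := GD_of_metrizable L (metrizable_of_GD (h.sub cL).gd)
  exact metrizable_of_GD' hW cW ⟨fun n => U n ∩ f (V n), fun n => inter_mem (hU n) (f1 _),
    fun x _ hx => hU' x (Set.mem_iInter.2 fun n => (hx n).2) fun n => (hx n).1⟩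

end Pool.Agent.H71.HM
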