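import Pool.Agent.H71.Fug1

set_option autoImplicit false

namespace Pool.Agent.H71.Hag

open Set Filter Topology Metric Relation Pool.Agent.H71.Fug

variable {X : Type} [MetricSpace X]

def Ct (A : Set X) : Prop := IsClosed A ∧ IsPreconnected A

theorem Ct.un {A B : Set X} (hA : Ct A) (hB : Ct B) {x : X} (h1 : x ∈ A) (h2 : x ∈ B) :
    Ct (A ∪ B) := ⟨hA.1.union hB.1, hA.2.union x h1 h2 hB.2⟩

theorem ct_pt (x : X) : Ct ({x} : Set X) := ⟨isClosed_singleton, isPreconnected_singleton⟩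

abbrev cc (F : Set X) (x : X) : Set X := connectedComponentIn F x

theorem cc_sub (F : Set X) (x : X) : cc F x ⊆ F := connectedComponentIn_subset F x

theorem mem_cc {F : Set X} {x : X} (h : x ∈ F) : x ∈ cc F x := mem_connectedComponentIn h

theorem Ct.sub_cc {A F : Set X} (hA : Ct A) {x : X} (h1 : x ∈ A) (h2 : A ⊆ F) : A ⊆ cc F x :=
  hA.2.subset_connectedComponentIn h1 h2

theorem cc_eq {F : Set X} {x y z : X} (h1 : z ∈ cc F x) (h2 : z ∈ cc F y) : cc F x = cc F y :=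
  (connectedComponentIn_eq h1).trans (connectedComponentIn_eq h2).symm

theorem cc_ct {F : Set X} (hF : IsClosed F) (x : X) : Ct (cc F x) := by
  refine ⟨?_, isPreconnected_connectedComponentIn⟩
  by_cases hx : x ∈ F
  · exact isClosed_of_closure_subset (isPreconnected_connectedComponentIn.closure.subset_connectedComponentIn
      (subset_closure (mem_cc hx)) (closure_minimal (cc_sub F x) hF))
  · rw [cc, connectedComponentIn_eq_empty hx]; exact isClosed_empty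

theorem cut {A B : Set X} (hA : IsClosed A) (hB : IsClosed B) (h : IsPreconnected (A ∪ B)) {v : X}
    (hv : v ∈ A) (hv' : v ∈ B) (hAB : A ∩ B ⊆ {v}) : Ct A := by
  refine ⟨hA, isPreconnected_closed_iff.2 ?_⟩
  have key : ∀ F F' : Set X, IsClosed F → IsClosed F' → A ⊆ F ∪ F' → v ∈ F → (A ∩ F').Nonempty →
      (A ∩ (F ∩ F')).Nonempty := by
    rintro F F' hF hF' hc h1 ⟨y, hy⟩
    obtain ⟨x, -, h2, h3⟩ := isPreconnected_closed_iff.1 h (A ∩ F ∪ B) (A ∩ F')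
      ((hA.inter hF).union hB) (hA.inter hF') (by
        rintro x (hx | hx)
        · exact (hc hx).imp (fun h => Or.inl ⟨hx, h⟩) fun h => ⟨hx, h⟩
        · exact Or.inl (Or.inr hx)) ⟨v, Or.inl hv, Or.inr hv'⟩ ⟨y, Or.inl hy.1, hy⟩
    rcases h2 with h2 | h2
    · exact ⟨x, h3.1, h2.2, h3.2⟩
    · obtain rfl : x = v := hAB ⟨h3.1, h2⟩
      exact ⟨x, hv, h1, h3.2⟩
  intro F F' hF hF' hc h1 h2
  rcases hc hv with h3 | h3
  · exact key F F' hF hF' hc h3 h2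
  · rw [inter_comm F]; exact key F' F hF' hF (by rwa [union_comm]) h3 h1

def Tri (T : Set X) : Prop := IsCompact T ∧ IsConnected T ∧
  ∃ Z : Set X, Z ⊆ T ∧ IsCompact Z ∧ IsConnected Z ∧
    ∃ A B C : Set X, A.Nonempty ∧ B.Nonempty ∧ C.Nonempty ∧
      T \ Z = A ∪ B ∪ C ∧
      closure A ∩ B = ∅ ∧ A ∩ closure B = ∅ ∧
      closure A ∩ C = ∅ ∧ A ∩ closure C = ∅ ∧
      closure B ∩ C = ∅ ∧ B ∩ closure C = ∅

def NoTri (H : Set X) : Prop := ∀ T ⊆ H, ¬ Tri T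

variable [CompactSpace X]

theorem tb {Z A B C : Set X} (hZ : Ct Z) (hA : Ct A) (hB : Ct B) (hC : Ct C) {a b c : X}
    (ha : a ∈ A) (ha' : a ∈ Z) (hb : b ∈ B) (hb' : b ∈ Z) (hc : c ∈ C) (hc' : c ∈ Z)
    (h1 : ¬ A ⊆ Z) (h2 : ¬ B ⊆ Z) (h3 : ¬ C ⊆ Z) (h4 : A ∩ B ⊆ Z) (h5 : A ∩ C ⊆ Z)
    (h6 : B ∩ C ⊆ Z) : Tri (Z ∪ A ∪ B ∪ C) := by
  have hT := ((hZ.un hA ha' ha).un hB (Or.inl hb') hb).un hC (Or.inl (Or.inl hc')) hc
  have key : ∀ P Q : Set X, IsClosed P → P ∩ Q ⊆ Z → closure (P \ Z) ∩ (Q \ Z) = ∅ :=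
    fun P Q hP h => eq_empty_of_forall_notMem fun x hx =>
      hx.2.2 (h ⟨closure_minimal diff_subset hP hx.1, hx.2.1⟩)
  refine ⟨hT.1.isCompact, ⟨⟨c, Or.inr hc⟩, hT.2⟩, Z, fun x hx => Or.inl (Or.inl (Or.inl hx)),
    hZ.1.isCompact, ⟨⟨a, ha'⟩, hZ.2⟩, A \ Z, B \ Z, C \ Z, diff_nonempty.2 h1, diff_nonempty.2 h2,
    diff_nonempty.2 h3, ?_, key _ _ hA.1 h4, ?_, key _ _ hA.1 h5, ?_, key _ _ hB.1 h6, ?_⟩
  · ext x; simp only [mem_diff, mem_union]; tauto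
  · rw [inter_comm]; exact key _ _ hB.1 (by rwa [inter_comm])
  · rw [inter_comm]; exact key _ _ hC.1 (by rwa [inter_comm])
  · rw [inter_comm]; exact key _ _ hC.1 (by rwa [inter_comm])

theorem lim_in {A : ℕ → Set X} {F : Set X} (hF : IsClosed F) (h : ∀ m, A m ⊆ F) : Lim A ⊆ F := by
  intro x hx
  refine hF.closure_subset (Metric.mem_closure_iff.2 fun r hr => ?_)
  obtain ⟨m, a, ha, h'⟩ := (hx r hr).exists
  exact ⟨a, h m ha, h'⟩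

theorem bb {B N : Set X} (hB : Ct B) (hN : IsClosed N) {d : X} (hd : d ∈ B) (hdN : d ∈ N)
    (h : ¬ B ⊆ N) : ∃ y ∈ cc (B ∩ N) d, y ∉ interior N := by
  have : Nonempty X := ⟨d⟩
  obtain ⟨b, hb, hbN⟩ := not_subset.1 h
  let C : ℕ → Set X := fun m =>
    {y | ReflTransGen (fun u v => v ∈ B ∩ N ∧ dist u v < 1 / ((m : ℝ) + 1)) d y}
  have hCY : ∀ m, C m ⊆ B ∩ N := by
    intro m y hy
    induction hy with
    | refl => exact ⟨hd, hdN⟩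
    | tail _ h _ => exact h.1
  have hpos : ∀ m : ℕ, (0 : ℝ) < 1 / ((m : ℝ) + 1) := fun m => by positivity
  have hL : Ct (Lim C) := by
    refine ⟨lim_closed C, lim_conn fun m => ec_of_rtg (hpos m) (x := d) .refl ?_⟩
    intro y hy
    induction hy with
    | refl => rfl
    | tail h1 h ih => exact ih.tail ⟨h1.tail h, h.2⟩
  have hdL : d ∈ Lim C :=
    mem_lim (a := fun _ => d) (Eventually.of_forall fun m => .refl) tendsto_const_nhds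
  have : ∀ m, ∃ c ∈ C m, ∃ u, u ∉ N ∧ dist c u < 1 / ((m : ℝ) + 1) := by
    intro m
    have key : ∀ z, ReflTransGen (fun u v => v ∈ B ∧ dist u v < 1 / ((m : ℝ) + 1)) d z →
        z ∈ C m ∨ ∃ c ∈ C m, ∃ u, u ∉ N ∧ dist c u < 1 / ((m : ℝ) + 1) := by
      intro z hz
      induction hz with
      | refl => exact Or.inl .refl
      | @tail u v _ h ih =>
        rcases ih with ih | ih
        · by_cases h2 : v ∈ N
          · exact Or.inl (ReflTransGen.tail ih ⟨⟨h.1, h2⟩, h.2⟩)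
          · exact Or.inr ⟨u, ih, v, h2, h.2⟩
        · exact Or.inr ih
    rcases key b ((ec_of_pre (hpos m) hB.2).rtg hd hb) with h | h
    · exact (hbN (hCY m h).2).elim
    · exact h
  choose c hc u hu hcu using this
  obtain ⟨x, hx⟩ := ulim c
  refine ⟨x, hL.sub_cc hdL (lim_in (hB.1.inter hN) hCY) (mem_lim (Eventually.of_forall hc) hx),
    fun hi => ?_⟩
  obtain ⟨r, hr, hr'⟩ := Metric.isOpen_iff.1 isOpen_interior x hi
  obtain ⟨m, h1, h2⟩ := ((ev_small (half_pos hr)).and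
    (Metric.tendsto_nhds.1 hx _ (half_pos hr))).exists
  exact hu m (interior_subset (hr' (by
    rw [mem_ball]; linarith [dist_triangle_left (u m) x (c m), hcu m])))

theorem bb' {B : Set X} (hB : Ct B) {d a : X} {r : ℝ} (hr : 0 < r) (hd : d ∈ B) (hda : d ∉ ball a r)
    (ha : a ∈ B) : ∃ y ∈ cc (B ∩ (ball a r)ᶜ) d, dist y a ≤ r := by
  obtain ⟨y, h1, h2⟩ := bb hB isOpen_ball.isClosed_compl hd hda
    fun h => h ha (mem_ball_self hr)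
  rw [interior_compl, mem_compl_iff, not_not] at h2
  exact ⟨y, h1, closure_ball_subset_closedBall h2⟩

theorem ub0 {K E O : Set X} (hK : Ct K) (hE : IsClosed E) (hO : IsOpen O) (hEO : E ⊆ O) {z : X}
    (hz : z ∈ K) (hzE : z ∈ E) (h : ¬ K ⊆ E) :
    ∃ K', Ct K' ∧ z ∈ K' ∧ K' ⊆ K ∧ K' ⊆ O ∧ ¬ K' ⊆ E := by
  obtain ⟨N, hN, h1, h2⟩ := exists_compact_between hE.isCompact hO hEO
  by_cases h3 : K ⊆ N
  · exact ⟨K, hK, hz, subset_rfl, h3.trans h2, h⟩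
  · have hzN := interior_subset (h1 hzE)
    obtain ⟨y, h4, h5⟩ := bb hK hN.isClosed hz hzN h3
    exact ⟨_, cc_ct (hK.1.inter hN.isClosed) z, mem_cc ⟨hz, hzN⟩, fun x hx => (cc_sub _ _ hx).1,
      fun x hx => h2 (cc_sub _ _ hx).2, fun h6 => h5 (h1 (h6 h4))⟩

theorem three {F Z : Set X} (hF : IsClosed F) (hZ : Ct Z) {a b c : X} (ha : a ∈ F) (hb : b ∈ F)
    (hc : c ∈ F) (ha' : a ∈ Z) (hb' : b ∈ Z) (hc' : c ∈ Z) {O : Set X} (hO : IsOpen O)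
    (hZO : Z ⊆ O) (h1 : ¬ cc F a ⊆ Z) (h2 : ¬ cc F b ⊆ Z) (h3 : ¬ cc F c ⊆ Z)
    (h : ∀ T, Z ⊆ T → T ⊆ O → T ⊆ Z ∪ F → ¬ Tri T) :
    cc F a = cc F b ∨ cc F a = cc F c ∨ cc F b = cc F c := by
  by_contra hne
  push Not at hne
  obtain ⟨A, a1, a2, a3, a4, a5⟩ := ub0 (cc_ct hF a) hZ.1 hO hZO (mem_cc ha) ha' h1
  obtain ⟨B, b1, b2, b3, b4, b5⟩ := ub0 (cc_ct hF b) hZ.1 hO hZO (mem_cc hb) hb' h2
  obtain ⟨C, c1, c2, c3, c4, c5⟩ := ub0 (cc_ct hF c) hZ.1 hO hZO (mem_cc hc) hc' h3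
  refine h _ (fun x hx => Or.inl (Or.inl (Or.inl hx))) ?_ ?_ (tb hZ a1 b1 c1 a2 ha' b2 hb' c2 hc'
    a5 b5 c5 (fun x hx => (hne.1 (cc_eq (a3 hx.1) (b3 hx.2))).elim)
    (fun x hx => (hne.2.1 (cc_eq (a3 hx.1) (c3 hx.2))).elim)
    (fun x hx => (hne.2.2 (cc_eq (b3 hx.1) (c3 hx.2))).elim))
  · exact union_subset (union_subset (union_subset hZO a4) b4) c4
  · exact union_subset (union_subset (union_subset subset_union_left
      fun x hx => Or.inr (cc_sub _ _ (a3 hx))) fun x hx => Or.inr (cc_sub _ _ (b3 hx)))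
      fun x hx => Or.inr (cc_sub _ _ (c3 hx))

theorem lemR {A Y : Set X} (hA : Ct A) (hY : Ct Y) {p : X} (hp : p ∈ A) (hp' : p ∈ Y)
    (h : ¬ A ⊆ Y) (hT : NoTri (Y ∪ A)) :
    ∃ A0 A', Ct A0 ∧ Ct A' ∧ p ∈ A0 ∧ A0 ⊆ A' ∧ A' ⊆ A ∧ A' ∩ Y ⊆ A0 ∧ ¬ A' ⊆ A0 := by
  obtain ⟨a, ha, haY⟩ := not_subset.1 h
  obtain ⟨r, hr, hr'⟩ := Metric.isOpen_iff.1 hY.1.isOpen_compl a haY
  have hF : ∀ s, IsClosed (A ∩ (ball a s)ᶜ) := fun s => hA.1.inter isOpen_ball.isClosed_compl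
  have hm : ∀ s ≤ r, ∀ z ∈ A ∩ Y, z ∈ A ∩ (ball a s)ᶜ := fun s hs z hz =>
    ⟨hz.1, fun h => hr' (ball_subset_ball hs h) hz.2⟩
  have hmo : ∀ z, cc (A ∩ (ball a (r / 2))ᶜ) z ⊆ cc (A ∩ (ball a (r / 4))ᶜ) z := fun z =>
    connectedComponentIn_mono z (inter_subset_inter_right _
      (compl_subset_compl.2 (ball_subset_ball (by linarith))))
  have h4 : r / 4 ≤ r := by linarith
  have h2 : r / 2 ≤ r := by linarith
  by_cases hc : A ∩ Y ⊆ cc (A ∩ (ball a (r / 4))ᶜ) p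
  · exact ⟨_, A, cc_ct (hF _) p, hA, mem_cc (hm _ h4 p ⟨hp, hp'⟩), fun x hx => (cc_sub _ _ hx).1,
      subset_rfl, hc, fun h => (cc_sub _ _ (h ha)).2 (mem_ball_self (by linarith))⟩
  obtain ⟨q, hq, hq'⟩ := not_subset.1 hc
  refine ⟨_, _, cc_ct (hF (r / 2)) p, cc_ct (hF (r / 4)) p, mem_cc (hm _ h2 p ⟨hp, hp'⟩), hmo p,
    fun x hx => (cc_sub _ _ hx).1, fun z hz => ?_, fun h => ?_⟩
  · have hz' : z ∈ A ∩ Y := ⟨(cc_sub _ _ hz.1).1, hz.2⟩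
    have hn : ∀ z ∈ A ∩ Y, ¬ cc (A ∩ (ball a (r / 2))ᶜ) z ⊆ Y := by
      intro z hz h
      obtain ⟨y, h5, h6⟩ := bb' hA (half_pos hr) hz.1 (hm _ h2 z hz).2 ha
      exact hr' (by rw [mem_ball]; linarith) (h h5)
    rcases three (hF (r / 2)) hY (hm _ h2 p ⟨hp, hp'⟩) (hm _ h2 q hq) (hm _ h2 z hz') hp' hq.2 hz.2
      isOpen_univ (subset_univ _) (hn p ⟨hp, hp'⟩) (hn q hq) (hn z hz')
      (fun T _ _ h => hT T (h.trans (union_subset_union_right _ inter_subset_left))) with h | h | h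
    · exact (hq' (hmo p (h ▸ mem_cc (hm _ h2 q hq)))).elim
    · exact h ▸ mem_cc (hm _ h2 z hz')
    · refine (hq' ?_).elim
      rw [cc_eq hz.1 (hmo q (h ▸ mem_cc (hm _ h2 z hz')))]
      exact mem_cc (hm _ h4 q hq)
  · obtain ⟨y, h5, h6⟩ := bb' hA (show 0 < r / 4 by linarith) hp (hm _ h4 p ⟨hp, hp'⟩).2 ha
    exact (cc_sub _ _ (h h5)).2 (by rw [mem_ball]; linarith)

theorem sorg {A B C : Set X} (hA : Ct A) (hB : Ct B) (hC : Ct C) {p : X} (ha : p ∈ A) (hb : p ∈ B)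
    (hc : p ∈ C) (hT : NoTri (A ∪ B ∪ C)) : A ⊆ B ∪ C ∨ B ⊆ A ∪ C ∨ C ⊆ A ∪ B := by
  by_contra hn
  push Not at hn
  obtain ⟨A0, A', a1, a2, a3, a4, a5, a6, a7⟩ := lemR hA (hB.un hC hb hc) ha (Or.inl hb) hn.1
    fun T h => hT T (h.trans (by intro x; simp only [mem_union]; tauto))
  obtain ⟨B0, B', b1, b2, b3, b4, b5, b6, b7⟩ := lemR hB (hA.un hC ha hc) hb (Or.inl ha) hn.2.1
    fun T h => hT T (h.trans (by intro x; simp only [mem_union]; tauto))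
  obtain ⟨C0, C', c1, c2, c3, c4, c5, c6, c7⟩ := lemR hC (hA.un hB ha hb) hc (Or.inl ha) hn.2.2 hT
  refine hT _ ?_ (tb ((a1.un b1 a3 b3).un c1 (Or.inl a3) c3) a2 b2 c2 (a4 a3) (Or.inr c3)
    (b4 b3) (Or.inr c3) (c4 c3) (Or.inr c3) (fun h => a7 fun x hx => ?_) (fun h => b7 fun x hx => ?_)
    (fun h => c7 fun x hx => ?_) (fun x hx => Or.inl (Or.inl (a6 ⟨hx.1, Or.inl (b5 hx.2)⟩)))
    (fun x hx => Or.inl (Or.inl (a6 ⟨hx.1, Or.inr (c5 hx.2)⟩)))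
    (fun x hx => Or.inl (Or.inr (b6 ⟨hx.1, Or.inr (c5 hx.2)⟩))))
  · rintro x (((((h | h) | h) | h) | h) | h)
    exacts [Or.inl (Or.inl (a5 (a4 h))), Or.inl (Or.inr (b5 (b4 h))), Or.inr (c5 (c4 h)),
      Or.inl (Or.inl (a5 h)), Or.inl (Or.inr (b5 h)), Or.inr (c5 h)]
  · rcases h hx with (h | h) | h
    exacts [h, a6 ⟨hx, Or.inl (b5 (b4 h))⟩, a6 ⟨hx, Or.inr (c5 (c4 h))⟩]
  · rcases h hx with (h | h) | h
    exacts [b6 ⟨hx, Or.inl (a5 (a4 h))⟩, h, b6 ⟨hx, Or.inr (c5 (c4 h))⟩]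
  · rcases h hx with (h | h) | h
    exacts [c6 ⟨hx, Or.inl (a5 (a4 h))⟩, c6 ⟨hx, Or.inr (b5 (b4 h))⟩, h]

theorem chain_sub {c : Set (Set X)} (hc : IsChain (· ⊆ ·) c) (hne : c.Nonempty)
    (h : ∀ L ∈ c, IsClosed L) {O : Set X} (hO : IsOpen O) (hs : ⋂₀ c ⊆ O) : ∃ L ∈ c, L ⊆ O := by
  have := hne.to_subtype
  obtain ⟨i, hi⟩ := exists_subset_nhds_of_compactSpace (V := fun i : c => (i : Set X)) (U := O)
    (fun i j => (hc.total i.2 j.2).elim (fun h => ⟨i, subset_rfl, h⟩) fun h => ⟨j, h, subset_rfl⟩)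
    (fun i => h i i.2) fun x hx => hO.mem_nhds (hs (by rwa [sInter_eq_iInter]))
  exact ⟨i, i.2, hi⟩

theorem chain_ct {c : Set (Set X)} (hc : IsChain (· ⊆ ·) c) (hne : c.Nonempty)
    (h : ∀ L ∈ c, Ct L) : Ct (⋂₀ c) := by
  have hcl : IsClosed (⋂₀ c) := isClosed_sInter fun L hL => (h L hL).1
  refine ⟨hcl, isPreconnected_closed_iff.2 ?_⟩
  rintro F F' hF hF' hcov ⟨x, hx⟩ ⟨y, hy⟩
  by_contra hn
  have hd : Disjoint (⋂₀ c ∩ F) (⋂₀ c ∩ F') :=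
    disjoint_left.2 fun z h1 h2 => hn ⟨z, h1.1, h1.2, h2.2⟩
  obtain ⟨δ, hδ, hd⟩ := hd.exists_thickenings (hcl.inter hF).isCompact (hcl.inter hF')
  obtain ⟨L, hL, h1⟩ := chain_sub hc hne (fun L hL => (h L hL).1)
    (isOpen_thickening.union isOpen_thickening) fun z hz => (hcov hz).imp
      (fun h => self_subset_thickening hδ (⋂₀ c ∩ F) ⟨hz, h⟩)
      (fun h => self_subset_thickening hδ (⋂₀ c ∩ F') ⟨hz, h⟩)
  obtain ⟨z, -, h2⟩ := (h L hL).2 _ _ isOpen_thickening isOpen_thickening h1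
    ⟨x, hx.1 L hL, self_subset_thickening hδ _ hx⟩ ⟨y, hy.1 L hL, self_subset_thickening hδ _ hy⟩
  exact disjoint_left.1 hd h2.1 h2.2

theorem exmin (Φ : Set X → Prop) (hΦ : ∀ c : Set (Set X), IsChain (· ⊆ ·) c → c.Nonempty →
    (∀ L ∈ c, Ct L ∧ Φ L) → Φ (⋂₀ c)) {L : Set X} (hL : Ct L) (h : Φ L) :
    ∃ M ⊆ L, Ct M ∧ Φ M ∧ ∀ M' ⊆ M, Ct M' → Φ M' → M' = M := by
  obtain ⟨M, h1, h2⟩ := zorn_superset_nonempty {M | Ct M ∧ Φ M} (fun c h1 h2 h3 =>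
    ⟨⋂₀ c, ⟨chain_ct h2 h3 fun L hL => (h1 hL).1, hΦ c h2 h3 h1⟩,
      fun s hs => sInter_subset_of_mem hs⟩) L ⟨hL, h⟩
  exact ⟨M, h1, h2.1.1, h2.1.2, fun M' h3 h4 h5 => h3.antisymm (h2.2 ⟨h4, h5⟩ h3)⟩

def Bas (𝒪 : Set (Set X)) : Prop := 𝒪.Countable ∧ (∀ O ∈ 𝒪, IsOpen O) ∧
  ∀ K W : Set X, IsClosed K → IsOpen W → K ⊆ W → ∃ O ∈ 𝒪, K ⊆ O ∧ closure O ⊆ W

theorem exO : ∃ 𝒪 : Set (Set X), Bas 𝒪 := by
  obtain ⟨b, hb, -, hB⟩ := TopologicalSpace.exists_countable_basis X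
  refine ⟨sUnion '' {t | t.Finite ∧ t ⊆ b}, (countable_setOf_finite_subset hb).image _, ?_, ?_⟩
  · rintro _ ⟨t, ht, rfl⟩
    exact isOpen_sUnion fun s hs => hB.isOpen (ht.2 hs)
  · intro K W hK hW hKW
    obtain ⟨N, hN, h1, h2⟩ := exists_compact_between hK.isCompact hW hKW
    obtain ⟨t, h3, h4, h5⟩ := hK.isCompact.elim_finite_subcover_image
      (b := {s ∈ b | s ⊆ N}) (c := id) (fun s hs => hB.isOpen hs.1) (by
        intro x hx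
        obtain ⟨s, h3, h4, h5⟩ := hB.exists_subset_of_mem_open (h1 hx) isOpen_interior
        exact mem_iUnion₂.2 ⟨s, ⟨h3, h5.trans interior_subset⟩, h4⟩)
    refine ⟨⋃₀ t, ⟨t, ⟨h4, fun s hs => (h3 hs).1⟩, rfl⟩, by rwa [sUnion_eq_biUnion],
      (closure_minimal (sUnion_subset fun s hs => (h3 hs).2) hN.isClosed).trans h2⟩

omit [CompactSpace X] in
theorem Bas.sep {𝒪 : Set (Set X)} (h : Bas 𝒪) {A B : Set X} (hA : IsClosed A) (hB : IsClosed B)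
    {V W : Set X} (hV : IsOpen V) (hW : IsOpen W) (h1 : A ⊆ V) (h2 : B ⊆ W)
    (hd : ∀ x ∈ A, x ∉ B) : ∃ O ∈ 𝒪, ∃ O' ∈ 𝒪, A ⊆ O ∧ B ⊆ O' ∧ closure O ⊆ V ∧ closure O' ⊆ W ∧
      ∀ x ∈ closure O, x ∉ closure O' := by
  obtain ⟨O, h3, h4, h5⟩ := h.2.2 A (V ∩ Bᶜ) hA (hV.inter hB.isOpen_compl) fun x hx => ⟨h1 hx, hd x hx⟩
  obtain ⟨O', h6, h7, h8⟩ := h.2.2 B (W ∩ (closure O)ᶜ) hB (hW.inter isClosed_closure.isOpen_compl)
    fun x hx => ⟨h2 hx, fun h => (h5 h).2 hx⟩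
  exact ⟨O, h3, O', h6, h4, h7, fun x hx => (h5 hx).1, fun x hx => (h8 hx).1,
    fun x hx hx' => (h8 hx').2 hx⟩

end Pool.Agent.H71.Hag
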