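import Pool.Agent.H71.Hag1

set_option autoImplicit false

namespace Pool.Agent.H71.Hag

open Set Filter Topology Metric Relation Pool.Agent.H71.Fug

variable {X : Type} [MetricSpace X] {D : Set X}

def Sm (D L : Set X) : Prop :=
  ∃ O, IsOpen O ∧ L ⊆ O ∧ ∀ H, Ct H → H ⊆ O → (H ∩ L).Nonempty → ∀ x ∈ H, x ∉ D

theorem Sm.mono {L L' : Set X} (h : Sm D L) (h' : L' ⊆ L) : Sm D L' := by
  obtain ⟨O, h1, h2, h3⟩ := h
  exact ⟨O, h1, h'.trans h2, fun H h4 h5 h6 => h3 H h4 h5 (h6.mono (inter_subset_inter_right _ h'))⟩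

theorem Sm.nm {L : Set X} (h : Sm D L) : ∀ x ∈ L, x ∉ D := by
  obtain ⟨O, h1, h2, h3⟩ := h
  exact fun x hx => h3 {x} (ct_pt x) (singleton_subset_iff.2 (h2 hx)) ⟨x, rfl, hx⟩ x rfl

theorem Sm.nb {L : Set X} (h : Sm D L) :
    ∃ O, IsOpen O ∧ L ⊆ O ∧ ∀ H, Ct H → H ⊆ O → (H ∩ L).Nonempty → Sm D H := by
  obtain ⟨O, h1, h2, h3⟩ := h
  refine ⟨O, h1, h2, fun H h4 h5 h6 => ⟨O, h1, h5, ?_⟩⟩
  rintro H' h7 h8 ⟨y, h9, h10⟩ x hx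
  exact h3 _ (h4.un h7 h10 h9) (union_subset h5 h8)
    (h6.mono (inter_subset_inter_left _ subset_union_left)) x (Or.inr hx)

theorem Tri.ct {T : Set X} (h : Tri T) : Ct T := ⟨h.1.isClosed, h.2.1.2⟩

theorem Sm.noTri (hT : ∀ T, Tri T → ¬ Sm D T) {L : Set X} (h : Sm D L) : NoTri L :=
  fun T h1 h2 => hT T h2 (h.mono h1)

theorem nd (hD : Dense D) {K : Set X} (hK : IsClosed K) (h : ∀ x ∈ K, x ∉ D) : IsMeagre K := by
  refine IsNowhereDense.isMeagre (hK.isNowhereDense_iff.2 ?_)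
  by_contra hc
  obtain ⟨x, h1, h2⟩ := hD.exists_mem_open isOpen_interior (nonempty_iff_ne_empty.2 hc)
  exact h x (interior_subset h2) h1

theorem two_count {α : Type} {F : Set α}
    (h : ∀ a ∈ F, ∀ b ∈ F, ∀ c ∈ F, a = b ∨ a = c ∨ b = c) : F.Countable := by
  by_cases h1 : F.Subsingleton
  · exact h1.finite.countable
  obtain ⟨a, ha, b, hb, hab⟩ := not_subsingleton_iff.1 h1
  refine (toFinite {a, b}).countable.mono fun c hc => ?_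
  rcases h a ha b hb c hc with h | h | h
  exacts [(hab h).elim, Or.inl h.symm, Or.inr h.symm]

def Gd (D : Set X) (v : X) : Prop := Sm D {v} ∧
  ∀ L L', Ct L → Ct L' → v ∈ L → v ∈ L' → Sm D L → Sm D L' → Sm D (L ∪ L')

def PB (D G : Set X) : Prop := ∀ L L', Ct L → Ct L' → ¬ Sm D L → ¬ Sm D L' →
  (L ∩ G).Nonempty → (L' ∩ G).Nonempty → (L ∩ L').Nonempty

def Mn (D : Set X) (v : X) (P : Set X) : Prop := Ct P ∧ (v ∈ P ∧ ¬ Sm D P) ∧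
  ∀ M ⊆ P, Ct M → v ∈ M ∧ ¬ Sm D M → M = P

def Two (D : Set X) (v : X) (P Q : Set X) : Prop := Mn D v P ∧ Mn D v Q ∧ P ∩ Q ⊆ {v} ∧
  (∀ L, Ct L → v ∈ L → ¬ Sm D L → P ⊆ L ∨ Q ⊆ L) ∧ ∀ I, Ct I → v ∈ I → Sm D I → I ⊆ P ∪ Q

theorem Two.symm {v : X} {P Q : Set X} (h : Two D v P Q) : Two D v Q P :=
  ⟨h.2.1, h.1, by rw [inter_comm]; exact h.2.2.1, fun L a b c => (h.2.2.2.1 L a b c).symm,
    fun I a b c => by rw [union_comm]; exact h.2.2.2.2 I a b c⟩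

theorem Two.cut {v : X} {P Q I : Set X} (h : Two D v P Q) (hI : Ct I) (hv : v ∈ I) (hs : Sm D I) :
    Ct (I ∩ P) := by
  refine Hag.cut (hI.1.inter h.1.1.1) (hI.1.inter h.2.1.1.1) ?_ ⟨hv, h.1.2.1.1⟩ ⟨hv, h.2.1.2.1.1⟩
    fun x hx => h.2.2.1 ⟨hx.1.2, hx.2.2⟩
  rw [← inter_union_distrib_left, inter_eq_left.2 (h.2.2.2.2 I hI hv hs)]
  exact hI.2

theorem fin0 {G : Set X} (hB : PB D G) {v w : X} (hvG : v ∈ G) (hwG : w ∈ G) (hne : v ≠ w)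
    {P P' Q Q' I : Set X} (h : Two D v P P') (h' : Two D w Q Q') (hI : Ct I) (hs : Sm D I)
    (hv : v ∈ I) (hw : w ∈ I) (h1 : I ⊆ P') (h2 : I ⊆ Q) : False := by
  rcases h'.2.2.2.1 P' h.2.1.1 (h1 hw) h.2.1.2.1.2 with h3 | h3
  · obtain rfl := h.2.1.2.2 Q h3 h'.1.1 ⟨h2 hv, h'.1.2.1.2⟩
    rcases h'.2.2.2.1 _ (h.1.1.un hI h.1.2.1.1 hv) (Or.inr hw)
      (fun h4 => h.1.2.1.2 (h4.mono subset_union_left)) with h4 | h4
    · refine h'.1.2.1.2 (hs.mono fun x hx => (h4 hx).elim (fun h5 => ?_) id)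
      obtain rfl : x = v := h.2.2.1 ⟨h5, hx⟩
      exact hv
    · by_cases h5 : (Q' ∩ P).Nonempty
      · obtain ⟨x, -, h6, h7⟩ := isPreconnected_closed_iff.1 h'.2.1.1.2 P {w} h.1.1.1
          isClosed_singleton (fun x hx => (h4 hx).imp id fun h6 => h'.2.2.1 ⟨h2 h6, hx⟩) h5
          ⟨w, h'.2.1.2.1.1, rfl⟩
        obtain rfl : x = w := h7
        exact hne (h.2.2.1 ⟨h6, h1 hw⟩).symm
      · exact h'.2.1.2.1.2 (hs.mono fun x hx => (h4 hx).elim (fun h6 => (h5 ⟨x, hx, h6⟩).elim) id)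
  · obtain ⟨x, h4, h5⟩ := hB P Q' h.1.1 h'.2.1.1 h.1.2.1.2 h'.2.1.2.1.2 ⟨v, h.1.2.1.1, hvG⟩
      ⟨w, h'.2.1.2.1.1, hwG⟩
    obtain rfl : x = v := h.2.2.1 ⟨h4, h3 h5⟩
    exact hne (h'.2.2.1 ⟨h2 hv, h5⟩)

theorem fin1 {G : Set X} (hB : PB D G) {v w : X} (hvG : v ∈ G) (hwG : w ∈ G) (hne : v ≠ w)
    {P P' Q Q' I : Set X} (h : Two D v P P') (h' : Two D w Q Q') (hI : Ct I) (hs : Sm D I)
    (hv : v ∈ I) (hw : w ∈ I) : False := by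
  have k1 : ∀ {P P' Q Q' I : Set X}, Two D v P P' → Two D w Q Q' → Ct I → Sm D I → v ∈ I →
      w ∈ I → I ⊆ P' → v ∈ Q → False := fun h h' hI hs hv hw h1 h2 =>
    fin0 hB hvG hwG hne h h' (h'.cut hI hw hs) (hs.mono inter_subset_left) ⟨hv, h2⟩
      ⟨hw, h'.1.2.1.1⟩ (inter_subset_left.trans h1) inter_subset_right
  have k2 : ∀ {P P' : Set X}, Two D v P P' → w ∈ P' → False := fun h h1 => by
    have e1 := h.symm.cut hI hv hs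
    rcases h'.2.2.2.2 I hI hw hs hv with h2 | h2
    · exact k1 h h' e1 (hs.mono inter_subset_left) ⟨hv, h.2.1.2.1.1⟩ ⟨hw, h1⟩ inter_subset_right h2
    · exact k1 h h'.symm e1 (hs.mono inter_subset_left) ⟨hv, h.2.1.2.1.1⟩ ⟨hw, h1⟩
        inter_subset_right h2
  rcases h.2.2.2.2 I hI hv hs hw with h1 | h1
  exacts [k2 h.symm h1, k2 h h1]

variable [CompactSpace X]

theorem exD [Nonempty X]
    (h : ∀ 𝒯 : Set (Set X), 𝒯.PairwiseDisjoint id → (∀ T ∈ 𝒯, Tri T) → 𝒯.Countable) :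
    ∃ D : Set X, D.Countable ∧ Dense D ∧ ∀ T, Tri T → ¬ Sm D T := by
  obtain ⟨𝒪, hO⟩ := exO (X := X)
  obtain ⟨D0, h1, h2⟩ := TopologicalSpace.exists_countable_dense X
  have : ∀ O : Set X, ∃ M : Set (Set X),
      Maximal (· ∈ {𝒯 : Set (Set X) | 𝒯.PairwiseDisjoint id ∧ ∀ T ∈ 𝒯, Tri T ∧ T ⊆ O}) M := by
    intro O
    refine zorn_subset _ fun c h3 h4 => ⟨⋃₀ c, ⟨?_, ?_⟩, fun s hs => subset_sUnion_of_mem hs⟩
    · exact (pairwiseDisjoint_sUnion h4.directedOn).2 fun a ha => (h3 ha).1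
    · rintro T ⟨s, hs, hT⟩
      exact (h3 hs).2 T hT
  choose M hM using this
  have : ∀ T : Set X, ∃ x, T.Nonempty → x ∈ T := fun T => by
    by_cases h : T.Nonempty
    · exact ⟨h.some, fun _ => h.some_mem⟩
    · exact ⟨Classical.arbitrary X, fun h' => absurd h' h⟩
  choose pt hpt using this
  refine ⟨D0 ∪ ⋃ O ∈ 𝒪, pt '' M O, h1.union (hO.1.biUnion fun O _ =>
    (h _ (hM O).1.1 fun T hT => ((hM O).1.2 T hT).1).image _), h2.mono subset_union_left, ?_⟩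
  rintro T hT ⟨W, h3, h4, h5⟩
  obtain ⟨O, h6, h7, h8⟩ := hO.2.2 T W hT.ct.1 h3 h4
  obtain ⟨T', h9, h10⟩ : ∃ T' ∈ M O, (T' ∩ T).Nonempty := by
    by_contra hc
    push Not at hc
    have := (hM O).2 (y := insert T (M O)) ⟨(hM O).1.1.insert fun T' h9 _ =>
      disjoint_iff_inter_eq_empty.2 (by rw [id, id, inter_comm]; exact hc T' h9), by
        rintro T' (rfl | h9)
        exacts [⟨hT, h7⟩, (hM O).1.2 T' h9]⟩ (subset_insert _ _)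
    have := hc T (this (mem_insert _ _))
    rw [inter_self] at this
    exact hT.2.1.1.ne_empty this
  have h11 := (hM O).1.2 T' h9
  exact h5 T' h11.1.ct (h11.2.trans (subset_closure.trans h8)) h10 _ (hpt _ h11.1.2.1.1)
    (Or.inr (mem_iUnion₂.2 ⟨O, h6, T', h9, rfl⟩))

theorem lemB (hS : ∀ A B : Set X, IsCompact A → IsConnected A → (interior A).Nonempty →
    IsCompact B → IsConnected B → (interior B).Nonempty → (A ∩ B).Nonempty) (hD : D.Countable) :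
    ∃ G ∈ residual X, PB D G := by
  obtain ⟨𝒪, hO⟩ := exO (X := X)
  refine ⟨⋂ O ∈ 𝒪, ⋂ d ∈ D, (frontier (cc (closure O) d))ᶜ, (countable_bInter_mem hO.1).2 fun O _ =>
    (countable_bInter_mem hD).2 fun d _ => residual_of_dense_open isClosed_frontier.isOpen_compl
      (interior_eq_empty_iff_dense_compl.1 (interior_frontier (cc_ct isClosed_closure d).1)), ?_⟩
  have key : ∀ L, Ct L → ¬ Sm D L → ∀ g ∈ L ∩ ⋂ O ∈ 𝒪, ⋂ d ∈ D, (frontier (cc (closure O) d))ᶜ,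
      ∀ O ∈ 𝒪, L ⊆ O → ∃ N, IsCompact N ∧ IsConnected N ∧ (interior N).Nonempty ∧
        N ⊆ closure O := by
    intro L h1 h2 g hg O h3 h4
    have : ∃ H, Ct H ∧ H ⊆ O ∧ (H ∩ L).Nonempty ∧ ∃ x ∈ H, x ∈ D := by
      by_contra hc
      push Not at hc
      exact h2 ⟨O, hO.2.1 O h3, h4, hc⟩
    obtain ⟨H, h5, h6, ⟨y, h7, h8⟩, d, h9, h10⟩ := this
    have h11 : g ∈ cc (closure O) d := (h5.un h1 h7 h8).sub_cc (Or.inl h9)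
      ((union_subset h6 h4).trans subset_closure) (Or.inr hg.1)
    have h12 := cc_ct (isClosed_closure (s := O)) d
    refine ⟨_, h12.1.isCompact, ⟨⟨g, h11⟩, h12.2⟩, ⟨g, ?_⟩, cc_sub _ _⟩
    have := mem_iInter₂.1 (mem_iInter₂.1 hg.2 O h3) d h10
    by_contra hc
    exact this ⟨subset_closure h11, hc⟩
  rintro L L' h1 h2 h3 h4 ⟨g, hg⟩ ⟨g', hg'⟩
  by_contra hc
  obtain ⟨O, h5, O', h6, h7, h8, -, -, h9⟩ := hO.sep h1.1 h2.1 isOpen_univ isOpen_univ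
    (subset_univ _) (subset_univ _) fun x a b => hc ⟨x, a, b⟩
  obtain ⟨N, a1, a2, a3, a4⟩ := key L h1 h3 g hg O h5 h7
  obtain ⟨N', b1, b2, b3, b4⟩ := key L' h2 h4 g' hg' O' h6 h8
  obtain ⟨x, h10, h11⟩ := hS N N' a1 a2 a3 b1 b2 b3
  exact h9 x (a4 h10) (b4 h11)

theorem star (hD : Dense D) (hT : ∀ T, Tri T → ¬ Sm D T) {Z : Set X} (hZ : Ct Z) (hs : Sm D Z) :
    IsMeagre {v | ∃ L, Ct L ∧ Sm D L ∧ v ∈ L ∧ (L ∩ Z).Nonempty} := by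
  obtain ⟨𝒪, hO⟩ := exO (X := X)
  obtain ⟨W, h1, h2, h3⟩ := hs.nb
  let F : Set X → Set (Set X) := fun O =>
    {K | ∃ z ∈ Z, z ∈ closure O ∧ K = cc (closure O) z ∧ ¬ K ⊆ Z ∧ ∀ x ∈ K, x ∉ D}
  refine IsMeagre.mono (s := Z ∪ ⋃ O ∈ 𝒪, ⋃ K ∈ F O, K) ?_ ((nd hD hZ.1 hs.nm).union
    (isMeagre_biUnion hO.1 fun O _ => isMeagre_biUnion (two_count ?_) ?_))
  · rintro v ⟨L, a1, a2, a3, z, a4, a5⟩
    by_cases hv : v ∈ Z
    · exact Or.inl hv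
    obtain ⟨W', b1, b2, b3⟩ := a2
    obtain ⟨O, b4, b5, b6⟩ := hO.2.2 L W' a1.1 b1 b2
    have b7 := a1.sub_cc a4 (b5.trans subset_closure)
    exact Or.inr (mem_iUnion₂.2 ⟨O, b4, mem_iUnion₂.2 ⟨_, ⟨z, a5, subset_closure (b5 a4), rfl,
      fun h => hv (h (b7 a3)), b3 _ (cc_ct isClosed_closure z) ((cc_sub _ _).trans b6)
        ⟨z, b7 a4, a4⟩⟩, b7 a3⟩⟩)
  · rintro _ ⟨a, a1, a2, rfl, a3, -⟩ _ ⟨b, b1, b2, rfl, b3, -⟩ _ ⟨c, c1, c2, rfl, c3, -⟩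
    exact three isClosed_closure hZ a2 b2 c2 a1 b1 c1 h1 h2 a3 b3 c3
      fun T t1 t2 _ t3 => hT T t3 (h3 T t3.ct t2 ⟨a, t1 a1, a1⟩)
  · rintro _ ⟨a, -, -, rfl, -, a4⟩
    exact nd hD (cc_ct isClosed_closure a).1 a4

theorem exG [ConnectedSpace X] [Nontrivial X] (hD : Dense D) (hT : ∀ T, Tri T → ¬ Sm D T)
    {G : Set X} (hG : G ∈ residual X) (hB : PB D G) :
    ∃ G' ∈ residual X, PB D G' ∧ ∀ v ∈ G', Gd D v := by
  have h1 : IsMeagre {v | v ∈ G ∧ ¬ Sm D {v}} := by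
    by_cases h : {v | v ∈ G ∧ ¬ Sm D {v}}.Nonempty
    · obtain ⟨a, ha⟩ := h
      refine IsMeagre.mono (s := {a}) (fun v hv => ?_) (IsNowhereDense.isMeagre
        (isClosed_singleton.isNowhereDense_iff.2 (interior_singleton a)))
      obtain ⟨x, rfl, h⟩ := hB _ _ (ct_pt v) (ct_pt a) hv.2 ha.2 ⟨v, rfl, hv.1⟩ ⟨a, rfl, ha.1⟩
      exact h
    · rw [not_nonempty_iff_eq_empty.1 h]; exact IsMeagre.empty
  have h2 : IsMeagre {v | v ∈ G ∧ ∃ L L', Ct L ∧ Ct L' ∧ v ∈ L ∧ v ∈ L' ∧ Sm D L ∧ Sm D L' ∧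
      ¬ Sm D (L ∪ L')} := by
    by_cases h : {v | v ∈ G ∧ ∃ L L', Ct L ∧ Ct L' ∧ v ∈ L ∧ v ∈ L' ∧ Sm D L ∧ Sm D L' ∧
      ¬ Sm D (L ∪ L')}.Nonempty
    · obtain ⟨a, ha, Z, Z', a1, a2, a3, a4, a5, a6, a7⟩ := h
      refine IsMeagre.mono ?_ ((star hD hT a1 a5).union (star hD hT a2 a6))
      rintro v ⟨hv, L, L', b1, b2, b3, b4, b5, b6, b7⟩
      obtain ⟨x, h3 | h3, h4 | h4⟩ := hB _ _ (b1.un b2 b3 b4) (a1.un a2 a3 a4) b7 a7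
        ⟨v, Or.inl b3, hv⟩ ⟨a, Or.inl a3, ha⟩
      exacts [Or.inl ⟨L, b1, b5, b3, x, h3, h4⟩, Or.inr ⟨L, b1, b5, b3, x, h3, h4⟩,
        Or.inl ⟨L', b2, b6, b4, x, h3, h4⟩, Or.inr ⟨L', b2, b6, b4, x, h3, h4⟩]
    · rw [not_nonempty_iff_eq_empty.1 h]; exact IsMeagre.empty
  refine ⟨_, inter_mem hG (h1.union h2), fun L L' a b c d e f => hB L L' a b c d
    (e.mono (inter_subset_inter_right _ inter_subset_left))
    (f.mono (inter_subset_inter_right _ inter_subset_left)), fun v hv => ⟨?_, ?_⟩⟩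
  · by_contra hc
    exact hv.2 (Or.inl ⟨hv.1, hc⟩)
  · intro L L' a b c d e f
    by_contra hc
    exact hv.2 (Or.inr ⟨hv.1, L, L', a, b, c, d, e, f, hc⟩)

theorem exMn {v : X} {L : Set X} (h1 : Ct L) (h2 : v ∈ L) (h3 : ¬ Sm D L) : ∃ P ⊆ L, Mn D v P := by
  refine exmin (fun M => v ∈ M ∧ ¬ Sm D M) (fun c a b h => ⟨fun M hM => (h M hM).2.1, fun hs => ?_⟩)
    h1 ⟨h2, h3⟩
  obtain ⟨O, h4, h5, h6⟩ := hs.nb
  obtain ⟨M, h7, h8⟩ := chain_sub a b (fun M hM => (h M hM).1.1) h4 h5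
  exact (h M h7).2.2 (h6 M (h M h7).1 h8 ⟨v, (h M h7).2.1, fun M hM => (h M hM).2.1⟩)

theorem ub {v : X} {P E : Set X} (h1 : Ct P) (h2 : v ∈ P) (h3 : ¬ Sm D P) (h4 : Ct E)
    (h5 : v ∈ E) (h6 : Sm D E) : ∃ L, Ct L ∧ v ∈ L ∧ L ⊆ P ∧ Sm D L ∧ ¬ L ⊆ E := by
  obtain ⟨O, a1, a2, a3⟩ := h6.nb
  obtain ⟨L, b1, b2, b3, b4, b5⟩ := ub0 h1 h4.1 a1 a2 h2 h5 fun h => h3 (h6.mono h)
  exact ⟨L, b1, b2, b3, a3 L b1 b4 ⟨v, b2, h5⟩, b5⟩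

theorem Gd.sorg (hT : ∀ T, Tri T → ¬ Sm D T) {v : X} (hv : Gd D v) {A B C : Set X} (hA : Ct A)
    (hB : Ct B) (hC : Ct C) (ha : v ∈ A) (hb : v ∈ B) (hc : v ∈ C) (h1 : Sm D A) (h2 : Sm D B)
    (h3 : Sm D C) : A ⊆ B ∪ C ∨ B ⊆ A ∪ C ∨ C ⊆ A ∪ B :=
  Hag.sorg hA hB hC ha hb hc (Sm.noTri hT (hv.2 _ _ (hA.un hB ha hb) hC (Or.inl ha) hc
    (hv.2 _ _ hA hB ha hb h1 h2) h3))

theorem uc (hT : ∀ T, Tri T → ¬ Sm D T)
    (hA : ∀ v x : X, v ≠ x → ∃ P, Ct P ∧ v ∈ P ∧ ¬ Sm D P ∧ x ∉ P) {v : X} (hv : Gd D v)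
    {L L' : Set X} (h1 : Ct L) (h2 : Ct L') (h3 : v ∈ L) (h4 : v ∈ L') (h5 : Sm D L) (h6 : Sm D L')
    {a : X} (ha : a ∈ L) (ha' : a ∈ L') : a ∈ cc (L ∩ L') v := by
  obtain ⟨M, m1, m2, ⟨m3, m4⟩, m5⟩ := exmin (fun M => v ∈ M ∧ a ∈ M)
    (fun c _ _ h => ⟨fun M hM => (h M hM).2.1, fun M hM => (h M hM).2.2⟩) h1 ⟨h3, ha⟩
  refine m2.sub_cc m3 (subset_inter m1 fun x hx => by_contra fun hx' => ?_) m4
  obtain ⟨P, p1, p2, p3, p4⟩ := hA v x fun h => hx' (h ▸ h4)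
  have hE := hv.2 _ _ h1 h2 h3 h4 h5 h6
  obtain ⟨C, c1, c2, c3, c4, c5⟩ := ub p1 p2 p3 (h1.un h2 h3 h4) (Or.inl h3) hE
  obtain ⟨r, hr, hr'⟩ := Metric.isOpen_iff.1 (h2.1.union c1.1).isOpen_compl x
    (fun h => h.elim hx' fun h => p4 (c3 h))
  have hF : IsClosed (M ∩ (ball x (r / 2))ᶜ) := m2.1.inter isOpen_ball.isClosed_compl
  have hn : ∀ z ∈ L', z ∉ ball x (r / 2) := fun z hz h =>
    hr' (ball_subset_ball (by linarith) h) (Or.inl hz)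
  obtain ⟨y, y1, y2⟩ := bb' m2 (half_pos hr) m3 (hn v h4) hx
  obtain ⟨y', y3, y4⟩ := bb' m2 (half_pos hr) m4 (hn a ha') hx
  have y5 := hr' (show y ∈ ball x r by rw [mem_ball]; linarith)
  have y6 := hr' (show y' ∈ ball x r by rw [mem_ball]; linarith)
  have hs : ∀ z, cc (M ∩ (ball x (r / 2))ᶜ) z ⊆ L := fun z u hu => m1 (cc_sub _ _ hu).1
  have hd : cc (M ∩ (ball x (r / 2))ᶜ) v ≠ cc (M ∩ (ball x (r / 2))ᶜ) a := fun h => by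
    have := m5 _ (fun u hu => (cc_sub _ _ hu).1) (cc_ct hF v)
      ⟨mem_cc ⟨m3, hn v h4⟩, h ▸ mem_cc ⟨m4, hn a ha'⟩⟩
    exact (cc_sub _ v (this ▸ hx)).2 (mem_ball_self (half_pos hr))
  rcases hv.sorg hT (cc_ct hF v) (h2.un (cc_ct hF a) ha' (mem_cc ⟨m4, hn a ha'⟩)) c1
    (mem_cc ⟨m3, hn v h4⟩) (Or.inl h4) c2 (h5.mono (hs v))
    (hE.mono (union_subset subset_union_right ((hs a).trans subset_union_left))) c4 with h | h | h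
  · rcases h y1 with (h | h) | h
    exacts [y5 (Or.inl h), hd (cc_eq y1 h), y5 (Or.inr h)]
  · rcases h (Or.inr y3) with h | h
    exacts [hd (cc_eq h y3), y6 (Or.inr h)]
  · exact c5 (h.trans (union_subset ((hs v).trans subset_union_left)
      (union_subset subset_union_right ((hs a).trans subset_union_left))))

theorem exTwo [Nonempty X] (hD : Dense D) (hc : IsPreconnected (univ : Set X))
    (hT : ∀ T, Tri T → ¬ Sm D T)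
    (hA : ∀ v x : X, v ≠ x → ∃ P, Ct P ∧ v ∈ P ∧ ¬ Sm D P ∧ x ∉ P) {v : X} (hv : Gd D v) :
    ∃ P Q, Two D v P Q := by
  have k0 : ∀ P Q, Mn D v P → Mn D v Q → P ≠ Q →
      Ct (cc (P ∩ Q) v) ∧ v ∈ cc (P ∩ Q) v ∧ Sm D (cc (P ∩ Q) v) := by
    intro P Q hP hQ hne
    have h1 := cc_ct (hP.1.1.inter hQ.1.1) v
    have h2 : v ∈ cc (P ∩ Q) v := mem_cc ⟨hP.2.1.1, hQ.2.1.1⟩
    refine ⟨h1, h2, by_contra fun h => hne ?_⟩
    rw [← hP.2.2 _ (fun x hx => (cc_sub _ _ hx).1) h1 ⟨h2, h⟩]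
    exact hQ.2.2 _ (fun x hx => (cc_sub _ _ hx).2) h1 ⟨h2, h⟩
  have k1 : ∀ P Q R, Mn D v P → Mn D v Q → Mn D v R → P = Q ∨ P = R ∨ Q = R := by
    intro P Q R hP hQ hR
    by_contra hn
    push Not at hn
    obtain ⟨a1, a2, a3⟩ := k0 P Q hP hQ hn.1
    obtain ⟨b1, b2, b3⟩ := k0 P R hP hR hn.2.1
    obtain ⟨c1, c2, c3⟩ := k0 Q R hQ hR hn.2.2
    have e1 := (a1.un b1 a2 b2).un c1 (Or.inl a2) c2
    have e2 := hv.2 _ _ (a1.un b1 a2 b2) c1 (Or.inl a2) c2 (hv.2 _ _ a1 b1 a2 b2 a3 b3) c3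
    obtain ⟨A, p1, p2, p3, p4, p5⟩ := ub hP.1 hP.2.1.1 hP.2.1.2 e1 (Or.inr c2) e2
    obtain ⟨B, q1, q2, q3, q4, q5⟩ := ub hQ.1 hQ.2.1.1 hQ.2.1.2 e1 (Or.inr c2) e2
    obtain ⟨C, r1, r2, r3, r4, r5⟩ := ub hR.1 hR.2.1.1 hR.2.1.2 e1 (Or.inr c2) e2
    have f1 : ∀ x ∈ A, x ∈ B → x ∈ cc (P ∩ Q) v := fun x h h' => connectedComponentIn_mono v
      (inter_subset_inter p3 q3) (uc hT hA hv p1 q1 p2 q2 p4 q4 h h')
    have f2 : ∀ x ∈ A, x ∈ C → x ∈ cc (P ∩ R) v := fun x h h' => connectedComponentIn_mono v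
      (inter_subset_inter p3 r3) (uc hT hA hv p1 r1 p2 r2 p4 r4 h h')
    have f3 : ∀ x ∈ B, x ∈ C → x ∈ cc (Q ∩ R) v := fun x h h' => connectedComponentIn_mono v
      (inter_subset_inter q3 r3) (uc hT hA hv q1 r1 q2 r2 q4 r4 h h')
    rcases hv.sorg hT p1 q1 r1 p2 q2 r2 p4 q4 r4 with h | h | h
    · exact p5 fun x hx => Or.inl ((h hx).imp (f1 x hx) (f2 x hx))
    · exact q5 fun x hx => (h hx).elim (fun h => Or.inl (Or.inl (f1 x h hx))) fun h =>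
        Or.inr (f3 x hx h)
    · exact r5 fun x hx => (h hx).elim (fun h => Or.inl (Or.inr (f2 x h hx))) fun h =>
        Or.inr (f3 x h hx)
  have k2 : ∀ x, x ≠ v → ∃ P, Mn D v P ∧ x ∉ P := by
    intro x hx
    obtain ⟨L, h1, h2, h3, h4⟩ := hA v x hx.symm
    obtain ⟨P, h5, h6⟩ := exMn h1 h2 h3
    exact ⟨P, h6, fun h => h4 (h5 h)⟩
  obtain ⟨d, hd⟩ := hD.nonempty
  obtain ⟨P, -, hP⟩ := exMn (D := D) ⟨isClosed_univ, hc⟩ (mem_univ v) fun h => h.nm d trivial hd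
  obtain ⟨x, h1, h2⟩ := not_subset.1 fun h : P ⊆ {v} => hP.2.1.2 (hv.1.mono h)
  obtain ⟨Q, hQ, h3⟩ := k2 x h2
  have k3 : ∀ R, Mn D v R → R = P ∨ R = Q := fun R hR =>
    (k1 P Q R hP hQ hR).elim (fun h => (h3 (h ▸ h1)).elim) fun h => h.imp Eq.symm Eq.symm
  have k4 : P ∩ Q ⊆ {v} := fun y hy => by_contra fun h => by
    obtain ⟨R, hR, h4⟩ := k2 y h
    rcases k3 R hR with rfl | rfl
    exacts [h4 hy.1, h4 hy.2]
  refine ⟨P, Q, hP, hQ, k4, fun L a b c => ?_, fun I a b c => ?_⟩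
  · obtain ⟨R, h4, hR⟩ := exMn a b c
    rcases k3 R hR with rfl | rfl
    exacts [Or.inl h4, Or.inr h4]
  · obtain ⟨A, p1, p2, p3, p4, p5⟩ := ub hP.1 hP.2.1.1 hP.2.1.2 a b c
    obtain ⟨B, q1, q2, q3, q4, q5⟩ := ub hQ.1 hQ.2.1.1 hQ.2.1.2 a b c
    rcases hv.sorg hT p1 q1 a p2 q2 b p4 q4 c with h | h | h
    · refine (p5 fun y hy => (h hy).elim (fun h' => ?_) id).elim
      exact (show y = v from k4 ⟨p3 hy, q3 h'⟩) ▸ b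
    · refine (q5 fun y hy => (h hy).elim (fun h' => ?_) id).elim
      exact (show y = v from k4 ⟨p3 h', q3 hy⟩) ▸ b
    · exact h.trans (union_subset_union p3 q3)

end Pool.Agent.H71.Hag
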