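import Pool.Agent.H71.Hag2

set_option autoImplicit false

namespace Pool.Agent.H71.Hag

open Set Filter Topology Metric Relation Pool.Agent.H71.Fug

theorem baire_rel {Y : Type} [MetricSpace Y] [CompactSpace Y] {ι : Type} {I : Set ι}
    (hc : I.Countable) {S : ι → Set Y} {R : Set Y} (ho : ∀ i ∈ I, IsOpen (S i))
    (hd : ∀ i ∈ I, R ⊆ closure (R ∩ S i)) {V : Set Y} (hV : IsOpen V) (hn : (R ∩ V).Nonempty) :
    ∃ p ∈ closure R, p ∈ V ∧ ∀ i ∈ I, p ∈ S i := by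
  have : CompactSpace (closure R) := isCompact_iff_compactSpace.1 isClosed_closure.isCompact
  have h1 : Dense (⋂ i ∈ I, (Subtype.val ⁻¹' S i : Set (closure R))) := by
    refine dense_biInter_of_isOpen (fun i hi => (ho i hi).preimage continuous_subtype_val) hc
      fun i hi => Subtype.dense_iff.2 ?_
    rw [Subtype.image_preimage_coe]
    exact closure_minimal ((hd i hi).trans (closure_mono (inter_subset_inter_left _ subset_closure)))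
      isClosed_closure
  obtain ⟨p, hp⟩ := hn
  obtain ⟨q, h2, h3⟩ := h1.exists_mem_open (hV.preimage continuous_subtype_val)
    ⟨⟨p, subset_closure hp.1⟩, hp.2⟩
  exact ⟨q, q.2, h3, fun i hi => mem_iInter₂.1 h2 i hi⟩

variable {X : Type} [MetricSpace X] [CompactSpace X] {D : Set X}

theorem lim_ct [Nonempty X] {A : ℕ → Set X} (h : ∀ m, Ct (A m)) : Ct (Lim A) :=
  ⟨lim_closed A, lim_conn fun m => ec_of_pre (by positivity) (h m).2⟩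

omit [CompactSpace X] in
theorem near_lim {A : ℕ → Set X} {x : X} (h : ∀ m : ℕ, ∃ a ∈ A m, dist x a < 1 / ((m : ℝ) + 1)) :
    x ∈ Lim A := fun r hr => by
  filter_upwards [ev_small hr] with m hm
  obtain ⟨a, h1, h2⟩ := h m
  exact ⟨a, h1, h2.trans hm⟩

theorem lim_meet {A : ℕ → Set X} {F : Set X} (hF : IsClosed F) (h : ∀ m, (A m ∩ F).Nonempty) :
    (Lim A ∩ F).Nonempty := by
  choose a ha using h
  obtain ⟨x, hx⟩ := ulim a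
  exact ⟨x, mem_lim (Eventually.of_forall fun m => (ha m).1) hx,
    hF.mem_of_tendsto hx (Eventually.of_forall fun m => (ha m).2)⟩

def Lam (O U V V' : Set X) (v : X) (A A' : Set X) : Prop :=
  Ct A ∧ Ct A' ∧ v ∈ A ∧ v ∈ A' ∧ A ∪ A' ⊆ closure O ∧ ¬ A ⊆ U ∧ ¬ A' ⊆ U ∧ A \ U ⊆ V ∧
    A' \ U ⊆ V' ∧ ∀ B, Ct B → B ⊆ closure O → (B ∩ (A ∪ A')).Nonempty → v ∉ B → B ⊆ A ∨ B ⊆ A'

theorem lam_near {O U V V' : Set X} (hU : IsOpen U) (hV : ∀ x ∈ closure V, x ∉ closure V')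
    {v : X} {A A' : Set X} (h : Lam O U V V' v A A') {y : X} (hy : y ∈ A ∪ A') {ε : ℝ}
    (hε : 0 < ε) : ∃ δ > 0, ∀ w B B', Lam O U V V' w B B' → dist y w < δ →
      ∃ u ∈ B ∪ B', dist v u < ε := by
  have : Nonempty X := ⟨v⟩
  by_contra hc
  push Not at hc
  choose w B B' h1 h2 h3 using fun m : ℕ => hc (1 / ((m : ℝ) + 1)) (by positivity)
  have e1 : Ct (Lim fun m => B m ∪ B' m) :=
    lim_ct fun m => (h1 m).1.un (h1 m).2.1 (h1 m).2.2.1 (h1 m).2.2.2.1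
  obtain ⟨p, p1, p2, p3⟩ := lim_meet (A := fun m => B m ∪ B' m)
    ((isClosed_closure (s := V)).inter hU.isClosed_compl) fun m => by
      obtain ⟨x, a, b⟩ := not_subset.1 (h1 m).2.2.2.2.2.1
      exact ⟨x, Or.inl a, subset_closure ((h1 m).2.2.2.2.2.2.2.1 ⟨a, b⟩), b⟩
  obtain ⟨q, q1, q2, q3⟩ := lim_meet (A := fun m => B m ∪ B' m)
    ((isClosed_closure (s := V')).inter hU.isClosed_compl) fun m => by
      obtain ⟨x, a, b⟩ := not_subset.1 (h1 m).2.2.2.2.2.2.1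
      exact ⟨x, Or.inr a, subset_closure ((h1 m).2.2.2.2.2.2.2.2.1 ⟨a, b⟩), b⟩
  obtain ⟨-, -, -, -, -, -, -, a1, a2, a3⟩ := h
  rcases a3 _ e1 (lim_in isClosed_closure fun m => (h1 m).2.2.2.2.1)
    ⟨y, near_lim fun m => ⟨w m, Or.inl (h1 m).2.2.1, h2 m⟩, hy⟩ (fun h => by
      obtain ⟨m, u, h4, h5⟩ := (h ε hε).exists
      exact not_lt.2 (h3 m u h4) h5) with h | h
  · exact hV q (subset_closure (a1 ⟨h q1, q3⟩)) q2
  · exact hV p p2 (subset_closure (a2 ⟨h p1, p3⟩))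

theorem exLam {𝒪 : Set (Set X)} (hO : Bas 𝒪) {v : X} {P Q : Set X} (hv : Sm D {v})
    (h : Two D v P Q) {W : Set X} (hW : IsOpen W) (hvW : v ∈ W) :
    ∃ O ∈ 𝒪, ∃ V ∈ 𝒪, ∃ V' ∈ 𝒪, closure O ⊆ W ∧ (∀ x ∈ closure V, x ∉ closure V') ∧ v ∈ O ∧
      ∃ A A', Lam O O V V' v A A' := by
  obtain ⟨W', h1, h2, h3⟩ := hv.nb
  obtain ⟨O, h4, h5, h6⟩ := hO.2.2 {v} (W ∩ W') isClosed_singleton (hW.inter h1)
    (singleton_subset_iff.2 ⟨hvW, h2 rfl⟩)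
  have hvO : v ∈ O := h5 rfl
  have hs : ∀ I, Ct I → v ∈ I → I ⊆ closure O → Sm D I := fun I a b c =>
    h3 I a (fun x hx => (h6 (c hx)).2) ⟨v, b, rfl⟩
  have k : ∀ P, Mn D v P → Ct (cc (P ∩ closure O) v) ∧ v ∈ cc (P ∩ closure O) v ∧
      ¬ cc (P ∩ closure O) v ⊆ O := by
    intro P hP
    refine ⟨cc_ct (hP.1.1.inter isClosed_closure) v, mem_cc ⟨hP.2.1.1, subset_closure hvO⟩,
      fun hc => ?_⟩
    obtain ⟨y, a, b⟩ := bb hP.1 isClosed_closure hP.2.1.1 (subset_closure hvO)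
      fun h => hP.2.1.2 (hs P hP.1 hP.2.1.1 h)
    exact b (interior_maximal subset_closure (hO.2.1 O h4) (hc a))
  obtain ⟨a1, a2, a3⟩ := k P h.1
  obtain ⟨b1, b2, b3⟩ := k Q h.2.1
  have hc := (hO.2.1 O h4).isClosed_compl
  obtain ⟨V, h7, V', h8, h9, h10, -, -, h11⟩ := hO.sep (a1.1.inter hc) (b1.1.inter hc) isOpen_univ
    isOpen_univ (subset_univ _) (subset_univ _) fun x a b => a.2 (by
      rw [show x = v from h.2.2.1 ⟨(cc_sub _ _ a.1).1, (cc_sub _ _ b.1).1⟩]; exact hvO)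
  have hsub : cc (P ∩ closure O) v ∪ cc (Q ∩ closure O) v ⊆ closure O :=
    union_subset (fun x hx => (cc_sub _ _ hx).2) fun x hx => (cc_sub _ _ hx).2
  refine ⟨O, h4, V, h7, V', h8, fun x hx => (h6 hx).1, h11, hvO, _, _, a1, b1, a2, b2, hsub, a3, b3,
    h9, h10, ?_⟩
  rintro B c1 c2 ⟨y, c3, c4⟩ c5
  have e1 := c1.un (a1.un b1 a2 b2) c3 c4
  have e2 := h.2.2.2.2 _ e1 (Or.inr (Or.inl a2)) (hs _ e1 (Or.inr (Or.inl a2)) (union_subset c2 hsub))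
  have e3 : ∀ P Q : Set X, IsClosed P → IsClosed Q → P ∩ Q ⊆ {v} → B ⊆ P ∪ Q →
      y ∈ cc (P ∩ closure O) v → B ⊆ cc (P ∩ closure O) v := by
    intro P Q d1 d2 d3 d4 d5
    have : B ⊆ P := fun x hx => by_contra fun hx' => by
      obtain ⟨z, f1, f2⟩ := isPreconnected_closed_iff.1 c1.2 P Q d1 d2 d4
        ⟨y, c3, (cc_sub _ _ d5).1⟩ ⟨x, hx, (d4 hx).resolve_left hx'⟩
      exact c5 ((show z = v from d3 f2) ▸ f1)
    rw [cc, connectedComponentIn_eq d5]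
    exact c1.sub_cc c3 (subset_inter this c2)
  rcases c4 with c4 | c4
  · exact Or.inl (e3 P Q h.1.1.1 h.2.1.1.1 h.2.2.1 (subset_union_left.trans e2) c4)
  · exact Or.inr (e3 Q P h.2.1.1.1 h.1.1.1 h.symm.2.2.1
      (by rw [union_comm]; exact subset_union_left.trans e2) c4)

theorem pair {G : Set X} (hG : G ∈ residual X) (h : ∀ v ∈ G, Sm D {v} ∧ ∃ P Q, Two D v P Q)
    {W : Set X} (hW : IsOpen W) (hne : W.Nonempty) :
    ∃ C, Ct C ∧ C ⊆ W ∧ ∃ a ∈ C ∩ G, ∃ b ∈ C ∩ G, a ≠ b := by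
  have : Nonempty X := ⟨hne.some⟩
  obtain ⟨𝒪, hO⟩ := exO (X := X)
  obtain ⟨S, s1, s2, s3, s4⟩ := mem_residual_iff.1 hG
  let N : Set X → Set X → Set X → Set X := fun O V V' => {v | v ∈ ⋂₀ S ∧ closure O ⊆ W ∧
    (∀ x ∈ closure V, x ∉ closure V') ∧ v ∈ O ∧ ∃ A A', Lam O O V V' v A A'}
  obtain ⟨O, hO', V, V', v0, hv0⟩ : ∃ O ∈ 𝒪, ∃ V V', (interior (closure (N O V V'))).Nonempty := by
    by_contra hc
    push Not at hc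
    have h1 : IsMeagre (⋃ O ∈ 𝒪, ⋃ V ∈ 𝒪, ⋃ V' ∈ 𝒪, N O V V') :=
      isMeagre_biUnion hO.1 fun O h => isMeagre_biUnion hO.1 fun V _ =>
        isMeagre_biUnion hO.1 fun V' _ => IsNowhereDense.isMeagre (hc O h V V')
    obtain ⟨v, ⟨h2, h3⟩, h4⟩ := (dense_of_mem_residual (inter_mem
      (mem_residual_iff.2 ⟨S, s1, s2, s3, subset_rfl⟩) h1)).exists_mem_open hW hne
    obtain ⟨h5, P, Q, h6⟩ := h v (s4 h2)
    obtain ⟨O, a1, V, a2, V', a3, a4⟩ := exLam hO h5 h6 hW h4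
    exact h3 (mem_iUnion₂.2 ⟨O, a1, mem_iUnion₂.2 ⟨V, a2, mem_iUnion₂.2 ⟨V', a3, h2, a4⟩⟩⟩)
  set U := interior (closure (N O V V'))
  have hU : IsOpen U := isOpen_interior
  have hd : ∀ y ∈ U, ∀ δ > 0, ∃ w ∈ N O V V', w ∈ U ∧ dist y w < δ := by
    intro y hy δ hδ
    obtain ⟨w, h1, h2⟩ := _root_.mem_closure_iff.1 (interior_subset hy) (U ∩ ball y δ)
      (hU.inter isOpen_ball) ⟨hy, mem_ball_self hδ⟩
    exact ⟨w, h2, h1.1, by rw [dist_comm]; exact h1.2⟩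
  let Rl : X → X → Prop := fun v y => v ∈ N O V V' ∧ ∃ A A', Lam O O V V' v A A' ∧ y ∈ A ∪ A'
  let R : Set (X × X) := {p | p.1 ∈ U ∧ p.2 ∈ U ∧ (Rl p.1 p.2 ∨ Rl p.2 p.1)}
  have key : ∀ s ∈ S, ∀ v ∈ U, ∀ y ∈ U, Rl v y → ∀ ε > 0, ∃ u ∈ U ∩ s, ∃ w ∈ U ∩ s, Rl w u ∧
      dist v u < ε ∧ dist y w < ε := by
    rintro s hs v hv y hy ⟨h1, A, A', h2, h3⟩ ε hε
    obtain ⟨r, hr, hr'⟩ := Metric.isOpen_iff.1 (hU.inter (s1 s hs)) v ⟨hv, h1.1 s hs⟩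
    obtain ⟨δ, hδ, h4⟩ := lam_near (hO.2.1 O hO') h1.2.2.1 h2 h3 (lt_min hr hε)
    obtain ⟨w, h5, h6, h7⟩ := hd y hy _ (lt_min hδ hε)
    obtain ⟨B, B', h8⟩ := h5.2.2.2.2
    obtain ⟨u, h9, h10⟩ := h4 w B B' h8 (h7.trans_le (min_le_left _ _))
    exact ⟨u, hr' (by rw [mem_ball, dist_comm]; exact h10.trans_le (min_le_left _ _)), w,
      ⟨h6, h5.1 s hs⟩, ⟨h5, B, B', h8, h9⟩, h10.trans_le (min_le_right _ _),
      h7.trans_le (min_le_right _ _)⟩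
  obtain ⟨v, v1, v2, -⟩ := hd v0 hv0 1 one_pos
  obtain ⟨p, p1, p2, p3⟩ := baire_rel (R := R) s3 (S := fun s => s ×ˢ s)
    (fun s hs => (s1 s hs).prod (s1 s hs)) (by
      rintro s hs ⟨v, y⟩ ⟨h1, h2, h3⟩
      refine Metric.mem_closure_iff.2 fun ε hε => ?_
      rcases h3 with h3 | h3
      · obtain ⟨u, a1, w, a2, a3, a4, a5⟩ := key s hs v h1 y h2 h3 ε hε
        exact ⟨(u, w), ⟨⟨a1.1, a2.1, Or.inr a3⟩, a1.2, a2.2⟩, max_lt a4 a5⟩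
      · obtain ⟨u, a1, w, a2, a3, a4, a5⟩ := key s hs y h2 v h1 h3 ε hε
        exact ⟨(w, u), ⟨⟨a2.1, a1.1, Or.inl a3⟩, a2.2, a1.2⟩, max_lt a5 a4⟩)
    (V := {p | p.1 ≠ p.2}) (isOpen_ne_fun continuous_fst continuous_snd) (by
      obtain ⟨A, A', h1⟩ := v1.2.2.2.2
      obtain ⟨K, -, -, a1, a2, a3⟩ := ub0 h1.1 isClosed_singleton hU (singleton_subset_iff.2 v2)
        h1.2.2.1 rfl fun h => h1.2.2.2.2.2.1 (h.trans (singleton_subset_iff.2 v1.2.2.2.1))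
      obtain ⟨y, a4, a5⟩ := not_subset.1 a3
      exact ⟨(v, y), ⟨v2, a2 a4, Or.inl ⟨v1, A, A', h1, Or.inl (a1 a4)⟩⟩, fun h => a5 h.symm⟩)
  have : ∀ m : ℕ, ∃ C, Ct C ∧ C ⊆ closure O ∧ (∃ a ∈ C, dist p.1 a < 1 / ((m : ℝ) + 1)) ∧
      ∃ a ∈ C, dist p.2 a < 1 / ((m : ℝ) + 1) := by
    intro m
    obtain ⟨q, ⟨-, -, h1⟩, h2⟩ := Metric.mem_closure_iff.1 p1 (1 / ((m : ℝ) + 1)) (by positivity)
    have h3 := max_lt_iff.1 h2
    rcases h1 with ⟨-, A, A', h1, h4⟩ | ⟨-, A, A', h1, h4⟩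
    · exact ⟨_, h1.1.un h1.2.1 h1.2.2.1 h1.2.2.2.1, h1.2.2.2.2.1, ⟨_, Or.inl h1.2.2.1, h3.1⟩,
        _, h4, h3.2⟩
    · exact ⟨_, h1.1.un h1.2.1 h1.2.2.1 h1.2.2.2.1, h1.2.2.2.2.1, ⟨_, h4, h3.1⟩,
        _, Or.inl h1.2.2.1, h3.2⟩
  choose C c1 c2 c3 c4 using this
  exact ⟨Lim C, lim_ct c1, (lim_in isClosed_closure c2).trans v1.2.1, p.1,
    ⟨near_lim c3, s4 fun s hs => (p3 s hs).1⟩, p.2, ⟨near_lim c4, s4 fun s hs => (p3 s hs).2⟩, p2⟩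

theorem main [ConnectedSpace X] [Nontrivial X]
    (hS : ∀ A B : Set X, IsCompact A → IsConnected A → (interior A).Nonempty →
      IsCompact B → IsConnected B → (interior B).Nonempty → (A ∩ B).Nonempty)
    (hW : ¬ ∃ x p q : X, p ≠ x ∧ q ≠ x ∧
      ∀ K : Set X, IsCompact K → IsConnected K → p ∈ K → q ∈ K → x ∈ K) :
    ∃ 𝒯 : Set (Set X), ¬ 𝒯.Countable ∧ 𝒯.PairwiseDisjoint id ∧ ∀ T ∈ 𝒯, Tri T := by
  by_contra hc
  obtain ⟨D, h1, h2, h3⟩ := exD (X := X) fun 𝒯 a b => by_contra fun c => hc ⟨𝒯, c, a, b⟩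
  obtain ⟨G0, h4, h5⟩ := lemB hS h1
  obtain ⟨G, h6, h7, h8⟩ := exG h2 h3 h4 h5
  have hA : ∀ v x : X, v ≠ x → ∃ P, Ct P ∧ v ∈ P ∧ ¬ Sm D P ∧ x ∉ P := by
    intro v x hne
    obtain ⟨d, a1, a2⟩ := h2.exists_mem_open isOpen_compl_singleton ⟨v, hne⟩
    push Not at hW
    obtain ⟨K, b1, b2, b3, b4, b5⟩ := hW x v d hne a2
    exact ⟨K, ⟨b1.isClosed, b2.2⟩, b3, fun h => h.nm d b4 a1, b5⟩
  have hT := fun v hv => exTwo h2 isPreconnected_univ h3 hA (h8 v hv)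
  obtain ⟨x, y, hxy⟩ := exists_pair_ne X
  obtain ⟨U, V, a1, a2, a3, a4, a5⟩ := t2_separation hxy
  obtain ⟨C, c1, c2, a, ha, b, hb, hab⟩ := pair h6 (fun v hv => ⟨(h8 v hv).1, hT v hv⟩) a1 ⟨x, a3⟩
  obtain ⟨C', d1, d2, a', ha', b', hb', hab'⟩ :=
    pair h6 (fun v hv => ⟨(h8 v hv).1, hT v hv⟩) a2 ⟨y, a4⟩
  have k : ∀ C, Ct C → ∀ a ∈ C ∩ G, ∀ b ∈ C ∩ G, a ≠ b → ¬ Sm D C := by
    intro C h a ha b hb hab hs
    obtain ⟨P, P', hP⟩ := hT a ha.2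
    obtain ⟨Q, Q', hQ⟩ := hT b hb.2
    exact fin1 h7 ha.2 hb.2 hab hP hQ h hs ha.1 hb.1
  obtain ⟨z, z1, z2⟩ := h7 C C' c1 d1 (k C c1 a ha b hb hab) (k C' d1 a' ha' b' hb' hab')
    ⟨a, ha⟩ ⟨a', ha'⟩
  exact disjoint_left.1 a5 (c2 z1) (d2 z2)

end Pool.Agent.H71.Hag
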