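import Mathlib

set_option autoImplicit false

namespace Pool.Agent.H71.Heis

open scoped Pointwise Topology Nat
open Filter Function

/-- Heisenberg group -/
@[ext] structure H (R : Type) [CommRing R] where
  x : R
  y : R
  z : R

section
variable {R : Type} [CommRing R]

instance : Mul (H R) := ⟨fun g h => ⟨g.x + h.x, g.y + h.y, g.z + h.z + g.x * h.y⟩⟩
instance : One (H R) := ⟨⟨0, 0, 0⟩⟩
instance : Inv (H R) := ⟨fun g => ⟨-g.x, -g.y, g.x * g.y - g.z⟩⟩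
theorem mul_def (g h : H R) : g * h = ⟨g.x + h.x, g.y + h.y, g.z + h.z + g.x * h.y⟩ := rfl
theorem one_def : (1 : H R) = ⟨0, 0, 0⟩ := rfl
theorem inv_def (g : H R) : g⁻¹ = ⟨-g.x, -g.y, g.x * g.y - g.z⟩ := rfl

instance : Group (H R) where
  mul_assoc g h k := by ext <;> simp only [mul_def] <;> ring
  one_mul g := by ext <;> simp [mul_def, one_def]
  mul_one g := by ext <;> simp [mul_def, one_def]
  inv_mul_cancel g := by ext <;> simp [mul_def, one_def, inv_def]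

theorem inj : Injective fun g : H R => (g.x, g.y, g.z) := fun _ _ e => by
  simp only [Prod.mk.injEq] at e
  exact H.ext e.1 e.2.1 e.2.2

instance [Finite R] : Finite (H R) := Finite.of_injective _ inj
instance [Countable R] : Countable (H R) := inj.countable

theorem x_pow (m : ℕ) : (⟨1, 0, 0⟩ : H R) ^ m = ⟨m, 0, 0⟩ := by
  induction m with
  | zero => simp [one_def]
  | succ m ih => rw [pow_succ, ih]; simp [mul_def]

end

/-- reduction -/
def red (m : ℕ) : H ℤ →* H (ZMod m) :=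
  MonoidHom.mk' (fun g => ⟨g.x, g.y, g.z⟩) fun g h => by simp [mul_def]

instance (m : ℕ) : TopologicalSpace (H (ZMod m)) := ⊥
instance (m : ℕ) : DiscreteTopology (H (ZMod m)) := ⟨rfl⟩
instance (m : ℕ) : IsTopologicalGroup (H (ZMod m)) where
  continuous_mul := continuous_of_discreteTopology
  continuous_inv := continuous_of_discreteTopology

/-- all reductions modulo powers of `p` -/
def redp (p : ℕ) : H ℤ →* ((k : ℕ) → H (ZMod (p ^ k))) := MonoidHom.pi fun k => red (p ^ k)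

/-- the `p`-adic topology -/
@[reducible] def tp (p : ℕ) : TopologicalSpace (H ℤ) := .induced (redp p) inferInstance

theorem tp_good {p : ℕ} (hp : 1 < p) : @IsTopologicalGroup _ (tp p) _ ∧ @T2Space _ (tp p) ∧
    ∀ U ∈ @nhds _ (tp p) 1, ∃ F : Finset (H ℤ), (F : Set (H ℤ)) * U = Set.univ := by
  let := tp p
  have : NeZero p := ⟨by omega⟩
  refine ⟨topologicalGroup_induced _, T2Space.of_injective_continuous (f := redp p)
    ((injective_iff_map_eq_one _).2 fun g hg => ?_) continuous_induced_dom, fun U hU => ?_⟩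
  · have key : ∀ a : ℤ, (∀ k, (a : ZMod (p ^ k)) = 0) → a = 0 := fun a h =>
      Int.eq_zero_of_dvd_of_natAbs_lt_natAbs
        ((ZMod.intCast_zmod_eq_zero_iff_dvd _ _).1 (h a.natAbs)) (Nat.lt_pow_self hp)
    exact H.ext (key _ fun k => congrArg H.x (congrFun hg k))
      (key _ fun k => congrArg H.y (congrFun hg k)) (key _ fun k => congrArg H.z (congrFun hg k))
  · obtain ⟨V, hV, h⟩ := (mem_nhds_induced _ _ _).1 hU
    rw [nhds_pi, mem_pi] at hV
    obtain ⟨I, hI, t, ht, h'⟩ := hV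
    have := hI.to_subtype
    let K : Subgroup (H ℤ) := ⨅ k : I, (red (p ^ k.1)).ker
    have : K.FiniteIndex := Subgroup.finiteIndex_iInf fun _ => inferInstance
    have := Fintype.ofFinite (H ℤ ⧸ K)
    classical
    refine ⟨Finset.univ.image (Quotient.out : H ℤ ⧸ K → _), Set.eq_univ_of_forall fun g =>
      ⟨(g : H ℤ ⧸ K).out, by simp, (g : H ℤ ⧸ K).out⁻¹ * g, h (h' fun k hk => ?_), by simp⟩⟩
    have : red (p ^ k) _ = 1 :=
      Subgroup.mem_iInf.1 (QuotientGroup.eq.1 (g : H ℤ ⧸ K).out_eq') ⟨k, hk⟩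
    change red (p ^ k) _ ∈ t k
    rw [this, ← map_one (red (p ^ k))]
    exact mem_of_mem_nhds (ht k)

/-- the sequence -/
def e (n : ℕ) : H ℤ := ⟨0, 0, 2 ^ n !⟩

theorem lim (p : ℕ) (a : ℤ) (h : ∀ k, ∃ N, ∀ n ≥ N, (2 : ZMod (p ^ k)) ^ n ! = a) :
    Tendsto e atTop (@nhds _ (tp p) ⟨0, 0, a⟩) := by
  rw [nhds_induced, tendsto_comap_iff, tendsto_pi_nhds]
  intro k
  obtain ⟨N, hN⟩ := h k
  refine tendsto_atTop_of_eventually_const (i₀ := N) fun n hn => H.ext rfl rfl ?_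
  simpa [redp, red, e] using hN n hn

theorem lim2 : Tendsto e atTop (@nhds _ (tp 2) ⟨0, 0, 0⟩) := lim 2 0 fun k => ⟨k, fun n hn => by
  have := (ZMod.natCast_eq_zero_iff (2 ^ n !) (2 ^ k)).2
    (pow_dvd_pow 2 (hn.trans (Nat.self_le_factorial n)))
  simpa using this⟩

theorem lim3 : Tendsto e atTop (@nhds _ (tp 3) ⟨0, 0, 1⟩) := lim 3 1 fun k =>
  ⟨(3 ^ k).totient, fun n hn => by
    obtain ⟨c, hc⟩ := Nat.dvd_factorial (Nat.totient_pos.2 (by positivity)) hn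
    have := (ZMod.natCast_eq_natCast_iff _ _ _).2
      (Nat.ModEq.pow_totient (Nat.Coprime.pow_right k (by norm_num : Nat.Coprime 2 3)))
    push_cast at this
    simp [hc, pow_mul, this]⟩

theorem ev_const {M : Type} [Monoid M] [Finite M] (x : M) : ∃ N, ∀ n ≥ N, x ^ n ! = x ^ N ! := by
  obtain ⟨i, j, hij, h⟩ : ∃ i j : ℕ, i < j ∧ x ^ i = x ^ j := by
    obtain ⟨i, j, hij, h⟩ := Finite.exists_ne_map_eq_of_infinite fun i : ℕ => x ^ i
    exact (lt_or_gt_of_ne hij).elim (fun l => ⟨i, j, l, h⟩) fun l => ⟨j, i, l, h.symm⟩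
  obtain ⟨d, rfl⟩ := Nat.exists_eq_add_of_lt hij
  have key : ∀ c, x ^ (i + c * (d + 1)) = x ^ i := fun c => by
    induction c with
    | zero => simp
    | succ c ih => rw [add_mul, one_mul, ← add_assoc, pow_add, ih, ← pow_add, ← add_assoc, ← h]
  refine ⟨i + d + 1, fun n hn => ?_⟩
  obtain ⟨q, hq⟩ := Nat.factorial_dvd_factorial hn
  obtain ⟨c, hc⟩ := Nat.dvd_factorial d.succ_pos (show d + 1 ≤ i + d + 1 by omega)
  obtain ⟨r, hr⟩ := Nat.exists_eq_add_of_le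
    ((show i ≤ i + d + 1 by omega).trans (Nat.self_le_factorial _))
  obtain ⟨q, rfl⟩ : ∃ s, q = s + 1 := ⟨q - 1, by
    have := n.factorial_pos
    rcases q with _ | q <;> simp_all⟩
  rw [hq, mul_add, mul_one, show (i + d + 1)! * q + (i + d + 1)! = i + c * q * (d + 1) + r by
    rw [add_right_comm i (c * q * (d + 1)), ← hr, hc]; simp only [Nat.succ_eq_add_one]; ring, pow_add, key, ← pow_add,
    ← hr]

section
variable {G : Type} [Group G] [TopologicalSpace G] [IsTopologicalGroup G]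
  (hG : ∀ U ∈ 𝓝 (1 : G), ∃ F : Finset G, (F : Set G) * U = Set.univ)
include hG

theorem sin {U : Set G} (hU : U ∈ 𝓝 1) : ∃ W ∈ 𝓝 (1 : G), ∀ w ∈ W, ∀ g, g⁻¹ * w * g ∈ U := by
  have : Continuous fun p : G × G => p.1⁻¹ * p.2 * p.1 := by fun_prop
  obtain ⟨V, hV, V', hV', h⟩ := mem_nhds_prod_iff.1
    ((this.tendsto (1, 1)) (show U ∈ 𝓝 _ by simpa using hU))
  obtain ⟨F, hF⟩ := hG V hV
  refine ⟨⋂ f ∈ F, (fun w => f⁻¹ * w * f) ⁻¹' V', (biInter_finset_mem F).2 fun f _ =>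
    Continuous.tendsto' (f := fun w => f⁻¹ * w * f) (by fun_prop) _ _ (by simp) hV',
    fun w hw g => ?_⟩
  obtain ⟨f, hf, v, hv, rfl⟩ : g ∈ (F : Set G) * V := hF ▸ Set.mem_univ g
  have := h (Set.mk_mem_prod hv (Set.mem_iInter₂.1 hw f hf))
  simpa [mul_assoc] using this

theorem recur (x : G) {W : Set G} (hW : W ∈ 𝓝 1) : ∃ m, 0 < m ∧ x ^ m ∈ W := by
  have : Continuous fun p : G × G => p.1⁻¹ * p.2 := by fun_prop
  obtain ⟨V, hV, V', hV', h⟩ := mem_nhds_prod_iff.1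
    ((this.tendsto (1, 1)) (show W ∈ 𝓝 _ by simpa using hW))
  obtain ⟨F, hF⟩ := hG _ (inter_mem hV hV')
  have : ∀ i : ℕ, ∃ f : F, ∃ v ∈ V ∩ V', f.1 * v = x ^ i := fun i => by
    obtain ⟨f, hf, v, hv, e⟩ : x ^ i ∈ (F : Set G) * (V ∩ V') := hF ▸ Set.mem_univ _
    exact ⟨⟨f, hf⟩, v, hv, e⟩
  choose f v hv e using this
  have key : ∀ i j, i < j → f i = f j → ∃ m, 0 < m ∧ x ^ m ∈ W := fun i j l h' => by
    refine ⟨j - i, by omega, ?_⟩
    have := h (Set.mk_mem_prod (hv i).1 (hv j).2)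
    rw [pow_sub _ l.le, ← (Commute.pow_pow_self x i j).inv_left.eq, ← e, ← e, h']
    simpa [mul_assoc] using this
  obtain ⟨i, j, hij, h⟩ := Finite.exists_ne_map_eq_of_infinite f
  exact (lt_or_gt_of_ne hij).elim (fun l => key i j l h) fun l => key j i l h.symm

end

theorem uniq [TopologicalSpace (H ℤ)] [IsTopologicalGroup (H ℤ)] [T2Space (H ℤ)]
    (hG : ∀ U ∈ 𝓝 (1 : H ℤ), ∃ F : Finset (H ℤ), (F : Set (H ℤ)) * U = Set.univ) {a b : H ℤ}
    (ha : a ∈ closure (Set.range e)) (hb : b ∈ closure (Set.range e)) (ha' : a ∉ Set.range e)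
    (hb' : b ∉ Set.range e) : a = b := by
  by_contra hab
  obtain ⟨V₀, hV₀, h4⟩ := exists_nhds_one_split4 (isOpen_compl_singleton.mem_nhds
    (show (1 : H ℤ) ∈ ({a⁻¹ * b}ᶜ : Set _) from fun h => hab (inv_mul_eq_one.1 h.symm)))
  obtain ⟨V₁, hV₁, h2⟩ := exists_nhds_split_inv hV₀
  obtain ⟨W, hW, hs⟩ := sin hG hV₁
  obtain ⟨m, hm, hx⟩ := recur hG ⟨1, 0, 0⟩ hW
  have : NeZero m := ⟨hm.ne'⟩
  obtain ⟨N, hN⟩ := ev_const (2 : ZMod m)
  have tl : ∀ a ∈ closure (Set.range e), a ∉ Set.range e → ∀ U ∈ 𝓝 a, ∃ n ≥ N, e n ∈ U :=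
    fun a ha ha' U hU => by
      have : (e '' Set.Iio N)ᶜ ∈ 𝓝 a := ((Set.finite_Iio N).image e).isClosed.isOpen_compl.mem_nhds
        fun ⟨n, _, h⟩ => ha' ⟨n, h⟩
      obtain ⟨_, h, n, rfl⟩ := mem_closure_iff_nhds.1 ha _ (inter_mem hU this)
      exact ⟨n, not_lt.1 fun l => h.2 ⟨n, l, rfl⟩, h.1⟩
  obtain ⟨n, hn, h⟩ := tl a ha ha' ((fun g => a⁻¹ * g) ⁻¹' V₀)
    (Continuous.tendsto' (f := fun g => a⁻¹ * g) (by fun_prop) _ _ (by simp) hV₀)
  obtain ⟨n', hn', h'⟩ := tl b hb hb' ((fun g => g⁻¹ * b) ⁻¹' V₀)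
    (Continuous.tendsto' (f := fun g => g⁻¹ * b) (by fun_prop) _ _ (by simp) hV₀)
  obtain ⟨k, hk⟩ := (ZMod.intCast_zmod_eq_zero_iff_dvd (2 ^ n'.factorial - 2 ^ n.factorial) m).1
    (by push_cast; rw [hN n hn, hN n' hn', sub_self])
  have h3 := h2 _ (hs _ hx ⟨0, k, 0⟩) _ (hs _ hx 1)
  have : (e n)⁻¹ * e n' ∈ V₀ := by
    convert h3 using 1
    ext <;> simp [x_pow, div_eq_mul_inv, mul_def, inv_def, one_def, e]
    linear_combination hk
  exact h4 h this h' (mem_of_mem_nhds hV₀) (by simp [mul_assoc])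

end Pool.Agent.H71.Heis
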