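import Mathlib

/-! A Heisenberg type group that is locally minimal, countably tight and not sequential. -/

namespace Pool.Agent.H71.HeisB

open Filter Topology

abbrev E := ℕ →₀ ZMod 2
abbrev F := E →ₗ[ZMod 2] ZMod 2

@[ext] structure H where
  c : ZMod 2
  e : E
  f : F

noncomputable instance : Group H where
  mul x y := ⟨x.c + y.c + x.f y.e, x.e + y.e, x.f + y.f⟩
  one := ⟨0, 0, 0⟩
  inv x := ⟨-x.c + x.f x.e, -x.e, -x.f⟩
  mul_assoc x y z := H.ext (by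
    change x.c + y.c + x.f y.e + z.c + (x.f + y.f) z.e =
      x.c + (y.c + z.c + y.f z.e) + x.f (y.e + z.e)
    simp only [LinearMap.add_apply, map_add]; ring) (add_assoc _ _ _) (add_assoc _ _ _)
  one_mul x := H.ext (by change 0 + x.c + (0 : F) x.e = _; simp) (zero_add _) (zero_add _)
  mul_one x := H.ext (by change x.c + 0 + x.f 0 = _; simp) (add_zero _) (add_zero _)
  inv_mul_cancel x := H.ext (by
    change -x.c + x.f x.e + x.c + (-x.f) x.e = 0
    rw [LinearMap.neg_apply]; ring)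
    (neg_add_cancel _) (neg_add_cancel _)

@[simp] lemma mul_c (x y : H) : (x * y).c = x.c + y.c + x.f y.e := rfl
@[simp] lemma mul_e (x y : H) : (x * y).e = x.e + y.e := rfl
@[simp] lemma mul_f (x y : H) : (x * y).f = x.f + y.f := rfl
@[simp] lemma inv_c (x : H) : x⁻¹.c = -x.c + x.f x.e := rfl
@[simp] lemma inv_e (x : H) : x⁻¹.e = -x.e := rfl
@[simp] lemma inv_f (x : H) : x⁻¹.f = -x.f := rfl
@[simp] lemma one_c : (1 : H).c = 0 := rfl
@[simp] lemma one_e : (1 : H).e = 0 := rfl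
@[simp] lemma one_f : (1 : H).f = 0 := rfl

/-- basic neighbourhoods -/
def B (s : Finset F) : Set H := {x | x.c = 0 ∧ x.f = 0 ∧ ∀ f ∈ s, f x.e = 0}

@[reducible] noncomputable def basis : GroupFilterBasis H where
  sets := Set.range B
  nonempty := ⟨_, ∅, rfl⟩
  inter_sets := by
    classical
    rintro _ _ ⟨s, rfl⟩ ⟨t, rfl⟩
    exact ⟨_, ⟨s ∪ t, rfl⟩, fun x hx => ⟨⟨hx.1, hx.2.1, fun f hf => hx.2.2 f (by simp [hf])⟩,
      hx.1, hx.2.1, fun f hf => hx.2.2 f (by simp [hf])⟩⟩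
  one' := by
    rintro _ ⟨s, rfl⟩
    exact ⟨rfl, rfl, fun f _ => map_zero f⟩
  mul' := by
    rintro _ ⟨s, rfl⟩
    refine ⟨_, ⟨s, rfl⟩, ?_⟩
    rintro _ ⟨x, hx, y, hy, rfl⟩
    exact ⟨by simp [hx.1, hy.1, hx.2.1], by simp [hx.2.1, hy.2.1],
      fun f hf => by simp [hx.2.2 f hf, hy.2.2 f hf]⟩
  inv' := by
    rintro _ ⟨s, rfl⟩
    exact ⟨_, ⟨s, rfl⟩, fun x hx => ⟨by simp [hx.1, hx.2.1], by simp [hx.2.1],
      fun f hf => by simp [hx.2.2 f hf]⟩⟩
  conj' := by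
    classical
    rintro a _ ⟨s, rfl⟩
    exact ⟨_, ⟨insert a.f s, rfl⟩, fun x hx => ⟨by
      simp only [mul_c, inv_c, mul_f, inv_e, hx.1, hx.2.1, hx.2.2 a.f (by simp), add_zero, map_neg]
      ring, by simp [hx.2.1], fun f hf => by simp [hx.2.2 f (by simp [hf])]⟩⟩

noncomputable instance top : TopologicalSpace H := basis.topology

instance : IsTopologicalGroup H := basis.isTopologicalGroup

lemma mem_nhds {U : Set H} : U ∈ 𝓝 (1 : H) ↔ ∃ s, B s ⊆ U := by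
  rw [basis.nhds_one_hasBasis.mem_iff]
  exact ⟨fun ⟨_, ⟨s, e⟩, h⟩ => ⟨s, e ▸ h⟩, fun ⟨s, h⟩ => ⟨_, ⟨s, rfl⟩, h⟩⟩

instance : T2Space H := IsTopologicalGroup.t2Space_of_one_sep fun x hx => by
  by_cases h : x.e = 0
  · exact ⟨B ∅, mem_nhds.2 ⟨_, subset_rfl⟩, fun h' => hx (H.ext h'.1 h h'.2.1)⟩
  · obtain ⟨f, hf⟩ := Module.Projective.exists_dual_ne_zero (ZMod 2) h
    exact ⟨B {f}, mem_nhds.2 ⟨_, subset_rfl⟩, fun h' => hf (h'.2.2 f (by simp))⟩

lemma locMin (σ : TopologicalSpace H) (h : @IsTopologicalGroup H σ _) (le : top ≤ σ)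
    (hU : B ∅ ∈ @nhds H σ 1) : σ = top := by
  refine h.ext inferInstance (le_antisymm (fun U hU' => ?_) (nhds_mono le))
  obtain ⟨s, hs⟩ := mem_nhds.1 hU'
  have : ∀ f : F, {x | (⟨0, 0, f⟩ : H) * x * (⟨0, 0, f⟩ : H)⁻¹ ∈ B ∅} ∈ @nhds H σ 1 := fun f =>
    @Continuous.tendsto' H H σ σ (fun x => (⟨0, 0, f⟩ : H) * x * (⟨0, 0, f⟩ : H)⁻¹)
      (by fun_prop) 1 1 (by simp) _ hU
  refine mem_of_superset (inter_mem hU ((biInter_finset_mem s).2 fun f _ => this f))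
    fun x hx => hs ⟨hx.1.1, hx.1.2.1, fun f hf => ?_⟩
  simpa [hx.1.1, hx.1.2.1] using (Set.mem_iInter₂.1 hx.2 f hf).1

lemma tight (A : Set H) (x : H) (hx : x ∈ closure A) :
    ∃ S ⊆ A, S.Countable ∧ x ∈ closure S := by
  have hU : {y | x⁻¹ * y ∈ B ∅} ∈ 𝓝 x :=
    Continuous.tendsto' (f := fun y => x⁻¹ * y) (by fun_prop) x 1 (by simp)
      (mem_nhds.2 ⟨_, subset_rfl⟩)
  refine ⟨{y | x⁻¹ * y ∈ B ∅} ∩ A, Set.inter_subset_right, ?_, mem_closure_iff_nhds.2 fun t ht => ?_⟩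
  · refine Set.Countable.mono (fun y hy => ?_) (Set.countable_range fun e : E => x * (⟨0, e, 0⟩ : H))
    exact ⟨(x⁻¹ * y).e, eq_inv_mul_iff_mul_eq.1 (H.ext hy.1.1.symm rfl hy.1.2.1.symm)⟩
  · rw [← Set.inter_assoc]
    exact mem_closure_iff_nhds.1 hx _ (inter_mem ht hU)

lemma seq (e : ℕ → E) (h : ∀ f : F, ∀ᶠ n in atTop, f (e n) = 0) : ∀ᶠ n in atTop, e n = 0 := by
  classical
  obtain ⟨b, hb, hs, hl⟩ := exists_linearIndependent (ZMod 2) (Set.range e)
  have hl' : LinearIndepOn (ZMod 2) id b := hl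
  let f : F := (Module.Basis.extend hl').constr (ZMod 2) fun _ => 1
  have hf : ∀ v ∈ b, f v = 1 := fun v hv => by
    have := (Module.Basis.extend hl').constr_basis (ZMod 2) (fun _ => (1 : ZMod 2))
      ⟨v, hl'.subset_extend _ hv⟩
    rwa [Module.Basis.extend_apply_self] at this
  have fb : b.Finite := by
    have := h f
    rw [← Nat.cofinite_eq_atTop, eventually_cofinite] at this
    refine (this.image e).subset fun v hv => ?_
    obtain ⟨n, rfl⟩ := hb hv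
    exact ⟨n, by simp [hf _ hv], rfl⟩
  have fr : (Set.range e).Finite := by
    have := Module.Finite.span_of_finite (ZMod 2) fb
    have : Finite (Submodule.span (ZMod 2) b) := Module.finite_of_finite (ZMod 2)
    exact (Set.toFinite (Submodule.span (ZMod 2) b : Set E)).subset
      (hs ▸ Submodule.subset_span)
  have : ∀ v : E, ∀ᶠ n in atTop, e n = v → v = 0 := fun v => by
    by_cases hv : v = 0
    · simp [hv]
    · obtain ⟨g, hg⟩ := Module.Projective.exists_dual_ne_zero (ZMod 2) hv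
      exact (h g).mono fun n hn e => absurd (e ▸ hn) hg
  exact ((eventually_all_finite fr).2 fun v _ => this v).mono fun n hn => hn _ ⟨n, rfl⟩ rfl

lemma not_seq : ¬ SequentialSpace H := fun h => by
  have : IsClosed ({1}ᶜ : Set H) := IsSeqClosed.isClosed fun x p hx hp e => by
    rw [e] at hp
    have h1 : ∀ᶠ n in atTop, x n ∈ B ∅ := hp (mem_nhds.2 ⟨_, subset_rfl⟩)
    have h2 := seq (fun n => (x n).e) fun f =>
      (hp.eventually (mem_nhds.2 ⟨{f}, subset_rfl⟩)).mono fun n hn => hn.2.2 f (by simp)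
    obtain ⟨n, h1, h2⟩ := (h1.and h2).exists
    exact hx n (H.ext h1.1 h2 h1.2.1)
  obtain ⟨s, hs⟩ := mem_nhds.1 ((isClosed_compl_iff.1 this).mem_nhds rfl)
  obtain ⟨a, b, hab, e⟩ := Finite.exists_ne_map_eq_of_infinite fun (v : E) (f : s) => f.1 v
  have := hs (a := ⟨0, a - b, 0⟩) ⟨rfl, rfl, fun f hf => by
    rw [map_sub, sub_eq_zero]; exact congrFun e ⟨f, hf⟩⟩
  exact hab (sub_eq_zero.1 (congrArg H.e this))

end Pool.Agent.H71.HeisB
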