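import Pool.Agent.H71.Cook1

set_option autoImplicit false

namespace Pool.Agent.H71.Ing

open Set

abbrev Om : Type := Fin 3 × (ℕ → Fin 5)

def shf (d : Fin 5) : Fin 3 := ![1, 1, 2, 2, 0] d
def fl (d : Fin 5) : Bool := ![false, true, false, true, false] d
def up (d : Fin 5) (Q m : ℕ) : ℕ := ![m, 2 * Q - 1 - m, 2 * Q + m, 4 * Q - 1 - m, 4 * Q + m] d
def upP (d : Fin 5) (Q m : ℕ) : ℕ := ![m, 2 * Q - m, 2 * Q + m, 4 * Q - m, 4 * Q + m] d

def leg (w : Om) : ℕ → Fin 3
  | 0 => w.1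
  | k + 1 => leg w k - shf (w.2 k)

def pos (w : Om) : ℕ → ℕ
  | 0 => 0
  | k + 1 => up (w.2 k) (5 ^ k) (pos w k)

def tip (w : Om) : ℕ → Bool
  | 0 => true
  | k + 1 => xor (fl (w.2 k)) (tip w k)

def vp (w : Om) (a : Bool) (k : ℕ) : ℕ := pos w k + (if a = tip w k then 1 else 0)

theorem five_pos (k : ℕ) : 0 < 5 ^ k := by positivity

theorem up_lt {d : Fin 5} {Q m : ℕ} (h : m < Q) : up d Q m < Q * 5 := by
  fin_cases d <;> simp [up] <;> omega

theorem pos_lt (w : Om) : ∀ k, pos w k < 5 ^ k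
  | 0 => by simp [pos]
  | k + 1 => by rw [pos, pow_succ]; exact up_lt (pos_lt w k)

theorem vp_le (w : Om) (a : Bool) (k : ℕ) : vp w a k ≤ 5 ^ k := by
  have := pos_lt w k
  unfold vp; split_ifs <;> omega

theorem vp_succ (w : Om) (a : Bool) (k : ℕ) :
    vp w a (k + 1) = upP (w.2 k) (5 ^ k) (vp w a k) := by
  have key : ∀ (d : Fin 5) (t : Bool) (Q m : ℕ), m < Q →
      up d Q m + (if a = xor (fl d) t then 1 else 0) = upP d Q (m + if a = t then 1 else 0) := by
    intro d t Q m h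
    fin_cases d <;> cases a <;> cases t <;> simp [up, upP, fl] <;> omega
  exact key _ _ _ _ (pos_lt w k)

theorem leg_down (w : Om) (k : ℕ) : leg w k = leg w (k + 1) + shf (w.2 k) := by
  simp [leg]

def Veq (k : ℕ) (w : Om) (a : Bool) (w' : Om) (b : Bool) : Prop :=
  vp w a k = vp w' b k ∧ (vp w a k = 0 ∨ leg w k = leg w' k)

theorem upP_eq {d d' : Fin 5} {Q P P' : ℕ} (h : P ≤ Q) (h' : P' ≤ Q) (hQ : 0 < Q)
    (he : upP d Q P = upP d' Q P') :
    P = P' ∧ (P = 0 ∨ shf d = shf d') ∧ (upP d Q P = 0 → P = 0) := by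
  fin_cases d <;> fin_cases d' <;> simp [upP, shf] at he ⊢ <;> omega

theorem Veq.down {k : ℕ} {w w' : Om} {a b : Bool} (h : Veq (k + 1) w a w' b) : Veq k w a w' b := by
  obtain ⟨h1, h2⟩ := h
  rw [vp_succ, vp_succ] at h1
  rw [vp_succ] at h2
  obtain ⟨h3, h4, h5⟩ := upP_eq (vp_le _ _ _) (vp_le _ _ _) (five_pos k) h1
  refine ⟨h3, ?_⟩
  rcases h2 with h2 | h2
  · exact Or.inl (h5 h2)
  rcases h4 with h4 | h4
  · exact Or.inl h4
  · right; rw [leg_down w, leg_down w', h2, h4]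

theorem Veq.le {k l : ℕ} {w w' : Om} {a b : Bool} (hkl : k ≤ l) (h : Veq l w a w' b) :
    Veq k w a w' b := by
  induction l, hkl using Nat.le_induction with
  | base => exact h
  | succ l _ ih => exact ih h.down

def V (w : Om) (a : Bool) (w' : Om) (b : Bool) : Prop := ∀ k, Veq k w a w' b

theorem V.symm {w w' : Om} {a b : Bool} (h : V w a w' b) : V w' b w a := fun k =>
  ⟨(h k).1.symm, (h k).2.imp (fun h2 => (h k).1 ▸ h2) Eq.symm⟩

theorem V.trans {w w' w'' : Om} {a b c : Bool} (h : V w a w' b) (h' : V w' b w'' c) :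
    V w a w'' c := fun k => ⟨(h k).1.trans (h' k).1, by
  rcases (h k).2 with h1 | h1
  · exact Or.inl h1
  rcases (h' k).2 with h2 | h2
  · exact Or.inl ((h k).1.trans h2)
  · exact Or.inr (h1.trans h2)⟩

theorem V.rfl' (w : Om) (a : Bool) : V w a w a := fun _ => ⟨rfl, Or.inr rfl⟩

theorem V_of_ge {w w' : Om} {a b : Bool} {k : ℕ} (h : ∀ l, k ≤ l → Veq l w a w' b) :
    V w a w' b := fun l => (h (l + k) (by omega)).le (by omega)

def same (k : ℕ) (w e : Om) : Prop := leg w k = leg e k ∧ pos w k = pos e k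

theorem up_inj {d d' : Fin 5} {Q m m' : ℕ} (h : m < Q) (h' : m' < Q)
    (he : up d Q m = up d' Q m') : d = d' ∧ m = m' := by
  fin_cases d <;> fin_cases d' <;> simp [up] at he ⊢ <;> omega

theorem same.down {k : ℕ} {w e : Om} (h : same (k + 1) w e) : w.2 k = e.2 k ∧ same k w e := by
  obtain ⟨h1, h2⟩ := up_inj (pos_lt _ _) (pos_lt _ _) h.2
  exact ⟨h1, by rw [leg_down w, leg_down e, h.1, h1], h2⟩

theorem same.agree : ∀ {k : ℕ} {w e : Om}, same k w e → w.1 = e.1 ∧ ∀ l < k, w.2 l = e.2 l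
  | 0, _, _, h => ⟨h.1, fun _ h => absurd h (Nat.not_lt_zero _)⟩
  | k + 1, _, _, h => by
    obtain ⟨h1, h2⟩ := h.down.2.agree
    refine ⟨h1, fun l hl => ?_⟩
    rcases Nat.lt_succ_iff_lt_or_eq.1 hl with hl | rfl
    · exact h2 l hl
    · exact h.down.1

theorem agree_eq {w e : Om} (h1 : w.1 = e.1) : ∀ k, (∀ l < k, w.2 l = e.2 l) →
    leg w k = leg e k ∧ pos w k = pos e k ∧ tip w k = tip e k
  | 0, _ => ⟨h1, rfl, rfl⟩
  | k + 1, h => by
    obtain ⟨h2, h3, h4⟩ := agree_eq h1 k fun l hl => h l (by omega)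
    simp only [leg, pos, tip, h2, h3, h4, h k (by omega), and_self]

theorem same.tip {k : ℕ} {w e : Om} (h : same k w e) : tip w k = tip e k :=
  (agree_eq h.agree.1 k h.agree.2).2.2

theorem same.le {k l : ℕ} {w e : Om} (hkl : k ≤ l) (h : same l w e) : same k w e := by
  have := agree_eq h.agree.1 k fun i hi => h.agree.2 i (by omega)
  exact ⟨this.1, this.2.1⟩

def Blk (k : ℕ) (w e : Om) : Prop := leg w k = leg e k ∧ ∀ l, k ≤ l → w.2 l = e.2 l

theorem Blk.symm {k : ℕ} {w e : Om} (h : Blk k w e) : Blk k e w :=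
  ⟨h.1.symm, fun l hl => (h.2 l hl).symm⟩

theorem Blk.trans {k : ℕ} {w e g : Om} (h : Blk k w e) (h' : Blk k e g) : Blk k w g :=
  ⟨h.1.trans h'.1, fun l hl => (h.2 l hl).trans (h'.2 l hl)⟩

theorem Blk.eq {k : ℕ} {w e : Om} (h : Blk k w e) (hp : pos w k = pos e k) : w = e := by
  have := (show same k w e from ⟨h.1, hp⟩).agree
  refine Prod.ext this.1 (funext fun l => ?_)
  rcases lt_or_ge l k with hl | hl
  · exact this.2 l hl
  · exact h.2 l hl

theorem Blk.leg {k l : ℕ} {w e : Om} (h : Blk k w e) (hl : k ≤ l) : leg w l = leg e l := by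
  induction l, hl using Nat.le_induction with
  | base => exact h.1
  | succ l hl ih => simp only [Ing.leg, ih, h.2 l hl]

theorem Blk.V {k : ℕ} {w e : Om} {a b : Bool} (h : Blk k w e) (hv : vp w a k = vp e b k) :
    V w a e b := by
  refine V_of_ge (k := k) fun l hl => ⟨?_, Or.inr (h.leg hl)⟩
  induction l, hl using Nat.le_induction with
  | base => exact hv
  | succ l hl ih => rw [vp_succ, vp_succ, ih, h.2 l hl]

theorem up_surj {Q t : ℕ} (h : t < Q * 5) : ∃ d m, m < Q ∧ up d Q m = t := by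
  by_cases h1 : t < Q
  · exact ⟨0, t, h1, by simp [up]⟩
  by_cases h2 : t < 2 * Q
  · exact ⟨1, 2 * Q - 1 - t, by omega, by simp [up]; omega⟩
  by_cases h3 : t < 3 * Q
  · exact ⟨2, t - 2 * Q, by omega, by simp [up]; omega⟩
  by_cases h4 : t < 4 * Q
  · exact ⟨3, 4 * Q - 1 - t, by omega, by simp [up]; omega⟩
  · exact ⟨4, t - 4 * Q, by omega, by simp [up]; omega⟩

theorem surj : ∀ (k : ℕ) (i : Fin 3) (t : ℕ) (u : ℕ → Fin 5), t < 5 ^ k →
    ∃ e : Om, leg e k = i ∧ pos e k = t ∧ ∀ l, k ≤ l → e.2 l = u l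
  | 0, i, t, u, h => ⟨(i, u), rfl, by simp at h; simp [pos, h], fun _ _ => rfl⟩
  | k + 1, i, t, u, h => by
    obtain ⟨d, m, hm, rfl⟩ := up_surj (pow_succ 5 k ▸ h)
    obtain ⟨e, h1, h2, h3⟩ := surj k (i + shf d) m (Function.update u k d) hm
    have h4 : e.2 k = d := by rw [h3 k le_rfl]; simp
    refine ⟨e, by simp [leg, h1, h4], by simp [pos, h2, h4], fun l hl => ?_⟩
    rw [h3 l (by omega), Function.update_of_ne (by omega)]

theorem exists_blk (k : ℕ) (w : Om) {t : ℕ} (ht : t < 5 ^ k) : ∃ e, Blk k w e ∧ pos e k = t := by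
  obtain ⟨e, h1, h2, h3⟩ := surj k (leg w k) t w.2 ht
  exact ⟨e, ⟨h1.symm, fun l hl => (h3 l hl).symm⟩, h2⟩

theorem splice (z w : Om) (k : ℕ) : ∃ e, same k e z ∧ Blk (k + 1) w e := by
  obtain ⟨d, hd⟩ : ∃ d, shf d = leg z k - leg w (k + 1) := by
    generalize leg z k - leg w (k + 1) = j
    revert j; decide
  obtain ⟨e, h1, h2, h3⟩ := surj k (leg z k) (pos z k) (Function.update w.2 k d) (pos_lt z k)
  have h4 : e.2 k = d := by rw [h3 k le_rfl]; simp
  refine ⟨e, ⟨h1, h2⟩, ?_, fun l hl => ?_⟩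
  · conv_rhs => rw [leg, h1, h4, hd]
    simp
  · rw [h3 l (by omega), Function.update_of_ne (by omega)]

open Classical in
noncomputable def sv (k : ℕ) (e w : Om) (a : Bool) : Bool :=
  if leg w k = leg e k ∧ pos e k < vp w a k then tip e k else !tip e k

theorem sv_veq {k : ℕ} {w w' : Om} {a b : Bool} (e : Om) (h : Veq k w a w' b) :
    sv k e w a = sv k e w' b := by
  have : (leg w k = leg e k ∧ pos e k < vp w a k) ↔ (leg w' k = leg e k ∧ pos e k < vp w' b k) := by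
    rw [← h.1]
    rcases h.2 with h2 | h2
    · simp [h2]
    · rw [h2]
  simp only [sv, this]

theorem sv_same {k : ℕ} {w e : Om} (h : same k w e) (a : Bool) : sv k e w a = a := by
  simp only [sv, vp, h.1, h.2, h.tip, true_and]
  cases a <;> cases tip e k <;> simp

theorem sv_ne {k : ℕ} {w e : Om} (h : ¬ same k w e) (a : Bool) : sv k e w a = sv k e w true := by
  have : ∀ a, (leg w k = leg e k ∧ pos e k < vp w a k) ↔ (leg w k = leg e k ∧ pos e k < pos w k) := by
    intro a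
    refine and_congr_right fun h1 => ?_
    have : pos w k ≠ pos e k := fun h2 => h ⟨h1, h2⟩
    unfold vp; split_ifs <;> omega
  simp only [sv, this]

theorem sv_lt {k : ℕ} {w e : Om} (h : leg w k = leg e k) (hp : pos e k < pos w k) :
    ¬ same k w e ∧ sv k e w true = tip e k :=
  ⟨fun h' => by have := h'.2; omega, if_pos ⟨h, by unfold vp; omega⟩⟩

theorem sv_gt {k : ℕ} {w e : Om} (hp : leg w k ≠ leg e k ∨ pos w k < pos e k) :
    ¬ same k w e ∧ sv k e w true = !tip e k := by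
  refine ⟨fun h' => ?_, if_neg fun h => ?_⟩
  · rcases hp with hp | hp
    · exact hp h'.1
    · have := h'.2; omega
  · rcases hp with hp | hp
    · exact hp h.1
    · have := h.2; unfold vp at this; split_ifs at this <;> omega

theorem up_mono {d : Fin 5} {Q m m' : ℕ} (h' : m' < Q) (h : m < m') :
    (fl d = false ∧ up d Q m < up d Q m') ∨ (fl d = true ∧ up d Q m' < up d Q m) := by
  fin_cases d <;> simp [up, fl] <;> omega

theorem Blk.side {k l : ℕ} {w e : Om} (h : Blk k w e) (hp : pos w k < pos e k) (hl : k ≤ l) :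
    (¬ same l e w ∧ sv l w e true = tip w k) ∧ (¬ same l w e ∧ sv l e w true = !tip e k) := by
  have key : (pos w l < pos e l ∧ tip w l = tip w k ∧ tip e l = tip e k) ∨
      (pos e l < pos w l ∧ tip w l = !tip w k ∧ tip e l = !tip e k) := by
    induction l, hl using Nat.le_induction with
    | base => exact Or.inl ⟨hp, rfl, rfl⟩
    | succ l hl ih =>
      simp only [pos, tip, ← h.2 l hl]
      rcases ih with ⟨h1, h2, h3⟩ | ⟨h1, h2, h3⟩
      · rcases up_mono (d := w.2 l) (pos_lt e l) h1 with ⟨h4, h5⟩ | ⟨h4, h5⟩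
        · exact Or.inl ⟨h5, by simp [h4, h2], by simp [h4, h3]⟩
        · exact Or.inr ⟨h5, by simp [h4, h2], by simp [h4, h3]⟩
      · rcases up_mono (d := w.2 l) (pos_lt w l) h1 with ⟨h4, h5⟩ | ⟨h4, h5⟩
        · exact Or.inr ⟨h5, by simp [h4, h2], by simp [h4, h3]⟩
        · exact Or.inl ⟨h5, by simp [h4, h2], by simp [h4, h3]⟩
  rcases key with ⟨h1, h2, h3⟩ | ⟨h1, h2, h3⟩
  · exact ⟨h2 ▸ sv_lt (h.leg hl).symm h1, h3 ▸ sv_gt (Or.inr h1)⟩
  · have := sv_gt (w := e) (e := w) (Or.inr h1)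
    rw [h2, Bool.not_not] at this
    exact ⟨this, h3 ▸ sv_lt (h.leg hl) h1⟩

theorem chain {Y : Type*} (g : Om → Bool → Y) (hg : ∀ w a w' b, V w a w' b → g w a = g w' b)
    {k : ℕ} {w e : Om} (h : Blk k w e) (hp : pos w k < pos e k)
    (hf : ∀ u, Blk k w u → pos w k < pos u k → pos u k < pos e k → ∀ a b, g u a = g u b) :
    g w (tip w k) = g e (!tip e k) := by
  have key : ∀ t, ∀ u, Blk k w u → pos u k = pos w k + 1 + t → pos u k ≤ pos e k →
      g w (tip w k) = g u (!tip u k) := by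
    intro t
    induction t with
    | zero =>
      intro u hu h1 _
      exact hg _ _ _ _ (hu.V (by simp [vp, h1]))
    | succ t ih =>
      intro u hu h1 h2
      have := pos_lt u k
      obtain ⟨u', hu', h3⟩ := exists_blk k w (t := pos w k + 1 + t) (by omega)
      rw [ih u' hu' h3 (by omega), hf u' hu' (by omega) (by omega) _ (tip u' k)]
      exact hg _ _ _ _ ((hu'.symm.trans hu).V (by simp [vp, h1, h3]; omega))
  exact key (pos e k - pos w k - 1) e h (by omega) le_rfl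

def Zr (k : ℕ) (w : Om) : Prop := ∀ l, k ≤ l → w.2 l = 0

theorem Zr.up {k l : ℕ} {w : Om} (h : Zr k w) (hl : k ≤ l) :
    pos w l = pos w k ∧ tip w l = tip w k := by
  induction l, hl using Nat.le_induction with
  | base => exact ⟨rfl, rfl⟩
  | succ l hl ih => simp [pos, tip, h l hl, Ing.up, fl, ih.1, ih.2]

theorem Zr.leg {k l : ℕ} {w e : Om} (h : Zr k w) (h' : Zr k e) (hne : leg w k ≠ leg e k)
    (hl : k ≤ l) : Ing.leg w l ≠ Ing.leg e l := by
  induction l, hl using Nat.le_induction with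
  | base => exact hne
  | succ l hl ih => simpa [Ing.leg, h l hl, h' l hl] using ih

theorem Zr.V {k : ℕ} {w e : Om} (h : Zr k w) (h' : Zr k e) (hw : pos w k = 0) (he : pos e k = 0) :
    V w (!tip w k) e (!tip e k) := by
  refine V_of_ge (k := k) fun l hl => ?_
  have h1 : vp w (!tip w k) l = 0 := by simp [vp, (h.up hl).1, (h.up hl).2, hw]
  have h2 : vp e (!tip e k) l = 0 := by simp [vp, (h'.up hl).1, (h'.up hl).2, he]
  exact ⟨h1.trans h2.symm, Or.inl h1⟩

theorem Zr.blk {k : ℕ} {w e : Om} (h : Zr k w) (hb : Blk k w e) : Zr k e :=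
  fun l hl => (hb.2 l hl).symm.trans (h l hl)

theorem chain0 {Y : Type*} (g : Om → Bool → Y) (hg : ∀ w a w' b, V w a w' b → g w a = g w' b)
    {k : ℕ} {w e : Om} (hw : Zr k w) (he : Zr k e)
    (hf : ∀ u, Blk k w u → pos u k < pos w k → ∀ a b, g u a = g u b)
    (hf' : ∀ u, Blk k e u → pos u k < pos e k → ∀ a b, g u a = g u b) :
    g w (!tip w k) = g e (!tip e k) := by
  have key : ∀ w, Zr k w → (∀ u, Blk k w u → pos u k < pos w k → ∀ a b, g u a = g u b) →
      ∃ u, Zr k u ∧ pos u k = 0 ∧ g w (!tip w k) = g u (!tip u k) := by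
    intro w hw hf
    by_cases h0 : pos w k = 0
    · exact ⟨w, hw, h0, rfl⟩
    obtain ⟨u, hu, h1⟩ := exists_blk k w (five_pos k)
    refine ⟨u, hw.blk hu, h1, ?_⟩
    rw [← chain g hg hu.symm (by omega) fun v hv _ h2 => hf v (hu.trans hv) h2]
    exact hf u hu (by omega) _ _
  obtain ⟨u, u1, u2, u3⟩ := key w hw hf
  obtain ⟨v, v1, v2, v3⟩ := key e he hf'
  rw [u3, v3]
  exact hg _ _ _ _ (u1.V v1 u2 v2)

def rho (i : Fin 3) : Om := (i, fun _ => 4)

theorem rho_leg (i : Fin 3) : ∀ k, leg (rho i) k = i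
  | 0 => rfl
  | k + 1 => by simp [leg, rho_leg i k]; rfl

theorem rho_vp (i : Fin 3) : ∀ k, vp (rho i) true k = 5 ^ k
  | 0 => rfl
  | k + 1 => by rw [vp_succ, rho_vp i k]; simp [rho, upP]; omega

theorem rho_V {i : Fin 3} {w : Om} {b : Bool} (h : V (rho i) true w b) : w = rho i ∧ b = true := by
  have h1 : ∀ k, vp w b k = 5 ^ k := fun k => by rw [← (h k).1, rho_vp]
  have h2 : w.1 = i := by
    rcases (h 0).2 with h2 | h2
    · simp [rho_vp] at h2
    · exact h2.symm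
  refine ⟨Prod.ext h2 (funext fun k => ?_), ?_⟩
  · have h3 := h1 (k + 1)
    rw [vp_succ, h1 k] at h3
    have := five_pos k
    generalize w.2 k = d at h3
    fin_cases d <;> simp [upP] at h3 ⊢ <;> first | omega | rfl
  · have := h1 0
    cases b
    · simp [vp, pos, tip] at this
    · rfl

def sg (w : Om) : Om := (leg w 1, fun l => w.2 (l + 1))

theorem sg_leg (w : Om) : ∀ k, leg (sg w) k = leg w (k + 1)
  | 0 => rfl
  | k + 1 => by rw [leg, sg_leg w k]; rfl

theorem sg_pos (w : Om) : ∀ k, 5 * pos (sg w) k ≤ pos w (k + 1) ∧ pos w (k + 1) < 5 * pos (sg w) k + 5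
  | 0 => by have := pos_lt w 1; simp [pos] at this ⊢; exact this
  | k + 1 => by
    have h1 := sg_pos w k
    have h2 := pos_lt (sg w) k
    rw [pos, pos, pow_succ]
    simp only [sg] at h1 h2 ⊢
    generalize w.2 (k + 1) = d
    fin_cases d <;> simp [up] <;> omega

def Btw (l : ℕ) (e w w' : Om) : Prop :=
  (leg w l = leg e l ∧ pos e l < pos w l) ∧ (leg w' l ≠ leg e l ∨ pos w' l < pos e l)

theorem Btw.sg {l : ℕ} {e w w' : Om} (h : Btw l (sg e) (sg w) (sg w')) : Btw (l + 1) e w w' := by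
  simp only [Btw, sg_leg] at h
  have h1 := sg_pos e l
  have h2 := sg_pos w l
  have h3 := sg_pos w' l
  exact ⟨⟨h.1.1, by omega⟩, h.2.imp id (by omega)⟩

theorem Btw.iter {e w w' : Om} : ∀ (k : ℕ) {l : ℕ}, Btw l (Ing.sg^[k] e) (Ing.sg^[k] w) (Ing.sg^[k] w') →
    Btw (l + k) e w w'
  | 0, _, h => h
  | k + 1, l, h => by
    simp only [Function.iterate_succ_apply'] at h
    have := Btw.iter k h.sg
    rwa [add_right_comm, add_assoc] at this

theorem sg_iter (w : Om) : ∀ k, (sg^[k] w).1 = leg w k ∧ ∀ l, (sg^[k] w).2 l = w.2 (l + k)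
  | 0 => ⟨rfl, fun _ => rfl⟩
  | k + 1 => by
    rw [Function.iterate_succ_apply]
    obtain ⟨h1, h2⟩ := sg_iter (sg w) k
    exact ⟨by rw [h1, sg_leg], fun l => by rw [h2]; rfl⟩

theorem sg_iter_leg (w : Om) : ∀ k l, leg (sg^[k] w) l = leg w (l + k)
  | 0, _ => rfl
  | k + 1, l => by rw [Function.iterate_succ_apply, sg_iter_leg (sg w) k l, sg_leg]; rfl

theorem pos_zero {w : Om} : ∀ {k : ℕ}, pos w k = 0 → ∀ l < k, w.2 l = 0
  | 0, _, _, h => absurd h (Nat.not_lt_zero _)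
  | k + 1, h, l, hl => by
    have h1 := pos_lt w k
    have : w.2 k = 0 ∧ pos w k = 0 := by
      rw [pos] at h
      generalize w.2 k = d at h
      fin_cases d <;> simp [up] at h ⊢ <;> omega
    rcases Nat.lt_succ_iff_lt_or_eq.1 hl with hl | rfl
    · exact pos_zero this.2 l hl
    · exact this.1

theorem up_near {d d' : Fin 5} {Q m m' : ℕ} (h : m < Q) (h' : m' < Q) (hs : shf d = shf d')
    (hne : d ≠ d') (h1 : up d Q m ≤ up d' Q m' + 1) (h2 : up d' Q m' ≤ up d Q m + 1) : m = m' := by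
  fin_cases d <;> fin_cases d' <;> simp [up, shf] at hs hne h1 h2 <;> omega

theorem tri0 (w w' : Om) : (∃ k, Blk k w w') ∨ (∃ k, Zr k w ∧ Zr k w') ∨
    ∃ l e, Btw l e w w' ∨ Btw l e w' w := by
  by_contra hc
  simp only [not_or, not_exists] at hc
  obtain ⟨h1, h2, h3⟩ := hc
  have key : ∀ w w' : Om, ∀ l, (∀ e, ¬ Btw l e w w') →
      (leg w' l ≠ leg w l → pos w l = 0) ∧ pos w l ≤ pos w' l + 1 := by
    intro w w' l h
    by_contra hc
    have h4 := pos_lt w l
    have h5 : pos w l ≠ 0 := by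
      intro h5; apply hc; simp [h5]
    obtain ⟨e, he, h6⟩ := exists_blk l w (t := pos w l - 1) (by omega)
    refine h e ⟨⟨he.1, by omega⟩, ?_⟩
    rw [← he.1]
    by_contra h7
    push Not at h7
    exact hc ⟨fun h => absurd h7.1 h, by omega⟩
  have k1 := fun l => key w w' l fun e => (h3 l e).1
  have k2 := fun l => key w' w l fun e => (h3 l e).2
  obtain ⟨l0, hl0⟩ : ∃ l0, ∀ l, l0 ≤ l → leg w l = leg w' l := by
    by_contra h
    push Not at h
    refine h2 0 ⟨fun l _ => ?_, fun l _ => ?_⟩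
    · obtain ⟨l', h4, h5⟩ := h (l + 1)
      exact pos_zero ((k1 l').1 (Ne.symm h5)) l (by omega)
    · obtain ⟨l', h4, h5⟩ := h (l + 1)
      exact pos_zero ((k2 l').1 h5) l (by omega)
  have h4 : ∀ k, l0 ≤ k → ∃ l, k ≤ l ∧ w.2 l ≠ w'.2 l := by
    intro k hk
    by_contra h
    push Not at h
    exact h1 k ⟨hl0 k hk, h⟩
  obtain ⟨l1, a1, a2⟩ := h4 l0 le_rfl
  obtain ⟨l2, b1, b2⟩ := h4 (l1 + 1) (by omega)
  have hs : shf (w.2 l2) = shf (w'.2 l2) := by
    have e1 := leg_down w l2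
    have e2 := leg_down w' l2
    rw [hl0 l2 (by omega), hl0 (l2 + 1) (by omega), e2] at e1
    exact (add_left_cancel e1).symm
  have := up_near (pos_lt w l2) (pos_lt w' l2) hs b2 (k1 (l2 + 1)).2 (k2 (l2 + 1)).2
  exact a2 ((show same l2 w w' from ⟨hl0 l2 (by omega), this⟩).agree.2 l1 (by omega))

theorem tri (w w' : Om) : (∃ k, Blk k w w') ∨ (∃ k, Zr k w ∧ Zr k w') ∨
    ∀ z k, ∃ l e, k ≤ l ∧ same k e z ∧ (Btw l e w w' ∨ Btw l e w' w) := by
  by_contra hc
  simp only [not_or, not_exists, not_forall] at hc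
  obtain ⟨h1, h2, z, k, h3⟩ := hc
  rcases tri0 (sg^[k + 1] w) (sg^[k + 1] w') with ⟨j, h⟩ | ⟨j, h⟩ | ⟨l, e, h⟩
  · refine h1 (j + (k + 1)) ⟨by simpa only [sg_iter_leg] using h.1, fun l hl => ?_⟩
    have := h.2 (l - (k + 1)) (by omega)
    rwa [(sg_iter _ _).2, (sg_iter _ _).2, show l - (k + 1) + (k + 1) = l by omega] at this
  · refine h2 (j + (k + 1)) ⟨fun l hl => ?_, fun l hl => ?_⟩
    · have := h.1 (l - (k + 1)) (by omega)
      rwa [(sg_iter _ _).2, show l - (k + 1) + (k + 1) = l by omega] at this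
    · have := h.2 (l - (k + 1)) (by omega)
      rwa [(sg_iter _ _).2, show l - (k + 1) + (k + 1) = l by omega] at this
  · obtain ⟨u, u1, -, u2⟩ := surj (k + 1) e.1 0 (fun l => e.2 (l - (k + 1))) (five_pos _)
    obtain ⟨e', h4, h5⟩ := splice z u k
    have : sg^[k + 1] e' = e := by
      refine Prod.ext (by rw [(sg_iter _ _).1, ← h5.1, u1]) (funext fun l => ?_)
      rw [(sg_iter _ _).2, ← h5.2 _ (by omega), u2 _ (by omega)]
      simp
    rw [← this] at h
    exact h3 (l + (k + 1)) e' ⟨by omega, h4, h.imp (Btw.iter _) (Btw.iter _)⟩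

end Pool.Agent.H71.Ing
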