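import Pool.Agent.H71.Ing1

set_option autoImplicit false

namespace Pool.Agent.H71.Ing

open Set Filter Topology

abbrev X : Type := ℕ → Om

def tl (x : X) : X := fun i => x (i + 1)
def cons (w : Om) (x : X) : X := fun i => Nat.casesOn i w x
def R (a : Bool) : X := cons (rho (cond a 1 0)) fun _ => rho 1

@[simp] theorem tl_cons (w : Om) (x : X) : tl (cons w x) = x := rfl
@[simp] theorem cons_zero (w : Om) (x : X) : cons w x 0 = w := rfl
theorem cons_tl (x : X) : cons (x 0) (tl x) = x := funext fun i => by cases i <;> rfl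
theorem tl_R (a : Bool) : tl (R a) = R true := funext fun i => by cases i <;> rfl
theorem R_inj {a b : Bool} (h : R a = R b) : a = b := by
  have := congrArg (fun x : X => (x 0).1) h
  cases a <;> cases b <;> simp [R, rho] at this ⊢

def Jt (x y : X) : Prop := ∃ a b, tl x = R a ∧ tl y = R b ∧ V (x 0) a (y 0) b

def A : ℕ → X → X → Prop
  | 0, _, _ => True
  | n + 1, x, y => Jt x y ∨ (x 0 = y 0 ∧ A n (tl x) (tl y))

def J (x y : X) : Prop := ∀ n, A n x y

theorem J_iff {x y : X} : J x y ↔ Jt x y ∨ (x 0 = y 0 ∧ J (tl x) (tl y)) := by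
  constructor
  · intro h
    by_cases h1 : Jt x y
    · exact Or.inl h1
    · exact Or.inr ⟨((h 1).resolve_left h1).1, fun n => ((h (n + 1)).resolve_left h1).2⟩
  · rintro (h | h) n <;> cases n
    · trivial
    · exact Or.inl h
    · trivial
    · exact Or.inr ⟨h.1, h.2 _⟩

theorem J_refl (x : X) : J x x := fun n => by
  induction n generalizing x with
  | zero => trivial
  | succ n ih => exact Or.inr ⟨rfl, ih _⟩

theorem J.symm {x y : X} (h : J x y) : J y x := fun n => by
  induction n generalizing x y with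
  | zero => trivial
  | succ n ih =>
    rcases J_iff.1 h with ⟨a, b, h1, h2, h3⟩ | h
    · exact Or.inl ⟨b, a, h2, h1, h3.symm⟩
    · exact Or.inr ⟨h.1.symm, ih h.2⟩

theorem J_R {b : Bool} {w : X} (h : J (R b) w) : w = R b := by
  funext n
  induction n generalizing b w with
  | zero =>
    rcases J_iff.1 h with ⟨a, c, h1, -, h3⟩ | h
    · rw [tl_R] at h1
      obtain rfl := R_inj h1
      exact (rho_V h3).1
    · exact h.1.symm
  | succ n ih =>
    rcases J_iff.1 h with ⟨a, c, h1, h2, h3⟩ | h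
    · rw [tl_R] at h1
      obtain rfl := R_inj h1
      obtain rfl := (rho_V h3).2
      exact (congrFun h2 n).trans (congrFun (tl_R b) n).symm
    · rw [tl_R] at h
      exact (ih h.2).trans (congrFun (tl_R b) n).symm

theorem J.trans {x y z : X} (h : J x y) (h' : J y z) : J x z := fun n => by
  induction n generalizing x y z with
  | zero => trivial
  | succ n ih =>
    rcases J_iff.1 h with ⟨a, b, h1, h2, h3⟩ | h <;> rcases J_iff.1 h' with ⟨c, d, g1, g2, g3⟩ | h'
    · obtain rfl := R_inj (h2.symm.trans g1)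
      exact Or.inl ⟨a, d, h1, g2, h3.trans g3⟩
    · rw [h2] at h'
      exact Or.inl ⟨a, b, h1, J_R h'.2, h'.1 ▸ h3⟩
    · rw [g1] at h
      exact Or.inl ⟨c, d, J_R h.2.symm, g2, h.1 ▸ g3⟩
    · exact Or.inr ⟨h.1.trans h'.1, ih h.2 h'.2⟩

theorem J.cons {x y : X} (h : J x y) (w : Om) : J (cons w x) (cons w y) :=
  J_iff.2 (Or.inr ⟨rfl, h⟩)

theorem J_V {w w' : Om} {a b : Bool} (h : V w a w' b) : J (cons w (R a)) (cons w' (R b)) :=
  J_iff.2 (Or.inl ⟨a, b, rfl, rfl, h⟩)

theorem cont_data (k : ℕ) : Continuous (fun w : Om => (leg w k, pos w k, tip w k)) := by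
  induction k with
  | zero => exact continuous_fst.prodMk (continuous_const (y := ((0 : ℕ), true)))
  | succ k ih =>
    exact (continuous_of_discreteTopology (f := fun q : (Fin 3 × ℕ × Bool) × Fin 5 =>
      (q.1.1 - shf q.2, up q.2 (5 ^ k) q.1.2.1, xor (fl q.2) q.1.2.2))).comp
      (ih.prodMk ((continuous_apply k).comp continuous_snd))

theorem cont_tl : Continuous tl := continuous_pi fun i => continuous_apply (i + 1)

theorem cont_cons : Continuous fun q : Om × X => cons q.1 q.2 := continuous_pi fun i => by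
  cases i with
  | zero => exact continuous_fst
  | succ i => exact (continuous_apply i).comp continuous_snd

theorem closed_Jt : IsClosed {q : X × X | Jt q.1 q.2} := by
  have : {q : X × X | Jt q.1 q.2} = ⋃ a, ⋃ b, ({q | tl q.1 = R a} ∩ ({q | tl q.2 = R b} ∩
      ⋂ k, (fun q : X × X => ((leg (q.1 0) k, pos (q.1 0) k, tip (q.1 0) k),
        (leg (q.2 0) k, pos (q.2 0) k, tip (q.2 0) k))) ⁻¹'
        {u | u.1.2.1 + (if a = u.1.2.2 then 1 else 0) = u.2.2.1 + (if b = u.2.2.2 then 1 else 0) ∧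
          (u.1.2.1 + (if a = u.1.2.2 then 1 else 0) = 0 ∨ u.1.1 = u.2.1)})) := by
    ext q
    simp only [mem_iUnion, mem_inter_iff, mem_iInter]
    rfl
  rw [this]
  refine isClosed_iUnion_of_finite fun a => isClosed_iUnion_of_finite fun b =>
    (isClosed_eq (cont_tl.comp continuous_fst) continuous_const).inter
    ((isClosed_eq (cont_tl.comp continuous_snd) continuous_const).inter
    (isClosed_iInter fun k => (isClosed_discrete _).preimage ?_))
  exact ((cont_data k).comp ((continuous_apply 0).comp continuous_fst)).prodMk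
    ((cont_data k).comp ((continuous_apply 0).comp continuous_snd))

theorem closed_A : ∀ n, IsClosed {q : X × X | A n q.1 q.2}
  | 0 => isClosed_univ
  | n + 1 => closed_Jt.union ((isClosed_eq ((continuous_apply 0).comp continuous_fst)
      ((continuous_apply 0).comp continuous_snd)).inter ((closed_A n).preimage
      ((cont_tl.comp continuous_fst).prodMk (cont_tl.comp continuous_snd))))

def rel : Setoid X := ⟨J, J_refl, J.symm, J.trans⟩

theorem rel_closed : IsClosed {q : X × X | rel q.1 q.2} := by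
  have : {q : X × X | rel q.1 q.2} = ⋂ n, {q : X × X | A n q.1 q.2} := by
    ext q; simp only [mem_iInter]; rfl
  rw [this]
  exact isClosed_iInter closed_A

abbrev M : Type := Quotient rel

def q : X → M := Quotient.mk rel

theorem q_cont : Continuous q := continuous_quotient_mk'
theorem q_eq {x y : X} : q x = q y ↔ J x y := Quotient.eq
theorem q_surj (c : M) : ∃ x, q x = c := Quotient.exists_rep c

instance : T2Space M := Cook.quot_t2 rel rel_closed

theorem M_metr : TopologicalSpace.MetrizableSpace M := Cook.quot_metrizable rel rel_closed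

def Cont (K : Set M) : Prop := IsCompact K ∧ IsPreconnected K

theorem Cont.closed {K : Set M} (h : Cont K) : IsClosed (q ⁻¹' K) := h.1.isClosed.preimage q_cont

theorem Cont.cut {K : Set M} (h : Cont K) {C : Set X} (hC : IsClopen C) {x y : X} (hx : q x ∈ K)
    (hy : q y ∈ K) (hxC : x ∈ C) (hyC : y ∉ C) : ∃ x' y', q x' ∈ K ∧ x' ∈ C ∧ y' ∉ C ∧ J x' y' := by
  obtain ⟨_, -, ⟨x', hx', rfl⟩, y', hy', hq⟩ := isPreconnected_closed_iff.1 h.2 _ _
    ((h.closed.inter hC.1).isCompact.image q_cont).isClosed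
    ((h.closed.inter hC.compl.1).isCompact.image q_cont).isClosed
    (by
      intro c hc
      obtain ⟨z, rfl⟩ := q_surj c
      by_cases hz : z ∈ C
      · exact Or.inl ⟨z, ⟨hc, hz⟩, rfl⟩
      · exact Or.inr ⟨z, ⟨hc, hz⟩, rfl⟩)
    ⟨q x, hx, x, ⟨hx, hxC⟩, rfl⟩ ⟨q y, hy, y, ⟨hy, hyC⟩, rfl⟩
  exact ⟨x', y', hx'.1, hx'.2, hy'.2, (q_eq.1 hq).symm⟩

def img (g : X → X) (K : Set M) : Set M := q '' (g '' (q ⁻¹' K))

theorem Cont.img {K : Set M} (h : Cont K) {g : X → X} (hg : Continuous g)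
    (hJ : ∀ x y, J x y → J (g x) (g y)) : Cont (img g K) := by
  let G : M → M := Quotient.map g hJ
  have hG : Continuous G := (q_cont.comp hg).quotient_lift _
  have : Ing.img g K = G '' K := by
    ext c
    constructor
    · rintro ⟨_, ⟨x, hx, rfl⟩, rfl⟩; exact ⟨q x, hx, rfl⟩
    · rintro ⟨c, hc, rfl⟩
      obtain ⟨x, rfl⟩ := q_surj c
      exact ⟨_, ⟨x, hc, rfl⟩, rfl⟩
  rw [this]
  exact ⟨h.1.image hG, h.2.image _ hG.continuousOn⟩

open Classical in
noncomputable def r (k : ℕ) (e : Om) (x : X) : X :=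
  if same k (x 0) e then tl x else R (sv k e (x 0) true)

theorem r_R {k : ℕ} {e : Om} {x : X} {a : Bool} (h : tl x = R a) :
    r k e x = R (sv k e (x 0) a) := by
  unfold r
  split_ifs with h1
  · rw [sv_same h1, h]
  · rw [sv_ne h1 a]

theorem r_J (k : ℕ) (e : Om) (x y : X) (h : J x y) : J (r k e x) (r k e y) := by
  rcases J_iff.1 h with ⟨a, b, h1, h2, h3⟩ | h
  · rw [r_R h1, r_R h2, sv_veq e (h3 k)]; exact J_refl _
  · unfold r
    rw [← h.1]
    split_ifs
    · exact h.2
    · exact J_refl _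

theorem r_cont (k : ℕ) (e : Om) : Continuous (r k e) := by
  rw [continuous_iff_continuousAt]
  intro x
  have h1 : ∀ᶠ y : X in 𝓝 x, (leg (y 0) k, pos (y 0) k, tip (y 0) k) =
      (leg (x 0) k, pos (x 0) k, tip (x 0) k) :=
    (((cont_data k).comp (continuous_apply (A := fun _ : ℕ => Om) 0)).continuousAt (x := x)).eventually
      ((isOpen_discrete {(leg (x 0) k, pos (x 0) k, tip (x 0) k)}).mem_nhds rfl)
  by_cases h : same k (x 0) e
  · refine cont_tl.continuousAt.congr ?_
    filter_upwards [h1] with y hy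
    simp only [Prod.mk.injEq] at hy
    exact (if_pos ⟨hy.1.trans h.1, hy.2.1.trans h.2⟩).symm
  · refine (continuousAt_const (y := R (sv k e (x 0) true))).congr ?_
    filter_upwards [h1] with y hy
    simp only [Prod.mk.injEq] at hy
    rw [r, if_neg fun h' => h ⟨hy.1.symm.trans h'.1, hy.2.1.symm.trans h'.2⟩]
    congr 1
    exact sv_veq e ⟨by simp only [vp, hy.2.1, hy.2.2], Or.inr hy.1.symm⟩

def NE (z : X) : Prop := ∀ a, z ≠ R a

theorem NE.of_J {z w : X} (h : NE z) (hJ : J w z) : NE w := by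
  rintro a rfl
  exact h a (J_R hJ)

theorem r_NE {k : ℕ} {e : Om} {x : X} (h : NE (r k e x)) : same k (x 0) e ∧ r k e x = tl x := by
  by_cases h1 : same k (x 0) e
  · exact ⟨h1, if_pos h1⟩
  · exact (h _ (if_neg h1)).elim

theorem tend_same {w : ℕ → Om} {e : Om} (h : ∀ᶠ k in atTop, same k (w k) e) :
    Tendsto w atTop (𝓝 e) := by
  refine (Prod.tendsto_iff _ _).2 ⟨tendsto_const_nhds.congr' ?_, tendsto_pi_nhds.2 fun l =>
    tendsto_const_nhds.congr' ?_⟩
  · filter_upwards [h] with k hk using hk.agree.1.symm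
  · filter_upwards [h, eventually_gt_atTop l] with k hk hl using (hk.agree.2 l hl).symm

theorem same.trans {k : ℕ} {w e g : Om} (h : same k w e) (h' : same k e g) : same k w g :=
  ⟨h.1.trans h'.1, h.2.trans h'.2⟩

theorem irr {K : Set M} (hK : Cont K) (h : ∀ a, q (R a) ∈ K) (z : X) : q z ∈ K := by
  have key : ∀ (k n : ℕ) (z : X) (K : Set M), Cont K → (∀ a, q (R a) ∈ K) →
      ∃ x, q x ∈ K ∧ NE x ∧ ∀ i < n, same k (x i) (z i) := by
    intro k n
    induction n with
    | zero =>
      intro z K hK h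
      by_contra hc
      have hC : IsClopen {x : X | (x 0).1 = 0} :=
        (isClopen_discrete {(0 : Fin 3)}).preimage (continuous_fst.comp (continuous_apply 0))
      obtain ⟨x, y, h1, h2, h3, h4⟩ := hK.cut hC (h false) (h true) rfl (by simp [R, rho])
      refine hc ⟨x, h1, ?_, fun _ h => absurd h (Nat.not_lt_zero _)⟩
      rintro a rfl
      rw [J_R h4] at h3
      exact h3 h2
    | succ n ih =>
      intro z K hK h
      obtain ⟨e, e1, e2⟩ := splice (z 0) (rho 0) k
      have h0 : r (k + 1) e (R false) = R (tip e (k + 1)) := by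
        rw [r_R (tl_R _), sv, if_pos]
        exact ⟨e2.1, by rw [show R false 0 = rho 0 from rfl, rho_vp]; exact pos_lt _ _⟩
      have h1 : r (k + 1) e (R true) = R (!tip e (k + 1)) := by
        rw [r_R (tl_R _), sv, if_neg]
        rw [← e2.1, show R true 0 = rho 1 from rfl, rho_leg, rho_leg]
        simp
      obtain ⟨x', ⟨_, ⟨x, hx, rfl⟩, hq⟩, h2, h3⟩ := ih (tl z) _ (hK.img (r_cont (k + 1) e) (r_J _ e))
        (fun a => by
          by_cases ha : a = tip e (k + 1)
          · exact ⟨_, ⟨_, h false, rfl⟩, by rw [h0, ha]⟩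
          · exact ⟨_, ⟨_, h true, rfl⟩, by rw [h1, Bool.eq_not.2 ha]⟩)
      have hJ := q_eq.1 hq
      obtain ⟨h4, h5⟩ := r_NE (h2.of_J hJ)
      rw [h5] at hJ
      refine ⟨cons (x 0) x', ?_, fun a ha => h2 true ?_, fun i hi => ?_⟩
      · rw [← q_eq.2 (hJ.cons (x 0)), cons_tl]; exact hx
      · rw [← tl_R a, ← ha]; rfl
      · cases i with
        | zero => exact (h4.le (Nat.le_succ k)).trans e1
        | succ i => exact h3 i (by omega)
  choose x hx _ hx' using fun k => key k k z K hK h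
  show z ∈ q ⁻¹' K
  refine hK.closed.mem_of_tendsto (f := x) (b := atTop) (tendsto_pi_nhds.2 fun i => tend_same ?_)
    (Eventually.of_forall hx)
  filter_upwards [eventually_gt_atTop i] with k hk using hx' k i hk

def app : ℕ → X → X → X
  | 0, _, z => z
  | n + 1, x, z => app n x (cons (x n) z)

theorem app_ge (x : X) : ∀ (n : ℕ) (z : X) (i : ℕ), app n x z (n + i) = z i
  | 0, z, i => by simp [app]
  | n + 1, z, i => by rw [app, add_assoc, app_ge x n, add_comm]; rfl

theorem app_lt (x : X) : ∀ (n : ℕ) (z : X) (i : ℕ), i < n → app n x z i = x i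
  | 0, _, _, h => absurd h (Nat.not_lt_zero _)
  | n + 1, z, i, h => by
    rcases Nat.lt_succ_iff_lt_or_eq.1 h with h | rfl
    · exact app_lt x n _ i h
    · exact app_ge x i _ 0

theorem app_ext {n : ℕ} {x z w : X} (h1 : ∀ i < n, w i = x i) (h2 : ∀ i, w (n + i) = z i) :
    app n x z = w := by
  funext i
  rcases lt_or_ge i n with h | h
  · rw [app_lt x n z i h, h1 i h]
  · obtain ⟨j, rfl⟩ := Nat.exists_eq_add_of_le h
    rw [app_ge, h2]

theorem app_congr {n : ℕ} {x y : X} (h : ∀ i < n, x i = y i) (z : X) : app n x z = app n y z :=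
  app_ext (fun i hi => by rw [app_lt _ _ _ _ hi, h i hi]) (app_ge _ _ _)

theorem app_J (x : X) : ∀ (n : ℕ) (z w : X), J z w → J (app n x z) (app n x w)
  | 0, _, _, h => h
  | n + 1, _, _, h => app_J x n _ _ (h.cons _)

theorem app_cont (x : X) : ∀ n, Continuous (app n x)
  | 0 => continuous_id
  | n + 1 => (app_cont x n).comp (cont_cons.comp (continuous_const.prodMk continuous_id))

noncomputable def rr (k : ℕ) (x : X) : ℕ → X → X
  | 0, w => w
  | n + 1, w => r k (x n) (rr k x n w)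

theorem rr_J (k : ℕ) (x : X) : ∀ (n : ℕ) (z w : X), J z w → J (rr k x n z) (rr k x n w)
  | 0, _, _, h => h
  | n + 1, _, _, h => r_J _ _ _ _ (rr_J k x n _ _ h)

theorem rr_cont (k : ℕ) (x : X) : ∀ n, Continuous (rr k x n)
  | 0 => continuous_id
  | n + 1 => (r_cont _ _).comp (rr_cont k x n)

theorem rr_app (k : ℕ) (x : X) : ∀ (n : ℕ) (z : X), rr k x n (app n x z) = z
  | 0, _ => rfl
  | n + 1, z => by rw [rr, app, rr_app k x n, r, if_pos ⟨rfl, rfl⟩]; rfl

theorem rr_NE (k : ℕ) (x w : X) : ∀ n, NE (rr k x n w) →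
    (∀ i < n, same k (w i) (x i)) ∧ ∀ i, w (n + i) = rr k x n w i
  | 0, _ => ⟨fun _ h => absurd h (Nat.not_lt_zero _), fun i => by simp [rr]⟩
  | n + 1, h => by
    obtain ⟨h1, h2⟩ := r_NE h
    obtain ⟨h3, h4⟩ := rr_NE k x w n (fun a ha => h true (by rw [rr, h2, ha, tl_R]))
    refine ⟨fun i hi => ?_, fun i => ?_⟩
    · rcases Nat.lt_succ_iff_lt_or_eq.1 hi with hi | rfl
      · exact h3 i hi
      · rw [← h4 0] at h1; exact h1
    · rw [rr, h2, add_assoc, h4, add_comm]; rfl

theorem lift {K : Set M} {l n : ℕ} {x z : X} (h : q z ∈ img (rr l x n) K) (hz : NE z) :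
    ∃ w, q w ∈ K ∧ (∀ i < n, same l (w i) (x i)) ∧ ∀ i, w (n + i) = z i := by
  obtain ⟨_, ⟨w, hw, rfl⟩, hq⟩ := h
  have hJ := q_eq.1 hq
  obtain ⟨h1, h2⟩ := rr_NE l x w n (hz.of_J hJ)
  refine ⟨app n w z, ?_, fun i hi => by rw [app_lt _ _ _ _ hi]; exact h1 i hi, app_ge _ _ _⟩
  rw [← q_eq.2 (app_J w n _ _ hJ), app_ext (fun _ _ => rfl) h2]
  exact hw

theorem hit {K : Set M} (hK : Cont K) {l n : ℕ} {x u v : X} {a : Bool} (hu : q u ∈ K) (hv : q v ∈ K)
    (h1 : rr l x n u = R a) (h2 : rr l x n v = R (!a)) {z : X} (hz : NE z) :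
    ∃ w, q w ∈ K ∧ (∀ i < n, same l (w i) (x i)) ∧ ∀ i, w (n + i) = z i := by
  refine lift (irr (hK.img (rr_cont l x n) (rr_J l x n)) (fun b => ?_) z) hz
  by_cases hb : b = a
  · exact ⟨_, ⟨_, hu, rfl⟩, by rw [h1, hb]⟩
  · exact ⟨_, ⟨_, hv, rfl⟩, by rw [h2, Bool.eq_not.2 hb]⟩

theorem tend_app {n : ℕ} {x z : X} {w : ℕ → X} (h1 : ∀ k, ∀ i < n, same k (w k i) (x i))
    (h2 : ∀ i, Tendsto (fun k => w k (n + i)) atTop (𝓝 (z i))) :
    Tendsto w atTop (𝓝 (app n x z)) := by
  refine tendsto_pi_nhds.2 fun i => ?_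
  rcases lt_or_ge i n with h | h
  · rw [app_lt x n z i h]; exact tend_same (Eventually.of_forall fun k => h1 k i h)
  · obtain ⟨j, rfl⟩ := Nat.exists_eq_add_of_le h
    rw [app_ge]; exact h2 j

theorem dens {D : Set X} (hD : IsClosed D) (h : ∀ z, NE z → z ∈ D) (z : X) : z ∈ D := by
  refine hD.mem_of_tendsto (f := fun m => Function.update z (m + 1) (rho 2)) (b := atTop)
    (tendsto_pi_nhds.2 fun i => tendsto_const_nhds.congr' ?_) (Eventually.of_forall fun m =>
      h _ fun a ha => ?_)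
  · filter_upwards [eventually_ge_atTop i] with m hm
    rw [Function.update_of_ne (by omega)]
  · have := congrFun ha (m + 1)
    simp [R, cons, rho] at this

theorem full {K : Set M} (hK : Cont K) {n : ℕ} {x : X}
    (h : ∀ k, ∃ l u v a, k ≤ l ∧ q u ∈ K ∧ q v ∈ K ∧ rr l x n u = R a ∧ rr l x n v = R (!a))
    (z : X) : q (app n x z) ∈ K := by
  refine dens (hK.closed.preimage (app_cont x n)) (fun z hz => ?_) z
  have : ∀ k, ∃ w, q w ∈ K ∧ (∀ i < n, same k (w i) (x i)) ∧ ∀ i, w (n + i) = z i := by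
    intro k
    obtain ⟨l, u, v, a, h1, h2, h3, h4, h5⟩ := h k
    obtain ⟨w, w1, w2, w3⟩ := hit hK h2 h3 h4 h5 hz
    exact ⟨w, w1, fun i hi => (w2 i hi).le h1, w3⟩
  choose w h1 h2 h3 using this
  exact hK.closed.mem_of_tendsto (tend_app h2 fun i => by simp only [h3]; exact tendsto_const_nhds)
    (Eventually.of_forall h1)

theorem endp {K : Set M} (hK : Cont K) {n : ℕ} {x u : X} {a : Bool} (hu : q (app n x u) ∈ K)
    (h : ∀ k, ∃ l v, k ≤ l ∧ q v ∈ K ∧ rr l x n v = R a) : q (app n x (R a)) ∈ K := by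
  by_cases hua : u = R a
  · rwa [← hua]
  obtain ⟨N0, hN0⟩ : ∃ N0, ∀ N, N0 ≤ N → ¬ ∀ i < N, same N (u i) (R a i) := by
    obtain ⟨i, hi⟩ := Function.ne_iff.1 hua
    obtain ⟨N, hN⟩ : ∃ N, ¬ same N (u i) (R a i) := by
      by_contra hc
      push Not at hc
      exact hi (tendsto_nhds_unique tendsto_const_nhds (tend_same (Eventually.of_forall hc)))
    exact ⟨N + i + 1, fun N' h1 h2 => hN ((h2 i (by omega)).le (by omega))⟩
  have : ∀ k, ∃ w, q w ∈ K ∧ (∀ i < n, same k (w i) (x i)) ∧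
      ∀ i < k, same k (w (n + i)) (R a i) := by
    intro k
    obtain ⟨l, v, h1, h2, h3⟩ := h k
    have hC : IsClopen {z : X | ∀ i < k + N0 + 1, same (k + N0 + 1) (z i) (R a i)} := by
      have : {z : X | ∀ i < k + N0 + 1, same (k + N0 + 1) (z i) (R a i)} =
          ⋂ i ∈ Iio (k + N0 + 1), (fun z : X => (leg (z i) (k + N0 + 1), pos (z i) (k + N0 + 1),
            tip (z i) (k + N0 + 1))) ⁻¹'
            {u | u.1 = leg (R a i) (k + N0 + 1) ∧ u.2.1 = pos (R a i) (k + N0 + 1)} := by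
        ext z; simp only [mem_iInter]; rfl
      rw [this]
      exact (finite_Iio _).isClopen_biInter fun i _ =>
        (isClopen_discrete _).preimage ((cont_data _).comp (continuous_apply i))
    obtain ⟨x', y', g1, g2, g3, g4⟩ := (hK.img (rr_cont l x n) (rr_J l x n)).cut hC
      (x := R a) (y := u) ⟨_, ⟨_, h2, rfl⟩, by rw [h3]⟩ ⟨_, ⟨_, hu, rfl⟩, by rw [rr_app]⟩
      (fun _ _ => ⟨rfl, rfl⟩) (hN0 _ (by omega))
    obtain ⟨w, w1, w2, w3⟩ := lift g1 (by
      rintro b rfl
      rw [J_R g4] at g3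
      exact g3 g2)
    exact ⟨w, w1, fun i hi => (w2 i hi).le h1, fun i hi => by
      rw [w3]; exact (g2 i (by omega)).le (by omega)⟩
  choose w h1 h2 h3 using this
  refine hK.closed.mem_of_tendsto (tend_app h2 fun i => tend_same ?_) (Eventually.of_forall h1)
  filter_upwards [eventually_gt_atTop i] with k hk using h3 k i hk

theorem blk_eq {Y : Type*} (g : Om → Bool → Y) (hg : ∀ w a w' b, V w a w' b → g w a = g w' b)
    {k : ℕ} {w e : Om} (h : Blk k w e) (hf : ∀ u, Blk k w u → ∀ a b, g u a = g u b) :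
    g w true = g e true := by
  have hw := hf w ⟨rfl, fun _ _ => rfl⟩
  rcases lt_trichotomy (pos w k) (pos e k) with hp | hp | hp
  · rw [hw true _, chain g hg h hp fun u hu _ _ => hf u hu]; exact hf e h _ _
  · rw [h.eq hp]
  · rw [hf e h true _, chain g hg h.symm hp fun u hu _ _ => hf u (h.trans hu)]; exact hw _ _

theorem tend_pre (x : X) (z : ℕ → X) : Tendsto (fun n => app n x (z n)) atTop (𝓝 x) := by
  refine tendsto_pi_nhds.2 fun i => tendsto_const_nhds.congr' ?_
  filter_upwards [eventually_gt_atTop i] with n hn using (app_lt x n _ i hn).symm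

theorem clopen_triv {C : Set X} (hC : IsClopen C) (hJ : ∀ x y, J x y → x ∈ C → y ∈ C) (x y : X)
    (hx : x ∈ C) : y ∈ C := by
  let P : (X → X) → Prop := fun s => ∀ z z', s z ∈ C → s z' ∈ C
  have step : ∀ s : X → X, Continuous s → (∀ x y, J x y → J (s x) (s y)) →
      (∀ w, P (fun z => s (cons w z))) → P s := by
    intro s h1 h2 h3 z z' hz
    have : ∀ k, ∃ e, same k e (z' 0) ∧ s (cons e (tl z')) ∈ C := by
      intro k
      obtain ⟨e, e1, e2⟩ := splice (z' 0) (z 0) k
      have := blk_eq (fun w a => s (cons w (R a)) ∈ C) (fun w a w' b h => propext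
        ⟨hJ _ _ (h2 _ _ (J_V h)), hJ _ _ (h2 _ _ (J_V h)).symm⟩) e2
        (fun u _ a b => propext ⟨h3 u _ _, h3 u _ _⟩)
      exact ⟨e, e1, h3 e _ _ (this ▸ h3 (z 0) (tl z) _ (by simpa only [cons_tl] using hz))⟩
    choose e h4 h5 using this
    have h6 := ((h1.comp cont_cons).tendsto (z' 0, tl z')).comp
      ((tend_same (Eventually.of_forall h4)).prodMk_nhds tendsto_const_nhds)
    have := hC.1.mem_of_tendsto h6 (Eventually.of_forall h5)
    simpa only [Function.comp, cons_tl] using this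
  by_contra hy
  have h0 : ¬ P id := fun h => hy (h x y hx)
  let Q := {s : X → X // Continuous s ∧ (∀ x y, J x y → J (s x) (s y)) ∧ ¬ P s}
  have hs : ∀ s : Q, ∃ (w : Om) (s' : Q), s'.1 = fun z => s.1 (cons w z) := by
    rintro ⟨s, h1, h2, h3⟩
    obtain ⟨w, hw⟩ := not_forall.1 (mt (step s h1 h2) h3)
    exact ⟨w, ⟨_, h1.comp (cont_cons.comp (continuous_const.prodMk continuous_id)),
      fun x y h => h2 _ _ (h.cons w), hw⟩, rfl⟩
  choose w f hf using hs
  let s0 : Q := ⟨id, continuous_id, fun _ _ h => h, h0⟩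
  let t : X := fun n => w (f^[n] s0)
  have key : ∀ n, (f^[n] s0).1 = app n t := by
    intro n
    induction n with
    | zero => rfl
    | succ n ih => rw [Function.iterate_succ_apply', hf, ih]; rfl
  have : ∀ n, ∃ z z', app n t z ∈ C ∧ app n t z' ∉ C := by
    intro n
    have := (f^[n] s0).2.2.2
    simp only [P, not_forall, key] at this
    obtain ⟨z, z', h1, h2⟩ := this
    exact ⟨z, z', h1, h2⟩
  choose z z' h1 h2 using this
  exact hC.compl.1.mem_of_tendsto (tend_pre t z') (Eventually.of_forall h2)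
    (hC.1.mem_of_tendsto (tend_pre t z) (Eventually.of_forall h1))

theorem cont_univ : Cont univ := by
  refine ⟨isCompact_univ, isPreconnected_of_forall_constant fun f hf a _ b _ => ?_⟩
  obtain ⟨x, rfl⟩ := q_surj a
  obtain ⟨y, rfl⟩ := q_surj b
  exact (clopen_triv (C := (f ∘ q) ⁻¹' {f (q x)}) ((isClopen_discrete _).preimage
    ((continuousOn_univ.1 hf).comp q_cont))
    (fun u v h hu => by simpa only [mem_preimage, Function.comp, ← q_eq.2 h] using hu) x y rfl).symm

end Pool.Agent.H71.Ing
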