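import Pool.Agent.H71.Ing2

set_option autoImplicit false

namespace Pool.Agent.H71.Ing

open Set Filter Topology

theorem mono_pre {Y : Type} [TopologicalSpace Y] [T2Space Y] {f : M → Y} (hf : Continuous f)
    (hs : Function.Surjective f) (hm : ∀ y, IsConnected (f ⁻¹' {y})) {K : Set Y}
    (h1 : IsCompact K) (h2 : IsPreconnected K) : Cont (f ⁻¹' K) := by
  have hc := h1.isClosed.preimage hf
  refine ⟨hc.isCompact, isPreconnected_closed_iff.2 ?_⟩
  rintro F F' hF hF' hcov ⟨x, hx, hxF⟩ ⟨y, hy, hyF⟩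
  obtain ⟨z, hz, ⟨u, hu, hu'⟩, v, hv, hv'⟩ := isPreconnected_closed_iff.1 h2 (f '' F) (f '' F')
    (hF.isCompact.image hf).isClosed (hF'.isCompact.image hf).isClosed (by
      intro k hk
      obtain ⟨c, rfl⟩ := hs k
      exact (hcov hk).imp (fun h => ⟨c, h, rfl⟩) (fun h => ⟨c, h, rfl⟩))
    ⟨f x, hx, x, hxF, rfl⟩ ⟨f y, hy, y, hyF, rfl⟩
  have hsub : f ⁻¹' {z} ⊆ f ⁻¹' K := preimage_mono (singleton_subset_iff.2 hz)
  obtain ⟨w, hw, hw'⟩ := isPreconnected_closed_iff.1 (hm z).2 F F' hF hF' (hsub.trans hcov)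
    ⟨u, hu', hu⟩ ⟨v, hv', hv⟩
  exact ⟨w, hsub hw, hw'⟩

def TP {Y : Type} [TopologicalSpace Y] (K : Set Y) : Prop :=
  ∀ (D : Fin 3 → Set Y) (c : Y) (u : Fin 3 → Y), (∀ i, D i ⊆ K ∧ IsCompact (D i) ∧
    IsPreconnected (D i) ∧ c ∈ D i ∧ u i ∈ D i) → ∃ i j, i ≠ j ∧ u i ∈ D j

theorem tp_of_chain {Y : Type} [MetricSpace Y] {K : Set Y} (hK : IsCompact K)
    (h : ∀ ε : ℝ, 0 < ε → ∃ (n : ℕ) (U : Fin n → Set Y), (∀ i, IsOpen (U i)) ∧
      (∀ i, Metric.diam (U i ∩ K) < ε) ∧ K ⊆ ⋃ i, U i ∧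
      (∀ i j, (U i ∩ U j ∩ K).Nonempty ↔ (i.val ≤ j.val + 1 ∧ j.val ≤ i.val + 1))) : TP K := by
  intro D c u hD
  by_contra hc
  push Not at hc
  obtain ⟨ε, hε, hε'⟩ : ∃ ε : ℝ, 0 < ε ∧ ∀ i j, i ≠ j → ∀ p ∈ D j, ε ≤ dist (u i) p := by
    have : ∀ᶠ ε in 𝓝[>] (0 : ℝ), ∀ i j, i ≠ j → ∀ p ∈ D j, ε ≤ dist (u i) p := by
      simp only [eventually_all]
      intro i j hij
      obtain ⟨δ, hδ, h2⟩ := Metric.isOpen_iff.1 (hD j).2.1.isClosed.isOpen_compl _ (hc i j hij)
      filter_upwards [Ioo_mem_nhdsGT hδ] with ε hε p hp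
      by_contra h3
      exact h2 (show p ∈ Metric.ball (u i) δ by
        rw [Metric.mem_ball, dist_comm]; linarith [hε.2, not_le.1 h3]) hp
    obtain ⟨ε, h1, h2⟩ := (this.and self_mem_nhdsWithin).exists
    exact ⟨ε, h2, h1⟩
  obtain ⟨n, U, h1, h2, h3, h4⟩ := h ε hε
  have key : ∀ (S : Set Y), S ⊆ K → IsPreconnected S → ∀ a b d : Fin n, a.val ≤ b.val →
      b.val ≤ d.val → (S ∩ U a).Nonempty → (S ∩ U d).Nonempty → (S ∩ U b).Nonempty := by
    intro S hS hS' a b d hab hbd ha hd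
    by_contra hb
    have hab' : a.val < b.val := lt_of_le_of_ne hab fun h => hb (by rwa [← Fin.ext h])
    have hbd' : b.val < d.val := lt_of_le_of_ne hbd fun h => hb (by rwa [Fin.ext h])
    obtain ⟨x, hx, hx1, hx2⟩ := hS' (⋃ i : {i : Fin n // i.val < b.val}, U i)
      (⋃ i : {i : Fin n // b.val < i.val}, U i) (isOpen_iUnion fun i => h1 _)
      (isOpen_iUnion fun i => h1 _) (by
        intro x hx
        obtain ⟨i, hi⟩ := mem_iUnion.1 (h3 (hS hx))
        rcases lt_trichotomy i.val b.val with h | h | h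
        · exact Or.inl (mem_iUnion.2 ⟨⟨i, h⟩, hi⟩)
        · exact (hb ⟨x, hx, by rwa [← Fin.ext h]⟩).elim
        · exact Or.inr (mem_iUnion.2 ⟨⟨i, h⟩, hi⟩))
      (ha.mono (inter_subset_inter_right _ (subset_iUnion_of_subset ⟨a, hab'⟩ subset_rfl)))
      (hd.mono (inter_subset_inter_right _ (subset_iUnion_of_subset ⟨d, hbd'⟩ subset_rfl)))
    obtain ⟨⟨i, hi⟩, hi'⟩ := mem_iUnion.1 hx1
    obtain ⟨⟨j, hj⟩, hj'⟩ := mem_iUnion.1 hx2
    have := (h4 i j).1 ⟨x, ⟨hi', hj'⟩, hS hx⟩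
    omega
  obtain ⟨m, hm⟩ := mem_iUnion.1 (h3 ((hD 0).1 (hD 0).2.2.2.1))
  choose t ht using fun i => mem_iUnion.1 (h3 ((hD i).1 (hD i).2.2.2.2))
  have fin : ∀ i j, i ≠ j → ¬ ((m.val ≤ (t i).val ∧ (t i).val ≤ (t j).val) ∨
      ((t j).val ≤ (t i).val ∧ (t i).val ≤ m.val)) := by
    intro i j hij hh
    have : (D j ∩ U (t i)).Nonempty := by
      rcases hh with hh | hh
      · exact key _ (hD j).1 (hD j).2.2.1 _ _ _ hh.1 hh.2 ⟨c, (hD j).2.2.2.1, hm⟩
          ⟨_, (hD j).2.2.2.2, ht j⟩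
      · exact key _ (hD j).1 (hD j).2.2.1 _ _ _ hh.1 hh.2 ⟨_, (hD j).2.2.2.2, ht j⟩
          ⟨c, (hD j).2.2.2.1, hm⟩
    obtain ⟨p, hp, hp'⟩ := this
    have h5 := Metric.dist_le_diam_of_mem (hK.isBounded.subset inter_subset_right)
      (show u i ∈ U (t i) ∩ K from ⟨ht i, (hD i).1 (hD i).2.2.2.2⟩) ⟨hp', (hD j).1 hp⟩
    linarith [hε' i j hij p hp, h2 (t i)]
  have a1 := fin 0 1 (by decide)
  have a2 := fin 1 0 (by decide)
  have a3 := fin 0 2 (by decide)
  have a4 := fin 2 0 (by decide)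
  have a5 := fin 1 2 (by decide)
  have a6 := fin 2 1 (by decide)
  omega

def E (n : ℕ) (x : X) (u : Om) : X := app n x (cons u (R true))

theorem E_lt {n i : ℕ} (x : X) (u : Om) (h : i < n) : E n x u i = x i := app_lt _ _ _ _ h
theorem E_n (n : ℕ) (x : X) (u : Om) : E n x u n = u := app_ge x n _ 0

theorem appE (n : ℕ) (x : X) (u : Om) (z : X) : app (n + 1) (E n x u) z = app n x (cons u z) := by
  rw [app, E_n, app_congr fun i hi => E_lt x u hi]

theorem rrE (l n : ℕ) (x : X) (u : Om) (w : X) :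
    rr l (E n x u) (n + 1) (app n x w) = r l u w := by
  rw [rr, E_n, ← app_congr (fun i hi => E_lt x u hi) w, rr_app]

theorem cont_copy (n : ℕ) (x : X) : Cont (q '' range (app n x)) := by
  have := cont_univ.img (app_cont x n) (app_J x n)
  simpa only [img, preimage_univ, image_univ] using this

theorem sameE {l k n : ℕ} {x w : X} {e z : Om} (hkl : k ≤ l) (he : same k e z)
    (h : ∀ i < n + 1, same l (w i) (E n x e i)) : ∀ i < n + 1, same k (w i) (E n x z i) := by
  intro i hi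
  rcases Nat.lt_succ_iff_lt_or_eq.1 hi with hi' | rfl
  · have := (h i hi).le hkl
    rwa [E_lt _ _ hi'] at this ⊢
  · have := (h i hi).le hkl
    rw [E_n] at this ⊢
    exact this.trans he

section main
variable {Y : Type} [TopologicalSpace Y] [T2Space Y] {f : M → Y} (hf : Continuous f)
  (hm : ∀ y, IsConnected (f ⁻¹' {y})) {K : Set Y} (hT : TP K) (hL : Cont (f ⁻¹' K))
include hf hm hT

theorem stepA {n : ℕ} {x : X} (h : ∀ z, f (q (app n x z)) ∈ K) (z z' : X) :
    f (q (app n x z)) = f (q (app n x z')) := by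
  have hF : Continuous fun w => f (q w) := hf.comp q_cont
  have main : ∀ k, ∃ y, ∀ (w : Om) (z : X), NE z → ∃ v, f (q v) = y ∧
      (∀ i < n + 1, same k (v i) (E n x w i)) ∧ ∀ i, v (n + 1 + i) = z i := by
    intro k
    let Leg : Fin 3 → Set Om := fun i => {e | leg e (k + 1) = i ∧ Zr (k + 1) e}
    have hLc : ∀ i, IsClosed (Leg i) := by
      intro i
      have : Leg i = (fun e : Om => (leg e (k + 1), pos e (k + 1), tip e (k + 1))) ⁻¹' {u | u.1 = i} ∩
          ⋂ l ∈ Ici (k + 1), {e : Om | e.2 l = 0} := by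
        ext e; simp only [mem_inter_iff, mem_iInter]; rfl
      rw [this]
      exact ((isClosed_discrete _).preimage (cont_data _)).inter (isClosed_biInter fun l _ =>
        isClosed_eq ((continuous_apply l).comp continuous_snd) continuous_const)
    have hB : ∀ i, ∀ e ∈ Leg i, ∀ e' ∈ Leg i, Blk (k + 1) e e' := fun i e he e' he' =>
      ⟨he.1.trans he'.1.symm, fun l hl => (he.2 l hl).trans (he'.2 l hl).symm⟩
    let C : Fin 3 → Set M := fun i => q '' (app n x '' {w | w 0 ∈ Leg i})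
    have hC : ∀ i, Cont (C i) := by
      intro i
      refine ⟨((((hLc i).preimage (continuous_apply 0)).isCompact).image (app_cont x n)).image q_cont,
        isPreconnected_of_forall_constant ?_⟩
      rintro φ hφ _ ⟨_, ⟨w, hw, rfl⟩, rfl⟩ _ ⟨_, ⟨w', hw', rfl⟩, rfl⟩
      have h1 : ∀ e ∈ Leg i, ∀ z z', φ (q (app n x (cons e z))) = φ (q (app n x (cons e z'))) := by
        intro e he z z'
        refine (cont_copy (n + 1) (E n x e)).2.constant (hφ.mono ?_) ⟨_, ⟨z, appE ..⟩, rfl⟩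
          ⟨_, ⟨z', appE ..⟩, rfl⟩
        rintro _ ⟨_, ⟨u, rfl⟩, rfl⟩
        exact ⟨_, ⟨cons e u, he, (appE ..).symm⟩, rfl⟩
      have := blk_eq (fun e a => φ (q (app n x (cons e (R a)))))
        (fun w a w' b h => by simp only [q_eq.2 (app_J x n _ _ (J_V h))]) (hB i _ hw _ hw')
        (fun u hu a b => h1 u ⟨hu.1.symm.trans hw.1, Zr.blk hw.2 hu⟩ _ _)
      rw [← cons_tl w, ← cons_tl w', h1 _ hw _ (R true), h1 _ hw' _ (R true)]
      exact this
    choose e0 e1 e2 e3 using fun i => surj (k + 1) i 0 (fun _ => 0) (five_pos _)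
    choose t t1 t2 t3 using fun i => surj (k + 1) i (5 ^ (k + 1) - 1) (fun _ => 0)
      (Nat.sub_lt (five_pos _) one_pos)
    obtain ⟨i, j, hij, _, ⟨_, ⟨w, hw, rfl⟩, rfl⟩, hu⟩ := hT (fun i => f '' C i)
      (f (q (app n x (cons (e0 0) (R (!tip (e0 0) (k + 1)))))))
      (fun i => f (q (app n x (cons (t i) (R (tip (t i) (k + 1))))))) (fun i => ⟨by
        rintro _ ⟨_, ⟨_, ⟨w, -, rfl⟩, rfl⟩, rfl⟩; exact h w, (hC i).1.image hf,
        (hC i).2.image _ hf.continuousOn,
        ⟨_, ⟨_, ⟨cons (e0 i) (R (!tip (e0 i) (k + 1))), ⟨e1 i, e3 i⟩, rfl⟩, rfl⟩,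
          congrArg f (q_eq.2 (app_J x n _ _ (J_V (Zr.V (e3 i) (e3 0) (e2 i) (e2 0)))))⟩,
        ⟨_, ⟨_, ⟨cons (t i) (R (tip (t i) (k + 1))), ⟨t1 i, t3 i⟩, rfl⟩, rfl⟩, rfl⟩⟩)
    refine ⟨f (q (app n x w)), fun ω z hz => ?_⟩
    obtain ⟨e, g1, g2⟩ := splice ω (t i) k
    obtain ⟨v, v1, v2, v3⟩ := hit (K := f ⁻¹' {f (q (app n x w))})
      ⟨(isClosed_singleton.preimage hf).isCompact, (hm _).2⟩ (l := k + 1) (n := n + 1)
      (x := E n x e) (a := tip e (k + 1)) hu.symm rfl (by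
        rw [rrE, r_R rfl, sv, if_pos]
        refine ⟨g2.1, ?_⟩
        have := pos_lt e (k + 1)
        simp only [vp, cons_zero, t2, if_true]
        omega) (by
        have := sv_gt (k := k + 1) (w := w 0) (e := e) (Or.inl (by
          rw [← g2.1, t1, hw.1]; exact hij.symm))
        rw [rrE, r, if_neg this.1, this.2]) hz
    exact ⟨v, v1, sameE (Nat.le_succ k) g1 v2, v3⟩
  choose y hy using main
  have lim : ∀ (w : Om) (z : X), NE z → Tendsto y atTop (𝓝 (f (q (app n x (cons w z))))) := by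
    intro w z hz
    choose v v1 v2 v3 using fun k => hy k w z hz
    have := (hF.tendsto _).comp (tend_app (z := z) v2 fun i => by
      simp only [v3]; exact tendsto_const_nhds)
    rw [appE] at this
    exact this.congr v1
  have hne : NE (fun _ => rho 2) := fun a ha => by
    have := congrFun ha 1
    simp [R, cons, rho] at this
  have fin : ∀ z, f (q (app n x z)) = f (q (app n x (cons (rho 2) fun _ => rho 2))) := by
    intro z
    rw [← cons_tl z]
    exact dens (D := {w | f (q (app n x (cons (z 0) w))) = _}) (isClosed_eq (hF.comp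
      ((app_cont x n).comp (cont_cons.comp (continuous_const.prodMk continuous_id))))
      continuous_const) (fun w hw => tendsto_nhds_unique (lim _ _ hw) (lim _ _ hne)) _
  rw [fin z, fin z']

include hL

theorem step {n : ℕ} {x u v : X} (hu : f (q (app n x u)) ∈ K) (hv : f (q (app n x v)) ∈ K)
    (hne : u 0 ≠ v 0) : ∃ a b, f (q (app n x (cons (u 0) (R a)))) ∈ K ∧
      f (q (app n x (cons (u 0) (R a)))) = f (q (app n x (cons (v 0) (R b)))) := by
  let g : Om → Bool → Y := fun e a => f (q (app n x (cons e (R a))))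
  have hg : ∀ w a w' b, V w a w' b → g w a = g w' b := fun w a w' b h =>
    congrArg f (q_eq.2 (app_J x n _ _ (J_V h)))
  have hfull : ∀ u v : X, f (q (app n x u)) ∈ K → f (q (app n x v)) ∈ K → ∀ (k : ℕ) (e : Om)
      (a : Bool), (∀ l, k ≤ l → (¬ same l (u 0) e ∧ sv l e (u 0) true = a) ∧
        (¬ same l (v 0) e ∧ sv l e (v 0) true = !a)) → ∀ a b, g e a = g e b := by
    intro u v hu hv k e a H b c
    have := stepA hf hm hT (n := n + 1) (x := E n x e) (full hL fun j =>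
      ⟨j + k, _, _, a, by omega, hu, hv,
        by rw [rrE, r, if_neg (H _ (by omega)).1.1, (H _ (by omega)).1.2],
        by rw [rrE, r, if_neg (H _ (by omega)).2.1, (H _ (by omega)).2.2]⟩) (R b) (R c)
    rwa [appE, appE] at this
  have hend : ∀ u v : X, f (q (app n x u)) ∈ K → f (q (app n x v)) ∈ K → ∀ (k : ℕ) (a : Bool),
      (∀ l, k ≤ l → ¬ same l (v 0) (u 0) ∧ sv l (u 0) (v 0) true = a) → g (u 0) a ∈ K := by
    intro u v hu hv k a H
    have := endp hL (n := n + 1) (x := E n x (u 0)) (u := tl u) (a := a)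
      (by rw [appE, cons_tl]; exact hu) fun j => ⟨j + k, _, by omega, hv,
        by rw [rrE, r, if_neg (H _ (by omega)).1, (H _ (by omega)).2]⟩
    rwa [appE] at this
  have hblk : ∀ u v : X, f (q (app n x u)) ∈ K → f (q (app n x v)) ∈ K → ∀ k,
      Blk k (u 0) (v 0) → pos (u 0) k < pos (v 0) k →
      ∃ a b, g (u 0) a ∈ K ∧ g (u 0) a = g (v 0) b := by
    intro u v hu hv k hb hp
    refine ⟨_, _, hend u v hu hv k _ fun l hl => (hb.side hp hl).1, chain g hg hb hp ?_⟩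
    intro e he h1 h2
    exact hfull v u hv hu k e (tip e k) fun l hl =>
      ⟨((he.symm.trans hb).side h2 hl).1, (he.side h1 hl).2⟩
  have hblk' : ∀ k, Blk k (u 0) (v 0) → ∃ a b, g (u 0) a ∈ K ∧ g (u 0) a = g (v 0) b := by
    intro k hb
    rcases lt_trichotomy (pos (u 0) k) (pos (v 0) k) with hp | hp | hp
    · exact hblk u v hu hv k hb hp
    · exact (hne (hb.eq hp)).elim
    · obtain ⟨a, b, h1, h2⟩ := hblk v u hv hu k hb.symm hp
      exact ⟨b, a, h2 ▸ h1, h2.symm⟩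
  rcases tri (u 0) (v 0) with ⟨k, hb⟩ | ⟨k, h1, h2⟩ | h
  · exact hblk' k hb
  · by_cases hl : leg (u 0) k = leg (v 0) k
    · exact hblk' k ⟨hl, fun l hl => (h1 l hl).trans (h2 l hl).symm⟩
    have key : ∀ u v : X, f (q (app n x u)) ∈ K → f (q (app n x v)) ∈ K → Zr k (u 0) →
        Zr k (v 0) → leg (u 0) k ≠ leg (v 0) k → ∀ e, Blk k (u 0) e → pos e k < pos (u 0) k →
        ∀ a b, g e a = g e b := by
      intro u v hu hv h1 h2 hl e he hp
      refine hfull u v hu hv k e (tip e k) fun l hkl => ⟨(he.symm.side hp hkl).1, ?_⟩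
      rw [← ((h1.blk he).up hkl).2]
      exact sv_gt (Or.inl (h2.leg (h1.blk he) (by rw [← he.1]; exact hl.symm) hkl))
    refine ⟨_, _, hend u v hu hv k _ fun l hkl => ?_, chain0 g hg h1 h2 (key u v hu hv h1 h2 hl)
      (key v u hv hu h2 h1 (Ne.symm hl))⟩
    rw [← (h1.up hkl).2]
    exact sv_gt (Or.inl (h2.leg h1 (Ne.symm hl) hkl))
  · have hall : ∀ z, f (q (app n x z)) ∈ K := by
      intro z
      rw [← cons_tl z]
      refine dens (D := {w | f (q (app n x (cons (z 0) w))) ∈ K}) (hL.closed.preimage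
        ((app_cont x n).comp (cont_cons.comp (continuous_const.prodMk continuous_id))))
        (fun w hw => ?_) _
      have : ∀ k, ∃ v, q v ∈ f ⁻¹' K ∧ (∀ i < n + 1, same k (v i) (E n x (z 0) i)) ∧
          ∀ i, v (n + 1 + i) = w i := by
        intro k
        have key : ∀ u v : X, f (q (app n x u)) ∈ K → f (q (app n x v)) ∈ K → ∀ l e, k ≤ l →
            same k e (z 0) → Btw l e (u 0) (v 0) → ∃ v, q v ∈ f ⁻¹' K ∧
              (∀ i < n + 1, same k (v i) (E n x (z 0) i)) ∧ ∀ i, v (n + 1 + i) = w i := by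
          intro u v hu hv l e h1 h2 h3
          have a1 := sv_lt h3.1.1 h3.1.2
          have a2 := sv_gt h3.2
          obtain ⟨v, v1, v2, v3⟩ := hit hL (l := l) (n := n + 1) (x := E n x e) (a := tip e l) hu hv
            (by rw [rrE, r, if_neg a1.1, a1.2]) (by rw [rrE, r, if_neg a2.1, a2.2]) hw
          exact ⟨v, v1, sameE h1 h2 v2, v3⟩
        obtain ⟨l, e, h1, h2, h3 | h3⟩ := h (z 0) k
        · exact key u v hu hv l e h1 h2 h3
        · exact key v u hv hu l e h1 h2 h3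
      choose v v1 v2 v3 using this
      have := hL.closed.mem_of_tendsto (tend_app (z := w) v2 fun i => by
        simp only [v3]; exact tendsto_const_nhds) (Eventually.of_forall v1)
      rwa [appE] at this
    exact ⟨true, true, hall _, stepA hf hm hT hall _ _⟩

theorem stepB {y : X} (hy : f (q y) ∈ K) {n : ℕ} {a : Bool} (h : f (q (app n y (R a))) ∈ K) :
    f (q (app n y (R a))) = f (q y) := by
  have S : ∀ n a, f (q (app n y (R a))) ∈ K →
      ∃ b, f (q (app n y (R a))) = f (q (app (n + 1) y (R b))) := by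
    intro n a h
    have hy' : app n y (fun i => y (n + i)) = y := app_ext (fun _ _ => rfl) fun _ => rfl
    have hR : cons (R a 0) (R true) = R a := by rw [← tl_R a, cons_tl]
    by_cases h1 : R a 0 = y n
    · exact ⟨true, by rw [app, ← h1, hR]⟩
    obtain ⟨a', b, h2, h3⟩ := step hf hm hT hL h (v := fun i => y (n + i)) (by rwa [hy']) h1
    refine ⟨b, Eq.trans ?_ h3⟩
    cases a'
    · have := stepA hf hm hT (n := n + 1) (x := E n y (R a 0)) (full hL fun j =>
        ⟨j, app n y (R a), _, true, le_rfl, h, h2,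
          by rw [← hR, ← appE, hR, rr_app], by rw [← appE, rr_app]; rfl⟩) (R true) (R false)
      rwa [appE, appE, hR] at this
    · rw [hR]
  have : ∀ m, ∃ b, f (q (app n y (R a))) = f (q (app (n + m) y (R b))) := by
    intro m
    induction m with
    | zero => exact ⟨a, rfl⟩
    | succ m ih =>
      obtain ⟨b, hb⟩ := ih
      obtain ⟨c, hc⟩ := S _ b (hb ▸ h)
      exact ⟨c, hb.trans hc⟩
  choose b hb using this
  have h1 := (((hf.comp q_cont).tendsto _).comp (tend_pre y fun m => R (b (m - n)))).comp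
    (tendsto_add_atTop_nat n)
  refine tendsto_nhds_unique tendsto_const_nhds (h1.congr fun m => ?_)
  simp only [Function.comp, Nat.add_sub_cancel]
  rw [hb m, add_comm]

theorem const {x y : X} (hx : f (q x) ∈ K) (hy : f (q y) ∈ K) : f (q x) = f (q y) := by
  classical
  by_cases hxy : x = y
  · rw [hxy]
  have hex := Function.ne_iff.1 hxy
  set n := Nat.find hex
  have h1 : ∀ i < n, x i = y i := fun i hi => not_not.1 (Nat.find_min hex hi)
  have hx' : app n x (fun i => x (n + i)) = x := app_ext (fun _ _ => rfl) fun _ => rfl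
  have hy' : app n x (fun i => y (n + i)) = y := app_ext (fun i hi => (h1 i hi).symm) fun _ => rfl
  obtain ⟨a, b, h2, h3⟩ := step hf hm hT hL (n := n) (x := x) (u := fun i => x (n + i))
    (v := fun i => y (n + i)) (by rwa [hx']) (by rwa [hy']) (Nat.find_spec hex)
  have h4 := stepB hf hm hT hL hx (n := n + 1) (a := a) h2
  have h5 : app n x (cons (y (n + 0)) (R b)) = app (n + 1) y (R b) := app_congr h1 _
  rw [h5] at h3
  have h6 := stepB hf hm hT hL hy (n := n + 1) (a := b) (h3 ▸ h2)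
  exact h4.symm.trans (h3.trans h6)

end main

instance : ConnectedSpace M := connectedSpace_iff_univ.2 ⟨⟨q (R true), trivial⟩, cont_univ.2⟩

instance : Nontrivial M := ⟨q (R true), q (R false), fun h => by
  have := R_inj (J_R (q_eq.1 h)); simp at this⟩

theorem final (Y : Type) [MetricSpace Y] (f : M → Y) (hf : Continuous f)
    (hs : Function.Surjective f) (hm : ∀ y : Y, IsConnected (f ⁻¹' {y})) :
    ¬ ∃ K : Set Y, IsCompact K ∧ IsConnected K ∧ K.Nontrivial ∧
      ∀ ε : ℝ, 0 < ε → ∃ (n : ℕ) (U : Fin n → Set Y), (∀ i, IsOpen (U i)) ∧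
        (∀ i, Metric.diam (U i ∩ K) < ε) ∧ K ⊆ ⋃ i, U i ∧
        (∀ i j, (U i ∩ U j ∩ K).Nonempty ↔ (i.val ≤ j.val + 1 ∧ j.val ≤ i.val + 1)) := by
  rintro ⟨K, h1, h2, ⟨a, ha, b, hb, hab⟩, h4⟩
  obtain ⟨c, rfl⟩ := hs a
  obtain ⟨d, rfl⟩ := hs b
  obtain ⟨x, rfl⟩ := q_surj c
  obtain ⟨y, rfl⟩ := q_surj d
  exact hab (const hf hm (tp_of_chain h1 h4) (mono_pre hf hs hm h1 h2.2) ha hb)

end Pool.Agent.H71.Ing
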