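import Mathlib
import Pool.Agent.H27.AmenSolv
import Pool.Agent.H71.Dual
import Pool.Agent.H71.Compl

/-! Foelner's theorem: big sets and Bohr neighbourhoods in abelian groups. -/

namespace Pool.Agent.H71.PS

open Filter Topology Pool.Agent.H27.Amen
open scoped Pointwise

variable {A : Type} [CommGroup A]

/-- big (syndetic) sets -/
def Big (S : Set A) : Prop := ∃ F : Finset A, ∀ x, ∃ f ∈ F, f⁻¹ * x ∈ S

lemma Big.mono {S T : Set A} (h : Big S) (hST : S ⊆ T) : Big T := by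
  obtain ⟨F, hF⟩ := h
  exact ⟨F, fun x => by obtain ⟨f, a, b⟩ := hF x; exact ⟨f, a, hST b⟩⟩

section mean
variable {m : Set A → ℝ} (hm : IsMean m) (hi : ∀ (g : A) (S : Set A), m (g • S) = m S)
include hm

lemma m_empty : m ∅ = 0 := by
  have := hm.2.2 ∅ ∅ (by simp)
  rw [Set.union_empty] at this
  linarith

lemma m_split (S T : Set A) : m S = m (S ∩ T) + m (S \ T) := by
  rw [← hm.2.2 _ _ Set.disjoint_sdiff_inter.symm, Set.inter_union_sdiff]

lemma m_mono {S T : Set A} (h : S ⊆ T) : m S ≤ m T := by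
  rw [m_split hm T S, Set.inter_eq_right.2 h]
  linarith [hm.1 (T \ S)]

lemma m_union (S T : Set A) : m (S ∪ T) = m S + m T - m (S ∩ T) := by
  rw [← Set.union_sdiff_self, hm.2.2 _ _ Set.disjoint_sdiff_right, m_split hm T S, Set.inter_comm]
  ring

lemma m_union_le (S T : Set A) : m (S ∪ T) ≤ m S + m T := by
  rw [m_union hm]; linarith [hm.1 (S ∩ T)]

lemma m_biUnion_le {ι : Type} (F : Finset ι) (S : ι → Set A) :
    m (⋃ i ∈ F, S i) ≤ ∑ i ∈ F, m (S i) := by
  classical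
  induction F using Finset.induction_on with
  | empty => simp [m_empty hm]
  | insert a F ha ih =>
    rw [Finset.set_biUnion_insert, Finset.sum_insert ha]
    linarith [m_union_le hm (S a) (⋃ i ∈ F, S i)]

lemma exists_pos {ι : Type} (F : Finset ι) (S : ι → Set A) (h : ∀ x, ∃ i ∈ F, x ∈ S i) :
    ∃ i ∈ F, 0 < m (S i) := by
  by_contra hc
  push Not at hc
  have h1 := m_biUnion_le hm F S
  rw [show ⋃ i ∈ F, S i = Set.univ from Set.eq_univ_of_forall fun x => by simpa using h x, hm.2.1] at h1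
  linarith [Finset.sum_nonpos hc]

include hi

lemma pos_of_big {S : Set A} (h : Big S) : 0 < m S := by
  obtain ⟨F, hF⟩ := h
  obtain ⟨f, -, hf⟩ := exists_pos hm F (fun f => f • S) fun x => by
    obtain ⟨f, a, b⟩ := hF x
    exact ⟨f, a, Set.mem_smul_set_iff_inv_smul_mem.2 b⟩
  rwa [hi] at hf

lemma big_of_pos {B : Set A} {t : ℝ} (ht : 0 < t) (hB : t ≤ m B) :
    Big {g : A | t ^ 2 / 16 ≤ m (g • B ∩ B)} := by
  by_contra hcon
  simp only [Big, not_exists, not_forall, not_and] at hcon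
  obtain ⟨u, hu⟩ := @Lie.sep_seq A _ ⊤ (@topologicalGroup_of_indiscreteTopology A ⊤ _ _) {g : A | t ^ 2 / 16 ≤ m (g • B ∩ B)}
    fun F => by obtain ⟨x, hx⟩ := hcon F; exact ⟨x, hx⟩
  have pair : ∀ i j, i < j → m (u i • B ∩ u j • B) ≤ t ^ 2 / 16 := fun i j hij => by
    have : m (((u i)⁻¹ * u j) • B ∩ B) < t ^ 2 / 16 := not_le.1 (hu i j hij)
    rw [← hi (u i), Set.smul_set_inter, smul_smul, mul_inv_cancel_left, Set.inter_comm] at this
    exact this.le
  have key : ∀ n : ℕ, n * t - n ^ 2 * (t ^ 2 / 16) ≤ m (⋃ i ∈ Finset.range n, u i • B) := by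
    intro n
    induction n with
    | zero => simp [m_empty hm]
    | succ n ih =>
      rw [Finset.range_add_one, Finset.set_biUnion_insert, m_union hm, hi, Set.inter_iUnion₂]
      have h1 := m_biUnion_le hm (Finset.range n) fun i => u n • B ∩ u i • B
      have h2 : ∑ i ∈ Finset.range n, m (u n • B ∩ u i • B) ≤ n * (t ^ 2 / 16) := by
        refine (Finset.sum_le_card_nsmul _ _ (t ^ 2 / 16) fun i hi' => ?_).trans (by simp)
        rw [Set.inter_comm]; exact pair i n (Finset.mem_range.1 hi')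
      push_cast
      have : (0 : ℝ) ≤ n * (t ^ 2 / 16) := by positivity
      have : (0 : ℝ) ≤ (t ^ 2 / 16) := by positivity
      nlinarith
  have t1 : t ≤ 1 := hB.trans (hm.le_one B)
  have h1 := (key ⌈2 / t⌉₊).trans (hm.le_one _)
  have h2 : 2 ≤ ⌈2 / t⌉₊ * t := by rw [← div_le_iff₀ ht]; exact Nat.le_ceil _
  have h3 : ⌈2 / t⌉₊ * t ≤ 3 := by
    have := (Nat.ceil_lt_add_one (a := 2 / t) (by positivity)).le
    have h := mul_le_mul_of_nonneg_right this ht.le
    rw [add_mul, div_mul_cancel₀ _ ht.ne'] at h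
    linarith
  nlinarith

lemma big_div {B : Set A} (hB : 0 < m B) : Big (B / B) := by
  refine (big_of_pos hm hi hB le_rfl).mono fun g hg => ?_
  obtain ⟨x, ⟨b, hb, rfl⟩, hx⟩ : (g • B ∩ B).Nonempty := by
    by_contra h
    rw [Set.not_nonempty_iff_eq_empty] at h
    have : m B ^ 2 / 16 ≤ m (g • B ∩ B) := hg
    rw [h, m_empty hm] at this
    nlinarith
  exact ⟨_, hx, b, hb, by simp⟩

lemma sanders {S : Set A} (hS : Big S) (hs : S⁻¹ = S) :
    ∃ T : Set A, Big T ∧ T⁻¹ = T ∧ 1 ∈ T ∧ (T ^ 4) * (T ^ 4) ⊆ S ^ 4 := by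
  have d0 := pos_of_big hm hi hS
  set δ := m S with hδ
  let t : ℕ → ℝ := fun i => Nat.rec δ (fun _ s => s ^ 2 / 16) i
  have ts : ∀ i, t (i + 1) = t i ^ 2 / 16 := fun _ => rfl
  have tp : ∀ i, 0 < t i ∧ t i ≤ δ := fun i => by
    induction i with
    | zero => exact ⟨d0, le_rfl⟩
    | succ i ih =>
      rw [ts]
      have := hm.le_one S
      exact ⟨by have := ih.1; positivity, by nlinarith [ih.1, ih.2]⟩
  let P : ℝ → Set ℝ := fun s => {y | ∃ B ⊆ S, s ≤ m B ∧ y = m (B * S)}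
  have bdd : ∀ s, BddBelow (P s) := fun s => ⟨0, by rintro _ ⟨B, -, -, rfl⟩; exact hm.1 _⟩
  have ne : ∀ i, (P (t i)).Nonempty := fun i => ⟨_, S, le_rfl, (tp i).2, rfl⟩
  obtain ⟨i, hi'⟩ : ∃ i, sInf (P (t i)) ≤ sInf (P (t (i + 1))) + δ / 100 := by
    by_contra hc
    push Not at hc
    have : ∀ i : ℕ, sInf (P (t i)) + i * (δ / 100) ≤ 1 := fun i => by
      induction i with
      | zero =>
        rw [Nat.cast_zero, zero_mul, add_zero]
        exact (csInf_le (bdd _) ⟨S, le_rfl, le_rfl, rfl⟩).trans (hm.le_one _)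
      | succ i ih => push_cast; linarith [hc i]
    obtain ⟨n, hn⟩ := exists_nat_gt (1 / (δ / 100))
    rw [div_lt_iff₀ (by positivity)] at hn
    have h0 : 0 ≤ sInf (P (t n)) := le_csInf (ne n) (by rintro _ ⟨B, -, -, rfl⟩; exact hm.1 _)
    linarith [this n]
  obtain ⟨_, ⟨B, hBS, hB, rfl⟩, hlt⟩ := exists_lt_of_csInf_lt (ne i)
    (lt_add_of_pos_right _ (show 0 < δ / 100 by positivity))
  set X := B * S with hX
  obtain ⟨b, hb⟩ : B.Nonempty := by
    by_contra h
    rw [Set.not_nonempty_iff_eq_empty] at h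
    rw [h, m_empty hm] at hB
    exact absurd (tp i).1 (not_lt.2 hB)
  have hXδ : δ ≤ m X := by
    rw [hδ, ← hi b S]
    exact m_mono hm (by rintro _ ⟨s, hs, rfl⟩; exact Set.mul_mem_mul hb hs)
  have sub : ∀ g h : A, m (X \ (g * h) • X) ≤ m (X \ g • X) + m (X \ h • X) := fun g h => by
    rw [← hi g (X \ h • X)]
    refine (m_mono hm fun x hx => ?_).trans (m_union_le hm _ _)
    by_cases hg : x ∈ g • X
    · rw [Set.smul_set_sdiff, smul_smul]; exact Or.inr ⟨hg, hx.2⟩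
    · exact Or.inl ⟨hx.1, hg⟩
  let T : Set A := {g | t i ^ 2 / 16 ≤ m (g • B ∩ B)}
  have h1 : ∀ g ∈ T, m (X \ g • X) ≤ δ / 50 := fun g hg => by
    have a1 : sInf (P (t (i + 1))) ≤ m ((g • B ∩ B) * S) :=
      csInf_le (bdd _) ⟨_, Set.inter_subset_right.trans hBS, hg, rfl⟩
    have a2 : m ((g • B ∩ B) * S) ≤ m (X ∩ g • X) := m_mono hm (by
      rintro _ ⟨_, ⟨⟨c, hc, rfl⟩, h2⟩, s, hs, rfl⟩
      exact ⟨Set.mul_mem_mul h2 hs, _, Set.mul_mem_mul hc hs, by simp [mul_assoc]⟩)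
    linarith [m_split hm X (g • X)]
  have h2 : ∀ n : ℕ, ∀ g ∈ T ^ n, m (X \ g • X) ≤ n * (δ / 50) := fun n => by
    induction n with
    | zero => rintro _ rfl; simp [m_empty hm]
    | succ n ih =>
      rw [pow_succ]
      rintro _ ⟨g, hg, h, hh, rfl⟩
      push_cast
      linarith [sub g h, ih g hg, h1 h hh]
  refine ⟨T, big_of_pos hm hi (tp i).1 hB, ?_, ?_, ?_⟩
  · ext g
    change _ ≤ m (g⁻¹ • B ∩ B) ↔ _ ≤ m (g • B ∩ B)
    rw [← hi g, Set.smul_set_inter, smul_inv_smul, Set.inter_comm]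
  · change _ ≤ m (_ ∩ B)
    rw [one_smul, Set.inter_self]
    have := hm.le_one B
    nlinarith [(tp i).1]
  · rw [← pow_add]
    intro g hg
    obtain ⟨x, hx, y, hy, rfl⟩ : (X ∩ g • X).Nonempty := by
      by_contra h
      rw [Set.not_nonempty_iff_eq_empty] at h
      have := m_split hm X (g • X)
      rw [h, m_empty hm] at this
      have := h2 _ g hg
      push_cast at this
      linarith
    have XS : X ⊆ S * S := Set.mul_subset_mul_right hBS
    have : g = g • y * y⁻¹ := by simp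
    rw [this, show (4 : ℕ) = 2 + 2 from rfl, pow_add, sq]
    refine Set.mul_mem_mul (XS hx) ?_
    rw [← hs, ← mul_inv]
    exact Set.inv_mem_inv.2 (XS hy)

end mean

lemma exists_mean (A : Type) [CommGroup A] :
    ∃ m : Set A → ℝ, IsMean m ∧ ∀ (g : A) (S : Set A), m (g • S) = m S :=
  amenable_of_solvable (hG := Group.isSolvable_of_comm mul_comm)

/-- finite covers contain a piece whose difference set is big -/
lemma neumann {ι : Type} (F : Finset ι) (S : ι → Set A) (h : ∀ x, ∃ i ∈ F, x ∈ S i) :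
    ∃ i ∈ F, Big (S i / S i) := by
  obtain ⟨m, hm, hi⟩ := exists_mean A
  obtain ⟨i, h1, h2⟩ := exists_pos hm F S h
  exact ⟨i, h1, big_div hm hi h2⟩

lemma exists_top (𝓖 : Filter A) (h1 : pure 1 ≤ 𝓖)
    (hm : Tendsto (fun p : A × A => p.1 * p.2) (𝓖 ×ˢ 𝓖) 𝓖) (hi : Tendsto (fun x : A => x⁻¹) 𝓖 𝓖) :
    ∃ σ : TopologicalSpace A, @IsTopologicalGroup A σ _ ∧ @nhds A σ 1 = 𝓖 := by
  let B := groupFilterBasisOfComm 𝓖.sets ⟨_, univ_mem⟩
    (fun x y hx hy => ⟨_, inter_mem hx hy, le_rfl⟩) (fun U hU => h1 hU)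
    (fun U hU => by
      obtain ⟨V, hV, h⟩ := mem_prod_self_iff.1 (hm hU)
      exact ⟨V, hV, by rintro _ ⟨a, ha, b, hb, rfl⟩; exact h (Set.mk_mem_prod ha hb)⟩)
    (fun U hU => ⟨_, hi hU, le_rfl⟩)
  refine ⟨B.topology, B.isTopologicalGroup, Filter.ext fun U => B.nhds_one_hasBasis.mem_iff.trans
    ⟨fun ⟨V, hV, h⟩ => mem_of_superset hV h, fun h => ⟨U, h, le_rfl⟩⟩⟩

/-- the Bohr filter -/
noncomputable def bohr (A : Type) [CommGroup A] : Filter A := ⨅ χ : A →* Circle, comap χ (𝓝 1)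

lemma bohr_le [TopologicalSpace A] [IsTopologicalGroup A] (h : Lie.Precompact A) :
    bohr A ≤ 𝓝 1 := by
  let π : A →* SeparationQuotient A := SeparationQuotient.mkMonoidHom
  have hπ : IsInducing π := SeparationQuotient.isInducing_mk
  obtain ⟨K, gK, _, _, _, _, j, h1, h2⟩ := Lie.exists_completion (G := SeparationQuotient A) (by
    classical
    intro U hU
    obtain ⟨F, hF⟩ := h _ (hπ.continuous.tendsto' 1 1 (map_one π) hU)
    refine ⟨F.image π, fun x => ?_⟩
    obtain ⟨x, rfl⟩ := SeparationQuotient.surjective_mk x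
    obtain ⟨g, hg, hx⟩ := hF x
    exact ⟨π g, Finset.mem_image_of_mem _ hg, hx⟩)
  let cK : CommGroup K := { gK with
    mul_comm := fun a b => h2.induction_on₂ (p := fun a b => a * b = b * a)
      (isClosed_eq (by fun_prop) (by fun_prop)) (fun a b => by rw [← map_mul, ← map_mul, mul_comm]) a b }
  have e : IsInducing fun (x : K) (χ : K →ₜ* Circle) => χ x :=
    (Continuous.isClosedEmbedding (continuous_pi fun χ => map_continuous χ) fun x y hxy => by
      by_contra hne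
      obtain ⟨χ, hχ⟩ := Dual.sepChar (x := x⁻¹ * y) fun e => hne (inv_mul_eq_one.1 e)
      exact hχ (by rw [map_mul, map_inv, show χ x = χ y from congrFun hxy χ, inv_mul_cancel])
      ).isInducing
  change Tendsto id _ _
  rw [((e.comp h1.isInducing).comp hπ).tendsto_nhds_iff, tendsto_pi_nhds]
  intro χ
  have : Tendsto (((χ : K →* Circle).comp j).comp π) (bohr A) (𝓝 1) :=
    tendsto_iInf' _ tendsto_comap
  simp only [Function.comp_def, map_one]
  exact this

theorem folner {S : Set A} (hS : Big S) (hs : S⁻¹ = S) : S ^ 4 ∈ bohr A := by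
  obtain ⟨m, hm, hi⟩ := exists_mean A
  choose f f1 f2 f3 f4 using fun S : {S : Set A // Big S ∧ S⁻¹ = S} => sanders hm hi S.2.1 S.2.2
  let T : ℕ → {S : Set A // Big S ∧ S⁻¹ = S} := fun n =>
    Nat.rec ⟨S, hS, hs⟩ (fun _ S => ⟨f S, f1 S, f2 S⟩) n
  let W : ℕ → Set A := fun n => f (T n) ^ 4
  have o : ∀ n, 1 ∈ W n := fun n => Set.one_mem_pow (f3 _)
  have w : ∀ n, W (n + 1) * W (n + 1) ⊆ W n := fun n => f4 (T (n + 1))
  have anti : Antitone W := antitone_nat_of_succ_le fun n x hx =>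
    w n (by simpa using Set.mul_mem_mul hx (o (n + 1)))
  have hb := hasBasis_iInf_principal anti.directed_ge
  obtain ⟨σ, hσ, e⟩ := exists_top (⨅ n, 𝓟 (W n)) (le_iInf fun n => by simpa using o n)
    (tendsto_iInf.2 fun n => tendsto_principal.2 (mem_prod_self_iff.2
      ⟨_, hb.mem_of_mem (i := n + 1) trivial, fun p hp => w n (Set.mul_mem_mul hp.1 hp.2)⟩))
    (tendsto_iInf.2 fun n => tendsto_principal.2 (mem_of_superset (hb.mem_of_mem (i := n) trivial)
      fun x hx => by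
        change x⁻¹ ∈ f (T n) ^ 4
        rw [← f2, inv_pow]; exact Set.inv_mem_inv.2 hx))
  have := bohr_le (A := A) fun U hU => by
    rw [e] at hU
    obtain ⟨n, -, hn⟩ := hb.mem_iff.1 hU
    exact (f1 (T n)).mono ((Set.subset_pow (f3 _) (by norm_num)).trans hn)
  rw [e] at this
  refine mem_of_superset (this (hb.mem_of_mem (i := 0) trivial)) fun x hx => f4 (T 0) ?_
  simpa using Set.mul_mem_mul hx (o 0)

end Pool.Agent.H71.PS
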