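import Mathlib
import Pool.Agent.H71.PS1

/-! A relative form of the Prodanov-Stoyanov theorem. -/

namespace Pool.Agent.H71.PS

open Filter Topology
open scoped Pointwise

variable {G : Type} [CommGroup G]

/-- the `a`-th powers of `N` are `U`-bounded modulo the `b`-th powers -/
def Bd (N : Subgroup G) (a b : ℕ) (U : Set G) : Prop :=
  ∃ F : Finset G, ∀ x ∈ N, ∃ f ∈ F, ∃ y ∈ N, ∃ u ∈ U, x ^ a = f * y ^ b * u

lemma Bd.mono {N : Subgroup G} {a b : ℕ} {U V : Set G} (h : Bd N a b U) (hUV : U ⊆ V) :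
    Bd N a b V := by
  obtain ⟨F, hF⟩ := h
  refine ⟨F, fun x hx => ?_⟩
  obtain ⟨f, h1, y, h2, u, h3, e⟩ := hF x hx
  exact ⟨f, h1, y, h2, u, hUV h3, e⟩

lemma Bd.trans {N : Subgroup G} {a b c : ℕ} {U V : Set G} (h : Bd N a b U) (h' : Bd N b c V) :
    Bd N a c (V * U) := by
  classical
  obtain ⟨F, hF⟩ := h
  obtain ⟨F', hF'⟩ := h'
  refine ⟨F * F', fun x hx => ?_⟩
  obtain ⟨f, h1, y, h2, u, h3, e⟩ := hF x hx
  obtain ⟨f', h1', z, h2', u', h3', e'⟩ := hF' y h2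
  exact ⟨_, Finset.mul_mem_mul h1 h1', z, h2', _, Set.mul_mem_mul h3' h3, by
    rw [e, e']; simp only [mul_assoc]⟩

lemma exists_step (N : Subgroup G) (E : ℕ → ℕ → Prop) (v : ℕ → ℕ → Set G)
    (hv : ∀ r m, E r m → ¬ Bd N r m (v r m / v r m)) (F : Finset G) (n : ℕ) :
    ∃ x ∈ N, ∀ r ≤ n, ∀ m ≤ n, E r m → ∀ f ∈ F, ∀ y ∈ N, f * x ^ r * y ^ m ∉ v r m := by
  classical
  by_contra hc
  push Not at hc
  obtain ⟨⟨r, m, f⟩, -, T, hT⟩ := neumann (A := N)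
    (Finset.range (n + 1) ×ˢ Finset.range (n + 1) ×ˢ F)
    (fun i => {x | E i.1 i.2.1 ∧ ∃ y ∈ N, i.2.2 * x ^ i.1 * y ^ i.2.1 ∈ v i.1 i.2.1}) fun x => by
      obtain ⟨r, h1, m, h2, h3, f, h4, y, h5, h6⟩ := hc x x.2
      exact ⟨(r, m, f), by simp [h1, h2, h4], h3, y, h5, h6⟩
  obtain ⟨-, -, -, ⟨hE, -⟩, -⟩ := hT 1
  refine hv r m hE ⟨T.image fun g : N => (g : G) ^ r, fun x hx => ?_⟩
  obtain ⟨g, hg, a, ⟨-, y, hy, h1⟩, a', ⟨-, y', hy', h2⟩, e⟩ := hT ⟨x, hx⟩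
  refine ⟨_, Finset.mem_image_of_mem _ hg, y' / y, div_mem hy' hy, _, Set.div_mem_div h1 h2, ?_⟩
  have : x = g * (a / a') := by
    have : (a : G) / a' = g⁻¹ * x := congrArg Subtype.val e
    rw [this]; simp
  simp only [this, mul_pow, div_pow]
  apply Additive.ofMul.injective
  simp only [ofMul_mul, ofMul_div, ofMul_inv]
  abel

/-- strong recursion -/
noncomputable def seq (step : ℕ → (ℕ → G) → G) (n : ℕ) : G :=
  step n (fun i => if _h : i < n then seq step i else 1)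
termination_by n

lemma exists_d (N : Subgroup G) (E : ℕ → ℕ → Prop) (v : ℕ → ℕ → Set G)
    (hv : ∀ r m, E r m → ¬ Bd N r m (v r m / v r m)) :
    ∃ d : ℕ → G, (∀ n, d n ∈ N) ∧ ∀ n, ∀ r ≤ 2 * n, ∀ m ≤ 2 * n, E r m → ∀ c : ℕ → ℤ,
      (∀ i < n, |c i| ≤ 2 * n) → ∀ y ∈ N, (∏ i ∈ Finset.range n, d i ^ c i) * d n ^ r * y ^ m ∉ v r m := by
  classical
  choose s s1 s2 using fun (n : ℕ) (e : ℕ → G) => exists_step N E v hv
    ((Fintype.piFinset fun _ : Fin n => Finset.Icc (-(2 * n : ℤ)) (2 * n)).image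
      fun c => ∏ i : Fin n, e i ^ c i) (2 * n)
  refine ⟨seq s, fun n => by rw [seq]; exact s1 _ _, fun n r hr m hm hE c hc y hy => ?_⟩
  rw [seq.eq_1 s n]
  refine s2 n _ r hr m hm hE _ (Finset.mem_image.2 ⟨fun i => c i, ?_, ?_⟩) y hy
  · exact Fintype.mem_piFinset.2 fun i => Finset.mem_Icc.2 (abs_le.1 (hc i i.2))
  · rw [← Fin.prod_univ_eq_prod_range (fun i => seq s i ^ c i)]
    simp

/-- the free abelian group -/
abbrev FA := Multiplicative (ℕ →₀ ℤ)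

/-- evaluation of words -/
noncomputable def lift {H : Type} [CommGroup H] (d : ℕ → H) : FA →* H where
  toFun c := c.toAdd.prod fun n k => d n ^ k
  map_one' := Finsupp.prod_zero_index
  map_mul' _ _ := Finsupp.prod_add_index' (fun _ => zpow_zero _) (fun _ _ _ => zpow_add _ _ _)

lemma lift_single {H : Type} [CommGroup H] (d : ℕ → H) (n : ℕ) (k : ℤ) :
    lift d (Multiplicative.ofAdd (Finsupp.single n k)) = d n ^ k :=
  Finsupp.prod_single_index (zpow_zero _)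

lemma lift_mem {N : Subgroup G} {d : ℕ → G} (h : ∀ n, d n ∈ N) (c : FA) : lift d c ∈ N :=
  prod_mem fun n _ => zpow_mem (h n) _

lemma bohr_pow {m : ℕ} (hm : m ≠ 0) : comap (fun a : FA => a ^ m) (bohr FA) ≤ bohr FA := by
  refine le_iInf fun χ => ?_
  have : ∀ z : Circle, ∃ w : Circle, w ^ m = z := fun z => by
    obtain ⟨θ, rfl⟩ := Circle.exp_surjective z
    refine ⟨Circle.exp (θ / m), ?_⟩
    rw [← Circle.exp_natCast_mul, mul_div_cancel₀ _ (Nat.cast_ne_zero.2 hm)]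
  choose w hw using this
  let ψ := lift fun n => w (χ (Multiplicative.ofAdd (Finsupp.single n 1)))
  have e : ψ.comp (powMonoidHom m) = χ := Finsupp.mulHom_ext fun n k => by
    change ψ (_ ^ m) = _
    rw [map_pow, lift_single, ← zpow_natCast, ← zpow_mul, mul_comm, zpow_mul, zpow_natCast, hw,
      ← map_zpow, ← ofAdd_zsmul]
    simp
  refine (comap_mono (iInf_le _ ψ)).trans ?_
  rw [comap_comap, ← e]
  rfl

section
variable {N : Subgroup G} {E : ℕ → ℕ → Prop} {v : ℕ → ℕ → Set G} {d : ℕ → G} (hd : ∀ n, d n ∈ N)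
  (h : ∀ n, ∀ r ≤ 2 * n, ∀ m ≤ 2 * n, E r m → ∀ c : ℕ → ℤ,
      (∀ i < n, |c i| ≤ 2 * n) → ∀ y ∈ N, (∏ i ∈ Finset.range n, d i ^ c i) * d n ^ r * y ^ m ∉ v r m)
include h

lemma ind {V : Set G} (hV : V⁻¹ = V) {m n : ℕ} {c : ℕ →₀ ℤ} (h0 : ∀ i, n < i → c i = 0)
    (hb : ∀ i, |c i| ≤ 2 * i) (hm : m ≤ 2 * n) (hE : E (c n).natAbs m) (hv : V ⊆ v (c n).natAbs m)
    {y : G} (hy : y ∈ N) : lift d (Multiplicative.ofAdd c) * y ^ m ∉ V := by
  have e : lift d (Multiplicative.ofAdd c) = (∏ i ∈ Finset.range n, d i ^ c i) * d n ^ c n := by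
    rw [← Finset.prod_range_succ (fun i => d i ^ c i)]
    exact Finsupp.prod_of_support_subset _ (fun i hi => Finset.mem_range.2 (Nat.lt_succ_of_le
      (not_lt.1 fun h => Finsupp.mem_support_iff.1 hi (h0 i h)))) _ fun _ _ => zpow_zero _
  have hr : (c n).natAbs ≤ 2 * n := by have := hb n; rw [Int.abs_eq_natAbs] at this; omega
  have hb' : ∀ i < n, |c i| ≤ 2 * n := fun i hi => by have := hb i; omega
  intro hc
  rcases Int.natAbs_eq (c n) with e' | e'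
  · refine h n _ hr m hm hE c hb' y hy (hv ?_)
    rwa [← zpow_natCast, ← e', ← e]
  · refine h n _ hr m hm hE (fun i => - c i) (by simpa using hb') y⁻¹ (inv_mem hy) (hv ?_)
    rw [← hV, Set.mem_inv]
    rw [e, e', zpow_neg, zpow_natCast] at hc
    simpa only [zpow_neg, Finset.prod_inv_distrib, mul_inv, inv_inv, inv_pow] using hc

include hd

lemma dvd_of_mem {V : Set G} (hV : V⁻¹ = V) {m : ℕ}
    (hm : ∀ r, 0 < r → (m = 0 ∨ r < m) → E r m ∧ V ⊆ v r m) {c : ℕ →₀ ℤ}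
    (hb : ∀ i, |c i| ≤ 2 * i) (h0 : ∀ i < m, c i = 0) (hc : lift d (Multiplicative.ofAdd c) ∈ V)
    (i : ℕ) : (m : ℤ) ∣ c i := by
  let a : ℕ →₀ ℤ := c.mapRange (· % m) (by simp)
  let q : ℕ →₀ ℤ := c.mapRange (· / m) (by simp)
  have aa : ∀ i, a i = c i % m := fun _ => rfl
  have e : Multiplicative.ofAdd c = Multiplicative.ofAdd a * Multiplicative.ofAdd q ^ m := by
    rw [← ofAdd_nsmul, ← ofAdd_add]
    congr 1
    ext i
    simp [a, q, Int.emod_add_mul_ediv]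
  by_contra hn
  have ne : a.support.Nonempty := ⟨i, Finsupp.mem_support_iff.2 fun e => hn (Int.dvd_of_emod_eq_zero e)⟩
  set n := a.support.max' ne
  have an : a n ≠ 0 := Finsupp.mem_support_iff.1 (a.support.max'_mem ne)
  have mn : m ≤ n := not_lt.1 fun h => an (by rw [aa, h0 n h]; simp)
  have lt : m ≠ 0 → ∀ i, 0 ≤ a i ∧ a i < m := fun h i =>
    ⟨Int.emod_nonneg _ (by exact_mod_cast h), Int.emod_lt_of_pos _ (by omega)⟩
  obtain ⟨hE, hv⟩ := hm (a n).natAbs (Int.natAbs_pos.2 an) (by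
    by_cases h : m = 0
    · exact Or.inl h
    · have := lt h n; omega)
  refine ind h hV (c := a) (n := n) (fun i hi => by
    by_contra h'
    exact absurd (a.support.le_max' i (Finsupp.mem_support_iff.2 h')) (not_le.2 hi)) (fun i => ?_)
    (by omega) hE hv (lift_mem hd (Multiplicative.ofAdd q)) (by rwa [← map_pow, ← map_mul, ← e])
  by_cases h : m = 0
  · rw [aa, h]; simpa using hb i
  · by_cases hi : i < m
    · rw [aa, h0 i hi]; simp
    · have := lt h i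
      rw [abs_of_nonneg this.1]; omega

end

variable [τ : TopologicalSpace G] [IsTopologicalGroup G]

lemma exists_v (N : Subgroup G) : ∃ v : ℕ → ℕ → Set G, (∀ r m, v r m ∈ 𝓝 (1 : G)) ∧
    (∀ r m, (∃ U ∈ 𝓝 (1 : G), ¬ Bd N r m U) → ¬ Bd N r m (v r m / v r m)) ∧
    ((∃ U ∈ 𝓝 (1 : G), ∀ r, 0 < r → ¬ Bd N r 0 U) → ∃ V ∈ 𝓝 (1 : G), ∀ r, 0 < r → V ⊆ v r 0) := by
  classical
  have half : ∀ U ∈ 𝓝 (1 : G), ∃ V ∈ 𝓝 (1 : G), V / V ⊆ U := fun U hU => by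
    obtain ⟨V, hV, h⟩ := exists_nhds_split_inv hU
    exact ⟨V, hV, by rintro _ ⟨a, ha, b, hb, rfl⟩; exact h a ha b hb⟩
  have : ∀ r m, ∃ w ∈ 𝓝 (1 : G), (∃ U ∈ 𝓝 (1 : G), ¬ Bd N r m U) → ¬ Bd N r m (w / w) := fun r m => by
    by_cases h : ∃ U ∈ 𝓝 (1 : G), ¬ Bd N r m U
    · obtain ⟨U, hU, h⟩ := h
      obtain ⟨V, hV, h'⟩ := half U hU
      exact ⟨V, hV, fun _ hb => h (hb.mono h')⟩
    · exact ⟨_, univ_mem, fun h' => absurd h' h⟩
  choose w w1 w2 using this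
  by_cases h : ∃ U ∈ 𝓝 (1 : G), ∀ r, 0 < r → ¬ Bd N r 0 U
  · obtain ⟨U, hU, h⟩ := h
    obtain ⟨V, hV, h'⟩ := half U hU
    refine ⟨fun r m => if m = 0 ∧ 0 < r then V else w r m, fun r m => ?_, fun r m hE => ?_,
      fun _ => ⟨V, hV, fun r hr => by simp [hr]⟩⟩
    · beta_reduce
      split_ifs
      exacts [hV, w1 r m]
    · beta_reduce
      split_ifs with hc
      · obtain ⟨rfl, hr⟩ := hc
        exact fun hb => h r hr (hb.mono h')
      · exact w2 r m hE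
  · exact ⟨w, w1, w2, fun h' => absurd h' h⟩

omit [IsTopologicalGroup G] in
lemma coarser [hτ : IsTopologicalGroup G] {P : Filter G → Prop} (𝓖 : Filter G) (hP : P 𝓖) (le : 𝓝 1 ≤ 𝓖)
    (hm : Tendsto (fun p : G × G => p.1 * p.2) (𝓖 ×ˢ 𝓖) 𝓖) (hi : Tendsto (fun x : G => x⁻¹) 𝓖 𝓖)
    (sep : ∀ x, x ≠ 1 → ∃ U ∈ 𝓖, x ∉ U) :
    ∃ σ : TopologicalSpace G, @IsTopologicalGroup G σ _ ∧ @T2Space G σ ∧ τ ≤ σ ∧
      P (@nhds G σ 1) := by
  obtain ⟨σ, hσ, e⟩ := exists_top 𝓖 ((pure_le_nhds 1).trans le) hm hi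
  refine ⟨σ, hσ, IsTopologicalGroup.t2Space_of_one_sep (e ▸ sep), ?_, e ▸ hP⟩
  refine continuous_id_iff_le.1 ?_
  exact @continuous_of_continuousAt_one G τ _ hτ G (G →* G) _ σ hσ.1 _ _
      (MonoidHom.id G) (show @nhds G τ 1 ≤ @nhds G σ 1 from e ▸ le)

theorem ps [T2Space G] (N : Subgroup G) (hN : ∃ U ∈ 𝓝 (1 : G), ¬ Bd N 1 0 U) :
    ∃ σ : TopologicalSpace G, @IsTopologicalGroup G σ _ ∧ @T2Space G σ ∧ τ ≤ σ ∧
      @nhds G σ 1 ≠ @nhds G τ 1 ∧ ∀ U ∈ @nhds G τ 1, U * (N : Set G) ∈ @nhds G σ 1 := by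
  classical
  obtain ⟨v, v1, v2, v3⟩ := exists_v N
  obtain ⟨d, hd, h⟩ := exists_d N (fun r m => ∃ U ∈ 𝓝 (1 : G), ¬ Bd N r m U) v v2
  let Φ := lift d
  have half : ∀ U ∈ 𝓝 (1 : G), ∃ V ∈ 𝓝 (1 : G), V⁻¹ = V ∧ V * V ⊆ U ∧ V ⊆ U := fun U hU => by
    obtain ⟨V, h1, -, h2, h3⟩ := exists_closed_nhds_one_inv_eq_mul_subset hU
    exact ⟨V, h1, h2, h3, fun x hx => h3 (by simpa using Set.mul_mem_mul hx (mem_of_mem_nhds h1))⟩
  have H : ∀ x : G, x ≠ 1 → ∃ m, ∃ V ∈ 𝓝 (1 : G), V⁻¹ = V ∧ (∀ r, 0 < r → (m = 0 ∨ r < m) →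
      (∃ U ∈ 𝓝 (1 : G), ¬ Bd N r m U) ∧ V ⊆ v r m) ∧ ∃ W ∈ bohr FA, ∃ U ∈ 𝓝 (1 : G),
        ∀ c ∈ W, (∀ i, (m : ℤ) ∣ c.toAdd i) → ∀ u ∈ U, u * Φ c ≠ x := fun x hx => by
    by_cases hB : ∃ U ∈ 𝓝 (1 : G), ∀ r, 0 < r → ¬ Bd N r 0 U
    · obtain ⟨V, hV, hVv⟩ := v3 hB
      obtain ⟨V', a1, a2, -, a4⟩ := half V hV
      obtain ⟨U, hU, hB⟩ := hB
      refine ⟨0, V', a1, a2, fun r hr _ => ⟨⟨U, hU, hB r hr⟩, a4.trans (hVv r hr)⟩, _, univ_mem,
        {x}ᶜ, compl_singleton_mem_nhds hx.symm, fun c _ hc u hu => ?_⟩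
      have : c = 1 := Finsupp.ext fun i => zero_dvd_iff.1 (hc i)
      rwa [this, map_one, mul_one]
    push Not at hB
    obtain ⟨Q1, a1, -, c1, -⟩ := half _ (compl_singleton_mem_nhds hx.symm)
    obtain ⟨Q2, a2, -, c2, -⟩ := half _ a1
    obtain ⟨Q3, a3, b3, c3, -⟩ := half _ a2
    obtain ⟨Q4, a4, b4, c4, -⟩ := half _ a3
    obtain ⟨Q5, a5, -, c5, -⟩ := half _ a4
    obtain ⟨m, hm, hb⟩ := hB Q5 a5
    have ex : ∃ r, 0 < r ∧ ∀ U ∈ 𝓝 (1 : G), Bd N r m U := ⟨m, hm, fun U hU =>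
      ⟨{1}, fun x hx => ⟨1, by simp, x, hx, 1, mem_of_mem_nhds hU, by simp⟩⟩⟩
    obtain ⟨k0, k1⟩ := Nat.find_spec ex
    set k := Nat.find ex
    obtain ⟨V, e1, e2, -, e4⟩ := half _ ((biInter_finset_mem (Finset.range k)).2 fun r _ => v1 r k)
    obtain ⟨F, hF⟩ := ((k1 Q5 a5).trans hb).mono c5
    let S : Set FA := {a | Φ a ^ k ∈ Q3}
    have bS : Big S := by
      have : ∀ f : G, ∃ a : FA, (∃ a : FA, f⁻¹ * Φ a ^ k ∈ Q4) → f⁻¹ * Φ a ^ k ∈ Q4 := fun f => by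
        by_cases h : ∃ a : FA, f⁻¹ * Φ a ^ k ∈ Q4
        · exact ⟨h.choose, fun _ => h.choose_spec⟩
        · exact ⟨1, fun h' => absurd h' h⟩
      choose a ha using this
      refine ⟨F.image a, fun x => ?_⟩
      obtain ⟨f, hf, y, -, u, hu, e⟩ := hF _ (lift_mem hd x)
      have h1 : f⁻¹ * Φ x ^ k ∈ Q4 := by rw [e]; simpa using hu
      have h2 := ha f ⟨x, h1⟩
      refine ⟨_, Finset.mem_image_of_mem a hf, ?_⟩
      change Φ _ ^ k ∈ Q3
      convert c4 (Set.mul_mem_mul (b4 ▸ Set.inv_mem_inv.2 h2 : _ ∈ Q4) h1) using 1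
      simp only [map_mul, map_inv, mul_pow, inv_pow]
      apply Additive.ofMul.injective
      simp only [ofMul_mul, ofMul_div, ofMul_inv]
      abel
    obtain ⟨W, hW, hWS⟩ := mem_comap.1 (bohr_pow k0.ne' (folner bS (by
      ext a
      change Φ a⁻¹ ^ k ∈ Q3 ↔ Φ a ^ k ∈ Q3
      rw [map_inv, inv_pow, ← Set.mem_inv, b3])))
    refine ⟨k, V, e1, e2, fun r hr hrk => ?_, W, hW, Q1, a1, fun c hc hdv u hu => ?_⟩
    · have hrk : r < k := hrk.resolve_left k0.ne'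
      refine ⟨?_, fun x hx => Set.mem_iInter₂.1 (e4 hx) r (Finset.mem_range.2 hrk)⟩
      by_contra hcon
      push Not at hcon
      refine Nat.find_min ex hrk ⟨hr, fun U hU => ?_⟩
      obtain ⟨U', f1, -, f2, -⟩ := half U hU
      exact ((hcon U' f1).trans (k1 U' f1)).mono f2
    · let q : FA := Multiplicative.ofAdd (c.toAdd.mapRange (· / k) (by simp))
      have e : q ^ k = c := by
        rw [← ofAdd_nsmul]
        refine congrArg Multiplicative.ofAdd (Finsupp.ext fun i => ?_)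
        exact Int.mul_ediv_cancel' (hdv i)
      have hq : q ∈ S ^ 4 := hWS (show q ^ k ∈ W from e ▸ hc)
      rw [show (4 : ℕ) = 2 + 2 from rfl, pow_add, sq] at hq
      obtain ⟨_, ⟨s1, h1, s2, h2, rfl⟩, _, ⟨s3, h3, s4, h4, rfl⟩, e'⟩ := hq
      refine c1 (Set.mul_mem_mul hu ?_)
      rw [← e, ← e']
      simp only [map_pow, map_mul, mul_pow]
      exact c2 (Set.mul_mem_mul (c3 (Set.mul_mem_mul h1 h2)) (c3 (Set.mul_mem_mul h3 h4)))
  let W : ℕ → Set FA := fun j => {c | ∀ i, 2 ^ j * |c.toAdd i| ≤ i}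
  have W0 : ∀ j, ∀ c ∈ W j, ∀ i, |c.toAdd i| ≤ i ∧ (i < j → c.toAdd i = 0) := fun j c hc i => by
    have h1 := hc i
    have h2 : (j : ℤ) < 2 ^ j := by exact_mod_cast Nat.lt_two_pow_self
    have h3 := abs_nonneg (c.toAdd i)
    refine ⟨by nlinarith, fun hi => ?_⟩
    by_contra h0
    have : 1 ≤ |c.toAdd i| := Int.one_le_abs h0
    have : (i : ℤ) < j := by exact_mod_cast hi
    nlinarith
  let 𝓕 : Filter FA := (⨅ j, 𝓟 (W j)) ⊓ bohr FA
  have mW : ∀ j, W j ∈ 𝓕 := fun j => mem_inf_of_left (mem_iInf_of_mem j (mem_principal_self _))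
  have tχ : ∀ χ : FA →* Circle, Tendsto χ 𝓕 (𝓝 1) := fun χ =>
    tendsto_inf_right (tendsto_iInf' χ tendsto_comap)
  have toF : ∀ {ι : Type} {l : Filter ι} {f : ι → FA}, (∀ j, ∀ᶠ i in l, f i ∈ W j) →
      (∀ χ : FA →* Circle, Tendsto (fun i => χ (f i)) l (𝓝 1)) → Tendsto f l 𝓕 := fun h1 h2 =>
    tendsto_inf.2 ⟨tendsto_iInf.2 fun j => tendsto_principal.2 (h1 j),
      tendsto_iInf.2 fun χ => tendsto_comap_iff.2 (h2 χ)⟩
  have F1 : Tendsto (fun _ : Unit => (1 : FA)) ⊤ 𝓕 :=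
    toF (fun j => Eventually.of_forall fun _ i => by simp) fun χ => by simp
  have F1' : ∀ T ∈ 𝓕, (1 : FA) ∈ T := fun T hT => F1 hT ()
  have Fm : Tendsto (fun p : FA × FA => p.1 * p.2) (𝓕 ×ˢ 𝓕) 𝓕 := toF (fun j => by
    filter_upwards [prod_mem_prod (mW (j + 1)) (mW (j + 1))] with p hp i
    have h1 := hp.1 i
    have h2 := hp.2 i
    have h3 := abs_add_le (p.1.toAdd i) (p.2.toAdd i)
    have : (0 : ℤ) < 2 ^ j := by positivity
    rw [pow_succ] at h1 h2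
    change 2 ^ j * |p.1.toAdd i + p.2.toAdd i| ≤ _
    nlinarith) fun χ => by
      simpa using ((tχ χ).comp tendsto_fst).mul ((tχ χ).comp tendsto_snd)
  have Fi : Tendsto (fun c : FA => c⁻¹) 𝓕 𝓕 := toF (fun j => by
    filter_upwards [mW j] with c hc i
    simpa using hc i) fun χ => by simpa using (tχ χ).inv
  let 𝓖 : Filter G := map (fun p : G × FA => p.1 * Φ p.2) (𝓝 1 ×ˢ 𝓕)
  have toG : ∀ {ι : Type} {l : Filter ι} {f : ι → G} {g : ι → FA}, Tendsto f l (𝓝 1) →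
      Tendsto g l 𝓕 → Tendsto (fun i => f i * Φ (g i)) l 𝓖 := fun h1 h2 =>
    tendsto_map.comp (h1.prodMk h2)
  have le : 𝓝 1 ≤ 𝓖 := by
    have := toG (l := 𝓝 1) tendsto_id (g := fun _ => 1) fun T hT => by simp [F1' T hT]
    simp only [map_one, mul_one] at this
    exact this
  refine coarser (P := fun F => F ≠ 𝓝 1 ∧ ∀ U ∈ 𝓝 (1 : G), U * (N : Set G) ∈ F) 𝓖
    ⟨fun he => ?_, fun U hU => ?_⟩ le (by
    rw [prod_map_map_eq, tendsto_map'_iff]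
    have := toG (l := (𝓝 (1 : G) ×ˢ 𝓕) ×ˢ (𝓝 (1 : G) ×ˢ 𝓕)) (f := fun p => p.1.1 * p.2.1)
      (g := fun p => p.1.2 * p.2.2)
      (by
        rw [← mul_one (1 : G)]
        nth_rewrite 1 [mul_one]
        nth_rewrite 1 [mul_one]
        exact (tendsto_fst.comp tendsto_fst).mul (tendsto_fst.comp tendsto_snd))
      (Fm.comp ((tendsto_snd.comp tendsto_fst).prodMk (tendsto_snd.comp tendsto_snd)))
    refine this.congr fun p => ?_
    simp only [map_mul, Function.comp_def]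
    exact mul_mul_mul_comm _ _ _ _) (by
    rw [tendsto_map'_iff]
    have := toG (l := 𝓝 (1 : G) ×ˢ 𝓕) (f := fun p => p.1⁻¹) (g := fun p => p.2⁻¹)
      (by simpa using (tendsto_fst (f := 𝓝 (1 : G))).inv) (Fi.comp tendsto_snd)
    refine this.congr fun p => ?_
    simp only [map_inv, Function.comp_def, mul_inv]) fun x hx => ?_
  rotate_left 2
  · obtain ⟨m, V, h1, h2, h3, B, hB, U, hU, h4⟩ := H x hx
    obtain ⟨U', g1, g2, g3, -⟩ := half V h1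
    have mem : ∀ T ∈ 𝓕, (fun p : G × FA => p.1 * Φ p.2) '' ((U ∩ U') ×ˢ T) ∈ 𝓖 :=
      fun T hT => image_mem_map (prod_mem_prod (inter_mem hU g1) hT)
    by_contra hcon
    push Not at hcon
    obtain ⟨⟨u₀, c₀⟩, ⟨hu₀, hc₀⟩, e₀⟩ := hcon _ (mem _ (mW m))
    obtain ⟨k, hk⟩ := c₀.toAdd.support.bddAbove
    obtain ⟨⟨u, c⟩, ⟨hu, hc, hck, hcB⟩, e₁⟩ := hcon _ (mem _ (inter_mem (mW m)
      (inter_mem (mW (k + 1)) (mem_inf_of_right hB))))
    refine h4 c hcB (fun i => ?_) u hu.1 e₁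
    have := dvd_of_mem hd h h2 h3 (c := c.toAdd - c₀.toAdd) (fun i => by
      have := (W0 m c hc i).1
      have := (W0 m c₀ hc₀ i).1
      have := abs_sub (c.toAdd i) (c₀.toAdd i)
      rw [Finsupp.sub_apply]; linarith) (fun i hi => by
      rw [Finsupp.sub_apply, (W0 m c hc i).2 hi, (W0 m c₀ hc₀ i).2 hi, sub_zero]) (by
      change Φ (c / c₀) ∈ V
      have : Φ (c / c₀) = u₀ * u⁻¹ := by
        rw [map_div, div_eq_iff_eq_mul, mul_right_comm, show u₀ * Φ c₀ = x from e₀, ← e₁]; simp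
      rw [this]
      exact g3 (Set.mul_mem_mul hu₀.2 (g2 ▸ Set.inv_mem_inv.2 hu.2))) i
    by_cases hi : i < k + 1
    · rw [(W0 _ c hck i).2 hi]; exact dvd_zero _
    · rwa [Finsupp.sub_apply, Finsupp.notMem_support_iff.1 fun h => hi (Nat.lt_succ_of_le (hk h)),
        sub_zero] at this
  · obtain ⟨V, h1, h2, -, h4⟩ := half _ (v1 1 0)
    let l : Filter ℕ := hyperfilter ℕ
    let ε : ℕ → FA := fun n => Multiplicative.ofAdd (Finsupp.single n 1)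
    have la : l ≤ atTop := Nat.cofinite_eq_atTop ▸ hyperfilter_le_cofinite
    have lt : ∀ j, ∀ᶠ p : ℕ × ℕ in l.curry l, j ≤ p.1 ∧ p.1 < p.2 := fun j =>
      eventually_curry_iff.2 (by
        filter_upwards [la (eventually_ge_atTop j)] with a ha
        filter_upwards [la (eventually_gt_atTop a)] with b hb using ⟨ha, hb⟩)
    have co : ∀ p : ℕ × ℕ, ∀ i, (ε p.2 / ε p.1).toAdd i =
        (if p.2 = i then 1 else 0) - (if p.1 = i then 1 else 0) := fun p i => by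
      simp [ε, Finsupp.single_apply]
    have t1 : Tendsto (fun p : ℕ × ℕ => ε p.2 / ε p.1) (l.curry l) 𝓕 := toF (fun j => by
      filter_upwards [lt (2 ^ j)] with p hp i
      have h1 : ((2 : ℤ) ^ j) ≤ p.1 := by exact_mod_cast hp.1
      rw [co]
      split_ifs <;> simp <;> omega) fun χ => by
        obtain ⟨z, -, hz⟩ := isCompact_univ.ultrafilter_le_nhds
          ((hyperfilter ℕ).map fun n => χ (ε n)) (by simp)
        have hz : Tendsto (fun n => χ (ε n)) l (𝓝 z) := hz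
        simpa using ((hz.comp tendsto_snd).div' (hz.comp tendsto_fst)).mono_left curry_le_prod
    have t2 := toG (l := l.curry l) (f := fun _ => 1) tendsto_const_nhds t1
    rw [he] at t2
    obtain ⟨a, ha⟩ := (eventually_curry_iff.1 ((t2.eventually h1).and (lt 1))).exists
    obtain ⟨b, hb, h5, h6⟩ := ha.exists
    have cb : (ε b / ε a).toAdd b = 1 := by
      rw [co (a, b)]; simp [h6.ne]
    refine ind h h2 (m := 0) (n := b) (c := (ε b / ε a).toAdd) (fun i hi => ?_) (fun i => ?_)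
      (by omega) (by rw [cb]; exact hN) (by rw [cb]; exact h4) (one_mem N) (by rw [pow_zero, mul_one]; rw [one_mul] at hb; exact hb)
    · rw [co (a, b)]; split_ifs <;> omega
    · rw [co (a, b)]; split_ifs <;> simp <;> omega
  · exact mem_of_superset (image_mem_map (prod_mem_prod hU univ_mem)) (by
      rintro _ ⟨⟨u, c⟩, hp, rfl⟩
      exact Set.mul_mem_mul hp.1 (lift_mem hd c))

end Pool.Agent.H71.PS
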