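import Mathlib
import Pool.Agent.H71.PS2

/-! Stability of approximate characters on nuclear boxes. -/

namespace Pool.Agent.H71.LPS

open Filter Topology _root_.Pool.Agent.H71.PS
open scoped Pointwise

/-- the sizes of the boxes -/
def bd (i j : ℕ) : ℕ := if i < j then 0 else (2 ^ (i + 1)) ^ (i - j)

lemma bd_succ (i j : ℕ) : 2 ^ (i + 1) * bd i (j + 1) ≤ bd i j := by
  unfold bd
  split_ifs with h1 h2 h2
  · simp
  · simp
  · omega
  · rw [← pow_succ', show i - (j + 1) + 1 = i - j by omega]

lemma bd_two (i j : ℕ) : 2 * bd i (j + 1) ≤ bd i j :=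
  (Nat.mul_le_mul_right _ (by rw [pow_succ]; have := Nat.one_le_two_pow (n := i); omega)).trans
    (bd_succ i j)

lemma bd_anti (i : ℕ) : Antitone (bd i) := antitone_nat_of_succ_le fun j => by
  have := bd_two i j; omega

lemma bd_pos {i j : ℕ} (h : j ≤ i) : 1 ≤ bd i j := by
  rw [bd, if_neg (not_lt.2 h)]; exact Nat.one_le_pow _ _ (by positivity)

lemma bd_zero {i j : ℕ} (h : i < j) : bd i j = 0 := if_pos h

/-- the boxes -/
def Box (j : ℕ) : Set (ℕ →₀ ℤ) := {c | ∀ i, |c i| ≤ bd i j}

lemma Box.anti {j k : ℕ} (h : j ≤ k) : Box k ⊆ Box j := fun _ hc i =>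
  (hc i).trans (by exact_mod_cast bd_anti i h)

lemma Box.add {j : ℕ} {a b : ℕ →₀ ℤ} (ha : a ∈ Box (j + 1)) (hb : b ∈ Box (j + 1)) :
    a + b ∈ Box j := fun i => by
  have h1 := ha i
  have h2 := hb i
  have h3 := abs_add_le (a i) (b i)
  have h4 : (2 : ℤ) * bd i (j + 1) ≤ bd i j := by exact_mod_cast bd_two i j
  rw [Finsupp.add_apply]; linarith

lemma Box.neg {j : ℕ} {a : ℕ →₀ ℤ} (ha : a ∈ Box j) : -a ∈ Box j := fun i => by
  simpa using ha i

lemma Box.zero (j : ℕ) : (0 : ℕ →₀ ℤ) ∈ Box j := fun i => by simp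

lemma Box.eq_zero {j i : ℕ} {a : ℕ →₀ ℤ} (ha : a ∈ Box j) (h : i < j) : a i = 0 := by
  simpa [bd_zero h] using ha i

lemma Box.single {j i : ℕ} (h : j ≤ i) : Finsupp.single i (1 : ℤ) ∈ Box j := fun k => by
  rw [Finsupp.single_apply]
  split_ifs with e
  · subst e; exact_mod_cast bd_pos h
  · simp

/-- averaging over a finite box -/
noncomputable def av (M : ℕ → ℕ) : ℕ → ((ℕ →₀ ℤ) → ℝ) → ℝ
  | 0, φ => φ 0
  | N + 1, φ => av M N fun c => (∑ s ∈ Finset.range (M N), φ (c + Finsupp.single N (s : ℤ))) / M N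

section av
variable {M : ℕ → ℕ}

lemma av_sub (N : ℕ) (φ ψ : (ℕ →₀ ℤ) → ℝ) :
    av M N (fun c => φ c - ψ c) = av M N φ - av M N ψ := by
  induction N generalizing φ ψ with
  | zero => rfl
  | succ N ih => simp only [av, Finset.sum_sub_distrib, sub_div, ih]

variable (hM : ∀ i, 0 < M i)
include hM

lemma av_bd (N : ℕ) (φ : (ℕ →₀ ℤ) → ℝ) (κ K : ℝ)
    (h : ∀ c : ℕ →₀ ℤ, (∀ i, 0 ≤ c i ∧ c i < M i) → (∀ i, N ≤ i → c i = 0) → |φ c - κ| ≤ K) :
    |av M N φ - κ| ≤ K := by
  induction N generalizing φ with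
  | zero => exact h 0 (fun i => ⟨le_rfl, by simpa using hM i⟩) fun _ _ => rfl
  | succ N ih =>
    refine ih _ fun c h1 h2 => ?_
    have p : (0 : ℝ) < M N := by exact_mod_cast hM N
    have : ∀ s ∈ Finset.range (M N), |φ (c + Finsupp.single N (s : ℤ)) - κ| ≤ K := fun s hs =>
      h _ (fun i => by
        rw [Finsupp.add_apply, Finsupp.single_apply]
        split_ifs with e
        · subst e
          have := Finset.mem_range.1 hs
          rw [h2 _ le_rfl]; omega
        · simpa using h1 i) fun i hi => by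
        rw [Finsupp.add_apply, h2 i (by omega), Finsupp.single_apply, if_neg (by omega)]; rfl
    have h3 := (Finset.abs_sum_le_sum_abs _ _).trans (Finset.sum_le_card_nsmul _ _ _ this)
    rw [Finset.sum_sub_distrib, Finset.sum_const, Finset.card_range, nsmul_eq_mul,
      nsmul_eq_mul] at h3
    rw [div_sub' p.ne', abs_div, abs_of_pos p, div_le_iff₀ p]
    linarith

lemma av_shift (N i : ℕ) (hi : i < N) (φ : (ℕ →₀ ℤ) → ℝ) (K : ℝ) (h : ∀ c, |φ c| ≤ K) :
    |av M N (fun c => φ (c + Finsupp.single i 1)) - av M N φ| ≤ 2 * K / M i := by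
  induction N generalizing φ with
  | zero => omega
  | succ N ih =>
    have p : (0 : ℝ) < M N := by exact_mod_cast hM N
    rcases Nat.lt_succ_iff_lt_or_eq.1 hi with hi | rfl
    · have := ih hi (fun c => (∑ s ∈ Finset.range (M N), φ (c + Finsupp.single N (s : ℤ))) / M N)
        fun c => by
          have h3 := (Finset.abs_sum_le_sum_abs _ _).trans (Finset.sum_le_card_nsmul
            (Finset.range (M N)) _ _ fun s _ => h (c + Finsupp.single N (s : ℤ)))
          rw [Finset.card_range, nsmul_eq_mul] at h3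
          rw [abs_div, abs_of_pos p, div_le_iff₀ p]
          linarith
      simpa only [av, add_right_comm] using this
    · simp only [av]
      rw [← av_sub, ← sub_zero (av _ _ _)]
      refine av_bd hM _ _ _ _ fun c _ _ => ?_
      rw [sub_zero, ← sub_div, ← Finset.sum_sub_distrib, abs_div, abs_of_pos p]
      have := Finset.sum_range_sub (fun s : ℕ => φ (c + Finsupp.single i (s : ℤ))) (M i)
      simp only [Nat.cast_add, Nat.cast_one, Finsupp.single_add, ← add_assoc] at this
      rw [this]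
      gcongr
      linarith [abs_sub (φ (c + Finsupp.single i (M i : ℤ))) (φ (c + Finsupp.single i ((0 : ℕ) : ℤ))),
        h (c + Finsupp.single i (M i : ℤ)), h (c + Finsupp.single i ((0 : ℕ) : ℤ))]

end av

/-- arcs around `1` -/
def Near (η : ℝ) : Set Circle := Circle.exp '' Set.Icc (-η) η

lemma near_exp {η t : ℝ} (h : |t| ≤ η) : Circle.exp t ∈ Near η := ⟨t, abs_le.1 h, rfl⟩

lemma Near.mul {a b : ℝ} {z w : Circle} (h : z ∈ Near a) (h' : w ∈ Near b) :
    z * w ∈ Near (a + b) := by
  obtain ⟨s, ⟨_, _⟩, rfl⟩ := h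
  obtain ⟨t, ⟨_, _⟩, rfl⟩ := h'
  exact ⟨s + t, ⟨by linarith, by linarith⟩, Circle.exp_add _ _⟩

lemma Near.inv {a : ℝ} {z : Circle} (h : z ∈ Near a) : z⁻¹ ∈ Near a := by
  obtain ⟨s, ⟨_, _⟩, rfl⟩ := h
  exact ⟨-s, ⟨by linarith, by linarith⟩, Circle.exp_neg _⟩

lemma Near.mono {a b : ℝ} (h : a ≤ b) : Near a ⊆ Near b :=
  Set.image_mono (Set.Icc_subset_Icc (neg_le_neg h) h)

lemma near_closed (a : ℝ) : IsClosed (Near a) :=
  (isCompact_Icc.image Circle.exp.continuous).isClosed

lemma near_basis : (𝓝 (1 : Circle)).HasBasis (fun η => 0 < η) Near := by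
  rw [← Circle.exp_zero, ← isLocalHomeomorph_circleExp.map_nhds_eq 0]
  refine HasBasis.map _ ?_
  convert Metric.nhds_basis_closedBall (x := (0 : ℝ)) using 2
  simp [Real.closedBall_eq_Icc]

lemma walk {j N : ℕ} (D : (ℕ →₀ ℤ) → Circle) (w : ℕ → ℝ)
    (h : ∀ a i, i < N → j ≤ i → a ∈ Box j → a + Finsupp.single i 1 ∈ Box j →
      D (a + Finsupp.single i 1) / D a ∈ Near (w i)) (q : ℕ →₀ ℤ) (hq : q ∈ Box j)
    (h0 : ∀ i, N ≤ i → q i = 0) :
    D q / D 0 ∈ Near (∑ i ∈ Finset.range N, (|q i| : ℤ) * w i) := by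
  obtain ⟨n, hn⟩ : ∃ n : ℕ, ∑ i ∈ Finset.range N, |q i| = n :=
    ⟨_, (Int.toNat_of_nonneg (Finset.sum_nonneg fun _ _ => abs_nonneg _)).symm⟩
  induction n generalizing q with
  | zero =>
    have : q = 0 := Finsupp.ext fun i => by
      by_cases hi : i < N
      · exact abs_eq_zero.1 ((Finset.sum_eq_zero_iff_of_nonneg fun _ _ => abs_nonneg _).1 hn i
          (Finset.mem_range.2 hi))
      · exact h0 i (not_lt.1 hi)
    subst this
    exact ⟨0, by simp, by simp⟩
  | succ n ih =>
    obtain ⟨i, hi, hqi⟩ := Finset.exists_ne_zero_of_sum_ne_zero (hn ▸ by positivity :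
      ∑ i ∈ Finset.range N, |q i| ≠ 0)
    have ji : j ≤ i := not_lt.1 fun h => hqi (by rw [Box.eq_zero hq h, abs_zero])
    have key : ∀ a : ℕ →₀ ℤ, (∀ k, |q k| = |a k| + if k = i then 1 else 0) →
        (a ∈ Box j → D q / D a ∈ Near (w i)) →
        D q / D 0 ∈ Near (∑ i ∈ Finset.range N, (|q i| : ℤ) * w i) := fun a ha hD => by
      have le : ∀ k, |a k| ≤ |q k| := fun k => by rw [ha]; split_ifs <;> omega
      have aB : a ∈ Box j := fun k => (le k).trans (hq k)
      have := Near.mul (ih a aB (fun k hk => by simpa [h0 k hk] using le k) (by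
        simp only [ha, Finset.sum_add_distrib, Finset.sum_ite_eq', if_pos hi] at hn
        push_cast at hn; omega)) (hD aB)
      rw [mul_comm, div_mul_div_cancel] at this
      convert this using 2
      simp only [ha, Int.cast_add, add_mul, Finset.sum_add_distrib, Int.cast_ite, ite_mul,
        Int.cast_one, Int.cast_zero, one_mul, zero_mul, Finset.sum_ite_eq', if_pos hi]
    have hi' := Finset.mem_range.1 hi
    rcases lt_or_gt_of_ne (abs_ne_zero.1 hqi) with hs | hs
    · refine key (q + Finsupp.single i 1) (fun k => ?_) fun ha => ?_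
      · rw [Finsupp.add_apply, Finsupp.single_apply]
        by_cases e : k = i
        · subst e
          rw [if_pos rfl, abs_of_neg hs, abs_of_nonpos (by omega)]; ring
        · simp [e, Ne.symm e]
      · simpa using Near.inv (h q i hi' ji hq ha)
    · refine key (q - Finsupp.single i 1) (fun k => ?_) fun ha => ?_
      · rw [Finsupp.sub_apply, Finsupp.single_apply]
        by_cases e : k = i
        · subst e
          rw [if_pos rfl, abs_of_pos hs, abs_of_nonneg (by omega)]; ring
        · simp [e, Ne.symm e]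
      · simpa using h _ i hi' ji ha (by simpa using hq)

theorem stab (g : (ℕ →₀ ℤ) → Circle) {η : ℝ} (h0 : 0 ≤ η) (h1 : η ≤ 1) (j : ℕ)
    (hg : ∀ a ∈ Box j, ∀ b ∈ Box j, a + b ∈ Box j → g (a + b) / (g a * g b) ∈ Near η) :
    ∃ ψ : FA →* Circle, ∀ q ∈ Box (j + 2), g q / ψ (Multiplicative.ofAdd q) ∈ Near (5 * η) := by
  have : ∀ a b, ∃ t : ℝ, |t| ≤ η ∧ (a ∈ Box j → b ∈ Box j → a + b ∈ Box j →
      Circle.exp t = g (a + b) / (g a * g b)) := fun a b => by
    by_cases h : a ∈ Box j ∧ b ∈ Box j ∧ a + b ∈ Box j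
    · obtain ⟨t, ht, e⟩ := hg a h.1 b h.2.1 h.2.2
      exact ⟨t, abs_le.2 ht, fun _ _ _ => e⟩
    · exact ⟨0, by simpa, fun a b c => absurd ⟨a, b, c⟩ h⟩
  choose θ θ1 θ2 using this
  let M : ℕ → ℕ := fun i => max 1 (bd i (j + 1))
  have hM : ∀ i, 0 < M i := fun i => lt_max_of_lt_left one_pos
  have mono : Box (j + 1) ⊆ Box j := Box.anti (by omega)
  have key : ∀ N, ∃ z : ℕ → Circle, ∀ q ∈ Box (j + 2), (∀ i, N ≤ i → q i = 0) →
      g q / lift z (Multiplicative.ofAdd q) ∈ Near (5 * η) := fun N => by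
    let h : (ℕ →₀ ℤ) → ℝ := fun a => av M N (θ a)
    have hb : ∀ a, |h a| ≤ η := fun a => by
      simpa using av_bd hM N (θ a) 0 η fun c _ _ => by simpa using θ1 a c
    let g1 : (ℕ →₀ ℤ) → Circle := fun a => g a * Circle.exp (h a)
    let z : ℕ → Circle := fun i => g1 (Finsupp.single i 1)
    refine ⟨z, fun q hq hN => ?_⟩
    have := walk (j := j + 1) (N := N) (fun a => g1 a / lift z (Multiplicative.ofAdd a))
      (fun i => 2 * η / M i) (fun a i hi ji ha ha' => by
        have he : Finsupp.single i (1 : ℤ) ∈ Box (j + 1) := Box.single ji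
        have e1 := av_bd hM N (fun c => θ (a + Finsupp.single i 1) c - θ (Finsupp.single i 1) c -
          θ a (c + Finsupp.single i 1)) (- θ a (Finsupp.single i 1)) 0 fun c hc _ => by
            have c2 : c + Finsupp.single i 1 ∈ Box (j + 1) := fun k => by
              have h1 := hc k
              have h2 := bd_pos ji
              rw [Finsupp.add_apply, Finsupp.single_apply]
              split_ifs with e
              · subst e
                simp only [M] at h1
                rw [abs_of_nonneg (by omega)]; omega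
              · simp only [M] at h1
                rw [abs_of_nonneg (by omega)]; omega
            have c1 : c ∈ Box (j + 1) := fun k => by
              have h1 := hc k
              simp only [M] at h1
              rw [abs_of_nonneg (by omega)]; omega
            have s1 := θ2 _ _ (mono ha') (mono c1) (Box.add ha' c1)
            have s2 := θ2 _ _ (mono he) (mono c1) (Box.add he c1)
            have s3 := θ2 _ _ (mono ha) (mono c2) (Box.add ha c2)
            have s4 := θ2 _ _ (mono ha) (mono he) (mono ha')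
            have : Circle.exp (θ (a + Finsupp.single i 1) c + θ a (Finsupp.single i 1)) =
                Circle.exp (θ (Finsupp.single i 1) c + θ a (c + Finsupp.single i 1)) := by
              rw [Circle.exp_add, Circle.exp_add, s1, s2, s3, s4, add_comm c, add_assoc]
              apply Additive.ofMul.injective
              simp only [ofMul_mul, ofMul_div]
              abel
            have b1 := abs_le.1 (θ1 (a + Finsupp.single i 1) c)
            have b2 := abs_le.1 (θ1 a (Finsupp.single i 1))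
            have b3 := abs_le.1 (θ1 (Finsupp.single i 1) c)
            have b4 := abs_le.1 (θ1 a (c + Finsupp.single i 1))
            have := Circle.exp_injOn_Icc (a := -2) (b := 2) (by linarith [Real.pi_gt_three])
              ⟨by linarith, by linarith⟩ ⟨by linarith, by linarith⟩ this
            rw [abs_nonpos_iff]; linarith
        rw [av_sub, av_sub, abs_nonpos_iff] at e1
        have e2 := av_shift hM N i hi (θ a) η (θ1 a)
        convert near_exp e2 using 1
        have : av M N (fun c => θ a (c + Finsupp.single i 1)) - av M N (θ a) =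
            θ a (Finsupp.single i 1) + h (a + Finsupp.single i 1) - h (Finsupp.single i 1) - h a := by
          simp only [h]; linarith
        rw [this, Circle.exp_sub, Circle.exp_sub, Circle.exp_add,
          θ2 _ _ (mono ha) (mono he) (mono ha'), ofAdd_add, map_mul, lift_single, zpow_one]
        simp only [z, g1]
        apply Additive.ofMul.injective
        simp only [ofMul_mul, ofMul_div]
        abel) q (Box.anti (by omega) hq) hN
    have s : ∑ i ∈ Finset.range N, (|q i| : ℤ) * (2 * η / M i) ≤ 2 * η := by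
      have a1 : ∀ n : ℕ, ∑ i ∈ Finset.range n, 2 * η / 2 ^ (i + 1) = 2 * η - 2 * η / 2 ^ n :=
        fun n => by
          induction n with
          | zero => simp
          | succ n ih => rw [Finset.sum_range_succ, ih]; field_simp; ring
      refine (Finset.sum_le_sum fun i _ => ?_).trans ((a1 N).trans_le (sub_le_self _ (by positivity)))
      have p : (0 : ℝ) < M i := by exact_mod_cast hM i
      have a2 : (2 : ℤ) ^ (i + 1) * |q i| ≤ M i := by
        have a3 : (2 : ℤ) ^ (i + 1) * bd i (j + 2) ≤ bd i (j + 1) := by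
          exact_mod_cast bd_succ i (j + 1)
        have a4 : (bd i (j + 1) : ℤ) ≤ M i := by exact_mod_cast le_max_right _ _
        exact (mul_le_mul_of_nonneg_left (hq i) (by positivity)).trans (a3.trans a4)
      have a2 : (2 : ℝ) ^ (i + 1) * (|q i| : ℤ) ≤ M i := by exact_mod_cast a2
      rw [mul_div_assoc', div_le_div_iff₀ p (by positivity)]
      nlinarith
    have t := Near.mul (Near.mul (Near.mul (Near.mono s this) (near_exp (hb 0)))
      (Near.inv (near_exp (hb q)))) (Near.inv (hg 0 (Box.zero j) 0 (Box.zero j) (by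
        simpa using Box.zero j)))
    convert t using 1
    · congr 1; ring
    · simp only [g1, ofAdd_zero, map_one, add_zero]
      apply Additive.ofMul.injective
      simp only [ofMul_mul, ofMul_div, ofMul_inv, ofMul_one]
      abel
  choose z hz using key
  obtain ⟨y, -, hy⟩ := isCompact_univ.ultrafilter_le_nhds ((hyperfilter ℕ).map z) (by simp)
  refine ⟨lift y, fun q hq => (near_closed _).mem_of_tendsto (b := hyperfilter ℕ)
    (f := fun N => g q / lift (z N) (Multiplicative.ofAdd q)) ?_ ?_⟩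
  · have : Continuous fun z : ℕ → Circle => g q / lift z (Multiplicative.ofAdd q) := by
      change Continuous fun z : ℕ → Circle => g q / ∏ n ∈ q.support, z n ^ q n
      fun_prop
    exact (this.tendsto y).comp hy
  · obtain ⟨k, hk⟩ := q.support.bddAbove
    filter_upwards [(Nat.cofinite_eq_atTop ▸ hyperfilter_le_cofinite) (eventually_gt_atTop k)]
      with N hN
    exact hz N q hq fun i hi => Finsupp.notMem_support_iff.1 fun h => by
      have := hk h; omega

variable {G : Type} [CommGroup G] [TopologicalSpace G] [IsTopologicalGroup G]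

lemma half {U : Set G} (hU : U ∈ 𝓝 (1 : G)) :
    ∃ V ∈ 𝓝 (1 : G), IsClosed V ∧ V⁻¹ = V ∧ V * V ⊆ U ∧ V ⊆ U := by
  obtain ⟨V, h1, h0, h2, h3⟩ := exists_closed_nhds_one_inv_eq_mul_subset hU
  exact ⟨V, h1, h0, h2, h3, fun x hx =>
    h3 (by simpa using Set.mul_mem_mul hx (mem_of_mem_nhds h1))⟩

theorem ac [T2Space G] {K : Subgroup G} (hK : IsCompact (K : Set G)) {O : Set G}
    (hO : O ∈ 𝓝 (1 : G)) : ∃ U ∈ 𝓝 (1 : G), ∀ (Φ : FA →* G) (j : ℕ),
      (∀ c ∈ Box j, Φ (Multiplicative.ofAdd c) ∈ (K : Set G) * U) →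
      ∃ T ∈ bohr FA, ∀ c ∈ Box (j + 2), Multiplicative.ofAdd c ∈ T →
        Φ (Multiplicative.ofAdd c) ∈ O := by
  have : CompactSpace K := isCompact_iff_compactSpace.1 hK
  obtain ⟨O1, a1, -, -, a2, -⟩ := half hO
  have e : IsInducing fun (x : K) (χ : K →ₜ* Circle) => χ x :=
    (Continuous.isClosedEmbedding (continuous_pi fun χ => map_continuous χ) fun x y hxy => by
      by_contra hne
      obtain ⟨χ, hχ⟩ := Dual.sepChar (x := x⁻¹ * y) fun e => hne (inv_mul_eq_one.1 e)
      exact hχ (by rw [map_mul, map_inv, show χ x = χ y from congrFun hxy χ, inv_mul_cancel])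
      ).isInducing
  have := continuous_subtype_val.tendsto' (1 : K) 1 rfl a1
  rw [e.nhds_eq_comap, nhds_pi] at this
  obtain ⟨P, hP, hPO⟩ := this
  obtain ⟨S, fS, t, ht, hSP⟩ := mem_pi.1 hP
  obtain ⟨δ, d0, hδ⟩ := near_basis.mem_iff.1 ((biInter_mem fS).2 fun χ _ =>
    show t χ ∈ 𝓝 (1 : Circle) by simpa using ht χ)
  set η := min (δ / 6) 1
  have e0 : 0 < η := lt_min (by positivity) one_pos
  have : (⋂ χ ∈ S, χ ⁻¹' Near η) ∈ 𝓝 (1 : K) := (biInter_mem fS).2 fun χ _ =>
    (map_continuous χ).tendsto' 1 1 (map_one χ) (near_basis.mem_of_mem e0)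
  rw [nhds_subtype] at this
  obtain ⟨U2, b1, b2⟩ := this
  obtain ⟨U1, c1, -, -, c2, -⟩ := half (inter_mem b1 a1)
  obtain ⟨U, d1, -, d2, d3, d4⟩ := half c1
  refine ⟨U, d1, fun Φ j hΦ => ?_⟩
  have : ∀ c, ∃ k : K, c ∈ Box j → (k : G)⁻¹ * Φ (Multiplicative.ofAdd c) ∈ U := fun c => by
    by_cases hc : c ∈ Box j
    · obtain ⟨k, hk, u, hu, e⟩ := hΦ c hc
      exact ⟨⟨k, hk⟩, fun _ => by rw [← e]; simpa using hu⟩
    · exact ⟨1, fun h => absurd h hc⟩
  choose f hf using this
  have : ∀ χ : S, ∃ ψ : FA →* Circle, ∀ q ∈ Box (j + 2),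
      χ.1 (f q) / ψ (Multiplicative.ofAdd q) ∈ Near (5 * η) := fun χ =>
    stab (fun q => χ.1 (f q)) e0.le (min_le_right _ _) j fun a ha b hb hab => by
      rw [← map_mul, ← map_div]
      refine Set.mem_iInter₂.1 (b2 (c2 ?_).1) χ.1 χ.2
      convert Set.mul_mem_mul (d3 (Set.mul_mem_mul (hf a ha) (hf b hb)))
        (d4 (d2 ▸ Set.inv_mem_inv.2 (hf _ hab))) using 1
      rw [ofAdd_add, map_mul]
      push_cast
      apply Additive.ofMul.injective
      simp only [ofMul_mul, ofMul_div, ofMul_inv]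
      abel
  choose ψ hψ using this
  have := fS.to_subtype
  refine ⟨⋂ χ, ψ χ ⁻¹' Near η, iInter_mem.2 fun χ => mem_iInf_of_mem (ψ χ)
    (preimage_mem_comap (near_basis.mem_of_mem e0)), fun c hc hT => ?_⟩
  have h1 : (f c : G) ∈ O1 := hPO (hSP fun χ hχ => Set.mem_iInter₂.1 (hδ (by
    have := Near.mul (hψ ⟨χ, hχ⟩ c hc) (Set.mem_iInter.1 hT ⟨χ, hχ⟩)
    rw [div_mul_cancel] at this
    exact Near.mono (by linarith [min_le_left (δ / 6) 1]) this)) χ hχ)
  have h2 := d4 (hf c (Box.anti (by omega) hc))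
  have := a2 (Set.mul_mem_mul h1 (c2 (Set.mul_mem_mul h2 (mem_of_mem_nhds c1))).2)
  rwa [mul_one, mul_inv_cancel_left] at this

end Pool.Agent.H71.LPS
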