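import Mathlib
import Pool.Agent.H71.LPS1

/-! A local form of the Prodanov-Stoyanov theorem: combinatorial part. -/

namespace Pool.Agent.H71.LPS

open Filter Topology _root_.Pool.Agent.H71.PS
open scoped Pointwise

variable {G : Type} [CommGroup G]

/-- chains of symmetric sets -/
structure Chain (V : ℕ → Set G) : Prop where
  one : ∀ n, 1 ∈ V n
  inv : ∀ n, ∀ x ∈ V n, x⁻¹ ∈ V n
  mul : ∀ n, ∀ x ∈ V (n + 1), ∀ y ∈ V (n + 1), x * y ∈ V n

/-- local boundedness of `r`-th powers modulo `m`-th powers -/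
def LB (V : ℕ → Set G) (r m l : ℕ) (Q : Set G) : Prop :=
  ∃ n, ∃ F : Finset G, ∀ x ∈ V n, ∃ f ∈ F, ∃ y ∈ V l, ∃ u ∈ Q, x ^ r = f * y ^ m * u

variable {V : ℕ → Set G}

lemma LB.mono {r m l : ℕ} {Q Q' : Set G} (h : LB V r m l Q) (hQ : Q ⊆ Q') : LB V r m l Q' := by
  obtain ⟨n, F, hF⟩ := h
  refine ⟨n, F, fun x hx => ?_⟩
  obtain ⟨f, h1, y, h2, u, h3, e⟩ := hF x hx
  exact ⟨f, h1, y, h2, u, hQ h3, e⟩

lemma LB.trans {a b c l : ℕ} {Q Q' : Set G} (h : ∀ l, LB V a b l Q) (h' : LB V b c l Q') :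
    LB V a c l (Q' * Q) := by
  classical
  obtain ⟨n', F', hF'⟩ := h'
  obtain ⟨n, F, hF⟩ := h n'
  refine ⟨n, F * F', fun x hx => ?_⟩
  obtain ⟨f, h1, y, h2, u, h3, e⟩ := hF x hx
  obtain ⟨f', h1', z, h2', u', h3', e'⟩ := hF' y h2
  exact ⟨_, Finset.mul_mem_mul h1 h1', z, h2', _, Set.mul_mem_mul h3' h3, by
    rw [e, e']; simp only [mul_assoc]⟩

variable (hV : Chain V)
include hV

lemma Chain.anti : Antitone V := antitone_nat_of_succ_le fun n x hx => by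
  simpa using hV.mul n x hx 1 (hV.one _)

lemma Chain.pow {b n c : ℕ} {x : G} (hx : x ∈ V (n + b)) (hc : c ≤ b) : x ^ c ∈ V n := by
  induction b generalizing n c with
  | zero => simpa [Nat.le_zero.1 hc] using hV.one n
  | succ b ih =>
    rcases c with _ | c
    · simpa using hV.one n
    · rw [pow_succ]
      exact hV.mul n _ (ih (by rwa [add_right_comm]) (by omega)) _ (hV.anti (by omega) hx)

lemma Chain.zpow {b n : ℕ} {c : ℤ} {x : G} (hx : x ∈ V (n + b)) (hc : |c| ≤ b) : x ^ c ∈ V n := by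
  have := hV.pow hx (c := c.natAbs) (by rw [Int.abs_eq_natAbs] at hc; omega)
  rcases Int.natAbs_eq c with e | e
  · rwa [e, zpow_natCast]
  · rw [e, zpow_neg, zpow_natCast]; exact hV.inv _ _ this

lemma Chain.prod {j : ℕ} {y : ℕ → G} (h1 : ∀ i, y i ∈ V (i + 1)) (h0 : ∀ i < j, y i = 1) (N : ℕ) :
    ∀ z ∈ V (max j N), (∏ i ∈ Finset.range N, y i) * z ∈ V j := by
  induction N with
  | zero => simp
  | succ N ih =>
    intro z hz
    rw [Finset.prod_range_succ, mul_assoc]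
    refine ih _ ?_
    rcases lt_or_ge N j with h | h
    · rw [h0 N h, one_mul]; exact hV.anti (by omega) hz
    · rw [max_eq_right h]; exact hV.mul _ _ (h1 N) _ (hV.anti (by omega) hz)

lemma Chain.lift {d : ℕ → G} (hd : ∀ n, d n ∈ V (n + 1 + bd n 0)) {j : ℕ} {c : ℕ →₀ ℤ}
    (hc : c ∈ Box j) : lift d (Multiplicative.ofAdd c) ∈ V j := by
  obtain ⟨k, hk⟩ := c.support.bddAbove
  have e : PS.lift d (Multiplicative.ofAdd c) = ∏ i ∈ Finset.range (k + 1), d i ^ c i :=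
    Finsupp.prod_of_support_subset _ (fun i hi => Finset.mem_range.2 (Nat.lt_succ_of_le (hk hi)))
      _ fun _ _ => zpow_zero _
  have := hV.prod (j := j) (y := fun i => d i ^ c i)
    (fun i => hV.zpow (hd i) (Box.anti (Nat.zero_le j) hc i))
    (fun i hi => by rw [Box.eq_zero hc hi, zpow_zero]) (k + 1) 1 (hV.one _)
  rwa [mul_one, ← e] at this

lemma Chain.neumann {ι : Type} (s : Finset ι) (S : ι → Set G) (n : ℕ) (F : Finset G)
    (h : ∀ x ∈ V n, ∃ i ∈ s, ∃ f ∈ F, f⁻¹ * x ∈ S i) :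
    ∃ i ∈ s, ∃ n, ∃ F : Finset G, ∀ x ∈ V n, ∃ f ∈ F, f⁻¹ * x ∈ S i / S i := by
  classical
  induction s using Finset.induction_on generalizing n F with
  | empty => simpa using h 1 (hV.one n)
  | insert a s _ ih =>
    by_cases ha : ∃ n, ∃ F : Finset G, ∀ x ∈ V n, ∃ f ∈ F, f⁻¹ * x ∈ S a / S a
    · exact ⟨a, by simp, ha⟩
    push Not at ha
    obtain ⟨x, hx, ha⟩ := ha (n + 1) (F / F)
    obtain ⟨i, hi, h'⟩ := ih (n + 1) (F ∪ F.image (x⁻¹ * ·)) fun y hy => by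
      obtain ⟨i, hi, f, hf, h1⟩ := h y (hV.anti (by omega) hy)
      obtain ⟨i', hi', f', hf', h2⟩ := h _ (hV.mul n x hx y hy)
      rcases Finset.mem_insert.1 hi with rfl | hi
      · rcases Finset.mem_insert.1 hi' with rfl | hi'
        · refine absurd ?_ (ha _ (Finset.div_mem_div hf' hf))
          convert Set.div_mem_div h2 h1 using 1
          apply Additive.ofMul.injective
          simp only [ofMul_mul, ofMul_div, ofMul_inv]
          abel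
        · refine ⟨i', hi', _, Finset.mem_union_right _ (Finset.mem_image_of_mem _ hf'), ?_⟩
          rwa [mul_inv_rev, inv_inv, mul_assoc]
      · exact ⟨i, hi, f, Finset.mem_union_left _ hf, h1⟩
    exact ⟨i, Finset.mem_insert_of_mem hi, h'⟩

lemma Chain.step (E : ℕ → ℕ → Prop) (v : ℕ → ℕ → Set G) (l : ℕ → ℕ → ℕ)
    (hv : ∀ r m, E r m → ¬ LB V r m (l r m) (v r m / v r m)) (F : Finset G) (n R : ℕ) :
    ∃ x ∈ V n, ∀ r ≤ R, ∀ m ≤ R, E r m → ∀ f ∈ F, ∀ y ∈ V (l r m + 1),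
      f * x ^ r * y ^ m ∉ v r m := by
  classical
  by_contra hc
  push Not at hc
  obtain ⟨⟨r, m, f⟩, -, n', T, hT⟩ := hV.neumann
    (Finset.range (R + 1) ×ˢ Finset.range (R + 1) ×ˢ F)
    (fun i => {x | E i.1 i.2.1 ∧ ∃ y ∈ V (l i.1 i.2.1 + 1),
      i.2.2 * x ^ i.1 * y ^ i.2.1 ∈ v i.1 i.2.1}) n {1} fun x hx => by
      obtain ⟨r, h1, m, h2, h3, f, h4, y, h5, h6⟩ := hc x hx
      exact ⟨(r, m, f), by simp [h1, h2, h4], 1, by simp, h3, y, h5, by simpa using h6⟩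
  obtain ⟨-, -, -, ⟨hE, -⟩, -⟩ := hT 1 (hV.one _)
  refine hv r m hE ⟨n', T.image fun g => g ^ r, fun x hx => ?_⟩
  obtain ⟨g, hg, a, ⟨-, y, hy, h1⟩, a', ⟨-, y', hy', h2⟩, e⟩ := hT x hx
  refine ⟨_, Finset.mem_image_of_mem _ hg, y' * y⁻¹, hV.mul _ _ hy' _ (hV.inv _ _ hy), _,
    Set.div_mem_div h1 h2, ?_⟩
  have : x = g * (a / a') := by
    have : a / a' = g⁻¹ * x := e
    rw [this]; simp
  simp only [this, mul_pow, div_pow, inv_pow]
  apply Additive.ofMul.injective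
  simp only [ofMul_mul, ofMul_div, ofMul_inv]
  abel

lemma Chain.exists_d (E : ℕ → ℕ → Prop) (v : ℕ → ℕ → Set G) (l : ℕ → ℕ → ℕ)
    (hv : ∀ r m, E r m → ¬ LB V r m (l r m) (v r m / v r m)) :
    ∃ d : ℕ → G, (∀ n, d n ∈ V (n + 1 + bd n 0)) ∧ ∀ n, ∀ r ≤ bd n 0, ∀ m ≤ bd n 0, E r m →
      ∀ c : ℕ → ℤ, (∀ i < n, |c i| ≤ bd n 0) → ∀ y ∈ V (l r m + 1),
        (∏ i ∈ Finset.range n, d i ^ c i) * d n ^ r * y ^ m ∉ v r m := by
  classical
  choose s s1 s2 using fun (n : ℕ) (e : ℕ → G) => hV.step E v l hv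
    ((Fintype.piFinset fun _ : Fin n => Finset.Icc (-(bd n 0 : ℤ)) (bd n 0)).image
      fun c => ∏ i : Fin n, e i ^ c i) (n + 1 + bd n 0) (bd n 0)
  refine ⟨PS.seq s, fun n => by rw [PS.seq]; exact s1 _ _, fun n r hr m hm hE c hc y hy => ?_⟩
  rw [PS.seq.eq_1 s n]
  refine s2 n _ r hr m hm hE _ (Finset.mem_image.2 ⟨fun i => c i, ?_, ?_⟩) y hy
  · exact Fintype.mem_piFinset.2 fun i => Finset.mem_Icc.2 (abs_le.1 (hc i i.2))
  · rw [← Fin.prod_univ_eq_prod_range (fun i => PS.seq s i ^ c i)]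
    simp

omit hV in
lemma bd_mono : Monotone fun n => bd n 0 := fun a b h => by
  simp only [bd, Nat.not_lt_zero, if_false, Nat.sub_zero]
  gcongr
  · exact Nat.one_le_two_pow
  · norm_num

omit hV in
lemma le_bd (n : ℕ) : n ≤ bd n 0 := by
  simp only [bd, Nat.not_lt_zero, if_false, Nat.sub_zero]
  exact (Nat.lt_pow_self (Nat.one_lt_two_pow (by omega))).le

section
variable {E : ℕ → ℕ → Prop} {v : ℕ → ℕ → Set G} {l : ℕ → ℕ → ℕ} {d : ℕ → G}
  (hd : ∀ n, d n ∈ V (n + 1 + bd n 0))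
  (h : ∀ n, ∀ r ≤ bd n 0, ∀ m ≤ bd n 0, E r m →
      ∀ c : ℕ → ℤ, (∀ i < n, |c i| ≤ bd n 0) → ∀ y ∈ V (l r m + 1),
        (∏ i ∈ Finset.range n, d i ^ c i) * d n ^ r * y ^ m ∉ v r m)
include h

lemma Chain.ind {W : Set G} (hW : W⁻¹ = W) {m n : ℕ} {c : ℕ →₀ ℤ} (h0 : ∀ i, n < i → c i = 0)
    (hb : ∀ i ≤ n, |c i| ≤ bd n 0) (hm : m ≤ n) (hE : E (c n).natAbs m)
    (hv : W ⊆ v (c n).natAbs m) {y : G} (hy : y ∈ V (l (c n).natAbs m + 1)) :
    PS.lift d (Multiplicative.ofAdd c) * y ^ m ∉ W := by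
  have e : PS.lift d (Multiplicative.ofAdd c) =
      (∏ i ∈ Finset.range n, d i ^ c i) * d n ^ c n := by
    rw [← Finset.prod_range_succ (fun i => d i ^ c i)]
    exact Finsupp.prod_of_support_subset _ (fun i hi => Finset.mem_range.2 (Nat.lt_succ_of_le
      (not_lt.1 fun h => Finsupp.mem_support_iff.1 hi (h0 i h)))) _ fun _ _ => zpow_zero _
  have hr : (c n).natAbs ≤ bd n 0 := by have := hb n le_rfl; rw [Int.abs_eq_natAbs] at this; omega
  have hb' : ∀ i < n, |c i| ≤ bd n 0 := fun i hi => hb i hi.le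
  have hm' := hm.trans (le_bd n)
  intro hc
  rcases Int.natAbs_eq (c n) with e' | e'
  · refine h n _ hr m hm' hE c hb' y hy (hv ?_)
    rwa [← zpow_natCast, ← e', ← e]
  · refine h n _ hr m hm' hE (fun i => - c i) (by simpa using hb') y⁻¹ (hV.inv _ _ hy) (hv ?_)
    rw [← hW, Set.mem_inv]
    rw [e, e', zpow_neg, zpow_natCast] at hc
    simpa only [zpow_neg, Finset.prod_inv_distrib, mul_inv, inv_inv, inv_pow] using hc

omit hV h in
lemma Box.ediv {j : ℕ} {c : ℕ →₀ ℤ} (hc : c ∈ Box j) (m : ℕ) :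
    c.mapRange (· / (m : ℤ)) (by simp) ∈ Box j := fun i =>
  (Int.abs_ediv_le_abs _ _).trans (hc i)

include hd

lemma Chain.dvd {W : Set G} (hW : W⁻¹ = W) {m j : ℕ}
    (hm : ∀ r, 0 < r → (m = 0 ∨ r < m) → E r m ∧ W ⊆ v r m ∧ l r m < j) (mj : m ≤ j)
    {c : ℕ →₀ ℤ} (hb : c ∈ Box j) (hc : PS.lift d (Multiplicative.ofAdd c) ∈ W) (i : ℕ) :
    (m : ℤ) ∣ c i := by
  let a : ℕ →₀ ℤ := c.mapRange (· % m) (by simp)
  let q : ℕ →₀ ℤ := c.mapRange (· / m) (by simp)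
  have aa : ∀ i, a i = c i % m := fun _ => rfl
  have e : Multiplicative.ofAdd c = Multiplicative.ofAdd a * Multiplicative.ofAdd q ^ m := by
    rw [← ofAdd_nsmul, ← ofAdd_add]
    congr 1
    ext i
    simp [a, q, Int.emod_add_mul_ediv]
  by_contra hn
  have ne : a.support.Nonempty :=
    ⟨i, Finsupp.mem_support_iff.2 fun e => hn (Int.dvd_of_emod_eq_zero e)⟩
  set n := a.support.max' ne
  have an : a n ≠ 0 := Finsupp.mem_support_iff.1 (a.support.max'_mem ne)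
  have mn : j ≤ n := not_lt.1 fun h => an (by rw [aa, Box.eq_zero hb h]; simp)
  have lt : m ≠ 0 → ∀ i, 0 ≤ a i ∧ a i < m := fun h i =>
    ⟨Int.emod_nonneg _ (by exact_mod_cast h), Int.emod_lt_of_pos _ (by omega)⟩
  obtain ⟨hE, hv, hl⟩ := hm (a n).natAbs (Int.natAbs_pos.2 an) (by
    by_cases h : m = 0
    · exact Or.inl h
    · have := lt h n; omega)
  refine hV.ind h hW (c := a) (n := n) (fun i hi => by
    by_contra h'
    exact absurd (a.support.le_max' i (Finsupp.mem_support_iff.2 h')) (not_le.2 hi))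
    (fun i hi => ?_) (by omega) hE hv (hV.anti hl (hV.lift hd (Box.ediv hb m)))
    (by rwa [← map_pow, ← map_mul, ← e])
  by_cases h : m = 0
  · rw [aa, h, Nat.cast_zero, Int.emod_zero]
    exact (Box.anti (Nat.zero_le j) hb i).trans (by exact_mod_cast bd_mono hi)
  · have := lt h i
    have := le_bd n
    rw [abs_of_nonneg (by omega)]; omega

end

lemma Chain.lb_zero {r l : ℕ} {Q : Set G} (h : LB V r 0 0 Q) : LB V r 0 l Q := by
  obtain ⟨n, F, hF⟩ := h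
  refine ⟨n, F, fun x hx => ?_⟩
  obtain ⟨f, h1, y, -, u, h3, e⟩ := hF x hx
  exact ⟨f, h1, 1, hV.one _, u, h3, by simpa using e⟩

variable [τ : TopologicalSpace G] [IsTopologicalGroup G]

omit hV in
/-- multiplication by `r` is locally precompact modulo `m` -/
def B (V : ℕ → Set G) (r m : ℕ) : Prop := ∀ l, ∀ Q ∈ 𝓝 (1 : G), LB V r m l Q

omit hV in
lemma B.trans {a b c : ℕ} (h : B V a b) (h' : B V b c) : B V a c := fun l Q hQ => by
  obtain ⟨U, h1, -, -, h2, -⟩ := half hQ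
  exact (LB.trans (fun l => h l U h1) (h' l U h1)).mono h2

omit [IsTopologicalGroup G] in
lemma Chain.b_mul (k a : ℕ) : B V (k * a) k := fun l _ hQ =>
  ⟨l + a, {1}, fun x hx => ⟨1, by simp, x ^ a, hV.pow hx le_rfl, 1, mem_of_mem_nhds hQ, by
    simp [← pow_mul, mul_comm]⟩⟩

lemma Chain.b_sub {a s m : ℕ} (h : B V (a + s) m) (h' : B V a m) : B V s m := fun l Q hQ => by
  classical
  obtain ⟨U, h1, -, h3, h2, -⟩ := half hQ
  obtain ⟨n, F, hF⟩ := h (l + 1) U h1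
  obtain ⟨n', F', hF'⟩ := h' (l + 1) U h1
  refine ⟨max n n', F / F', fun x hx => ?_⟩
  obtain ⟨f, a1, y, a2, u, a3, e⟩ := hF x (hV.anti (le_max_left _ _) hx)
  obtain ⟨f', b1, y', b2, u', b3, e'⟩ := hF' x (hV.anti (le_max_right _ _) hx)
  refine ⟨_, Finset.div_mem_div a1 b1, _, hV.mul _ _ a2 _ (hV.inv _ _ b2), _,
    h2 (Set.mul_mem_mul a3 (h3 ▸ Set.inv_mem_inv.2 b3)), ?_⟩
  rw [pow_add, e', mul_comm, ← eq_div_iff_mul_eq'] at e
  rw [e, mul_pow, inv_pow]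
  apply Additive.ofMul.injective
  simp only [ofMul_mul, ofMul_div, ofMul_inv]
  abel

lemma Chain.exists_k {m : ℕ} (hm : 0 < m) :
    ∃ k, (0 < k ∧ ∀ r, B V r k → k ∣ r) ∧ B V k m := by
  classical
  have ex : ∃ r, 0 < r ∧ B V r m := ⟨m, hm, by simpa using hV.b_mul m 1⟩
  obtain ⟨k0, k1⟩ := Nat.find_spec ex
  refine ⟨_, ⟨k0, fun r hr => Nat.dvd_of_mod_eq_zero ?_⟩, k1⟩
  by_contra hne
  refine Nat.find_min ex (Nat.mod_lt r k0) ⟨Nat.pos_of_ne_zero hne, hV.b_sub ?_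
    ((hV.b_mul _ (r / Nat.find ex)).trans k1)⟩
  rw [Nat.div_add_mod]
  exact hr.trans k1

lemma Chain.exists_v : ∃ (v : ℕ → ℕ → Set G) (l : ℕ → ℕ → ℕ), (∀ r m, v r m ∈ 𝓝 (1 : G)) ∧
    (∀ r m, ¬ B V r m → ¬ LB V r m (l r m) (v r m / v r m)) ∧ (∀ r, l r 0 = 0) ∧
    ((∃ U ∈ 𝓝 (1 : G), ∀ r, 0 < r → ¬ LB V r 0 0 U) →
      ∃ W ∈ 𝓝 (1 : G), ∀ r, 0 < r → W ⊆ v r 0) := by
  classical
  have half : ∀ U ∈ 𝓝 (1 : G), ∃ V ∈ 𝓝 (1 : G), V / V ⊆ U := fun U hU => by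
    obtain ⟨V, hV, h⟩ := exists_nhds_split_inv hU
    exact ⟨V, hV, by rintro _ ⟨a, ha, b, hb, rfl⟩; exact h a ha b hb⟩
  have : ∀ r m, ∃ w ∈ 𝓝 (1 : G), ∃ l, (¬ B V r m → ¬ LB V r m l (w / w)) ∧ (m = 0 → l = 0) :=
    fun r m => by
    by_cases h : B V r m
    · exact ⟨_, univ_mem, 0, fun h' => absurd h h', fun _ => rfl⟩
    · simp only [B, not_forall] at h
      obtain ⟨l, U, hU, h⟩ := h
      obtain ⟨W, hW, h'⟩ := half U hU
      by_cases hm : m = 0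
      · subst hm
        exact ⟨W, hW, 0, fun _ hb => h ((hV.lb_zero hb).mono h'), fun _ => rfl⟩
      · exact ⟨W, hW, l, fun _ hb => h (hb.mono h'), fun h => absurd h hm⟩
  choose w w1 l w2 w3 using this
  by_cases h : ∃ U ∈ 𝓝 (1 : G), ∀ r, 0 < r → ¬ LB V r 0 0 U
  · obtain ⟨U, hU, h⟩ := h
    obtain ⟨W, hW, h'⟩ := half U hU
    refine ⟨fun r m => if m = 0 ∧ 0 < r then W else w r m, l, fun r m => ?_, fun r m hE => ?_,
      fun r => w3 r 0 rfl, fun _ => ⟨W, hW, fun r hr => by simp [hr]⟩⟩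
    · beta_reduce
      split_ifs
      exacts [hW, w1 r m]
    · beta_reduce
      split_ifs with hc
      · obtain ⟨rfl, hr⟩ := hc
        rw [w3 r 0 rfl]
        exact fun hb => h r hr (hb.mono h')
      · exact w2 r m hE
  · exact ⟨w, l, w1, w2, fun r => w3 r 0 rfl, fun h' => absurd h' h⟩

omit hV

/-- completeness, in terms of ultrafilters -/
def Cpl (G : Type) [CommGroup G] [TopologicalSpace G] : Prop :=
  ∀ 𝓤 : Ultrafilter G, (∀ Q ∈ 𝓝 (1 : G), ∃ f, {x | f⁻¹ * x ∈ Q} ∈ 𝓤) → ∃ x : G, ↑𝓤 ≤ 𝓝 x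

lemma cpt (hc : Cpl G) {ι : Type} [Nonempty ι] (S : ι → Set G) (dir : Directed (· ≥ ·) S)
    (one : ∀ i, 1 ∈ S i) (mul : ∀ i, ∃ j, ∀ x ∈ S j, ∀ y ∈ S j, x * y ∈ S i)
    (inv : ∀ i, ∀ x ∈ S i, x⁻¹ ∈ S i)
    (tb : ∀ Q ∈ 𝓝 (1 : G), ∃ i, ∃ F : Finset G, ∀ x ∈ S i, ∃ f ∈ F, f⁻¹ * x ∈ Q) :
    ∃ C : Subgroup G, IsCompact (C : Set G) ∧ (∀ Q ∈ 𝓝 (1 : G), ∃ i, S i ⊆ (C : Set G) * Q) ∧
      ∀ i, (C : Set G) ⊆ closure (S i) := by
  let C : Subgroup G :=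
    { carrier := ⋂ i, closure (S i)
      one_mem' := Set.mem_iInter.2 fun i => subset_closure (one i)
      mul_mem' := fun ha hb => Set.mem_iInter.2 fun i => by
        obtain ⟨j, hj⟩ := mul i
        exact map_mem_closure₂ continuous_mul (Set.mem_iInter.1 ha j) (Set.mem_iInter.1 hb j) hj
      inv_mem' := fun ha => Set.mem_iInter.2 fun i =>
        map_mem_closure continuous_inv (Set.mem_iInter.1 ha i) (inv i) }
  have key : ∀ 𝓤 : Ultrafilter G, (∀ i, closure (S i) ∈ 𝓤) → ∃ x ∈ C, ↑𝓤 ≤ 𝓝 x := fun 𝓤 h => by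
    obtain ⟨x, hx⟩ := hc 𝓤 fun Q hQ => by
      obtain ⟨Q', a1, a2, -, -, a3⟩ := half hQ
      obtain ⟨i, F, hF⟩ := tb Q' a1
      have : closure (S i) ⊆ ⋃ f ∈ F, {x | f⁻¹ * x ∈ Q'} := closure_minimal (fun x hx => by
        simpa using hF x hx) (isClosed_biUnion_finset fun f _ => a2.preimage (by fun_prop))
      obtain ⟨f, -, hf⟩ := (Ultrafilter.finite_biUnion_mem_iff F.finite_toSet).1
        (mem_of_superset (h i) this)
      exact ⟨f, mem_of_superset hf fun x hx => a3 hx⟩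
    exact ⟨x, Set.mem_iInter.2 fun i => isClosed_closure.mem_of_tendsto (f := id) hx (h i), hx⟩
  refine ⟨C, isCompact_iff_ultrafilter_le_nhds.2 fun 𝓤 h => key 𝓤 fun i =>
    h (Set.iInter_subset _ i), fun Q hQ => ?_, fun i => Set.iInter_subset _ i⟩
  by_contra hcon
  push Not at hcon
  have hb := hasBasis_iInf_principal dir
  have : NeBot ((⨅ i, 𝓟 (S i)) ⊓ 𝓟 ((C : Set G) * Q)ᶜ) :=
    (hb.inf_principal _).neBot_iff.2 fun {i} _ => Set.not_subset.1 (hcon i)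
  obtain ⟨𝓤, h𝓤⟩ := Ultrafilter.exists_le ((⨅ i, 𝓟 (S i)) ⊓ 𝓟 ((C : Set G) * Q)ᶜ)
  obtain ⟨x, hx, h⟩ := key 𝓤 fun i =>
    h𝓤 (mem_inf_of_left (mem_of_superset (hb.mem_of_mem trivial) subset_closure))
  refine Ultrafilter.compl_mem_iff_notMem.1 (h𝓤 (mem_inf_of_right (mem_principal_self _))) (h ?_)
  refine mem_of_superset (Continuous.tendsto' (f := fun y => x⁻¹ * y) (by fun_prop) x 1 (by simp)
    hQ) fun y hy => ⟨x, hx, _, hy, by simp⟩

end Pool.Agent.H71.LPS
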