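import Mathlib
import Pool.Agent.H71.PS2
import Pool.Agent.H71.DualK

/-! Locally minimal abelian groups: tightness and character. -/

namespace Pool.Agent.H71.LocMin

open Filter Topology Cardinal _root_.Pool.Agent.H71.PS _root_.Pool.Agent.H71.DualK
open scoped Pointwise

variable {G : Type} [CommGroup G] [τ : TopologicalSpace G] [IsTopologicalGroup G] [T2Space G]

/-- local minimality with respect to `U` -/
def LM {G : Type} [CommGroup G] [τ : TopologicalSpace G] (U : Set G) : Prop :=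
  ∀ σ : TopologicalSpace G, @IsTopologicalGroup G σ _ → @T2Space G σ → τ ≤ σ →
    U ∈ @nhds G σ 1 → σ = τ

omit [T2Space G] in
lemma LM.filter {U : Set G} (h : LM U) (𝓖 : Filter G) (hU : U ∈ 𝓖) (le : 𝓝 1 ≤ 𝓖)
    (hm : Tendsto (fun p : G × G => p.1 * p.2) (𝓖 ×ˢ 𝓖) 𝓖) (hi : Tendsto (fun x : G => x⁻¹) 𝓖 𝓖)
    (sep : ∀ x, x ≠ 1 → ∃ U ∈ 𝓖, x ∉ U) : 𝓖 = 𝓝 1 := by
  have : ∃ σ : TopologicalSpace G, σ = τ ∧ @nhds G σ 1 = 𝓖 :=
    (coarser (P := fun F => F = 𝓖) 𝓖 rfl le hm hi sep).elim fun σ hσ =>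
      ⟨σ, h σ hσ.1 hσ.2.1 hσ.2.2.1 (hσ.2.2.2 ▸ hU), hσ.2.2.2⟩
  obtain ⟨_, rfl, e⟩ := this
  exact e.symm

lemma LM.precompact {U U' : Set G} (h : LM U) (hU' : U' ∈ 𝓝 (1 : G)) {L : Subgroup G}
    (hL : U' * (L : Set G) ⊆ U) : Lie.Precompact L := by
  classical
  have hb : ∀ W ∈ 𝓝 (1 : G), Bd L 1 0 W := by
    by_contra hc
    push Not at hc
    refine (ps L hc).elim fun σ hσ => hσ.2.2.2.1 ?_
    rw [h σ hσ.1 hσ.2.1 hσ.2.2.1 (mem_of_superset (hσ.2.2.2.2 U' hU') hL)]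
  intro T hT
  rw [nhds_subtype] at hT
  obtain ⟨W, hW, hWT⟩ := hT
  obtain ⟨V, hV, hVW⟩ := exists_nhds_split_inv hW
  obtain ⟨F, hF⟩ := hb V hV
  have : ∀ f : G, ∃ a : L, (∃ a : L, f⁻¹ * a ∈ V) → f⁻¹ * a ∈ V := fun f => by
    by_cases h : ∃ a : L, f⁻¹ * a ∈ V
    · exact ⟨h.choose, fun _ => h.choose_spec⟩
    · exact ⟨1, fun h' => absurd h' h⟩
  choose a ha using this
  refine ⟨F.image a, fun x => ?_⟩
  obtain ⟨f, hf, y, -, u, hu, e⟩ := hF x x.2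
  have h1 : f⁻¹ * x ∈ V := by
    rw [pow_one] at e
    rw [e]; simpa using hu
  refine ⟨_, Finset.mem_image_of_mem a hf, hWT ?_⟩
  have := hVW _ h1 _ (ha f ⟨x, h1⟩)
  rw [mul_div_mul_left_eq_div, div_eq_inv_mul] at this
  exact this

omit [T2Space G] in
lemma LM.filter_sub {U U' : Set G} (h : LM U) (hU' : U' ∈ 𝓝 (1 : G)) {L : Subgroup G}
    (cL : IsClosed (L : Set G)) (hL : U' * (L : Set G) ⊆ U) (𝓗 : Filter L) (le : 𝓝 1 ≤ 𝓗)
    (hm : Tendsto (fun p : L × L => p.1 * p.2) (𝓗 ×ˢ 𝓗) 𝓗) (hi : Tendsto (fun x : L => x⁻¹) 𝓗 𝓗)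
    (sep : ∀ x, x ≠ 1 → ∃ U ∈ 𝓗, x ∉ U) : 𝓗 ≤ 𝓝 1 := by
  let 𝓖 : Filter G := map (fun p : G × L => p.1 * p.2) (𝓝 1 ×ˢ 𝓗)
  have toG : ∀ {ι : Type} {l : Filter ι} {f : ι → G} {g : ι → L}, Tendsto f l (𝓝 1) →
      Tendsto g l 𝓗 → Tendsto (fun i => f i * g i) l 𝓖 := fun h1 h2 =>
    tendsto_map.comp (h1.prodMk h2)
  have e := h.filter 𝓖 (mem_of_superset (image_mem_map (prod_mem_prod hU' univ_mem)) (by
    rintro _ ⟨⟨u, c⟩, hp, rfl⟩
    exact hL (Set.mul_mem_mul hp.1 c.2))) (by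
    have := toG (l := 𝓝 1) tendsto_id (g := fun _ => 1) (tendsto_const_nhds.mono_right le)
    simp only [OneMemClass.coe_one, mul_one] at this
    exact this) (by
    rw [prod_map_map_eq, tendsto_map'_iff]
    have := toG (l := (𝓝 (1 : G) ×ˢ 𝓗) ×ˢ (𝓝 (1 : G) ×ˢ 𝓗)) (f := fun p => p.1.1 * p.2.1)
      (g := fun p => p.1.2 * p.2.2)
      (((tendsto_fst.comp tendsto_fst).mul (tendsto_fst.comp tendsto_snd)).mono_right (by simp))
      (hm.comp ((tendsto_snd.comp tendsto_fst).prodMk (tendsto_snd.comp tendsto_snd)))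
    exact this.congr fun p => mul_mul_mul_comm _ _ _ _) (by
    rw [tendsto_map'_iff]
    have := toG (l := 𝓝 (1 : G) ×ˢ 𝓗) (f := fun p => p.1⁻¹) (g := fun p => p.2⁻¹)
      (by simpa using (tendsto_fst (f := 𝓝 (1 : G))).inv) (hi.comp tendsto_snd)
    exact this.congr fun p => (mul_inv _ _).symm) fun x hx => ?_
  · have := toG (l := 𝓗) (f := fun _ => 1) tendsto_const_nhds tendsto_id
    rw [e] at this
    rw [nhds_subtype, ← map_le_iff_le_comap]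
    simp only [one_mul] at this
    exact this
  · by_cases hxL : x ∈ L
    · obtain ⟨T, hT, hxT⟩ := sep ⟨x, hxL⟩ fun e => hx (congrArg Subtype.val e)
      obtain ⟨T', hT', hTT⟩ := mem_prod_self_iff.1 (hm hT)
      have := le hT'
      rw [nhds_subtype] at this
      obtain ⟨W, hW, hWT⟩ := this
      refine ⟨_, image_mem_map (prod_mem_prod hW hT'), ?_⟩
      rintro ⟨⟨w, t⟩, ⟨h1, h2⟩, e⟩
      have e' : w = x * (t : G)⁻¹ := eq_mul_inv_of_mul_eq e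
      have := hTT (Set.mk_mem_prod (a := (⟨x, hxL⟩ : L) * t⁻¹) (hWT (e' ▸ h1 :)) h2)
      exact hxT (by simpa using this)
    · refine ⟨_, image_mem_map (prod_mem_prod (Continuous.tendsto' (f := fun w => w⁻¹ * x)
        (by fun_prop) 1 x (by simp) (cL.isOpen_compl.mem_nhds hxL)) univ_mem), ?_⟩
      rintro ⟨⟨w, t⟩, ⟨h1, -⟩, rfl⟩
      exact h1 (by simp)

omit [T2Space G] in
lemma LM.minimal {U U' : Set G} (h : LM U) (hU' : U' ∈ 𝓝 (1 : G)) {L : Subgroup G}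
    (cL : IsClosed (L : Set G)) (hL : U' * (L : Set G) ⊆ U) :
    ∀ σ : TopologicalSpace L, @IsTopologicalGroup L σ _ → @T2Space L σ →
      instTopologicalSpaceSubtype ≤ σ → σ = instTopologicalSpaceSubtype := by
  intro σ h1 h2 h3
  refine le_antisymm (continuous_id_iff_le.1 ?_) h3
  have key : @nhds L σ 1 ≤ @nhds L instTopologicalSpaceSubtype 1 :=
    h.filter_sub hU' cL hL (@nhds L σ 1) (nhds_mono h3)
      (by simpa [nhds_prod_eq] using (continuous_mul (M := L)).tendsto (1, 1))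
      (by simpa using (continuous_inv (G := L)).tendsto 1)
      fun x hx => ⟨_, compl_singleton_mem_nhds hx.symm, by simp⟩
  exact @continuous_of_continuousAt_one L σ _ h1 L (L →* L) _ instTopologicalSpaceSubtype _ _ _
    (MonoidHom.id L) key

omit [T2Space G] in
lemma exists_L {U : Set G} (hU : U ∈ 𝓝 (1 : G)) : ∃ (L : Subgroup G) (V : ℕ → Set G),
    IsClosed (L : Set G) ∧ (∀ n, V n ∈ 𝓝 (1 : G)) ∧ (∀ x, (∀ n, x ∈ V n) → x ∈ L) ∧
      V 0 * (L : Set G) ⊆ U := by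
  choose f f1 f2 f3 f4 using fun U : {U // U ∈ 𝓝 (1 : G)} =>
    exists_closed_nhds_one_inv_eq_mul_subset U.2
  let V : ℕ → {U // U ∈ 𝓝 (1 : G)} := fun n => Nat.rec ⟨U, hU⟩ (fun _ U => ⟨f U, f1 U⟩) n
  let L : Subgroup G :=
    { carrier := ⋂ n, f (V n)
      one_mem' := Set.mem_iInter.2 fun n => mem_of_mem_nhds (f1 _)
      mul_mem' := fun ha hb => Set.mem_iInter.2 fun n =>
        f4 (V (n + 1)) (Set.mul_mem_mul (Set.mem_iInter.1 ha (n + 1)) (Set.mem_iInter.1 hb (n + 1)))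
      inv_mem' := fun ha => Set.mem_iInter.2 fun n => by
        rw [← f3, Set.inv_mem_inv]; exact Set.mem_iInter.1 ha n }
  exact ⟨L, fun n => f (V n), isClosed_iInter fun n => f2 _, fun n => f1 _,
    fun x hx => Set.mem_iInter.2 hx,
    (Set.mul_subset_mul_left (Set.iInter_subset _ 0)).trans (f4 (V 0))⟩

variable {κ : Cardinal.{0}} (hκ : ℵ₀ ≤ κ)
include hκ

lemma LM.pseudo {U : Set G} (h : LM U) (hU : U ∈ 𝓝 (1 : G)) (ht : Tight κ (Set.univ : Set G)) :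
    ∃ P : Set (Set G), Sm κ P ∧ (∀ W ∈ P, W ∈ 𝓝 (1 : G)) ∧ ∀ x, x ≠ 1 → ∃ W ∈ P, x ∉ W := by
  obtain ⟨L, V, cL, hV, hVL, hL⟩ := exists_L hU
  obtain ⟨K, gK, _, _, _, _, j, hj⟩ := Lie.exists_ess (h.precompact (hV 0) hL)
    (h.minimal (hV 0) cL hL)
  let cK : CommGroup K := { gK with
    mul_comm := fun a b => hj.dense.induction_on₂ (p := fun a b => a * b = b * a)
      (isClosed_eq (by fun_prop) (by fun_prop)) (fun a b => by rw [← map_mul, ← map_mul, mul_comm]) a b }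
  obtain ⟨S, hS, sep⟩ := thmA hκ (C := K) (H := j.range) (fun N cN hne => by
    obtain ⟨g, h1, h2⟩ := hj.ess N ⟨cN, inferInstance⟩ hne
    exact ⟨_, ⟨g, rfl⟩, fun e => h1 (hj.emb.injective (e.trans (map_one j).symm)), h2⟩) (by
    have := (ht.preimage (IsEmbedding.subtypeVal (p := fun x => x ∈ L))).image hj.emb
    rwa [Set.preimage_univ, Set.image_univ] at this)
  have : ∀ (a : K →ₜ* Circle) (n : ℕ), ∃ W ∈ 𝓝 (1 : G), ∀ y : L, (y : G) ∈ W →
      dist (a (j y)) 1 < 1 / (n + 1) := fun a n => by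
    have := ((map_continuous a).comp hj.emb.continuous).tendsto' 1 1 (by simp)
      (Metric.ball_mem_nhds 1 (Nat.one_div_pos_of_nat (n := n)))
    rw [nhds_subtype] at this
    obtain ⟨W, hW, h⟩ := this
    exact ⟨W, hW, fun y hy => h hy⟩
  choose W hW hW' using this
  refine ⟨Set.range V ∪ ⋃ a ∈ S, Set.range (W a), Sm.union hκ (Sm.of_countable hκ
    (Set.countable_range _)) (Sm.biUnion hκ hS fun a _ => Sm.of_countable hκ (Set.countable_range _)),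
    ?_, fun x hx => ?_⟩
  · rintro _ (⟨n, rfl⟩ | h)
    · exact hV n
    · obtain ⟨a, -, n, rfl⟩ := Set.mem_iUnion₂.1 h
      exact hW a n
  · by_contra hc
    push Not at hc
    have xL := hVL x fun n => hc _ (Or.inl ⟨n, rfl⟩)
    have := sep (j ⟨x, xL⟩) fun a ha => dist_le_zero.1 (le_of_forall_pos_le_add fun ε hε => by
      obtain ⟨n, hn⟩ := exists_nat_one_div_lt hε
      have := hW' a n ⟨x, xL⟩ (hc _ (Or.inr (Set.mem_biUnion ha ⟨n, rfl⟩)))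
      linarith)
    exact hx (congrArg Subtype.val (hj.emb.injective (this.trans (map_one j).symm)))

theorem LM.base {U : Set G} (h : LM U) (hU : U ∈ 𝓝 (1 : G)) (ht : Tight κ (Set.univ : Set G)) :
    ∃ 𝓑 : Set (Set G), (𝓝 (1 : G)).HasBasis (fun s => s ∈ 𝓑) id ∧ #𝓑 ≤ κ := by
  obtain ⟨P, hP, h1, h2⟩ := h.pseudo hκ hU ht
  choose f f1 f2 f3 f4 using fun U : {U // U ∈ 𝓝 (1 : G)} =>
    exists_closed_nhds_one_inv_eq_mul_subset U.2
  have sub : ∀ W, f W ⊆ W.1 := fun W x hx => by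
    simpa using f4 _ (Set.mul_mem_mul hx (mem_of_mem_nhds (f1 _)))
  let V : {U // U ∈ 𝓝 (1 : G)} → ℕ → {U // U ∈ 𝓝 (1 : G)} := fun W n =>
    Nat.rec W (fun _ U => ⟨f U, f1 U⟩) n
  let P' : Set (Set G) := insert U P
  have h1' : ∀ W : P', W.1 ∈ 𝓝 (1 : G) := fun W => W.2.elim (fun e => e ▸ hU) (h1 _)
  let w : P' × ℕ → Set G := fun i => f (V ⟨_, h1' i.1⟩ i.2)
  have mw : ∀ i, w i ∈ ⨅ i, 𝓟 (w i) := fun i => mem_iInf_of_mem i (mem_principal_self _)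
  have e := h.filter (⨅ i, 𝓟 (w i)) (mem_of_superset (mw (⟨U, Or.inl rfl⟩, 0)) (sub _))
    (le_iInf fun i => le_principal_iff.2 (f1 _))
    (tendsto_iInf.2 fun i => tendsto_principal.2 (mem_prod_self_iff.2 ⟨_, mw (i.1, i.2 + 1),
      fun p hp => f4 (V ⟨_, h1' i.1⟩ (i.2 + 1)) (Set.mul_mem_mul hp.1 hp.2)⟩))
    (tendsto_iInf.2 fun i => tendsto_principal.2 (mem_of_superset (mw i) fun x hx => by
      change x⁻¹ ∈ f _
      rw [← f3, Set.inv_mem_inv]; exact hx)) fun x hx => by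
      obtain ⟨W, hW, hxW⟩ := h2 x hx
      exact ⟨_, mw (⟨W, Or.inr hW⟩, 0), fun h => hxW (sub _ h)⟩
  refine ⟨Set.range fun t : Finset (P' × ℕ) => ⋂ i ∈ t, w i, ?_, mk_range_le.trans ?_⟩
  · rw [← e]
    refine (hasBasis_iInf_principal_finite w).to_hasBasis (fun t ht => ⟨_, ⟨ht.toFinset, rfl⟩, by
      simp⟩) ?_
    rintro _ ⟨t, rfl⟩
    exact ⟨t, t.finite_toSet, le_rfl⟩
  · have : Nonempty P' := ⟨⟨U, Or.inl rfl⟩⟩
    rw [mk_finset_of_infinite, mk_prod, lift_id, lift_id]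
    exact mul_le_of_le hκ (Sm.union hκ (Sm.of_countable hκ (Set.countable_singleton U)) hP)
      (mk_le_aleph0.trans hκ)

end Pool.Agent.H71.LocMin
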