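import Mathlib
import Pool.Agent.H71.LPS2
import Pool.Agent.H71.LocMin

/-! A local form of the Prodanov-Stoyanov theorem for complete abelian groups. -/

namespace Pool.Agent.H71.LPS

open Filter Topology _root_.Pool.Agent.H71.PS _root_.Pool.Agent.H71.LocMin
open scoped Pointwise

variable {G : Type} [CommGroup G] [τ : TopologicalSpace G] [IsTopologicalGroup G] [T2Space G]
  {V : ℕ → Set G}

omit [T2Space G] in
lemma Chain.core (hV : Chain V) (hc : Cpl G) (hB : ∀ U ∈ 𝓝 (1 : G), ∃ r, 0 < r ∧ LB V r 0 0 U) :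
    ∃ C : Subgroup G, IsCompact (C : Set G) ∧ ∀ Q ∈ 𝓝 (1 : G), ∃ k n,
      (0 < k ∧ ∀ r, B V r k → k ∣ r) ∧ ∀ x ∈ V n, x ^ k ∈ (C : Set G) * Q := by
  have : Nonempty ({k // 0 < k ∧ ∀ r, B V r k → k ∣ r} × ℕ) :=
    ⟨⟨⟨1, one_pos, fun _ _ => one_dvd _⟩, 0⟩⟩
  refine (cpt hc (fun i : {k // 0 < k ∧ ∀ r, B V r k → k ∣ r} × ℕ =>
    (· ^ i.1.1) '' V i.2) (fun i j => ?_) (fun i => ⟨1, hV.one _, one_pow _⟩)
    (fun i => ⟨(i.1, i.2 + 1), ?_⟩) (fun i => ?_) fun Q hQ => ?_).imp fun C h =>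
      ⟨h.1, fun Q hQ => (h.2.1 Q hQ).elim fun i hi =>
        ⟨_, _, i.1.2, fun x hx => hi ⟨x, hx, rfl⟩⟩⟩
  · obtain ⟨a, ha⟩ := Nat.dvd_lcm_left i.1.1 j.1.1
    obtain ⟨b, hb⟩ := Nat.dvd_lcm_right i.1.1 j.1.1
    refine ⟨(⟨_, Nat.lcm_pos i.1.2.1 j.1.2.1, fun r hr => Nat.lcm_dvd
      (i.1.2.2 r (hr.trans (ha ▸ hV.b_mul _ _))) (j.1.2.2 r (hr.trans (hb ▸ hV.b_mul _ _)))⟩,
      max (i.2 + a) (j.2 + b)), ?_, ?_⟩
    · rintro _ ⟨x, hx, rfl⟩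
      exact ⟨x ^ a, hV.pow (hV.anti (le_max_left _ _) hx) le_rfl, by
        simp only [ha, ← pow_mul, mul_comm]⟩
    · rintro _ ⟨x, hx, rfl⟩
      exact ⟨x ^ b, hV.pow (hV.anti (le_max_right _ _) hx) le_rfl, by
        simp only [hb, ← pow_mul, mul_comm]⟩
  · rintro _ ⟨x, hx, rfl⟩ _ ⟨y, hy, rfl⟩
    exact ⟨x * y, hV.mul _ _ hx _ hy, mul_pow _ _ _⟩
  · rintro _ ⟨x, hx, rfl⟩
    exact ⟨x⁻¹, hV.inv _ _ hx, inv_pow _ _⟩
  · obtain ⟨Q', a1, -, -, a2, -⟩ := half hQ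
    obtain ⟨m, hm, hb⟩ := hB Q' a1
    obtain ⟨k, hk, hkm⟩ := hV.exists_k hm
    obtain ⟨n, F, hF⟩ := (LB.trans (fun l => hkm l Q' a1) hb).mono a2
    refine ⟨(⟨k, hk⟩, n), F, ?_⟩
    rintro _ ⟨x, hx, rfl⟩
    obtain ⟨f, hf, y, -, u, hu, e⟩ := hF x hx
    exact ⟨f, hf, by simpa [e] using hu⟩

theorem Chain.lps (hV : Chain V) (hc : Cpl G) (hN : ∃ U ∈ 𝓝 (1 : G), ¬ LB V 1 0 0 U) :
    ∃ Φ : FA →* G, (∀ j, ∀ c ∈ Box j, Φ (Multiplicative.ofAdd c) ∈ V j) ∧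
    ∃ σ : TopologicalSpace G, @IsTopologicalGroup G σ _ ∧ @T2Space G σ ∧ τ ≤ σ ∧
      @nhds G σ 1 ≠ @nhds G τ 1 ∧ ∀ U ∈ @nhds G τ 1, ∀ j, ∀ T ∈ bohr FA,
        {x | ∃ u ∈ U, ∃ c ∈ Box j, Multiplicative.ofAdd c ∈ T ∧
          u * Φ (Multiplicative.ofAdd c) = x} ∈ @nhds G σ 1 := by
  classical
  obtain ⟨v, l, v1, v2, l0, v3⟩ := hV.exists_v
  obtain ⟨d, hd, h⟩ := hV.exists_d (fun r m => ¬ B V r m) v l v2
  let Φ := PS.lift d
  have hΦ : ∀ j, ∀ c ∈ Box j, Φ (Multiplicative.ofAdd c) ∈ V j := fun j c hc => hV.lift hd hc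
  refine ⟨Φ, hΦ, ?_⟩
  have H : ∀ x : G, x ≠ 1 → ∃ m j, ∃ W ∈ 𝓝 (1 : G), W⁻¹ = W ∧ (∀ r, 0 < r → (m = 0 ∨ r < m) →
      ¬ B V r m ∧ W ⊆ v r m ∧ l r m < j) ∧ m ≤ j ∧ ∃ T ∈ bohr FA, ∃ U ∈ 𝓝 (1 : G),
        ∀ c ∈ Box j, Multiplicative.ofAdd c ∈ T → (∀ i, (m : ℤ) ∣ c i) →
          ∀ u ∈ U, u * Φ (Multiplicative.ofAdd c) ≠ x := fun x hx => by
    by_cases hB : ∃ U ∈ 𝓝 (1 : G), ∀ r, 0 < r → ¬ LB V r 0 0 U
    · obtain ⟨W, hW, hWv⟩ := v3 hB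
      obtain ⟨W', a1, -, a2, -, a4⟩ := half hW
      obtain ⟨U, hU, hB⟩ := hB
      refine ⟨0, 1, W', a1, a2, fun r hr _ => ⟨fun h => hB r hr (h 0 U hU), a4.trans (hWv r hr),
        by rw [l0]; exact one_pos⟩, zero_le_one, _, univ_mem,
        {x}ᶜ, compl_singleton_mem_nhds hx.symm, fun c _ _ hc u hu => ?_⟩
      have : c = 0 := Finsupp.ext fun i => zero_dvd_iff.1 (hc i)
      rwa [this, ofAdd_zero, map_one, mul_one]
    push Not at hB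
    obtain ⟨C, cC, hC⟩ := hV.core hc hB
    obtain ⟨O, a1, -, -, c1, -⟩ := half (compl_singleton_mem_nhds hx.symm)
    obtain ⟨U, hU, hac⟩ := ac cC a1
    obtain ⟨k, n, ⟨k0, hk⟩, hn⟩ := hC U hU
    obtain ⟨T, hT, hTO⟩ := hac ((powMonoidHom k).comp Φ) n fun c hc => hn _ (hΦ n c hc)
    obtain ⟨T', hT', hTT⟩ := mem_comap.1 (bohr_pow k0.ne' hT)
    obtain ⟨W, e1, -, e2, -, e4⟩ := half ((biInter_finset_mem (Finset.range k)).2 fun r _ => v1 r k)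
    refine ⟨k, n + 2 + k + (Finset.range k).sup (l · k), W, e1, e2, fun r hr hrk => ?_, by omega,
      T', hT', O, a1, fun c hc hcT hdv u hu => ?_⟩
    · have hrk : r < k := hrk.resolve_left k0.ne'
      have := Finset.le_sup (f := (l · k)) (Finset.mem_range.2 hrk)
      exact ⟨fun h => absurd (Nat.le_of_dvd hr (hk r h)) (not_le.2 hrk),
        fun x hx => Set.mem_iInter₂.1 (e4 hx) r (Finset.mem_range.2 hrk), by omega⟩
    · have e : Multiplicative.ofAdd (c.mapRange (· / (k : ℤ)) (by simp)) ^ k =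
          Multiplicative.ofAdd c := by
        rw [← ofAdd_nsmul]
        refine congrArg Multiplicative.ofAdd (Finsupp.ext fun i => ?_)
        exact Int.mul_ediv_cancel' (hdv i)
      have := hTO _ (Box.ediv (Box.anti (by omega) hc) k) (hTT (by rwa [Set.mem_preimage, e]))
      rw [MonoidHom.comp_apply, powMonoidHom_apply, ← map_pow, e] at this
      exact c1 (Set.mul_mem_mul hu this)
  let W : ℕ → Set FA := fun j => {c | c.toAdd ∈ Box j}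
  let 𝓕 : Filter FA := (⨅ j, 𝓟 (W j)) ⊓ bohr FA
  have mW : ∀ j, W j ∈ 𝓕 := fun j => mem_inf_of_left (mem_iInf_of_mem j (mem_principal_self _))
  have tχ : ∀ χ : FA →* Circle, Tendsto χ 𝓕 (𝓝 1) := fun χ =>
    tendsto_inf_right (tendsto_iInf' χ tendsto_comap)
  have toF : ∀ {ι : Type} {l : Filter ι} {f : ι → FA}, (∀ j, ∀ᶠ i in l, f i ∈ W j) →
      (∀ χ : FA →* Circle, Tendsto (fun i => χ (f i)) l (𝓝 1)) → Tendsto f l 𝓕 := fun h1 h2 =>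
    tendsto_inf.2 ⟨tendsto_iInf.2 fun j => tendsto_principal.2 (h1 j),
      tendsto_iInf.2 fun χ => tendsto_comap_iff.2 (h2 χ)⟩
  have F1 : Tendsto (fun _ : Unit => (1 : FA)) ⊤ 𝓕 :=
    toF (fun j => Eventually.of_forall fun _ => Box.zero j) fun χ => by simp
  have F1' : ∀ T ∈ 𝓕, (1 : FA) ∈ T := fun T hT => F1 hT ()
  have Fm : Tendsto (fun p : FA × FA => p.1 * p.2) (𝓕 ×ˢ 𝓕) 𝓕 := toF (fun j => by
    filter_upwards [prod_mem_prod (mW (j + 1)) (mW (j + 1))] with p hp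
    exact Box.add hp.1 hp.2) fun χ => by
      simpa using ((tχ χ).comp tendsto_fst).mul ((tχ χ).comp tendsto_snd)
  have Fi : Tendsto (fun c : FA => c⁻¹) 𝓕 𝓕 := toF (fun j => by
    filter_upwards [mW j] with c hc
    exact Box.neg hc) fun χ => by simpa using (tχ χ).inv
  let 𝓖 : Filter G := map (fun p : G × FA => p.1 * Φ p.2) (𝓝 1 ×ˢ 𝓕)
  have toG : ∀ {ι : Type} {l : Filter ι} {f : ι → G} {g : ι → FA}, Tendsto f l (𝓝 1) →
      Tendsto g l 𝓕 → Tendsto (fun i => f i * Φ (g i)) l 𝓖 := fun h1 h2 =>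
    tendsto_map.comp (h1.prodMk h2)
  have le : 𝓝 1 ≤ 𝓖 := by
    have := toG (l := 𝓝 1) tendsto_id (g := fun _ => 1) fun T hT => by simp [F1' T hT]
    simp only [map_one, mul_one] at this
    exact this
  refine coarser (P := fun F => F ≠ 𝓝 1 ∧ ∀ U ∈ 𝓝 (1 : G), ∀ j, ∀ T ∈ bohr FA,
        {x | ∃ u ∈ U, ∃ c ∈ Box j, Multiplicative.ofAdd c ∈ T ∧
          u * Φ (Multiplicative.ofAdd c) = x} ∈ F) 𝓖
    ⟨fun he => ?_, fun U hU j T hT => ?_⟩ le (by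
    rw [prod_map_map_eq, tendsto_map'_iff]
    have := toG (l := (𝓝 (1 : G) ×ˢ 𝓕) ×ˢ (𝓝 (1 : G) ×ˢ 𝓕)) (f := fun p => p.1.1 * p.2.1)
      (g := fun p => p.1.2 * p.2.2)
      (((tendsto_fst.comp tendsto_fst).mul (tendsto_fst.comp tendsto_snd)).mono_right (by simp))
      (Fm.comp ((tendsto_snd.comp tendsto_fst).prodMk (tendsto_snd.comp tendsto_snd)) :)
    refine this.congr fun p => ?_
    simp only [map_mul, Function.comp_def]
    exact mul_mul_mul_comm _ _ _ _) (by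
    rw [tendsto_map'_iff]
    have := toG (l := 𝓝 (1 : G) ×ˢ 𝓕) (f := fun p => p.1⁻¹) (g := fun p => p.2⁻¹)
      (by simpa using (tendsto_fst (f := 𝓝 (1 : G))).inv) (Fi.comp tendsto_snd)
    refine this.congr fun p => ?_
    simp only [map_inv, Function.comp_def, mul_inv]) fun x hx => ?_
  rotate_left 2
  · obtain ⟨m, j, W', h1, h2, h3, mj, T, hT, U, hU, h4⟩ := H x hx
    obtain ⟨U', g1, -, g2, g3, -⟩ := half h1
    have mem : ∀ T ∈ 𝓕, (fun p : G × FA => p.1 * Φ p.2) '' ((U ∩ U') ×ˢ T) ∈ 𝓖 :=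
      fun T hT => image_mem_map (prod_mem_prod (inter_mem hU g1) hT)
    by_contra hcon
    push Not at hcon
    obtain ⟨⟨u₀, c₀⟩, ⟨hu₀, hc₀⟩, e₀⟩ := hcon _ (mem _ (mW (j + 1)))
    obtain ⟨k, hk⟩ := c₀.toAdd.support.bddAbove
    obtain ⟨⟨u, c⟩, ⟨hu, hc, hck, hcB⟩, e₁⟩ := hcon _ (mem _ (inter_mem (mW (j + 1))
      (inter_mem (mW (k + 1)) (mem_inf_of_right hT))))
    refine h4 c.toAdd (Box.anti (by omega) hc) hcB (fun i => ?_) u hu.1 e₁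
    have := hV.dvd hd h h2 h3 mj (c := c.toAdd + -c₀.toAdd) (Box.add hc (Box.neg hc₀)) (by
      change Φ (c * c₀⁻¹) ∈ W'
      have : Φ (c * c₀⁻¹) = u₀ * u⁻¹ := by
        rw [← div_eq_mul_inv, map_div, div_eq_iff_eq_mul, mul_right_comm,
          show u₀ * Φ c₀ = x from e₀, ← e₁]; simp
      rw [this]
      exact g3 (Set.mul_mem_mul hu₀.2 (g2 ▸ Set.inv_mem_inv.2 hu.2))) i
    by_cases hi : i < k + 1
    · rw [Box.eq_zero (a := c.toAdd) hck hi]; exact dvd_zero _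
    · rwa [Finsupp.add_apply, Finsupp.neg_apply,
        Finsupp.notMem_support_iff.1 fun h => hi (Nat.lt_succ_of_le (hk h)), neg_zero,
        add_zero] at this
  · obtain ⟨W', h1, -, h2, -, h4⟩ := half (v1 1 0)
    let l : Filter ℕ := hyperfilter ℕ
    let ε : ℕ → FA := fun n => Multiplicative.ofAdd (Finsupp.single n 1)
    have la : l ≤ atTop := Nat.cofinite_eq_atTop ▸ hyperfilter_le_cofinite
    have lt : ∀ j, ∀ᶠ p : ℕ × ℕ in l.curry l, j ≤ p.1 ∧ p.1 < p.2 := fun j =>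
      eventually_curry_iff.2 (by
        filter_upwards [la (eventually_ge_atTop j)] with a ha
        filter_upwards [la (eventually_gt_atTop a)] with b hb using ⟨ha, hb⟩)
    have co : ∀ p : ℕ × ℕ, ∀ i, (ε p.2 * (ε p.1)⁻¹).toAdd i =
        (if p.2 = i then 1 else 0) - (if p.1 = i then 1 else 0) := fun p i => by
      simp [ε, Finsupp.single_apply, sub_eq_add_neg]
    have t1 : Tendsto (fun p : ℕ × ℕ => ε p.2 * (ε p.1)⁻¹) (l.curry l) 𝓕 := toF (fun j => by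
      filter_upwards [lt (j + 1)] with p hp
      exact Box.add (Box.single (by omega)) (Box.neg (Box.single hp.1))) fun χ => by
        obtain ⟨z, -, hz⟩ := isCompact_univ.ultrafilter_le_nhds
          ((hyperfilter ℕ).map fun n => χ (ε n)) (by simp)
        have hz : Tendsto (fun n => χ (ε n)) l (𝓝 z) := hz
        simpa using ((hz.comp tendsto_snd).mul (hz.comp tendsto_fst).inv).mono_left curry_le_prod
    have t2 := toG (l := l.curry l) (f := fun _ => 1) tendsto_const_nhds t1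
    rw [he] at t2
    obtain ⟨a, ha⟩ := (eventually_curry_iff.1 ((t2.eventually h1).and (lt 1))).exists
    obtain ⟨b, hb, h5, h6⟩ := ha.exists
    have cb : (ε b * (ε a)⁻¹).toAdd b = 1 := by
      rw [co (a, b)]; simp [h6.ne]
    obtain ⟨U, hU, hN⟩ := hN
    refine hV.ind h h2 (m := 0) (n := b) (c := (ε b * (ε a)⁻¹).toAdd) (fun i hi => ?_)
      (fun i _ => ?_) (by omega) (by rw [cb]; exact fun h => hN (h 0 U hU)) (by rw [cb]; exact h4)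
      (hV.one _) (by rw [pow_zero, mul_one]; rw [one_mul] at hb; exact hb)
    · rw [co (a, b)]; split_ifs <;> omega
    · have := le_bd b
      rw [co (a, b)]; split_ifs <;> simp <;> omega
  · exact mem_of_superset (image_mem_map (prod_mem_prod hU (inter_mem (mW j)
      (mem_inf_of_right hT)))) (by
      rintro _ ⟨⟨u, c⟩, hp, rfl⟩
      exact ⟨u, hp.1, c.toAdd, hp.2.1, hp.2.2, rfl⟩)

theorem main (hc : Cpl G) {U : Set G} (h : LM U) (hU : U ∈ 𝓝 (1 : G)) {K : Subgroup G}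
    (hK : IsCompact (K : Set G)) : ∃ U' ∈ 𝓝 (1 : G), ∀ V : ℕ → Set G, Chain V →
      V 0 ⊆ (K : Set G) * U' → ∃ C : Subgroup G, IsCompact (C : Set G) ∧
        (∀ Q ∈ 𝓝 (1 : G), ∃ n, V n ⊆ (C : Set G) * Q) ∧ ∀ n, (C : Set G) ⊆ closure (V n) := by
  obtain ⟨O, a1, -, -, a2, -⟩ := half hU
  obtain ⟨U', b1, b2⟩ := ac hK a1
  refine ⟨U', b1, fun V hV h0 => cpt hc V hV.anti.directed_ge hV.one
    (fun n => ⟨n + 1, hV.mul n⟩) hV.inv fun Q hQ => ?_⟩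
  have : LB V 1 0 0 Q := by
    by_contra hcon
    obtain ⟨Φ, hΦ, hσ⟩ := hV.lps hc ⟨Q, hQ, hcon⟩
    obtain ⟨T, hT, hTO⟩ := b2 Φ 0 fun c hc => h0 (hΦ 0 c hc)
    refine hσ.elim fun σ hσ => hσ.2.2.2.1 ?_
    rw [h σ hσ.1 hσ.2.1 hσ.2.2.1 (mem_of_superset (hσ.2.2.2.2 O a1 2 T hT) ?_)]
    rintro _ ⟨u, hu, c, h1, h2, rfl⟩
    exact a2 (Set.mul_mem_mul hu (hTO c h1 h2))
  obtain ⟨n, F, hF⟩ := this
  refine ⟨n, F, fun x hx => ?_⟩
  obtain ⟨f, hf, y, -, u, hu, e⟩ := hF x hx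
  rw [pow_one] at e
  exact ⟨f, hf, by simpa [e] using hu⟩

end Pool.Agent.H71.LPS
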