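import Mathlib
import Pool.Agent.H71.LPS3

/-! Additive form of the local Prodanov-Stoyanov theorem. -/

namespace Pool.Agent.H71.LPS

open Filter Topology _root_.Pool.Agent.H71.PS _root_.Pool.Agent.H71.LocMin
open scoped Pointwise

lemma cpl (G : Type) [AddCommGroup G] [UniformSpace G] [IsUniformAddGroup G] [CompleteSpace G] :
    Cpl (Multiplicative G) := fun 𝓤 h => by
  refine CompleteSpace.complete (α := G) ((IsUniformAddGroup.cauchy_iff_tendsto (G := G) _).2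
    ⟨𝓤.neBot, fun Q hQ => ?_⟩)
  obtain ⟨W, hW, hWQ⟩ := exists_nhds_half_neg hQ
  obtain ⟨f, hf⟩ := h W hW
  refine mem_map.2 (mem_of_superset (prod_mem_prod hf hf) fun p hp => ?_)
  have := hWQ _ hp.1 _ hp.2
  change -f.toAdd + p.1 - (-f.toAdd + p.2) ∈ Q at this
  rwa [add_sub_add_left_eq_sub] at this

lemma exists_chain {G : Type} [AddCommGroup G] [TopologicalSpace G] [IsTopologicalAddGroup G]
    {U : Set G} (hU : U ∈ 𝓝 (0 : G)) : ∃ V : ℕ → Set G, (∀ n, V n ∈ 𝓝 (0 : G)) ∧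
      (∀ n, ∀ x ∈ V n, -x ∈ V n) ∧ (∀ n, ∀ x ∈ V (n + 1), ∀ y ∈ V (n + 1), x + y ∈ V n) ∧
      V 0 ⊆ U := by
  choose f f1 f2 f3 f4 using fun U : {U // U ∈ 𝓝 (0 : G)} =>
    exists_closed_nhds_zero_neg_eq_add_subset U.2
  let V : ℕ → {U // U ∈ 𝓝 (0 : G)} := fun n => Nat.rec ⟨U, hU⟩ (fun _ U => ⟨f U, f1 U⟩) n
  exact ⟨fun n => f (V n), fun n => f1 _, fun n x hx => (f3 (V n)).le (Set.neg_mem_neg.2 hx),
    fun n x hx y hy => f4 (V (n + 1)) (Set.add_mem_add hx hy), fun x hx =>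
      f4 (V 0) (by simpa using Set.add_mem_add hx (mem_of_mem_nhds (f1 (V 0))))⟩

theorem main_add {G : Type} [AddCommGroup G] [u : UniformSpace G] [IsUniformAddGroup G] [T2Space G]
    [CompleteSpace G] {U : Set G} (hU : U ∈ 𝓝 (0 : G))
    (h : ∀ σ : TopologicalSpace G, @IsTopologicalAddGroup G σ _ → @T2Space G σ →
      u.toTopologicalSpace ≤ σ → U ∈ @nhds G σ 0 → σ = u.toTopologicalSpace)
    {K : AddSubgroup G} (hK : IsCompact (K : Set G)) : ∃ U' ∈ 𝓝 (0 : G), ∀ V : ℕ → Set G,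
      (∀ n, 0 ∈ V n) → (∀ n, ∀ x ∈ V n, -x ∈ V n) →
      (∀ n, ∀ x ∈ V (n + 1), ∀ y ∈ V (n + 1), x + y ∈ V n) → V 0 ⊆ (K : Set G) + U' →
      ∃ C : AddSubgroup G, IsCompact (C : Set G) ∧
        (∀ Q ∈ 𝓝 (0 : G), ∃ n, V n ⊆ (C : Set G) + Q) ∧ ∀ n, (C : Set G) ⊆ closure (V n) := by
  have : T2Space (Multiplicative G) := ‹T2Space G›
  obtain ⟨U', h1, h2⟩ := main (G := Multiplicative G) (cpl G) (U := U) (fun σ h1 h2 h3 h4 =>
    h σ (@IsTopologicalAddGroup.mk G σ _ (@ContinuousAdd.mk G σ _ h1.continuous_mul)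
      (@ContinuousNeg.mk G σ _ h1.continuous_inv)) h2 h3 h4) hU (K := K.toSubgroup) hK
  refine ⟨U', h1, fun V a b c d => ?_⟩
  obtain ⟨C, h3⟩ := h2 V ⟨a, b, c⟩ d
  exact ⟨AddSubgroup.toSubgroup.symm C, h3⟩

lemma quot_basis {G : Type} [AddCommGroup G] [TopologicalSpace G] [IsTopologicalAddGroup G]
    {C : AddSubgroup G} {V : ℕ → Set G} (hV : ∀ n, V n ∈ 𝓝 (0 : G))
    (h : ∀ Q ∈ 𝓝 (0 : G), ∃ n, V n ⊆ (C : Set G) + Q) :
    (𝓝 (0 : G ⧸ C)).HasBasis (fun _ => True) fun n => ((↑) : G → G ⧸ C) '' V n :=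
  ⟨fun t => ⟨fun ht => by
    obtain ⟨n, hn⟩ := h _ (QuotientAddGroup.continuous_mk.tendsto' (0 : G) (0 : G ⧸ C) rfl ht)
    refine ⟨n, trivial, ?_⟩
    rintro _ ⟨x, hx, rfl⟩
    obtain ⟨c, hc, q, hq, rfl⟩ := hn hx
    simpa [(QuotientAddGroup.eq_zero_iff c).2 hc] using hq, fun ⟨n, _, hn⟩ =>
    mem_of_superset (QuotientAddGroup.isOpenMap_coe.image_mem_nhds (hV n)) hn⟩⟩

end Pool.Agent.H71.LPS
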