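import Pool.Agent.H71.Hag1
import Pool.Agent.H42.Bern
import Pool.Agent.H84.NCard

set_option autoImplicit false

namespace Pool.Agent.H71.Lel

open Set Filter Topology Metric Pool.Agent.H71.Hag

variable {X : Type} [MetricSpace X]

def Nul (X : Type) [MetricSpace X] : Prop := ∀ ε > 0, ∀ C : ℕ → Set X, (∀ n, IsPreconnected (C n)) →
  Pairwise (fun i j => Disjoint (C i) (C j)) → (∀ n, ∃ a ∈ C n, ∃ b ∈ C n, ε ≤ dist a b) → False

theorem Nul.fin (h : Nul X) {ε : ℝ} (hε : 0 < ε) {S : Set (Set X)} (h1 : ∀ C ∈ S, IsPreconnected C)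
    (h2 : ∀ C ∈ S, ∀ D ∈ S, ∀ z, z ∈ C → z ∈ D → C = D)
    (h3 : ∀ C ∈ S, ∃ a ∈ C, ∃ b ∈ C, ε ≤ dist a b) : S.Finite := by
  by_contra hi
  let e := Set.Infinite.natEmbedding S hi
  refine h ε hε (fun n => (e n).1) (fun n => h1 _ (e n).2) (fun i j hij => ?_) fun n => h3 _ (e n).2
  exact disjoint_left.2 fun z hz hz' => hij (e.injective (Subtype.ext (h2 _ (e i).2 _ (e j).2 z hz hz')))

theorem sub_cc {A F : Set X} (hA : IsPreconnected A) {x : X} (h1 : x ∈ A) (h2 : A ⊆ F) :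
    A ⊆ cc F x := hA.subset_connectedComponentIn h1 h2

theorem cc_pre (F : Set X) (x : X) : IsPreconnected (cc F x) := isPreconnected_connectedComponentIn

theorem cc_mono {F G : Set X} (h : F ⊆ G) (x : X) : cc F x ⊆ cc G x :=
  connectedComponentIn_mono x h

theorem cc_eq' {F : Set X} {x y : X} (h : y ∈ cc F x) : cc F y = cc F x :=
  (connectedComponentIn_eq h).symm

def LC (R : Set X) (x : X) : Prop := ∀ᶠ y in 𝓝 x, (y ∈ R ↔ x ∈ R)

theorem LC.of_mem {R : Set X} {x : X} (h : R ∈ 𝓝 x) : LC R x := by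
  filter_upwards [h] with y hy using iff_of_true hy (mem_of_mem_nhds h)

theorem LC.of_not {R : Set X} {x : X} (h : x ∉ closure R) : LC R x := by
  filter_upwards [isClosed_closure.isOpen_compl.mem_nhds h] with y hy using
    iff_of_false (fun h' => hy (subset_closure h')) fun h' => h (subset_closure h')

theorem LC.mem {R : Set X} {x : X} (h : LC R x) (hx : x ∈ R) : R ∈ 𝓝 x := by
  filter_upwards [h] with y hy using hy.2 hx

theorem LC.not {R : Set X} {x : X} (h : LC R x) (hx : x ∉ R) : x ∉ closure R := by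
  intro hc
  obtain ⟨y, h1, h2⟩ := mem_closure_iff_nhds.1 hc _ h
  exact hx (h1.1 h2)

theorem LC.compl {R : Set X} {x : X} (h : LC R x) : LC Rᶜ x := by
  filter_upwards [h] with y hy using not_congr hy

theorem LC.inter {R S : Set X} {x : X} (h : LC R x) (h' : LC S x) : LC (R ∩ S) x := by
  filter_upwards [h, h'] with y hy hy' using and_congr hy hy'

theorem LC.union {R S : Set X} {x : X} (h : LC R x) (h' : LC S x) : LC (R ∪ S) x := by
  filter_upwards [h, h'] with y hy hy' using or_congr hy hy'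

theorem LC.diff {R S : Set X} {x : X} (h : LC R x) (h' : LC S x) : LC (R \ S) x := h.inter h'.compl

theorem LC.int {R : Set X} {x : X} (h : LC R x) : LC (interior R) x := by
  by_cases hx : x ∈ R
  · exact LC.of_mem (interior_mem_nhds.2 (h.mem hx))
  · exact LC.of_not fun hc => h.not hx (closure_mono interior_subset hc)

theorem LC.clo {R : Set X} {x : X} (h : LC R x) : LC (closure R) x := by
  by_cases hx : x ∈ R
  · exact LC.of_mem (mem_of_superset (h.mem hx) subset_closure)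
  · exact LC.of_not (by rw [closure_closure]; exact h.not hx)

theorem LC.congr {R S : Set X} {x : X} (h : LC R x) (h' : ∀ᶠ y in 𝓝 x, (y ∈ R ↔ y ∈ S)) :
    LC S x := by
  filter_upwards [h, h'] with y hy hy' using hy'.symm.trans (hy.trans h'.self_of_nhds)

theorem LC.const {R C : Set X} (hC : IsPreconnected C) (h : ∀ x ∈ C, LC R x) {a : X} (ha : a ∈ C)
    (haR : a ∈ R) : C ⊆ R := by
  refine (hC.subset_left_of_subset_union (u := interior R) (v := (closure R)ᶜ) isOpen_interior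
    isClosed_closure.isOpen_compl ?_ ?_
    ⟨a, ha, mem_interior_iff_mem_nhds.2 ((h a ha).mem haR)⟩).trans interior_subset
  · exact disjoint_left.2 fun x h1 h2 => h2 (subset_closure (interior_subset h1))
  · intro x hx
    by_cases h1 : x ∈ R
    · exact Or.inl (mem_interior_iff_mem_nhds.2 ((h x hx).mem h1))
    · exact Or.inr ((h x hx).not h1)

theorem pre_of {C : Set X} (h : ∀ U V : Set X, IsOpen U → IsOpen V → Disjoint U V → C ⊆ U ∪ V →
    C ⊆ U ∨ C ⊆ V) : IsPreconnected C := by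
  intro u v hu hv hc ⟨a, ha⟩ ⟨b, hb⟩
  by_contra hn
  have key : ∀ u v : Set X, IsOpen v → ¬ (C ∩ (u ∩ v)).Nonempty →
      Disjoint (closure (C ∩ u)) (C ∩ v) := fun u v hv hn => disjoint_left.2 fun x h1 h2 => by
    obtain ⟨y, h3, h4⟩ := mem_closure_iff.1 h1 v hv h2.2
    exact hn ⟨y, h4.1, h4.2, h3⟩
  have := completely_normal (key u v hv hn) (key v u hu (by rwa [inter_comm v])).symm
  obtain ⟨U, V, hU, hV, h1, h2, h3⟩ := separatedNhds_iff_disjoint.2 this
  rcases h U V hU hV h3 (fun x hx => (hc hx).imp (fun h => h1 ⟨hx, h⟩) fun h => h2 ⟨hx, h⟩) with h | h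
  · exact disjoint_left.1 h3 (h hb.1) (h2 hb)
  · exact disjoint_left.1 h3 (h1 ha) (h ha.1)

theorem cover {P : Set X → Prop} (h0 : P ∅) (hu : ∀ A B, P A → P B → P (A ∪ B)) {Z : Set X}
    (hZ : IsCompact Z) (h : ∀ x ∈ Z, ∃ G, IsOpen G ∧ x ∈ G ∧ P G) :
    ∃ G, IsOpen G ∧ Z ⊆ G ∧ P G := by
  refine hZ.induction_on (p := fun S => ∃ G, IsOpen G ∧ S ⊆ G ∧ P G) ⟨∅, isOpen_empty, Subset.rfl, h0⟩
    ?_ ?_ ?_
  · rintro s t hst ⟨G, h1, h2, h3⟩; exact ⟨G, h1, hst.trans h2, h3⟩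
  · rintro s t ⟨G, h1, h2, h3⟩ ⟨G', h1', h2', h3'⟩
    exact ⟨G ∪ G', h1.union h1', union_subset_union h2 h2', hu _ _ h3 h3'⟩
  · intro x hx
    obtain ⟨G, h1, h2, h3⟩ := h x hx
    exact ⟨G, mem_nhdsWithin_of_mem_nhds (h1.mem_nhds h2), G, h1, Subset.rfl, h3⟩

theorem unc {K O : Set X} (hK : IsPreconnected K) {p q : X} (hp : p ∈ K) (hq : q ∈ K) (hpq : p ≠ q)
    (hO : IsOpen O) {x : X} (hx : x ∈ K) (hxO : x ∈ O) : ¬ (K ∩ O).Countable := by
  obtain ⟨k, hk, hkx⟩ : ∃ k ∈ K, k ≠ x := by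
    by_cases h : p = x
    · exact ⟨q, hq, fun h' => hpq (h.trans h'.symm)⟩
    · exact ⟨p, hp, h⟩
  obtain ⟨r, hr, hb⟩ := Metric.isOpen_iff.1 hO x hxO
  intro hc
  have h1 := hK.intermediate_value hx hk (f := fun y => dist y x) (by fun_prop)
  have h2 : Ioo 0 (min r (dist k x)) ⊆ (fun y => dist y x) '' (K ∩ O) := by
    intro t ht
    obtain ⟨y, hy, rfl⟩ := h1 (show t ∈ Icc (dist x x) (dist k x) from
      ⟨by simpa using ht.1.le, (ht.2.trans_le (min_le_right _ _)).le⟩)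
    exact ⟨y, ⟨hy, hb (ht.2.trans_le (min_le_left _ _))⟩, rfl⟩
  have h3 := (hc.image _).mono h2
  rw [← Cardinal.le_aleph0_iff_set_countable,
    Cardinal.mk_Ioo_real (lt_min hr (dist_pos.2 hkx))] at h3
  exact h3.not_gt Cardinal.aleph0_lt_continuum

variable [CompactSpace X]

theorem bern {K Z : Set X} (hZ : Z.Countable) : ∃ B : ℕ → Set X, (∀ i, B i ⊆ K \ Z) ∧
    Pairwise (fun i j => Disjoint (B i) (B j)) ∧
    ∀ i S, IsClosed S → S ⊆ K → ¬ S.Countable → (S ∩ B i).Nonempty := by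
  let T := {S : Set X // IsClosed S ∧ S ⊆ K ∧ ¬ S.Countable}
  have h1 : Cardinal.mk (T × ℕ) ≤ Cardinal.continuum := by
    have : Cardinal.mk T ≤ Cardinal.continuum :=
      (Cardinal.mk_le_of_injective (f := fun S : T => (⟨S.1, S.2.1⟩ : {F : Set X // IsClosed F}))
        fun a b h => Subtype.ext (congrArg (fun F : {F : Set X // IsClosed F} => F.1) h)).trans
        (Pool.Agent.H84.NCard.mk_closed_le X)
    simp only [Cardinal.mk_prod, Cardinal.lift_id, Cardinal.mk_nat]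
    exact (mul_le_mul_left this _).trans (by simp)
  obtain ⟨f, hf, hf'⟩ := Pool.Agent.H42.Bern.exists_transversal h1 (fun t => t.1.1 \ Z) (by
    rintro ⟨S, i⟩
    obtain ⟨g, hg, -, hg'⟩ := S.2.1.exists_nat_bool_injection_of_not_countable S.2.2.2
    have h2 : Cardinal.continuum ≤ Cardinal.mk S.1 := by
      have := Cardinal.mk_le_of_injective (f := fun a => (⟨g a, hg ⟨a, rfl⟩⟩ : S.1))
        fun a b h => hg' (congrArg Subtype.val h)
      simpa using this
    by_contra hc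
    have h3 := Cardinal.add_lt_of_lt Cardinal.aleph0_le_continuum (not_le.1 hc)
      ((Cardinal.le_aleph0_iff_set_countable.2 hZ).trans_lt Cardinal.aleph0_lt_continuum)
    exact h3.not_ge (h2.trans (Cardinal.le_mk_sdiff_add_mk _ _)))
  refine ⟨fun i => range fun S : T => f (S, i), ?_, fun i j hij => disjoint_left.2 ?_,
    fun i S h1 h2 h3 => ⟨_, (hf' (⟨S, h1, h2, h3⟩, i)).1, ⟨S, h1, h2, h3⟩, rfl⟩⟩
  · rintro i _ ⟨S, rfl⟩
    exact ⟨S.2.2.1 (hf' (S, i)).1, (hf' (S, i)).2⟩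
  · rintro _ ⟨S, rfl⟩ ⟨S', h⟩
    exact hij (congrArg Prod.snd (hf h)).symm

theorem Nul.lc (h : Nul X) {L : Set X} (hL : Ct L) {x : X} (_hx : x ∈ L) {r : ℝ} (hr : 0 < r) :
    ∃ M, Ct M ∧ M ⊆ L ∩ ball x r ∧ ∃ r' > 0, L ∩ ball x r' ⊆ M := by
  have hN : closedBall x (r / 2) ⊆ ball x r := closedBall_subset_ball (by linarith)
  by_cases h0 : L ⊆ closedBall x (r / 2)
  · exact ⟨L, hL, subset_inter Subset.rfl (h0.trans hN), 1, one_pos, inter_subset_left⟩
  have hc : IsClosed (L ∩ closedBall x (r / 2)) := hL.1.inter isClosed_closedBall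
  let S : Set (Set X) := {C | ∃ y ∈ L ∩ ball x (r / 4), C = cc (L ∩ closedBall x (r / 2)) y ∧ x ∉ C}
  have hS : S.Finite := by
    refine h.fin (ε := r / 4) (by linarith) ?_ ?_ ?_
    · rintro _ ⟨y, -, rfl, -⟩; exact cc_pre _ _
    · rintro _ ⟨y, -, rfl, -⟩ _ ⟨y', -, rfl, -⟩ z h1 h2; exact cc_eq h1 h2
    · rintro _ ⟨y, hy, rfl, -⟩
      have hy' : y ∈ closedBall x (r / 2) := ball_subset_closedBall (ball_subset_ball (by linarith) hy.2)
      obtain ⟨z, h1, h2⟩ := bb hL isClosed_closedBall hy.1 hy' h0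
      refine ⟨y, mem_cc ⟨hy.1, hy'⟩, z, h1, ?_⟩
      have h3 : r / 2 ≤ dist z x := not_lt.1 fun h => h2 (ball_subset_interior_closedBall h)
      have h4 : dist y x < r / 4 := hy.2
      linarith [dist_triangle_left z x y]
  have h1 : IsClosed (⋃₀ S) := by
    rw [sUnion_eq_biUnion]
    refine hS.isClosed_biUnion ?_
    rintro _ ⟨y, -, rfl, -⟩; exact (cc_ct hc y).1
  obtain ⟨ρ, hρ, hb⟩ := Metric.isOpen_iff.1 h1.isOpen_compl x (by
    rintro ⟨_, ⟨y, -, rfl, h⟩, h'⟩; exact h h')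
  refine ⟨_, cc_ct hc x, (cc_sub _ _).trans (inter_subset_inter_right _ hN), min ρ (r / 4),
    lt_min hρ (by linarith), fun y hy => ?_⟩
  have h2 : y ∈ ball x (r / 4) := ball_subset_ball (min_le_right _ _) hy.2
  have h3 : y ∈ L ∩ closedBall x (r / 2) :=
    ⟨hy.1, ball_subset_closedBall (ball_subset_ball (by linarith) h2)⟩
  by_contra hn
  refine hb (ball_subset_ball (min_le_left _ _) hy.2) ⟨_, ⟨y, ⟨hy.1, h2⟩, rfl, fun h4 => hn ?_⟩, mem_cc h3⟩
  rw [cc_eq' h4]; exact mem_cc h3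

theorem Nul.lcs [ConnectedSpace X] (h : Nul X) : LocallyConnectedSpace X := by
  refine locallyConnectedSpace_iff_connected_subsets.2 fun x U hU => ?_
  obtain ⟨r, hr, hb⟩ := Metric.mem_nhds_iff.1 hU
  obtain ⟨M, h1, h2, r', h3, h4⟩ := h.lc ⟨isClosed_univ, isPreconnected_univ⟩ (mem_univ x) hr
  exact ⟨M, mem_of_superset (ball_mem_nhds x h3) fun y hy => h4 ⟨trivial, hy⟩, h1.2,
    fun y hy => hb (h2 hy).2⟩

theorem easy (h : ∀ x : X, ∀ U : Set X, IsOpen U → x ∈ U →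
    ∃ V : Set X, IsOpen V ∧ x ∈ V ∧ V ⊆ U ∧ (frontier V).Finite) (A : ℕ → Set X)
    (h1 : ∀ n, IsConnected (A n)) (h2 : Pairwise (fun i j => Disjoint (A i) (A j))) :
    Tendsto (fun n => diam (A n)) atTop (𝓝 0) := by
  rw [Metric.tendsto_nhds]
  intro ε hε
  choose V hV1 hV2 hV3 hV4 using fun x => h x (ball x (ε / 4)) isOpen_ball (mem_ball_self (by linarith))
  obtain ⟨t, ht⟩ := isCompact_univ.elim_finite_subcover V hV1 fun x _ => mem_iUnion.2 ⟨x, hV2 x⟩
  have hF : (⋃ x ∈ t, frontier (V x)).Finite := t.finite_toSet.biUnion fun x _ => hV4 x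
  have hI : {n | (A n ∩ ⋃ x ∈ t, frontier (V x)).Nonempty}.Finite := by
    refine (hF.biUnion (t := fun z => {n | z ∈ A n}) fun z _ => Subsingleton.finite ?_).subset ?_
    · intro i hi j hj
      by_contra hij
      exact disjoint_left.1 (h2 hij) hi hj
    · rintro n ⟨z, hz, hz'⟩
      exact mem_biUnion hz' hz
  rw [← Nat.cofinite_eq_atTop]
  filter_upwards [hI.compl_mem_cofinite] with n hn
  obtain ⟨a, ha⟩ := (h1 n).1
  obtain ⟨x, hx, hax⟩ := mem_iUnion₂.1 (ht (mem_univ a))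
  have : A n ⊆ V x := LC.const (h1 n).2 (fun y hy => by
    by_cases h3 : y ∈ V x
    · exact LC.of_mem ((hV1 x).mem_nhds h3)
    · refine LC.of_not fun h4 => hn ⟨y, hy, mem_biUnion hx ?_⟩
      rw [(hV1 x).frontier_eq]; exact ⟨h4, h3⟩) ha hax
  have h5 := (diam_mono (this.trans (hV3 x)) isBounded_ball).trans (diam_ball (by linarith))
  rw [Real.dist_eq, sub_zero, abs_of_nonneg diam_nonneg]
  linarith

end Pool.Agent.H71.Lel
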