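import Pool.Agent.H71.Lel1

set_option autoImplicit false

namespace Pool.Agent.H71.Lel

open Set Filter Topology Metric Pool.Agent.H71.Hag

variable {X : Type} [MetricSpace X]

theorem pw_lt {C : ℕ → Set X} (h : ∀ i j, i < j → Disjoint (C i) (C j)) :
    Pairwise fun i j => Disjoint (C i) (C j) := fun i j hij =>
  (lt_or_gt_of_ne hij).elim (h i j) fun h' => (h j i h').symm

def BF (Y R : Set X) : Prop := ∃ F : Set X, F.Finite ∧ ∀ x ∈ Y, x ∉ F → LC R x

theorem BF.compl {Y R : Set X} (h : BF Y R) : BF Y Rᶜ := by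
  obtain ⟨F, h1, h2⟩ := h; exact ⟨F, h1, fun x hx h => (h2 x hx h).compl⟩

theorem BF.inter {Y R S : Set X} (h : BF Y R) (h' : BF Y S) : BF Y (R ∩ S) := by
  obtain ⟨F, h1, h2⟩ := h; obtain ⟨F', h1', h2'⟩ := h'
  exact ⟨F ∪ F', h1.union h1', fun x hx h => (h2 x hx fun h' => h (Or.inl h')).inter
    (h2' x hx fun h' => h (Or.inr h'))⟩

theorem BF.union {Y R S : Set X} (h : BF Y R) (h' : BF Y S) : BF Y (R ∪ S) := by
  have := (h.compl.inter h'.compl).compl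
  rwa [← compl_union, compl_compl] at this

theorem BF.diff {Y R S : Set X} (h : BF Y R) (h' : BF Y S) : BF Y (R \ S) := h.inter h'.compl

theorem bf_empty (Y : Set X) : BF Y ∅ := ⟨∅, finite_empty, fun _ _ _ => LC.of_not (by simp)⟩

theorem bf_univ (Y : Set X) : BF Y univ := ⟨∅, finite_empty, fun _ _ _ => LC.of_mem univ_mem⟩

structure Core (K : Set X) (p q : X) : Prop where
  cl : IsClosed K
  con : IsPreconnected K
  hp : p ∈ K
  hq : q ∈ K
  ne : p ≠ q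
  thick : ∀ R, BF univ R → (K ∩ R).Finite ∨ (K \ R).Finite
  out : ∀ x ∉ K, ∃ G, IsOpen G ∧ x ∈ G ∧ BF univ G ∧ Disjoint G K

theorem Core.unc {K O : Set X} {p q : X} (h : Core K p q) (hO : IsOpen O) (hn : (K ∩ O).Nonempty) :
    ¬ (K ∩ O).Countable := by
  obtain ⟨x, h1, h2⟩ := hn
  exact Lel.unc h.con h.hp h.hq h.ne hO h1 h2

theorem Core.inf {K O : Set X} {p q : X} (h : Core K p q) (hO : IsOpen O) (hn : (K ∩ O).Nonempty) :
    ¬ (K ∩ O).Finite := fun h' => h.unc hO hn h'.countable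

theorem Core.pick {K O Z : Set X} {p q : X} (h : Core K p q) (hO : IsOpen O) (hn : (K ∩ O).Nonempty)
    (hZ : Z.Countable) : ∃ a ∈ K ∩ O, a ∉ Z := by
  by_contra hc
  push Not at hc
  exact h.unc hO hn (hZ.mono hc)

def Good (K W A : Set X) : Prop :=
  ∃ R F : Set X, F.Finite ∧ ∀ x ∈ W, x ∉ F → LC R x ∧ (x ∈ K → (x ∈ A ↔ x ∈ R))

def Blob (K Y O : Set X) : Prop := IsOpen O ∧ O ⊆ Y ∧ (K ∩ O).Nonempty ∧
  ∀ R, BF Y R → (K ∩ O ∩ R).Finite ∨ ((K ∩ O) \ R).Finite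

variable [CompactSpace X]

theorem core_ex {p : X} {U : Set X} (hU : IsOpen U) (hp : p ∈ U)
    (h : ∀ V : Set X, IsOpen V → p ∈ V → V ⊆ U → ¬ (frontier V).Finite) :
    ∃ K : Set X, ∃ q, Core K p q := by
  obtain ⟨q, hqU, hq⟩ : ∃ q, q ∉ U ∧ ∀ R, BF univ R → p ∉ closure R → q ∉ interior R := by
    by_contra hc
    push Not at hc
    obtain ⟨G, h1, h2, ⟨F, h3, h4⟩, h5⟩ := cover (P := fun G => BF univ G ∧ p ∉ closure G)
      ⟨bf_empty _, by simp⟩ (fun A B hA hB => ⟨hA.1.union hB.1, by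
        rw [closure_union]; exact fun h => h.elim hA.2 hB.2⟩) hU.isClosed_compl.isCompact (fun x hx => by
        obtain ⟨R, ⟨F, h1, h2⟩, h3, h4⟩ := hc x hx
        exact ⟨interior R, isOpen_interior, h4, ⟨F, h1, fun y hy h => (h2 y hy h).int⟩,
          fun h => h3 (closure_mono interior_subset h)⟩)
    refine h (closure G)ᶜ isClosed_closure.isOpen_compl h5
      (fun x hx => by_contra fun h => hx (subset_closure (h2 h))) (h3.subset fun x hx => ?_)
    by_contra hn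
    have h6 := (h4 x trivial hn).clo.compl
    rw [isClosed_closure.isOpen_compl.frontier_eq] at hx
    exact h6.not hx.2 hx.1
  have hpq : p ≠ q := fun h => hqU (h ▸ hp)
  let F0 : Filter X :=
    { sets := {S | ∃ R R', BF univ R ∧ p ∉ closure R ∧ BF univ R' ∧ q ∉ closure R' ∧ Sᶜ ⊆ R ∪ R'}
      univ_sets := ⟨∅, ∅, bf_empty _, by simp, bf_empty _, by simp, by simp⟩
      sets_of_superset := by
        rintro S T ⟨R, R', h1, h2, h3, h4, h5⟩ h
        exact ⟨R, R', h1, h2, h3, h4, (compl_subset_compl.2 h).trans h5⟩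
      inter_sets := by
        rintro S T ⟨R, R', h1, h2, h3, h4, h5⟩ ⟨Q, Q', g1, g2, g3, g4, g5⟩
        refine ⟨R ∪ Q, R' ∪ Q', h1.union g1, ?_, h3.union g3, ?_, ?_⟩
        · rw [closure_union]; exact fun h => h.elim h2 g2
        · rw [closure_union]; exact fun h => h.elim h4 g4
        · rw [compl_inter]
          rintro x (hx | hx)
          · exact (h5 hx).imp Or.inl Or.inl
          · exact (g5 hx).imp Or.inr Or.inr }
  have : F0.NeBot := by
    refine ⟨fun h0 => ?_⟩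
    obtain ⟨R, R', h1, h2, h3, h4, h5⟩ := empty_mem_iff_bot.2 h0
    refine hq R h1 h2 (mem_interior_iff_mem_nhds.2 ?_)
    filter_upwards [isClosed_closure.isOpen_compl.mem_nhds h4] with y hy
    exact (h5 (by simp)).resolve_right fun h => hy (subset_closure h)
  let u := Ultrafilter.of F0
  have hu : ∀ S ∈ F0, S ∈ u := fun S hS => Ultrafilter.of_le F0 hS
  let K : Set X := {x | ∀ R, BF univ R → R ∈ u → x ∈ closure R}
  have hK : IsClosed K := by
    have : K = ⋂ R ∈ {R | BF univ R ∧ R ∈ u}, closure R := by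
      ext x; simp [K]
    rw [this]; exact isClosed_biInter fun _ _ => isClosed_closure
  have hout : ∀ x ∉ K, ∃ G, IsOpen G ∧ x ∈ G ∧ BF univ G ∧ G ∉ u ∧ Disjoint G K := by
    intro x hx
    obtain ⟨R, h1, h2, h3⟩ : ∃ R, BF univ R ∧ R ∈ u ∧ x ∉ closure R := by
      by_contra hc
      push Not at hc
      exact hx hc
    refine ⟨(closure R)ᶜ, isClosed_closure.isOpen_compl, h3, ?_,
      Ultrafilter.compl_notMem_iff.2 (mem_of_superset h2 subset_closure),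
      disjoint_left.2 fun y hy hy' => hy (hy' R h1 h2)⟩
    obtain ⟨F, h4, h5⟩ := h1
    exact ⟨F, h4, fun y hy h => (h5 y hy h).clo.compl⟩
  have hth : ∀ R, BF univ R → R ∈ u → (K \ R).Finite := by
    intro R h1 h2
    obtain ⟨F, h4, h5⟩ := id h1
    exact h4.subset fun x hx => by_contra fun hn => (h5 x trivial hn).not hx.2 (hx.1 R h1 h2)
  refine ⟨K, q, hK, ?_, fun R h1 h2 => by_contra fun h3 => ?_, fun R h1 h2 => by_contra fun h3 => ?_,
    hpq, fun R h1 => ?_, fun x hx => ?_⟩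
  · refine isPreconnected_iff_subset_of_disjoint_closed.2 fun a b ha hb hc hd => ?_
    obtain ⟨O, O', h1, h2, h3, h4, h5⟩ := normal_separation (hK.inter ha) (hK.inter hb)
      (disjoint_left.2 fun x h1 h2 => (hd.subset ⟨h1.1, h1.2, h2.2⟩ :))
    obtain ⟨G, g1, g2, ⟨F, g3, g4⟩, g5⟩ := cover (P := fun G => BF univ G ∧ G ∉ u)
      ⟨bf_empty _, Ultrafilter.empty_notMem⟩ (fun A B hA hB => ⟨hA.1.union hB.1, fun h =>
        (Ultrafilter.union_mem_iff.1 h).elim hA.2 hB.2⟩)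
      (h1.union h2).isClosed_compl.isCompact (fun x hx => by
        obtain ⟨G, g1, g2, g3, g4, -⟩ := hout x fun h =>
          hx ((hc h).imp (fun h' => h3 ⟨h, h'⟩) fun h' => h4 ⟨h, h'⟩)
        exact ⟨G, g1, g2, g3, g4⟩)
    have key : ∀ O O' : Set X, IsOpen O → IsOpen O' → Disjoint O O' → (O ∪ O')ᶜ ⊆ G →
        ∀ k ∈ K, k ∈ O → O ∪ G ∈ u := by
      intro O O' h1 h2 h5 g2 k hk hkO
      by_contra hn
      have h6 : BF univ (O ∪ G) := ⟨F, g3, fun x hx hF => by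
        by_cases h7 : x ∈ O ∪ G
        · exact LC.of_mem ((h1.union g1).mem_nhds h7)
        · refine LC.union (LC.of_not fun h8 => ?_) (g4 x hx hF)
          have h9 : x ∈ O' := by_contra fun h9 =>
            h7 (Or.inr (g2 fun h => h.elim (fun h => h7 (Or.inl h)) h9))
          exact disjoint_left.1 (h5.closure_left h2) h8 h9⟩
      have := hk _ h6.compl (Ultrafilter.compl_mem_iff_notMem.2 hn)
      rw [(h1.union g1).isClosed_compl.closure_eq] at this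
      exact this (Or.inl hkO)
    by_contra hn
    push Not at hn
    obtain ⟨k, hk, hk'⟩ := not_subset.1 hn.1
    obtain ⟨l, hl, hl'⟩ := not_subset.1 hn.2
    have h6 := key O O' h1 h2 h5 g2 l hl (h3 ⟨hl, (hc hl).resolve_right hl'⟩)
    have h7 := key O' O h2 h1 h5.symm (by rwa [union_comm]) k hk (h4 ⟨hk, (hc hk).resolve_left hk'⟩)
    refine g5 (mem_of_superset (inter_mem h6 h7) ?_)
    rintro x ⟨h8 | h8, h9 | h9⟩
    · exact absurd h9 (disjoint_left.1 h5 h8)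
    all_goals assumption
  · exact Ultrafilter.compl_notMem_iff.2 h2 (hu _ ⟨R, ∅, h1, h3, bf_empty _, by simp, by simp⟩)
  · exact Ultrafilter.compl_notMem_iff.2 h2 (hu _ ⟨∅, R, bf_empty _, by simp, h1, h3, by simp⟩)
  · rcases u.mem_or_compl_mem R with h2 | h2
    · exact Or.inr (hth R h1 h2)
    · exact Or.inl (by simpa using hth _ h1.compl h2)
  · obtain ⟨G, g1, g2, g3, -, g4⟩ := hout x hx
    exact ⟨G, g1, g2, g3, g4⟩

theorem Core.glue {K A Z : Set X} {p q : X} (hK : Core K p q) (hZ : IsCompact Z)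
    (h : ∀ x ∈ Z, ∃ W, IsOpen W ∧ x ∈ W ∧ Good K W A) : Good K Z A := by
  suffices h0 : ∃ W, IsOpen W ∧ closure Z ⊆ W ∧ Good K W A by
    obtain ⟨W, -, h1, R, F, h2, h3⟩ := h0
    exact ⟨R, F, h2, fun x hx => h3 x (h1 (subset_closure hx))⟩
  refine hZ.induction_on (p := fun S => ∃ W, IsOpen W ∧ closure S ⊆ W ∧ Good K W A)
    ⟨∅, isOpen_empty, by simp, ∅, ∅, finite_empty, fun x hx => hx.elim⟩ ?_ ?_ ?_
  · rintro s t hst ⟨G, h1, h2, h3⟩; exact ⟨G, h1, (closure_mono hst).trans h2, h3⟩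
  · rintro s t ⟨W, h1, h2, R, F, h3, h4⟩ ⟨W', g1, g2, R', F', g3, g4⟩
    have hF := h3.union g3
    obtain ⟨H, a1, a2, a3⟩ := normal_exists_closure_subset
      (isClosed_closure.union (hF.inter_of_left W).isClosed) h1 (union_subset h2 inter_subset_right)
    obtain ⟨V, b1, b2, b3⟩ := normal_exists_closure_subset isClosed_closure g1 g2
    let Zb := (closure H \ H) ∩ closure V ∩ closure {y | ¬ (y ∈ R ↔ y ∈ R')}
    obtain ⟨G, c1, c2, ⟨E, c3, c4⟩, c5⟩ := cover (Z := Zb) (P := fun G => BF univ G ∧ Disjoint G K)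
      ⟨bf_empty _, by simp⟩ (fun A B hA hB => ⟨hA.1.union hB.1, disjoint_union_left.2 ⟨hA.2, hB.2⟩⟩)
      (((isClosed_closure.sdiff a1).inter isClosed_closure).inter isClosed_closure).isCompact
      (fun x hx => hK.out x fun hxK => by
        have d1 : x ∉ F ∪ F' := fun h => hx.1.1.2 (a2 (Or.inr ⟨h, a3 hx.1.1.1⟩))
        obtain ⟨d2, d3⟩ := h4 x (a3 hx.1.1.1) fun h => d1 (Or.inl h)
        obtain ⟨d4, d5⟩ := g4 x (b3 hx.1.2) fun h => d1 (Or.inr h)
        obtain ⟨y, d6, d7⟩ := mem_closure_iff_nhds.1 hx.2 _ (d2.and d4)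
        exact d7 (d6.1.trans (((d3 hxK).symm.trans (d5 hxK)).trans d6.2.symm)))
    refine ⟨H ∪ V, a1.union b1, ?_, (R ∩ H ∪ R' \ H) ∪ G, (F ∪ F') ∪ E, hF.union c3,
      fun x hx hF => ?_⟩
    · rw [closure_union]; exact union_subset_union (fun x hx => a2 (Or.inl hx)) b2
    have d1 : x ∉ F := fun h => hF (Or.inl (Or.inl h))
    have d2 : x ∉ F' := fun h => hF (Or.inl (Or.inr h))
    have d3 := c4 x trivial fun h => hF (Or.inr h)
    by_cases hH : x ∈ H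
    · obtain ⟨e1, e2⟩ := h4 x (a3 (subset_closure hH)) d1
      refine ⟨LC.union (e1.congr ?_) d3, fun hxK => (e2 hxK).trans ?_⟩
      · filter_upwards [a1.mem_nhds hH] with y hy
        simp [hy]
      · simp [hH, disjoint_right.1 c5 hxK]
    have hV : x ∈ V := hx.resolve_left hH
    obtain ⟨e1, e2⟩ := g4 x (b3 (subset_closure hV)) d2
    refine ⟨?_, fun hxK => (e2 hxK).trans (by simp [hH, disjoint_right.1 c5 hxK])⟩
    by_cases hG : x ∈ G
    · exact LC.of_mem (mem_of_superset (c1.mem_nhds hG) subset_union_right)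
    refine LC.union (e1.congr ?_) d3
    by_cases hc : x ∈ closure H
    · have : x ∉ closure {y | ¬ (y ∈ R ↔ y ∈ R')} := fun h =>
        hG (c2 ⟨⟨⟨hc, hH⟩, subset_closure hV⟩, h⟩)
      filter_upwards [isClosed_closure.isOpen_compl.mem_nhds this] with y hy
      have : y ∈ R ↔ y ∈ R' := by_contra fun h => hy (subset_closure h)
      simp only [mem_union, mem_inter_iff, Set.mem_sdiff, this]
      tauto
    · filter_upwards [isClosed_closure.isOpen_compl.mem_nhds hc] with y hy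
      have : y ∉ H := fun h => hy (subset_closure h)
      simp [this]
  · intro x hx
    obtain ⟨W, h1, h2, h3⟩ := h x hx
    obtain ⟨V, b1, b2, b3⟩ := normal_exists_closure_subset isClosed_singleton h1
      (singleton_subset_iff.2 h2)
    exact ⟨V, mem_nhdsWithin_of_mem_nhds (b1.mem_nhds (b2 rfl)), W, h1, b3, h3⟩

theorem Core.loc [LocallyConnectedSpace X] (hN : Nul X) {K Y : Set X} {p q x k : X} {ρ : ℝ}
    (hK : Core K p q) (hY : IsOpen Y) (hρ : 0 < ρ) (hb : ball x (2 * ρ) ⊆ Y) (hk : k ∈ K)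
    (hkY : k ∉ closure Y) : ∃ S : Set (Set X), S.Finite ∧ (∀ O ∈ S, Blob K Y O ∧ O ⊆ ball x ρ) ∧
      K ∩ ball x ρ ⊆ closure (⋃ O ∈ S, K ∩ O) ∧
      ∀ A, (∀ O ∈ S, ((K ∩ O) \ A).Finite ∨ (K ∩ O ∩ A).Finite) → Good K (ball x ρ) A := by
  let T := K ∩ ball x ρ
  have hb' : ball x ρ ⊆ Y := (ball_subset_ball (by linarith)).trans hb
  have big : ∀ R, BF Y R → ¬ (T ∩ R).Finite →
      ∃ C ⊆ R, IsPreconnected C ∧ ∃ a ∈ C, ∃ b ∈ C, ρ ≤ dist a b := by
    rintro R ⟨F, h1, h2⟩ h3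
    obtain ⟨y, hy, hyF⟩ := Infinite.exists_notMem_finite h3 h1
    have hyY : y ∈ Y \ F := ⟨hb' hy.1.2, hyF⟩
    have ho : IsOpen (Y \ F) := hY.sdiff h1.isClosed
    refine ⟨cc (Y \ F) y, LC.const (cc_pre _ _) (fun z hz => h2 z (cc_sub _ _ hz).1 (cc_sub _ _ hz).2)
      (mem_cc hyY) hy.2, cc_pre _ _, y, mem_cc hyY, ?_⟩
    by_contra hc
    push Not at hc
    have h4 : closure (cc (Y \ F) y) ⊆ Y := by
      refine (closure_minimal (t := closedBall y ρ) (fun z hz => mem_closedBall'.2 (hc z hz).le)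
        isClosed_closedBall).trans fun z hz => hb ?_
      have := dist_triangle z y x
      rw [mem_ball]; linarith [mem_closedBall.1 hz, mem_ball.1 hy.1.2]
    have h5 : BF univ (cc (Y \ F) y) := ⟨F, h1, fun z _ hz => by
      by_cases h6 : z ∈ closure (cc (Y \ F) y)
      · obtain ⟨w, h7, h8⟩ := mem_closure_iff.1 h6 _ (ho.connectedComponentIn (x := z))
          (mem_cc ⟨h4 h6, hz⟩)
        refine LC.of_mem (ho.connectedComponentIn.mem_nhds ?_)
        rw [← cc, ← cc_eq h7 h8]; exact mem_cc ⟨h4 h6, hz⟩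
      · exact LC.of_not h6⟩
    rcases hK.thick _ h5 with h6 | h6
    · exact hK.inf ho.connectedComponentIn ⟨y, hy.1.1, mem_cc hyY⟩ h6
    · refine hK.inf isClosed_closure.isOpen_compl ⟨k, hk, hkY⟩ (h6.subset fun z hz => ⟨hz.1, fun h => ?_⟩)
      exact hz.2 (subset_closure (cc_sub _ _ h).1)
  let Nice : Set X → Prop := fun R => ∃ S : Set (Set X), S.Finite ∧
    (∀ O ∈ S, Blob K Y O ∧ O ⊆ ball x ρ) ∧ ((T ∩ R) \ ⋃ O ∈ S, K ∩ O).Finite ∧
    ∀ A, (∀ O ∈ S, ((K ∩ O) \ A).Finite ∨ (K ∩ O ∩ A).Finite) →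
      ∃ R', BF Y R' ∧ {z ∈ T ∩ R | ¬ (z ∈ A ↔ z ∈ R')}.Finite
  have step : ∀ R, BF Y R ∧ ¬ Nice R → ∃ R', (BF Y R' ∧ ¬ Nice R') ∧ R' ⊆ R ∧
      ∃ C ⊆ R \ R', IsPreconnected C ∧ ∃ a ∈ C, ∃ b ∈ C, ρ ≤ dist a b := by
    rintro R ⟨h1, h2⟩
    have h3 : ¬ (T ∩ R).Finite := fun h => h2 ⟨∅, finite_empty, by simp, h.sdiff,
      fun A _ => ⟨∅, bf_empty _, h.subset fun z hz => hz.1⟩⟩
    obtain ⟨Q, h4, h5, h6⟩ : ∃ Q, BF Y Q ∧ ¬ (T ∩ (R ∩ Q)).Finite ∧ ¬ (T ∩ (R \ Q)).Finite := by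
      by_contra hc
      push Not at hc
      obtain ⟨F, g1, g2⟩ := h1
      have g3 : (T ∩ R) \ (K ∩ (ball x ρ ∩ interior R)) ⊆ F := fun z hz => by_contra fun hn =>
        hz.2 ⟨hz.1.1.1, hz.1.1.2, mem_interior_iff_mem_nhds.2 ((g2 z (hb' hz.1.1.2) hn).mem hz.1.2)⟩
      refine h2 ⟨{ball x ρ ∩ interior R}, finite_singleton _, ?_, ?_, fun A hA => ?_⟩
      · rintro _ rfl
        refine ⟨⟨isOpen_ball.inter isOpen_interior, inter_subset_left.trans hb', ?_, fun Q hQ => ?_⟩,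
          inter_subset_left⟩
        · obtain ⟨y, hy, hyF⟩ := Infinite.exists_notMem_finite h3 g1
          exact ⟨y, by_contra fun h => hyF (g3 ⟨hy, h⟩)⟩
        · by_cases g4 : (T ∩ (R ∩ Q)).Finite
          · exact Or.inl (g4.subset fun z hz =>
              ⟨⟨hz.1.1, hz.1.2.1⟩, interior_subset hz.1.2.2, hz.2⟩)
          · exact Or.inr ((hc Q hQ g4).subset fun z hz =>
              ⟨⟨hz.1.1, hz.1.2.1⟩, interior_subset hz.1.2.2, hz.2⟩)
      · rw [biUnion_singleton]; exact g1.subset g3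
      · rcases hA _ rfl with g4 | g4
        · refine ⟨univ, bf_univ _, (g1.union g4).subset fun z hz => ?_⟩
          by_cases g5 : z ∈ K ∩ (ball x ρ ∩ interior R)
          · exact Or.inr ⟨g5, fun h => hz.2 (iff_of_true h trivial)⟩
          · exact Or.inl (g3 ⟨hz.1, g5⟩)
        · refine ⟨∅, bf_empty _, (g1.union g4).subset fun z hz => ?_⟩
          by_cases g5 : z ∈ K ∩ (ball x ρ ∩ interior R)
          · exact Or.inr ⟨g5, by_contra fun h => hz.2 (iff_of_false h id)⟩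
          · exact Or.inl (g3 ⟨hz.1, g5⟩)
    by_cases h7 : Nice (R ∩ Q)
    · refine ⟨R \ Q, ⟨h1.diff h4, fun h8 => h2 ?_⟩, sdiff_subset, ?_⟩
      · obtain ⟨S, a1, a2, a3, a4⟩ := h7
        obtain ⟨S', b1, b2, b3, b4⟩ := h8
        refine ⟨S ∪ S', a1.union b1, fun O hO => hO.elim (a2 O) (b2 O),
          (a3.union b3).subset fun z hz => ?_, fun A hA => ?_⟩
        · rw [biUnion_union] at hz
          by_cases g : z ∈ Q
          · exact Or.inl ⟨⟨hz.1.1, hz.1.2, g⟩, fun h => hz.2 (Or.inl h)⟩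
          · exact Or.inr ⟨⟨hz.1.1, hz.1.2, g⟩, fun h => hz.2 (Or.inr h)⟩
        · obtain ⟨R1, c1, c2⟩ := a4 A fun O hO => hA O (Or.inl hO)
          obtain ⟨R2, d1, d2⟩ := b4 A fun O hO => hA O (Or.inr hO)
          refine ⟨R1 ∩ Q ∪ R2 \ Q, (c1.inter h4).union (d1.diff h4),
            (c2.union d2).subset fun z hz => ?_⟩
          by_cases g : z ∈ Q
          · exact Or.inl ⟨⟨hz.1.1, hz.1.2, g⟩, fun h => hz.2 (h.trans (by simp [g]))⟩
          · exact Or.inr ⟨⟨hz.1.1, hz.1.2, g⟩, fun h => hz.2 (h.trans (by simp [g]))⟩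
      · obtain ⟨C, c1, c2⟩ := big _ (h1.inter h4) h5
        exact ⟨C, fun z hz => ⟨(c1 hz).1, fun h => h.2 (c1 hz).2⟩, c2⟩
    · refine ⟨R ∩ Q, ⟨h1.inter h4, h7⟩, inter_subset_left, ?_⟩
      obtain ⟨C, c1, c2⟩ := big _ (h1.diff h4) h6
      exact ⟨C, fun z hz => ⟨(c1 hz).1, fun h => (c1 hz).2 h.2⟩, c2⟩
  have hn : Nice univ := by
    by_contra hn
    choose f f1 f2 C c1 c2 c3 using step
    let s : ℕ → {R // BF Y R ∧ ¬ Nice R} := fun n =>
      Nat.rec ⟨univ, bf_univ _, hn⟩ (fun _ R => ⟨f R.1 R.2, f1 R.1 R.2⟩) n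
    have hs : Antitone fun n => (s n).1 := antitone_nat_of_succ_le fun n => f2 _ (s n).2
    refine hN ρ hρ (fun n => C _ (s n).2) (fun n => c2 _ _) ?_ fun n => c3 _ _
    refine pw_lt fun i j hij => ?_
    exact disjoint_left.2 fun z h1 h2 => (c1 _ (s i).2 h1).2 (hs (Nat.succ_le_of_lt hij) (c1 _ (s j).2 h2).1)
  obtain ⟨S, a1, a2, a3, a4⟩ := hn
  refine ⟨S, a1, a2, fun z hz => mem_closure_iff.2 fun o ho hzo => ?_, fun A hA => ?_⟩
  · obtain ⟨w, h1, h2⟩ := hK.pick (ho.inter isOpen_ball) ⟨z, hz.1, hzo, hz.2⟩ a3.countable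
    exact ⟨w, h1.2.1, by_contra fun h => h2 ⟨⟨⟨h1.1, h1.2.2⟩, trivial⟩, h⟩⟩
  · obtain ⟨R, ⟨F, b1, b2⟩, b3⟩ := a4 A hA
    exact ⟨R, _, b1.union b3, fun z hz h => ⟨b2 z (hb' hz) fun h' => h (Or.inl h'),
      fun hzK => by_contra fun h' => h (Or.inr ⟨⟨⟨hzK, hz⟩, trivial⟩, h'⟩)⟩⟩

end Pool.Agent.H71.Lel
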