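import Pool.Agent.H71.Lel2

set_option autoImplicit false

namespace Pool.Agent.H71.Lel

open Set Filter Topology Metric Pool.Agent.H71.Hag

variable {X : Type} [MetricSpace X]

def Sep (E A B : Set X) : Prop := IsOpen A ∧ IsOpen B ∧ E ⊆ A ∪ B ∧ ∀ x ∈ E, x ∈ A → x ∉ B

theorem Sep.mono {E E' A B : Set X} (h : Sep E A B) (h' : E' ⊆ E) : Sep E' A B :=
  ⟨h.1, h.2.1, h'.trans h.2.2.1, fun x hx => h.2.2.2 x (h' hx)⟩

theorem Sep.symm {E A B : Set X} (h : Sep E A B) : Sep E B A :=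
  ⟨h.2.1, h.1, by rw [union_comm]; exact h.2.2.1, fun x hx h1 h2 => h.2.2.2 x hx h2 h1⟩

theorem Sep.sub {E A B M : Set X} (h : Sep E A B) (hM : IsPreconnected M) (h1 : M ⊆ E) {x : X}
    (hx : x ∈ M) (hA : x ∈ A) : M ⊆ A := fun y hy => by
  by_contra hn
  obtain ⟨z, h2, h3, h4⟩ := hM A B h.1 h.2.1 (h1.trans h.2.2.1) ⟨x, hx, hA⟩
    ⟨y, hy, (h.2.2.1 (h1 hy)).resolve_left hn⟩
  exact h.2.2.2 z (h1 h2) h3 h4

theorem Sep.clo {L A B : Set X} {a : X} (hL : IsClosed L) (h : Sep (L \ {a}) A B) :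
    IsClosed (insert a ((L \ {a}) ∩ A)) := by
  have : insert a ((L \ {a}) ∩ A) = {a} ∪ L \ B := by
    ext x
    by_cases hx : x = a
    · simp [hx]
    · simp only [mem_insert_iff, hx, false_or, mem_union, mem_singleton_iff]
      exact ⟨fun h1 => ⟨h1.1.1, h.2.2.2 x h1.1 h1.2⟩,
        fun h1 => ⟨⟨h1.1, hx⟩, (h.2.2.1 ⟨h1.1, hx⟩).resolve_right h1.2⟩⟩
  rw [this]; exact isClosed_singleton.union (hL.sdiff h.2.1)

theorem Sep.ct {L A B : Set X} {a : X} (hL : Ct L) (ha : a ∈ L) (h : Sep (L \ {a}) A B) :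
    Ct (insert a ((L \ {a}) ∩ A)) := by
  refine cut (h.clo hL.1) (h.symm.clo hL.1) (v := a) ?_ (mem_insert _ _) (mem_insert _ _) ?_
  · convert hL.2 using 1
    refine Subset.antisymm (union_subset (insert_subset ha fun x hx => hx.1.1)
      (insert_subset ha fun x hx => hx.1.1)) fun x hx => ?_
    by_cases h1 : x = a
    · exact Or.inl (Or.inl h1)
    · exact (h.2.2.1 ⟨hx, h1⟩).imp (fun h => Or.inr ⟨⟨hx, h1⟩, h⟩) fun h => Or.inr ⟨⟨hx, h1⟩, h⟩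
  · rintro x ⟨h1 | h1, h2 | h2⟩
    · exact h1
    · exact h1
    · exact h2
    · exact absurd h2.2 (h.2.2.2 x h1.1 h1.2)

def One (E A B D : Set X) : Prop := Disjoint D (E ∩ A) ∨ Disjoint D (E ∩ B)

theorem One.mono {E A B D D' : Set X} (h : One E A B D) (h' : D' ⊆ D) : One E A B D' :=
  h.imp (fun h => h.mono_left h') fun h => h.mono_left h'

variable [CompactSpace X]

theorem zlem (hN : Nul X) {L Q : Set X} (hL : Ct L) (hQ : IsClosed Q) (hQL : Q ⊆ L) {a0 : X}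
    (h0 : a0 ∈ Q) (hd : ∀ O, IsOpen O → (O ∩ Q).Nonempty → ∃ a ∈ O ∩ Q, ∃ A B,
      Sep (L \ {a}) A B ∧ ¬ One (L \ {a}) A B Q) :
    ∃ a ∈ Q, ∀ r > 0, ∀ A B, Sep ((L ∩ ball a r) \ {a}) A B →
      ∃ r' > 0, One ((L ∩ ball a r) \ {a}) A B (Q ∩ ball a r') := by
  let P : Set X × X → Prop := fun t => t.2 ∈ Q ∧ a0 ∉ t.1 ∧ (Q ∩ t.1).Nonempty ∧
    ∃ A B, Sep (L \ {t.2}) A B ∧ t.1 = (L \ {t.2}) ∩ A
  have ex : ∀ O, IsOpen O → (O ∩ Q).Nonempty → ∃ t : {t // P t}, t.1.2 ∈ O ∩ Q := by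
    intro O h1 h2
    obtain ⟨a, h3, A, B, h4, h5⟩ := hd O h1 h2
    simp only [One, not_or, not_disjoint_iff_nonempty_inter] at h5
    by_cases h6 : a0 ∈ (L \ {a}) ∩ A
    · exact ⟨⟨((L \ {a}) ∩ B, a), h3.2, fun h => h4.2.2.2 _ h6.1 h6.2 h.2, h5.2, B, A, h4.symm, rfl⟩, h3⟩
    · exact ⟨⟨((L \ {a}) ∩ A, a), h3.2, h6, h5.1, A, B, h4, rfl⟩, h3⟩
  have h3 : ∀ t : {t // P t}, ∀ M, IsPreconnected M → M ⊆ L → t.1.2 ∉ M → ∀ x ∈ M, x ∈ t.1.1 →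
      M ⊆ t.1.1 := by
    intro t M hM h2 h3 x h4 h5
    obtain ⟨-, -, -, A, B, h1, e⟩ := t.2
    rw [e] at h5 ⊢
    have : M ⊆ L \ {t.1.2} := fun y hy => ⟨h2 hy, fun h => h3 (by rwa [← show y = t.1.2 from h])⟩
    exact subset_inter this (h1.sub hM this h4 h5.2)
  have h5 : ∀ t t' : {t // P t}, t'.1.2 ∈ t.1.1 → t'.1.1 ⊆ t.1.1 := by
    intro t t' h x hx
    obtain ⟨g1, g2, g3, A, B, h1, e⟩ := t.2
    rw [e] at h g2 ⊢
    generalize t.1.2 = a at *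
    have h6 := h1.symm.ct hL (hQL g1)
    have h7 : ∀ y ∈ L, y ∉ (L \ {a}) ∩ A → y ∈ insert a ((L \ {a}) ∩ B) := fun y hy hn => by
      by_cases h : y = a
      · exact Or.inl h
      · exact Or.inr ⟨⟨hy, h⟩, (h1.2.2.1 ⟨hy, h⟩).resolve_left fun h' => hn ⟨⟨hy, h⟩, h'⟩⟩
    by_contra hn
    have hxL : x ∈ L := by
      obtain ⟨-, -, -, A', B', -, h⟩ := t'.2
      rw [h] at hx; exact hx.1.1
    refine t'.2.2.1 (h3 t' _ h6.2 (insert_subset (hQL g1) fun y hy => hy.1.1) ?_ x (h7 x hxL hn) hx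
      (h7 a0 (hQL h0) g2))
    rintro (h8 | h8)
    · exact h.1.2 h8
    · exact h1.2.2.2 _ h.1 h.2 h8.2
  have h6 : ∀ t : {t // P t}, t.1.2 ∉ t.1.1 := by
    intro t h
    obtain ⟨-, -, -, A, B, h1, e⟩ := t.2
    rw [e] at h; exact h.1.2 rfl
  have h7 : ∀ t : {t // P t}, ∃ O, IsOpen O ∧ O ∩ Q = Q ∩ t.1.1 := by
    intro t
    obtain ⟨-, -, -, A, B, h1, e⟩ := t.2
    rw [e]
    exact ⟨A \ {t.1.2}, h1.1.sdiff isClosed_singleton, Set.ext fun x =>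
      ⟨fun h => ⟨h.2, ⟨hQL h.2, h.1.2⟩, h.1.1⟩, fun h => ⟨⟨h.2.2, h.2.1.2⟩, h.1⟩⟩⟩
  have h8 : ∀ t : {t // P t}, IsClosed (insert t.1.2 t.1.1) := by
    intro t
    obtain ⟨-, -, -, A, B, h1, e⟩ := t.2
    rw [e]; exact h1.clo hL.1
  let R : {t // P t} → {t // P t} → Prop := fun t t' => t = t' ∨ t'.1.2 ∈ t.1.1
  obtain ⟨c, hc, hu⟩ : ∃ c, IsChain R c ∧ ∀ u, ∃ t ∈ c, ¬ R t u := by
    by_contra hn
    push Not at hn
    obtain ⟨m, hm⟩ := exists_maximal_of_chains_bounded hn (by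
      rintro a b c (rfl | h1) (rfl | h2)
      · exact Or.inl rfl
      · exact Or.inr h2
      · exact Or.inr h1
      · exact Or.inr (h5 a b h1 h2))
    obtain ⟨O, g1, g2⟩ := h7 m
    obtain ⟨t, ht⟩ := ex O g1 (g2 ▸ m.2.2.2.1)
    rw [g2] at ht
    rcases hm t (Or.inr ht.2) with rfl | h
    · exact h6 _ ht.2
    · exact h6 m (h5 m t ht.2 h)
  have hR : ∀ t t', R t t' → t'.1.1 ⊆ t.1.1 := by
    rintro t t' (rfl | h)
    · exact Subset.rfl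
    · exact h5 _ _ h
  have tot : ∀ t ∈ c, ∀ t' ∈ c, R t t' ∨ R t' t := fun t ht t' ht' => by
    by_cases h : t = t'
    · exact Or.inl (Or.inl h)
    · exact hc ht ht' h
  have nxt : ∀ t ∈ c, ∃ t' ∈ c, t'.1.2 ∈ t.1.1 := fun t ht => by
    obtain ⟨t', h1, h2⟩ := hu t
    exact ⟨t', h1, ((tot t ht t' h1).resolve_right h2).resolve_left fun h => h2 (Or.inl h.symm)⟩
  obtain ⟨t0, -⟩ := ex univ isOpen_univ ⟨a0, trivial, h0⟩
  obtain ⟨t1, ht1, -⟩ := hu t0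
  have : Nonempty c := ⟨⟨t1, ht1⟩⟩
  obtain ⟨a, ha⟩ := IsCompact.nonempty_iInter_of_directed_nonempty_isCompact_isClosed
    (fun t : c => Q ∩ insert t.1.1.2 t.1.1.1) (by
      intro t t'
      have key : ∀ t t' : {t // P t}, R t t' → insert t'.1.2 t'.1.1 ⊆ insert t.1.2 t.1.1 := by
        rintro t t' (rfl | h)
        · exact Subset.rfl
        · exact insert_subset (Or.inr h) ((h5 _ _ h).trans (subset_insert _ _))
      rcases tot _ t.2 _ t'.2 with h | h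
      · exact ⟨t', inter_subset_inter_right _ (key _ _ h), Subset.rfl⟩
      · exact ⟨t, Subset.rfl, inter_subset_inter_right _ (key _ _ h)⟩)
    (fun t => t.1.2.2.2.1.mono (inter_subset_inter_right _ (subset_insert _ _)))
    (fun t => (hQ.inter (h8 _)).isCompact) fun t => hQ.inter (h8 _)
  rw [mem_iInter] at ha
  have haQ : a ∈ Q := (ha ⟨t1, ht1⟩).1
  have haH : ∀ t ∈ c, a ∈ t.1.1 := fun t ht => by
    obtain ⟨t', g1, g2⟩ := nxt t ht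
    rcases (ha ⟨t', g1⟩).2 with h | h
    · rw [h]; exact g2
    · exact h5 _ _ g2 h
  refine ⟨a, haQ, fun r hr A B hs => ?_⟩
  obtain ⟨M, g1, g2, r', g3, g4⟩ := hN.lc hL (hQL haQ) hr
  have haM : a ∈ M := g4 ⟨hQL haQ, mem_ball_self g3⟩
  have hs' : Sep (M \ {a}) A B := hs.mono (sdiff_subset_sdiff_left g2)
  have key : ∀ A B, Sep (M \ {a}) A B → (∀ t ∈ c, (M \ {a}) ∩ A ⊆ t.1.1) →
      Disjoint (Q ∩ ball a r') (((L ∩ ball a r) \ {a}) ∩ A) := by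
    intro A B h1 h2
    refine disjoint_left.2 fun b h3 h4 => ?_
    obtain ⟨t, ht⟩ := ex (ball a r' ∩ (A \ {a})) (isOpen_ball.inter (h1.1.sdiff isClosed_singleton))
      ⟨b, ⟨h3.2, h4.2, h4.1.2⟩, h3.1⟩
    obtain ⟨t', h5, h6⟩ := hu t
    exact h6 (Or.inr (h2 t' h5 ⟨⟨g4 ⟨hQL ht.2, ht.1.1⟩, ht.1.2.2⟩, ht.1.2.1⟩))
  have key2 : ∀ A B, Sep (M \ {a}) A B → ∀ t ∈ c, t.1.2 ∉ (M \ {a}) ∩ A → (M \ {a}) ∩ A ⊆ t.1.1 := by
    intro A B h1 t ht h2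
    refine (subset_insert _ _).trans (h3 t _ (h1.ct g1 haM).2 (insert_subset (hQL haQ)
      fun y hy => (g2 hy.1.1).1) ?_ a (mem_insert _ _) (haH t ht))
    rintro (h | h)
    · exact h6 t (h ▸ haH t ht)
    · exact h2 h
  refine ⟨r', g3, ?_⟩
  by_cases hA : ∀ t ∈ c, (M \ {a}) ∩ A ⊆ t.1.1
  · exact Or.inl (key A B hs' hA)
  refine Or.inr (key B A hs'.symm fun t ht => ?_)
  push Not at hA
  obtain ⟨t', ht', hn⟩ := hA
  have key3 : ∀ u ∈ c, u.1.1 ⊆ t'.1.1 → (M \ {a}) ∩ B ⊆ u.1.1 := fun u hu h =>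
    key2 B A hs'.symm u hu fun h1 => hn ((key2 A B hs' u hu fun h2 =>
      hs'.2.2.2 _ h1.1 h2.2 h1.2).trans h)
  rcases tot t ht t' ht' with h | h
  · exact (key3 t' ht' Subset.rfl).trans (hR _ _ h)
  · exact key3 t ht (hR _ _ h)

variable [LocallyConnectedSpace X]

def NN (K : Set X) (δ : ℝ) : Set X := {x | infDist x K < δ}

theorem nn_open (K : Set X) (δ : ℝ) : IsOpen (NN K δ) :=
  isOpen_lt (continuous_infDist_pt K) continuous_const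

def Far (K C : Set X) : Prop := ∃ δ > 0, ∀ w ∈ C, δ ≤ infDist w K

theorem exh {K D : Set X} (hK : IsClosed K) (hn : K.Nonempty) (ho : IsOpen D)
    (hD : IsPreconnected D) (hd : ∀ x ∈ D, x ∉ K) {y z : X} (hy : y ∈ D) (hz : z ∈ D) :
    ∃ C ⊆ D, IsPreconnected C ∧ y ∈ C ∧ z ∈ C ∧ Far K C := by
  let G : ℝ → Set X := fun δ => D ∩ {w | δ < infDist w K}
  have hG : ∀ δ, IsOpen (G δ) := fun δ => ho.inter (isOpen_lt continuous_const (continuous_infDist_pt K))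
  have hp : ∀ x ∈ D, 0 < infDist x K := fun x hx => (hK.notMem_iff_infDist_pos hn).1 (hd x hx)
  have h1 : D ⊆ ⋃ δ > 0, cc (G δ) y := by
    refine hD.subset_of_closure_inter_subset
      (isOpen_biUnion fun δ _ => (hG δ).connectedComponentIn) ⟨y, hy, mem_biUnion
        (show infDist y K / 2 ∈ Ioi 0 from half_pos (hp y hy)) (mem_cc ⟨hy, half_lt_self (hp y hy)⟩)⟩ ?_
    rintro x ⟨h1, h2⟩
    have h3 : x ∈ G (infDist x K / 2) := ⟨h2, half_lt_self (hp x h2)⟩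
    obtain ⟨w, h4, h5⟩ := mem_closure_iff.1 h1 _ ((hG _).connectedComponentIn (x := x)) (mem_cc h3)
    obtain ⟨δ, h6, h7⟩ := mem_iUnion₂.1 h5
    have hm : ∀ a b, a ≤ b → G b ⊆ G a := fun a b h w hw => ⟨hw.1, h.trans_lt hw.2⟩
    refine mem_biUnion (show min δ (infDist x K / 2) ∈ Ioi 0 from lt_min h6 (half_pos (hp x h2))) ?_
    rw [cc_eq (cc_mono (hm _ _ (min_le_left _ _)) _ h7) (cc_mono (hm _ _ (min_le_right _ _)) _ h4)]
    exact mem_cc (hm _ _ (min_le_right _ _) h3)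
  obtain ⟨δ, h2, h3⟩ := mem_iUnion₂.1 (h1 hz)
  exact ⟨cc (G δ) y, fun w hw => (cc_sub _ _ hw).1, cc_pre _ _,
    mem_cc (connectedComponentIn_nonempty_iff.1 ⟨z, h3⟩), h3, δ, h2, fun w hw => (cc_sub _ _ hw).2.le⟩

theorem small (hN : Nul X) {K : Set X} (hK : IsClosed K) (hn : K.Nonempty) {ε : ℝ} (hε : 0 < ε) :
    ∃ δ > 0, ∀ δ' ≤ δ, ∀ y, cc (NN K δ' \ K) y ⊆ ball y ε := by
  by_contra hc
  have : ∀ δ : Ioi (0 : ℝ), ∃ δ' : Ioi (0 : ℝ), δ' ≤ δ ∧ ∃ C : Set X, IsPreconnected C ∧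
      (∃ a ∈ C, ∃ b ∈ C, ε ≤ dist a b) ∧ ∀ w ∈ C, δ'.1 ≤ infDist w K ∧ infDist w K < δ.1 := by
    intro δ
    by_contra hd
    refine hc ⟨δ, δ.2, fun δ' h1 y z hz => by_contra fun h2 => hd ?_⟩
    obtain ⟨C, h3, h4, h5, h6, η, h7, h8⟩ := exh hK hn
      ((nn_open K δ').sdiff hK).connectedComponentIn (cc_pre _ y) (fun x hx => (cc_sub _ _ hx).2) hz
      (mem_cc (connectedComponentIn_nonempty_iff.1 ⟨z, hz⟩))
    exact ⟨⟨min η δ, lt_min h7 δ.2⟩, min_le_right η δ.1, C, h4, ⟨z, h5, y, h6, not_lt.1 h2⟩,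
      fun w hw => ⟨(min_le_left _ _).trans (h8 w hw), lt_of_lt_of_le (cc_sub _ _ (h3 hw)).1 h1⟩⟩
  choose f f1 C c1 c2 c3 using this
  let s : ℕ → Ioi (0 : ℝ) := fun n => f^[n] ⟨1, mem_Ioi.2 one_pos⟩
  have hs : ∀ n, s (n + 1) = f (s n) := fun n => Function.iterate_succ_apply' _ _ _
  have ha : Antitone s := antitone_nat_of_succ_le fun n => hs n ▸ f1 _
  refine hN ε hε (fun n => C (s n)) (fun n => c1 _) (pw_lt fun i j hij => ?_) fun n => c2 _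
  refine disjoint_left.2 fun z h1 h2 => ?_
  have h3 : (s j).1 ≤ (f (s i)).1 := hs i ▸ ha (Nat.succ_le_of_lt hij)
  exact ((c3 _ z h2).2.trans_le h3).not_ge (c3 _ z h1).1

theorem bump {D G : Set X} (hD : IsPreconnected D) (hG : IsOpen G) {y : X} (hy : y ∈ D) (hyG : y ∈ G)
    (h : ¬ D ⊆ cc G y) : ∃ z ∈ D, z ∈ closure (cc G y) ∧ z ∉ G := by
  by_contra hc
  push Not at hc
  refine h (hD.subset_of_closure_inter_subset hG.connectedComponentIn ⟨y, hy, mem_cc hyG⟩ ?_)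
  rintro z ⟨h1, h2⟩
  have h3 := hc z h2 h1
  obtain ⟨w, h4, h5⟩ := mem_closure_iff.1 h1 _ (hG.connectedComponentIn (x := z)) (mem_cc h3)
  exact (cc_eq h4 h5).subset (mem_cc h3)

theorem att {K M : Set X} (hK : IsClosed K) (ho : IsOpen M) (hM : IsPreconnected M) {y k : X}
    (hy : y ∈ M \ K) (hk : k ∈ M) (hk' : k ∈ K) : ∃ a ∈ K ∩ M, a ∈ closure (cc (M \ K) y) := by
  obtain ⟨z, h1, h2, h3⟩ := bump hM (ho.sdiff hK) hy.1 hy fun h => (cc_sub _ _ (h hk)).2 hk'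
  exact ⟨z, ⟨by_contra fun h => h3 ⟨h1, h⟩, h1⟩, h2⟩

def Nd (K D : Set X) : Prop := ∃ G, IsOpen G ∧ K ⊆ G ∧ ∃ y ∈ G \ K, D = cc (G \ K) y

theorem nd_nn {K : Set X} {δ : ℝ} (hδ : 0 < δ) {y : X} (hy : y ∈ NN K δ \ K) :
    Nd K (cc (NN K δ \ K) y) := ⟨_, nn_open K δ, fun x hx => by
      show infDist x K < δ
      rw [infDist_zero_of_mem hx]; exact hδ, y, hy, rfl⟩

theorem desc (hN : Nul X) {K D : Set X} (hK : IsClosed K) (hD : Nd K D) {a : X} (ha : a ∈ K)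
    (haD : a ∈ closure D) {ε : ℝ} (hε : 0 < ε) :
    ∃ D', Nd K D' ∧ D' ⊆ D ∧ a ∈ closure D' ∧ D' ⊆ ball a ε := by
  obtain ⟨G, h1, h2, y0, h3, rfl⟩ := hD
  obtain ⟨δ0, g1, g2⟩ := hK.isCompact.exists_thickening_subset_open h1 h2
  obtain ⟨δ1, g3, g4⟩ := small hN hK ⟨a, ha⟩ (half_pos hε)
  obtain ⟨δ, d0, d1, d2, d3⟩ : ∃ δ > 0, δ ≤ δ0 ∧ δ ≤ δ1 ∧ δ ≤ ε :=
    ⟨min δ0 (min δ1 ε), lt_min g1 (lt_min g3 hε), min_le_left _ _,
      (min_le_right _ _).trans (min_le_left _ _), (min_le_right _ _).trans (min_le_right _ _)⟩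
  have hG : NN K δ \ K ⊆ G \ K := fun x hx =>
    ⟨g2 ((mem_thickening_iff_infDist_lt ⟨a, ha⟩).2 (lt_of_lt_of_le hx.1 d1)), hx.2⟩
  have hy : ∀ y ∈ cc (G \ K) y0 ∩ ball a (δ / 2), y ∈ NN K δ \ K := fun y hy =>
    ⟨lt_of_le_of_lt (infDist_le_dist_of_mem ha) (by linarith [mem_ball.1 hy.2]), (cc_sub _ _ hy.1).2⟩
  let S : Set (Set X) := {C | ∃ y ∈ cc (G \ K) y0 ∩ ball a (δ / 2), C = cc (NN K δ \ K) y}
  have hS : S.Finite := by
    refine ((hN.fin (ε := δ / 4) (S := S \ {cc (G \ K) y0}) (by linarith) ?_ ?_ ?_).union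
      (finite_singleton (cc (G \ K) y0))).subset (by rw [sdiff_union_self]; exact subset_union_left)
    · rintro _ ⟨⟨y, -, rfl⟩, -⟩; exact cc_pre _ _
    · rintro _ ⟨⟨y, -, rfl⟩, -⟩ _ ⟨⟨y', -, rfl⟩, -⟩ z h1 h2; exact cc_eq h1 h2
    · rintro _ ⟨⟨y, h4, rfl⟩, h5⟩
      obtain ⟨z, h6, h7, h8⟩ := bump (cc_pre (G \ K) y0) ((nn_open K δ).sdiff hK) h4.1 (hy y h4)
        fun h => h5 (Subset.antisymm (by rw [← cc_eq' h4.1]; exact cc_mono hG y) h)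
      have h9 : δ ≤ dist z a := (not_lt.1 fun h => h8 ⟨h, (cc_sub _ _ h6).2⟩).trans
        (infDist_le_dist_of_mem ha)
      obtain ⟨w, h10, h11⟩ := Metric.mem_closure_iff.1 h7 (δ / 4) (by linarith)
      refine ⟨y, mem_cc (hy y h4), w, h10, ?_⟩
      linarith [mem_ball.1 h4.2, dist_triangle4 z w y a, dist_comm w y]
  have : a ∈ closure (⋃ C ∈ S, C) := by
    refine closure_mono ?_ (isOpen_ball.closure_inter ⟨haD, mem_ball_self (half_pos d0)⟩)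
    exact fun y h => mem_biUnion ⟨y, h, rfl⟩ (mem_cc (hy y h))
  rw [hS.closure_biUnion] at this
  obtain ⟨_, ⟨y, h4, rfl⟩, h5⟩ := mem_iUnion₂.1 this
  refine ⟨_, nd_nn d0 (hy y h4), by rw [← cc_eq' h4.1]; exact cc_mono hG y, h5, fun z hz => ?_⟩
  have := mem_ball.1 (g4 δ d2 y hz)
  rw [mem_ball]; linarith [mem_ball.1 h4.2, dist_triangle z y a]

end Pool.Agent.H71.Lel
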