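import Pool.Agent.H71.Lel3

set_option autoImplicit false

namespace Pool.Agent.H71.Lel

open Set Filter Topology Metric Pool.Agent.H71.Hag

variable {X : Type} [MetricSpace X]

theorem seq {T : Set X → Prop} {Φ : ℕ → Set X → Prop} {D0 : Set X} (h0 : T D0)
    (h : ∀ n D, T D → ∃ D', T D' ∧ D' ⊆ D ∧ Φ n D') :
    ∃ E : ℕ → Set X, (∀ n, T (E n)) ∧ Antitone E ∧ ∀ n, Φ n (E n) := by
  choose f f1 f2 f3 using h
  let s : ℕ → {D // T D} := fun n => Nat.rec ⟨D0, h0⟩ (fun n D => ⟨f n D.1 D.2, f1 n D.1 D.2⟩) n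
  exact ⟨fun n => (s (n + 1)).1, fun n => (s (n + 1)).2,
    antitone_nat_of_succ_le fun n => f2 _ _ (s (n + 1)).2, fun n => f3 _ _ (s n).2⟩

theorem clo_ball {D : Set X} {a : X} {r : ℝ} (hr : 0 < r) (h : D ⊆ ball a (r / 2)) :
    closure D ⊆ ball a r := (closure_mono h).trans (closure_ball_subset_closedBall.trans
      (closedBall_subset_ball (half_lt_self hr)))

def Safe (K J : Set X) : Prop := ∀ s r A B, 0 < r → Sep ((K ∩ ball s r) \ {s}) A B →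
  ∀ᶠ r' in 𝓝[>] (0 : ℝ), ∀ y ∈ J, y ∈ ball s r' \ K →
    One ((K ∩ ball s r) \ {s}) A B (closure (cc (ball s r' \ K) y))

theorem ev {δ : ℝ} (h : 0 < δ) : ∀ᶠ r in 𝓝[>] (0 : ℝ), 0 < r ∧ r < δ := Ioo_mem_nhdsGT h

theorem safe_of {K J : Set X} (hK : IsClosed K) (h : ∀ s ∈ K, ∀ r A B, 0 < r →
    Sep ((K ∩ ball s r) \ {s}) A B → ∀ᶠ r' in 𝓝[>] (0 : ℝ), ∀ y ∈ J, y ∈ ball s r' \ K →
      One ((K ∩ ball s r) \ {s}) A B (closure (cc (ball s r' \ K) y))) : Safe K J := by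
  intro s r A B hr hs
  by_cases h1 : s ∈ K
  · exact h s h1 r A B hr hs
  obtain ⟨δ, h2, h3⟩ := Metric.isOpen_iff.1 hK.isOpen_compl s h1
  filter_upwards [ev (half_pos h2)] with r' h4 y _ _
  exact Or.inl (disjoint_left.2 fun z h5 h6 => h3 (clo_ball h2 ((cc_sub _ _).trans
    (sdiff_subset.trans (ball_subset_ball h4.2.le))) h5) h6.1.1.1)

theorem Far.ev {K C : Set X} (h : Far K C) {s : X} (hs : s ∈ K) :
    ∀ᶠ r in 𝓝[>] (0 : ℝ), ∀ y ∈ C, y ∉ ball s r := by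
  obtain ⟨δ, h1, h2⟩ := h
  filter_upwards [Lel.ev h1] with r h3 y hy h4
  linarith [h2 y hy, infDist_le_dist_of_mem (x := y) hs, mem_ball.1 h4, h3.2]

theorem Far.safe {K C : Set X} (hK : IsClosed K) (h : Far K C) : Safe K C :=
  safe_of hK fun s hs r A B _ _ => by
    filter_upwards [h.ev hs] with r' h1 y hy h2 using absurd h2.1 (h1 y hy)

theorem Safe.union {K J J' : Set X} (h : Safe K J) (h' : Safe K J') : Safe K (J ∪ J') := by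
  intro s r A B hr hs
  filter_upwards [h s r A B hr hs, h' s r A B hr hs] with r' h1 h2 y hy using hy.elim (h1 y) (h2 y)

theorem safe_sub {K J : Set X} (h : J ⊆ K) : Safe K J := fun _ _ _ _ _ _ =>
  Eventually.of_forall fun _ _ hy h' => absurd (h hy) h'.2

def OK (K J : Set X) : Prop := Safe K J ∧ (J ∩ K).Finite ∧
  ∀ y ∈ J, ∃ C ⊆ J, IsPreconnected C ∧ y ∈ C ∧ (C ∩ K).Nonempty

theorem OK.union {K J J' : Set X} (h : OK K J) (h' : OK K J') : OK K (J ∪ J') := by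
  refine ⟨h.1.union h'.1, by rw [union_inter_distrib_right]; exact h.2.1.union h'.2.1, ?_⟩
  rintro y (hy | hy)
  · obtain ⟨C, h1, h2⟩ := h.2.2 y hy; exact ⟨C, h1.trans subset_union_left, h2⟩
  · obtain ⟨C, h1, h2⟩ := h'.2.2 y hy; exact ⟨C, h1.trans subset_union_right, h2⟩

theorem ok_empty (K : Set X) : OK K ∅ := ⟨safe_sub (empty_subset _), by simp, fun _ h => h.elim⟩

theorem ok_pt {K : Set X} {a : X} (h : a ∈ K) : OK K {a} :=
  ⟨safe_sub (singleton_subset_iff.2 h), (finite_singleton a).inter_of_left _,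
    fun _ hy => ⟨{a}, Subset.rfl, isPreconnected_singleton, hy, a, rfl, h⟩⟩

variable [CompactSpace X] [LocallyConnectedSpace X]

theorem ray (hN : Nul X) {K D : Set X} (hK : Ct K) (hD : Nd K D) (hn : (closure D ∩ K).Nonempty) :
    ∃ a ∈ K, ∃ E : ℕ → Set X, (∀ k, Nd K (E k) ∧ E k ⊆ D) ∧ Antitone E ∧ (∀ k, a ∈ closure (E k)) ∧
      (∀ ε > 0, ∃ k, E k ⊆ ball a ε) ∧ ∀ r > 0, ∀ A B, Sep ((K ∩ ball a r) \ {a}) A B →
        ∃ k, One ((K ∩ ball a r) \ {a}) A B (closure (E k)) := by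
  let ρ : ℕ → ℝ := fun n => 1 / ((n : ℝ) + 1)
  have hρ : ∀ n, 0 < ρ n := fun n => Nat.one_div_pos_of_nat
  have hρ' : ∀ ε > 0, ∃ n, ρ n < ε := fun ε h => exists_nat_one_div_lt h
  let Cut : ℕ → Set X → X → Prop := fun n D a => a ∈ closure D ∩ K ∧ ∃ A B,
    Sep ((K ∩ ball a (ρ n)) \ {a}) A B ∧ ¬ One ((K ∩ ball a (ρ n)) \ {a}) A B (closure D)
  let T : Set X → Prop := fun D' => (Nd K D' ∧ D' ⊆ D) ∧ (closure D' ∩ K).Nonempty
  by_cases h1 : ∀ n D', T D' → ∃ D'', T D'' ∧ D'' ⊆ D' ∧ ∀ a, ¬ Cut n D'' a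
  · obtain ⟨E, e1, e2, e3⟩ := seq (T := T) (Φ := fun n D' => (∀ a, ¬ Cut n D' a) ∧
      ∃ b, D' ⊆ ball b (ρ n)) ⟨⟨hD, Subset.rfl⟩, hn⟩ (fun n D' h => by
        obtain ⟨D2, ⟨⟨g1, g2⟩, b, g3⟩, g4, g5⟩ := h1 n D' h
        obtain ⟨D3, d1, d2, d3, d4⟩ := desc hN hK.1 g1 g3.2 g3.1 (hρ n)
        refine ⟨D3, ⟨⟨d1, d2.trans g2⟩, b, d3, g3.2⟩, d2.trans g4, ?_, b, d4⟩
        rintro a ⟨c1, A, B, c2, c3⟩
        exact g5 a ⟨⟨closure_mono d2 c1.1, c1.2⟩, A, B, c2, fun h => c3 (h.mono (closure_mono d2))⟩)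
    obtain ⟨a, ha⟩ := IsCompact.nonempty_iInter_of_sequence_nonempty_isCompact_isClosed
      (fun n => closure (E n) ∩ K)
      (fun n => inter_subset_inter_left _ (closure_mono (e2 (Nat.le_succ n)))) (fun n => (e1 n).2)
      (isClosed_closure.inter hK.1).isCompact fun n => isClosed_closure.inter hK.1
    rw [mem_iInter] at ha
    have sm : ∀ ε > 0, ∃ k, E k ⊆ ball a ε := fun ε hε => by
      obtain ⟨n, h2⟩ := hρ' _ (half_pos hε)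
      obtain ⟨b, h3⟩ := (e3 n).2
      have h4 := mem_closedBall.1 (closure_ball_subset_closedBall (closure_mono h3 (ha n).1))
      refine ⟨n, fun z hz => ?_⟩
      rw [mem_ball]; linarith [mem_ball.1 (h3 hz), dist_triangle_right z a b]
    refine ⟨a, (ha 0).2, E, fun k => (e1 k).1, e2, fun k => (ha k).1, sm, fun r hr A B hs => ?_⟩
    obtain ⟨n, h2⟩ := hρ' r hr
    obtain ⟨k, h3⟩ := sm _ (half_pos (hρ n))
    have h4 : One ((K ∩ ball a (ρ n)) \ {a}) A B (closure (E n)) := by_contra fun h =>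
      (e3 n).1 a ⟨ha n, A, B, hs.mono (sdiff_subset_sdiff_left
        (inter_subset_inter_right _ (ball_subset_ball h2.le))), h⟩
    have h5 : ∀ A, Disjoint (closure (E n)) (((K ∩ ball a (ρ n)) \ {a}) ∩ A) →
        Disjoint (closure (E (max k n))) (((K ∩ ball a r) \ {a}) ∩ A) := fun A h =>
      disjoint_left.2 fun z h6 h7 => disjoint_left.1 h (closure_mono (e2 (le_max_right _ _)) h6)
        ⟨⟨⟨h7.1.1.1, clo_ball (hρ n) h3 (closure_mono (e2 (le_max_left _ _)) h6)⟩, h7.1.2⟩, h7.2⟩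
    exact ⟨max k n, h4.imp (h5 A) (h5 B)⟩
  push Not at h1
  obtain ⟨n, D1, ⟨⟨g1, g2⟩, b, g3⟩, h1⟩ := h1
  obtain ⟨M, m1, m2, r', m3, m4⟩ := hN.lc hK g3.2 (half_pos (hρ n))
  obtain ⟨D2, d1, d2, d3, d4⟩ := desc hN hK.1 g1 g3.2 g3.1 (half_pos m3)
  have hQ : closure D2 ∩ K ⊆ M := fun z hz => m4 ⟨hz.2, clo_ball m3 d4 hz.1⟩
  obtain ⟨a, ha, hz⟩ := zlem hN m1 (isClosed_closure.inter hK.1) hQ (a0 := b) ⟨d3, g3.2⟩ (by
    rintro O ho ⟨c, c1, c2⟩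
    obtain ⟨ε, c3, c4⟩ := Metric.isOpen_iff.1 ho c c1
    obtain ⟨D3, b1, b2, b3, b4⟩ := desc hN hK.1 d1 c2.2 c2.1 (half_pos c3)
    obtain ⟨a, a1, A, B, a2, a3⟩ := h1 D3 ⟨⟨b1, b2.trans (d2.trans g2)⟩, c, b3, c2.2⟩ (b2.trans d2)
    have a4 : a ∈ closure D2 ∩ K := ⟨closure_mono b2 a1.1, a1.2⟩
    refine ⟨a, ⟨c4 (clo_ball c3 b4 a1.1), a4⟩, A, B, a2.mono (sdiff_subset_sdiff_left fun z hz =>
      ⟨(m2 hz).1, ?_⟩), fun h => a3 ?_⟩
    · rw [mem_ball]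
      linarith [mem_ball.1 (m2 hz).2, mem_ball.1 (m2 (hQ a4)).2, dist_triangle_right z a b]
    · have h5 : ∀ A, Disjoint (closure D2 ∩ K) ((M \ {a}) ∩ A) →
          Disjoint (closure D3) (((K ∩ ball a (ρ n)) \ {a}) ∩ A) := fun A h =>
        disjoint_left.2 fun z h6 h7 => disjoint_left.1 h ⟨closure_mono b2 h6, h7.1.1.1⟩
          ⟨⟨hQ ⟨closure_mono b2 h6, h7.1.1.1⟩, h7.1.2⟩, h7.2⟩
      exact h.imp (h5 A) (h5 B))
  obtain ⟨E, e1, e2, e3⟩ := seq (T := fun D' => (Nd K D' ∧ D' ⊆ D2) ∧ a ∈ closure D')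
    (Φ := fun n D' => D' ⊆ ball a (ρ n)) ⟨⟨d1, Subset.rfl⟩, ha.1⟩ (fun n D' h => by
      obtain ⟨D3, b1, b2, b3, b4⟩ := desc hN hK.1 h.1.1 ha.2 h.2 (hρ n)
      exact ⟨D3, ⟨⟨b1, b2.trans h.1.2⟩, b3⟩, b2, b4⟩)
  have sm : ∀ ε > 0, ∃ k, E k ⊆ ball a ε := fun ε hε => by
    obtain ⟨n, h2⟩ := hρ' _ hε
    exact ⟨n, (e3 n).trans (ball_subset_ball h2.le)⟩
  refine ⟨a, ha.2, E, fun k => ⟨(e1 k).1.1, (e1 k).1.2.trans (d2.trans g2)⟩, e2, fun k => (e1 k).2,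
    sm, fun r hr A B hs => ?_⟩
  obtain ⟨r'', h2, h3⟩ := hz r hr A B (hs.mono (sdiff_subset_sdiff_left
    (inter_subset_inter_left _ fun z hz => (m2 hz).1)))
  obtain ⟨k, h4⟩ := sm _ (half_pos h2)
  have h5 : ∀ A, Disjoint (closure D2 ∩ K ∩ ball a r'') (((M ∩ ball a r) \ {a}) ∩ A) →
      Disjoint (closure (E k)) (((K ∩ ball a r) \ {a}) ∩ A) := fun A h =>
    disjoint_left.2 fun z h6 h7 => disjoint_left.1 h
      ⟨⟨closure_mono (e1 k).1.2 h6, h7.1.1.1⟩, clo_ball h2 h4 h6⟩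
      ⟨⟨⟨hQ ⟨closure_mono (e1 k).1.2 h6, h7.1.1.1⟩, h7.1.1.2⟩, h7.1.2⟩, h7.2⟩
  exact ⟨k, h3.imp (h5 A) (h5 B)⟩

theorem rayset (hN : Nul X) {K D : Set X} (hK : Ct K) (hD : Nd K D)
    (hn : (closure D ∩ K).Nonempty) : ∃ a ∈ K, a ∈ closure D ∧ ∃ J ⊆ D, J.Nonempty ∧
      IsPreconnected (insert a J) ∧ Safe K J := by
  obtain ⟨a, ha, E, e1, e2, e3, e4, e5⟩ := ray hN hK hD hn
  choose G g1 g2 y g3 g4 using fun k => (e1 k).1
  have hy : ∀ k, y k ∈ E k := fun k => g4 k ▸ mem_cc (g3 k)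
  choose C c1 c2 c3 c4 c5 using fun k => exh (D := E k) hK.1 ⟨a, ha⟩
    (g4 k ▸ ((g1 k).sdiff hK.1).connectedComponentIn) (g4 k ▸ cc_pre _ _)
    (fun x hx => (cc_sub _ _ ((g4 k).subset hx)).2) (hy k) (e2 (Nat.le_succ k) (hy (k + 1)))
  have hJ : IsPreconnected (⋃ k, C k) :=
    IsPreconnected.iUnion_of_chain c2 fun k => ⟨y (k + 1), c4 k, c3 (k + 1)⟩
  have tail : ∀ k, ∀ s ∈ K, ∀ᶠ r in 𝓝[>] (0 : ℝ), ∀ z ∈ ⋃ k, C k, z ∈ ball s r → z ∈ E k := by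
    intro k s hs
    filter_upwards [(eventually_all_finite (finite_Iio k)).2 fun j _ => (c5 j).ev hs] with r h z hz h1
    obtain ⟨j, h2⟩ := mem_iUnion.1 hz
    exact e2 (not_lt.1 fun h3 => h j h3 z h2 h1) (c1 j h2)
  refine ⟨a, ha, closure_mono (e1 0).2 (e3 0), ⋃ k, C k,
    iUnion_subset fun k => (c1 k).trans (e1 k).2, ⟨y 0, mem_iUnion.2 ⟨0, c3 0⟩⟩,
    hJ.subset_closure (subset_insert _ _) (insert_subset ?_ subset_closure),
    safe_of hK.1 fun s hs r A B hr h => ?_⟩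
  · refine Metric.mem_closure_iff.2 fun ε hε => ?_
    obtain ⟨k, h⟩ := e4 ε hε
    exact ⟨y k, mem_iUnion.2 ⟨k, c3 k⟩, mem_ball'.1 (h (hy k))⟩
  by_cases h1 : s = a
  · subst h1
    obtain ⟨k, h2⟩ := e5 r hr A B h
    obtain ⟨δ, h3, h4⟩ := Metric.isOpen_iff.1 (g1 k) s (g2 k hs)
    filter_upwards [tail k s hs, ev h3] with r' h5 h6 z hz h7
    refine h2.mono (closure_mono ?_)
    have h8 := (g4 k).subset (h5 z hz h7.1)
    rw [g4 k, ← cc_eq' h8]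
    exact cc_mono (sdiff_subset_sdiff_left ((ball_subset_ball h6.2.le).trans h4)) z
  · have h2 := half_pos (dist_pos.2 h1)
    obtain ⟨k, h3⟩ := e4 _ h2
    filter_upwards [tail k s hs, ev h2] with r' h5 h6 z hz h7
    exfalso
    linarith [mem_ball.1 (h3 (h5 z hz h7.1)), mem_ball.1 h7.1, dist_triangle_left s a z, h6.2]

theorem piece (hN : Nul X) {K P A B : Set X} (hK : Ct K) {s : X} {r : ℝ} (hr : 0 < r)
    (hs : Sep ((K ∩ ball s r) \ {s}) A B) (hP : OK K P) :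
    (∃ J, OK K J ∧ Disjoint J P ∧ IsPreconnected J ∧ (J ∩ (((K ∩ ball s r) \ {s}) ∩ A)).Nonempty ∧
      (J ∩ (((K ∩ ball s r) \ {s}) ∩ B)).Nonempty) ∨
    ∃ r' > 0, r' < r ∧ ∃ R, ∀ x ∈ ball s r', x ≠ s → LC R x ∧ (x ∈ K → (x ∈ A ↔ x ∈ R)) := by
  obtain ⟨δ, h1, h2⟩ := Metric.isOpen_iff.1 (hP.2.1.sdiff (t := {s})).isClosed.isOpen_compl s
    fun h => h.2 rfl
  obtain ⟨r', h3, ⟨h4, h5⟩, -, h6⟩ := ((hP.1 s r A B hr hs).and ((ev hr).and (ev h1))).exists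
  have hb : ball s r' ⊆ ball s r := ball_subset_ball h5.le
  have hE : ∀ A : Set X, ∀ x ∈ K, x ∈ ball s r' ∩ (A \ {s}) → x ∈ ((K ∩ ball s r) \ {s}) ∩ A :=
    fun A x h1 h2 => ⟨⟨⟨h1, hb h2.1⟩, h2.2.2⟩, h2.2.1⟩
  have ho : IsOpen (ball s r' \ K) := isOpen_ball.sdiff hK.1
  by_cases hc : ∃ y ∈ ball s r' \ K,
      (closure (cc (ball s r' \ K) y) ∩ (K ∩ (ball s r' ∩ (A \ {s})))).Nonempty ∧
      (closure (cc (ball s r' \ K) y) ∩ (K ∩ (ball s r' ∩ (B \ {s})))).Nonempty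
  · left
    obtain ⟨y, hy, hA, hB⟩ := hc
    have hDP : ∀ z ∈ cc (ball s r' \ K) y, z ∉ P := fun z hz hzP => by
      have := h3 z hzP (cc_sub _ _ hz)
      rw [cc_eq' hz] at this
      obtain ⟨a, a1, a2⟩ := hA
      obtain ⟨b, b1, b2⟩ := hB
      exact this.elim (fun h => disjoint_left.1 h a1 (hE A a a2.1 a2.2))
        fun h => disjoint_left.1 h b1 (hE B b b2.1 b2.2)
    have land : ∀ A : Set X, IsOpen A →
        (closure (cc (ball s r' \ K) y) ∩ (K ∩ (ball s r' ∩ (A \ {s})))).Nonempty →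
        ∃ a ∈ K ∩ (ball s r' ∩ (A \ {s})), ∃ J ⊆ cc (ball s r' \ K) y, J.Nonempty ∧
          IsPreconnected (insert a J) ∧ Safe K J := by
      rintro A hA ⟨a, a1, a2, a3⟩
      obtain ⟨η, b1, b2⟩ := Metric.isOpen_iff.1 (isOpen_ball.inter (hA.sdiff isClosed_singleton)) a a3
      obtain ⟨δ1, b3, b4⟩ := small hN hK.1 ⟨a, a2⟩ (show 0 < η / 4 by linarith)
      have b5 : 0 < min δ1 (η / 4) := lt_min b3 (by linarith)
      obtain ⟨w, b6, b7⟩ := mem_closure_iff.1 a1 _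
        ((isOpen_ball (x := a) (ε := min δ1 (η / 4))).connectedComponentIn (x := a))
        (mem_cc (mem_ball_self b5))
      have b8 : cc (ball a (min δ1 (η / 4))) a \ K ⊆ NN K (min δ1 (η / 4)) \ K := fun z hz =>
        ⟨lt_of_le_of_lt (infDist_le_dist_of_mem a2) (mem_ball.1 (cc_sub _ _ hz.1)), hz.2⟩
      have b9 : w ∈ cc (ball a (min δ1 (η / 4))) a \ K := ⟨b6, (cc_sub _ _ b7).2⟩
      obtain ⟨c, c1, c2⟩ := att hK.1 isOpen_ball.connectedComponentIn (cc_pre _ _) b9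
        (mem_cc (mem_ball_self b5)) a2
      have c3 : cc (NN K (min δ1 (η / 4)) \ K) w ⊆ ball a (η / 2) := fun z hz => by
        rw [mem_ball]
        linarith [mem_ball.1 (b4 _ (min_le_left _ _) w hz), mem_ball.1 (cc_sub _ _ b6),
          min_le_right δ1 (η / 4), dist_triangle z w a]
      obtain ⟨a', d1, d2, J, d3, d4⟩ := rayset hN hK (nd_nn b5 (b8 b9))
        ⟨c, closure_mono (cc_mono b8 w) c2, c1.1⟩
      refine ⟨a', ⟨d1, b2 (clo_ball b1 c3 d2)⟩, J, d3.trans ?_, d4⟩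
      rw [← cc_eq' b7]
      exact sub_cc (cc_pre _ _) (mem_cc (b8 b9)) fun z hz =>
        ⟨(b2 (ball_subset_ball (by linarith) (c3 hz))).1, (cc_sub _ _ hz).2⟩
    obtain ⟨a, a1, J, a2, ⟨u, a3⟩, a4, a5⟩ := land A hs.1 hA
    obtain ⟨b, b1, J', b2, ⟨v, b3⟩, b4, b5⟩ := land B hs.2.1 hB
    obtain ⟨C, c1, c2, c3, c4, c5⟩ := exh hK.1 ⟨a, a1.1⟩ ho.connectedComponentIn (cc_pre _ y)
      (fun x hx => (cc_sub _ _ hx).2) (a2 a3) (b2 b3)
    have hJ : IsPreconnected (insert a J ∪ C ∪ insert b J') :=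
      (a4.union u (Or.inr a3) c3 c2).union v (Or.inr c4) (Or.inr b3) b4
    have hsub : ∀ z ∈ insert a J ∪ C ∪ insert b J', z = a ∨ z = b ∨ z ∈ cc (ball s r' \ K) y := by
      rintro z (((h | h) | h) | h | h)
      exacts [Or.inl h, Or.inr (Or.inr (a2 h)), Or.inr (Or.inr (c1 h)), Or.inr (Or.inl h),
        Or.inr (Or.inr (b2 h))]
    have haJ : a ∈ insert a J ∪ C ∪ insert b J' := Or.inl (Or.inl (Or.inl rfl))
    refine ⟨_, ⟨(((safe_sub (singleton_subset_iff.2 a1.1)).union a5).union (c5.safe hK.1)).union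
      ((safe_sub (singleton_subset_iff.2 b1.1)).union b5), (toFinite {a, b}).subset fun z hz => ?_,
      fun z hz => ⟨_, Subset.rfl, hJ, hz, a, haJ, a1.1⟩⟩, disjoint_left.2 fun z hz hzP => ?_, hJ,
      ⟨a, haJ, hE A a a1.1 a1.2⟩, b, Or.inr (Or.inl rfl), hE B b b1.1 b1.2⟩
    · rcases hsub z hz.1 with h | h | h
      exacts [Or.inl h, Or.inr h, absurd hz.2 (cc_sub _ _ h).2]
    · rcases hsub z hz with rfl | rfl | h
      · exact h2 (ball_subset_ball h6.le a1.2.1) ⟨⟨hzP, a1.1⟩, a1.2.2.2⟩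
      · exact h2 (ball_subset_ball h6.le b1.2.1) ⟨⟨hzP, b1.1⟩, b1.2.2.2⟩
      · exact hDP z h hzP
  right
  refine ⟨r', h4, h5, K ∩ A ∪ {y ∈ ball s r' \ K |
    (closure (cc (ball s r' \ K) y) ∩ (K ∩ (ball s r' ∩ (A \ {s})))).Nonempty}, fun x hx hxs =>
    ⟨?_, fun hxK => ⟨fun h => Or.inl ⟨hxK, h⟩, fun h => h.elim (·.2) fun h => absurd hxK h.1.2⟩⟩⟩
  by_cases hxK : x ∈ K
  swap
  · filter_upwards [ho.connectedComponentIn.mem_nhds (mem_cc (F := ball s r' \ K) ⟨hx, hxK⟩)] with z hz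
    have := cc_sub _ _ hz
    simp only [mem_union, mem_inter_iff, mem_ofPred_eq, cc_eq' hz, this, this.2, hxK,
      show x ∈ ball s r' \ K from ⟨hx, hxK⟩, false_and]
  have nb : ∀ A : Set X, IsOpen A → x ∈ A → ∀ᶠ z in 𝓝 x, z ∈ ball s r' ∩ (A \ {s}) ∧ (z ∉ K →
      (closure (cc (ball s r' \ K) z) ∩ (K ∩ (ball s r' ∩ (A \ {s})))).Nonempty) := by
    intro A hA hxA
    have o1 : IsOpen (ball s r' ∩ (A \ {s})) := isOpen_ball.inter (hA.sdiff isClosed_singleton)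
    have o2 : x ∈ cc (ball s r' ∩ (A \ {s})) x := mem_cc ⟨hx, hxA, hxs⟩
    filter_upwards [o1.connectedComponentIn.mem_nhds o2] with z hz
    refine ⟨cc_sub _ _ hz, fun hzK => ?_⟩
    obtain ⟨a, a1, a2⟩ := att hK.1 o1.connectedComponentIn (cc_pre _ _) ⟨hz, hzK⟩ o2 hxK
    exact ⟨a, closure_mono (cc_mono (sdiff_subset_sdiff_left
      ((cc_sub _ _).trans inter_subset_left)) z) a2, a1.1, cc_sub _ _ a1.2⟩
  rcases hs.2.2.1 ⟨⟨hxK, hb hx⟩, hxs⟩ with h | h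
  · refine LC.of_mem ?_
    filter_upwards [nb A hs.1 h] with z hz
    by_cases hzK : z ∈ K
    · exact Or.inl ⟨hzK, hz.1.2.1⟩
    · exact Or.inr ⟨⟨hz.1.1, hzK⟩, hz.2 hzK⟩
  · refine (LC.of_not (R := ∅) (by simp)).congr ?_
    filter_upwards [nb B hs.2.1 h] with z hz
    refine iff_of_false id ?_
    rintro (h7 | h7)
    · exact hs.2.2.2 z (hE B z h7.1 hz.1).1 h7.2 hz.1.2.1
    · exact hc ⟨z, h7.1, h7.2, hz.2 h7.1.2⟩

end Pool.Agent.H71.Lel
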