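import Pool.Agent.H71.Lel4

set_option autoImplicit false

namespace Pool.Agent.H71.Lel

open Set Filter Topology Metric Pool.Agent.H71.Hag

variable {X : Type} [MetricSpace X]

def Typed (K U V E : Set X) : Prop :=
  ∀ Y O, closure Y ⊆ E → Blob K Y O → Disjoint (K ∩ O) V ∨ Disjoint (K ∩ O) U

def Imp (K E J O : Set X) (c : Set X → Set X → Prop) : Prop := ∀ U V, IsOpen U → IsOpen V →
  Disjoint U V → J ⊆ U ∪ V → Typed K U V E → Disjoint (K ∩ O) V → c U V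

theorem Imp.mono {K E E' J J' O : Set X} {c : Set X → Set X → Prop} (h : Imp K E J O c)
    (h1 : E ⊆ E') (h2 : J ⊆ J') : Imp K E' J' O c := fun U V hU hV hd h3 h4 h5 =>
  h U V hU hV hd (h2.trans h3) (fun Y O h6 => h4 Y O (h6.trans h1)) h5

def NS (K Y O O' : Set X) : Prop :=
  ∀ R, BF Y R → ((K ∩ O) \ R).Finite → (K ∩ O' ∩ R).Finite → False

theorem clo_meet {K O O' : Set X} {x : X} (h : x ∈ closure (K ∩ O)) (ho : IsOpen O') (hx : x ∈ O') :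
    (K ∩ (O ∩ O')).Nonempty := by
  obtain ⟨y, h1, h2⟩ := mem_closure_iff.1 h _ ho hx
  exact ⟨y, h2.1, h2.2, h1⟩

theorem Core.far {K : Set X} {p q : X} (hK : Core K p q) {G : Set X} (hG : IsOpen G) {x : X}
    (hx : x ∈ G) : ∃ ρ > 0, closedBall x ρ ⊆ G ∧ ∃ k ∈ K, k ∉ closedBall x ρ := by
  obtain ⟨ε, h1, h2⟩ := Metric.isOpen_iff.1 hG x hx
  have h3 := dist_pos.2 hK.ne
  refine ⟨min (ε / 2) (dist p q / 3), lt_min (by linarith) (by linarith),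
    (closedBall_subset_ball (lt_of_le_of_lt (min_le_left _ _) (by linarith))).trans h2, ?_⟩
  by_contra hc
  push Not at hc
  linarith [mem_closedBall.1 (hc p hK.hp), mem_closedBall.1 (hc q hK.hq), dist_triangle_right p q x,
    min_le_right (ε / 2) (dist p q / 3)]

variable [CompactSpace X] [LocallyConnectedSpace X]

theorem Core.loc' (hN : Nul X) {K G : Set X} {p q x : X} (hK : Core K p q) (hG : IsOpen G)
    (hx : x ∈ G) : ∃ ρ > 0, ∃ Y, closure Y ⊆ G ∧ ∃ S : Set (Set X), S.Finite ∧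
      (∀ O ∈ S, Blob K Y O) ∧ (∀ z ∈ K ∩ ball x ρ, ∃ O ∈ S, z ∈ closure (K ∩ O)) ∧
      ∀ A, (∀ O ∈ S, ((K ∩ O) \ A).Finite ∨ (K ∩ O ∩ A).Finite) → Good K (ball x ρ) A := by
  obtain ⟨ρ, h1, h2, k, h3, h4⟩ := hK.far hG hx
  obtain ⟨S, h5, h6, h7, h8⟩ := hK.loc hN (x := x) (Y := ball x ρ) isOpen_ball (half_pos h1)
    (by rw [mul_div_cancel₀ _ two_ne_zero]) h3 fun h => h4 (closure_ball_subset_closedBall h)
  refine ⟨ρ / 2, half_pos h1, ball x ρ, closure_ball_subset_closedBall.trans h2, S, h5,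
    fun O hO => (h6 O hO).1, fun z hz => ?_, h8⟩
  have := h7 hz
  rw [h5.closure_biUnion] at this
  simpa using this

theorem chain (hN : Nul X) {K Y W O O' P : Set X} {p q : X} (hK : Core K p q) (hW : IsOpen W)
    (hYW : closure Y ⊆ W) (hO : IsOpen O) (hO' : IsOpen O') (hOY : O ⊆ Y) (hOY' : O' ⊆ Y)
    (hns : NS K Y O O') (hP : OK K P) (s : X) : ∃ η > 0, ∃ J, OK K J ∧ Disjoint J P ∧
      Imp K (W \ ball s η) J O fun U _ => ¬ Disjoint (K ∩ O') U := by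
  by_contra hn
  let Re : Set X → Prop := fun O2 => ∃ η > 0, ∃ J, OK K J ∧ Disjoint J P ∧
    Imp K (W \ ball s η) J O fun _ V => Disjoint (K ∩ O2) V
  let RB : Set X → Set X → Prop := fun Y2 O2 => closure Y2 ⊆ W \ {s} ∧ Blob K Y2 O2
  have ext : ∀ O1 Y2 O2 J', Re O1 → RB Y2 O2 → OK K J' → Disjoint J' P → IsPreconnected J' →
      ∀ a ∈ J', a ∈ closure (K ∩ O1) → ∀ b ∈ J', b ∈ closure (K ∩ O2) → Re O2 := by
    rintro O1 Y2 O2 J' ⟨η, h1, J, h2, h3, h4⟩ h5 h6 h7 h8 a a1 a2 b b1 b2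
    obtain ⟨η', g1, g2⟩ := Metric.isOpen_iff.1 (isClosed_closure (s := Y2)).isOpen_compl s
      fun h => (h5.1 h).2 rfl
    refine ⟨min η η', lt_min h1 g1, J ∪ J', h2.union h6, disjoint_union_left.2 ⟨h3, h7⟩,
      fun U V hU hV hd g3 g4 g5 => ?_⟩
    have g6 := h4.mono (sdiff_subset_sdiff_right (ball_subset_ball (min_le_left η η')))
      subset_union_left U V hU hV hd g3 g4 g5
    have g7 : J' ⊆ U := h8.subset_left_of_subset_union hU hV hd (subset_union_right.trans g3)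
      ⟨a, a1, (g3 (Or.inr a1)).resolve_right (disjoint_left.1 (g6.closure_left hV) a2)⟩
    exact (g4 Y2 O2 (fun z hz => ⟨(h5.1 hz).1, fun h => g2 (ball_subset_ball (min_le_right _ _) h) hz⟩)
      h5.2).resolve_right fun h => disjoint_left.1 (h.closure_left hU) b2 (g7 b1)
  have pt : ∀ O1 Y2 O2 a, Re O1 → RB Y2 O2 → a ∈ K → a ∉ P → a ∈ closure (K ∩ O1) →
      a ∈ closure (K ∩ O2) → Re O2 := fun O1 Y2 O2 a h1 h2 h3 h4 h5 h6 =>
    ext O1 Y2 O2 {a} h1 h2 (ok_pt h3) (disjoint_singleton_left.2 h4) isPreconnected_singleton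
      a rfl h5 a rfl h6
  have r0 : Re O := ⟨1, one_pos, ∅, ok_empty K, by simp, fun _ _ _ _ _ _ _ h => h⟩
  have fin : ∀ O2, Re O2 → IsOpen O2 → ¬ (K ∩ (O2 ∩ O')).Nonempty := by
    rintro O2 ⟨η, h1, J, h2, h3, h4⟩ h5 h6
    obtain ⟨a, a1, a2⟩ := hK.pick (h5.inter hO') h6 hP.2.1.countable
    refine hn ⟨η, h1, J ∪ {a}, h2.union (ok_pt a1.1), disjoint_union_left.2
      ⟨h3, disjoint_singleton_left.2 fun h => a2 ⟨h, a1.1⟩⟩, fun U V hU hV hd g3 g4 g5 g6 => ?_⟩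
    have g7 := h4 U V hU hV hd (subset_union_left.trans g3) g4 g5
    exact (g3 (Or.inr rfl)).elim (disjoint_left.1 g6 ⟨a1.1, a1.2.2⟩) (disjoint_left.1 g7 ⟨a1.1, a1.2.1⟩)
  have hWs : IsOpen (W \ {s}) := hW.sdiff isClosed_singleton
  let KK : (Set X → Prop) → Set X := fun Pr => {x | ∃ Y2 O2, RB Y2 O2 ∧ Pr O2 ∧ x ∈ closure (K ∩ O2)}
  have cov : ∀ x ∈ K, x ∈ W \ {s} → ∃ Y2 O2, RB Y2 O2 ∧ x ∈ closure (K ∩ O2) := by
    intro x h1 h2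
    obtain ⟨ρ, g1, Y2, g2, S, -, g3, g4, -⟩ := hK.loc' hN hWs h2
    obtain ⟨O2, g5, g6⟩ := g4 x ⟨h1, mem_ball_self g1⟩
    exact ⟨Y2, O2, ⟨g2, g3 O2 g5⟩, g6⟩
  obtain ⟨R, F, h1, h2⟩ := hK.glue (A := KK Re) (isClosed_closure (s := Y)).isCompact (by
    intro x hx
    by_cases hxs : x = s
    swap
    · obtain ⟨ρ, g1, Y2, g2, S, -, g3, -, g4⟩ := hK.loc' hN hWs ⟨hYW hx, hxs⟩
      refine ⟨_, isOpen_ball, mem_ball_self g1, g4 _ fun O2 g5 => ?_⟩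
      by_cases g6 : Re O2
      · exact Or.inl (finite_empty.subset fun z hz =>
          hz.2 ⟨Y2, O2, ⟨g2, g3 O2 g5⟩, g6, subset_closure hz.1⟩)
      · refine Or.inr (hP.2.1.subset ?_)
        rintro z ⟨z1, Y1, O1, -, z2, z3⟩
        exact ⟨by_contra fun h => g6 (pt O1 Y2 O2 z z2 ⟨g2, g3 O2 g5⟩ z1.1 h z3 (subset_closure z1)), z1.1⟩
    subst hxs
    obtain ⟨r, hr, hb⟩ := Metric.isOpen_iff.1
      (hW.inter (hP.2.1.sdiff (t := {x})).isClosed.isOpen_compl) x ⟨hYW hx, fun h => h.2 rfl⟩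
    set E := (K ∩ ball x r) \ {x} with hE
    have e1 : ∀ z ∈ E, z ∈ W \ {x} := fun z hz => ⟨(hb hz.1.2).1, hz.2⟩
    have dis : ∀ z ∈ E, z ∈ KK Re → z ∉ KK fun O => ¬ Re O := by
      rintro z hz ⟨Y1, O1, -, z2, z3⟩ ⟨Y2, O2, w1, w2, w3⟩
      exact w2 (pt O1 Y2 O2 z z2 w1 hz.1.1 (fun h => (hb hz.1.2).2 ⟨⟨h, hz.1.1⟩, hz.2⟩) z3 w3)
    have cvr : ∀ z ∈ E, z ∈ KK Re ∨ z ∈ KK fun O => ¬ Re O := fun z hz => by
      obtain ⟨Y2, O2, g1, g2⟩ := cov z hz.1.1 (e1 z hz)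
      exact (em (Re O2)).imp (fun h => ⟨Y2, O2, g1, h, g2⟩) fun h => ⟨Y2, O2, g1, h, g2⟩
    have cl : ∀ Pr Pr' : Set X → Prop, (∀ O, Pr O ∨ Pr' O) → (∀ z ∈ E, z ∈ KK Pr → z ∉ KK Pr') →
        ∀ z ∈ E, z ∈ closure (E ∩ KK Pr) → z ∈ KK Pr := by
      intro Pr Pr' g1 g2 z hz g3
      obtain ⟨ρ, g4, Y2, g5, S, g6, g7, g8, -⟩ := hK.loc' hN hWs (e1 z hz)
      have : z ∈ ⋃ O ∈ {O ∈ S | Pr O}, closure (K ∩ O) := by
        refine closure_minimal ?_ ((g6.subset (sep_subset _ _)).isClosed_biUnion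
          fun _ _ => isClosed_closure) (isOpen_ball.inter_closure ⟨mem_ball_self g4, g3⟩)
        rintro w ⟨w1, w2, w3⟩
        obtain ⟨O2, w4, w5⟩ := g8 w ⟨w2.1.1, w1⟩
        exact mem_biUnion ⟨w4, (g1 O2).resolve_right fun h =>
          g2 w w2 w3 ⟨Y2, O2, ⟨g5, g7 O2 w4⟩, h, w5⟩⟩ w5
      obtain ⟨O2, w1, w2⟩ := mem_iUnion₂.1 this
      exact ⟨Y2, O2, ⟨g5, g7 O2 w1.1⟩, w1.2, w2⟩
    have c1 := cl Re (fun O => ¬ Re O) (fun O => em _) dis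
    have c2 := cl (fun O => ¬ Re O) Re (fun O => (em _).symm) fun z hz h1 h2 => dis z hz h2 h1
    have i1 : ∀ z ∈ E, z ∈ (closure (E ∩ KK fun O => ¬ Re O))ᶜ ↔ z ∈ KK Re := fun z hz =>
      ⟨fun h => (cvr z hz).resolve_right fun h' => h (subset_closure ⟨hz, h'⟩),
        fun h h' => dis z hz h (c2 z hz h')⟩
    have i2 : ∀ z ∈ E, z ∈ (closure (E ∩ KK Re))ᶜ ↔ z ∈ KK fun O => ¬ Re O := fun z hz =>
      ⟨fun h => (cvr z hz).resolve_left fun h' => h (subset_closure ⟨hz, h'⟩),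
        fun h h' => dis z hz (c1 z hz h') h⟩
    rcases piece hN ⟨hK.cl, hK.con⟩ hr (A := (closure (E ∩ KK fun O => ¬ Re O))ᶜ)
      (B := (closure (E ∩ KK Re))ᶜ) ⟨isClosed_closure.isOpen_compl, isClosed_closure.isOpen_compl,
        fun z hz => (cvr z hz).imp (i1 z hz).2 (i2 z hz).2,
        fun z hz h1 h2 => dis z hz ((i1 z hz).1 h1) ((i2 z hz).1 h2)⟩ hP with
      ⟨J, g1, g2, g3, ⟨a, a1, a2⟩, b, b1, b2⟩ | ⟨r', g1, g2, R, g3⟩
    · obtain ⟨Y1, O1, -, z2, z3⟩ := (i1 a a2.1).1 a2.2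
      obtain ⟨Y2, O2, w1, w2, w3⟩ := (i2 b b2.1).1 b2.2
      exact absurd (ext O1 Y2 O2 J z2 w1 g1 g2 g3 a a1 z3 b b1 w3) w2
    · exact ⟨_, isOpen_ball, mem_ball_self g1, R, {x}, finite_singleton x, fun z hz h =>
        ⟨(g3 z hz h).1, fun hzK => (i1 z ⟨⟨hzK, ball_subset_ball g2.le hz⟩, h⟩).symm.trans
          ((g3 z hz h).2 hzK)⟩⟩)
  refine hns R ⟨F, h1, fun x hx h => (h2 x (subset_closure hx) h).1⟩
    ((h1.union (finite_singleton s)).subset fun x hx => by_contra fun h => hx.2 ?_)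
    (h1.subset fun x hx => by_contra fun h => ?_)
  · have h3 := subset_closure (hOY hx.1.2)
    refine ((h2 x h3 fun h' => h (Or.inl h')).2 hx.1.1).1 ?_
    obtain ⟨Y2, O2, g1, g2⟩ := cov x hx.1.1 ⟨hYW h3, fun h' => h (Or.inr h')⟩
    obtain ⟨a, a1, a2⟩ := hK.pick (g1.2.1.inter hO) (clo_meet g2 hO hx.1.2) hP.2.1.countable
    exact ⟨Y2, O2, g1, pt O Y2 O2 a r0 g1 a1.1 (fun h => a2 ⟨h, a1.1⟩)
      (subset_closure ⟨a1.1, a1.2.2⟩) (subset_closure ⟨a1.1, a1.2.1⟩), g2⟩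
  · obtain ⟨Y2, O2, g1, g2, g3⟩ := ((h2 x (subset_closure (hOY' hx.1.2)) h).2 hx.1.1).2 hx.2
    exact fin O2 g2 g1.2.1 (clo_meet g3 hO' hx.1.2)

theorem step (hN : Nul X) {K Y W O O' P : Set X} {p q : X} (hK : Core K p q) (hW : IsOpen W)
    (hYW : closure Y ⊆ W) (hO : IsOpen O) (hO' : IsOpen O') (hOY : O ⊆ Y) (hOY' : O' ⊆ Y)
    (hns : NS K Y O O') (hP : OK K P) : ∃ J, OK K J ∧ Disjoint J P ∧
      ∀ s, Imp K (W \ {s}) J O fun U _ => ¬ Disjoint (K ∩ O') U := by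
  obtain ⟨G, -, h1, J, h2, h3, h4⟩ := cover (P := fun G => ∃ J, OK K J ∧ Disjoint J P ∧
      ∀ s ∈ G, Imp K (W \ {s}) J O fun U _ => ¬ Disjoint (K ∩ O') U)
    ⟨∅, ok_empty K, by simp, fun _ h => h.elim⟩ (by
      rintro A B ⟨J, h1, h2, h3⟩ ⟨J', g1, g2, g3⟩
      exact ⟨J ∪ J', h1.union g1, disjoint_union_left.2 ⟨h2, g2⟩, fun s hs => hs.elim
        (fun h => (h3 s h).mono Subset.rfl subset_union_left)
        fun h => (g3 s h).mono Subset.rfl subset_union_right⟩) isCompact_univ (fun s _ => by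
      obtain ⟨η, h1, J, h2, h3, h4⟩ := chain hN hK hW hYW hO hO' hOY hOY' hns hP s
      exact ⟨_, isOpen_ball, mem_ball_self h1, J, h2, h3, fun s' hs' =>
        h4.mono (sdiff_subset_sdiff_right (singleton_subset_iff.2 hs')) Subset.rfl⟩)
  exact ⟨J, h2, h3, fun s => h4 s (h1 trivial)⟩

theorem build {K : Set X} {Φ : ℕ → Set X → Prop}
    (h : ∀ m P, OK K P → ∃ J, OK K J ∧ Disjoint J P ∧ Φ m J) :
    ∃ J : ℕ → Set X, (∀ m, OK K (J m)) ∧ (Pairwise fun i j => Disjoint (J i) (J j)) ∧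
      ∀ m, Φ m (J m) := by
  choose f f1 f2 f3 using h
  let s : ℕ → {P // OK K P} := fun n =>
    Nat.rec ⟨∅, ok_empty K⟩ (fun n P => ⟨P.1 ∪ f n P.1 P.2, P.2.union (f1 n P.1 P.2)⟩) n
  have hs : Monotone fun n => (s n).1 := monotone_nat_of_le_succ fun n => subset_union_left
  exact ⟨fun n => f n _ (s n).2, fun n => f1 _ _ _, pw_lt fun i j hij =>
    ((f2 j _ (s j).2).mono_right (subset_union_right.trans (hs (Nat.succ_le_of_lt hij)))).symm,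
    fun n => f3 _ _ _⟩

theorem need (hN : Nul X) {K U V : Set X} {p q : X} (hK : Core K p q) {𝒪 : Set (Set X)}
    (hB : Bas 𝒪) (hU : IsOpen U) (hV : IsOpen V) (hd : Disjoint U V) (hS : (K \ (U ∪ V)).Countable)
    (h1 : (K ∩ U).Nonempty) (h2 : (K ∩ V).Nonempty) : ∃ Y ∈ 𝒪, ∃ W ∈ 𝒪, ∃ O ∈ 𝒪, ∃ O' ∈ 𝒪,
      (closure Y ⊆ W ∧ O ⊆ Y ∧ O' ⊆ Y ∧ NS K Y O O') ∧ O ⊆ U ∧ O' ⊆ V ∧
      ∃ s, Typed K U V (W \ {s}) := by
  let A := closure (K ∩ U)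
  have hAV : ∀ z ∈ A, z ∉ V := disjoint_left.1 ((hd.mono_left inter_subset_right).closure_left hV)
  let N : Set X := {x | ¬ ∃ W, IsOpen W ∧ x ∈ W ∧ Good K W A}
  have n1 : IsClosed N := by
    rw [← isOpen_compl_iff, isOpen_iff_forall_mem_open]
    intro x hx
    obtain ⟨W, g1, g2, g3⟩ := not_not.1 hx
    exact ⟨W, fun y hy h => h ⟨W, g1, hy, g3⟩, g1, g2⟩
  have n2 : N ⊆ K \ (U ∪ V) := fun x hx => by
    refine ⟨by_contra fun h => hx ⟨Kᶜ, hK.cl.isOpen_compl, h, univ, ∅, finite_empty,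
      fun y hy _ => ⟨LC.of_mem univ_mem, fun h => absurd h hy⟩⟩, ?_⟩
    rintro (h | h)
    · exact hx ⟨U, hU, h, univ, ∅, finite_empty, fun y hy _ =>
        ⟨LC.of_mem univ_mem, fun h => iff_of_true (subset_closure ⟨h, hy⟩) trivial⟩⟩
    · exact hx ⟨V, hV, h, ∅, ∅, finite_empty, fun y hy _ =>
        ⟨LC.of_not (by simp), fun _ => iff_of_false (fun h => hAV y h hy) id⟩⟩
  have n3 : N.Nonempty := by
    by_contra hn
    obtain ⟨R, F, g1, g2⟩ := hK.glue (A := A) isCompact_univ fun x _ =>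
      by_contra fun h => hn ⟨x, h⟩
    rcases hK.thick R ⟨F, g1, fun x hx h => (g2 x hx h).1⟩ with h | h
    · exact hK.inf hU h1 ((g1.union h).subset fun x hx => (em _).imp_right fun h' =>
        ⟨hx.1, ((g2 x trivial h').2 hx.1).1 (subset_closure hx)⟩)
    · exact hK.inf hV h2 ((g1.union h).subset fun x hx => (em _).imp_right fun h' =>
        ⟨hx.1, fun h'' => hAV x (((g2 x trivial h').2 hx.1).2 h'') hx.2⟩)
  obtain ⟨s, hs, G, g1, g2, g3⟩ : ∃ s ∈ N, ∃ G, IsOpen G ∧ s ∈ G ∧ ∀ z ∈ G, z ∈ N → z = s := by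
    by_contra hc
    push Not at hc
    have : Perfect N := ⟨n1, fun x hx => accPt_iff_nhds.2 fun G hG => by
      obtain ⟨G', a1, a2, a3⟩ := _root_.mem_nhds_iff.1 hG
      obtain ⟨z, b1, b2, b3⟩ := hc x hx G' a2 a3
      exact ⟨z, ⟨a1 b1, b2⟩, b3⟩⟩
    obtain ⟨f, f1, -, f2⟩ := this.exists_nat_bool_injection n3
    have h3 : (range f).Countable := (hS.mono n2).mono f1
    have h4 := Cardinal.le_aleph0_iff_set_countable.2 h3
    rw [Cardinal.mk_range_eq _ f2] at h4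
    simp at h4
    exact h4.not_gt Cardinal.aleph0_lt_continuum
  obtain ⟨W, w1, w2, w3⟩ := hB.2.2 {s} G isClosed_singleton g1 (singleton_subset_iff.2 g2)
  obtain ⟨ρ, r1, r2, k, r3, r4⟩ := hK.far (hB.2.1 W w1) (w2 rfl)
  obtain ⟨Y, y1, y2, y3⟩ := hB.2.2 {s} _ isClosed_singleton isOpen_ball
    (singleton_subset_iff.2 (mem_ball_self r1))
  obtain ⟨ε, e1, e2⟩ := Metric.isOpen_iff.1 (hB.2.1 Y y1) s (y2 rfl)
  obtain ⟨S, -, s1, -, s2⟩ := hK.loc hN (x := s) (hB.2.1 Y y1) (half_pos e1)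
    (by rwa [mul_div_cancel₀ _ two_ne_zero]) r3 fun h => r4 (ball_subset_closedBall (y3 h))
  obtain ⟨T, t1, t2, t3⟩ : ∃ T ∈ S, ¬ ((K ∩ T) \ A).Finite ∧ ¬ (K ∩ T ∩ A).Finite := by
    by_contra hc
    push Not at hc
    exact hs ⟨_, isOpen_ball, mem_ball_self (half_pos e1), s2 A fun T hT =>
      (em _).imp_right (hc T hT)⟩
  obtain ⟨b1, b2, -, b3⟩ := (s1 T t1).1
  obtain ⟨u, u1, u2, u3⟩ : (K ∩ (U ∩ T)).Nonempty := by
    obtain ⟨x, hx⟩ := Set.Infinite.nonempty t3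
    exact clo_meet hx.2 b1 hx.1.2
  obtain ⟨v, v1, v2, v3⟩ : (K ∩ (V ∩ T)).Nonempty := by
    obtain ⟨x, hx⟩ := Set.Infinite.nonempty t2
    obtain ⟨v, a1, a2⟩ := hK.pick (b1.sdiff (isClosed_closure (s := K ∩ U))) ⟨x, hx.1.1, hx.1.2, hx.2⟩ hS
    refine ⟨v, a1.1, (by_contra fun h => a2 ⟨a1.1, ?_⟩), a1.2.1⟩
    exact fun h' => h'.elim (fun h' => a1.2.2 (subset_closure ⟨a1.1, h'⟩)) h
  obtain ⟨O, o1, o2, o3⟩ := hB.2.2 {u} _ isClosed_singleton (hU.inter b1)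
    (singleton_subset_iff.2 ⟨u2, u3⟩)
  obtain ⟨O', o1', o2', o3'⟩ := hB.2.2 {v} _ isClosed_singleton (hV.inter b1)
    (singleton_subset_iff.2 ⟨v2, v3⟩)
  have o4 := subset_closure.trans o3
  have o4' := subset_closure.trans o3'
  refine ⟨Y, y1, W, w1, O, o1, O', o1', ⟨y3.trans (ball_subset_closedBall.trans r2),
    fun z hz => b2 (o4 hz).2, fun z hz => b2 (o4' hz).2, fun R c1 c2 c3 => ?_⟩,
    fun z hz => (o4 hz).1, fun z hz => (o4' hz).1, s, fun Y2 O2 c1 c2 => ?_⟩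
  · rcases b3 R c1 with h | h
    · exact hK.inf (hB.2.1 O o1) ⟨u, u1, o2 rfl⟩ ((c2.union h).subset fun z hz =>
        (em (z ∈ R)).symm.imp (fun h => ⟨hz, h⟩) fun h => ⟨⟨hz.1, (o4 hz.2).2⟩, h⟩)
    · exact hK.inf (hB.2.1 O' o1') ⟨v, v1, o2' rfl⟩ ((c3.union h).subset fun z hz =>
        (em (z ∈ R)).imp (fun h => ⟨hz, h⟩) fun h => ⟨⟨hz.1, (o4' hz.2).2⟩, h⟩)
  obtain ⟨R, F, d1, d2⟩ := hK.glue (A := A) (isClosed_closure (s := Y2)).isCompact fun x hx =>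
    by_contra fun h => (c1 hx).2 (g3 x (w3 (subset_closure (c1 hx).1)) h)
  have d3 := fun z (hz : z ∈ O2) => d2 z (subset_closure (c2.2.1 hz))
  refine (c2.2.2.2 R ⟨F, d1, fun x hx h => (d2 x (subset_closure hx) h).1⟩).symm.imp
    (fun h => by_contra fun h' => ?_) fun h => by_contra fun h' => ?_
  · obtain ⟨x, x1, x2⟩ := not_disjoint_iff.1 h'
    exact hK.inf (c2.1.inter hV) ⟨x, x1.1, x1.2, x2⟩ ((d1.union h).subset fun z hz =>
      (em _).imp_right fun hF => ⟨⟨hz.1, hz.2.1⟩, fun hR =>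
        hAV z (((d3 z hz.2.1 hF).2 hz.1).2 hR) hz.2.2⟩)
  · obtain ⟨x, x1, x2⟩ := not_disjoint_iff.1 h'
    exact hK.inf (c2.1.inter hU) ⟨x, x1.1, x1.2, x2⟩ ((d1.union h).subset fun z hz =>
      (em _).imp_right fun hF => ⟨⟨hz.1, hz.2.1⟩,
        ((d3 z hz.2.1 hF).2 hz.1).1 (subset_closure ⟨hz.1, hz.2.2⟩)⟩)

theorem main (hN : Nul X) {K : Set X} {p q : X} (hK : Core K p q) : False := by
  obtain ⟨𝒪, hB⟩ := exO (X := X)
  obtain ⟨O0, o0, -⟩ := hB.2.2 ∅ ∅ isClosed_empty isOpen_empty Subset.rfl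
  have : Countable 𝒪 := hB.1.to_subtype
  have : Nonempty 𝒪 := ⟨⟨O0, o0⟩⟩
  obtain ⟨e, he⟩ := exists_surjective_nat ((𝒪 × 𝒪 × 𝒪 × 𝒪) × ℕ)
  obtain ⟨J, j1, j2, j3⟩ := build (K := K) (Φ := fun m J =>
      (closure (e m).1.1.1 ⊆ (e m).1.2.1.1 ∧ (e m).1.2.2.1.1 ⊆ (e m).1.1.1 ∧
        (e m).1.2.2.2.1 ⊆ (e m).1.1.1 ∧ NS K (e m).1.1.1 (e m).1.2.2.1.1 (e m).1.2.2.2.1) →
      ∀ s, Imp K ((e m).1.2.1.1 \ {s}) J (e m).1.2.2.1.1 fun U _ => ¬ Disjoint (K ∩ (e m).1.2.2.2.1) U)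
    (fun m P hP => by
      by_cases h : (closure (e m).1.1.1 ⊆ (e m).1.2.1.1 ∧ (e m).1.2.2.1.1 ⊆ (e m).1.1.1 ∧
        (e m).1.2.2.2.1 ⊆ (e m).1.1.1 ∧ NS K (e m).1.1.1 (e m).1.2.2.1.1 (e m).1.2.2.2.1)
      · obtain ⟨J, h1, h2, h3⟩ := step hN hK (hB.2.1 _ (e m).1.2.1.2) h.1 (hB.2.1 _ (e m).1.2.2.1.2)
          (hB.2.1 _ (e m).1.2.2.2.2) h.2.1 h.2.2.1 h.2.2.2 hP
        exact ⟨J, h1, h2, fun _ => h3⟩
      · exact ⟨∅, ok_empty K, by simp, fun h' => absurd h' h⟩)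
  obtain ⟨B, b1, b2, b3⟩ := bern (K := K) (Z := ⋃ m, J m ∩ K)
    (countable_iUnion fun m => (j1 m).2.1.countable)
  let C : ℕ → Set X := fun i => B i ∪ ⋃ m ∈ {m | (e m).2 = i}, J m
  have hd := dist_pos.2 hK.ne
  refine hN (dist p q / 3) (by linarith) C (fun i => pre_of fun U V hU hV hd hc => ?_)
    (fun i j hij => disjoint_left.2 ?_) fun i => ?_
  · have hS : (K \ (U ∪ V)).Countable := by_contra fun h => by
      obtain ⟨x, x1, x2⟩ := b3 i _ (hK.cl.sdiff (hU.union hV)) sdiff_subset h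
      exact x1.2 (hc (Or.inl x2))
    have key : ∀ U V : Set X, IsOpen U → IsOpen V → Disjoint U V → C i ⊆ U ∪ V →
        ¬ (K ∩ V).Nonempty → C i ⊆ U := by
      rintro U V hU hV hd hc hn x (hx | hx)
      · exact (hc (Or.inl hx)).resolve_right fun h => hn ⟨x, (b1 i hx).1, h⟩
      · obtain ⟨m, h1, h2⟩ := mem_iUnion₂.1 hx
        obtain ⟨D, d1, d2, d3, a, d4, d5⟩ := (j1 m).2.2 x h2
        have d6 : D ⊆ U ∪ V := fun z hz => hc (Or.inr (mem_biUnion h1 (d1 hz)))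
        exact d2.subset_left_of_subset_union hU hV hd d6
          ⟨a, d4, (d6 d4).resolve_right fun h => hn ⟨a, d5, h⟩⟩ d3
    by_cases h2 : (K ∩ V).Nonempty
    swap
    · exact Or.inl (key U V hU hV hd hc h2)
    refine Or.inr (key V U hV hU hd.symm (by rwa [union_comm]) fun h1 => ?_)
    obtain ⟨Y, y1, W, w1, O, o1, O', o2, h3, h4, h5, s, h6⟩ := need hN hK hB hU hV hd hS h1 h2
    obtain ⟨m, hm⟩ := he ((⟨Y, y1⟩, ⟨W, w1⟩, ⟨O, o1⟩, ⟨O', o2⟩), i)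
    have h7 := j3 m
    have h8 : J m ⊆ U ∪ V := fun z hz => hc (Or.inr (mem_biUnion (show (e m).2 = i by rw [hm]) hz))
    rw [hm] at h7
    exact h7 h3 s U V hU hV hd h8 h6 (hd.mono_left (inter_subset_right.trans h4))
      (hd.symm.mono_left (inter_subset_right.trans h5))
  · rintro x (h1 | h1) (h2 | h2)
    · exact disjoint_left.1 (b2 hij) h1 h2
    · obtain ⟨m, -, h3⟩ := mem_iUnion₂.1 h2
      exact (b1 i h1).2 (mem_iUnion.2 ⟨m, h3, (b1 i h1).1⟩)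
    · obtain ⟨m, -, h3⟩ := mem_iUnion₂.1 h1
      exact (b1 j h2).2 (mem_iUnion.2 ⟨m, h3, (b1 j h2).1⟩)
    · obtain ⟨m, h3, h4⟩ := mem_iUnion₂.1 h1
      obtain ⟨m', h5, h6⟩ := mem_iUnion₂.1 h2
      exact disjoint_left.1 (j2 fun h : m = m' => hij (h3.symm.trans (h ▸ h5))) h4 h6
  · have key : ∀ x ∈ K, ∃ a ∈ C i, dist a x ≤ dist p q / 3 := fun x hx => by
      obtain ⟨a, a1, a2⟩ := b3 i (K ∩ closedBall x (dist p q / 3)) (hK.cl.inter isClosed_closedBall)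
        inter_subset_left fun h => hK.unc isOpen_ball ⟨x, hx, mem_ball_self (by linarith)⟩
          (h.mono (inter_subset_inter_right _ ball_subset_closedBall))
      exact ⟨a, Or.inl a2, a1.2⟩
    obtain ⟨a, a1, a2⟩ := key p hK.hp
    obtain ⟨b, b1, b2⟩ := key q hK.hq
    exact ⟨a, a1, b, b1, by linarith [dist_triangle4 p a b q, dist_comm p a]⟩

end Pool.Agent.H71.Lel
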