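import Mathlib
import Pool.Agent.H71.Lie4

/-! Compact linear groups are real analytic Lie groups; pseudocompact minimal groups. -/

namespace Pool.Agent.H71.Lie

open Filter Topology NormedSpace TopologicalSpace
open scoped Manifold ContDiff

lemma lg_analytic {A : Type} [NormedRing A] [NormedAlgebra ℝ A] [CompleteSpace A] :
    ContDiffAt ℝ ω (lg : A → A) 1 := by
  have h : ContDiffAt ℝ ω (exp : A → A) 0 := (exp_analytic (𝕂 := ℝ) (0 : A)).contDiffAt
  have := h.to_localInverse (exp_strict (A := A)).hasFDerivAt (by simp)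
  rw [exp_zero] at this
  exact this

theorem isLie {G : Type} [Group G] [TopologicalSpace G] [IsTopologicalGroup G] [CompactSpace G]
    (R : Rep G) (hR : ∀ x, R.ρ x = 1 → x = 1) :
    ∃ (E : Type) (_ : NormedAddCommGroup E) (_ : NormedSpace ℝ E) (_ : FiniteDimensional ℝ E)
      (_ : ChartedSpace E G), LieGroup 𝓘(ℝ, E) ω G := by
  have emb := (R.isClosedEmbedding hR).isEmbedding
  have cT : IsClosed ((⊤ : Subgroup G) : Set G) := isClosed_univ
  let 𝔤 := (R.cg cT).lie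
  obtain ⟨π, hπ⟩ : ∃ π : R.A →L[ℝ] 𝔤, ∀ X : 𝔤, π X = X :=
    Submodule.ClosedComplemented.of_finiteDimensional 𝔤
  have ex : ∀ X : 𝔤, ∃ x, R.ρ x = exp (X : R.A) := fun X => by
    obtain ⟨x, -, hx⟩ := (R.cg cT).exp_mem X.2; exact ⟨x, hx⟩
  choose s hs using ex
  have sc : Continuous s := by
    rw [emb.continuous_iff]
    have : R.ρ ∘ s = fun X : 𝔤 => exp (X : R.A) := funext hs
    rw [this]; exact exp_cont.comp continuous_subtype_val
  have hW : ∀ᶠ y in 𝓝 (1 : R.A), ContDiffAt ℝ ω lg y ∧ exp (lg y) = y ∧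
      (y ∈ Set.range R.ρ → lg y ∈ 𝔤) := by
    filter_upwards [lg_analytic.eventually (by simp), exp_lg,
      lg_tendsto.eventually (R.cg cT).cst'] with y h1 h2 h3
    refine ⟨h1, h2, ?_⟩
    rintro ⟨x, rfl⟩
    exact h3 (by rw [h2]; exact ⟨x, trivial, rfl⟩)
  obtain ⟨W, hW1, hWo, hW0⟩ := eventually_nhds_iff.1 hW
  obtain ⟨V, hV1, hVo, hV0⟩ := eventually_nhds_iff.1 (lg_exp (A := R.A))
  have lgc : ContinuousOn (lg : R.A → R.A) W := fun y hy =>
    (hW1 y hy).1.continuousAt.continuousWithinAt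
  have rc : ∀ g : G, Continuous fun x => R.ρ g⁻¹ * R.ρ x := fun g => continuous_const.mul R.cont
  have key : ∀ (g : G) (X : 𝔤), R.ρ g⁻¹ * R.ρ (g * s X) = exp (X : R.A) := fun g X => by
    rw [← map_mul, inv_mul_cancel_left, hs]
  have key2 : ∀ g x : G, R.ρ g⁻¹ * R.ρ x ∈ W →
      (π (lg (R.ρ g⁻¹ * R.ρ x)) : R.A) = lg (R.ρ g⁻¹ * R.ρ x) := fun g x hx =>
    congrArg Subtype.val (hπ ⟨_, (hW1 _ hx).2.2 ⟨g⁻¹ * x, map_mul _ _ _⟩⟩)
  let e : G → OpenPartialHomeomorph G 𝔤 := fun g =>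
    { toFun := fun x => π (lg (R.ρ g⁻¹ * R.ρ x))
      invFun := fun X => g * s X
      source := (fun x => R.ρ g⁻¹ * R.ρ x) ⁻¹' (W ∩ lg ⁻¹' V)
      target := Subtype.val ⁻¹' (V ∩ exp ⁻¹' W)
      map_source' := fun x hx => by
        change _ ∈ V ∧ exp _ ∈ W
        rw [key2 g x hx.1, (hW1 _ hx.1).2.1]
        exact ⟨hx.2, hx.1⟩
      map_target' := fun X hX => by
        change R.ρ g⁻¹ * R.ρ (g * s X) ∈ W ∧ lg (R.ρ g⁻¹ * R.ρ (g * s X)) ∈ V
        rw [key, hV1 _ hX.1]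
        exact ⟨hX.2, hX.1⟩
      left_inv' := fun x hx => by
        apply emb.injective
        rw [map_mul, hs, key2 g x hx.1, (hW1 _ hx.1).2.1, ← mul_assoc, R.mul_inv, one_mul]
      right_inv' := fun X hX => by rw [key, hV1 _ hX.1, hπ]
      open_source := (lgc.isOpen_inter_preimage hWo hVo).preimage (rc g)
      open_target := (hVo.inter (hWo.preimage exp_cont)).preimage continuous_subtype_val
      continuousOn_toFun := π.continuous.comp_continuousOn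
        (lgc.comp (rc g).continuousOn fun x hx => hx.1)
      continuousOn_invFun := (continuous_const.mul sc).continuousOn }
  let cs : ChartedSpace 𝔤 G :=
    { atlas := Set.range e
      chartAt := e
      mem_chart_source := fun g => by
        change R.ρ g⁻¹ * R.ρ g ∈ W ∧ lg (R.ρ g⁻¹ * R.ρ g) ∈ V
        rw [R.inv_mul, lg_one]
        exact ⟨hW0, hV0⟩
      chart_mem_atlas := fun g => ⟨g, rfl⟩ }
  have expd : ∀ a : R.A, ContDiff ℝ ω fun X : 𝔤 => a * exp (X : R.A) := fun a =>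
    contDiff_const.mul (ContDiff.comp (g := exp)
      (contDiff_iff_contDiffAt.2 fun x => (exp_analytic (𝕂 := ℝ) x).contDiffAt) 𝔤.subtypeL.contDiff)
  have man : IsManifold 𝓘(ℝ, 𝔤) ω G := by
    apply isManifold_of_contDiffOn
    rintro _ _ ⟨g, rfl⟩ ⟨g', rfl⟩ X hX
    have hX' : R.ρ g'⁻¹ * R.ρ (g * s X) ∈ W := hX.1.2.1
    have eq : ∀ Y : 𝔤, R.ρ g'⁻¹ * R.ρ (g * s Y) = R.ρ g'⁻¹ * R.ρ g * exp (Y : R.A) := fun Y => by
      rw [map_mul, hs, mul_assoc]
    change ContDiffWithinAt ℝ ω (fun Y => π (lg (R.ρ g'⁻¹ * R.ρ (g * s Y)))) _ X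
    simp only [eq] at hX' ⊢
    exact (π.contDiff.contDiffAt.comp X (ContDiffAt.comp X (g := lg) (hW1 _ hX').1
      (expd _).contDiffAt)).contDiffWithinAt
  have ρs : ContMDiff 𝓘(ℝ, 𝔤) 𝓘(ℝ, R.A) ω R.ρ := fun g => by
    rw [contMDiffAt_iff_source]
    have : R.ρ ∘ (extChartAt 𝓘(ℝ, 𝔤) g).symm = fun X : 𝔤 => R.ρ g * exp (X : R.A) := by
      funext X
      change R.ρ (g * s X) = _
      rw [map_mul, hs]
    rw [this]
    exact (expd _).contMDiff.contMDiffAt.contMDiffWithinAt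
  have outer : ∀ g : G, ContDiffAt ℝ ω (fun a : R.A => π (lg (R.ρ g⁻¹ * a))) (R.ρ g) := fun g =>
    π.contDiff.contDiffAt.comp _ (ContDiffAt.comp _ (g := lg)
      (by rw [R.inv_mul]; exact lg_analytic) (contDiff_const.mul contDiff_id).contDiffAt)
  refine ⟨𝔤, inferInstance, inferInstance, inferInstance, cs,
    { toIsManifold := man, contMDiff_mul := fun p => ?_, contMDiff_inv := fun p => ?_ }⟩
  · rw [contMDiffAt_iff_target]
    refine ⟨continuous_mul.continuousAt, ?_⟩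
    have h1 : ContMDiff (𝓘(ℝ, 𝔤).prod 𝓘(ℝ, 𝔤)) 𝓘(ℝ, R.A) ω fun q : G × G => R.ρ (q.1 * q.2) := by
      simp only [map_mul]
      exact contDiff_mul.comp_contMDiff ((ρs.comp contMDiff_fst).prodMk_space (ρs.comp contMDiff_snd))
    exact (outer (p.1 * p.2)).comp_contMDiffAt (f := fun q : G × G => R.ρ (q.1 * q.2)) (h1 p)
  · rw [contMDiffAt_iff_target]
    refine ⟨continuous_inv.continuousAt, ?_⟩
    let u : G → R.Aˣ := fun q => ⟨R.ρ q, R.ρ q⁻¹, R.mul_inv q, R.inv_mul q⟩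
    have h0 : (fun q : G => R.ρ q⁻¹) = Ring.inverse ∘ R.ρ := funext fun q =>
      (Ring.inverse_unit (u q)).symm
    have h1 : ContMDiffAt 𝓘(ℝ, 𝔤) 𝓘(ℝ, R.A) ω (fun q : G => R.ρ q⁻¹) p := by
      rw [h0]
      exact (contDiffAt_ringInverse ℝ (u p)).comp_contMDiffAt (f := R.ρ) (ρs p)
    exact (outer p⁻¹).comp_contMDiffAt (f := fun q : G => R.ρ q⁻¹) h1

variable {G : Type} [Group G] [t : TopologicalSpace G] [IsTopologicalGroup G]

/-- pseudocompact -/
def Pseudo (G : Type) [TopologicalSpace G] : Prop :=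
  ∀ f : G → ℝ, Continuous f → ∃ C, ∀ x, |f x| ≤ C

lemma precompact_of_pseudo (h : Pseudo G) : Precompact G := by
  intro U hU
  by_contra hcon
  push Not at hcon
  obtain ⟨u, hu⟩ := sep_seq hcon
  have t3 : Tendsto (fun p : (G × G) × G × G => p.1.1 * p.1.2⁻¹ * p.2.1 * p.2.2⁻¹)
      (𝓝 ((1, 1), (1, 1))) (𝓝 1) :=
    Continuous.tendsto' (f := fun p : (G × G) × G × G => p.1.1 * p.1.2⁻¹ * p.2.1 * p.2.2⁻¹)
      (by fun_prop) _ _ (by simp)
  have h2 := t3 hU
  rw [nhds_prod_eq, mem_map, mem_prod_self_iff] at h2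
  obtain ⟨V', hV', hVU⟩ := h2
  rw [nhds_prod_eq, mem_prod_self_iff] at hV'
  obtain ⟨V₀, hV₀, hVV⟩ := hV'
  obtain ⟨V, hV1, hVo, hV0⟩ := mem_nhds_iff.1 hV₀
  have cr : CompletelyRegularSpace G :=
    @UniformSpace.toCompletelyRegularSpace G (IsTopologicalGroup.leftUniformSpace G)
  obtain ⟨f, fc, f0, f1⟩ := cr.completely_regular 1 Vᶜ hVo.isClosed_compl (fun h => h hV0)
  let F : ℕ → G → ℝ := fun n x => n * (1 - (f ((u n)⁻¹ * x) : ℝ))
  have supp : ∀ n x, F n x ≠ 0 → (u n)⁻¹ * x ∈ V := fun n x hx => by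
    by_contra hn
    simp [F, f1 hn] at hx
  have one : ∀ x m n y z, x⁻¹ * y ∈ V → x⁻¹ * z ∈ V → F m y ≠ 0 → F n z ≠ 0 → ¬ m < n :=
    fun x m n y z hy hz h1 h2 hmn => hu m n hmn (by
      have := hVU (Set.mk_mem_prod (hVV (Set.mk_mem_prod (hV1 (supp _ _ h1)) (hV1 hy)))
        (hVV (Set.mk_mem_prod (hV1 hz) (hV1 (supp _ _ h2)))))
      simpa [mul_assoc] using this)
  have lf : LocallyFinite fun n => Function.support (F n) := fun x => by
    refine ⟨{y | x⁻¹ * y ∈ V}, (hVo.preimage (by fun_prop)).mem_nhds (by simpa using hV0),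
      Set.Subsingleton.finite ?_⟩
    rintro m ⟨y, hy, hy'⟩ n ⟨z, hz, hz'⟩
    exact le_antisymm (not_lt.1 (one x n m z y hz' hy' hz hy)) (not_lt.1 (one x m n y z hy' hz' hy hz))
  obtain ⟨C, hC⟩ := h _ (continuous_finsum (f := F) (fun n => by fun_prop) lf)
  obtain ⟨n, hn⟩ := exists_nat_gt (max C 0)
  have hn0 : F n (u n) = n := by simp [F, f0]
  have := hC (u n)
  rw [finsum_eq_single _ n fun m hm => ?_, hn0, Nat.abs_cast] at this
  · exact absurd (lt_of_le_of_lt (le_max_left _ _) hn) (not_lt.2 this)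
  · by_contra h1
    have h2 : F n (u n) ≠ 0 := by rw [hn0]; exact (lt_of_le_of_lt (le_max_right _ _) hn).ne'
    have h3 : (u n)⁻¹ * u n ∈ V := by simpa using hV0
    exact hm (le_antisymm (not_lt.1 (one _ n m _ _ h3 h3 h2 h1)) (not_lt.1 (one _ m n _ _ h3 h3 h1 h2)))

omit [IsTopologicalGroup G] in
lemma sur_of_pseudo (h : Pseudo G) {K : Type} [Group K] [TopologicalSpace K] {j : G →* K}
    (hj : Continuous j) (hd : DenseRange j) (R : Rep K) (k : K) : ∃ g, R.ρ (j g) = R.ρ k := by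
  by_contra hcon
  push Not at hcon
  have hp : ∀ g, 0 < dist (R.ρ (j g)) (R.ρ k) := fun g => dist_pos.2 (hcon g)
  obtain ⟨C, hC⟩ := h (fun g => (dist (R.ρ (j g)) (R.ρ k))⁻¹)
    (((R.cont.comp hj).dist continuous_const).inv₀ fun g => (hp g).ne')
  have C0 : 0 < C := lt_of_lt_of_le (abs_pos.2 (inv_pos.2 (hp 1)).ne') (hC 1)
  obtain ⟨_, h1, g, rfl⟩ := mem_closure_iff_nhds.1 (hd k) _
    (R.cont.continuousAt.preimage_mem_nhds (Metric.ball_mem_nhds _ (inv_pos.2 C0)))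
  have h2 := (le_abs_self _).trans (hC g)
  rw [inv_le_comm₀ (hp g) C0] at h2
  exact absurd h1 (not_lt.2 h2)

/-- main theorem -/
theorem compact_linear [T2Space G] (h : Pseudo G)
    (hmin : ∀ τ' : TopologicalSpace G, @IsTopologicalGroup G τ' _ → @T2Space G τ' → t ≤ τ' → τ' = t)
    (hZ : ¬ Bad G) : CompactSpace G ∧ ∃ R : Rep G, ∀ x, R.ρ x = 1 → x = 1 := by
  obtain ⟨K, _, _, _, _, _, j, hj⟩ := exists_ess (precompact_of_pseudo h) hmin
  have sur := sur_of_pseudo h hj.emb.continuous hj.dense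
  obtain ⟨R, hR⟩ := (hj.linear_or_bad sur).resolve_right hZ
  have sj : Function.Surjective j := fun k => by
    obtain ⟨g, hg⟩ := sur R k
    exact ⟨g, inv_mul_eq_one.1 (hR _ (R.eq_iff.1 hg))⟩
  refine ⟨?_, ⟨R.A, R.ρ.comp j, R.cont.comp hj.emb.continuous⟩, fun x hx =>
    hj.emb.injective (by rw [hR _ hx, map_one])⟩
  exact (hj.emb.toHomeomorphOfSurjective sj).symm.compactSpace

omit [IsTopologicalGroup G] in
lemma min_of_iso (h : ∀ (H : Type) [Group H] [TopologicalSpace H] [IsTopologicalGroup H]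
    [T2Space H] (f : G ≃* H), Continuous f → Continuous f.symm) :
    ∀ τ' : TopologicalSpace G, @IsTopologicalGroup G τ' _ → @T2Space G τ' → t ≤ τ' → τ' = t :=
  fun τ' a b c => le_antisymm (continuous_id_iff_le.1
    (@h G _ τ' a b (MulEquiv.refl G) (continuous_id_iff_le.2 c))) c

omit [Group G] [IsTopologicalGroup G] in
lemma pseudo_of_cc (h : ∀ U : ℕ → Set G, (∀ n, IsOpen (U n)) → ⋃ n, U n = Set.univ →
    ∃ F : Finset ℕ, ⋃ n ∈ F, U n = Set.univ) : Pseudo G := by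
  intro f hf
  obtain ⟨F, hF⟩ := h (fun n => {x | |f x| < n}) (fun n => isOpen_lt hf.abs continuous_const)
    (Set.eq_univ_of_forall fun x => Set.mem_iUnion.2 (exists_nat_gt |f x|))
  refine ⟨(F.sup id : ℕ), fun x => ?_⟩
  obtain ⟨n, hn, hx⟩ := Set.mem_iUnion₂.1 (hF ▸ Set.mem_univ x : x ∈ ⋃ n ∈ F, {x | |f x| < n})
  exact hx.le.trans (by exact_mod_cast Finset.le_sup (f := id) hn)

end Pool.Agent.H71.Lie
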