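import Mathlib
import Pool.Agent.H71.Lie5

/-! Final packaging for pseudocompact minimal groups. -/

namespace Pool.Agent.H71.Lie

open Filter Topology TopologicalSpace
open scoped Manifold ContDiff

variable {G : Type} [Group G] [TopologicalSpace G] [IsTopologicalGroup G] [T2Space G]

theorem final_lie (h : Pseudo G)
    (hmin : ∀ (H : Type) [Group H] [TopologicalSpace H] [IsTopologicalGroup H]
      [T2Space H] (f : G ≃* H), Continuous f → Continuous f.symm)
    (hZ : ∀ T : Subgroup G, IsClosed (T : Set G) → IsTopologicalBasis {s : Set T | IsClopen s} →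
      MetrizableSpace T → DiscreteTopology T) :
    CompactSpace G ∧ MetrizableSpace G ∧
      ∃ (E : Type) (_ : NormedAddCommGroup E) (_ : NormedSpace ℝ E) (_ : FiniteDimensional ℝ E)
        (_ : ChartedSpace E G), LieGroup 𝓘(ℝ, E) ω G := by
  obtain ⟨c, R, hR⟩ := compact_linear h (min_of_iso hmin) (by
    rintro ⟨T, h1, h2, h3, h4⟩
    exact h4 (hZ T h1 h2 h3))
  exact ⟨c, (R.isClosedEmbedding hR).isEmbedding.metrizableSpace, isLie R hR⟩

theorem final_Z (h : Pseudo G)
    (hmin : ∀ (H : Type) [Group H] [TopologicalSpace H] [IsTopologicalGroup H]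
      [T2Space H] (f : G ≃* H), Continuous f → Continuous f.symm)
    (hZ : ∀ T : Subgroup G, IsClosed (T : Set G) → IsTopologicalBasis {s : Set T | IsClopen s} →
      MetrizableSpace T → DiscreteTopology T) (T : Subgroup G) (h1 : IsClosed (T : Set G))
    (h2 : IsTopologicalBasis {s : Set T | IsClopen s}) : DiscreteTopology T := by
  have := (final_lie h hmin hZ).2.1
  exact hZ T h1 h2 (IsEmbedding.subtypeVal (p := fun x => x ∈ T)).metrizableSpace

end Pool.Agent.H71.Lie
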