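import Mathlib

set_option autoImplicit false

namespace Pool.Agent.H71.Markov

open scoped Pointwise Topology
open Filter Function Equiv

/-- the group -/
@[ext] structure G where
  m : ℕ →₀ ZMod 2
  e : ZMod 2
  σ : Perm ℕ

noncomputable instance : Mul G :=
  ⟨fun g h => ⟨g.m + h.m.equivMapDomain g.σ, g.e + h.e, g.σ * h.σ⟩⟩
noncomputable instance : One G := ⟨⟨0, 0, 1⟩⟩
noncomputable instance : Inv G := ⟨fun g => ⟨-g.m.equivMapDomain g.σ⁻¹, -g.e, g.σ⁻¹⟩⟩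
theorem mul_def (g h : G) : g * h = ⟨g.m + h.m.equivMapDomain g.σ, g.e + h.e, g.σ * h.σ⟩ := rfl
theorem one_def : (1 : G) = ⟨0, 0, 1⟩ := rfl
theorem inv_def (g : G) : g⁻¹ = ⟨-g.m.equivMapDomain g.σ⁻¹, -g.e, g.σ⁻¹⟩ := rfl

noncomputable instance : Group G where
  mul_assoc g h k := by ext <;> simp [mul_def, add_assoc, Perm.mul_def]
  one_mul g := by ext <;> simp [mul_def, one_def, Perm.one_def]
  mul_one g := by ext <;> simp [mul_def, one_def]
  inv_mul_cancel g := by ext <;> simp [mul_def, one_def, inv_def, CharTwo.add_self_eq_zero]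

theorem card : Cardinal.mk G ≤ Cardinal.continuum := by
  refine (Cardinal.mk_le_of_injective (f := fun (g : G) (n : ℕ) => (g.σ n, g.m n, g.e))
    fun g h e => ?_).trans ?_
  · have := fun n => Prod.mk.inj (congrFun e n)
    exact G.ext (Finsupp.ext fun n => (Prod.mk.inj (this n).2).1) (Prod.mk.inj (this 0).2).2
      (Equiv.ext fun n => (this n).1)
  · rw [← Cardinal.power_def, Cardinal.mk_eq_aleph0, Cardinal.mk_nat, Cardinal.aleph0_power_aleph0]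

theorem deg_map (σ : Perm ℕ) (m : ℕ →₀ ZMod 2) : (m.equivMapDomain σ).degree = m.degree :=
  Finsupp.sum_equivMapDomain σ m fun _ x => x

theorem conj (x : G) (m : ℕ →₀ ZMod 2) (e : ZMod 2) :
    x * ⟨m, e, 1⟩ * x⁻¹ = ⟨m.equivMapDomain x.σ, e, 1⟩ := by
  ext <;> simp [mul_def, inv_def, Perm.inv_def] <;>
    rw [add_right_comm, CharTwo.add_self_eq_zero, zero_add]

/-- basic neighbourhoods -/
def B (t : ZMod 2) (F : Finset ℕ) : Set G :=
  {g | g.σ = 1 ∧ g.e = t * g.m.degree ∧ ∀ n ∈ F, g.m n = 0}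

/-- filter basis -/
@[reducible] noncomputable def fb (t : ZMod 2) : GroupFilterBasis G where
  sets := Set.range (B t)
  nonempty := Set.range_nonempty _
  inter_sets := by
    rintro _ _ ⟨F, rfl⟩ ⟨F', rfl⟩
    exact ⟨_, ⟨F ∪ F', rfl⟩, fun g h => ⟨⟨h.1, h.2.1, fun n hn => h.2.2 n (by simp [hn])⟩,
      h.1, h.2.1, fun n hn => h.2.2 n (by simp [hn])⟩⟩
  one' := by
    rintro _ ⟨F, rfl⟩
    exact ⟨rfl, by simp [one_def], fun _ _ => rfl⟩
  mul' := by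
    rintro _ ⟨F, rfl⟩
    refine ⟨_, ⟨F, rfl⟩, ?_⟩
    rintro _ ⟨g, ⟨h1, h2, h3⟩, h, ⟨h4, h5, h6⟩, rfl⟩
    exact ⟨by simp [mul_def, h1, h4], by simp [mul_def, deg_map, h2, h5, mul_add],
      fun n hn => by simp [mul_def, h1, h3 n hn, h6 n hn, Perm.one_def]⟩
  inv' := by
    rintro _ ⟨F, rfl⟩
    refine ⟨_, ⟨F, rfl⟩, ?_⟩
    rintro g ⟨h1, h2, h3⟩
    exact ⟨by simp [inv_def, h1], by simp [inv_def, deg_map, h2],
      fun n hn => by simp only [inv_def, h1, inv_one]; simpa [Perm.one_def] using h3 n hn⟩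
  conj' := by
    rintro x _ ⟨F, rfl⟩
    refine ⟨_, ⟨F.image x.σ.symm, rfl⟩, ?_⟩
    rintro ⟨m, e, σ⟩ ⟨rfl, h2, h3⟩
    change x * _ * x⁻¹ ∈ B t F
    rw [conj]
    exact ⟨rfl, by rw [deg_map]; exact h2, fun n hn => h3 _ (Finset.mem_image_of_mem _ hn)⟩

theorem t2 (t : ZMod 2) : @T2Space G (fb t).topology := by
  let := (fb t).topology
  refine ((fb t).t2Space_iff_sInter_subset rfl).2 fun g hg => ?_
  have h := fun n => hg _ ⟨{n}, rfl⟩
  have : g.m = 0 := Finsupp.ext fun n => (h n).2.2 n (by simp)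
  exact G.ext this (by simpa [this, one_def] using (h 0).2.1) (h 0).1

/-- the sequence -/
noncomputable def a (n : ℕ) : G := ⟨.single n 1, 0, 1⟩

theorem lim (t : ZMod 2) : (⟨0, t, 1⟩ : G) ∈ closure[(fb t).topology] (Set.range a) := by
  let := (fb t).topology
  refine mem_closure_iff_nhds.2 fun U hU => ?_
  obtain ⟨_, ⟨F, rfl⟩, h⟩ := ((fb t).nhds_hasBasis _).mem_iff.1 hU
  obtain ⟨n, hn⟩ := F.exists_notMem
  refine ⟨a n, h ⟨⟨.single n 1, t, 1⟩, ⟨rfl, by simp, fun k hk => ?_⟩, ?_⟩, n, rfl⟩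
  · exact Finsupp.single_eq_of_ne fun e => hn (e ▸ hk)
  · ext <;> simp [mul_def, a, Perm.one_def, CharTwo.add_self_eq_zero]

theorem uniq [TopologicalSpace G] [IsTopologicalGroup G] [T2Space G]
    (h0 : (⟨0, 0, 1⟩ : G) ∈ closure (Set.range a)) (h1 : (⟨0, 1, 1⟩ : G) ∈ closure (Set.range a)) :
    False := by
  classical
  have inf : ∀ t, (⟨0, t, 1⟩ : G) ∈ closure (Set.range a) → ∀ U ∈ 𝓝 (⟨0, t, 1⟩ : G),
      {n | a n ∈ U}.Infinite := fun t ht U hU hf => by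
    have : (a '' {n | a n ∈ U})ᶜ ∈ 𝓝 (⟨0, t, 1⟩ : G) :=
      (hf.image a).isClosed.isOpen_compl.mem_nhds fun ⟨n, _, h⟩ => by
        simpa [a] using congrArg G.m h
    obtain ⟨_, h, n, rfl⟩ := mem_closure_iff_nhds.1 ht _ (inter_mem hU this)
    exact h.2 ⟨n, h.1, rfl⟩
  obtain ⟨U, V, hU, hV, h⟩ := t2_separation_nhds
    (show (⟨0, 0, 1⟩ : G) ≠ ⟨0, 1, 1⟩ from fun e => zero_ne_one (congrArg G.e e))
  have := (inf 0 h0 U hU).to_subtype
  have : Infinite {n // ¬ a n ∈ U} :=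
    ((inf 1 h1 V hV).mono (t := {n | ¬ a n ∈ U})
      fun n hn hn' => Set.disjoint_left.1 h hn' hn).to_subtype
  obtain ⟨e⟩ : Nonempty ({n // a n ∈ U} ≃ {n // ¬ a n ∈ U}) :=
    @nonempty_equiv_of_countable _ _ _ ‹_› _ _
  let σ : Perm ℕ := (sumCompl fun n => a n ∈ U).symm.trans
    ((sumCongr e e.symm).trans ((sumComm _ _).trans (sumCompl fun n => a n ∈ U)))
  let x : G := ⟨0, 0, σ⟩
  have hx : (fun g => x * g * x⁻¹) ⁻¹' U ∈ 𝓝 (⟨0, 0, 1⟩ : G) :=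
    Continuous.tendsto' (f := fun g => x * g * x⁻¹) (by fun_prop) _ _ (by simp [conj]) hU
  obtain ⟨n, hn, hn'⟩ := (inf 0 h0 _ (inter_mem hU hx)).nonempty
  refine (e ⟨n, hn⟩).2 ?_
  have : σ n = e ⟨n, hn⟩ := by
    simp [σ, sumCompl_symm_apply_of_pos (p := fun n => a n ∈ U) hn]
  rw [← this]
  simpa [a, conj] using hn'

end Pool.Agent.H71.Markov
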