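import Mathlib

set_option autoImplicit false

namespace Pool.Agent.H71.Met

open scoped commutatorElement
open Function

/-- affine group -/
@[ext] structure Aff {P B : Type} [CommRing P] [CommGroup B] (χ : B →* P) where
  r : P
  b : B

section
variable {P B : Type} [CommRing P] [CommGroup B] {χ : B →* P}

instance : Mul (Aff χ) := ⟨fun g h => ⟨g.r + χ g.b * h.r, g.b * h.b⟩⟩
instance : One (Aff χ) := ⟨⟨0, 1⟩⟩
instance : Inv (Aff χ) := ⟨fun g => ⟨-(χ g.b⁻¹ * g.r), g.b⁻¹⟩⟩
@[simp] theorem mul_r (g h : Aff χ) : (g * h).r = g.r + χ g.b * h.r := rfl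
@[simp] theorem mul_b (g h : Aff χ) : (g * h).b = g.b * h.b := rfl
@[simp] theorem one_r : (1 : Aff χ).r = 0 := rfl
@[simp] theorem one_b : (1 : Aff χ).b = 1 := rfl
@[simp] theorem inv_r (g : Aff χ) : g⁻¹.r = -(χ g.b⁻¹ * g.r) := rfl
@[simp] theorem inv_b (g : Aff χ) : g⁻¹.b = g.b⁻¹ := rfl

instance : Group (Aff χ) where
  mul_assoc g h k := by ext <;> simp [mul_assoc, add_assoc, mul_add]
  one_mul g := by ext <;> simp
  mul_one g := by ext <;> simp
  inv_mul_cancel g := by ext <;> simp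

theorem χ_inv (b : B) : χ b * χ b⁻¹ = 1 := by rw [← map_mul, mul_inv_cancel, map_one]

variable (χ) in
/-- linear part -/
def β : Aff χ →* B := MonoidHom.mk' Aff.b fun _ _ => rfl

theorem conj_tr (g : Aff χ) (r : P) : g * ⟨r, 1⟩ * g⁻¹ = ⟨χ g.b * r, 1⟩ := by
  ext
  · simp only [mul_r, mul_b, inv_r, mul_one]
    linear_combination (-g.r) * χ_inv (χ := χ) g.b
  · simp

theorem comm_iff {g h : Aff χ} : g * h = h * g ↔ (χ g.b - 1) * h.r = (χ h.b - 1) * g.r :=
  ⟨fun e => by
    have : g.r + _ = h.r + _ := congrArg Aff.r e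
    linear_combination this,
    fun e => Aff.ext (show g.r + _ = h.r + _ by linear_combination e) (mul_comm _ _)⟩

theorem metab : derivedSeries (Aff χ) 2 = ⊥ := by
  have : derivedSeries (Aff χ) 1 ≤ (β χ).ker := Abelianization.commutator_subset_ker _
  refine eq_bot_iff.2 (Subgroup.commutator_le.2 fun a ha b hb => ?_)
  rw [Subgroup.mem_bot, commutatorElement_eq_one_iff_mul_comm, comm_iff,
    show a.b = 1 from this ha, show b.b = 1 from this hb]
  simp

end

/-- infinite cyclic group -/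
abbrev C : Type := Multiplicative ℤ
/-- group ring -/
abbrev R (A : Type) [Monoid A] : Type := MonoidAlgebra ℤ A
/-- group elements in the group ring -/
noncomputable abbrev o {A : Type} [Monoid A] : A →* R A := MonoidAlgebra.of ℤ A
/-- induced map -/
noncomputable abbrev md {A B : Type} [Monoid A] [Monoid B] (f : A →* B) : R A →+* R B :=
  MonoidAlgebra.mapDomainRingHom ℤ f

theorem md_o {A B : Type} [Monoid A] [Monoid B] (f : A →* B) (a : A) : md f (o a) = o (f a) :=
  MonoidAlgebra.mapDomain_single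

theorem o_ne {A : Type} [Monoid A] {a : A} (h : a ≠ 1) : o a - 1 ≠ 0 := fun e =>
  h (MonoidAlgebra.of_injective (R := ℤ) ((sub_eq_zero.1 e).trans (map_one _).symm))

theorem topOf {A : Type} [Monoid A] (J : AddSubgroup (R A)) (h : ∀ a, o a ∈ J) (r : R A) :
    r ∈ J := by
  induction r using MonoidAlgebra.induction_on with
  | of g => exact h g
  | add a b ha hb => exact add_mem ha hb
  | smul c a ha => exact zsmul_mem ha c

/-- generator -/
def t : C := Multiplicative.ofAdd 1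

theorem t_ne : t ≠ 1 := by decide

theorem t_pow (c : C) : t ^ c.toAdd = c := by
  apply Multiplicative.toAdd.injective
  simp [t]

/-- cocycle condition -/
def Cond {P B : Type} [CommRing P] [CommGroup B] (χ : B →* P) (π : P →+* R C) (p : B →* C)
    (h : ∀ b, π (χ b) = o (p b)) : Subgroup (Aff χ) where
  carrier := {g | π g.r * (o t - 1) = o (p g.b) - 1}
  mul_mem' := fun {g k} (hg : _ = _) (hk : _ = _) => show _ = _ by
    rw [mul_r, mul_b, map_add, map_mul, h, map_mul, map_mul]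
    linear_combination hg + o (p g.b) * hk
  one_mem' := show _ = _ by simp [← MonoidAlgebra.one_def]
  inv_mem' := fun {g} (hg : _ = _) => show _ = _ by
    rw [inv_r, inv_b, map_neg, map_mul, h, map_inv]
    linear_combination -o (p g.b)⁻¹ * hg - χ_inv (χ := o) (p g.b)

/-- free abelian group of rank two -/
abbrev A : Type := C × C
/-- free metabelian group of rank two -/
abbrev G : Type := FreeGroup (Fin 2) ⧸ derivedSeries (FreeGroup (Fin 2)) 2

/-- first generator -/
def X : G := QuotientGroup.mk (FreeGroup.of 0)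
/-- second generator -/
def Y : G := QuotientGroup.mk (FreeGroup.of 1)

theorem hext {H : Type} [Group H] {f g : G →* H} (h0 : f X = g X) (h1 : f Y = g Y) : f = g :=
  QuotientGroup.monoidHom_ext _ (FreeGroup.ext_hom _ _ fun i => by fin_cases i; exacts [h0, h1])

theorem cl : Subgroup.closure {X, Y} = ⊤ := by
  rw [eq_top_iff, ← (QuotientGroup.range_mk' (derivedSeries (FreeGroup (Fin 2)) 2)),
    MonoidHom.range_eq_map, ← FreeGroup.closure_range_of, MonoidHom.map_closure,
    Subgroup.closure_le]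
  rintro _ ⟨_, ⟨i, rfl⟩, rfl⟩
  fin_cases i
  exacts [Subgroup.subset_closure (Or.inl rfl), Subgroup.subset_closure (Or.inr rfl)]

/-- affine representation -/
noncomputable def θ : G →* Aff (o (A := A)) :=
  QuotientGroup.lift _ (FreeGroup.lift ![⟨0, (t, 1)⟩, ⟨1, (1, t)⟩]) fun x hx =>
    Subgroup.mem_bot.1 (metab.le (map_derivedSeries_le_derivedSeries _ 2 ⟨x, hx, rfl⟩))

theorem θ_X : θ X = ⟨0, (t, 1)⟩ := FreeGroup.lift_apply_of
theorem θ_Y : θ Y = ⟨1, (1, t)⟩ := FreeGroup.lift_apply_of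

/-- abelianization -/
noncomputable def α : G →* A := (β _).comp θ

theorem α_surj : Surjective α := fun a => ⟨X ^ a.1.toAdd * Y ^ a.2.toAdd, by
  rw [map_mul, map_zpow, map_zpow, show α X = (t, 1) from congrArg Aff.b θ_X,
    show α Y = (1, t) from congrArg Aff.b θ_Y]
  simp [t_pow]⟩

theorem α_ker {g : G} (h : α g = 1) : g ∈ commutator G := by
  have : ((zpowersHom _ (Abelianization.of X)).coprod
      (zpowersHom _ (Abelianization.of Y))).comp α = Abelianization.of := by
    refine hext ?_ ?_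
    · rw [MonoidHom.comp_apply, show α X = (t, 1) from congrArg Aff.b θ_X]; simp [t]
    · rw [MonoidHom.comp_apply, show α Y = (1, t) from congrArg Aff.b θ_Y]; simp [t]
  have h1 := DFunLike.congr_fun this g
  rw [MonoidHom.comp_apply, h, map_one] at h1
  exact (QuotientGroup.eq_one_iff g).1 h1.symm

theorem G_comm {a b : G} (ha : a ∈ commutator G) (hb : b ∈ commutator G) : a * b = b * a := by
  have h : ⁅a, b⁆ ∈ derivedSeries G 2 := Subgroup.commutator_mem_commutator ha hb
  rw [← map_derivedSeries_eq (QuotientGroup.mk'_surjective _)] at h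
  obtain ⟨x, hx, e⟩ := h
  exact commutatorElement_eq_one_iff_mul_comm.1 (e.symm.trans ((QuotientGroup.eq_one_iff x).2 hx))

noncomputable instance : CommGroup (commutator G) :=
  { (inferInstance : Group (commutator G)) with
    mul_comm := fun a b => Subtype.ext (G_comm a.2 b.2) }

/-- action on the derived subgroup -/
noncomputable def ρ : A →* MulAut (commutator G) :=
  α.liftOfSurjective α_surj ⟨MulAut.conjNormal, fun g hg => MulEquiv.ext fun k => Subtype.ext <| by
    rw [MulAut.conjNormal_apply, G_comm (α_ker hg) k.2, mul_inv_cancel_right]; rfl⟩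

theorem ρ_α (g : G) : ρ (α g) = MulAut.conjNormal g :=
  α.liftOfRightInverse_comp_apply _ _ _ _

/-- linear action -/
noncomputable def ρ' : A →* Module.End ℤ (Additive (commutator G)) where
  toFun a := (MonoidHom.toAdditive (ρ a).toMonoidHom).toIntLinearMap
  map_one' := by rw [map_one]; rfl
  map_mul' a b := by rw [map_mul]; rfl

theorem c_mem : ⁅X, Y⁆ ∈ commutator G :=
  Subgroup.commutator_mem_commutator (Subgroup.mem_top _) (Subgroup.mem_top _)

/-- parametrization of the derived subgroup -/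
noncomputable def μ : Multiplicative (R A) →* G := MonoidHom.mk'
  (fun r => ((MonoidAlgebra.lift ℤ _ A ρ' r.toAdd (Additive.ofMul ⟨_, c_mem⟩)).toMul : commutator G))
  fun a b => by rw [toAdd_mul, map_add]; rfl

theorem μ_conj (g : G) (r : R A) :
    μ (.ofAdd (o (α g) * r)) = g * μ (.ofAdd r) * g⁻¹ := by
  change ((MonoidAlgebra.lift ℤ _ A ρ' (o (α g) * r) _).toMul : G) = _
  rw [map_mul, MonoidAlgebra.lift_of]
  exact (congrArg (fun e : MulAut (commutator G) => (e _ : G)) (ρ_α g)).trans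
    (MulAut.conjNormal_apply g _)

theorem μ_one : μ (.ofAdd 1) = ⁅X, Y⁆ := by
  change ((MonoidAlgebra.lift ℤ _ A ρ' 1 _).toMul : G) = _
  rw [map_one]; rfl

theorem θ_c : θ ⁅X, Y⁆ = ⟨o (t, 1) - 1, 1⟩ := by
  rw [map_commutatorElement, θ_X, θ_Y, commutatorElement_def]
  ext1
  · simp only [mul_r, mul_b, inv_r, inv_b, mul_zero, neg_zero, add_zero, zero_add, mul_one,
      mul_inv_cancel_comm]
    linear_combination -χ_inv (χ := o) (((1 : C), t) : A)
  · simp

theorem θ_μ (r : R A) : θ (μ (.ofAdd r)) = ⟨r * (o (t, 1) - 1), 1⟩ := by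
  refine topOf
    { carrier := {r | θ (μ (.ofAdd r)) = ⟨r * (o (t, 1) - 1), 1⟩}
      add_mem' := fun {a b} (ha : _ = _) (hb : _ = _) => show _ = _ by
        rw [ofAdd_add, map_mul, map_mul, ha, hb]
        ext1
        · simp only [mul_r, map_one]; ring
        · simp
      zero_mem' := show _ = _ by rw [ofAdd_zero, map_one, map_one, zero_mul]; rfl
      neg_mem' := fun {a} (ha : _ = _) => show _ = _ by
        rw [ofAdd_neg, map_inv, map_inv, ha]
        ext1
        · simp only [inv_r, inv_one, map_one]; ring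
        · simp } (fun a => ?_) r
  obtain ⟨g, rfl⟩ := α_surj a
  change _ = _
  rw [← mul_one (o (α g)), μ_conj, μ_one, map_mul, map_mul, map_inv, θ_c, conj_tr, mul_one]
  rfl

theorem μ_surj {g : G} (h : g ∈ commutator G) : g ∈ μ.range := by
  have : μ.range.Normal := ⟨by
    rintro _ ⟨r, rfl⟩ g
    exact ⟨_, μ_conj g r.toAdd⟩⟩
  have hc : QuotientGroup.mk' μ.range X * QuotientGroup.mk' μ.range Y =
      QuotientGroup.mk' μ.range Y * QuotientGroup.mk' μ.range X := by
    rw [← commutatorElement_eq_one_iff_mul_comm, ← map_commutatorElement]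
    exact (QuotientGroup.eq_one_iff _).2 ⟨_, μ_one⟩
  have h1 := Subgroup.isMulCommutative_closure
    (k := QuotientGroup.mk' μ.range '' {X, Y}) (by
      rintro _ ⟨_, rfl | rfl, rfl⟩ _ ⟨_, rfl | rfl, rfl⟩
      exacts [rfl, hc, hc.symm, rfl])
  rw [← MonoidHom.map_closure, cl] at h1
  refine (Subgroup.commutator_le.2 fun a _ b _ => (QuotientGroup.eq_one_iff _).1 ?_ :
    _ ≤ μ.range) h
  change QuotientGroup.mk' _ _ = 1
  rw [map_commutatorElement, commutatorElement_eq_one_iff_mul_comm]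
  exact setLike_mul_comm (s := Subgroup.map (QuotientGroup.mk' μ.range) ⊤)
    ⟨a, trivial, rfl⟩ ⟨b, trivial, rfl⟩

theorem x_ne : o ((t, 1) : A) - 1 ≠ 0 := o_ne fun e => t_ne (congrArg Prod.fst e)

theorem θ_inj : Injective θ := (injective_iff_map_eq_one _).2 fun g hg => by
  obtain ⟨r, rfl⟩ := μ_surj (α_ker (g := g) (congrArg Aff.b hg))
  have h : r.toAdd * _ = 0 := congrArg Aff.r ((θ_μ r.toAdd).symm.trans hg)
  rw [show r = 1 from (mul_eq_zero.1 h).resolve_right x_ne, map_one]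

theorem ker_snd {r : R A} (h : md (MonoidHom.snd C C) r = 0) : ∃ s, s * (o (t, 1) - 1) = r := by
  let J := Ideal.span {o ((t, 1) : A) - 1}
  have h1 : Ideal.Quotient.mk J r =
      Ideal.Quotient.mk J (md (MonoidHom.inr C C) (md (MonoidHom.snd C C) r)) := by
    refine topOf ((Ideal.Quotient.mk J).toAddMonoidHom.eqLocus ((Ideal.Quotient.mk J).comp
      ((md (MonoidHom.inr C C)).comp (md (MonoidHom.snd C C)))).toAddMonoidHom) (fun a => ?_) r
    change Ideal.Quotient.mk J _ = Ideal.Quotient.mk J (md _ (md _ _))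
    have h2 : ((t, 1) : A) ∈ ((Ideal.Quotient.mk J).toMonoidHom.comp o).ker :=
      Ideal.Quotient.eq.2 (Ideal.mem_span_singleton_self _)
    have h3 : Ideal.Quotient.mk J (o _) = 1 := zpow_mem h2 a.1.toAdd
    rw [md_o, md_o, ← one_mul (Ideal.Quotient.mk J (o (MonoidHom.inr C C _))), ← h3, ← map_mul,
      ← map_mul]
    simp [t_pow]
  rw [h, map_zero, map_zero] at h1
  exact Ideal.mem_span_singleton'.1 (Ideal.Quotient.eq_zero_iff_mem.1 h1)

/-- the image -/
noncomputable def Gt : Subgroup (Aff (o (A := A))) :=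
  Cond o (md (MonoidHom.snd C C)) (MonoidHom.snd C C) (md_o _)

theorem θ_range : θ.range = Gt := by
  have h1 : θ.range ≤ Gt := by
    rw [MonoidHom.range_eq_map, ← cl, MonoidHom.map_closure, Subgroup.closure_le]
    rintro _ ⟨_, rfl | rfl, rfl⟩
    · rw [θ_X]; change _ = _; simp [← MonoidAlgebra.one_def]
    · rw [θ_Y]; change md _ 1 * _ = _; rw [map_one, one_mul]; rfl
  refine le_antisymm h1 fun a ha => ?_
  obtain ⟨g, hg⟩ := α_surj a.b
  rw [← Subgroup.mul_mem_cancel_left θ.range (θ.range.inv_mem ⟨g, rfl⟩)]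
  have h2 : _ = _ := mul_mem (inv_mem (h1 ⟨g, rfl⟩)) ha
  have h3 : ((θ g)⁻¹ * a).b = 1 := by rw [mul_b, inv_b, ← hg]; exact inv_mul_cancel _
  rw [h3, map_one, map_one, sub_self] at h2
  obtain ⟨s, hs⟩ := ker_snd ((mul_eq_zero.1 h2).resolve_right (o_ne t_ne))
  exact ⟨_, (θ_μ s).trans (Aff.ext hs h3.symm)⟩

/-- augmentation -/
noncomputable def ag (A : Type) [Monoid A] : R A →ₐ[ℤ] ℤ := MonoidAlgebra.lift ℤ ℤ A 1

theorem three_ne {A : Type} [Monoid A] (w : R A) : 1 + 3 * w ≠ 0 := fun e => by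
  have := congrArg (ag A) e
  rw [map_add, map_mul, map_one, map_ofNat, map_zero] at this
  omega

theorem unit_three {w : R A} (h : IsUnit (1 + 3 * w)) : w = 0 := by
  classical
  obtain ⟨v, hv⟩ := h.exists_right_inv
  have hc : ∀ a, (1 + 3 * w).coeff a = (if 1 = a then 1 else 0) + 3 * w.coeff a := fun a => by
    rw [show (3 : R A) * w = w + w + w by ring]
    simp only [MonoidAlgebra.coeff_add, Finsupp.add_apply, MonoidAlgebra.one_def,
      MonoidAlgebra.coeff_single, Finsupp.single_apply]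
    ring
  have h1 : (1 : A) ∈ (1 + 3 * w).coeff.support := by
    rw [Finsupp.mem_support_iff, hc, if_pos rfl]; omega
  have key : ∀ p ∈ (1 + 3 * w).coeff.support ×ˢ v.coeff.support,
      UniqueMul (1 + 3 * w).coeff.support v.coeff.support p.1 p.2 →
      p.1 * p.2 = 1 ∧ (1 + 3 * w).coeff p.1 * v.coeff p.2 = 1 := fun p hp e => by
    have h2 := MonoidAlgebra.coeff_mul_mul_of_uniqueMul e
    rw [hv, MonoidAlgebra.one_def, MonoidAlgebra.coeff_single, Finsupp.single_apply] at h2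
    rw [Finset.mem_product, Finsupp.mem_support_iff, Finsupp.mem_support_iff] at hp
    split_ifs at h2 with h3
    · exact ⟨h3.symm, h2.symm⟩
    · exact (mul_ne_zero hp.1 hp.2 h2.symm).elim
  have hv0 : v.coeff.support.Nonempty := by
    rw [Finsupp.support_nonempty_iff, Ne, MonoidAlgebra.coeff_eq_zero]
    rintro rfl
    simp at hv
  have h4 : ∀ a ∈ (1 + 3 * w).coeff.support, a = 1 := fun a ha => by
    by_contra e
    obtain ⟨p, hp, q, hq, hne, e1, e2⟩ := TwoUniqueProds.uniqueMul_of_one_lt_card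
      (A := (1 + 3 * w).coeff.support) (B := v.coeff.support)
      (lt_of_lt_of_le (Finset.one_lt_card.2 ⟨a, ha, 1, h1, e⟩)
        (Nat.le_mul_of_pos_right _ hv0.card_pos))
    have := e1 (Finset.mem_product.1 hq).1 (Finset.mem_product.1 hq).2
      ((key q hq e2).1.trans (key p hp e1).1.symm)
    exact hne (Prod.ext this.1.symm this.2.symm)
  obtain ⟨a, ha, b, hb, e⟩ := UniqueProds.uniqueMul_of_nonempty ⟨1, h1⟩ hv0
  have h5 : (1 + 3 * w).coeff a * v.coeff b = 1 := (key (a, b) (Finset.mem_product.2 ⟨ha, hb⟩) e).2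
  rw [h4 a ha, hc, if_pos rfl] at h5
  ext1
  ext1 a
  by_cases e : 1 = a
  · rcases Int.eq_one_or_neg_one_of_mul_eq_one h5 with h | h
    · rw [← e]; change _ = (0 : ℤ); omega
    · omega
  · have := mt (h4 a) (Ne.symm e)
    rw [Finsupp.notMem_support_iff, hc, if_neg e] at this
    change _ = (0 : ℤ); omega

theorem no_div (a s : ℕ → R A) (h : ∀ k, a k = s k * a (k + 1)) (h0 : a 0 ≠ 0) :
    ∃ k, IsUnit (s k) := by
  have : IsNoetherianRing (R A) := Algebra.FiniteType.isNoetherianRing ℤ _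
  have h1 : ∀ k, a k ≠ 0 := fun k => by
    induction k with
    | zero => exact h0
    | succ k ih => exact fun e => ih (by rw [h, e, mul_zero])
  by_contra! h2
  obtain ⟨_, ⟨k, rfl⟩, hk⟩ := (wellFounded_dvdNotUnit (α := R A)).has_min (Set.range a) ⟨_, 0, rfl⟩
  exact hk _ ⟨k + 1, rfl⟩ ⟨h1 _, s k, h2 k, (h k).trans (mul_comm _ _)⟩

/-- free abelian group of rank three -/
abbrev B : Type := A × C
/-- index set -/
abbrev I : Type := Bool × ℕ

/-- weights -/
def w (p : I) : ℤ := 2 * p.2 + p.1.toNat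

theorem w_inj : Injective w := by
  rintro ⟨a, n⟩ ⟨b, m⟩ h
  cases a <;> cases b <;> simp [w] at h ⊢ <;> omega

/-- specializations -/
def ψ (p : I) : B →* A := (MonoidHom.id A).coprod (zpowersHom A (t ^ w p, 1))

theorem ψ_apply (p : I) (b : B) : ψ p b = (b.1.1 * t ^ (w p * b.2.toAdd), b.1.2) := by
  simp [ψ, zpow_mul, Prod.ext_iff]

theorem ψ_sub {b : B} (hb : b ≠ 1) : {p | ψ p b = 1}.Subsingleton := fun p hp q hq => by
  rw [Set.mem_ofPred_eq, ψ_apply, Prod.ext_iff] at hp hq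
  have h1 := congrArg Multiplicative.toAdd hp.1
  have h2 := congrArg Multiplicative.toAdd hq.1
  simp [t] at h1 h2
  by_cases e : b.2.toAdd = 0
  · refine (hb (Prod.ext (Prod.ext ?_ hp.2) e)).elim
    rw [e] at h1
    simpa using h1
  · exact w_inj (mul_right_cancel₀ e (by linarith))

theorem sepR {r : R B} (S : Set I) (hS : S.Infinite) (h : ∀ p ∈ S, md (ψ p) r = 0) : r = 0 := by
  have hf : (⋃ a ∈ r.coeff.support, ⋃ b ∈ r.coeff.support,
      {p | a ≠ b ∧ ψ p (a * b⁻¹) = 1}).Finite :=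
    r.coeff.support.finite_toSet.biUnion fun a _ => r.coeff.support.finite_toSet.biUnion
      fun b _ => Set.Subsingleton.finite fun p hp q hq =>
        ψ_sub (mt mul_inv_eq_one.1 hp.1) hp.2 hq.2
  obtain ⟨p, hp, hp'⟩ := hS.exists_notMem_finite hf
  have h1 : Set.InjOn (ψ p) r.coeff.support := fun a ha b hb e => by_contra fun e' =>
    hp' (Set.mem_biUnion ha (Set.mem_biUnion hb ⟨e', by rw [map_mul, map_inv, e, mul_inv_cancel]⟩))
  ext1
  exact Finsupp.mapDomain_injOn _ h1 (Set.Subset.refl _) (by simp)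
    ((congrArg MonoidAlgebra.coeff (h p hp)).trans Finsupp.mapDomain_zero.symm)

/-- the polynomials -/
noncomputable def P (ε : Bool) (k : ℕ) : R B :=
  ∏ i ∈ Finset.range k, (o (1, t) - o ((t, 1), 1) ^ (w (ε, i)).toNat)

theorem ψ_P (ε : Bool) {k n : ℕ} (h : n < k) : md (ψ (ε, n)) (P ε k) = 0 := by
  rw [P, map_prod]
  refine Finset.prod_eq_zero (Finset.mem_range.2 h) ?_
  rw [map_sub, ← map_pow, md_o, md_o, sub_eq_zero, ψ_apply, ψ_apply, ← zpow_natCast,
    Int.toNat_of_nonneg (by rw [w]; positivity)]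
  simp [t]

/-- the denominators -/
noncomputable def s (ε : Bool) (k : ℕ) : R B := 1 + 3 * P ε k

theorem map_s {Q : Type} [Ring Q] (f : R B →+* Q) (ε : Bool) (k : ℕ) :
    f (s ε k) = 1 + 3 * f (P ε k) := by rw [s, map_add, map_mul, map_one, map_ofNat]

/-- the divisible elements -/
noncomputable def e (ε : Bool) (k : ℕ) (p : I) : R A :=
  if p.1 = ε then ∏ j ∈ Finset.Ico k (p.2 + 1), md (ψ p) (s ε j) else 0

theorem e_rec (ε : Bool) (k : ℕ) (p : I) : e ε k p = md (ψ p) (s ε k) * e ε (k + 1) p := by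
  obtain ⟨_, n⟩ := p
  simp only [e]
  split_ifs with h
  · subst h
    rcases Nat.lt_or_ge n k with h | h
    · rw [map_s, ψ_P _ h, Finset.Ico_eq_empty (by omega), Finset.Ico_eq_empty (by omega)]
      simp
    · exact Finset.prod_eq_prod_Ico_succ_bot (by omega) _
  · rw [mul_zero]

theorem s_ne (ε : Bool) (k : ℕ) (p : I) : md (ψ p) (s ε k) ≠ 0 := by
  rw [map_s]; exact three_ne _

theorem e_ne (p : I) : e p.1 0 p ≠ 0 := by
  rw [e, if_pos rfl]
  exact Finset.prod_ne_zero_iff.2 fun j _ => s_ne _ _ _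

/-- the module -/
def N : AddSubgroup (I → R A) where
  carrier := {c | ∀ ε, ∃ u r : R B, ∀ n, md (ψ (ε, n)) u ≠ 0 ∧
    md (ψ (ε, n)) u * c (ε, n) = md (ψ (ε, n)) r * e ε 0 (ε, n)}
  add_mem' := fun ha hb ε => by
    obtain ⟨u, r, h⟩ := ha ε
    obtain ⟨u', r', h'⟩ := hb ε
    refine ⟨u * u', u' * r + u * r', fun n => ?_⟩
    simp only [map_mul, map_add, Pi.add_apply]
    exact ⟨mul_ne_zero (h n).1 (h' n).1, by
      linear_combination md (ψ (ε, n)) u' * (h n).2 + md (ψ (ε, n)) u * (h' n).2⟩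
  zero_mem' := fun _ => ⟨1, 0, fun n => by simp⟩
  neg_mem' := fun ha ε => by
    obtain ⟨u, r, h⟩ := ha ε
    exact ⟨u, -r, fun n => ⟨(h n).1, by rw [map_neg, Pi.neg_apply]; linear_combination -(h n).2⟩⟩

/-- all specializations -/
noncomputable def Ψ : R B →+* (I → R A) := RingHom.pi fun p => md (ψ p)

theorem N_mul (v : R B) {c : I → R A} (h : c ∈ N) : Ψ v * c ∈ N := fun ε => by
  obtain ⟨u, r, h⟩ := h ε
  refine ⟨u, v * r, fun n => ⟨(h n).1, ?_⟩⟩
  change _ * (md (ψ (ε, n)) v * _) = _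
  rw [map_mul]
  linear_combination md (ψ (ε, n)) v * (h n).2

theorem e_mem (ε : Bool) (k : ℕ) : e ε k ∈ N := fun δ => by
  by_cases h : δ = ε
  swap
  · exact ⟨1, 0, fun n => by simp [e, h]⟩
  subst h
  induction k with
  | zero => exact ⟨1, 1, fun n => by simp⟩
  | succ k ih =>
    obtain ⟨u, r, h⟩ := ih
    refine ⟨u * s δ k, r, fun n => ?_⟩
    rw [map_mul, mul_assoc, ← e_rec]
    exact ⟨mul_ne_zero (h n).1 (s_ne _ _ _), (h n).2⟩

theorem N_tf {b : B} (hb : b ≠ 1) {c : I → R A} (hc : c ∈ N) (h : (Ψ (o b) - 1) * c = 0) :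
    c = 0 := funext fun ⟨ε, m⟩ => by
  obtain ⟨u, r, h1⟩ := hc ε
  have : r = 0 := by
    refine sepR _ ((Set.infinite_range_of_injective (Prod.mk_right_injective ε)).sdiff
      (ψ_sub hb).finite) ?_
    rintro _ ⟨⟨n, rfl⟩, hn⟩
    have h2 : (md (ψ (ε, n)) (o b) - 1) * c (ε, n) = 0 := congrFun h (ε, n)
    rw [md_o] at h2
    have h3 := (h1 n).2
    rw [(mul_eq_zero.1 h2).resolve_left (o_ne hn), mul_zero] at h3
    exact (mul_eq_zero.1 h3.symm).resolve_right (e_ne (ε, n))
  have h3 := (h1 m).2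
  rw [this, map_zero, zero_mul] at h3
  exact (mul_eq_zero.1 h3).resolve_left (h1 m).1

/-- the character -/
noncomputable def χ : B →* R B × (I → R A) := ((RingHom.id _).prod Ψ).toMonoidHom.comp o

/-- projection -/
def π : B →* C := (MonoidHom.snd C C).comp (MonoidHom.fst A C)

/-- the group -/
noncomputable def T : Subgroup (Aff χ) :=
  Cond χ ((md π).comp (RingHom.fst _ _)) π (md_o _) ⊓
  { carrier := {g | g.r.2 ∈ N}
    mul_mem' := fun a b => add_mem a (N_mul _ b)
    one_mem' := zero_mem N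
    inv_mem' := fun a => neg_mem (N_mul _ a) }

theorem tf {b : B} (hb : b ≠ 1) {v : R B × (I → R A)} (hv : v.2 ∈ N) (h : (χ b - 1) * v = 0) :
    v = 0 :=
  Prod.ext ((mul_eq_zero.1 (congrArg Prod.fst h)).resolve_left (o_ne hb))
    (N_tf hb hv (congrArg Prod.snd h))

theorem ct (g : T) (hg : g ≠ 1) (a b : T) (ha : a * g = g * a) (hb : b * g = g * b) :
    a * b = b * a := by
  have h1 := comm_iff.1 (congrArg Subtype.val ha)
  have h2 := comm_iff.1 (congrArg Subtype.val hb)
  refine Subtype.ext (comm_iff.2 ?_)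
  by_cases e : g.1.b = 1
  · have key : ∀ a : T, (χ a.1.b - 1) * g.1.r = (χ g.1.b - 1) * a.1.r → a.1.b = 1 := fun a h => by
      rw [e, map_one, sub_self, zero_mul] at h
      exact by_contra fun e' => hg (Subtype.ext (Aff.ext (tf e' g.2.2 h) e))
    rw [key a h1, key b h2]
    simp
  · refine sub_eq_zero.1 (tf e ?_ ?_)
    · have : ∀ a b : T, ((χ a.1.b - 1) * b.1.r).2 ∈ N := fun a b => by
        rw [sub_mul, one_mul]
        exact sub_mem (N_mul _ b.2.2) b.2.2
      exact sub_mem (this a b) (this b a)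
    · linear_combination (χ b.1.b - 1) * h1 - (χ a.1.b - 1) * h2

theorem snd_ψ (p : I) (r : R B) : md (MonoidHom.snd C C) (md (ψ p) r) = md π r := by
  refine topOf (((md (MonoidHom.snd C C)).comp (md (ψ p))).toAddMonoidHom.eqLocus
    (md π).toAddMonoidHom) (fun b => ?_) r
  change md _ (md _ _) = md _ _
  rw [md_o, md_o, md_o, ψ_apply]
  rfl

/-- the separating maps -/
noncomputable def φ (p : I) (l : R A) : T →* Gt := MonoidHom.codRestrict (MonoidHom.mk'
  (fun g => ⟨md (ψ p) g.1.r.1 + l * (o (t, 1) - 1) * g.1.r.2 p, ψ p g.1.b⟩) fun g h => by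
    refine Aff.ext ?_ (map_mul _ _ _)
    change md (ψ p) (g.1.r.1 + o g.1.b * h.1.r.1) +
      _ * (g.1.r.2 p + md (ψ p) (o g.1.b) * h.1.r.2 p) = _ + o (ψ p g.1.b) * _
    simp only [map_add, map_mul, md_o]
    ring) _ fun g => by
  change md _ (_ + _) * _ = o (ψ p g.1.b).2 - 1
  rw [map_add, map_mul, map_mul, map_sub, md_o, snd_ψ, ψ_apply, map_one]
  have : md π g.1.r.1 * _ = _ := g.2.1
  rw [show MonoidHom.snd C C (t, 1) = 1 from rfl, map_one, sub_self, mul_zero, zero_mul, add_zero,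
    this]
  rfl

theorem φ_surj (p : I) (l : R A) : Surjective (φ p l) := fun g => by
  have h : ∀ r, md (ψ p) (md (MonoidHom.inl A C) r) = r := fun r => by
    refine topOf (((md (ψ p)).comp (md (MonoidHom.inl A C))).toAddMonoidHom.eqLocus
      (AddMonoidHom.id _)) (fun b => ?_) r
    change md _ (md _ _) = o _
    rw [md_o, md_o, ψ_apply]
    simp
  refine ⟨⟨⟨(md (MonoidHom.inl A C) g.1.r, 0), (g.1.b, 1)⟩, ?_, zero_mem N⟩,
    Subtype.ext (Aff.ext ?_ ?_)⟩
  · change md π (md _ _) * _ = _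
    rw [← snd_ψ p, h]
    exact g.2
  · change md (ψ p) (md _ _) + _ * 0 = _
    rw [h, mul_zero, add_zero]
  · change ψ p _ = _
    simp [ψ_apply]

theorem φ_sep (g : T) (h : ∀ p l, φ p l g = 1) : g = 1 := by
  have h1 : ∀ p l, md (ψ p) g.1.r.1 + l * (o (t, 1) - 1) * g.1.r.2 p = 0 := fun p l =>
    congrArg (fun a : Gt => a.1.r) (h p l)
  have h2 : ∀ p, md (ψ p) g.1.r.1 = 0 := fun p => by simpa using h1 p 0
  refine Subtype.ext (Aff.ext (Prod.ext (sepR _ Set.infinite_univ fun p _ => h2 p)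
    (funext fun p => ?_)) (by_contra fun e => ?_))
  · have := h1 p 1
    rw [h2, zero_add, one_mul] at this
    exact (mul_eq_zero.1 this).resolve_left x_ne
  · have : ((true, 0) : I) = (false, 0) := ψ_sub e
      (congrArg (fun a : Gt => a.1.b) (h _ 0)) (congrArg (fun a : Gt => a.1.b) (h _ 0))
    simp at this

/-- translations -/
noncomputable def ι (c : N) : T := ⟨⟨(0, c), 1⟩, show md π 0 * _ = o (π 1) - 1 by simp
  [← MonoidAlgebra.one_def], c.2⟩

theorem nd (f : T →* G) (hf : Surjective f) (h : ∀ ε, f (ι ⟨_, e_mem ε 0⟩) ≠ 1) : False := by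
  have h1 : ∀ m : T, m.1.b = 1 → α (f m) = 1 := fun m hm => by
    obtain ⟨g, hg⟩ := hf ⁅X, Y⁆
    have h2 : ⁅g, m⁆ * m = m * ⁅g, m⁆ := Subtype.ext (comm_iff.2 (by
      have : (⁅g, m⁆ : T).1.b = 1 := (map_commutatorElement ((β χ).comp T.subtype) g m).trans
        (commutatorElement_eq_one_iff_mul_comm.2 (mul_comm _ _))
      rw [this, hm]; simp))
    have h3 := congrArg (θ.comp f) h2
    rw [map_mul, map_mul, map_commutatorElement, comm_iff, MonoidHom.comp_apply, hg, θ_c,
      ← commutatorElement_inv, commutatorElement_def, conj_tr] at h3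
    simp only [inv_b, mul_b, inv_one, mul_one, map_one, sub_self, zero_mul, inv_r, mul_r,
      one_mul] at h3
    by_contra e
    have h4 := o_ne e
    refine mul_ne_zero h4 (mul_ne_zero h4 x_ne) ?_
    change (o ((θ.comp f) m).b - 1) * ((o ((θ.comp f) m).b - 1) * _) = 0
    linear_combination h3
  have hβ : Surjective ((β χ).comp T.subtype) := fun b => by
    obtain ⟨g, hg⟩ := α_surj b.1
    obtain ⟨k, hk⟩ := φ_surj (true, 0) 0 ⟨θ g, θ_range.le ⟨g, rfl⟩⟩
    refine ⟨⟨⟨k.1.r, b⟩, ?_, k.2.2⟩, rfl⟩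
    have h2 : ψ (true, 0) k.1.b = b.1 := (congrArg (fun a : Gt => a.1.b) hk).trans hg
    rw [ψ_apply] at h2
    have h3 : k.1.b.1.2 = b.1.2 := (Prod.ext_iff.1 h2).2
    exact Eq.trans k.2.1 (congrArg (fun c => o c - 1) h3)
  let γ : B →* A := MonoidHom.liftOfSurjective _ hβ ⟨α.comp f, h1⟩
  have hγ : ∀ g : T, γ g.1.b = α (f g) := fun g =>
    MonoidHom.liftOfRightInverse_comp_apply ((β χ).comp T.subtype) _ _ ⟨α.comp f, h1⟩ g
  let η : N →+ R A := AddMonoidHom.mk' (fun c => (θ (f (ι c))).r) fun c d => by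
    have : ι (c + d) = ι c * ι d := Subtype.ext (Aff.ext (by simp [ι]) (by simp [ι]))
    rw [this, map_mul, map_mul, mul_r, show (θ (f (ι c))).b = 1 from h1 _ rfl, map_one, one_mul]
  have hη : ∀ c, θ (f (ι c)) = ⟨η c, 1⟩ := fun c => Aff.ext rfl (h1 _ rfl)
  have h3 : ∀ (c : N) (r : R B), η ⟨_, N_mul r c.2⟩ = md γ r * η c := fun c r => by
    refine topOf ((η.comp (AddMonoidHom.codRestrict ((AddMonoidHom.mulRight c.1).comp
      Ψ.toAddMonoidHom) N fun r => N_mul r c.2)).eqLocus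
      ((AddMonoidHom.mulRight (η c)).comp (md γ).toAddMonoidHom)) (fun b => ?_) r
    obtain ⟨g, rfl⟩ := hβ b
    change η ⟨_, N_mul (o g.1.b) c.2⟩ = md γ (o g.1.b) * η c
    have : ι ⟨_, N_mul (o g.1.b) c.2⟩ = g * ι c * g⁻¹ := by
      refine Subtype.ext (Eq.trans ?_ (conj_tr g.1 (0, c.1)).symm)
      exact Aff.ext (Prod.ext (mul_zero _).symm rfl) rfl
    have h4 := hη ⟨_, N_mul (o g.1.b) c.2⟩
    rw [this, map_mul, map_mul, map_mul, map_mul, map_inv, map_inv, hη, conj_tr] at h4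
    rw [md_o, hγ]
    exact (congrArg Aff.r h4).symm
  have h5 : ∀ ε, ∃ i, γ (1, t) = γ ((t, 1), 1) ^ (w (ε, i)).toNat := fun ε => by
    obtain ⟨k, hk⟩ := no_div (fun k => η ⟨_, e_mem ε k⟩) (fun k => md γ (s ε k))
      (fun k => Eq.trans (congrArg η (Subtype.ext (funext (e_rec ε k)))) (h3 ⟨_, e_mem ε _⟩ _))
      fun e => h ε (θ_inj (by rw [hη, e, map_one]; rfl))
    rw [map_s] at hk
    have h6 := unit_three hk
    rw [P, map_prod, Finset.prod_eq_zero_iff] at h6
    obtain ⟨i, -, hi⟩ := h6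
    rw [map_sub, ← map_pow, md_o, md_o, sub_eq_zero, map_pow γ] at hi
    exact ⟨i, MonoidAlgebra.of_injective hi⟩
  obtain ⟨i, hi⟩ := h5 true
  obtain ⟨j, hj⟩ := h5 false
  have h6 : γ ((t, 1), 1) = 1 := by
    by_contra e
    have := (injective_pow_iff_not_isOfFinOrder.2 (mt (isOfFinOrder_iff_eq_one _).1 e))
      (hi.symm.trans hj)
    simp [w] at this
    omega
  rw [h6, one_pow] at hi
  have h7 : ∀ a : A, ∃ n : ℤ, γ ((1, t), 1) ^ n = a := fun a => by
    obtain ⟨g, rfl⟩ := (α_surj.comp hf) a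
    refine ⟨g.1.b.1.2.toAdd, ?_⟩
    have : g.1.b = ((t, 1), 1) ^ g.1.b.1.1.toAdd * ((1, t), 1) ^ g.1.b.1.2.toAdd *
        (1, t) ^ g.1.b.2.toAdd := by simp [t_pow]
    rw [comp_apply, ← hγ]
    conv_rhs => rw [this]
    rw [map_mul, map_mul, map_zpow, map_zpow, map_zpow, h6, hi, one_zpow, one_zpow, one_mul, mul_one]
  obtain ⟨n, hn⟩ := h7 (t, 1)
  obtain ⟨m, hm⟩ := h7 (1, t)
  have a1 := congrArg (fun a : A => a.1.toAdd) hn
  have a2 := congrArg (fun a : A => a.2.toAdd) hn
  have a3 := congrArg (fun a : A => a.2.toAdd) hm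
  simp [t] at a1 a2 a3
  rcases a2 with a2 | a2
  · simp [a2] at a1
  · simp [a2] at a3

end Pool.Agent.H71.Met
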