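import Mathlib

/-! A Nakano type group: complete, locally minimal, all non-trivial closed subgroups have positive
dimension. -/

namespace Pool.Agent.H71.Nak

open Filter Topology Nat

abbrev T := UnitAddCircle

lemma nssT {t : T} (h : t ≠ 0) : ∃ k : ℕ, 1 / 4 ≤ ‖k • t‖ := by
  obtain ⟨s, rfl⟩ := QuotientAddGroup.mk_surjective t
  have e : ((s - round s : ℝ) : T) = s := by simp
  have h1 := abs_sub_round s
  rw [← e] at h ⊢
  generalize s - round s = r at *
  have h0 : 0 < |r| := abs_pos.2 fun e => h (by simp [e])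
  by_cases h2 : 1 / 4 ≤ |r|
  · exact ⟨1, by rwa [one_smul, (AddCircle.norm_coe_eq_abs_iff 1 one_ne_zero).2 (by simpa using h1)]⟩
  have a1 := Nat.le_ceil (1 / 4 / |r|)
  have a2 := Nat.ceil_lt_add_one (show 0 ≤ 1 / 4 / |r| by positivity)
  rw [div_le_iff₀ h0] at a1
  rw [← sub_lt_iff_lt_add, lt_div_iff₀ h0] at a2
  refine ⟨⌈1 / 4 / |r|⌉₊, ?_⟩
  rw [← AddCircle.coe_nsmul, (AddCircle.norm_coe_eq_abs_iff 1 one_ne_zero).2] <;>
    simp only [nsmul_eq_mul, abs_mul, Nat.abs_cast, abs_one] <;> linarith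

lemma small {t : T} {b : ℕ} (hb : 0 < b) (h : b • t = 0) (h' : ‖t‖ < 1 / b) : t = 0 := by
  by_contra h0
  have := AddCircle.le_add_order_smul_norm_of_isOfFinAddOrder
    (isOfFinAddOrder_iff_nsmul_eq_zero.2 ⟨b, hb, h⟩) h0
  have h2 : (addOrderOf t : ℝ) ≤ b := by exact_mod_cast addOrderOf_le_of_nsmul_eq_zero hb h
  rw [lt_div_iff₀ (by exact_mod_cast hb)] at h'
  rw [nsmul_eq_mul] at this
  nlinarith [norm_nonneg t]

/-- the coordinate norms -/
noncomputable def ph (n : ℕ) (t : T) : ℝ := ‖t‖ ^ ((n ! : ℝ)⁻¹)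

lemma al (n : ℕ) : 0 < (n ! : ℝ)⁻¹ ∧ (n ! : ℝ)⁻¹ ≤ 1 :=
  ⟨by positivity, inv_le_one_of_one_le₀ (by exact_mod_cast n.factorial_pos)⟩

lemma ph_nonneg (n : ℕ) (t : T) : 0 ≤ ph n t := by unfold ph; positivity
@[simp] lemma ph_zero (n : ℕ) : ph n 0 = 0 := by simp [ph, (al n).1.ne', n.factorial_ne_zero]
@[simp] lemma ph_neg (n : ℕ) (t : T) : ph n (-t) = ph n t := by simp [ph]
lemma ph_add (n : ℕ) (s t : T) : ph n (s + t) ≤ ph n s + ph n t :=
  (Real.rpow_le_rpow (norm_nonneg _) (norm_add_le _ _) (al n).1.le).trans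
    (Real.rpow_add_le_add_rpow (norm_nonneg _) (norm_nonneg _) (al n).1.le (al n).2)
lemma le_ph (n : ℕ) (t : T) : ‖t‖ ≤ ph n t :=
  Real.self_le_rpow_of_le_one (norm_nonneg _)
    ((AddCircle.norm_le_half_period 1 one_ne_zero).trans (by norm_num)) (al n).2

lemma ph_smul {m n : ℕ} (h : m ≤ n) (t : T) : ph n (2 ^ m ! • t) ≤ 2 * ph n t := by
  refine (Real.rpow_le_rpow (norm_nonneg _) norm_nsmul_le (al n).1.le).trans ?_
  rw [Real.mul_rpow (by positivity) (norm_nonneg _)]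
  refine mul_le_mul_of_nonneg_right ?_ (ph_nonneg n t)
  rw [Nat.cast_pow, ← Real.rpow_natCast_mul (by positivity), Nat.cast_ofNat]
  refine (Real.rpow_le_rpow_of_exponent_le one_le_two ?_).trans (Real.rpow_one 2).le
  rw [mul_inv_le_iff₀ (by positivity), one_mul]
  exact_mod_cast Nat.factorial_le h

/-- the group -/
def GG : AddSubgroup (ℕ → T) where
  carrier := {x | (∀ n, 2 ^ (n + 1)! • x n = 0 ∧ x n = 2 ^ ((n + 1) * (n + 1)!) • x (n + 1)) ∧
    Summable fun n => ph n (x n)}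
  zero_mem' := ⟨by simp, by simpa using summable_zero⟩
  add_mem' := fun {x y} hx hy => ⟨fun n => ⟨by simp [(hx.1 n).1, (hy.1 n).1], by
    simp only [Pi.add_apply, smul_add, ← (hx.1 n).2, ← (hy.1 n).2]⟩,
    .of_nonneg_of_le (fun _ => ph_nonneg _ _) (fun _ => ph_add _ _ _) (hx.2.add hy.2)⟩
  neg_mem' := fun {x} hx => ⟨fun n => ⟨by simp [(hx.1 n).1], by
    simp only [Pi.neg_apply, smul_neg, ← (hx.1 n).2]⟩, by simpa using hx.2⟩

/-- the group as a type -/
def G : Type := GG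

noncomputable instance : AddCommGroup G := inferInstanceAs (AddCommGroup GG)

/-- coordinates -/
noncomputable def co (n : ℕ) : G →+ T := (Pi.evalAddMonoidHom (fun _ => T) n).comp GG.subtype

lemma sm (x : G) : Summable fun n => ph n (co n x) := x.2.2
lemma ext {x : G} (h : ∀ n, co n x = 0) : x = 0 := Subtype.ext (funext h)

lemma le_ts (x : G) (n : ℕ) : ‖co n x‖ ≤ ∑' n, ph n (co n x) :=
  (le_ph n _).trans ((sm x).le_tsum n fun _ _ => ph_nonneg _ _)

noncomputable instance : NormedAddCommGroup G := AddGroupNorm.toNormedAddCommGroup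
  { toFun := fun x => ∑' n, ph n (co n x)
    map_zero' := by simp
    add_le' := fun x y => by
      rw [← (sm x).tsum_add (sm y)]
      exact (sm _).tsum_le_tsum (fun n => by rw [map_add]; exact ph_add _ _ _) ((sm x).add (sm y))
    neg' := by simp
    eq_zero_of_map_eq_zero' := fun x h => ext fun n => norm_le_zero_iff.1 ((le_ts x n).trans h.le) }

lemma norm_eq (x : G) : ‖x‖ = ∑' n, ph n (co n x) := rfl

lemma nss {x : G} (h : x ≠ 0) : ∃ k : ℕ, 1 / 4 ≤ ‖k • x‖ := by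
  obtain ⟨n, hn⟩ := not_forall.1 fun h' => h (ext h')
  obtain ⟨k, hk⟩ := nssT hn
  exact ⟨k, (map_nsmul (co n) k x ▸ hk).trans (le_ts _ n)⟩

lemma co_zero {x : G} {n : ℕ} (h : ‖x‖ < 1 / (2 ^ (n + 1)! : ℕ)) : co n x = 0 :=
  small (by positivity) (x.2.1 n).1 ((le_ts x n).trans_lt h)

/-- tails -/
noncomputable def tl (x : G) (N : ℕ) : ℝ := ∑' n, ph (n + N) (co (n + N) x)

lemma tl_lim (x : G) {ε : ℝ} (h : 0 < ε) : ∀ᶠ N in atTop, tl x N < ε :=
  (tendsto_sum_nat_add fun n => ph n (co n x)).eventually (gt_mem_nhds h)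

lemma split (x : G) (N : ℕ) : ‖x‖ = ∑ n ∈ Finset.range N, ph n (co n x) + tl x N :=
  ((sm x).sum_add_tsum_nat_add N).symm

lemma sm' (x : G) (N : ℕ) : Summable fun n => ph (n + N) (co (n + N) x) :=
  (summable_nat_add_iff N).2 (sm x)

lemma norm_tl {z : G} {N : ℕ} (h : ∀ n < N, co n z = 0) : ‖z‖ = tl z N := by
  rw [split z N, Finset.sum_eq_zero fun n hn => by simp [h n (Finset.mem_range.1 hn)], zero_add]

lemma hump (x : G) {z : G} {N : ℕ} (h : ∀ n < N, co n z = 0) :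
    ‖x‖ + ‖z‖ ≤ ‖x + z‖ + 2 * tl x N := by
  have : tl z N ≤ tl (x + z) N + tl x N := by
    rw [tl, tl, tl, ← (sm' _ N).tsum_add (sm' _ N)]
    refine (sm' _ N).tsum_le_tsum (fun n => ?_) ((sm' _ N).add (sm' _ N))
    simpa using ph_add (n + N) (co (n + N) (x + z)) (-co (n + N) x)
  rw [split x N, split (x + z) N, norm_tl h, Finset.sum_congr rfl (g := fun n => ph n (co n x))
    (f := fun n => ph n (co n (x + z))) fun n hn => by simp [h n (Finset.mem_range.1 hn)]]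
  linarith

lemma fatou {ι : Type} {l : Filter ι} [l.NeBot] {u : ι → G} {y : ℕ → T} {c : ℝ}
    (h : ∀ n, ∀ᶠ i in l, co n (u i) = y n) (hc : ∀ᶠ i in l, ‖u i‖ ≤ c) :
    ∃ g : G, (∀ n, co n g = y n) ∧ ‖g‖ ≤ c := by
  have : ∀ N, ∑ n ∈ Finset.range N, ph n (y n) ≤ c := fun N => by
    obtain ⟨i, h1, h2⟩ := (hc.and ((eventually_all_finset (Finset.range N)).2 fun n _ => h n)).exists
    rw [← Finset.sum_congr rfl fun n hn => congrArg (ph n) (h2 n hn)]
    exact ((sm _).sum_le_tsum _ fun _ _ => ph_nonneg _ _).trans h1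
  refine ⟨⟨y, fun n => ?_, summable_of_sum_range_le (fun _ => ph_nonneg _ _) this⟩, fun _ => rfl,
    Real.tsum_le_of_sum_range_le (fun _ => ph_nonneg _ _) this⟩
  obtain ⟨i, h1, h2⟩ := ((h n).and (h (n + 1))).exists
  rw [← h1, ← h2]
  exact (u i).2.1 n

instance : CompleteSpace G := Metric.complete_of_cauchySeq_tendsto fun u hu => by
  rw [Metric.cauchySeq_iff'] at hu
  have : ∀ n, ∃ y, ∀ᶠ i in atTop, co n (u i) = y := fun n => by
    obtain ⟨N, hN⟩ := hu (1 / (2 ^ (n + 1)! : ℕ)) (by positivity)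
    exact ⟨_, eventually_atTop.2 ⟨N, fun i hi => sub_eq_zero.1 (by
      rw [← map_sub]; exact co_zero (dist_eq_norm (u i) _ ▸ hN i hi))⟩⟩
  choose y hy using this
  have key : ∀ ε > 0, ∃ N, ∃ g : G, (∀ n, co n g = y n - co n (u N)) ∧ ‖g‖ ≤ ε ∧
      ∀ i ≥ N, dist (u i) (u N) < ε := fun ε hε => by
    obtain ⟨N, hN⟩ := hu ε hε
    obtain ⟨g, h1, h2⟩ := fatou (l := atTop) (u := fun i => u i - u N)
      (y := fun n => y n - co n (u N)) (c := ε) (fun n => (hy n).mono fun i hi => by simp [hi])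
      (eventually_atTop.2 ⟨N, fun i hi => dist_eq_norm (u i) _ ▸ (hN i hi).le⟩)
    exact ⟨N, g, h1, h2, hN⟩
  obtain ⟨M, g, h1, -⟩ := key 1 one_pos
  refine ⟨g + u M, Metric.tendsto_atTop.2 fun ε hε => ?_⟩
  obtain ⟨N, g', h2, h3, h4⟩ := key (ε / 2) (by positivity)
  have : g + u M - u N = g' := sub_eq_zero.1 (ext fun n => by simp [h1, h2])
  refine ⟨N, fun i hi => (dist_triangle_right _ _ (u N)).trans_lt ?_⟩
  rw [dist_eq_norm (g + u M), this]
  linarith [h4 i hi]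

lemma tf {x : G} (h : x ≠ 0) (j : ℕ) : 2 ^ j • x ≠ 0 := by
  induction j with
  | zero => simpa
  | succ j ih =>
    refine fun e => ih (ext fun n => ?_)
    obtain ⟨c, hc⟩ : 2 ∣ 2 ^ ((n + 1) * (n + 1)!) := dvd_pow_self _ (by positivity)
    have : co n (2 ^ j • x) = _ • co (n + 1) (2 ^ j • x) := ((2 ^ j • x).2.1 n).2
    rw [this, hc, mul_comm, mul_smul, ← map_nsmul, smul_smul, ← pow_succ', e]
    simp

lemma mid {x : G} (h : x ≠ 0) {δ : ℝ} (h0 : 0 < δ) (h1 : δ ≤ 1 / 4) (N : ℕ) :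
    ∃ k : ℕ, (∀ n < N, co n (k • x) = 0) ∧ δ ≤ ‖k • x‖ ∧ ‖k • x‖ < 2 * δ := by
  classical
  obtain ⟨M, a1, a2⟩ := ((tl_lim x (half_pos h0)).and (eventually_ge_atTop N)).exists
  have a3 : ∀ n < M, co n (2 ^ M ! • x) = 0 := fun n hn => by
    obtain ⟨c, hc⟩ : 2 ^ (n + 1)! ∣ 2 ^ M ! := pow_dvd_pow _ (Nat.factorial_le hn)
    rw [map_nsmul, hc, mul_comm, mul_smul, show _ • co n x = 0 from (x.2.1 n).1, smul_zero]
  have a4 : ‖2 ^ M ! • x‖ ≤ 2 * tl x M := by
    rw [norm_tl a3, tl, tl, ← tsum_mul_left]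
    exact (sm' _ M).tsum_le_tsum (fun n => by rw [map_nsmul]; exact ph_smul (by omega) _)
      ((sm' _ M).mul_left 2)
  have ex : ∃ k : ℕ, δ ≤ ‖k • 2 ^ M ! • x‖ := (nss (tf h _)).imp fun k hk => h1.trans hk
  have b1 := Nat.find_spec ex
  refine ⟨Nat.find ex * 2 ^ M !, fun n hn => by rw [mul_smul, map_nsmul, a3 n (by omega), smul_zero],
    by rwa [mul_smul], ?_⟩
  rcases e : Nat.find ex with _ | k
  · simpa
  · have := not_le.1 (Nat.find_min ex (m := k) (by omega))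
    rw [mul_smul, succ_nsmul]
    linarith [norm_add_le (k • 2 ^ M ! • x) (2 ^ M ! • x)]

lemma erdos (H : AddSubgroup G) (cH : IsClosed (H : Set G)) (h : H ≠ ⊥) {C : Set H}
    (hC : IsClopen C) (h0 : 0 ∈ C) (hb : C ⊆ Metric.ball 0 (1 / 4)) : False := by
  have : CompleteSpace H := cH.completeSpace_coe
  obtain ⟨x, hx⟩ := AddSubgroup.ne_bot_iff_exists_ne_zero.1 h
  have hx' : (x : G) ≠ 0 := by simpa using hx
  have ne : Cᶜ.Nonempty := by
    obtain ⟨k, hk⟩ := nss hx'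
    exact ⟨k • x, fun h => (mem_ball_zero_iff.1 (hb h)).not_ge hk⟩
  let δ : H → ℝ := fun a => min (1 / 4) (Metric.infDist a Cᶜ / 2)
  have δ0 : ∀ a ∈ C, 0 < δ a := fun a ha => lt_min (by norm_num) (half_pos
    ((hC.2.isClosed_compl.notMem_iff_infDist_pos ne).1 (by simpa)))
  have : ∀ a : C, ∃ b : C, δ a ≤ dist a b ∧ dist a b ≤ 2 * (‖b.1‖ - ‖a.1‖) := fun a => by
    obtain ⟨N, hN⟩ := (tl_lim a.1.1 (show 0 < δ a / 4 by linarith [δ0 _ a.2])).exists
    obtain ⟨k, b1, b2, b3⟩ := mid hx' (δ0 _ a.2) (min_le_left _ _) N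
    have e : dist a.1 (a.1 + k • x) = ‖k • x.1‖ := by rw [dist_self_add_right]; rfl
    have := hump a.1.1 b1
    refine ⟨⟨a.1 + k • x, by_contra fun hc => ?_⟩, e ▸ b2, e.trans_le ?_⟩
    · have := Metric.infDist_le_dist_of_mem (x := a.1) (Set.mem_compl hc)
      linarith [min_le_right (1 / 4) (Metric.infDist a.1 Cᶜ / 2)]
    · change _ ≤ 2 * (‖a.1.1 + k • x.1‖ - ‖a.1.1‖)
      linarith
  choose f f1 f2 using this
  let u : ℕ → C := fun n => f^[n] ⟨0, h0⟩
  have us : ∀ n, u (n + 1) = f (u n) := fun n => Function.iterate_succ_apply' _ _ _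
  have hs : Summable fun n => dist (u n) (u (n + 1)) :=
    summable_of_sum_range_le (c := 1) (fun _ => dist_nonneg) fun N => by
      refine (Finset.sum_le_sum (g := fun n => 2 * ‖(u (n + 1)).1‖ - 2 * ‖(u n).1‖)
        fun n _ => by rw [us, ← mul_sub]; exact f2 _).trans ?_
      rw [Finset.sum_range_sub fun n => 2 * ‖(u n).1‖]
      linarith [mem_ball_zero_iff.1 (hb (u N).2), norm_nonneg (u 0).1]
  have : CompleteSpace C := hC.1.completeSpace_coe
  obtain ⟨a, ha⟩ := cauchySeq_tendsto_of_complete (cauchySeq_of_summable_dist hs)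
  have c : Continuous fun a : C => δ a := by
    have := Metric.continuous_infDist_pt Cᶜ
    fun_prop
  exact (δ0 _ a.2).not_ge (le_of_tendsto_of_tendsto' ((c.tendsto a).comp ha) hs.tendsto_atTop_zero
    fun n => us n ▸ f1 _)

lemma locMin (𝓖 : Filter G) (hU : Metric.closedBall 0 (1 / 5) ∈ 𝓖)
    (ha : ∀ W ∈ 𝓖, ∃ V ∈ 𝓖, ∀ a ∈ V, ∀ b ∈ V, a + b ∈ W)
    (hk : ∀ k : ℕ, Tendsto (fun x => k • x) 𝓖 𝓖) (h0 : ∀ W ∈ 𝓖, 0 ∈ W) : 𝓖 ≤ 𝓝 0 := by
  refine le_iff_ultrafilter.2 fun 𝒰 h𝒰 => ?_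
  have : ∀ n, ∃ y, ∀ᶠ x in 𝒰, co n x = y := fun n => by
    obtain ⟨y, -, hy⟩ := Ultrafilter.eq_pure_of_finite_mem (f := 𝒰.map (co n))
      (AddCircle.finite_torsion 1 (n := 2 ^ (n + 1)!) (by positivity))
      (Ultrafilter.mem_map.2 <| univ_mem' fun x => (x.2.1 n).1)
    have : {y} ∈ 𝒰.map (co n) := by rw [hy]; rfl
    exact ⟨y, this⟩
  choose y hy using this
  have b : ∀ k : ℕ, ∀ᶠ x : G in 𝒰, ‖k • x‖ ≤ 1 / 5 := fun k => by
    filter_upwards [h𝒰 (hk k hU)] with x hx using mem_closedBall_zero_iff.1 hx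
  obtain ⟨g, hg, -⟩ := fatou (u := id) hy (by simpa using b 1)
  have : g = 0 := by_contra fun h => by
    obtain ⟨k, hk⟩ := nss h
    obtain ⟨g', h1, h2⟩ := fatou (u := fun x => k • x) (y := fun n => k • y n)
      (fun n => (hy n).mono fun x hx => by simp [hx]) (b k)
    rw [show k • g = g' from sub_eq_zero.1 (ext fun n => by simp [h1, hg])] at hk
    linarith
  simp only [this, map_zero] at hg
  refine Metric.nhds_basis_ball.ge_iff.2 fun ε hε => by_contra fun hc => ?_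
  replace hc : (Metric.ball 0 ε)ᶜ ∈ (𝒰 : Filter G) := Ultrafilter.compl_mem_iff_notMem.2 hc
  have : ∀ m : ℕ, ∀ W ∈ 𝓖, ∃ w ∈ W, m * (ε / 2) ≤ ‖w‖ := fun m => by
    induction m with
    | zero => exact fun W hW => ⟨0, h0 W hW, by simp⟩
    | succ m ih =>
      intro W hW
      obtain ⟨V, hV, h⟩ := ha W hW
      obtain ⟨w, h1, h2⟩ := ih V hV
      obtain ⟨N, hN⟩ := (tl_lim w (show 0 < ε / 4 by positivity)).exists
      obtain ⟨z, h3, h4, h5⟩ := (Eventually.and (h𝒰 hV) (Eventually.and hc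
        ((eventually_all_finset (Finset.range N)).2 fun n _ => hy n))).exists
      have := hump w (z := z) (N := N) fun n hn => (h5 n (by simpa)).trans (hg n).symm
      have h4 : ε ≤ ‖z‖ := by simpa using h4
      exact ⟨_, h w h1 z h3, by push_cast; linarith⟩
  obtain ⟨m, hm⟩ := exists_nat_gt (1 / 5 / (ε / 2))
  obtain ⟨w, h1, h2⟩ := this m _ hU
  rw [div_lt_iff₀ (half_pos hε)] at hm
  linarith [mem_closedBall_zero_iff.1 h1]

lemma nontriv : ∃ x : G, x ≠ 0 := by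
  refine ⟨⟨fun n => ((1 / 2 ^ (n + 1)! : ℝ) : T), fun n => ⟨?_, ?_⟩, ?_⟩, fun e => ?_⟩
  · rw [← AddCircle.coe_nsmul]; simp
  · rw [← AddCircle.coe_nsmul, Nat.factorial_succ (n + 1), add_mul (n + 1) 1, pow_add]
    simp only [nsmul_eq_mul, one_mul]
    push_cast
    field_simp
  · refine .of_nonneg_of_le (fun _ => ph_nonneg _ _) (fun n => ?_) summable_geometric_two
    refine (Real.rpow_le_rpow (norm_nonneg _) QuotientAddGroup.norm_mk_le_norm (al n).1.le).trans ?_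
    rw [Real.norm_of_nonneg (by positivity), ← one_div_pow, Nat.factorial_succ, pow_mul,
      Real.pow_rpow_inv_natCast (by positivity) n.factorial_ne_zero]
    exact pow_le_pow_of_le_one (by norm_num) (by norm_num) n.le_succ
  · have := congrArg (fun x => ‖co 0 x‖) e
    change ‖((1 / 2 ^ (0 + 1)! : ℝ) : T)‖ = ‖(0 : T)‖ at this
    rw [(AddCircle.norm_coe_eq_abs_iff 1 one_ne_zero).2 (by norm_num [abs_of_pos])] at this
    norm_num at this

lemma not_chart {E : Type} [NormedAddCommGroup E] [NormedSpace ℝ E]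
    (e : OpenPartialHomeomorph G E) : (0 : G) ∉ e.source := fun h0 => by
  obtain ⟨r, hr, hb⟩ := Metric.mem_nhds_iff.1 (e.open_target.mem_nhds (e.map_source h0))
  have pc : IsPreconnected (e.symm '' Metric.ball (e 0) r) :=
    (convex_ball _ _).isPreconnected.image _ (e.continuousOn_symm.mono hb)
  have m0 : (0 : G) ∈ e.symm '' Metric.ball (e 0) r := ⟨_, Metric.mem_ball_self hr, e.left_inv h0⟩
  have nb : e.symm '' Metric.ball (e 0) r ∈ 𝓝 (0 : G) := by
    have := e.symm.image_mem_nhds (e.map_source h0) (Metric.ball_mem_nhds _ hr)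
    rwa [e.left_inv h0] at this
  obtain ⟨δ, hδ, h⟩ := Metric.mem_nhds_iff.1 nb
  obtain ⟨x, hx⟩ := nontriv
  obtain ⟨k, -, h1, h2⟩ := mid hx (δ := min (δ / 2) (1 / 4)) (by positivity) (min_le_right _ _) 0
  have : k • x = 0 := ext fun n => by
    have op : IsOpen ((co n).ker : Set G) := AddSubgroup.isOpen_of_mem_nhds _ (g := 0)
      (mem_of_superset (Metric.ball_mem_nhds _ (by positivity))
        fun z hz => co_zero (mem_ball_zero_iff.1 hz))
    exact pc.subset_isClopen ⟨AddSubgroup.isClosed_of_isOpen _ op, op⟩ ⟨0, m0, zero_mem _⟩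
      (h (mem_ball_zero_iff.2 (by linarith [min_le_left (δ / 2) (1 / 4)])))
  rw [this, norm_zero] at h1
  exact h1.not_gt (by positivity)

end Pool.Agent.H71.Nak
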