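import Mathlib

set_option autoImplicit false

namespace Pool.Agent.H71.Nse

open PowerSeries Finset

noncomputable section

def geo (j : ℕ) : ℤ⟦X⟧ := PowerSeries.mk fun m => if j ∣ m then 1 else 0

def fac (j : ℕ) (z : ℤ) : ℤ⟦X⟧ := (1 - X ^ j) ^ z.toNat * geo j ^ (-z).toNat

lemma geo_eq {j : ℕ} (hj : 0 < j) : geo j = 1 + X ^ j * geo j := by
  ext m
  simp only [geo, map_add, coeff_one, coeff_X_pow_mul', coeff_mk]
  by_cases h0 : m = 0
  · subst h0; simp [Nat.not_le.2 hj]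
  by_cases h1 : j ≤ m
  · simp only [h0, h1, if_true, if_false, zero_add, Nat.dvd_sub_iff_left h1 dvd_rfl]
  · simp only [h0, h1, if_false, add_zero]
    rw [if_neg fun h => h1 (Nat.le_of_dvd (Nat.pos_of_ne_zero h0) h)]

lemma geo_mul {j : ℕ} (hj : 0 < j) : (1 - X ^ j) * geo j = 1 := by
  linear_combination geo_eq hj

lemma fac_neg {j : ℕ} (hj : 0 < j) (z : ℤ) : fac j z * fac j (-z) = 1 := by
  unfold fac
  rw [neg_neg]
  have : ∀ p q : ℕ, (1 - X ^ j) ^ p * geo j ^ q * ((1 - X ^ j) ^ q * geo j ^ p) =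
      ((1 - X ^ j) * geo j) ^ p * ((1 - X ^ j) * geo j) ^ q := fun p q => by
    rw [mul_pow, mul_pow]; ring
  rw [this, geo_mul hj]; simp

lemma fac_zero (j : ℕ) : fac j 0 = 1 := by simp [fac]
lemma fac_m1 (j : ℕ) : fac j (-1) = geo j := by simp [fac]
lemma fac_nat (j k : ℕ) : fac j k = (1 - X ^ j) ^ k := by simp [fac]

def Sup (T : AddSubmonoid ℕ) (f : ℤ⟦X⟧) : Prop := ∀ m, coeff m f ≠ 0 → m ∈ T

lemma Sup.one (T : AddSubmonoid ℕ) : Sup T 1 := by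
  intro m h
  rw [coeff_one] at h
  by_cases h0 : m = 0
  · exact h0 ▸ T.zero_mem
  · simp [h0] at h

lemma Sup.mul {T : AddSubmonoid ℕ} {f g : ℤ⟦X⟧} (hf : Sup T f) (hg : Sup T g) : Sup T (f * g) := by
  intro m h
  rw [coeff_mul] at h
  obtain ⟨p, hp, h2⟩ := exists_ne_zero_of_sum_ne_zero h
  rw [← mem_antidiagonal.1 hp]
  exact T.add_mem (hf _ (left_ne_zero_of_mul h2)) (hg _ (right_ne_zero_of_mul h2))

lemma Sup.add {T : AddSubmonoid ℕ} {f g : ℤ⟦X⟧} (hf : Sup T f) (hg : Sup T g) : Sup T (f + g) := by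
  intro m h
  rw [map_add] at h
  by_cases h1 : coeff m f = 0
  · exact hg m (by simpa [h1] using h)
  · exact hf m h1

lemma Sup.neg {T : AddSubmonoid ℕ} {f : ℤ⟦X⟧} (hf : Sup T f) : Sup T (-f) :=
  fun m h => hf m (by simpa using h)

lemma Sup.xp {T : AddSubmonoid ℕ} {j : ℕ} (hj : j ∈ T) : Sup T (X ^ j) := by
  intro m h
  rw [coeff_X_pow] at h
  by_cases h0 : m = j
  · exact h0 ▸ hj
  · simp [h0] at h

lemma Sup.geo {T : AddSubmonoid ℕ} {j : ℕ} (hj : j ∈ T) : Sup T (geo j) := by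
  intro m h
  simp only [Nse.geo, coeff_mk, ne_eq, ite_eq_right_iff, one_ne_zero, imp_false, not_not] at h
  obtain ⟨c, rfl⟩ := h
  simpa [mul_comm] using T.nsmul_mem hj c

lemma Sup.prod {T : AddSubmonoid ℕ} {ι : Type} (s : Finset ι) (f : ι → ℤ⟦X⟧)
    (h : ∀ i ∈ s, Sup T (f i)) : Sup T (∏ i ∈ s, f i) :=
  Finset.prod_induction f (Sup T) (fun _ _ => Sup.mul) (Sup.one T) h

def Sh (T : AddSubmonoid ℕ) (j : ℕ) (f : ℤ⟦X⟧) (c : ℤ) : Prop :=
  ∃ r, f = 1 + X ^ j * r ∧ Sup T r ∧ constantCoeff r = c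

lemma Sh.mul {T : AddSubmonoid ℕ} {j : ℕ} (h0 : 0 < j) (hj : j ∈ T) {f g : ℤ⟦X⟧} {c d : ℤ}
    (hf : Sh T j f c) (hg : Sh T j g d) : Sh T j (f * g) (c + d) := by
  obtain ⟨r, rfl, r1, r2⟩ := hf
  obtain ⟨s, rfl, s1, s2⟩ := hg
  refine ⟨r + s + X ^ j * (r * s), by ring, (r1.add s1).add ((Sup.xp hj).mul (r1.mul s1)), ?_⟩
  simp [r2, s2, h0.ne']

lemma Sh.pow {T : AddSubmonoid ℕ} {j : ℕ} (h0 : 0 < j) (hj : j ∈ T) {f : ℤ⟦X⟧} {c : ℤ}
    (hf : Sh T j f c) (k : ℕ) : Sh T j (f ^ k) (k * c) := by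
  induction k with
  | zero => exact ⟨0, by simp, fun m h => by simp at h, by simp⟩
  | succ k ih =>
    have := ih.mul h0 hj hf
    rw [pow_succ]
    push_cast
    rwa [add_mul, one_mul]

lemma sh_fac {T : AddSubmonoid ℕ} {j : ℕ} (h0 : 0 < j) (hj : j ∈ T) (z : ℤ) :
    Sh T j (fac j z) (-z) := by
  have h1 : Sh T j (1 - X ^ j) (-1) := ⟨-1, by ring, (Sup.one T).neg, by simp⟩
  have h2 : Sh T j (geo j) 1 := ⟨geo j, geo_eq h0, Sup.geo hj, by simp [geo]⟩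
  have := (h1.pow h0 hj z.toNat).mul h0 hj (h2.pow h0 hj (-z).toNat)
  have e : (z.toNat : ℤ) * -1 + ((-z).toNat : ℤ) * 1 = -z := by omega
  rwa [e] at this

lemma sup_fac {T : AddSubmonoid ℕ} {j : ℕ} (h0 : 0 < j) (hj : j ∈ T) (z : ℤ) : Sup T (fac j z) := by
  obtain ⟨r, e, r1, -⟩ := sh_fac h0 hj z
  rw [e]
  exact (Sup.one T).add ((Sup.xp hj).mul r1)

lemma const_fac {j : ℕ} (h0 : 0 < j) (z : ℤ) : constantCoeff (fac j z) = 1 := by
  obtain ⟨r, e, -, -⟩ := sh_fac (T := ⊤) h0 trivial z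
  rw [e]
  simp [h0.ne']

lemma coeff_mul_fac {j : ℕ} (h0 : 0 < j) (z : ℤ) (Q : ℤ⟦X⟧) (hQ : constantCoeff Q = 1) :
    coeff j (Q * fac j z) = coeff j Q - z := by
  obtain ⟨r, e, -, r2⟩ := sh_fac (T := ⊤) h0 trivial z
  rw [e, show Q * (1 + X ^ j * r) = Q + X ^ j * (Q * r) by ring, map_add, coeff_X_pow_mul']
  simp [hQ, r2, sub_eq_add_neg]

open Classical in
def hs (C : Set ℕ) (n : ℕ) : ℤ⟦X⟧ := PowerSeries.mk fun m => if ∃ c ∈ C, c * n = m then 1 else 0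

open Classical in
def Z {e : ℕ} (n : Fin e → ℕ) (C : Fin e → Set ℕ) (s : ℕ) : Finset (Fin e → ℕ) :=
  (Fintype.piFinset fun _ => range (s + 1)).filter fun c => (∀ i, c i ∈ C i) ∧ ∑ i, c i * n i = s

lemma mem_Z {e : ℕ} {n : Fin e → ℕ} (hn : ∀ i, 0 < n i) {C : Fin e → Set ℕ} {s : ℕ}
    {c : Fin e → ℕ} : c ∈ Z n C s ↔ (∀ i, c i ∈ C i) ∧ ∑ i, c i * n i = s := by
  classical
  unfold Z
  rw [mem_filter, and_iff_right_iff_imp]
  rintro ⟨-, h⟩
  rw [Fintype.mem_piFinset]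
  intro i
  have h1 : c i * n i ≤ s := h ▸ single_le_sum (f := fun i => c i * n i)
    (fun _ _ => Nat.zero_le _) (mem_univ i)
  have := Nat.le_mul_of_pos_right (c i) (hn i)
  rw [mem_range]; omega

lemma coeff_hs {e : ℕ} {n : Fin e → ℕ} (hn : ∀ i, 0 < n i) (C : Fin e → Set ℕ) (s : ℕ) :
    coeff s (∏ i, hs (C i) (n i)) = (Z n C s).card := by
  classical
  rw [coeff_prod]
  simp only [hs, coeff_mk, prod_ite_zero, prod_const_one, sum_boole]
  congr 1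
  symm
  apply card_bij (fun c _ => Finsupp.equivFunOnFinite.symm fun i => c i * n i)
  · intro c hc
    rw [mem_Z hn] at hc
    simp only [mem_filter, mem_finsuppAntidiag, subset_univ, and_true,
      Finsupp.coe_equivFunOnFinite_symm]
    exact ⟨hc.2, fun i _ => ⟨c i, hc.1 i, rfl⟩⟩
  · intro c _ d _ h
    funext i
    have := congrFun (Finsupp.equivFunOnFinite.symm.injective h) i
    exact Nat.eq_of_mul_eq_mul_right (hn i) this
  · intro l hl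
    simp only [mem_filter, mem_finsuppAntidiag, subset_univ, and_true] at hl
    choose c h1 h2 using fun i => hl.2 i (mem_univ i)
    refine ⟨c, (mem_Z hn).2 ⟨h1, ?_⟩, ?_⟩
    · simp only [h2]; exact hl.1
    · ext i; simp [h2]

lemma hs_univ (n : ℕ) : hs Set.univ n = geo n := by
  ext m
  simp only [hs, geo, coeff_mk]
  congr 1
  apply propext
  exact ⟨fun ⟨c, _, h⟩ => ⟨c, by rw [← h, mul_comm]⟩, fun ⟨c, h⟩ => ⟨c, trivial, by rw [h, mul_comm]⟩⟩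

lemma hs_lt {n : ℕ} (hn : 0 < n) (m : ℕ) : hs {c | c < m} n = (1 - X ^ (m * n)) * geo n := by
  ext k
  rw [sub_mul, one_mul, map_sub, coeff_X_pow_mul']
  simp only [hs, geo, coeff_mk, Set.mem_ofPred_eq]
  by_cases h1 : n ∣ k
  · obtain ⟨c, rfl⟩ := h1
    by_cases h2 : c < m
    · rw [if_pos ⟨c, h2, mul_comm _ _⟩, if_pos (dvd_mul_right _ _), if_neg (by nlinarith)]
      simp
    · have h3 : m * n ≤ n * c := by nlinarith
      rw [if_neg, if_pos (dvd_mul_right _ _), if_pos h3,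
        if_pos (Nat.dvd_sub (dvd_mul_right _ _) (dvd_mul_left _ _))]
      · simp
      · rintro ⟨d, h4, h5⟩
        rw [mul_comm] at h5
        exact h2 (Nat.eq_of_mul_eq_mul_left hn h5 ▸ h4)
  · rw [if_neg, if_neg h1]
    · split_ifs with h2 h3
      · exact absurd ((Nat.dvd_sub_iff_left h2 (dvd_mul_left _ _)).1 h3) h1
      · simp
      · simp
    · rintro ⟨d, -, h5⟩
      exact h1 ⟨d, by rw [← h5, mul_comm]⟩

end

end Pool.Agent.H71.Nse
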