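import Pool.Agent.H71.Nse1

set_option autoImplicit false

namespace Pool.Agent.H71.Nse

open Finset

def Gen {e : ℕ} (n : Fin e → ℕ) (ρ : Finset ((Fin e → ℕ) × (Fin e → ℕ))) : Prop :=
  ∀ x y, addConGen (fun u v => (u, v) ∈ ρ) x y ↔ ∑ i, x i * n i = ∑ i, y i * n i

lemma gen_card {e : ℕ} (n : Fin e → ℕ) (hn : ∀ i, 0 < n i) (j0 : Fin e)
    (ρ : Finset ((Fin e → ℕ) × (Fin e → ℕ))) (h : Gen n ρ) : e ≤ ρ.card + 1 := by
  classical
  let d : (Fin e → ℕ) × (Fin e → ℕ) → (Fin e → ℚ) := fun p i => (p.1 i : ℚ) - p.2 i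
  let V : Submodule ℚ (Fin e → ℚ) := Submodule.span ℚ (ρ.image d : Set (Fin e → ℚ))
  let K : AddCon (Fin e → ℕ) :=
    { r := fun x y => d (x, y) ∈ V
      iseqv := ⟨fun x => by
          have : d (x, x) = 0 := by funext i; simp [d]
          rw [this]; exact V.zero_mem,
        fun {x y} h => by
          have : d (y, x) = -d (x, y) := by funext i; simp [d]
          rw [this]; exact V.neg_mem h,
        fun {x y z} h1 h2 => by
          have : d (x, z) = d (x, y) + d (y, z) := by funext i; simp [d]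
          rw [this]; exact V.add_mem h1 h2⟩
      add' := fun {w x y z} h1 h2 => by
        have : d (w + y, x + z) = d (w, x) + d (y, z) := by funext i; simp [d]; ring
        show d (w + y, x + z) ∈ V
        rw [this]; exact V.add_mem h1 h2 }
  have hK : addConGen (fun u v => (u, v) ∈ ρ) ≤ K := by
    rw [AddCon.addConGen_le]
    intro u v huv
    exact Submodule.subset_span (by simpa using ⟨u, v, huv, rfl⟩)
  let W : Submodule ℚ (Fin e → ℚ) :=
    Submodule.span ℚ (insert (Pi.single j0 1) (ρ.image d) : Finset (Fin e → ℚ))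
  have hVW : V ≤ W := Submodule.span_mono (by simp)
  have h0 : (Pi.single j0 1 : Fin e → ℚ) ∈ W := Submodule.subset_span (by simp)
  have hall : ∀ i, (Pi.single i 1 : Fin e → ℚ) ∈ W := by
    intro i
    have h1 : d (Pi.single i (n j0), Pi.single j0 (n i)) ∈ V := hK ((h _ _).2 (by
      simp [Pi.single_apply, mul_comm]))
    have h2 : (Pi.single i 1 : Fin e → ℚ) = (n j0 : ℚ)⁻¹ •
        (d (Pi.single i (n j0), Pi.single j0 (n i)) + (n i : ℚ) • (Pi.single j0 1 : Fin e → ℚ)) := by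
      have : (n j0 : ℚ) ≠ 0 := by exact_mod_cast (hn j0).ne'
      funext k
      simp only [d, Pi.single_apply, Pi.smul_apply, Pi.add_apply, smul_eq_mul]
      split_ifs <;> simp [this]
    rw [h2]
    exact W.smul_mem _ (W.add_mem (hVW h1) (W.smul_mem _ h0))
  have htop : W = ⊤ := by
    rw [eq_top_iff]
    intro x _
    rw [pi_eq_sum_univ' x]
    exact W.sum_mem fun i _ => W.smul_mem _ (hall i)
  have h3 := finrank_span_finset_le_card (R := ℚ) (insert (Pi.single j0 1 : Fin e → ℚ) (ρ.image d))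
  have h4 : Module.finrank ℚ W = e := by rw [htop]; simp
  have h5 := card_insert_le (Pi.single j0 1 : Fin e → ℚ) (ρ.image d)
  have h6 := card_image_le (s := ρ) (f := d)
  have h7 : Module.finrank ℚ W ≤ _ := h3
  omega

lemma pres {e : ℕ} (n : Fin e → ℕ) (hn : ∀ i, 0 < n i) (j0 : Fin e) (m W : Fin e → ℕ)
    (u : Fin e → Fin e → ℕ) (h1 : ∀ j, j ≠ j0 → ∑ i, u j i * n i = m j * n j)
    (h2 : ∀ j, j ≠ j0 → ∑ i, u j i * W i < m j * W j)
    (h3 : ∀ x y : Fin e → ℕ, (∀ j, j ≠ j0 → x j < m j) → (∀ j, j ≠ j0 → y j < m j) →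
      ∑ i, x i * n i = ∑ i, y i * n i → x = y) :
    ∃ ρ : Finset ((Fin e → ℕ) × (Fin e → ℕ)), Gen n ρ ∧ (∀ ρ', ρ' ⊂ ρ → ¬ Gen n ρ') ∧
      ρ.card = e - 1 := by
  classical
  let ρ : Finset ((Fin e → ℕ) × (Fin e → ℕ)) :=
    (univ.erase j0).image fun j => (Pi.single j (m j), u j)
  let K : AddCon (Fin e → ℕ) :=
    { r := fun x y => ∑ i, x i * n i = ∑ i, y i * n i
      iseqv := ⟨fun x => rfl, fun h => h.symm, fun h1 h2 => h1.trans h2⟩
      add' := fun {w x y z} h1 h2 => by
        show ∑ i, (w + y) i * n i = ∑ i, (x + z) i * n i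
        simp only [Pi.add_apply, add_mul, sum_add_distrib]
        exact congrArg₂ _ h1 h2 }
  have hK : addConGen (fun u v => (u, v) ∈ ρ) ≤ K := by
    rw [AddCon.addConGen_le]
    intro a b hab
    obtain ⟨j, hj, e1⟩ := mem_image.1 hab
    obtain ⟨rfl, rfl⟩ := Prod.mk.inj e1
    show ∑ i, _ * n i = ∑ i, u j i * n i
    rw [h1 j (ne_of_mem_erase hj)]
    simp [Pi.single_apply]
  have red : ∀ w (x : Fin e → ℕ), ∑ i, x i * W i = w →
      ∃ y, addConGen (fun u v => (u, v) ∈ ρ) x y ∧ ∀ j, j ≠ j0 → y j < m j := by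
    intro w
    induction w using Nat.strong_induction_on with
    | _ w ih =>
      intro x hx
      by_cases h : ∀ j, j ≠ j0 → x j < m j
      · exact ⟨x, AddCon.refl _ x, h⟩
      push Not at h
      obtain ⟨j, hj, hm⟩ := h
      obtain ⟨d, rfl⟩ : ∃ d : Fin e → ℕ, x = d + (Pi.single j (m j) : Fin e → ℕ) := by
        refine ⟨fun i => x i - (Pi.single j (m j) : Fin e → ℕ) i, ?_⟩
        funext i
        show x i = x i - (Pi.single j (m j) : Fin e → ℕ) i + (Pi.single j (m j) : Fin e → ℕ) i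
        simp only [Pi.single_apply]
        split_ifs with h
        · subst h; omega
        · omega
      have hlt : ∑ i, (d + u j) i * W i < w := by
        rw [← hx]
        have := h2 j hj
        simp only [Pi.add_apply, add_mul, sum_add_distrib]
        simp [Pi.single_apply, this]
      obtain ⟨y, y1, y2⟩ := ih _ hlt (d + u j) rfl
      refine ⟨y, AddCon.trans _ (AddCon.add _ (AddCon.refl _ d) (AddCon.le_addConGen _ _ ?_)) y1, y2⟩
      exact mem_image.2 ⟨j, by simp [hj], rfl⟩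
  have hG : Gen n ρ := by
    intro x y
    refine ⟨fun h => hK h, fun h => ?_⟩
    obtain ⟨x', a1, a2⟩ := red _ x rfl
    obtain ⟨y', b1, b2⟩ := red _ y rfl
    have e1 : ∑ i, x i * n i = ∑ i, x' i * n i := hK a1
    have e2 : ∑ i, y i * n i = ∑ i, y' i * n i := hK b1
    rw [h3 x' y' a2 b2 (by omega)] at a1
    exact AddCon.trans _ a1 (AddCon.symm _ b1)
  have c1 : ρ.card ≤ e - 1 := card_image_le.trans (by simp)
  have c2 := gen_card n hn j0 ρ hG
  refine ⟨ρ, hG, fun ρ' hs hg => ?_, by omega⟩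
  have := gen_card n hn j0 ρ' hg
  have := card_lt_card hs
  omega

end Pool.Agent.H71.Nse
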