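import Pool.Agent.H71.Nse2

set_option autoImplicit false

namespace Pool.Agent.H71.Nse

open PowerSeries Finset

noncomputable section

open Classical in
def ind (S : AddSubmonoid ℕ) : ℤ⟦X⟧ := PowerSeries.mk fun s => if s ∈ S then 1 else 0

lemma sup_ind (S : AddSubmonoid ℕ) : Sup S (ind S) := by
  intro m h
  by_contra hm
  simp [ind, hm] at h

lemma exps (S : AddSubmonoid ℕ) (h1 : 1 ∉ S) (ex : ℕ → ℤ)
    (hex : ∀ N M, N ≤ M → coeff N (∏ j ∈ Icc 1 M, fac j (ex j)) = coeff N ((1 - X) * ind S))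
    (N M : ℕ) (h : N ≤ M) (hM : 1 ≤ M) :
    coeff N (∏ j ∈ Icc 2 M, fac j (ex j)) = coeff N (ind S) := by
  have e1 : ex 1 = 1 := by
    have := hex 1 1 le_rfl
    have h2 := coeff_mul_fac one_pos (ex 1) 1 (by simp)
    rw [Icc_self, prod_singleton, ← one_mul (fac 1 (ex 1)), h2, sub_mul, one_mul, map_sub,
      ← pow_one (X : ℤ⟦X⟧), coeff_X_pow_mul'] at this
    simp [ind, h1, coeff_one] at this
    omega
  have d : (X : ℤ⟦X⟧) ^ (M + 1) ∣ ∏ j ∈ Icc 1 M, fac j (ex j) - (1 - X) * ind S := by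
    rw [X_pow_dvd_iff]
    intro m hm
    rw [map_sub, hex m M (by omega), sub_self]
  have d2 := d.mul_left (geo 1)
  have g := geo_mul one_pos
  have e2 : Icc 1 M = insert 1 (Icc 2 M) := by
    ext j; simp; omega
  have e3 : fac 1 1 = 1 - X := by simp [fac]
  rw [e2, prod_insert (by simp), e1, e3] at d2
  rw [pow_one] at g
  have e4 : geo 1 * ((1 - X) * ∏ j ∈ Icc 2 M, fac j (ex j) - (1 - X) * ind S) =
      ∏ j ∈ Icc 2 M, fac j (ex j) - ind S := by
    linear_combination (∏ j ∈ Icc 2 M, fac j (ex j) - ind S) * g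
  rw [e4, X_pow_dvd_iff] at d2
  have := d2 N (by omega)
  rwa [map_sub, sub_eq_zero] at this

lemma step (S : AddSubmonoid ℕ) (ex : ℕ → ℤ)
    (hex : ∀ N M, N ≤ M → 1 ≤ M → coeff N (∏ j ∈ Icc 2 M, fac j (ex j)) = coeff N (ind S))
    (j : ℕ) (hj : 2 ≤ j) (ih : ∀ i, i < j → 2 ≤ i → i ∉ S → ex i = 0)
    (hT : j ∉ AddSubmonoid.closure {s | s ∈ S ∧ s < j}) : ex j = -coeff j (ind S) := by
  obtain ⟨k, rfl⟩ : ∃ k, j = k + 1 := ⟨j - 1, by omega⟩
  have h := hex (k + 1) (k + 1) le_rfl (by omega)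
  rw [prod_Icc_succ_top hj, coeff_mul_fac (by omega)] at h
  · have : coeff (k + 1) (∏ j ∈ Icc 2 k, fac j (ex j)) = 0 := by
      by_contra hn
      refine hT (Sup.prod _ _ (fun i hi => ?_) _ hn)
      rw [mem_Icc] at hi
      by_cases h2 : i ∈ S
      · exact sup_fac (by omega) (AddSubmonoid.subset_closure
          (show i ∈ {s | s ∈ S ∧ s < k + 1} from ⟨h2, by omega⟩)) _
      · rw [ih i (by omega) hi.1 h2, fac_zero]
        exact Sup.one _
    omega
  · rw [map_prod]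
    exact prod_eq_one fun i hi => const_fac (by have := (mem_Icc.1 hi).1; omega) _

lemma gap_zero (S : AddSubmonoid ℕ) (ex : ℕ → ℤ)
    (hex : ∀ N M, N ≤ M → 1 ≤ M → coeff N (∏ j ∈ Icc 2 M, fac j (ex j)) = coeff N (ind S))
    (j : ℕ) : 2 ≤ j → j ∉ S → ex j = 0 := by
  induction j using Nat.strong_induction_on with
  | _ j ih =>
    intro hj hS
    rw [step S ex hex j hj ih fun h => hS
      ((AddSubmonoid.closure_le.2 fun s hs => hs.1 : AddSubmonoid.closure _ ≤ S) h)]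
    simp [ind, hS]

lemma dsplit (S : AddSubmonoid ℕ) (a b : ℕ) (α β : ℤ) (ha : a ∈ S) (a0 : 0 < a) (hb : b ∈ S)
    (b0 : 0 < b) : ∃ K L, ind S * fac a (-α) * fac b (-β) = ind S + X ^ a * K + X ^ b * L ∧
      Sup S K ∧ Sup S L ∧ constantCoeff K = α := by
  obtain ⟨r, e1, r1, r2⟩ := sh_fac a0 ha (-α)
  obtain ⟨s, e2, s1, -⟩ := sh_fac b0 hb (-β)
  refine ⟨ind S * r, ind S * fac a (-α) * s, ?_, (sup_ind S).mul r1,
    ((sup_ind S).mul (sup_fac a0 ha _)).mul s1, ?_⟩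
  · rw [e2, e1]; ring
  · simp [r2, ind]

lemma xp_zero {S : AddSubmonoid ℕ} {K : ℤ⟦X⟧} (hK : Sup S K) {b s : ℕ}
    (h : ¬ ∃ t ∈ S, b + t = s) : coeff s (X ^ b * K) = 0 := by
  rw [coeff_X_pow_mul']
  split_ifs with h1
  · by_contra hn
    exact h ⟨_, hK _ hn, by omega⟩
  · rfl

lemma dc (S : AddSubmonoid ℕ) (a b : ℕ) (α β : ℤ) (ha : a ∈ S) (a0 : 0 < a) (hb : b ∈ S)
    (b0 : 0 < b) (hab : ¬ ∃ t ∈ S, b + t = a) :
    coeff a (ind S * fac a (-α) * fac b (-β)) = 1 + α := by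
  obtain ⟨K, L, e, -, h2, h3⟩ := dsplit S a b α β ha a0 hb b0
  rw [e, map_add, map_add, xp_zero h2 hab, coeff_X_pow_mul']
  simp [ind, ha, h3]

lemma dle (S : AddSubmonoid ℕ) (a b : ℕ) (α β : ℤ) (ha : a ∈ S) (a0 : 0 < a) (hb : b ∈ S)
    (b0 : 0 < b) (s : ℕ) (h1 : ¬ ∃ t ∈ S, a + t = s) (h2 : ¬ ∃ t ∈ S, b + t = s) :
    coeff s (ind S * fac a (-α) * fac b (-β)) ≤ 1 := by
  obtain ⟨K, L, e, k1, k2, -⟩ := dsplit S a b α β ha a0 hb b0
  rw [e, map_add, map_add, xp_zero k1 h1, xp_zero k2 h2]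
  simp only [ind, coeff_mk]
  split_ifs <;> simp

lemma mult_eq (u v : Polynomial ℤ) (k l : ℕ) (hv : v.eval 1 ≠ 0)
    (h : (1 - Polynomial.X) ^ k * u = (1 - Polynomial.X) ^ l * v) : k ≤ l := by
  by_contra hn
  obtain ⟨d, rfl⟩ : ∃ d, k = l + (d + 1) := ⟨k - l - 1, by omega⟩
  have h0 : (1 - Polynomial.X : Polynomial ℤ) ^ l ≠ 0 := by
    apply pow_ne_zero
    intro h
    simpa using congrArg (Polynomial.eval 0) h
  rw [pow_add, mul_assoc] at h
  have := congrArg (Polynomial.eval 1) (mul_left_cancel₀ h0 h)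
  simp at this
  exact hv this.symm

lemma polyid (S : AddSubmonoid ℕ) (hfin : (S : Set ℕ)ᶜ.Finite) {e : ℕ} (n : Fin e → ℕ)
    (hn : ∀ i, 2 ≤ n i) (a b α β : ℕ) (a0 : 0 < a) (b0 : 0 < b)
    (h : ind S * ∏ i, (1 - X ^ n i) = (1 - X ^ a) ^ α * (1 - X ^ b) ^ β) :
    (∀ i, n i ∣ a ∨ n i ∣ b) ∧ e = 1 + α + β := by
  classical
  let p : Polynomial ℤ := 1 - (1 - Polynomial.X) * ∑ g ∈ hfin.toFinset, Polynomial.X ^ g
  have e1 : ind S = geo 1 - ∑ g ∈ hfin.toFinset, X ^ g := by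
    ext m
    simp only [ind, geo, map_sub, map_sum, coeff_mk, coeff_X_pow, one_dvd, if_true,
      sum_ite_eq, Set.Finite.mem_toFinset, Set.mem_compl_iff, SetLike.mem_coe]
    split_ifs <;> simp
  have g := geo_mul one_pos
  rw [pow_one] at g
  have e2 : p * ∏ i, (1 - Polynomial.X ^ n i) =
      (1 - Polynomial.X) * ((1 - Polynomial.X ^ a) ^ α * (1 - Polynomial.X ^ b) ^ β) := by
    obtain ⟨φ, hi, hX⟩ : ∃ φ : Polynomial ℤ →+* ℤ⟦X⟧, Function.Injective φ ∧ φ Polynomial.X = X :=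
      ⟨Polynomial.coeToPowerSeries.ringHom, Polynomial.coe_injective ℤ, Polynomial.coe_X⟩
    apply hi
    simp only [p, map_mul, map_sub, map_one, map_sum, map_prod, map_pow, hX]
    rw [← h, e1]
    linear_combination (-∏ i, (1 - X ^ n i : ℤ⟦X⟧)) * g
  constructor
  · intro i
    have hz := Complex.isPrimitiveRoot_exp (n i) (by have := hn i; omega)
    generalize Complex.exp _ = ζ at hz
    have := congrArg (Polynomial.aeval ζ) e2
    simp only [map_mul, map_sub, map_one, map_prod, map_pow, Polynomial.aeval_X] at this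
    rw [prod_eq_zero (mem_univ i) (by rw [hz.pow_eq_one, sub_self]), mul_zero] at this
    rcases mul_eq_zero.1 this.symm with h1 | h1
    · exact absurd (sub_eq_zero.1 h1).symm (hz.ne_one (hn i))
    rcases mul_eq_zero.1 h1 with h2 | h2
    · exact Or.inl ((hz.pow_eq_one_iff_dvd _).1 (sub_eq_zero.1 (pow_eq_zero_iff'.1 h2).1).symm)
    · exact Or.inr ((hz.pow_eq_one_iff_dvd _).1 (sub_eq_zero.1 (pow_eq_zero_iff'.1 h2).1).symm)
  · simp only [← mul_neg_geom_sum, prod_mul_distrib, prod_const, card_univ, Fintype.card_fin,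
      mul_pow] at e2
    have e3 : (1 - Polynomial.X) ^ e * (p * ∏ i, ∑ k ∈ range (n i), Polynomial.X ^ k) =
        (1 - Polynomial.X) ^ (1 + α + β) * ((∑ k ∈ range a, Polynomial.X ^ k) ^ α *
          (∑ k ∈ range b, Polynomial.X ^ k) ^ β) := by
      linear_combination e2
    apply le_antisymm (mult_eq _ _ _ _ _ e3) (mult_eq _ _ _ _ _ e3.symm)
    · simp [Polynomial.eval_finsetSum, a0.ne', b0.ne']
    · simp only [p, Polynomial.eval_mul, Polynomial.eval_prod, Polynomial.eval_finsetSum]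
      simp [prod_eq_zero_iff]
      intro i
      have := hn i
      omega

end

end Pool.Agent.H71.Nse
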