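import Pool.Agent.H71.Nse3

set_option autoImplicit false

namespace Pool.Agent.H71.Nse

open PowerSeries Finset

noncomputable section

lemma sgl {e : ℕ} (n : Fin e → ℕ) (j : Fin e) (c : ℕ) :
    ∑ i, (Pi.single j c : Fin e → ℕ) i * n i = c * n j := by
  simp [Pi.single_apply]

lemma sgl_inj {e : ℕ} (n : Fin e → ℕ) (hn : ∀ i, 0 < n i) (a : ℕ) (a0 : 0 < a) :
    Set.InjOn (fun j => (Pi.single j (a / n j) : Fin e → ℕ))
      (univ.filter fun j => n j ∣ a : Finset (Fin e)) := by
  intro i hi j _ h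
  by_contra hne
  have h1 := congrFun h i
  have h2 : n i ∣ a := by simpa using hi
  have := Nat.div_pos (Nat.le_of_dvd a0 h2) (hn i)
  simp only [Pi.single_eq_same, Pi.single_eq_of_ne hne] at h1
  omega

lemma sgl_sub {e : ℕ} (n : Fin e → ℕ) (hn : ∀ i, 0 < n i) (a : ℕ) :
    (univ.filter fun j => n j ∣ a).image (fun j => (Pi.single j (a / n j) : Fin e → ℕ)) ⊆
      Z n (fun _ => Set.univ) a := by
  intro x hx
  obtain ⟨j, hj, rfl⟩ := mem_image.1 hx
  rw [mem_Z hn, sgl, Nat.div_mul_cancel (mem_filter.1 hj).2]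
  simp

lemma card_le_Z {e : ℕ} (n : Fin e → ℕ) (hn : ∀ i, 0 < n i) (a : ℕ) (a0 : 0 < a) :
    (univ.filter fun j => n j ∣ a).card ≤ (Z n (fun _ => Set.univ) a).card := by
  rw [← card_image_of_injOn (sgl_inj n hn a a0)]
  exact card_le_card (sgl_sub n hn a)

lemma core {e : ℕ} (n : Fin e → ℕ) (hn : ∀ i, 0 < n i) (S : AddSubmonoid ℕ) (hS : ∀ i, n i ∈ S)
    (a b α β : ℕ) (ha : a ∈ S) (a0 : 0 < a) (hb : b ∈ S) (b0 : 0 < b)
    (hab : ¬ ∃ t ∈ S, a + t = b)
    (hF : ∏ i, geo (n i) = ind S * fac a (-α) * fac b (-β))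
    (hor : ∀ i, n i ∣ a ∨ n i ∣ b) (hnd : ∀ i, n i ∣ a → ¬ n i ∣ b)
    (cA : (univ.filter fun j => n j ∣ a).card = α + 1)
    (cB : (univ.filter fun j => n j ∣ b).card = β) :
    ∃ ρ : Finset ((Fin e → ℕ) × (Fin e → ℕ)), Gen n ρ ∧ (∀ ρ', ρ' ⊂ ρ → ¬ Gen n ρ') ∧
      ρ.card = e - 1 := by
  classical
  have cz : ∀ s, ((Z n (fun _ => Set.univ) s).card : ℤ) =
      coeff s (ind S * fac a (-α) * fac b (-β)) := by
    intro s
    rw [← coeff_hs hn, ← hF]
    simp only [hs_univ]
  obtain ⟨j0, hj0⟩ : (univ.filter fun j => n j ∣ a).Nonempty := card_pos.1 (by omega)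
  have hj : n j0 ∣ a := (mem_filter.1 hj0).2
  have cb : (Z n (fun _ => Set.univ) b).card = 1 + β := by
    have := cz b
    rw [mul_right_comm, dc S b a β α hb b0 ha a0 hab] at this
    omega
  obtain ⟨u, u1, u2⟩ := exists_mem_notMem_of_card_lt_card
    (s := (univ.filter fun j => n j ∣ b).image (fun j => (Pi.single j (b / n j) : Fin e → ℕ)))
    (t := Z n (fun _ => Set.univ) b) (by have := card_image_le (s := univ.filter fun j => n j ∣ b) (f := fun j => (Pi.single j (b / n j) : Fin e → ℕ)); omega)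
  have u3 := ((mem_Z hn).1 u1).2
  have u4 : ∀ j, n j ∣ b → u j = 0 := by
    intro j hjb
    by_contra hu
    have q0 := Nat.div_pos (Nat.le_of_dvd b0 hjb) (hn j)
    have q1 := Nat.div_mul_cancel hjb
    obtain ⟨q, hq⟩ : ∃ q, b / n j = q + 1 := ⟨b / n j - 1, by omega⟩
    obtain ⟨d, rfl⟩ : ∃ d : Fin e → ℕ, u = d + (Pi.single j 1 : Fin e → ℕ) := by
      refine ⟨fun i => u i - (Pi.single j 1 : Fin e → ℕ) i, ?_⟩
      funext i
      show u i = u i - (Pi.single j 1 : Fin e → ℕ) i + (Pi.single j 1 : Fin e → ℕ) i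
      simp only [Pi.single_apply]
      split_ifs with h
      · subst h; omega
      · omega
    simp only [Pi.add_apply, add_mul, sum_add_distrib, sgl] at u3
    rw [hq, add_mul] at q1
    have hle := dle S a b α β ha a0 hb b0 (q * n j)
      (fun ⟨t, ht, h⟩ => hab ⟨t + n j, S.add_mem ht (hS j), by omega⟩)
      (fun ⟨t, _, h⟩ => by have := hn j; omega)
    rw [← cz] at hle
    have hle' : (Z n (fun _ => Set.univ) (q * n j)).card ≤ 1 := by exact_mod_cast hle
    have h2 : d = Pi.single j q := card_le_one.1 hle' d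
      ((mem_Z hn).2 ⟨fun _ => trivial, by omega⟩) _ ((mem_Z hn).2 ⟨fun _ => trivial, sgl n j q⟩)
    refine u2 (mem_image.2 ⟨j, by simpa using hjb, ?_⟩)
    rw [h2, hq, Pi.single_add]
  let m : Fin e → ℕ := fun j => if n j ∣ a then a / n j else b / n j
  have hm : ∀ j, m j * n j = if n j ∣ a then a else b := by
    intro j
    simp only [m]
    split_ifs with h
    · exact Nat.div_mul_cancel h
    · exact Nat.div_mul_cancel ((hor j).resolve_left h)
  have m0 : ∀ j, 0 < m j := by
    intro j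
    have := hm j
    by_contra h
    rw [show m j = 0 by omega] at this
    split_ifs at this <;> omega
  apply pres n hn j0 m (fun j => if j = j0 then 0 else if n j ∣ a then 1 else b + 1)
    (fun j => if n j ∣ a then Pi.single j0 (a / n j0) else u)
  · intro j _
    rw [hm]
    split_ifs with h
    · rw [sgl, Nat.div_mul_cancel hj]
    · exact u3
  · intro j hne
    have := m0 j
    rw [if_neg hne]
    by_cases h : n j ∣ a
    · simp only [if_pos h, sgl, if_true]
      omega
    · simp only [if_neg h]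
      have : ∑ i, u i * (if i = j0 then 0 else if n i ∣ a then 1 else b + 1) ≤ ∑ i, u i * n i := by
        apply sum_le_sum
        intro i _
        split_ifs with h1 h2
        · omega
        · exact Nat.mul_le_mul_left _ (hn i)
        · rw [u4 i ((hor i).resolve_left h2)]; omega
      nlinarith
  · intro x y hx hy hxy
    let C : Fin e → Set ℕ := fun j => if j = j0 then Set.univ else {c | c < m j}
    have hP : ∏ i, hs (C i) (n i) = ind S := by
      have e1 : ∀ i, hs (C i) (n i) = (if i = j0 then 1 else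
          if n i ∣ a then (1 - X ^ a) else (1 - X ^ b)) * geo (n i) := by
        intro i
        simp only [C]
        split_ifs with h1 h2
        · rw [hs_univ, one_mul]
        · rw [hs_lt (hn i), hm, if_pos h2]
        · rw [hs_lt (hn i), hm, if_neg h2]
      have e2 : ∏ i, (if i = j0 then 1 else
          if n i ∣ a then (1 - X ^ a) else (1 - X ^ b) : ℤ⟦X⟧) = fac a α * fac b β := by
        rw [← mul_prod_erase univ _ (mem_univ j0), if_pos rfl, one_mul,
          prod_congr rfl (fun i hi => if_neg (ne_of_mem_erase hi)), prod_ite, prod_const, prod_const,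
          fac_nat, fac_nat, filter_erase, card_erase_of_mem hj0, cA, ← cB]
        congr 3
        ext i
        have h1 := hor i
        have h2 := hnd i
        by_cases h : i = j0
        · subst h; simp [hj, h2 hj]
        · simp only [mem_filter, mem_erase, mem_univ, ne_eq, h, not_false_eq_true, true_and]
          tauto
      simp only [e1]
      rw [prod_mul_distrib, e2, hF]
      linear_combination (ind S * (fac b β * fac b (-β))) * fac_neg a0 α + ind S * fac_neg b0 β
    have h1 := coeff_hs hn C (∑ i, x i * n i)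
    rw [hP] at h1
    have h2 : (Z n C (∑ i, x i * n i)).card ≤ 1 := by
      simp only [ind, coeff_mk] at h1
      split_ifs at h1 <;> omega
    have h3 : ∀ z : Fin e → ℕ, (∀ j, j ≠ j0 → z j < m j) → ∀ i, z i ∈ C i := by
      intro z hz i
      simp only [C]
      split_ifs with h
      · trivial
      · exact hz i h
    exact card_le_one.1 h2 x ((mem_Z hn).2 ⟨h3 x hx, rfl⟩) y ((mem_Z hn).2 ⟨h3 y hy, hxy.symm⟩)

theorem main {e : ℕ} (n : Fin e → ℕ) (hinj : Function.Injective n) (S : AddSubmonoid ℕ)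
    (hfin : (S : Set ℕ)ᶜ.Finite) (hcl : AddSubmonoid.closure (Set.range n) = S)
    (hmin : ∀ i, n i ∉ AddSubmonoid.closure (Set.range n \ {n i})) (ex : ℕ → ℤ)
    (hex : ∀ N M, N ≤ M → coeff N (∏ j ∈ Icc 1 M, fac j (ex j)) = coeff N ((1 - X) * ind S))
    (a b : ℕ) (hE : {d | 2 ≤ d ∧ ex d ≠ 0 ∧ d ∉ Set.range n} = {a, b})
    (hab : ¬ ∃ t ∈ S, a + t = b) (hba : ¬ ∃ t ∈ S, b + t = a) :
    ∃ ρ : Finset ((Fin e → ℕ) × (Fin e → ℕ)), Gen n ρ ∧ (∀ ρ', ρ' ⊂ ρ → ¬ Gen n ρ') ∧
      ρ.card = e - 1 := by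
  classical
  have hS : ∀ i, n i ∈ S := fun i => hcl ▸ AddSubmonoid.subset_closure ⟨i, rfl⟩
  have cmp : ∀ k ∈ S, k ∣ a → k ∣ b → False := by
    rintro k hk ⟨p, rfl⟩ ⟨q, rfl⟩
    rcases le_total p q with h | h
    · obtain ⟨d, rfl⟩ := Nat.exists_eq_add_of_le h
      exact hab ⟨d • k, S.nsmul_mem hk d, by rw [smul_eq_mul]; ring⟩
    · obtain ⟨d, rfl⟩ := Nat.exists_eq_add_of_le h
      exact hba ⟨d • k, S.nsmul_mem hk d, by rw [smul_eq_mul]; ring⟩
  have h1 : 1 ∉ S := fun h => cmp 1 h (one_dvd _) (one_dvd _)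
  have hn2 : ∀ i, 2 ≤ n i := by
    intro i
    have a1 : n i ≠ 0 := fun h => hmin i (h ▸ AddSubmonoid.zero_mem _)
    have a2 : n i ≠ 1 := fun h => h1 (h ▸ hS i)
    omega
  have hn : ∀ i, 0 < n i := fun i => by have := hn2 i; omega
  have hx := exps S h1 ex hex
  have g0 := gap_zero S ex hx
  have hA : 2 ≤ a ∧ ex a ≠ 0 ∧ a ∉ Set.range n := by
    have : a ∈ ({a, b} : Set ℕ) := by simp
    rwa [← hE] at this
  have hB : 2 ≤ b ∧ ex b ≠ 0 ∧ b ∉ Set.range n := by
    have : b ∈ ({a, b} : Set ℕ) := by simp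
    rwa [← hE] at this
  have ha : a ∈ S := by by_contra h; exact hA.2.1 (g0 a hA.1 h)
  have hb : b ∈ S := by by_contra h; exact hB.2.1 (g0 b hB.1 h)
  have a0 : 0 < a := by omega
  have b0 : 0 < b := by omega
  have hne : a ≠ b := fun h => hab ⟨0, S.zero_mem, h⟩
  have hg : ∀ i, ex (n i) = -1 := by
    intro i
    rw [step S ex hx (n i) (hn2 i) (fun j _ => g0 j) fun h => hmin i ?_]
    · simp [ind, hS i]
    · refine (AddSubmonoid.closure_le.2 ?_ : AddSubmonoid.closure _ ≤ _) h
      rintro s ⟨s1, s2⟩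
      rw [← hcl, AddSubmonoid.mem_closure_range_iff_of_fintype] at s1
      obtain ⟨c, rfl⟩ := s1
      refine AddSubmonoid.sum_mem _ fun k _ => ?_
      by_cases hc : c k = 0
      · rw [hc, zero_smul]; exact AddSubmonoid.zero_mem _
      refine AddSubmonoid.nsmul_mem _ (AddSubmonoid.subset_closure
        (show n k ∈ Set.range n \ {n i} from ⟨⟨k, rfl⟩, fun hk => ?_⟩)) _
      have h2 : c k • n k ≤ ∑ k, c k • n k := single_le_sum (f := fun k => c k • n k)
        (fun _ _ => Nat.zero_le _) (mem_univ k)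
      have h3 : n k = n i := hk
      have := Nat.le_mul_of_pos_left (n k) (Nat.pos_of_ne_zero hc)
      rw [smul_eq_mul] at h2
      omega
  have hH : ind S = fac a (ex a) * (fac b (ex b) * ∏ i, geo (n i)) := by
    ext N
    rw [← hx N (N + a + b + ∑ i, n i) (by omega) (by omega)]
    congr 1
    rw [← prod_subset (s₁ := insert a (insert b (univ.image n)))]
    · rw [prod_insert, prod_insert, prod_image fun i _ j _ h => hinj h]
      · simp only [hg, fac_m1]
      · simpa using hB.2.2
      · simpa [hne] using hA.2.2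
    · intro j hj
      simp only [mem_insert, mem_image, mem_univ, true_and] at hj
      rw [mem_Icc]
      rcases hj with rfl | rfl | ⟨i, rfl⟩
      · omega
      · omega
      · have := single_le_sum (f := n) (fun _ _ => Nat.zero_le _) (mem_univ i)
        have := hn2 i
        omega
    · intro j hj hj2
      by_contra h
      have : j ∈ ({a, b} : Set ℕ) := by
        rw [← hE]
        exact ⟨(mem_Icc.1 hj).1, fun h0 => h (by rw [h0, fac_zero]),
          fun ⟨i, hi⟩ => hj2 (by simp [← hi])⟩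
      rcases this with rfl | rfl <;> simp at hj2
  have hF : ∏ i, geo (n i) = ind S * fac a (-ex a) * fac b (-ex b) := by
    rw [hH]
    linear_combination (-(∏ i, geo (n i)) * (fac b (ex b) * fac b (-ex b))) * fac_neg a0 (ex a) -
      (∏ i, geo (n i)) * fac_neg b0 (ex b)
  have cz : ∀ s, ((Z n (fun _ => Set.univ) s).card : ℤ) = coeff s (∏ i, geo (n i)) := by
    intro s
    rw [← coeff_hs hn]
    simp only [hs_univ]
  have z1 : ∀ s ∈ S, 0 < (Z n (fun _ => Set.univ) s).card := by
    intro s hs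
    rw [← hcl, AddSubmonoid.mem_closure_range_iff_of_fintype] at hs
    obtain ⟨c, rfl⟩ := hs
    exact card_pos.2 ⟨c, (mem_Z hn).2 ⟨fun _ => trivial, rfl⟩⟩
  have ca := cz a
  have cb := cz b
  rw [hF, dc S a b _ _ ha a0 hb b0 hba] at ca
  rw [hF, mul_right_comm, dc S b a _ _ hb b0 ha a0 hab] at cb
  obtain ⟨α, hα⟩ := Int.eq_ofNat_of_zero_le (show 0 ≤ ex a by have := z1 a ha; omega)
  obtain ⟨β, hβ⟩ := Int.eq_ofNat_of_zero_le (show 0 ≤ ex b by have := z1 b hb; omega)
  rw [hα, hβ] at hF hH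
  obtain ⟨hor, he⟩ := polyid S hfin n hn2 a b α β a0 b0 (by
    rw [hH, fac_nat, fac_nat, mul_assoc, mul_assoc, ← prod_mul_distrib,
      prod_eq_one fun i _ => by rw [mul_comm, geo_mul (hn i)], mul_one])
  have hnd : ∀ i, n i ∣ a → ¬ n i ∣ b := fun i => cmp _ (hS i)
  have l1 := card_le_Z n hn a a0
  have l2 := card_le_Z n hn b b0
  have l3 : (univ.filter fun j => n j ∣ a).card + (univ.filter fun j => n j ∣ b).card = e := by
    have := card_filter_add_card_filter_not (s := univ) (fun j => n j ∣ a)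
    rw [card_univ, Fintype.card_fin] at this
    refine Eq.trans ?_ this
    congr 2
    ext i
    have h1 := hor i
    have h2 := hnd i
    simp only [mem_filter, mem_univ, true_and]
    tauto
  by_cases hc : (univ.filter fun j => n j ∣ a).card = α + 1
  · exact core n hn S hS a b α β ha a0 hb b0 hab hF hor hnd hc (by omega)
  · exact core n hn S hS b a β α hb b0 ha a0 hba (by rw [hF, mul_right_comm])
      (fun i => (hor i).symm) (fun i h1 h2 => hnd i h2 h1) (by omega) (by omega)

end

end Pool.Agent.H71.Nse
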