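import Mathlib

set_option autoImplicit false
set_option backward.isDefEq.respectTransparency false

namespace Pool.Agent.H71.PD3

open CategoryTheory Matrix

variable {k G : Type} [CommRing k] [Group G]

variable (k G) in
abbrev R : Type := MonoidAlgebra k G

theorem rext {A B : Rep k G} {f g : A ⟶ B} (h : ∀ v, f.hom v = g.hom v) : f = g :=
  Rep.hom_ext (Representation.IntertwiningMap.ext (LinearMap.ext h))

variable (k G) in
/-- free module of finite rank as a representation -/
noncomputable abbrev F (n : ℕ) : Rep k G :=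
  Rep.of (Representation.ofModule' (k := k) (G := G) (Fin n → R k G))

theorem F_alg (n : ℕ) (r : R k G) (v : Fin n → R k G) :
    (F k G n).ρ.asAlgebraHom r v = r • v := by
  simp [Representation.ofModule', Representation.asAlgebraHom]

theorem F_ρ (n : ℕ) (g : G) (v : Fin n → R k G) :
    (F k G n).ρ g v = MonoidAlgebra.of k G g • v := by
  rw [← F_alg, Representation.asAlgebraHom_of]

/-- a module map as a map of representations -/
noncomputable def hm {n m : ℕ} (f : (Fin n → R k G) →ₗ[R k G] (Fin m → R k G)) :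
    F k G n ⟶ F k G m :=
  Rep.ofHom ⟨f.restrictScalars k, fun g => LinearMap.ext fun v => by
    change f ((F k G n).ρ g v) = (F k G m).ρ g (f v)
    rw [F_ρ, F_ρ, map_smul]⟩

/-- the map determined by values on the basis -/
noncomputable def lift {n : ℕ} (A : Rep k G) (y : Fin n → A) : F k G n ⟶ A :=
  Rep.ofHom ⟨∑ i, ((LinearMap.applyₗ (y i)).comp A.ρ.asAlgebraHom.toLinearMap).comp
    (LinearMap.proj i), fun g => LinearMap.ext fun v => by
    simp only [LinearMap.comp_apply]
    rw [F_ρ]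
    simp [LinearMap.sum_apply, map_sum]⟩

theorem lift_apply {n : ℕ} (A : Rep k G) (y : Fin n → A) (v : Fin n → R k G) :
    (lift A y).hom v = ∑ i, A.ρ.asAlgebraHom (v i) (y i) := by
  change (∑ i, ((LinearMap.applyₗ (y i)).comp A.ρ.asAlgebraHom.toLinearMap).comp
    (LinearMap.proj i) : (Fin n → R k G) →ₗ[k] A) v = _
  simp [LinearMap.sum_apply]

theorem hom_alg {A B : Rep k G} (f : A ⟶ B) (r : R k G) (x : A) :
    f.hom (A.ρ.asAlgebraHom r x) = B.ρ.asAlgebraHom r (f.hom x) :=
  Rep.to_Module_monoidAlgebra_map_aux _ _ A.ρ B.ρ f.hom.toLinearMap f.hom.2 r x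

theorem hom_eq {n : ℕ} {A : Rep k G} (φ : F k G n ⟶ A) (v : Fin n → R k G) :
    φ.hom v = ∑ i, A.ρ.asAlgebraHom (v i) (φ.hom (Pi.single i 1 : Fin n → R k G)) := by
  rw [← Finset.sum_congr rfl fun i _ => hom_alg φ (v i) _, ← map_sum]
  congr 1
  rw [Finset.sum_congr rfl fun i _ => F_alg n (v i) _]
  ext1 j
  simp [Finset.sum_apply, Pi.single_apply]

instance proj (n : ℕ) : Projective (F k G n) := ⟨fun {E X} f e he => by
  choose y hy using fun i : Fin n =>
    (Rep.epi_iff_surjective e).1 he (f.hom (Pi.single i 1 : Fin n → R k G))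
  refine ⟨lift E y, ?_⟩
  refine rext fun v => ?_
  change e.hom ((lift E y).hom v) = f.hom v
  rw [lift_apply, map_sum, hom_eq f]
  simp only [hom_alg, hy]⟩

theorem lift_reg {n : ℕ} (y v : Fin n → R k G) :
    (lift (Rep.ofMulAction k G G) y).hom v = v ⬝ᵥ y := by
  rw [lift_apply]
  simp only [Representation.asAlgebraHom_ofMulAction_smul_eq_mul]
  rfl

theorem exists_lift {n : ℕ} (φ : F k G n ⟶ Rep.ofMulAction k G G) :
    ∃ y : Fin n → R k G, φ = lift (Rep.ofMulAction k G G) y := by
  refine ⟨fun i => φ.hom (Pi.single i 1 : Fin n → R k G), ?_⟩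
  refine rext fun v => ?_
  exact (hom_eq φ v).trans (lift_apply _ _ v).symm

theorem lift_inj {n : ℕ} {y z : Fin n → R k G}
    (h : lift (Rep.ofMulAction k G G) y = lift (Rep.ofMulAction k G G) z) : y = z := by
  ext1 i
  have := congrArg (fun φ => φ.hom (Pi.single i 1 : Fin n → R k G)) h
  rwa [lift_reg, lift_reg, single_one_dotProduct, single_one_dotProduct] at this

theorem lift_zero {n : ℕ} : lift (Rep.ofMulAction k G G) (0 : Fin n → R k G) = 0 := by
  refine rext fun v => ?_
  exact (lift_reg _ v).trans (dotProduct_zero _)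

theorem hm_lift {n l : ℕ} (M : Matrix (Fin n) (Fin l) (R k G)) (y : Fin l → R k G) :
    hm M.vecMulLinear ≫ lift (Rep.ofMulAction k G G) y =
      lift (Rep.ofMulAction k G G) (M *ᵥ y) := by
  refine rext fun v => ?_
  exact ((lift_reg y (v ᵥ* M)).trans (dotProduct_mulVec _ _ _).symm).trans (lift_reg _ v).symm

section
variable (m : ℕ → ℕ) (D : ∀ i, Matrix (Fin (m (i + 1))) (Fin (m i)) (R k G))
  (ε : (Fin (m 0) → R k G) →ₗ[k] k)
  (h1 : ∀ (g : G) x, ε (MonoidAlgebra.of k G g • x) = ε x) (h2 : Function.Surjective ε)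
  (h3 : ∀ x, x ∈ LinearMap.range (D 0).vecMulLinear ↔ ε x = 0)
  (h4 : ∀ i, LinearMap.range (D (i + 1)).vecMulLinear = LinearMap.ker (D i).vecMulLinear)

/-- the complex -/
noncomputable def cx : ChainComplex (Rep k G) ℕ :=
  ChainComplex.of (fun i => F k G (m i)) (fun i => hm (D i).vecMulLinear) fun i => by
    refine rext fun v => ?_
    exact (h4 i).le ⟨v, rfl⟩

theorem cx_d (i : ℕ) : (cx m D h4).d (i + 1) i = hm (D i).vecMulLinear :=
  ChainComplex.of_d (fun i => F k G (m i)) (fun i => hm (D i).vecMulLinear) i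

theorem cx_lift (i : ℕ) (y : Fin (m i) → R k G) :
    (cx m D h4).d (i + 1) i ≫ lift (Rep.ofMulAction k G G) y =
      lift (Rep.ofMulAction k G G) (D i *ᵥ y) := by
  rw [cx_d]
  exact hm_lift _ _

/-- augmentation -/
noncomputable def aug : F k G (m 0) ⟶ Rep.trivial k G k :=
  Rep.ofHom ⟨ε, fun g => LinearMap.ext fun v => by
    change ε ((F k G (m 0)).ρ g v) = ε v
    rw [F_ρ, h1]⟩

/-- augmentation of complexes -/
noncomputable def π : cx m D h4 ⟶ (ChainComplex.single₀ (Rep k G)).obj (Rep.trivial k G k) :=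
  ((cx m D h4).toSingle₀Equiv _).symm ⟨aug m ε h1, by
    rw [cx_d]
    refine rext fun v => ?_
    exact (h3 _).1 ⟨v, rfl⟩⟩

include h2 in
theorem qi : QuasiIso (π m D ε h1 h3 h4) where
  quasiIsoAt n := by
    induction n with
    | zero =>
      simp only [π]
      rw [ChainComplex.quasiIsoAt₀_iff, ShortComplex.quasiIso_iff_of_zeros' _ rfl rfl rfl]
      constructor
      · apply (forget₂ _ (ModuleCat k)).reflects_exact_of_faithful
        rw [ShortComplex.moduleCat_exact_iff]
        intro x hx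
        have : ε x = 0 := by simpa [ChainComplex.toSingle₀Equiv] using! hx
        obtain ⟨y, hy⟩ := (h3 x).2 this
        refine ⟨y, ?_⟩
        have e := cx_d m D h4 0
        change ((cx m D h4).d (0 + 1) 0).hom y = x
        rw [e]
        exact hy
      · rw [Rep.epi_iff_surjective]
        intro x
        obtain ⟨y, hy⟩ := h2 x
        exact ⟨y, by simpa [ChainComplex.toSingle₀Equiv] using! hy⟩
    | succ n _ =>
      rw [quasiIsoAt_iff_exactAt' (hL := ChainComplex.exactAt_succ_single_obj ..),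
          HomologicalComplex.exactAt_iff' _ (n + 2) (n + 1) n (by simp) (by simp)]
      apply (forget₂ _ (ModuleCat k)).reflects_exact_of_faithful
      rw [ShortComplex.moduleCat_exact_iff]
      intro x hx
      change ((cx m D h4).d (n + 1) n).hom x = 0 at hx
      rw [cx_d] at hx
      obtain ⟨y, hy⟩ := (h4 n).ge hx
      refine ⟨y, ?_⟩
      change ((cx m D h4).d (n + 1 + 1) (n + 1)).hom y = x
      rw [cx_d]
      exact hy

/-- the resolution -/
noncomputable def res : ProjectiveResolution (Rep.trivial k G k) where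
  complex := cx m D h4
  projective n := proj (m n)
  π := π m D ε h1 h3 h4
  quasiIso := qi m D ε h1 h2 h3 h4

include h1 h2 h3 h4

theorem vanish_of (A : Rep k G) (i j l : ℕ) (hi : (ComplexShape.up ℕ).prev j = i)
    (hk : (ComplexShape.up ℕ).next j = l)
    (h : ∀ φ : F k G (m j) ⟶ A, (cx m D h4).d l j ≫ φ = 0 →
      ∃ ψ : F k G (m i) ⟶ A, (cx m D h4).d j i ≫ ψ = φ) : Subsingleton (groupCohomology A j) := by
  rw [← ModuleCat.isZero_iff_subsingleton]
  refine Limits.IsZero.of_iso ?_ (groupCohomologyIso A j (res m D ε h1 h2 h3 h4))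
  rw [← HomologicalComplex.exactAt_iff_isZero_homology,
    HomologicalComplex.exactAt_iff' _ i j l hi hk, ShortComplex.moduleCat_exact_iff]
  exact h

theorem vanish_top (A : Rep k G) (j : ℕ) (hj : m (j + 1) = 0) :
    Subsingleton (groupCohomology A (j + 1)) := by
  refine vanish_of m D ε h1 h2 h3 h4 A j (j + 1) (j + 2) (by simp) (by simp) fun φ _ => ⟨0, ?_⟩
  refine rext fun v => ?_
  have : IsEmpty (Fin (m (j + 1))) := by rw [hj]; infer_instance
  have hv : v = 0 := Subsingleton.elim (α := Fin (m (j + 1)) → R k G) _ _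
  rw [hv, map_zero, map_zero]

theorem vanish_zero (h : ∀ y, D 0 *ᵥ y = 0 → y = 0) :
    Subsingleton (groupCohomology (Rep.ofMulAction k G G) 0) := by
  refine vanish_of m D ε h1 h2 h3 h4 _ 0 0 1 (by simp) (by simp) fun φ hφ => ⟨0, ?_⟩
  obtain ⟨y, rfl⟩ := exists_lift φ
  have := (cx_lift m D h4 0 y).symm.trans (hφ.trans lift_zero.symm)
  rw [h y (lift_inj this), lift_zero, Limits.comp_zero]

theorem vanish_succ (i : ℕ) (h : ∀ y, D (i + 1) *ᵥ y = 0 → ∃ z, D i *ᵥ z = y) :
    Subsingleton (groupCohomology (Rep.ofMulAction k G G) (i + 1)) := by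
  refine vanish_of m D ε h1 h2 h3 h4 _ i (i + 1) (i + 1 + 1) (by simp) (by simp) fun φ hφ => ?_
  obtain ⟨y, rfl⟩ := exists_lift φ
  have := (cx_lift m D h4 _ y).symm.trans (hφ.trans lift_zero.symm)
  obtain ⟨z, rfl⟩ := h y (lift_inj this)
  exact ⟨lift (Rep.ofMulAction k G G) z, cx_lift m D h4 _ z⟩

theorem top_iso (i : ℕ) (h0 : D (i + 1) = 0) (η : (Fin (m (i + 1)) → R k G) →ₗ[k] k)
    (hη : Function.Surjective η) (h : ∀ y, η y = 0 ↔ ∃ z, D i *ᵥ z = y) :
    Nonempty (groupCohomology (Rep.ofMulAction k G G) (i + 1) ≃+ k) := by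
  let K := (cx m D h4).linearYonedaObj k (Rep.ofMulAction k G G)
  let S := K.sc' i (i + 1) (i + 1 + 1)
  let ev : (F k G (m (i + 1)) ⟶ Rep.ofMulAction k G G) →ₗ[k] (Fin (m (i + 1)) → R k G) :=
    { toFun := fun φ j => φ.hom (Pi.single j 1 : Fin (m (i + 1)) → R k G)
      map_smul' := fun _ _ => rfl
      map_add' := fun _ _ => rfl }
  have hev : ∀ y : Fin (m (i + 1)) → R k G, ev (lift (Rep.ofMulAction k G G) y) = y := by
    intro y
    ext1 j
    exact (lift_reg _ _).trans (single_one_dotProduct _ _)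
  let p : S.X₂ ⟶ ModuleCat.of k k := ModuleCat.ofHom (η.comp ev)
  have hf : ∀ z : Fin (m i) → R k G, S.f (lift (Rep.ofMulAction k G G) z) =
      lift (Rep.ofMulAction k G G) (D i *ᵥ z) := fun z => cx_lift m D h4 i z
  have hfp : S.f ≫ p = 0 := by
    ext φ
    obtain ⟨z, rfl⟩ := exists_lift φ
    change η (ev (S.f _)) = 0
    rw [hf, hev]
    exact (h _).2 ⟨z, rfl⟩
  have hg : S.g = 0 := by
    ext φ
    obtain ⟨z, rfl⟩ := exists_lift φ
    refine (cx_lift m D h4 (i + 1) z).trans ?_
    rw [h0, zero_mulVec, lift_zero]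
    rfl
  have hex : (ShortComplex.mk S.f p hfp).Exact := by
    rw [ShortComplex.moduleCat_exact_iff]
    intro φ hφ
    obtain ⟨y, rfl⟩ := exists_lift φ
    change η (ev _) = 0 at hφ
    rw [hev] at hφ
    obtain ⟨z, rfl⟩ := (h y).1 hφ
    exact ⟨_, hf z⟩
  have : Epi (ShortComplex.mk S.f p hfp).g := (ModuleCat.epi_iff_surjective p).2 fun x => by
    obtain ⟨y, rfl⟩ := hη x
    exact ⟨lift (Rep.ofMulAction k G G) y, congrArg η (hev y)⟩
  let e := groupCohomologyIso _ (i + 1) (res m D ε h1 h2 h3 h4) ≪≫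
    K.homologyIsoSc' i (i + 1) (i + 1 + 1) (by simp) (by simp) ≪≫
    (ShortComplex.LeftHomologyData.ofIsColimitCokernelCofork S hg _ hex.gIsCokernel).homologyIso
  exact ⟨e.toLinearEquiv.toAddEquiv⟩

end

end Pool.Agent.H71.PD3
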