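import Mathlib

set_option autoImplicit false

namespace Pool.Agent.H71.PD3

variable {G : Type} [Group G]

/-- group elements in the group ring -/
noncomputable abbrev o (g : G) : MonoidAlgebra ℤ G := MonoidAlgebra.of ℤ G g

theorem cancelL {g : G} (hg : ∀ n : ℕ, g ^ n = 1 → n = 0) {a : MonoidAlgebra ℤ G}
    (h : a * (o g - 1) = 0) : a = 0 := by
  rw [mul_sub, mul_one, sub_eq_zero] at h
  have h1 : ∀ n : ℕ, a * o (g ^ n) = a := by
    intro n
    induction n with
    | zero => simp [← MonoidAlgebra.one_def]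
    | succ n ih => rw [pow_succ, o, map_mul, ← mul_assoc, ih, h]
  ext x
  by_contra hx
  have hinj : Function.Injective fun n : ℕ => x * g ^ n := fun n m e =>
    (injective_pow_iff_not_isOfFinOrder.2 fun hf => by
      obtain ⟨n, hn, e⟩ := isOfFinOrder_iff_pow_eq_one.1 hf
      exact hn.ne' (hg n e)) (mul_left_cancel e)
  refine Set.infinite_range_of_injective hinj (a.coeff.support.finite_toSet.subset ?_)
  rintro _ ⟨n, rfl⟩
  rw [Finset.mem_coe, Finsupp.mem_support_iff, ← h1 n]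
  simpa using hx

theorem cancelR {g : G} (hg : ∀ n : ℕ, g ^ n = 1 → n = 0) {a : MonoidAlgebra ℤ G}
    (h : (o g - 1) * a = 0) : a = 0 := by
  rw [sub_mul, one_mul, sub_eq_zero] at h
  have h1 : ∀ n : ℕ, o (g ^ n) * a = a := by
    intro n
    induction n with
    | zero => simp [← MonoidAlgebra.one_def]
    | succ n ih => rw [pow_succ', o, map_mul, mul_assoc, ih, h]
  ext x
  by_contra hx
  have hinj : Function.Injective fun n : ℕ => g ^ n * x := fun n m e =>
    (injective_pow_iff_not_isOfFinOrder.2 fun hf => by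
      obtain ⟨n, hn, e⟩ := isOfFinOrder_iff_pow_eq_one.1 hf
      exact hn.ne' (hg n e)) (mul_right_cancel e)
  refine Set.infinite_range_of_injective hinj (a.coeff.support.finite_toSet.subset ?_)
  rintro _ ⟨n, rfl⟩
  rw [Finset.mem_coe, Finsupp.mem_support_iff, ← h1 n]
  simpa using hx

/-- projection to the group ring of a quotient -/
noncomputable def pr (K : Subgroup G) [K.Normal] : MonoidAlgebra ℤ G →ₐ[ℤ] MonoidAlgebra ℤ (G ⧸ K) :=
  MonoidAlgebra.lift ℤ _ G ((MonoidAlgebra.of ℤ (G ⧸ K)).comp (QuotientGroup.mk' K))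

theorem pr_o (K : Subgroup G) [K.Normal] (g : G) : pr K (o g) = o (g : G ⧸ K) :=
  MonoidAlgebra.lift_of _ _

theorem pr_gen (K : Subgroup G) [K.Normal] {g : G} (hg : g ∈ K) : pr K (o g - 1) = 0 := by
  rw [map_sub, pr_o, (QuotientGroup.eq_one_iff g).2 hg, map_one, o, map_one, sub_self]

theorem ker_sub (K : Subgroup G) [K.Normal] (J : AddSubgroup (MonoidAlgebra ℤ G))
    (hJ : ∀ g g' : G, (g : G ⧸ K) = g' → o g - o g' ∈ J) (r : MonoidAlgebra ℤ G)
    (hr : pr K r = 0) : r ∈ J := by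
  have : r - MonoidAlgebra.mapDomain Quotient.out (pr K r) ∈ J := by
    clear hr
    induction r using MonoidAlgebra.induction_on with
    | of g =>
      rw [pr_o]
      change o g - MonoidAlgebra.mapDomain _ (MonoidAlgebra.single _ 1) ∈ J
      rw [MonoidAlgebra.mapDomain_single]
      exact hJ _ _ (QuotientGroup.out_eq' _).symm
    | add a b ha hb =>
      rw [map_add, MonoidAlgebra.mapDomain_add, add_sub_add_comm]
      exact add_mem ha hb
    | smul c a ha =>
      rw [map_smul, MonoidAlgebra.mapDomain_smul, ← smul_sub]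
      exact zsmul_mem ha c
  rwa [hr, MonoidAlgebra.mapDomain_zero, sub_zero] at this

/-- left ideal on three generators -/
def JL (u v w : G) : AddSubgroup (MonoidAlgebra ℤ G) where
  carrier := {r | ∃ a b c, r = a * (o u - 1) + b * (o v - 1) + c * (o w - 1)}
  add_mem' := by
    rintro _ _ ⟨a, b, c, rfl⟩ ⟨a', b', c', rfl⟩
    exact ⟨a + a', b + b', c + c', by noncomm_ring⟩
  zero_mem' := ⟨0, 0, 0, by simp⟩
  neg_mem' := by
    rintro _ ⟨a, b, c, rfl⟩
    exact ⟨-a, -b, -c, by noncomm_ring⟩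

/-- right ideal on three generators -/
def JR (u v w : G) : AddSubgroup (MonoidAlgebra ℤ G) where
  carrier := {r | ∃ a b c, r = (o u - 1) * a + (o v - 1) * b + (o w - 1) * c}
  add_mem' := by
    rintro _ _ ⟨a, b, c, rfl⟩ ⟨a', b', c', rfl⟩
    exact ⟨a + a', b + b', c + c', by noncomm_ring⟩
  zero_mem' := ⟨0, 0, 0, by simp⟩
  neg_mem' := by
    rintro _ ⟨a, b, c, rfl⟩
    exact ⟨-a, -b, -c, by noncomm_ring⟩

theorem JL_mul {u v w : G} (s : MonoidAlgebra ℤ G) {r : MonoidAlgebra ℤ G} (h : r ∈ JL u v w) :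
    s * r ∈ JL u v w := by
  obtain ⟨a, b, c, rfl⟩ := h
  exact ⟨s * a, s * b, s * c, by noncomm_ring⟩

theorem JR_mul {u v w : G} (s : MonoidAlgebra ℤ G) {r : MonoidAlgebra ℤ G} (h : r ∈ JR u v w) :
    r * s ∈ JR u v w := by
  obtain ⟨a, b, c, rfl⟩ := h
  exact ⟨a * s, b * s, c * s, by noncomm_ring⟩

theorem JL_gen {u v w g : G} (h : g ∈ Subgroup.closure {u, v, w}) : o g - 1 ∈ JL u v w := by
  induction h using Subgroup.closure_induction with
  | mem g hg =>
    rcases hg with rfl | rfl | rfl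
    · exact ⟨1, 0, 0, by simp⟩
    · exact ⟨0, 1, 0, by simp⟩
    · exact ⟨0, 0, 1, by simp⟩
  | one => rw [o, map_one, sub_self]; exact zero_mem _
  | mul g h _ _ hg hh =>
    have := add_mem (JL_mul (o g) hh) hg
    rwa [mul_sub, mul_one, sub_add_sub_cancel, ← map_mul] at this
  | inv g _ hg =>
    have := neg_mem (JL_mul (o g⁻¹) hg)
    rwa [mul_sub, mul_one, ← map_mul, inv_mul_cancel, map_one, neg_sub] at this

theorem JR_gen {u v w g : G} (h : g ∈ Subgroup.closure {u, v, w}) : o g - 1 ∈ JR u v w := by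
  induction h using Subgroup.closure_induction with
  | mem g hg =>
    rcases hg with rfl | rfl | rfl
    · exact ⟨1, 0, 0, by simp⟩
    · exact ⟨0, 1, 0, by simp⟩
    · exact ⟨0, 0, 1, by simp⟩
  | one => rw [o, map_one, sub_self]; exact zero_mem _
  | mul g h _ _ hg hh =>
    have := add_mem (JR_mul (o h) hg) hh
    rwa [sub_mul, one_mul, sub_add_sub_cancel, ← map_mul] at this
  | inv g _ hg =>
    have := neg_mem (JR_mul (o g⁻¹) hg)
    rwa [sub_mul, one_mul, ← map_mul, mul_inv_cancel, map_one, neg_sub] at this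

theorem regL {u v w g : G} (K : Subgroup G) [K.Normal] (hK : Subgroup.closure {u, v, w} = K)
    (hg : ∀ n : ℕ, g ^ n ∈ K → n = 0) {c : MonoidAlgebra ℤ G} (h : c * (o g - 1) ∈ JL u v w) :
    c ∈ JL u v w := by
  have hu : u ∈ K := hK ▸ Subgroup.subset_closure (by simp)
  have hv : v ∈ K := hK ▸ Subgroup.subset_closure (by simp)
  have hw : w ∈ K := hK ▸ Subgroup.subset_closure (by simp)
  refine ker_sub K _ (fun a b e => ?_) c (cancelL (g := (g : G ⧸ K)) (fun n hn => hg n ?_) ?_)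
  · have := neg_mem (JL_mul (o a) (JL_gen (hK ▸ QuotientGroup.eq.1 e)))
    rwa [mul_sub, mul_one, ← map_mul, mul_inv_cancel_left, neg_sub] at this
  · rwa [← QuotientGroup.mk_pow, QuotientGroup.eq_one_iff] at hn
  · obtain ⟨a, b, d, e⟩ := h
    have := congrArg (pr K) e
    simp only [map_add, map_mul, pr_gen K hu, pr_gen K hv, pr_gen K hw, mul_zero, add_zero] at this
    rwa [map_sub, pr_o, map_one] at this

theorem regR {u v w g : G} (K : Subgroup G) [hN : K.Normal] (hK : Subgroup.closure {u, v, w} = K)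
    (hg : ∀ n : ℕ, g ^ n ∈ K → n = 0) {c : MonoidAlgebra ℤ G} (h : (o g - 1) * c ∈ JR u v w) :
    c ∈ JR u v w := by
  have hu : u ∈ K := hK ▸ Subgroup.subset_closure (by simp)
  have hv : v ∈ K := hK ▸ Subgroup.subset_closure (by simp)
  have hw : w ∈ K := hK ▸ Subgroup.subset_closure (by simp)
  refine ker_sub K _ (fun a b e => ?_) c (cancelR (g := (g : G ⧸ K)) (fun n hn => hg n ?_) ?_)
  · have := neg_mem (JR_mul (o a) (JR_gen (hK ▸ hN.mem_comm (QuotientGroup.eq.1 e))))
    rwa [sub_mul, one_mul, ← map_mul, inv_mul_cancel_right, neg_sub] at this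
  · rwa [← QuotientGroup.mk_pow, QuotientGroup.eq_one_iff] at hn
  · obtain ⟨a, b, d, e⟩ := h
    have := congrArg (pr K) e
    simp only [map_add, map_mul, pr_gen K hu, pr_gen K hv, pr_gen K hw, zero_mul, add_zero] at this
    rwa [map_sub, pr_o, map_one] at this

variable (G) in
/-- augmentation -/
noncomputable def ag : MonoidAlgebra ℤ G →ₐ[ℤ] ℤ := MonoidAlgebra.lift ℤ ℤ G 1

theorem ag_o (g : G) : ag G (o g) = 1 := MonoidAlgebra.lift_of _ _

theorem ag_gen (g : G) : ag G (o g - 1) = 0 := by rw [map_sub, ag_o, map_one, sub_self]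

theorem ker_ag (J : AddSubgroup (MonoidAlgebra ℤ G)) (hJ : ∀ g : G, o g - 1 ∈ J)
    (r : MonoidAlgebra ℤ G) (hr : ag G r = 0) : r ∈ J := by
  have : r - ag G r • 1 ∈ J := by
    clear hr
    induction r using MonoidAlgebra.induction_on with
    | of g => rw [ag_o, one_smul]; exact hJ g
    | add a b ha hb =>
      rw [map_add, add_smul, add_sub_add_comm]
      exact add_mem ha hb
    | smul c a ha =>
      rw [map_smul, smul_assoc, ← smul_sub]
      exact zsmul_mem ha c
  rwa [hr, zero_smul, sub_zero] at this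

theorem ag_surj : Function.Surjective (ag G) := fun n => ⟨n, by simp⟩

/-- the Nil group -/
@[ext] structure N where
  a : ℤ
  b : ℤ
  n : ℤ

instance : Mul N := ⟨fun g h => ⟨g.a + g.n.negOnePow * (h.a - g.n * h.b),
  g.b + g.n.negOnePow * h.b, g.n + h.n⟩⟩
instance : One N := ⟨⟨0, 0, 0⟩⟩
instance : Inv N := ⟨fun g => ⟨-(g.n.negOnePow * (g.a + g.n * g.b)), -(g.n.negOnePow * g.b), -g.n⟩⟩
@[simp] theorem mul_a (g h : N) : (g * h).a = g.a + g.n.negOnePow * (h.a - g.n * h.b) := rfl
@[simp] theorem mul_b (g h : N) : (g * h).b = g.b + g.n.negOnePow * h.b := rfl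
@[simp] theorem mul_n (g h : N) : (g * h).n = g.n + h.n := rfl
@[simp] theorem one_a : (1 : N).a = 0 := rfl
@[simp] theorem one_b : (1 : N).b = 0 := rfl
@[simp] theorem one_n : (1 : N).n = 0 := rfl
@[simp] theorem inv_a (g : N) : g⁻¹.a = -(g.n.negOnePow * (g.a + g.n * g.b)) := rfl
@[simp] theorem inv_b (g : N) : g⁻¹.b = -(g.n.negOnePow * g.b) := rfl
@[simp] theorem inv_n (g : N) : g⁻¹.n = -g.n := rfl

instance : Group N where
  mul_assoc g h k := by ext <;> simp [Int.negOnePow_add] <;> ring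
  one_mul g := by ext <;> simp
  mul_one g := by ext <;> simp
  inv_mul_cancel g := by ext <;> simp

def x : N := ⟨1, 0, 0⟩
def y : N := ⟨0, 1, 0⟩
def t : N := ⟨0, 0, 1⟩

theorem x_zpow (k : ℤ) : x ^ k = ⟨k, 0, 0⟩ := by
  induction k with
  | zero => rfl
  | succ n ih => rw [zpow_add_one, ih]; ext <;> simp [x]
  | pred n ih => rw [zpow_sub_one, ih]; ext <;> simp [x, sub_eq_add_neg]

theorem y_zpow (k : ℤ) : y ^ k = ⟨0, k, 0⟩ := by
  induction k with
  | zero => rfl
  | succ n ih => rw [zpow_add_one, ih]; ext <;> simp [y]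
  | pred n ih => rw [zpow_sub_one, ih]; ext <;> simp [y, sub_eq_add_neg]

theorem t_zpow (k : ℤ) : t ^ k = ⟨0, 0, k⟩ := by
  induction k with
  | zero => rfl
  | succ n ih => rw [zpow_add_one, ih]; ext <;> simp [t]
  | pred n ih => rw [zpow_sub_one, ih]; ext <;> simp [t, sub_eq_add_neg]

theorem nf (g : N) : g = x ^ g.a * y ^ g.b * t ^ g.n := by
  rw [x_zpow, y_zpow, t_zpow]; ext <;> simp

/-- subgroup generated by x -/
def K1 : Subgroup N where
  carrier := {g | g.b = 0 ∧ g.n = 0}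
  mul_mem' := fun {g h} hg hh => ⟨by simp [hg.1, hh.1], by simp [hg.2, hh.2]⟩
  one_mem' := ⟨rfl, rfl⟩
  inv_mem' := fun {g} hg => ⟨by simp [hg.1], by simp [hg.2]⟩

/-- subgroup generated by x and y -/
def K2 : Subgroup N where
  carrier := {g | g.n = 0}
  mul_mem' := fun {g h} (hg : g.n = 0) (hh : h.n = 0) => show (g * h).n = 0 by simp [hg, hh]
  one_mem' := rfl
  inv_mem' := fun {g} (hg : g.n = 0) => show g⁻¹.n = 0 by simp [hg]

instance : K1.Normal := ⟨fun h hh g => ⟨by
  simp [hh.1, hh.2, ← mul_assoc, ← Units.val_mul], by simp [hh.2]⟩⟩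
instance : K2.Normal := ⟨fun h (hh : h.n = 0) g => show (g * h * g⁻¹).n = 0 by simp [hh]⟩

theorem cl1 : Subgroup.closure {x, 1, 1} = K1 := by
  apply le_antisymm
  · rw [Subgroup.closure_le]
    rintro _ (rfl | rfl | rfl) <;> exact ⟨rfl, rfl⟩
  · intro g hg
    rw [nf g, hg.1, hg.2, zpow_zero, zpow_zero, mul_one, mul_one]
    exact zpow_mem (Subgroup.subset_closure (by simp)) _

theorem cl2 : Subgroup.closure {x, y, 1} = K2 := by
  apply le_antisymm
  · rw [Subgroup.closure_le]
    rintro _ (rfl | rfl | rfl) <;> exact rfl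
  · intro g (hg : g.n = 0)
    rw [nf g, hg, zpow_zero, mul_one]
    exact mul_mem (zpow_mem (Subgroup.subset_closure (by simp)) _)
      (zpow_mem (Subgroup.subset_closure (by simp)) _)

theorem cl3 (g : N) : g ∈ Subgroup.closure {x, y, t} := by
  rw [nf g]
  exact mul_mem (mul_mem (zpow_mem (Subgroup.subset_closure (by simp)) _)
    (zpow_mem (Subgroup.subset_closure (by simp)) _))
    (zpow_mem (Subgroup.subset_closure (by simp)) _)

theorem cl4 (g : N) : g ∈ Subgroup.closure {x, y, y * x * t} := by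
  have hx : x ∈ Subgroup.closure {x, y, y * x * t} := Subgroup.subset_closure (by simp)
  have hy : y ∈ Subgroup.closure {x, y, y * x * t} := Subgroup.subset_closure (by simp)
  have ht : t ∈ Subgroup.closure {x, y, y * x * t} :=
    (Subgroup.mul_mem_cancel_left _ (mul_mem hy hx)).1 (Subgroup.subset_closure (by simp))
  rw [nf g]
  exact mul_mem (mul_mem (zpow_mem hx _) (zpow_mem hy _)) (zpow_mem ht _)

theorem ox (n : ℕ) (h : x ^ n = 1) : n = 0 := by
  rw [← zpow_natCast, x_zpow] at h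
  simpa using congrArg N.a h

theorem oy (n : ℕ) (h : y ^ n ∈ K1) : n = 0 := by
  rw [← zpow_natCast, y_zpow] at h
  simpa using h.1

theorem og (g : N) (hg : g.n = 1) (n : ℕ) (h : g ^ n ∈ K2) : n = 0 := by
  have : ∀ n : ℕ, (g ^ n).n = n := by
    intro n
    induction n with
    | zero => rfl
    | succ n ih => rw [pow_succ, mul_n, ih, hg]; simp
  have h' : (g ^ n).n = 0 := h
  rw [this] at h'
  exact_mod_cast h'

theorem rxy : o x * o y = o y * o x := by
  rw [← map_mul, ← map_mul]; congr 1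

theorem rxt : o x * o t * o x = o t := by
  rw [← map_mul, ← map_mul]; congr 1

theorem ryt : o y * o t * o y = o x * o t := by
  rw [← map_mul, ← map_mul, ← map_mul]; congr 1

theorem L1 {a : MonoidAlgebra ℤ N} (h : a * (o x - 1) = 0) : a = 0 := cancelL ox h
theorem R1 {a : MonoidAlgebra ℤ N} (h : (o x - 1) * a = 0) : a = 0 := cancelR ox h

theorem L2 {a b : MonoidAlgebra ℤ N} (h : b * (o y - 1) = a * (o x - 1)) :
    ∃ u, b = u * (o x - 1) := by
  obtain ⟨u, v, w, e⟩ := regL K1 cl1 oy (c := b) ⟨a, 0, 0, by simpa using h⟩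
  exact ⟨u, by simpa [← MonoidAlgebra.one_def] using e⟩

theorem R2 {a b : MonoidAlgebra ℤ N} (h : (o y - 1) * b = (o x - 1) * a) :
    ∃ u, b = (o x - 1) * u := by
  obtain ⟨u, v, w, e⟩ := regR K1 cl1 oy (c := b) ⟨a, 0, 0, by simpa using h⟩
  exact ⟨u, by simpa [← MonoidAlgebra.one_def] using e⟩

theorem L3 {a b c : MonoidAlgebra ℤ N} (h : c * (o t - 1) = a * (o x - 1) + b * (o y - 1)) :
    ∃ u v, c = u * (o x - 1) + v * (o y - 1) := by
  obtain ⟨u, v, w, e⟩ := regL K2 cl2 (og t rfl) (c := c) ⟨a, b, 0, by simpa using h⟩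
  exact ⟨u, v, by simpa [← MonoidAlgebra.one_def] using e⟩

theorem R3 {a b c : MonoidAlgebra ℤ N}
    (h : (o (y * x * t) - 1) * c = (o x - 1) * a + (o y - 1) * b) :
    ∃ u v, c = (o x - 1) * u + (o y - 1) * v := by
  obtain ⟨u, v, w, e⟩ := regR K2 cl2 (og (y * x * t) rfl) (c := c) ⟨a, b, 0, by simpa using h⟩
  exact ⟨u, v, by simpa [← MonoidAlgebra.one_def] using e⟩

end Pool.Agent.H71.PD3
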