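import Mathlib
import Pool.Agent.H71.PD3
import Pool.Agent.H71.PD3b

set_option autoImplicit false

namespace Pool.Agent.H71.PD3

open Matrix

/-- ranks -/
def m3 : ℕ → ℕ
  | 0 => 1
  | 1 => 3
  | 2 => 3
  | 3 => 1
  | _ + 4 => 0

/-- first differential -/
noncomputable def D0 : Matrix (Fin 3) (Fin 1) (R ℤ N) := !![o x - 1; o y - 1; o t - 1]
/-- second differential -/
noncomputable def D1 : Matrix (Fin 3) (Fin 3) (R ℤ N) :=
  !![1 - o y, o x - 1, 0; 1 + o x * o t, 0, o x - 1; -1, 1 + o y * o t, o y - o x]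
/-- third differential -/
noncomputable def D2 : Matrix (Fin 1) (Fin 3) (R ℤ N) :=
  !![o y * o x * o t - 1, o x - o y, o x - 1]

/-- differentials -/
noncomputable def D3 : ∀ i, Matrix (Fin (m3 (i + 1))) (Fin (m3 i)) (R ℤ N)
  | 0 => D0
  | 1 => D1
  | 2 => D2
  | _ + 3 => 0

/-- augmentation on the free module of rank one -/
noncomputable def ε1 (G : Type) [Group G] : (Fin 1 → R ℤ G) →ₗ[ℤ] ℤ :=
  (ag G).toLinearMap.comp (LinearMap.proj 0)

theorem ε1_apply {G : Type} [Group G] (v : Fin 1 → R ℤ G) : ε1 G v = ag G (v 0) := rfl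

theorem ε1_inv {G : Type} [Group G] (g : G) (v : Fin 1 → R ℤ G) :
    ε1 G (MonoidAlgebra.of ℤ G g • v) = ε1 G v := by
  rw [ε1_apply, ε1_apply, Pi.smul_apply, smul_eq_mul, map_mul, ag_o, one_mul]

theorem ε1_surj {G : Type} [Group G] : Function.Surjective (ε1 G) := fun n =>
  (ag_surj (G := G) n).elim fun r h => ⟨fun _ => r, h⟩

theorem ext3 {A : Type} {p q : Fin 3 → A} (h0 : p 0 = q 0) (h1 : p 1 = q 1) (h2 : p 2 = q 2) :
    p = q := by
  ext i; fin_cases i; exacts [h0, h1, h2]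

theorem ext1 {A : Type} {p q : Fin 1 → A} (h0 : p 0 = q 0) : p = q := by
  ext i; fin_cases i; exact h0

theorem v0 (v : Fin 3 → R ℤ N) :
    (v ᵥ* D0) 0 = v 0 * (o x - 1) + v 1 * (o y - 1) + v 2 * (o t - 1) := by
  simp [D0, vecMul, dotProduct, Fin.sum_univ_three]

theorem v1 (v : Fin 3 → R ℤ N) :
    (v ᵥ* D1) 0 = v 0 * (1 - o y) + v 1 * (1 + o x * o t) - v 2 ∧
    (v ᵥ* D1) 1 = v 0 * (o x - 1) + v 2 * (1 + o y * o t) ∧
    (v ᵥ* D1) 2 = v 1 * (o x - 1) + v 2 * (o y - o x) := by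
  simp [D1, vecMul, dotProduct, Fin.sum_univ_three, sub_eq_add_neg, -MonoidAlgebra.of_apply]

theorem v2 (v : Fin 1 → R ℤ N) :
    (v ᵥ* D2) 0 = v 0 * (o y * o x * o t - 1) ∧ (v ᵥ* D2) 1 = v 0 * (o x - o y) ∧
    (v ᵥ* D2) 2 = v 0 * (o x - 1) := by
  simp [D2, vecMul, dotProduct, -MonoidAlgebra.of_apply]

theorem w0 (v : Fin 1 → R ℤ N) :
    (D0 *ᵥ v) 0 = (o x - 1) * v 0 ∧ (D0 *ᵥ v) 1 = (o y - 1) * v 0 ∧
    (D0 *ᵥ v) 2 = (o t - 1) * v 0 := by
  simp [D0, mulVec, dotProduct, -MonoidAlgebra.of_apply]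

theorem w1 (v : Fin 3 → R ℤ N) :
    (D1 *ᵥ v) 0 = (1 - o y) * v 0 + (o x - 1) * v 1 ∧
    (D1 *ᵥ v) 1 = (1 + o x * o t) * v 0 + (o x - 1) * v 2 ∧
    (D1 *ᵥ v) 2 = - v 0 + (1 + o y * o t) * v 1 + (o y - o x) * v 2 := by
  simp [D1, mulVec, dotProduct, Fin.sum_univ_three, -MonoidAlgebra.of_apply]

theorem w2 (v : Fin 3 → R ℤ N) :
    (D2 *ᵥ v) 0 = (o y * o x * o t - 1) * v 0 + (o x - o y) * v 1 + (o x - 1) * v 2 := by
  simp [D2, mulVec, dotProduct, Fin.sum_univ_three, -MonoidAlgebra.of_apply]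

theorem D10 : D1 * D0 = 0 := by
  ext1 i j
  change (D1 *ᵥ fun l => D0 l j) i = 0
  fin_cases j
  obtain ⟨a, b, c⟩ := w1 fun l => D0 l 0
  fin_cases i
  · refine a.trans ?_
    change (1 - o y) * (o x - 1) + (o x - 1) * (o y - 1) = 0
    linear_combination (norm := noncomm_ring) rxy
  · refine b.trans ?_
    change (1 + o x * o t) * (o x - 1) + (o x - 1) * (o t - 1) = 0
    linear_combination (norm := noncomm_ring) rxt
  · refine c.trans ?_
    change -(o x - 1) + (1 + o y * o t) * (o y - 1) + (o y - o x) * (o t - 1) = 0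
    linear_combination (norm := noncomm_ring) ryt

theorem D21 : D2 * D1 = 0 := by
  ext1 i j
  change ((fun l => D2 i l) ᵥ* D1) j = 0
  fin_cases i
  obtain ⟨a, b, c⟩ := v1 fun l => D2 0 l
  fin_cases j
  · refine a.trans ?_
    change (o y * o x * o t - 1) * (1 - o y) + (o x - o y) * (1 + o x * o t) - (o x - 1) = 0
    linear_combination (norm := noncomm_ring) rxy * (o t * o y) - o x * ryt
  · refine b.trans ?_
    change (o y * o x * o t - 1) * (o x - 1) + (o x - 1) * (1 + o y * o t) = 0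
    linear_combination (norm := noncomm_ring) rxy * o t + o y * rxt
  · refine c.trans ?_
    change (o x - o y) * (o x - 1) + (o x - 1) * (o y - o x) = 0
    linear_combination (norm := noncomm_ring) rxy

theorem ex0 (v : Fin 1 → R ℤ N) : v ∈ LinearMap.range D0.vecMulLinear ↔ ε1 N v = 0 := by
  constructor
  · rintro ⟨u, rfl⟩
    rw [ε1_apply, vecMulLinear_apply, v0]
    simp only [map_add, map_mul, ag_gen, mul_zero, add_zero]
  · intro h
    obtain ⟨a, b, c, e⟩ := ker_ag (JL x y t) (fun g => JL_gen (cl3 g)) _ h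
    exact ⟨![a, b, c], ext1 ((v0 _).trans e.symm)⟩

theorem ex1 (v : Fin 3 → R ℤ N) (h : v ᵥ* D0 = 0) : ∃ u, u ᵥ* D1 = v := by
  have h0 := (v0 v).symm.trans (congrFun h 0)
  obtain ⟨c1, c2, hc⟩ := L3 (c := v 2) (a := - v 0) (b := - v 1) (by
    linear_combination (norm := noncomm_ring) h0)
  set v' := v - ![0, c1 + c2, c2] ᵥ* D1 with hv'
  have h1 : v' ᵥ* D0 = 0 := by rw [hv', sub_vecMul, vecMul_vecMul, D10, h]; simp
  have h2 : v' 2 = 0 := by
    rw [hv', Pi.sub_apply, (v1 _).2.2, hc]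
    change _ - ((c1 + c2) * _ + c2 * _) = _
    noncomm_ring
  have h3 := (v0 v').symm.trans (congrFun h1 0)
  rw [h2] at h3
  obtain ⟨b, hb⟩ := L2 (b := v' 1) (a := - v' 0) (by
    linear_combination (norm := noncomm_ring) h3)
  have h4 : v' 0 - b * (1 - o y) = 0 := L1 (by
    rw [hb] at h3
    linear_combination (norm := noncomm_ring) h3 - b * rxy)
  refine ⟨![b, 0, 0] + ![0, c1 + c2, c2], ?_⟩
  rw [add_vecMul, ← eq_sub_iff_add_eq, ← hv']
  obtain ⟨e0, e1, e2⟩ := v1 ![b, 0, 0]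
  refine ext3 ?_ ?_ ?_
  · rw [e0, sub_eq_zero.1 h4]; simp
  · rw [e1, hb]; simp
  · rw [e2, h2]; simp

theorem ex2 (v : Fin 3 → R ℤ N) (h : v ᵥ* D1 = 0) : ∃ u, u ᵥ* D2 = v := by
  obtain ⟨-, e1, e2⟩ := v1 v
  rw [h, Pi.zero_apply] at e1 e2
  obtain ⟨u, hu⟩ := L2 (b := v 2) (a := v 2 - v 1) (by
    linear_combination (norm := noncomm_ring) - e2)
  have h1 : v 1 - u * (o x - o y) = 0 := L1 (by
    rw [hu] at e2
    linear_combination (norm := noncomm_ring) - e2 - u * rxy)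
  have h2 : v 0 - u * (o y * o x * o t - 1) = 0 := L1 (by
    rw [hu] at e1
    linear_combination (norm := noncomm_ring) - e1 - u * rxy * o t - u * o y * rxt)
  obtain ⟨a, b, c⟩ := v2 fun _ => u
  exact ⟨fun _ => u, ext3 (a.trans (sub_eq_zero.1 h2).symm) (b.trans (sub_eq_zero.1 h1).symm)
    (c.trans hu.symm)⟩

theorem ex3 (v : Fin 1 → R ℤ N) (h : v ᵥ* D2 = 0) : v = 0 :=
  ext1 (L1 ((v2 v).2.2.symm.trans (congrFun h 2)))

theorem c10 (u : Fin 3 → R ℤ N) : (u ᵥ* D1) ᵥ* D0 = 0 := by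
  rw [vecMul_vecMul, D10, vecMul_zero]

theorem c21 (u : Fin 1 → R ℤ N) : (u ᵥ* D2) ᵥ* D1 = 0 := by
  rw [vecMul_vecMul, D21, vecMul_zero]

theorem h4 : ∀ i, LinearMap.range (D3 (i + 1)).vecMulLinear = LinearMap.ker (D3 i).vecMulLinear
  | 0 => by
    refine le_antisymm ?_ fun v hv => ex1 v hv
    rintro _ ⟨u, rfl⟩
    exact c10 u
  | 1 => by
    refine le_antisymm ?_ fun v hv => ex2 v hv
    rintro _ ⟨u, rfl⟩
    exact c21 u
  | 2 => by
    refine le_antisymm ?_ fun v hv => ?_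
    · rintro _ ⟨u, rfl⟩
      change (u ᵥ* 0) ᵥ* D2 = 0
      rw [vecMul_zero, zero_vecMul]
    · rw [ex3 v hv]; exact zero_mem _
  | i + 3 => by
    ext v
    have : v = 0 := Subsingleton.elim (α := Fin 0 → R ℤ N) _ _
    simp [this]

theorem co0 (v : Fin 1 → R ℤ N) (h : D0 *ᵥ v = 0) : v = 0 :=
  ext1 (R1 ((w0 v).1.symm.trans (congrFun h 0)))

theorem co1 (v : Fin 3 → R ℤ N) (h : D1 *ᵥ v = 0) : ∃ u, D0 *ᵥ u = v := by
  obtain ⟨e0, e1, -⟩ := w1 v
  rw [h, Pi.zero_apply] at e0 e1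
  obtain ⟨u, hu⟩ := R2 (b := v 0) (a := v 1) (by
    linear_combination (norm := noncomm_ring) e0)
  have h1 : v 1 - (o y - 1) * u = 0 := R1 (by
    rw [hu] at e0
    linear_combination (norm := noncomm_ring) - e0 - rxy * u)
  have h2 : v 2 - (o t - 1) * u = 0 := R1 (by
    rw [hu] at e1
    linear_combination (norm := noncomm_ring) - e1 - rxt * u)
  obtain ⟨a, b, c⟩ := w0 fun _ => u
  exact ⟨fun _ => u, ext3 (a.trans hu.symm) (b.trans (sub_eq_zero.1 h1).symm)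
    (c.trans (sub_eq_zero.1 h2).symm)⟩

theorem oyxt : o (y * x * t) = o y * o x * o t := by rw [o, map_mul, map_mul]

theorem co2 (v : Fin 3 → R ℤ N) (h : D2 *ᵥ v = 0) : ∃ u, D1 *ᵥ u = v := by
  have h0 := (w2 v).symm.trans (congrFun h 0)
  obtain ⟨c1, c2, hc⟩ := R3 (c := v 0) (a := - v 1 - v 2) (b := v 1) (by
    rw [oyxt]
    linear_combination (norm := noncomm_ring) h0)
  set v' := v - D1 *ᵥ ![-c2, c1, 0] with hv'
  have h1 : D2 *ᵥ v' = 0 := by rw [hv', mulVec_sub, mulVec_mulVec, D21, h]; simp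
  have h2 : v' 0 = 0 := by
    rw [hv', Pi.sub_apply, (w1 _).1, hc]
    change _ - (_ * (-c2) + _ * c1) = _
    noncomm_ring
  have h3 := (w2 v').symm.trans (congrFun h1 0)
  rw [h2] at h3
  obtain ⟨b, hb⟩ := R2 (b := v' 1) (a := v' 1 + v' 2) (by
    linear_combination (norm := noncomm_ring) - h3)
  have h4 : v' 2 - (o y - o x) * b = 0 := R1 (by
    rw [hb] at h3
    linear_combination (norm := noncomm_ring) h3 - rxy * b)
  refine ⟨![0, 0, b] + ![-c2, c1, 0], ?_⟩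
  rw [mulVec_add, ← eq_sub_iff_add_eq, ← hv']
  obtain ⟨e0, e1, e2⟩ := w1 ![0, 0, b]
  refine ext3 ?_ ?_ ?_
  · rw [e0, h2]; simp
  · rw [e1, hb]; simp
  · rw [e2, sub_eq_zero.1 h4]; simp

theorem co3 (v : Fin 1 → R ℤ N) : ε1 N v = 0 ↔ ∃ u, D2 *ᵥ u = v := by
  constructor
  · intro h
    obtain ⟨a, b, c, e⟩ := ker_ag (JR x y (y * x * t)) (fun g => JR_gen (cl4 g)) (v 0) h
    refine ⟨![c, -b, a + b], ext1 ((w2 _).trans ?_)⟩
    rw [e, oyxt]
    change _ * c + _ * (-b) + _ * (a + b) = _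
    noncomm_ring
  · rintro ⟨u, rfl⟩
    rw [ε1_apply, w2]
    simp only [map_add, map_mul, map_sub, ag_o, map_one, mul_one, sub_self, zero_mul, add_zero]

/-- ranks for the infinite cyclic group -/
def m1 : ℕ → ℕ
  | 0 => 1
  | 1 => 1
  | _ + 2 => 0

/-- differentials for the infinite cyclic group -/
noncomputable def DZ {G : Type} [Group G] (g : G) :
    ∀ i, Matrix (Fin (m1 (i + 1))) (Fin (m1 i)) (R ℤ G)
  | 0 => (!![o g - 1] : Matrix (Fin 1) (Fin 1) (R ℤ G))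
  | _ + 1 => 0

theorem vZ {G : Type} [Group G] (g : G) (v : Fin 1 → R ℤ G) :
    (v ᵥ* (!![o g - 1] : Matrix (Fin 1) (Fin 1) (R ℤ G))) 0 = v 0 * (o g - 1) := by
  simp [vecMul, dotProduct]

theorem exZ0' {G : Type} [Group G] (g : G) (hg : ∀ h, h ∈ Subgroup.zpowers g)
    (v : Fin 1 → R ℤ G) (h : ag G (v 0) = 0) :
    ∃ u : Fin 1 → R ℤ G, u ᵥ* (!![o g - 1] : Matrix (Fin 1) (Fin 1) (R ℤ G)) = v := by
  obtain ⟨a, b, c, e⟩ := ker_ag (JL g g g) (fun k => JL_gen (by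
    simpa [← Subgroup.zpowers_eq_closure] using hg k)) (v 0) h
  refine ⟨fun _ => a + b + c, ext1 ?_⟩
  rw [vZ, e]
  noncomm_ring

theorem exZ0 {G : Type} [Group G] (g : G) (hg : ∀ h, h ∈ Subgroup.zpowers g) (v : Fin 1 → R ℤ G) :
    v ∈ LinearMap.range (DZ g 0).vecMulLinear ↔ ε1 G v = 0 := by
  constructor
  · rintro ⟨u, rfl⟩
    refine (congrArg (ag G) (vZ g u)).trans ?_
    rw [map_mul, ag_gen, mul_zero]
  · exact exZ0' g hg v

theorem exZ1 {G : Type} [Group G] (g : G) (hg : ∀ n : ℕ, g ^ n = 1 → n = 0) :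
    LinearMap.range (DZ g 1).vecMulLinear = LinearMap.ker (DZ g 0).vecMulLinear := by
  refine le_antisymm ?_ fun v hv => ?_
  · rintro _ ⟨u, rfl⟩
    change (u ᵥ* 0) ᵥ* DZ g 0 = 0
    rw [vecMul_zero, zero_vecMul]
  · have : v = 0 := ext1 (cancelL hg ((vZ g v).symm.trans (congrFun hv (0 : Fin 1))))
    rw [this]; exact zero_mem _

theorem mem_H (g : N) : g ∈ Subgroup.zpowers t ↔ g.a = 0 ∧ g.b = 0 := by
  constructor
  · rintro ⟨k, rfl⟩
    simp only [t_zpow, and_self]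
  · rintro ⟨ha, hb⟩
    refine ⟨g.n, ?_⟩
    simp only [t_zpow]
    ext <;> simp [ha, hb]

theorem not_va : ¬ ∃ A : Subgroup N, A.FiniteIndex ∧ ∀ a ∈ A, ∀ b ∈ A, a * b = b * a := by
  rintro ⟨A, hA, h⟩
  obtain ⟨n, hn, -, h1⟩ := A.exists_pow_mem_of_index_ne_zero hA.index_ne_zero y
  obtain ⟨k, hk, -, h2⟩ := A.exists_pow_mem_of_index_ne_zero hA.index_ne_zero t
  have := congrArg N.a (h _ h1 _ h2)
  rw [← zpow_natCast, ← zpow_natCast, y_zpow, t_zpow] at this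
  simp at this
  omega

theorem selfnorm (g : N) (h : g * t * g⁻¹ ∈ Subgroup.zpowers t) : g ∈ Subgroup.zpowers t := by
  rw [mem_H] at h ⊢
  obtain ⟨h1, h2⟩ := h
  rcases Int.units_eq_one_or g.n.negOnePow with e | e <;>
    simp [t, Int.negOnePow_add, e] at h1 h2 <;> constructor <;> nlinarith

theorem comm_x (k : ℤ) :
    ((Subgroup.zpowers t).map (MulAut.conj (x ^ k)).toMonoidHom).relIndex (Subgroup.zpowers t)
      ≠ 0 := by
  have h1 : Subgroup.zpowers (t ^ 2) ≤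
      (Subgroup.zpowers t).map (MulAut.conj (x ^ k)).toMonoidHom := by
    rw [Subgroup.zpowers_le]
    refine ⟨t ^ 2, pow_mem (Subgroup.mem_zpowers t) 2, ?_⟩
    rw [x_zpow]
    ext <;> simp [t, pow_two, Int.negOnePow_even 2 even_two]
  refine ne_zero_of_dvd_ne_zero ?_ (Subgroup.relIndex_dvd_of_le_left _ h1)
  rw [Ne, Subgroup.relIndex, Subgroup.index_eq_zero_iff_infinite, not_infinite_iff_finite]
  refine Finite.of_surjective (fun i : Fin 2 =>
    (QuotientGroup.mk ⟨t ^ (i : ℤ), zpow_mem (Subgroup.mem_zpowers t) _⟩ :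
      Subgroup.zpowers t ⧸ (Subgroup.zpowers (t ^ 2)).subgroupOf (Subgroup.zpowers t))) ?_
  intro q
  obtain ⟨⟨_, j, rfl⟩, rfl⟩ := QuotientGroup.mk_surjective q
  refine ⟨⟨(j % 2).toNat, by omega⟩, QuotientGroup.eq.2 ⟨j / 2, ?_⟩⟩
  change (t ^ 2) ^ (j / 2) = (t ^ (((j % 2).toNat : ℕ) : ℤ))⁻¹ * t ^ j
  rw [← zpow_natCast, ← _root_.zpow_mul, ← _root_.zpow_neg, ← _root_.zpow_add]
  congr 1
  omega

end Pool.Agent.H71.PD3
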