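import Mathlib

set_option autoImplicit false

namespace Pool.Agent.H71.PLCube

abbrev E : Type := Fin 2 → ℝ

/-- polytopes -/
def Poly (P : Set E) : Prop := ∃ S : Set E, S.Finite ∧ P = convexHull ℝ S

theorem proj_convex {K : Set E} (hK : Convex ℝ K) {d₁ d₂ l m : ℝ} {N₁ N₂ : E} (h₁ : 0 < d₁)
    (h₂ : 0 < d₂) (k₁ : d₁⁻¹ • N₁ ∈ K) (k₂ : d₂⁻¹ • N₂ ∈ K) (hl : 0 ≤ l) (hm : 0 ≤ m)
    (hlm : l + m = 1) : (l * d₁ + m * d₂)⁻¹ • (l • N₁ + m • N₂) ∈ K := by
  have hd : 0 < l * d₁ + m * d₂ := by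
    rcases hl.eq_or_lt with h | h
    · have : m = 1 := by linarith
      rw [← h, this]; simpa using h₂
    · positivity
  have := hK k₁ k₂ (a := l * d₁ / (l * d₁ + m * d₂)) (b := m * d₂ / (l * d₁ + m * d₂))
    (by positivity) (by positivity) (by field_simp)
  convert this using 1
  rw [smul_add, smul_smul, smul_smul, smul_smul, smul_smul]
  congr 2 <;> field_simp

theorem Poly.inter {P : Set E} (hP : Poly P) (f : E →ᵃ[ℝ] ℝ) : Poly (P ∩ {x | 0 ≤ f x}) := by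
  obtain ⟨S, hS, rfl⟩ := hP
  let c : E → E → E := fun a b => (f a - f b)⁻¹ • (f a • b - f b • a)
  let Sp := {x ∈ S | 0 ≤ f x}
  let Sm := {x ∈ S | f x < 0}
  have cp : Convex ℝ {x | 0 ≤ f x} := (convex_Ici (0 : ℝ)).affine_preimage f
  have cm : Convex ℝ {x | f x < 0} := (convex_Iio (0 : ℝ)).affine_preimage f
  have hc : ∀ a b, 0 ≤ f a → f b < 0 →
      c a b = (-f b / (f a - f b)) • a + (f a / (f a - f b)) • b ∧
      0 ≤ -f b / (f a - f b) ∧ 0 ≤ f a / (f a - f b) ∧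
      -f b / (f a - f b) + f a / (f a - f b) = 1 := by
    intro a b ha hb
    have : 0 < f a - f b := by linarith
    refine ⟨?_, div_nonneg (by linarith) this.le, div_nonneg ha this.le, by field_simp; ring⟩
    simp only [c]
    rw [smul_sub, smul_smul, smul_smul, neg_div, neg_smul, div_eq_inv_mul, div_eq_inv_mul]
    abel
  have hc0 : ∀ a b, 0 ≤ f a → f b < 0 → f (c a b) = 0 := by
    intro a b ha hb
    obtain ⟨e, -, -, h1⟩ := hc a b ha hb
    have : 0 < f a - f b := by linarith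
    rw [e, Convex.combo_affine_apply h1]
    simp only [smul_eq_mul]
    field_simp
    ring
  refine ⟨Sp ∪ Set.image2 c Sp Sm, ((hS.subset fun x hx => hx.1).union
    ((hS.subset fun x hx => hx.1).image2 _ (hS.subset fun x hx => hx.1))), ?_⟩
  set K := convexHull ℝ (Sp ∪ Set.image2 c Sp Sm)
  have hK : Convex ℝ K := convex_convexHull _ _
  have hpK : convexHull ℝ Sp ⊆ K := convexHull_mono Set.subset_union_left
  apply Set.Subset.antisymm
  · rintro x ⟨hx, hfx⟩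
    have e : S = Sp ∪ Sm := by
      ext x
      exact ⟨fun h => (le_or_gt 0 (f x)).imp (fun h' => ⟨h, h'⟩) (fun h' => ⟨h, h'⟩),
        fun h => h.elim (·.1) (·.1)⟩
    rw [e] at hx
    have hp : convexHull ℝ Sp ⊆ {x | 0 ≤ f x} := convexHull_min (fun x hx => hx.2) cp
    have hm : convexHull ℝ Sm ⊆ {x | f x < 0} := convexHull_min (fun x hx => hx.2) cm
    rcases Sm.eq_empty_or_nonempty with h | hSm
    · rw [h, Set.union_empty] at hx
      exact hpK hx
    rcases Sp.eq_empty_or_nonempty with h | hSp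
    · rw [h, Set.empty_union] at hx
      exact absurd (show f x < 0 from hm hx) (not_lt.2 hfx)
    rw [convexHull_union hSp hSm, mem_convexJoin] at hx
    obtain ⟨a, ha, b, hb, l, m, hl, hm', hlm, rfl⟩ := hx
    have k1 : ∀ b ∈ Sm, ∀ a ∈ convexHull ℝ Sp, 0 ≤ f a ∧ c a b ∈ K := by
      intro b hb
      refine convexHull_min (t := {a | 0 ≤ f a ∧ c a b ∈ K})
        (fun a ha => ⟨ha.2, subset_convexHull _ _ (Or.inr ⟨a, ha, b, hb, rfl⟩)⟩) ?_
      intro a₁ h₁ a₂ h₂ l m hl hm hlm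
      refine ⟨cp h₁.1 h₂.1 hl hm hlm, ?_⟩
      have := proj_convex hK (by linarith [h₁.1, hb.2]) (by linarith [h₂.1, hb.2]) h₁.2 h₂.2
        hl hm hlm
      simp only [c]
      rw [Convex.combo_affine_apply hlm]
      convert this using 2
      · congr 1
        simp only [smul_eq_mul]
        linear_combination (f b) * hlm
      · simp only [smul_eq_mul]
        module
    have k2 : ∀ b ∈ convexHull ℝ Sm, f b < 0 ∧ c a b ∈ K := by
      refine convexHull_min (t := {b | f b < 0 ∧ c a b ∈ K})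
        (fun b hb => ⟨hb.2, (k1 b hb a ha).2⟩) ?_
      intro b₁ h₁ b₂ h₂ l m hl hm hlm
      refine ⟨cm h₁.1 h₂.1 hl hm hlm, ?_⟩
      have ha' : 0 ≤ f a := hp ha
      have := proj_convex hK (by linarith [h₁.1]) (by linarith [h₂.1]) h₁.2 h₂.2
        hl hm hlm
      simp only [c]
      rw [Convex.combo_affine_apply hlm]
      convert this using 2
      · congr 1
        simp only [smul_eq_mul]
        linear_combination (- f a) * hlm
      · simp only [smul_eq_mul]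
        module
    have ha' : 0 ≤ f a := hp ha
    obtain ⟨hb', hcK⟩ := k2 b hb
    have hfx' : 0 ≤ l * f a + m * f b := by
      have : 0 ≤ f (l • a + m • b) := hfx
      rwa [Convex.combo_affine_apply hlm] at this
    rcases hm'.eq_or_lt with h | h
    · have : l = 1 := by linarith
      rw [← h, this]
      simpa using hpK ha
    have hfa : 0 < f a := by nlinarith
    have hd : 0 < f a - f b := by linarith
    have := hK (hpK ha) hcK (a := (l * f a + m * f b) / f a) (b := m * (f a - f b) / f a)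
      (by positivity) (by positivity) (by field_simp; linear_combination (f a) * hlm)
    convert this using 1
    rw [(hc a b ha' hb').1, smul_add, smul_smul, smul_smul, ← add_assoc, ← add_smul]
    congr 2 <;> field_simp
    ring
  · refine convexHull_min ?_ ((convex_convexHull _ _).inter cp)
    rintro x (hx | ⟨a, ha, b, hb, rfl⟩)
    · exact ⟨subset_convexHull _ _ hx.1, hx.2⟩
    · refine ⟨?_, (hc0 a b ha.2 hb.2).ge⟩
      obtain ⟨e, h1, h2, h3⟩ := hc a b ha.2 hb.2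
      rw [e]
      exact convex_convexHull ℝ S (subset_convexHull _ _ ha.1) (subset_convexHull _ _ hb.1) h1 h2 h3

/-- affine functions -/
def IsAff (f : E → E) : Prop := ∃ B : E →ᵃ[ℝ] E, ⇑B = f

theorem IsAff.comp {f g : E → E} (hg : IsAff g) (hf : IsAff f) : IsAff (g ∘ f) := by
  obtain ⟨A, rfl⟩ := hf
  obtain ⟨B, rfl⟩ := hg
  exact ⟨B.comp A, rfl⟩

theorem isAff_id : IsAff id := ⟨AffineMap.id _ _, rfl⟩

/-- an affine functional -/
noncomputable def fn (a b c : ℝ) : E →ᵃ[ℝ] ℝ :=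
  (a • LinearMap.proj 0 + b • LinearMap.proj 1 : E →ₗ[ℝ] ℝ).toAffineMap + AffineMap.const ℝ E c

theorem fn_apply (a b c : ℝ) (z : E) : fn a b c z = a * z 0 + b * z 1 + c := by simp [fn]

theorem isAff_mk (a b c d e f : ℝ) :
    IsAff fun z => ![a * z 0 + b * z 1 + c, d * z 0 + e * z 1 + f] := by
  refine ⟨AffineMap.pi ![fn a b c, fn d e f], ?_⟩
  ext z i
  fin_cases i <;> simp [fn_apply]

theorem isAff_smul (c : ℝ) : IsAff fun z => c • z :=
  ⟨(c • LinearMap.id : E →ₗ[ℝ] E).toAffineMap, rfl⟩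

/-- a finite cover by polytopes on which the map is affine -/
def Cov (f : E → E) (P : Set E) : Prop :=
  ∃ T : Set (Set E), T.Finite ∧ (∀ Q ∈ T, Poly Q ∧ Q ⊆ P ∧ ∃ B, IsAff B ∧ Set.EqOn f B Q) ∧
    P ⊆ ⋃₀ T

/-- piecewise linear on a set -/
def PL (f : E → E) (X : Set E) : Prop :=
  ∀ A P, IsAff A → Poly P → Set.MapsTo A P X → Cov (f ∘ A) P

theorem PL.of_aff {f B : E → E} {X : Set E} (hB : IsAff B) (h : Set.EqOn f B X) : PL f X :=
  fun A P hA hP hm => ⟨{P}, Set.finite_singleton _, by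
    rintro _ rfl
    exact ⟨hP, subset_rfl, B ∘ A, hB.comp hA, fun x hx => h (hm hx)⟩, by simp⟩

theorem PL.mono {f : E → E} {X Y : Set E} (h : PL f X) (hY : Y ⊆ X) : PL f Y :=
  fun A P hA hP hm => h A P hA hP (hm.mono_right hY)

theorem PL.congr {f g : E → E} {X : Set E} (h : PL f X) (e : Set.EqOn g f X) : PL g X := by
  intro A P hA hP hm
  obtain ⟨T, hT, h1, h2⟩ := h A P hA hP hm
  refine ⟨T, hT, fun Q hQ => ?_, h2⟩
  obtain ⟨a, b, B, hB, c⟩ := h1 Q hQ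
  exact ⟨a, b, B, hB, fun x hx => (e (hm (b hx))).trans (c hx)⟩

theorem PL.comp {f g : E → E} {X Y : Set E} (hg : PL g Y) (hf : PL f X) (hm : Set.MapsTo f X Y) :
    PL (g ∘ f) X := by
  intro A P hA hP hA'
  obtain ⟨T, hT, h1, h2⟩ := hf A P hA hP hA'
  have : ∀ Q ∈ T, Cov (g ∘ f ∘ A) Q := by
    intro Q hQ
    obtain ⟨a, b, B, hB, c⟩ := h1 Q hQ
    obtain ⟨T', hT', h3, h4⟩ := hg B Q hB a fun x hx => c hx ▸ hm (hA' (b hx))
    refine ⟨T', hT', fun Q' hQ' => ?_, h4⟩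
    obtain ⟨a', b', B', hB', c'⟩ := h3 Q' hQ'
    exact ⟨a', b', B', hB', fun x hx => (congrArg g (c (b' hx))).trans (c' hx)⟩
  choose! T' hT' h3 h4 using this
  refine ⟨⋃ Q ∈ T, T' Q, hT.biUnion hT', ?_, fun x hx => ?_⟩
  · intro Q' hQ'
    obtain ⟨Q, hQ, hQ'⟩ := Set.mem_iUnion₂.1 hQ'
    obtain ⟨a', b', c'⟩ := h3 Q hQ Q' hQ'
    exact ⟨a', b'.trans (h1 Q hQ).2.1, c'⟩
  · obtain ⟨Q, hQ, hx⟩ := h2 hx
    obtain ⟨Q', hQ', hx⟩ := h4 Q hQ hx
    exact ⟨Q', Set.mem_iUnion₂.2 ⟨Q, hQ, hQ'⟩, hx⟩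

theorem PL.split {f : E → E} {X : Set E} (a b c : ℝ)
    (h1 : PL f (X ∩ {z | 0 ≤ a * z 0 + b * z 1 + c}))
    (h2 : PL f (X ∩ {z | a * z 0 + b * z 1 + c ≤ 0})) : PL f X := by
  intro A P hA hP hm
  obtain ⟨B, rfl⟩ := hA
  obtain ⟨T, hT, a1, a2⟩ := h1 B _ ⟨B, rfl⟩ (hP.inter ((fn a b c).comp B))
    fun x hx => ⟨hm hx.1, by simpa [fn_apply] using hx.2⟩
  obtain ⟨T', hT', b1, b2⟩ := h2 B _ ⟨B, rfl⟩ (hP.inter (-(fn a b c).comp B))
    fun x hx => ⟨hm hx.1, by simpa [fn_apply, -neg_add_rev] using hx.2⟩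
  refine ⟨T ∪ T', hT.union hT', ?_, fun x hx => ?_⟩
  · rintro Q (hQ | hQ)
    · exact ⟨(a1 Q hQ).1, (a1 Q hQ).2.1.trans Set.inter_subset_left, (a1 Q hQ).2.2⟩
    · exact ⟨(b1 Q hQ).1, (b1 Q hQ).2.1.trans Set.inter_subset_left, (b1 Q hQ).2.2⟩
  · rw [Set.sUnion_union]
    rcases le_total 0 ((fn a b c).comp B x) with h | h
    · exact Or.inl (a2 ⟨hx, h⟩)
    · exact Or.inr (b2 ⟨hx, by simpa using h⟩)

theorem poly_cube : Poly (Set.Icc 0 1) := by
  refine ⟨Set.univ.pi fun _ => {0, 1}, Set.Finite.pi fun _ => Set.toFinite _, ?_⟩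
  rw [convexHull_pi, ← Set.pi_univ_Icc]
  simp

theorem PL.final {f : E → E} (h : PL f (Set.Icc 0 1)) :
    ContinuousOn f (Set.Icc 0 1) ∧ ∃ (k : ℕ) (S : Fin k → Finset E) (A : Fin k → (E →ᵃ[ℝ] E)),
      (∀ x ∈ Set.Icc (0 : E) 1, ∃ i, x ∈ convexHull ℝ (↑(S i) : Set E)) ∧
      ∀ i, ∀ x, x ∈ convexHull ℝ (↑(S i) : Set E) → f x = A i x := by
  obtain ⟨T, hT, h1, h2⟩ := h id _ isAff_id poly_cube (Set.mapsTo_id _)
  have : ∀ Q : T, ∃ (S : Finset E) (A : E →ᵃ[ℝ] E), Q.1 = convexHull ℝ (↑S : Set E) ∧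
      ∀ x ∈ Q.1, f x = A x := by
    rintro ⟨Q, hQ⟩
    obtain ⟨⟨S, hS, e⟩, -, _, ⟨A, rfl⟩, c⟩ := h1 Q hQ
    exact ⟨hS.toFinset, A, by simpa using e, c⟩
  choose S A e c using this
  have := hT.to_subtype
  obtain ⟨k, ⟨σ⟩⟩ := Finite.exists_equiv_fin T
  refine ⟨?_, k, fun i => S (σ.symm i), fun i => A (σ.symm i), fun x hx => ?_,
    fun i x hx => c _ x (e _ ▸ hx)⟩
  · refine ContinuousOn.mono ?_ h2
    rw [Set.sUnion_eq_iUnion]
    refine (locallyFinite_of_finite _).continuousOn_iUnion (fun Q => ?_) fun Q => ?_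
    · rw [e Q]
      exact (S Q).finite_toSet.isClosed_convexHull ℝ
    · exact (A Q).continuous_of_finiteDimensional.continuousOn.congr (c Q)
  · obtain ⟨Q, hQ, hx⟩ := h2 hx
    exact ⟨σ ⟨Q, hQ⟩, by simpa [← e] using hx⟩

end Pool.Agent.H71.PLCube
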