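import Mathlib
import Pool.Agent.H71.PLCube

set_option autoImplicit false

namespace Pool.Agent.H71.PLCube

/-- the affine group of the line, as upper triangular matrices -/
@[ext] structure G0 where
  b : ℝ
  α : ℝ
  pos : 0 < α

instance : Mul G0 := ⟨fun g h => ⟨h.b + g.b * h.α, g.α * h.α, mul_pos g.pos h.pos⟩⟩
instance : One G0 := ⟨⟨0, 1, one_pos⟩⟩
noncomputable instance : Inv G0 := ⟨fun g => ⟨-g.b * g.α⁻¹, g.α⁻¹, inv_pos.2 g.pos⟩⟩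
@[simp] theorem mul_b (g h : G0) : (g * h).b = h.b + g.b * h.α := rfl
@[simp] theorem mul_α (g h : G0) : (g * h).α = g.α * h.α := rfl
@[simp] theorem one_b : (1 : G0).b = 0 := rfl
@[simp] theorem one_α : (1 : G0).α = 1 := rfl
@[simp] theorem inv_b (g : G0) : g⁻¹.b = -g.b * g.α⁻¹ := rfl
@[simp] theorem inv_α (g : G0) : g⁻¹.α = g.α⁻¹ := rfl

noncomputable instance : Group G0 where
  mul_assoc g h k := by ext <;> simp <;> ring
  one_mul g := by ext <;> simp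
  mul_one g := by ext <;> simp
  inv_mul_cancel g := by
    have := g.pos.ne'
    ext <;> simp [this]

/-- the action on the cone -/
noncomputable def act (g : G0) (q : E) : E :=
  ![q 0 + g.b * (q 1 - |q 0|), |q 0 + g.b * (q 1 - |q 0|)| + g.α * (q 1 - |q 0|)]

theorem act0 (g : G0) (q : E) : act g q 0 = q 0 + g.b * (q 1 - |q 0|) := rfl
theorem act1 (g : G0) (q : E) :
    act g q 1 = |q 0 + g.b * (q 1 - |q 0|)| + g.α * (q 1 - |q 0|) := rfl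

theorem ext2 {p q : E} (h0 : p 0 = q 0) (h1 : p 1 = q 1) : p = q := by
  ext i; fin_cases i; exacts [h0, h1]

theorem act_one (q : E) : act 1 q = q := ext2 (by simp [act0]) (by simp [act1])

theorem act_mul (g h : G0) (q : E) : act (g * h) q = act g (act h q) := by
  have e : act h q 1 - |act h q 0| = h.α * (q 1 - |q 0|) := by rw [act0, act1]; ring
  have e0 : act (g * h) q 0 = act g (act h q) 0 := by
    rw [act0 g, e, act0, act0, mul_b]; ring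
  refine ext2 e0 ?_
  rw [act1 g, ← act0, ← e0, e, act1, ← act0, mul_α]; ring

theorem act_smul (g : G0) (c : ℝ) (hc : 0 ≤ c) (q : E) : act g (c • q) = c • act g q := by
  have e0 : act g (c • q) 0 = (c • act g q) 0 := by
    simp only [act0, Pi.smul_apply, smul_eq_mul, abs_mul, abs_of_nonneg hc]; ring
  refine ext2 e0 ?_
  rw [act1, ← act0, e0]
  simp only [act0, act1, Pi.smul_apply, smul_eq_mul, abs_mul, abs_of_nonneg hc]; ring

theorem act_bd (g : G0) (q : E) (h : q 1 = |q 0|) : act g q = q :=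
  ext2 (by simp [act0, h]) (by simp [act1, h])

theorem pl_act (g : G0) : PL (act g) Set.univ := by
  have h1 : PL (fun q : E => ![q 0, q 1 - |q 0|]) Set.univ := by
    refine PL.split 1 0 0 (PL.of_aff (isAff_mk 1 0 0 (-1) 1 0) fun q hq => ?_)
      (PL.of_aff (isAff_mk 1 0 0 1 1 0) fun q hq => ?_)
    · have : 0 ≤ q 0 := by simpa using hq.2
      exact ext2 (by simp) (by simp [abs_of_nonneg this]; ring)
    · have : q 0 ≤ 0 := by simpa using hq.2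
      exact ext2 (by simp) (by simp [abs_of_nonpos this]; ring)
  have h2 : PL (fun q : E => ![q 0, q 1 + |q 0|]) Set.univ := by
    refine PL.split 1 0 0 (PL.of_aff (isAff_mk 1 0 0 1 1 0) fun q hq => ?_)
      (PL.of_aff (isAff_mk 1 0 0 (-1) 1 0) fun q hq => ?_)
    · have : 0 ≤ q 0 := by simpa using hq.2
      exact ext2 (by simp) (by simp [abs_of_nonneg this]; ring)
    · have : q 0 ≤ 0 := by simpa using hq.2
      exact ext2 (by simp) (by simp [abs_of_nonpos this]; ring)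
  have h3 : PL (fun q : E => ![1 * q 0 + g.b * q 1 + 0, 0 * q 0 + g.α * q 1 + 0]) Set.univ :=
    PL.of_aff (isAff_mk _ _ _ _ _ _) fun _ _ => rfl
  refine (h2.comp (h3.comp h1 (Set.mapsTo_univ _ _)) (Set.mapsTo_univ _ _)).congr fun q _ => ?_
  exact ext2 (by simp [act0]) (by simp [act1]; ring)

/-- the punctured cone -/
def C0 : Set E := {q | |q 0| ≤ q 1 ∧ 0 < q 1}

theorem act_mem (g : G0) {q : E} (hq : q ∈ C0) : act g q ∈ C0 := by
  have h1 : 0 ≤ g.α * (q 1 - |q 0|) := mul_nonneg g.pos.le (sub_nonneg.2 hq.1)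
  refine ⟨by rw [act0, act1]; linarith, ?_⟩
  rcases hq.1.eq_or_lt with h | h
  · rw [act_bd g q h.symm]; exact hq.2
  · have := mul_pos g.pos (sub_pos.2 h)
    rw [act1]
    positivity

theorem act_le (g : G0) {q : E} (hq : q ∈ C0) : act g q 1 ≤ (1 + |g.b| + g.α) * q 1 := by
  have h0 := abs_nonneg (q 0)
  have h1 : 0 ≤ q 1 - |q 0| := sub_nonneg.2 hq.1
  have h2 := abs_add_le (q 0) (g.b * (q 1 - |q 0|))
  rw [abs_mul, abs_of_nonneg h1] at h2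
  have h3 := mul_nonneg (abs_nonneg g.b) h0
  have h4 := mul_nonneg g.pos.le h0
  rw [act1]
  nlinarith [hq.1]

theorem smul_mem {c : ℝ} (hc : 0 < c) {q : E} (hq : q ∈ C0) : c • q ∈ C0 := by
  refine ⟨?_, mul_pos hc hq.2⟩
  simp only [Pi.smul_apply, smul_eq_mul, abs_mul, abs_of_pos hc]
  exact mul_le_mul_of_nonneg_left hq.1 hc.le

/-- rotation of the square -/
def R : Equiv.Perm E where
  toFun z := ![1 - z 1, z 0]
  invFun z := ![z 1, 1 - z 0]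
  left_inv z := ext2 (by simp) (by simp)
  right_inv z := ext2 (by simp) (by simp)

@[simp] theorem R0 (z : E) : R z 0 = 1 - z 1 := rfl
@[simp] theorem R1 (z : E) : R z 1 = z 0 := rfl
@[simp] theorem Ri0 (z : E) : R⁻¹ z 0 = z 1 := rfl
@[simp] theorem Ri1 (z : E) : R⁻¹ z 1 = 1 - z 0 := rfl

theorem R4 : R ^ 4 = 1 := by
  ext1 z
  exact ext2 (by simp [pow_succ]) (by simp [pow_succ])

theorem R_ind (p : Equiv.Perm E → Prop) (h1 : p 1) (hR : ∀ σ, p σ → p (R * σ))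
    (hR' : ∀ σ, p σ → p (R⁻¹ * σ)) (k : ℤ) : p (R ^ k) := by
  induction k with
  | zero => simpa using h1
  | succ n ih => rw [add_comm, zpow_one_add]; exact hR _ ih
  | pred n ih => rw [sub_eq_neg_add, zpow_add, zpow_neg_one]; exact hR' _ ih

theorem isAff_R (k : ℤ) : IsAff ⇑(R ^ k) := by
  refine R_ind (fun σ => IsAff σ) isAff_id (fun σ h => IsAff.comp (g := ⇑R) ?_ h)
    (fun σ h => IsAff.comp (g := ⇑R⁻¹) ?_ h) k
  · convert isAff_mk 0 (-1) 1 1 0 0 using 1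
    funext z; exact ext2 (by simp; ring) (by simp)
  · convert isAff_mk 0 1 0 (-1) 0 1 using 1
    funext z; exact ext2 (by rw [Ri0]; simp) (by rw [Ri1]; simp; ring)

theorem R_box (a b : ℝ) (hab : a + b = 1) (k : ℤ) (z : E)
    (h : (a ≤ z 0 ∧ z 0 ≤ b) ∧ a ≤ z 1 ∧ z 1 ≤ b) :
    (a ≤ (R ^ k) z 0 ∧ (R ^ k) z 0 ≤ b) ∧ a ≤ (R ^ k) z 1 ∧ (R ^ k) z 1 ≤ b := by
  refine R_ind (fun σ => (a ≤ σ z 0 ∧ σ z 0 ≤ b) ∧ a ≤ σ z 1 ∧ σ z 1 ≤ b) h ?_ ?_ k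
  · rintro σ ⟨⟨h1, h2⟩, h3, h4⟩
    simp only [Equiv.Perm.mul_apply, R0, R1]
    exact ⟨⟨by linarith, by linarith⟩, h1, h2⟩
  · rintro σ ⟨⟨h1, h2⟩, h3, h4⟩
    simp only [Equiv.Perm.mul_apply, Ri0, Ri1]
    exact ⟨⟨h3, h4⟩, by linarith, by linarith⟩

/-- chart on one band -/
noncomputable def ψ (q : E) : E :=
  ![(q 0 + q 1 + 12 + max 0 (q 0 - 3 * q 1 + 4)) / 16,
    (q 0 + 9 * q 1 - 4 - 3 * max 0 (q 0 - 3 * q 1 + 4)) / 16]

theorem ψ0 (q : E) : ψ q 0 = (q 0 + q 1 + 12 + max 0 (q 0 - 3 * q 1 + 4)) / 16 := rfl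
theorem ψ1 (q : E) : ψ q 1 = (q 0 + 9 * q 1 - 4 - 3 * max 0 (q 0 - 3 * q 1 + 4)) / 16 := rfl

/-- inverse chart -/
noncomputable def τ (z : E) : E :=
  ![(12 * z 0 + 4 * z 1 - 12 + min (24 * z 0 - 8 * z 1 - 16) (6 * z 0 - 2 * z 1 - 4)) / 2,
    (12 * z 0 + 4 * z 1 - 4 - min (24 * z 0 - 8 * z 1 - 16) (6 * z 0 - 2 * z 1 - 4)) / 6]

theorem τ0 (z : E) : τ z 0 =
    (12 * z 0 + 4 * z 1 - 12 + min (24 * z 0 - 8 * z 1 - 16) (6 * z 0 - 2 * z 1 - 4)) / 2 := rfl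
theorem τ1 (z : E) : τ z 1 =
    (12 * z 0 + 4 * z 1 - 4 - min (24 * z 0 - 8 * z 1 - 16) (6 * z 0 - 2 * z 1 - 4)) / 6 := rfl

theorem pl_ψ : PL ψ Set.univ := by
  refine PL.split 1 (-3) 4
    (PL.of_aff (isAff_mk (1 / 8) (-1 / 8) 1 (-1 / 8) (9 / 8) (-1)) fun q hq => ?_)
    (PL.of_aff (isAff_mk (1 / 16) (1 / 16) (3 / 4) (1 / 16) (9 / 16) (-1 / 4)) fun q hq => ?_)
  · have : 0 ≤ 1 * q 0 + -3 * q 1 + 4 := hq.2
    have e : max 0 (q 0 - 3 * q 1 + 4) = q 0 - 3 * q 1 + 4 := max_eq_right (by linarith)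
    exact ext2 (by rw [ψ0, e]; simp; ring) (by rw [ψ1, e]; simp; ring)
  · have : 1 * q 0 + -3 * q 1 + 4 ≤ 0 := hq.2
    have e : max 0 (q 0 - 3 * q 1 + 4) = 0 := max_eq_left (by linarith)
    exact ext2 (by rw [ψ0, e]; simp; ring) (by rw [ψ1, e]; simp; ring)

theorem pl_τ : PL τ Set.univ := by
  refine PL.split 3 (-1) (-2)
    (PL.of_aff (isAff_mk 9 1 (-8) 1 1 0) fun q hq => ?_)
    (PL.of_aff (isAff_mk 18 (-2) (-14) (-2) 2 2) fun q hq => ?_)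
  · have : 0 ≤ 3 * q 0 + -1 * q 1 + -2 := hq.2
    have e : min (24 * q 0 - 8 * q 1 - 16) (6 * q 0 - 2 * q 1 - 4) = 6 * q 0 - 2 * q 1 - 4 :=
      min_eq_right (by linarith)
    exact ext2 (by rw [τ0, e]; simp; ring) (by rw [τ1, e]; simp; ring)
  · have : 3 * q 0 + -1 * q 1 + -2 ≤ 0 := hq.2
    have e : min (24 * q 0 - 8 * q 1 - 16) (6 * q 0 - 2 * q 1 - 4) = 24 * q 0 - 8 * q 1 - 16 :=
      min_eq_left (by linarith)
    exact ext2 (by rw [τ0, e]; simp; ring) (by rw [τ1, e]; simp; ring)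

theorem ψτ (z : E) : ψ (τ z) = z := by
  refine ext2 ?_ ?_ <;> simp only [ψ0, ψ1, τ0, τ1, max_def, min_def] <;> split_ifs <;> linarith

theorem τψ (q : E) : τ (ψ q) = q := by
  refine ext2 ?_ ?_ <;> simp only [ψ0, ψ1, τ0, τ1, max_def, min_def] <;> split_ifs <;> linarith

theorem τ_mem {z : E} (h1 : 3 / 4 ≤ z 0) (h2 : z 0 ≤ 1) (h3 : 1 - z 0 ≤ z 1) (h4 : z 1 ≤ z 0) :
    |τ z 0| ≤ τ z 1 ∧ 1 ≤ τ z 1 ∧ τ z 1 ≤ 2 := by
  rw [abs_le]
  refine ⟨⟨?_, ?_⟩, ?_, ?_⟩ <;> simp only [τ0, τ1, min_def] <;> split_ifs <;> linarith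

theorem ψ_mem {q : E} (h1 : |q 0| ≤ q 1) (h2 : 1 ≤ q 1) (h3 : q 1 < 2) :
    3 / 4 ≤ ψ q 0 ∧ ψ q 0 ≤ 1 ∧ 1 - ψ q 0 ≤ ψ q 1 ∧ ψ q 1 < ψ q 0 ∧
      (ψ q 0 ≤ 3 / 4 → q 1 = |q 0|) := by
  have h := abs_le.1 h1
  have h' := neg_abs_le (q 0)
  refine ⟨?_, ?_, ?_, ?_, fun h => ?_⟩ <;> simp only [ψ0, ψ1, max_def] at * <;> split_ifs at * <;>
    linarith

theorem ψ_compat {q : E} (h1 : |q 0| ≤ q 1) (h2 : q 1 = 1) : ψ ((2 : ℝ) • q) = R (ψ q) := by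
  have h := abs_le.1 h1
  refine ext2 ?_ ?_ <;>
    simp only [R0, R1, ψ0, ψ1, max_def, Pi.smul_apply, smul_eq_mul] <;> split_ifs <;> linarith

/-- the covering map -/
noncomputable def Φ (q : E) : E := (R ^ Int.log 2 (q 1)) (ψ (((2 : ℝ) ^ Int.log 2 (q 1))⁻¹ • q))

theorem log_eq {r : ℝ} {k : ℤ} (h1 : (2 : ℝ) ^ k ≤ r) (h2 : r < 2 ^ (k + 1)) :
    Int.log 2 r = k := by
  have hr : 0 < r := lt_of_lt_of_le (by positivity) h1
  have a := (Int.zpow_le_iff_le_log (b := 2) one_lt_two hr (x := k)).1 (by exact_mod_cast h1)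
  have b := (Int.lt_zpow_iff_log_lt (b := 2) one_lt_two hr (x := k + 1)).1 (by exact_mod_cast h2)
  omega

theorem log_spec {r : ℝ} (hr : 0 < r) :
    (2 : ℝ) ^ Int.log 2 r ≤ r ∧ r < 2 ^ (Int.log 2 r + 1) :=
  ⟨by exact_mod_cast Int.zpow_log_le_self (b := 2) one_lt_two hr,
    by exact_mod_cast Int.lt_zpow_succ_log_self (b := 2) one_lt_two r⟩

theorem Φ_eq {q : E} (h : |q 0| ≤ q 1) {k : ℤ} (h1 : (2 : ℝ) ^ k ≤ q 1) (h2 : q 1 ≤ 2 ^ (k + 1)) :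
    Φ q = (R ^ k) (ψ (((2 : ℝ) ^ k)⁻¹ • q)) := by
  rcases h2.eq_or_lt with h2 | h2
  · have hp : (0 : ℝ) < 2 ^ (k + 1) := by positivity
    rw [Φ, log_eq (k := k + 1) h2.ge (by rw [h2]; exact zpow_lt_zpow_right₀ one_lt_two (by omega)),
      zpow_add_one R, Equiv.Perm.mul_apply, ← ψ_compat, smul_smul]
    · congr 3
      rw [zpow_add_one₀ two_ne_zero]
      field_simp
    · exact (smul_mem (inv_pos.2 hp) ⟨h, h2 ▸ hp⟩).1
    · simp [h2, hp.ne']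
  · rw [Φ, log_eq h1 h2]

theorem norm_mem {q : E} (hq : q ∈ C0) :
    |(((2 : ℝ) ^ Int.log 2 (q 1))⁻¹ • q) 0| ≤ (((2 : ℝ) ^ Int.log 2 (q 1))⁻¹ • q) 1 ∧
    1 ≤ (((2 : ℝ) ^ Int.log 2 (q 1))⁻¹ • q) 1 ∧ (((2 : ℝ) ^ Int.log 2 (q 1))⁻¹ • q) 1 < 2 := by
  obtain ⟨h1, h2⟩ := log_spec hq.2
  have hp : (0 : ℝ) < 2 ^ Int.log 2 (q 1) := by positivity
  refine ⟨(smul_mem (inv_pos.2 hp) hq).1, ?_, ?_⟩
  · rw [Pi.smul_apply, smul_eq_mul, ← div_eq_inv_mul, one_le_div hp]; exact h1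
  · rw [Pi.smul_apply, smul_eq_mul, ← div_eq_inv_mul, div_lt_iff₀ hp]
    rwa [zpow_add_one₀ two_ne_zero, mul_comm] at h2

theorem Φ_smul {q : E} (hq : q ∈ C0) (j : ℤ) : Φ ((2 : ℝ) ^ j • q) = (R ^ j) (Φ q) := by
  obtain ⟨h1, h2⟩ := log_spec hq.2
  have hp : (0 : ℝ) < 2 ^ j := by positivity
  rw [Φ_eq (smul_mem hp hq).1 (k := j + Int.log 2 (q 1)), Φ, zpow_add R, Equiv.Perm.mul_apply,
    smul_smul]
  · congr 4
    rw [zpow_add₀ two_ne_zero]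
    field_simp
  · rw [zpow_add₀ two_ne_zero]
    exact mul_le_mul_of_nonneg_left h1 hp.le
  · rw [add_assoc, zpow_add₀ two_ne_zero]
    exact mul_le_mul_of_nonneg_left h2.le hp.le

theorem Φ_inj {p q : E} (hp : p ∈ C0) (hq : q ∈ C0) (h : Φ p = Φ q) :
    ∃ j : ℤ, R ^ j = 1 ∧ p = (2 : ℝ) ^ j • q := by
  obtain ⟨a1, a2, a3⟩ := norm_mem hp
  obtain ⟨b1, b2, b3⟩ := norm_mem hq
  obtain ⟨c1, c2, c3, c4, -⟩ := ψ_mem a1 a2 a3
  obtain ⟨d1, d2, d3, d4, -⟩ := ψ_mem b1 b2 b3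
  rw [Φ, Φ, ← Equiv.Perm.eq_inv_iff_eq, ← Equiv.Perm.mul_apply, ← zpow_neg R, ← zpow_add] at h
  set d := -Int.log 2 (p 1) + Int.log 2 (q 1) with hd
  have e : R ^ d = R ^ (d % 4) := zpow_eq_zpow_emod d (n := 4) (by exact_mod_cast R4)
  have h0 := congrFun h 0
  have h1 := congrFun h 1
  have hd0 : d % 4 = 0 := by
    have : d % 4 = 0 ∨ d % 4 = 1 ∨ d % 4 = 2 ∨ d % 4 = 3 := by omega
    rcases this with h' | h' | h' | h'
    · exact h'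
    all_goals
      exfalso
      rw [e, h'] at h0 h1
      simp only [zpow_ofNat, pow_succ, pow_zero, one_mul, Equiv.Perm.mul_apply, R0, R1] at h0 h1
      linarith
  rw [hd0, zpow_zero] at e
  rw [e, Equiv.Perm.one_apply] at h
  have h2 := congrArg τ h
  rw [τψ, τψ] at h2
  refine ⟨-d, by rw [zpow_neg, e, inv_one], ?_⟩
  rw [inv_smul_eq_iff₀ (by positivity), smul_smul] at h2
  rw [hd, neg_add, neg_neg, zpow_add₀ two_ne_zero, zpow_neg]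
  exact h2

open Classical in
/-- the induced map of the plane -/
noncomputable def F (g : G0) (z : E) : E :=
  if h : ∃ q ∈ C0, Φ q = z then Φ (act g h.choose) else z

theorem F_Φ (g : G0) {q : E} (hq : q ∈ C0) : F g (Φ q) = Φ (act g q) := by
  have h : ∃ p ∈ C0, Φ p = Φ q := ⟨q, hq, rfl⟩
  rw [F, dif_pos h]
  obtain ⟨j, hj, e⟩ := Φ_inj h.choose_spec.1 hq h.choose_spec.2
  rw [e, act_smul _ _ (by positivity), Φ_smul (act_mem g hq), hj, Equiv.Perm.one_apply]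

theorem F_out (g : G0) {z : E} (h : ¬ ∃ q ∈ C0, Φ q = z) : F g z = z := dif_neg h

theorem F_one (z : E) : F 1 z = z := by
  by_cases h : ∃ q ∈ C0, Φ q = z
  · obtain ⟨q, hq, rfl⟩ := h
    rw [F_Φ _ hq, act_one]
  · exact F_out _ h

theorem F_mul (g h : G0) (z : E) : F (g * h) z = F g (F h z) := by
  by_cases hz : ∃ q ∈ C0, Φ q = z
  · obtain ⟨q, hq, rfl⟩ := hz
    rw [F_Φ _ hq, F_Φ _ hq, F_Φ _ (act_mem h hq), act_mul]
  · rw [F_out _ hz, F_out _ hz, F_out _ hz]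

theorem mem_cube (z : E) :
    z ∈ Set.Icc (0 : E) 1 ↔ (0 ≤ z 0 ∧ z 0 ≤ 1) ∧ 0 ≤ z 1 ∧ z 1 ≤ 1 := by
  simp only [Set.mem_Icc, Pi.le_def, Fin.forall_fin_two, Pi.zero_apply, Pi.one_apply]
  tauto

theorem F_mem (g : G0) {z : E} (hz : z ∈ Set.Icc (0 : E) 1) : F g z ∈ Set.Icc (0 : E) 1 := by
  by_cases h : ∃ q ∈ C0, Φ q = z
  · obtain ⟨q, hq, rfl⟩ := h
    rw [F_Φ _ hq, mem_cube]
    obtain ⟨a1, a2, a3⟩ := norm_mem (act_mem g hq)
    obtain ⟨c1, c2, c3, c4, -⟩ := ψ_mem a1 a2 a3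
    exact R_box 0 1 (by norm_num) _ _ ⟨⟨by linarith, c2⟩, by linarith, by linarith⟩
  · rwa [F_out _ h]

theorem F_R (g : G0) (j : ℤ) (z : E) : F g ((R ^ j) z) = (R ^ j) (F g z) := by
  by_cases h : ∃ q ∈ C0, Φ q = z
  · obtain ⟨q, hq, rfl⟩ := h
    rw [← Φ_smul hq, F_Φ _ (smul_mem (by positivity) hq), F_Φ _ hq, act_smul _ _ (by positivity),
      Φ_smul (act_mem g hq)]
  · rw [F_out _ h, F_out]
    rintro ⟨q, hq, e⟩
    refine h ⟨_, smul_mem (c := (2 : ℝ) ^ (-j)) (by positivity) hq, ?_⟩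
    rw [Φ_smul hq, e, ← Equiv.Perm.mul_apply, ← zpow_add]
    simp

theorem F_inner (g : G0) {z : E}
    (hz : (1 / 4 ≤ z 0 ∧ z 0 ≤ 3 / 4) ∧ 1 / 4 ≤ z 1 ∧ z 1 ≤ 3 / 4) : F g z = z := by
  by_cases h : ∃ q ∈ C0, Φ q = z
  · obtain ⟨q, hq, rfl⟩ := h
    rw [F_Φ _ hq, act_bd]
    obtain ⟨a1, a2, a3⟩ := norm_mem hq
    have := (R_box _ _ (by norm_num) (-Int.log 2 (q 1)) _ hz).1.2
    rw [Φ, ← Equiv.Perm.mul_apply, ← zpow_add, neg_add_cancel, zpow_zero,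
      Equiv.Perm.one_apply] at this
    have e := (ψ_mem a1 a2 a3).2.2.2.2 this
    have hp : (0 : ℝ) < (2 ^ Int.log 2 (q 1))⁻¹ := by positivity
    simp only [Pi.smul_apply, smul_eq_mul, abs_mul, abs_of_pos hp] at e
    exact mul_left_cancel₀ hp.ne' e
  · exact F_out _ h

theorem pl_Φ (a : ℤ) (n : ℕ) :
    PL Φ {q | |q 0| ≤ q 1 ∧ (2 : ℝ) ^ a ≤ q 1 ∧ q 1 ≤ 2 ^ (a + n + 1)} := by
  have band : ∀ k : ℤ, PL Φ {q | |q 0| ≤ q 1 ∧ (2 : ℝ) ^ k ≤ q 1 ∧ q 1 ≤ 2 ^ (k + 1)} := by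
    intro k
    have h1 := (PL.of_aff (isAff_R k) (X := Set.univ) fun _ _ => rfl).comp
      (pl_ψ.comp (PL.of_aff (isAff_smul ((2 : ℝ) ^ k)⁻¹) (X := Set.univ) fun _ _ => rfl)
        (Set.mapsTo_univ _ _)) (Set.mapsTo_univ _ _)
    exact (h1.mono (Set.subset_univ _)).congr fun q hq => Φ_eq hq.1 hq.2.1 hq.2.2
  induction n with
  | zero => simpa using band a
  | succ n ih =>
    refine PL.split 0 1 (-2 ^ (a + n + 1)) ((band (a + n + 1)).mono ?_) (ih.mono ?_)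
    · rintro q ⟨⟨h1, h2, h3⟩, h4⟩
      have h4 : 0 ≤ 0 * q 0 + 1 * q 1 + -2 ^ (a + n + 1) := h4
      refine ⟨h1, by linarith, ?_⟩
      rwa [Nat.cast_succ, ← add_assoc] at h3
    · rintro q ⟨⟨h1, h2, h3⟩, h4⟩
      have h4 : 0 * q 0 + 1 * q 1 + -2 ^ (a + n + 1) ≤ 0 := h4
      exact ⟨h1, h2, by linarith⟩

theorem pl_F (g : G0) : PL (F g) (Set.Icc 0 1) := by
  have T0 : PL (F g) {z | z 0 ≤ 1 ∧ 1 - z 0 ≤ z 1 ∧ z 1 ≤ z 0} := by
    refine PL.split 1 0 (-3 / 4) ?_ (PL.of_aff isAff_id ?_)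
    · obtain ⟨n, hn⟩ := pow_unbounded_of_one_lt
        (max (1 + |g⁻¹.b| + g⁻¹.α) (1 + |g.b| + g.α)) (one_lt_two (α := ℝ))
      rw [max_lt_iff] at hn
      have hτ : ∀ z ∈ {z : E | z 0 ≤ 1 ∧ 1 - z 0 ≤ z 1 ∧ z 1 ≤ z 0} ∩
          {z | 0 ≤ 1 * z 0 + 0 * z 1 + -3 / 4}, |τ z 0| ≤ τ z 1 ∧ 1 ≤ τ z 1 ∧ τ z 1 ≤ 2 := by
        rintro z ⟨⟨h1, h2, h3⟩, h4⟩
        have h4 : 0 ≤ 1 * z 0 + 0 * z 1 + -3 / 4 := h4
        exact τ_mem (by linarith) h1 h2 h3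
      refine ((pl_Φ (-n) (2 * n)).comp (((pl_act g).comp pl_τ (Set.mapsTo_univ _ _)).mono
        (Set.subset_univ _)) fun z hz => ?_).congr fun z hz => ?_
      · obtain ⟨h1, h2, h3⟩ := hτ z hz
        have hm : τ z ∈ C0 := ⟨h1, by linarith⟩
        have hm' := act_mem g hm
        refine ⟨hm'.1, ?_, ?_⟩
        · have := act_le g⁻¹ hm'
          rw [← act_mul, inv_mul_cancel, act_one] at this
          rw [zpow_neg, zpow_natCast, inv_le_iff_one_le_mul₀' (by positivity)]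
          change 1 ≤ 2 ^ n * act g (τ z) 1
          nlinarith [hm'.2]
        · have := act_le g hm
          rw [show -(n : ℤ) + ((2 * n : ℕ) : ℤ) + 1 = ((n + 1 : ℕ) : ℤ) by push_cast; ring,
            zpow_natCast, pow_succ]
          change act g (τ z) 1 ≤ _
          have h5 : (0 : ℝ) < 2 ^ n := by positivity
          nlinarith
      · obtain ⟨h1, h2, h3⟩ := hτ z hz
        have hm : τ z ∈ C0 := ⟨h1, by linarith⟩
        have : Φ (τ z) = z := by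
          rw [Φ_eq h1 (k := 0) (by simpa using h2) (by simpa using h3)]
          simp [ψτ]
        simp only [Function.comp]
        rw [← F_Φ g hm, this]
    · rintro z ⟨⟨h1, h2, h3⟩, h4⟩
      have h4 : 1 * z 0 + 0 * z 1 + -3 / 4 ≤ 0 := h4
      exact F_inner g ⟨⟨by linarith, by linarith⟩, by linarith, by linarith⟩
  have Tj : ∀ (j : ℤ) (X : Set E), (∀ z ∈ X, (R ^ j) z 0 ≤ 1 ∧ 1 - (R ^ j) z 0 ≤ (R ^ j) z 1 ∧
      (R ^ j) z 1 ≤ (R ^ j) z 0) → PL (F g) X := by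
    intro j X hX
    refine ((PL.of_aff (isAff_R (-j)) (X := Set.univ) fun _ _ => rfl).comp
      (T0.comp (PL.of_aff (isAff_R j) fun _ _ => rfl) hX) (Set.mapsTo_univ _ _)).congr fun z _ => ?_
    simp only [Function.comp]
    rw [F_R, ← Equiv.Perm.mul_apply, ← zpow_add]
    simp
  refine PL.split 1 (-1) 0 (PL.split 1 1 (-1) (Tj 0 _ ?_) (Tj 1 _ ?_))
    (PL.split 1 1 (-1) (Tj 3 _ ?_) (Tj 2 _ ?_))
  all_goals
    rintro z ⟨⟨h1, h2⟩, h3⟩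
    rw [mem_cube] at h1
    obtain ⟨⟨a, b⟩, c, d⟩ := h1
    simp only [Set.mem_ofPred_eq] at h2 h3
    simp only [zpow_ofNat, pow_succ, pow_zero, one_mul, Equiv.Perm.mul_apply, R0, R1,
      Equiv.Perm.one_apply]
    exact ⟨by linarith, by linarith, by linarith⟩

noncomputable instance : MulAction G0 (Set.Icc (0 : E) 1) where
  smul g z := ⟨F g z, F_mem g z.2⟩
  one_smul z := Subtype.ext (F_one z)
  mul_smul g h z := Subtype.ext (F_mul g h z)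

/-- the action on the square -/
noncomputable def θ : G0 →* Equiv.Perm (Set.Icc (0 : E) 1) := MulAction.toPermHom G0 _

theorem θ_apply (g : G0) (z : Set.Icc (0 : E) 1) : (θ g z).1 = F g z := rfl

theorem θ_inj (g : G0) (h : θ g = 1) : g = 1 := by
  have key : ∀ q ∈ C0, ∃ c : ℝ, act g q = c • q := by
    intro q hq
    have h1 : Φ q ∈ Set.Icc (0 : E) 1 := by
      rw [mem_cube]
      obtain ⟨a1, a2, a3⟩ := norm_mem hq
      obtain ⟨c1, c2, c3, c4, -⟩ := ψ_mem a1 a2 a3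
      exact R_box 0 1 (by norm_num) _ _ ⟨⟨by linarith, c2⟩, by linarith, by linarith⟩
    have h2 := θ_apply g ⟨_, h1⟩
    rw [h, F_Φ g hq] at h2
    obtain ⟨j, -, e⟩ := Φ_inj (act_mem g hq) hq h2.symm
    exact ⟨_, e⟩
  obtain ⟨c, hc⟩ := key ![0, 1] ⟨by simp, by simp⟩
  obtain ⟨d, hd⟩ := key ![1, 2] ⟨by simp, by simp⟩
  have hb : g.b = 0 := by simpa [act0] using congrFun hc 0
  have h0 := congrFun hd 0
  have h1 := congrFun hd 1
  simp [act0, act1, hb] at h0 h1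
  ext
  · exact hb
  · simp; linarith

theorem θ_cont (g : G0) : Continuous (θ g) :=
  continuous_induced_rng.2 (pl_F g).final.1.domRestrict

end Pool.Agent.H71.PLCube
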