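import Mathlib
import Pool.Agent.H71.PLCube2

set_option autoImplicit false

namespace Pool.Agent.H71.PLCube

open Cardinal

theorem exists_ai : ∃ α : Fin 3 → ℝ, (∀ i, 0 < α i) ∧ AlgebraicIndependent ℚ α := by
  have htop : Algebra.adjoin ℚ (Set.Ioi (0 : ℝ)) = ⊤ := by
    rw [eq_top_iff]
    intro x _
    have : x = (|x| + x + 1) - (|x| + 1) := by ring
    rw [this]
    refine sub_mem (Algebra.subset_adjoin ?_) (Algebra.subset_adjoin ?_)
    · have := neg_abs_le x
      rw [Set.mem_Ioi]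
      linarith
    · rw [Set.mem_Ioi]
      positivity
  have : Algebra.IsAlgebraic (Algebra.adjoin ℚ (Set.Ioi (0 : ℝ))) ℝ :=
    ⟨fun x => isAlgebraic_algebraMap (⟨x, htop ▸ Algebra.mem_top⟩ : Algebra.adjoin ℚ (Set.Ioi (0 : ℝ)))⟩
  obtain ⟨s, hs, hb⟩ := exists_isTranscendenceBasis_subset (R := ℚ) (Set.Ioi (0 : ℝ))
  have hinf : Infinite s := by
    rw [← not_finite_iff_infinite]
    intro hf
    rcases isEmpty_or_nonempty s with h | h
    · have := hb.isEmpty_iff_isAlgebraic.1 h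
      have h2 := Algebra.IsAlgebraic.cardinalMk_le_max ℚ ℝ
      rw [mk_real, Cardinal.mkRat, max_self] at h2
      exact aleph0_lt_continuum.not_ge h2
    · have h2 := hb.lift_cardinalMk_eq_max_lift
      simp only [lift_id, mk_real, Cardinal.mkRat] at h2
      exact aleph0_lt_continuum.not_ge
        (h2.trans_le (sup_le (sup_le le_rfl (lt_aleph0_of_finite s).le) le_rfl))
  let e : Fin 3 ↪ s := Fin.valEmbedding.trans (Infinite.natEmbedding s)
  exact ⟨fun i => e i, fun i => hs (e i).2, hb.1.comp e e.injective⟩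

theorem exists_w : ∃ w : Fin 3 → ℝ,
    LinearIndependent ℚ fun v : Fin 3 → ℤ => Real.exp (-∑ i, v i * w i) := by
  obtain ⟨α, hp, ha⟩ := exists_ai
  refine ⟨fun i => Real.log (α i), ?_⟩
  have hm := (MvPolynomial.basisMonomials (Fin 3) ℚ).linearIndependent.map'
    (MvPolynomial.aeval α).toLinearMap (LinearMap.ker_eq_bot.2 ha)
  rw [linearIndependent_iff']
  intro s g hg
  obtain ⟨N, hN⟩ := ((s ×ˢ Finset.univ).image fun p : (Fin 3 → ℤ) × Fin 3 => p.1 p.2).bddAbove
  have hN' : ∀ v : s, ∀ i, v.1 i ≤ N := fun v i =>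
    hN (Finset.mem_coe.2 (Finset.mem_image.2 ⟨(v, i), by simp, rfl⟩))
  have h2 := hm.comp (fun v : s => Finsupp.equivFunOnFinite.symm fun i => (N - v.1 i).toNat) (by
    intro v v' h
    ext i
    have := congrFun (Finsupp.equivFunOnFinite.symm.injective h) i
    have a := hN' v i
    have b := hN' v' i
    omega)
  have h3 := Fintype.linearIndependent_iff.1 h2 (fun v => g v) (by
    rw [← Finset.sum_coe_sort s] at hg
    have := congrArg (fun x => Real.exp (∑ i, N * Real.log (α i)) * x) hg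
    simp only [mul_zero, Finset.mul_sum, mul_smul_comm] at this
    rw [← this]
    refine Finset.sum_congr rfl fun v _ => ?_
    congr 1
    rw [← Real.exp_add, ← sub_eq_add_neg, ← Finset.sum_sub_distrib, Real.exp_sum]
    simp only [Function.comp, MvPolynomial.coe_basisMonomials, AlgHom.toLinearMap_apply,
      MvPolynomial.aeval_monomial, map_one, one_mul]
    rw [Finsupp.prod_fintype _ _ (by simp)]
    refine Finset.prod_congr rfl fun i _ => ?_
    rw [← sub_mul, ← Int.cast_sub, ← Int.toNat_of_nonneg (sub_nonneg.2 (hN' v i)), Int.cast_natCast,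
      Real.exp_nat_mul, Real.exp_log (hp i)]
    simp)
  exact fun v hv => h3 ⟨v, hv⟩

/-- diagonal matrices -/
noncomputable def dg : Multiplicative ℝ →* G0 where
  toFun x := ⟨0, Real.exp x.toAdd, Real.exp_pos _⟩
  map_one' := by ext <;> simp
  map_mul' x y := by ext <;> simp [Real.exp_add]

/-- shears -/
noncomputable def sh : Multiplicative ℝ →* G0 where
  toFun x := ⟨x.toAdd, 1, one_pos⟩
  map_one' := by ext <;> simp
  map_mul' x y := by ext <;> simp [add_comm]

theorem dg_sh (x : ℝ) : dg (.ofAdd x) * sh (.ofAdd 1) * (dg (.ofAdd x))⁻¹ =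
    sh (.ofAdd (Real.exp (-x))) := by
  ext <;> simp [dg, sh, Real.exp_neg]

theorem prod_t (w : Fin 3 → ℝ) (v : Fin 3 → ℤ) :
    (List.ofFn fun i => θ (dg (.ofAdd (w i))) ^ v i).prod = θ (dg (.ofAdd (∑ i, v i * w i))) := by
  simp only [List.ofFn_succ, List.ofFn_zero, List.prod_cons, List.prod_nil, ← map_zpow, mul_one,
    ← map_mul, ← ofAdd_zsmul, ← ofAdd_add, Fin.sum_univ_succ, zsmul_eq_mul]
  simp

theorem conj_a (w : Fin 3 → ℝ) (v : Fin 3 → ℤ) :
    (List.ofFn fun i => θ (dg (.ofAdd (w i))) ^ v i).prod * θ (sh (.ofAdd 1)) *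
      ((List.ofFn fun i => θ (dg (.ofAdd (w i))) ^ v i).prod)⁻¹ =
      θ (sh (.ofAdd (Real.exp (-∑ i, v i * w i)))) := by
  rw [prod_t, ← map_inv, ← map_mul, ← map_mul, dg_sh]

theorem faithful {w : Fin 3 → ℝ}
    (hw : LinearIndependent ℚ fun v : Fin 3 → ℤ => Real.exp (-∑ i, v i * w i))
    (l : List ((Fin 3 → ℤ) × ℤ)) (v : Fin 3 → ℤ) (hl : (l.map Prod.fst).Nodup)
    (h : (l.map fun p => θ (sh (.ofAdd (Real.exp (-∑ i, p.1 i * w i)))) ^ p.2).prod *
      θ (dg (.ofAdd (∑ i, v i * w i))) = 1) : v = 0 ∧ ∀ p ∈ l, p.2 = 0 := by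
  classical
  have e : ∀ l : List ((Fin 3 → ℤ) × ℤ),
      (l.map fun p => θ (sh (.ofAdd (Real.exp (-∑ i, p.1 i * w i)))) ^ p.2).prod =
      θ (sh (.ofAdd (l.map fun p => (p.2 : ℚ) • Real.exp (-∑ i, p.1 i * w i)).sum)) := by
    intro l
    induction l with
    | nil => simp
    | cons p l ih =>
      rw [List.map_cons, List.prod_cons, ih, List.map_cons, List.sum_cons, ofAdd_add, map_mul,
        map_mul, ← map_zpow, ← map_zpow, ← ofAdd_zsmul, Int.cast_smul_eq_zsmul]
  rw [e, ← map_mul] at h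
  have h1 := θ_inj _ h
  have ha := congrArg G0.α h1
  have hb := congrArg G0.b h1
  simp only [mul_α, mul_b, sh, dg, MonoidHom.coe_mk, OneHom.coe_mk, toAdd_ofAdd, one_mul, one_α,
    one_b, zero_add, mul_eq_zero, Real.exp_ne_zero, or_false, Real.exp_eq_one_iff] at ha hb
  refine ⟨hw.injective (by simp only [ha]; simp), fun p hp => ?_⟩
  rw [← List.sum_toFinset _ hl.of_map, ← Finset.sum_coe_sort] at hb
  have := Fintype.linearIndependent_iff.1 (hw.comp (fun p : l.toFinset => p.1.1) (by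
    intro p q h
    exact Subtype.ext (List.inj_on_of_nodup_map hl (List.mem_toFinset.1 p.2)
      (List.mem_toFinset.1 q.2) h))) (fun p => (p.1.2 : ℚ)) hb ⟨p, List.mem_toFinset.2 hp⟩
  exact_mod_cast this

end Pool.Agent.H71.PLCube
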