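import Mathlib
import Pool.Agent.H71.PLCube3

set_option autoImplicit false

namespace Pool.Agent.H71.PLCube

theorem F_bd (g : G0) {z : E} (hz : z 0 = 0 ∨ z 0 = 1 ∨ z 1 = 0 ∨ z 1 = 1) : F g z = z := by
  by_cases h : ∃ q ∈ C0, Φ q = z
  · obtain ⟨q, hq, rfl⟩ := h
    rw [F_Φ _ hq, act_bd]
    obtain ⟨a1, a2, a3⟩ := norm_mem hq
    obtain ⟨c1, c2, c3, c4, -⟩ := ψ_mem a1 a2 a3
    have := R_box (1 - ψ (((2 : ℝ) ^ Int.log 2 (q 1))⁻¹ • q) 0) _ (sub_add_cancel _ _)
      (Int.log 2 (q 1)) _ ⟨⟨by linarith, le_rfl⟩, c3, c4.le⟩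
    have e0 : 1 ≤ ψ (((2 : ℝ) ^ Int.log 2 (q 1))⁻¹ • q) 0 := by
      unfold Φ at hz
      rcases hz with h | h | h | h <;> linarith [this.1.1, this.1.2, this.2.1, this.2.2]
    have e : (((2 : ℝ) ^ Int.log 2 (q 1))⁻¹ • q) 1 = |(((2 : ℝ) ^ Int.log 2 (q 1))⁻¹ • q) 0| := by
      have h := abs_le.1 a1
      have h' := le_abs_self ((((2 : ℝ) ^ Int.log 2 (q 1))⁻¹ • q) 0)
      rw [ψ0, max_def] at e0
      split_ifs at e0 <;> linarith
    have hp : (0 : ℝ) < (2 ^ Int.log 2 (q 1))⁻¹ := by positivity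
    simp only [Pi.smul_apply, smul_eq_mul, abs_mul, abs_of_pos hp] at e
    exact mul_left_cancel₀ hp.ne' e
  · exact F_out _ h

abbrev E3 : Type := Fin 3 → ℝ

/-- the chart of the top face -/
noncomputable def up : E →ᵃ[ℝ] E3 := AffineMap.pi ![fn 2 0 (-1), fn 0 2 (-1), fn 0 0 1]

/-- its inverse -/
noncomputable def dn : E3 →ᵃ[ℝ] E :=
  ((1 / 2 : ℝ) • LinearMap.funLeft ℝ ℝ Fin.castSucc : E3 →ₗ[ℝ] E).toAffineMap +
    AffineMap.const ℝ E3 (fun _ => 1 / 2 : E)

theorem up_eq (z : E) : up z = ![2 * z 0 - 1, 2 * z 1 - 1, 1] := by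
  ext i; fin_cases i <;> simp [up, fn_apply, sub_eq_add_neg]

theorem dn0 (x : E3) : dn x 0 = (x 0 + 1) / 2 := by simp [dn, LinearMap.funLeft_apply]; ring
theorem dn1 (x : E3) : dn x 1 = (x 1 + 1) / 2 := by simp [dn, LinearMap.funLeft_apply]; ring

theorem dn_up (z : E) : dn (up z) = z := ext2 (by simp [dn0, up_eq]) (by simp [dn1, up_eq])

theorem up_dn {x : E3} (h : x 2 = 1) : up (dn x) = x := by
  ext i; fin_cases i <;> simp [up_eq, dn0, dn1, h] <;> ring

theorem sph_le (x : Metric.sphere (0 : E3) 1) (i : Fin 3) : |x.1 i| ≤ 1 :=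
  (norm_le_pi_norm x.1 i).trans_eq (mem_sphere_zero_iff_norm.1 x.2)

theorem up_mem {z : E} (hz : z ∈ Set.Icc (0 : E) 1) : up z ∈ Metric.sphere (0 : E3) 1 := by
  rw [mem_cube] at hz
  refine mem_sphere_zero_iff_norm.2 (le_antisymm ((pi_norm_le_iff_of_nonneg zero_le_one).2
    fun i => ?_) (by simpa [up_eq] using norm_le_pi_norm (up z) 2))
  rw [Real.norm_eq_abs, abs_le]
  fin_cases i <;> simp [up_eq] <;> constructor <;> linarith [hz.1.1, hz.1.2, hz.2.1, hz.2.2]

theorem dn_mem (x : Metric.sphere (0 : E3) 1) : dn x ∈ Set.Icc (0 : E) 1 := by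
  have h0 := abs_le.1 (sph_le x 0)
  have h1 := abs_le.1 (sph_le x 1)
  rw [mem_cube, dn0, dn1]
  exact ⟨⟨by linarith, by linarith⟩, by linarith, by linarith⟩

open Classical in
/-- the action on space -/
noncomputable def T (g : G0) (x : E3) : E3 := if x 2 = 1 then up (F g (dn x)) else x

noncomputable instance : MulAction G0 (Metric.sphere (0 : E3) 1) where
  smul g x := ⟨T g x, by
    unfold T
    split_ifs
    exacts [up_mem (F_mem g (dn_mem x)), x.2]⟩
  one_smul x := Subtype.ext (by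
    change T 1 x = x
    unfold T
    split_ifs with h
    · rw [F_one, up_dn h]
    · rfl)
  mul_smul g h x := Subtype.ext (by
    change T (g * h) x = T g (T h x)
    by_cases hx : x.1 2 = 1
    · rw [T, T, T, if_pos hx, if_pos hx, if_pos (by simp [up_eq]), dn_up, F_mul]
    · rw [T, T, T, if_neg hx, if_neg hx, if_neg hx])

/-- the action on the sphere -/
noncomputable def θ3 : G0 →* Equiv.Perm (Metric.sphere (0 : E3) 1) := MulAction.toPermHom G0 _

theorem θ3_inj : Function.Injective θ3 := (injective_iff_map_eq_one _).2 fun g h =>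
  θ_inj g (Equiv.ext fun z => Subtype.ext (by
    have : T g (up z) = up z := congrArg Subtype.val (Equiv.ext_iff.1 h ⟨_, up_mem z.2⟩)
    rw [T, if_pos (by simp [up_eq]), dn_up] at this
    simpa [dn_up, θ_apply] using congrArg dn this))

theorem θ3_pl (g : G0) : Continuous (θ3 g) ∧ ∃ m : ℕ, ∃ C : Fin m → Set E3,
    ∃ A : Fin m → (E3 →ᵃ[ℝ] E3), (∀ j, ∃ s : Finset E3, C j = convexHull ℝ (↑s : Set E3)) ∧
      (∀ x : Metric.sphere (0 : E3) 1, ∃ j, (x : E3) ∈ C j) ∧
      ∀ j, ∀ x : Metric.sphere (0 : E3) 1, (x : E3) ∈ C j → (θ3 g x : E3) = A j x := by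
  classical
  obtain ⟨k, S, A, h1, h2⟩ := (pl_F g).final.2
  let P : Type := {p : Fin 3 × ℝ // (p.2 = 1 ∨ p.2 = -1) ∧ p ≠ (2, 1)}
  have : Finite P := Set.Finite.subset (Set.finite_univ.prod (Set.toFinite {(1 : ℝ), -1}))
    fun p hp => ⟨trivial, hp.1⟩
  let s : Fin k ⊕ P → Finset E3 := Sum.elim (fun i => (S i).image up) fun p =>
    Fintype.piFinset fun i => if i = p.1.1 then {p.1.2} else {-1, 1}
  let B : Fin k ⊕ P → (E3 →ᵃ[ℝ] E3) := Sum.elim (fun i => up.comp ((A i).comp dn))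
    fun _ => AffineMap.id _ _
  have face : ∀ (p : P) (x : E3), x ∈ convexHull ℝ (s (.inr p) : Set E3) ↔
      ∀ i, if i = p.1.1 then x i = p.1.2 else |x i| ≤ 1 := fun p x => by
    simp only [s, Sum.elim_inr, Fintype.coe_piFinset, convexHull_pi, Set.mem_univ_pi]
    refine forall_congr' fun i => ?_
    split_ifs <;> simp [segment_eq_Icc, abs_le]
  have cov : ∀ x : Metric.sphere (0 : E3) 1, ∃ j, (x : E3) ∈ convexHull ℝ (s j : Set E3) :=
    fun x => by
    by_cases hx : x.1 2 = 1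
    · obtain ⟨i, hi⟩ := h1 _ (dn_mem x)
      refine ⟨.inl i, ?_⟩
      simp only [s, Sum.elim_inl, Finset.coe_image, ← AffineMap.image_convexHull]
      exact ⟨_, hi, up_dn hx⟩
    · obtain ⟨i, hi⟩ : ∃ i, 1 ≤ |x.1 i| := by
        by_contra hc
        push Not at hc
        exact ((pi_norm_lt_iff one_pos).2 hc).ne (mem_sphere_zero_iff_norm.1 x.2)
      refine ⟨.inr ⟨(i, x.1 i), (abs_eq zero_le_one).1 (le_antisymm (sph_le x i) hi), fun e => hx ?_⟩,
        (face _ _).2 fun j => ?_⟩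
      · obtain ⟨rfl, e⟩ := Prod.ext_iff.1 e
        exact e
      · split_ifs with h
        exacts [by rw [h], sph_le x j]
  have aff : ∀ j, ∀ x : Metric.sphere (0 : E3) 1, (x : E3) ∈ convexHull ℝ (s j : Set E3) →
      (θ3 g x : E3) = B j x := by
    rintro (i | ⟨⟨i, c⟩, hc, hne⟩) x hx <;> change T g x = _
    · simp only [s, Sum.elim_inl, Finset.coe_image, ← AffineMap.image_convexHull] at hx
      obtain ⟨z, hz, e⟩ := hx
      rw [← e, T, if_pos (by simp [up_eq]), dn_up, h2 i z hz]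
      simp [B, dn_up]
    · have := (face _ _).1 hx i
      rw [if_pos rfl] at this
      change _ = x.1
      unfold T
      split_ifs with h
      · rw [F_bd, up_dn h]
        rw [dn0, dn1]
        have e : x.1 i = c := this
        have hc : c = 1 ∨ c = -1 := hc
        clear hx this face cov
        have : i = 0 ∨ i = 1 ∨ i = 2 := (by decide : ∀ i : Fin 3, i = 0 ∨ i = 1 ∨ i = 2) i
        rcases this with rfl | rfl | rfl
        · rcases hc with rfl | rfl <;> simp [e]
        · rcases hc with rfl | rfl <;> simp [e]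
        · exact absurd (by rw [← e, h]) hne
      · rfl
  obtain ⟨m, ⟨σ⟩⟩ := Finite.exists_equiv_fin (Fin k ⊕ P)
  refine ⟨continuous_induced_rng.2 ?_, m, fun j => convexHull ℝ (s (σ.symm j)), fun j => B (σ.symm j),
    fun j => ⟨_, rfl⟩, fun x => (cov x).elim fun j hj => ⟨σ j, by simpa using hj⟩, fun j => aff _⟩
  refine (locallyFinite_of_finite fun j => Subtype.val ⁻¹' convexHull ℝ (s j : Set E3)).continuous
    (Set.eq_univ_of_forall fun x => Set.mem_iUnion.2 (cov x))
    (fun j => ((s j).finite_toSet.isClosed_convexHull ℝ).preimage continuous_subtype_val) fun j =>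
    ((B j).continuous_of_finiteDimensional.comp continuous_subtype_val).continuousOn.congr (aff j)

/-- the graph of the embedding of the wreath product -/
def Γ (w : Fin 3 → ℝ) : Subgroup (Equiv.Perm ((Fin 3 → ℤ) × ℤ) × G0) where
  carrier := {p | ∃ (f : (Fin 3 → ℤ) →₀ ℤ) (v : Fin 3 → ℤ),
    (∀ u k, p.1 (u, k) = (u + v, k + f u)) ∧ p.2.α = Real.exp (∑ i, v i * w i) ∧
      p.2.b = f.sum fun u n => n * Real.exp (-∑ i, u i * w i)}
  one_mem' := ⟨0, 0, by simp, by simp, by simp⟩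
  mul_mem' := by
    rintro p q ⟨f, v, a1, a2, a3⟩ ⟨f', v', b1, b2, b3⟩
    refine ⟨f' + f.equivMapDomain (Equiv.subRight v'), v' + v, fun u k => by
      simp [a1, b1, add_assoc], by
      simp [a2, b2, ← Real.exp_add, add_mul, Finset.sum_add_distrib, add_comm], ?_⟩
    rw [Finsupp.sum_add_index' (by simp) (by simp [add_mul]), Finsupp.sum_equivMapDomain,
      Prod.snd_mul, mul_b, a3, b3, b2, Finsupp.sum_mul]
    simp [mul_assoc, ← Real.exp_add, sub_mul, Finset.sum_sub_distrib, add_comm, sub_eq_add_neg,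
      add_mul, Finset.sum_add_distrib]
  inv_mem' := by
    rintro p ⟨f, v, a1, a2, a3⟩
    refine ⟨-f.equivMapDomain (Equiv.addRight v), -v, fun u k => by
      rw [Prod.fst_inv, Equiv.Perm.inv_eq_iff_eq, a1]; simp [sub_eq_add_neg], by
      simp [a2, Real.exp_neg], ?_⟩
    rw [Finsupp.sum_neg_index (by simp), Finsupp.sum_equivMapDomain,
      Prod.snd_inv, inv_b, a3, a2, neg_mul, Finsupp.sum_mul, ← Finsupp.sum_neg]
    simp [mul_assoc, ← Real.exp_add, ← Real.exp_neg, add_mul, Finset.sum_add_distrib, add_comm]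

theorem exists_hom (W : Subgroup (Equiv.Perm ((Fin 3 → ℤ) × ℤ)))
    (hW : ∀ w, W ≤ (Γ w).map (MonoidHom.fst _ _)) : ∃ ρ : W →* G0, Function.Injective ρ := by
  obtain ⟨w, hw⟩ := exists_w
  have key : ∀ p : Γ w, p.1.1 = 1 ↔ p.1.2 = 1 := by
    rintro ⟨p, f, v, a1, a2, a3⟩
    refine Iff.trans (b := f = 0 ∧ v = 0) ⟨fun h => ?_, fun h => ?_⟩ ⟨fun h => ?_, fun h => ?_⟩
    · change p.1 = 1 at h
      exact ⟨Finsupp.ext fun u => by simpa [h] using (congrArg Prod.snd (a1 u 0)).symm,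
        by simpa [h] using (congrArg Prod.fst (a1 0 0)).symm⟩
    · exact Equiv.ext fun x => by simpa [h.1, h.2] using a1 x.1 x.2
    · ext
      · simpa [h.1] using a3
      · simpa [h.2] using a2
    · change p.2 = 1 at h
      rw [h] at a2 a3
      refine ⟨linearIndependent_iff.1 (hw.restrict_scalars' ℤ) f (by
        simpa [Finsupp.linearCombination_apply] using a3.symm), hw.injective ?_⟩
      simp [Real.exp_neg, ← a2]
  have i1 : Function.Injective ((MonoidHom.fst _ _).comp (Γ w).subtype) :=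
    (injective_iff_map_eq_one _).2 fun p h => Subtype.ext (Prod.ext h ((key p).1 h))
  have i2 : Function.Injective ((MonoidHom.snd _ _).comp (Γ w).subtype) :=
    (injective_iff_map_eq_one _).2 fun p h => Subtype.ext (Prod.ext ((key p).2 h) h)
  have le : W ≤ ((MonoidHom.fst _ _).comp (Γ w).subtype).range := by
    rw [MonoidHom.range_comp, Subgroup.range_subtype]; exact hW w
  exact ⟨_, (i2.comp (MonoidHom.ofInjective i1).symm.injective).comp
    (Subgroup.inclusion_injective le) |> fun h : Function.Injective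
      ((((MonoidHom.snd _ _).comp (Γ w).subtype).comp
        (MonoidHom.ofInjective i1).symm.toMonoidHom).comp (Subgroup.inclusion le)) => h⟩

end Pool.Agent.H71.PLCube
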