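import Mathlib
import Pool.Agent.H71.Fox
import Pool.Agent.H71.Cover

set_option autoImplicit false

namespace Pool.Agent.H71.Para

open scoped commutatorElement
open Subgroup Function Pool.Agent.H71.Fox
open Pool.Agent.H71.Cover (γ comm_mem γ_map)

/-- generator -/
abbrev a : F := .of 0
/-- generator -/
abbrev b : F := .of 1
/-- generator -/
abbrev c : F := .of 2
/-- relator -/
def r : F := a * a * b * b * (c * c * c)⁻¹

section
variable {R : Type} [Ring R] (χ : F →* R)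

theorem d0_r : d χ 0 r = 1 + χ a := by simp [r, d_mul, d_inv, d_of]

theorem d1_r : d χ 1 r = χ a * χ a * (1 + χ b) := by simp [r, d_mul, d_inv, d_of, mul_add]

theorem d2_r (h : χ r = 1) : d χ 2 r = -(1 + χ c + χ c * χ c) := by
  have e : χ (a * a * b * b) * χ (c * c * c)⁻¹ = 1 := by rw [← map_mul]; exact h
  rw [r, d_mul, d_inv, mul_neg, ← mul_assoc, e]
  simp [d_mul, d_of]

end

/-- normal subgroups containing `r` with finite 7-group quotient -/
def Good (M : Subgroup F) : Prop :=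
  M.Normal ∧ r ∈ M ∧ M.FiniteIndex ∧ ∃ j, ∀ g, g ^ 7 ^ j ∈ M

theorem Good.inf {M M' : Subgroup F} (h : Good M) (h' : Good M') : Good (M ⊓ M') := by
  obtain ⟨h1, h2, h3, j, h4⟩ := h
  obtain ⟨h1', h2', h3', j', h4'⟩ := h'
  refine ⟨inferInstance, ⟨h2, h2'⟩, inferInstance, j + j', fun g => ⟨?_, ?_⟩⟩
  · rw [pow_add, pow_mul]; exact pow_mem (h4 g) _
  · rw [add_comm, pow_add, pow_mul]; exact pow_mem (h4' g) _

theorem good_top : Good ⊤ := ⟨inferInstance, trivial, inferInstance, 0, fun _ => trivial⟩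

/-- the finite 7-residual -/
def T : Subgroup F := sInf {M | Good M}

instance : T.Normal := ⟨fun _ hw g => mem_sInf.2 fun _ hM => hM.1.1 _ (mem_sInf.1 hw _ hM) g⟩

theorem r_T : r ∈ T := mem_sInf.2 fun _ hM => hM.2.1

theorem T_le {M : Subgroup F} (h : Good M) : T ≤ M := sInf_le h

theorem sepT (s : Finset F) : ∃ M, Good M ∧ ∀ g ∈ s, g ∈ M → g ∈ T := by
  classical
  induction s using Finset.induction_on with
  | empty => exact ⟨⊤, good_top, by simp⟩
  | insert g s _ ih =>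
    obtain ⟨M, hM, h⟩ := ih
    by_cases hg : g ∈ T
    · exact ⟨M, hM, by simpa [hg] using h⟩
    · obtain ⟨M', hM', h'⟩ : ∃ M', Good M' ∧ g ∉ M' := by
        by_contra! e
        exact hg (mem_sInf.2 e)
      refine ⟨M ⊓ M', hM.inf hM', fun x hx hx' => ?_⟩
      rcases Finset.mem_insert.1 hx with rfl | hx
      · exact (h' hx'.2).elim
      · exact h x hx hx'.1

theorem good_J {M : Subgroup F} [M.Normal] (h : Good M) (k : ℕ) :
    Good (J (ch (ZMod (7 ^ k)) (QuotientGroup.mk' M)) r) := by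
  obtain ⟨-, h2, h3, j, h4⟩ := h
  set χ := ch (ZMod (7 ^ k)) (QuotientGroup.mk' M)
  have hχ : ∀ w ∈ M, χ w = 1 := fun w hw => by
    have : QuotientGroup.mk' M w = 1 := (QuotientGroup.eq_one_iff w).2 hw
    simp only [χ, MonoidHom.comp_apply, this, map_one]
  have : Finite (MonoidAlgebra (ZMod (7 ^ k)) (F ⧸ M)) :=
    Finite.of_injective _ (DFunLike.coe_injective.comp MonoidAlgebra.coeff_injective)
  refine ⟨inferInstance, r_mem _ _ (hχ _ h2), ?_, j + k, fun g => ?_⟩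
  · refine finiteIndex_of_le (H := (MonoidHom.pi (θ χ)).ker) fun w hw => ?_
    have : ∀ i, θ χ i w = 1 := congrFun hw
    exact ⟨by rw [← θ_u χ 0, this]; rfl, 0, fun i => by rw [d, this, zero_mul]; rfl⟩
  · rw [pow_add, pow_mul]
    refine ⟨by rw [map_pow, hχ _ (h4 g), one_pow], 0, fun i => ?_⟩
    rw [d_pow χ i (hχ _ (h4 g)), ← map_natCast (algebraMap (ZMod (7 ^ k)) _), ZMod.natCast_self,
      map_zero, zero_mul, zero_mul]

theorem core {S Δ : Type} [CommRing S] [Group Δ] {m l : ℕ} (hm : m = 3 * l + 1)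
    (h3 : IsUnit (3 : S)) (α : Δ →* Multiplicative (ZMod m)) (x z : Δ)
    (hx : α x = .ofAdd 1) (hz : α z = 1) (hzm : z ^ m = 1) (μ ν : MonoidAlgebra S Δ) (i : ZMod m)
    (h0 : ∀ h, α h ≠ 1 → ((μ - ν) * (1 + .of S Δ x)).coeff h = 0)
    (h1 : ∀ h, α h = .ofAdd i → ν.coeff h = 0)
    (h2 : ∀ h, α h = .ofAdd i → (μ * (1 + .of S Δ z + .of S Δ z * .of S Δ z)).coeff h = 0) :
    μ = ν := by
  have : NeZero m := ⟨by omega⟩
  have e2 : ∀ h, α h = .ofAdd i → μ.coeff (h * z * z) + μ.coeff (h * z) + μ.coeff h = 0 :=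
    fun h hh => by
      simpa [mul_add, ← mul_assoc] using h2 (h * z * z) (by simp [hh, hz])
  have e3 : ∀ (n : ℕ) h, α h = .ofAdd i → μ.coeff (h * z ^ (3 * n)) = μ.coeff h := fun n => by
    induction n with
    | zero => simp
    | succ n ih =>
      intro h hh
      have hh' : α (h * z ^ (3 * n)) = .ofAdd i := by simp [hh, hz]
      have : h * z ^ (3 * (n + 1)) = h * z ^ (3 * n) * z * z * z := by
        rw [mul_add, pow_add, pow_three']; simp only [mul_assoc]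
      rw [this, ← ih h hh]
      linear_combination e2 (h * z ^ (3 * n) * z) (by simp [hh, hz]) - e2 _ hh'
  have e4 : ∀ h, α h = .ofAdd i → μ.coeff (h * z) = μ.coeff h := fun h hh => by
    rw [← e3 l (h * z) (by simp [hh, hz]), mul_assoc, ← pow_succ', ← hm, hzm, mul_one]
  have e5 : ∀ h, α h = .ofAdd i → (μ - ν).coeff h = 0 := fun h hh => by
    have := e2 h hh
    rw [e4 _ (by simp [hh, hz]), e4 h hh] at this
    have : μ.coeff h = 0 := h3.mul_right_eq_zero.1 (by linear_combination this)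
    simp [this, h1 h hh]
  set κ := μ - ν
  have e6 : ∀ h, α h = 1 → ∀ n < m, κ.coeff (h * x ^ n) = (-1) ^ n * κ.coeff h := fun h hh n => by
    induction n with
    | zero => simp
    | succ n ih =>
      intro hn
      have := h0 (h * x ^ (n + 1)) (by
        rw [map_mul, map_pow, hh, hx, one_mul, ← ofAdd_nsmul, nsmul_one, Ne, ofAdd_eq_one,
          ZMod.natCast_eq_zero_iff]
        exact Nat.not_dvd_of_pos_of_lt (by omega) hn)
      simp only [mul_add, mul_one, MonoidAlgebra.coeff_add, Finsupp.add_apply,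
        MonoidAlgebra.of_apply, MonoidAlgebra.coeff_mul_single_apply, pow_succ, ← mul_assoc,
        mul_inv_cancel_right] at this ⊢
      linear_combination this - ih (by omega)
  have e7 : ∀ h, α h = 1 → κ.coeff h = 0 := fun h hh => by
    have := e6 h hh _ (ZMod.val_lt i)
    rw [e5 _ (by rw [map_mul, map_pow, hh, hx, one_mul, ← ofAdd_nsmul]; simp)] at this
    exact (isUnit_one.neg.pow _).mul_right_eq_zero.1 this.symm
  refine sub_eq_zero.1 (MonoidAlgebra.coeff_eq_zero.1 (Finsupp.ext fun g => ?_))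
  have hg : α (g * (x ^ (α g).toAdd.val)⁻¹) = 1 := by
    rw [map_mul, map_inv, map_pow, hx, ← ofAdd_nsmul]; simp
  have := e6 _ hg _ (ZMod.val_lt (α g).toAdd)
  rw [e7 _ hg, inv_mul_cancel_right] at this
  exact this.trans (mul_zero _)

/-- degree -/
def α : F →* Multiplicative ℤ := FreeGroup.lift ![.ofAdd 1, .ofAdd (-1), 1]

theorem α_a : α a = .ofAdd 1 := FreeGroup.lift_apply_of
theorem α_b : α b = .ofAdd (-1) := FreeGroup.lift_apply_of
theorem α_c : α c = 1 := FreeGroup.lift_apply_of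
theorem α_r : α r = 1 := by simp only [r, map_mul, map_inv, α_a, α_b, α_c]; decide

/-- integral group ring of the quotient -/
abbrev RT : Type := MonoidAlgebra ℤ (F ⧸ T)

/-- the character -/
noncomputable abbrev χT : F →* RT := ch ℤ (QuotientGroup.mk' T)

/-- elements of degree in `D` -/
noncomputable def Y (D : Set ℤ) : AddSubgroup RT :=
  AddSubgroup.closure (χT '' {g | (α g).toAdd ∈ D})

theorem indT {p : RT → Prop} (h0 : ∀ g, p (χT g)) (h1 : ∀ x y, p x → p y → p (x + y))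
    (h2 : ∀ (n : ℤ) x, p x → p (n • x)) (x : RT) : p x :=
  MonoidAlgebra.induction_on x (fun g => by
    obtain ⟨g, rfl⟩ := QuotientGroup.mk'_surjective T g
    exact h0 g) h1 h2

theorem fin_deg (x : RT) : ∃ s : Finset ℤ, x ∈ Y s := by
  refine indT (p := fun x => ∃ s : Finset ℤ, x ∈ Y s)
    (fun g => ⟨{(α g).toAdd}, AddSubgroup.subset_closure ⟨g, by simp, rfl⟩⟩) ?_
    (fun n x ⟨s, h⟩ => ⟨s, zsmul_mem h n⟩) x
  rintro x y ⟨s, hs⟩ ⟨t, ht⟩
  have : ∀ {s t : Finset ℤ}, s ⊆ t → Y s ≤ Y t := fun h =>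
    AddSubgroup.closure_mono (Set.image_mono fun g hg => h hg)
  exact ⟨s ∪ t, add_mem (this Finset.subset_union_left hs) (this Finset.subset_union_right ht)⟩

theorem decomp (x : RT) : ∃ l, x - l * (1 + χT a) ∈ Y {0} := by
  refine indT (p := fun x => ∃ l, x - l * (1 + χT a) ∈ Y {0}) (fun g => ?_) ?_ ?_ x
  · have : ∀ (n : ℤ) g, α g = .ofAdd n → ∃ l, χT g - l * (1 + χT a) ∈ Y {0} := fun n => by
      induction n using Int.induction_on with
      | zero =>
        exact fun g hg => ⟨0, by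
          rw [zero_mul, sub_zero]; exact AddSubgroup.subset_closure ⟨g, by simp [hg], rfl⟩⟩
      | succ n ih =>
        intro g hg
        obtain ⟨l, hl⟩ := ih (g * a⁻¹) (by rw [map_mul, map_inv, hg, α_a, ofAdd_add]; simp)
        refine ⟨χT (g * a⁻¹) - l, ?_⟩
        have e : χT (g * a⁻¹) * χT a = χT g := by rw [← map_mul, inv_mul_cancel_right]
        convert neg_mem hl using 1
        rw [← e]; noncomm_ring
      | pred n ih =>
        intro g hg
        obtain ⟨l, hl⟩ := ih (g * a) (by rw [map_mul, hg, α_a, ← ofAdd_add]; simp)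
        refine ⟨χT g - l, ?_⟩
        convert neg_mem hl using 1
        rw [map_mul]; noncomm_ring
    exact this _ g rfl
  · rintro x y ⟨l, hl⟩ ⟨m, hm⟩
    exact ⟨l + m, by convert add_mem hl hm using 1; noncomm_ring⟩
  · rintro n x ⟨l, hl⟩
    exact ⟨n • l, by convert zsmul_mem hl n using 1; rw [smul_sub, smul_mul_assoc]⟩

section
variable {M : Subgroup F} [M.Normal] (h : T ≤ M) (k : ℕ)

/-- projection to a finite quotient -/
def q : F ⧸ T →* F ⧸ M := QuotientGroup.map T M (.id F) h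

/-- reduction of group rings -/
noncomputable def φ : RT →+* MonoidAlgebra (ZMod (7 ^ k)) (F ⧸ M) :=
  (MonoidAlgebra.lift ℤ _ _ ((MonoidAlgebra.of _ _).comp (q h))).toRingHom

theorem φ_single (g : F ⧸ T) (n : ℤ) : φ h k (.single g n) = .single (q h g) n := by
  simp [φ]

theorem φ_χ : (φ h k).toMonoidHom.comp χT = ch _ (QuotientGroup.mk' M) :=
  MonoidHom.ext fun g => (φ_single h k g 1).trans (by rw [Int.cast_one]; rfl)

theorem φ_χ' (g : F) : φ h k (χT g) = .of _ _ (QuotientGroup.mk' M g) :=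
  DFunLike.congr_fun (φ_χ h k) g

theorem van {m : ℕ} (β : F ⧸ M →* Multiplicative (ZMod m))
    (hβ : ∀ g, β (QuotientGroup.mk' M g) = .ofAdd ((α g).toAdd : ZMod m)) {D : Set ℤ} {x : RT}
    (hx : x ∈ Y D) (g : F ⧸ M) (hg : ∀ n ∈ D, β g ≠ .ofAdd (n : ZMod m)) :
    (φ h k x).coeff g = 0 := by
  induction hx using AddSubgroup.closure_induction with
  | mem x hx =>
    obtain ⟨u, hu, rfl⟩ := hx
    rw [φ_χ', MonoidAlgebra.of_apply, MonoidAlgebra.coeff_single]
    exact Finsupp.single_eq_of_ne fun e => hg _ hu (e ▸ hβ u)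
  | zero => simp
  | add x y _ _ hx hy => simp [hx, hy]
  | neg x _ hx => simp [hx]

end

theorem sepR (y : RT) (hy : ∀ M, Good M → ∀ k, ∃ (M' : Subgroup F) (_ : M'.Normal) (h : T ≤ M'),
    M' ≤ M ∧ φ h k y = 0) : y = 0 := by
  classical
  refine MonoidAlgebra.coeff_eq_zero.1 (Finsupp.ext fun g => ?_)
  obtain ⟨M, hM, hs⟩ := sepT (y.coeff.support.image fun u => u.out⁻¹ * g.out)
  refine Int.eq_zero_of_dvd_of_natAbs_lt_natAbs (d := ((7 ^ (y.coeff g).natAbs : ℕ) : ℤ)) ?_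
    (Nat.lt_pow_self (a := 7) (by norm_num))
  obtain ⟨M', _, h, hM', e⟩ := hy M hM (y.coeff g).natAbs
  rw [← ZMod.intCast_zmod_eq_zero_iff_dvd]
  have := congrArg (fun z => (φ h (y.coeff g).natAbs z).coeff (q h g)) y.sum_coeff_single
  simp only [e, Finsupp.sum, map_sum, φ_single, MonoidAlgebra.coeff_sum,
    MonoidAlgebra.coeff_single, Finsupp.finsetSum_apply] at this
  rw [Finset.sum_eq_single g] at this
  · simpa using this
  · refine fun u hu hne => Finsupp.single_eq_of_ne fun e => hne ?_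
    rw [← u.out_eq', ← g.out_eq'] at e ⊢
    exact QuotientGroup.eq.2 (hs _ (Finset.mem_image_of_mem _ hu) (hM' (QuotientGroup.eq.1 e.symm)))
  · intro hg
    simp [Finsupp.notMem_support_iff.1 hg]

theorem perfect : T ≤ L r T := by
  intro w hw
  have hT : ∀ w ∈ T, QuotientGroup.mk' T w = 1 := fun w hw => (QuotientGroup.eq_one_iff w).2 hw
  have hT' : ∀ w ∈ T, χT w = 1 := fun w hw => by rw [MonoidHom.comp_apply, hT w hw, map_one]
  rw [← QuotientGroup.ker_mk' T, ← crowell r _ (QuotientGroup.mk'_surjective T) (hT _ r_T)]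
  obtain ⟨l, hl⟩ := decomp (d χT 0 w)
  obtain ⟨s, hs⟩ := fin_deg l
  obtain ⟨t, ht⟩ := fin_deg (d χT 2 w)
  refine ⟨hT' w hw, l, fun i => sub_eq_zero.1 (sepR _ fun M hM k => ?_)⟩
  obtain ⟨h1, h2, h3, j, h4⟩ := hM
  set n := j + (s ∪ t).card
  let α' : F →* Multiplicative (ZMod (7 ^ n)) :=
    (AddMonoidHom.toMultiplicative (Int.castAddHom _)).comp α
  have h5 : ∀ g, g ^ 7 ^ n ∈ M ⊓ α'.ker := fun g => ⟨by
      rw [pow_add, pow_mul]; exact pow_mem (h4 g) _, by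
    change α' _ = 1
    rw [map_pow, ← ofAdd_toAdd (α' g), ← ofAdd_nsmul, nsmul_eq_mul, ZMod.natCast_self, zero_mul]
    rfl⟩
  have hG : Good (M ⊓ α'.ker) :=
    ⟨inferInstance, ⟨h2, by change α' r = 1; simp [α', α_r]⟩, inferInstance, n, h5⟩
  refine ⟨_, inferInstance, T_le hG, inf_le_left, ?_⟩
  obtain ⟨-, μ, hμ⟩ := T_le (good_J hG k) hw
  simp only [← φ_χ (T_le hG) k, d_map] at hμ
  let β := QuotientGroup.lift (M ⊓ α'.ker) α' inf_le_right
  obtain ⟨i₀, -, hi⟩ := Finset.exists_mem_notMem_of_card_lt_card (t := Finset.univ)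
    (s := (s ∪ t).image (Int.cast : ℤ → ZMod (7 ^ n))) (Finset.card_image_le.trans_lt (by
      rw [Finset.card_univ, ZMod.card]
      exact (Nat.le_add_left _ j).trans_lt (Nat.lt_pow_self (by norm_num))))
  have hi' : ∀ g, β g = .ofAdd i₀ → ∀ x ∈ s ∪ t, β g ≠ .ofAdd (x : ZMod (7 ^ n)) :=
    fun g hg x hx e => hi (Finset.mem_image.2 ⟨x, hx, Multiplicative.ofAdd.injective (e ▸ hg)⟩)
  have : μ = φ (T_le hG) k l := by
    refine core (l := 7 ^ n / 3) (by have : 7 ^ n % 3 = 1 := by simp [Nat.pow_mod]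
                                     omega)
      ((ZMod.isUnit_iff_coprime 3 _).2 (Nat.Coprime.pow_right _ (by norm_num))) β
      (QuotientGroup.mk' _ a) (QuotientGroup.mk' _ c) ?_ ?_ ?_ _ _ i₀ (fun g hg => ?_)
      (fun g hg => ?_) fun g hg => ?_
    · change α' a = _; simp [α', α_a]
    · change α' c = _; simp [α', α_c]
    · rw [← map_pow]; exact (QuotientGroup.eq_one_iff _).2 (h5 c)
    · have := van (T_le hG) k β (fun _ => rfl) hl g (by simpa using hg)
      rwa [map_sub, hμ, d0_r, map_mul, ← sub_mul, map_add, map_one, φ_χ'] at this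
    · exact van (T_le hG) k β (fun _ => rfl) hs g fun x hx =>
        hi' g hg x (Finset.mem_union_left _ hx)
    · have := van (T_le hG) k β (fun _ => rfl) (neg_mem ht) g fun x hx =>
        hi' g hg x (Finset.mem_union_right _ hx)
      rwa [map_neg, hμ, d2_r _ (hT' _ r_T), map_neg, mul_neg, neg_neg, map_add, map_add, map_mul,
        map_one, φ_χ'] at this
  rw [map_sub, map_mul, hμ, this, sub_self]

theorem T_ker {H : Type} [Group H] [Group.IsSolvable H] (f : F →* H) (h : f r = 1) :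
    T ≤ f.ker := by
  rw [← Subgroup.map_eq_bot_iff]
  by_contra e
  refine (Group.IsSolvable.commutator_lt_of_ne_bot e).not_ge ((map_mono perfect).trans ?_)
  rw [L, Subgroup.map_sup, map_commutator]
  exact sup_le le_rfl (((Subgroup.map_eq_bot_iff _).2
    (normalClosure_le_normal (Set.singleton_subset_iff.2 h))).le.trans bot_le)

/-- the parafree group -/
abbrev P : Type := F ⧸ T

theorem resid : ⨅ n, γ P n = ⊥ := by
  refine eq_bot_iff.2 fun g hg => ?_
  obtain ⟨g, rfl⟩ := QuotientGroup.mk_surjective g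
  refine (QuotientGroup.eq_one_iff _).2 (mem_sInf.2 fun M hM => ?_)
  obtain ⟨h1, h2, h3, j, h4⟩ := id hM
  have : Fact (Nat.Prime 7) := ⟨by norm_num⟩
  have : IsPGroup 7 (F ⧸ M) := fun x => by
    obtain ⟨x, rfl⟩ := QuotientGroup.mk_surjective x
    exact ⟨j, (QuotientGroup.eq_one_iff (x ^ 7 ^ j)).2 (h4 x)⟩
  obtain ⟨n, hn⟩ := Subgroup.nilpotent_iff_lowerCentralSeries.1 this.isNilpotent
  have := γ_map (q (T_le hM)) (mem_iInf.1 hg n)
  exact (QuotientGroup.eq_one_iff g).1 (mem_bot.1 (hn ▸ this))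

section
variable {H : Type} [Group H]

/-- the contraction -/
def W (x y z : H) : H := z * (x * x * z * z * (y⁻¹ * x * z * (y⁻¹ * x * z) * (y⁻¹ * x * z))⁻¹)

theorem W_map {K : Type} [Group K] (f : H →* K) (x y z : H) :
    f (W x y z) = W (f x) (f y) (f z) := by simp [W]

theorem W_central (x y z u : H) (hu : u ∈ center H) : W x y (z * u) = W x y z := by
  have h : ∀ g, u * g = g * u := fun g => (mem_center_iff.1 hu g).symm
  have h' : ∀ g k, u * (g * k) = g * (u * k) := fun g k => by rw [← mul_assoc, h, mul_assoc]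
  have e : ∀ v : H, v * u * (v * u) * (v * u) = v * v * v * (u * u * u) := fun v => by
    simp only [mul_assoc, h' v]
  rw [W, W, ← mul_assoc (y⁻¹ * x) z u, e, mul_inv_rev]
  generalize (y⁻¹ * x * z * (y⁻¹ * x * z) * (y⁻¹ * x * z))⁻¹ = t
  simp only [mul_assoc, h' x, h' z]
  group

theorem W_contr (x y : H) {z z' : H} {k : ℕ} (h : z⁻¹ * z' ∈ γ H k) :
    (W x y z)⁻¹ * W x y z' ∈ γ H (k + 1) := by
  rw [← QuotientGroup.eq]
  change QuotientGroup.mk' _ _ = QuotientGroup.mk' _ _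
  rw [W_map, W_map, ← W_central _ _ _ _ (Cover.central h), ← map_mul, mul_inv_cancel_left]

theorem W_uniq {n : ℕ} (hn : γ H n = ⊥) {x y z z' : H} (h : W x y z = z) (h' : W x y z' = z') :
    z = z' := by
  have : ∀ k, z⁻¹ * z' ∈ γ H k := fun k => by
    induction k with
    | zero => trivial
    | succ k ih => simpa only [h, h'] using W_contr x y ih
  exact inv_mul_eq_one.1 (mem_bot.1 (hn ▸ this n))

theorem W_ex {n : ℕ} (hn : γ H n = ⊥) (x y : H) : ∃ z, W x y z = z := by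
  have : ∀ k, ((W x y)^[k] 1)⁻¹ * W x y ((W x y)^[k] 1) ∈ γ H k := fun k => by
    induction k with
    | zero => trivial
    | succ k ih => rw [iterate_succ_apply']; exact W_contr x y ih
  exact ⟨_, (inv_mul_eq_one.1 (mem_bot.1 (hn ▸ this n))).symm⟩

theorem γ_quot (n : ℕ) : γ (H ⧸ γ H n) n = ⊥ := by
  have := map_lowerCentralSeries ⊤ (QuotientGroup.mk' (γ H n)) n
  rw [map_top_of_surjective _ (QuotientGroup.mk'_surjective _)] at this
  exact this.symm.trans ((Subgroup.map_eq_bot_iff _).2 (QuotientGroup.ker_mk' _).ge)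

end

/-- free group of rank two -/
abbrev E : Type := FreeGroup (Fin 2)

theorem lcs (n : ℕ) : Nonempty (P ⧸ γ P n ≃* E ⧸ γ E n) := by
  let π := QuotientGroup.mk' (γ E n)
  let p := (QuotientGroup.mk' (γ P n)).comp (QuotientGroup.mk' T)
  obtain ⟨z, hz⟩ := W_ex (γ_quot (H := E) n) (π (.of 0)) (π (.of 1))
  let ψ₀ : F →* E ⧸ γ E n := FreeGroup.lift ![π (.of 0), z, (π (.of 1))⁻¹ * π (.of 0) * z]
  have ha : ψ₀ a = π (.of 0) := FreeGroup.lift_apply_of
  have hb : ψ₀ b = z := FreeGroup.lift_apply_of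
  have hc : ψ₀ c = (π (.of 1))⁻¹ * π (.of 0) * z := FreeGroup.lift_apply_of
  have hr : ψ₀ r = 1 := by
    simp only [r, map_mul, map_inv, ha, hb, hc]
    exact mul_eq_left.1 hz
  have := Subgroup.nilpotent_iff_lowerCentralSeries.2 ⟨n, γ_quot (H := E) n⟩
  let ψ : P ⧸ γ P n →* E ⧸ γ E n :=
    QuotientGroup.lift _ (QuotientGroup.lift T ψ₀ (T_ker ψ₀ hr)) fun g hg =>
      mem_bot.1 (γ_quot (H := E) n ▸ γ_map _ hg)
  let φ₀ : E →* P ⧸ γ P n := FreeGroup.lift ![p a, p (a * b * c⁻¹)]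
  let φ : E ⧸ γ E n →* P ⧸ γ P n :=
    QuotientGroup.lift _ φ₀ fun g hg => mem_bot.1 (γ_quot (H := P) n ▸ γ_map _ hg)
  have h0 : φ (π (.of 0)) = p a := FreeGroup.lift_apply_of
  have h1 : φ (π (.of 1)) = p (a * b * c⁻¹) := FreeGroup.lift_apply_of
  have hp : ∀ w, ψ (p w) = ψ₀ w := fun _ => rfl
  have hz' : φ z = p b := by
    refine W_uniq (γ_quot (H := P) n) (x := p a) (y := p (a * b * c⁻¹))
      (by rw [← h0, ← h1, ← W_map, hz]) ?_
    have : p r = 1 := by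
      rw [MonoidHom.comp_apply, show QuotientGroup.mk' T r = 1 from
        (QuotientGroup.eq_one_iff _).2 r_T, map_one]
    rw [← W_map, show W a (a * b * c⁻¹) b = b * r by simp [W, r, mul_assoc], map_mul, this, mul_one]
  refine ⟨MonoidHom.toMulEquiv ψ φ ?_ ?_⟩
  · refine QuotientGroup.monoidHom_ext _ (QuotientGroup.monoidHom_ext _
      (FreeGroup.ext_hom _ _ fun i => ?_))
    change φ (ψ₀ (.of i)) = p (.of i)
    fin_cases i
    · exact (congrArg φ ha).trans h0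
    · exact (congrArg φ hb).trans hz'
    · refine (congrArg φ hc).trans ?_
      rw [map_mul, map_mul, map_inv, h0, h1, hz']
      simp [mul_assoc]
  · refine QuotientGroup.monoidHom_ext _ (FreeGroup.ext_hom _ _ fun i => ?_)
    change ψ (φ (π (.of i))) = π (.of i)
    fin_cases i
    · exact (congrArg ψ h0).trans ha
    · refine (congrArg ψ h1).trans ?_
      rw [hp, map_mul, map_mul, map_inv, ha, hb, hc]
      simp [mul_assoc]

section
variable {Q : Type} [Group Q] [Group.IsSolvable Q] (f : F →* Q) (h : f r = 1)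

/-- induced map -/
def fb : P →* Q := QuotientGroup.lift T f (T_ker f h)

theorem bridge (hf : Surjective f) (w : F) :
    (w : P) ∈ ⁅(fb f h).ker, (fb f h).ker⁆ ↔ w ∈ J (ch ℤ f) r := by
  rw [crowell r f hf h, fb, QuotientGroup.ker_lift, ← map_commutator]
  refine (mem_comap (f := QuotientGroup.mk' T)).symm.trans ?_
  rw [comap_map_eq, QuotientGroup.ker_mk']
  refine Iff.of_eq (congrArg (w ∈ ·) (le_antisymm
    (sup_le le_sup_left (perfect.trans (L_mono r (T_ker f h)))) (sup_le_sup_left ?_ _)))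
  exact normalClosure_le_normal (Set.singleton_subset_iff.2 r_T)

theorem tf (hf : Surjective f) (H : ∀ (k : ℕ) (x : Fin 3 → MonoidAlgebra ℤ Q) l, 1 ≤ k →
      (∀ i, k * x i = l * d (ch ℤ f) i r) → ∃ m, ∀ i, x i = m * d (ch ℤ f) i r)
    (g : (fb f h).ker ⧸ commutator (fb f h).ker) (n : ℕ) (hn : 1 ≤ n) (e : g ^ n = 1) : g = 1 := by
  obtain ⟨⟨g, hg⟩, rfl⟩ := QuotientGroup.mk_surjective g
  obtain ⟨w, rfl⟩ := QuotientGroup.mk_surjective g
  have key : ∀ u : (fb f h).ker, u ∈ commutator _ ↔ u.1 ∈ ⁅(fb f h).ker, (fb f h).ker⁆ :=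
    fun u => by rw [← map_subtype_commutator]; exact (mem_map_iff_mem (subtype_injective _)).symm
  have hw : ch ℤ f w = 1 := by rw [MonoidHom.comp_apply, show f w = 1 from hg, map_one]
  rw [← QuotientGroup.mk_pow, QuotientGroup.eq_one_iff, key] at e
  obtain ⟨-, l, hl⟩ := (bridge f h hf (w ^ n)).1 e
  rw [QuotientGroup.eq_one_iff, key]
  exact (bridge f h hf w).2 ⟨hw, H n _ l hn fun i => by rw [← hl, d_pow _ _ hw]⟩

end

/-- symmetric group of degree three -/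
abbrev D : Type := DihedralGroup 3

instance : Group.IsSolvable D :=
  have : IsZGroup D := IsZGroup.of_squarefree (by
    rw [DihedralGroup.nat_card]; exact (Nat.squarefree_mul (by norm_num)).2
      ⟨Nat.prime_two.prime.squarefree, Nat.prime_three.prime.squarefree⟩)
  inferInstance

theorem all6 : ∀ h : D, h = .r 0 ∨ h = .r 1 ∨ h = .r 2 ∨ h = .sr 0 ∨ h = .sr 1 ∨ h = .sr 2 := by
  decide

theorem grid (k : ℤ) (hk : k ≠ 0) (l x z : D → ℤ) (E0 : ∀ h, k * x h = l h + l (h * .sr 0))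
    (E2 : ∀ h, k * z h = -(l h + l (h * .r 2) + l (h * .r 2 * .r 2))) :
    ∃ m : D → ℤ, (∀ h, x h = m h + m (h * .sr 0)) ∧
      ∀ h, z h = -(m h + m (h * .r 2) + m (h * .r 2 * .r 2)) := by
  have a0 : k * x (.r 0) = l (.r 0) + l (.sr 0) := E0 _
  have a1 : k * x (.r 1) = l (.r 1) + l (.sr 2) := E0 _
  have a2 : k * x (.r 2) = l (.r 2) + l (.sr 1) := E0 _
  have a3 : k * x (.sr 0) = l (.sr 0) + l (.r 0) := E0 _
  have a4 : k * x (.sr 1) = l (.sr 1) + l (.r 2) := E0 _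
  have a5 : k * x (.sr 2) = l (.sr 2) + l (.r 1) := E0 _
  have c0 : k * z (.r 0) = -(l (.r 0) + l (.r 2) + l (.r 1)) := E2 _
  have c1 : k * z (.r 1) = -(l (.r 1) + l (.r 0) + l (.r 2)) := E2 _
  have c2 : k * z (.r 2) = -(l (.r 2) + l (.r 1) + l (.r 0)) := E2 _
  have c3 : k * z (.sr 0) = -(l (.sr 0) + l (.sr 2) + l (.sr 1)) := E2 _
  have c4 : k * z (.sr 1) = -(l (.sr 1) + l (.sr 0) + l (.sr 2)) := E2 _
  have c5 : k * z (.sr 2) = -(l (.sr 2) + l (.sr 1) + l (.sr 0)) := E2 _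
  refine ⟨fun h => match h with
    | .r j => x (.r j) + if j = 0 then z (.sr 0) else 0
    | .sr j => if j = 0 then -z (.sr 0) else 0, fun h => ?_, fun h => ?_⟩ <;>
  obtain rfl | rfl | rfl | rfl | rfl | rfl := all6 h <;> apply mul_left_cancel₀ hk
  · show _ = k * ((x (.r 0) + z (.sr 0)) + -z (.sr 0)); linarith
  · show _ = k * ((x (.r 1) + 0) + 0); linarith
  · show _ = k * ((x (.r 2) + 0) + 0); linarith
  · show _ = k * (-z (.sr 0) + (x (.r 0) + z (.sr 0))); linarith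
  · show _ = k * (0 + (x (.r 2) + 0)); linarith
  · show _ = k * (0 + (x (.r 1) + 0)); linarith
  · show _ = k * -((x (.r 0) + z (.sr 0)) + (x (.r 2) + 0) + (x (.r 1) + 0)); linarith
  · show _ = k * -((x (.r 1) + 0) + (x (.r 0) + z (.sr 0)) + (x (.r 2) + 0)); linarith
  · show _ = k * -((x (.r 2) + 0) + (x (.r 1) + 0) + (x (.r 0) + z (.sr 0))); linarith
  · show _ = k * -(-z (.sr 0) + 0 + 0); linarith
  · show _ = k * -(0 + -z (.sr 0) + 0); linarith
  · show _ = k * -(0 + 0 + -z (.sr 0)); linarith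

/-- map onto the symmetric group -/
def f₁ : F →* D := FreeGroup.lift ![.sr 0, .sr 0, .r 1]

theorem f₁_a : f₁ a = .sr 0 := FreeGroup.lift_apply_of
theorem f₁_b : f₁ b = .sr 0 := FreeGroup.lift_apply_of
theorem f₁_c : f₁ c = .r 1 := FreeGroup.lift_apply_of
theorem f₁_r : f₁ r = 1 := by simp only [r, map_mul, map_inv, f₁_a, f₁_b, f₁_c]; decide

theorem f₁_surj : Surjective f₁ := fun h => by
  obtain rfl | rfl | rfl | rfl | rfl | rfl := all6 h
  exacts [⟨1, rfl⟩, ⟨c, f₁_c⟩, ⟨c * c, by rw [map_mul, f₁_c]; rfl⟩, ⟨a, f₁_a⟩,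
    ⟨a * c, by rw [map_mul, f₁_a, f₁_c]; rfl⟩,
    ⟨a * c * c, by rw [map_mul, map_mul, f₁_a, f₁_c]; rfl⟩]

theorem ch_r {Q : Type} [Group Q] {f : F →* Q} (h : f r = 1) : ch ℤ f r = 1 := by
  rw [MonoidHom.comp_apply, h, map_one]

theorem v₁ (l : MonoidAlgebra ℤ D) (h : D) :
    (l * d (ch ℤ f₁) 0 r).coeff h = l.coeff h + l.coeff (h * .sr 0) ∧
    (l * d (ch ℤ f₁) 1 r).coeff h = l.coeff h + l.coeff (h * .sr 0) ∧
    (l * d (ch ℤ f₁) 2 r).coeff h =
      -(l.coeff h + l.coeff (h * .r 2) + l.coeff (h * .r 2 * .r 2)) := by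
  have e : ch ℤ f₁ a * ch ℤ f₁ a = 1 := by
    rw [← map_mul, MonoidHom.comp_apply, map_mul, f₁_a, ← map_one (MonoidAlgebra.of ℤ D)]; rfl
  have e1 : (.sr 0 : D)⁻¹ = .sr 0 := rfl
  have e2 : (.r 1 : D)⁻¹ = .r 2 := rfl
  rw [d0_r, d1_r, d2_r _ (ch_r f₁_r), e, one_mul]
  simp only [MonoidHom.comp_apply, f₁_a, f₁_b, f₁_c, mul_neg, mul_add, mul_one, ← mul_assoc,
    MonoidAlgebra.of_apply, MonoidAlgebra.coeff_add, MonoidAlgebra.coeff_neg, Finsupp.add_apply,
    Finsupp.neg_apply, MonoidAlgebra.coeff_mul_single_apply, e1, e2, and_self]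

theorem coeff_k {Q : Type} [Group Q] (k : ℕ) (x : MonoidAlgebra ℤ Q) (h : Q) :
    (k * x).coeff h = k * x.coeff h := by
  rw [← nsmul_eq_mul, ← nsmul_eq_mul]; rfl

theorem H₁ (k : ℕ) (x : Fin 3 → MonoidAlgebra ℤ D) (l : MonoidAlgebra ℤ D) (hk : 1 ≤ k)
    (e : ∀ i, k * x i = l * d (ch ℤ f₁) i r) : ∃ m, ∀ i, x i = m * d (ch ℤ f₁) i r := by
  have hk' : (k : ℤ) ≠ 0 := by omega
  obtain ⟨m, h0, h2⟩ := grid k hk' l.coeff (x 0).coeff (x 2).coeff
    (fun h => by rw [← coeff_k, e, (v₁ l h).1]) fun h => by rw [← coeff_k, e, (v₁ l h).2.2]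
  let μ : MonoidAlgebra ℤ D := .ofCoeff (Finsupp.equivFunOnFinite.symm m)
  refine ⟨μ, fun i => MonoidAlgebra.coeff_injective (Finsupp.ext fun h => ?_)⟩
  fin_cases i
  · exact (h0 h).trans (v₁ μ h).1.symm
  · refine Eq.trans ?_ ((h0 h).trans (v₁ μ h).2.1.symm)
    apply mul_left_cancel₀ hk'
    rw [← coeff_k, ← coeff_k, e, e, (v₁ l h).1]
    exact (v₁ l h).2.1
  · exact (h2 h).trans (v₁ μ h).2.2.symm

/-- the torsion element -/
def g₁ : F := c * a * c⁻¹ * a⁻¹

theorem f₁_g : f₁ g₁ = .r 2 := by simp only [g₁, map_mul, map_inv, f₁_a, f₁_c]; decide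

theorem g₁_mem : g₁ ^ 3 ∈ J (ch ℤ f₁) r := by
  refine ⟨by rw [MonoidHom.comp_apply, map_pow, f₁_g, ← map_one (MonoidAlgebra.of ℤ D)]; rfl,
    .single (.sr 0) 1 - .single 1 1, fun i =>
    MonoidAlgebra.coeff_injective (Finsupp.ext fun h => ?_)⟩
  fin_cases i
  · refine Eq.trans ?_ (v₁ _ h).1.symm
    simp [pow_three, g₁, d_mul, d_inv, d_of, f₁_a, f₁_c, mul_add, Finsupp.single_apply,
      MonoidAlgebra.one_def]
    revert h; decide
  · refine Eq.trans ?_ (v₁ _ h).2.1.symm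
    simp [pow_three, g₁, d_mul, d_inv, d_of, f₁_a, f₁_c, Finsupp.single_apply]
    revert h; decide
  · refine Eq.trans ?_ (v₁ _ h).2.2.symm
    simp [pow_three, g₁, d_mul, d_inv, d_of, f₁_a, f₁_c, mul_add, Finsupp.single_apply,
      MonoidAlgebra.one_def]
    revert h; decide

/-- infinite cyclic group -/
abbrev C : Type := Multiplicative ℤ

/-- map onto the infinite cyclic group -/
def f₂ : F →* C := FreeGroup.lift ![.ofAdd 3, .ofAdd 3, .ofAdd 4]

theorem f₂_a : f₂ a = .ofAdd 3 := FreeGroup.lift_apply_of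
theorem f₂_b : f₂ b = .ofAdd 3 := FreeGroup.lift_apply_of
theorem f₂_c : f₂ c = .ofAdd 4 := FreeGroup.lift_apply_of
theorem f₂_r : f₂ r = 1 := by simp only [r, map_mul, map_inv, f₂_a, f₂_b, f₂_c]; decide

theorem f₂_surj : Surjective f₂ := fun h => ⟨(c * a⁻¹) ^ h.toAdd, by
  rw [map_zpow, map_mul, map_inv, f₂_a, f₂_c, show (.ofAdd 4 * (.ofAdd 3)⁻¹ : C) = .ofAdd 1 from rfl,
    ← ofAdd_zsmul]
  simp⟩

theorem H₂ (k : ℕ) (x : Fin 3 → MonoidAlgebra ℤ C) (l : MonoidAlgebra ℤ C) (hk : 1 ≤ k)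
    (e : ∀ i, k * x i = l * d (ch ℤ f₂) i r) : ∃ m, ∀ i, x i = m * d (ch ℤ f₂) i r := by
  classical
  have hk' : (k : ℤ) ≠ 0 := by omega
  have h1 : ∀ h, (k : ℤ) ∣ l.coeff h := by
    by_contra! hc
    obtain ⟨h, hh⟩ := hc
    have hs : ∀ h, ¬ (k : ℤ) ∣ l.coeff h → h ∈ l.coeff.support.filter (¬ (k : ℤ) ∣ l.coeff ·) :=
      fun h hh => Finset.mem_filter.2 ⟨Finsupp.mem_support_iff.2 fun e => hh (by simp [e]), hh⟩
    obtain ⟨h, hh, hm⟩ := Finset.exists_max_image _ Multiplicative.toAdd ⟨h, hs h hh⟩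
    have h2 : (k : ℤ) ∣ l.coeff (h * .ofAdd 3) := by
      by_contra hc
      have := hm _ (hs _ hc)
      simp at this
    have h3 := congrArg (fun y => y.coeff (h * .ofAdd 3)) (e 0)
    simp only [coeff_k, d0_r, MonoidHom.comp_apply, f₂_a, mul_add, mul_one,
      MonoidAlgebra.of_apply, MonoidAlgebra.coeff_add, Finsupp.add_apply,
      MonoidAlgebra.coeff_mul_single_apply, mul_inv_cancel_right] at h3
    exact (Finset.mem_filter.1 hh).2 ((dvd_add_right h2).1 (h3 ▸ dvd_mul_right _ _))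
  let μ : MonoidAlgebra ℤ C := .ofCoeff (l.coeff.mapRange (· / (k : ℤ)) (by simp))
  have h2 : l = k * μ :=
    MonoidAlgebra.coeff_injective (Finsupp.ext fun h => by
      rw [coeff_k]; exact (Int.mul_ediv_cancel' (h1 h)).symm)
  refine ⟨μ, fun i => MonoidAlgebra.coeff_injective (Finsupp.ext fun h =>
    mul_left_cancel₀ hk' ?_)⟩
  rw [← coeff_k, ← coeff_k, e, ← mul_assoc, ← h2]

/-- the cycle -/
def m₂ : F := a * c * b * c⁻¹ * b * c⁻¹ * c⁻¹ * a * c⁻¹

theorem f₂_m : f₂ m₂ = 1 := by simp only [m₂, map_mul, map_inv, f₂_a, f₂_b, f₂_c]; decide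

theorem d_m : ∃ t : MonoidAlgebra ℤ C, t = .of ℤ C (.ofAdd 1) ∧ ch ℤ f₂ a = t ^ 3 ∧
    ch ℤ f₂ b = t ^ 3 ∧ ch ℤ f₂ c = t ^ 4 ∧ d (ch ℤ f₂) 0 m₂ = 1 + t ∧
    d (ch ℤ f₂) 1 m₂ = t ^ 6 * (1 + t) ∧ d (ch ℤ f₂) 2 m₂ = -(t ^ 6 + t ^ 5 - t ^ 3 + t + 1) := by
  refine ⟨_, rfl, ?_⟩
  have ha : ch ℤ f₂ a = .of ℤ C (.ofAdd 1) ^ 3 := by rw [MonoidHom.comp_apply, f₂_a, ← map_pow]; rfl
  have hb : ch ℤ f₂ b = .of ℤ C (.ofAdd 1) ^ 3 := by rw [MonoidHom.comp_apply, f₂_b, ← map_pow]; rfl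
  have hc : ch ℤ f₂ c = .of ℤ C (.ofAdd 1) ^ 4 := by rw [MonoidHom.comp_apply, f₂_c, ← map_pow]; rfl
  have hs := χ_inv (ch ℤ f₂) c
  rw [hc] at hs
  generalize ch ℤ f₂ = χ at *
  generalize MonoidAlgebra.of ℤ C (.ofAdd 1) = t at *
  refine ⟨ha, hb, hc, ?_, ?_, ?_⟩ <;>
  simp only [m₂, d_mul, d_inv, d_of, map_mul, ha, hb, hc] <;> simp <;> generalize χ c⁻¹ = s at *
  · linear_combination t * (t ^ 8 * s ^ 2 + t ^ 4 * s + 1) * hs
  · linear_combination t ^ 6 * hs
  · linear_combination -(t ^ 6 + t ^ 5 * (s * t ^ 4 + 1) + t * (s ^ 2 * t ^ 8 + s * t ^ 4 + 1) +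
      (s ^ 3 * t ^ 12 + s ^ 2 * t ^ 8 + s * t ^ 4 + 1)) * hs

theorem m₂_mem : m₂ * (a * m₂ * a⁻¹) ∈ J (ch ℤ f₂) r := by
  have hm : ch ℤ f₂ m₂ = 1 := by rw [MonoidHom.comp_apply, f₂_m, map_one]
  obtain ⟨t, -, ha, hb, hc, h0, h1, h2⟩ := d_m
  refine ⟨by rw [map_mul, map_mul, map_mul, hm, one_mul, mul_one, ← map_mul, mul_inv_cancel,
    map_one], 1 + t, fun i => ?_⟩
  rw [d_mul, d_conj _ _ _ hm, hm, ha]
  obtain rfl | rfl | rfl : i = 0 ∨ i = 1 ∨ i = 2 := by revert i; decide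
  · rw [h0, d0_r, ha]; ring
  · rw [h1, d1_r, ha, hb]; ring
  · rw [h2, d2_r _ (ch_r f₂_r), hc]; ring

theorem m₂_not : m₂ ∉ J (ch ℤ f₂) r := by
  rintro ⟨-, l, hl⟩
  obtain ⟨t, ht, ha, -, -, h0, -⟩ := d_m
  let φ := MonoidAlgebra.lift ℤ (ZMod 7) C
    ((Units.coeHom _).comp (zpowersHom _ (⟨3, 5, by decide, by decide⟩ : (ZMod 7)ˣ)))
  have h3 : φ t = 3 := by rw [ht, MonoidAlgebra.lift_of]; rfl
  have := congrArg φ (hl 0)
  rw [h0, d0_r, ha, map_mul, map_add, map_add, map_pow, map_one, h3,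
    show (1 + 3 ^ 3 : ZMod 7) = 0 by decide, mul_zero] at this
  exact absurd this (by decide)

end Pool.Agent.H71.Para
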