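import Mathlib

namespace Pool.Agent.H71.Pet

/-- `G` is `i`-adjacent to the flag `F`. -/
def Adj {P : Type} [PartialOrder P] {n : ℕ} (i : Fin n) (F G : Fin (n + 1) → P) : Prop :=
  StrictMono G ∧ G i.castSucc ≠ F i.castSucc ∧ ∀ j, j ≠ i.castSucc → G j = F j

/-- `G` arises from `F` by passing successively to adjacent flags, in the ranks listed. -/
def Steps {P : Type} [PartialOrder P] {n : ℕ} :
    List (Fin n) → (Fin (n + 1) → P) → (Fin (n + 1) → P) → Prop
  | [], F, G => G = F
  | i :: l, F, G => ∃ H, Adj i F H ∧ Steps l H G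

/-- All Petrie schemes of the rank `n` polytope with poset of nonempty faces `P` are acoptic. -/
def Acoptic (P : Type) [PartialOrder P] (n : ℕ) : Prop :=
  ∀ l : List (Fin n), l.Nodup → (∀ i, i ∈ l) → ∀ Ψ : ℤ → Fin (n + 1) → P,
    (∀ k, StrictMono (Ψ k)) → (∀ k, Steps l (Ψ k) (Ψ (k + 1))) →
    ∀ (k k' : ℤ) (i : Fin n), Ψ k i.castSucc = Ψ k' i.castSucc → Ψ k = Ψ k'

/-- The antipode of a vertex of the crosspolytope. -/
def neg {m : ℕ} (v : Fin m × Bool) : Fin m × Bool := (v.1, !v.2)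

/-- Nonempty faces of the `m`-dimensional crosspolytope, as vertex sets. -/
abbrev Cross (m : ℕ) : Type :=
  {S : Finset (Fin m × Bool) // S = Finset.univ ∨ (S.Nonempty ∧ ∀ v ∈ S, neg v ∉ S)}

/-- Nonempty faces of the octagon, as vertex sets. -/
abbrev Oct : Type :=
  {S : Finset (Fin 8) // S = Finset.univ ∨ (∃ v, S = {v}) ∨ ∃ v, S = {v, v + 1}}

variable {P : Type} [PartialOrder P] {n : ℕ}

lemma steps_fix : ∀ (l : List (Fin n)) (F G : Fin (n + 1) → P), Steps l F G →
    ∀ j, (∀ i ∈ l, i.castSucc ≠ j) → G j = F j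
  | [], F, G, h, j, _ => by rw [show G = F from h]
  | i :: l, F, G, ⟨H, h1, h2⟩, j, hj => by
    rw [steps_fix l H G h2 j (fun i hi => hj i (List.mem_cons_of_mem _ hi))]
    exact h1.2.2 j (fun h => hj i List.mem_cons_self h.symm)

lemma steps_ne : ∀ (l : List (Fin n)) (F G : Fin (n + 1) → P), l.Nodup → Steps l F G →
    ∀ i ∈ l, G i.castSucc ≠ F i.castSucc
  | [], F, G, _, h, j, hj => by simp at hj
  | i :: l, F, G, hn, ⟨H, h1, h2⟩, j, hj => by
    rw [List.nodup_cons] at hn
    by_cases hji : j = i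
    · subst hji
      rw [steps_fix l H G h2 _ (fun i' hi h => hn.1 (by rw [← Fin.castSucc_injective _ h]; exact hi))]
      exact h1.2.1
    · have hj' : j ∈ l := by simpa [hji] using hj
      rw [← h1.2.2 j.castSucc (fun h => hji (Fin.castSucc_injective _ h))]
      exact steps_ne l H G hn.2 h2 j hj'

lemma steps_dich (p q : Fin (n + 1)) (hpq : p < q) : ∀ (l : List (Fin n)), l.Nodup →
    (∀ F G : Fin (n + 1) → P, StrictMono F → Steps l F G → G p < F q) ∨
    (∀ F G : Fin (n + 1) → P, StrictMono F → Steps l F G → F p < G q)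
  | [], _ => Or.inl fun F G hF h => by rw [show G = F from h]; exact hF hpq
  | i :: l, hn => by
    rw [List.nodup_cons] at hn
    by_cases hp : i.castSucc = p
    · left
      rintro F G hF ⟨H, h1, h2⟩
      rw [steps_fix l H G h2 p (fun j hj h => hn.1 (Fin.castSucc_injective _ (h.trans hp.symm) ▸ hj)),
        ← h1.2.2 q (by rw [hp]; exact hpq.ne')]
      exact h1.1 hpq
    by_cases hq : i.castSucc = q
    · right
      rintro F G hF ⟨H, h1, h2⟩
      rw [steps_fix l H G h2 q (fun j hj h => hn.1 (Fin.castSucc_injective _ (h.trans hq.symm) ▸ hj)),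
        ← h1.2.2 p (by rw [hq]; exact hpq.ne)]
      exact h1.1 hpq
    rcases steps_dich p q hpq l hn.2 with h | h
    · left
      rintro F G hF ⟨H, h1, h2⟩
      rw [← h1.2.2 q (Ne.symm hq)]
      exact h H G h1.1 h2
    · right
      rintro F G hF ⟨H, h1, h2⟩
      rw [← h1.2.2 p (Ne.symm hp)]
      exact h H G h1.1 h2

/-- staircase reindexing -/
lemma stair (l : List (Fin n)) (hl : l.Nodup) (hl' : ∀ i, i ∈ l) (Ψ : ℤ → Fin (n + 1) → P)
    (h1 : ∀ k, StrictMono (Ψ k)) (h2 : ∀ k, Steps l (Ψ k) (Ψ (k + 1))) :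
    ∃ (F : ℤ → ℕ → P) (o : ℕ → ℤ), (∀ k (i : Fin (n + 1)), Ψ k i = F (k - o i) i) ∧
      (∀ a i, i < n → F a i < F a (i + 1)) ∧ (∀ a i, i < n → F (a + 1) i < F a (i + 1)) ∧
      (∀ a i, i < n → F (a + 1) i ≠ F a i) := by
  classical
  let e : ℕ → Fin (n + 1) := fun i => ⟨min i n, by omega⟩
  let L : ℕ → Prop := fun i => ∀ F G : Fin (n + 1) → P, StrictMono F → Steps l F G → G (e i) < F (e (i + 1))
  let o : ℕ → ℤ := fun i => ∑ j ∈ Finset.range i, if L j then 0 else 1
  have ho : ∀ i, o (i + 1) = o i + if L i then 0 else 1 := fun i => Finset.sum_range_succ _ _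
  have he : ∀ i, i < n → e i < e (i + 1) := fun i hi => by
    simp only [e, Fin.mk_lt_mk]; omega
  refine ⟨fun a i => Ψ (a + o i) (e i), o, ?_, ?_, ?_, ?_⟩
  · intro k i
    have : e i = i := by ext; simp only [e]; omega
    simp [this]
  · intro a i hi
    by_cases hL : L i
    · simp only [ho, hL, if_true, add_zero]
      exact h1 _ (he i hi)
    · simp only [ho, hL, if_false]
      rcases steps_dich (P := P) _ _ (he i hi) l hl with h | h
      · exact absurd h hL
      · rw [← add_assoc]; exact h _ _ (h1 _) (h2 _)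
  · intro a i hi
    by_cases hL : L i
    · simp only [ho, hL, if_true, add_zero]
      rw [add_right_comm]
      exact hL _ _ (h1 _) (h2 _)
    · simp only [ho, hL, if_false]
      rw [add_right_comm, add_assoc]
      exact h1 _ (he i hi)
  · intro a i hi
    have : e i = (⟨i, hi⟩ : Fin n).castSucc := by ext; simp only [e, Fin.val_castSucc]; omega
    simp only [this]
    rw [add_right_comm]
    exact steps_ne l _ _ hl (h2 _) _ (hl' _)

lemma neg_neg' {m : ℕ} (v : Fin m × Bool) : neg (neg v) = v := by simp [neg]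
lemma neg_ne {m : ℕ} (v : Fin m × Bool) : neg v ≠ v := by
  rcases v with ⟨a, b⟩; cases b <;> simp [neg]

def rk {m : ℕ} (x : Cross m) : ℕ := if x.1 = Finset.univ then m else x.1.card - 1

lemma card_le {m : ℕ} (x : Cross m) (h : x.1 ≠ Finset.univ) : 1 ≤ x.1.card ∧ x.1.card ≤ m := by
  obtain ⟨h1, h2⟩ := x.2.resolve_left h
  refine ⟨h1.card_pos, ?_⟩
  have : x.1.card ≤ (Finset.univ : Finset (Fin m)).card := by
    refine Finset.card_le_card_of_injOn Prod.fst (fun _ _ => by simp) ?_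
    rintro ⟨a, b⟩ ha ⟨c, d⟩ hc hac
    simp only at hac
    subst hac
    by_contra hne
    have hbd : d = !b := by cases b <;> cases d <;> simp_all
    exact h2 _ ha (by simpa [neg, ← hbd] using hc)
  simpa using this

lemma rk_le {m : ℕ} (x : Cross m) : rk x ≤ m := by
  unfold rk; split_ifs with h
  · exact le_rfl
  · have := card_le x h; omega

lemma rk_top {m : ℕ} (x : Cross m) (h : rk x = m) : x.1 = Finset.univ := by
  by_contra h'
  have := card_le x h'
  simp only [rk, h', if_false] at h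
  omega

lemma rk_lt {m : ℕ} {x y : Cross m} (h : x < y) : rk x < rk y := by
  have h' : x.1 ⊂ y.1 := h
  have hx : x.1 ≠ Finset.univ := fun hx => h'.2 (by rw [hx]; exact Finset.subset_univ _)
  have h1 := card_le x hx
  have h2 := Finset.card_lt_card h'
  unfold rk
  rw [if_neg hx]
  split_ifs <;> omega

lemma rk_mono {m : ℕ} {x y : Cross m} (h : x ≤ y) : rk x ≤ rk y := by
  rcases h.eq_or_lt with h | h
  · rw [h]
  · exact (rk_lt h).le

open Classical in
noncomputable def cl {m : ℕ} (T : Finset (Fin m × Bool)) : Finset (Fin m × Bool) :=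
  if ∃ v ∈ T, neg v ∈ T then Finset.univ else T

lemma cl_face {m : ℕ} {T : Finset (Fin m × Bool)} (h : T.Nonempty) :
    cl T = Finset.univ ∨ ((cl T).Nonempty ∧ ∀ v ∈ cl T, neg v ∉ cl T) := by
  unfold cl; split_ifs with h'
  · exact Or.inl rfl
  · exact Or.inr ⟨h, fun v hv hv' => h' ⟨v, hv, hv'⟩⟩

lemma sub_cl {m : ℕ} (T : Finset (Fin m × Bool)) : T ⊆ cl T := by
  unfold cl; split_ifs
  · exact Finset.subset_univ _
  · exact le_rfl

lemma cl_sub {m : ℕ} {T : Finset (Fin m × Bool)} (x : Cross m) (h : T ⊆ x.1) : cl T ⊆ x.1 := by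
  unfold cl; split_ifs with h'
  · obtain ⟨v, hv, hv'⟩ := h'
    rcases x.2 with h1 | h1
    · rw [h1]
    · exact absurd (h hv') (h1.2 v (h hv))
  · exact h

lemma cl_mono {m : ℕ} {T U : Finset (Fin m × Bool)} (hT : T.Nonempty) (h : T ⊆ U) : cl T ⊆ cl U :=
  cl_sub ⟨cl U, cl_face (hT.mono h)⟩ (h.trans (sub_cl U))

lemma cl_univ {m : ℕ} {T : Finset (Fin m × Bool)} (hT : T.Nonempty) (h : cl T = Finset.univ) :
    ∃ v ∈ T, neg v ∈ T := by
  unfold cl at h; split_ifs at h with h'
  · exact h'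
  · obtain ⟨v, hv⟩ := hT
    exact ⟨v, hv, by rw [h]; exact Finset.mem_univ _⟩

lemma cl_ne {m : ℕ} {T : Finset (Fin m × Bool)} (h : cl T ≠ Finset.univ) : cl T = T := by
  unfold cl at h ⊢; split_ifs at h ⊢ with h'
  · exact absurd rfl h
  · rfl

lemma cl_pair {m : ℕ} {T : Finset (Fin m × Bool)} {v} (h1 : v ∈ T) (h2 : neg v ∈ T) :
    cl T = Finset.univ := by
  unfold cl; rw [if_pos ⟨v, h1, h2⟩]

end Pool.Agent.H71.Pet
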