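import Pool.Agent.H71.Pet1

namespace Pool.Agent.H71.Pet

variable {r : ℕ} {m : Fin r → ℕ}

def R (x : ∀ f, Cross (m f)) : ℕ := ∑ f, rk (x f)

lemma R_le (x : ∀ f, Cross (m f)) : R x ≤ ∑ f, m f := Finset.sum_le_sum fun f _ => rk_le (x f)

lemma R_lt {x y : ∀ f, Cross (m f)} (h : x < y) : R x < R y := by
  obtain ⟨h1, f, hf⟩ := Pi.lt_def.1 h
  exact Finset.sum_lt_sum (fun g _ => rk_mono (h1 g)) ⟨f, Finset.mem_univ _, rk_lt hf⟩

lemma R_eq {x y : ∀ f, Cross (m f)} (h : x ≤ y) (h' : R y ≤ R x) : x = y := by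
  rcases h.eq_or_lt with h | h
  · exact h
  · exact absurd (R_lt h) (by omega)

structure St (n : ℕ) (F : ℤ → ℕ → ∀ f, Cross (m f)) : Prop where
  hn : n = ∑ f, m f
  hm : ∀ f, 1 ≤ m f
  s1 : ∀ a i, i < n → F a i < F a (i + 1)
  s2 : ∀ a i, i < n → F (a + 1) i < F a (i + 1)
  s3 : ∀ a i, i < n → F (a + 1) i ≠ F a i

variable {n : ℕ} {F : ℤ → ℕ → ∀ f, Cross (m f)}

lemma St.R_eq (h : St n F) (a : ℤ) (i : ℕ) (hi : i ≤ n) : R (F a i) = i := by
  have h1 : ∀ j i, i + j ≤ n → R (F a i) + j ≤ R (F a (i + j)) := by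
    intro j
    induction j with
    | zero => intro i _; simp
    | succ j ih =>
      intro i hij
      have := ih i (by omega)
      have := R_lt (h.s1 a (i + j) (by omega))
      rw [← add_assoc i j 1]; omega
  have h2 := h1 i 0 (by omega)
  have h3 := h1 (n - i) i (by omega)
  have h4 := R_le (F a (i + (n - i)))
  have := h.hn
  simp only [zero_add] at h2
  omega

lemma St.vert (h : St n F) (a : ℤ) (g : Fin r) : ∃ v, (F a 0 g).1 = {v} := by
  have h0 := h.R_eq a 0 (Nat.zero_le _)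
  have h1 : rk (F a 0 g) = 0 := (Finset.sum_eq_zero_iff.1 h0) g (Finset.mem_univ _)
  have h2 : (F a 0 g).1 ≠ Finset.univ := fun h2 => by
    have := h.hm g
    simp only [rk, h2, if_true] at h1; omega
  have h3 := card_le _ h2
  simp only [rk, h2, if_false] at h1
  exact Finset.card_eq_one.1 (by omega)

noncomputable def St.V (h : St n F) (a : ℤ) (g : Fin r) : Fin (m g) × Bool := (h.vert a g).choose

lemma St.V_spec (h : St n F) (a : ℤ) (g : Fin r) : (F a 0 g).1 = {h.V a g} := (h.vert a g).choose_spec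

noncomputable def St.W (h : St n F) (a : ℤ) (i : ℕ) (g : Fin r) : Finset (Fin (m g) × Bool) :=
  (Finset.range (i + 1)).image fun j : ℕ => h.V (a + j) g

lemma St.mem_W (h : St n F) {a : ℤ} {i : ℕ} {g : Fin r} {v} :
    v ∈ h.W a i g ↔ ∃ j : ℕ, j ≤ i ∧ h.V (a + j) g = v := by
  simp [St.W]

lemma St.W_ne (h : St n F) (a : ℤ) (i : ℕ) (g : Fin r) : (h.W a i g).Nonempty :=
  ⟨_, h.mem_W.2 ⟨0, Nat.zero_le _, rfl⟩⟩

lemma St.W_succ (h : St n F) (a : ℤ) (i : ℕ) (g : Fin r) :
    h.W a (i + 1) g = h.W a i g ∪ h.W (a + 1) i g := by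
  ext v
  simp only [Finset.mem_union, h.mem_W]
  constructor
  · rintro ⟨j, hj, rfl⟩
    rcases j with _ | j
    · exact Or.inl ⟨0, Nat.zero_le _, rfl⟩
    · exact Or.inr ⟨j, by omega, by congr 1; push_cast; ring⟩
  · rintro (⟨j, hj, rfl⟩ | ⟨j, hj, rfl⟩)
    · exact ⟨j, by omega, rfl⟩
    · exact ⟨j + 1, by omega, by congr 1; push_cast; ring⟩

lemma St.F_eq (h : St n F) : ∀ i, i ≤ n → ∀ a g, (F a i g).1 = cl (h.W a i g) := by
  intro i
  induction i with
  | zero =>
    intro _ a g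
    have : h.W a 0 g = {h.V a g} := by simp [St.W]
    rw [this, h.V_spec]
    unfold cl
    rw [if_neg]
    rintro ⟨v, hv, hv'⟩
    simp only [Finset.mem_singleton] at hv hv'
    exact neg_ne v (hv'.trans hv.symm)
  | succ i ih =>
    intro hi a g
    let u : ∀ f, Cross (m f) := fun f => ⟨cl (h.W a (i + 1) f), cl_face (h.W_ne _ _ _)⟩
    have hx : F a i ≤ u := fun f => by
      change (F a i f).1 ⊆ cl _
      rw [ih (by omega)]
      exact cl_mono (h.W_ne _ _ _) (by rw [h.W_succ]; exact Finset.subset_union_left)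
    have hy : F (a + 1) i ≤ u := fun f => by
      change (F (a + 1) i f).1 ⊆ cl _
      rw [ih (by omega)]
      exact cl_mono (h.W_ne _ _ _) (by rw [h.W_succ]; exact Finset.subset_union_right)
    have hz : u ≤ F a (i + 1) := fun f => by
      change cl _ ⊆ (F a (i + 1) f).1
      refine cl_sub _ ?_
      rw [h.W_succ]
      refine Finset.union_subset ?_ ?_
      · refine (sub_cl _).trans ?_
        rw [← ih (by omega)]
        exact (h.s1 a i (by omega)).le f
      · refine (sub_cl _).trans ?_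
        rw [← ih (by omega)]
        exact (h.s2 a i (by omega)).le f
    have r1 := h.R_eq a i (by omega)
    have r2 := h.R_eq (a + 1) i (by omega)
    have r3 := h.R_eq a (i + 1) hi
    have hne : F a i ≠ u := fun he =>
      h.s3 a i (by omega) (Pet.R_eq (by rw [he]; exact hy) (by omega))
    have := R_lt (lt_of_le_of_ne hx hne)
    have he := Pet.R_eq hz (by omega)
    rw [← he]

open Classical in
noncomputable def St.C (h : St n F) (a : ℤ) (i : ℕ) (g : Fin r) : ℕ :=
  ∑ j ∈ Finset.range i, if h.V (a + j + 1) g ≠ h.V (a + j) g then 1 else 0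

lemma St.F_same (h : St n F) {a : ℤ} {i : ℕ} (hi : i < n) {g : Fin r}
    (hg : h.V (a + i + 1) g = h.V (a + i) g) : F a (i + 1) g = F a i g := by
  apply Subtype.ext
  rw [h.F_eq _ hi, h.F_eq _ hi.le]
  congr 1
  ext v
  simp only [h.mem_W]
  constructor
  · rintro ⟨j, hj, rfl⟩
    rcases Nat.lt_or_ge j (i + 1) with h1 | h1
    · exact ⟨j, by omega, rfl⟩
    · refine ⟨i, le_rfl, ?_⟩
      rw [← hg, show j = i + 1 by omega]; congr 1; push_cast; ring
  · rintro ⟨j, hj, rfl⟩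
    exact ⟨j, by omega, rfl⟩

lemma St.ch_ex (h : St n F) (hn : 0 < n) (a : ℤ) : ∃ g, h.V (a + 1) g ≠ h.V a g := by
  by_contra hc
  push Not at hc
  refine h.s3 a 0 hn (funext fun g => Subtype.ext ?_)
  rw [h.V_spec, h.V_spec, hc]

lemma St.ch_uniq (h : St n F) (hn : 0 < n) (a : ℤ) {g g' : Fin r} (hg : h.V (a + 1) g ≠ h.V a g)
    (hg' : h.V (a + 1) g' ≠ h.V a g') : g = g' := by
  have key : ∀ f, h.V (a + 1) f ≠ h.V a f → 1 ≤ rk (F a 1 f) := by
    intro f hf
    have h1 : F a 0 f ≤ F a 1 f := (h.s1 a 0 hn).le f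
    have h2 : F (a + 1) 0 f ≤ F a 1 f := (h.s2 a 0 hn).le f
    have h3 : F a 0 f ≠ F a 1 f := fun he => by
      rw [← he] at h2
      have h4 : (F (a + 1) 0 f).1 ⊆ (F a 0 f).1 := h2
      rw [h.V_spec, h.V_spec] at h4
      exact hf (by simpa using h4)
    have := rk_lt (lt_of_le_of_ne h1 h3)
    omega
  by_contra hne
  have h1 := h.R_eq a 1 hn
  have h2 : ∑ f ∈ {g, g'}, rk (F a 1 f) ≤ R (F a 1) :=
    Finset.sum_le_sum_of_subset (Finset.subset_univ _)
  rw [Finset.sum_pair hne] at h2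
  have := key g hg
  have := key g' hg'
  omega

lemma St.rk_eq (h : St n F) (a : ℤ) (g : Fin r) : ∀ i, i ≤ n → rk (F a i g) = h.C a i g := by
  intro i
  induction i with
  | zero =>
    intro _
    have h0 := h.R_eq a 0 (Nat.zero_le _)
    simpa [St.C] using (Finset.sum_eq_zero_iff.1 h0) g (Finset.mem_univ _)
  | succ i ih =>
    intro hi
    unfold St.C at ih ⊢
    rw [Finset.sum_range_succ, ← ih (by omega)]
    split_ifs with hg
    · have r1 := h.R_eq a i (by omega)
      have r3 := h.R_eq a (i + 1) hi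
      unfold R at r1 r3
      rw [← Finset.add_sum_erase _ _ (Finset.mem_univ g)] at r1 r3
      have : ∑ f ∈ Finset.univ.erase g, rk (F a (i + 1) f) = ∑ f ∈ Finset.univ.erase g, rk (F a i f) := by
        refine Finset.sum_congr rfl fun f hf => ?_
        rw [h.F_same (by omega)]
        by_contra hf'
        exact (Finset.mem_erase.1 hf).1 (h.ch_uniq (by omega) _ hf' hg)
      omega
    · rw [h.F_same (by omega) (not_not.1 hg)]; rfl

lemma St.C_add (h : St n F) (a : ℤ) (i j : ℕ) (g : Fin r) :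
    h.C a (i + j) g = h.C a i g + h.C (a + i) j g := by
  unfold St.C
  rw [Finset.sum_range_add]
  congr 1
  refine Finset.sum_congr rfl fun k _ => ?_
  push_cast
  simp only [add_assoc]

lemma St.C_one (h : St n F) (a : ℤ) (g : Fin r) (hg : h.V (a + 1) g ≠ h.V a g) : h.C a 1 g = 1 := by
  simp [St.C, hg]

lemma St.C_zero (h : St n F) (g : Fin r) (a : ℤ) : ∀ j : ℕ, h.C a j g = 0 → h.V (a + j) g = h.V a g := by
  intro j
  induction j with
  | zero => simp
  | succ j ih =>
    intro hj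
    rw [h.C_add] at hj
    rw [← ih (by omega)]
    by_contra hne
    have := h.C_one (a + j) g (by rw [add_assoc]; exact_mod_cast hne)
    omega

lemma St.C_n (h : St n F) (a : ℤ) (g : Fin r) : h.C a n g = m g := by
  rw [← h.rk_eq a g n le_rfl]
  have h1 := h.R_eq a n le_rfl
  have h2 := (Finset.sum_eq_sum_iff_of_le (s := Finset.univ)
    (fun f _ => rk_le (F a n f))).1 (h1.trans h.hn)
  exact h2 g (Finset.mem_univ _)

lemma St.top_of (h : St n F) (a : ℤ) (g : Fin r) (j : ℕ) (hj : j ≤ n)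
    (hv : h.V (a + j) g = neg (h.V a g)) : h.C a j g = m g := by
  rw [← h.rk_eq a g j hj]
  have : (F a j g).1 = Finset.univ := by
    rw [h.F_eq j hj]
    exact cl_pair (v := h.V a g) (h.mem_W.2 ⟨0, Nat.zero_le _, by simp⟩) (h.mem_W.2 ⟨j, le_rfl, hv⟩)
  simp [rk, this]

lemma St.anti (h : St n F) (a : ℤ) (g : Fin r) : h.V (a + n) g = neg (h.V a g) := by
  have h1 : (F a n g).1 = Finset.univ := rk_top _ (by rw [h.rk_eq a g n le_rfl, h.C_n])
  rw [h.F_eq n le_rfl] at h1
  obtain ⟨v, hv, hv'⟩ := cl_univ (h.W_ne _ _ _) h1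
  have key : ∀ j k : ℕ, j ≤ k → k ≤ n → h.V (a + k) g = neg (h.V (a + j) g) →
      h.V (a + n) g = neg (h.V a g) := by
    intro j k hjk hk he
    obtain ⟨d, rfl⟩ := Nat.exists_eq_add_of_le hjk
    obtain ⟨e, he'⟩ := Nat.exists_eq_add_of_le hk
    have t1 := h.top_of (a + j) g d (by omega) (by rw [← he]; congr 1; push_cast; ring)
    have t2 : h.C a (j + d + e) g = m g := by rw [← he']; exact h.C_n a g
    rw [h.C_add, h.C_add] at t2
    have t3 := h.C_zero g a j (by omega)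
    have t4 := h.C_zero g (a + ((j + d : ℕ) : ℤ)) e (by omega)
    rw [← t3, ← he, ← t4]
    congr 1
    rw [he']; push_cast; ring
  obtain ⟨j, hj, rfl⟩ := h.mem_W.1 hv
  obtain ⟨k, hk, hk'⟩ := h.mem_W.1 hv'
  rcases le_total j k with hjk | hjk
  · exact key j k hjk hk hk'
  · exact key k j hjk hj (by rw [hk', neg_neg'])

lemma St.inj (h : St n F) (g : Fin r) : ∀ (b : ℕ) (a : ℤ), b ≤ n → h.V a g = h.V (a + b) g →
    h.C a b g = 0 := by
  intro b
  induction b with
  | zero => intro a _ _; simp [St.C]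
  | succ b ih =>
    intro a hb he
    have he' : h.V a g = h.V (a + 1 + b) g := by rw [he]; congr 1; push_cast; ring
    have hW : h.W a (b + 1) g = h.W (a + 1) b g := by
      ext v
      simp only [h.mem_W]
      constructor
      · rintro ⟨j, hj, rfl⟩
        rcases j with _ | j
        · exact ⟨b, le_rfl, by simpa using he'.symm⟩
        · exact ⟨j, by omega, by congr 1; push_cast; ring⟩
      · rintro ⟨j, hj, rfl⟩
        exact ⟨j + 1, by omega, by congr 1; push_cast; ring⟩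
    have hF : F a (b + 1) g = F (a + 1) b g := by
      apply Subtype.ext
      rw [h.F_eq _ hb, h.F_eq _ (by omega), hW]
    have h1 := h.rk_eq a g (b + 1) hb
    have h2 := h.rk_eq (a + 1) g b (by omega)
    have h3 := h.C_add a 1 b g
    rw [add_comm 1 b] at h3
    simp only [Nat.cast_one] at h3
    rw [hF] at h1
    have h4 := h.C_zero g a 1 (by omega)
    simp only [Nat.cast_one] at h4
    have := ih (a + 1) (by omega) (h4.trans he')
    omega

lemma St.main (h : St n F) (a : ℤ) (i d : ℕ) (hi : i < n) (hd : 0 < d) (hd' : d ≤ n)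
    (he : F a i = F (a + d) i) : False := by
  obtain ⟨d, rfl⟩ : ∃ e, d = e + 1 := ⟨d - 1, by omega⟩
  obtain ⟨g, hg⟩ := h.ch_ex (by omega) (a + d)
  obtain ⟨e, hen⟩ : ∃ e, n = i + e + 1 := ⟨n - i - 1, by omega⟩
  have hg' : h.V (a + d + n + 1) g ≠ h.V (a + d + n) g := by
    rw [add_right_comm _ (n : ℤ) 1, h.anti, h.anti]
    intro hh
    exact hg (by rw [← neg_neg' (h.V (a + d + 1) g), hh, neg_neg'])
  have c1 := h.C_n (a + ((d + 1 : ℕ) : ℤ)) g
  have c2 := h.C_add (a + ((d + 1 : ℕ) : ℤ)) (i + e) 1 g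
  have c3 := h.C_add (a + ((d + 1 : ℕ) : ℤ)) i e g
  have c4 := h.C_one _ g hg'
  have c5 : a + ((d + 1 : ℕ) : ℤ) + ((i + e : ℕ) : ℤ) = a + d + n := by rw [hen]; push_cast; ring
  rw [c5, ← hen] at c2
  have c6 := h.rk_eq (a + ((d + 1 : ℕ) : ℤ)) g i hi.le
  have hnt : (F (a + ((d + 1 : ℕ) : ℤ)) i g).1 ≠ Finset.univ := fun hh => by
    simp only [rk, hh, if_true] at c6; omega
  have hmem : h.V a g ∈ (F a i g).1 := by
    rw [h.F_eq i hi.le]
    exact sub_cl _ (h.mem_W.2 ⟨0, Nat.zero_le _, by simp⟩)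
  have hnt' := hnt
  rw [h.F_eq i hi.le] at hnt'
  rw [he, h.F_eq i hi.le, cl_ne hnt'] at hmem
  obtain ⟨j, hj, hv⟩ := h.mem_W.1 hmem
  rcases Nat.lt_or_ge n (d + 1 + j) with hc | hc
  · obtain ⟨t, ht⟩ : ∃ t, d + 1 + j = t + n := ⟨d + 1 + j - n, by omega⟩
    have hv' : h.V a g = neg (h.V (a + t) g) := by
      rw [← h.anti, ← hv]; congr 1
      have : ((d + 1 + j : ℕ) : ℤ) = ((t + n : ℕ) : ℤ) := by rw [ht]
      push_cast at this ⊢; linarith
    apply hnt
    rw [← he, h.F_eq i hi.le]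
    exact cl_pair (v := h.V (a + t) g) (h.mem_W.2 ⟨t, by omega, rfl⟩)
      (h.mem_W.2 ⟨0, Nat.zero_le _, by simpa using hv'⟩)
  · have t1 := h.inj g (d + 1 + j) a hc (by rw [← hv]; congr 1; push_cast; ring)
    rw [h.C_add, h.C_add] at t1
    have := h.C_one _ g hg
    omega

lemma St.per (h : St n F) (i : ℕ) (hi : i ≤ n) (a : ℤ) : F (a + 2 * n) i = F a i := by
  funext g
  apply Subtype.ext
  rw [h.F_eq i hi, h.F_eq i hi]
  congr 1
  unfold St.W
  congr 1
  funext j
  rw [show a + 2 * n + j = a + j + n + n by ring, h.anti, h.anti, neg_neg']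

lemma St.per' (h : St n F) (i : ℕ) (hi : i ≤ n) (q : ℤ) (a : ℤ) : F (a + 2 * n * q) i = F a i := by
  have hp : Function.Periodic (fun a => F a i) (2 * n : ℤ) := fun a => h.per i hi a
  have := hp.int_mul q a
  simp only [Int.cast_id] at this
  rw [← this, mul_comm q]

theorem acoptic_prod (r : ℕ) (m : Fin r → ℕ) (hm : ∀ f, 1 ≤ m f) :
    Acoptic (∀ f, Cross (m f)) (∑ f, m f) := by
  intro l hl hl' Ψ h1 h2 k k' i he
  obtain ⟨F, o, hF, s1, s2, s3⟩ := stair l hl hl' Ψ h1 h2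
  have h : St (∑ f, m f) F := ⟨rfl, hm, s1, s2, s3⟩
  generalize (∑ f, m f) = n at *
  have hn : 0 < n := i.pos
  rw [hF, hF] at he
  simp only [Fin.val_castSucc] at he
  have hq := Int.emod_add_mul_ediv (k' - k) (2 * n)
  have hd0 := Int.emod_nonneg (k' - k) (show (2 * n : ℤ) ≠ 0 by omega)
  have hd1 := Int.emod_lt_of_pos (k' - k) (show (0 : ℤ) < 2 * n by omega)
  generalize (k' - k) / (2 * n) = q at hq
  obtain ⟨d, hd⟩ := Int.eq_ofNat_of_zero_le hd0
  rw [hd] at hq hd1
  have hk' : k' = k + d + 2 * n * q := by linarith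
  subst hk'
  rcases Nat.eq_zero_or_pos d with h0 | h0
  · subst h0
    funext j
    rw [hF, hF, show k + ((0 : ℕ) : ℤ) + 2 * n * q - o j = k - o j + 2 * n * q by push_cast; ring,
      h.per' j (by omega)]
  exfalso
  rw [show k + (d : ℤ) + 2 * n * q - o i = k - o i + d + 2 * n * q by ring, h.per' i i.2.le] at he
  rcases le_or_gt d n with h3 | h3
  · exact h.main _ i d i.2 h0 h3 he
  · refine h.main (k - o i + d) i (2 * n - d) i.2 (by omega) (by omega) ?_
    rw [← he, show k - o i + d + ((2 * n - d : ℕ) : ℤ) = k - o i + 2 * n by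
      rw [Nat.cast_sub (by omega)]; push_cast; ring, h.per i i.2.le]

end Pool.Agent.H71.Pet
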