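import Pool.Agent.H71.Pet2

namespace Pool.Agent.H71.Pet

def sC (c : ℕ) : Cross 1 :=
  if c = 0 then ⟨{(0, false)}, Or.inr (by decide)⟩ else if c = 1 then ⟨{(0, true)}, Or.inr (by decide)⟩
  else ⟨Finset.univ, Or.inl rfl⟩

def oC (c : ℕ) : Oct :=
  if c < 8 then ⟨{Fin.ofNat 8 c}, Or.inr (Or.inl ⟨_, rfl⟩)⟩
  else if c < 16 then ⟨{Fin.ofNat 8 c, Fin.ofNat 8 c + 1}, Or.inr (Or.inr ⟨_, rfl⟩)⟩
  else ⟨Finset.univ, Or.inl rfl⟩

def tb : List (List (ℕ × ℕ)) := [[(0, 0), (0, 8), (0, 16), (2, 16)], [(0, 1), (0, 8), (0, 16), (2, 16)], [(0, 1), (0, 9), (0, 16), (2, 16)], [(0, 1), (0, 9), (2, 9), (2, 16)], [(0, 2), (0, 9), (2, 9), (2, 16)], [(0, 2), (2, 2), (2, 9), (2, 16)], [(0, 2), (2, 2), (2, 10), (2, 16)], [(1, 2), (2, 2), (2, 10), (2, 16)], [(1, 2), (1, 10), (2, 10), (2, 16)], [(1, 2), (1, 10), (1, 16), (2, 16)], [(1, 3), (1, 10), (1, 16), (2, 16)], [(1, 3), (1, 11),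 (1, 16), (2, 16)], [(1, 3), (1, 11), (2, 11), (2, 16)], [(1, 4), (1, 11), (2, 11), (2, 16)], [(1, 4), (2, 4), (2, 11), (2, 16)], [(1, 4), (2, 4), (2, 12), (2, 16)], [(0, 4), (2, 4), (2, 12), (2, 16)], [(0, 4), (0, 12), (2, 12), (2, 16)], [(0, 4), (0, 12), (0, 16), (2, 16)], [(0, 5), (0, 12), (0, 16), (2, 16)], [(0, 5), (0, 13), (0, 16), (2, 16)], [(0, 5), (0, 13), (2, 13), (2, 16)], [(0, 6), (0, 13), (2, 13), (2, 16)], [(0, 6), (2, 6), (2, 13), (2, 16)], [(0, 6), (2, 6), (2, 14), (2, 16)], [(1, 6), (2, 6), (2, 14), (2, 16)], [(1, 6), (1, 14), (2, 14), (2, 16)], [(1, 6), (1, 14), (1, 16), (2, 16)], [(1, 7), (1, 14), (1, 16), (2, 16)], [(1, 7), (1, 15), (1, 16), (2, 16)], [(1, 7), (1, 15), (2, 15), (2, 16)], [(1, 0), (1, 15), (2, 15), (2, 16)], [(1, 0), (2, 0), (2, 15), (2, 16)], [(1, 0), (2, 0), (2, 8), (2, 16)], [(0, 0), (2, 0), (2, 8), (2, 16)], [(0, 0), (0, 8),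 (2, 8), (2, 16)]]

def T (s : ℕ) (i : Fin 4) : Cross 1 × Oct :=
  (sC ((tb.getD (s % 36) []).getD i (0, 0)).1, oC ((tb.getD (s % 36) []).getD i (0, 0)).2)

lemma T_mono (s : ℕ) : StrictMono (T s) := by
  have h : ∀ s : Fin 36, ∀ j : Fin 3,
      ((T s j.castSucc).1.1 ⊆ (T s j.succ).1.1 ∧ (T s j.castSucc).2.1 ⊆ (T s j.succ).2.1) ∧
      ¬ ((T s j.succ).1.1 ⊆ (T s j.castSucc).1.1 ∧ (T s j.succ).2.1 ⊆ (T s j.castSucc).2.1) := by
    decide +kernel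
  have e : T s = T (⟨s % 36, Nat.mod_lt _ (by norm_num)⟩ : Fin 36) := by
    funext i; simp [T]
  rw [e, Fin.strictMono_iff_lt_succ]
  intro j
  exact lt_iff_le_not_ge.2 (h _ j)

lemma T_adj (k : Fin 12) (i : Fin 3) : Adj i (T (3 * k + i)) (T (3 * k + i + 1)) := by
  have h1 : ∀ (k : Fin 12) (i : Fin 3),
      ¬ (T (3 * k + i + 1) i.castSucc = T (3 * k + i) i.castSucc) := by decide +kernel
  have h2 : ∀ (k : Fin 12) (i : Fin 3) (j : Fin 4), j = i.castSucc ∨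
      T (3 * k + i + 1) j = T (3 * k + i) j := by decide +kernel
  exact ⟨T_mono _, h1 k i, fun j hj => (h2 k i j).resolve_left hj⟩

theorem not_acoptic_prism : ¬ Acoptic (Cross 1 × Oct) 3 := by
  intro h
  have hs : ∀ k : ℤ, Steps ([0, 1, 2] : List (Fin 3)) (T (3 * (k % 12).toNat))
      (T (3 * ((k + 1) % 12).toNat)) := by
    intro k
    have hk : (k % 12).toNat < 12 := by omega
    refine ⟨_, T_adj ⟨_, hk⟩ 0, _, T_adj ⟨_, hk⟩ 1, _, T_adj ⟨_, hk⟩ 2, ?_⟩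
    change T _ = T _
    funext i
    have : 3 * ((k + 1) % 12).toNat % 36 = (3 * (k % 12).toNat + 2 + 1) % 36 := by omega
    simp only [T, this]
    rfl
  have := h [0, 1, 2] (by decide) (by decide) (fun k => T (3 * (k % 12).toNat)) (fun k => T_mono _)
    hs 0 6 2 (by decide +kernel)
  have h3 := congrFun this 0
  revert h3
  decide +kernel

end Pool.Agent.H71.Pet
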