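import Mathlib

set_option autoImplicit false

namespace Pool.Agent.H71.SolRO

open scoped commutatorElement

variable {G : Type} [Group G]

/-- left invariant total preorder -/
structure LI (r : G → G → Prop) : Prop where
  total : ∀ x y, r x y ∨ r y x
  trans : ∀ {x y z}, r x y → r y z → r x z
  inv : ∀ (g) {x y}, r x y → r (g * x) (g * y)

/-- every left invariant total preorder on which `N` acts trivially is trivial -/
def T (N : Subgroup G) : Prop :=
  ∀ r : G → G → Prop, LI r → (∀ n ∈ N, ∀ x, r (n * x) x) → ∀ x y, r x y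

theorem LI.refl {r : G → G → Prop} (hr : LI r) (x : G) : r x x := (hr.total x x).elim id id

theorem LI.inv' {r : G → G → Prop} (hr : LI r) (g : G) {x y : G} (h : r (g * x) (g * y)) :
    r x y := by simpa using hr.inv g⁻¹ h

theorem LI.of_not {r : G → G → Prop} (hr : LI r) {x y : G} (h : ¬ r x y) : r y x :=
  (hr.total x y).resolve_left h

/-- convex hull of an orbit of a cyclic group -/
def L (r : G → G → Prop) (a x : G) : Set G :=
  {w | (∃ i : ℤ, r (a ^ i * x) w) ∧ ∃ j : ℤ, r w (a ^ j * x)}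

/-- cofinal elements -/
def Pos (r : G → G → Prop) (c : G) : Prop := ∀ y z, ∃ n : ℕ, r z (c ^ n * y)

section
variable {r : G → G → Prop} (hr : LI r) {A : Subgroup G} [hAn : A.Normal]
  (hc : ∀ a ∈ A, ∀ b ∈ A, ∀ x, r (a * (b * x)) (b * (a * x)))
include hr hc

omit hAn in
theorem chain {a b : G} (ha : a ∈ A) (hb : b ∈ A) (x : G) :
    L r a x ⊆ L r b x ∨ L r b x ⊆ L r a x := by
  by_cases h : L r a x ⊆ L r b x
  · exact Or.inl h
  right
  obtain ⟨w, ⟨⟨i, hi⟩, ⟨j, hj⟩⟩, hw⟩ := Set.not_subset.1 h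
  have key : ∃ m n : ℤ, ∀ k : ℤ, r (a ^ m * x) (b ^ k * x) ∧ r (b ^ k * x) (a ^ n * x) := by
    rcases not_and_or.1 hw with h1 | h1
    · push Not at h1
      have h2 : ∀ k : ℤ, r (a ^ i * x) (b ^ k * x) := fun k => hr.trans hi (hr.of_not (h1 k))
      refine ⟨i, -i, fun k => ⟨h2 k, ?_⟩⟩
      have h3 := hr.inv (a ^ (-i) * b ^ k) (h2 (-k))
      have h4 := hc _ (zpow_mem hb k) _ (zpow_mem ha (-i)) (a ^ i * x)
      have e1 : b ^ k * (a ^ (-i) * (a ^ i * x)) = b ^ k * x := by group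
      have e2 : a ^ (-i) * b ^ k * (b ^ (-k) * x) = a ^ (-i) * x := by group
      rw [e1, ← mul_assoc] at h4
      rw [e2] at h3
      exact hr.trans h4 h3
    · push Not at h1
      have h2 : ∀ k : ℤ, r (b ^ k * x) (a ^ j * x) := fun k => hr.trans (hr.of_not (h1 k)) hj
      refine ⟨-j, j, fun k => ⟨?_, h2 k⟩⟩
      have h3 := hr.inv (a ^ (-j) * b ^ k) (h2 (-k))
      have h4 := hc _ (zpow_mem ha (-j)) _ (zpow_mem hb k) (a ^ j * x)
      have e1 : b ^ k * (a ^ (-j) * (a ^ j * x)) = b ^ k * x := by group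
      have e2 : a ^ (-j) * b ^ k * (b ^ (-k) * x) = a ^ (-j) * x := by group
      rw [e1, ← mul_assoc] at h4
      rw [e2] at h3
      exact hr.trans h3 h4
  obtain ⟨m, n, hk⟩ := key
  rintro v ⟨⟨i', hi'⟩, ⟨j', hj'⟩⟩
  exact ⟨⟨m, hr.trans (hk i').1 hi'⟩, ⟨n, hr.trans hj' (hk j').2⟩⟩

omit hc hAn in
theorem L_base {a x y : G} (h : y ∈ L r a x) : L r a y = L r a x := by
  obtain ⟨⟨i, hi⟩, ⟨j, hj⟩⟩ := h
  ext w
  constructor
  · rintro ⟨⟨k, hk⟩, ⟨l, hl⟩⟩
    refine ⟨⟨k + i, hr.trans ?_ hk⟩, ⟨l + j, hr.trans hl ?_⟩⟩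
    · rw [zpow_add, mul_assoc]; exact hr.inv _ hi
    · rw [zpow_add, mul_assoc]; exact hr.inv _ hj
  · rintro ⟨⟨k, hk⟩, ⟨l, hl⟩⟩
    refine ⟨⟨k - j, hr.trans ?_ hk⟩, ⟨l - i, hr.trans hl ?_⟩⟩
    · have := hr.inv (a ^ (k - j)) hj
      rwa [← mul_assoc, ← zpow_add, sub_add_cancel] at this
    · have := hr.inv (a ^ (l - i)) hi
      rwa [← mul_assoc, ← zpow_add, sub_add_cancel] at this

omit hc hAn in
theorem L_conj (g a w : G) : g * w ∈ L r (g * a * g⁻¹) g ↔ w ∈ L r a 1 := by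
  have e : ∀ i : ℤ, (g * a * g⁻¹) ^ i * g = g * (a ^ i * 1) := by
    intro i; rw [conj_zpow]; group
  simp only [L, Set.mem_ofPred_eq, e]
  exact ⟨fun ⟨⟨i, hi⟩, ⟨j, hj⟩⟩ => ⟨⟨i, hr.inv' g hi⟩, ⟨j, hr.inv' g hj⟩⟩,
    fun ⟨⟨i, hi⟩, ⟨j, hj⟩⟩ => ⟨⟨i, hr.inv g hi⟩, ⟨j, hr.inv g hj⟩⟩⟩

theorem cofinal (S : Set G) (hS : S.Finite) (hgen : Subgroup.closure S = ⊤) (hT : T A) :
    ∃ b ∈ A, ∀ g, g ∈ L r b 1 := by
  have hull : ∀ x y, ∃ a ∈ A, r x (a * y) := by
    refine hT (fun x y => ∃ a ∈ A, r x (a * y)) ⟨fun x y => ?_, ?_, ?_⟩ ?_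
    · exact (hr.total x y).imp (fun h => ⟨1, one_mem _, by rwa [one_mul]⟩)
        (fun h => ⟨1, one_mem _, by rwa [one_mul]⟩)
    · rintro x y z ⟨a, ha, h⟩ ⟨b, hb, h'⟩
      exact ⟨a * b, mul_mem ha hb, hr.trans h (by rw [mul_assoc]; exact hr.inv a h')⟩
    · rintro g x y ⟨a, ha, h⟩
      refine ⟨g * a * g⁻¹, hAn.conj_mem a ha g, ?_⟩
      have := hr.inv g h
      rwa [show g * (a * y) = g * a * g⁻¹ * (g * y) by group] at this
    · exact fun n hn x => ⟨n, hn, hr.refl _⟩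
  have ex : ∀ g, ∃ c : A, g ∈ L r c 1 := by
    intro g
    obtain ⟨a, ha, h1⟩ := hull g 1
    obtain ⟨b, hb, h2⟩ := hull 1 g
    have h3 : r (b⁻¹ * 1) g := by simpa using hr.inv b⁻¹ h2
    have m1 : a * 1 ∈ L r a 1 := ⟨⟨1, by simpa using hr.refl _⟩, ⟨1, by simpa using hr.refl _⟩⟩
    have m2 : b⁻¹ * 1 ∈ L r b 1 :=
      ⟨⟨-1, by simpa using hr.refl _⟩, ⟨-1, by simpa using hr.refl _⟩⟩
    rcases chain hr hc ha hb 1 with h | h
    · obtain ⟨-, ⟨j, hj⟩⟩ := h m1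
      obtain ⟨⟨i, hi⟩, -⟩ := m2
      exact ⟨⟨b, hb⟩, ⟨i, hr.trans hi h3⟩, ⟨j, hr.trans h1 hj⟩⟩
    · obtain ⟨-, ⟨j, hj⟩⟩ := m1
      obtain ⟨⟨i, hi⟩, -⟩ := h m2
      exact ⟨⟨a, ha⟩, ⟨i, hr.trans hi h3⟩, ⟨j, hr.trans h1 hj⟩⟩
  let F : Filter A := ⨅ c : A, Filter.principal {a : A | L r c 1 ⊆ L r a 1}
  have hF : F.NeBot := by
    refine Filter.iInf_neBot_of_directed' ?_ fun c => Filter.principal_neBot_iff.2 ⟨c, fun _ h => h⟩
    intro c d
    rcases chain hr hc c.2 d.2 1 with h | h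
    · exact ⟨d, Filter.principal_mono.2 fun a ha => h.trans ha, le_rfl⟩
    · exact ⟨c, le_rfl, Filter.principal_mono.2 fun a ha => h.trans ha⟩
  let U := Ultrafilter.of F
  have ev : ∀ g, ∀ᶠ a : A in U, g ∈ L r a 1 := by
    intro g
    obtain ⟨c, hcg⟩ := ex g
    have : {a : A | L r c 1 ⊆ L r a 1} ∈ F :=
      Filter.mem_iInf_of_mem c (Filter.mem_principal_self _)
    filter_upwards [Ultrafilter.of_le F this] with a ha using ha hcg
  have triv := hT (fun x y => ∀ᶠ a : A in U, ∀ w ∈ L r a 1, y⁻¹ * x * w ∈ L r a 1)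
    ⟨fun x y => by
      rw [← Ultrafilter.eventually_or]
      filter_upwards [ev (y⁻¹ * x)] with a ha
      rcases chain hr hc (hAn.conj_mem a a.2 (y⁻¹ * x)) a.2 (y⁻¹ * x) with h | h
      · left
        intro w hw
        rw [← L_base hr ha]
        exact h ((L_conj hr _ _ _).2 hw)
      · right
        intro w hw
        rw [← L_base hr ha] at hw
        rw [← L_conj hr (y⁻¹ * x)]
        have e : y⁻¹ * x * (x⁻¹ * y * w) = w := by group
        rw [e]
        exact h hw,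
    fun {x y z} h h' => by
      filter_upwards [h, h'] with a ha ha' w hw
      have := ha' _ (ha w hw)
      rwa [show z⁻¹ * y * (y⁻¹ * x * w) = z⁻¹ * x * w by group] at this,
    fun g {x y} h => by
      rwa [show (g * y)⁻¹ * (g * x) = y⁻¹ * x by group]⟩
    (fun n hn x => by
      have hm : x⁻¹ * (n * x) ∈ A := by
        simpa [mul_assoc] using hAn.conj_mem n hn x⁻¹
      filter_upwards [ev (x⁻¹ * (n * x))] with a ha w hw
      obtain ⟨⟨i, hi⟩, ⟨j, hj⟩⟩ := hw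
      rw [← L_base hr ha]
      refine ⟨⟨i, hr.trans ?_ (hr.inv _ hi)⟩, ⟨j, hr.trans (hr.inv _ hj) ?_⟩⟩
      · simpa using hc _ (zpow_mem a.2 i) _ hm 1
      · simpa using hc _ hm _ (zpow_mem a.2 j) 1)
  have : ∀ᶠ a : A in U, ∀ s ∈ S, (∀ w ∈ L r a 1, s * w ∈ L r a 1) ∧
      ∀ w ∈ L r a 1, s⁻¹ * w ∈ L r a 1 := by
    rw [Filter.eventually_all_finite hS]
    intro s _
    filter_upwards [triv s 1, triv s⁻¹ 1] with a h1 h2
    exact ⟨by simpa using h1, by simpa using h2⟩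
  obtain ⟨a, ha⟩ := this.exists
  refine ⟨a, a.2, fun g => ?_⟩
  have hg : g ∈ Subgroup.closure S := hgen ▸ Subgroup.mem_top g
  induction hg using Subgroup.closure_induction_left with
  | one => exact ⟨⟨0, by simpa using hr.refl _⟩, ⟨0, by simpa using hr.refl _⟩⟩
  | mul_left s hs y _ ih => exact (ha s hs).1 _ ih
  | inv_mul_cancel s hs y _ ih => exact (ha s hs).2 _ ih

omit hc hAn in
theorem pow_mono {b x : G} (h : r x (b * x)) (n : ℕ) : r x (b ^ n * x) := by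
  induction n with
  | zero => simpa using hr.refl x
  | succ n ih =>
    rw [pow_succ, mul_assoc]
    exact hr.trans ih (hr.inv _ h)

omit hc hAn in
theorem pow_anti {b x : G} (h : r (b * x) x) (n : ℕ) : r (b ^ n * x) x := by
  induction n with
  | zero => simpa using hr.refl x
  | succ n ih =>
    rw [pow_succ, mul_assoc]
    exact hr.trans (hr.inv _ h) ih

omit hc hAn in
theorem pos_of (b : G) (hb : ∀ g, g ∈ L r b 1) (h1 : r 1 (b * 1)) : Pos r b := by
  intro y z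
  obtain ⟨⟨i, hi⟩, -⟩ := hb y
  obtain ⟨-, ⟨j, hj⟩⟩ := hb z
  refine ⟨(j - i).natAbs, hr.trans hj (hr.trans ?_ (hr.inv _ hi))⟩
  obtain ⟨t, ht⟩ : ∃ t : ℕ, ((j - i).natAbs : ℤ) + i = j + t :=
    ⟨(((j - i).natAbs : ℤ) + i - j).toNat, by omega⟩
  rw [← mul_assoc, ← zpow_natCast, ← zpow_add, ht, zpow_add, mul_assoc, zpow_natCast]
  exact hr.inv _ (pow_mono hr h1 t)

omit hc hAn in
theorem pos_conj {c : G} (g : G) (h : Pos r c) : Pos r (g * c * g⁻¹) := by
  intro y z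
  obtain ⟨n, hn⟩ := h (g⁻¹ * y) (g⁻¹ * z)
  refine ⟨n, ?_⟩
  have := hr.inv g hn
  rwa [mul_inv_cancel_left, ← mul_assoc, ← mul_assoc, ← conj_pow] at this

omit hAn in
theorem mul_pow_le {c d : G} (hcA : c ∈ A) (hdA : d ∈ A) (n : ℕ) (x : G) :
    r ((c * d) ^ n * x) (c ^ n * (d ^ n * x)) := by
  induction n generalizing x with
  | zero => simpa using hr.refl x
  | succ n ih =>
    rw [pow_succ, mul_assoc]
    refine hr.trans (ih _) ?_
    rw [pow_succ, pow_succ, mul_assoc, mul_assoc, mul_assoc]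
    exact hr.inv _ (hc _ (pow_mem hdA n) _ hcA _)

omit hAn in
theorem npos_mul {b c d : G} (hb : b ∈ A) (hP : Pos r b) (hcA : c ∈ A) (hdA : d ∈ A)
    (h1 : ¬ Pos r c) (h2 : ¬ Pos r d) : ¬ Pos r (c * d) := by
  simp only [Pos, not_forall, not_exists] at h1 h2 ⊢
  obtain ⟨y, z, h1⟩ := h1
  obtain ⟨y', z', h2⟩ := h2
  obtain ⟨k, hk⟩ := hP y z'
  refine ⟨(b ^ k)⁻¹ * y', z, fun n hn => h1 n ?_⟩
  refine hr.trans hn (hr.trans (mul_pow_le hr hc hcA hdA n _) (hr.inv _ ?_))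
  refine hr.trans (hc _ (pow_mem hdA n) _ (inv_mem (pow_mem hb k)) _) ?_
  apply hr.inv' (b ^ k)
  rw [mul_inv_cancel_left]
  exact hr.trans (hr.of_not (h2 n)) hk

end

theorem step (S : Set G) (hS : S.Finite) (hgen : Subgroup.closure S = ⊤) (A : Subgroup G)
    [hAn : A.Normal] (hT : T A)
    (hA : ∀ H : Subgroup G, (∀ x y : G, ⁅x, y⁆ ∈ A → ⁅x, y⁆ ∈ H) → ∀ c ∈ A, ∃ m, c ^ (m + 1) ∈ H) :
    T ⁅A, A⁆ := by
  intro r hr hN
  by_contra hnt
  have nomax : ∀ z, ∃ w, ¬ r w z := by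
    intro z
    by_contra h
    push Not at h
    apply hnt
    intro x y
    simpa [mul_assoc] using hr.inv (y * z⁻¹) (h ((y * z⁻¹)⁻¹ * x))
  have hc : ∀ a ∈ A, ∀ b ∈ A, ∀ x, r (a * (b * x)) (b * (a * x)) := by
    intro a ha b hb x
    have := hN _ (Subgroup.commutator_mem_commutator ha hb) (b * (a * x))
    rwa [show ⁅a, b⁆ * (b * (a * x)) = a * (b * x) by rw [commutatorElement_def]; group] at this
  have up : ∀ c, Pos r c → ∀ x, ¬ r (c * x) x := by
    intro c h x hx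
    obtain ⟨w, hw⟩ := nomax x
    obtain ⟨n, hn⟩ := h x w
    exact hw (hr.trans hn (pow_anti hr hx n))
  have notboth : ∀ c, Pos r c → ¬ Pos r c⁻¹ := by
    intro c h h'
    have := hr.inv c⁻¹ (hr.of_not (up c h 1))
    rw [inv_mul_cancel_left] at this
    exact up _ h' 1 this
  obtain ⟨b, hb, hP⟩ : ∃ b ∈ A, Pos r b := by
    obtain ⟨b, hb, h⟩ := cofinal hr hc S hS hgen hT
    rcases hr.total 1 (b * 1) with h1 | h1
    · exact ⟨b, hb, pos_of hr b h h1⟩
    · refine ⟨b⁻¹, inv_mem hb, pos_of hr b⁻¹ (fun g => ?_) (by simpa using hr.inv b⁻¹ h1)⟩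
      obtain ⟨⟨i, hi⟩, ⟨j, hj⟩⟩ := h g
      exact ⟨⟨-i, by simpa using hi⟩, ⟨-j, by simpa using hj⟩⟩
  have np1 : ¬ Pos r 1 := fun h => up 1 h 1 (by simpa using hr.refl 1)
  let A0 : Subgroup G :=
    { carrier := {c | c ∈ A ∧ ¬ Pos r c ∧ ¬ Pos r c⁻¹}
      mul_mem' := fun {c d} h h' => ⟨mul_mem h.1 h'.1, npos_mul hr hc hb hP h.1 h'.1 h.2.1 h'.2.1,
        by rw [mul_inv_rev]; exact npos_mul hr hc hb hP (inv_mem h'.1) (inv_mem h.1) h'.2.2 h.2.2⟩
      one_mem' := ⟨one_mem _, np1, by rwa [inv_one]⟩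
      inv_mem' := fun {c} h => ⟨inv_mem h.1, h.2.2, by rw [inv_inv]; exact h.2.1⟩ }
  have hA0n : A0.Normal := ⟨fun c h g => ⟨hAn.conj_mem c h.1 g, fun hp => h.2.1 (by
      simpa [mul_assoc] using pos_conj hr g⁻¹ hp), fun hp => h.2.2 (by
      simpa [mul_assoc] using pos_conj hr g⁻¹ hp)⟩⟩
  have cen : ∀ g, ∀ c ∈ A, g * c * g⁻¹ * c⁻¹ ∈ A0 := by
    intro g c hcA
    have triv := hT (fun x y => ¬ Pos r (x * c * x⁻¹ * (y * c * y⁻¹)⁻¹))
      ⟨fun x y => by
        by_contra h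
        push Not at h
        apply notboth _ h.1
        rw [mul_inv_rev (x * c * x⁻¹), inv_inv]
        exact h.2,
      fun {x y z} h h' => by
        have := npos_mul hr hc hb hP
          (mul_mem (hAn.conj_mem c hcA x) (inv_mem (hAn.conj_mem c hcA y)))
          (mul_mem (hAn.conj_mem c hcA y) (inv_mem (hAn.conj_mem c hcA z))) h h'
        rwa [mul_assoc, inv_mul_cancel_left] at this,
      fun g {x y} h hp => h (by
        have := pos_conj hr g⁻¹ hp
        rwa [show g⁻¹ * (g * x * c * (g * x)⁻¹ * (g * y * c * (g * y)⁻¹)⁻¹) * g⁻¹⁻¹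
          = x * c * x⁻¹ * (y * c * y⁻¹)⁻¹ by group] at this)⟩
      (fun n hn x hp => by
        apply up _ hp 1
        apply hN
        have := Subgroup.commutator_mem_commutator hn (hAn.conj_mem c hcA x)
        rwa [show ⁅n, x * c * x⁻¹⁆ = n * x * c * (n * x)⁻¹ * (x * c * x⁻¹)⁻¹ by
          rw [commutatorElement_def]; group] at this)
    refine ⟨mul_mem (hAn.conj_mem c hcA g) (inv_mem hcA), by simpa using triv g 1, ?_⟩
    have := triv 1 g
    rwa [show 1 * c * 1⁻¹ * (g * c * g⁻¹)⁻¹ = (g * c * g⁻¹ * c⁻¹)⁻¹ by group] at this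
  have heis : ∀ x y : G, ⁅x, y⁆ ∈ A → ¬ Pos r ⁅x, y⁆ := by
    intro x y hcA hcP
    set c := ⁅x, y⁆ with hcdef
    have small : ∀ a ∈ A0, ∀ w, r (a * w) (c * w) := by
      intro a ha w
      by_contra h
      apply ha.2.1
      have h1 : r w (c⁻¹ * a * w) := by
        simpa [mul_assoc] using hr.inv c⁻¹ (hr.of_not h)
      have h2 : ∀ n : ℕ, r (c ^ n * w) (a ^ n * w) := by
        intro n
        have := hr.trans (pow_mono hr h1 n) (mul_pow_le hr hc (inv_mem hcA) ha.1 n w)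
        simpa using hr.inv (c ^ n) this
      intro u v
      obtain ⟨k, hk⟩ := hcP u w
      obtain ⟨n, hn⟩ := hcP w (c ^ k * v)
      refine ⟨n, hr.inv' (c ^ k) (hr.trans hn (hr.trans (h2 n) (hr.trans (hr.inv _ hk) ?_)))⟩
      exact hc _ (pow_mem ha.1 n) _ (pow_mem hcA k) _
    obtain ⟨N, hN'⟩ := hcP 1 y
    have bd : ∀ w, r (y * w) (c ^ (N + 2) * w) := by
      intro w
      obtain ⟨e, he, h1, h2⟩ : ∃ e ∈ A, r (e * 1) w ∧ r w (c * (e * 1)) := by
        classical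
        obtain ⟨n, hn⟩ := hcP w 1
        have h0 : r ((c ^ n)⁻¹ * 1) w := by simpa using hr.inv (c ^ n)⁻¹ hn
        have hex := hcP ((c ^ n)⁻¹ * 1) w
        have h3 := Nat.find_spec hex
        rcases hk : Nat.find hex with _ | k
        · rw [hk, pow_zero, one_mul] at h3
          exact ⟨_, inv_mem (pow_mem hcA n), h0, hr.trans h3 (hr.of_not (up c hcP _))⟩
        · have h4 := Nat.find_min hex (m := k) (by omega)
          rw [hk, pow_succ'] at h3
          refine ⟨c ^ k * (c ^ n)⁻¹, mul_mem (pow_mem hcA k) (inv_mem (pow_mem hcA n)), ?_, ?_⟩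
          · rw [mul_assoc]; exact hr.of_not h4
          · simpa only [mul_assoc] using h3
      refine hr.trans (hr.inv y h2) ?_
      have h3 := small _ (cen y _ (mul_mem hcA he)) (c * (e * y))
      rw [show y * (c * e) * y⁻¹ * (c * e)⁻¹ * (c * (e * y)) = y * (c * (e * 1)) by group] at h3
      refine hr.trans h3 ?_
      rw [show c ^ (N + 2) * w = c * (c * (c ^ N * w)) by group]
      refine hr.inv _ (hr.inv _ (hr.trans (hr.inv e hN') ?_))
      exact hr.trans (hc _ he _ (pow_mem hcA N) _) (hr.inv _ h1)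
    have hs : ∀ n : ℕ, ∃ a ∈ A0, c ^ n * y = a * (x ^ n * y * (x ^ n)⁻¹) := by
      intro n
      induction n with
      | zero => exact ⟨1, one_mem _, by simp⟩
      | succ n ih =>
        obtain ⟨a, ha, e⟩ := ih
        refine ⟨(x * c ^ n * x⁻¹ * (c ^ n)⁻¹)⁻¹ * (x * a * x⁻¹),
          mul_mem (inv_mem (cen x _ (pow_mem hcA n))) (hA0n.conj_mem a ha x), ?_⟩
        have e' : a = c ^ n * y * (x ^ n * y * (x ^ n)⁻¹)⁻¹ := by rw [e]; group
        rw [e', pow_succ, hcdef, commutatorElement_def]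
        group
    obtain ⟨w, hw⟩ := nomax (c * (c * (c ^ (N + 2) * 1)))
    obtain ⟨n, hn⟩ := hcP y w
    obtain ⟨a, ha, e⟩ := hs n
    apply hw
    rw [e] at hn
    refine hr.trans hn (hr.trans (small a ha _) (hr.inv _ ?_))
    have h1 := hr.inv (x ^ n) (bd (x ^ n)⁻¹)
    have h2 := small _ (cen (x ^ n) _ (pow_mem hcA (N + 2))) (c ^ (N + 2) * 1)
    rw [show x ^ n * c ^ (N + 2) * (x ^ n)⁻¹ * (c ^ (N + 2))⁻¹ * (c ^ (N + 2) * 1)
      = x ^ n * (c ^ (N + 2) * (x ^ n)⁻¹) by group] at h2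
    rw [mul_assoc]
    exact hr.trans h1 h2
  obtain ⟨m, hm⟩ := hA A0 (fun x y h => ⟨h, heis x y h, by
    rw [commutatorElement_inv]
    exact heis y x (by rw [← commutatorElement_inv]; exact inv_mem h)⟩) b hb
  have : ∀ k : ℕ, ¬ Pos r (b ^ (k + 1)) → ¬ Pos r b := by
    intro k
    induction k with
    | zero => simp
    | succ k ih =>
      intro h
      apply ih
      have := npos_mul hr hc hb hP (pow_mem hb _) (inv_mem hb) h (notboth b hP)
      rwa [pow_succ, mul_inv_cancel_right] at this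
  exact this m hm.2.1 hP

theorem fg_case (S : Set G) (hS : S.Finite) (hgen : Subgroup.closure S = ⊤) (m : ℕ)
    (hm : ∀ s ∈ S, s ^ (m + 1) ∈ commutator G) (k : ℕ) : T (derivedSeries G k) := by
  induction k with
  | zero => exact fun r _ h x y => by simpa using h (x * y⁻¹) (Subgroup.mem_top _) y
  | succ k ih =>
    rw [derivedSeries_succ]
    refine step S hS hgen _ ih ?_
    intro H hH c hc
    rcases k with _ | k
    · refine ⟨m, ?_⟩
      have h1 : commutator G ≤ H :=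
        Subgroup.commutator_le.2 fun x _ y _ => hH x y (Subgroup.mem_top _)
      apply h1
      rw [← Abelianization.ker_of]
      have h2 : Subgroup.closure S ≤ ((powMonoidHom (m + 1)).comp Abelianization.of).ker := by
        rw [Subgroup.closure_le]
        intro s hs
        have := hm s hs
        rw [← Abelianization.ker_of, MonoidHom.mem_ker, map_pow] at this
        exact this
      rw [MonoidHom.mem_ker, map_pow]
      exact h2 (hgen ▸ Subgroup.mem_top c)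
    · refine ⟨0, ?_⟩
      rw [derivedSeries_succ] at hc hH
      have h1 : ⁅derivedSeries G k, derivedSeries G k⁆ ≤ H :=
        Subgroup.commutator_le.2 fun x hx y hy =>
          hH x y (Subgroup.commutator_mem_commutator hx hy)
      simpa using h1 hc

end Pool.Agent.H71.SolRO
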