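import Mathlib
import Pool.Agent.H71.SolRO

set_option autoImplicit false

namespace Pool.Agent.H71.SolRO

open scoped commutatorElement

/-- conjugates of elements of `S` by elements of `F` -/
def cj {G : Type} [Group G] (S F : Set G) : Set G := Set.image2 (fun q s => q * s * q⁻¹) F S

theorem cj_mono {G : Type} [Group G] (S : Set G) {F F' : Set G} (h : F ⊆ F') :
    Subgroup.closure (cj S F) ≤ Subgroup.closure (cj S F') :=
  Subgroup.closure_mono (Set.image2_subset_right h)

theorem cj_conj {G : Type} [Group G] (S : Set G) {F F' : Set G} (g : G)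
    (h : ∀ q ∈ F, g * q ∈ F') {x : G} (hx : x ∈ Subgroup.closure (cj S F)) :
    g * x * g⁻¹ ∈ Subgroup.closure (cj S F') := by
  have : Subgroup.closure (cj S F) ≤
      (Subgroup.closure (cj S F')).comap (MulAut.conj g).toMonoidHom := by
    rw [Subgroup.closure_le]
    rintro _ ⟨q, hq, s, hs, rfl⟩
    refine Subgroup.subset_closure ⟨g * q, h q hq, s, hs, ?_⟩
    simp [mul_assoc]
  exact this hx

theorem exists_fin {G : Type} [Group G] (S0 : Set G) (h : Subgroup.normalClosure S0 = ⊤)
    (S1 : Set G) (h1 : S1.Finite) :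
    ∃ F : Set G, F.Finite ∧ ∀ s ∈ S1, s ∈ Subgroup.closure (cj S0 F) := by
  have one : ∀ x : G, ∃ F : Set G, F.Finite ∧ x ∈ Subgroup.closure (cj S0 F) := by
    intro x
    have hx : x ∈ Subgroup.closure (Group.conjugatesOfSet S0) :=
      (h ▸ Subgroup.mem_top x : x ∈ Subgroup.normalClosure S0)
    induction hx using Subgroup.closure_induction with
    | mem x hx =>
      obtain ⟨s, hs, hc⟩ := Group.mem_conjugatesOfSet_iff.1 hx
      obtain ⟨q, rfl⟩ := isConj_iff.1 hc
      exact ⟨{q}, Set.finite_singleton q, Subgroup.subset_closure ⟨q, rfl, s, hs, rfl⟩⟩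
    | one => exact ⟨∅, Set.finite_empty, one_mem _⟩
    | mul x y _ _ hx hy =>
      obtain ⟨F, hF, hx⟩ := hx
      obtain ⟨F', hF', hy⟩ := hy
      exact ⟨F ∪ F', hF.union hF', mul_mem (cj_mono _ Set.subset_union_left hx)
        (cj_mono _ Set.subset_union_right hy)⟩
    | inv x _ hx =>
      obtain ⟨F, hF, hx⟩ := hx
      exact ⟨F, hF, inv_mem hx⟩
  choose F hF hx using one
  exact ⟨⋃ s ∈ S1, F s, h1.biUnion fun s _ => hF s, fun s hs =>
    cj_mono _ (Set.subset_biUnion_of_mem (u := F) hs) (hx s)⟩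

theorem closed (n : ℕ) : ∀ (G : Type) [Group G], derivedSeries G n = ⊥ →
    ∀ S0 S1 : Set G, S1.Finite → Subgroup.normalClosure S0 = ⊤ →
    ∃ F : Set G, F.Finite ∧ (1 : G) ∈ F ∧
      ∀ q ∈ F, ∀ s ∈ S1, q * s * q⁻¹ ∈ Subgroup.closure (cj S0 F) := by
  induction n with
  | zero =>
    intro G _ h S0 S1 _ _
    refine ⟨{1}, Set.finite_singleton 1, rfl, fun q _ s _ => ?_⟩
    have : q * s * q⁻¹ ∈ (⊥ : Subgroup G) := h ▸ Subgroup.mem_top _
    rw [Subgroup.mem_bot.1 this]
    exact one_mem _
  | succ n ih =>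
    intro G _ h S0 S1 h1 h0
    set A := derivedSeries G n with hA
    have hcomm : ∀ a ∈ A, ∀ b ∈ A, a * b = b * a := by
      intro a ha b hb
      have := Subgroup.commutator_mem_commutator ha hb
      rw [← derivedSeries_succ, h, Subgroup.mem_bot] at this
      exact commutatorElement_eq_one_iff_mul_comm.1 this
    let π := QuotientGroup.mk' A
    have hπ : Function.Surjective π := QuotientGroup.mk'_surjective A
    obtain ⟨F0, hF0, hS1⟩ := exists_fin S0 h0 S1 h1
    obtain ⟨Fb, hFb, hFb1, hcl⟩ := ih (G ⧸ A) (by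
      rw [← map_derivedSeries_eq hπ, eq_bot_iff]
      rintro _ ⟨x, hx, rfl⟩
      exact (QuotientGroup.eq_one_iff x).2 hx) (π '' S0) (π '' F0) (hF0.image _) (by
      rw [← Subgroup.map_normalClosure S0 π hπ, h0, Subgroup.map_top_of_surjective _ hπ])
    let F : Set G := insert 1 (Function.surjInv hπ '' Fb)
    have hF : F.Finite := (hFb.image _).insert 1
    have hFi : π '' F = Fb := by
      rw [Set.image_insert_eq, map_one, ← Set.image_comp,
        Function.RightInverse.comp_eq_id (Function.rightInverse_surjInv hπ), Set.image_id,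
        Set.insert_eq_of_mem hFb1]
    have hmap : Subgroup.closure (cj (π '' S0) Fb) = (Subgroup.closure (cj S0 F)).map π := by
      rw [MonoidHom.map_closure, ← hFi, cj, cj, Set.image_image2, Set.image2_image_left,
        Set.image2_image_right]
      simp only [map_mul, map_inv]
    let Y : Set G := insert 1 (cj F0 F)
    have hY : Y.Finite := (Set.Finite.image2 _ hF hF0).insert 1
    have dec : ∀ y : G, y ∈ Y → ∃ a ∈ A, ∃ u ∈ Subgroup.closure (cj S0 F), y = a * u := by
      rintro y (rfl | ⟨q, hq, f, hf, rfl⟩)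
      · exact ⟨1, one_mem _, 1, one_mem _, (mul_one _).symm⟩
      · have := hcl (π q) (hFi ▸ Set.mem_image_of_mem _ hq) (π f) (Set.mem_image_of_mem _ hf)
        rw [hmap] at this
        obtain ⟨u, hu, e⟩ := this
        refine ⟨q * f * q⁻¹ * u⁻¹, ?_, u, hu, by group⟩
        rw [← QuotientGroup.eq_one_iff]
        change π _ = 1
        simp only [map_mul, map_inv, e, mul_inv_cancel]
    choose! a haA u hu hau using dec
    let B : Set G := insert 1 (a '' Y)
    have hB : B.Finite := (hY.image _).insert 1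
    have hBA : ∀ b ∈ B, b ∈ A := by
      rintro b (rfl | ⟨y, hy, rfl⟩)
      · exact one_mem _
      · exact haA y hy
    let F1 : Set G := Set.image2 (· * ·) Y F
    let F2 : Set G := Set.image2 (· * ·) B F1
    have hFF1 : F ⊆ F1 := fun q hq => ⟨1, Set.mem_insert _ _, q, hq, one_mul q⟩
    have hF12 : F1 ⊆ F2 := fun q hq => ⟨1, Set.mem_insert _ _, q, hq, one_mul q⟩
    refine ⟨F2, hB.image2 _ (hY.image2 _ hF), hF12 (hFF1 (Set.mem_insert _ _)), ?_⟩
    rintro _ ⟨b, hb, _, ⟨y, hy, q, hq, rfl⟩, rfl⟩ s hs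
    have m1 : q * s * q⁻¹ ∈ Subgroup.closure (cj S0 F1) :=
      cj_conj S0 (F' := F1) q (fun f hf => ⟨q * f * q⁻¹, Set.mem_insert_of_mem _ ⟨q, hq, f, hf, rfl⟩, q, hq,
        by simp⟩) (hS1 s hs)
    have m2 : u y * (q * s * q⁻¹) * (u y)⁻¹ ∈ Subgroup.closure (cj S0 F1) :=
      mul_mem (mul_mem (cj_mono _ hFF1 (hu y hy)) m1) (inv_mem (cj_mono _ hFF1 (hu y hy)))
    set g := u y * (q * s * q⁻¹) * (u y)⁻¹ with hg
    have m3 : ∀ b ∈ B, b * g * b⁻¹ ∈ Subgroup.closure (cj S0 F2) := fun b hb =>
      cj_conj S0 (F' := F2) b (fun f hf => ⟨b, hb, f, hf, rfl⟩) m2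
    have m4 := cj_mono _ hF12 m2
    have hay : a y ∈ B := Set.mem_insert_of_mem _ ⟨y, hy, rfl⟩
    have m5 := mul_mem (mul_mem (m3 b hb) (inv_mem m4)) (m3 _ hay)
    have c1 := hcomm _ (haA y hy) _ ((derivedSeries_normal G n).conj_mem _ (inv_mem (hBA b hb)) g)
    have c2 := hcomm _ (inv_mem (haA y hy)) _ (inv_mem (hBA b hb))
    have e : b * (y * q) * s * (b * (y * q))⁻¹ =
        b * g * b⁻¹ * g⁻¹ * (a y * g * (a y)⁻¹) := by
      calc b * (y * q) * s * (b * (y * q))⁻¹ = b * (a y * u y * q) * s * (b * (a y * u y * q))⁻¹ := by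
            rw [← hau y hy]
        _ = b * a y * g * ((a y)⁻¹ * b⁻¹) := by rw [hg]; group
        _ = b * (a y * (g * b⁻¹ * g⁻¹)) * g * (a y)⁻¹ := by rw [c2]; group
        _ = _ := by rw [c1]; group
    simp only
    rw [e]
    exact m5

theorem main (G : Type) [Group G] [LinearOrder G] [Nontrivial G] [hs : Group.IsSolvable G]
    (hr : ∀ a b c : G, a ≤ b → a * c ≤ b * c) [Finite (Abelianization G)] : False := by
  have hπ : Function.Surjective (Abelianization.of : G →* Abelianization G) :=
    QuotientGroup.mk'_surjective _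
  let S0 : Set G := Set.range (Function.surjInv hπ)
  have hS0 : S0.Finite := Set.finite_range _
  have h0 : Subgroup.normalClosure S0 = ⊤ := by
    set N := Subgroup.normalClosure S0
    rcases subsingleton_or_nontrivial (G ⧸ N) with h | h
    · rw [eq_top_iff]
      intro x _
      rw [← QuotientGroup.eq_one_iff]
      exact Subsingleton.elim _ _
    · exfalso
      apply (Group.IsSolvable.commutator_lt_top_of_nontrivial (G ⧸ N)).ne
      rw [eq_top_iff]
      intro x _
      obtain ⟨x, rfl⟩ := QuotientGroup.mk'_surjective N x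
      set s := Function.surjInv hπ (Abelianization.of x)
      have h1 : x * s⁻¹ ∈ commutator G := by
        rw [← Abelianization.ker_of, MonoidHom.mem_ker, map_mul, map_inv,
          Function.surjInv_eq hπ, mul_inv_cancel]
      have h2 : QuotientGroup.mk' N s = 1 :=
        (QuotientGroup.eq_one_iff s).2 (Subgroup.subset_normalClosure ⟨_, rfl⟩)
      have h3 := Subgroup.mem_map_of_mem (QuotientGroup.mk' N) h1
      rw [map_mul, map_inv, h2, inv_one, mul_one, commutator_def, Subgroup.map_commutator] at h3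
      exact Subgroup.commutator_mono le_top le_top h3
  obtain ⟨m, hm⟩ : ∃ m, Nat.card (Abelianization G) = m + 1 :=
    ⟨_, (Nat.succ_pred_eq_of_pos Nat.card_pos).symm⟩
  have one : ∀ x ∈ commutator G, ∃ S : Set G, S.Finite ∧
      x ∈ ⁅Subgroup.closure S, Subgroup.closure S⁆ := by
    intro x hx
    rw [commutator_eq_closure] at hx
    induction hx using Subgroup.closure_induction with
    | mem x hx =>
      obtain ⟨g, h, rfl⟩ := hx
      exact ⟨{g, h}, Set.toFinite _, Subgroup.commutator_mem_commutator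
        (Subgroup.subset_closure (by simp)) (Subgroup.subset_closure (by simp))⟩
    | one => exact ⟨∅, Set.finite_empty, one_mem _⟩
    | mul x y _ _ hx hy =>
      obtain ⟨F, hF, hx⟩ := hx
      obtain ⟨F', hF', hy⟩ := hy
      have i1 := Subgroup.closure_mono (Set.subset_union_left (s := F) (t := F'))
      have i2 := Subgroup.closure_mono (Set.subset_union_right (s := F) (t := F'))
      exact ⟨F ∪ F', hF.union hF', mul_mem (Subgroup.commutator_mono i1 i1 hx)
        (Subgroup.commutator_mono i2 i2 hy)⟩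
    | inv x _ hx =>
      obtain ⟨F, hF, hx⟩ := hx
      exact ⟨F, hF, inv_mem hx⟩
  have two : ∀ x : G, ∃ S : Set G, S.Finite ∧
      x ^ (m + 1) ∈ ⁅Subgroup.closure S, Subgroup.closure S⁆ := fun x => one _ (by
    rw [← Abelianization.ker_of, MonoidHom.mem_ker, map_pow, ← hm, pow_card_eq_one'])
  choose S hS hxS using two
  obtain ⟨n, hn⟩ := hs.solvable
  obtain ⟨F, hF, hF1, hcl⟩ := closed n G hn S0 (⋃ s ∈ S0, S s) (hS0.biUnion fun s _ => hS s) h0
  set K := Subgroup.closure (cj S0 F) with hK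
  have hpow : ∀ x ∈ cj S0 F, x ^ (m + 1) ∈ ⁅K, K⁆ := by
    rintro _ ⟨q, hq, s, hs, rfl⟩
    have hle : (Subgroup.closure (S s)).map (MulAut.conj q).toMonoidHom ≤ K := by
      rw [Subgroup.map_le_iff_le_comap, Subgroup.closure_le]
      intro t ht
      exact hcl q hq t (Set.mem_biUnion hs ht)
    have := Subgroup.mem_map_of_mem (MulAut.conj q).toMonoidHom (hxS s)
    rw [Subgroup.map_commutator, map_pow] at this
    exact Subgroup.commutator_mono hle hle this
  obtain ⟨k, hk⟩ := (inferInstance : Group.IsSolvable K).solvable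
  have hT := fg_case (G := K) (K.subtype ⁻¹' cj S0 F)
    ((Set.Finite.image2 _ hF hS0).preimage K.subtype_injective.injOn)
    (Subgroup.closure_closure_coe_preimage) m (by
      intro s hs
      have := hpow _ hs
      rw [← K.map_subtype_commutator] at this
      obtain ⟨y, hy, e⟩ := this
      have : y = s ^ (m + 1) := Subtype.ext e
      rwa [← this]) k
  rw [hk] at hT
  have triv := hT (fun x y => (x.1)⁻¹ ≤ (y.1)⁻¹) ⟨fun x y => le_total _ _, fun h h' => h.trans h',
    fun g {x y} h => by simpa using hr _ _ g.1⁻¹ h⟩ (fun n hn x => by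
      rw [Subgroup.mem_bot.1 hn, one_mul])
  apply (bot_ne_top (α := Subgroup G))
  rw [← h0, eq_comm, eq_bot_iff]
  apply Subgroup.normalClosure_le_normal
  intro s hs
  have hsK : s ∈ K := Subgroup.subset_closure ⟨1, hF1, s, hs, by simp⟩
  have := le_antisymm (triv ⟨s, hsK⟩ 1) (triv 1 ⟨s, hsK⟩)
  simpa using this

end Pool.Agent.H71.SolRO
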