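import Mathlib

/-! Piecewise increasing permutations of the naturals. -/

set_option autoImplicit false

namespace Pool.Agent.H71.Stol

/-- Permutations that are increasing on each piece of a finite partition. -/
def St : Subgroup (Equiv.Perm ℕ) where
  carrier := {g | ∃ (ι : Type) (_ : Finite ι) (c : ℕ → ι), ∀ x y, c x = c y → x < y → g x < g y}
  one_mem' := ⟨Unit, inferInstance, fun _ => (), fun _ _ _ h => h⟩
  mul_mem' := by
    rintro g h ⟨ι, _, c, hc⟩ ⟨κ, _, d, hd⟩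
    refine ⟨ι × κ, inferInstance, fun x => (c (h x), d x), fun x y e hxy => ?_⟩
    simp only [Prod.mk.injEq] at e
    exact hc _ _ e.1 (hd _ _ e.2 hxy)
  inv_mem' := by
    rintro g ⟨ι, _, c, hc⟩
    refine ⟨ι, inferInstance, fun x => c (g⁻¹ x), fun x y e hxy => ?_⟩
    rcases lt_trichotomy (g⁻¹ x) (g⁻¹ y) with h | h | h
    · exact h
    · exact absurd (g⁻¹.injective h) hxy.ne
    · have := hc _ _ e.symm h
      simp only [Equiv.Perm.coe_inv, Equiv.apply_symm_apply] at this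
      exact absurd this (not_lt.2 hxy.le)

def rev (n : ℕ) : ℕ := 2 * (Nat.sqrt n * Nat.sqrt n) + 2 * Nat.sqrt n - n

theorem sqrt_eq {k n : ℕ} (h1 : k * k ≤ n) (h2 : n ≤ k * k + 2 * k) : Nat.sqrt n = k := by
  symm
  rw [Nat.eq_sqrt]
  exact ⟨h1, by nlinarith⟩

theorem rev_invol : Function.Involutive rev := by
  intro n
  have h1 := Nat.sqrt_le n
  have h2 := Nat.sqrt_le_add n
  have h3 : Nat.sqrt (rev n) = Nat.sqrt n := sqrt_eq (by unfold rev; omega) (by unfold rev; omega)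
  unfold rev at h3 ⊢
  rw [h3]
  omega

theorem St_ne_top : St ≠ ⊤ := by
  intro h
  have : rev_invol.toPerm ∈ St := h ▸ Subgroup.mem_top _
  obtain ⟨ι, _, c, hc⟩ := this
  have := Fintype.ofFinite ι
  set k := Fintype.card ι with hk
  obtain ⟨i, j, hij, e⟩ := Fintype.exists_ne_map_eq_of_card_lt (fun i : Fin (k + 1) => c (k * k + i))
    (by simp [hk])
  have key : ∀ i j : Fin (k + 1), i < j → c (k * k + i) = c (k * k + j) → False := by
    intro i j hlt e
    have h1 := hc _ _ e (by have : (i : ℕ) < j := hlt; omega)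
    have a := sqrt_eq (k := k) (n := k * k + i) (by omega) (by have := i.2; omega)
    have b := sqrt_eq (k := k) (n := k * k + j) (by omega) (by have := j.2; omega)
    simp only [Function.Involutive.coe_toPerm, rev, a, b] at h1
    have : (i : ℕ) < j := hlt
    omega
  rcases lt_or_gt_of_ne hij with h | h
  · exact key i j h e
  · exact key j i h e.symm

theorem swap_mem (a b : ℕ) : Equiv.swap a b ∈ St := by
  refine ⟨Fin 3, inferInstance, fun x => if x = a then 0 else if x = b then 1 else 2,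
    fun x y e hxy => ?_⟩
  by_cases xa : x = a <;> by_cases xb : x = b <;> by_cases ya : y = a <;> by_cases yb : y = b <;>
    simp_all [Equiv.swap_apply_of_ne_of_ne]

theorem extend (e f : ℕ ≃ ℚ) (P : Finset (ℕ × ℕ))
    (hP : ∀ u ∈ P, ∀ v ∈ P, e u.1 < e v.1 ↔ f u.2 < f v.2) (p : ℕ) (hp : ∀ u ∈ P, u.1 ≠ p) (M : ℕ) :
    ∃ q, M < q ∧ ∀ u ∈ P, (e u.1 < e p ↔ f u.2 < f q) ∧ (e p < e u.1 ↔ f q < f u.2) := by
  classical
  let lo := (P.filter fun u => e u.1 < e p).image fun u => f u.2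
  let hi := (P.filter fun u => e p < e u.1).image fun u => f u.2
  have hlh : ∀ x ∈ lo, ∀ y ∈ hi, x < y := by
    intro x hx y hy
    obtain ⟨u, hu, rfl⟩ := Finset.mem_image.1 hx
    obtain ⟨v, hv, rfl⟩ := Finset.mem_image.1 hy
    rw [Finset.mem_filter] at hu hv
    exact (hP u hu.1 v hv.1).1 (hu.2.trans hv.2)
  obtain ⟨m, hm1, hm2⟩ := Order.exists_between_finsets lo hi hlh
  obtain ⟨m', hm1', hm2'⟩ := Order.exists_between_finsets {m} hi (by simpa using hm2)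
  have hmm : m < m' := hm1' m (by simp)
  have hinf : (f ⁻¹' Set.Ioo m m').Infinite :=
    (Set.Ioo_infinite hmm).preimage (by simp)
  obtain ⟨q, hq, hMq⟩ := hinf.exists_gt M
  refine ⟨q, hMq, fun u hu => ?_⟩
  have hne : e u.1 ≠ e p := fun h => hp u hu (e.injective h)
  rcases lt_or_gt_of_ne hne with h | h
  · have : f u.2 < f q := (hm1 _ (Finset.mem_image.2 ⟨u, Finset.mem_filter.2 ⟨hu, h⟩, rfl⟩)).trans hq.1
    exact ⟨iff_of_true h this, iff_of_false (not_lt.2 h.le) (not_lt.2 this.le)⟩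
  · have : f q < f u.2 := hq.2.trans (hm2' _ (Finset.mem_image.2 ⟨u, Finset.mem_filter.2 ⟨hu, h⟩, rfl⟩))
    exact ⟨iff_of_false (not_lt.2 h.le) (not_lt.2 this.le), iff_of_true h this⟩

/-- Invariant of the back-and-forth construction. -/
structure Inv (e f : ℕ ≃ ℚ) (n m : ℕ) (A B : Finset (ℕ × ℕ)) : Prop where
  compat : ∀ u ∈ A ∪ B, ∀ v ∈ A ∪ B, e u.1 < e v.1 ↔ f u.2 < f v.2
  monoA : ∀ u ∈ A, ∀ v ∈ A, u.1 < v.1 ↔ u.2 < v.2
  monoB : ∀ u ∈ B, ∀ v ∈ B, u.1 < v.1 ↔ u.2 < v.2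
  ltA : ∀ u ∈ A, u.1 < n
  ltB : ∀ u ∈ B, u.2 < m

theorem Inv.swap {e f : ℕ ≃ ℚ} {n m : ℕ} {A B : Finset (ℕ × ℕ)} (h : Inv e f n m A B) :
    Inv f e m n (B.image Prod.swap) (A.image Prod.swap) := by
  refine ⟨?_, ?_, ?_, ?_, ?_⟩
  · intro u hu v hv
    rw [← Finset.image_union, Finset.union_comm] at hu hv
    obtain ⟨u', hu', rfl⟩ := Finset.mem_image.1 hu
    obtain ⟨v', hv', rfl⟩ := Finset.mem_image.1 hv
    exact (h.compat u' hu' v' hv').symm
  · intro u hu v hv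
    obtain ⟨u', hu', rfl⟩ := Finset.mem_image.1 hu
    obtain ⟨v', hv', rfl⟩ := Finset.mem_image.1 hv
    exact (h.monoB u' hu' v' hv').symm
  · intro u hu v hv
    obtain ⟨u', hu', rfl⟩ := Finset.mem_image.1 hu
    obtain ⟨v', hv', rfl⟩ := Finset.mem_image.1 hv
    exact (h.monoA u' hu' v' hv').symm
  · intro u hu
    obtain ⟨u', hu', rfl⟩ := Finset.mem_image.1 hu
    exact h.ltB u' hu'
  · intro u hu
    obtain ⟨u', hu', rfl⟩ := Finset.mem_image.1 hu
    exact h.ltA u' hu'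

theorem Inv.forth {e f : ℕ ≃ ℚ} {n m : ℕ} {A B : Finset (ℕ × ℕ)} (h : Inv e f n m A B) :
    ∃ A', A ⊆ A' ∧ Inv e f (n + 1) m A' B ∧ ∃ q, (n, q) ∈ A' ∪ B := by
  by_cases hn : ∃ u ∈ A ∪ B, u.1 = n
  · obtain ⟨u, hu, rfl⟩ := hn
    exact ⟨A, subset_rfl, ⟨h.compat, h.monoA, h.monoB, fun v hv => (h.ltA v hv).trans (Nat.lt_succ_self _),
      h.ltB⟩, u.2, hu⟩
  · push Not at hn
    obtain ⟨q, hq, hq'⟩ := extend e f (A ∪ B) h.compat n hn (A.sup Prod.snd)
    have hlt : ∀ u ∈ A, u.2 < q := fun u hu => (Finset.le_sup (f := Prod.snd) hu).trans_lt hq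
    refine ⟨insert (n, q) A, Finset.subset_insert _ _, ⟨?_, ?_, h.monoB, ?_, h.ltB⟩, q, by simp⟩
    · intro u hu v hv
      rw [Finset.insert_union, Finset.mem_insert] at hu hv
      rcases hu with rfl | hu <;> rcases hv with rfl | hv
      · simp
      · exact (hq' v hv).2
      · exact (hq' u hu).1
      · exact h.compat u hu v hv
    · intro u hu v hv
      rw [Finset.mem_insert] at hu hv
      rcases hu with rfl | hu <;> rcases hv with rfl | hv
      · simp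
      · exact iff_of_false (not_lt.2 (h.ltA v hv).le) (not_lt.2 (hlt v hv).le)
      · exact iff_of_true (h.ltA u hu) (hlt u hu)
      · exact h.monoA u hu v hv
    · intro u hu
      rcases Finset.mem_insert.1 hu with rfl | hu
      · exact Nat.lt_succ_self _
      · exact (h.ltA u hu).trans (Nat.lt_succ_self _)

theorem Inv.step {e f : ℕ ≃ ℚ} {n : ℕ} {A B : Finset (ℕ × ℕ)} (h : Inv e f n n A B) :
    ∃ A' B', A ⊆ A' ∧ B ⊆ B' ∧ Inv e f (n + 1) (n + 1) A' B' ∧ (∃ q, (n, q) ∈ A' ∪ B') ∧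
      ∃ p, (p, n) ∈ A' ∪ B' := by
  obtain ⟨A', hA, h1, q, hq⟩ := h.forth
  obtain ⟨C, hC, h2, p, hp⟩ := h1.swap.forth
  have h3 := h2.swap
  have e1 : (A'.image Prod.swap).image Prod.swap = A' := by
    rw [Finset.image_image]; simp
  rw [e1] at h3
  have hB : B ⊆ C.image Prod.swap := fun u hu =>
    Finset.mem_image.2 ⟨u.swap, hC (Finset.mem_image_of_mem _ hu), rfl⟩
  refine ⟨A', C.image Prod.swap, hA, hB, h3, ⟨q, Finset.union_subset_union subset_rfl hB hq⟩, p, ?_⟩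
  rcases Finset.mem_union.1 hp with hp | hp
  · exact Finset.mem_union_right _ (Finset.mem_image.2 ⟨_, hp, rfl⟩)
  · obtain ⟨u, hu, e⟩ := Finset.mem_image.1 hp
    have : u = (p, n) := by rw [← Prod.swap_swap u, e]; rfl
    exact Finset.mem_union_left _ (this ▸ hu)

theorem exists_iso (e f : ℕ ≃ ℚ) : ∃ g ∈ St, ∀ x y, f (g x) < f (g y) ↔ e x < e y := by
  classical
  have hstep : ∀ (n : ℕ) (s : {s : Finset (ℕ × ℕ) × Finset (ℕ × ℕ) // Inv e f n n s.1 s.2}),
      ∃ t : {s : Finset (ℕ × ℕ) × Finset (ℕ × ℕ) // Inv e f (n + 1) (n + 1) s.1 s.2},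
        s.1.1 ⊆ t.1.1 ∧ s.1.2 ⊆ t.1.2 ∧ (∃ q, (n, q) ∈ t.1.1 ∪ t.1.2) ∧
          ∃ p, (p, n) ∈ t.1.1 ∪ t.1.2 := by
    intro n s
    obtain ⟨A', B', h1, h2, h3, h4, h5⟩ := s.2.step
    exact ⟨⟨(A', B'), h3⟩, h1, h2, h4, h5⟩
  choose nx h1 h2 h3 h4 using hstep
  let S : ∀ n : ℕ, {s : Finset (ℕ × ℕ) × Finset (ℕ × ℕ) // Inv e f n n s.1 s.2} := fun n =>
    Nat.rec ⟨(∅, ∅), by constructor <;> simp⟩ nx n
  have mA : Monotone fun n => (S n).1.1 := monotone_nat_of_le_succ fun n => h1 n (S n)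
  have mB : Monotone fun n => (S n).1.2 := monotone_nat_of_le_succ fun n => h2 n (S n)
  let R : ℕ × ℕ → Prop := fun u => ∃ n, u ∈ (S n).1.1 ∪ (S n).1.2
  have hR : ∀ u v, R u → R v → (e u.1 < e v.1 ↔ f u.2 < f v.2) := by
    rintro u v ⟨n, hn⟩ ⟨m, hm⟩
    exact (S (max n m)).2.compat u
      (Finset.union_subset_union (mA (le_max_left _ _)) (mB (le_max_left _ _)) hn) v
      (Finset.union_subset_union (mA (le_max_right _ _)) (mB (le_max_right _ _)) hm)
  have hR' : ∀ u v, R u → R v → (u.1 = v.1 ↔ u.2 = v.2) := by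
    intro u v hu hv
    rw [← e.injective.eq_iff, ← f.injective.eq_iff, le_antisymm_iff, le_antisymm_iff, ← not_lt,
      ← not_lt, ← not_lt, ← not_lt, hR u v hu hv, hR v u hv hu]
  choose g hg using fun n => h3 n (S n)
  choose g' hg' using fun n => h4 n (S n)
  have rg : ∀ n, R (n, g n) := fun n => ⟨n + 1, hg n⟩
  have rg' : ∀ n, R (g' n, n) := fun n => ⟨n + 1, hg' n⟩
  let G : Equiv.Perm ℕ := ⟨g, g', fun x => (hR' _ _ (rg' (g x)) (rg x)).2 rfl,
    fun y => (hR' _ _ (rg (g' y)) (rg' y)).1 rfl⟩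
  refine ⟨G, ⟨Prop, inferInstance, fun x => (x, g x) ∈ (S (x + 1)).1.1, fun x y ec hxy => ?_⟩,
    fun x y => (hR _ _ (rg x) (rg y)).symm⟩
  change g x < g y
  by_cases hx : (x, g x) ∈ (S (x + 1)).1.1
  · have hy : (y, g y) ∈ (S (y + 1)).1.1 := by
      have : ((x, g x) ∈ (S (x + 1)).1.1) = ((y, g y) ∈ (S (y + 1)).1.1) := ec
      exact this ▸ hx
    exact ((S (y + 1)).2.monoA (x, g x) (mA (show x + 1 ≤ y + 1 by omega) hx) _ hy).1 hxy
  · have hy : (y, g y) ∉ (S (y + 1)).1.1 := by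
      have : ((x, g x) ∈ (S (x + 1)).1.1) = ((y, g y) ∈ (S (y + 1)).1.1) := ec
      exact this ▸ hx
    have bx := (Finset.mem_union.1 (hg x)).resolve_left hx
    have by' := (Finset.mem_union.1 (hg y)).resolve_left hy
    exact ((S (y + 1)).2.monoB (x, g x) (mB (show x + 1 ≤ y + 1 by omega) bx) _ by').1 hxy

end Pool.Agent.H71.Stol
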