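import Mathlib
import Pool.Agent.H71.Lie3

/-! Every element of a compact group normalises a maximal abelian subalgebra. -/

namespace Pool.Agent.H71.Lie

open Filter Topology NormedSpace

variable {K : Type} [Group K] [TopologicalSpace K]

lemma Rep.Ad_comm (R : Rep K) (k : K) {X Y : R.A} (h : Commute X Y) :
    Commute (R.Ad k X) (R.Ad k Y) := by
  have e : ∀ X Y : R.A, R.Ad k X * R.Ad k Y = R.Ad k (X * Y) := fun X Y => by
    simp only [Rep.Ad_apply, mul_assoc]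
    rw [← mul_assoc (R.ρ k⁻¹), R.inv_mul, one_mul]
  rw [Commute, SemiconjBy, e, e, h.eq]

lemma Rep.Ad_inv' (R : Rep K) (k : K) (X : R.A) : R.Ad k⁻¹ (R.Ad k X) = X := by
  rw [← R.Ad_mul, inv_mul_cancel, R.Ad_one]

lemma Rep.Ad_of_exp (R : Rep K) {k : K} {Z : R.A} (h : R.ρ k = exp Z) (X : R.A) :
    R.Ad k X = exp Z * X * exp (-Z) := by rw [R.Ad_apply, R.exp_neg h, h]

lemma Rep.Ad_congr (R : Rep K) {k l : K} (h : R.ρ k = R.ρ l) (X : R.A) : R.Ad k X = R.Ad l X := by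
  have : R.ρ k⁻¹ = R.ρ l⁻¹ := by
    rw [← mul_one (R.ρ k⁻¹), ← R.mul_inv l, ← mul_assoc, ← h, R.inv_mul, one_mul]
  rw [R.Ad_apply, R.Ad_apply, h, this]

lemma ad_deriv {A : Type} [NormedRing A] [NormedAlgebra ℝ A] [CompleteSpace A] (Z X : A) :
    HasDerivAt (fun t : ℝ => exp (t • Z) * X * exp (-(t • Z))) (Z * X - X * Z) 0 := by
  have h := (((hasDeriv_exp0 Z).hasDerivAt.mul_const X).fun_mul (hasDeriv_exp0 (-Z)).hasDerivAt)
  simp only [smul_neg] at h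
  refine h.congr_deriv ?_
  simp [sub_eq_add_neg]

lemma exp_conj_of_comm {A : Type} [NormedRing A] [NormedAlgebra ℝ A] [CompleteSpace A] {Z X : A}
    (h : Commute Z X) : exp Z * X * exp (-Z) = X := by
  rw [(h.exp_left).eq, mul_assoc, exp_mul_neg, mul_one]

lemma bil_deriv {A : Type} [NormedRing A] [NormedAlgebra ℝ A] [FiniteDimensional ℝ A]
    (B : A →ₗ[ℝ] A →ₗ[ℝ] ℝ) {f g : ℝ → A} {f' g' : A} (hf : HasDerivAt f f' 0)
    (hg : HasDerivAt g g' 0) : HasDerivAt (fun t => B (f t) (g t)) (B f' (g 0) + B (f 0) g') 0 := by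
  let B' : A →L[ℝ] A →L[ℝ] ℝ := LinearMap.toContinuousLinearMap
    ((LinearMap.toContinuousLinearMap : (A →ₗ[ℝ] ℝ) ≃ₗ[ℝ] _).toLinearMap ∘ₗ B)
  have := B'.hasDerivAt_of_bilinear (fun _ => hf) (fun _ => hg)
  rw [add_comm]
  exact this

lemma Rep.Form.skew {R : Rep K} {B : R.A →ₗ[ℝ] R.A →ₗ[ℝ] ℝ} (h : R.Form B) {Z : R.A}
    (hZ : ∀ t : ℝ, ∃ k, R.ρ k = exp (t • Z)) (U V : R.A) :
    B (Z * U - U * Z) V = - B U (Z * V - V * Z) := by
  have h1 := bil_deriv B (ad_deriv Z U) (ad_deriv Z V)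
  have h2 : (fun t : ℝ => B (exp (t • Z) * U * exp (-(t • Z))) (exp (t • Z) * V * exp (-(t • Z)))) =
      fun _ => B U V := funext fun t => by
    obtain ⟨k, hk⟩ := hZ t
    rw [← R.Ad_of_exp hk, ← R.Ad_of_exp hk, h.inv]
  rw [h2] at h1
  have := h1.unique (hasDerivAt_const _ _)
  simp only [zero_smul, neg_zero, exp_zero, one_mul, mul_one] at this
  linarith

variable [IsTopologicalGroup K] [CompactSpace K]

lemma Rep.lie_top (R : Rep K) {H : Subgroup K} (hH : IsClosed (H : Set K)) {Z : R.A}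
    (hZ : Z ∈ (R.cg hH).lie) (t : ℝ) : ∃ k, R.ρ k = exp (t • Z) := by
  obtain ⟨k, -, hk⟩ := hZ t; exact ⟨k, hk⟩

lemma Rep.Ad_mem' (R : Rep K) {H : Subgroup K} (hH : IsClosed (H : Set K)) {k : K} (hk : k ∈ H)
    {X : R.A} (hX : X ∈ (R.cg hH).lie) : R.Ad k X ∈ (R.cg hH).lie :=
  R.Ad_mem hH (fun _ hh => H.mul_mem (H.mul_mem hk hh) (H.inv_mem hk)) hX

lemma Rep.bracket_mem (R : Rep K) {H : Subgroup K} (hH : IsClosed (H : Set K)) {Z X : R.A}
    (hZ : Z ∈ (R.cg hH).lie) (hX : X ∈ (R.cg hH).lie) : Z * X - X * Z ∈ (R.cg hH).lie := by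
  have hm : ∀ t : ℝ, exp (t • Z) * X * exp (-(t • Z)) ∈ (R.cg hH).lie := fun t => by
    obtain ⟨k, hk, he⟩ := hZ t
    rw [← R.Ad_of_exp he]; exact R.Ad_mem' hH hk hX
  refine (Submodule.closed_of_finiteDimensional _).mem_of_tendsto
    (hasDerivAt_iff_tendsto_slope.1 (ad_deriv Z X)) (Eventually.of_forall fun t => ?_)
  rw [slope_def_module]
  exact Submodule.smul_mem _ _ (Submodule.sub_mem _ (hm _) (hm _))

/-- Hunt's argument. -/
lemma Rep.hunt (R : Rep K) {H : Subgroup K} (hH : IsClosed (H : Set K)) {O : Set K}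
    (hc : IsClosed O) (hne : O.Nonempty) (hOH : O ⊆ H)
    (ho : ∀ k ∈ O, ∀ Z ∈ (R.cg hH).lie, ∀ᶠ t : ℝ in 𝓝 0, ∃ k' ∈ O, R.ρ k' = exp (t • Z) * R.ρ k)
    {X Y : R.A} (hX : X ∈ (R.cg hH).lie) (hY : Y ∈ (R.cg hH).lie) :
    ∃ k ∈ O, Commute (R.Ad k X) Y := by
  obtain ⟨B, hB⟩ := R.exists_form
  have c : Continuous fun k : K => B.flip Y (R.Ad k X) :=
    (B.flip Y).continuous_of_finiteDimensional.comp
      ((R.cont.mul continuous_const).mul (R.cont.comp continuous_inv))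
  obtain ⟨k, hk, hmax⟩ := hc.isCompact.exists_isMaxOn hne c.continuousOn
  refine ⟨k, hk, ?_⟩
  set U := R.Ad k X with hU
  have hUm : U ∈ (R.cg hH).lie := R.Ad_mem' hH (hOH hk) hX
  have hZ := R.bracket_mem hH hUm hY
  set Z := U * Y - Y * U with hZd
  have d := bil_deriv B (ad_deriv Z U) (hasDerivAt_const (0 : ℝ) Y)
  have lm : IsLocalMax (fun t : ℝ => B (exp (t • Z) * U * exp (-(t • Z))) Y) 0 := by
    filter_upwards [ho k hk Z hZ] with t ⟨k', hk', he⟩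
    obtain ⟨l, hl⟩ := R.lie_top hH hZ t
    have h1 : R.ρ k' = R.ρ (l * k) := by rw [he, map_mul, hl]
    have h2 : B (R.Ad k' X) Y ≤ B U Y := hmax hk'
    rw [R.Ad_congr h1, R.Ad_mul, R.Ad_of_exp hl] at h2
    simpa using h2
  have h0 := lm.hasDerivAt_eq_zero d
  have h3 := hB.skew (R.lie_top hH hUm) Z Y
  simp only [map_zero, add_zero] at h0
  have h4 : B (U * Z - Z * U) Y = 0 := by
    rw [← neg_sub, map_neg, LinearMap.neg_apply, h0, neg_zero]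
  rw [h4] at h3
  exact sub_eq_zero.1 (hB.aniso Z (by linarith))

lemma Rep.hunt' (R : Rep K) {H : Subgroup K} (hH : IsClosed (H : Set K))
    {X Y : R.A} (hX : X ∈ (R.cg hH).lie) (hY : Y ∈ (R.cg hH).lie) :
    ∃ k ∈ H, Commute (R.Ad k X) Y :=
  R.hunt hH hH ⟨1, H.one_mem⟩ le_rfl (fun k hk Z hZ => Eventually.of_forall fun t => by
    obtain ⟨l, hl, he⟩ := hZ t
    exact ⟨l * k, H.mul_mem hl hk, by rw [map_mul, he]⟩) hX hY

/-- centraliser in a subspace -/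
def cent {A : Type} [Ring A] [Algebra ℝ A] (L : Submodule ℝ A) (X : A) : Submodule ℝ A where
  carrier := {Z | Z ∈ L ∧ Commute X Z}
  zero_mem' := ⟨L.zero_mem, Commute.zero_right _⟩
  add_mem' := fun h1 h2 => ⟨L.add_mem h1.1 h2.1, h1.2.add_right h2.2⟩
  smul_mem' := fun c _ h => ⟨L.smul_mem c h.1, h.2.smul_right c⟩

lemma Rep.generic (R : Rep K) {H : Subgroup K} (hH : IsClosed (H : Set K)) {P : Submodule ℝ R.A}
    (hP : P ≤ (R.cg hH).lie) :
    ∃ X ∈ P, ∀ Y ∈ P, Commute X Y → ∀ Z ∈ (R.cg hH).lie, Commute X Z → Commute Y Z := by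
  obtain ⟨B, hB⟩ := R.exists_form
  set L := (R.cg hH).lie with hL
  obtain ⟨⟨X, hX⟩, hmin⟩ := exists_minimalFor_of_wellFoundedLT (fun _ : P => True)
    (fun X : P => Module.finrank ℝ (cent L (X : R.A))) ⟨0, trivial⟩
  refine ⟨X, hX, fun Y hY hXY => ?_⟩
  have key : ∃ n : ℕ, ∀ v, Commute (X + ((n : ℝ) + 1) • Y) v → Commute X v := by
    by_contra hcon
    push Not at hcon
    choose v hv1 hv2 using hcon
    have e : ∀ n : ℕ, X * v n - v n * X = -((n : ℝ) + 1) • (Y * v n - v n * Y) := fun n => by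
      have := (hv1 n).eq
      rw [add_mul, mul_add, smul_mul_assoc, mul_smul_comm] at this
      rw [neg_smul, smul_sub, eq_neg_iff_add_eq_zero]
      rw [← sub_eq_zero] at this
      rw [← this]; abel
    have li := LinearMap.linearIndependent_of_isOrthoᵢ (B := B)
      (v := fun n => Y * v n - v n * Y) (fun i j hij => ?_) (fun i hi => hv2 i ?_)
    · have := li.finite_of_isNoetherian
      exact not_finite ℕ
    · have s1 := hB.skew (R.lie_top hH (hP hX)) (v i) (Y * v j - v j * Y)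
      have s2 := hB.skew (R.lie_top hH (hP hY)) (v i) (X * v j - v j * X)
      have s3 : X * (Y * v j - v j * Y) - (Y * v j - v j * Y) * X =
          Y * (X * v j - v j * X) - (X * v j - v j * X) * Y := by
        have := hXY.eq
        simp only [mul_sub, sub_mul, ← mul_assoc, this]
        simp only [mul_assoc, this]
        abel
      rw [s3, ← s2, e i, e j, map_smul, map_smul, LinearMap.smul_apply, smul_eq_mul,
        smul_eq_mul] at s1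
      have hne : (i : ℝ) ≠ j := by exact_mod_cast hij
      have : ((j : ℝ) - i) * B (Y * v i - v i * Y) (Y * v j - v j * Y) = 0 := by linarith
      exact (mul_eq_zero.1 this).resolve_left (sub_ne_zero.2 hne.symm)
    · have := e i
      rw [hB.aniso _ hi, smul_zero] at this
      exact sub_eq_zero.1 this
  obtain ⟨n, hn⟩ := key
  have hle : cent L (X + ((n : ℝ) + 1) • Y) ≤ cent L X := fun v hv => ⟨hv.1, hn v hv.2⟩
  have heq := Submodule.eq_of_le_of_finrank_le hle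
    (hmin.le (j := ⟨X + ((n : ℝ) + 1) • Y, P.add_mem hX (P.smul_mem _ hY)⟩) trivial)
  intro Z hZ hXZ
  have h1 : Z ∈ cent L (X + ((n : ℝ) + 1) • Y) := by rw [heq]; exact ⟨hZ, hXZ⟩
  have h2 := h1.2.sub_left hXZ
  rw [add_sub_cancel_left] at h2
  have := h2.smul_left ((n : ℝ) + 1)⁻¹
  rwa [smul_smul, inv_mul_cancel₀ (by positivity), one_smul] at this

/-- regular elements -/
def Reg {A : Type} [Ring A] [Algebra ℝ A] (L : Submodule ℝ A) (X : A) : Prop :=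
  X ∈ L ∧ ∀ Y ∈ L, ∀ Z ∈ L, Commute X Y → Commute X Z → Commute Y Z

lemma Rep.exists_reg (R : Rep K) {H : Subgroup K} (hH : IsClosed (H : Set K)) :
    ∃ X, Reg (R.cg hH).lie X := by
  obtain ⟨X, hX, h⟩ := R.generic hH le_rfl
  exact ⟨X, hX, fun Y hY Z hZ h1 h2 => h Y hY h1 Z hZ h2⟩

lemma Rep.reg_Ad (R : Rep K) {H : Subgroup K} (hH : IsClosed (H : Set K)) {k : K} (hk : k ∈ H)
    {X : R.A} (hX : Reg (R.cg hH).lie X) : Reg (R.cg hH).lie (R.Ad k X) := by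
  refine ⟨R.Ad_mem' hH hk hX.1, fun Y hY Z hZ h1 h2 => ?_⟩
  have a1 := R.Ad_comm k⁻¹ h1
  have a2 := R.Ad_comm k⁻¹ h2
  rw [R.Ad_inv'] at a1 a2
  have := R.Ad_comm k (hX.2 _ (R.Ad_mem' hH (H.inv_mem hk) hY) _ (R.Ad_mem' hH (H.inv_mem hk) hZ) a1 a2)
  rwa [R.Ad_inv, R.Ad_inv] at this

variable [T2Space K]

lemma Rep.stab_of_central (R : Rep K) {H : Subgroup K} (hH : IsClosed (H : Set K)) {g : K}
    (hg : g ∈ H) (hc : ∀ W ∈ (R.cg hH).lie, R.Ad g W = W → ∀ Z ∈ (R.cg hH).lie, Commute W Z) :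
    ∃ X, Reg (R.cg hH).lie X ∧ Commute (R.Ad g X) X := by
  obtain ⟨B, hB⟩ := R.exists_form
  obtain ⟨X, hX⟩ := R.exists_reg hH
  set L := (R.cg hH).lie with hL
  let O : Set K := {k | k ∈ H ∧ ∃ h ∈ H, ∀ Z ∈ L, R.Ad k Z = R.Ad (h * g * h⁻¹) Z}
  have cAd : ∀ Z, Continuous fun k => R.Ad k Z := fun Z =>
    (R.cont.mul continuous_const).mul (R.cont.comp continuous_inv)
  have hO : IsClosed O := by
    have : O = Prod.fst '' ({p : K × K | p.1 ∈ H} ∩ {p | p.2 ∈ H} ∩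
        ⋂ Z ∈ L, {p | R.Ad p.1 Z = R.Ad (p.2 * g * p.2⁻¹) Z}) := by
      ext k
      simp only [O, Set.mem_ofPred_eq, Set.mem_image, Set.mem_inter_iff, Set.mem_iInter, Prod.exists,
        exists_and_right, exists_eq_right]
      exact ⟨fun ⟨a, h, b, c⟩ => ⟨h, ⟨a, b⟩, c⟩, fun ⟨h, ⟨a, b⟩, c⟩ => ⟨a, h, b, c⟩⟩
    rw [this]
    refine (IsClosed.isCompact ?_).image continuous_fst |>.isClosed
    exact ((hH.preimage continuous_fst).inter (hH.preimage continuous_snd)).inter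
      (isClosed_biInter fun Z _ => isClosed_eq ((cAd Z).comp continuous_fst)
        ((cAd Z).comp (by fun_prop)))
  suffices ho : ∀ k ∈ O, ∀ Z ∈ L, ∀ᶠ t : ℝ in 𝓝 0, ∃ k' ∈ O, R.ρ k' = exp (t • Z) * R.ρ k by
    obtain ⟨k, ⟨-, h, hh, hk⟩, hcm⟩ := R.hunt hH hO ⟨g, hg, 1, H.one_mem, by simp⟩
      (fun k hk => hk.1) ho hX.1 hX.1
    refine ⟨R.Ad h⁻¹ X, R.reg_Ad hH (H.inv_mem hh) hX, ?_⟩
    have := R.Ad_comm h⁻¹ hcm
    rwa [hk X hX.1, R.Ad_mul, R.Ad_mul, R.Ad_inv'] at this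
  rintro k ⟨hk, h, hh, hkh⟩ Z hZ
  let C : Submodule ℝ R.A :=
    { carrier := {W | W ∈ L ∧ ∀ Z ∈ L, Commute W Z}
      zero_mem' := ⟨L.zero_mem, fun _ _ => Commute.zero_left _⟩
      add_mem' := fun h1 h2 => ⟨L.add_mem h1.1 h2.1, fun Z hZ => (h1.2 Z hZ).add_left (h2.2 Z hZ)⟩
      smul_mem' := fun c _ h => ⟨L.smul_mem c h.1, fun Z hZ => (h.2 Z hZ).smul_left c⟩ }
  have : CompleteSpace L := FiniteDimensional.complete ℝ _
  have : CompleteSpace C := FiniteDimensional.complete ℝ _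
  let a : C × L →L[ℝ] R.A := C.subtypeL ∘L ContinuousLinearMap.fst ℝ C L
  let b : C × L →L[ℝ] R.A := L.subtypeL ∘L ContinuousLinearMap.snd ℝ C L
  let c : C × L →L[ℝ] R.A := -(LinearMap.toContinuousLinearMap (R.Ad k) ∘L b)
  have de : ∀ f : C × L →L[ℝ] R.A, HasStrictFDerivAt (fun p => exp (f p)) f 0 := fun f => by
    have := HasStrictFDerivAt.comp (g := (exp : R.A → R.A)) (g' := 1) (f := f) (0 : C × L)
      (by rw [map_zero]; exact hasStrictFDerivAt_exp_zero (𝕂 := ℝ)) f.hasStrictFDerivAt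
    exact this
  have d : HasStrictFDerivAt (fun p => exp (a p) * (exp (b p) * exp (c p))) (a + (b + c)) 0 := by
    refine ((de a).mul' ((de b).mul' (de c))).congr_fderiv ?_
    ext <;> simp <;> abel
  have val : ∀ p, ∃ w ∈ H, ∃ y ∈ H, R.ρ w = exp (a p) ∧
      R.ρ (w * (y * k * y⁻¹) * k⁻¹) = exp (a p) * (exp (b p) * exp (c p)) := fun p => by
    obtain ⟨w, hw, ew⟩ := (R.cg hH).exp_mem p.1.2.1
    obtain ⟨y, hy, ey⟩ := (R.cg hH).exp_mem p.2.2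
    refine ⟨w, hw, y, hy, ew, ?_⟩
    have e1 : c p = R.Ad k (-(p.2 : R.A)) := by simp [c, b]
    rw [e1, R.exp_Ad, ← R.exp_neg ey, R.Ad_rho]
    change _ = exp (p.1 : R.A) * (exp (p.2 : R.A) * _)
    rw [← ew, ← ey, ← map_mul, ← map_mul]
    simp [mul_assoc]
  have om := (R.cg hH).openMap d (by simp) (fun p => by
    obtain ⟨w, hw, y, hy, -, e⟩ := val p
    exact ⟨_, H.mul_mem (H.mul_mem hw (H.mul_mem (H.mul_mem hy hk) (H.inv_mem hy))) (H.inv_mem hk),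
      e⟩) (fun Z hZ => ?_) univ_mem
  · have t : Tendsto (fun t : ℝ => exp (t • Z)) (𝓝 0) (𝓝 1) :=
      Continuous.tendsto' (exp_cont.comp (by fun_prop)) _ _ (by simp)
    filter_upwards [t.eventually om] with t ht
    obtain ⟨p, -, hp⟩ := ht (hZ t)
    obtain ⟨w, hw, y, hy, ew, e⟩ := val p
    refine ⟨w * (y * k * y⁻¹), ⟨H.mul_mem hw (H.mul_mem (H.mul_mem hy hk) (H.inv_mem hy)),
      y * h, H.mul_mem hy hh, fun V hV => ?_⟩, ?_⟩
    · rw [R.Ad_mul, R.Ad_of_exp ew, exp_conj_of_comm (Z := a p) (p.1.2.2 _ (R.Ad_mem' hH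
        (H.mul_mem (H.mul_mem hy hk) (H.inv_mem hy)) hV)), R.Ad_mul, R.Ad_mul,
        hkh _ (R.Ad_mem' hH (H.inv_mem hy) hV), ← R.Ad_mul, ← R.Ad_mul]
      simp [mul_assoc]
    · rw [← hp]
      beta_reduce
      rw [← e, ← map_mul, inv_mul_cancel_right]
  · obtain ⟨W, ⟨Y, hY⟩, hW'⟩ := hB.decomp (LinearMap.range ((b + c : C × L →L[ℝ] R.A) : C × L →ₗ[ℝ] R.A)) Z
    have eW : W = (Y.2 : R.A) - R.Ad k Y.2 := by rw [← hY]; simp [b, c, sub_eq_add_neg]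
    have hZ' : Z - W ∈ L := L.sub_mem hZ (eW ▸ L.sub_mem Y.2.2 (R.Ad_mem' hH hk Y.2.2))
    set Z' := Z - W with hZd
    have hV : Z' - R.Ad k⁻¹ Z' ∈ L := L.sub_mem hZ' (R.Ad_mem' hH (H.inv_mem hk) hZ')
    have m1 := hW' _ ⟨(0, ⟨_, hV⟩), rfl⟩
    have m2 : ((b + c : C × L →L[ℝ] R.A) : C × L →ₗ[ℝ] R.A) (0, ⟨_, hV⟩) =
        (Z' - R.Ad k⁻¹ Z') - R.Ad k (Z' - R.Ad k⁻¹ Z') := by simp [b, c, sub_eq_add_neg]
    rw [m2, LinearMap.map_sub₂, hB.symm (R.Ad k _), hB.adj, hB.symm (R.Ad k⁻¹ Z'),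
      ← LinearMap.map_sub] at m1
    have fx : R.Ad k Z' = Z' := by
      conv_lhs => rw [sub_eq_zero.1 (hB.aniso _ m1), R.Ad_inv]
    have f2 : R.Ad g (R.Ad h⁻¹ Z') = R.Ad h⁻¹ Z' := by
      conv_rhs => rw [← fx, hkh _ hZ', R.Ad_mul, R.Ad_mul, R.Ad_inv']
    have hC : Z' ∈ C := ⟨hZ', fun V hV => by
      have := R.Ad_comm h (hc _ (R.Ad_mem' hH (H.inv_mem hh) hZ') f2 _
        (R.Ad_mem' hH (H.inv_mem hh) hV))
      rwa [R.Ad_inv, R.Ad_inv] at this⟩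
    refine ⟨(⟨Z', hC⟩, Y.2), ?_⟩
    have : Z = Z' + W := by rw [hZd]; abel
    rw [this, eW]
    simp [a, b, c, sub_eq_add_neg]

theorem Rep.exists_stab (R : Rep K) (g : K) (n : ℕ) : ∀ (H : Subgroup K) (hH : IsClosed (H : Set K)),
    g ∈ H → Module.finrank ℝ (R.cg hH).lie = n →
      ∃ X, Reg (R.cg hH).lie X ∧ Commute (R.Ad g X) X := by
  induction n using Nat.strong_induction_on with
  | _ n ih =>
  intro H hH hg hn
  by_cases hc : ∀ W ∈ (R.cg hH).lie, R.Ad g W = W → ∀ Z ∈ (R.cg hH).lie, Commute W Z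
  · exact R.stab_of_central hH hg hc
  push Not at hc
  obtain ⟨W, hW, hgW, Z, hZ, hWZ⟩ := hc
  let H' : Subgroup K :=
    { carrier := {k | k ∈ H ∧ R.Ad k W = W}
      one_mem' := ⟨H.one_mem, R.Ad_one _⟩
      mul_mem' := fun {a b} ha hb => ⟨H.mul_mem ha.1 hb.1, by rw [R.Ad_mul, hb.2, ha.2]⟩
      inv_mem' := fun {a} ha => ⟨H.inv_mem ha.1, by conv_lhs => rw [← ha.2, R.Ad_inv']⟩ }
  have hH' : IsClosed (H' : Set K) := hH.inter (isClosed_eq
    ((R.cont.mul continuous_const).mul (R.cont.comp continuous_inv)) continuous_const)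
  have e : (R.cg hH').lie = cent (R.cg hH).lie W := by
    ext V
    constructor
    · intro hV
      refine ⟨fun t => ?_, commute_of_exp fun t => ?_⟩
      · obtain ⟨k, hk, he⟩ := hV t; exact ⟨k, hk.1, he⟩
      · obtain ⟨k, hk, he⟩ := hV t
        conv_lhs => rw [← hk.2, R.Ad_apply, ← he, mul_assoc, R.inv_mul, mul_one]
        rw [he]
    · intro hV t
      obtain ⟨k, hk, he⟩ := hV.1 t
      exact ⟨k, ⟨hk, by rw [R.Ad_of_exp he, exp_conj_of_comm (hV.2.symm.smul_left t)]⟩, he⟩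
  have lt : (R.cg hH').lie < (R.cg hH).lie := by
    rw [e]
    exact lt_of_le_of_ne (fun V hV => hV.1) fun h => hWZ (show Z ∈ cent _ W from h ▸ hZ).2
  obtain ⟨X', r, hX'⟩ := ih _ (hn ▸ Submodule.finrank_lt_finrank_of_lt lt) H' hH' ⟨hg, hgW⟩ rfl
  have r2 := R.reg_Ad hH' (k := g) ⟨hg, hgW⟩ r
  obtain ⟨X, hX, gen⟩ := R.generic hH (P := cent (R.cg hH').lie X') fun V hV => lt.le hV.1
  have hWm : W ∈ cent (R.cg hH').lie X' := ⟨e ▸ ⟨hW, Commute.refl _⟩, (e ▸ r.1 :).2.symm⟩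
  have hX'm : X' ∈ cent (R.cg hH').lie X' := ⟨r.1, Commute.refl _⟩
  have inP : ∀ V ∈ (R.cg hH).lie, Commute X V → V ∈ cent (R.cg hH').lie X' := fun V hV h =>
    ⟨e ▸ ⟨hV, gen W hWm (r.2 _ hX.1 _ hWm.1 hX.2 hWm.2) V hV h⟩, gen X' hX'm hX.2.symm V hV h⟩
  refine ⟨X, ⟨lt.le hX.1, fun Y hY V hV h1 h2 =>
    r.2 _ (inP Y hY h1).1 _ (inP V hV h2).1 (inP Y hY h1).2 (inP V hV h2).2⟩, ?_⟩
  have m := R.Ad_mem' hH' (k := g) ⟨hg, hgW⟩ hX.1
  exact r.2 _ m _ hX.1 (r2.2 _ r.1 _ m hX' (R.Ad_comm g hX.2)) hX.2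

theorem Rep.comm_of_tig (R : Rep K) (h : ∀ f : K → K,
    (Subgroup.closure (Set.range (fun x : K => f x * x * (f x)⁻¹))).topologicalClosure = ⊤)
    (cT : IsClosed ((⊤ : Subgroup K) : Set K)) :
    ∀ Y ∈ (R.cg cT).lie, ∀ Z ∈ (R.cg cT).lie, Commute Y Z := by
  obtain ⟨X₀, r⟩ := R.exists_reg cT
  have rA : ∀ k {X}, Reg (R.cg cT).lie X → Reg (R.cg cT).lie (R.Ad k X) := fun k _ =>
    R.reg_Ad cT (Subgroup.mem_top k)
  let N : Subgroup K :=
    { carrier := {k | Commute (R.Ad k X₀) X₀}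
      one_mem' := by change Commute _ _; rw [R.Ad_one]
      mul_mem' := fun {a b} ha hb => (rA a r).2 _ (rA _ r).1 _ r.1
        (by rw [R.Ad_mul]; exact (R.Ad_comm a hb).symm) ha
      inv_mem' := fun {a} ha => by
        have := R.Ad_comm a⁻¹ ha
        rw [R.Ad_inv'] at this
        exact this.symm }
  have cA : Continuous fun k => R.Ad k X₀ :=
    (R.cont.mul continuous_const).mul (R.cont.comp continuous_inv)
  have hN : IsClosed (N : Set K) :=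
    isClosed_eq (cA.mul continuous_const) (continuous_const.mul cA)
  have ex : ∀ g, ∃ k, k * g * k⁻¹ ∈ N := fun g => by
    obtain ⟨X, rX, hX⟩ := R.exists_stab g _ ⊤ cT trivial rfl
    obtain ⟨k, -, hk⟩ := R.hunt' cT rX.1 r.1
    refine ⟨k, (rA k rX).2 _ (rA _ r).1 _ r.1 ?_ hk⟩
    refine (rA (k * g * k⁻¹) (rA k rX)).2 _ (rA k rX).1 _ (rA _ r).1 ?_ (R.Ad_comm _ hk)
    rw [R.Ad_mul, R.Ad_mul, R.Ad_inv']
    exact R.Ad_comm k hX
  choose f hf using ex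
  have top : (⊤ : Subgroup K) ≤ N := by
    rw [← h f]
    exact Subgroup.topologicalClosure_minimal _ ((Subgroup.closure_le _).2
      (by rintro _ ⟨x, rfl⟩; exact hf x)) hN
  have all : ∀ Z ∈ (R.cg cT).lie, Commute X₀ Z := fun Z hZ => by
    obtain ⟨k, -, hk⟩ := R.hunt' cT hZ r.1
    have := R.Ad_comm k⁻¹ hk
    rw [R.Ad_inv'] at this
    exact (rA k⁻¹ r).2 _ r.1 _ hZ (top (Subgroup.mem_top k⁻¹)) this.symm
  exact fun Y hY Z hZ => r.2 Y hY Z hZ (all Y hY) (all Z hZ)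

end Pool.Agent.H71.Lie
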