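import Mathlib

/-! The Pruefer module over the 3-adic integers, stabilizer topologies, and tightness. -/

namespace Pool.Agent.H71.TMS

open Filter Topology

abbrev R := ℤ_[3]
noncomputable abbrev Λ : Submodule R ℚ_[3] := LinearMap.range (Algebra.linearMap R ℚ_[3])
abbrev P := ℚ_[3] ⧸ Λ

lemma mk_zero {q : ℚ_[3]} : (Submodule.Quotient.mk q : P) = 0 ↔ ‖q‖ ≤ 1 := by
  rw [Submodule.Quotient.mk_eq_zero]
  exact ⟨fun ⟨r, h⟩ => h ▸ r.2, fun h => ⟨⟨q, h⟩, rfl⟩⟩

lemma smul_mk (r : R) (q : ℚ_[3]) :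
    r • (Submodule.Quotient.mk q : P) = Submodule.Quotient.mk ((r : ℚ_[3]) * q) := rfl

lemma nhds_fix (x : P) (r : R) : ∀ᶠ u in 𝓝 r, u • x = r • x := by
  obtain ⟨q, rfl⟩ := Submodule.Quotient.mk_surjective _ x
  have : ∀ᶠ u : R in 𝓝 r, ‖((u - r : R) : ℚ_[3]) * q‖ < 1 :=
    (isOpen_lt (by fun_prop) continuous_const).mem_nhds (by simp)
  refine this.mono fun u hu => ?_
  rw [← sub_eq_zero, ← sub_smul, smul_mk, mk_zero]
  exact hu.le

lemma nonunit {r : R} (h : ¬ IsUnit r) : ∃ c, r = 3 * c :=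
  (PadicInt.norm_lt_one_iff_dvd r).1 (PadicInt.not_isUnit_iff.1 h)

lemma three : ¬ IsUnit (3 : R) := PadicInt.p_nonunit

lemma tors (x : P) : ∃ n : ℕ, (3 : R) ^ n • x = 0 := by
  have : Tendsto (fun n : ℕ => (3 : R) ^ n) atTop (𝓝 0) :=
    tendsto_pow_atTop_nhds_zero_of_norm_lt_one (PadicInt.not_isUnit_iff.1 three)
  simpa using (this.eventually (nhds_fix x 0)).exists

lemma divis {r : R} (hr : r ≠ 0) (c : P) : ∃ b, r • b = c := by
  obtain ⟨q, rfl⟩ := Submodule.Quotient.mk_surjective _ c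
  refine ⟨Submodule.Quotient.mk (q / r), ?_⟩
  rw [smul_mk, mul_div_cancel₀ _ (PadicInt.coe_ne_zero.2 hr)]

lemma two : IsUnit (2 : R) := by
  have := (IsLocalRing.isUnit_or_isUnit_one_sub_self (3 : R)).resolve_left three
  convert this.neg using 1
  norm_num

lemma diff (r : R) : ∃ u v : Rˣ, r = u - v := by
  by_cases h : IsUnit (r + 1)
  · exact ⟨h.unit, 1, by simp⟩
  · have := (IsLocalRing.isUnit_or_isUnit_of_isUnit_add
      (a := r + 1) (b := 1 - r) (by convert two using 1; ring)).resolve_left h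
    exact ⟨1, this.unit, by simp⟩

lemma res (r : R) : ∃ i : Fin 3, ∃ c, r = (i : ℕ) + 3 * c := by
  obtain ⟨n, hn, h⟩ := PadicInt.exists_mem_range r
  obtain ⟨c, hc⟩ := nonunit h
  exact ⟨⟨n, hn⟩, c, by rw [← hc]; simp⟩

instance : Countable P := by
  refine Function.Surjective.countable (f := fun r : ℚ => (Submodule.Quotient.mk (r : ℚ_[3]) : P))
    fun x => ?_
  obtain ⟨q, rfl⟩ := Submodule.Quotient.mk_surjective _ x
  obtain ⟨r, hr⟩ := Padic.rat_dense 3 q one_pos
  refine ⟨r, Eq.symm ?_⟩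
  rw [← sub_eq_zero, ← Submodule.Quotient.mk_sub, mk_zero]
  exact hr.le

instance : Uncountable R := by
  rw [← not_countable_iff]
  intro h
  obtain ⟨x, y, hx⟩ := nonempty_interior_of_iUnion_of_closed (f := fun x : R => ({x} : Set R))
    (fun _ => isClosed_singleton) (Set.iUnion_of_singleton _)
  have e : y = x := interior_subset (s := {x}) hx
  have : DiscreteTopology R := discreteTopology_of_isOpen_singleton_zero (by
    have := (Homeomorph.addRight x).continuous.isOpen_preimage (interior {x}) isOpen_interior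
    convert this
    ext z
    simp only [Set.mem_singleton_iff, Set.mem_preimage, Homeomorph.coe_addRight]
    exact ⟨fun h => by simpa [h, e] using hx, fun h => by simpa using interior_subset h⟩)
  have : Finite R := finite_of_compact_of_discrete
  exact not_finite R

lemma ex_s : ∃ s : P, s ≠ 0 ∧ (3 : R) • s = 0 := by
  have h3 : ((3 : R) : ℚ_[3]) = 3 := rfl
  refine ⟨Submodule.Quotient.mk 3⁻¹, fun h => ?_, by rw [smul_mk, mk_zero, h3]; simp⟩
  have := Padic.norm_p (p := 3)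
  rw [mk_zero, norm_inv, show (3 : ℚ_[3]) = (3 : ℕ) from rfl, this] at h
  norm_num at h

lemma dep {ι κ : Type} [Fintype ι] [Fintype κ] (hc : Fintype.card κ < Fintype.card ι)
    (x : ι → κ → P) : ∃ r : ι → R, (∃ i, r i = 1) ∧ ∑ i, r i • x i = 0 := by
  choose q hq using fun i j => Submodule.Quotient.mk_surjective _ (x i j)
  have : ¬ LinearIndependent ℚ_[3] q := fun h => by
    have := h.fintype_card_le_finrank
    simp at this; omega
  obtain ⟨g, hg, i, hi⟩ := Fintype.not_linearIndependent_iff.1 this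
  obtain ⟨j, -, hj⟩ := Finset.exists_max_image Finset.univ (fun i => ‖g i‖) ⟨i, by simp⟩
  have h0 : 0 < ‖g j‖ := (norm_pos_iff.2 hi).trans_le (hj i (by simp))
  have : ∀ i, ∃ r : R, (r : ℚ_[3]) = g i / g j := fun i =>
    ⟨⟨g i / g j, by rw [norm_div, div_le_one h0]; exact hj i (by simp)⟩, rfl⟩
  choose r hr using this
  refine ⟨r, ⟨j, Subtype.ext ((hr j).trans (div_self (norm_pos_iff.1 h0)))⟩, funext fun k => ?_⟩
  have := congrFun hg k
  simp only [Finset.sum_apply, Pi.smul_apply, smul_eq_mul, Pi.zero_apply] at this ⊢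
  simp only [← hq, smul_mk, hr]
  simp only [← Submodule.mkQ_apply, ← map_sum, div_mul_eq_mul_div,
    ← Finset.sum_div, this, zero_div, map_zero]

section
variable {M : Type} [AddCommGroup M] [Module R M]

lemma soc_fin {v : M} (h : (3 : R) • v = 0) : (Set.range fun r : R => r • v).Finite := by
  refine (Set.finite_range fun i : Fin 3 => ((i : ℕ) : R) • v).subset ?_
  rintro _ ⟨r, rfl⟩
  obtain ⟨i, c, rfl⟩ := res r
  exact ⟨i, by simp only [add_smul, mul_comm 3 c, mul_smul, h, smul_zero, add_zero]⟩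

lemma nu_smul {v : M} (h : (3 : R) • v = 0) {r : R} (hr : ¬ IsUnit r) : r • v = 0 := by
  obtain ⟨c, rfl⟩ := nonunit hr
  rw [mul_comm, mul_smul, h, smul_zero]

lemma unit_smul {v w : M} {r : R} (hr : IsUnit r) (h : w + r • v = 0) :
    v = (-hr.unit⁻¹ : Rˣ) • w := by
  rw [eq_neg_of_add_eq_zero_left h, smul_neg, Units.neg_smul, neg_neg, Units.smul_def, smul_smul]
  simp

lemma soc (π : (Fin 2 → P) →ₗ[R] M) (hπ : Function.Surjective π) :
    {v : M | (3 : R) • v = 0}.Finite := by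
  by_contra h
  obtain ⟨a, ha, a0⟩ := Set.Infinite.exists_notMem_finite h (Set.finite_singleton 0)
  obtain ⟨b, hb, b0⟩ := Set.Infinite.exists_notMem_finite h (soc_fin ha)
  obtain ⟨c, hc, c0⟩ := Set.Infinite.exists_notMem_finite h ((soc_fin ha).add (soc_fin hb))
  obtain ⟨x, rfl⟩ := hπ a
  obtain ⟨y, rfl⟩ := hπ b
  obtain ⟨z, rfl⟩ := hπ c
  obtain ⟨r, ⟨i, hi⟩, hr⟩ := dep (by simp) ![x, y, z]
  have := congrArg π hr
  simp only [Fin.sum_univ_three, map_add, map_smul, map_zero, Matrix.cons_val] at this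
  by_cases h2 : IsUnit (r 2)
  · exact c0 ⟨_, ⟨_, rfl⟩, _, ⟨_, rfl⟩, by
      rw [unit_smul h2 this, smul_add, Units.smul_def, Units.smul_def, smul_smul, smul_smul]⟩
  rw [nu_smul hc h2, add_zero] at this
  by_cases h1 : IsUnit (r 1)
  · exact b0 ⟨_, by rw [unit_smul h1 this, Units.smul_def, smul_smul]⟩
  rw [nu_smul hb h1, add_zero, ← zero_add (_ • _)] at this
  have h0 : IsUnit (r 0) := by
    fin_cases i
    · exact hi ▸ isUnit_one
    · exact absurd (hi ▸ isUnit_one) h1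
    · exact absurd (hi ▸ isUnit_one) h2
  exact a0 (by rw [unit_smul h0 this]; simp)

end

lemma soc1 {x c : P} (hx : (3 : R) • x = 0) (hc : (3 : R) • c = 0) (h0 : c ≠ 0) :
    x = 0 ∨ x = c ∨ x = -c := by
  obtain ⟨r, ⟨i, hi⟩, hr⟩ := dep (κ := Unit) (by simp) ![fun _ => c, fun _ => x]
  have := congrFun hr ()
  simp only [Fin.sum_univ_two, Matrix.cons_val, Pi.add_apply, Pi.smul_apply, Pi.zero_apply] at this
  by_cases h1 : IsUnit (r 1)
  · have := unit_smul h1 this
    rw [Units.smul_def, smul_smul] at this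
    obtain ⟨i, d, e⟩ := res ((-h1.unit⁻¹ : Rˣ) * r 0)
    rw [e, add_smul, mul_comm 3 d, mul_smul, hc, smul_zero, add_zero] at this
    fin_cases i
    · exact .inl (by simpa using this)
    · exact .inr (.inl (by simpa using this))
    · refine .inr (.inr (eq_neg_of_add_eq_zero_left ?_))
      rw [← hc, this, show (3 : R) = 2 + 1 by norm_num, add_smul]
      simp
  rw [nu_smul hx h1, add_zero, ← zero_add (_ • _)] at this
  have h0' : IsUnit (r 0) := by
    fin_cases i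
    · exact hi ▸ isUnit_one
    · exact absurd (hi ▸ isUnit_one) h1
  exact absurd (by rw [unit_smul h0' this]; simp) h0

/-- pointwise stabilizers -/
def St (G : Type) {Y : Type} [Group G] [MulAction G Y] (S : Finset Y) : Set G :=
  {g | ∀ z ∈ S, g • z = z}

@[reducible] def stB (G Y : Type) [Group G] [MulAction G Y] : GroupFilterBasis G where
  sets := Set.range (St G (Y := Y))
  nonempty := ⟨_, ∅, rfl⟩
  inter_sets := by
    classical
    rintro _ _ ⟨s, rfl⟩ ⟨t, rfl⟩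
    exact ⟨_, ⟨s ∪ t, rfl⟩, fun x hx => ⟨fun f hf => hx f (by simp [hf]),
      fun f hf => hx f (by simp [hf])⟩⟩
  one' := by
    rintro _ ⟨s, rfl⟩
    exact fun z _ => one_smul _ z
  mul' := by
    rintro _ ⟨s, rfl⟩
    refine ⟨_, ⟨s, rfl⟩, ?_⟩
    rintro _ ⟨x, hx, y, hy, rfl⟩ z hz
    rw [mul_smul, hy z hz, hx z hz]
  inv' := by
    rintro _ ⟨s, rfl⟩
    exact ⟨_, ⟨s, rfl⟩, fun x hx z hz => inv_smul_eq_iff.2 (hx z hz).symm⟩
  conj' := by
    classical
    rintro a _ ⟨s, rfl⟩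
    refine ⟨_, ⟨s.image (a⁻¹ • ·), rfl⟩, fun x hx z hz => ?_⟩
    rw [mul_smul, mul_smul, hx _ (Finset.mem_image_of_mem _ hz), smul_inv_smul]

lemma mem_stB {G Y : Type} [Group G] [MulAction G Y] {U : Set G} :
    U ∈ @nhds G (stB G Y).topology 1 ↔ ∃ s : Finset Y, St G s ⊆ U := by
  rw [(stB G Y).nhds_one_hasBasis.mem_iff]
  exact ⟨fun ⟨_, ⟨s, e⟩, h⟩ => ⟨s, e ▸ h⟩, fun ⟨s, h⟩ => ⟨_, ⟨s, rfl⟩, h⟩⟩

lemma tight_of {G J : Type} [Group G] [TopologicalSpace G] [IsTopologicalGroup G] (c : J → Set G)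
    (h1 : ∀ j, c j ∈ 𝓝 1) (h2 : ∀ U ∈ 𝓝 (1 : G), ∃ S : Set J, S.Finite ∧ ⋂ j ∈ S, c j ⊆ U)
    (h3 : ∀ g, {j | g ∉ c j}.Countable) (A : Set G) (x : G) (hx : x ∈ closure A) :
    ∃ B ⊆ A, B.Countable ∧ x ∈ closure B := by
  have : ∀ S : {S : Set J // S.Finite}, ∃ a ∈ A, x⁻¹ * a ∈ ⋂ j ∈ S.1, c j := fun S => by
    obtain ⟨a, h, h'⟩ := mem_closure_iff_nhds.1 hx _ (Continuous.tendsto' (f := fun y => x⁻¹ * y)
      (by fun_prop) x 1 (by simp) ((biInter_mem S.2).2 fun j _ => h1 j))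
    exact ⟨a, h', h⟩
  choose a ha hS using this
  have cs : ∀ C : Set J, C.Countable → {S : {S : Set J // S.Finite} | S.1 ⊆ C}.Countable :=
    fun C hC => Set.Countable.mono (fun S h => And.intro S.2 h)
      ((Set.countable_ofPred_finite_subset hC).preimage_of_injOn Subtype.val_injective.injOn)
  let C : ℕ → Set J := fun n => Nat.rec ∅
    (fun _ D => D ∪ ⋃ S ∈ {S : {S : Set J // S.Finite} | S.1 ⊆ D}, {j | x⁻¹ * a S ∉ c j}) n
  have cC : ∀ n, (C n).Countable := fun n => by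
    induction n with
    | zero => exact Set.countable_empty
    | succ n ih => exact ih.union ((cs _ ih).biUnion fun S _ => h3 _)
  have mC : Monotone C := monotone_nat_of_le_succ fun n => Set.subset_union_left
  refine ⟨a '' {S | S.1 ⊆ ⋃ n, C n}, by rintro _ ⟨S, -, rfl⟩; exact ha S,
    (cs _ (Set.countable_iUnion cC)).image _, mem_closure_iff_nhds.2 fun t ht => ?_⟩
  obtain ⟨S, fS, hSt⟩ := h2 _ (Continuous.tendsto' (f := fun y => x * y) (by fun_prop) 1 x
    (by simp) ht)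
  let S' : {S : Set J // S.Finite} := ⟨S ∩ ⋃ n, C n, fS.inter_of_left _⟩
  refine ⟨a S', ?_, S', Set.inter_subset_right, rfl⟩
  have : x⁻¹ * a S' ∈ ⋂ j ∈ S, c j := Set.mem_iInter₂.2 fun j hj => by
    by_contra hn
    obtain ⟨n, hn'⟩ := mC.directed_le.exists_mem_subset_of_finset_subset_biUnion
      (s := S'.2.toFinset) (by simp [S'])
    exact hn (Set.mem_iInter₂.1 (hS S') j ⟨hj, Set.mem_iUnion.2 ⟨n + 1, .inr
      (Set.mem_biUnion (x := S') (show S'.1 ⊆ C n by simpa using hn') hn)⟩⟩)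
  simpa using hSt this

end Pool.Agent.H71.TMS
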