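import Pool.Agent.H71.TMS1

/-! A solvable group of permutations, countably tight and not metrizable. -/

namespace Pool.Agent.H71.TMS

open Filter Topology

abbrev K := Fin 2 → P

/-- finitely supported families of functions with zero socle sums -/
def Sg : AddSubgroup (R → P → ZMod 2) where
  carrier := {F | (Function.support F).Finite ∧
    ∀ y x c, (3 : R) • c = 0 → c ≠ 0 → F y x + F y (x + c) + F y (x - c) = 0}
  zero_mem' := ⟨by simp, by simp⟩
  add_mem' := fun {F F'} h h' => ⟨(h.1.union h'.1).subset (Function.support_add _ _),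
    fun y x c a b => by
      simp only [Pi.add_apply]
      linear_combination h.2 y x c a b + h'.2 y x c a b⟩
  neg_mem' := fun {F} h => ⟨by simpa using h.1, fun y x c a b => by
    simp only [Pi.neg_apply]
    linear_combination -h.2 y x c a b⟩

noncomputable def af (k : K) (h : Rˣ) (y : R) (x : P) : P := (h : R) • x + (k 0 + y • k 1)

lemma af_mul (k k' : K) (h h' : Rˣ) (y : R) (x : P) :
    af (k + (h : R) • k') (h * h') y x = af k h y (af k' h' y x) := by
  simp only [af, Pi.add_apply, Pi.smul_apply, Units.val_mul]; module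

@[simp] lemma af_one (y : R) (x : P) : af 0 1 y x = x := by simp [af]

noncomputable def sh (k : K) (h : Rˣ) (F : Sg) : Sg :=
  ⟨fun y x => F.1 y (af k h y x), F.2.1.subset fun y hy e => hy (funext fun x => by simp [e]),
    fun y x c a b => by
      have := F.2.2 y (af k h y x) ((h : R) • c) (by rw [smul_comm, a, smul_zero])
        (fun e => b ((smul_eq_zero_iff_eq h).1 e))
      have e1 : af k h y (x + c) = af k h y x + (h : R) • c := by simp only [af]; module
      have e2 : af k h y (x - c) = af k h y x - (h : R) • c := by simp only [af]; module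
      simp only [e1, e2, this]⟩

@[simp] lemma sh_apply (k : K) (h : Rˣ) (F : Sg) (y : R) (x : P) :
    (sh k h F).1 y x = F.1 y (af k h y x) := rfl

@[simp] lemma sh_zero (k : K) (h : Rˣ) : sh k h 0 = 0 := rfl
@[simp] lemma sh_one (F : Sg) : sh 0 1 F = F := Subtype.ext (by ext; simp)
@[simp] lemma add_self (F : Sg) : F + F = 0 :=
  Subtype.ext (by ext; exact CharTwo.add_self_eq_zero _)

@[ext] structure G where
  F : Sg
  k : K
  h : Rˣ

noncomputable instance : Group G where
  mul g g' := ⟨g'.F + sh g'.k g'.h g.F, g.k + (g.h : R) • g'.k, g.h * g'.h⟩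
  one := ⟨0, 0, 1⟩
  inv g := ⟨sh (-((g.h⁻¹ : Rˣ) : R) • g.k) g.h⁻¹ g.F, -((g.h⁻¹ : Rˣ) : R) • g.k, g.h⁻¹⟩
  mul_assoc a b c := G.ext (Subtype.ext (funext₂ fun y x => by
      change c.F.1 y x + (b.F.1 y _ + a.F.1 y _) = c.F.1 y x + b.F.1 y _ + a.F.1 y _
      rw [add_assoc, ← af_mul]; rfl))
    (by
      change a.k + (a.h : R) • b.k + ((a.h * b.h : Rˣ) : R) • c.k =
        a.k + (a.h : R) • (b.k + (b.h : R) • c.k)
      rw [Units.val_mul]; module) (mul_assoc _ _ _)
  one_mul a := G.ext (add_zero _) (by change 0 + ((1 : Rˣ) : R) • a.k = _; simp) (one_mul _)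
  mul_one a := G.ext (by change 0 + sh 0 1 a.F = _; simp)
    (by change a.k + (a.h : R) • (0 : K) = _; simp) (mul_one _)
  inv_mul_cancel a := G.ext (Subtype.ext (funext₂ fun y x => by
      change a.F.1 y x + a.F.1 y (af _ _ y (af _ _ y x)) = 0
      rw [← af_mul, neg_smul, neg_add_cancel, inv_mul_cancel, af_one]
      exact CharTwo.add_self_eq_zero _))
    (by change -((a.h⁻¹ : Rˣ) : R) • a.k + ((a.h⁻¹ : Rˣ) : R) • a.k = 0; simp) (inv_mul_cancel _)

@[simp] lemma mul_F (g g' : G) : (g * g').F = g'.F + sh g'.k g'.h g.F := rfl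
@[simp] lemma mul_k (g g' : G) : (g * g').k = g.k + (g.h : R) • g'.k := rfl
@[simp] lemma mul_h (g g' : G) : (g * g').h = g.h * g'.h := rfl
@[simp] lemma inv_F (g : G) : g⁻¹.F = sh (-((g.h⁻¹ : Rˣ) : R) • g.k) g.h⁻¹ g.F := rfl
@[simp] lemma inv_k (g : G) : g⁻¹.k = -((g.h⁻¹ : Rˣ) : R) • g.k := rfl
@[simp] lemma inv_h (g : G) : g⁻¹.h = g.h⁻¹ := rfl
@[simp] lemma one_F : (1 : G).F = 0 := rfl
@[simp] lemma one_k : (1 : G).k = 0 := rfl
@[simp] lemma one_h : (1 : G).h = 1 := rfl

abbrev Y := R × P × ZMod 2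

noncomputable instance : MulAction G Y where
  smul g z := (z.1, af g.k g.h z.1 z.2.1, z.2.2 + g.F.1 z.1 z.2.1)
  one_smul _ := Prod.ext rfl (Prod.ext (af_one _ _) (add_zero _))
  mul_smul _ _ _ := Prod.ext rfl (Prod.ext (af_mul _ _ _ _ _ _) (add_assoc _ _ _).symm)

lemma fix {g : G} {z : Y} : g • z = z ↔ af g.k g.h z.1 z.2.1 = z.2.1 ∧ g.F.1 z.1 z.2.1 = 0 :=
  ⟨fun h => ⟨congrArg (·.2.1) h, add_eq_left.1 (congrArg (·.2.2) h)⟩,
    fun h => Prod.ext rfl (Prod.ext h.1 (add_eq_left.2 h.2))⟩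

noncomputable instance top : TopologicalSpace G := (stB G Y).topology

instance : IsTopologicalGroup G := (stB G Y).isTopologicalGroup

lemma mem_nhds {U : Set G} : U ∈ 𝓝 (1 : G) ↔ ∃ s : Finset Y, St G s ⊆ U := mem_stB

/-- subbasic sets -/
def cnd : (R × P) ⊕ P → Set G
  | .inl p => {g | g.F.1 p.1 p.2 = 0}
  | .inr x => {g | g.k = 0 ∧ (g.h : R) • x = x}

lemma cnd_mem : ∀ j, cnd j ∈ 𝓝 (1 : G)
  | .inl p => mem_nhds.2 ⟨{(p.1, p.2, 0)}, fun g hg => (fix.1 (hg (p.1, p.2, 0) (by simp))).2⟩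
  | .inr x => by
    classical
    refine mem_nhds.2 ⟨{(0, 0, 0), (1, 0, 0), (0, x, 0)}, fun g hg => ?_⟩
    have h0 := (fix.1 (hg (0, 0, 0) (by simp))).1
    have h1 := (fix.1 (hg (1, 0, 0) (by simp))).1
    have h2 := (fix.1 (hg (0, x, 0) (by simp))).1
    simp only [af, smul_zero, zero_smul, add_zero, zero_add, one_smul] at h0 h1 h2
    rw [h0, zero_add] at h1
    rw [h0, add_zero] at h2
    exact ⟨funext fun i => by fin_cases i; exacts [h0, h1], h2⟩

lemma tight : ∀ (A : Set G) (x : G), x ∈ closure A → ∃ B ⊆ A, B.Countable ∧ x ∈ closure B := by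
  refine tight_of cnd cnd_mem (fun U hU => ?_) fun g => ?_
  · obtain ⟨s, hs⟩ := mem_nhds.1 hU
    refine ⟨(fun z : Y => .inl (z.1, z.2.1)) '' s ∪ (fun z : Y => .inr z.2.1) '' s,
      (s.finite_toSet.image _).union (s.finite_toSet.image _), fun g hg => hs fun z hz => ?_⟩
    have h1 := Set.mem_iInter₂.1 hg _ (.inl ⟨z, hz, rfl⟩)
    have h2 := Set.mem_iInter₂.1 hg _ (.inr ⟨z, hz, rfl⟩)
    exact fix.2 ⟨by simp [af, h2.1, h2.2], h1⟩
  · refine Set.Countable.mono ?_ (((g.F.2.1.countable.prod (Set.countable_univ (α := P))).image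
      Sum.inl).union (Set.countable_range Sum.inr))
    rintro (p | x) h
    · exact .inl ⟨p, ⟨fun e => h (congrFun e _), trivial⟩, rfl⟩
    · exact .inr ⟨x, rfl⟩

instance : T2Space G := IsTopologicalGroup.t2Space_of_one_sep fun g hg => by
  by_contra h
  push Not at h
  have h' := fun j => h _ (cnd_mem j)
  refine hg (G.ext (Subtype.ext (funext₂ fun y x => h' (.inl (y, x)))) (h' (.inr 0)).1
    (Units.ext ?_))
  by_contra hne
  obtain ⟨s, s0, -⟩ := ex_s
  obtain ⟨b, rfl⟩ := divis (sub_ne_zero.2 hne) s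
  exact s0 (by rw [sub_smul, (h' (.inr b)).2]; simp)

instance : Group.IsSolvable G := by
  let S1 : Subgroup G :=
    { carrier := {g | g.h = 1}
      one_mem' := rfl
      mul_mem' := fun {a b} (ha : a.h = 1) (hb : b.h = 1) => by simp [ha, hb]
      inv_mem' := fun {a} (ha : a.h = 1) => by simp [ha] }
  let S2 : Subgroup G :=
    { carrier := {g | g.h = 1 ∧ g.k = 0}
      one_mem' := ⟨rfl, rfl⟩
      mul_mem' := fun {a b} ha hb => ⟨by simp [ha.1, hb.1], by simp [ha.2, hb.2]⟩
      inv_mem' := fun {a} ha => ⟨by simp [ha.1], by simp [ha.2]⟩ }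
  have h1 : derivedSeries G 1 ≤ S1 := Subgroup.commutator_le.2 fun a _ b _ => by
    change (a * b * a⁻¹ * b⁻¹).h = 1
    simp
  have h2 : derivedSeries G 2 ≤ S2 := Subgroup.commutator_le.2 fun a ha b hb => by
    have ha : a.h = 1 := h1 ha
    have hb : b.h = 1 := h1 hb
    change (a * b * a⁻¹ * b⁻¹).h = 1 ∧ (a * b * a⁻¹ * b⁻¹).k = 0
    simp [ha, hb]
  refine ⟨3, eq_bot_iff.2 (Subgroup.commutator_le.2 fun a ha b hb => ?_)⟩
  obtain ⟨ha, ha'⟩ := h2 ha
  obtain ⟨hb, hb'⟩ := h2 hb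
  rw [Subgroup.mem_bot, commutatorElement_eq_one_iff_mul_comm]
  exact G.ext (by simp [ha, ha', hb, hb', add_comm]) (by simp [ha', hb']) (mul_comm _ _)

open Classical in
/-- a function placed at one coordinate -/
noncomputable def sing (y : R) (f : P → ZMod 2)
    (hf : ∀ x c, (3 : R) • c = 0 → c ≠ 0 → f x + f (x + c) + f (x - c) = 0) : Sg :=
  ⟨Pi.single y f, (Set.finite_singleton y).subset (Pi.support_single_subset),
    fun y' x c a b => by
      by_cases h : y' = y
      · subst h; simpa using hf x c a b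
      · simp [h]⟩

lemma not_met : ¬ TopologicalSpace.MetrizableSpace G := fun h => by
  classical
  obtain ⟨U, hU⟩ := (𝓝 (1 : G)).exists_antitone_basis
  choose S hS using fun n => mem_nhds.1 (hU.mem n)
  obtain ⟨y, hy⟩ : ∃ y : R, y ∉ ⋃ n, Prod.fst '' (S n : Set Y) := by
    by_contra h
    push Not at h
    exact Set.not_countable_univ (Set.Countable.mono (fun y _ => h y)
      (Set.countable_iUnion fun n => (S n).countable_toSet.image _))
  let f : P → ZMod 2 := fun x => if (3 : R) • x = 0 ∧ x ≠ 0 then 1 else 0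
  have hf : ∀ x c, (3 : R) • c = 0 → c ≠ 0 → f x + f (x + c) + f (x - c) = 0 := fun x c a b => by
    by_cases hx : (3 : R) • x = 0
    · have e : c + c = -c := by
        rw [eq_neg_iff_add_eq_zero, ← a, show (3 : R) = 1 + 1 + 1 by norm_num]
        simp only [add_smul, one_smul]
      have e' : -c - c = c := by rw [sub_eq_add_neg, ← neg_add, e, neg_neg]
      rcases soc1 hx a b with rfl | rfl | rfl <;> simp [f, a, b, e, e'] <;> rfl
    · simp [f, smul_sub, a, hx]
  obtain ⟨s, s0, s3⟩ := ex_s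
  have : (⟨sing y f hf, 0, 1⟩ : G) ≠ 1 := fun e => by
    have := congrArg (fun g : G => g.F.1 y s) e
    simp [sing, f, s0, s3] at this
  obtain ⟨n, -, hn⟩ := hU.1.mem_iff.1 (compl_singleton_mem_nhds this.symm)
  refine hn (hS n fun z hz => fix.2 ⟨af_one _ _, ?_⟩) rfl
  have : z.1 ≠ y := fun e => hy (Set.mem_iUnion.2 ⟨n, z, hz, e⟩)
  simp [sing, this]

end Pool.Agent.H71.TMS
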