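import Pool.Agent.H71.TMS2

/-! Total minimality of the example. -/

namespace Pool.Agent.H71.TMS

open Filter Topology

noncomputable abbrev iS (F : Sg) : G := ⟨F, 0, 1⟩
noncomputable abbrev iK (k : K) : G := ⟨0, k, 1⟩
noncomputable abbrev iH (h : Rˣ) : G := ⟨0, 0, h⟩

lemma iS_add (F F' : Sg) : iS (F + F') = iS F * iS F' :=
  G.ext (by simp [add_comm]) (by simp) (by simp)
lemma iK_add (k k' : K) : iK (k + k') = iK k * iK k' := G.ext (by simp) (by simp) (by simp)
lemma iK_neg (k : K) : iK (-k) = (iK k)⁻¹ := G.ext (by simp) (by simp) (by simp)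
lemma iH_mul (k k' : Rˣ) : iH (k * k') = iH k * iH k' := G.ext (by simp) (by simp) (by simp)
lemma dec (g : G) : g = iK g.k * iH g.h * iS g.F := G.ext (by simp) (by simp) (by simp)
lemma dec' {g : G} (h : g.h = 1) : iS g.F = iK (-g.k) * g := G.ext (by simp) (by simp) (by simp [h])
lemma iS_sh (k : K) (F : Sg) : iS (sh k 1 F) = (iK k)⁻¹ * iS F * iK k :=
  G.ext (by simp) (by simp) (by simp)
lemma iK_smul (u : Rˣ) (k : K) : iK ((u : R) • k) = iH u * iK k * (iH u)⁻¹ :=
  G.ext (by simp) (by simp) (by simp)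

lemma cont_iH : Continuous iH := by
  refine continuous_of_continuousAt_one (MonoidHom.mk' iH iH_mul) fun U hU => ?_
  obtain ⟨s, hs⟩ := mem_nhds.1 hU
  have : ∀ᶠ u : Rˣ in 𝓝 1, ∀ z ∈ s, (u : R) • z.2.1 = (1 : R) • z.2.1 :=
    (eventually_all_finset s).2 fun z _ => (Units.continuous_val.tendsto 1).eventually (nhds_fix _ _)
  exact this.mono fun u hu => hs fun z hz => fix.2 ⟨by simpa [af] using hu z hz, rfl⟩

lemma shE {F : Sg} {k : K} {y : R} (h3 : (3 : R) • (k 0 + y • k 1) = 0) (h0 : k 0 + y • k 1 ≠ 0)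
    (x : P) : (sh k 1 (F + sh k 1 F)).1 y x = F.1 y x := by
  have := F.2.2 y (x + (k 0 + y • k 1)) _ h3 h0
  simp only [add_sub_cancel_right] at this
  simp only [sh_apply, AddSubgroup.coe_add, Pi.add_apply, af, Units.val_one, one_smul]
  linear_combination this - CharTwo.add_self_eq_zero (F.1 y x)

variable {G' : Type} [Group G'] (φ : G →* G')

/-- the part of the kernel in `K` -/
def NK : Submodule R K where
  carrier := {k | φ (iK k) = 1}
  zero_mem' := map_one φ
  add_mem' := fun {a b} (ha : φ _ = 1) (hb : φ _ = 1) => by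
    change φ _ = 1
    rw [iK_add, map_mul, ha, hb, mul_one]
  smul_mem' := fun r k (h : φ _ = 1) => by
    obtain ⟨u, v, rfl⟩ := diff r
    change φ _ = 1
    rw [sub_smul, sub_eq_add_neg, iK_add, iK_neg, iK_smul, iK_smul]
    simp [h]

lemma killS (h : ∀ k, k ∈ NK φ) (F : Sg) : φ (iS F) = 1 := by
  obtain ⟨s, s0, s3⟩ := ex_s
  have e : ∀ F, φ (iS (sh ![s, 0] 1 F)) = φ (iS F) := fun F => by
    have : φ (iK _) = 1 := h ![s, 0]
    simp [iS_sh, this]
  have : sh ![s, 0] 1 (F + sh ![s, 0] 1 F) = F :=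
    Subtype.ext (funext₂ fun y x => shE (by simpa) (by simpa) x)
  rw [← this, e, iS_add, map_mul, e, ← map_mul, ← iS_add, add_self]
  exact map_one φ

variable [TopologicalSpace G'] [IsTopologicalGroup G'] [T2Space G'] {φ} {ι : Type}
  {𝒰 : Ultrafilter ι}

lemma memK {F : ι → Sg} {k : K} (h : Tendsto (fun i => φ (iS (F i))) 𝒰 (𝓝 (φ (iK k)))) :
    k ∈ NK φ := by
  have := h.mul h
  simp only [← map_mul, ← iS_add, add_self, ← iK_add, ← two_smul R k] at this
  have : (2 : R) • k ∈ NK φ := (tendsto_const_nhds_iff.1 this).symm.trans (map_one φ)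
  exact ((NK φ).smul_mem_iff_of_isUnit two).1 this

lemma step1 (hφ : Continuous φ) {g : ι → G} (hg : Tendsto (fun i => φ (g i)) 𝒰 (𝓝 1)) :
    ∀ᶠ i in 𝒰, (g i).k ∈ NK φ := by
  classical
  have un : ∀ u : ι → Rˣ, Tendsto (fun i => φ (iH (u i) * g i * (iH (u i))⁻¹)) 𝒰 (𝓝 1) := by
    intro u V hV
    have := isCompact_univ.eventually_forall_of_forall_eventually (x₀ := (1 : G'))
      (P := fun z (u : Rˣ) => φ (iH u) * z * (φ (iH u))⁻¹ ∈ V) fun u _ =>
        Continuous.tendsto' (f := fun p : G' × Rˣ => φ (iH p.2) * p.1 * (φ (iH p.2))⁻¹)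
          ((((hφ.comp cont_iH).comp continuous_snd).mul continuous_fst).mul
            ((hφ.comp cont_iH).comp continuous_snd).inv) _ _ (by simp) hV
    exact (hg.eventually this).mono fun i hi => by simpa using hi (u i) trivial
  by_contra hc
  rw [← Ultrafilter.eventually_not] at hc
  have : ∀ k : K, ∃ r : R, (3 : R) • r • k ∈ NK φ ∧ (k ∉ NK φ → r • k ∉ NK φ) := fun k => by
    have : ∃ n : ℕ, (3 : R) ^ n • k ∈ NK φ := by
      obtain ⟨a, ha⟩ := tors (k 0)
      obtain ⟨b, hb⟩ := tors (k 1)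
      refine ⟨a + b, (show (3 : R) ^ (a + b) • k = 0 from funext fun i => ?_) ▸ zero_mem _⟩
      fin_cases i
      · simp [pow_add, mul_comm ((3 : R) ^ a), mul_smul, ha]
      · simp [pow_add, mul_smul, hb]
    have h1 := Nat.find_spec this
    rcases h : Nat.find this with _ | n
    · exact ⟨0, by simp, fun hk => absurd (by simpa [h] using h1) hk⟩
    · exact ⟨3 ^ n, by rwa [smul_smul, ← pow_succ', ← h], fun _ => Nat.find_min this (by omega)⟩
  choose r h3 hr using this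
  choose u v huv using fun i => diff (r (g i).k)
  let c : ι → G := fun i => iH (u i) * g i * (iH (u i))⁻¹ * (iH (v i) * g i * (iH (v i))⁻¹)⁻¹
  have c1 : Tendsto (fun i => φ (c i)) 𝒰 (𝓝 1) := by
    simpa only [← map_inv, ← map_mul, inv_one, mul_one] using (un u).mul (un v).inv
  have ch : ∀ i, (c i).h = 1 := fun i => by simp [c]
  have ck : ∀ i, (c i).k = r (g i).k • (g i).k := fun i => by
    simp [c, huv i, smul_smul, sub_eq_add_neg, add_smul, mul_left_comm ((g i).h : R)]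
  obtain ⟨z, -, hz⟩ := Ultrafilter.eq_pure_of_finite_mem (f := 𝒰.map fun i => (NK φ).mkQ (c i).k)
    (soc (NK φ).mkQ (NK φ).mkQ_surjective) (Ultrafilter.mem_map.2 <| univ_mem' fun i => by
      change (3 : R) • (NK φ).mkQ _ = 0
      rw [← map_smul, Submodule.mkQ_apply, Submodule.Quotient.mk_eq_zero, ck]
      exact h3 _)
  obtain ⟨x, rfl⟩ := (NK φ).mkQ_surjective z
  have hx : ∀ᶠ i in 𝒰, x - (c i).k ∈ NK φ := by
    have : {(NK φ).mkQ x} ∈ 𝒰.map fun i => (NK φ).mkQ (c i).k := by rw [hz]; rfl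
    exact mem_of_superset this fun i hi => (Submodule.Quotient.eq _).1 (Eq.symm hi)
  have := memK (F := fun i => (c i).F) (k := -x) (𝒰 := 𝒰) (φ := φ) (by
    clear_value c
    refine Tendsto.congr' (hx.mono fun i (hi : φ _ = 1) => ?_)
      (by simpa only [mul_one] using c1.const_mul (φ (iK (-x))))
    change _ = φ (iS (c i).F)
    rw [dec' (ch i), show -(c i).k = -x + (x - (c i).k) by abel, iK_add, map_mul, map_mul, hi,
      mul_one])
  obtain ⟨i, h1, h2⟩ := (hx.and hc).exists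
  exact hr _ h2 (by simpa [ck] using neg_mem (add_mem this h1))

lemma step2 {F : ι → Sg} {h : Rˣ} (hF : Tendsto (fun i => φ (iS (F i))) 𝒰 (𝓝 (φ (iH h)))) :
    φ (iH h) = 1 := by
  by_cases h1 : h = 1
  · rw [h1]; exact map_one φ
  have : ∀ k, k ∈ NK φ := fun k => by
    have : (1 - (h : R)) ≠ 0 := sub_ne_zero.2 fun e => h1 (Units.ext e.symm)
    choose b hb using fun i => divis this (k i)
    have e : iK k = iH h * ((iK b)⁻¹ * (iH h)⁻¹ * iK b) := G.ext (by simp)
      (funext fun i => by simp [← hb, sub_smul, smul_sub, smul_smul, neg_add_eq_sub]) (by simp)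
    refine memK (𝒰 := 𝒰) (F := fun i => F i + sh b 1 (F i)) ?_
    have := hF.mul ((hF.inv.const_mul (φ (iK b))⁻¹).mul_const (φ (iK b)))
    simp only [← map_inv, ← map_mul, ← e] at this
    refine this.congr fun i => ?_
    rw [iS_add, iS_sh, inv_eq_of_mul_eq_one_left (a := iS (F i)) (b := iS (F i))
      (by rw [← iS_add, add_self]; rfl)]
  simpa [killS φ this, eq_comm] using hF

lemma step3 (hφ : Continuous φ) {F : ι → Sg} (hF : Tendsto (fun i => φ (iS (F i))) 𝒰 (𝓝 1))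
    (y : R) : ∃ n : Sg, φ (iS n) = 1 ∧ (∀ y', y' ≠ y → n.1 y' = 0) ∧
      ∀ x, ∀ᶠ i in 𝒰, (F i).1 y x = n.1 y x := by
  classical
  have : ∀ x, ∃ a, ∀ᶠ i in 𝒰, (F i).1 y x = a := fun x => by
    obtain ⟨a, ha⟩ := (𝒰.map fun i => (F i).1 y x).eq_pure_of_finite
    have : {a} ∈ 𝒰.map fun i => (F i).1 y x := by rw [ha]; rfl
    exact ⟨a, this⟩
  choose f hf using this
  have hf' : ∀ x c, (3 : R) • c = 0 → c ≠ 0 → f x + f (x + c) + f (x - c) = 0 := fun x c a b => by
    obtain ⟨i, h1, h2, h3⟩ := ((hf x).and ((hf (x + c)).and (hf (x - c)))).exists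
    rw [← h1, ← h2, ← h3]
    exact (F i).2.2 y x c a b
  refine ⟨sing y f hf', ?_, fun y' h => by simp [sing, h], by simpa [sing] using hf⟩
  have key : ∀ T : Finset R, ∃ E : ι → Sg, Tendsto (fun i => φ (iS (E i))) 𝒰 (𝓝 1) ∧
      (∀ i x, (E i).1 y x = (F i).1 y x) ∧ ∀ i, ∀ y' ∈ T, y' ≠ y → ∀ x, (E i).1 y' x = 0 := by
    intro T
    induction T using Finset.induction_on with
    | empty => exact ⟨F, hF, by simp, by simp⟩
    | insert a T _ ih =>
      obtain ⟨E, h1, h2, h3⟩ := ih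
      by_cases ha : a = y
      · exact ⟨E, h1, h2, by simpa [ha] using h3⟩
      obtain ⟨s, s0, s3⟩ := ex_s
      obtain ⟨b, rfl⟩ := divis (sub_ne_zero.2 (Ne.symm ha)) s
      have e : ![-a • b, b] 0 + y • ![-a • b, b] 1 = (y - a) • b := by
        simp only [Matrix.cons_val]; module
      refine ⟨fun i => sh ![-a • b, b] 1 (E i + sh ![-a • b, b] 1 (E i)), ?_,
        fun i x => (shE (e ▸ s3) (e ▸ s0) x).trans (h2 i x), fun i y' hy hn x => ?_⟩
      · simp only [iS_sh, iS_add, map_mul]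
        simpa using ((h1.mul ((h1.const_mul (φ (iK ![-a • b, b])⁻¹)).mul_const
          (φ (iK ![-a • b, b])))).const_mul (φ (iK ![-a • b, b])⁻¹)).mul_const
          (φ (iK ![-a • b, b]))
      · rcases Finset.mem_insert.1 hy with rfl | hy
        · simp [af, CharTwo.add_self_eq_zero]
        · simp [h3 i y' hy hn]
  by_contra hne
  obtain ⟨U, V, hU, hV, hd⟩ := t2_separation_nhds hne
  obtain ⟨s, hs⟩ := mem_nhds.1 (hφ.tendsto' 1 1 (map_one φ) hV)
  obtain ⟨E, h1, h2, h3⟩ := key (s.image Prod.fst)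
  have h4 := (h1.mul_const (φ (iS (sing y f hf')))).eventually (by rwa [one_mul])
  obtain ⟨i, h4, h5⟩ := (h4.and ((eventually_all_finset s).2 fun z _ => hf z.2.1)).exists
  rw [← map_mul, ← iS_add] at h4
  refine Set.disjoint_left.1 hd h4 (hs fun z hz => fix.2 ⟨af_one _ _, ?_⟩)
  by_cases h : z.1 = y
  · simp [h, h2, h5 z hz, sing, CharTwo.add_self_eq_zero]
  · simp [h3 i _ (Finset.mem_image_of_mem _ hz) h, sing, h]

lemma step4 (hφ : Continuous φ) {F : ι → Sg} (hF : Tendsto (fun i => φ (iS (F i))) 𝒰 (𝓝 1))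
    (T : Finset R) : ∃ n : Sg, φ (iS n) = 1 ∧ ∀ y ∈ T, ∀ x, ∀ᶠ i in 𝒰, (F i).1 y x = n.1 y x := by
  classical
  induction T using Finset.induction_on with
  | empty => exact ⟨0, map_one φ, by simp⟩
  | insert a T _ ih =>
    obtain ⟨n, h1, h2⟩ := ih
    obtain ⟨m, h3, h4, h5⟩ := step3 hφ (F := fun i => F i - n) (𝒰 := 𝒰) (by
      simpa [sub_eq_add_neg, neg_eq_of_add_eq_zero_left (add_self n), iS_add, h1] using hF) a
    refine ⟨m + n, by rw [iS_add, map_mul, h1, h3, mul_one], fun y hy x => ?_⟩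
    by_cases h : y = a
    · exact (h5 x).mono fun i hi => by simpa [h, sub_eq_iff_eq_add] using hi
    · simpa [h4 y h] using h2 y (by simpa [h] using hy) x

theorem opn (hφ : Continuous φ) (hs : Function.Surjective φ) {U : Set G} (hU : U ∈ 𝓝 1) :
    φ '' U ∈ 𝓝 1 := by
  classical
  by_contra hc
  obtain ⟨𝒰, h1, h2⟩ := (mem_iff_ultrafilter.not.1 hc |> not_forall.1).imp fun _ => Classical.not_imp.1
  choose g hg using hs
  have t : Tendsto (fun i => φ (g i)) 𝒰 (𝓝 1) := by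
    simp only [hg]; exact tendsto_id'.2 h1
  have s1 := step1 hφ t
  obtain ⟨h, -, hh⟩ := isCompact_univ.ultrafilter_le_nhds (𝒰.map fun i => (g i).h) (by simp)
  replace hh : Tendsto (fun i => (g i).h) 𝒰 (𝓝 h) := hh
  have t2 : Tendsto (fun i => φ (iS (g i).F)) 𝒰 (𝓝 (φ (iH h⁻¹))) := by
    have := (((hφ.comp cont_iH).tendsto _).comp hh.inv).mul t
    rw [mul_one] at this
    refine this.congr' (s1.mono fun i (hi : φ _ = 1) => ?_)
    conv_lhs => rw [dec (g i)]
    simp only [Function.comp, map_mul, hi, one_mul, ← mul_assoc]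
    rw [← map_mul, ← iH_mul, inv_mul_cancel]
    exact (congrArg (· * _) (map_one φ)).trans (one_mul _)
  have s2 := step2 t2
  rw [s2] at t2
  obtain ⟨s, hs⟩ := mem_nhds.1 hU
  obtain ⟨n, n1, n2⟩ := step4 hφ t2 (s.image Prod.fst)
  have t3 : ∀ᶠ i in 𝒰, ∀ z ∈ s, (((g i).h * h⁻¹ : Rˣ) : R) • z.2.1 = (1 : R) • z.2.1 :=
    (eventually_all_finset s).2 fun z _ => ((Units.continuous_val.tendsto 1).comp
      (by simpa using hh.mul_const h⁻¹)).eventually (nhds_fix _ _)
  refine h2 (mem_of_superset (s1.and (t3.and ((eventually_all_finset s).2 fun z hz =>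
    n2 _ (Finset.mem_image_of_mem _ hz) z.2.1))) fun i ⟨(a : φ _ = 1), b, c⟩ =>
      ⟨iH ((g i).h * h⁻¹) * iS ((g i).F + n), hs fun z hz => fix.2 ⟨by simpa [af] using b z hz,
        by simp [c z hz, CharTwo.add_self_eq_zero]⟩, ?_⟩)
  conv_rhs => rw [← hg i, dec (g i)]
  simp only [iH_mul, iS_add, map_mul, s2, n1, a, mul_one, one_mul]

end Pool.Agent.H71.TMS
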