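import Mathlib

set_option autoImplicit false

namespace Pool.Agent.H71.TTilde

/-- model of the rational line: integer part and fractional part -/
def X : Type := {p : ℤ × ℚ // 0 ≤ p.2 ∧ p.2 < 1}

def val (x : X) : ℚ := x.1.1 + x.1.2

theorem val_inj {x y : X} (h : val x = val y) : x = y := by
  obtain ⟨⟨k, t⟩, h0, h1⟩ := x
  obtain ⟨⟨k', t'⟩, h0', h1'⟩ := y
  simp only [val] at *
  have h2 : (k : ℚ) < k' + 1 := by linarith
  have h3 : (k' : ℚ) < k + 1 := by linarith
  have h4 : k < k' + 1 := by exact_mod_cast h2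
  have h5 : k' < k + 1 := by exact_mod_cast h3
  obtain rfl : k = k' := by omega
  obtain rfl : t = t' := by linarith
  rfl

def Ok (f : ℚ → ℤ × ℚ) : Prop := ∀ t, 0 ≤ t → t < 1 → 0 ≤ (f t).2 ∧ (f t).2 < 1

def act (f : ℚ → ℤ × ℚ) (hf : Ok f) (x : X) : X :=
  ⟨(x.1.1 + (f x.1.2).1, (f x.1.2).2), hf _ x.2.1 x.2.2⟩

def a (t : ℚ) : ℤ × ℚ := if t < 1/2 then (0, t/2) else if t < 3/4 then (0, t - 1/4) else (0, 2*t-1)
def a' (t : ℚ) : ℤ × ℚ := if t < 1/4 then (0, 2*t) else if t < 1/2 then (0, t + 1/4) else (0, (t+1)/2)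
def b (t : ℚ) : ℤ × ℚ := if t < 1/2 then (0, t) else if t < 3/4 then (0, t/2 + 1/4) else
  if t < 7/8 then (0, t - 1/8) else (0, 2*t-1)
def b' (t : ℚ) : ℤ × ℚ := if t < 1/2 then (0, t) else if t < 5/8 then (0, 2*t - 1/2) else
  if t < 3/4 then (0, t + 1/8) else (0, (t+1)/2)
def c (t : ℚ) : ℤ × ℚ := if t < 1/2 then (-1, t/2 + 3/4) else if t < 3/4 then (0, 2*t - 1) else
  (0, t - 1/4)
def c' (t : ℚ) : ℤ × ℚ := if t < 1/2 then (0, (t+1)/2) else if t < 3/4 then (0, t + 1/4) else
  (1, 2*t - 3/2)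
def d (t : ℚ) : ℤ × ℚ := if t < 1/2 then (-1, t/4 + 7/8) else if t < 7/8 then (0, 2*t - 1) else
  (0, t - 1/8)
def b2 (t : ℚ) : ℤ × ℚ := if t < 3/4 then (0, t) else if t < 7/8 then (0, t/2 + 3/8) else
  if t < 15/16 then (0, t - 1/16) else (0, 2*t-1)
def e (t : ℚ) : ℤ × ℚ := if t < 1/2 then (-1, t/8 + 15/16) else if t < 15/16 then (0, 2*t - 1) else
  (0, t - 1/16)

theorem ha : Ok a := by
  intro t h0 h1; simp only [a]; split_ifs <;> constructor <;> simp only [] <;> linarith
theorem ha' : Ok a' := by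
  intro t h0 h1; simp only [a']; split_ifs <;> constructor <;> simp only [] <;> linarith
theorem hb : Ok b := by
  intro t h0 h1; simp only [b]; split_ifs <;> constructor <;> simp only [] <;> linarith
theorem hb' : Ok b' := by
  intro t h0 h1; simp only [b']; split_ifs <;> constructor <;> simp only [] <;> linarith
theorem hc : Ok c := by
  intro t h0 h1; simp only [c]; split_ifs <;> constructor <;> simp only [] <;> linarith
theorem hc' : Ok c' := by
  intro t h0 h1; simp only [c']; split_ifs <;> constructor <;> simp only [] <;> linarith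
theorem hd : Ok d := by
  intro t h0 h1; simp only [d]; split_ifs <;> constructor <;> simp only [] <;> linarith
theorem hb2 : Ok b2 := by
  intro t h0 h1; simp only [b2]; split_ifs <;> constructor <;> simp only [] <;> linarith
theorem he : Ok e := by
  intro t h0 h1; simp only [e]; split_ifs <;> constructor <;> simp only [] <;> linarith

theorem comp_eq {f g h j : ℚ → ℤ × ℚ} (hf : Ok f) (hg : Ok g) (hh : Ok h) (hj : Ok j)
    (H : ∀ t, 0 ≤ t → t < 1 → (g t).1 + (f (g t).2).1 = (j t).1 + (h (j t).2).1 ∧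
      (f (g t).2).2 = (h (j t).2).2) (x : X) :
    act f hf (act g hg x) = act h hh (act j hj x) := by
  obtain ⟨⟨k, t⟩, h0, h1⟩ := x
  obtain ⟨h2, h3⟩ := H t h0 h1
  apply Subtype.ext
  simp only [act, Prod.mk.injEq]
  exact ⟨by omega, h3⟩

theorem comp_id {f g : ℚ → ℤ × ℚ} (hf : Ok f) (hg : Ok g)
    (H : ∀ t, 0 ≤ t → t < 1 → (g t).1 + (f (g t).2).1 = 0 ∧ (f (g t).2).2 = t) (x : X) :
    act f hf (act g hg x) = x := by
  obtain ⟨⟨k, t⟩, h0, h1⟩ := x
  obtain ⟨h2, h3⟩ := H t h0 h1
  apply Subtype.ext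
  simp only [act, Prod.mk.injEq]
  exact ⟨by omega, h3⟩

theorem ite2 {p : Prop} [Decidable p] (u v : ℤ × ℚ) :
    (if p then u else v).2 = if p then u.2 else v.2 := by split_ifs <;> rfl
theorem ite1 {p : Prop} [Decidable p] (u v : ℤ × ℚ) :
    (if p then u else v).1 = if p then u.1 else v.1 := by split_ifs <;> rfl

def A : Equiv.Perm X where
  toFun := act a ha
  invFun := act a' ha'
  left_inv := comp_id _ _ (by
    intro t h0 h1; simp only [a, a', ite1, ite2]
    split_ifs <;> first | (exfalso; linarith) | exact ⟨by norm_num, by linarith⟩)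
  right_inv := comp_id _ _ (by
    intro t h0 h1; simp only [a, a', ite1, ite2]
    split_ifs <;> first | (exfalso; linarith) | exact ⟨by norm_num, by linarith⟩)

def B : Equiv.Perm X where
  toFun := act b hb
  invFun := act b' hb'
  left_inv := comp_id _ _ (by
    intro t h0 h1; simp only [b, b', ite1, ite2]
    split_ifs <;> first | (exfalso; linarith) | exact ⟨by norm_num, by linarith⟩)
  right_inv := comp_id _ _ (by
    intro t h0 h1; simp only [b, b', ite1, ite2]
    split_ifs <;> first | (exfalso; linarith) | exact ⟨by norm_num, by linarith⟩)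

def C : Equiv.Perm X where
  toFun := act c hc
  invFun := act c' hc'
  left_inv := comp_id _ _ (by
    intro t h0 h1; simp only [c, c', ite1, ite2]
    split_ifs <;> first | (exfalso; linarith) | exact ⟨by norm_num, by linarith⟩)
  right_inv := comp_id _ _ (by
    intro t h0 h1; simp only [c, c', ite1, ite2]
    split_ifs <;> first | (exfalso; linarith) | exact ⟨by norm_num, by linarith⟩)

theorem A_apply (x : X) : A x = act a ha x := rfl
theorem B_apply (x : X) : B x = act b hb x := rfl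
theorem C_apply (x : X) : C x = act c hc x := rfl

theorem D_apply (x : X) : (A⁻¹ * C * B) x = act d hd x := by
  apply A.injective
  simp only [Equiv.Perm.mul_apply, Equiv.Perm.coe_inv,
    Equiv.apply_symm_apply]
  rw [A_apply, B_apply, C_apply]
  refine comp_eq _ _ _ _ ?_ x
  intro t h0 h1; simp only [a, b, c, d, ite1, ite2]
  split_ifs <;> first | (exfalso; linarith) | exact ⟨by norm_num, by linarith⟩

theorem B2_apply (x : X) : (A⁻¹ * B * A) x = act b2 hb2 x := by
  apply A.injective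
  simp only [Equiv.Perm.mul_apply, Equiv.Perm.coe_inv,
    Equiv.apply_symm_apply]
  rw [A_apply, B_apply, A_apply]
  refine comp_eq _ _ _ _ ?_ x
  intro t h0 h1; simp only [a, b, b2, ite1, ite2]
  split_ifs <;> first | (exfalso; linarith) | exact ⟨by norm_num, by linarith⟩

theorem E_apply (x : X) : (A⁻¹ * (A⁻¹ * C * B) * B) x = act e he x := by
  apply A.injective
  rw [Equiv.Perm.mul_apply, Equiv.Perm.mul_apply, D_apply]
  simp only [Equiv.Perm.coe_inv, Equiv.apply_symm_apply]
  rw [A_apply, B_apply]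
  refine comp_eq _ _ _ _ ?_ x
  intro t h0 h1; simp only [a, b, d, e, ite1, ite2]
  split_ifs <;> first | (exfalso; linarith) | exact ⟨by norm_num, by linarith⟩

theorem comp_eq1 {f g h : ℚ → ℤ × ℚ} (hf : Ok f) (hg : Ok g) (hh : Ok h)
    (H : ∀ t, 0 ≤ t → t < 1 → (g t).1 + (f (g t).2).1 = (h t).1 ∧
      (f (g t).2).2 = (h t).2) (x : X) :
    act f hf (act g hg x) = act h hh x := by
  obtain ⟨⟨k, t⟩, h0, h1⟩ := x
  obtain ⟨h2, h3⟩ := H t h0 h1
  apply Subtype.ext
  simp only [act, Prod.mk.injEq]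
  exact ⟨by omega, h3⟩

theorem rel3 : B * (A⁻¹ * C * B) = C := by
  ext1 x
  rw [Equiv.Perm.mul_apply, D_apply, B_apply, C_apply]
  refine comp_eq1 _ _ _ ?_ x
  intro t h0 h1; simp only [b, c, d, ite1, ite2]
  split_ifs <;> first | (exfalso; linarith) | exact ⟨by norm_num, by linarith⟩

theorem rel4 : (A⁻¹ * C * B) * (A⁻¹ * B * A) = B * (A⁻¹ * (A⁻¹ * C * B) * B) := by
  ext1 x
  rw [Equiv.Perm.mul_apply, D_apply, B2_apply, Equiv.Perm.mul_apply, E_apply, B_apply]
  refine comp_eq _ _ _ _ ?_ x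
  intro t h0 h1; simp only [b, b2, d, e, ite1, ite2]
  split_ifs <;> first | (exfalso; linarith) | exact ⟨by norm_num, by linarith⟩

theorem rel5 : C * A = (A⁻¹ * C * B) * (A⁻¹ * C * B) := by
  ext1 x
  rw [Equiv.Perm.mul_apply, Equiv.Perm.mul_apply (A⁻¹ * C * B), D_apply, D_apply, A_apply, C_apply]
  refine comp_eq _ _ _ _ ?_ x
  intro t h0 h1; simp only [a, c, d, ite1, ite2]
  split_ifs <;> first | (exfalso; linarith) | exact ⟨by norm_num, by linarith⟩

/-- increasing permutations -/
def Mono : Subgroup (Equiv.Perm X) where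
  carrier := {g | ∀ x y, val x < val y → val (g x) < val (g y)}
  mul_mem' := fun hg hh x y h => hg _ _ (hh _ _ h)
  one_mem' := fun _ _ h => h
  inv_mem' := by
    intro g hg x y h
    rcases lt_trichotomy (val (g⁻¹ x)) (val (g⁻¹ y)) with h1 | h1 | h1
    · exact h1
    · have := (g⁻¹).injective (val_inj h1)
      rw [this] at h; exact absurd h (lt_irrefl _)
    · have := hg _ _ h1
      simp only [Equiv.Perm.coe_inv, Equiv.apply_symm_apply] at this
      exact absurd h (not_lt.2 this.le)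

theorem act_mono {f : ℚ → ℤ × ℚ} (hf : Ok f)
    (h1 : ∀ t t', 0 ≤ t → t < t' → t' < 1 → ((f t).1 : ℚ) + (f t).2 < (f t').1 + (f t').2)
    (h2 : ∀ t t', 0 ≤ t → t < 1 → 0 ≤ t' → t' < 1 →
      ((f t).1 : ℚ) + (f t).2 < (f t').1 + (f t').2 + 1)
    (x y : X) (h : val x < val y) : val (act f hf x) < val (act f hf y) := by
  obtain ⟨⟨k, t⟩, h0, h3⟩ := x
  obtain ⟨⟨k', t'⟩, h0', h3'⟩ := y
  simp only [val, act] at *
  push_cast
  have h4 : (k : ℚ) < k' + 1 := by linarith
  have h5 : k < k' + 1 := by exact_mod_cast h4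
  rcases (show k = k' ∨ k + 1 ≤ k' by omega) with rfl | h6
  · have := h1 t t' h0 (by linarith) h3'
    linarith
  · have := h2 t t' h0 h3 h0' h3'
    have h7 : (k : ℚ) + 1 ≤ k' := by exact_mod_cast h6
    linarith

theorem A_mono : A ∈ Mono := act_mono ha
  (by intro t t' h0 h1 h2; simp only [a, ite1, ite2]; split_ifs <;> push_cast <;> linarith)
  (by intro t t' h0 h1 h2 h3; simp only [a, ite1, ite2]; split_ifs <;> push_cast <;> linarith)
theorem B_mono : B ∈ Mono := act_mono hb
  (by intro t t' h0 h1 h2; simp only [b, ite1, ite2]; split_ifs <;> push_cast <;> linarith)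
  (by intro t t' h0 h1 h2 h3; simp only [b, ite1, ite2]; split_ifs <;> push_cast <;> linarith)
theorem C_mono : C ∈ Mono := act_mono hc
  (by intro t t' h0 h1 h2; simp only [c, ite1, ite2]; split_ifs <;> push_cast <;> linarith)
  (by intro t t' h0 h1 h2 h3; simp only [c, ite1, ite2]; split_ifs <;> push_cast <;> linarith)

theorem C_ne : C ≠ 1 := by
  intro h
  have := congrArg (fun g : Equiv.Perm X => (g ⟨(0, 0), by norm_num, by norm_num⟩).1.1) h
  simp [C_apply, act, c] at this

instance : Countable X := by unfold X; infer_instance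
instance : Nonempty X := ⟨⟨(0, 0), by norm_num, by norm_num⟩⟩

/-- a group acting faithfully by increasing permutations has a right-invariant linear order -/
theorem right_order {Q : Type} [Group Q] (φ : Q →* Equiv.Perm X) (hφ : Function.Injective φ)
    (hm : ∀ q, φ q ∈ Mono) :
    ∃ _ : LinearOrder Q, ∀ p q r : Q, p ≤ q → p * r ≤ q * r := by
  obtain ⟨en, hen⟩ := exists_surjective_nat X
  let ι : Q → Lex (ℕ → ℚ) := fun q => toLex fun n => val (φ q⁻¹ (en n))
  have hι : Function.Injective ι := by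
    intro p q h
    have h1 : ∀ n, val (φ p⁻¹ (en n)) = val (φ q⁻¹ (en n)) := fun n => congrFun (toLex.injective h) n
    have : φ p⁻¹ = φ q⁻¹ := by
      ext1 x
      obtain ⟨n, rfl⟩ := hen x
      exact val_inj (h1 n)
    exact inv_injective (hφ this)
  refine ⟨LinearOrder.lift' ι hι, fun p q r h => ?_⟩
  change ι p ≤ ι q at h
  change ι (p * r) ≤ ι (q * r)
  rcases h.eq_or_lt with h | h
  · rw [hι h]
  · obtain ⟨n, h1, h2⟩ := h
    refine le_of_lt ⟨n, fun j hj => ?_, ?_⟩
    · have := val_inj (h1 j hj)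
      simp only [ι, Pi.toLex_apply, mul_inv_rev, map_mul, Equiv.Perm.mul_apply] at *
      rw [this]
    · simp only [ι, Pi.toLex_apply, mul_inv_rev, map_mul, Equiv.Perm.mul_apply] at *
      exact hm _ _ _ h2

end Pool.Agent.H71.TTilde
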