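import Mathlib

/-! A self-similar group acting on the `3 ^ 15`-regular rooted tree. -/

namespace Pool.Agent.H71.Tree

abbrev A := Fin 15 → ZMod 3
abbrev L := Option (Fin 15)
abbrev W := List (L × ZMod 3)

def tab : List (List (ZMod 3)) :=
  [[0, 2, 2, 0, 0, 1, 1, 0, 1, 1, 1, 1, 0, 0, 1], [0, 0, 0, 1, 1, 0, 0, 2, 0, 0, 2, 2, 0, 0, 2],
   [2, 2, 2, 1, 1, 0, 0, 0, 1, 1, 0, 0, 2, 2, 1], [2, 1, 1, 1, 1, 1, 1, 2, 0, 0, 0, 0, 2, 2, 1],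
   [2, 0, 0, 1, 1, 0, 0, 1, 2, 2, 0, 0, 0, 0, 1], [2, 1, 1, 0, 0, 2, 2, 2, 0, 0, 2, 2, 0, 0, 1],
   [2, 2, 2, 1, 1, 2, 2, 2, 0, 0, 0, 0, 1, 1, 0], [2, 0, 0, 0, 0, 2, 2, 1, 2, 2, 1, 1, 2, 2, 0],
   [0, 2, 2, 1, 1, 1, 1, 1, 2, 2, 1, 1, 1, 1, 2], [0, 2, 2, 0, 0, 0, 0, 1, 2, 2, 2, 2, 2, 2, 1],
   [0, 1, 1, 0, 0, 1, 1, 0, 1, 1, 2, 2, 2, 2, 0], [1, 0, 0, 0, 0, 1, 1, 2, 0, 0, 2, 2, 2, 2, 2],
   [1, 1, 1, 1, 1, 2, 2, 0, 1, 1, 1, 1, 2, 2, 0], [0, 0, 0, 2, 2, 0, 0, 0, 1, 1, 1, 1, 2, 2, 1],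
   [0, 0, 0, 2, 2, 2, 2, 1, 2, 2, 0, 0, 1, 1, 1], [1, 2, 2, 0, 0, 0, 0, 2, 0, 0, 2, 2, 1, 1, 0]]

/-- the special points -/
def v (l : L) : A := fun j => (tab.getD (l.elim 0 fun a => a + 1) []).getD j 0

def σ (y : A) : Option L := (none :: (List.finRange 15).map some).find? fun l => y = v l

lemma far : ∀ l l', l ≠ l' → 7 ≤ hammingDist (v l) (v l') := by decide +kernel

def α : W → A
  | [] => 0
  | (none, _) :: w => α w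
  | (some a, k) :: w => Pi.single a k + α w

def sec : W → A → W
  | [], _ => []
  | (none, k) :: w, y => (σ y).elim [] (fun l => [(l, k)]) ++ sec w y
  | (some a, k) :: w, y => sec w (y - Pi.single a k)

def inv (w : W) : W := (w.map fun p => (p.1, -p.2)).reverse

def Ew (w : ℕ → W) (i : ℕ) : W := inv (w i) ++ w (i + 1)

def s (i : ℕ) : W :=
  [[(some 7, 1), (none, 1), (some 8, 1), (some 9, 1)], [(some 10, 2), (some 11, 2)],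
    [(some 12, 1), (some 13, 1)], [(some 14, 2)], [(some 0, 1)], [], [(some 1, 2), (some 2, 2)],
    [(some 3, 1), (some 4, 1)], [(some 5, 2), (some 6, 2)]].getD (i % 9) []

lemma comp1 : ∀ i < 9, sec (Ew^[8] s i) 0 = s (i + 4) := by decide +kernel

lemma comp2 : ∀ i < 9, α (Ew^[8] s i) = α (Ew^[8] s 0) := by decide +kernel

end Pool.Agent.H71.Tree
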