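import Mathlib
import Pool.Agent.H71.Tree1

/-! In the self-similar group all 3-periodic sequences die under iterated differences, but a
9-periodic sequence survives. -/

namespace Pool.Agent.H71.Tree

open Equiv

def act : L → ZMod 3 → List A → List A
  | _, _, [] => []
  | some a, k, x :: t => (x + Pi.single a k) :: t
  | none, k, x :: t => x :: (σ x).elim t fun l => act l k t

lemma act_add (l : L) (k k' : ZMod 3) (t : List A) : act l k (act l k' t) = act l (k + k') t := by
  induction t generalizing l with
  | nil => cases l <;> rfl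
  | cons x t ih =>
    cases l with
    | none => simp only [act]; cases σ x <;> simp [ih]
    | some a => simp only [act, Pi.single_add]; congr 1; abel

lemma act_zero (l : L) (t : List A) : act l 0 t = t := by
  induction t generalizing l with
  | nil => cases l <;> rfl
  | cons x t ih =>
    cases l with
    | none => simp only [act]; cases σ x <;> simp [ih]
    | some a => simp [act]

def g (p : L × ZMod 3) : Perm (List A) :=
  ⟨act p.1 p.2, act p.1 (-p.2), fun t => by simp [act_add, act_zero],
    fun t => by simp [act_add, act_zero]⟩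

lemma g_mul (l : L) (k k' : ZMod 3) : g (l, k) * g (l, k') = g (l, k + k') :=
  Equiv.ext (act_add l k k')

lemma g_inv (l : L) (k : ZMod 3) : (g (l, k))⁻¹ = g (l, -k) := Equiv.ext fun _ => rfl

def ev (w : W) : Perm (List A) := (w.map g).prod

lemma ev_append (w w' : W) : ev (w ++ w') = ev w * ev w' := by simp [ev]

lemma ev_cons (p : L × ZMod 3) (w : W) : ev (p :: w) = g p * ev w := rfl

lemma ev_inv (w : W) : ev (inv w) = (ev w)⁻¹ := by
  induction w with
  | nil => rfl
  | cons p w ih => simp_all [ev, inv, g_inv p.1 p.2]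

def R (h : Perm (List A)) (a : A) (f : A → Perm (List A)) : Prop :=
  h [] = [] ∧ ∀ x t, h (x :: t) = (x + a) :: f x t

variable {h h' : Perm (List A)} {a a' : A} {f f' : A → Perm (List A)}

lemma R.mul (r : R h a f) (r' : R h' a' f') : R (h * h') (a + a') fun x => f (x + a') * f' x :=
  ⟨by simp [r.1, r'.1], fun x t => by simp [r.2, r'.2, add_assoc, add_comm a]⟩

lemma R.inv (r : R h a f) : R h⁻¹ (-a) fun x => (f (x - a))⁻¹ :=
  ⟨Perm.inv_eq_iff_eq.2 r.1.symm, fun x t => Perm.inv_eq_iff_eq.2 (by
    simp [r.2, ← sub_eq_add_neg])⟩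

lemma R.one (r : R 1 a f) : a = 0 ∧ ∀ x, f x = 1 :=
  ⟨by simpa using (List.cons.inj (r.2 0 [])).1.symm,
    fun x => Equiv.ext fun t => (List.cons.inj (r.2 x t)).2.symm⟩

lemma R.triv (r : R h 0 f) (e : ∀ x, f x = 1) : h = 1 := Equiv.ext fun t => by
  cases t
  exacts [r.1, by simp [r.2, e]]

lemma R_ev (w : W) : R (ev w) (α w) fun x => ev (sec w (x + α w)) := by
  induction w with
  | nil => exact ⟨rfl, fun x t => by simp [ev, α, sec]⟩
  | cons p w ih =>
    obtain ⟨_ | a, k⟩ := p
    · have : R (g (none, k)) 0 fun x => ev ((σ x).elim [] fun l => [(l, k)]) :=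
        ⟨rfl, fun x t => by
          change act none k (x :: t) = _
          simp only [act]
          cases σ x <;> simp [ev, g]⟩
      simpa [α, sec, ev_append, ev_cons] using this.mul ih
    · have : R (g (some a, k)) (Pi.single a k) fun _ => 1 := ⟨rfl, fun _ _ => rfl⟩
      simpa [α, sec, add_sub_assoc, ev_cons] using this.mul ih

def E {G : Type*} [Group G] (y : ℕ → G) (i : ℕ) : G := (y i)⁻¹ * y (i + 1)

lemma shift {X : Type*} (φ : X → X → X) (n k : ℕ) (y : ℕ → X) (i : ℕ) :
    (fun (y : ℕ → X) i => φ (y i) (y (i + 1)))^[n] (fun i => y (i + k)) i =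
      (fun (y : ℕ → X) i => φ (y i) (y (i + 1)))^[n] y (i + k) := by
  induction n generalizing i with
  | zero => rfl
  | succ n ih => simp only [Function.iterate_succ_apply', ih, add_right_comm]

lemma E_mono {G : Type*} [Group G] {y : ℕ → G} {k n : ℕ} (e : E^[k] y = 1) (le : k ≤ n) :
    E^[n] y = 1 := by
  induction le with
  | refl => exact e
  | step _ ih => rw [Function.iterate_succ_apply', ih]; ext; simp [E]

lemma R_E {y : ℕ → Perm (List A)} {f : ℕ → A → Perm (List A)} (r : ∀ i, R (y i) a (f i)) (n i : ℕ) :
    R (E^[n + 1] y i) 0 fun x => E^[n + 1] (fun i => f i x) i := by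
  induction n generalizing i with
  | zero => simpa [E] using (r i).inv.mul (r (i + 1))
  | succ n ih =>
    simp only [Function.iterate_succ_apply' _ (n + 1)]
    simpa [E] using (ih i).inv.mul (ih (i + 1))

lemma ev_E (n : ℕ) (w : ℕ → W) : E^[n] (fun i => ev (w i)) = fun i => ev (Ew^[n] w i) := by
  induction n with
  | zero => rfl
  | succ n ih => ext1 i; simp only [Function.iterate_succ_apply', ih, E, Ew, ev_append, ev_inv]

theorem survive (n : ℕ) : E^[n] (fun i => ev (s i)) ≠ 1 := by
  have per : ∀ q, (fun i => s (i + 9 * q)) = s := fun q => funext fun i => by simp [s]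
  have p8 : ∀ i, Ew^[8] s i = Ew^[8] s (i % 9) := fun i => by
    have := shift (fun a b => inv a ++ b) 8 (9 * (i / 9)) s (i % 9)
    rw [per, Nat.mod_add_div] at this
    exact this.symm
  have step : ∀ n, E^[n + 9] (fun i => ev (s i)) = 1 → E^[n + 1] (fun i => ev (s i)) = 1 := by
    intro n e
    rw [show n + 9 = n + 1 + 8 by omega, Function.iterate_add_apply, ev_E 8] at e
    ext1 i
    have r := R_E (fun i => (show α (Ew^[8] s i) = α (Ew^[8] s 0) by
      rw [p8, comp2 _ (Nat.mod_lt _ (by omega))]) ▸ R_ev (Ew^[8] s i)) n (i + 5)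
    rw [e] at r
    have := r.one.2 (-α (Ew^[8] s 0))
    simp only [neg_add_cancel] at this
    have e2 : ∀ i, ev (sec (Ew^[8] s i) 0) = ev (s (i + 4)) := fun i => by
      rw [p8, comp1 _ (Nat.mod_lt _ (by omega))]; simp [s]
    simp only [e2] at this
    have a := shift (fun a b => a⁻¹ * b) (n + 1) 4 (fun i => ev (s i)) (i + 5)
    have b := shift (fun a b => a⁻¹ * b) (n + 1) (9 * 1) (fun i => ev (s i)) i
    simp only [congrFun (per 1)] at b
    exact b.trans (a.symm.trans this)
  have one : E^[1] (fun i => ev (s i)) ≠ 1 := fun e => by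
    rw [ev_E] at e
    have r := R_ev (Ew^[1] s 3)
    rw [congrFun e 3] at r
    exact absurd r.one.1 (by decide +kernel)
  induction n using Nat.strong_induction_on with
  | _ n ih =>
    intro e
    by_cases c : n ≤ 9
    · exact one (step 0 (E_mono e c))
    · exact ih (n - 9 + 1) (by omega) (step _ (E_mono e (by omega)))

lemma con (w : W) (y : A) : ∃ w' : W, ev w' = ev (sec w y) ∧
    ∀ p ∈ w'.head?, 8 * w'.length + hammingDist y (v p.1) ≤ w.length + 7 := by
  induction w generalizing y with
  | nil => exact ⟨[], rfl, by simp⟩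
  | cons p w ih =>
    obtain ⟨_ | a, k⟩ := p
    · obtain ⟨w', e, hw⟩ := ih y
      rw [sec, ev_append, ← e]
      rcases c : σ y with _ | l
      · exact ⟨w', by simp [ev], fun p hp => (hw p hp).trans (by simp)⟩
      obtain rfl : y = v l := by simpa using List.find?_some c
      rcases w' with _ | ⟨⟨l', k'⟩, w'⟩
      · exact ⟨[(l, k)], by simp [ev], by simp⟩
      have := hw _ rfl
      by_cases c : l = l'
      · subst c
        exact ⟨(l, k + k') :: w', by simp [ev, ← g_mul, mul_assoc], by simp at this ⊢; omega⟩
      · have := far _ _ c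
        exact ⟨(l, k) :: (l', k') :: w', by simp [ev], by simp at *; omega⟩
    · obtain ⟨w', e, hw⟩ := ih (y - Pi.single a k)
      refine ⟨w', e, fun p hp => ?_⟩
      have a1 := hw p hp
      have a2 := hammingDist_triangle y (y - Pi.single a k) (v p.1)
      have a3 : hammingDist y (y - Pi.single a k) ≤ 1 :=
        (Finset.card_le_card (t := {a}) fun j hj => by
          by_contra c
          simp at c
          simp [c] at hj).trans (by simp)
      simp only [List.length_cons]
      omega

def Good {G : Type*} [Group G] (y : ℕ → G) : Prop := ∀ i, y i * y (i + 1) * y (i + 2) = 1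

lemma Good.of_per {G : Type*} [Group G] {y : ℕ → G} (p : ∀ i, y (i + 3) = y i) : Good (E y) :=
  fun i => by simp [E, add_assoc, p, mul_assoc]

lemma Good.E {G : Type*} [Group G] {y : ℕ → G} (p : Good y) : Good (E y) := .of_per fun i => by
  have a := p i
  have b := p (i + 1)
  rw [mul_assoc, mul_eq_one_comm] at a
  exact mul_left_cancel (b.trans a.symm)

theorem die (n : ℕ) (w : ℕ → W) (hw : ∀ i, (w i).length ≤ n) (gd : Good fun i => ev (w i)) :
    ∃ k, E^[k] (fun i => ev (w i)) = 1 := by
  induction n using Nat.strong_induction_on generalizing w with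
  | _ n ih =>
  have len : ∀ i, (Ew^[2] w i).length ≤ 4 * n := fun i => by
    have := hw i
    have := hw (i + 1)
    have := hw (i + 1 + 1)
    simp [Ew, inv]
    omega
  have r : ∀ i, R (ev (Ew^[2] w i)) 0 fun x => ev (sec (Ew^[2] w i) x) := fun i => by
    have a := ((R_ev (w i)).mul (R_ev (w (i + 1)))).mul (R_ev (w (i + 2)))
    rw [gd i] at a
    have b := ((R_ev (w i)).inv.mul (R_ev (w (i + 1)))).inv.mul
      ((R_ev (w (i + 1))).inv.mul (R_ev (w (i + 2))))
    have c := R_ev (Ew^[2] w i)
    have e : α (Ew^[2] w i) = 0 := by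
      have d := (List.cons.inj ((c.2 0 []).symm.trans
        ((congrFun (congrArg DFunLike.coe (congrFun (ev_E 2 w) i).symm) _).trans (b.2 0 [])))).1
      have t : ∀ z : A, z + z + z = 0 := fun z => funext fun j => by
        simp only [Pi.add_apply, Pi.zero_apply]
        generalize z j = u
        revert u
        decide
      linear_combination d + a.one.1 - t (α (w (i + 1)))
    simpa only [e, add_zero] using c
  have g2 : Good fun i => ev (Ew^[2] w i) := ev_E 2 w ▸ gd.E.E
  have key : ∀ x, ∃ k, E^[k] (fun i => ev (sec (Ew^[2] w i) x)) = 1 := fun x => by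
    have g3 : Good fun i => ev (sec (Ew^[2] w i) x) := fun i => by
      have a := ((r i).mul (r (i + 1))).mul (r (i + 2))
      rw [g2 i] at a
      simpa using a.one.2 x
    choose w' e1 e2 using fun i => con (Ew^[2] w i) x
    simp only [← e1] at g3 ⊢
    by_cases c : 2 ≤ n
    · refine ih (n - 1) (by omega) w' (fun i => ?_) g3
      rcases e : w' i with _ | ⟨p, t⟩
      · simp
      · have := e2 i p (by simp [e])
        have := len i
        rw [← e]
        omega
    have : ∃ l, ∀ i, ∃ k, ev (w' i) = g (l, k) := by
      by_cases c : ∃ l, hammingDist x (v l) ≤ 3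
      all_goals
        first | obtain ⟨l, hl⟩ := c | have l : L := none
        refine ⟨l, fun i => ?_⟩
        rcases e : w' i with _ | ⟨⟨l', k⟩, t⟩
        · exact ⟨0, (Equiv.ext (act_zero l)).symm⟩
        have a := e2 i (l', k) (by simp [e])
        have b := len i
        simp only [e, List.length_cons] at a
      · obtain rfl : t = [] := List.length_eq_zero_iff.1 (by omega)
        obtain rfl : l = l' := by
          by_contra d
          have := far _ _ d
          have := hammingDist_triangle_left (v l) (v l') x
          omega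
        exact ⟨k, by simp [ev]⟩
      · exact (c ⟨l', by omega⟩).elim
    obtain ⟨l, hl⟩ := this
    choose k hk using hl
    refine ⟨2, funext fun i => ?_⟩
    have := g3 i
    simp only [Function.iterate_succ_apply', Function.iterate_zero_apply, E, hk, g_mul, g_inv,
      Pi.one_apply] at this ⊢
    rw [← this]
    congr 2
    have t : ∀ u : ZMod 3, u + u + u = 0 := by decide
    linear_combination -t (k (i + 1))
  choose k hk using key
  obtain ⟨N, hN⟩ := (Set.finite_range k).bddAbove
  refine ⟨N + 1 + 2, funext fun i => ?_⟩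
  rw [Function.iterate_add_apply, ev_E 2]
  exact (R_E r N i).triv fun x =>
    congrFun (E_mono (hk x) ((hN ⟨x, rfl⟩).trans (Nat.le_succ N))) i

lemma no_inv (t : List A) (w : W) (e : ev w * ev w = 1) : ev w t = t := by
  induction t generalizing w with
  | nil => exact (R_ev w).1
  | cons x t ih =>
    have r := (R_ev w).mul (R_ev w)
    rw [e] at r
    have z : α w = 0 := funext fun j => by
      have := congrFun r.one.1 j
      simp only [Pi.add_apply, Pi.zero_apply] at this ⊢
      generalize α w j = u at this
      revert u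
      decide
    have := r.one.2 x
    rw [(R_ev w).2]
    simp only [z, add_zero] at this ⊢
    rw [ih _ this]

end Pool.Agent.H71.Tree
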