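import Mathlib
import Pool.Agent.H71.Tree2

/-! A group without involutions in which a product of two Engel elements is not Engel. -/

namespace Pool.Agent.H71.Tree

open Equiv RegularWreathProduct

def Γ : Subgroup (Perm (List A)) where
  carrier := Set.range ev
  one_mem' := ⟨[], rfl⟩
  mul_mem' := by rintro _ _ ⟨w, rfl⟩ ⟨w', rfl⟩; exact ⟨_, ev_append w w'⟩
  inv_mem' := by rintro _ ⟨w, rfl⟩; exact ⟨_, ev_inv w⟩

lemma E_coe (n : ℕ) (y : ℕ → Γ) (i : ℕ) : (E^[n] y i).1 = E^[n] (fun i => (y i).1) i := by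
  induction n generalizing i with
  | zero => rfl
  | succ n ih => simp only [Function.iterate_succ_apply', E, ← ih]; rfl

lemma eng3 (y : ℕ → Γ) (p : ∀ i, y (i + 3) = y i) : ∃ k, E^[k] y = 1 := by
  choose w hw using fun i : Fin 3 => (E y i).2
  have e : ∀ i, ev (w ⟨i % 3, Nat.mod_lt _ (by omega)⟩) = (E y i).1 := fun i => by
    rw [hw]
    congr 1
    induction i using Nat.strong_induction_on with
    | _ i ih =>
      by_cases c : i < 3
      · simp [Nat.mod_eq_of_lt c]
      · obtain ⟨j, rfl⟩ := Nat.exists_eq_add_of_le' (not_lt.1 c)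
        simpa [E, p, add_right_comm _ 3 1] using ih j (by omega)
  obtain ⟨k, hk⟩ := die (Finset.univ.sup fun i => (w i).length)
    (fun i => w ⟨i % 3, Nat.mod_lt _ (by omega)⟩)
    (fun i => Finset.le_sup (f := fun i => (w i).length) (Finset.mem_univ _)) fun i => by
      simp only [e]
      exact congrArg Subtype.val (Good.of_per p i)
  refine ⟨k + 1, funext fun i => Subtype.ext ?_⟩
  rw [Function.iterate_succ_apply, E_coe, ← funext e, hk]
  rfl

def NoInv (G : Type) [Group G] : Prop := ∀ x : G, x * x = 1 → x = 1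

lemma NoInv.wr {D Q : Type} [Group D] [Group Q] (a : NoInv D) (b : NoInv Q) : NoInv (D ≀ᵣ Q) :=
  fun x e => by
    have r := b _ (congrArg right e)
    ext q
    · exact a _ (by simpa [r] using congrFun (congrArg left e) q)
    · exact r

def en {G : Type} [Group G] (c : G) (n : ℕ) (x : G) : G := (fun x : G => x⁻¹ * c⁻¹ * x * c)^[n] x

lemma en_base {D Q : Type} [Group D] [Group Q] (c : Q) (f : D ≀ᵣ Q) (hf : f.right = 1) (n : ℕ) :
    (en (inl c) n f).right = 1 ∧
      ∀ q i, (en (inl c) n f).left (c ^ i * q) = E^[n] (fun i => f.left (c ^ i * q)) i := by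
  induction n with
  | zero => exact ⟨hf, fun _ _ => rfl⟩
  | succ n ih =>
    simp only [en, Function.iterate_succ_apply'] at ih ⊢
    refine ⟨by simp [ih.1], fun q i => ?_⟩
    rw [E, ← ih.2, ← ih.2]
    simp [ih.1, pow_succ', mul_assoc c]

lemma en_right {D Q : Type} [Group D] [Group Q] (c : Q) (x : D ≀ᵣ Q) (n : ℕ) :
    (en (inl c) n x).right = en c n x.right := by
  induction n with
  | zero => rfl
  | succ n ih => simp only [en, Function.iterate_succ_apply'] at ih ⊢; simp [ih]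

abbrev C := Multiplicative (ZMod 3)
abbrev P := C ≀ᵣ C

instance : DecidableEq P := (equivProd C C).decidableEq

def c₁ : P := ⟨fun q => if q = 1 then .ofAdd 1 else 1, 1⟩
def c₂ : P := ⟨1, .ofAdd 1⟩

lemma engel (c : P) (h3 : c ^ 3 = 1) (he : ∀ x, en c 3 x = 1) (x : Γ ≀ᵣ P) :
    ∃ k, en (inl c) k x = 1 := by
  have r : (en (inl c) 3 x).right = 1 := by rw [en_right, he]
  choose k hk using fun q => eng3 (fun i => (en (inl c) 3 x).left (c ^ i * q)) fun i => by
    rw [pow_add, h3, mul_one]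
  obtain ⟨N, hN⟩ := (Set.finite_range k).bddAbove
  refine ⟨N + 3, ?_⟩
  rw [en, Function.iterate_add_apply]
  ext1
  · ext1 q
    have := (en_base c _ r N).2 q 0
    rw [E_mono (hk q) (hN ⟨q, rfl⟩), pow_zero, one_mul] at this
    exact this
  · exact (en_base c _ r N).1

theorem main : NoInv (Γ ≀ᵣ P) ∧ ∃ a b : Γ ≀ᵣ P, (∀ x, ∃ k, en a k x = 1) ∧
    (∀ x, ∃ k, en b k x = 1) ∧ ∃ x, ∀ k, en (a * b) k x ≠ 1 := by
  have nC : NoInv C := by unfold NoInv; decide
  refine ⟨NoInv.wr (fun ⟨_, w, rfl⟩ e => Subtype.ext (Equiv.ext fun t =>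
    no_inv t w (congrArg Subtype.val e))) (nC.wr nC), inl c₁, inl c₂,
    engel _ (by decide +kernel) fun ⟨f, t⟩ => by revert f t; decide +kernel,
    engel _ (by decide +kernel) fun ⟨f, t⟩ => by revert f t; decide +kernel, ?_⟩
  let φ : P → ℕ := fun q => ((List.range 9).find? fun i => (c₁ * c₂) ^ i = q).getD 0
  have h9 : (c₁ * c₂) ^ 9 = 1 := by decide +kernel
  have hφ : ∀ i < 9, φ ((c₁ * c₂) ^ i) = i := by decide +kernel
  refine ⟨⟨fun q => ⟨ev (s (φ q)), _, rfl⟩, 1⟩, fun k e => survive k (funext fun i => ?_)⟩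
  have := (en_base (c₁ * c₂) ⟨fun q => (⟨ev (s (φ q)), _, rfl⟩ : Γ), 1⟩ rfl k).2 1 i
  rw [← map_mul] at e
  rw [e] at this
  have b := congrArg Subtype.val this
  rw [E_coe] at b
  refine Eq.trans ?_ b.symm
  refine congrFun (congrArg _ (funext fun j => ?_)) i
  simp only [mul_one]
  rw [pow_eq_pow_mod j h9, hφ _ (Nat.mod_lt _ (by omega))]
  simp [s]

end Pool.Agent.H71.Tree
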