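import Pool.Agent.H71.Lel5
import Pool.Agent.H71.Atr1

set_option autoImplicit false

namespace Pool.Agent.H71.Tym

open Set Filter Topology Metric Pool.Agent.H71.Hag Pool.Agent.H71.Lel

variable {X : Type} [MetricSpace X]

def HLC (X : Type) [MetricSpace X] : Prop := ∀ L : Set X, Ct L → ∀ x ∈ L, ∀ r > 0,
  ∃ M, Ct M ∧ M ⊆ L ∩ ball x r ∧ ∃ r' > 0, L ∩ ball x r' ⊆ M

theorem infd {A B : Set X} {ε : ℝ} (hA : A.Nonempty) (h : ∀ u ∈ A, ∃ v ∈ B, dist u v ≤ ε) (d : X) :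
    infDist d B ≤ infDist d A + ε := by
  rw [← sub_le_iff_le_add, le_infDist hA]
  intro u hu
  obtain ⟨v, h1, h2⟩ := h u hu
  linarith [infDist_le_dist_of_mem (x := d) h1, dist_triangle d u v]

def Reg (X : Type) [MetricSpace X] : Prop := ∀ x : X, ∀ U : Set X, IsOpen U → x ∈ U →
  ∃ V : Set X, IsOpen V ∧ x ∈ V ∧ V ⊆ U ∧ (frontier V).Finite

theorem Reg.lc (h : Reg X) {M : Set X} (hM : IsPreconnected M) {m : X} (hm : m ∈ M) {δ : ℝ}
    (hδ : 0 < δ) : ∃ N ⊆ M ∩ ball m δ, IsPreconnected N ∧ ∀ᶠ y in 𝓝[M] m, y ∈ N := by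
  obtain ⟨V, h1, h2, h3, h4⟩ := h m _ isOpen_ball (mem_ball_self (half_pos hδ))
  let T := M ∩ closure V
  let I := {a ∈ frontier V | ∃ U W, Sep T U W ∧ m ∈ U ∧ a ∈ W}
  have hI : I.Finite := h4.subset (sep_subset _ _)
  choose! U W g1 g2 g3 using fun a (ha : a ∈ I) => ha.2
  have o1 : IsOpen (⋂ a ∈ I, U a) := hI.isOpen_biInter fun a ha => (g1 a ha).1
  have o2 : IsOpen (⋃ a ∈ I, W a) := isOpen_biUnion fun a ha => (g1 a ha).2.1
  have hmO : m ∈ ⋂ a ∈ I, U a := mem_biInter g2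
  refine ⟨T ∩ ⋂ a ∈ I, U a, fun x hx => ⟨hx.1.1, clo_ball hδ h3 hx.1.2⟩, ?_, ?_⟩
  swap
  · filter_upwards [self_mem_nhdsWithin, mem_nhdsWithin_of_mem_nhds ((h1.inter o1).mem_nhds ⟨h2, hmO⟩)]
      with y h5 h6 using ⟨⟨h5, subset_closure h6.1⟩, h6.2⟩
  have key : ∀ u v : Set X, IsOpen u → IsOpen v → T ∩ ⋂ a ∈ I, U a ⊆ u ∪ v →
      (T ∩ ⋂ a ∈ I, U a) ∩ (u ∩ v) = ∅ → m ∈ u → T ∩ ⋂ a ∈ I, U a ⊆ u := by
    intro u v hu hv hc hd hmu b hb
    by_contra hn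
    have s1 : Sep T (u ∩ (⋂ a ∈ I, U a) ∪ ⋃ a ∈ I, W a) (v ∩ ⋂ a ∈ I, U a) := by
      refine ⟨(hu.inter o1).union o2, hv.inter o1, fun x hx => ?_, ?_⟩
      · by_cases h5 : x ∈ ⋂ a ∈ I, U a
        · exact (hc ⟨hx, h5⟩).imp (fun h => Or.inl ⟨h, h5⟩) fun h => ⟨h, h5⟩
        · simp only [mem_iInter, not_forall] at h5
          obtain ⟨a, h6, h7⟩ := h5
          exact Or.inl (Or.inr (mem_biUnion h6 (((g1 a h6).2.2.1 hx).resolve_left h7)))
      · rintro x hx (h5 | h5) h6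
        · exact (hd.subset ⟨⟨hx, h5.2⟩, h5.1, h6.1⟩ :)
        · obtain ⟨a, h7, h8⟩ := mem_iUnion₂.1 h5
          exact (g1 a h7).2.2.2 x hx (mem_iInter₂.1 h6.2 a h7) h8
    have s2 : ∀ x ∈ T, x ∈ v ∩ ⋂ a ∈ I, U a → x ∈ V := fun x hx h5 => by_contra fun h6 => by
      have h7 : x ∈ I := ⟨by rw [h1.frontier_eq]; exact ⟨hx.2, h6⟩, _, _, s1, Or.inl ⟨hmu, hmO⟩, h5⟩
      exact (g1 x h7).2.2.2 x hx (mem_iInter₂.1 h5.2 x h7) (g3 x h7)
    have h5 : b ∈ v ∩ ⋂ a ∈ I, U a := ⟨(hc hb).resolve_left hn, hb.2⟩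
    obtain ⟨x, x1, x2, x3⟩ := hM _ _ (s1.2.1.inter h1) (s1.1.union isClosed_closure.isOpen_compl)
      (fun x hx => (em (x ∈ closure V)).elim (fun h => (s1.2.2.1 ⟨hx, h⟩).symm.imp
        (fun h' => ⟨h', s2 x ⟨hx, h⟩ h'⟩) Or.inl) fun h => Or.inr (Or.inr h))
      ⟨b, hb.1.1, h5, s2 b hb.1 h5⟩ ⟨m, hm, Or.inl (Or.inl ⟨hmu, hmO⟩)⟩
    exact x3.elim (fun h => s1.2.2.2 x ⟨x1, subset_closure x2.2⟩ h x2.1) fun h => h (subset_closure x2.2)
  refine isPreconnected_iff_subset_of_disjoint.2 fun u v hu hv hc hd => ?_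
  exact (hc ⟨⟨hm, subset_closure h2⟩, hmO⟩).imp (key u v hu hv hc hd)
    (key v u hv hu (by rwa [union_comm]) (by rwa [inter_comm v]))

def Sim (S : Set X) (a b : X) : Prop := ∃ C, Ct C ∧ C ⊆ S ∧ a ∈ C ∧ b ∈ C

theorem Sim.symm {S : Set X} {a b : X} (h : Sim S a b) : Sim S b a :=
  h.imp fun _ h => ⟨h.1, h.2.1, h.2.2.2, h.2.2.1⟩

theorem Sim.trans {S : Set X} {a b c : X} (h : Sim S a b) (h' : Sim S b c) : Sim S a c := by
  obtain ⟨C, h1, h2, h3, h4⟩ := h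
  obtain ⟨D, g1, g2, g3, g4⟩ := h'
  exact ⟨C ∪ D, h1.un g1 h4 g3, union_subset h2 g2, Or.inl h3, Or.inr g4⟩

theorem sim_refl {S : Set X} {a : X} (h : a ∈ S) : Sim S a a :=
  ⟨{a}, ct_pt a, singleton_subset_iff.2 h, rfl, rfl⟩

theorem Sim.mem {S : Set X} {a b : X} (h : Sim S a b) : b ∈ S := by
  obtain ⟨C, -, h2, -, h4⟩ := h; exact h2 h4

theorem sim_pre (S : Set X) (a : X) : IsPreconnected {b | Sim S a b} :=
  isPreconnected_of_forall a fun _ ⟨C, h1, h2, h3, h4⟩ =>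
    ⟨C, fun _ hz => ⟨C, h1, h2, h3, hz⟩, h3, h4, h1.2⟩

theorem sim_eq {S : Set X} {a b z : X} (h : Sim S a z) (h' : Sim S b z) :
    {c | Sim S a c} = {c | Sim S b c} :=
  Set.ext fun _ => ⟨fun g => (h'.trans h.symm).trans g, fun g => (h.trans h'.symm).trans g⟩

theorem pig {α : Type} {I : Set ℕ} (hI : I.Infinite) {t : Set α} (ht : t.Finite) {J : α → Set ℕ}
    (h : ∀ n ∈ I, ∃ w ∈ t, n ∈ J w) : ∃ w ∈ t, (I ∩ J w).Infinite := by
  by_contra hc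
  push Not at hc
  refine hI ((ht.biUnion hc).subset fun n hn => ?_)
  obtain ⟨w, h1, h2⟩ := h n hn
  exact mem_biUnion h1 ⟨hn, h2⟩

variable [CompactSpace X]

theorem arc (h : HLC X) {H : Set X} (hH : Ct H) {x y : X} (hx : x ∈ H) (hy : y ∈ H) (hne : x ≠ y) :
    ∃ γ : unitInterval → X, Continuous γ ∧ Function.Injective γ ∧ γ 0 = x ∧ γ 1 = y ∧
      range γ ⊆ H := by
  obtain ⟨M, hMH, hM, ⟨hxM, hyM⟩, hmin⟩ := exmin (fun C => x ∈ C ∧ y ∈ C)
    (fun c _ _ h => ⟨fun L hL => (h L hL).2.1, fun L hL => (h L hL).2.2⟩) hH ⟨hx, hy⟩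
  let L : X → X → Set X := fun a z => insert z {u | Sim (M \ {z}) a u}
  have hLM : ∀ a, ∀ z ∈ M, L a z ⊆ M := fun a z hz => insert_subset hz fun u hu => (Sim.mem hu).1
  have l0 : ∀ a z, ∀ w ∈ M, w ≠ z → ∀ᶠ u in 𝓝[M] w, (Sim (M \ {z}) a w ↔ Sim (M \ {z}) a u) := by
    intro a z w hw hwz
    obtain ⟨N, h1, h2, r, h3, h4⟩ := h M hM w hw _ (dist_pos.2 hwz)
    filter_upwards [self_mem_nhdsWithin, mem_nhdsWithin_of_mem_nhds (ball_mem_nhds w h3)] with u h5 h6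
    have : Sim (M \ {z}) w u := ⟨N, h1, fun v hv => ⟨(h2 hv).1, fun h7 => by
      have := mem_ball'.1 (h2 hv).2
      rw [show v = z from h7] at this; exact this.false⟩, h4 ⟨hw, mem_ball_self h3⟩, h4 ⟨h5, h6⟩⟩
    exact ⟨fun h => h.trans this, fun h => h.trans this.symm⟩
  have l1 : ∀ a ∈ M, ∀ z, a ∈ L a z := fun a ha z =>
    (em (a = z)).imp_right fun h => sim_refl ⟨ha, h⟩
  have l2 : ∀ a ∈ M, ∀ z ∈ M, Ct (L a z) := by
    intro a ha z hz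
    refine ⟨isClosed_of_closure_subset fun w hw => (em (w = z)).imp_right fun h1 => ?_, ?_⟩
    · have h2 : w ∈ M := closure_minimal (hLM a z hz) hM.1 hw
      rw [show L a z = {z} ∪ {u | Sim (M \ {z}) a u} from rfl, closure_union, closure_singleton] at hw
      obtain ⟨u, h3, h4⟩ := mem_closure_iff_nhdsWithin_neBot.1 (hw.resolve_left h1) |>.nonempty_of_mem
        (inter_mem (nhdsWithin_mono w (fun u hu => (Sim.mem hu).1) (l0 a z w h2 h1))
          self_mem_nhdsWithin)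
      exact h3.2 h4
    by_cases h1 : a = z
    · have : L a z = {z} := Subset.antisymm (insert_subset rfl fun u hu =>
        absurd h1 (Sim.mem (Sim.symm hu)).2) (singleton_subset_iff.2 (Or.inl rfl))
      rw [this]; exact isPreconnected_singleton
    refine (sim_pre _ a).subset_closure (subset_insert _ _) (insert_subset ?_ subset_closure)
    by_contra h2
    refine (Sim.mem ((hM.2.induction₂ (fun u v => Sim (M \ {z}) a u ↔ Sim (M \ {z}) a v) (fun w hw => ?_)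
      (fun _ _ _ _ _ _ => Iff.trans) (fun _ _ _ _ => Iff.symm) ha hz).1 (sim_refl ⟨ha, h1⟩))).2 rfl
    by_cases h3 : w = z
    · subst h3
      filter_upwards [mem_nhdsWithin_of_mem_nhds (isClosed_closure.isOpen_compl.mem_nhds h2)] with u hu
      exact iff_of_false (fun h => h.mem.2 rfl) fun h => hu (subset_closure h)
    · exact l0 a z w hw h3
  have l3 : ∀ z ∈ M, ∀ C, Ct C → C ⊆ M → x ∈ C → z ∈ C → L x z ⊆ C := by
    intro z hz C h1 h2 h3 h4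
    have h5 := hmin _ (union_subset h2 (hLM y z hz)) (h1.un (l2 y hyM z hz) h4 (Or.inl rfl))
      ⟨Or.inl h3, Or.inr (l1 y hyM z)⟩
    refine insert_subset h4 fun u hu => ?_
    rcases h5.symm.subset (Sim.mem hu).1 with h6 | h6 | h6
    · exact h6
    · exact h6 ▸ h4
    · obtain ⟨D, d1, d2, d3, d4⟩ := Sim.trans hu (Sim.symm h6)
      exact absurd rfl (d2 ((hmin D (fun v hv => (d2 hv).1) d1 ⟨d3, d4⟩).symm.subset hz)).2
  have l4 : ∀ z ∈ M, ∀ z' ∈ M, z ≠ z' → z ∈ L x z' ∨ z' ∈ L x z := by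
    intro z hz z' hz' hne
    by_contra hc
    push Not at hc
    exact hc.1 (Or.inr ⟨_, l2 x hxM z hz, fun v hv => ⟨hLM x z hz hv, fun h =>
      hc.2 (by rwa [← show v = z' from h])⟩, l1 x hxM z, Or.inl rfl⟩)
  have : Nonempty X := ⟨x⟩
  let d := TopologicalSpace.denseSeq X
  let t : ℕ → X → ℝ := fun n z => (1 / 2) ^ n * infDist (d n) (L x z)
  have tb : ∀ n, ∀ z ∈ M, ‖t n z‖ ≤ (1 / 2) ^ n * diam (univ : Set X) := fun n z hz => by
    rw [Real.norm_of_nonneg (mul_nonneg (by positivity) infDist_nonneg)]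
    exact mul_le_mul_of_nonneg_left ((infDist_le_dist_of_mem (l1 x hxM z)).trans
      (dist_le_diam_of_mem isBounded_of_compactSpace trivial trivial)) (by positivity)
  have sm : Summable fun n : ℕ => (1 / 2 : ℝ) ^ n * diam (univ : Set X) :=
    summable_geometric_two.mul_right _
  have gc : ContinuousOn (fun z => ∑' n, t n z) M := by
    refine continuousOn_tsum (fun n => ContinuousOn.mul continuousOn_const fun z hz => ?_) sm tb
    refine Metric.continuousWithinAt_iff'.2 fun ε hε => ?_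
    obtain ⟨N, h1, h2, r, h3, h4⟩ := h M hM z hz _ (show 0 < ε / 4 by linarith)
    filter_upwards [self_mem_nhdsWithin, mem_nhdsWithin_of_mem_nhds (ball_mem_nhds z h3)] with u h5 h6
    have key : ∀ a ∈ N, ∀ b ∈ N, infDist (d n) (L x b) ≤ infDist (d n) (L x a) + ε / 2 := by
      intro a ha b hb
      refine infd ⟨a, Or.inl rfl⟩ (fun v hv => ?_) _
      rcases l3 a (h2 ha).1 _ ((l2 x hxM b (h2 hb).1).un h1 (Or.inl rfl) hb)
        (union_subset (hLM x b (h2 hb).1) fun w hw => (h2 hw).1) (Or.inl (l1 x hxM b)) (Or.inr ha) hv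
        with h7 | h7
      · exact ⟨v, h7, by simp; linarith⟩
      · exact ⟨b, Or.inl rfl, by
          linarith [mem_ball.1 (h2 h7).2, mem_ball.1 (h2 hb).2, dist_triangle_right v b z]⟩
    have h7 := h4 ⟨hz, mem_ball_self h3⟩
    have h8 := h4 ⟨h5, h6⟩
    rw [Real.dist_eq, abs_lt]
    constructor <;> linarith [key u h8 z h7, key z h7 u h8]
  have lt : ∀ z ∈ M, ∀ z' ∈ M, z ≠ z' → z ∈ L x z' → ∑' n, t n z' < ∑' n, t n z := by
    rintro z hz z' hz' hne (h1 | ⟨C, c1, c2, c3, c4⟩)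
    · exact absurd h1 hne
    have h2 := l3 z hz C c1 (fun v hv => (c2 hv).1) c3 c4
    have h3 : L x z ⊆ L x z' := fun v hv => Or.inr ⟨C, c1, c2, c3, h2 hv⟩
    have h4 : 0 < infDist z' (L x z) := ((l2 x hxM z hz).1.notMem_iff_infDist_pos ⟨z, Or.inl rfl⟩).1
      fun h => (c2 (h2 h)).2 rfl
    obtain ⟨n, h5⟩ := (TopologicalSpace.denseRange_denseSeq X).exists_dist_lt z' (half_pos h4)
    refine Summable.tsum_lt_tsum (i := n) (fun n => mul_le_mul_of_nonneg_left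
      (infDist_le_infDist_of_subset h3 ⟨z, Or.inl rfl⟩) (by positivity))
      (mul_lt_mul_of_pos_left ?_ (by positivity)) (.of_norm_bounded sm fun n => tb n z' hz')
      (.of_norm_bounded sm fun n => tb n z hz)
    linarith [infDist_le_dist_of_mem (x := d n) (show z' ∈ L x z' from Or.inl rfl),
      infDist_le_infDist_add_dist (x := z') (y := d n) (s := L x z), dist_comm (d n) z']
  have : CompactSpace M := isCompact_iff_compactSpace.1 hM.1.isCompact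
  let g : M → ℝ := fun z => ∑' n, t n z
  have hg : IsEmbedding g := (Continuous.isClosedEmbedding gc.domRestrict fun z z' h1 => by
    by_contra h2
    have h3 : z.1 ≠ z'.1 := fun h => h2 (Subtype.ext h)
    exact (l4 z z.2 z' z'.2 h3).elim (fun h => (lt z z.2 z' z'.2 h3 h).ne' h1)
      fun h => (lt z' z'.2 z z.2 h3.symm h).ne h1).isEmbedding
  have h1 := lt x hxM y hyM hne (l1 x hxM y)
  have h2 : ∀ s : unitInterval, g ⟨x, hxM⟩ + s * (g ⟨y, hyM⟩ - g ⟨x, hxM⟩) ∈ range g := fun s => by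
    obtain ⟨z, h3, h4⟩ := hM.2.intermediate_value hyM hxM gc
      (show g ⟨x, hxM⟩ + s * (g ⟨y, hyM⟩ - g ⟨x, hxM⟩) ∈ Icc (g ⟨y, hyM⟩) (g ⟨x, hxM⟩) from
        ⟨by nlinarith [s.2.2], by nlinarith [s.2.1]⟩)
    exact ⟨⟨z, h3⟩, h4⟩
  refine ⟨fun s => (hg.toHomeomorph.symm ⟨_, h2 s⟩).1, by fun_prop, fun a b hab => ?_, ?_, ?_, ?_⟩
  · have h3 := congrArg Subtype.val (hg.toHomeomorph.symm.injective (Subtype.ext hab))
    exact Subtype.ext (mul_right_cancel₀ (sub_ne_zero.2 h1.ne) (add_left_cancel h3))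
  · exact congrArg Subtype.val (hg.toHomeomorph.symm_apply_eq.2 (Subtype.ext (by simp)) :
      _ = (⟨x, hxM⟩ : M))
  · exact congrArg Subtype.val (hg.toHomeomorph.symm_apply_eq.2 (Subtype.ext (by simp)) :
      _ = (⟨y, hyM⟩ : M))
  · rintro _ ⟨s, rfl⟩; exact hMH (Subtype.prop _)

theorem locfin (hN : Nul X) (S : Set X) (a w : X) {ε : ℝ} (hε : 0 < ε) {I : Set ℕ} (hI : I.Infinite)
    {u : ℕ → X} (h : ∀ n ∈ I, Sim S a (u n) ∧ u n ∈ ball w (ε / 4)) :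
    ∃ j ∈ I, ∃ n ∈ I, j < n ∧ Sim (S ∩ ball w ε) (u j) (u n) := by
  let T : Set (Set X) := {C | ∃ b, (Sim S a b ∧ b ∈ ball w (ε / 4)) ∧ C = {c | Sim (S ∩ ball w ε) b c}}
  have hT : T.Finite := by
    refine ((hN.fin (ε := ε / 4) (S := T \ {{c | Sim S a c}}) (by linarith) ?_ ?_ ?_).union
      (finite_singleton {c | Sim S a c})).subset (by rw [sdiff_union_self]; exact subset_union_left)
    · rintro _ ⟨⟨y, -, rfl⟩, -⟩; exact sim_pre _ _
    · rintro _ ⟨⟨y, -, rfl⟩, -⟩ _ ⟨⟨y', -, rfl⟩, -⟩ z h1 h2; exact sim_eq h1 h2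
    · rintro _ ⟨⟨b, h1, rfl⟩, h2⟩
      have h3 : closedBall w (ε / 2) ⊆ ball w ε := closedBall_subset_ball (by linarith)
      have h4 : b ∈ closedBall w (ε / 2) := ball_subset_closedBall (ball_subset_ball (by linarith) h1.2)
      refine ⟨b, sim_refl ⟨h1.1.mem, h3 h4⟩, by_contra fun hc => h2 (Subset.antisymm ?_ fun c hc' => ?_)⟩
      · rintro c ⟨C, c1, c2, c3⟩; exact h1.1.trans ⟨C, c1, fun v hv => (c2 hv).1, c3⟩
      obtain ⟨C, c1, c2, c3, c4⟩ := h1.1.symm.trans hc'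
      by_cases h5 : C ⊆ closedBall w (ε / 2)
      · exact ⟨C, c1, subset_inter c2 (h5.trans h3), c3, c4⟩
      obtain ⟨z, h6, h7⟩ := bb c1 isClosed_closedBall c3 h4 h5
      refine (hc ⟨z, ⟨_, cc_ct (c1.1.inter isClosed_closedBall) b,
        (cc_sub _ _).trans (inter_subset_inter c2 h3), mem_cc ⟨c3, h4⟩, h6⟩, ?_⟩).elim
      have h8 : ε / 2 ≤ dist z w := not_lt.1 fun h => h7 (ball_subset_interior_closedBall h)
      linarith [dist_triangle_left z w b, mem_ball.1 h1.2]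
  obtain ⟨j, h1, n, h2, h3, h4⟩ := hI.exists_lt_map_eq_of_mapsTo
    (f := fun n => {c | Sim (S ∩ ball w ε) (u n) c}) (t := T) (fun n hn => ⟨_, h n hn, rfl⟩) hT
  exact ⟨j, h1, n, h2, h3, h4.symm.subset
    (sim_refl ⟨(h n h2).1.mem, ball_subset_ball (by linarith) (h n h2).2⟩)⟩

theorem bigfin (hN : Nul X) (S : Set X) {ε : ℝ} (hε : 0 < ε) :
    {C | (∃ a, C = {c | Sim S a c}) ∧ ∃ u ∈ C, ∃ v ∈ C, ε ≤ dist u v}.Finite := by
  refine hN.fin hε ?_ ?_ fun C h => h.2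
  · rintro _ ⟨⟨y, rfl⟩, -⟩; exact sim_pre _ _
  · rintro _ ⟨⟨y, rfl⟩, -⟩ _ ⟨⟨y', rfl⟩, -⟩ z h1 h2; exact sim_eq h1 h2

theorem vlem (hN : Nul X) {S : Set X} {u : ℕ → X} (hu : ∀ n, u n ∈ S) : ∃ R : ℕ → Set X,
    (∀ n, R n ⊆ {c | Sim S (u n) c} ∧ u n ∈ R n) ∧
    (∀ a, IsPreconnected (⋃ n ∈ {n | Sim S a (u n)}, R n)) ∧
    ∀ I, closure (⋃ n ∈ I, R n) ⊆ (⋃ n ∈ I, R n) ∪ closure (u '' I) := by
  classical
  let A : ℕ → Set (Set X) := fun n => {C | Ct C ∧ C ⊆ S ∧ u n ∈ C ∧ ∃ j < n, u j ∈ C}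
  have : ∀ n, ∃ R, Ct R ∧ R ⊆ S ∧ u n ∈ R ∧ ((A n).Nonempty → ∃ j < n, u j ∈ R) ∧
      (diam R = 0 ∨ (A n).Nonempty) ∧ ∀ C ∈ A n, diam R ≤ diam C + 1 / ((n : ℝ) + 1) := by
    intro n
    rcases (A n).eq_empty_or_nonempty with h | h
    · exact ⟨{u n}, ct_pt _, singleton_subset_iff.2 (hu n), rfl, by simp [h], by simp, by simp [h]⟩
    obtain ⟨_, ⟨R, h1, rfl⟩, h2⟩ := exists_lt_of_csInf_lt (h.image diam)
      (lt_add_of_pos_right _ (Nat.one_div_pos_of_nat (n := n)))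
    refine ⟨R, h1.1, h1.2.1, h1.2.2.1, fun _ => h1.2.2.2, Or.inr h, fun C hC => h2.le.trans ?_⟩
    gcongr
    exact csInf_le ⟨0, by rintro _ ⟨_, -, rfl⟩; exact diam_nonneg⟩ ⟨C, hC, rfl⟩
  choose R r1 r2 r3 r4 r5 r6 using this
  have r7 : ∀ n, R n ⊆ {c | Sim S (u n) c} := fun n c hc => ⟨_, r1 n, r2 n, r3 n, hc⟩
  have nul : ∀ ε > 0, {n | ¬ R n ⊆ ball (u n) ε}.Finite := by
    intro ε hε
    by_contra hI
    obtain ⟨_, ⟨⟨a, rfl⟩, -⟩, h1⟩ := pig hI (bigfin hN S hε) (J := fun C => {n | u n ∈ C}) (by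
      intro n hn
      obtain ⟨z, h1, h2⟩ := not_subset.1 hn
      exact ⟨_, ⟨⟨u n, rfl⟩, z, r7 n h1, u n, sim_refl (hu n), not_lt.1 h2⟩, sim_refl (hu n)⟩)
    obtain ⟨t, -, h2, h3⟩ := finite_cover_balls_of_compact (isCompact_univ (X := X))
      (show 0 < ε / 4 / 4 by linarith)
    obtain ⟨w, -, h4⟩ := pig h1 h2 (J := fun w => {n | u n ∈ ball w (ε / 4 / 4)}) fun n _ => by
      simpa using h3 (mem_univ (u n))
    obtain ⟨N, h5⟩ := exists_nat_one_div_lt (show 0 < ε / 4 by linarith)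
    obtain ⟨j, -, n, h6, h7, C, c1, c2, c3, c4⟩ := locfin hN S a w (show 0 < ε / 4 by linarith)
      (h4.sdiff (finite_Iio N)) fun n hn => ⟨hn.1.1.2, hn.1.2⟩
    refine h6.1.1.1 fun z hz => ?_
    have h8 := r6 n C ⟨c1, fun v hv => (c2 hv).1, c4, j, h7, c3⟩
    have h9 := (diam_mono (fun v hv => (c2 hv).2) isBounded_ball).trans (diam_ball (by linarith))
    have h10 := dist_le_diam_of_mem isBounded_of_compactSpace hz (r3 n)
    have h11 := Nat.one_div_le_one_div (α := ℝ) (not_lt.1 h6.2)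
    rw [mem_ball]; linarith
  refine ⟨R, fun n => ⟨r7 n, r3 n⟩, fun a => ?_, fun I w hw => (em _).symm.imp_left fun h => ?_⟩
  · by_cases h : ∃ n, Sim S a (u n)
    swap
    · rw [show {n | Sim S a (u n)} = ∅ from eq_empty_of_forall_notMem fun n hn => h ⟨n, hn⟩]
      simpa using isPreconnected_empty
    have key : ∀ n, Sim S a (u n) → ∃ t ⊆ ⋃ n ∈ {n | Sim S a (u n)}, R n,
        u (Nat.find h) ∈ t ∧ R n ⊆ t ∧ IsPreconnected t := by
      intro n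
      induction n using Nat.strong_induction_on with
      | _ n ih =>
      intro hn
      rcases (Nat.find_min' h hn).eq_or_lt with h1 | h1
      · exact ⟨R n, subset_biUnion_of_mem (u := R) hn, h1 ▸ r3 _, Subset.rfl, (r1 n).2⟩
      obtain ⟨C, c1, c2, c3, c4⟩ := (Nat.find_spec h).symm.trans hn
      obtain ⟨j, h2, h3⟩ := r4 n ⟨C, c1, c2, c4, _, h1, c3⟩
      obtain ⟨t, t1, t2, t3, t4⟩ := ih j h2 (hn.trans (r7 n h3))
      exact ⟨t ∪ R n, union_subset t1 (subset_biUnion_of_mem (u := R) hn), Or.inl t2,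
        subset_union_right, t4.union _ (t3 (r3 j)) h3 (r1 n).2⟩
    refine isPreconnected_of_forall (u (Nat.find h)) fun y hy => ?_
    obtain ⟨n, h1, h2⟩ := mem_iUnion₂.1 hy
    obtain ⟨t, t1, t2, t3, t4⟩ := key n h1
    exact ⟨t, t1, t2, t3 h2, t4⟩
  obtain ⟨ρ, h1, h2⟩ := Metric.isOpen_iff.1 isClosed_closure.isOpen_compl w h
  have h3 := (nul _ (half_pos h1)).inter_of_right I
  refine biUnion_subset_biUnion_left inter_subset_left (closure_minimal ?_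
    (h3.isClosed_biUnion fun n _ => (r1 n).1)
    (isOpen_ball.inter_closure ⟨mem_ball_self (half_pos h1), hw⟩))
  rintro z ⟨h4, h5⟩
  obtain ⟨n, h6, h7⟩ := mem_iUnion₂.1 h5
  refine mem_biUnion ⟨h6, fun h8 => h2 (a := u n) ?_ (subset_closure ⟨n, h6, rfl⟩)⟩ h7
  rw [mem_ball]; linarith [mem_ball.1 h4, mem_ball.1 (h8 h7), dist_triangle_left (u n) w z]

theorem sim_clo (hN : Nul X) {S : Set X} {a w : X} (hw : w ∈ S) (h : w ∈ closure {c | Sim S a c}) :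
    Sim S a w := by
  obtain ⟨u, h1, h2⟩ := mem_closure_iff_seq_limit.1 h
  obtain ⟨R, r1, r2, r3⟩ := vlem hN (u := u) fun n => Sim.mem (h1 n)
  have h3 : ∀ n, u n ∈ ⋃ n ∈ {n | Sim S a (u n)}, R n := fun n => mem_biUnion (h1 n) (r1 n).2
  refine Sim.trans (h1 0) ⟨_, ⟨isClosed_closure, (r2 a).closure⟩, fun z hz => ?_, subset_closure (h3 0),
    mem_closure_of_tendsto h2 (Eventually.of_forall h3)⟩
  rcases r3 _ hz with h4 | h4
  · obtain ⟨n, -, h5⟩ := mem_iUnion₂.1 h4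
    exact Sim.mem ((r1 n).1 h5)
  · rcases closure_minimal ((image_subset_range _ _).trans (subset_insert w _))
      h2.isCompact_insert_range.isClosed h4 with rfl | ⟨n, rfl⟩
    exacts [hw, Sim.mem (h1 n)]

theorem part (hN : Nul X) {S E : Set X} (hE : IsClosed E) (hS : E ⊆ S) {x y : X} (hx : x ∈ E)
    (hy : y ∈ E) (h : ¬ Sim S x y) : ∃ A B, IsClosed A ∧ IsClosed B ∧ A ∪ B = E ∧ x ∈ A ∧ y ∈ B ∧
      ∀ u ∈ A, ∀ v ∈ B, ¬ Sim S u v := by
  obtain ⟨𝒪, hB⟩ := exO (X := X)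
  let T := {t ∈ 𝒪 ×ˢ 𝒪 | ∃ p : X × X, p.1 ∈ E ∩ t.1 ∧ p.2 ∈ E ∩ t.2 ∧ Sim S p.1 p.2}
  have hT : T.Countable := (hB.1.prod hB.1).mono (sep_subset _ _)
  have : Nonempty (X × X) := ⟨(x, x)⟩
  choose! p p1 p2 p3 using fun t (ht : t ∈ T) => ht.2
  obtain ⟨u, hu⟩ := (((hT.image fun t => (p t).1).union (hT.image fun t => (p t).2)).insert x).exists_eq_range
    (insert_nonempty _ _)
  have huE : range u ⊆ E := by
    rw [← hu]
    rintro _ (rfl | ⟨t, ht, rfl⟩ | ⟨t, ht, rfl⟩)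
    exacts [hx, (p1 t ht).1, (p2 t ht).1]
  obtain ⟨R, r1, r2, r3⟩ := vlem hN (u := u) fun n => hS (huE ⟨n, rfl⟩)
  have h1 : IsClosed (E ∪ ⋃ n ∈ univ, R n) := isClosed_of_closure_subset (by
    rw [closure_union, hE.closure_eq]
    refine union_subset subset_union_left fun z hz => (r3 _ hz).symm.imp_left fun h => ?_
    exact closure_minimal ((image_subset_range _ _).trans huE) hE h)
  obtain ⟨P, Q, h2, h3, h4, h5, h6, h7⟩ := Atr.sepcc h1 (isClosed_singleton (x := y)) (ct_pt x) rfl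
    (singleton_subset_iff.2 (Or.inl hx)) (by
      rintro ⟨_, h2, rfl⟩
      exact h ⟨_, cc_ct h1 x, (cc_sub _ _).trans (union_subset hS (iUnion₂_subset fun n _ z hz =>
        Sim.mem ((r1 n).1 hz))), mem_cc (Or.inl hx), h2⟩)
  have h8 : E ⊆ P ∪ Q := h5 ▸ subset_union_left
  refine ⟨E ∩ P, E ∩ Q, hE.inter h2, hE.inter h3, by rw [← inter_union_distrib_left, inter_eq_left.2 h8],
    ⟨hx, (h8 hx).resolve_right fun h => h7 x h rfl⟩, ⟨hy, (h8 hy).resolve_left fun h => h6 y h rfl⟩,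
    fun a ha b hb hab => ?_⟩
  obtain ⟨O, o1, o2, o3⟩ := hB.2.2 {a} _ isClosed_singleton h3.isOpen_compl
    (singleton_subset_iff.2 (h4 a ha.2))
  obtain ⟨O', o1', o2', o3'⟩ := hB.2.2 {b} _ isClosed_singleton h2.isOpen_compl
    (singleton_subset_iff.2 fun h => h4 b h hb.2)
  have ht : (O, O') ∈ T := ⟨⟨o1, o1'⟩, (a, b), ⟨ha.1, o2 rfl⟩, ⟨hb.1, o2' rfl⟩, hab⟩
  obtain ⟨i, hi⟩ := hu.subset (Or.inr (Or.inl ⟨_, ht, rfl⟩))
  obtain ⟨j, hj⟩ := hu.subset (Or.inr (Or.inr ⟨_, ht, rfl⟩))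
  have q1 := p1 _ ht
  have q2 := p2 _ ht
  have q3 := p3 _ ht
  simp only at hi hj
  rw [← hi] at q1 q3
  rw [← hj] at q2 q3
  obtain ⟨z, -, z1, z2⟩ := isPreconnected_closed_iff.1 (r2 (u i)) P Q h2 h3
    (h5 ▸ (biUnion_subset_biUnion_left (subset_univ _)).trans subset_union_right)
    ⟨_, mem_biUnion (sim_refl (hS q1.1)) (r1 i).2,
      (h8 q1.1).resolve_right (o3 (subset_closure q1.2))⟩
    ⟨_, mem_biUnion q3 (r1 j).2, (h8 q2.1).resolve_left (o3' (subset_closure q2.2))⟩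
  exact h4 z z1 z2

end Pool.Agent.H71.Tym
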