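import Pool.Agent.H71.Tym1

set_option autoImplicit false

namespace Pool.Agent.H71.Tym

open Set Filter Topology Metric Relation Pool.Agent.H71.Hag Pool.Agent.H71.Lel

variable {X : Type} [MetricSpace X]

def Bad (S : Set X) (e : X × X × Set X) : Prop :=
  e.2.2 ⊆ S ∧ IsPreconnected e.2.2 ∧ e.1 ∈ e.2.2 ∧ e.2.1 ∈ e.2.2 ∧ ¬ Sim S e.1 e.2.1

def Spl (S : Set X) (x y : X) (T : Set (Set X)) : Prop := ∃ A B, IsClosed A ∧ IsClosed B ∧
  Disjoint A B ∧ x ∈ A ∧ y ∈ B ∧ (∀ w, (∀ M ∈ T, w ∈ closure M) → w ∈ A ∪ B) ∧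
    ∀ a, ∀ u ∈ A, ∀ v ∈ B, u ∈ closure {c | Sim S a c} → v ∉ closure {c | Sim S a c}

def Rl (S : Set X) (E : Set (X × X × Set X)) (G : Set X) : X → X → Prop :=
  EqvGen fun a b => Sim S a b ∨ ∃ M ⊆ G, (a, b, M) ∈ E

theorem Rl.ind {S G : Set X} {E : Set (X × X × Set X)} {r : X → X → Prop} (hr : Equivalence r)
    (h1 : ∀ a b, Sim S a b → r a b) (h2 : ∀ e ∈ E, e.2.2 ⊆ G → r e.1 e.2.1) {a b : X}
    (h : Rl S E G a b) : r a b := by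
  induction h with
  | rel a b h => exact h.elim (h1 a b) fun ⟨M, h3, h4⟩ => h2 _ h4 h3
  | refl a => exact hr.refl a
  | symm a b _ ih => exact hr.symm ih
  | trans a b c _ _ ih ih' => exact hr.trans ih ih'

theorem Rl.mono {S G G' : Set X} {E E' : Set (X × X × Set X)} (h1 : E ⊆ E') (h2 : G ⊆ G') {a b : X}
    (h : Rl S E G a b) : Rl S E' G' a b :=
  h.ind (EqvGen.is_equivalence _) (fun _ _ h => EqvGen.rel _ _ (Or.inl h))
    fun e he h => EqvGen.rel _ _ (Or.inr ⟨e.2.2, h.trans h2, h1 he⟩)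

theorem Rl.iff {S G : Set X} {E : Set (X × X × Set X)} {p : X → Prop}
    (h1 : ∀ a b, Sim S a b → p a → p b) (h2 : ∀ e ∈ E, e.2.2 ⊆ G → (p e.1 ↔ p e.2.1)) {a b : X}
    (h : Rl S E G a b) : p a ↔ p b :=
  h.ind (r := fun a b => p a ↔ p b) ⟨fun _ => Iff.rfl, Iff.symm, Iff.trans⟩
    (fun a b h => ⟨h1 a b h, h1 b a h.symm⟩) h2

def Sm (S : Set X) (k : ℕ) (D M : Set X) : Prop := ∃ c δ, δ ≤ 1 / ((k : ℝ) + 1) ∧ M ⊆ ball c δ ∧
  ∀ d ∈ D, ∀ u ∈ ball c (4 * δ), Sim S d u → Sim S d c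

theorem chn (hR : Reg X) {S M : Set X} (hS : M ⊆ S) (hM : IsPreconnected M) {x y : X} (hx : x ∈ M)
    (hy : y ∈ M) {δ : X → ℝ} (hδ : ∀ c ∈ M, 0 < δ c) : ∃ E : Set (X × X × Set X), E.Finite ∧
      (∀ e ∈ E, Bad S e ∧ e.2.2 ⊆ M ∧ ∃ c ∈ M, e.2.2 ⊆ ball c (δ c)) ∧ Rl S E M x y := by
  refine hM.induction₂ (fun x y => ∃ E : Set (X × X × Set X), E.Finite ∧
      (∀ e ∈ E, Bad S e ∧ e.2.2 ⊆ M ∧ ∃ c ∈ M, e.2.2 ⊆ ball c (δ c)) ∧ Rl S E M x y)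
    (fun c hc => ?_) ?_ ?_ hx hy
  · obtain ⟨N, h1, h2, h3⟩ := hR.lc hM hc (hδ c hc)
    filter_upwards [h3] with z hz
    have h4 : N ⊆ M := h1.trans inter_subset_left
    by_cases h : Sim S c z
    · exact ⟨∅, finite_empty, by simp, EqvGen.rel _ _ (Or.inl h)⟩
    · refine ⟨{(c, z, N)}, finite_singleton _, ?_, EqvGen.rel _ _ (Or.inr ⟨N, h4, rfl⟩)⟩
      rintro _ rfl
      exact ⟨⟨h4.trans hS, h2, h3.self_of_nhdsWithin hc, hz, h⟩, h4, c, hc, h1.trans inter_subset_right⟩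
  · rintro a b c - - - ⟨E, h1, h2, h3⟩ ⟨E', g1, g2, g3⟩
    exact ⟨E ∪ E', h1.union g1, fun e he => he.elim (h2 e) (g2 e), EqvGen.trans _ _ _
      (h3.mono subset_union_left Subset.rfl) (g3.mono subset_union_right Subset.rfl)⟩
  · rintro a b - - ⟨E, h1, h2, h3⟩
    exact ⟨E, h1, h2, EqvGen.symm _ _ h3⟩

variable [CompactSpace X]

theorem gap {A B : Set X} (hA : IsClosed A) (hB : IsClosed B) (h : Disjoint A B) :
    ∃ ρ > 0, ∀ u ∈ A, ∀ v ∈ B, ρ ≤ dist u v := by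
  obtain ⟨δ, h1, h2⟩ := h.exists_thickenings hA.isCompact hB
  exact ⟨δ, h1, fun u hu v hv => not_lt.1 fun h3 => disjoint_left.1 h2
    (self_subset_thickening h1 A hu) (mem_thickening_iff.2 ⟨v, hv, h3⟩)⟩

theorem split (hN : Nul X) (hR : Reg X) {S M : Set X} {x y : X} (h : Bad S (x, y, M)) :
    ∃ T : Set (Set X), T.Finite ∧ M ∈ T ∧
      (∀ M' ∈ T, M' ⊆ M ∧ IsPreconnected M' ∧ x ∈ M' ∧ y ∈ M') ∧ Spl S x y T := by
  obtain ⟨hS, hM, hx, hy, hxy⟩ := h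
  let E := ⋂ M' ∈ {M' | M' ⊆ M ∧ IsPreconnected M' ∧ x ∈ M' ∧ y ∈ M'}, closure M'
  have hEM : E ⊆ M := fun w hw => by_contra fun hn => by
    obtain ⟨M', h1, h2⟩ := hM.induction₂ (fun a b => ∃ M', (M' ⊆ M ∧ IsPreconnected M' ∧ a ∈ M' ∧
      b ∈ M') ∧ w ∉ closure M') (fun c hc => by
        have h1 : 0 < dist w c := dist_pos.2 fun h => hn (h ▸ hc)
        obtain ⟨N, h2, h3, h4⟩ := hR.lc hM hc (half_pos h1)
        filter_upwards [h4] with z hz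
        exact ⟨N, ⟨h2.trans inter_subset_left, h3, h4.self_of_nhdsWithin hc, hz⟩,
          fun h => (mem_ball.1 (clo_ball h1 (h2.trans inter_subset_right) h)).false⟩) (by
        rintro a b c - - - ⟨N, h1, h2⟩ ⟨N', g1, g2⟩
        exact ⟨N ∪ N', ⟨union_subset h1.1 g1.1, h1.2.1.union b h1.2.2.2 g1.2.2.1 g1.2.1,
          Or.inl h1.2.2.1, Or.inr g1.2.2.2⟩, by rw [closure_union]; exact fun h => h.elim h2 g2⟩)
      (fun a b _ _ ⟨N, h1, h2⟩ => ⟨N, ⟨h1.1, h1.2.1, h1.2.2.2, h1.2.2.1⟩, h2⟩) hx hy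
    exact h2 (mem_iInter₂.1 hw M' h1)
  have hES : E ⊆ S := hEM.trans hS
  obtain ⟨A, B, hA, hB, h1, h2, h3, h4⟩ := part hN (isClosed_biInter fun _ _ => isClosed_closure) hES
    (mem_biInter fun _ h => subset_closure h.2.2.1) (mem_biInter fun _ h => subset_closure h.2.2.2) hxy
  have hAS : A ⊆ S := (subset_union_left.trans h1.subset).trans hES
  have hBS : B ⊆ S := (subset_union_right.trans h1.subset).trans hES
  obtain ⟨U, V, u1, v1, u2, v2, h5⟩ := normal_separation hA hB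
    (disjoint_left.2 fun u hu hv => h4 u hu u hv (sim_refl (hAS hu)))
  obtain ⟨U', u3, u4, u5⟩ := normal_exists_closure_subset hA u1 u2
  obtain ⟨V', v3, v4, v5⟩ := normal_exists_closure_subset hB v1 v2
  obtain ⟨ρ, r1, r2⟩ := gap isClosed_closure isClosed_closure (h5.mono u5 v5)
  have hF := bigfin hN S (half_pos r1)
  have key : ∀ A U : Set X, IsClosed A → IsOpen U → A ⊆ U → ∃ N, IsOpen N ∧ A ⊆ N ∧ closure N ⊆ U ∧
      ∀ a, (∃ u ∈ {c | Sim S a c}, ∃ v ∈ {c | Sim S a c}, ρ / 2 ≤ dist u v) →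
        Disjoint (closure {c | Sim S a c}) A → Disjoint (closure {c | Sim S a c}) (closure N) := by
    intro A U hA hU hAU
    obtain ⟨N, n1, n2, n3⟩ := normal_exists_closure_subset hA (hU.sdiff
      ((hF.subset (sep_subset _ fun C => Disjoint (closure C) A)).isClosed_biUnion
        (f := closure) fun _ _ => isClosed_closure)) (fun z hz => ⟨hAU hz, fun h => by
          obtain ⟨C, c1, c2⟩ := mem_iUnion₂.1 h
          exact disjoint_left.1 c1.2 c2 hz⟩)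
    exact ⟨N, n1, n2, fun z hz => (n3 hz).1, fun a h1 h2 => disjoint_left.2 fun z h3 h4 =>
      (n3 h4).2 (mem_biUnion ⟨⟨⟨a, rfl⟩, h1⟩, h2⟩ h3)⟩
  obtain ⟨N, n1, n2, n3, n4⟩ := key A U' hA u3 u4
  obtain ⟨N', m1, m2, m3, m4⟩ := key B V' hB v3 v4
  obtain ⟨G, -, g1, T, t1, t2, t3⟩ := cover (P := fun G => ∃ T : Set (Set X), T.Finite ∧
      (∀ M' ∈ T, M' ⊆ M ∧ IsPreconnected M' ∧ x ∈ M' ∧ y ∈ M') ∧ ∀ w ∈ G, ∃ M' ∈ T, w ∉ closure M')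
    ⟨∅, finite_empty, by simp, by simp⟩ (by
      rintro G G' ⟨T, a1, a2, a3⟩ ⟨T', b1, b2, b3⟩
      exact ⟨T ∪ T', a1.union b1, fun M hM => hM.elim (a2 M) (b2 M), fun w hw => hw.elim
        (fun h => (a3 w h).imp fun _ h => ⟨Or.inl h.1, h.2⟩)
        fun h => (b3 w h).imp fun _ h => ⟨Or.inr h.1, h.2⟩⟩) (n1.union m1).isClosed_compl.isCompact (by
      intro w hw
      have : w ∉ E := fun h => hw (union_subset_union n2 m2 (h1.symm.subset h))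
      simp only [E, mem_iInter, not_forall] at this
      obtain ⟨M', a1, a2⟩ := this
      exact ⟨_, isClosed_closure.isOpen_compl, a2, {M'}, finite_singleton _, fun _ h => h ▸ a1,
        fun w hw => ⟨M', rfl, hw⟩⟩)
  refine ⟨insert M T, t1.insert M, Or.inl rfl, ?_, closure N, closure N', isClosed_closure,
    isClosed_closure, h5.mono (n3.trans (subset_closure.trans u5)) (m3.trans (subset_closure.trans v5)),
    subset_closure (n2 h2), subset_closure (m2 h3), fun w hw => ?_, fun a u hu v hv a1 a2 => ?_⟩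
  · rintro _ (rfl | h)
    exacts [⟨Subset.rfl, hM, hx, hy⟩, t2 _ h]
  · refine union_subset_union subset_closure subset_closure (by_contra fun h => ?_ : w ∈ N ∪ N')
    obtain ⟨M', a1, a2⟩ := t3 w (g1 h)
    exact a2 (hw M' (Or.inr a1))
  have b1 : ∃ u ∈ {c | Sim S a c}, ∃ v ∈ {c | Sim S a c}, ρ / 2 ≤ dist u v := by
    obtain ⟨u', c1, c2⟩ := Metric.mem_closure_iff.1 a1 (ρ / 4) (by linarith)
    obtain ⟨v', d1, d2⟩ := Metric.mem_closure_iff.1 a2 (ρ / 4) (by linarith)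
    refine ⟨u', c1, v', d1, ?_⟩
    linarith [r2 u (subset_closure (n3 hu)) v (subset_closure (m3 hv)),
      dist_triangle4 u u' v' v, dist_comm v v']
  by_cases b2 : Disjoint (closure {c | Sim S a c}) A
  · exact disjoint_left.1 (n4 a b1 b2) a1 hu
  refine disjoint_left.1 (m4 a b1 (disjoint_left.2 fun β c1 c2 => ?_)) a2 hv
  obtain ⟨α, d1, d2⟩ := not_disjoint_iff.1 b2
  exact h4 α d2 β c2 ((sim_clo hN (hAS d2) d1).symm.trans (sim_clo hN (hBS c2) c1))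

def Nx (S : Set X) (k : ℕ) (D : Set X) (E E' : Set (X × X × Set X)) : Prop :=
  (∀ e' ∈ E', Sm S k D e'.2.2 ∧ ∃ e ∈ E, e'.2.2 ⊆ e.2.2) ∧ ∀ e ∈ E, ∃ T : Set (Set X), e.2.2 ∈ T ∧
    (∀ M ∈ T, M ⊆ e.2.2 ∧ Rl S E' M e.1 e.2.1) ∧ Spl S e.1 e.2.1 T

theorem lev (hN : Nul X) (hR : Reg X) {S D : Set X} (k : ℕ) (hD : D.Finite)
    {E : Set (X × X × Set X)} (hE : E.Finite) (h : ∀ e ∈ E, Bad S e) :
    ∃ E' : Set (X × X × Set X), E'.Finite ∧ (∀ e ∈ E', Bad S e) ∧ Nx S k D E E' := by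
  have : ∀ c ∈ S, ∃ δ > 0, δ ≤ 1 / ((k : ℝ) + 1) ∧
      ∀ d ∈ D, ∀ u ∈ ball c (4 * δ), Sim S d u → Sim S d c := by
    intro c hc
    obtain ⟨r, h1, h2⟩ := Metric.isOpen_iff.1 ((hD.subset (sep_subset D fun d => ¬ Sim S d c)).isClosed_biUnion
      (f := fun d => closure {u | Sim S d u}) fun _ _ => isClosed_closure).isOpen_compl c (fun h => by
        obtain ⟨d, h1, h2⟩ := mem_iUnion₂.1 h
        exact h1.2 (sim_clo hN hc h2))
    refine ⟨min (1 / ((k : ℝ) + 1)) (r / 4), lt_min Nat.one_div_pos_of_nat (by linarith),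
      min_le_left _ _, fun d hd u hu h3 => by_contra fun h4 => h2 (ball_subset_ball ?_ hu)
        (mem_biUnion ⟨hd, h4⟩ (subset_closure h3))⟩
    linarith [min_le_right (1 / ((k : ℝ) + 1)) (r / 4)]
  choose! δ d1 d2 d3 using this
  choose! T t1 t2 t3 t4 using fun e (he : e ∈ E) => split hN hR (x := e.1) (y := e.2.1) (M := e.2.2) (h e he)
  choose! F f1 f2 f3 using fun e (he : e ∈ E) M (hM : M ∈ T e) => chn hR
    ((t3 e he M hM).1.trans (h e he).1) (t3 e he M hM).2.1 (t3 e he M hM).2.2.1 (t3 e he M hM).2.2.2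
    (δ := δ) fun c hc => d1 c ((h e he).1 ((t3 e he M hM).1 hc))
  refine ⟨⋃ e ∈ E, ⋃ M ∈ T e, F e M, hE.biUnion fun e he => (t1 e he).biUnion (f1 e he), ?_, ?_,
    fun e he => ⟨T e, t2 e he, fun M hM => ⟨(t3 e he M hM).1, (f3 e he M hM).mono
      (fun z hz => mem_biUnion he (mem_biUnion hM hz)) Subset.rfl⟩, t4 e he⟩⟩
  all_goals
    intro e' he'
    obtain ⟨e, h1, h2⟩ := mem_iUnion₂.1 he'
    obtain ⟨M, h3, h4⟩ := mem_iUnion₂.1 h2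
    obtain ⟨h5, h6, c, h7, h8⟩ := f2 e h1 M h3 e' h4
  · exact h5
  · have h9 := (h e h1).1 ((t3 e h1 M h3).1 h7)
    exact ⟨⟨c, δ c, d2 c h9, h8, d3 c h9⟩, e, h1, h6.trans (t3 e h1 M h3).1⟩

theorem scheme (hN : Nul X) (hR : Reg X) {S : Set X} {e0 : X × X × Set X} (h : Bad S e0) :
    ∃ (E : ℕ → Set (X × X × Set X)) (D : ℕ → Set X), e0 ∈ E 0 ∧ ∀ k, (E k).Finite ∧ (D k).Finite ∧
      D k ⊆ S ∧ (∀ e ∈ E k, Bad S e ∧ e.1 ∈ D k ∧ e.2.1 ∈ D k) ∧ D k ⊆ D (k + 1) ∧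
      D (k + 1) ⊆ D k ∪ ⋃ e ∈ E (k + 1), e.2.2 ∧ Nx S k (D k) (E k) (E (k + 1)) := by
  let P : Set (X × X × Set X) × Set X → Prop := fun p => p.1.Finite ∧ p.2.Finite ∧ p.2 ⊆ S ∧
    ∀ e ∈ p.1, Bad S e ∧ e.1 ∈ p.2 ∧ e.2.1 ∈ p.2
  have : ∀ k p, P p → ∃ p', P p' ∧ p.2 ⊆ p'.2 ∧ p'.2 ⊆ p.2 ∪ ⋃ e ∈ p'.1, e.2.2 ∧
      Nx S k p.2 p.1 p'.1 := by
    rintro k ⟨E, D⟩ ⟨h1, h2, h3, h4⟩
    obtain ⟨E', g1, g2, g3⟩ := lev hN hR k h2 h1 fun e he => (h4 e he).1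
    have g4 : ⋃ e ∈ E', ({e.1, e.2.1} : Set X) ⊆ ⋃ e ∈ E', e.2.2 := iUnion₂_mono fun e he =>
      insert_subset (g2 e he).2.2.1 (singleton_subset_iff.2 (g2 e he).2.2.2.1)
    exact ⟨(E', D ∪ ⋃ e ∈ E', {e.1, e.2.1}), ⟨g1, h2.union (g1.biUnion fun _ _ => toFinite _),
      union_subset h3 (g4.trans (iUnion₂_subset fun e he => (g2 e he).1)), fun e he =>
      ⟨g2 e he, Or.inr (mem_biUnion he (Or.inl rfl)), Or.inr (mem_biUnion he (Or.inr rfl))⟩⟩,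
      subset_union_left, union_subset_union_right _ g4, g3⟩
  choose f f1 f2 using this
  let s : ℕ → {p // P p} := fun n => Nat.rec ⟨({e0}, {e0.1, e0.2.1}), finite_singleton _, toFinite _,
    insert_subset (h.1 h.2.2.1) (singleton_subset_iff.2 (h.1 h.2.2.2.1)),
    by rintro _ rfl; exact ⟨h, Or.inl rfl, Or.inr rfl⟩⟩ (fun n p => ⟨f n p.1 p.2, f1 n p.1 p.2⟩) n
  exact ⟨fun n => (s n).1.1, fun n => (s n).1.2, rfl, fun k =>
    ⟨(s k).2.1, (s k).2.2.1, (s k).2.2.2.1, (s k).2.2.2.2, f2 k _ (s k).2⟩⟩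

theorem quot (hN : Nul X) {Q : Set (Set X)} (h1 : ∀ C ∈ Q, Ct C)
    (h2 : ∀ C ∈ Q, ∀ D ∈ Q, ∀ z, z ∈ C → z ∈ D → C = D) :
    ∃ (Y : Type) (_ : TopologicalSpace Y), T2Space Y ∧ ∃ f : X → Y, Continuous f ∧
      Function.Surjective f ∧ (∀ y, IsConnected (f ⁻¹' {y})) ∧
      ∀ a b, f a = f b ↔ a = b ∨ ∃ C ∈ Q, a ∈ C ∧ b ∈ C := by
  let r : Setoid X := ⟨fun a b => a = b ∨ ∃ C ∈ Q, a ∈ C ∧ b ∈ C, fun _ => Or.inl rfl,
    fun h => h.imp Eq.symm fun ⟨C, h⟩ => ⟨C, h.1, h.2.2, h.2.1⟩, by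
      rintro a b c (rfl | ⟨C, c1, c2, c3⟩) (rfl | ⟨D, d1, d2, d3⟩)
      exacts [Or.inl rfl, Or.inr ⟨D, d1, d2, d3⟩, Or.inr ⟨C, c1, c2, c3⟩,
        Or.inr ⟨D, d1, h2 C c1 D d1 b c3 d2 ▸ c2, d3⟩]⟩
  have hf : ∀ a b, Quotient.mk r a = Quotient.mk r b ↔ a = b ∨ ∃ C ∈ Q, a ∈ C ∧ b ∈ C :=
    fun a b => Quotient.eq
  have hc : ∀ a, Ct (Quotient.mk r ⁻¹' {Quotient.mk r a}) := fun a => by
    by_cases h : ∃ C ∈ Q, a ∈ C
    · obtain ⟨C, c1, c2⟩ := h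
      convert h1 C c1 using 1
      refine Set.ext fun b => (hf b a).trans ⟨?_, fun h => Or.inr ⟨C, c1, h, c2⟩⟩
      rintro (rfl | ⟨D, d1, d2, d3⟩)
      exacts [c2, h2 D d1 C c1 a d3 c2 ▸ d2]
    · convert ct_pt a using 1
      exact Set.ext fun b => (hf b a).trans ⟨fun h' => h'.resolve_right fun ⟨C, c⟩ =>
        h ⟨C, c.1, c.2.2⟩, Or.inl⟩
  have ho : ∀ U, IsOpen U → IsOpen {q | Quotient.mk r ⁻¹' {q} ⊆ U} := by
    intro U hU
    refine isQuotientMap_quot_mk.isOpen_preimage.1 (isOpen_iff_forall_mem_open.2 fun x hx => ?_)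
    obtain ⟨ρ, r1, r2⟩ := Metric.isOpen_iff.1 hU x (hx rfl)
    have hF := hN.fin (half_pos r1) (S := {C ∈ Q | (∃ a ∈ C, ∃ b ∈ C, ρ / 2 ≤ dist a b) ∧ ¬ C ⊆ U})
      (fun C h => (h1 C h.1).2) (fun C h D h' => h2 C h.1 D h'.1) fun C h => h.2.1
    refine ⟨ball x (ρ / 2) \ ⋃ C ∈ _, C, fun z hz b hb => ?_, isOpen_ball.sdiff
      (hF.isClosed_biUnion fun C h => (h1 C h.1).1), mem_ball_self (half_pos r1), fun h => ?_⟩
    · rcases (hf b z).1 hb with rfl | ⟨C, c1, c2, c3⟩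
      · exact r2 (ball_subset_ball (by linarith) hz.1)
      by_contra hn
      refine hz.2 (mem_biUnion ⟨c1, ⟨b, c2, z, c3, not_lt.1 fun h => hn (r2 ?_)⟩, fun h => hn (h c2)⟩ c3)
      rw [mem_ball]; linarith [mem_ball.1 hz.1, dist_triangle b z x]
    · obtain ⟨C, c1, c2⟩ := mem_iUnion₂.1 h
      exact c1.2.2 fun b hb => hx ((hf b x).2 (Or.inr ⟨C, c1.1, hb, c2⟩))
  refine ⟨Quotient r, inferInstance, ⟨fun p q hpq => ?_⟩, Quotient.mk r, continuous_quot_mk,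
    Quotient.mk_surjective, fun y => ?_, hf⟩
  · obtain ⟨a, rfl⟩ := Quotient.mk_surjective p
    obtain ⟨b, rfl⟩ := Quotient.mk_surjective q
    obtain ⟨U, V, u1, v1, u2, v2, h⟩ := normal_separation (hc a).1 (hc b).1
      (disjoint_left.2 fun z h3 h4 => hpq (h3.symm.trans h4))
    refine ⟨_, _, ho U u1, ho V v1, u2, v2, disjoint_left.2 fun q h3 h4 => ?_⟩
    obtain ⟨c, rfl⟩ := Quotient.mk_surjective q
    exact disjoint_left.1 h (h3 rfl) (h4 rfl)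
  · obtain ⟨a, rfl⟩ := Quotient.mk_surjective y
    exact ⟨⟨a, rfl⟩, (hc a).2⟩

end Pool.Agent.H71.Tym
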