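import Pool.Agent.H71.Tym2

set_option autoImplicit false

namespace Pool.Agent.H71.Tym

open Set Filter Topology Metric Relation Pool.Agent.H71.Hag Pool.Agent.H71.Lel

variable {X : Type} [MetricSpace X]

theorem cov {F C : Set ℝ} (hF : IsClosed F) (hC : C.Countable) {a b : ℝ} (hab : a ≠ b)
    (h : ∀ t, t ∉ C → ¬ (a < t ↔ b < t) → t ∈ F) : uIcc a b ⊆ F := by
  have key : ∀ a b : ℝ, a < b → (∀ t, t ∉ C → ¬ (a < t ↔ b < t) → t ∈ F) → Icc a b ⊆ F := by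
    intro a b hab h
    rw [← closure_Ioo hab.ne]
    exact closure_minimal (((hC.dense_compl ℝ).open_subset_closure_inter isOpen_Ioo).trans
      (closure_minimal (fun t ht => h t ht.2 fun h' => (h'.1 ht.1.1).not_gt ht.1.2) hF)) hF
  rcases lt_or_gt_of_ne hab with h1 | h1
  · rw [uIcc_of_lt h1]; exact key a b h1 h
  · rw [uIcc_of_gt h1]; exact key b a h1 fun t h2 h3 => h t h2 fun h4 => h3 h4.symm

variable [CompactSpace X]

theorem main (hN : Nul X) (hR : Reg X) {S : Set X} {e0 : X × X × Set X} (h : Bad S e0)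
    (hB : ∀ (Y : Type) [TopologicalSpace Y] [T2Space Y] (f : X → Y),
      Continuous f → Function.Surjective f → (∀ y : Y, IsConnected (f ⁻¹' {y})) →
      ∃ (Z : Type) (_ : MetricSpace Z), CompactSpace Z ∧ ConnectedSpace Z ∧
        ∃ g : Y → Z, Topology.IsEmbedding g ∧
          ∃ A : ℕ → Set Z, (∀ n : ℕ, Nonempty (↥(A n) ≃ₜ unitInterval)) ∧
            (⋃ n, A n) = Set.univ) : False := by
  obtain ⟨E, D, h0, hs⟩ := scheme hN hR h
  choose s1 s2 s3 s4 s5 s6 s7 using hs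
  have mono : Monotone D := monotone_nat_of_le_succ s5
  have nest : ∀ k i, ∀ e ∈ E (k + i), ∃ e' ∈ E k, e.2.2 ⊆ e'.2.2 := by
    intro k i
    induction i with
    | zero => exact fun e he => ⟨e, he, Subset.rfl⟩
    | succ i ih =>
      intro e he
      obtain ⟨e1, h1, h2⟩ := ((s7 _).1 e he).2
      obtain ⟨e2, h3, h4⟩ := ih e1 h1
      exact ⟨e2, h3, h2.trans h4⟩
  have dsub : ∀ k j, D j ⊆ D k ∪ ⋃ e ∈ E (k + 1), e.2.2 := by
    intro k j
    induction j with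
    | zero => exact (mono (Nat.zero_le k)).trans subset_union_left
    | succ j ih =>
      rcases le_or_gt (j + 1) k with h1 | h1
      · exact (mono h1).trans subset_union_left
      refine (s6 j).trans (union_subset ih (iUnion₂_subset fun e he => ?_))
      obtain ⟨e', h2, h3⟩ := nest (k + 1) (j - k) e (by rwa [show k + 1 + (j - k) = j + 1 by omega])
      exact h3.trans ((subset_biUnion_of_mem (u := fun e : X × X × Set X => e.2.2) h2).trans
        subset_union_right)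
  have up : ∀ k G a b, Rl S (E k) G a b → ∀ i, Rl S (E (k + i)) G a b := by
    intro k G a b h1 i
    induction i with
    | zero => exact h1
    | succ i ih =>
      refine ih.ind (EqvGen.is_equivalence _) (fun _ _ h => EqvGen.rel _ _ (Or.inl h)) fun e he h2 => ?_
      obtain ⟨T, h3, h4, -⟩ := (s7 _).2 e he
      exact (h4 _ h3).2.mono Subset.rfl h2
  obtain ⟨u, hu⟩ := (countable_iUnion fun k => (s2 k).countable).exists_eq_range
    ⟨_, mem_iUnion.2 ⟨0, (s4 0 e0 h0).2.1⟩⟩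
  have huD : ∀ n, ∃ k, u n ∈ D k := fun n => mem_iUnion.1 (hu.symm.subset ⟨n, rfl⟩)
  have hDu : ∀ k, ∀ d ∈ D k, d ∈ range u := fun k d hd => hu.subset (mem_iUnion.2 ⟨k, hd⟩)
  have huS : ∀ n, u n ∈ S := fun n => (huD n).elim fun k h => s3 k h
  obtain ⟨R, r1, r2, r3⟩ := vlem hN huS
  let cls : X → Set X := fun a => closure (⋃ n ∈ {n | Sim S a (u n)}, R n)
  have c1 : ∀ a, cls a ⊆ closure {c | Sim S a c} := fun a =>
    closure_mono (iUnion₂_subset fun n hn c hc => Sim.trans hn ((r1 n).1 hc))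
  have c2 : ∀ a n, Sim S a (u n) → u n ∈ cls a := fun a n h => subset_closure (mem_biUnion h (r1 n).2)
  have c3 : ∀ n m w, w ∈ cls (u n) → w ∈ cls (u m) → Sim S (u n) (u m) := by
    intro n m w h1 h2
    by_cases hw : w ∈ S
    · exact (sim_clo hN hw (c1 _ h1)).trans (sim_clo hN hw (c1 _ h2)).symm
    obtain ⟨k1, h3⟩ := huD n
    obtain ⟨k2, h4⟩ := huD m
    have key : ∀ a, w ∈ cls a → ∃ c δ, w ∈ closedBall c δ ∧ (∃ v ∈ ball c δ, Sim S a v) ∧
        ∀ d ∈ D (max k1 k2), ∀ v ∈ ball c (4 * δ), Sim S d v → Sim S d c := by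
      intro a ha
      rcases r3 _ ha with h5 | h5
      · obtain ⟨n, -, h6⟩ := mem_iUnion₂.1 h5
        exact absurd (Sim.mem ((r1 n).1 h6)) hw
      have : w ∈ D (max k1 k2) ∪ ⋃ e ∈ E (max k1 k2 + 1), closure (e.2.2 ∩ {c | Sim S a c}) := by
        refine closure_minimal ?_ ((s2 _).isClosed.union
          ((s1 _).isClosed_biUnion fun _ _ => isClosed_closure)) h5
        rintro _ ⟨j, h6, rfl⟩
        obtain ⟨i, h7⟩ := huD j
        refine (dsub (max k1 k2) i h7).imp_right fun h => ?_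
        obtain ⟨e, h8, h9⟩ := mem_iUnion₂.1 h
        exact mem_biUnion h8 (subset_closure ⟨h9, h6⟩)
      obtain ⟨e, h6, h7⟩ := mem_iUnion₂.1 (this.resolve_left fun h => hw (s3 _ h))
      obtain ⟨c, δ, -, h8, h9⟩ := ((s7 _).1 e h6).1
      obtain ⟨v, h10⟩ := closure_nonempty_iff.1 ⟨w, h7⟩
      exact ⟨c, δ, closure_ball_subset_closedBall (closure_mono (inter_subset_left.trans h8) h7),
        ⟨v, h8 h10.1, h10.2⟩, h9⟩
    obtain ⟨c, δ, a1, ⟨v, a2, a3⟩, a4⟩ := key _ h1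
    obtain ⟨c', δ', b1, ⟨v', b2, b3⟩, b4⟩ := key _ h2
    have h5 := mono (le_max_left k1 k2) h3
    have h6 := mono (le_max_right k1 k2) h4
    rw [mem_closedBall] at a1 b1
    rw [mem_ball] at a2 b2
    rcases le_total δ' δ with h7 | h7
    · refine (a4 _ h5 v ?_ a3).trans (a4 _ h6 v' ?_ b3).symm <;> rw [mem_ball] <;>
      linarith [dist_nonneg (x := v) (y := c), dist_triangle4 v' c' w c, dist_comm w c']
    · refine (b4 _ h5 v ?_ a3).trans (b4 _ h6 v' ?_ b3).symm <;> rw [mem_ball] <;>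
      linarith [dist_nonneg (x := v') (y := c'), dist_triangle4 v c w c', dist_comm w c]
  obtain ⟨Y, _, _, f, f1, f2, f3, f4⟩ := quot hN (Q := range fun n => cls (u n))
    (by rintro _ ⟨n, rfl⟩; exact ⟨isClosed_closure, (r2 _).closure⟩) (by
      rintro _ ⟨n, rfl⟩ _ ⟨m, rfl⟩ w h1 h2
      have h3 := c3 n m w h1 h2
      simp only [cls, show {j | Sim S (u n) (u j)} = {j | Sim S (u m) (u j)} from
        Set.ext fun j => ⟨h3.symm.trans, h3.trans⟩])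
  have f5 : ∀ n w, w ∈ cls (u n) → f w = f (u n) := fun n w h =>
    (f4 _ _).2 (Or.inr ⟨_, ⟨n, rfl⟩, h, c2 _ n (sim_refl (huS n))⟩)
  obtain ⟨Z, _, -, -, g, hg, A, hA, hU⟩ := hB Y f f1 f2 f3
  let W : Set X := {w | ∀ ε > 0, ∃ k, ∃ e ∈ E k, e.2.2 ⊆ ball w ε}
  have hW : IsClosed W := isClosed_of_closure_subset fun w hw ε hε => by
    obtain ⟨v, h1, h2⟩ := Metric.mem_closure_iff.1 hw _ (half_pos hε)
    obtain ⟨k, e, h3, h4⟩ := h1 _ (half_pos hε)
    exact ⟨k, e, h3, h4.trans (ball_subset_ball' (by linarith [dist_comm w v]))⟩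
  have lim : ∀ k G a b, Rl S (E k) G a b → a ∈ S → ¬ Sim S a b →
      ∃ w ∈ closure G, w ∈ W ∧ w ∈ cls a := by
    intro k G a b h1 h2 h3
    have : ∀ i, ∃ e ∈ E (k + (i + 1)), e.2.2 ⊆ G ∧ ∃ v ∈ e.2.2, v ∈ cls a := fun i => by
      by_contra hc
      push Not at hc
      refine h3 (((up k G a b h1 (i + 1)).iff (p := Sim S a) (fun _ _ h h' => h'.trans h)
        fun e he h4 => iff_of_false (fun h5 => ?_) fun h5 => ?_).1 (sim_refl h2))
      · obtain ⟨n, h6⟩ := hDu _ _ (s4 _ e he).2.1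
        exact hc e he h4 _ (s4 _ e he).1.2.2.1 (h6 ▸ c2 a n (h6 ▸ h5))
      · obtain ⟨n, h6⟩ := hDu _ _ (s4 _ e he).2.2
        exact hc e he h4 _ (s4 _ e he).1.2.2.2.1 (h6 ▸ c2 a n (h6 ▸ h5))
    choose e e1 e2 v e3 e4 using this
    obtain ⟨w, h4, φ, h5, h6⟩ := (isClosed_closure.inter isClosed_closure).isCompact.tendsto_subseq
      (x := v) fun i => ⟨subset_closure (e2 i (e3 i)), e4 i⟩
    refine ⟨w, h4.1, fun ε hε => ?_, h4.2⟩
    obtain ⟨N, h7⟩ := exists_nat_one_div_lt (show 0 < ε / 4 by linarith)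
    obtain ⟨i, h8, h9⟩ := ((h6.eventually (ball_mem_nhds w (half_pos hε))).and
      (eventually_ge_atTop N)).exists
    obtain ⟨c, δ, h10, h11, -⟩ := ((s7 (k + φ i)).1 _ (e1 (φ i))).1
    have h12 := Nat.one_div_le_one_div (α := ℝ) (h9.trans (h5.le_apply.trans (Nat.le_add_left _ k)))
    refine ⟨_, _, e1 (φ i), fun z hz => ?_⟩
    have h13 : dist (v (φ i)) w < ε / 2 := h8
    rw [mem_ball]
    linarith [mem_ball.1 (h11 hz), mem_ball.1 (h11 (e3 _)), dist_triangle z (v (φ i)) w,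
      dist_triangle_right z (v (φ i)) c]
  have lim' : ∀ k, ∀ e ∈ E k, Rl S (E (k + 1)) e.2.2 e.1 e.2.1 := fun k e he => by
    obtain ⟨T, h3, h4, -⟩ := (s7 _).2 e he
    exact (h4 _ h3).2
  have hAc : ∀ n, IsClosed ((g ∘ f) ⁻¹' A n) := fun n => (isCompact_iff_compactSpace.2
    (hA n).some.symm.compactSpace).isClosed.preimage (hg.continuous.comp f1)
  have : CompactSpace W := isCompact_iff_compactSpace.1 hW.isCompact
  obtain ⟨w1, -, hw1, -⟩ := lim _ _ _ _ (lim' 0 e0 h0) (h.1 h.2.2.1) h.2.2.2.2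
  have : Nonempty W := ⟨⟨w1, hw1⟩⟩
  obtain ⟨n, w0, hw0⟩ := nonempty_interior_of_iUnion_of_closed
    (f := fun n => (Subtype.val ⁻¹' ((g ∘ f) ⁻¹' A n) : Set W))
    (fun n => (hAc n).preimage continuous_subtype_val) (by
      rw [← preimage_iUnion, ← preimage_iUnion, hU]; rfl)
  obtain ⟨ε, hε, hb⟩ := Metric.mem_nhds_iff.1 (mem_interior_iff_mem_nhds.1 hw0)
  obtain ⟨k, e, he, hM⟩ := w0.2 _ (half_pos hε)
  set Ω := (g ∘ f) ⁻¹' A n with hΩ
  have k1 : ∀ j, ∀ e' ∈ E j, e'.2.2 ⊆ e.2.2 → e'.1 ∈ Ω ∧ e'.2.1 ∈ Ω := by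
    intro j e' h1 h2
    have key : ∀ a b, Rl S (E (j + 1)) e'.2.2 a b → a ∈ D j → ¬ Sim S a b → a ∈ Ω := by
      intro a b h3 h4 h5
      obtain ⟨w, h6, h7, h8⟩ := lim _ _ _ _ h3 (s3 j h4) h5
      obtain ⟨m, rfl⟩ := hDu j a h4
      have h9 : w ∈ Ω := hb (a := ⟨w, h7⟩) (clo_ball hε (h2.trans hM) h6)
      show g (f (u m)) ∈ A n
      rw [← f5 m w h8]; exact h9
    exact ⟨key _ _ (lim' j e' h1) (s4 j e' h1).2.1 (s4 j e' h1).1.2.2.2.2,
      key _ _ (EqvGen.symm _ _ (lim' j e' h1)) (s4 j e' h1).2.2 fun h => (s4 j e' h1).1.2.2.2.2 h.symm⟩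
  classical
  let ψ : X → ℝ := fun z => if h : g (f z) ∈ A n then ((hA n).some ⟨_, h⟩ : ℝ) else 0
  have p1 : ContinuousOn ψ Ω := by
    rw [continuousOn_iff_continuous_domRestrict]
    have : Ω.domRestrict ψ = fun z : Ω => (((hA n).some ⟨g (f z), z.2⟩ : unitInterval) : ℝ) :=
      funext fun z => dif_pos z.2
    rw [this]
    have := hg.continuous
    fun_prop
  have p2 : ∀ a ∈ Ω, ∀ b ∈ Ω, ψ a = ψ b → f a = f b := fun a ha b hb h1 => by
    simp only [ψ, dif_pos (show g (f a) ∈ A n from ha), dif_pos (show g (f b) ∈ A n from hb)] at h1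
    exact hg.injective (congrArg Subtype.val ((hA n).some.injective (Subtype.ext h1)))
  have p3 : ∀ a b, f a = f b → ψ a = ψ b := fun a b h1 => by simp only [ψ, h1]
  obtain ⟨T, t0, t1, N, N', n1, n2, n3, n4, n5, n6, n7⟩ := (s7 k).2 e he
  obtain ⟨hx, hy⟩ := k1 k e he Subset.rfl
  have k2 : ∀ M ∈ T, ∀ t, ¬ (ψ e.1 < t ↔ ψ e.2.1 < t) → ∃ w ∈ closure M, w ∈ Ω ∧ ψ w = t := by
    intro M hM t ht
    by_contra hc
    push Not at hc
    have hc' : IsClosed (closure M ∩ Ω) := isClosed_closure.inter (hAc n)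
    have p4 := p1.mono (inter_subset_right (s := closure M))
    obtain ⟨ρ, r4, r5⟩ := gap (p4.preimage_isClosed_of_isClosed hc' (isClosed_Iic (a := t)))
      (p4.preimage_isClosed_of_isClosed hc' (isClosed_Ici (a := t)))
      (disjoint_left.2 fun z h1 h2 => hc z h1.1.1 h1.1.2 (le_antisymm h1.2 h2.2))
    obtain ⟨i, h1⟩ := exists_nat_one_div_lt (half_pos r4)
    have q : ∀ j, ∀ a ∈ D j, (∃ m, Sim S a (u m) ∧ ψ (u m) < t) ↔ ψ a < t := by
      intro j a ha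
      obtain ⟨m, rfl⟩ := hDu j a ha
      exact ⟨fun ⟨m', h2, h3⟩ => p3 _ _ (f5 m _ (c2 _ m' h2)) ▸ h3, fun h => ⟨m, sim_refl (huS m), h⟩⟩
    refine ht ((q k _ (s4 k e he).2.1).symm.trans (((up _ _ _ _ (t1 M hM).2 i).iff
      (p := fun a => ∃ m, Sim S a (u m) ∧ ψ (u m) < t)
      (fun a b h ⟨m, h2, h3⟩ => ⟨m, h.symm.trans h2, h3⟩) fun e' h2 h3 => ?_).trans
      (q k _ (s4 k e he).2.2)))
    obtain ⟨h4, h5, h6⟩ := s4 _ e' h2
    obtain ⟨h7, h8⟩ := k1 _ e' h2 (h3.trans (t1 M hM).1)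
    rw [q _ _ h5, q _ _ h6]
    obtain ⟨c, δ, h10, h11, -⟩ := ((s7 (k + i)).1 e' (by rwa [Nat.add_right_comm] at h2)).1
    have h12 := Nat.one_div_le_one_div (α := ℝ) (Nat.le_add_left i k)
    have key : ∀ a ∈ e'.2.2, ∀ b ∈ e'.2.2, a ∈ Ω → b ∈ Ω → ψ a < t → ψ b < t := by
      intro a ha b hb h13 h14 h15
      by_contra h16
      linarith [r5 a ⟨⟨subset_closure (h3 ha), h13⟩, h15.le⟩ b ⟨⟨subset_closure (h3 hb), h14⟩,
        not_lt.1 h16⟩, mem_ball.1 (h11 ha), mem_ball.1 (h11 hb), dist_triangle_right a b c]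
    exact ⟨key _ h4.2.2.1 _ h4.2.2.2.1 h7 h8, key _ h4.2.2.2.1 _ h4.2.2.1 h8 h7⟩
  have hF : ∀ N : Set X, IsClosed N → IsClosed (ψ '' (Ω ∩ N)) := fun N hN =>
    (((hAc n).inter hN).isCompact.image_of_continuousOn (p1.mono inter_subset_left)).isClosed
  have hne : ψ e.1 ≠ ψ e.2.1 := fun h1 => by
    obtain ⟨m, h2⟩ := hDu _ _ (s4 k e he).2.1
    obtain ⟨m', h3⟩ := hDu _ _ (s4 k e he).2.2
    refine (s4 k e he).1.2.2.2.2 ?_
    rcases (f4 _ _).1 (p2 _ hx _ hy h1) with h4 | ⟨_, ⟨j, rfl⟩, h4, h5⟩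
    · rw [← h4, ← h2]; exact sim_refl (huS m)
    · rw [← h2] at h4 ⊢
      rw [← h3] at h5 ⊢
      exact (c3 m j _ (c2 _ m (sim_refl (huS m))) h4).trans
        (c3 m' j _ (c2 _ m' (sim_refl (huS m'))) h5).symm
  obtain ⟨t, -, ⟨w, h1, rfl⟩, w', h2, h3⟩ := isPreconnected_closed_iff.1
    (isPreconnected_uIcc (a := ψ e.1) (b := ψ e.2.1)) _ _ (hF N n1) (hF N' n2)
    (cov ((hF N n1).union (hF N' n2)) (countable_range (ψ ∘ u)) hne fun t h1 h2 => by
      obtain ⟨w, -, h5, rfl⟩ := k2 _ t0 t h2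
      refine (n6 w fun M hM => ?_).imp (fun h => ⟨w, ⟨h5, h⟩, rfl⟩) fun h => ⟨w, ⟨h5, h⟩, rfl⟩
      obtain ⟨w', h6, h7, h8⟩ := k2 M hM _ h2
      rcases (f4 _ _).1 (p2 _ h7 _ h5 h8) with rfl | ⟨_, ⟨j, rfl⟩, -, h9⟩
      · exact h6
      · exact absurd ⟨j, (p3 _ _ (f5 j w h9)).symm⟩ h1)
    ⟨_, left_mem_uIcc, _, ⟨hx, n4⟩, rfl⟩ ⟨_, right_mem_uIcc, _, ⟨hy, n5⟩, rfl⟩
  rcases (f4 _ _).1 (p2 _ h2.1 _ h1.1 h3) with rfl | ⟨_, ⟨j, rfl⟩, h4, h5⟩
  · exact disjoint_left.1 n3 h1.2 h2.2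
  · exact n7 _ w h1.2 w' h2.2 (c1 _ h5) (c1 _ h4)

end Pool.Agent.H71.Tym
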