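import Mathlib

/-! Universal cover of SL2(R): lifts, and the group-theoretic reduction. -/

set_option autoImplicit false

namespace Pool.Agent.H71.Ulam

open Matrix Set
open scoped MatrixGroups

noncomputable def uu (x : ℝ) : Fin 2 → ℝ := ![Real.cos (Real.pi * x), Real.sin (Real.pi * x)]

def Rel (w : Fin 2 → ℝ) (θ : ℝ) : Prop := ∃ l : ℝ, 0 < l ∧ w = l • uu θ

theorem uu_sq (x : ℝ) : uu x 0 ^ 2 + uu x 1 ^ 2 = 1 := by
  simp [uu]

theorem uu_ne (x : ℝ) : uu x ≠ 0 := by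
  intro h
  have := uu_sq x
  rw [h] at this
  simp at this

theorem continuous_uu : Continuous uu := by
  unfold uu
  refine continuous_pi fun i => ?_
  fin_cases i <;> simp <;> fun_prop

theorem Rel.smul {w : Fin 2 → ℝ} {θ : ℝ} (h : Rel w θ) {c : ℝ} (hc : 0 < c) : Rel (c • w) θ := by
  obtain ⟨l, hl, rfl⟩ := h
  exact ⟨c * l, mul_pos hc hl, by rw [smul_smul]⟩

theorem Rel.uu_eq {w : Fin 2 → ℝ} {θ θ' : ℝ} (h : Rel w θ) (h' : Rel w θ') : uu θ = uu θ' := by
  obtain ⟨l, hl, e⟩ := h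
  obtain ⟨l', hl', e'⟩ := h'
  have e2 : l • uu θ = l' • uu θ' := e.symm.trans e'
  have h0 := congrFun e2 0
  have h1 := congrFun e2 1
  simp only [Pi.smul_apply, smul_eq_mul] at h0 h1
  have hsq : l ^ 2 = l' ^ 2 := by
    have a := uu_sq θ
    have b := uu_sq θ'
    calc l ^ 2 = (l * uu θ 0) ^ 2 + (l * uu θ 1) ^ 2 := by linear_combination (-(l ^ 2)) * a
      _ = (l' * uu θ' 0) ^ 2 + (l' * uu θ' 1) ^ 2 := by rw [h0, h1]
      _ = l' ^ 2 := by linear_combination (l' ^ 2) * b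
  have hll : l = l' := by nlinarith
  subst hll
  exact smul_right_injective _ hl.ne' e2

theorem exp_eq_of_uu {θ θ' : ℝ} (h : uu θ = uu θ') :
    Complex.exp ((Real.pi * θ : ℝ) * Complex.I) = Complex.exp ((Real.pi * θ' : ℝ) * Complex.I) := by
  have h0 := congrFun h 0
  have h1 := congrFun h 1
  simp only [uu, cons_val_zero, cons_val_one] at h0 h1
  rw [Complex.exp_mul_I, Complex.exp_mul_I, ← Complex.ofReal_cos, ← Complex.ofReal_cos,
    ← Complex.ofReal_sin, ← Complex.ofReal_sin, h0, h1]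

theorem lift_unique {X : Type*} [TopologicalSpace X] [PreconnectedSpace X] {F F' : X → ℝ}
    (hF : Continuous F) (hF' : Continuous F') (h : ∀ x, uu (F x) = uu (F' x)) (x₀ : X)
    (h0 : F x₀ = F' x₀) : F = F' := by
  have key := Complex.isCoveringMap_exp.eq_of_comp_eq
    (g₁ := fun x => ((Real.pi * F x : ℝ) : ℂ) * Complex.I)
    (g₂ := fun x => ((Real.pi * F' x : ℝ) : ℂ) * Complex.I) (by fun_prop) (by fun_prop)
    (by
      funext x
      exact Subtype.ext (exp_eq_of_uu (h x))) x₀ (by simp only [h0])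
  funext x
  have := congrFun key x
  simp only [mul_eq_mul_right_iff, Complex.ofReal_inj, Complex.I_ne_zero, or_false] at this
  exact mul_left_cancel₀ Real.pi_ne_zero this

theorem lift_exists {X : Type*} [TopologicalSpace X] [SimplyConnectedSpace X]
    [LocallyPathConnectedSpace X] {w : X → Fin 2 → ℝ} (hw : Continuous w) (hne : ∀ x, w x ≠ 0)
    (x₀ : X) (θ₀ : ℝ) (h0 : Rel (w x₀) θ₀) :
    ∃ F : X → ℝ, Continuous F ∧ F x₀ = θ₀ ∧ ∀ x, Rel (w x) (F x) := by
  have hz : ∀ x, ((w x 0 : ℂ) + (w x 1 : ℂ) * Complex.I) ≠ 0 := by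
    intro x hx
    apply hne x
    have h1 := congrArg Complex.re hx
    have h2 := congrArg Complex.im hx
    simp at h1 h2
    funext i
    fin_cases i <;> simp [h1, h2]
  obtain ⟨l, hl, e⟩ := h0
  let f : C(X, {z : ℂ // z ≠ 0}) := ⟨fun x => ⟨_, hz x⟩, by
    refine Continuous.subtype_mk ?_ _
    fun_prop⟩
  obtain ⟨G, ⟨hG0, hG⟩, -⟩ := Complex.isCoveringMap_exp.existsUnique_continuousMap_lifts f x₀
    ((Real.log l : ℝ) + (Real.pi * θ₀ : ℝ) * Complex.I) (by
      apply Subtype.ext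
      simp only [f, ContinuousMap.coe_mk]
      rw [Complex.exp_add, Complex.exp_mul_I, ← Complex.ofReal_exp, Real.exp_log hl,
        ← Complex.ofReal_cos, ← Complex.ofReal_sin, e]
      simp only [uu, Pi.smul_apply, cons_val_zero, cons_val_one, smul_eq_mul]
      push_cast
      ring)
  refine ⟨fun x => (G x).im / Real.pi, by fun_prop, ?_, fun x => ?_⟩
  · simp only [hG0]
    simp
  · have h1 : Complex.exp (G x) = (w x 0 : ℂ) + (w x 1 : ℂ) * Complex.I :=
      congrArg Subtype.val (congrFun hG x)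
    refine ⟨Real.exp (G x).re, Real.exp_pos _, ?_⟩
    have hp : Real.pi * ((G x).im / Real.pi) = (G x).im := by field_simp
    have hre := congrArg Complex.re h1
    have him := congrArg Complex.im h1
    rw [Complex.exp_re] at hre
    rw [Complex.exp_im] at him
    simp at hre him
    funext i
    fin_cases i <;> simp [uu, hp, hre, him]

theorem exists_rel {w : Fin 2 → ℝ} (hw : w ≠ 0) : ∃ θ, Rel w θ := by
  have hz : ((w 0 : ℂ) + (w 1 : ℂ) * Complex.I) ≠ 0 := by
    intro hx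
    apply hw
    have h1 := congrArg Complex.re hx
    have h2 := congrArg Complex.im hx
    simp at h1 h2
    funext i
    fin_cases i <;> simp [h1, h2]
  set z := ((w 0 : ℂ) + (w 1 : ℂ) * Complex.I) with hzdef
  have h1 := Complex.exp_log hz
  refine ⟨(Complex.log z).im / Real.pi, Real.exp (Complex.log z).re, Real.exp_pos _, ?_⟩
  have hp : Real.pi * ((Complex.log z).im / Real.pi) = (Complex.log z).im := by field_simp
  have hre := congrArg Complex.re h1
  have him := congrArg Complex.im h1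
  rw [Complex.exp_re] at hre
  rw [Complex.exp_im] at him
  have a : z.re = w 0 := by simp [hzdef]
  have b : z.im = w 1 := by simp [hzdef]
  rw [a] at hre
  rw [b] at him
  funext i
  fin_cases i
  · simp only [uu, hp]; simpa using hre.symm
  · simp only [uu, hp]; simpa using him.symm

/-- `f` lifts the matrix `M`. -/
def Lifts (M : SL(2, ℝ)) (f : ℝ → ℝ) : Prop := ∀ x, Rel (M.1 *ᵥ uu x) (f x)

theorem coe_mul' (M N : SL(2, ℝ)) : (M * N).1 = M.1 * N.1 := rfl

theorem inv_mulVec (M : SL(2, ℝ)) (w : Fin 2 → ℝ) : (M⁻¹).1 *ᵥ (M.1 *ᵥ w) = w := by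
  rw [mulVec_mulVec, ← coe_mul', inv_mul_cancel]
  exact one_mulVec w

theorem mulVec_ne (M : SL(2, ℝ)) {w : Fin 2 → ℝ} (hw : w ≠ 0) : M.1 *ᵥ w ≠ 0 := by
  intro h
  apply hw
  rw [← inv_mulVec M w, h, mulVec_zero]

theorem rel_mul {M N : SL(2, ℝ)} {x y z : ℝ} (h1 : Rel (N.1 *ᵥ uu x) y) (h2 : Rel (M.1 *ᵥ uu y) z) :
    Rel ((M * N).1 *ᵥ uu x) z := by
  obtain ⟨l, hl, e⟩ := h1
  rw [coe_mul', ← mulVec_mulVec, e, mulVec_smul]
  exact h2.smul hl

theorem rel_inv {M : SL(2, ℝ)} {x y : ℝ} (h : Rel (M.1 *ᵥ uu x) y) : Rel ((M⁻¹).1 *ᵥ uu y) x := by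
  obtain ⟨l, hl, e⟩ := h
  refine ⟨l⁻¹, inv_pos.2 hl, ?_⟩
  have := inv_mulVec M (uu x)
  rw [e, mulVec_smul] at this
  rw [← this, smul_smul, inv_mul_cancel₀ hl.ne', one_smul]

theorem rel_one (x : ℝ) : Rel ((1 : SL(2, ℝ)).1 *ᵥ uu x) x := ⟨1, one_pos, by simp⟩

theorem rel_one_uu {x y : ℝ} (h : Rel ((1 : SL(2, ℝ)).1 *ᵥ uu x) y) : uu y = uu x :=
  h.uu_eq (rel_one x)

theorem exists_lift (M : SL(2, ℝ)) (x₀ θ₀ : ℝ) (h : Rel (M.1 *ᵥ uu x₀) θ₀) :
    ∃ f, Continuous f ∧ f x₀ = θ₀ ∧ Lifts M f :=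
  lift_exists (w := fun x => M.1 *ᵥ uu x) (continuous_const.matrix_mulVec continuous_uu)
    (fun x => mulVec_ne M (uu_ne x)) x₀ θ₀ h

theorem exists_inv {M : SL(2, ℝ)} {f : ℝ → ℝ} (hf : Continuous f) (h : Lifts M f) :
    ∃ g, Continuous g ∧ Lifts M⁻¹ g ∧ g ∘ f = id ∧ f ∘ g = id := by
  obtain ⟨g, hg, hg0, hL⟩ := exists_lift M⁻¹ (f 0) 0 (rel_inv (h 0))
  refine ⟨g, hg, hL, ?_, ?_⟩
  · refine lift_unique (hg.comp hf) continuous_id (fun x => ?_) 0 (by simpa using hg0)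
    have := rel_mul (h x) (hL (f x))
    rw [inv_mul_cancel] at this
    exact rel_one_uu this
  · refine lift_unique (hf.comp hg) continuous_id (fun x => ?_) (f 0) (by simp [hg0])
    have := rel_mul (hL x) (h (g x))
    rw [mul_inv_cancel] at this
    exact rel_one_uu this

/-- The universal cover, as pairs (lift, matrix). -/
def GG : Subgroup (Equiv.Perm ℝ × SL(2, ℝ)) where
  carrier := {p | Continuous p.1 ∧ Lifts p.2 p.1}
  one_mem' := ⟨continuous_id, rel_one⟩
  mul_mem' := by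
    rintro p q ⟨hp, hp'⟩ ⟨hq, hq'⟩
    exact ⟨hp.comp hq, fun x => rel_mul (hq' x) (hp' _)⟩
  inv_mem' := by
    rintro p ⟨hp, hp'⟩
    obtain ⟨g, hg, hL, h1, h2⟩ := exists_inv hp hp'
    have : ⇑(p⁻¹).1 = g := by
      funext x
      have := congrFun h1 (p.1⁻¹ x)
      simpa using this.symm
    exact ⟨this ▸ hg, this ▸ hL⟩

theorem mem_GG {p : Equiv.Perm ℝ × SL(2, ℝ)} : p ∈ GG ↔ Continuous p.1 ∧ Lifts p.2 p.1 := Iff.rfl

theorem exists_GG {M : SL(2, ℝ)} {f : ℝ → ℝ} (hf : Continuous f) (h : Lifts M f) :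
    ∃ g : GG, ⇑g.1.1 = f ∧ g.1.2 = M := by
  obtain ⟨g, hg, hL, h1, h2⟩ := exists_inv hf h
  exact ⟨⟨(⟨f, g, congrFun h1, congrFun h2⟩, M), hf, h⟩, rfl, rfl⟩

theorem surj_GG (M : SL(2, ℝ)) : ∃ g : GG, g.1.2 = M := by
  obtain ⟨θ, hθ⟩ := exists_rel (mulVec_ne M (uu_ne 0))
  obtain ⟨f, hf, -, hL⟩ := exists_lift M 0 θ hθ
  obtain ⟨g, -, hg⟩ := exists_GG hf hL
  exact ⟨g, hg⟩

theorem lifts_id {M : SL(2, ℝ)} (h : Lifts M id) : M = 1 := by
  obtain ⟨a, ha, ea⟩ := h 0
  obtain ⟨b, hb, eb⟩ := h (1 / 2)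
  obtain ⟨c, hc, ec⟩ := h (1 / 4)
  have p2 : Real.pi * (1 / 2) = Real.pi / 2 := by ring
  have p4 : Real.pi * (1 / 4) = Real.pi / 4 := by ring
  have a0 := congrFun ea 0
  have a1 := congrFun ea 1
  have b0 := congrFun eb 0
  have b1 := congrFun eb 1
  have c0 := congrFun ec 0
  have c1 := congrFun ec 1
  simp only [uu, id_eq, p2, p4, mulVec, dotProduct, Fin.sum_univ_two, cons_val_zero, cons_val_one,
    mul_zero, Real.cos_zero, Real.sin_zero, mul_one, add_zero, Pi.smul_apply, smul_eq_mul,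
    Real.cos_pi_div_two, Real.sin_pi_div_two, zero_add, Real.cos_pi_div_four,
    Real.sin_pi_div_four] at a0 a1 b0 b1 c0 c1
  have hd := M.2
  rw [det_fin_two] at hd
  have s2 : (0 : ℝ) < √2 / 2 := by positivity
  rw [b0, a0] at c0
  rw [a1, b1] at c1
  have hac : a = c := by nlinarith
  have hbc : b = c := by nlinarith
  rw [a0, b1, b0, a1, hac, hbc] at hd
  have hc1 : c = 1 := by nlinarith
  ext i j
  fin_cases i <;> fin_cases j <;> simp [a0, a1, b0, b1, hac, hbc, hc1]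

theorem fst_inj {g h : GG} (e : g.1.1 = h.1.1) : g = h := by
  have h1 : (h⁻¹ * g).1.1 = 1 := by simp [e]
  have h2 : (h⁻¹ * g).1.2 = 1 := by
    apply lifts_id
    have := (h⁻¹ * g).2.2
    rw [h1] at this
    exact this
  have : h⁻¹ * g = 1 := Subtype.ext (Prod.ext h1 h2)
  exact (inv_mul_eq_one.1 this).symm

theorem eq_of_floor {g h : GG} (e : g.1.2 = h.1.2) (e' : ⌊g.1.1 0⌋ = ⌊h.1.1 0⌋) : g = h := by
  apply fst_inj
  have hu : ∀ x, uu (g.1.1 x) = uu (h.1.1 x) := fun x => (g.2.2 x).uu_eq (e ▸ h.2.2 x)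
  apply DFunLike.coe_injective
  refine lift_unique g.2.1 h.2.1 hu 0 ?_
  have h0 := congrFun (hu 0) 0
  have h1 := congrFun (hu 0) 1
  simp only [uu, cons_val_zero, cons_val_one] at h0 h1
  have hlt := Int.abs_sub_lt_one_of_floor_eq_floor e'
  rw [abs_lt] at hlt
  have hs : Real.sin (Real.pi * g.1.1 0 - Real.pi * h.1.1 0) = 0 := by
    rw [Real.sin_sub, h0, h1]; ring
  have pp := Real.pi_pos
  rw [Real.sin_eq_zero_iff_of_lt_of_lt (by nlinarith) (by nlinarith)] at hs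
  have : Real.pi * (g.1.1 0 - h.1.1 0) = 0 := by linarith
  rcases mul_eq_zero.1 this with h | h
  · exact absurd h pp.ne'
  · linarith

theorem countable_quot {G D : Type*} [Group G] [Countable D] (H : Subgroup G) (d : G → D)
    (hd : ∀ g h, d g = d h → g⁻¹ * h ∈ H) : Countable (G ⧸ H) := by
  refine Function.Injective.countable (f := fun q : G ⧸ H => d q.out) fun q q' e => ?_
  rw [← QuotientGroup.out_eq' q, ← QuotientGroup.out_eq' q']
  exact QuotientGroup.eq.2 (hd _ _ e)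

section Path

variable {Γ : Type*} [Group Γ] (e : ℝ → Γ →* SL(2, ℝ))
  (he : ∀ A, Continuous fun σ => (e σ A).1)

/-- Pairs of elements of the cover joined by a lift of the path of some element. -/
def PP : Subgroup (GG × GG) where
  carrier := {p | ∃ A : Γ, e 0 A = p.1.1.2 ∧ e 1 A = p.2.1.2 ∧ ∃ F : ℝ × ℝ → ℝ, Continuous F ∧
    (∀ σ x, Rel ((e σ A).1 *ᵥ uu x) (F (σ, x))) ∧ (∀ x, F (0, x) = p.1.1.1 x) ∧
    ∀ x, F (1, x) = p.2.1.1 x}
  one_mem' := ⟨1, by simp, by simp, fun p => p.2, continuous_snd, fun σ x => by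
    rw [map_one]; exact rel_one x, fun _ => rfl, fun _ => rfl⟩
  mul_mem' := by
    rintro p q ⟨A, a0, a1, F, hF, hF', f0, f1⟩ ⟨B, b0, b1, G, hG, hG', g0, g1⟩
    refine ⟨A * B, by simp [a0, b0], by simp [a1, b1], fun z => F (z.1, G z), by fun_prop,
      fun σ x => ?_, fun x => ?_, fun x => ?_⟩
    · rw [map_mul]; exact rel_mul (hG' σ x) (hF' σ _)
    · simp [f0, g0]
    · simp [f1, g1]
  inv_mem' := by
    rintro p ⟨A, a0, a1, F, hF, hF', f0, f1⟩
    obtain ⟨G, hG, hG0, hG'⟩ := lift_exists (X := ℝ × ℝ)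
      (w := fun z => (e z.1 A⁻¹).1 *ᵥ uu z.2)
      (((he A⁻¹).comp continuous_fst).matrix_mulVec (continuous_uu.comp continuous_snd))
      (fun z => mulVec_ne _ (uu_ne _)) (0, F (0, 0)) 0 (by
        simp only [map_inv]; exact rel_inv (hF' 0 0))
    have key : (fun z : ℝ × ℝ => G (z.1, F z)) = fun z => z.2 := by
      refine lift_unique (by fun_prop) continuous_snd (fun z => ?_) (0, 0) (by simpa using hG0)
      have := rel_mul (hF' z.1 z.2) (hG' (z.1, F z))
      rw [← map_mul, inv_mul_cancel, map_one] at this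
      exact rel_one_uu this
    refine ⟨A⁻¹, by simp [a0], by simp [a1], G, hG, fun σ x => hG' (σ, x), fun x => ?_,
      fun x => ?_⟩
    · have := congrFun key (0, p.1.1.1⁻¹ x)
      simp only [f0] at this
      simpa using this
    · have := congrFun key (1, p.2.1.1⁻¹ x)
      simp only [f1] at this
      simpa using this

theorem exists_PP (g : GG) (A : Γ) (hA : e 0 A = g.1.2) :
    ∃ g' : GG, (g, g') ∈ PP e he ∧ g'.1.2 = e 1 A := by
  obtain ⟨F, hF, hF0, hF'⟩ := lift_exists (X := ℝ × ℝ)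
      (w := fun z => (e z.1 A).1 *ᵥ uu z.2)
      (((he A).comp continuous_fst).matrix_mulVec (continuous_uu.comp continuous_snd))
      (fun z => mulVec_ne _ (uu_ne _)) (0, 0) (g.1.1 0) (by
        simp only [hA]; exact g.2.2 0)
  obtain ⟨g', h1, h2⟩ := exists_GG (M := e 1 A) (f := fun x => F (1, x)) (by fun_prop)
    (fun x => hF' (1, x))
  refine ⟨g', ⟨A, hA, h2.symm, F, hF, fun σ x => hF' (σ, x), ?_, fun x => by simp [h1]⟩, h2⟩
  have : (fun x => F (0, x)) = g.1.1 := by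
    refine lift_unique (by fun_prop) g.2.1 (fun x => ?_) 0 hF0
    have := hF' (0, x)
    simp only [hA] at this
    exact this.uu_eq (g.2.2 x)
  exact congrFun this

include he in
theorem exists_embedding (hinj : Function.Injective (e 0))
    (hc0 : Countable (SL(2, ℝ) ⧸ (e 0).range)) (hc1 : (Set.range (e 1)).Countable)
    (hcore : ∀ M : SL(2, ℝ), (∀ N : SL(2, ℝ), ∃ A, e 0 A = N * M * N⁻¹ ∧ e 1 A = 1) → M = 1) :
    ∃ Φ : GG →* Equiv.Perm ℕ, Function.Injective Φ := by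
  classical
  let H : Subgroup GG := (PP e he).comap (MonoidHom.prod (MonoidHom.id GG) 1)
  have memH : ∀ g, g ∈ H ↔ (g, 1) ∈ PP e he := fun g => Iff.rfl
  let C : Set GG := {g | g.1.2 ∈ Set.range (e 1)}
  have hC : Countable C := by
    have := hc1.to_subtype
    refine Function.Injective.countable
      (f := fun g : C => ((⟨g.1.1.2, g.2⟩ : Set.range (e 1)), ⌊g.1.1.1 0⌋)) fun g h eq => ?_
    simp only [Prod.mk.injEq, Subtype.mk.injEq] at eq
    exact Subtype.ext (eq_of_floor eq.1 eq.2)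
  choose s hs using surj_GG
  have hrep : ∀ g : GG, ∃ c : C,
      ((s (QuotientGroup.mk (s := (e 0).range) g.1.2).out)⁻¹ * g, c.1) ∈ PP e he := by
    intro g
    have h1 : (QuotientGroup.mk (s := (e 0).range) g.1.2).out⁻¹ * g.1.2 ∈ (e 0).range :=
      QuotientGroup.eq.1 (QuotientGroup.out_eq' _)
    obtain ⟨A, hA⟩ := h1
    obtain ⟨g', h2, h3⟩ := exists_PP e he
      ((s (QuotientGroup.mk (s := (e 0).range) g.1.2).out)⁻¹ * g) A (by simp [hA, hs])
    exact ⟨⟨g', A, h3.symm⟩, h2⟩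
  choose c hc using hrep
  have hQ : Countable (GG ⧸ H) := by
    refine countable_quot H (fun g => (QuotientGroup.mk (s := (e 0).range) g.1.2, c g))
      fun g h eq => ?_
    simp only [Prod.mk.injEq] at eq
    have h1 := hc g
    have h2 := hc h
    rw [← eq.1, ← eq.2] at h2
    have := (PP e he).mul_mem ((PP e he).inv_mem h1) h2
    rw [memH]
    convert this using 1
    ext1
    · simp [mul_assoc]
    · simp
  have hcoreH : H.normalCore = ⊥ := by
    rw [eq_bot_iff]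
    intro g hg
    have hM : g.1.2 = 1 := by
      apply hcore
      intro N
      obtain ⟨A, a0, a1, -⟩ := (memH _).1 (hg (s N))
      exact ⟨A, by simpa [hs] using a0, by simpa using a1⟩
    obtain ⟨A, a0, a1, F, hF, hF', f0, f1⟩ := (memH _).1 (Subgroup.normalCore_le H hg)
    have hA : A = 1 := hinj (by rw [a0, map_one]; exact hM)
    subst hA
    have key : F = fun z => z.2 := by
      refine lift_unique hF continuous_snd (fun z => ?_) (1, 0) (by simpa using f1 0)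
      have := hF' z.1 z.2
      rw [map_one] at this
      exact rel_one_uu this
    rw [Subgroup.mem_bot]
    apply fst_inj
    ext x
    have := f0 x
    rw [key] at this
    simpa using this.symm
  obtain ⟨ι⟩ : Nonempty ((GG ⧸ H) ↪ ℕ) := nonempty_embedding_nat _
  refine ⟨(Equiv.Perm.viaEmbeddingHom ι).comp (MulAction.toPermHom GG (GG ⧸ H)), ?_⟩
  rw [MonoidHom.coe_comp]
  refine (Equiv.Perm.viaEmbeddingHom_injective ι).comp ?_
  rw [← MonoidHom.ker_eq_bot_iff, ← Subgroup.normalCore_eq_ker, hcoreH]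

end Path

theorem exists_GG_of_mem {f : ℝ → ℝ} (hf : Continuous f) (M : Matrix (Fin 2) (Fin 2) ℝ)
    (hM : M.det = 1) (h : ∀ x : ℝ,
      (M.mulVec ![Real.cos (Real.pi * x), Real.sin (Real.pi * x)]) 0 * Real.sin (Real.pi * f x)
        - (M.mulVec ![Real.cos (Real.pi * x), Real.sin (Real.pi * x)]) 1
          * Real.cos (Real.pi * f x) = 0) : ∃ g : GG, ⇑g.1.1 = f := by
  let l : ℝ → ℝ := fun x => (M *ᵥ uu x) 0 * uu (f x) 0 + (M *ᵥ uu x) 1 * uu (f x) 1
  have hl : Continuous l := by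
    have h1 : Continuous fun x => M *ᵥ uu x := continuous_const.matrix_mulVec continuous_uu
    have h2 : Continuous fun x => uu (f x) := continuous_uu.comp hf
    exact (((continuous_apply 0).comp h1).mul ((continuous_apply 0).comp h2)).add
      (((continuous_apply 1).comp h1).mul ((continuous_apply 1).comp h2))
  have hw : ∀ x, M *ᵥ uu x = l x • uu (f x) := by
    intro x
    have h1 : (M *ᵥ uu x) 0 * uu (f x) 1 - (M *ᵥ uu x) 1 * uu (f x) 0 = 0 := h x
    have h2 := uu_sq (f x)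
    funext i
    fin_cases i
    · simp only [Fin.zero_eta, Pi.smul_apply, smul_eq_mul, l]
      linear_combination (uu (f x) 1) * h1 - (M *ᵥ uu x) 0 * h2
    · simp only [Fin.mk_one, Pi.smul_apply, smul_eq_mul, l]
      linear_combination (-uu (f x) 0) * h1 - (M *ᵥ uu x) 1 * h2
  have hne : ∀ x, l x ≠ 0 := by
    intro x hx
    have := mulVec_ne ⟨M, hM⟩ (uu_ne x)
    apply this
    change M *ᵥ uu x = 0
    rw [hw, hx, zero_smul]
  have hsign : (∀ x, 0 < l x) ∨ ∀ x, l x < 0 := by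
    by_contra hcon
    push Not at hcon
    obtain ⟨⟨a, ha⟩, ⟨b, hb⟩⟩ := hcon
    obtain ⟨c, hc⟩ := intermediate_value_univ a b hl ⟨ha, hb⟩
    exact hne c hc
  rcases hsign with hs | hs
  · obtain ⟨g, hg, -⟩ := exists_GG (M := ⟨M, hM⟩) hf fun x => ⟨l x, hs x, hw x⟩
    exact ⟨g, hg⟩
  · obtain ⟨g, hg, -⟩ := exists_GG (M := ⟨-M, by rw [det_neg]; simp [hM]⟩) hf
      fun x => ⟨-l x, neg_pos.2 (hs x), by
        change (-M) *ᵥ uu x = _
        rw [neg_mulVec, hw, neg_smul]⟩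
    exact ⟨g, hg⟩

end Pool.Agent.H71.Ulam
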