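import Mathlib

/-! A Banach algebra of analytic functions, implicit roots, and gluing of paths. -/

set_option autoImplicit false

namespace Pool.Agent.H71.Ulam

open Set Filter Topology Metric
open scoped BoundedContinuousFunction

abbrev DD : Type := (ball (0 : ℂ) 2 : Set ℂ)

open Classical in
noncomputable def rho (z : ℂ) : DD := if h : z ∈ ball (0 : ℂ) 2 then ⟨z, h⟩ else ⟨0, by simp⟩

theorem rho_coe (z : DD) : rho z = z := by simp only [rho, z.2, dif_pos]

theorem rho_val {z : ℂ} (h : z ∈ ball (0 : ℂ) 2) : (rho z : ℂ) = z := by simp only [rho, h, dif_pos]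

noncomputable def BB : Subalgebra ℝ (DD →ᵇ ℂ) where
  carrier := {f | DifferentiableOn ℂ (fun z => f (rho z)) (ball 0 2) ∧
    ∀ z : DD, z.1.im = 0 → (f z).im = 0}
  mul_mem' := by
    rintro f g ⟨hf, hf'⟩ ⟨hg, hg'⟩
    exact ⟨hf.mul hg, fun z hz => by simp [hf' z hz, hg' z hz]⟩
  add_mem' := by
    rintro f g ⟨hf, hf'⟩ ⟨hg, hg'⟩
    exact ⟨hf.add hg, fun z hz => by simp [hf' z hz, hg' z hz]⟩
  algebraMap_mem' := fun r => ⟨by
    have : (fun z => (algebraMap ℝ (DD →ᵇ ℂ) r) (rho z)) = fun _ => (r : ℂ) := by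
      funext z; simp
    rw [this]; exact differentiableOn_const _, fun z _ => by simp⟩

theorem isClosed_BB : IsClosed (BB : Set (DD →ᵇ ℂ)) := by
  refine IsSeqClosed.isClosed fun F f hF hlim => ⟨?_, fun z hz => ?_⟩
  · have h1 := (BoundedContinuousFunction.tendsto_iff_tendstoUniformly.1 hlim).comp rho
    exact (h1.tendstoUniformlyOn.tendstoLocallyUniformlyOn (s := ball 0 2)).differentiableOn
      (Eventually.of_forall fun n => (hF n).1) isOpen_ball
  · have h1 : Tendsto (fun n => (F n z).im) atTop (𝓝 (f z).im) :=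
      (Complex.continuous_im.tendsto _).comp
        (((continuous_eval_const (F := DD →ᵇ ℂ) z).tendsto _).comp hlim)
    have h2 : (fun n => (F n z).im) = fun _ => 0 := funext fun n => (hF n).2 z hz
    rw [h2] at h1
    exact tendsto_nhds_unique h1 tendsto_const_nhds

instance : CompleteSpace BB := isClosed_BB.completeSpace_coe

instance : NoZeroDivisors BB := ⟨fun {f g} h => by
  have hf := f.2.1.analyticOnNhd isOpen_ball
  have hg := g.2.1.analyticOnNhd isOpen_ball
  have hfg : ∀ x ∈ ball (0 : ℂ) 2, f.1 (rho x) * g.1 (rho x) = 0 := fun x _ => by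
    have := congrArg (fun k : BB => k.1 (rho x)) h
    simpa using this
  rcases hf.eq_zero_or_eq_zero_of_mul_eq_zero hg hfg (convex_ball _ _).isPreconnected with h | h
  · left
    ext z
    have := h z z.2
    rw [rho_coe] at this
    simpa using this
  · right
    ext z
    have := h z z.2
    rw [rho_coe] at this
    simpa using this⟩

instance : Nontrivial BB := ⟨⟨0, 1, fun h => by
  have := congrArg (fun k : BB => k.1 (rho 0)) h
  simp at this⟩⟩

instance : IsDomain BB := NoZeroDivisors.to_isDomain _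

noncomputable def pt (s : ℝ) : DD := ⟨((projIcc (0 : ℝ) 1 zero_le_one s : ℝ) : ℂ), by
  have h := (projIcc (0 : ℝ) 1 zero_le_one s).2
  rw [mem_ball_zero_iff, Complex.norm_real, Real.norm_eq_abs, abs_lt]
  constructor <;> linarith [h.1, h.2]⟩

theorem continuous_pt : Continuous pt := by
  refine Continuous.subtype_mk ?_ _
  exact Complex.continuous_ofReal.comp (continuous_subtype_val.comp continuous_projIcc)

noncomputable def evB (s : ℝ) : BB →+* ℝ where
  toFun f := (f.1 (pt s)).re
  map_one' := by simp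
  map_zero' := by simp
  map_add' f g := by simp
  map_mul' f g := by simp [f.2.2 (pt s) (by simp [pt])]

noncomputable def TB : BB := ⟨BoundedContinuousFunction.ofNormedAddCommGroup (fun z : DD => z.1)
  continuous_subtype_val 2 (fun z => (mem_ball_zero_iff.1 z.2).le), by
    refine ⟨differentiableOn_id.congr fun z hz => ?_, fun z hz => hz⟩
    simp [rho_val hz]⟩

/-- The analytic data used later. -/
structure EvData (B : Type) [NormedCommRing B] [NormedAlgebra ℝ B] where
  ev : ℝ → B →+* ℝ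
  cont : ∀ b, Continuous fun s => ev s b
  le : ∀ s b, |ev s b| ≤ ‖b‖
  alg : ∀ s y, ev s (algebraMap ℝ B y) = y
  low : ∀ s, s ≤ 0 → ev s = ev 0
  high : ∀ s, 1 ≤ s → ev s = ev 1
  T : B
  T0 : ev 0 T = 0
  T1 : ev 1 T = 1

noncomputable def evData : EvData BB where
  ev := evB
  cont b := Complex.continuous_re.comp (b.1.continuous.comp continuous_pt)
  le s b := (Complex.abs_re_le_norm _).trans (b.1.norm_coe_le_norm _)
  alg s y := by
    change ((algebraMap ℝ (DD →ᵇ ℂ) y) (pt s)).re = y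
    simp
  low s hs := by
    have : pt s = pt 0 := by simp only [pt, projIcc_of_le_left _ hs, projIcc_left]
    ext f; simp only [evB, this]
  high s hs := by
    have : pt s = pt 1 := by simp only [pt, projIcc_of_right_le _ hs, projIcc_right]
    ext f; simp only [evB, this]
  T := TB
  T0 := by simp [evB, TB, pt]
  T1 := by simp [evB, TB, pt]

section Implicit

variable {A : Type*} [NormedCommRing A] [NormedAlgebra ℝ A] [CompleteSpace A]

theorem implicit_root (d : ℕ) (c : Fin d → ℝ) (y : ℝ) (h0 : ∑ i, c i * y ^ (i : ℕ) = 0)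
    (h1 : ∑ i : Fin d, c i * ((i : ℕ) * y ^ ((i : ℕ) - 1)) ≠ 0) :
    ∃ ψ : (Fin d → A) → A,
      Tendsto ψ (𝓝 fun i => algebraMap ℝ A (c i)) (𝓝 (algebraMap ℝ A y)) ∧
      ∀ᶠ p : (Fin d → A) × A in 𝓝 ((fun i => algebraMap ℝ A (c i)), algebraMap ℝ A y),
        (∑ i : Fin d, p.1 i * p.2 ^ (i : ℕ) = 0 ↔ ψ p.1 = p.2) := by
  let f : (Fin d → A) × A → A := fun p => ∑ i, p.1 i * p.2 ^ (i : ℕ)
  let u : (Fin d → A) × A := ((fun i => algebraMap ℝ A (c i)), algebraMap ℝ A y)
  have hf : ContDiff ℝ 1 f := by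
    unfold f
    fun_prop
  have hs := hf.contDiffAt.hasStrictFDerivAt (x := u) one_ne_zero
  set w : ℝ := ∑ i : Fin d, c i * ((i : ℕ) * y ^ ((i : ℕ) - 1)) with hw
  have hpart : fderiv ℝ f u ∘L .inr ℝ (Fin d → A) A = w • ContinuousLinearMap.id ℝ A := by
    have a1 : HasFDerivAt (fun b : A => f (u.1, b)) (fderiv ℝ f u ∘L .inr ℝ (Fin d → A) A) u.2 :=
      hs.hasFDerivAt.comp u.2 (hasFDerivAt_prodMk_right u.1 u.2)
    have a2 : HasFDerivAt (fun b : A => f (u.1, b))
        (∑ i : Fin d, u.1 i • (((i : ℕ) • u.2 ^ ((i : ℕ) - 1)) • ContinuousLinearMap.id ℝ A)) u.2 := by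
      refine HasFDerivAt.fun_sum fun i _ => ?_
      exact (hasFDerivAt_pow (𝕜 := ℝ) (i : ℕ) (x := u.2)).const_mul (u.1 i)
    rw [a1.unique a2]
    ext b
    simp only [u, hw, ContinuousLinearMap.sum_apply, ContinuousLinearMap.smul_apply,
      ContinuousLinearMap.id_apply, smul_eq_mul, Finset.sum_smul, nsmul_eq_mul]
    simp only [Algebra.smul_def, map_mul, map_pow, map_natCast, mul_assoc]
  have hinv : (fderiv ℝ f u ∘L .inr ℝ (Fin d → A) A).IsInvertible := by
    rw [hpart]
    refine ContinuousLinearMap.IsInvertible.of_inverse (g := w⁻¹ • ContinuousLinearMap.id ℝ A) ?_ ?_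
    · ext b; simp [smul_smul, h1]
    · ext b; simp [smul_smul, h1]
  have hfu : f u = 0 := by
    have := congrArg (algebraMap ℝ A) h0
    simpa [f, u] using this
  refine ⟨hs.implicitFunctionOfProdDomain hinv, hs.tendsto_implicitFunctionOfProdDomain hinv, ?_⟩
  have := hs.eventually_apply_eq_iff_implicitFunctionOfProdDomain hinv
  rw [hfu] at this
  exact this

end Implicit

section Glue

variable {B : Type} [NormedCommRing B] [NormedAlgebra ℝ B] (E : EvData B)

theorem EvData.tendsto {ι : Type*} {l : Filter ι} {b : ι → B} {y : ℝ}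
    (hb : Tendsto b l (𝓝 (algebraMap ℝ B y))) (s : ι → ℝ) :
    Tendsto (fun i => E.ev (s i) (b i)) l (𝓝 y) := by
  rw [tendsto_iff_norm_sub_tendsto_zero] at hb ⊢
  refine squeeze_zero (fun _ => norm_nonneg _) (fun i => ?_) hb
  have := E.le (s i) (b i - algebraMap ℝ B y)
  rwa [map_sub, E.alg] at this

theorem glue_sum (b : ℕ → B) (hb : ∀ k, E.ev 1 (b k) = E.ev 0 (b (k + 1))) (t : ℝ) (n : ℕ) :
    E.ev 0 (b 0) + ∑ k ∈ Finset.range (n + 1), (E.ev (t - k) (b k) - E.ev 0 (b k)) =
      E.ev (t - (min ⌊t⌋₊ n : ℕ)) (b (min ⌊t⌋₊ n)) := by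
  induction n with
  | zero => simp
  | succ n ih =>
    rw [Finset.sum_range_succ, ← add_assoc, ih]
    rcases le_or_gt ⌊t⌋₊ n with h | h
    · have h1 : t < (n + 1 : ℕ) := by
        have := Nat.lt_floor_add_one t
        have h2 : (⌊t⌋₊ : ℝ) ≤ n := by exact_mod_cast h
        push_cast; linarith
      rw [E.low (t - (n + 1 : ℕ)) (by linarith), min_eq_left h, min_eq_left (by omega)]
      ring
    · have h1 : ((n + 1 : ℕ) : ℝ) ≤ t := by
        have := Nat.le_floor_iff' (a := t) (n := n + 1) (by omega)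
        exact this.1 h
      rw [min_eq_right h.le, min_eq_right (by omega), E.high (t - n) (by push_cast at h1; linarith),
        hb]
      ring

theorem glue_cont (b : ℕ → B) (hb : ∀ k, E.ev 1 (b k) = E.ev 0 (b (k + 1))) :
    Continuous fun t : ℝ => E.ev (t - ⌊t⌋₊) (b ⌊t⌋₊) := by
  rw [continuous_iff_continuousAt]
  intro t₀
  obtain ⟨n, hn⟩ := exists_nat_gt t₀
  have hc : Continuous fun t : ℝ =>
      E.ev 0 (b 0) + ∑ k ∈ Finset.range (n + 1), (E.ev (t - k) (b k) - E.ev 0 (b k)) := by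
    refine continuous_const.add (continuous_finsetSum _ fun k _ => ?_)
    exact ((E.cont (b k)).comp (continuous_id.sub continuous_const)).sub continuous_const
  refine hc.continuousAt.congr ?_
  filter_upwards [Iio_mem_nhds hn] with t ht
  rw [glue_sum E b hb, min_eq_left]
  exact Nat.floor_le_of_le (le_of_lt ht)

theorem path_cont (b : ℕ → B) (hb : ∀ k, E.ev 1 (b k) = E.ev 0 (b (k + 1))) (y : ℝ)
    (hy : Tendsto b atTop (𝓝 (algebraMap ℝ B y))) :
    Continuous fun σ : ℝ => if σ ≤ 0 then y else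
      E.ev (σ⁻¹ - 1 - ⌊σ⁻¹ - 1⌋₊) (b ⌊σ⁻¹ - 1⌋₊) := by
  rw [continuous_iff_continuousAt]
  intro σ₀
  rcases lt_trichotomy σ₀ 0 with h | rfl | h
  · refine (continuousAt_const (y := y)).congr ?_
    filter_upwards [Iio_mem_nhds h] with σ hσ
    rw [if_pos (le_of_lt hσ)]
  · rw [continuousAt_iff_continuous_left'_right']
    constructor
    · refine (continuousWithinAt_const (b := y)).congr (fun σ hσ => ?_) (by simp)
      rw [if_pos (le_of_lt hσ)]
    · unfold ContinuousWithinAt
      simp only [le_refl, if_true]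
      have h1 : Tendsto (fun σ : ℝ => ⌊σ⁻¹ - 1⌋₊) (𝓝[>] 0) atTop :=
        tendsto_nat_floor_atTop.comp (tendsto_atTop_add_const_right _ (-1) tendsto_inv_nhdsGT_zero)
      refine (E.tendsto (hy.comp h1) fun σ => σ⁻¹ - 1 - ⌊σ⁻¹ - 1⌋₊).congr' ?_
      filter_upwards [self_mem_nhdsWithin] with σ hσ
      rw [if_neg (not_le.2 hσ)]
      rfl
  · have h1 : ContinuousAt (fun σ : ℝ => σ⁻¹ - 1) σ₀ := (continuousAt_inv₀ h.ne').sub continuousAt_const
    refine ((glue_cont E b hb).continuousAt.comp h1).congr ?_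
    filter_upwards [Ioi_mem_nhds h] with σ hσ
    rw [if_neg (not_le.2 hσ)]
    rfl

end Glue

end Pool.Agent.H71.Ulam
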