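import Mathlib

/-! A separable algebraically closed valued field with prescribed residues. -/

set_option autoImplicit false

namespace Pool.Agent.H71.Ulam

open Polynomial Cardinal

theorem exists_root_near {K Γ : Type*} [Field K] [IsAlgClosed K] [LinearOrderedCommGroupWithZero Γ]
    (v : Valuation K Γ) {P : K[X]} (hP : P.Monic) (a : K) (γ : Γ)
    (h : v (P.eval a) < γ ^ P.natDegree) : ∃ b, P.eval b = 0 ∧ v (b - a) < γ := by
  by_contra hcon
  push Not at hcon
  have hs := IsAlgClosed.splits P
  rw [hs.eval_eq_prod_roots_of_monic hP, map_multiset_prod, hs.natDegree_eq_card_roots,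
    Multiset.map_map] at h
  refine absurd h (not_lt.2 ?_)
  have := Multiset.pow_card_le_prod (s := P.roots.map (v ∘ fun x => a - x)) (a := γ) (by
    intro x hx
    obtain ⟨b, hb, rfl⟩ := Multiset.mem_map.1 hx
    have := hcon b (isRoot_of_mem_roots hb)
    rwa [v.map_sub_swap] at this)
  rwa [Multiset.card_map] at this

structure VData (N : Type) [CommRing N] (K : Type) [Field K] where
  V : ValuationSubring K
  ι : N →+* K
  hι : ∀ ν, ν ≠ 0 → V.valuation (ι ν) = 1
  D : Set K
  hD : D.Countable
  dense : ∀ a c : K, c ≠ 0 → ∃ a' ∈ D, V.valuation (a - a') < V.valuation c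
  b : ℝ → K
  hb : ∀ x, V.valuation (b x) < 1
  ind : ∀ r : ℝ → N, AlgebraicIndependent ℤ fun x => ι (r x) + b x

abbrev KK (κ : Type) [Field κ] : Type := AlgebraicClosure (FractionRing (PowerSeries κ))

theorem exists_trunc {κ : Type} [Field κ] (r : PowerSeries κ) (n : ℕ) :
    ∃ (p : κ[X]) (r' : PowerSeries κ), r = (p : PowerSeries κ) + PowerSeries.X ^ n * r' := by
  have : (PowerSeries.X : PowerSeries κ) ^ n ∣ r - (PowerSeries.trunc n r : κ[X]) := by
    rw [PowerSeries.X_pow_dvd_iff]
    intro m hm
    simp [PowerSeries.coeff_trunc, hm]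
  obtain ⟨r', hr⟩ := this
  exact ⟨PowerSeries.trunc n r, r', by rw [← hr]; ring⟩

theorem nonempty_VData_field (κ : Type) [Field κ] [Countable κ] [CharZero κ] (K : Type) [Field K]
    [IsAlgClosed K] [Algebra (PowerSeries κ) K]
    (hfinj : Function.Injective (algebraMap (PowerSeries κ) K))
    (halg : Algebra.IsAlgebraic (PowerSeries κ) K) : Nonempty (VData κ K) := by
  classical
  let f : PowerSeries κ →+* K := algebraMap _ _
  obtain ⟨V, hV, hloc⟩ := IsLocalRing.exists_factor_valuationRing f
  set v := V.valuation with hv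
  have hle : ∀ r, v (f r) ≤ 1 := fun r => (V.valuation_le_one_iff _).2 (hV r)
  have hunit : ∀ r, IsUnit r → v (f r) = 1 := fun r hr =>
    (V.valuation_eq_one_iff ⟨f r, hV r⟩).1 (hr.map (f.codRestrict V.toSubring hV))
  set t : K := f PowerSeries.X with ht
  have ht0 : t ≠ 0 := by
    rw [ht, map_ne_zero_iff f hfinj]; exact PowerSeries.X_ne_zero
  have hvt0 : v t ≠ 0 := by simpa using ht0
  have ht1 : v t < 1 := by
    refine lt_of_le_of_ne (hle _) fun h => ?_
    have h1 : IsUnit ((f.codRestrict V.toSubring hV) PowerSeries.X) :=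
      (V.valuation_eq_one_iff ⟨f PowerSeries.X, hV _⟩).2 h
    have h2 := hloc.1 _ h1
    rw [PowerSeries.isUnit_iff_constantCoeff] at h2
    simp at h2
  have hint : ∀ a : K, ∃ n : ℕ, IsIntegral (PowerSeries κ) (t ^ n * a) := by
    intro a
    obtain ⟨y, hy, hi⟩ := (halg.1 a).exists_integral_multiple
    obtain ⟨n, hn⟩ := IsDiscreteValuationRing.associated_pow_irreducible hy
      (PowerSeries.X_irreducible (R := κ))
    obtain ⟨w, hw⟩ := hn
    refine ⟨n, ?_⟩
    have : t ^ n * a = (w : PowerSeries κ) • y • a := by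
      rw [smul_smul, mul_comm (w : PowerSeries κ), hw, Algebra.smul_def, map_pow]
    rw [this]
    exact hi.smul _
  have hintle : ∀ a : K, IsIntegral (PowerSeries κ) a → v a ≤ 1 := by
    intro a ha
    by_contra hlt
    push Not at hlt
    obtain ⟨P, hP, hPa⟩ := ha
    rw [hP.as_sum, eval₂_add, eval₂_X_pow, eval₂_finsetSum, add_eq_zero_iff_eq_neg] at hPa
    have ha0 : v a ≠ 0 := (zero_lt_one.trans hlt).ne'
    have h1 : v (a ^ P.natDegree) < v a ^ P.natDegree := by
      rw [hPa, v.map_neg]
      refine v.map_sum_lt (pow_ne_zero _ ha0) fun i hi => ?_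
      rw [eval₂_mul, eval₂_C, eval₂_X_pow, map_mul, map_pow]
      calc _ ≤ 1 * v a ^ i := mul_le_mul_left (hle _) _
        _ < _ := by rw [one_mul]; exact pow_lt_pow_right₀ hlt (Finset.mem_range.1 hi)
    rw [map_pow] at h1
    exact lt_irrefl _ h1
  have hsmall : ∀ a : K, ∃ n : ℕ, v (t ^ n * a) < 1 := by
    intro a
    obtain ⟨n, hn⟩ := hint a
    refine ⟨n + 1, ?_⟩
    rw [pow_succ', mul_assoc, map_mul]
    calc _ ≤ v t * 1 := mul_le_mul_right (hintle _ hn) _
      _ < 1 := by rwa [mul_one]
  let ι : κ →+* K := f.comp PowerSeries.C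
  let F : Subfield K := Subfield.closure (Set.range ι ∪ {t})
  have hFc : Countable F := by
    rw [← mk_le_aleph0_iff]
    refine (Subfield.cardinalMk_closure_le_max _).trans (max_le ?_ le_rfl)
    rw [le_aleph0_iff_set_countable]
    exact (Set.countable_range ι).union (Set.countable_singleton t)
  have hιF : ∀ x, ι x ∈ F := fun x => Subfield.subset_closure (Or.inl ⟨x, rfl⟩)
  have htF : t ∈ F := Subfield.subset_closure (Or.inr rfl)
  have hpF : ∀ p : κ[X], f p ∈ F := by
    intro p
    induction p using Polynomial.induction_on' with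
    | add p q hp hq => rw [Polynomial.coe_add, map_add]; exact add_mem hp hq
    | monomial n a =>
      rw [← C_mul_X_pow_eq_monomial, Polynomial.coe_mul, Polynomial.coe_pow, Polynomial.coe_C,
        Polynomial.coe_X, map_mul, map_pow]
      exact mul_mem (hιF a) (pow_mem htF n)
  -- density
  have hdense : ∀ a c : K, c ≠ 0 → ∃ a', IsAlgebraic F a' ∧ v (a - a') < v c := by
    intro a c hc
    obtain ⟨m, P, hP, hPa⟩ := hint a
    have hb := hintle _ ⟨P, hP, hPa⟩
    set b := t ^ m * a with hbdef
    set c' := t ^ m * c with hc'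
    have hc'0 : c' ≠ 0 := mul_ne_zero (pow_ne_zero _ ht0) hc
    obtain ⟨n, hn⟩ := hsmall (c' ^ P.natDegree)⁻¹
    have hn' : v t ^ n < v c' ^ P.natDegree := by
      rw [map_mul, map_inv₀, map_pow, map_pow, mul_inv_lt_iff₀
        (pow_pos (zero_lt_iff.2 (by simpa using hc'0)) _), one_mul] at hn
      exact hn
    choose p r hr using fun i => exists_trunc (P.coeff i) n
    let Q : F[X] := X ^ P.natDegree + ∑ i ∈ Finset.range P.natDegree, C ⟨f (p i), hpF _⟩ * X ^ i
    have hdeg : (∑ i ∈ Finset.range P.natDegree, C (⟨f (p i), hpF _⟩ : F) * X ^ i).degree <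
        (P.natDegree : WithBot ℕ) := by
      refine (degree_sum_le _ _).trans_lt ?_
      rw [Finset.sup_lt_iff (WithBot.bot_lt_coe _)]
      intro i hi
      exact (degree_C_mul_X_pow_le _ _).trans_lt (by exact_mod_cast Finset.mem_range.1 hi)
    have hQ : Q.Monic := monic_X_pow_add hdeg
    have hQd : Q.natDegree = P.natDegree := by
      apply natDegree_eq_of_degree_eq_some
      rw [degree_add_eq_left_of_degree_lt (by rwa [degree_X_pow]), degree_X_pow]
    have hQb : (Q.map (algebraMap F K)).eval b =
        -(t ^ n * ∑ i ∈ Finset.range P.natDegree, f (r i) * b ^ i) := by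
      rw [hP.as_sum, eval₂_add, eval₂_X_pow, eval₂_finsetSum] at hPa
      rw [eval_map, eval₂_add, eval₂_X_pow, eval₂_finsetSum, eq_neg_iff_add_eq_zero, ← hPa,
        add_assoc, Finset.mul_sum, ← Finset.sum_add_distrib]
      congr 1
      refine Finset.sum_congr rfl fun i _ => ?_
      rw [eval₂_mul, eval₂_C, eval₂_X_pow, eval₂_mul, eval₂_C, eval₂_X_pow, hr i]
      change f (p i) * b ^ i + _ = f _ * _
      rw [map_add, map_mul, map_pow]
      ring
    obtain ⟨β, hβ, hβ'⟩ := exists_root_near v (hQ.map (algebraMap F K)) b (v c') (by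
      rw [hQb, v.map_neg, map_mul, map_pow, hQ.natDegree_map, hQd]
      refine lt_of_le_of_lt ?_ hn'
      refine mul_le_of_le_one_right' (v.map_sum_le fun i _ => ?_)
      rw [map_mul, map_pow]
      exact mul_le_one' (hle _) (pow_le_one' hb _))
    have hβa : IsAlgebraic F β := ⟨Q, hQ.ne_zero, by rwa [aeval_def, ← eval_map]⟩
    refine ⟨(t ^ m)⁻¹ * β, ?_, ?_⟩
    · exact (isAlgebraic_algebraMap (⟨(t ^ m)⁻¹, inv_mem (pow_mem htF m)⟩ : F)).mul hβa
    · have e1 : a - (t ^ m)⁻¹ * β = (t ^ m)⁻¹ * (b - β) := by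
        rw [hbdef]; field_simp
      have e2 : c = (t ^ m)⁻¹ * c' := by
        rw [hc']; field_simp
      rw [e1, e2, map_mul, map_mul, v.map_sub_swap]
      exact mul_lt_mul_of_pos_left hβ' (zero_lt_iff.2 (by simp [ht0]))
  -- independent family
  obtain ⟨s, hs⟩ := exists_isTranscendenceBasis F K
  have hcard : #ℝ ≤ #s := by
    have h1 := IsAlgClosed.cardinal_le_max_transcendence_basis' _ hs
    have h2 : 𝔠 ≤ #K := by
      refine le_trans ?_ (mk_le_of_injective hfinj)
      have h3 : Function.Injective fun g : ℕ → Bool =>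
          (PowerSeries.mk fun n => if g n then (1 : κ) else 0) := by
        intro g g' e
        funext n
        have := congrArg (PowerSeries.coeff n) e
        simp only [PowerSeries.coeff_mk] at this
        cases h : g n <;> cases h' : g' n <;> simp_all
      simpa using mk_le_of_injective h3
    rw [mk_real]
    have h4 : #F ≤ ℵ₀ := mk_le_aleph0
    by_contra hlt
    push Not at hlt
    exact absurd (h2.trans h1) (not_le.2 (max_lt (max_lt (h4.trans_lt aleph0_lt_continuum) hlt)
      aleph0_lt_continuum))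
  obtain ⟨e⟩ := (le_def _ _).1 hcard
  choose n hn using hsmall
  refine ⟨⟨V, ι, fun ν hν => hunit _ (hν.isUnit.map _), {a | IsAlgebraic F a},
    Algebraic.countable F K, hdense, fun x => t ^ n (e x) * e x, fun x => hn _, fun r => ?_⟩⟩
  have h1 := (hs.1.comp e e.injective).polynomial_aeval_of_transcendental
    (f := fun x => C (⟨t ^ n (e x), pow_mem htF _⟩ : F) * X + C ⟨ι (r x), hιF _⟩) (fun x => by
      have h0 : (⟨t ^ n (e x), pow_mem htF _⟩ : F) ≠ 0 := fun h =>
        pow_ne_zero _ ht0 (congrArg Subtype.val h)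
      refine Polynomial.transcendental _ (by rw [natDegree_linear h0]; exact one_ne_zero) ?_
      rw [leadingCoeff_linear h0]
      exact mem_nonZeroDivisors_of_ne_zero h0)
  have : CharZero K := (RingHom.charZero_iff ι.injective).1 inferInstance
  have h2 := h1.restrictScalars (R := ℤ) (FaithfulSMul.algebraMap_injective ℤ F)
  convert h2 using 2 with x
  simp only [Function.comp_apply, map_add, map_mul, aeval_C, aeval_X]
  rw [add_comm]
  rfl

theorem nonempty_VData (N : Type) [CommRing N] [IsDomain N] [Countable N] [CharZero N] :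
    Nonempty (VData N (KK (FractionRing N))) := by
  have : Countable (FractionRing N) := by
    rw [← mk_le_aleph0_iff, Cardinal.mk_fractionRing]; exact mk_le_aleph0
  have h1 := IsLocalization.isAlgebraic (FractionRing (PowerSeries (FractionRing N)))
    (nonZeroDivisors (PowerSeries (FractionRing N)))
  obtain ⟨W⟩ := nonempty_VData_field (FractionRing N) (KK (FractionRing N)) (by
      rw [IsScalarTower.algebraMap_eq _ (FractionRing (PowerSeries (FractionRing N))), RingHom.coe_comp]
      exact (RingHom.injective _).comp (IsFractionRing.injective _ _))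
    (Algebra.IsAlgebraic.trans _ (FractionRing (PowerSeries (FractionRing N))) _)
  exact ⟨⟨W.V, W.ι.comp (algebraMap N _), fun ν hν => W.hι _ (by simpa using hν), W.D, W.hD,
    W.dense, W.b, W.hb, fun r => W.ind fun x => algebraMap N _ (r x)⟩⟩

end Pool.Agent.H71.Ulam
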