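import Mathlib
import Pool.Agent.H71.Ulam2
import Pool.Agent.H71.Ulam3

/-! A section of the limit map on the ring of good sequences. -/

set_option autoImplicit false

namespace Pool.Agent.H71.Ulam

open Polynomial Filter Topology

theorem exists_section {R E : Type*} [CommRing R] [Field E] [CharZero E] (π : R →+* E)
    (G₀ : Subring R) (h0 : ∀ g ∈ G₀, g ≠ 0 → ∃ g' ∈ G₀, g * g' = 1)
    (halg : ∀ F : Subfield E, (∀ g ∈ G₀, π g ∈ F) → ∀ y : E, IsAlgebraic F y)
    (hens : ∀ P : R[X], P.Monic → ∀ y, (P.map π).eval y = 0 → (P.map π).derivative.eval y ≠ 0 →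
      ∃ r, π r = y ∧ P.eval r = 0) : ∃ j : E →+* R, ∀ y, π (j y) = y := by
  classical
  obtain ⟨G, hG0, hG⟩ := zorn_le_nonempty₀ {G : Subring R | ∀ g ∈ G, g ≠ 0 → ∃ g' ∈ G, g * g' = 1}
    (fun c hc hch y hy => by
      refine ⟨sSup c, fun g hg hg0 => ?_, fun z hz => le_sSup hz⟩
      obtain ⟨S, hS, hgS⟩ := (Subring.mem_sSup_of_directedOn ⟨y, hy⟩ hch.directedOn).1 hg
      obtain ⟨g', hg', e⟩ := hc hS g hgS hg0
      exact ⟨g', (le_sSup hS : S ≤ sSup c) hg', e⟩) G₀ h0
  have hinj : ∀ g ∈ G, π g = 0 → g = 0 := by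
    intro g hg h
    by_contra hne
    obtain ⟨g', -, e⟩ := hG.prop g hg hne
    have := congrArg π e
    rw [map_mul, h, zero_mul, map_one] at this
    exact zero_ne_one this
  let F : Subfield E :=
    { G.map π with
      inv_mem' := by
        rintro _ ⟨g, hg, rfl⟩
        by_cases h : g = 0
        · exact ⟨0, G.zero_mem, by simp [h]⟩
        · obtain ⟨g', hg', e⟩ := hG.prop g hg h
          refine ⟨g', hg', ?_⟩
          have := congrArg π e
          rw [map_mul, map_one] at this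
          exact eq_inv_of_mul_eq_one_right this }
  let φ : G →+* F := (π.comp G.subtype).codRestrict F fun g => ⟨g, g.2, rfl⟩
  have hφ : Function.Bijective φ := by
    constructor
    · rw [injective_iff_map_eq_zero]
      intro g hg
      exact Subtype.ext (hinj g g.2 (congrArg Subtype.val hg))
    · rintro ⟨_, g, hg, rfl⟩
      exact ⟨⟨g, hg⟩, rfl⟩
  let j₁ : F →+* R := G.subtype.comp (RingEquiv.ofBijective φ hφ).symm.toRingHom
  have hj₁ : ∀ u : F, π (j₁ u) = u := fun u =>
    congrArg Subtype.val ((RingEquiv.ofBijective φ hφ).apply_symm_apply u)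
  have hj₁G : ∀ g : G, j₁ (φ g) = g := fun g =>
    congrArg Subtype.val ((RingEquiv.ofBijective φ hφ).symm_apply_apply g)
  have htop : ∀ y, y ∈ F := by
    intro y
    have hint : IsIntegral F y := (halg F (fun g hg => ⟨g, hG0 hg, rfl⟩) y).isIntegral
    have hcomp : π.comp j₁ = algebraMap F E := RingHom.ext hj₁
    have hsep : (minpoly F y).Separable := (minpoly.irreducible hint).separable
    obtain ⟨r, hr, hr0⟩ := hens ((minpoly F y).map j₁) ((minpoly.monic hint).map _) y
      (by rw [Polynomial.map_map, hcomp, eval_map_algebraMap, minpoly.aeval])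
      (by
        rw [Polynomial.map_map, hcomp, derivative_map, eval_map_algebraMap]
        exact hsep.aeval_derivative_ne_zero (minpoly.aeval _ _))
    have : Fact (Irreducible (minpoly F y)) := ⟨minpoly.irreducible hint⟩
    let J : AdjoinRoot (minpoly F y) →+* R := AdjoinRoot.lift j₁ r (by rwa [← eval_map])
    have hle : G ≤ J.range := fun g hg => ⟨AdjoinRoot.of _ (φ ⟨g, hg⟩), by
      rw [AdjoinRoot.lift_of]; exact hj₁G _⟩
    have hge : J.range ≤ G := hG.le_of_ge (by
      rintro _ ⟨u, rfl⟩ hu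
      have hu0 : u ≠ 0 := fun h => hu (by rw [h, map_zero])
      exact ⟨J u⁻¹, ⟨_, rfl⟩, by rw [← map_mul, mul_inv_cancel₀ hu0, map_one]⟩) hle
    exact ⟨r, hge ⟨AdjoinRoot.root _, AdjoinRoot.lift_root _⟩, hr⟩
  refine ⟨j₁.comp ((RingHom.id E).codRestrict F htop), fun y => hj₁ _⟩

section Good

variable {B : Type} [NormedCommRing B] [NormedAlgebra ℝ B] [CompleteSpace B] [Nontrivial B]
  (E : EvData B) (N : Subring B) {K : Type} [Field K] [IsAlgClosed K] (W : VData N K)

/-- `ν` is the residue of `a`. -/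
def Res (a : K) (ν : N) : Prop := W.V.valuation (a - W.ι ν) < 1

variable {N W}

theorem iota_le (ν : N) : W.V.valuation (W.ι ν) ≤ 1 := by
  by_cases h : ν = 0
  · simp [h]
  · exact (W.hι ν h).le

theorem Res.self (ν : N) : Res N W (W.ι ν) ν := by simp [Res]

theorem Res.le {a : K} {ν : N} (h : Res N W a ν) : W.V.valuation a ≤ 1 := by
  have : a = (a - W.ι ν) + W.ι ν := by ring
  rw [this]
  exact W.V.valuation.map_add_le (le_of_lt h) (iota_le ν)

theorem Res.add {a b : K} {ν μ : N} (h : Res N W a ν) (h' : Res N W b μ) :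
    Res N W (a + b) (ν + μ) := by
  unfold Res
  have : a + b - W.ι (ν + μ) = (a - W.ι ν) + (b - W.ι μ) := by rw [map_add]; ring
  rw [this]
  exact W.V.valuation.map_add_lt h h'

theorem Res.neg {a : K} {ν : N} (h : Res N W a ν) : Res N W (-a) (-ν) := by
  unfold Res
  have : -a - W.ι (-ν) = -(a - W.ι ν) := by rw [map_neg]; ring
  rwa [this, Valuation.map_neg]

theorem Res.mul {a b : K} {ν μ : N} (h : Res N W a ν) (h' : Res N W b μ) :
    Res N W (a * b) (ν * μ) := by
  unfold Res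
  have : a * b - W.ι (ν * μ) = (a - W.ι ν) * b + W.ι ν * (b - W.ι μ) := by rw [map_mul]; ring
  rw [this]
  refine W.V.valuation.map_add_lt ?_ ?_
  · rw [map_mul]
    exact lt_of_le_of_lt (mul_le_of_le_one_right' h'.le) h
  · rw [map_mul]
    exact lt_of_le_of_lt (mul_le_of_le_one_left' (iota_le ν)) h'

theorem Res.one : Res N W 1 1 := by simp [Res]

theorem Res.zero : Res N W 0 0 := by simp [Res]

theorem Res.pow {a : K} {ν : N} (h : Res N W a ν) (n : ℕ) : Res N W (a ^ n) (ν ^ n) := by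
  induction n with
  | zero => simpa using Res.one
  | succ n ih => rw [pow_succ, pow_succ]; exact ih.mul h

theorem Res.sum {I : Type*} (s : Finset I) {a : I → K} {ν : I → N} (h : ∀ i ∈ s, Res N W (a i) (ν i)) :
    Res N W (∑ i ∈ s, a i) (∑ i ∈ s, ν i) := by
  classical
  induction s using Finset.induction_on with
  | empty => simpa using Res.zero
  | insert i s hi ih =>
    rw [Finset.sum_insert hi, Finset.sum_insert hi]
    exact (h i (Finset.mem_insert_self _ _)).add (ih fun j hj => h j (Finset.mem_insert_of_mem hj))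

theorem Res.unique {a : K} {ν μ : N} (h : Res N W a ν) (h' : Res N W a μ) : ν = μ := by
  by_contra hne
  have h1 := W.hι _ (sub_ne_zero.2 hne)
  have : W.ι (ν - μ) = (a - W.ι μ) - (a - W.ι ν) := by rw [map_sub]; ring
  rw [this] at h1
  exact absurd (W.V.valuation.map_sub_lt h' h) (by rw [h1]; exact lt_irrefl _)

theorem Res.inv {a : K} {ν μ : N} (h : Res N W a ν) (e : ν * μ = 1) : Res N W a⁻¹ μ := by
  have hν : ν ≠ 0 := left_ne_zero_of_mul_eq_one e
  have ha : W.V.valuation a = 1 := by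
    have : a = W.ι ν + (a - W.ι ν) := by ring
    rw [this, Valuation.map_add_eq_of_lt_left, W.hι ν hν]
    rw [W.hι ν hν]; exact h
  have ha0 : a ≠ 0 := fun h0 => by simp [h0] at ha
  have e' : W.ι ν * W.ι μ = 1 := by rw [← map_mul, e, map_one]
  have : a⁻¹ - W.ι μ = -(a⁻¹ * W.ι μ * (a - W.ι ν)) := by
    field_simp
    linear_combination -e'
  unfold Res
  rw [this, Valuation.map_neg, map_mul, map_mul, map_inv₀, ha, inv_one, one_mul]
  exact lt_of_le_of_lt (mul_le_of_le_one_left' (iota_le μ)) h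

variable (N W)

/-- Sequences whose residues eventually form a convergent path. -/
def RR : Subring ((ℕ → K) × ℝ) where
  carrier := {p | ∃ ν : ℕ → N, (∀ᶠ k in atTop, Res N W (p.1 k) (ν k) ∧
    E.ev 1 (ν k) = E.ev 0 (ν (k + 1))) ∧ Tendsto (fun k => (ν k : B)) atTop (𝓝 (algebraMap ℝ B p.2))}
  mul_mem' := by
    rintro p q ⟨ν, h1, h2⟩ ⟨μ, g1, g2⟩
    refine ⟨ν * μ, ?_, by simpa using h2.mul g2⟩
    filter_upwards [h1, g1] with k a b
    exact ⟨a.1.mul b.1, by simp [a.2, b.2]⟩
  one_mem' := ⟨1, Eventually.of_forall fun k => ⟨Res.one, by simp⟩, by simp⟩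
  add_mem' := by
    rintro p q ⟨ν, h1, h2⟩ ⟨μ, g1, g2⟩
    refine ⟨ν + μ, ?_, by simpa using h2.add g2⟩
    filter_upwards [h1, g1] with k a b
    exact ⟨a.1.add b.1, by simp [a.2, b.2]⟩
  zero_mem' := ⟨0, Eventually.of_forall fun k => ⟨Res.zero, by simp⟩, by simp⟩
  neg_mem' := by
    rintro p ⟨ν, h1, h2⟩
    refine ⟨-ν, ?_, by simpa using h2.neg⟩
    filter_upwards [h1] with k a
    exact ⟨a.1.neg, by simp [a.2]⟩

def piR : RR E N W →+* ℝ := (RingHom.snd _ _).comp (RR E N W).subtype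

def piK (k : ℕ) : RR E N W →+* K :=
  (Pi.evalRingHom (fun _ => K) k).comp ((RingHom.fst _ _).comp (RR E N W).subtype)

variable (hN : ∀ (d : ℕ) (c : Fin d → N) (b : B), (∃ i, c i ≠ 0) →
  ∑ i, (c i : B) * b ^ (i : ℕ) = 0 → b ∈ N)

include hN in
theorem isUnit_RR (p : RR E N W) (h1 : ∀ k, p.1.1 k ≠ 0) (h2 : p.1.2 ≠ 0) : IsUnit p := by
  classical
  obtain ⟨ν, hν, hlim⟩ := p.2
  let u : Bˣ := Units.map (algebraMap ℝ B).toMonoidHom (Units.mk0 _ h2)
  have hu : (u : B) = algebraMap ℝ B p.1.2 := rfl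
  have hev : ∀ᶠ k in atTop, IsUnit (ν k : B) :=
    hlim.eventually (Units.isOpen.mem_nhds (hu ▸ u.isUnit))
  have hmem : ∀ k, Ring.inverse (ν k : B) ∈ N := by
    intro k
    by_cases h : IsUnit (ν k : B)
    · refine hN 2 ![-1, ν k] _ ⟨0, by simp⟩ ?_
      simp [Fin.sum_univ_two, Ring.mul_inverse_cancel _ h]
    · rw [Ring.inverse_non_unit _ h]; exact N.zero_mem
  have hq : ((fun k => (p.1.1 k)⁻¹), p.1.2⁻¹) ∈ RR E N W := by
    refine ⟨fun k => ⟨_, hmem k⟩, ?_, ?_⟩
    · filter_upwards [hν, hev, (tendsto_add_atTop_nat 1).eventually hev] with k a b c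
      refine ⟨a.1.inv (Subtype.ext (Ring.mul_inverse_cancel _ b)), ?_⟩
      have e1 := congrArg (E.ev 1) (Ring.mul_inverse_cancel _ b)
      have e2 := congrArg (E.ev 0) (Ring.mul_inverse_cancel _ c)
      rw [map_mul, map_one] at e1 e2
      rw [eq_inv_of_mul_eq_one_right e1, eq_inv_of_mul_eq_one_right e2, a.2]
    · have := (NormedRing.inverse_continuousAt u).tendsto.comp (hu ▸ hlim)
      rw [Ring.inverse_unit] at this
      exact this
  refine IsUnit.of_mul_eq_one ⟨_, hq⟩ (Subtype.ext (Prod.ext (funext fun k => ?_) ?_))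
  · exact mul_inv_cancel₀ (h1 k)
  · exact mul_inv_cancel₀ h2

include hN in
theorem hensel_RR (P : (RR E N W)[X]) (hP : P.Monic) (y : ℝ) (h0 : (P.map (piR E N W)).eval y = 0)
    (h1 : (P.map (piR E N W)).derivative.eval y ≠ 0) : ∃ r, piR E N W r = y ∧ P.eval r = 0 := by
  classical
  set d := P.natDegree + 1 with hd
  choose ν hν hlim using fun i : Fin d => (P.coeff i).2
  let c : Fin d → ℝ := fun i => piR E N W (P.coeff i)
  have hdeg : (P.map (piR E N W)).natDegree < d := Nat.lt_succ_of_le natDegree_map_le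
  have hc0 : ∑ i, c i * y ^ (i : ℕ) = 0 := by
    rw [eval_eq_sum_range' hdeg, Finset.sum_range] at h0
    simpa [c] using h0
  have hc1 : ∑ i : Fin d, c i * ((i : ℕ) * y ^ ((i : ℕ) - 1)) ≠ 0 := by
    rw [derivative_eval, sum_over_range' _ (by simp) _ hdeg, Finset.sum_range] at h1
    simpa [c, mul_assoc] using h1
  obtain ⟨ψ, hψ, hψ'⟩ := implicit_root (A := B) d c y hc0 hc1
  obtain ⟨χ, -, hχ'⟩ := implicit_root (A := ℝ) d c y hc0 hc1
  have hcl : Tendsto (fun k i => (ν i k : B)) atTop (𝓝 fun i => algebraMap ℝ B (c i)) :=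
    tendsto_pi_nhds.2 hlim
  let β : ℕ → B := fun k => ψ fun i => (ν i k : B)
  have hβ : Tendsto β atTop (𝓝 (algebraMap ℝ B y)) := hψ.comp hcl
  have hroot : ∀ᶠ k in atTop, ∑ i, (ν i k : B) * β k ^ (i : ℕ) = 0 := by
    filter_upwards [(hcl.prodMk_nhds hβ).eventually hψ'] with k hk
    exact hk.2 rfl
  have hall : ∀ᶠ k in atTop, ∀ i, Res N W ((P.coeff (i : Fin d)).1.1 k) (ν i k) ∧
      E.ev 1 (ν i k) = E.ev 0 (ν i (k + 1)) := eventually_all.2 hν
  have hmem : ∀ᶠ k in atTop, β k ∈ N := by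
    filter_upwards [hroot, hall] with k a b
    refine hN d (fun i => ν i k) _ ⟨Fin.last _, ?_⟩ a
    have := (b (Fin.last _)).1
    rw [Fin.val_last, hP.coeff_natDegree] at this
    rw [this.unique Res.one]
    exact one_ne_zero
  have hmatch : ∀ᶠ k in atTop, E.ev 1 (β k) = E.ev 0 (β (k + 1)) := by
    have l1 : Tendsto (fun k i => E.ev 1 (ν i k)) atTop (𝓝 fun i => algebraMap ℝ ℝ (c i)) :=
      tendsto_pi_nhds.2 fun i => E.tendsto (hlim i) fun _ => 1
    have l2 := E.tendsto hβ fun _ => 1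
    have l3 := E.tendsto (hβ.comp (tendsto_add_atTop_nat 1)) fun _ => 0
    filter_upwards [(l1.prodMk_nhds l2).eventually hχ', (l1.prodMk_nhds l3).eventually hχ', hroot,
      (tendsto_add_atTop_nat 1).eventually hroot, hall] with k a b r1 r2 m
    have e1 := a.1 (by simpa using congrArg (E.ev 1) r1)
    have e2 := b.1 (by simpa [fun i => (m i).2] using congrArg (E.ev 0) r2)
    exact e1.symm.trans e2
  let μ : ℕ → N := fun k => if h : β k ∈ N then ⟨β k, h⟩ else 0
  have hμ : ∀ k, β k ∈ N → (μ k : B) = β k := fun k h => by simp only [μ, dif_pos h]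
  have hpos : 0 < P.natDegree := by
    by_contra h
    have h' : P = 1 := hP.natDegree_eq_zero.1 (by omega)
    rw [h'] at h0
    simp at h0
  have hb : ∀ k, ∃ b : K, (P.map (piK E N W k)).eval b = 0 ∧
      ((∀ i : Fin d, Res N W ((P.coeff i).1.1 k) (ν i k)) → β k ∈ N →
        ∑ i, (ν i k : B) * β k ^ (i : ℕ) = 0 → Res N W b (μ k)) := by
    intro k
    by_cases hg : (∀ i : Fin d, Res N W ((P.coeff i).1.1 k) (ν i k)) ∧ β k ∈ N ∧
        ∑ i, (ν i k : B) * β k ^ (i : ℕ) = 0
    · obtain ⟨g1, g2, g3⟩ := hg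
      obtain ⟨b, hb, hb'⟩ := exists_root_near W.V.valuation (hP.map (piK E N W k)) (W.ι (μ k)) 1 (by
        have hdeg' : (P.map (piK E N W k)).natDegree < d := Nat.lt_succ_of_le natDegree_map_le
        rw [one_pow, eval_eq_sum_range' hdeg', Finset.sum_range]
        have s1 := Res.sum (W := W) Finset.univ (fun (i : Fin d) _ =>
          (g1 i).mul ((Res.self (μ k)).pow i))
        have s2 : ∑ i : Fin d, ν i k * μ k ^ (i : ℕ) = 0 := by
          apply Subtype.ext
          simpa [hμ k g2] using g3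
        rw [s2] at s1
        simpa [Res, piK] using s1)
      exact ⟨b, hb, fun _ _ _ => hb'⟩
    · obtain ⟨b, hb⟩ := IsAlgClosed.exists_root (P.map (piK E N W k)) (by
        rw [degree_eq_natDegree (hP.map _).ne_zero, hP.natDegree_map]
        exact_mod_cast hpos.ne')
      exact ⟨b, hb, fun a b c => absurd ⟨a, b, c⟩ hg⟩
  choose b hb hb' using hb
  have hr : (b, y) ∈ RR E N W := by
    refine ⟨μ, ?_, ?_⟩
    · filter_upwards [hall, hmem, hroot, hmatch, (tendsto_add_atTop_nat 1).eventually hmem]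
        with k a1 a2 a3 a4 a5
      exact ⟨hb' k (fun i => (a1 i).1) a2 a3, by rw [hμ k a2, hμ _ a5, a4]⟩
    · refine hβ.congr' ?_
      filter_upwards [hmem] with k a
      exact (hμ k a).symm
  refine ⟨⟨_, hr⟩, rfl, Subtype.ext (Prod.ext (funext fun k => ?_) ?_)⟩
  · have := hb k
    rw [eval_map] at this
    exact (eval₂_at_apply (piK E N W k) (⟨_, hr⟩ : RR E N W)).symm.trans this
  · rw [eval_map] at h0
    exact (eval₂_at_apply (piR E N W) (⟨_, hr⟩ : RR E N W)).symm.trans h0

include hN in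
theorem exists_j (hT : E.T ∈ N) (hq : ∀ q : ℚ, algebraMap ℝ B q ∈ N) :
    ∃ j : ℝ →+* RR E N W, ∀ y, piR E N W (j y) = y := by
  classical
  obtain ⟨s, hs⟩ := exists_isTranscendenceBasis ℤ ℝ
  have happ : ∀ (x : ℝ) (k : ℕ), ∃ q : ℚ, |x - q| < 1 / ((k : ℝ) + 1) := fun x k =>
    exists_rat_near x Nat.one_div_pos_of_nat
  choose q hq' using happ
  have hql : ∀ x, Tendsto (fun k => (q x k : ℝ)) atTop (𝓝 x) := by
    intro x
    rw [tendsto_iff_norm_sub_tendsto_zero]
    refine squeeze_zero (fun _ => norm_nonneg _) (fun k => ?_) tendsto_one_div_add_atTop_nhds_zero_nat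
    rw [Real.norm_eq_abs, abs_sub_comm]
    exact (hq' x k).le
  let ν : ℝ → ℕ → N := fun x k => ⟨(1 - E.T) * algebraMap ℝ B (q x k) +
    E.T * algebraMap ℝ B (q x (k + 1)), add_mem (mul_mem (sub_mem (one_mem _) hT) (hq _))
      (mul_mem hT (hq _))⟩
  have hτ : ∀ x : ℝ, ((fun k => W.ι (ν x k) + W.b x), x) ∈ RR E N W := by
    intro x
    refine ⟨ν x, Eventually.of_forall fun k => ⟨by simpa [Res] using W.hb x, ?_⟩, ?_⟩
    · simp only [ν, map_add, map_mul, map_sub, map_one, E.alg, E.T0, E.T1]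
      ring
    · have c1 := ((continuous_algebraMap ℝ B).tendsto x).comp (hql x)
      have c2 := c1.comp (tendsto_add_atTop_nat 1)
      have := (c1.const_mul (1 - E.T)).add (c2.const_mul E.T)
      have e : (1 - E.T) * algebraMap ℝ B x + E.T * algebraMap ℝ B x = algebraMap ℝ B x := by ring
      rw [e] at this
      exact this
  let j₀ : MvPolynomial s ℤ →+* RR E N W :=
    (MvPolynomial.aeval fun x : s => (⟨_, hτ x⟩ : RR E N W)).toRingHom
  have hjR : ∀ P, piR E N W (j₀ P) = MvPolynomial.aeval (Subtype.val : s → ℝ) P := by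
    intro P
    have : (piR E N W).comp j₀ = (MvPolynomial.aeval (Subtype.val : s → ℝ)).toRingHom :=
      MvPolynomial.ringHom_ext (fun r => by simp) fun i => by simp [j₀, piR]
    exact congr($this P)
  have hjK : ∀ k P, piK E N W k (j₀ P) =
      MvPolynomial.aeval (fun x : s => W.ι (ν x k) + W.b x) P := by
    intro k P
    have : (piK E N W k).comp j₀ =
        (MvPolynomial.aeval (fun x : s => W.ι (ν x k) + W.b x)).toRingHom :=
      MvPolynomial.ringHom_ext (fun r => by simp) fun i => by simp [j₀, piK]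
    exact congr($this P)
  have hunit : ∀ P : nonZeroDivisors (MvPolynomial s ℤ), IsUnit (j₀ P) := by
    intro P
    have hP : (P : MvPolynomial s ℤ) ≠ 0 := nonZeroDivisors.coe_ne_zero P
    refine isUnit_RR E N W hN _ (fun k h => hP ?_) fun h => hP ?_
    · have := (W.ind fun x => ν x k).comp (Subtype.val : s → ℝ) Subtype.val_injective
      exact algebraicIndependent_iff.1 this _ ((hjK k P).symm.trans h)
    · exact algebraicIndependent_iff.1 hs.1 _ ((hjR P).symm.trans h)
  let j₁ : FractionRing (MvPolynomial s ℤ) →+* RR E N W := IsLocalization.lift hunit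
  refine exists_section (piR E N W) j₁.range ?_ ?_ (hensel_RR E N W hN)
  · rintro _ ⟨u, rfl⟩ hu
    have hu0 : u ≠ 0 := fun h => hu (by rw [h, map_zero])
    exact ⟨j₁ u⁻¹, ⟨_, rfl⟩, by rw [← map_mul, mul_inv_cancel₀ hu0, map_one]⟩
  · intro F hF y
    have hle : ∀ a ∈ Algebra.adjoin ℤ (Set.range (Subtype.val : s → ℝ)), a ∈ F := by
      intro a ha
      rw [Algebra.adjoin_range_eq_range_aeval] at ha
      obtain ⟨P, rfl⟩ := ha
      have := hF (j₁ (algebraMap _ _ P)) ⟨_, rfl⟩
      rw [IsLocalization.lift_eq, hjR] at this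
      exact this
    obtain ⟨Q, hQ, hQy⟩ := hs.isAlgebraic.1 y
    let inc : Algebra.adjoin ℤ (Set.range (Subtype.val : s → ℝ)) →+* F :=
      (Algebra.adjoin ℤ (Set.range (Subtype.val : s → ℝ))).val.toRingHom.codRestrict F
        fun a => hle a a.2
    refine ⟨Q.map inc, (Polynomial.map_ne_zero_iff ?_).2 hQ, ?_⟩
    · intro a b e
      exact Subtype.ext (congrArg (fun z : F => (z : ℝ)) e)
    · rw [aeval_def, eval₂_map]
      exact hQy

end Good

end Pool.Agent.H71.Ulam
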