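import Mathlib
import Pool.Agent.H71.Ulam1
import Pool.Agent.H71.Ulam4

/-! The universal cover of SL2(R) acts faithfully on a countable set. -/

set_option autoImplicit false

namespace Pool.Agent.H71.Ulam

open Filter Topology Matrix
open scoped MatrixGroups

theorem inv_entry {K : Type*} [CommRing K] (g : SL(2, K)) (i j : Fin 2) :
    ∃ k l, (g⁻¹).1 i j = g.1 k l ∨ (g⁻¹).1 i j = -g.1 k l := by
  rw [SpecialLinearGroup.SL2_inv_expl]
  fin_cases i <;> fin_cases j
  · exact ⟨1, 1, Or.inl rfl⟩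
  · exact ⟨0, 1, Or.inr rfl⟩
  · exact ⟨1, 0, Or.inr rfl⟩
  · exact ⟨0, 0, Or.inl rfl⟩

theorem exists_dK {N K : Type} [CommRing N] [Field K] (W : VData N K) :
    ∃ d : SL(2, K) → W.D × (Fin 2 → Fin 2 → W.D), ∀ g h, d g = d h → ∀ i j,
      W.V.valuation ((g⁻¹ * h).1 i j - (1 : Matrix (Fin 2) (Fin 2) K) i j) < 1 := by
  set v := W.V.valuation with hv
  have hb : ∀ s : Finset K, ∃ c : K, c ≠ 0 ∧ ∀ a ∈ s, v a * v c ≤ 1 := by
    classical
    intro s
    induction s using Finset.induction_on with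
    | empty => exact ⟨1, one_ne_zero, by simp⟩
    | insert a s _ ih =>
      obtain ⟨c, hc, h⟩ := ih
      by_cases ha : v a * v c ≤ 1
      · exact ⟨c, hc, fun b hb => (Finset.mem_insert.1 hb).elim (fun e => e ▸ ha) (h b)⟩
      · push Not at ha
        have ha0 : v a ≠ 0 := fun e => by simp [e] at ha
        refine ⟨a⁻¹, inv_ne_zero (by simpa using ha0), fun b hb => ?_⟩
        rw [map_inv₀]
        rcases Finset.mem_insert.1 hb with rfl | hb
        · rw [mul_inv_cancel₀ ha0]
        · rw [mul_inv_le_iff₀ (zero_lt_iff.2 ha0), one_mul]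
          have hc0 : 0 < v c := zero_lt_iff.2 (by simpa using hc)
          exact le_of_mul_le_mul_right ((h b hb).trans ha.le) hc0
  have hex : ∀ g : SL(2, K), ∃ p : W.D × (Fin 2 → Fin 2 → W.D),
      (∀ i j, v (g.1 i j) * v p.1 ≤ 1) ∧ ∀ i j, v (g.1 i j - p.2 i j) < v p.1 := by
    classical
    intro g
    obtain ⟨c, hc, h⟩ := hb (Finset.univ.image fun p : Fin 2 × Fin 2 => g.1 p.1 p.2)
    obtain ⟨c', hc', hcc⟩ := W.dense c c hc
    have e : v c' = v c := by
      have : c' = c - (c - c') := by ring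
      rw [this, v.map_sub_eq_of_lt_left hcc]
    choose a ha ha' using fun i j => W.dense (g.1 i j) c hc
    refine ⟨(⟨c', hc'⟩, fun i j => ⟨a i j, ha i j⟩), fun i j => ?_, fun i j => ?_⟩
    · rw [e]; exact h _ (Finset.mem_image.2 ⟨(i, j), Finset.mem_univ _, rfl⟩)
    · rw [e]; exact ha' i j
  choose d hd hd' using hex
  refine ⟨d, fun g h e i j => ?_⟩
  have e1 : (g⁻¹ * h).1 - 1 = (g⁻¹).1 * (h.1 - g.1) := by
    rw [mul_sub]
    congr 1
    exact congrArg Subtype.val (inv_mul_cancel g).symm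
  rw [← Matrix.sub_apply, e1, Matrix.mul_apply]
  refine v.map_sum_lt one_ne_zero fun l _ => ?_
  have h1 : v ((g⁻¹).1 i l) * v (d g).1 ≤ 1 := by
    obtain ⟨k, k', h | h⟩ := inv_entry g i l
    · rw [h]; exact hd g _ _
    · rw [h, v.map_neg]; exact hd g _ _
  have h2 : v ((h.1 - g.1) l j) < v (d g).1 := by
    have : (h.1 - g.1) l j = (h.1 l j - (d g).2 l j) - (g.1 l j - (d g).2 l j) := by
      rw [Matrix.sub_apply]; ring
    rw [this]
    exact v.map_sub_lt (e ▸ hd' h l j) (hd' g l j)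
  rw [map_mul]
  by_cases h0 : v ((g⁻¹).1 i l) = 0
  · rw [h0, zero_mul]; exact zero_lt_one
  · exact lt_of_lt_of_le (mul_lt_mul_of_pos_left h2 (zero_lt_iff.2 h0)) h1

theorem lift_SL (O : Subring ℝ) (M : SL(2, ℝ)) (h : ∀ i j, M.1 i j ∈ O) :
    ∃ A : SL(2, O), SpecialLinearGroup.map O.subtype A = M := by
  refine ⟨⟨Matrix.of fun i j => ⟨M.1 i j, h i j⟩, ?_⟩, rfl⟩
  apply Subtype.ext
  have := M.2
  rw [det_fin_two] at this ⊢
  exact this

theorem core_trivial (O : Subring ℝ) (φ : O →+* ℝ) (M : SL(2, ℝ))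
    (h : ∀ N : SL(2, ℝ), ∃ A : SL(2, O), SpecialLinearGroup.map O.subtype A = N * M * N⁻¹ ∧
      SpecialLinearGroup.map φ A = 1) : M = 1 := by
  have key : ∀ N : SL(2, ℝ), ∀ i j (z : ℤ), (N * M * N⁻¹).1 i j = z →
      (z : ℝ) = (1 : Matrix (Fin 2) (Fin 2) ℝ) i j := by
    intro N i j z hz
    obtain ⟨A, h0, h1⟩ := h N
    have e0 : ((A.1 i j : O) : ℝ) = z := by rw [← hz, ← h0]; rfl
    have e1 : φ (A.1 i j) = (1 : Matrix (Fin 2) (Fin 2) ℝ) i j :=
      congrFun (congrFun (congrArg Subtype.val h1) i) j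
    have e2 : A.1 i j = z := Subtype.ext (by simpa using e0)
    rw [e2, map_intCast] at e1
    exact e1
  let U : ℝ → SL(2, ℝ) := fun r => ⟨!![1, r; 0, 1], by simp [det_fin_two]⟩
  let L : ℝ → SL(2, ℝ) := fun r => ⟨!![1, 0; r, 1], by simp [det_fin_two]⟩
  have hU : ∀ r, (U r * M * (U r)⁻¹).1 = !![1, r; 0, 1] * M.1 * !![1, -r; 0, 1] := by
    intro r
    have : (U r)⁻¹ = U (-r) := inv_eq_of_mul_eq_one_right (Subtype.ext (by
      change !![1, r; 0, 1] * !![1, -r; 0, 1] = (1 : Matrix (Fin 2) (Fin 2) ℝ)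
      rw [Matrix.one_fin_two]; simp))
    rw [this]; rfl
  have hL : ∀ r, (L r * M * (L r)⁻¹).1 = !![1, 0; r, 1] * M.1 * !![1, 0; -r, 1] := by
    intro r
    have : (L r)⁻¹ = L (-r) := inv_eq_of_mul_eq_one_right (Subtype.ext (by
      change !![1, 0; r, 1] * !![1, 0; -r, 1] = (1 : Matrix (Fin 2) (Fin 2) ℝ)
      rw [Matrix.one_fin_two]; simp))
    rw [this]; rfl
  have hc : M.1 1 0 = 0 := by
    by_contra hc
    have := key (U (-M.1 0 0 / M.1 1 0)) 0 0 0 (by
      rw [hU]
      simp [Matrix.mul_apply, Fin.sum_univ_two, vecMul, dotProduct]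
      field_simp
      ring)
    simp at this
  have hb : M.1 0 1 = 0 := by
    by_contra hb
    have := key (L (-M.1 1 1 / M.1 0 1)) 1 1 0 (by
      rw [hL]
      simp [Matrix.mul_apply, Fin.sum_univ_two, vecMul, dotProduct]
      field_simp
      ring)
    simp at this
  have had : M.1 1 1 = M.1 0 0 := by
    by_contra had
    have hne := sub_ne_zero.2 had
    have := key (U (1 / (M.1 1 1 - M.1 0 0))) 0 1 1 (by
      rw [hU]
      simp [Matrix.mul_apply, Fin.sum_univ_two, hb, hc, vecMul, dotProduct]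
      field_simp
      ring)
    simp at this
  have hd := M.2
  rw [det_fin_two, hb, had] at hd
  have ha : M.1 0 0 = 1 := by
    have : (M.1 0 0 - 1) * (M.1 0 0 + 1) = 0 := by linear_combination hd
    rcases mul_eq_zero.1 this with h | h
    · linarith
    · have := key 1 0 0 (-1) (by simp; linarith)
      simp at this
      linarith
  ext i j
  fin_cases i <;> fin_cases j <;> simp [ha, hb, hc, had]

section Sys

variable {B : Type} [NormedCommRing B] [NormedAlgebra ℝ B] [CompleteSpace B] [Nontrivial B]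
  (E : EvData B) (N : Subring B) {K : Type} [Field K] [IsAlgClosed K] (W : VData N K)
  (j : ℝ →+* RR E N W)

open Classical in
/-- The residue of the `k`-th image of `y`. -/
noncomputable def nu (y : ℝ) (k : ℕ) : N :=
  if h : ∃ ν, Res N W (piK E N W k (j y)) ν then h.choose else 0

theorem nu_eq {y : ℝ} {k : ℕ} {ν : N} (h : Res N W (piK E N W k (j y)) ν) : nu E N W j y k = ν := by
  have h' : ∃ ν, Res N W (piK E N W k (j y)) ν := ⟨ν, h⟩
  unfold nu
  rw [dif_pos h']
  exact h'.choose_spec.unique h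

theorem mem_of {n : ℕ} {y : ℝ} (ν : ℕ → N) (h : ∀ k, n ≤ k → Res N W (piK E N W k (j y)) (ν k) ∧
    E.ev 1 (ν k) = E.ev 0 (ν (k + 1))) : ∀ k, n ≤ k →
      Res N W (piK E N W k (j y)) (nu E N W j y k) ∧
      E.ev 1 (nu E N W j y k) = E.ev 0 (nu E N W j y (k + 1)) := by
  intro k hk
  rw [nu_eq E N W j (h k hk).1, nu_eq E N W j (h (k + 1) (by omega)).1]
  exact h k hk

/-- Reals which are good from stage `n` on. -/
def OO (n : ℕ) : Subring ℝ where
  carrier := {y | ∀ k, n ≤ k → Res N W (piK E N W k (j y)) (nu E N W j y k) ∧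
    E.ev 1 (nu E N W j y k) = E.ev 0 (nu E N W j y (k + 1))}
  mul_mem' := fun {a b} ha hb => mem_of E N W j (nu E N W j a * nu E N W j b) fun k hk =>
    ⟨by rw [map_mul, map_mul]; exact (ha k hk).1.mul (hb k hk).1, by simp [(ha k hk).2, (hb k hk).2]⟩
  one_mem' := mem_of E N W j 1 fun k _ => ⟨by rw [map_one, map_one]; exact Res.one, by simp⟩
  add_mem' := fun {a b} ha hb => mem_of E N W j (nu E N W j a + nu E N W j b) fun k hk =>
    ⟨by rw [map_add, map_add]; exact (ha k hk).1.add (hb k hk).1, by simp [(ha k hk).2, (hb k hk).2]⟩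
  zero_mem' := mem_of E N W j 0 fun k _ => ⟨by rw [map_zero, map_zero]; exact Res.zero, by simp⟩
  neg_mem' := fun {a} ha => mem_of E N W j (-nu E N W j a) fun k hk =>
    ⟨by rw [map_neg, map_neg]; exact (ha k hk).1.neg, by simp [(ha k hk).2]⟩

/-- The residue map as a ring homomorphism. -/
noncomputable def rhoN {n k : ℕ} (h : n ≤ k) : OO E N W j n →+* N where
  toFun y := nu E N W j y k
  map_one' := nu_eq E N W j (by rw [OneMemClass.coe_one, map_one, map_one]; exact Res.one)
  map_zero' := nu_eq E N W j (by rw [ZeroMemClass.coe_zero, map_zero, map_zero]; exact Res.zero)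
  map_mul' a b := nu_eq E N W j (by
    rw [MulMemClass.coe_mul, map_mul, map_mul]; exact (a.2 k h).1.mul (b.2 k h).1)
  map_add' a b := nu_eq E N W j (by
    rw [AddMemClass.coe_add, map_add, map_add]; exact (a.2 k h).1.add (b.2 k h).1)

theorem exists_OO (y : ℝ) : ∀ᶠ n in atTop, y ∈ OO E N W j n := by
  obtain ⟨ν, h, -⟩ := (j y).2
  obtain ⟨n, hn⟩ := eventually_atTop.1 h
  filter_upwards [eventually_ge_atTop n] with m hm
  exact mem_of E N W j ν fun k hk => hn k (hm.trans hk)

theorem tendsto_nu (hj : ∀ y, piR E N W (j y) = y) (y : ℝ) :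
    Tendsto (fun k => (nu E N W j y k : B)) atTop (𝓝 (algebraMap ℝ B y)) := by
  obtain ⟨ν, h, h'⟩ := (j y).2
  have e : (j y).1.2 = y := hj y
  rw [e] at h'
  refine h'.congr' ?_
  filter_upwards [h] with k hk
  rw [nu_eq E N W j hk.1]

/-- The path of ring homomorphisms. -/
noncomputable def EE (σ : ℝ) : OO E N W j 0 →+* ℝ :=
  if σ ≤ 0 then (OO E N W j 0).subtype else
    (E.ev (σ⁻¹ - 1 - ⌊σ⁻¹ - 1⌋₊)).comp (N.subtype.comp (rhoN E N W j (Nat.zero_le ⌊σ⁻¹ - 1⌋₊)))

theorem EE_cont (hj : ∀ y, piR E N W (j y) = y) (y : OO E N W j 0) :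
    Continuous fun σ => EE E N W j σ y := by
  have := path_cont E (fun k => (nu E N W j y k : B)) (fun k => (y.2 k (Nat.zero_le k)).2) y
    (tendsto_nu E N W j hj y)
  convert this using 2 with σ
  unfold EE
  split_ifs <;> rfl

theorem countable_OO [Countable N] :
    Countable (SL(2, ℝ) ⧸ (SpecialLinearGroup.map (n := Fin 2) (OO E N W j 0).subtype).range) := by
  obtain ⟨d, hd⟩ := exists_dK W
  have := W.hD.to_subtype
  have hn : ∀ M : SL(2, ℝ), ∃ n, ∀ i l, M.1 i l ∈ OO E N W j n := fun M =>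
    (eventually_all.2 fun i => eventually_all.2 fun l => exists_OO E N W j (M.1 i l)).exists
  choose n hn using hn
  refine countable_quot _ (fun M => (n M, (List.range (n M)).map
    (fun k => d (SpecialLinearGroup.map ((piK E N W k).comp j) M)),
    fun i l => nu E N W j (M.1 i l) (n M))) fun M M' e => ?_
  simp only [Prod.mk.injEq] at e
  obtain ⟨e1, e2, e3⟩ := e
  obtain ⟨A, hA⟩ := lift_SL _ M (hn M)
  obtain ⟨A', hA'⟩ := lift_SL _ M' (e1 ▸ hn M')
  rw [← e1] at e2 e3
  have hX : SpecialLinearGroup.map (OO E N W j (n M)).subtype (A⁻¹ * A') = M⁻¹ * M' := by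
    rw [map_mul, map_inv, hA, hA']
  have hmem : ∀ i l, (M⁻¹ * M').1 i l ∈ OO E N W j (n M) := fun i l => by
    rw [← hX]; exact ((A⁻¹ * A').1 i l).2
  have hAA : SpecialLinearGroup.map (rhoN E N W j (le_refl (n M))) A =
      SpecialLinearGroup.map (rhoN E N W j (le_refl (n M))) A' := by
    ext i l
    have := congrFun (congrFun e3 i) l
    have a1 : M.1 i l = A.1 i l := (congrFun (congrFun (congrArg Subtype.val hA) i) l).symm
    have a2 : M'.1 i l = A'.1 i l := (congrFun (congrFun (congrArg Subtype.val hA') i) l).symm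
    rw [a1, a2] at this
    exact congrArg Subtype.val this
  have hn0 : ∀ i l, nu E N W j ((M⁻¹ * M').1 i l) (n M) = (1 : Matrix (Fin 2) (Fin 2) N) i l := by
    intro i l
    have h1 : SpecialLinearGroup.map (rhoN E N W j (le_refl (n M))) (A⁻¹ * A') = 1 := by
      rw [map_mul, map_inv, hAA, inv_mul_cancel]
    rw [← hX]
    exact congrFun (congrFun (congrArg Subtype.val h1) i) l
  have hlt : ∀ k, k < n M → ∀ i l, Res N W (piK E N W k (j ((M⁻¹ * M').1 i l)))
      ((1 : Matrix (Fin 2) (Fin 2) N) i l) := by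
    intro k hk i l
    have h1 := hd _ _ (List.map_inj_left.1 e2 k (List.mem_range.2 hk)) i l
    rw [← map_inv, ← map_mul] at h1
    have h2 : W.ι ((1 : Matrix (Fin 2) (Fin 2) N) i l) = (1 : Matrix (Fin 2) (Fin 2) K) i l := by
      simp [Matrix.one_apply, apply_ite W.ι]
    unfold Res
    rw [h2]
    exact h1
  refine lift_SL _ _ fun i l k _ => ?_
  rcases lt_or_ge k (n M) with hk | hk
  · have a1 := nu_eq E N W j (hlt k hk i l)
    have a2 : nu E N W j ((M⁻¹ * M').1 i l) (k + 1) = (1 : Matrix (Fin 2) (Fin 2) N) i l := by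
      rcases Nat.lt_or_eq_of_le (Nat.succ_le_of_lt hk) with h | h
      · exact nu_eq E N W j (hlt _ h i l)
      · rw [show k + 1 = n M from h]; exact hn0 i l
    rw [a1, a2]
    refine ⟨hlt k hk i l, ?_⟩
    by_cases hil : i = l <;> simp [Matrix.one_apply, hil]
  · exact hmem i l k hk

theorem embedding_of [Countable N] (hj : ∀ y, piR E N W (j y) = y) :
    ∃ Φ : GG →* Equiv.Perm ℕ, Function.Injective Φ := by
  have h0 : EE E N W j 0 = (OO E N W j 0).subtype := if_pos le_rfl
  refine exists_embedding (fun σ => SpecialLinearGroup.map (n := Fin 2) (EE E N W j σ))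
    (fun A => continuous_matrix fun i l => EE_cont E N W j hj (A.1 i l)) ?_ ?_ ?_ ?_
  · rw [h0]
    intro A A' e
    ext i l
    exact congrFun (congrFun (congrArg Subtype.val e) i) l
  · rw [h0]; exact countable_OO E N W j
  · have h1 : EE E N W j 1 = ((E.ev ((1 : ℝ)⁻¹ - 1 - ⌊(1 : ℝ)⁻¹ - 1⌋₊)).comp N.subtype).comp
        (rhoN E N W j (Nat.zero_le ⌊(1 : ℝ)⁻¹ - 1⌋₊)) := if_neg (by norm_num)
    rw [h1]
    have : Countable SL(2, N) := inferInstanceAs (Countable {A : Fin 2 → Fin 2 → N // _})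
    refine (Set.countable_range (SpecialLinearGroup.map (n := Fin 2)
      ((E.ev ((1 : ℝ)⁻¹ - 1 - ⌊(1 : ℝ)⁻¹ - 1⌋₊)).comp N.subtype))).mono ?_
    rintro _ ⟨A, rfl⟩
    exact ⟨SpecialLinearGroup.map (rhoN E N W j (Nat.zero_le _)) A, rfl⟩
  · intro M h
    rw [h0] at h
    exact core_trivial _ _ M h

end Sys

theorem exists_N {B : Type} [CommRing B] [IsDomain B] [Algebra ℝ B] (T : B) :
    ∃ N : Subring B, Countable N ∧ T ∈ N ∧ (∀ q : ℚ, algebraMap ℝ B q ∈ N) ∧
      ∀ (d : ℕ) (c : Fin d → N) (b : B), (∃ i, c i ≠ 0) →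
        ∑ i, (c i : B) * b ^ (i : ℕ) = 0 → b ∈ N := by
  let f : Polynomial ℚ →+* B := Polynomial.eval₂RingHom ((algebraMap ℝ B).comp (Rat.castHom ℝ)) T
  let R : Subring B := f.range
  have hP : Countable (Polynomial ℚ) := by
    rw [← Cardinal.mk_le_aleph0_iff]
    exact Polynomial.cardinalMk_le_max.trans (by simp)
  have hR : Countable R := (Set.countable_range f).to_subtype
  let A := Subalgebra.algebraicClosure R B
  refine ⟨A.toSubring, (Algebraic.countable R B).to_subtype, ?_, fun q => ?_, fun d c b hc h => ?_⟩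
  · exact A.algebraMap_mem ⟨T, Polynomial.X, by simp [f]⟩
  · exact A.algebraMap_mem ⟨_, Polynomial.C q, by simp [f]⟩
  · have h1 : IsAlgebraic A b := by
      refine ⟨∑ i : Fin d, Polynomial.monomial (i : ℕ) (c i), ?_, ?_⟩
      · obtain ⟨i, hi⟩ := hc
        intro h0
        apply hi
        have := congrArg (fun p => Polynomial.coeff p i) h0
        simp only [Polynomial.finset_sum_coeff, Polynomial.coeff_monomial, Fin.val_inj,
          Finset.sum_ite_eq', Finset.mem_univ, if_true, Polynomial.coeff_zero] at this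
        exact this
      · rw [map_sum, ← h]
        refine Finset.sum_congr rfl fun i _ => ?_
        rw [Polynomial.aeval_monomial]
        rfl
    exact h1.restrictScalars R

theorem main : ∃ Φ : GG →* Equiv.Perm ℕ, Function.Injective Φ := by
  obtain ⟨N, hc, hT, hq, hN⟩ := exists_N evData.T
  have : CharZero BB := (RingHom.charZero_iff (algebraMap ℝ BB).injective).1 inferInstance
  obtain ⟨W⟩ := nonempty_VData N
  obtain ⟨j, hj⟩ := exists_j evData N W hN hT hq
  exact embedding_of evData N W j hj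

end Pool.Agent.H71.Ulam
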